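import Pool.Agent.Lib.MP_60ff09_nt.Dih.AN0

/-! The analytic side of a Gross-Zagier formula for an abstract section: definitions. -/

set_option autoImplicit false

open Complex Filter Topology Set MeasureTheory CongruenceSubgroup
open UpperHalfPlane hiding I
open scoped Real MatrixGroups ComplexConjugate Modular
open Pool.Agent.Shared.Weier Pool.Agent.Dih

namespace Pool.Agent.Lib.MP_696deb_nt.Y2.An

/-- The factor of automorphy. -/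
noncomputable def jac (g : SL(2, ℤ)) (z : ℂ) : ℂ := g 1 0 * z + g 1 1

/-- A level, the width of the expansions at infinity and a character. -/
structure Lev where
  N : ℕ
  h : ℕ
  ξ : SL(2, ℤ) → ℂ

/-- The conditions on the level. -/
structure Lev.Ok (A : Lev) : Prop where
  Npos : 0 < A.N
  hpos : 0 < A.h
  mul : ∀ g ∈ Gamma0 A.N, ∀ g' ∈ Gamma0 A.N, A.ξ (g * g') = A.ξ g * A.ξ g'
  norm : ∀ g ∈ Gamma0 A.N, ‖A.ξ g‖ = 1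
  neg : A.ξ (-1) = 1
  ker : ∃ n : ℕ, 0 < n ∧ A.N ∣ n ∧ ∀ g ∈ CongruenceSubgroup.Gamma n, A.ξ g = 1

/-- A fundamental set for `Γ₀(N)`. -/
def XN (N : ℕ) : Set ℍ := {z | ∃ q : SL(2, ℤ) ⧸ Gamma0 N, q.out • z ∈ 𝒟ᵒ}

/-- The law of weight `k`. -/
def Lev.Law (A : Lev) (k : ℕ) (F : ℂ → ℂ) : Prop :=
  ∀ g ∈ Gamma0 A.N, ∀ z : ℍ, F (g • z : ℍ) = A.ξ g * jac g z ^ k * F z

/-- Measurable forms of weight two that decay at all cusps. -/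
structure Lev.Dec (A : Lev) (Φ : ℂ → ℂ) : Prop where
  meas : Measurable fun z : ℍ => Φ z
  law : A.Law 2 Φ
  dec : ∃ δ C : ℝ, 0 < δ ∧ ∀ g : SL(2, ℤ), ∀ z ∈ 𝒟,
    ‖Φ (g • z : ℍ)‖ * (g • z).im ≤ C * Real.exp (-δ * z.im)

/-- Holomorphic forms of weight two with bounded invariant norm. -/
structure Lev.Cf (A : Lev) (f : ℂ → ℂ) : Prop where
  hol : Hol f
  law : A.Law 2 f
  bd : ∃ C : ℝ, ∀ z : ℍ, ‖f z‖ * z.im ≤ C

/-- The pairing of two forms of weight two. -/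
noncomputable def pet (N : ℕ) (f Φ : ℂ → ℂ) : ℂ := ∫ z in XN N, conj (f z) * Φ z * (z.im : ℂ) ^ 2

/-- The regularised Fourier coefficient of a form of weight two. -/
noncomputable def reg (h m : ℕ) (Φ : ℂ → ℂ) (ε : ℝ) : ℂ :=
  ∫ y in Ioi (0 : ℝ), (y ^ ε * Real.exp (-2 * π * m * y / h) : ℝ) *
    ∫ x in (0 : ℝ)..1, Φ (x + y * I) * q1 (-(m * x / h))

/-- A curve of genus one with a rotation. -/
structure Crv extends Lev where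
  u : ℕ
  L : PeriodPair
  ρ : ℂ
  a : ℕ → ℂ
  f : ℂ → ℂ
  φ : ℂ → ℂ

/-- The conditions on the curve. -/
structure Crv.Ok (Y : Crv) : Prop where
  lev : Y.toLev.Ok
  cf : Y.toLev.Cf Y.f
  two : 2 ≤ Y.u
  rho : Y.ρ ≠ 0
  rot : ∀ ζ : ℂ, ζ ^ Y.u = 1 → ∀ l ∈ Y.L.lattice, ζ * l ∈ Y.L.lattice
  pow : ∀ g ∈ Gamma0 Y.N, Y.ξ g ^ Y.u = 1
  onto : ∀ ζ : ℂ, ζ ^ Y.u = 1 → ∃ g ∈ Gamma0 Y.N, Y.ξ g = ζ
  a0 : Y.a 0 = 0
  ne : ∃ m, Y.a m ≠ 0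
  qf : QE (fun z => Y.f (Y.h * z)) (PowerSeries.mk Y.a)
  qφ : QE (fun z => Y.φ (Y.h * z)) (PowerSeries.mk fun m => Y.ρ * Y.a m / m)
  law : ∀ g ∈ Gamma0 Y.N, ∀ z : ℍ, Y.φ (g • z : ℍ) - Y.ξ g * Y.φ z ∈ Y.L.lattice
  inj : ∀ z w : ℍ, Y.φ z - Y.φ w ∈ Y.L.lattice → ∃ g ∈ Gamma0 Y.N, Y.ξ g = 1 ∧ z = g • w
  cusp : ∀ g : SL(2, ℤ), ∃ c : ℂ, Tendsto (fun z : ℍ => Y.φ (g • z : ℍ)) atImInfty (𝓝 c) ∧
    ∀ w : ℍ, c - Y.φ w ∉ Y.L.lattice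

/-- The roots of unity. -/
noncomputable def mu (u : ℕ) : Finset ℂ := Polynomial.nthRootsFinset u (1 : ℂ)

/-- The Green function of the curve. -/
noncomputable def Crv.gr (Y : Crv) (p q : ℂ) : ℂ :=
  ∑ ζ ∈ mu Y.u, conj ζ * nerLam (Shared.Weier.sig Y.L) (Shared.Weier.eta Y.L) (ζ * p - q)

/-- The regularised sum over the group. -/
noncomputable def Lev.gsum (A : Lev) (z w : ℍ) (ε : ℝ) : ℂ :=
  ∑' g : Gamma0 A.N, A.ξ g * kerK ε (Real.cosh (dist z ((g : SL(2, ℤ)) • w)))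

/-- A section: the coefficients of the forms of weight one attached to the rows `(c, d)`. -/
structure Sec where
  M : ℕ
  s : ℕ → ℤ → ℤ → ℂ

namespace Sec

variable (S : Sec)

/-- The form of weight one attached to a row. -/
noncomputable def F (c d : ℤ) (z : ℂ) : ℂ := ∑' n : ℕ, S.s n c d * q1 (n * z / S.M)

/-- The Fourier transform in the second entry of the row. -/
noncomputable def lam (n : ℕ) (c l : ℤ) : ℂ :=
  (∑ d ∈ Finset.range S.M, S.s n c d * q1 (d * l / S.M)) / S.M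

/-- The same for integral indices. -/
noncomputable def lamZ (n c l : ℤ) : ℂ := if 0 ≤ n then S.lam n.toNat c l else 0

/-- The coefficient of the holomorphic kernel. -/
noncomputable def hol (μ : ℕ) : ℂ :=
  ∑ k ∈ Finset.range (μ + 1), ∑ x ∈ k.divisorsAntidiagonal, S.lam (μ - k) x.1 x.2

/-- The finite part of the coefficient of the derivative. -/
noncomputable def fin (μ : ℕ) : ℂ :=
  ∑ k ∈ Finset.range (μ + 1), ∑ x ∈ k.divisorsAntidiagonal,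
    S.lam (μ - k) x.1 x.2 * ((Real.log x.2 - Real.log x.1 : ℝ) : ℂ)

/-- The divisor sum at a negative index. -/
noncomputable def neg (μ k : ℕ) : ℂ := ∑ x ∈ k.divisorsAntidiagonal, S.lam (μ + k) x.1 (-x.2)

/-- The regularised archimedean part of the coefficient of the derivative. -/
noncomputable def arch (μ : ℕ) (ε : ℝ) : ℂ :=
  ∑' k : ℕ, S.neg μ k * kerK ε ((μ + 2 * k) / μ)

/-- The singular terms vanish at the index `μ`. -/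
def Zero (μ : ℕ) : Prop := ∀ c : ℤ, S.lam μ c 0 = 0 ∧ S.lam μ 0 c = 0

/-- The conditions on the section. -/
structure Ok (A : Lev) : Prop where
  pos : 0 < S.M
  dvd : A.h ∣ S.M
  per1 : ∀ n c d, S.s n (c + S.M) d = S.s n c d
  per2 : ∀ n c d, S.s n c (d + S.M) = S.s n c d
  odd : ∀ n c d, S.s n (-c) (-d) = -S.s n c d
  bd : ∀ ε : ℝ, 0 < ε → ∃ C : ℝ, ∀ n c d, ‖S.s n c d‖ ≤ C * (1 + n : ℝ) ^ ε
  law : ∀ g ∈ Gamma0 A.N, ∀ (c d : ℤ) (z : ℍ), S.F c d (g • z : ℍ) =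
    A.ξ g * jac g z * S.F (c * g 0 0 + d * g 1 0) (c * g 0 1 + d * g 1 1) z
  dec : ∃ δ C : ℝ, 0 < δ ∧ ∀ g : SL(2, ℤ), ∀ z ∈ 𝒟, ∀ c d : ℤ,
    ‖S.F c d (g • z : ℍ)‖ * √(g • z).im ≤ C * Real.exp (-δ * z.im)

/-- The term of the theta kernel. -/
noncomputable def thT (z : ℂ) (t : ℝ) (c d : ℤ) : ℂ :=
  S.F c d z * (c * conj z + d) * Real.exp (-π * t * normSq (c * z + d) / z.im)

/-- The theta kernel in the symmetric variable. -/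
noncomputable def Kk (z : ℂ) (τ : ℝ) : ℂ :=
  (τ / S.M : ℝ) * ∑' v : ℤ × ℤ, S.thT z (τ / S.M) v.1 v.2

/-- The integral of the kernel against `a + b log τ`, a form of weight two. -/
noncomputable def Phi (a b : ℝ) (z : ℂ) : ℂ :=
  (∫ τ in Ioi (0 : ℝ), ((a + b * Real.log τ) / τ : ℝ) * S.Kk z τ) / z.im

/-- The pairing of the kernel with a form. -/
noncomputable def Ii (N : ℕ) (f : ℂ → ℂ) (τ : ℝ) : ℂ :=
  ∫ z in XN N, conj (f z) * z.im * S.Kk z τ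

/-- The form of the row `k (c, d)` seen from the cusp of `g = (* *; c d)`. -/
noncomputable def Th (k : ℕ) (g : SL(2, ℤ)) (w : ℍ) : ℂ :=
  S.F (k * g 1 0) (k * g 1 1) (g⁻¹ • w : ℍ) * jac g (g⁻¹ • w : ℍ)

end Sec

/-- A form of weight two seen from the cusp of `g`. -/
noncomputable def fs (f : ℂ → ℂ) (g : SL(2, ℤ)) (w : ℍ) : ℂ :=
  f (g⁻¹ • w : ℍ) * jac g (g⁻¹ • w : ℍ) ^ 2

/-- A cusp of width `n` and the expansion of a form at it. -/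
structure Cusp (N : ℕ) (f : ℂ → ℂ) (g₀ : SL(2, ℤ)) (n e : ℕ) (b : ℕ → ℂ) : Prop where
  npos : 0 < n
  epos : 0 < e
  width : ∀ j : ℤ, g₀⁻¹ * ModularGroup.T ^ j * g₀ ∈ Gamma0 N ↔ (n : ℤ) ∣ j
  zero : b 0 = 0
  bd : ∃ C : ℝ, ∀ m, ‖b m‖ ≤ C * (1 + m : ℝ) ^ 2
  sum : ∀ w : ℍ, HasSum (fun m : ℕ => b m * q1 (m * w / e)) (fs f g₀ w)

/-- The section lives at one cusp and has the expansions `t k` there. -/
structure Sec.At (S : Sec) (N : ℕ) (g₀ : SL(2, ℤ)) (e : ℕ) (t : ℕ → ℕ → ℂ) : Prop where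
  one : ∀ g : SL(2, ℤ), (∀ (k : ℕ) (z : ℍ), S.F (k * g 1 0) (k * g 1 1) z = 0) ∨
    ∃ j : ℤ, g₀⁻¹ * ModularGroup.T ^ j * g ∈ Gamma0 N
  bd : ∃ C : ℝ, ∀ k m, ‖t k m‖ ≤ C * (1 + m : ℝ) ^ 2
  sum : ∀ k, 0 < k → ∀ w : ℍ, HasSum (fun m : ℕ => t k m * q1 (m * w / e)) (S.Th k g₀ w)

/-- Holomorphic projection. -/
def ProjStmt (A : Lev) (f : ℂ → ℂ) (a : ℕ → ℂ) : Prop := ∃ β : ℝ, 0 < β ∧ ∀ Φ : ℂ → ℂ, A.Dec Φ →
  ∀ m : ℕ, 0 < m → q1 (m / A.h) = A.ξ ModularGroup.T →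
    Tendsto (reg A.h m Φ) (𝓝[>] 0) (𝓝 (β * a m / m * pet A.N f Φ))

/-- The statement of the analytic side. -/
def AnStmt (A : Lev) (a : ℕ → ℂ) (g₀ : SL(2, ℤ)) (e : ℕ) (b : ℕ → ℂ) : Prop :=
  ∃ C : ℂ, C ≠ 0 ∧ ∀ (S : Sec) (t : ℕ → ℕ → ℂ), S.Ok A → S.At A.N g₀ e t →
    ∃ Λ : ℂ → ℂ, Differentiable ℂ Λ ∧
      (∀ s : ℂ, 5 < s.re → Λ s = ∑' k : ℕ, (k : ℂ) ^ (-(2 * s + 1)) *
        LSeries (fun m => t k m * conj (b m)) (s + 1)) ∧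
      ∀ m μ : ℕ, 0 < m → μ * A.h = m * S.M → q1 (m / A.h) = A.ξ ModularGroup.T → S.Zero μ →
        S.hol μ = C * a m * Λ 0 ∧ (Λ 0 = 0 →
          Tendsto (fun ε => 2 * S.arch μ ε) (𝓝[>] 0) (𝓝 (C * a m * deriv Λ 0 - S.fin μ)))

/-- The statement on the Green function. -/
def GreenStmt (Y : Crv) : Prop := ∀ z w : ℍ,
  (∀ g ∈ Gamma0 Y.N, g • w = w → g = 1 ∨ g = -1) → (∀ g ∈ Gamma0 Y.N, z ≠ g • w) →
    (∀ ε : ℝ, 0 < ε → Summable fun g : Gamma0 Y.N =>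
      kerK ε (Real.cosh (dist z ((g : SL(2, ℤ)) • w)))) ∧
    Tendsto (Y.toLev.gsum z w) (𝓝[>] 0) (𝓝 (-2 * Y.gr (Y.φ z) (Y.φ w)))

end Pool.Agent.Lib.MP_696deb_nt.Y2.An
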