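import Pool.Agent.Lib.MP_696deb_nt.Y2.A0
import Pool.Agent.Lib.MP_60ff09_nt.Dih.ANf
import Pool.Agent.Lib.MP_60ff09_nt.Dih.ANf2

/-! The fundamental set and unfolding. -/

set_option autoImplicit false

open Complex Filter Topology Set MeasureTheory CongruenceSubgroup
open UpperHalfPlane hiding I
open scoped Real MatrixGroups ComplexConjugate Modular Classical
open Pool.Agent.Shared.Weier Pool.Agent.Dih

namespace Pool.Agent.Lib.MP_696deb_nt.Y2.An

private theorem jac_eq (g : SL(2, ℤ)) (z : ℍ) : jac g z = denom g z := by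
  rw [ModularGroup.denom_apply, jac]

private theorem coe_jac (g : SL(2, ℤ)) (z : ℍ) :
    ((g • z : ℍ) : ℂ) = (g 0 0 * z + g 0 1) / jac g z := by
  rw [coe_specialLinearGroup_apply, jac]
  simp

theorem jac_ne (g : SL(2, ℤ)) (z : ℍ) : jac g z ≠ 0 := jac_eq g z ▸ denom_ne_zero g z

theorem row_jac (g : SL(2, ℤ)) (z : ℍ) (c d : ℤ) : (c * (g • z : ℍ) + d : ℂ) * jac g z =
    (c * g 0 0 + d * g 1 0 : ℤ) * z + (c * g 0 1 + d * g 1 1 : ℤ) := by
  rw [coe_jac, add_mul, mul_assoc, div_mul_cancel₀ _ (jac_ne g z), jac]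
  push_cast
  ring

theorem jac_mul (g g' : SL(2, ℤ)) (z : ℍ) : jac (g * g') z = jac g (g' • z : ℍ) * jac g' z := by
  rw [jac.eq_1 g, row_jac, jac]
  simp [Matrix.mul_apply, Fin.sum_univ_two]

theorem jac_one (z : ℂ) : jac 1 z = 1 := by simp [jac]

theorem jac_neg (g : SL(2, ℤ)) (z : ℂ) : jac (-g) z = -jac g z := by
  simp [jac, add_comm]

theorem jac_T (j : ℤ) (z : ℂ) : jac (ModularGroup.T ^ j) z = 1 := by
  simp [jac, ModularGroup.coe_T_zpow, -map_zpow]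

theorem im_jac (g : SL(2, ℤ)) (z : ℍ) : (g • z).im = z.im / normSq (jac g z) := by
  rw [jac_eq, ModularGroup.im_smul_eq_div_normSq]

theorem T_mem (N : ℕ) (j : ℤ) : ModularGroup.T ^ j ∈ Gamma0 N :=
  zpow_mem (Gamma0_mem.2 (by simp [ModularGroup.T])) j

theorem neg_mem {N : ℕ} {g : SL(2, ℤ)} (hg : g ∈ Gamma0 N) : -g ∈ Gamma0 N := by
  rw [Gamma0_mem] at hg ⊢
  simpa using hg

theorem coe_T (j : ℤ) (z : ℍ) : ((ModularGroup.T ^ j • z : ℍ) : ℂ) = z + j :=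
  ModularGroup.coe_T_zpow_smul_eq z

section

variable {A : Lev}

theorem Lev.Ok.one (h : A.Ok) : A.ξ 1 = 1 := by
  obtain ⟨n, -, -, k⟩ := h.ker
  exact k 1 (one_mem _)

theorem Lev.Ok.mul_conj (h : A.Ok) {g : SL(2, ℤ)} (hg : g ∈ Gamma0 A.N) :
    A.ξ g * conj (A.ξ g) = 1 := by
  rw [Complex.mul_conj', h.norm g hg, ofReal_one, one_pow]

theorem Lev.Ok.inv (h : A.Ok) {g : SL(2, ℤ)} (hg : g ∈ Gamma0 A.N) : A.ξ g⁻¹ = conj (A.ξ g) := by
  have e := h.mul _ (inv_mem hg) g hg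
  rw [inv_mul_cancel, h.one] at e
  rw [← mul_one (A.ξ g⁻¹), ← h.mul_conj hg, ← mul_assoc, ← e, one_mul]

theorem Lev.Ok.neg' (h : A.Ok) {g : SL(2, ℤ)} (hg : g ∈ Gamma0 A.N) : A.ξ (-g) = A.ξ g := by
  rw [← neg_one_mul, h.mul _ (neg_mem (one_mem _)) g hg, h.neg, one_mul]

theorem Lev.Ok.zpow (h : A.Ok) {g : SL(2, ℤ)} (hg : g ∈ Gamma0 A.N) (j : ℤ) :
    A.ξ (g ^ j) = A.ξ g ^ j := by
  have n : A.ξ g ≠ 0 := left_ne_zero_of_mul_eq_one (h.mul_conj hg)
  induction j with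
  | zero => rw [zpow_zero, zpow_zero, h.one]
  | succ j ih => rw [zpow_add_one, zpow_add_one₀ n, h.mul _ (zpow_mem hg _) g hg, ih]
  | pred j ih => rw [zpow_sub_one, zpow_sub_one₀ n, h.mul _ (zpow_mem hg _) _ (inv_mem hg), ih,
      h.inv hg, eq_inv_of_mul_eq_one_right (h.mul_conj hg)]

theorem Lev.Dec.bd {Φ : ℂ → ℂ} (h : A.Dec Φ) : ∃ C : ℝ, ∀ z : ℍ, ‖Φ z‖ * z.im ≤ C := by
  obtain ⟨δ, C, hδ, hC⟩ := h.dec
  refine ⟨|C|, fun z => ?_⟩
  obtain ⟨g, hg⟩ := ModularGroup.exists_smul_mem_fd z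
  have e := hC g⁻¹ _ hg
  rw [inv_smul_smul] at e
  refine e.trans ((mul_le_mul_of_nonneg_right (le_abs_self C) (Real.exp_pos _).le).trans
    (mul_le_of_le_one_right (abs_nonneg C) (Real.exp_le_one_iff.2 ?_)))
  exact mul_nonpos_of_nonpos_of_nonneg (neg_nonpos.2 hδ.le) (g • z).im_pos.le

theorem Lev.Law.norm (hA : A.Ok) {Φ : ℂ → ℂ} (h : A.Law 2 Φ) {g : SL(2, ℤ)} (hg : g ∈ Gamma0 A.N)
    (z : ℍ) : ‖Φ (g • z : ℍ)‖ * (g • z).im = ‖Φ z‖ * z.im := by
  have n := norm_ne_zero_iff.2 (jac_ne g z)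
  rw [h g hg, im_jac, norm_mul, norm_mul, hA.norm g hg, norm_pow, normSq_eq_norm_sq]
  field_simp

/-- The density of the pairing is invariant. -/
theorem Lev.Law.pair (hA : A.Ok) {f Φ : ℂ → ℂ} (hf : A.Law 2 f) (h : A.Law 2 Φ) {g : SL(2, ℤ)}
    (hg : g ∈ Gamma0 A.N) (z : ℍ) :
    conj (f (g • z : ℍ)) * Φ (g • z : ℍ) * ((g • z).im : ℂ) ^ 2 =
      conj (f z) * Φ z * (z.im : ℂ) ^ 2 := by
  have n := jac_ne g z
  have n' : conj (jac g z) ≠ 0 := (map_ne_zero _).2 n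
  rw [hf g hg, h g hg, im_jac, ofReal_div, ← Complex.mul_conj, map_mul, map_mul, map_pow]
  field_simp
  linear_combination conj (f z) * Φ z * (z.im : ℂ) ^ 2 * hA.mul_conj hg

end

variable {N : ℕ}

theorem finite_quot (hN : 0 < N) : Finite (SL(2, ℤ) ⧸ Gamma0 N) :=
  have : NeZero N := ⟨hN.ne'⟩
  Subgroup.finite_quotient_of_finiteIndex

theorem measurableSet_XN (N : ℕ) : MeasurableSet (XN N) := by
  refine IsOpen.measurableSet ?_
  rw [XN, ofPred_exists]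
  exact isOpen_iUnion fun q => ModularGroup.isOpen_fdo.preimage (anf_cont _)

theorem volume_XN_lt (hN : 0 < N) : volume (XN N) < ⊤ := by
  have := finite_quot hN
  rw [XN, ofPred_exists, ← biUnion_univ]
  exact measure_biUnion_lt_top finite_univ fun q _ =>
    ((anf_mp q.out).measure_preimage_emb (anf_emb _) _).trans_lt anf_vol

theorem exists_of_mem_XN {z : ℍ} (hz : z ∈ XN N) :
    ∃ q : SL(2, ℤ) ⧸ Gamma0 N, ∃ z₀ ∈ 𝒟, z = q.out⁻¹ • z₀ := by
  obtain ⟨q, hq⟩ := hz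
  exact ⟨q, _, ModularGroup.fdo_subset_fd hq, (inv_smul_smul _ _).symm⟩

theorem stab_XN {z : ℍ} (hz : z ∈ XN N) {g : SL(2, ℤ)} (hg : g • z = z) : g = 1 ∨ g = -1 := by
  obtain ⟨q, hq⟩ := hz
  have h := ModularGroup.eq_one_or_neg_one_of_mem_fdo_mem_fdo (g := q.out * g * q.out⁻¹) hq
    (by rwa [mul_smul, mul_smul, inv_smul_smul, hg])
  refine h.imp (fun e => ?_) fun e => ?_
  · rw [mul_inv_eq_one] at e
    exact mul_eq_left.1 e
  · rw [mul_inv_eq_iff_eq_mul, neg_one_mul, ← mul_neg_one] at e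
    exact mul_left_cancel e

private theorem a1_key {z : ℍ} (hz : z ∈ XN N) {g : SL(2, ℤ)} (hg : g ∈ Gamma0 N)
    (h : g • z ∈ XN N) : g = 1 ∨ g = -1 := by
  obtain ⟨q, hq⟩ := hz
  obtain ⟨r, hr⟩ := h
  have h := ModularGroup.eq_one_or_neg_one_of_mem_fdo_mem_fdo (g := r.out * g * q.out⁻¹) hq
    (by rwa [mul_smul, mul_smul, inv_smul_smul])
  obtain rfl : r = q := by
    rw [← r.out_eq, ← q.out_eq]
    refine QuotientGroup.eq.2 ?_
    rcases h with e | e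
    · rw [mul_inv_eq_one] at e
      rwa [← e, inv_mul_cancel_left]
    · rw [mul_inv_eq_iff_eq_mul, neg_one_mul, ← neg_eq_iff_eq_neg, ← mul_neg] at e
      rw [← e, inv_mul_cancel_left]
      exact neg_mem hg
  refine stab_XN ⟨r, hq⟩ (MulAction.injective r.out ?_)
  have e := ModularGroup.eq_smul_self_of_mem_fdo_mem_fdo (g := r.out * g * r.out⁻¹) hq
    (by rwa [mul_smul, mul_smul, inv_smul_smul])
  rw [mul_smul, mul_smul, inv_smul_smul] at e
  exact e.symm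

theorem eq_of_mem_XN {z : ℍ} (hz : z ∈ XN N) {g : SL(2, ℤ)} (hg : g ∈ Gamma0 N)
    (h : g • z ∈ XN N) : g • z = z := by
  rcases a1_key hz hg h with rfl | rfl
  · exact one_smul _ _
  · rw [ModularGroup.SL_neg_smul, one_smul]

private theorem a1_ae : ∀ᵐ z : ℍ, ∃ γ : Gamma0 N, (γ : SL(2, ℤ))⁻¹ • z ∈ XN N := by
  filter_upwards [anf_null (anf_re (1 / 2)), anf_null (anf_re (-(1 / 2))),
    anf_null (Measure.addHaar_sphere volume (0 : ℂ) 1)] with z h1 h2 h3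
  obtain ⟨g, hg⟩ := ModularGroup.exists_smul_mem_fd z
  have h4 : g • z ∈ 𝒟ᵒ := ⟨hg.1.lt_of_ne fun e => h3 g (by
    rw [mem_sphere_zero_iff_norm, ← sq_eq_sq₀ (norm_nonneg _) zero_le_one, ← normSq_eq_norm_sq,
      ← e, one_pow]), hg.2.lt_of_ne fun e => by
    rcases eq_or_eq_neg_of_abs_eq e with e | e
    exacts [h1 g e, h2 g e]⟩
  refine ⟨⟨g⁻¹ * (g : SL(2, ℤ) ⧸ Gamma0 N).out, QuotientGroup.eq.1 (Quotient.out_eq _).symm⟩,
    g, ?_⟩
  rwa [mul_inv_rev, inv_inv, mul_smul, smul_inv_smul]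

private def a1X (γ : Gamma0 N) : Set ℍ := (fun z => (γ : SL(2, ℤ))⁻¹ • z) ⁻¹' XN N

private theorem a1_pre (γ : Gamma0 N) : (fun z => (γ : SL(2, ℤ)) • z) ⁻¹' a1X γ = XN N := by
  ext z
  simp only [a1X, mem_preimage, inv_smul_smul]

private theorem a1_sum :
    Measure.sum (fun γ : Gamma0 N => volume.restrict (a1X γ)) = 2 • (volume : Measure ℍ) := by
  have hm : ∀ γ : Gamma0 N, MeasurableSet (a1X γ) := fun γ =>
    (measurableSet_XN N).preimage (anf_cont _).measurable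
  ext s hs
  rw [Measure.sum_apply _ hs, Measure.smul_apply, nsmul_eq_mul, ← setLIntegral_const]
  simp only [Measure.restrict_apply hs]
  simp only [inter_comm s, ← Measure.restrict_apply (hm _), ← lintegral_indicator_one (hm _)]
  rw [← lintegral_tsum fun γ => (measurable_one.indicator (hm γ)).aemeasurable]
  refine lintegral_congr_ae (ae_restrict_of_ae ((a1_ae (N := N)).mono fun z ⟨γ, hγ⟩ => ?_))
  have ne : γ ≠ ⟨-γ, neg_mem γ.2⟩ := fun e => by
    have h1 : (γ : SL(2, ℤ)) * 1 = γ * -1 := by simpa using congrArg Subtype.val e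
    simpa using congrArg (fun g : SL(2, ℤ) => g 0 0) (mul_left_cancel h1)
  have h2 : z ∈ a1X ⟨-γ, neg_mem γ.2⟩ := by
    change (-(γ : SL(2, ℤ)))⁻¹ • z ∈ XN N
    rwa [inv_neg, ModularGroup.SL_neg_smul]
  classical
  refine (tsum_eq_sum (s := {γ, ⟨-γ, neg_mem γ.2⟩}) fun δ hδ => indicator_of_notMem
    (fun h => hδ ?_) _).trans ?_
  · have h3 := a1_key (g := (δ : SL(2, ℤ))⁻¹ * γ) hγ (mul_mem (inv_mem δ.2) γ.2)
      (by rwa [mul_smul, smul_inv_smul])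
    rw [inv_mul_eq_one, inv_mul_eq_iff_eq_mul, mul_neg_one, ← neg_eq_iff_eq_neg] at h3
    rw [Finset.mem_insert, Finset.mem_singleton]
    exact h3.imp Subtype.ext fun e => Subtype.ext e.symm
  · rw [Finset.sum_pair ne, indicator_of_mem (show z ∈ a1X γ from hγ), indicator_of_mem h2]
    norm_num

theorem lintegral_unfoldN {h : ℍ → ENNReal} (hh : Measurable h) :
    ∑' γ : Gamma0 N, ∫⁻ z in XN N, h ((γ : SL(2, ℤ)) • z) = 2 * ∫⁻ z, h z := by
  have e := lintegral_sum_measure h fun γ : Gamma0 N => volume.restrict (a1X γ)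
  rw [a1_sum, two_smul, lintegral_add_measure, ← two_mul] at e
  rw [e]
  refine tsum_congr fun γ => ?_
  rw [← (anf_mp γ).setLIntegral_comp_preimage_emb (anf_emb _) h, a1_pre]

private theorem a1_hasSum {E : Type} [NormedAddCommGroup E] [NormedSpace ℝ E] {h : ℍ → E}
    (hh : Integrable h) :
    HasSum (fun γ : Gamma0 N => ∫ z in XN N, h ((γ : SL(2, ℤ)) • z)) ((∫ z, h z) + ∫ z, h z) := by
  have e := hasSum_integral_measure (f := h) (μ := fun γ : Gamma0 N => volume.restrict (a1X γ))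
    (by rw [a1_sum, two_smul]; exact hh.add_measure hh)
  rw [a1_sum, two_smul, integral_add_measure hh hh] at e
  convert e using 2 with γ
  rw [← (anf_mp γ).setIntegral_preimage_emb (anf_emb _) h, a1_pre]

theorem integral_unfoldN {h : ℍ → ℂ} (hh : Integrable h) :
    (∀ γ : Gamma0 N, IntegrableOn (fun z => h ((γ : SL(2, ℤ)) • z)) (XN N)) ∧
    (Summable fun γ : Gamma0 N => ∫ z in XN N, ‖h ((γ : SL(2, ℤ)) • z)‖) ∧
    HasSum (fun γ : Gamma0 N => ∫ z in XN N, h ((γ : SL(2, ℤ)) • z)) (2 * ∫ z, h z) ∧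
    ∫ z in XN N, ∑' γ : Gamma0 N, h ((γ : SL(2, ℤ)) • z) = 2 * ∫ z, h z := by
  have h1 : ∀ γ : Gamma0 N, IntegrableOn (fun z => h ((γ : SL(2, ℤ)) • z)) (XN N) := fun γ =>
    ((anf_mp γ).integrable_comp_of_integrable hh).integrableOn
  have h2 := (a1_hasSum (N := N) hh.norm).summable
  have h3 := a1_hasSum (N := N) hh
  rw [← two_mul] at h3
  exact ⟨h1, h2, h3, (integral_tsum_of_summable_integral_norm h1 h2).symm.trans h3.tsum_eq⟩

/-- The mean of a function of period one over a longer interval. -/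
theorem integral_nat_period {F : ℝ → ℂ} (hF : ∀ x, F (x + 1) = F x)
    (hi : IntervalIntegrable F volume 0 1) (n : ℕ) :
    ∫ x in (0 : ℝ)..n, F x = n * ∫ x in (0 : ℝ)..1, F x := by
  have hp : Function.Periodic F 1 := hF
  have := hp.intervalIntegral_add_zsmul_eq n 0
    (hp.intervalIntegrable₀ one_ne_zero hi)
  simpa using this

end Pool.Agent.Lib.MP_696deb_nt.Y2.An
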