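import Pool.Agent.Lib.MP_696deb_nt.Y2.A1
import Pool.Agent.Lib.MP_60ff09_nt.Dih.ANh

/-! Gaussian sums over rows with periodic coefficients. -/

set_option autoImplicit false

open Complex Filter Topology Set MeasureTheory CongruenceSubgroup
open UpperHalfPlane hiding I
open scoped Real MatrixGroups ComplexConjugate Modular Classical
open Pool.Agent.Shared.Weier Pool.Agent.Dih

namespace Pool.Agent.Lib.MP_696deb_nt.Y2.An

/-- The Gaussian sum over all rows. -/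
noncomputable def gk (M : ℕ) (p : ℤ → ℤ → ℂ) (z : ℂ) (τ : ℝ) : ℂ :=
  (τ / M : ℝ) * ∑' v : ℤ × ℤ, p v.1 v.2 * (v.1 * conj z + v.2) *
    Real.exp (-π * (τ / M) * normSq (v.1 * z + v.2) / z.im)

/-- The Fourier transform in the second variable. -/
noncomputable def ft (M : ℕ) (p : ℤ → ℤ → ℂ) (c l : ℤ) : ℂ :=
  (∑ d ∈ Finset.range M, p c d * q1 (d * l / M)) / M

/-- Periodic and bounded coefficients. -/
structure PB (M : ℕ) (p : ℤ → ℤ → ℂ) (D : ℝ) : Prop where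
  per1 : ∀ c d, p (c + M) d = p c d
  per2 : ∀ c d, p c (d + M) = p c d
  bd : ∀ c d, ‖p c d‖ ≤ D

variable {M : ℕ} {p : ℤ → ℤ → ℂ} {D : ℝ}

theorem a2_norm (a : ℤ) (x : ℝ) (M : ℕ) : ‖q1 (a * x / M)‖ = 1 := by
  rw [norm_q1, show (a * x / M : ℂ) = (a * x / M : ℝ) by push_cast; rfl, ofReal_im, mul_zero,
    Real.exp_zero]

theorem a2_sum {F : ℕ → ℂ} {a : ℕ → ℤ} (h : ∀ d, ‖F d‖ ≤ D) :
    ‖∑ d ∈ Finset.range M, F d * q1 (a d / M)‖ ≤ M * D := by
  refine (norm_sum_le_of_le _ (n := fun _ => D) fun d _ => ?_).trans_eq (by simp)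
  have := a2_norm (a d) 1 M
  rw [ofReal_one, mul_one] at this
  rw [norm_mul, this, mul_one]
  exact h d

theorem PB.ft (hM : 0 < M) (h : PB M p D) : PB M (ft M p) D := by
  refine ⟨fun c l => by simp only [An.ft, h.per1], fun c l => ?_, fun c l => ?_⟩
  · refine congrArg (· / (M : ℂ)) (Finset.sum_congr rfl fun d _ => congrArg _ ?_)
    simpa using anc_q1 hM (x := d * (l + M)) (y := d * l) ⟨d, by ring⟩
  · rw [An.ft, norm_div, Complex.norm_natCast, div_le_iff₀' (Nat.cast_pos.2 hM)]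
    simpa using a2_sum (M := M) (a := fun d => d * l) fun d => h.bd c d

theorem summable_gk {z : ℂ} (hz : 0 < z.im) {t : ℝ} (ht : 0 < t) : Summable fun v : ℤ × ℤ =>
    ‖(v.1 : ℂ) * z + v.2‖ * Real.exp (-π * t * normSq (v.1 * z + v.2) / z.im) := by
  have ha : 0 < t * z.im / (1 + z.re ^ 2 + z.im ^ 2) := by positivity
  refine ane_prod ha ha (fun _ => by positivity) (norm_nonneg z) zero_le_one fun v => ?_
  refine mul_le_mul ((norm_add_le _ _).trans_eq ?_) (Real.exp_le_exp.2 ?_) (Real.exp_nonneg _)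
    (by positivity)
  · rw [norm_mul, norm_intCast, norm_intCast, mul_comm, one_mul]
  · rw [← sub_nonneg]
    have : 0 ≤ π * t * ((v.1 * z.re + v.2) ^ 2 + (v.1 * (z.re ^ 2 + z.im ^ 2) + v.2 * z.re) ^ 2) /
      (z.im * (1 + z.re ^ 2 + z.im ^ 2)) := by positivity
    refine this.trans_eq ?_
    simp only [normSq_apply, add_re, add_im, mul_re, mul_im, intCast_re, intCast_im]
    field_simp
    ring

theorem a2_real {y τ n : ℝ} (hy : 0 < y) (hτ : 0 < τ) (hn : 0 < n) (c l : ℤ) :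
    τ / n * Real.exp (-π * (τ / n / y) * (c * y) ^ 2) *
      ((l / (n * (τ / n / y)) + c * y) / √(τ / n / y) *
        Real.exp (-π * (l / n) ^ 2 / (τ / n / y))) = y * jw c l (y / n) τ := by
  obtain ⟨s, hs, rfl⟩ : ∃ s, 0 < s ∧ τ = s ^ 2 := ⟨√τ, by positivity, (Real.sq_sqrt hτ.le).symm⟩
  obtain ⟨r, hr, rfl⟩ : ∃ r, 0 < r ∧ y = r ^ 2 * n :=
    ⟨√(y / n), by positivity, by rw [Real.sq_sqrt (by positivity)]; field_simp⟩
  rw [jw, show s ^ 2 / n / (r ^ 2 * n) = (s / (r * n)) ^ 2 by field_simp,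
    show r ^ 2 * n / n = r ^ 2 by field_simp, Real.sqrt_sq hs.le, Real.sqrt_sq hr.le,
    Real.sqrt_sq (by positivity), show -π * r ^ 2 * (s ^ 2 * c ^ 2 + l ^ 2 / s ^ 2) =
      -π * (s / (r * n)) ^ 2 * (c * (r ^ 2 * n)) ^ 2 +
        -π * (l / n) ^ 2 / (s / (r * n)) ^ 2 by field_simp; ring, Real.exp_add]
  field_simp
  ring

theorem a2_term (p : ℤ → ℤ → ℂ) (z : ℂ) (x : ℝ) (c d : ℤ) :
    ‖p c d * (c * conj z + d) * Real.exp x‖ = ‖p c d‖ * (‖(c : ℂ) * z + d‖ * Real.exp x) := by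
  rw [norm_mul, norm_mul, anh_conj, Complex.norm_real, Real.norm_of_nonneg (Real.exp_nonneg _),
    mul_assoc]

/-- Poisson summation in the second entry. -/
theorem PB.gk_eq (hM : 0 < M) (h : PB M p D) {z : ℂ} (hz : 0 < z.im) {τ : ℝ} (hτ : 0 < τ) :
    gk M p z τ = z.im * -I * ∑' v : ℤ × ℤ, An.ft M p v.1 v.2 * jw v.1 v.2 (z.im / M) τ *
      q1 (v.1 * v.2 * z.re / M) := by
  have hn : (0 : ℝ) < M := Nat.cast_pos.2 hM
  have s1 : Summable fun v : ℤ × ℤ => p v.1 v.2 * (v.1 * conj z + v.2) *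
      Real.exp (-π * (τ / M) * normSq (v.1 * z + v.2) / z.im) :=
    Summable.of_norm_bounded ((summable_gk hz (t := τ / M) (by positivity)).mul_left D) fun v => by
      rw [a2_term]
      exact mul_le_mul_of_nonneg_right (h.bd _ _) (by positivity)
  have s2 : Summable fun v : ℤ × ℤ => An.ft M p v.1 v.2 * jw v.1 v.2 (z.im / M) τ *
      q1 (v.1 * v.2 * z.re / M) := by
    refine Summable.of_norm_bounded ((summable_jw (Y := z.im / M) (by positivity)
      hτ).mul_left D) fun v => ?_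
    rw [norm_mul, norm_mul, ← Int.cast_mul, a2_norm, mul_one, Complex.norm_real, Real.norm_eq_abs]
    exact mul_le_mul_of_nonneg_right ((h.ft hM).bd _ _) (abs_nonneg _)
  rw [gk, s1.tsum_prod, s2.tsum_prod, ← tsum_mul_left, ← tsum_mul_left]
  refine tsum_congr fun c => ?_
  have e := pois1 hM (φ := p c) (h.per2 c) (a := τ / M / z.im) (by positivity) (c * z.re) (c * z.im)
  have e' : ∀ d : ℤ, p c d * (c * conj z + d) *
      Real.exp (-π * (τ / M) * normSq (c * z + d) / z.im) =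
      Real.exp (-π * (τ / M / z.im) * (c * z.im) ^ 2) * (p c d *
        (d + (c * z.re : ℝ) - I * (c * z.im : ℝ)) *
          Real.exp (-π * (τ / M / z.im) * (d + c * z.re) ^ 2)) := fun d => by
    rw [mul_left_comm, ← ofReal_mul, ← Real.exp_add]
    congr 3
    · apply Complex.ext <;> simp [add_comm]
    · simp only [normSq_apply, add_re, add_im, mul_re, mul_im, intCast_re, intCast_im]
      ring_nf
  simp only [e']
  rw [tsum_mul_left, e, ← mul_assoc, ← tsum_mul_left, ← tsum_mul_left]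
  refine tsum_congr fun l => ?_
  have k := congrArg ofReal (a2_real hz hτ hn c l)
  rw [ofReal_mul, ofReal_mul, ofReal_mul z.im] at k
  rw [← An.ft, show ((c * z.re : ℝ) * l / M : ℂ) = c * l * z.re / M by push_cast; ring]
  linear_combination -I * An.ft M p c l * q1 (c * l * z.re / M) * k

/-- The sum at `τ` is a sum of the same kind at `1 / τ`. -/
theorem PB.gk_swap (hM : 0 < M) (h : PB M p D) : ∃ p' : ℤ → ℤ → ℂ, PB M p' (M * D) ∧
    ∀ z : ℂ, 0 < z.im → ∀ τ : ℝ, 0 < τ → gk M p z τ = gk M p' z τ⁻¹ := by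
  have hf := h.ft hM
  have h0 : (M : ℂ) ≠ 0 := Nat.cast_ne_zero.2 hM.ne'
  have hp : PB M (fun c d => ∑ l ∈ Finset.range M, An.ft M p l c * q1 ((-(d * l) : ℤ) / M))
      (M * D) := by
    exact ⟨fun c d => by simp only [hf.per2], fun c d => Finset.sum_congr rfl fun l _ =>
      congrArg _ (anc_q1 hM ⟨-l, by ring⟩), fun c d => a2_sum fun l => hf.bd l c⟩
  have key : ∀ c l : ℤ, An.ft M (fun c d => ∑ l ∈ Finset.range M,
      An.ft M p l c * q1 ((-(d * l) : ℤ) / M)) c l = An.ft M p l c := fun c l => by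
    have e : ∀ d j : ℕ, An.ft M p j c * q1 ((-(d * j) : ℤ) / M) * q1 (d * l / M) =
        An.ft M p j c * q1 (d * ((l - j : ℤ) / M)) := fun d j => by
      rw [mul_assoc, ← q1_add]
      push_cast
      ring_nf
    rw [An.ft, div_eq_iff h0, ← anc_pick hM l (g := fun x => An.ft M p x c) fun y ⟨t, k⟩ => by
      rw [show l = y + t * M by linear_combination k]
      exact (Function.Periodic.int_mul (f := fun x => An.ft M p x c) (c := (M : ℤ))
        (fun x => hf.per1 x c) t y).symm]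
    simp only [Finset.sum_mul, e]
    rw [Finset.sum_comm]
    simp only [← Finset.mul_sum, anc_orth hM, mul_ite, ite_mul, mul_zero, zero_mul]
  refine ⟨_, hp, fun z hz τ hτ => ?_⟩
  rw [h.gk_eq hM hz hτ, hp.gk_eq hM hz (inv_pos.2 hτ), ← (Equiv.prodComm ℤ ℤ).tsum_eq]
  refine congrArg _ (tsum_congr fun ⟨c, l⟩ => ?_)
  have e' : jw c l (z.im / M) τ⁻¹ = jw l c (z.im / M) τ := by
    simp only [jw, Real.sqrt_inv, div_eq_mul_inv, inv_inv]
    ring_nf
  simp only [Equiv.prodComm_apply, Prod.swap_prod_mk]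
  rw [key, e', mul_comm (l : ℂ)]

theorem a2_exp {z : ℂ} {a ρ : ℝ} (ha : 0 < a) (hρ : 0 < ρ)
    (hv : ∀ v : ℤ × ℤ, ρ * ‖v‖ ≤ ‖(v.1 : ℂ) * z + v.2‖) (k : ℕ) (v : ℤ × ℤ) :
    ‖(v.1 : ℂ) * z + v.2‖ * Real.exp (-(a * ‖(v.1 : ℂ) * z + v.2‖ ^ 2)) ≤
      (k + 2).factorial / a ^ (k + 2) / ρ ^ (2 * k + 3) * (‖v‖ ^ 3)⁻¹ := by
  rcases eq_or_ne v 0 with rfl | h0
  · simp
  have h1 : 1 ≤ ‖v‖ := by
    by_contra! h1
    have a1 := (norm_fst_le v).trans_lt h1
    have a2 := (norm_snd_le v).trans_lt h1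
    rw [Int.norm_eq_abs, ← Int.cast_abs, ← Int.cast_one, Int.cast_lt, Int.abs_lt_one_iff] at a1 a2
    exact h0 (Prod.ext a1 a2)
  have h2 := hv v
  generalize ‖(v.1 : ℂ) * z + v.2‖ = r at h2
  generalize ‖v‖ = s at h1 h2
  have hs : 0 < s := by linarith
  have hr : 0 < r := lt_of_lt_of_le (by positivity) h2
  have h4 : ρ ^ (2 * k + 3) * s ^ 3 ≤ r ^ (2 * k + 3) :=
    (mul_le_mul_of_nonneg_left (pow_le_pow_right₀ h1 (show 3 ≤ 2 * k + 3 by omega))
      (by positivity)).trans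
      (by rw [← mul_pow]; exact pow_le_pow_left₀ (by positivity) h2 _)
  calc r * Real.exp (-(a * r ^ 2)) ≤ r * ((k + 2).factorial / (a * r ^ 2) ^ (k + 2)) :=
        mul_le_mul_of_nonneg_left (anh_exp (by positivity) _) hr.le
    _ = (k + 2).factorial / a ^ (k + 2) / r ^ (2 * k + 3) := by
        rw [mul_pow]
        field_simp
        ring
    _ ≤ (k + 2).factorial / a ^ (k + 2) / (ρ ^ (2 * k + 3) * s ^ 3) := by gcongr
    _ = _ := by rw [← div_div, div_eq_mul_inv]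

/-- The invariant bound. -/
theorem norm_gk_le (hM : 0 < M) (k : ℕ) : ∃ C : ℝ, 0 ≤ C ∧ ∀ (p : ℤ → ℤ → ℂ) (D : ℝ),
    (∀ c d, ‖p c d‖ ≤ D) → ∀ g : SL(2, ℤ), ∀ z ∈ 𝒟, ∀ τ : ℝ, 0 < τ →
      ‖gk M p (g • z : ℍ) τ‖ ≤ C * (D * √(g • z).im) * z.im ^ (k + 2) / τ ^ (k + 1) := by
  obtain ⟨ρ, hρ, hv⟩ := anh_rho (1 / 2) (B := 1 / 2) (by norm_num)
  have hn : (0 : ℝ) < M := Nat.cast_pos.2 hM
  have hS : 0 ≤ ∑' v : ℤ × ℤ, (‖v‖ ^ 3)⁻¹ := tsum_nonneg fun v => by positivity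
  refine ⟨2 * ((k + 2).factorial / π ^ (k + 2) / ρ ^ (2 * k + 3)) * (∑' v : ℤ × ℤ, (‖v‖ ^ 3)⁻¹) *
    M ^ (k + 1), by positivity, fun p D hD g z hz τ hτ => ?_⟩
  have hy : 0 < z.im := z.im_pos
  have h1 : 1 / 2 ≤ z.im := by nlinarith [ModularGroup.three_le_four_mul_im_sq_of_mem_fd hz]
  have ht : 0 < τ / M := by positivity
  have hD0 : 0 ≤ D := (norm_nonneg _).trans (hD 0 0)
  have hj : 0 < ‖jac g z‖ := norm_pos_iff.2 (jac_ne g z)
  have h2 : 1 ≤ 2 * √(g • z).im * ‖jac g z‖ := by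
    rw [im_jac, Complex.normSq_eq_norm_sq, Real.sqrt_div hy.le, Real.sqrt_sq hj.le, mul_assoc,
      div_mul_cancel₀ _ hj.ne']
    have := Real.le_sqrt_of_sq_le (show (1 / 2 : ℝ) ^ 2 ≤ z.im by linarith)
    linarith
  have h3 := tsum_of_norm_bounded (f := fun v : ℤ × ℤ => p v.1 v.2 *
      (v.1 * conj ((g • z : ℍ) : ℂ) + v.2) * Real.exp (-π * (τ / M) *
        normSq (v.1 * ((g • z : ℍ) : ℂ) + v.2) / ((g • z : ℍ) : ℂ).im))
    (((anh_eqv (det_SL g)).hasSum_iff.2 anh_sum.hasSum).mul_left (D * (2 * √(g • z).im *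
      ((k + 2).factorial / (π * (τ / M) / z.im) ^ (k + 2) / ρ ^ (2 * k + 3))))) fun v => by
    have e1 := congrArg norm (row_jac g z v.1 v.2)
    have e2 := a2_exp (a := π * (τ / M) / z.im) (by positivity) hρ (hv z hz.2 h1) k
      (anh_eqv (det_SL g) v)
    rw [norm_mul] at e1
    change ‖((v.1 * g 0 0 + v.2 * g 1 0 : ℤ) : ℂ) * z + (v.1 * g 0 1 + v.2 * g 1 1 : ℤ)‖ *
      Real.exp (-(_ * ‖((v.1 * g 0 0 + v.2 * g 1 0 : ℤ) : ℂ) * z +
        (v.1 * g 0 1 + v.2 * g 1 1 : ℤ)‖ ^ 2)) ≤ _ at e2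
    rw [← e1] at e2
    rw [a2_term, mul_assoc D, mul_assoc (2 * _), coe_im, Complex.normSq_eq_norm_sq]
    refine mul_le_mul (hD _ _) (le_trans ?_ (mul_le_mul_of_nonneg_left e2 (by positivity)))
      (by positivity) hD0
    have e3 : ∀ r : ℝ, -π * (τ / M) * r ^ 2 / (g • z).im =
        -(π * (τ / M) / z.im * (r * ‖jac g z‖) ^ 2) := fun r => by
      rw [im_jac, Complex.normSq_eq_norm_sq]
      field_simp
    rw [e3, ← mul_assoc, mul_comm _ ‖jac g z‖, ← mul_assoc]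
    exact mul_le_mul_of_nonneg_right (le_mul_of_one_le_left (norm_nonneg _) h2) (by positivity)
  rw [gk, norm_mul, Complex.norm_real, Real.norm_of_nonneg ht.le]
  refine (mul_le_mul_of_nonneg_left h3 ht.le).trans_eq ?_
  rw [div_pow, mul_pow, div_pow]
  field_simp
  ring

end Pool.Agent.Lib.MP_696deb_nt.Y2.An
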