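import Pool.Agent.Lib.MP_696deb_nt.Y2.A2
import Pool.Agent.Lib.MP_60ff09_nt.Dih.ANh2

/-! The kernel: law, bounds, decay. -/

set_option autoImplicit false

open Complex Filter Topology Set MeasureTheory CongruenceSubgroup
open UpperHalfPlane hiding I
open scoped Real MatrixGroups ComplexConjugate Modular Classical
open Pool.Agent.Shared.Weier Pool.Agent.Dih

namespace Pool.Agent.Lib.MP_696deb_nt.Y2.An

variable {A : Lev} {S : Sec}

theorem a3_term (h : S.Ok A) {B : ℝ} (hB : 0 < B) : ∃ u : ℕ → ℝ, Summable u ∧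
    ∀ (n : ℕ) (c d : ℤ) (z : ℂ), B ≤ z.im → ‖S.s n c d * q1 (n * z / S.M)‖ ≤ u n := by
  obtain ⟨C, hC⟩ := h.bd 1 one_pos
  have hM : (0 : ℝ) < S.M := Nat.cast_pos.2 h.pos
  have hr : 0 < 2 * π * B / S.M := by positivity
  refine ⟨_, ((Real.summable_pow_mul_exp_neg_nat_mul 0 hr).add
    (Real.summable_pow_mul_exp_neg_nat_mul 1 hr)).mul_left C, fun n c d z hz => ?_⟩
  have h1 := hC n c d
  rw [Real.rpow_one] at h1
  rw [norm_mul, norm_q1, ← add_mul, ← mul_assoc, pow_zero, pow_one, ← ofReal_natCast S.M,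
    div_ofReal_im]
  refine mul_le_mul h1 (Real.exp_le_exp.2 ?_) (Real.exp_nonneg _) ((norm_nonneg _).trans h1)
  simp only [mul_im, natCast_re, natCast_im, zero_mul, add_zero]
  rw [show -2 * π * (n * z.im / S.M) = -(2 * π * z.im / S.M * n) by ring, neg_mul, neg_le_neg_iff]
  gcongr

theorem Sec.Ok.summable_F (h : S.Ok A) (c d : ℤ) {z : ℂ} (hz : 0 < z.im) :
    Summable fun n : ℕ => ‖S.s n c d * q1 (n * z / S.M)‖ := by
  obtain ⟨u, h1, h2⟩ := a3_term h hz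
  exact h1.of_nonneg_of_le (fun _ => norm_nonneg _) fun n => h2 n c d z le_rfl

theorem Sec.Ok.continuousOn_F (h : S.Ok A) (c d : ℤ) :
    ContinuousOn (S.F c d) {z | 0 < z.im} := by
  intro z hz
  have hz : 0 < z.im := hz
  obtain ⟨u, h1, h2⟩ := a3_term h (half_pos hz)
  refine (ContinuousOn.continuousAt (s := {u : ℂ | z.im / 2 < u.im}) ?_ ((isOpen_lt
    continuous_const Complex.continuous_im).mem_nhds (half_lt_self hz))).continuousWithinAt
  refine continuousOn_tsum (fun v => ?_) h1 fun n w hw => h2 n c d w (le_of_lt hw)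
  unfold q1
  fun_prop

theorem Sec.Ok.continuous_F (h : S.Ok A) (c d : ℤ) : Continuous fun z : ℍ => S.F c d z :=
  (h.continuousOn_F c d).comp_continuous UpperHalfPlane.continuous_coe fun z => z.im_pos

theorem Sec.Ok.F_bd (h : S.Ok A) : ∃ C : ℝ, ∀ (c d : ℤ) (z : ℍ), ‖S.F c d z‖ * √z.im ≤ C := by
  obtain ⟨δ, C, hδ, hC⟩ := h.dec
  refine ⟨|C|, fun c d z => ?_⟩
  obtain ⟨g, hg⟩ := ModularGroup.exists_smul_mem_fd z
  have h1 := hC g⁻¹ (g • z) hg c d
  rw [inv_smul_smul] at h1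
  refine h1.trans ((mul_le_mul_of_nonneg_right (le_abs_self C) (Real.exp_nonneg _)).trans
    (mul_le_of_le_one_right (abs_nonneg C) (Real.exp_le_one_iff.2 ?_)))
  rw [neg_mul, neg_nonpos]
  exact (mul_pos hδ (g • z).im_pos).le

theorem Sec.Ok.pb (h : S.Ok A) {z : ℂ} {D : ℝ} (hD : ∀ c d, ‖S.F c d z‖ ≤ D) :
    PB S.M (fun c d => S.F c d z) D :=
  ⟨fun c d => by simp only [Sec.F, h.per1], fun c d => by simp only [Sec.F, h.per2], hD⟩

theorem Sec.Kk_eq_gk (S : Sec) (z : ℂ) (τ : ℝ) :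
    S.Kk z τ = gk S.M (fun c d => S.F c d z) z τ := rfl

theorem a3_bd (h : S.Ok A) {B : ℝ} (hB : 0 < B) :
    ∃ D : ℝ, ∀ (c d : ℤ) (z : ℂ), B ≤ z.im → ‖S.F c d z‖ ≤ D := by
  obtain ⟨u, h1, h2⟩ := a3_term h hB
  exact ⟨_, fun c d z hz => tsum_of_norm_bounded h1.hasSum fun n => h2 n c d z hz⟩

theorem a3_thT {z : ℂ} {D : ℝ} (hD : ∀ c d, ‖S.F c d z‖ ≤ D) (t : ℝ) (c d : ℤ) :
    ‖S.thT z t c d‖ ≤
      D * (‖(c : ℂ) * z + d‖ * Real.exp (-π * t * normSq (c * z + d) / z.im)) := by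
  rw [Sec.thT, norm_mul, norm_mul, anh_conj, Complex.norm_real, Real.norm_of_nonneg
    (Real.exp_nonneg _), mul_assoc]
  exact mul_le_mul_of_nonneg_right (hD c d) (by positivity)

theorem Sec.Ok.summable_thT (h : S.Ok A) {z : ℂ} (hz : 0 < z.im) {t : ℝ} (ht : 0 < t) :
    Summable fun v : ℤ × ℤ => ‖S.thT z t v.1 v.2‖ := by
  obtain ⟨D, hD⟩ := a3_bd h hz
  exact ((summable_gk hz ht).mul_left D).of_nonneg_of_le (fun _ => norm_nonneg _) fun v =>
    a3_thT (fun c d => hD c d z le_rfl) t _ _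

theorem a3_law (h : S.Ok A) {g : SL(2, ℤ)} (hg : g ∈ Gamma0 A.N) (z : ℍ) (t : ℝ) (c d : ℤ) :
    S.thT (g • z : ℍ) t c d * conj (jac g z) =
      A.ξ g * jac g z * S.thT z t (c * g 0 0 + d * g 1 0) (c * g 0 1 + d * g 1 1) := by
  have h1 := row_jac g z c d
  have h2 := congrArg conj h1
  have h3 : normSq (jac g z) ≠ 0 := (normSq_pos.2 (jac_ne g z)).ne'
  simp only [map_add, map_mul, map_intCast] at h2
  rw [Sec.thT, Sec.thT, h.law g hg, ← h1, ← h2, coe_im, coe_im, im_jac, map_mul normSq,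
    div_div_eq_mul_div, mul_assoc (-π * t)]
  ring

theorem Sec.Ok.Kk_law (h : S.Ok A) {g : SL(2, ℤ)} (hg : g ∈ Gamma0 A.N) (z : ℍ) (τ : ℝ) :
    S.Kk (g • z : ℍ) τ * conj (jac g z) = A.ξ g * jac g z * S.Kk z τ := by
  rw [Sec.Kk, Sec.Kk, mul_assoc, mul_left_comm (_ * _), ← tsum_mul_right,
    ← (anh_eqv (det_SL g)).tsum_eq fun v => S.thT z _ v.1 v.2, ← tsum_mul_left (a := _ * _)]
  exact congrArg _ (tsum_congr fun v => a3_law h hg z _ _ _)

/-- The kernel decays at all cusps and at both ends. -/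
theorem Sec.Ok.norm_Kk_le (h : S.Ok A) (k : ℕ) : ∃ δ C : ℝ, 0 < δ ∧ 0 ≤ C ∧ ∀ g : SL(2, ℤ),
    ∀ z ∈ 𝒟, ∀ τ : ℝ, 0 < τ →
      ‖S.Kk (g • z : ℍ) τ‖ ≤ C * Real.exp (-δ * z.im) * min τ τ⁻¹ ^ (k + 1) := by
  obtain ⟨δ, C, hδ, hC⟩ := h.dec
  obtain ⟨E, hE, hG⟩ := norm_gk_le h.pos k
  refine ⟨δ / 2, E * (S.M * |C|) * ((k + 2).factorial / (δ / 2) ^ (k + 2)), half_pos hδ,
    by positivity, fun g z hz τ hτ => ?_⟩
  have hy : 0 < z.im := z.im_pos
  have h0 : 0 < √(g • z).im := Real.sqrt_pos.2 (g • z).im_pos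
  have h1 := h.pb (z := (g • z : ℍ)) (D := |C| * Real.exp (-δ * z.im) / √(g • z).im) fun c d =>
    (le_div_iff₀ h0).2 ((hC g z hz c d).trans
      (mul_le_mul_of_nonneg_right (le_abs_self C) (Real.exp_nonneg _)))
  obtain ⟨p, h2, h3⟩ : ∃ p : ℤ → ℤ → ℂ,
      (∀ c d, ‖p c d‖ ≤ S.M * (|C| * Real.exp (-δ * z.im) / √(g • z).im)) ∧
      S.Kk (g • z : ℍ) τ = gk S.M p (g • z : ℍ) (min τ τ⁻¹)⁻¹ := by
    rcases le_total τ τ⁻¹ with e | e
    · obtain ⟨p, h2, h3⟩ := h1.gk_swap h.pos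
      exact ⟨p, h2.bd, by rw [min_eq_left e, ← h3 _ (g • z).im_pos τ hτ, Sec.Kk_eq_gk]⟩
    · refine ⟨_, fun c d => (h1.bd c d).trans (le_mul_of_one_le_left (by positivity) ?_), by
        rw [min_eq_right e, inv_inv, Sec.Kk_eq_gk]⟩
      exact_mod_cast h.pos
  have h4 : 0 < min τ τ⁻¹ := lt_min hτ (inv_pos.2 hτ)
  rw [h3]
  generalize min τ τ⁻¹ = m at h4
  refine (hG p _ h2 g z hz _ (inv_pos.2 h4)).trans ?_
  have h6 : z.im ^ (k + 2) * Real.exp (-(δ / 2) * z.im) ≤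
      (k + 2).factorial / (δ / 2) ^ (k + 2) := by
    have := anh_exp (x := δ / 2 * z.im) (by positivity) (k + 2)
    rw [neg_mul]
    refine (mul_le_mul_of_nonneg_left this (by positivity)).trans_eq ?_
    rw [mul_pow]
    field_simp
  have h7 := mul_le_mul_of_nonneg_left h6 (show 0 ≤ E * (S.M * |C|) *
    Real.exp (-(δ / 2) * z.im) * m ^ (k + 1) by positivity)
  refine le_trans (le_of_eq ?_) (h7.trans_eq (by ring))
  rw [show -δ * z.im = -(δ / 2) * z.im + -(δ / 2) * z.im by ring, Real.exp_add, inv_pow]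
  field_simp

theorem a3_gauss {r s a ρ x : ℝ} (hr : 0 ≤ r) (hs : 0 < s) (ha : 0 < a) (hρ : 0 < ρ)
    (h : ρ * s ≤ r) (hx : x ≤ -(a * r ^ 2)) :
    r * Real.exp x ≤ 2 / (a ^ 2 * ρ ^ 3) * (s ^ 3)⁻¹ := by
  have h0 : 0 < r := lt_of_lt_of_le (by positivity) h
  calc r * Real.exp x ≤ r * ((2 : ℕ).factorial / (a * r ^ 2) ^ 2) :=
        mul_le_mul_of_nonneg_left ((Real.exp_le_exp.2 hx).trans (anh_exp (by positivity) _)) hr
    _ = 2 / (a ^ 2 * r ^ 3) := by
        rw [Nat.factorial_two]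
        push_cast
        field_simp
    _ ≤ 2 / (a ^ 2 * (ρ * s) ^ 3) := by gcongr
    _ = _ := by field_simp

theorem Sec.Ok.continuousOn_Kk (h : S.Ok A) :
    ContinuousOn (fun v : ℂ × ℝ => S.Kk v.1 v.2) {v | 0 < v.1.im ∧ 0 < v.2} := by
  have hn : (0 : ℝ) < S.M := Nat.cast_pos.2 h.pos
  refine ContinuousOn.mul (by fun_prop) (continuousOn_of_locally_continuousOn ?_)
  rintro ⟨z, τ⟩ ⟨hz, hτ⟩
  dsimp only at hz hτ
  obtain ⟨B, hB, hB1, hB2⟩ : ∃ B : ℝ, 0 < B ∧ B < z.im ∧ B < τ :=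
    ⟨min z.im τ / 2, by positivity, by linarith [min_le_left z.im τ],
      by linarith [min_le_right z.im τ]⟩
  obtain ⟨R, hR, hR1, hR2⟩ : ∃ R : ℝ, 0 < R ∧ |z.re| < R ∧ z.im < R :=
    ⟨|z.re| + z.im + 1, by positivity, by linarith, by linarith [abs_nonneg z.re]⟩
  obtain ⟨ρ, hρ, hv⟩ := anh_rho R hB
  obtain ⟨D, hD⟩ := a3_bd h hB
  refine ⟨{v | |v.1.re| < R} ∩ ({v | B < v.1.im} ∩ ({v | v.1.im < R} ∩ {v | B < v.2})),
    (isOpen_lt (by fun_prop) (by fun_prop)).inter ((isOpen_lt (by fun_prop) (by fun_prop)).inter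
      ((isOpen_lt (by fun_prop) (by fun_prop)).inter (isOpen_lt (by fun_prop) (by fun_prop)))),
    ⟨hR1, hB1, hR2, hB2⟩, ?_⟩
  refine continuousOn_tsum (fun v => ?_)
    ((anh_sum.mul_left (2 / ((π * (B / S.M) / R) ^ 2 * ρ ^ 3))).mul_left D) ?_
  · refine (((h.continuousOn_F _ _).comp continuousOn_fst fun x hx => hx.1.1).mul
      (by fun_prop)).mul (continuous_ofReal.comp_continuousOn
        (Real.continuous_exp.comp_continuousOn
          (ContinuousOn.div (by fun_prop) (by fun_prop) fun x hx => hx.1.1.ne')))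
  · rintro v ⟨x, s⟩ ⟨⟨a1, a2⟩, a3, a4, a5, a6⟩
    simp only [mem_ofPred_eq] at a1 a2 a3 a4 a5 a6
    refine (a3_thT (fun c d => hD c d x a4.le) _ _ _).trans (mul_le_mul_of_nonneg_left ?_
      ((norm_nonneg _).trans (hD 0 0 x a4.le)))
    rcases eq_or_ne v 0 with rfl | h0
    · simp
    refine a3_gauss (norm_nonneg _) (norm_pos_iff.2 h0) (by positivity) hρ (hv x a3.le a4.le v) ?_
    rw [Complex.normSq_eq_norm_sq, show ∀ r : ℝ, -π * (s / S.M) * r / x.im =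
      -(π * (s / S.M) / x.im * r) from fun r => by ring, neg_le_neg_iff]
    gcongr

theorem a3_cont (h : S.Ok A) : ContinuousOn (fun v : ℍ × ℝ => S.Kk v.1 v.2) (univ ×ˢ Ioi 0) :=
  h.continuousOn_Kk.comp ((UpperHalfPlane.continuous_coe.comp continuous_fst).prodMk
    continuous_snd).continuousOn fun v hv => ⟨v.1.im_pos, hv.2⟩

theorem Sec.Ok.aemeas_Kk (h : S.Ok A) (μ : Measure ℍ) [SFinite μ] : AEStronglyMeasurable
    (fun v : ℍ × ℝ => S.Kk v.1 v.2) (μ.prod (volume.restrict (Ioi 0))) := by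
  have e : μ.prod (volume.restrict (Ioi (0 : ℝ))) = (μ.prod volume).restrict (univ ×ˢ Ioi 0) := by
    rw [← Measure.prod_restrict, Measure.restrict_univ]
  rw [e]
  exact (a3_cont h).aestronglyMeasurable (MeasurableSet.univ.prod measurableSet_Ioi)

theorem integrableOn_wt_min (a b : ℝ) :
    IntegrableOn (fun τ : ℝ => |(a + b * Real.log τ) / τ| * min τ τ⁻¹) (Ioi 0) := by
  refine Integrable.mono' ((integrable_inv_one_add_sq.integrableOn.const_mul (|a| * 2)).add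
    (integrableOn_log_min.const_mul |b|)) (Measurable.aestronglyMeasurable (by fun_prop))
    ((ae_restrict_iff' measurableSet_Ioi).2 (Eventually.of_forall fun τ hτ => ?_))
  have h0 : 0 < τ := hτ
  have h1 : 0 < min τ τ⁻¹ := lt_min h0 (inv_pos.2 h0)
  have h2 : min τ τ⁻¹ / τ ≤ 2 * (1 + τ ^ 2)⁻¹ := by
    rw [← div_eq_mul_inv, div_le_div_iff₀ h0 (by positivity)]
    have h3 := mul_le_mul_of_nonneg_right (min_le_right τ τ⁻¹) (sq_nonneg τ)
    rw [sq, inv_mul_cancel_left₀ h0.ne'] at h3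
    linarith [min_le_left τ τ⁻¹]
  have h3 := abs_add_le a (b * Real.log τ)
  rw [abs_mul] at h3
  rw [Real.norm_of_nonneg (by positivity), abs_div, abs_of_pos h0, Pi.add_apply]
  calc |a + b * Real.log τ| / τ * min τ τ⁻¹ ≤ (|a| + |b| * |Real.log τ|) / τ * min τ τ⁻¹ := by
        gcongr
    _ = |a| * (min τ τ⁻¹ / τ) + |b| * (|Real.log τ| / τ * min τ τ⁻¹) := by ring
    _ ≤ _ := by
        rw [mul_assoc |a|]
        gcongr

theorem a3_norm {C m x : ℝ} {y : ℂ} (h : ‖y‖ ≤ C * m ^ (0 + 1)) : ‖(x : ℂ) * y‖ ≤ C * (|x| * m) := by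
  rw [norm_mul, Complex.norm_real, Real.norm_eq_abs, mul_left_comm]
  exact mul_le_mul_of_nonneg_left (by simpa using h) (abs_nonneg x)

theorem Sec.Ok.dec_Phi (hA : A.Ok) (h : S.Ok A) (a b : ℝ) : A.Dec (S.Phi a b) := by
  obtain ⟨δ, C, hδ, h0, hC⟩ := h.norm_Kk_le 0
  have hall : ∀ z : ℍ, ∀ τ : ℝ, 0 < τ → ‖S.Kk z τ‖ ≤ C * min τ τ⁻¹ ^ (0 + 1) := fun z τ hτ => by
    obtain ⟨g, hg⟩ := ModularGroup.exists_smul_mem_fd z
    have h1 := hC g⁻¹ (g • z) hg τ hτ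
    rw [inv_smul_smul] at h1
    refine h1.trans (mul_le_mul_of_nonneg_right (mul_le_of_le_one_right h0
      (Real.exp_le_one_iff.2 ?_)) (pow_pos (lt_min hτ (inv_pos.2 hτ)) _).le)
    rw [neg_mul, neg_nonpos]
    exact (mul_pos hδ (g • z).im_pos).le
  refine ⟨?_, fun g hg z => ?_, δ,
    C * ∫ τ in Ioi (0 : ℝ), |(a + b * Real.log τ) / τ| * min τ τ⁻¹, hδ, fun g z hz => ?_⟩
  · have hc : Continuous fun z : ℍ =>
        ∫ τ in Ioi (0 : ℝ), (((a + b * Real.log τ) / τ : ℝ) : ℂ) * S.Kk z τ := by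
      refine continuous_of_dominated (fun z => AEStronglyMeasurable.mul
        (Measurable.aestronglyMeasurable (by fun_prop)) (ContinuousOn.aestronglyMeasurable
          ((a3_cont h).comp (Continuous.prodMk_right z).continuousOn fun τ hτ => ⟨trivial, hτ⟩)
          measurableSet_Ioi))
        (fun z => (ae_restrict_iff' measurableSet_Ioi).2
          (Eventually.of_forall fun τ hτ => a3_norm (hall z τ hτ)))
        ((integrableOn_wt_min a b).const_mul C) ((ae_restrict_iff' measurableSet_Ioi).2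
          (Eventually.of_forall fun τ hτ => continuous_const.mul ?_))
      exact (a3_cont h).comp_continuous (Continuous.prodMk_left τ) fun z => ⟨trivial, hτ⟩
    exact hc.measurable.div
      (Complex.continuous_ofReal.comp UpperHalfPlane.continuous_im).measurable
  · have hj := jac_ne g z
    have hj' : conj (jac g z) ≠ 0 := (map_ne_zero _).2 hj
    have hk : ∀ τ : ℝ, (((a + b * Real.log τ) / τ : ℝ) : ℂ) * S.Kk (g • z : ℍ) τ =
        A.ξ g * jac g z / conj (jac g z) *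
          ((((a + b * Real.log τ) / τ : ℝ) : ℂ) * S.Kk z τ) := fun τ => by
      rw [eq_div_of_mul_eq hj' (h.Kk_law hg z τ)]
      ring
    have hy : (z.im : ℂ) ≠ 0 := ofReal_ne_zero.2 z.im_pos.ne'
    rw [Sec.Phi, Sec.Phi]
    simp only [hk]
    rw [integral_const_mul, coe_im, coe_im, im_jac, ofReal_div, ← Complex.mul_conj]
    field_simp
  · have hy := (g • z).im_pos
    rw [Sec.Phi, norm_div, Complex.norm_real, coe_im, Real.norm_of_nonneg hy.le,
      div_mul_cancel₀ _ hy.ne']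
    refine (norm_integral_le_of_norm_le ((integrableOn_wt_min a b).const_mul _)
      ((ae_restrict_iff' measurableSet_Ioi).2
        (Eventually.of_forall fun τ hτ => a3_norm (hC g z hz τ hτ)))).trans_eq ?_
    rw [integral_const_mul, mul_right_comm]

end Pool.Agent.Lib.MP_696deb_nt.Y2.An
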