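import Pool.Agent.Lib.MP_696deb_nt.Y2.A3
import Pool.Agent.Lib.MP_60ff09_nt.Dih.ANj

/-! Unfolding: one row at a time. -/

set_option autoImplicit false

open Complex Filter Topology Set MeasureTheory CongruenceSubgroup
open UpperHalfPlane hiding I
open scoped Real MatrixGroups ComplexConjugate Modular Classical
open Pool.Agent.Shared.Weier Pool.Agent.Dih

namespace Pool.Agent.Lib.MP_696deb_nt.Y2.An

variable {A : Lev} {S : Sec} {f : ℂ → ℂ}

/-- The density of the unfolded integral. -/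
noncomputable def Sec.den (S : Sec) (f : ℂ → ℂ) (s : ℂ) (k : ℕ) (g : SL(2, ℤ)) (w : ℍ) : ℂ :=
  S.Th k g w * conj (fs f g w) * (w.im : ℂ) ^ (s + 2)

theorem Sec.Ok.den_mul (hA : A.Ok) (h : S.Ok A) (hf : A.Cf f) (s : ℂ) (k : ℕ) (g : SL(2, ℤ))
    {γ : SL(2, ℤ)} (hγ : γ ∈ Gamma0 A.N) (w : ℍ) : S.den f s k (g * γ) w = S.den f s k g w := by
  obtain ⟨z, rfl⟩ : ∃ z, w = (g * γ) • z := ⟨_, (smul_inv_smul _ _).symm⟩
  have e : g⁻¹ • (g * γ) • z = γ • z := by rw [mul_smul, inv_smul_smul]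
  have e0 : (k : ℤ) * (g * γ) 1 0 = k * g 1 0 * γ 0 0 + k * g 1 1 * γ 1 0 := by
    simp only [Matrix.SpecialLinearGroup.coe_mul, Matrix.mul_apply, Fin.sum_univ_two]
    ring
  have e1 : (k : ℤ) * (g * γ) 1 1 = k * g 1 0 * γ 0 1 + k * g 1 1 * γ 1 1 := by
    simp only [Matrix.SpecialLinearGroup.coe_mul, Matrix.mul_apply, Fin.sum_univ_two]
    ring
  simp only [Sec.den, Sec.Th, fs, inv_smul_smul, e, h.law γ hγ, hf.law γ hγ, jac_mul, e0, e1,
    map_mul, map_pow, mul_pow]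
  generalize S.F _ _ z = x, (((g * γ) • z).im : ℂ) ^ (s + 2) = y
  linear_combination -(x * jac g (γ • z : ℍ) * jac γ z * conj (f z) * conj (jac g (γ • z : ℍ)) ^ 2 *
    conj (jac γ z) ^ 2 * y) * hA.mul_conj hγ

theorem Sec.den_T (S : Sec) (f : ℂ → ℂ) (s : ℂ) (k : ℕ) (g : SL(2, ℤ)) (j : ℤ) (w : ℍ) :
    S.den f s k (ModularGroup.T ^ j * g) (ModularGroup.T ^ j • w) = S.den f s k g w := by
  simp only [Sec.den, Sec.Th, fs, jac, mul_inv_rev, mul_smul, inv_smul_smul,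
    ModularGroup.T_pow_mul_apply_one, ModularGroup.im_T_zpow_smul]

theorem a4_jac (g : SL(2, ℤ)) : Continuous fun w : ℍ => jac g (g⁻¹ • w : ℍ) :=
  (continuous_const.mul (UpperHalfPlane.continuous_coe.comp (anf_cont _))).add continuous_const

theorem a4_im (g : SL(2, ℤ)) (w : ℍ) : ‖jac g (g⁻¹ • w : ℍ)‖ ^ 2 * w.im = (g⁻¹ • w).im := by
  have h := im_jac g (g⁻¹ • w)
  rw [smul_inv_smul, eq_div_iff (normSq_pos.2 (jac_ne _ _)).ne'] at h
  rw [← h, Complex.sq_norm, mul_comm]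

theorem a4_le (g : SL(2, ℤ)) {z : ℍ} (hz : z ∈ 𝒟) : (g • z).im ≤ 2 * z.im := by
  have h1 : 1 / 2 ≤ normSq (jac g z) := by
    have h2 := ModularGroup.three_le_four_mul_im_sq_of_mem_fd hz
    have e : normSq (jac g z) = (g 1 0 * z.re + g 1 1) ^ 2 + (g 1 0) ^ 2 * z.im ^ 2 := by
      simp [jac, normSq_apply]
      ring
    rw [e]
    by_cases hc : g 1 0 = 0
    · have h3 := det_SL g
      rw [hc, mul_zero, sub_zero] at h3
      rcases Int.eq_one_or_neg_one_of_mul_eq_one' h3 with h4 | h4 <;> norm_num [hc, h4.2]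
    · have h3 : (1 : ℝ) ≤ (g 1 0) ^ 2 := by
        exact_mod_cast (one_le_sq_iff_one_le_abs _).2 (Int.one_le_abs hc)
      nlinarith [sq_nonneg (g 1 0 * z.re + g 1 1 : ℝ), sq_nonneg z.im]
  rw [im_jac, div_le_iff₀ (by linarith)]
  nlinarith [z.im_pos]

theorem Sec.Ok.continuous_Th (h : S.Ok A) (k : ℕ) (g : SL(2, ℤ)) : Continuous (S.Th k g) :=
  ((h.continuous_F _ _).comp (anf_cont _)).mul (a4_jac g)

theorem Lev.Cf.continuous_fs (hf : A.Cf f) (g : SL(2, ℤ)) : Continuous (fs f g) := by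
  have h0 : ContinuousOn f {z | 0 < z.im} := fun z hz =>
    (hf.hol z hz).continuousAt.continuousWithinAt
  exact ((h0.comp_continuous UpperHalfPlane.continuous_coe fun z => z.im_pos).comp
    (anf_cont _)).mul ((a4_jac g).pow 2)

theorem Lev.Cf.fs_bd (hf : A.Cf f) : ∃ C : ℝ, ∀ (g : SL(2, ℤ)) (w : ℍ),
    ‖fs f g w‖ * w.im ≤ C := by
  obtain ⟨C, hC⟩ := hf.bd
  refine ⟨C, fun g w => ?_⟩
  rw [fs, norm_mul, norm_pow, mul_assoc, a4_im]
  exact hC _

/-- A bound that depends on the height only. -/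
theorem Sec.Ok.Th_bd (h : S.Ok A) : ∃ δ C : ℝ, 0 < δ ∧ 0 ≤ C ∧ ∀ (k : ℕ) (g : SL(2, ℤ)) (w : ℍ),
    ‖S.Th k g w‖ * √w.im ≤ C * Real.exp (-δ * w.im) := by
  obtain ⟨δ, C, hδ, hC⟩ := h.dec
  refine ⟨δ / 2, max C 0, half_pos hδ, le_max_right _ _, fun k g w => ?_⟩
  obtain ⟨γ, hγ⟩ := ModularGroup.exists_smul_mem_fd w
  have h1 := hC (g⁻¹ * γ⁻¹) _ hγ (k * g 1 0) (k * g 1 1)
  have h2 := a4_le γ⁻¹ hγ
  rw [mul_smul, inv_smul_smul, ← a4_im, Real.sqrt_mul (sq_nonneg _), Real.sqrt_sq (norm_nonneg _),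
    ← mul_assoc, ← norm_mul] at h1
  rw [inv_smul_smul] at h2
  exact h1.trans (mul_le_mul (le_max_left _ _) (Real.exp_le_exp.2 (by nlinarith))
    (Real.exp_pos _).le (le_max_right _ _))

theorem Sec.Ok.den_bd (h : S.Ok A) (hf : A.Cf f) : ∃ δ C : ℝ, 0 < δ ∧ 0 ≤ C ∧
    ∀ (s : ℂ) (k : ℕ) (g : SL(2, ℤ)) (w : ℍ),
      ‖S.den f s k g w‖ ≤ C * Real.exp (-δ * w.im) * w.im ^ (s.re + 1 / 2) := by
  obtain ⟨δ, C, hδ, h0, hC⟩ := h.Th_bd
  obtain ⟨D, hD⟩ := hf.fs_bd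
  have d0 : 0 ≤ D := le_trans (mul_nonneg (norm_nonneg _) (im_pos _).le) (hD 1 UpperHalfPlane.I)
  refine ⟨δ, C * D, hδ, mul_nonneg h0 d0, fun s k g w => ?_⟩
  have hw := w.im_pos
  have h1 := hC k g w
  have h2 := hD g w
  rw [Sec.den, norm_mul, norm_mul, Complex.norm_conj, Complex.norm_cpow_eq_rpow_re_of_pos hw,
    show (s + 2).re = 1 / 2 + (s.re + 1 / 2) + 1 by simp; ring, Real.rpow_add_one hw.ne',
    Real.rpow_add hw, ← Real.sqrt_eq_rpow]
  calc ‖S.Th k g w‖ * ‖fs f g w‖ * (√w.im * w.im ^ (s.re + 1 / 2) * w.im)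
      = ‖S.Th k g w‖ * √w.im * (‖fs f g w‖ * w.im) * w.im ^ (s.re + 1 / 2) := by ring
    _ ≤ C * Real.exp (-δ * w.im) * D * w.im ^ (s.re + 1 / 2) := by gcongr
    _ = _ := by ring

theorem a4_gam {δ σ : ℝ} (hδ : 0 < δ) (hσ : 1 < σ) :
    IntegrableOn (fun y : ℝ => Real.exp (-δ * y) * y ^ (σ + 1 / 2) / y ^ 2) (Ioi 0) := by
  have h : IntegrableOn (fun y : ℝ => y ^ (σ + 1 / 2 - 2) * Real.exp (-δ * y)) (Ioi 0) := by
    simpa using integrableOn_rpow_mul_exp_neg_mul_rpow (s := σ + 1 / 2 - 2) (by linarith) one_pos hδ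
  refine h.congr_fun (fun y hy => ?_) measurableSet_Ioi
  simp only
  rw [Real.rpow_sub hy, Real.rpow_two]
  ring

theorem Sec.Ok.integrableOn_den (h : S.Ok A) (hf : A.Cf f) {s : ℂ} (hs : 1 < s.re) (k : ℕ)
    (g : SL(2, ℤ)) : IntegrableOn (S.den f s k g) Str := by
  obtain ⟨δ, C, hδ, -, hC⟩ := h.den_bd hf
  have hc : Continuous (S.den f s k g) :=
    ((h.continuous_Th k g).mul (Complex.continuous_conj.comp (hf.continuous_fs g))).mul
      ((Complex.continuous_ofReal.comp UpperHalfPlane.continuous_im).cpow continuous_const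
        fun z => Complex.ofReal_mem_slitPlane.mpr z.im_pos)
  refine integrableOn_Str hc.measurable
    (g := fun y => C * Real.exp (-δ * y) * y ^ (s.re + 1 / 2)) ?_ fun z _ => hC s k g z
  simpa only [mul_assoc, mul_div_assoc, IntegrableOn] using (a4_gam hδ hs).const_mul C

theorem Sec.mellin_term (S : Sec) (f : ℂ → ℂ) {s : ℂ} (hs : -1 < s.re) (z : ℍ) {k : ℕ} (hk : k ≠ 0)
    (g : SL(2, ℤ)) :
    ∫ t in Ioi (0 : ℝ), (t : ℂ) ^ s * (conj (f z) * z.im * S.thT z t (k * g 1 0) (k * g 1 1)) =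
      Gamma (s + 1) * (π : ℂ) ^ (-(s + 1)) * (k : ℂ) ^ (-(2 * s + 1)) * S.den f s k g (g • z) := by
  have hj := jac_ne g z
  have hk0 : (0 : ℝ) < k := Nat.cast_pos.2 (Nat.pos_of_ne_zero hk)
  have hY := (g • z).im_pos
  have h2 := im_jac g z
  have h3 : (z.im : ℂ) = (g • z).im * (jac g z * conj (jac g z)) := by
    rw [Complex.mul_conj, h2, ← ofReal_mul, div_mul_cancel₀ _ (normSq_pos.2 hj).ne']
  have h4 := anj_pow hk0 hY s
  have h5 := integral_cpow_mul_exp_neg_mul_Ioi (a := s + 1) (r := π * k ^ 2 / (g • z).im)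
    (by simp only [add_re, one_re]; linarith) (by have := Real.pi_pos; positivity)
  have h6 : ∀ t : ℝ, (t : ℂ) ^ s * (conj (f z) * z.im * S.thT z t (k * g 1 0) (k * g 1 1)) =
      conj (f z) * z.im * S.F (k * g 1 0) (k * g 1 1) z * (k * conj (jac g z)) *
        ((t : ℂ) ^ (s + 1 - 1) * exp (-(((π * k ^ 2 / (g • z).im : ℝ) : ℂ) * t))) := fun t => by
    have h7 : -π * t * normSq (((k * g 1 0 : ℤ) : ℂ) * z + (k * g 1 1 : ℤ)) / (z : ℂ).im =
        -(π * k ^ 2 / (g • z).im * t) := by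
      rw [show ((k * g 1 0 : ℤ) : ℂ) * z + (k * g 1 1 : ℤ) = (k : ℝ) * jac g z by
        rw [jac]; push_cast; ring, map_mul, normSq_ofReal, h2, coe_im]
      have := z.im_pos
      have := normSq_pos.2 hj
      field_simp
    rw [Sec.thT, h7, add_sub_cancel_right, jac]
    simp only [map_add, map_mul, map_intCast]
    push_cast
    ring
  simp only [h6]
  rw [integral_const_mul, h5, Sec.den, Sec.Th, fs, inv_smul_smul, h3, map_mul, map_pow]
  rw [ofReal_natCast] at h4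
  linear_combination Gamma (s + 1) * S.F (k * g 1 0) (k * g 1 1) z * conj (f z) *
    jac g z * conj (jac g z) ^ 2 * h4

theorem Sec.Ok.unfold_type (hA : A.Ok) (h : S.Ok A) (hf : A.Cf f) {s : ℂ} (hs : 1 < s.re) (k : ℕ) :
    HasSum (fun g : SL(2, ℤ) => ∫ z in XN A.N, if g • z ∈ Str then S.den f s k g (g • z) else 0)
      (2 * ∑ᶠ q : SL(2, ℤ) ⧸ Gamma0 A.N, ∫ w in Str, S.den f s k q.out w) := by
  have := finite_quot hA.Npos
  have := Fintype.ofFinite (SL(2, ℤ) ⧸ Gamma0 A.N)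
  set K : SL(2, ℤ) → ℍ → ℂ := fun g => Str.indicator (S.den f s k g) with hK
  have h2 : ∀ g, Integrable (K g) := fun g =>
    (integrable_indicator_iff measurableSet_Str).2 (h.integrableOn_den hf hs k g)
  have h3 : ∀ q : SL(2, ℤ) ⧸ Gamma0 A.N, HasSum (fun γ : Gamma0 A.N =>
      ∫ z in XN A.N, K (q.out * γ) ((q.out * (γ : SL(2, ℤ))) • z)) (2 * ∫ z, K q.out z) :=
    fun q => by
    have h4 := (integral_unfoldN (N := A.N)
      ((anf_mp q.out).integrable_comp_of_integrable (h2 q.out))).2.2.1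
    rw [show ∫ z, (K q.out ∘ fun z => q.out • z) z = ∫ z, K q.out z from
      (anf_mp q.out).integral_comp (anf_emb _) _] at h4
    convert h4 using 4 with γ z
    have h5 : K (q.out * γ) = K q.out :=
      congr_arg Str.indicator (funext (h.den_mul hA hf s k _ γ.2))
    rw [h5, mul_smul]
    rfl
  have h6 := anj_hasSum (F := fun g => ∫ z in XN A.N, K g (g • z)) h3
  rw [← Finset.mul_sum] at h6
  simp only [hK, integral_indicator measurableSet_Str] at h6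
  simpa only [indicator, finsum_eq_sum_of_fintype] using h6

theorem unfold_abs {N : ℕ} (hN : 0 < N) {δ σ : ℝ} (hδ : 0 < δ) (hσ : 1 < σ) :
    ∑' g : SL(2, ℤ), ∫⁻ z in XN N, (if g • z ∈ Str then
      ENNReal.ofReal (Real.exp (-δ * (g • z).im) * (g • z).im ^ (σ + 1 / 2)) else 0) ≠ ⊤ := by
  have := finite_quot hN
  have := Fintype.ofFinite (SL(2, ℤ) ⧸ Gamma0 N)
  have hc : Continuous fun z : ℍ => Real.exp (-δ * z.im) * z.im ^ (σ + 1 / 2) :=
    (Real.continuous_exp.comp (continuous_const.mul UpperHalfPlane.continuous_im)).mul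
      (UpperHalfPlane.continuous_im.rpow_const fun z => Or.inl z.im_pos.ne')
  set K : ℍ → ENNReal := Str.indicator fun z : ℍ =>
    ENNReal.ofReal (Real.exp (-δ * z.im) * z.im ^ (σ + 1 / 2)) with hK
  have h1 : Measurable K := hc.measurable.ennreal_ofReal.indicator measurableSet_Str
  have h2 : ∫⁻ z, K z ≠ ⊤ := by
    rw [hK, lintegral_indicator measurableSet_Str]
    exact (integrableOn_Str (Complex.continuous_ofReal.comp hc).measurable (a4_gam hδ hσ)
      fun z _ => by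
        have := z.im_pos
        rw [Function.comp, Complex.norm_real, Real.norm_of_nonneg (by positivity)]).re
      |>.lintegral_lt_top.ne
  have h3 : ∀ q : SL(2, ℤ) ⧸ Gamma0 N, HasSum (fun γ : Gamma0 N =>
      ∫⁻ z in XN N, K ((q.out * (γ : SL(2, ℤ))) • z)) (2 * ∫⁻ z, K z) := fun q => by
    have h4 := lintegral_unfoldN (N := N) (h1.comp (anf_cont q.out).measurable)
    rw [show ∫⁻ z, (K ∘ fun z => q.out • z) z = ∫⁻ z, K z from
      (anf_mp q.out).lintegral_comp h1] at h4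
    rw [← h4]
    simp only [mul_smul]
    exact ENNReal.summable.hasSum
  have h5 := (anj_hasSum (F := fun g => ∫⁻ z in XN N, K (g • z)) h3).tsum_eq
  refine ne_of_eq_of_ne h5 ?_
  exact ENNReal.sum_ne_top.2 fun _ _ => ENNReal.mul_ne_top (by simp) h2

end Pool.Agent.Lib.MP_696deb_nt.Y2.An
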