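import Pool.Agent.Lib.MP_696deb_nt.Y2.A4
import Pool.Agent.Lib.MP_60ff09_nt.Dih.ANj2

/-! Unfolding: the Mellin transform of the pairing. -/

set_option autoImplicit false

open Complex Filter Topology Set MeasureTheory CongruenceSubgroup
open UpperHalfPlane hiding I
open scoped Real MatrixGroups ComplexConjugate Modular Classical
open Pool.Agent.Shared.Weier Pool.Agent.Dih

namespace Pool.Agent.Lib.MP_696deb_nt.Y2.An

variable {A : Lev} {S : Sec} {f : ℂ → ℂ}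

private instance : Countable SL(2, ℤ) :=
  Function.Injective.countable (f := fun (g : SL(2, ℤ)) (i j : Fin 2) => g i j) fun _ _ e =>
    Matrix.SpecialLinearGroup.ext _ _ fun i j => congrFun (congrFun e i) j

/-- The condition on a term of the unfolded sum. -/
def a4bC (x : ℕ × SL(2, ℤ)) (z : ℍ) : Prop := x.1 ≠ 0 ∧ x.2 • z ∈ Str

/-- A term of the unfolded sum. -/
noncomputable def Sec.a4bH (S : Sec) (f : ℂ → ℂ) (s : ℂ) (x : ℕ × SL(2, ℤ)) (v : ℍ × ℝ) : ℂ :=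
  if a4bC x v.1 then (v.2 : ℂ) ^ s *
    (conj (f v.1) * v.1.im * S.thT v.1 v.2 (x.1 * x.2 1 0) (x.1 * x.2 1 1)) else 0

theorem a4b_tsum (z : ℍ) {F : ℤ → ℤ → ℂ} (h0 : F 0 0 = 0) :
    ∑' x : ℕ × SL(2, ℤ), (if a4bC x z then F (x.1 * x.2 1 0) (x.1 * x.2 1 1) else 0) =
      ∑' v : ℤ × ℤ, F v.1 v.2 := by
  obtain ⟨e, he⟩ := exists_equiv_row z
  have h2 : ∑' v : {v : ℤ × ℤ // v ≠ 0}, F v.1.1 v.1.2 = ∑' v : ℤ × ℤ, F v.1 v.2 :=
    tsum_subtype_eq_of_support_subset (f := fun v : ℤ × ℤ => F v.1 v.2) (s := {v | v ≠ 0})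
      fun v hv e => by
        subst e
        exact hv h0
  have h3 := tsum_subtype {x : ℕ × SL(2, ℤ) | x.1 ≠ 0 ∧ x.2 • z ∈ Str}
    fun x => F (x.1 * x.2 1 0) (x.1 * x.2 1 1)
  rw [← h2, ← e.tsum_eq]
  simp only [he]
  refine Eq.trans (tsum_congr fun x => ?_) h3.symm
  by_cases hx : a4bC x z
  · rw [indicator_of_mem (show x ∈ {x : ℕ × SL(2, ℤ) | x.1 ≠ 0 ∧ x.2 • z ∈ Str} from hx),
      if_pos hx]
  · rw [indicator_of_notMem (show x ∉ {x : ℕ × SL(2, ℤ) | x.1 ≠ 0 ∧ x.2 • z ∈ Str} from hx),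
      if_neg hx]

theorem Sec.tsum_a4bH (s : ℂ) (v : ℍ × ℝ) : ∑' x, S.a4bH f s x v =
    (v.2 : ℂ) ^ s * (conj (f v.1) * v.1.im * ∑' u : ℤ × ℤ, S.thT v.1 v.2 u.1 u.2) := by
  rw [← tsum_mul_left, ← tsum_mul_left]
  exact a4b_tsum v.1 (F := fun c d => (v.2 : ℂ) ^ s *
    (conj (f v.1) * v.1.im * S.thT v.1 v.2 c d)) (by simp [Sec.thT])

theorem measurableSet_a4bC (x : ℕ × SL(2, ℤ)) : MeasurableSet {z : ℍ | a4bC x z} :=
  (MeasurableSet.const _).inter ((continuous_smul_int x.2).measurable measurableSet_Str)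

theorem Sec.Ok.measurable_a4bH (h : S.Ok A) (hf : A.Cf f) (s : ℂ) (x : ℕ × SL(2, ℤ)) :
    Measurable (S.a4bH f s x) := by
  have h1 : Continuous fun z : ℍ => f z := hf.hol.continuous_coe
  have h2 := h.continuous_F (x.1 * x.2 1 0) (x.1 * x.2 1 1)
  have h3 : Continuous fun z : ℍ => (z : ℂ) := continuous_coe
  have h4 : Continuous fun z : ℍ => z.im := UpperHalfPlane.continuous_im
  refine Measurable.ite (measurable_fst (measurableSet_a4bC x)) (Measurable.mul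
    ((measurable_ofReal.comp measurable_snd).pow_const s) (Continuous.measurable ?_))
    measurable_const
  unfold Sec.thT
  refine Continuous.mul (((continuous_conj.comp h1).mul (continuous_ofReal.comp h4)).comp
    continuous_fst) (Continuous.mul ((h2.mul ((continuous_const.mul
      (continuous_conj.comp h3)).add continuous_const)).comp continuous_fst) (continuous_ofReal.comp
    (Real.continuous_exp.comp (Continuous.div (by fun_prop) (by fun_prop) fun v => ?_))))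
  exact v.1.im_pos.ne'

theorem a4b_term {δ C : ℝ} (C0 : 0 ≤ C) (hC : ∀ (s : ℂ) (k : ℕ) (g : SL(2, ℤ)) (w : ℍ),
      ‖S.den f s k g w‖ ≤ C * Real.exp (-δ * w.im) * w.im ^ (s.re + 1 / 2))
    {s : ℂ} (hs : -1 < s.re) (z : ℍ) {k : ℕ} (hk : k ≠ 0) (g : SL(2, ℤ)) :
    ∫⁻ t in Ioi (0 : ℝ), ‖(t : ℂ) ^ s *
      (conj (f z) * z.im * S.thT z t (k * g 1 0) (k * g 1 1))‖ₑ ≤
      ENNReal.ofReal (Real.Gamma (s.re + 1) * π ^ (-(s.re + 1)) * C * (k : ℝ) ^ (-(2 * s.re + 1))) *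
        ENNReal.ofReal (Real.exp (-δ * (g • z).im) * (g • z).im ^ (s.re + 1 / 2)) := by
  set σ := s.re with hσ
  set K : ℂ := conj (f z) * z.im * (S.F (k * g 1 0) (k * g 1 1) z *
    (((k * g 1 0 : ℤ) : ℂ) * conj (z : ℂ) + (k * g 1 1 : ℤ))) with hK
  set a : ℝ := π * normSq (((k * g 1 0 : ℤ) : ℂ) * z + (k * g 1 1 : ℤ)) / z.im with ha
  have a0 : 0 < a := by
    refine div_pos (mul_pos Real.pi_pos (normSq_pos.2 ?_)) z.im_pos
    have := jac_ne g z
    push_cast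
    rw [mul_assoc, ← mul_add]
    exact mul_ne_zero (Nat.cast_ne_zero.2 hk) this
  have e1 : ∀ t : ℝ, conj (f z) * z.im * S.thT z t (k * g 1 0) (k * g 1 1) =
      K * Real.exp (-a * t) := fun t => by
    have : -π * t * normSq (((k * g 1 0 : ℤ) : ℂ) * z + (k * g 1 1 : ℤ)) / (z : ℂ).im =
      -a * t := by rw [ha, coe_im]; ring
    rw [Sec.thT, this, hK]
    ring
  have i1 : IntegrableOn (fun t : ℝ => t ^ σ * Real.exp (-a * t)) (Ioi 0) := by
    simpa using integrableOn_rpow_mul_exp_neg_mul_rpow hs one_pos a0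
  have n1 : ∀ t ∈ Ioi (0 : ℝ), 0 ≤ t ^ σ * Real.exp (-a * t) := fun t ht =>
    mul_nonneg (Real.rpow_nonneg (le_of_lt ht) _) (Real.exp_pos _).le
  have e2 := S.mellin_term f (s := σ) (by simpa using hs) z hk g
  have e3 : ∫ t in Ioi (0 : ℝ), (t : ℂ) ^ (σ : ℂ) *
      (conj (f z) * z.im * S.thT z t (k * g 1 0) (k * g 1 1)) =
      K * (∫ t in Ioi (0 : ℝ), t ^ σ * Real.exp (-a * t) : ℝ) := by
    rw [← integral_complex_ofReal, ← integral_const_mul]
    refine setIntegral_congr_fun measurableSet_Ioi fun t ht => ?_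
    simp only [e1]
    rw [ofReal_mul, ofReal_cpow (le_of_lt ht)]
    ring
  have e4 : ∫⁻ t in Ioi (0 : ℝ), ‖(t : ℂ) ^ s *
      (conj (f z) * z.im * S.thT z t (k * g 1 0) (k * g 1 1))‖ₑ =
      ENNReal.ofReal (‖K‖ * ∫ t in Ioi (0 : ℝ), t ^ σ * Real.exp (-a * t)) := by
    rw [← integral_const_mul, ofReal_integral_eq_lintegral_ofReal (i1.const_mul _)]
    · refine setLIntegral_congr_fun measurableSet_Ioi fun t ht => ?_
      simp only [e1]
      rw [← ofReal_norm, norm_mul, norm_mul, norm_cpow_eq_rpow_re_of_pos ht, norm_real,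
        Real.norm_of_nonneg (Real.exp_pos _).le]
      congr 1
      ring
    · filter_upwards [ae_restrict_mem measurableSet_Ioi] with t ht
      exact mul_nonneg (norm_nonneg _) (n1 t ht)
  have G0 : 0 < Real.Gamma (σ + 1) := Real.Gamma_pos_of_pos (by linarith)
  have b1 := hC σ k g (g • z)
  rw [ofReal_re] at b1
  rw [e4, ← ENNReal.ofReal_mul (by positivity)]
  refine ENNReal.ofReal_le_ofReal ?_
  have e5 := congrArg norm (e3.symm.trans e2)
  rw [norm_mul, norm_real, Real.norm_of_nonneg (setIntegral_nonneg measurableSet_Ioi n1)] at e5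
  have k0 : (0 : ℝ) < k := Nat.cast_pos.2 (Nat.pos_of_ne_zero hk)
  have e6 : ‖Gamma ((σ : ℂ) + 1)‖ = Real.Gamma (σ + 1) := by
    rw [← ofReal_one, ← ofReal_add, Gamma_ofReal, norm_real, Real.norm_of_nonneg G0.le]
  have e7 : ‖(k : ℂ) ^ (-(2 * (σ : ℂ) + 1))‖ = (k : ℝ) ^ (-(2 * σ + 1)) := by
    rw [← ofReal_natCast, norm_cpow_eq_rpow_re_of_pos k0]
    simp
  have e8 : ‖(π : ℂ) ^ (-((σ : ℂ) + 1))‖ = π ^ (-(σ + 1)) := by
    rw [norm_cpow_eq_rpow_re_of_pos Real.pi_pos]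
    simp
  rw [e5]
  simp only [norm_mul, e6, e7, e8]
  calc _ ≤ Real.Gamma (σ + 1) * π ^ (-(σ + 1)) * (k : ℝ) ^ (-(2 * σ + 1)) *
        (C * Real.exp (-δ * (g • z).im) * (g • z).im ^ (σ + 1 / 2)) := by gcongr
    _ = _ := by ring

theorem Sec.Ok.lintegral_a4bH (hA : A.Ok) (h : S.Ok A) (hf : A.Cf f) {s : ℂ} (hs : 1 < s.re) :
    ∑' x, ∫⁻ v, ‖S.a4bH f s x v‖ₑ ∂(volume.restrict (XN A.N)).prod (volume.restrict (Ioi 0)) ≠ ⊤ := by
  obtain ⟨δ, C, δ0, C0, hC⟩ := h.den_bd hf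
  set B : ℕ → ℝ := fun k =>
    Real.Gamma (s.re + 1) * π ^ (-(s.re + 1)) * C * (k : ℝ) ^ (-(2 * s.re + 1)) with hB
  have G0 : 0 < Real.Gamma (s.re + 1) := Real.Gamma_pos_of_pos (by linarith)
  have B0 : ∀ k, 0 ≤ B k := fun k => by positivity
  have Bs : Summable B := (Real.summable_nat_rpow.2 (by linarith)).mul_left _
  have key : ∀ x : ℕ × SL(2, ℤ),
      ∫⁻ v, ‖S.a4bH f s x v‖ₑ ∂(volume.restrict (XN A.N)).prod (volume.restrict (Ioi 0)) ≤
      ENNReal.ofReal (B x.1) * ∫⁻ z in XN A.N, (if x.2 • z ∈ Str then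
        ENNReal.ofReal (Real.exp (-δ * (x.2 • z).im) * (x.2 • z).im ^ (s.re + 1 / 2)) else 0) := by
    intro x
    rw [lintegral_prod _ (h.measurable_a4bH hf s x).enorm.aemeasurable,
      ← lintegral_const_mul' _ _ ENNReal.ofReal_ne_top]
    refine lintegral_mono fun z => ?_
    by_cases hx : a4bC x z
    · simp only [Sec.a4bH, if_pos hx, if_pos hx.2]
      exact a4b_term C0 hC (by linarith) z hx.1 x.2
    · simp [Sec.a4bH, if_neg hx]
  refine ne_top_of_le_ne_top ?_ (ENNReal.tsum_le_tsum key)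
  rw [ENNReal.tsum_prod']
  simp only [ENNReal.tsum_mul_left, ENNReal.tsum_mul_right]
  refine ENNReal.mul_ne_top ?_ (unfold_abs hA.Npos δ0 hs)
  rw [← ENNReal.ofReal_tsum_of_nonneg B0 Bs]
  exact ENNReal.ofReal_ne_top

theorem Sec.Ok.mellin_Ii (hA : A.Ok) (h : S.Ok A) (hf : A.Cf f) {s : ℂ} (hs : 1 < s.re) :
    mellin (S.Ii A.N f) s = 2 * (S.M : ℂ) ^ s * Gamma (s + 1) * (π : ℂ) ^ (-(s + 1)) *
      ∑' k : ℕ, (k : ℂ) ^ (-(2 * s + 1)) *
        ∑ᶠ q : SL(2, ℤ) ⧸ Gamma0 A.N, ∫ w in Str, S.den f s k q.out w := by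
  set μ : Measure (ℍ × ℝ) := (volume.restrict (XN A.N)).prod (volume.restrict (Ioi 0)) with hμ
  have hl := h.lintegral_a4bH hA hf hs
  have hm := h.measurable_a4bH hf s
  have i1 : ∀ x, Integrable (S.a4bH f s x) μ := fun x =>
    ⟨(hm x).aestronglyMeasurable, lt_of_le_of_lt (ENNReal.le_tsum x) hl.lt_top⟩
  have i2 : Integrable (fun v => ∑' x, S.a4bH f s x v) μ := by
    refine ⟨(Measurable.tsum hm).aestronglyMeasurable, lt_of_le_of_lt ?_ hl.lt_top⟩
    rw [← lintegral_tsum fun x => (hm x).enorm.aemeasurable]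
    exact lintegral_mono fun v => enorm_tsum_le_tsum_enorm
  have s1 : Summable fun x => ∫ v, ‖S.a4bH f s x v‖ ∂μ := by
    simp only [fun x => integral_norm_eq_lintegral_enorm (i1 x).1]
    exact ENNReal.summable_toReal hl
  have s2 := hasSum_integral_of_summable_integral_norm i1 s1
  set c : ℕ → ℂ := fun k =>
    Gamma (s + 1) * (π : ℂ) ^ (-(s + 1)) * (k : ℂ) ^ (-(2 * s + 1)) with hc
  have c0 : c 0 = 0 := by
    have : -(2 * s + 1) ≠ 0 := fun e => by
      have := congrArg Complex.re e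
      simp at this
      linarith
    simp only [hc, Nat.cast_zero, zero_cpow this, mul_zero]
  have e1 : ∀ (k : ℕ) (g : SL(2, ℤ)), ∫ v, S.a4bH f s (k, g) v ∂μ =
      c k * ∫ z in XN A.N, if g • z ∈ Str then S.den f s k g (g • z) else 0 := by
    intro k g
    rw [integral_prod _ (i1 _), ← integral_const_mul]
    refine integral_congr_ae (Eventually.of_forall fun z => ?_)
    by_cases hx : a4bC (k, g) z
    · simp only [Sec.a4bH, if_pos hx, if_pos hx.2, hc]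
      exact S.mellin_term f (by linarith) z hx.1 g
    · by_cases hk : k = 0
      · simp only [Sec.a4bH, if_neg hx, integral_zero]
        rw [hk, c0, zero_mul]
      · simp only [Sec.a4bH, if_neg hx, integral_zero]
        rw [if_neg fun e => hx ⟨hk, e⟩, mul_zero]
  have s3 := s2.prod_fiberwise fun k => by
    simp only [e1]
    exact (h.unfold_type hA hf hs k).mul_left (c k)
  have e2 : ∫ v, ∑' x, S.a4bH f s x v ∂μ = 2 * Gamma (s + 1) * (π : ℂ) ^ (-(s + 1)) *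
      ∑' k : ℕ, (k : ℂ) ^ (-(2 * s + 1)) *
        ∑ᶠ q : SL(2, ℤ) ⧸ Gamma0 A.N, ∫ w in Str, S.den f s k q.out w := by
    rw [← s3.tsum_eq, ← tsum_mul_left]
    refine tsum_congr fun k => ?_
    simp only [hc]
    ring
  have n0 : (0 : ℝ) < S.M := Nat.cast_pos.2 h.pos
  have e3 := mellin_comp_mul_left (fun t : ℝ => (t : ℂ) *
    ∫ z in XN A.N, conj (f z) * z.im * ∑' u : ℤ × ℤ, S.thT z t u.1 u.2) s (inv_pos.2 n0)
  have e4 : S.Ii A.N f = fun τ : ℝ => (((S.M : ℝ)⁻¹ * τ : ℝ) : ℂ) *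
      ∫ z in XN A.N, conj (f z) * z.im * ∑' u : ℤ × ℤ, S.thT z ((S.M : ℝ)⁻¹ * τ) u.1 u.2 := by
    funext τ
    rw [Sec.Ii, ← integral_const_mul]
    simp only [Sec.Kk, div_eq_inv_mul, mul_left_comm]
  have e5 : mellin (fun t : ℝ => (t : ℂ) *
      ∫ z in XN A.N, conj (f z) * z.im * ∑' u : ℤ × ℤ, S.thT z t u.1 u.2) s =
      ∫ v, ∑' x, S.a4bH f s x v ∂μ := by
    rw [integral_prod_symm _ i2, mellin]
    refine setIntegral_congr_fun measurableSet_Ioi fun t ht => ?_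
    simp only [Sec.tsum_a4bH, integral_const_mul, smul_eq_mul]
    rw [← mul_assoc, cpow_sub _ _ (ofReal_ne_zero.2 (ne_of_gt ht)), cpow_one,
      div_mul_cancel₀ _ (ofReal_ne_zero.2 (ne_of_gt ht))]
  rw [e4, e3, e5, e2, ofReal_inv, inv_cpow _ _ (by
    rw [arg_ofReal_of_nonneg n0.le]; exact Real.pi_ne_zero.symm), cpow_neg, inv_inv, smul_eq_mul]
  push_cast
  ring

end Pool.Agent.Lib.MP_696deb_nt.Y2.An
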