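import Pool.Agent.Lib.MP_696deb_nt.Y2.A4

/-! Unfolding: the integral at one cusp. -/

set_option autoImplicit false
set_option linter.unusedVariables false

open Complex Filter Topology Set MeasureTheory CongruenceSubgroup
open UpperHalfPlane hiding I
open scoped Real MatrixGroups ComplexConjugate Modular Classical
open Pool.Agent.Shared.Weier Pool.Agent.Dih

namespace Pool.Agent.Lib.MP_696deb_nt.Y2.An

variable {A : Lev} {S : Sec} {f : ℂ → ℂ} {g₀ : SL(2, ℤ)} {n e : ℕ} {b : ℕ → ℂ} {t : ℕ → ℕ → ℂ}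

theorem a5_norm (c : ℂ) (m : ℕ) (x x' y : ℝ) :
    ‖c * q1 (m * (x + y * I) / e)‖ = ‖c * q1 (m * (x' + y * I) / e)‖ := by
  simp [norm_q1, Complex.div_natCast_im]

theorem a5_term (he : 0 < e) (m m' : ℕ) (y : ℝ) :
    ∫ x in (0 : ℝ)..e, q1 (m * (x + y * I) / e) * conj (q1 (m' * (x + y * I) / e)) =
      if m = m' then (e : ℂ) * Real.exp (-4 * π * m * y / e) else 0 := by
  have e0 : (e : ℂ) ≠ 0 := Nat.cast_ne_zero.2 he.ne'
  have h : ∀ x : ℝ, q1 (m * (x + y * I) / e) * conj (q1 (m' * (x + y * I) / e)) =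
      cexp (-2 * π * (m + m') * y / e) * cexp (2 * π * I * (m - m') / e * x) := fun x => by
    rw [q1, q1, ← Complex.exp_conj, ← Complex.exp_add, ← Complex.exp_add]
    congr 1
    simp only [map_mul, map_div₀, map_add, conj_ofReal, conj_I, map_natCast, map_ofNat]
    linear_combination (2 * π * (m + m') * y / e) * I_mul_I
  simp only [h, intervalIntegral.integral_const_mul]
  split_ifs with k
  · subst k
    simp only [sub_self, mul_zero, zero_div, zero_mul, Complex.exp_zero,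
      intervalIntegral.integral_const, sub_zero, real_smul, mul_one, ofReal_natCast, ofReal_exp]
    rw [mul_comm]
    congr 2
    push_cast
    ring
  · rw [integral_exp_mul_complex (div_ne_zero (mul_ne_zero two_pi_I_ne_zero
      (sub_ne_zero.2 (Nat.cast_injective.ne k))) e0),
      show 2 * π * I * ((m : ℂ) - m') / e * ((e : ℝ) : ℂ) = ((m - m' : ℤ) : ℂ) * (2 * π * I) by
        push_cast; field_simp, exp_int_mul_two_pi_mul_I]
    simp

theorem a5_mul {F G : ℕ → ℂ} {a c : ℂ} (ha : HasSum F a) (hc : HasSum G c) :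
    HasSum (fun p : ℕ × ℕ => F p.1 * G p.2) (a * c) :=
  ha.mul hc (summable_mul_of_summable_norm ha.summable.norm hc.summable.norm)

theorem a5_hasSum {u v : ℕ → ℂ} {U V : ℝ → ℂ} {y : ℝ} (he : 0 < e)
    (hU : ∀ x : ℝ, HasSum (fun m : ℕ => u m * q1 (m * (x + y * I) / e)) (U x))
    (hV : ∀ x : ℝ, HasSum (fun m : ℕ => v m * q1 (m * (x + y * I) / e)) (V x)) :
    HasSum (fun m : ℕ => e * (u m * conj (v m) * Real.exp (-4 * π * m * y / e)))
      (∫ x in (0 : ℝ)..e, U x * conj (V x)) := by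
  have hq : ∀ m : ℕ, Continuous fun x : ℝ => q1 (m * (x + y * I) / e) := fun m => by
    unfold q1
    fun_prop
  have h1 := intervalIntegral.hasSum_integral_of_dominated_convergence (μ := volume) (a := 0)
    (b := e) (F := fun (p : ℕ × ℕ) (x : ℝ) => u p.1 * q1 (p.1 * (x + y * I) / e) *
      conj (v p.2 * q1 (p.2 * (x + y * I) / e))) (f := fun x : ℝ => U x * conj (V x))
    (fun p _ => ‖u p.1 * q1 (p.1 * ((0 : ℝ) + y * I) / e)‖ *
      ‖v p.2 * q1 (p.2 * ((0 : ℝ) + y * I) / e)‖)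
    (fun p => ((continuous_const.mul (hq _)).mul
      (Complex.continuous_conj.comp (continuous_const.mul (hq _)))).aestronglyMeasurable)
    (fun p => ae_of_all _ fun x _ => by
      rw [norm_mul, Complex.norm_conj, a5_norm _ _ x 0, a5_norm _ _ x 0])
    (ae_of_all _ fun _ _ => (hU 0).summable.norm.mul_of_nonneg (hV 0).summable.norm
      (fun _ => norm_nonneg _) fun _ => norm_nonneg _) intervalIntegrable_const
    (ae_of_all _ fun x _ => (a5_mul (hU x) (Complex.hasSum_conj'.2 (hV x)) :))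
  have h2 : ∀ p : ℕ × ℕ, ∫ x in (0 : ℝ)..e, u p.1 * q1 (p.1 * (x + y * I) / e) *
      conj (v p.2 * q1 (p.2 * (x + y * I) / e)) = u p.1 * conj (v p.2) *
        if p.1 = p.2 then (e : ℂ) * Real.exp (-4 * π * p.1 * y / e) else 0 := fun p => by
    rw [← a5_term he, ← intervalIntegral.integral_const_mul]
    congr 1
    ext x
    rw [map_mul]
    ring
  simp only [h2] at h1
  refine (((Function.Injective.hasSum_iff (g := fun m : ℕ => (m, m))
    (fun _ _ h => congrArg Prod.fst h) fun p hp => ?_).2 h1).congr_fun fun m => ?_ :)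
  · rw [if_neg fun h => hp ⟨p.1, Prod.ext rfl h⟩, mul_zero]
  · simp only [Function.comp, if_true]
    ring

/-- Orthogonality on a horocycle. -/
theorem integral_mul_conj {u v : ℕ → ℂ} {U V : ℝ → ℂ} {y : ℝ} (he : 0 < e)
    (hu : Summable fun m : ℕ => ‖u m‖ * Real.exp (-2 * π * m * y / e))
    (hv : Summable fun m : ℕ => ‖v m‖ * Real.exp (-2 * π * m * y / e))
    (hU : ∀ x : ℝ, HasSum (fun m : ℕ => u m * q1 (m * (x + y * I) / e)) (U x))
    (hV : ∀ x : ℝ, HasSum (fun m : ℕ => v m * q1 (m * (x + y * I) / e)) (V x)) :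
    ∫ x in (0 : ℝ)..e, U x * conj (V x) =
      e * ∑' m : ℕ, u m * conj (v m) * Real.exp (-4 * π * m * y / e) := by
  rw [← (a5_hasSum he hU hV).tsum_eq, tsum_mul_left]

theorem a5_T (S : Sec) (f : ℂ → ℂ) (s : ℂ) (k : ℕ) (g : SL(2, ℤ)) (j : ℤ) (w : ℍ) :
    S.den f s k g (ModularGroup.T ^ j • w) = S.den f s k (ModularGroup.T ^ (-j) * g) w := by
  rw [← S.den_T f s k (ModularGroup.T ^ (-j) * g) j w, zpow_neg, mul_inv_cancel_left]

theorem a5_eq (hc : Cusp A.N f g₀ n e b) (i j : ℤ) :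
    ((ModularGroup.T ^ (-i) * g₀ : SL(2, ℤ)) : SL(2, ℤ) ⧸ Gamma0 A.N) =
      (ModularGroup.T ^ (-j) * g₀ : SL(2, ℤ)) ↔ (n : ℤ) ∣ i - j := by
  rw [QuotientGroup.eq, ← hc.width, show (ModularGroup.T ^ (-i) * g₀)⁻¹ *
    (ModularGroup.T ^ (-j) * g₀) = g₀⁻¹ * ModularGroup.T ^ (i - j) * g₀ by group]

/-- The cosets that carry the section. -/
theorem Sec.Ok.sum_den (hA : A.Ok) (h : S.Ok A) (hf : A.Cf f) (hc : Cusp A.N f g₀ n e b)
    (ht : S.At A.N g₀ e t) (s : ℂ) (k : ℕ) (w : ℍ) :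
    ∑ᶠ q : SL(2, ℤ) ⧸ Gamma0 A.N, S.den f s k q.out w =
      ∑ j ∈ Finset.range n, S.den f s k g₀ (ModularGroup.T ^ (j : ℤ) • w) := by
  have hn : (0 : ℤ) < n := Int.natCast_pos.2 hc.npos
  rw [finsum_eq_sum_of_support_subset (s := (Finset.range n).image fun j : ℕ =>
    ((ModularGroup.T ^ (-(j : ℤ)) * g₀ : SL(2, ℤ)) : SL(2, ℤ) ⧸ Gamma0 A.N)) _ fun q hq => ?_,
    Finset.sum_image fun i hi j hj e => ?_]
  · refine Finset.sum_congr rfl fun j _ => ?_
    obtain ⟨γ, hγ⟩ := QuotientGroup.mk_out_eq_mul (Gamma0 A.N) (ModularGroup.T ^ (-(j : ℤ)) * g₀)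
    rw [hγ, h.den_mul hA hf _ _ _ γ.2, a5_T]
  · have h1 := (a5_eq hc i j).1 e
    have h2 := Finset.mem_range.1 hi
    have h3 := Finset.mem_range.1 hj
    have := Int.eq_zero_of_abs_lt_dvd h1 (abs_lt.2 ⟨by omega, by omega⟩)
    omega
  · obtain ⟨j, hj⟩ := (ht.one q.out).resolve_left fun k => hq (by simp [Sec.den, Sec.Th, k])
    have h1 := Int.emod_nonneg j hn.ne'
    have h2 := Int.emod_lt_of_pos j hn
    refine Finset.mem_coe.2 (Finset.mem_image.2 ⟨(j % n).toNat, Finset.mem_range.2 (by omega), ?_⟩)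
    rw [Int.toNat_of_nonneg h1, (a5_eq hc _ j).2 (Int.dvd_emod_sub_self ..), ← q.out_eq',
      QuotientGroup.eq, mul_inv_rev, ← zpow_neg, neg_neg]
    exact hj

theorem a5_mean {W : ℝ → ℂ} (hW : Continuous W) (he : 0 < e) (h1 : Function.Periodic W n)
    (h2 : Function.Periodic W e) :
    ∫ x in (0 : ℝ)..1, ∑ j ∈ Finset.range n, W (x + j) = n / e * ∫ x in (0 : ℝ)..e, W x := by
  have e0 : (e : ℂ) ≠ 0 := Nat.cast_ne_zero.2 he.ne'
  have a := h1.intervalIntegral_add_zsmul_eq e 0 fun _ _ => hW.intervalIntegrable _ _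
  have c := h2.intervalIntegral_add_zsmul_eq n 0 fun _ _ => hW.intervalIntegrable _ _
  simp only [zero_add, zsmul_eq_mul, Int.cast_natCast] at a c
  have d := intervalIntegral.sum_integral_adjacent_intervals (f := W) (μ := volume)
    (a := fun j : ℕ => (j : ℝ)) (n := n) fun _ _ => hW.intervalIntegrable _ _
  rw [intervalIntegral.integral_finsetSum (f := fun (j : ℕ) (x : ℝ) => W (x + j)) fun j _ =>
    Continuous.intervalIntegrable (by fun_prop) _ _]
  simp only [intervalIntegral.integral_comp_add_right, zero_add]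
  simp only [Nat.cast_add, Nat.cast_one, add_comm _ (1 : ℝ), Nat.cast_zero] at d
  rw [d, div_mul_eq_mul_div, eq_div_iff e0, ← c, mul_comm (n : ℝ), a, mul_comm]

theorem a5_per {u : ℕ → ℂ} {U : ℝ → ℂ} {y : ℝ} (he : 0 < e)
    (hU : ∀ x : ℝ, HasSum (fun m : ℕ => u m * q1 (m * (x + y * I) / e)) (U x)) (x : ℝ) :
    U (x + e) = U x := by
  have e0 : (e : ℂ) ≠ 0 := Nat.cast_ne_zero.2 he.ne'
  refine (hU (x + e)).unique ((hU x).congr_fun fun m => ?_ :)
  rw [show (m : ℂ) * ((x + e : ℝ) + y * I) / e = m * (x + y * I) / e + (m : ℤ) by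
    push_cast; field_simp; ring, q1_add, q1_int, mul_one]

theorem a5_summable (hc : Cusp A.N f g₀ n e b) (ht : S.At A.N g₀ e t) (k : ℕ) {σ : ℝ}
    (hσ : 5 < σ) : Summable fun m : ℕ => ‖t k m * conj (b m)‖ / (4 * π * m / e) ^ (σ + 1) := by
  obtain ⟨C, hC⟩ := hc.bd
  obtain ⟨D, hD⟩ := ht.bd
  have e0 : (0 : ℝ) < e := Nat.cast_pos.2 hc.epos
  have h1 := (Real.summable_nat_rpow.2 (show 4 - (σ + 1) < -1 by linarith)).mul_left
    (|D| * |C| * 16 / (4 * π / e) ^ (σ + 1))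
  refine Summable.of_nonneg_of_le (fun m => by positivity) (fun m => ?_) h1
  rcases Nat.eq_zero_or_pos m with rfl | hm
  · rw [hc.zero, map_zero, mul_zero, norm_zero, zero_div]
    positivity
  have hm' : (1 : ℝ) ≤ m := by exact_mod_cast hm
  have h2 : (1 + m : ℝ) ^ 2 ≤ (2 * m) ^ 2 := by gcongr; linarith
  have h3 : ‖t k m‖ ≤ |D| * (2 * m) ^ 2 :=
    (hD k m).trans (mul_le_mul (le_abs_self D) h2 (by positivity) (abs_nonneg D))
  have h4 : ‖b m‖ ≤ |C| * (2 * m) ^ 2 :=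
    (hC m).trans (mul_le_mul (le_abs_self C) h2 (by positivity) (abs_nonneg C))
  rw [norm_mul, Complex.norm_conj, show 4 * π * m / e = 4 * π / e * m by ring,
    Real.mul_rpow (by positivity) (by positivity), Real.rpow_sub (by linarith)]
  calc _ ≤ |D| * (2 * m) ^ 2 * (|C| * (2 * m) ^ 2) /
        ((4 * π / e) ^ (σ + 1) * (m : ℝ) ^ (σ + 1)) := by gcongr
    _ = _ := by
      rw [show (m : ℝ) ^ (4 : ℝ) = m ^ 4 from Real.rpow_ofNat _ 4]
      field_simp
      ring

theorem a5_coe {y : ℝ} (hy : 0 < y) (x : ℝ) : ((ofComplex (x + y * I) : ℍ) : ℂ) = x + y * I := by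
  rw [ofComplex_apply_of_im_pos (by simpa using hy)]

theorem a5_U (ht : S.At A.N g₀ e t) {k : ℕ} (hk : 0 < k) {y : ℝ} (hy : 0 < y) (x : ℝ) :
    HasSum (fun m : ℕ => t k m * q1 (m * (x + y * I) / e)) (S.Th k g₀ (ofComplex (x + y * I))) := by
  have := ht.sum k hk (ofComplex (x + y * I))
  rwa [a5_coe hy] at this

theorem a5_V (hc : Cusp A.N f g₀ n e b) {y : ℝ} (hy : 0 < y) (x : ℝ) :
    HasSum (fun m : ℕ => b m * q1 (m * (x + y * I) / e)) (fs f g₀ (ofComplex (x + y * I))) := by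
  have := hc.sum (ofComplex (x + y * I))
  rwa [a5_coe hy] at this

theorem a5_row (hA : A.Ok) (h : S.Ok A) (hf : A.Cf f) (hc : Cusp A.N f g₀ n e b)
    (ht : S.At A.N g₀ e t) (s : ℂ) {k : ℕ} (hk : 0 < k) {y : ℝ} (hy : 0 < y) :
    ∫ x in (0 : ℝ)..1, ∑ j ∈ Finset.range n, S.den f s k g₀ (ofComplex (x + y * I + j)) =
      n / e * ((∫ x in (0 : ℝ)..e, S.Th k g₀ (ofComplex (x + y * I)) *
        conj (fs f g₀ (ofComplex (x + y * I)))) * (y : ℂ) ^ (s + 2)) := by
  have hW : ∀ x : ℝ, S.den f s k g₀ (ofComplex (x + y * I)) = S.Th k g₀ (ofComplex (x + y * I)) *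
      conj (fs f g₀ (ofComplex (x + y * I))) * (y : ℂ) ^ (s + 2) := fun x => by
    rw [Sec.den, ← coe_im, a5_coe hy]
    simp
  have hl : Continuous fun x : ℝ => ofComplex (x + y * I) :=
    isOpenEmbedding_coe.isInducing.continuous_iff.2 (by
      simp only [Function.comp_def, a5_coe hy]
      fun_prop)
  have h5 := a5_mean (n := n) (W := fun x : ℝ => S.den f s k g₀ (ofComplex (x + y * I))) (by
      simp only [hW]
      exact (((h.continuous_Th k g₀).comp hl).mul
        (Complex.continuous_conj.comp ((hf.continuous_fs g₀).comp hl))).mul continuous_const)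
    hc.epos
    (fun x => by
      have a : ofComplex ((x + n : ℝ) + y * I) =
          ModularGroup.T ^ (n : ℤ) • ofComplex (x + y * I) := by
        refine UpperHalfPlane.ext ?_
        rw [coe_T, a5_coe hy, a5_coe hy]
        push_cast
        ring
      beta_reduce
      rw [a, a5_T, ← h.den_mul hA hf s k g₀ ((hc.width (-n)).2 (by simp)), mul_assoc,
        mul_inv_cancel_left])
    fun x => by
      simp only [hW]
      rw [a5_per (U := fun x : ℝ => S.Th k g₀ (ofComplex (x + y * I))) hc.epos (a5_U ht hk hy) x,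
        a5_per (U := fun x : ℝ => fs f g₀ (ofComplex (x + y * I))) hc.epos (a5_V hc hy) x]
  have h6 : ∀ (x : ℝ) (j : ℕ), (x + y * I + j : ℂ) = (x + j : ℝ) + y * I := fun x j => by
    push_cast
    ring
  simp only [h6]
  rw [h5]
  simp only [hW, intervalIntegral.integral_mul_const]

theorem a5_mellin (hc : Cusp A.N f g₀ n e b) (ht : S.At A.N g₀ e t) {s : ℂ} (hs : 5 < s.re) {k : ℕ}
    (hk : 0 < k) : mellin (fun y : ℝ => (e : ℂ)⁻¹ * ∫ x in (0 : ℝ)..e,
      S.Th k g₀ (ofComplex (x + y * I)) * conj (fs f g₀ (ofComplex (x + y * I)))) (s + 1) =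
      Gamma (s + 1) * (4 * π / e : ℂ) ^ (-(s + 1)) *
        LSeries (fun m => t k m * conj (b m)) (s + 1) := by
  have he := hc.epos
  have e0 : (e : ℂ) ≠ 0 := Nat.cast_ne_zero.2 he.ne'
  have h2 := hasSum_mellin (a := fun m : ℕ => t k m * conj (b m))
    (p := fun m : ℕ => 4 * π * m / e) (s := s + 1)
    (F := fun y : ℝ => (e : ℂ)⁻¹ * ∫ x in (0 : ℝ)..e,
      S.Th k g₀ (ofComplex (x + y * I)) * conj (fs f g₀ (ofComplex (x + y * I))))
    (fun m => by
      rcases Nat.eq_zero_or_pos m with rfl | hm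
      · left; simp [hc.zero]
      · right; positivity)
    (by simp; linarith) (fun y hy => ((a5_hasSum he (a5_U ht hk hy) (a5_V hc hy)).mul_left
      (e : ℂ)⁻¹).congr_fun fun m => by
        rw [inv_mul_cancel_left₀ e0, show -(4 * π * m / e) * y = -4 * π * m * y / e by ring])
    (by simpa only [add_re, one_re] using a5_summable hc ht k hs)
  rw [← h2.tsum_eq, LSeries, ← tsum_mul_left]
  congr 1
  ext m
  rcases Nat.eq_zero_or_pos m with rfl | hm
  · simp [hc.zero]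
  have h4 : ((4 * π * m / e : ℝ) : ℂ) ^ (s + 1) =
      (4 * π / e : ℂ) ^ (s + 1) * (m : ℂ) ^ (s + 1) := by
    have := mul_cpow_ofReal_nonneg (a := 4 * π / e) (b := m) (by positivity)
      (Nat.cast_nonneg m) (s + 1)
    push_cast at this ⊢
    rw [← this]
    congr 1
    ring
  rw [LSeries.term_of_ne_zero hm.ne', h4, cpow_neg]
  ring

theorem Sec.Ok.integral_den (hA : A.Ok) (h : S.Ok A) (hf : A.Cf f) (hc : Cusp A.N f g₀ n e b)
    (ht : S.At A.N g₀ e t) {s : ℂ} (hs : 5 < s.re) {k : ℕ} (hk : 0 < k) :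
    ∑ᶠ q : SL(2, ℤ) ⧸ Gamma0 A.N, ∫ w in Str, S.den f s k q.out w =
      n * Gamma (s + 1) * (4 * π / e : ℂ) ^ (-(s + 1)) *
        LSeries (fun m => t k m * conj (b m)) (s + 1) := by
  have := finite_quot hA.Npos
  have := Fintype.ofFinite (SL(2, ℤ) ⧸ Gamma0 A.N)
  have hi := fun q : SL(2, ℤ) ⧸ Gamma0 A.N => h.integrableOn_den hf (s := s) (by linarith) k q.out
  have key : ∀ w : ℍ, ∑ q : SL(2, ℤ) ⧸ Gamma0 A.N, S.den f s k q.out w =
      ∑ j ∈ Finset.range n, S.den f s k g₀ (ofComplex (w + j)) := fun w => by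
    rw [← finsum_eq_sum_of_fintype, h.sum_den hA hf hc ht]
    refine Finset.sum_congr rfl fun j _ => ?_
    rw [show (w : ℂ) + j = ((ModularGroup.T ^ (j : ℤ) • w : ℍ) : ℂ) by
      rw [coe_T, Int.cast_natCast], ofComplex_apply]
  rw [finsum_eq_sum_of_fintype, ← integral_finsetSum _ fun q _ => hi q]
  simp only [key]
  rw [(integral_Str (F := fun z => ∑ j ∈ Finset.range n, S.den f s k g₀ (ofComplex (z + j))) (by
    simp only [← key]
    exact integrable_finsetSum _ fun q _ => hi q)).2, mul_assoc, mul_assoc, ← mul_assoc (Complex.Gamma _),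
    ← a5_mellin hc ht hs hk, mellin, ← integral_const_mul]
  refine setIntegral_congr_fun measurableSet_Ioi fun y hy => ?_
  have y0 : (y : ℂ) ≠ 0 := ofReal_ne_zero.2 (ne_of_gt hy)
  simp only [a5_row hA h hf hc ht s hk hy, smul_eq_mul, add_sub_cancel_right]
  rw [cpow_add _ _ y0, cpow_two]
  push_cast
  field_simp

end Pool.Agent.Lib.MP_696deb_nt.Y2.An
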