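import Pool.Agent.Lib.MP_696deb_nt.Y2.A3
import Pool.Agent.Lib.MP_60ff09_nt.Dih.ANk

/-! The Mellin transform is entire; value and derivative at zero. -/

set_option autoImplicit false

open Complex Filter Topology Set MeasureTheory CongruenceSubgroup
open UpperHalfPlane hiding I
open scoped Real MatrixGroups ComplexConjugate Modular Classical
open Pool.Agent.Shared.Weier Pool.Agent.Dih

namespace Pool.Agent.Lib.MP_696deb_nt.Y2.An

variable {A : Lev} {S : Sec} {f : ℂ → ℂ}

theorem a6_cont (hf : A.Cf f) : Continuous fun z : ℍ => conj (f z) * (z.im : ℂ) := by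
  have h1 : Continuous fun z : ℍ => f z := continuous_iff_continuousAt.2 fun z =>
    (hf.hol z z.im_pos).continuousAt.comp UpperHalfPlane.continuous_coe.continuousAt
  exact (Complex.continuous_conj.comp h1).mul
    (Complex.continuous_ofReal.comp UpperHalfPlane.continuous_im)

theorem a6_min (h : S.Ok A) (hf : A.Cf f) (k : ℕ) : ∃ C : ℝ, 0 ≤ C ∧ ∀ z : ℍ, ∀ τ : ℝ, 0 < τ →
    ‖conj (f z) * z.im * S.Kk z τ‖ ≤ C * min τ τ⁻¹ ^ (k + 1) := by
  obtain ⟨δ, C, hδ, hC, hK⟩ := h.norm_Kk_le k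
  obtain ⟨D, hD⟩ := hf.bd
  refine ⟨|D| * C, by positivity, fun z τ hτ => ?_⟩
  obtain ⟨g, hg⟩ := ModularGroup.exists_smul_mem_fd z
  have h1 := hK g⁻¹ _ hg τ hτ
  rw [inv_smul_smul] at h1
  have h2 : Real.exp (-δ * (g • z).im) ≤ 1 :=
    Real.exp_le_one_iff.2 (by nlinarith [mul_pos hδ (g • z).im_pos])
  rw [norm_mul, mul_assoc |D|, norm_mul, Complex.norm_conj, Complex.norm_real,
    Real.norm_of_nonneg z.im_pos.le]
  exact mul_le_mul ((hD z).trans (le_abs_self D)) (h1.trans (mul_le_mul_of_nonneg_right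
    (mul_le_of_le_one_right hC h2) (by positivity))) (norm_nonneg _) (abs_nonneg D)

theorem a6_le (hA : A.Ok) (h : S.Ok A) (hf : A.Cf f) (k : ℕ) : ∃ C : ℝ, 0 ≤ C ∧ ∀ τ : ℝ, 0 < τ →
    ‖S.Ii A.N f τ‖ ≤ C * min τ τ⁻¹ ^ (k + 1) := by
  obtain ⟨C, hC, hK⟩ := a6_min h hf k
  exact ⟨C * volume.real (XN A.N), by positivity, fun τ hτ =>
    (norm_setIntegral_le_of_norm_le_const (volume_XN_lt hA.Npos)
      fun z _ => hK z τ hτ).trans_eq (by ring)⟩

theorem a6_cont_Ii (hA : A.Ok) (h : S.Ok A) (hf : A.Cf f) :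
    ContinuousOn (S.Ii A.N f) (Ioi 0) := by
  obtain ⟨C, hC, hC'⟩ := a6_min h hf 0
  have : IsFiniteMeasure (volume.restrict (XN A.N)) :=
    isFiniteMeasure_restrict.2 (volume_XN_lt hA.Npos).ne
  refine continuousOn_of_dominated (bound := fun _ => C) (fun τ hτ => ?_)
    (fun τ hτ => Eventually.of_forall fun z => (hC' z τ hτ).trans ?_) (integrable_const C)
    (Eventually.of_forall fun z => ?_)
  · exact ((a6_cont hf).mul (h.continuousOn_Kk.comp_continuous
      (UpperHalfPlane.continuous_coe.prodMk continuous_const)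
      fun z => ⟨z.im_pos, hτ⟩)).aestronglyMeasurable
  · refine mul_le_of_le_one_right hC ?_
    rw [zero_add, pow_one]
    rcases le_total τ 1 with h1 | h1
    · exact (min_le_left _ _).trans h1
    · exact (min_le_right _ _).trans (inv_le_one_of_one_le₀ h1)
  · exact continuousOn_const.mul (h.continuousOn_Kk.comp
      (continuous_const.prodMk continuous_id).continuousOn fun τ hτ => ⟨z.im_pos, hτ⟩)

theorem a6_deriv (hA : A.Ok) (h : S.Ok A) (hf : A.Cf f) (s : ℂ) :
    HasDerivAt (mellin (S.Ii A.N f)) (mellin (fun t => Real.log t • S.Ii A.N f t) s) s := by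
  obtain ⟨k, hk⟩ := exists_nat_gt |s.re|
  obtain ⟨C, hC, hK⟩ := a6_le hA h hf k
  have hk' := abs_lt.1 hk
  refine (mellin_hasDerivAt_of_isBigO_rpow (a := ((k + 1 : ℕ) : ℝ)) (b := -((k + 1 : ℕ) : ℝ))
    ((a6_cont_Ii hA h hf).locallyIntegrableOn measurableSet_Ioi) ?_ (by push_cast; linarith) ?_
    (by push_cast; linarith)).2
  · refine Asymptotics.IsBigO.of_bound C ?_
    filter_upwards [eventually_gt_atTop 0] with τ hτ
    rw [Real.rpow_neg hτ.le, Real.rpow_natCast, Real.norm_of_nonneg (by positivity), ← inv_pow]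
    exact (hK τ hτ).trans (mul_le_mul_of_nonneg_left
      (pow_le_pow_left₀ (by positivity) (min_le_right _ _) _) hC)
  · refine Asymptotics.IsBigO.of_bound C ?_
    filter_upwards [self_mem_nhdsWithin] with τ hτ
    have hτ' : 0 < τ := hτ
    rw [neg_neg, Real.rpow_natCast, Real.norm_of_nonneg (by positivity)]
    exact (hK τ hτ').trans (mul_le_mul_of_nonneg_left
      (pow_le_pow_left₀ (by positivity) (min_le_left _ _) _) hC)

theorem a6_swap (hA : A.Ok) (h : S.Ok A) (hf : A.Cf f) (a b : ℝ) :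
    ∫ τ in Ioi (0 : ℝ), ((a + b * Real.log τ) / τ : ℝ) * S.Ii A.N f τ =
      pet A.N f (S.Phi a b) := by
  obtain ⟨C, hC, hC'⟩ := a6_min h hf 0
  have : IsFiniteMeasure (volume.restrict (XN A.N)) :=
    isFiniteMeasure_restrict.2 (volume_XN_lt hA.Npos).ne
  have hI : Integrable (Function.uncurry fun (z : ℍ) (τ : ℝ) =>
      (((a + b * Real.log τ) / τ : ℝ) : ℂ) * (conj (f z) * z.im * S.Kk z τ))
      ((volume.restrict (XN A.N)).prod (volume.restrict (Ioi 0))) := by
    refine Integrable.mono' ((Integrable.comp_snd (integrableOn_wt_min a b) _).const_mul C) ?_ ?_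
    · exact ((Complex.measurable_ofReal.comp ((((Real.measurable_log.comp
        measurable_snd).const_mul b).const_add a).div measurable_snd)).aestronglyMeasurable).mul
        (((a6_cont hf).measurable.comp measurable_fst).aestronglyMeasurable.mul (h.aemeas_Kk _))
    · filter_upwards [Measure.quasiMeasurePreserving_snd.ae (ae_restrict_mem measurableSet_Ioi)]
        with v hv
      have hv' : 0 < v.2 := hv
      have h1 := hC' v.1 v.2 hv'
      rw [zero_add, pow_one] at h1
      show ‖(((a + b * Real.log v.2) / v.2 : ℝ) : ℂ) * _‖ ≤ _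
      rw [norm_mul, Complex.norm_real, Real.norm_eq_abs, mul_left_comm]
      exact mul_le_mul_of_nonneg_left h1 (abs_nonneg _)
  simp only [Sec.Ii, ← integral_const_mul]
  rw [← integral_integral_swap hI, pet]
  congr 1
  funext z
  have hz : ((z.im : ℝ) : ℂ) ≠ 0 := by exact_mod_cast z.im_pos.ne'
  simp only [mul_left_comm _ (conj (f z) * z.im), integral_const_mul, Sec.Phi, coe_im]
  field_simp

theorem Sec.Ok.differentiable_mellin (hA : A.Ok) (h : S.Ok A) (hf : A.Cf f) :
    Differentiable ℂ (mellin (S.Ii A.N f)) :=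
  fun s => (a6_deriv hA h hf s).differentiableAt

theorem Sec.Ok.mellin_zero (hA : A.Ok) (h : S.Ok A) (hf : A.Cf f) :
    mellin (S.Ii A.N f) 0 = pet A.N f (S.Phi 1 0) := by
  rw [← a6_swap hA h hf, mellin]
  refine setIntegral_congr_fun measurableSet_Ioi fun t _ => ?_
  simp only [zero_sub, Complex.cpow_neg_one, smul_eq_mul]
  push_cast
  ring

theorem Sec.Ok.deriv_mellin (hA : A.Ok) (h : S.Ok A) (hf : A.Cf f) :
    deriv (mellin (S.Ii A.N f)) 0 = pet A.N f (S.Phi 0 1) := by
  rw [← a6_swap hA h hf, (a6_deriv hA h hf 0).deriv, mellin]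
  refine setIntegral_congr_fun measurableSet_Ioi fun t _ => ?_
  simp only [zero_sub, Complex.cpow_neg_one, Complex.real_smul, smul_eq_mul]
  push_cast
  ring

end Pool.Agent.Lib.MP_696deb_nt.Y2.An
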