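import Pool.Agent.Lib.MP_696deb_nt.Y2.A3
import Pool.Agent.Lib.MP_60ff09_nt.Dih.ANp

/-! Fourier coefficients of the kernel. -/

set_option autoImplicit false

open Complex Filter Topology Set MeasureTheory CongruenceSubgroup
open UpperHalfPlane hiding I
open scoped Real MatrixGroups ComplexConjugate Modular Classical
open Pool.Agent.Shared.Weier Pool.Agent.Dih

namespace Pool.Agent.Lib.MP_696deb_nt.Y2.An

variable {A : Lev} {S : Sec}

theorem a7_int {ι : Type} [Countable ι] {F : ι → ℝ → ℂ} {f : ℝ → ℂ} {B : ι → ℝ}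
    (hc : ∀ n, Continuous (F n)) (hb : ∀ n t, ‖F n t‖ ≤ B n) (hB : Summable B)
    (hl : ∀ t, HasSum (fun n => F n t) (f t)) :
    HasSum (fun n => ∫ t in (0 : ℝ)..1, F n t) (∫ t in (0 : ℝ)..1, f t) :=
  intervalIntegral.hasSum_integral_of_dominated_convergence (fun n _ => B n)
    (fun n => (hc n).aestronglyMeasurable) (fun n => ae_of_all _ fun t _ => hb n t)
    (ae_of_all _ fun _ _ => hB) intervalIntegrable_const (ae_of_all _ fun t _ => hl t)

theorem a7_cont : Continuous q1 := by unfold q1; fun_prop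

theorem a7_q1 (m : ℤ) : ∫ x in (0 : ℝ)..1, q1 (m * x) = if m = 0 then 1 else 0 := by
  split_ifs with h
  · simp [h, q1]
  · have h1 : (2 * π * I * m : ℂ) ≠ 0 := by
      simp [h, Real.pi_ne_zero]
    have h2 : ∀ x : ℝ, q1 (m * x) = cexp ((2 * π * I * m) * x) := fun x => by
      rw [q1, mul_assoc (2 * π * I)]
    simp_rw [h2]
    rw [integral_exp_mul_complex h1]
    have h3 := q1_int m
    rw [q1] at h3
    simp [h3]

theorem a7_im (t : ℝ) : q1 (t * I) = Real.exp (-2 * π * t) := by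
  rw [q1, Complex.ofReal_exp]
  congr 1
  push_cast
  linear_combination (2 * π * t) * I_mul_I

theorem a7_norm (m : ℤ) (x : ℝ) : ‖q1 (m * x)‖ = 1 := by rw [norm_q1]; simp

theorem a7_neg {M : ℕ} {g : ℤ → ℂ} (h : ∀ d, g (d + M) = g d) :
    ∑ d ∈ Finset.range M, g (-d) = ∑ d ∈ Finset.range M, g d := by
  have h1 := Finset.sum_range_succ' (fun d : ℕ => g d) M
  rw [Finset.sum_range_succ, ← zero_add (M : ℤ), h, Nat.cast_zero, add_left_inj] at h1
  rw [h1, ← Finset.sum_range_reflect fun d : ℕ => g (d + 1 : ℕ)]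
  refine Finset.sum_congr rfl fun d hd => ?_
  rw [← h]
  have := Finset.mem_range.1 hd
  exact congrArg g (by omega)

theorem Sec.Ok.lam_bd (h : S.Ok A) {ε : ℝ} (hε : 0 < ε) :
    ∃ C : ℝ, 0 ≤ C ∧ ∀ n c l, ‖S.lam n c l‖ ≤ C * (1 + n : ℝ) ^ ε := by
  obtain ⟨C, hC⟩ := h.bd ε hε
  exact ⟨C, by simpa using (norm_nonneg _).trans (hC 0 0 0),
    fun n => (PB.ft h.pos ⟨h.per1 n, h.per2 n, hC n⟩).bd⟩

theorem Sec.Ok.lam_neg (h : S.Ok A) (n : ℕ) (c l : ℤ) : S.lam n (-c) (-l) = -S.lam n c l := by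
  have hM : (S.M : ℂ) ≠ 0 := Nat.cast_ne_zero.2 h.pos.ne'
  have h1 := a7_neg (M := S.M) (g := fun d => S.s n c d * q1 (d * l / S.M)) fun d => by
    rw [h.per2, Int.cast_add, Int.cast_natCast, add_mul, add_div, mul_div_cancel_left₀ _ hM, q1_add,
      q1_int, mul_one]
  simp only [Int.cast_natCast] at h1
  rw [Sec.lam, Sec.lam, ← h1, ← neg_div, ← Finset.sum_neg_distrib]
  refine congrArg (· / _) (Finset.sum_congr rfl fun d _ => ?_)
  rw [← neg_mul, ← h.odd, neg_neg]
  simp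

theorem Sec.Ok.hasSum_ft (h : S.Ok A) (c l : ℤ) {z : ℂ} (hz : 0 < z.im) :
    HasSum (fun n : ℕ => S.lam n c l * q1 (n * z / S.M)) (ft S.M (fun c d => S.F c d z) c l) := by
  refine ((hasSum_sum (s := Finset.range S.M) fun (d : ℕ) _ =>
    (h.summable_F c d hz).of_norm.hasSum.mul_right (q1 (d * l / S.M))).div_const
      (S.M : ℂ)).congr_fun fun n => ?_
  rw [Sec.lam, div_mul_eq_mul_div, Finset.sum_mul]
  simp only [mul_right_comm]

theorem Sec.Ok.Kk_add_one (h : S.Ok A) {z : ℂ} (hz : 0 < z.im) (τ : ℝ) :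
    S.Kk (z + 1) τ = A.ξ ModularGroup.T * S.Kk z τ := by
  have := h.Kk_law (T_mem A.N 1) ⟨z, hz⟩ τ
  rw [coe_T, jac_T, zpow_one] at this
  simpa using this

theorem Sec.Ok.a7_coef (h : S.Ok A) (μ : ℕ) (c l : ℤ) {y : ℝ} (hy : 0 < y) :
    ∫ x in (0 : ℝ)..1, ft S.M (fun c d => S.F c d ((S.M * x : ℝ) + y * I)) c l *
      q1 ((c * l - μ : ℤ) * x) = S.lamZ (μ - c * l) c l *
        (Real.exp (-2 * π * μ * y / S.M) * Real.exp (2 * π * (y / S.M) * (c * l)) : ℝ) := by
  have hM : (S.M : ℂ) ≠ 0 := Nat.cast_ne_zero.2 h.pos.ne'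
  set a : ℕ → ℂ := fun n => S.lam n c l * q1 (n * (y * I) / S.M) with ha
  have hs : Summable fun n => ‖a n‖ :=
    summable_norm_iff.mpr (h.hasSum_ft c l (z := y * I) (by simpa using hy)).summable
  have key := a7_int (F := fun (n : ℕ) (x : ℝ) => a n * q1 ((n + c * l - μ : ℤ) * x))
    (f := fun x : ℝ => ft S.M (fun c d => S.F c d ((S.M * x : ℝ) + y * I)) c l *
      q1 ((c * l - μ : ℤ) * x)) (B := fun n => ‖a n‖)
    (fun n => continuous_const.mul (a7_cont.comp (by fun_prop)))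
    (fun n t => by rw [norm_mul, a7_norm, mul_one]) hs
    (fun x => by
      refine ((h.hasSum_ft c l (z := (S.M * x : ℝ) + y * I) (by simpa using hy)).mul_right
        _).congr_fun fun n => ?_
      simp only [ha, mul_assoc, ← q1_add]
      congr 2
      push_cast
      field_simp
      ring)
  simp only [intervalIntegral.integral_const_mul, a7_q1] at key
  rw [← key.tsum_eq, Sec.lamZ]
  split_ifs with k
  · obtain ⟨n, hn⟩ := Int.eq_ofNat_of_zero_le k
    rw [tsum_eq_single n fun m hm => by rw [if_neg (by omega), mul_zero], if_pos (by omega), hn,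
      Int.toNat_natCast, mul_one, ← Real.exp_add, ha]
    have e : (n : ℝ) = μ - c * l := by exact_mod_cast hn.symm
    simp only
    rw [show (n * (y * I) / S.M : ℂ) = (n * y / S.M : ℝ) * I by push_cast; ring, a7_im, e]
    congr 3
    ring
  · rw [zero_mul, tsum_congr fun n => by rw [if_neg (by omega), mul_zero], tsum_zero]

theorem Sec.Ok.coef_Kk (h : S.Ok A) {m μ : ℕ} (hm : μ * A.h = m * S.M) (hh : 0 < A.h)
    (hT : q1 (m / A.h) = A.ξ ModularGroup.T) {y τ : ℝ} (hy : 0 < y) (hτ : 0 < τ) :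
    ∫ x in (0 : ℝ)..1, S.Kk (x + y * I) τ * q1 (-(m * x / A.h)) =
      y * -I * Real.exp (-2 * π * m * y / A.h) * ∑' v : ℤ × ℤ,
        S.lamZ (μ - v.1 * v.2) v.1 v.2 * jj v.1 v.2 (y / S.M) τ := by
  have hM : (S.M : ℂ) ≠ 0 := Nat.cast_ne_zero.2 h.pos.ne'
  have hM' : (0 : ℝ) < S.M := Nat.cast_pos.2 h.pos
  have h0 : (A.h : ℂ) ≠ 0 := Nat.cast_ne_zero.2 hh.ne'
  have h0' : (A.h : ℝ) ≠ 0 := Nat.cast_ne_zero.2 hh.ne'
  have hm1 : (μ * A.h : ℂ) = m * S.M := by exact_mod_cast hm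
  have hm2 : (μ * A.h : ℝ) = m * S.M := by exact_mod_cast hm
  have hY : 0 < y / S.M := by positivity
  have him : ∀ x : ℝ, (x + y * I : ℂ).im = y := fun x => by simp
  have hre : ∀ x : ℝ, (x + y * I : ℂ).re = x := fun x => by simp
  have hp : ∀ x : ℝ, 0 < (x + y * I : ℂ).im := fun x => by rwa [him]
  obtain ⟨C, hC⟩ := h.F_bd
  have pb : ∀ x : ℝ, PB S.M (fun c d => S.F c d (x + y * I)) (C / √y) := fun x =>
    h.pb fun c d => (le_div_iff₀ (Real.sqrt_pos.2 hy)).2 (by simpa using hC c d ⟨_, hp x⟩)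
  set G : ℝ → ℂ := fun x => S.Kk (x + y * I) τ * q1 (-(m * x / A.h)) with hG
  have g1 : Continuous G := ((h.continuousOn_Kk.comp_continuous
    (f := fun x : ℝ => ((x + y * I : ℂ), τ)) (by fun_prop) fun x => ⟨hp x, hτ⟩).mul
      (a7_cont.comp (by fun_prop)))
  have g2 : ∀ x, G (x + 1) = G x := fun x => by
    simp only [hG]
    rw [ofReal_add, ofReal_one, add_right_comm, h.Kk_add_one (hp x), ← hT, mul_right_comm,
      ← q1_add, mul_comm]
    congr 2
    ring
  have g3 : ∫ x in (0 : ℝ)..1, G x = ∫ x in (0 : ℝ)..1, G (S.M * x) := by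
    rw [intervalIntegral.integral_comp_mul_left _ hM'.ne', mul_zero, mul_one,
      integral_nat_period g2 (g1.intervalIntegrable _ _), real_smul, ofReal_inv, ofReal_natCast,
      inv_mul_cancel_left₀ hM]
  set F : ℤ × ℤ → ℝ → ℂ := fun v x => (jw v.1 v.2 (y / S.M) τ : ℂ) *
    (ft S.M (fun c d => S.F c d ((S.M * x : ℝ) + y * I)) v.1 v.2 *
      q1 ((v.1 * v.2 - μ : ℤ) * x)) with hF
  have hb : ∀ v x, ‖F v x‖ ≤ |jw v.1 v.2 (y / S.M) τ| * (C / √y) := fun v x => by
    simp only [hF, norm_mul, a7_norm, mul_one, Complex.norm_real, Real.norm_eq_abs]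
    exact mul_le_mul_of_nonneg_left (((pb _).ft h.pos).bd _ _) (abs_nonneg _)
  have hB := (summable_jw hY hτ).mul_right (C / √y)
  have key := a7_int (F := F) (f := fun x => ∑' v, F v x) (fun v => by
      refine continuous_const.mul (Continuous.mul ?_ (a7_cont.comp (by fun_prop)))
      exact (continuous_finsetSum _ fun d _ => ((h.continuousOn_F _ _).comp_continuous
        (by fun_prop) fun x => hp _).mul continuous_const).div_const _) hb hB
    fun x => (Summable.of_norm_bounded hB fun v => hb v x).hasSum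
  have h1 : ∀ x : ℝ, G (S.M * x) = y * -I * ∑' v, F v x := fun x => by
    simp only [hG]
    rw [S.Kk_eq_gk, (pb _).gk_eq h.pos (hp _) hτ, him, hre, mul_assoc, ← tsum_mul_right]
    congr 1
    refine tsum_congr fun v => ?_
    simp only [hF]
    rw [mul_assoc, ← q1_add, mul_left_comm, mul_assoc]
    congr 3
    push_cast
    field_simp
    linear_combination x * hm1
  rw [g3]
  simp_rw [h1]
  rw [intervalIntegral.integral_const_mul, ← key.tsum_eq, mul_assoc (y * -I : ℂ) ((Real.exp _ : ℝ) : ℂ),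
    ← tsum_mul_left (a := ((Real.exp _ : ℝ) : ℂ))]
  congr 1
  refine tsum_congr fun v => ?_
  simp only [hF]
  rw [intervalIntegral.integral_const_mul, h.a7_coef μ _ _ hy, jj_eq _ _ _ hτ,
    show -2 * π * μ * y / S.M = -2 * π * m * y / A.h by
      field_simp
      linear_combination -hm2]
  push_cast
  ring

end Pool.Agent.Lib.MP_696deb_nt.Y2.An
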