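import Pool.Agent.Lib.MP_696deb_nt.Y2.A7
import Pool.Agent.Lib.MP_60ff09_nt.Dih.ANp2
import Pool.Agent.Lib.MP_60ff09_nt.Dih.ANq

/-! Fourier coefficients of the forms of weight two. -/

set_option autoImplicit false

open Complex Filter Topology Set MeasureTheory CongruenceSubgroup
open UpperHalfPlane hiding I
open scoped Real MatrixGroups ComplexConjugate Modular Classical
open Pool.Agent.Shared.Weier Pool.Agent.Dih

namespace Pool.Agent.Lib.MP_696deb_nt.Y2.An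

variable {A : Lev} {S : Sec}

theorem mass_neg {Y : ℝ} (hY : 0 < Y) {c l : ℤ} (hc : 0 < c) (hl : 0 < l) :
    ∫ τ in Ioi (0 : ℝ), τ⁻¹ * jj c (-l) Y τ = 0 := by
  have _ := hY
  have c0 : (0 : ℝ) < c := by exact_mod_cast hc
  have l0 : (0 : ℝ) < l := by exact_mod_cast hl
  set k : ℝ := ((l : ℝ) / c) ^ 2 with hk
  have k0 : 0 < k := by positivity
  have him : (fun τ : ℝ => k / τ) '' Ioi 0 = Ioi 0 := by
    refine Subset.antisymm ?_ fun τ hτ => ⟨k / τ, div_pos k0 hτ, ?_⟩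
    · rintro _ ⟨τ, hτ, rfl⟩
      exact div_pos k0 hτ
    · exact div_div_cancel₀ k0.ne'
  have h4 := integral_image_eq_integral_abs_deriv_smul (s := Ioi (0 : ℝ)) measurableSet_Ioi
    (f := fun τ => k / τ) (f' := fun τ => -k / τ ^ 2)
    (fun τ hτ => by
      have := ((hasDerivAt_inv (ne_of_gt hτ)).const_mul k).hasDerivWithinAt (s := Ioi 0)
      simpa only [div_eq_mul_inv, mul_neg, neg_mul] using this)
    (fun x _ y _ e => inv_injective (mul_left_cancel₀ k0.ne' e))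
    fun τ => τ⁻¹ * jj c (-l) Y τ
  have h5 : ∫ τ in Ioi (0 : ℝ), |-k / τ ^ 2| • ((k / τ)⁻¹ * jj c (-l) Y (k / τ)) =
      ∫ τ in Ioi (0 : ℝ), -(τ⁻¹ * jj c (-l) Y τ) := by
    refine setIntegral_congr_fun measurableSet_Ioi fun τ hτ => ?_
    have t0 : (0 : ℝ) < τ := hτ
    have s0 := Real.sqrt_pos.2 t0
    have e1 : √(k / τ) = l / c / √τ := by
      rw [Real.sqrt_div k0.le, hk, Real.sqrt_sq (by positivity)]
    have e2 : jj c (-l) Y (k / τ) = -jj c (-l) Y τ := by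
      rw [jj, jj, e1, Int.cast_neg, neg_div, neg_div,
        show (c : ℝ) * (l / c / √τ) = l / √τ by field_simp,
        show (l : ℝ) / (l / c / √τ) = c * √τ by field_simp, sub_neg_eq_add, sub_neg_eq_add,
        add_comm ((l : ℝ) / √τ) (c * √τ)]
      ring
    rw [e2, neg_div, abs_neg, abs_of_pos (by positivity), smul_eq_mul]
    field_simp
  rw [him, h5, integral_neg] at h4
  linarith

private lemma a7b_bound (a b : ℝ) {Y : ℝ} (hY : 0 < Y) : ∃ K : ℝ, ∀ c l : ℤ, c ≠ 0 → l ≠ 0 →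
    ∀ τ : ℝ, 0 < τ → |(a + b * Real.log τ) / τ * jw c l Y τ| ≤
      (|(c : ℝ)| + |(l : ℝ)|) * K * Real.exp (-(π * Y / 2) * τ) := by
  refine ⟨(|a| + |b|) * (√Y * (6 / (π * Y / 2) ^ 3)), fun c l hc hl τ hτ => ?_⟩
  set r := π * Y / 2 with hr
  have a0 : 0 < r := by positivity
  have i0 : 0 < τ⁻¹ := inv_pos.2 hτ
  have s0 := Real.sqrt_pos.2 hτ
  set s := τ + τ⁻¹ with hs
  have k1 : τ * τ⁻¹ = 1 := mul_inv_cancel₀ hτ.ne'
  have k2 : 1 ≤ s := by nlinarith [sq_nonneg (τ - τ⁻¹), sq_nonneg (s - 1)]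
  have h1 : |Real.log τ| ≤ s := by
    have k1 := Real.log_le_sub_one_of_pos hτ
    have k2 := Real.log_le_sub_one_of_pos i0
    rw [Real.log_inv] at k2
    rw [abs_le]
    constructor <;> linarith
  have h0 : |a + b * Real.log τ| ≤ (|a| + |b|) * s := by
    refine (abs_add_le _ _).trans ?_
    rw [abs_mul, add_mul]
    exact add_le_add (le_mul_of_one_le_right (abs_nonneg a) k2)
      (mul_le_mul_of_nonneg_left h1 (abs_nonneg b))
  have h2 : √τ ≤ s ∧ (√τ)⁻¹ ≤ s := by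
    rw [← Real.sqrt_inv]
    constructor <;> refine Real.sqrt_le_iff.2 ⟨by linarith, by nlinarith⟩
  have c1 : (1 : ℝ) ≤ (c : ℝ) ^ 2 := by
    exact_mod_cast (one_le_sq_iff_one_le_abs c).2 (Int.one_le_abs hc)
  have l1 : (1 : ℝ) ≤ (l : ℝ) ^ 2 := by
    exact_mod_cast (one_le_sq_iff_one_le_abs l).2 (Int.one_le_abs hl)
  have h3 : |(c : ℝ) * √τ + l / √τ| ≤ (|(c : ℝ)| + |(l : ℝ)|) * s := by
    refine (abs_add_le _ _).trans ?_
    rw [abs_mul, div_eq_mul_inv, abs_mul, abs_of_pos s0, abs_of_pos (inv_pos.2 s0), add_mul]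
    gcongr
    exacts [h2.1, h2.2]
  have h4 : Real.exp (-π * Y * (τ * c ^ 2 + l ^ 2 / τ)) ≤
      Real.exp (-(r * s)) * Real.exp (-r * τ) := by
    rw [← Real.exp_add]
    refine Real.exp_le_exp.2 ?_
    have k1 : s ≤ τ * c ^ 2 + l ^ 2 / τ := by
      rw [div_eq_mul_inv]
      nlinarith
    have k2 : -π * Y = -(2 * r) := by rw [hr]; ring
    rw [k2]
    nlinarith
  have s1 : 0 < s := by positivity
  have h5 : s ^ 3 * Real.exp (-(r * s)) ≤ 6 / r ^ 3 := by
    have k1 := Real.pow_div_factorial_le_exp (r * s) (by positivity) 3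
    rw [Real.exp_neg, ← div_eq_mul_inv, div_le_div_iff₀ (Real.exp_pos _) (by positivity)]
    rw [div_le_iff₀ (by positivity)] at k1
    norm_num [Nat.factorial] at k1
    nlinarith
  have h6 : τ⁻¹ ≤ s := by linarith
  rw [jw, abs_mul, abs_mul, abs_mul, div_eq_mul_inv, abs_mul, abs_of_pos i0,
    abs_of_pos (Real.sqrt_pos.2 hY), abs_of_pos (Real.exp_pos _)]
  calc _ ≤ (|a| + |b|) * s * s * (√Y * ((|(c : ℝ)| + |(l : ℝ)|) * s) *
        (Real.exp (-(r * s)) * Real.exp (-r * τ))) := by gcongr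
    _ = (|(c : ℝ)| + |(l : ℝ)|) * ((|a| + |b|) * (√Y * (s ^ 3 * Real.exp (-(r * s))))) *
        Real.exp (-r * τ) := by ring
    _ ≤ _ := by gcongr

theorem integral_abs_wt (a b : ℝ) {Y : ℝ} (hY : 0 < Y) : ∃ C : ℝ, ∀ c l : ℤ, c ≠ 0 → l ≠ 0 →
    IntegrableOn (fun τ : ℝ => (a + b * Real.log τ) / τ * jw c l Y τ) (Ioi 0) ∧
    ∫ τ in Ioi (0 : ℝ), |(a + b * Real.log τ) / τ * jw c l Y τ| ≤ C * (|c| + |l|) := by
  obtain ⟨K, hK⟩ := a7b_bound a b hY
  have ha : 0 < π * Y / 2 := by positivity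
  have hi := exp_neg_integrableOn_Ioi 0 ha
  refine ⟨K * ∫ τ in Ioi (0 : ℝ), Real.exp (-(π * Y / 2) * τ), fun c l hc hl => ?_⟩
  have hi' := hi.const_mul ((|(c : ℝ)| + |(l : ℝ)|) * K)
  have hb : ∀ᵐ τ ∂(volume.restrict (Ioi (0 : ℝ))), |(a + b * Real.log τ) / τ * jw c l Y τ| ≤
      (|(c : ℝ)| + |(l : ℝ)|) * K * Real.exp (-(π * Y / 2) * τ) :=
    (ae_restrict_mem measurableSet_Ioi).mono fun τ hτ => hK c l hc hl τ hτ
  have hm : Measurable fun τ : ℝ => (a + b * Real.log τ) / τ * jw c l Y τ := by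
    unfold jw
    fun_prop
  have h1 : IntegrableOn (fun τ : ℝ => (a + b * Real.log τ) / τ * jw c l Y τ) (Ioi 0) :=
    hi'.mono' hm.aestronglyMeasurable hb
  refine ⟨h1, (integral_mono_ae h1.abs hi' hb).trans_eq ?_⟩
  rw [integral_const_mul]
  push_cast
  ring

theorem Sec.Ok.summable_neg (h : S.Ok A) (μ : ℕ) {ε : ℝ} (hε : 0 < ε) :
    Summable fun k : ℕ => ‖S.neg μ k‖ * (k : ℝ) ^ (-1 - ε) := by
  obtain ⟨C, hC0, hC⟩ := h.lam_bd (ε := ε / 3) (by positivity)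
  obtain ⟨B, hB, H⟩ := fdivisor_bound (ε := ε / 3) (by positivity)
  have hs : Summable fun k : ℕ => B * C * ((μ : ℝ) + 2) ^ (ε / 3) *
      (k : ℝ) ^ (-1 - ε / 3) := (Real.summable_nat_rpow.2 (by linarith)).mul_left _
  refine hs.of_nonneg_of_le (fun k => by positivity) fun k => ?_
  rcases eq_or_ne k 0 with rfl | hk
  · rw [Nat.cast_zero (R := ℝ), Real.zero_rpow (by linarith), Real.zero_rpow (by linarith), mul_zero,
      mul_zero]
  have k0 : (0 : ℝ) < k := by positivity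
  have k1 : (1 : ℝ) ≤ k := by exact_mod_cast Nat.pos_of_ne_zero hk
  have h4 : (1 + (μ + k : ℕ) : ℝ) ^ (ε / 3) ≤ ((μ : ℝ) + 2) ^ (ε / 3) * (k : ℝ) ^ (ε / 3) := by
    rw [← Real.mul_rpow (by positivity) k0.le]
    refine Real.rpow_le_rpow (by positivity) ?_ (by positivity)
    push_cast
    nlinarith [Nat.cast_nonneg (α := ℝ) μ]
  have h5 : ‖S.neg μ k‖ ≤ B * (k : ℝ) ^ (ε / 3) *
      (C * (((μ : ℝ) + 2) ^ (ε / 3) * (k : ℝ) ^ (ε / 3))) := by
    rw [Sec.neg, Nat.sum_divisorsAntidiagonal fun c l : ℕ => S.lam (μ + k) c (-l)]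
    refine (norm_sum_le _ _).trans ((Finset.sum_le_card_nsmul _ _ _ fun c _ =>
      (hC _ _ _).trans (mul_le_mul_of_nonneg_left h4 hC0)).trans ?_)
    rw [nsmul_eq_mul]
    exact mul_le_mul_of_nonneg_right (H k hk) (by positivity)
  refine (mul_le_mul_of_nonneg_right h5 (by positivity)).trans_eq ?_
  have e2 : (k : ℝ) ^ (-1 - ε / 3) =
      (k : ℝ) ^ (ε / 3) * (k : ℝ) ^ (ε / 3) * (k : ℝ) ^ (-1 - ε) := by
    rw [← Real.rpow_add k0, ← Real.rpow_add k0]
    congr 1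
    ring
  rw [e2]
  ring

private lemma a7b_tsum_div {b : ℤ × ℤ → ℂ} (hb : Summable b) (h0 : ∀ v, v.1 * v.2 = 0 → b v = 0)
    (hn : ∀ c l, b (-c, -l) = b (c, l)) :
    ∑' v, b v = 2 * (∑' k : ℕ, ∑ x ∈ k.divisorsAntidiagonal, b (x.1, x.2) +
      ∑' k : ℕ, ∑ x ∈ k.divisorsAntidiagonal, b (x.1, -x.2)) := by
  have h1 := hb.hasSum.tsum_fiberwise fun v => v.1 * v.2
  have h2 : ∀ k : ℤ, ∑' v : (fun v : ℤ × ℤ => v.1 * v.2) ⁻¹' {k}, b v =
      ∑ v ∈ k.divisorsAntidiag, b v := fun k => by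
    rw [tsum_subtype, tsum_eq_sum (s := k.divisorsAntidiag)]
    · refine Finset.sum_congr rfl fun v hv => indicator_of_mem ?_ _
      exact (Int.mem_divisorsAntidiag.mp hv).1
    · intro v hv
      by_cases h : v ∈ (fun v : ℤ × ℤ => v.1 * v.2) ⁻¹' {k}
      · rw [indicator_of_mem h]
        refine h0 v ?_
        by_contra h3
        have h4 : v.1 * v.2 = k := h
        exact hv (Int.mem_divisorsAntidiag.mpr ⟨h4, h4 ▸ h3⟩)
      · exact indicator_of_notMem h _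
  simp_rw [h2] at h1
  have h3 : ∀ k : ℕ, ∑ v ∈ (k : ℤ).divisorsAntidiag, b v =
      2 * ∑ x ∈ k.divisorsAntidiagonal, b (x.1, x.2) := fun k => by
    rw [Int.divisorsAntidiag_natCast, Finset.sum_disjUnion, Finset.sum_map, Finset.sum_map, two_mul]
    congr 1
    exact Finset.sum_congr rfl fun v _ => hn v.1 v.2
  have h4 : ∀ k : ℕ, ∑ v ∈ (-k : ℤ).divisorsAntidiag, b v =
      2 * ∑ x ∈ k.divisorsAntidiagonal, b (x.1, -x.2) := fun k => by
    rw [Int.divisorsAntidiag_neg_natCast, Finset.sum_disjUnion, Finset.sum_map, Finset.sum_map,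
      two_mul]
    congr 1
    refine Finset.sum_congr rfl fun v _ => ?_
    have := hn v.1 (-v.2)
    rw [neg_neg] at this
    exact this
  have s1 := h1.summable.comp_injective (Nat.cast_injective (R := ℤ))
  have s2 := h1.summable.comp_injective
    (neg_injective.comp (Nat.cast_injective (R := ℤ)))
  have h5 := Summable.tsum_of_nat_of_neg (f := fun k : ℤ => ∑ v ∈ k.divisorsAntidiag, b v) s1 s2
  rw [← h1.tsum_eq, h5]
  simp only [h3, h4, tsum_mul_left, Int.divisorsAntidiag_zero, Finset.sum_empty]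
  ring

private lemma a7b_summable_u {a : ℝ} (ha : 0 < a) :
    Summable fun c : ℤ => |(c : ℝ)| ^ 3 * Real.exp (-a * |(c : ℝ)|) := by
  have h := Real.summable_pow_mul_exp_neg_nat_mul 3 ha
  refine Summable.of_nat_of_neg ?_ ?_ <;> simpa using h

private lemma a7b_bound_jj (h : S.Ok A) (N : ℕ) {Y : ℝ} (hY : 0 < Y) : ∃ K : ℝ, ∀ c l : ℤ,
    c ≠ 0 → l ≠ 0 → ‖S.lamZ (N - c * l) c l‖ * Real.exp (2 * π * Y * (c * l)) *
      (|(c : ℝ)| + |(l : ℝ)|) ≤ K * (|(c : ℝ)| ^ 3 * Real.exp (-(π * Y) * |(c : ℝ)|) *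
        (|(l : ℝ)| ^ 3 * Real.exp (-(π * Y) * |(l : ℝ)|))) := by
  obtain ⟨C, hC0, hC⟩ := h.lam_bd one_pos
  refine ⟨C * (N + 2) * Real.exp (4 * π * Y * N) * 2, fun c l hc hl => ?_⟩
  have hc1 : (1 : ℝ) ≤ |(c : ℝ)| := by exact_mod_cast Int.one_le_abs hc
  have hl1 : (1 : ℝ) ≤ |(l : ℝ)| := by exact_mod_cast Int.one_le_abs hl
  by_cases h1 : 0 ≤ (N : ℤ) - c * l
  swap
  · rw [Sec.lamZ, if_neg h1, norm_zero, zero_mul, zero_mul]; positivity
  have h2 : (c * l : ℝ) ≤ N := by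
    have : c * l ≤ (N : ℤ) := by omega
    exact_mod_cast this
  set s := |(c : ℝ)|
  set t := |(l : ℝ)|
  have hst : |(c * l : ℝ)| = s * t := abs_mul _ _
  have hN : (0 : ℝ) ≤ N := Nat.cast_nonneg N
  have h3 : s + t ≤ 2 * (s * t) := by nlinarith
  have h4 : (1 : ℝ) ≤ s * t := by nlinarith
  have hπ : 0 < π * Y := mul_pos Real.pi_pos hY
  have h5 : ‖S.lamZ (N - c * l) c l‖ ≤ C * ((N + 2) * (s * t) ^ 2) := by
    rw [Sec.lamZ, if_pos h1]
    refine (hC _ _ _).trans (mul_le_mul_of_nonneg_left ?_ hC0)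
    have e : (((N : ℤ) - c * l).toNat : ℝ) = N - c * l := by
      have := Int.toNat_of_nonneg h1
      exact_mod_cast this
    rw [Real.rpow_one, e]
    have := neg_abs_le (c * l : ℝ)
    have h7 : s * t ≤ (s * t) ^ 2 := by nlinarith
    nlinarith
  have h6 : Real.exp (2 * π * Y * (c * l)) ≤ Real.exp (4 * π * Y * N) *
      (Real.exp (-(π * Y) * s) * Real.exp (-(π * Y) * t)) := by
    rw [← Real.exp_add, ← Real.exp_add, Real.exp_le_exp]
    have : 2 * (c * l : ℝ) ≤ 4 * N - (s + t) := by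
      rcases abs_cases (c * l : ℝ) with h7 | h7 <;> nlinarith
    nlinarith
  calc _ ≤ C * ((N + 2) * (s * t) ^ 2) * (Real.exp (4 * π * Y * N) *
        (Real.exp (-(π * Y) * s) * Real.exp (-(π * Y) * t))) * (2 * (s * t)) := by
        gcongr
    _ = _ := by ring

private lemma a7b_int (a b : ℝ) {Y : ℝ} (hY : 0 < Y) {c l : ℤ} (hc : c ≠ 0) (hl : l ≠ 0) :
    IntegrableOn (fun τ : ℝ => (a + b * Real.log τ) / τ * jj c l Y τ) (Ioi 0) := by
  obtain ⟨C, hC⟩ := integral_abs_wt a b hY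
  exact IntegrableOn.congr_fun ((hC c l hc hl).1.mul_const (Real.exp (2 * π * Y * (c * l))))
    (fun τ hτ => by simp only [jj_eq c l Y hτ, mul_assoc]) measurableSet_Ioi

private lemma a7b_split (a b : ℝ) {Y : ℝ} (hY : 0 < Y) {c l : ℤ} (hc : c ≠ 0) (hl : l ≠ 0) :
    ∫ τ in Ioi (0 : ℝ), (a + b * Real.log τ) / τ * jj c l Y τ =
      a * (∫ τ in Ioi (0 : ℝ), τ⁻¹ * jj c l Y τ) +
        b * ∫ τ in Ioi (0 : ℝ), Real.log τ / τ * jj c l Y τ := by
  have h1 := a7b_int 1 0 hY hc hl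
  have h2 := a7b_int 0 1 hY hc hl
  simp only [zero_mul, add_zero, one_div, zero_add, one_mul] at h1 h2
  rw [← integral_const_mul, ← integral_const_mul,
    ← integral_add (h1.const_mul a) (h2.const_mul b)]
  congr 1
  funext τ
  ring

theorem Sec.Ok.integral_tsum_jj (h : S.Ok A) {μ : ℕ} (h0 : S.Zero μ) (a b : ℝ) {Y : ℝ}
    (hY : 0 < Y) :
    ∫ τ in Ioi (0 : ℝ), ((a + b * Real.log τ) / τ : ℝ) * ∑' v : ℤ × ℤ,
      S.lamZ (μ - v.1 * v.2) v.1 v.2 * jj v.1 v.2 Y τ =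
      4 * (a * S.hol μ + b * (S.fin μ + ∑' k : ℕ, S.neg μ k * bet (4 * π * Y * k))) := by
  set w : ℤ × ℤ → ℂ := fun v => S.lamZ (μ - v.1 * v.2) v.1 v.2 with hw
  have hw0 : ∀ v : ℤ × ℤ, v.1 * v.2 = 0 → w v = 0 := fun v hv => by
    simp only [hw, hv, sub_zero, Sec.lamZ, Int.toNat_natCast, Nat.cast_nonneg, if_true]
    rcases mul_eq_zero.mp hv with h1 | h1 <;> rw [h1]
    exacts [(h0 _).2, (h0 _).1]
  obtain ⟨C, hC⟩ := integral_abs_wt a b hY
  obtain ⟨K, hK⟩ := a7b_bound_jj h μ hY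
  set F : ℤ × ℤ → ℝ → ℂ := fun v τ =>
    w v * ((a + b * Real.log τ) / τ * jj v.1 v.2 Y τ : ℝ) with hF
  have hi : ∀ v, Integrable (F v) (volume.restrict (Ioi 0)) := fun v => by
    by_cases hv : v.1 * v.2 = 0
    · simp only [hF, hw0 v hv, zero_mul]
      exact integrable_zero _ _ _
    · exact (a7b_int a b hY (left_ne_zero_of_mul hv) (right_ne_zero_of_mul hv)).ofReal.const_mul _
  have hπ : 0 < π * Y := mul_pos Real.pi_pos hY
  have hs : Summable fun v => ∫ τ in Ioi (0 : ℝ), ‖F v τ‖ := by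
    refine Summable.of_nonneg_of_le (fun v => integral_nonneg fun _ => norm_nonneg _) (fun v => ?_)
      ((summable_mul_of_summable_norm' (a7b_summable_u hπ).norm (a7b_summable_u hπ)
        (a7b_summable_u hπ).norm (a7b_summable_u hπ)).mul_left (|C| * K))
    by_cases hv : v.1 * v.2 = 0
    · rcases mul_eq_zero.mp hv with h1 | h1 <;> simp [hF, hw0 v hv, h1]
    have hc := left_ne_zero_of_mul hv
    have hl := right_ne_zero_of_mul hv
    have h1 : ∫ τ in Ioi (0 : ℝ), ‖F v τ‖ = ‖w v‖ * Real.exp (2 * π * Y * (v.1 * v.2)) *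
        ∫ τ in Ioi (0 : ℝ), |(a + b * Real.log τ) / τ * jw v.1 v.2 Y τ| := by
      rw [← integral_const_mul]
      refine setIntegral_congr_fun measurableSet_Ioi fun τ hτ => ?_
      simp only [hF]
      rw [norm_mul, Complex.norm_real, Real.norm_eq_abs, jj_eq _ _ _ hτ, ← mul_assoc, abs_mul,
        Real.abs_exp]
      ring
    rw [h1]
    calc _ ≤ ‖w v‖ * Real.exp (2 * π * Y * (v.1 * v.2)) *
          (|C| * (|(v.1 : ℝ)| + |(v.2 : ℝ)|)) := by
          have h4 := (hC _ _ hc hl).2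
          push_cast at h4
          gcongr
          exact h4.trans (mul_le_mul_of_nonneg_right (le_abs_self C) (by positivity))
      _ = |C| * (‖w v‖ * Real.exp (2 * π * Y * (v.1 * v.2)) *
          (|(v.1 : ℝ)| + |(v.2 : ℝ)|)) := by ring
      _ ≤ _ := by
          rw [mul_assoc |C|]
          exact mul_le_mul_of_nonneg_left (hK _ _ hc hl) (abs_nonneg C)
  have key := hasSum_integral_of_summable_integral_norm hi hs
  have e1 : ∀ τ : ℝ, ((a + b * Real.log τ) / τ : ℝ) * ∑' v, w v * jj v.1 v.2 Y τ =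
      ∑' v, F v τ := fun τ => by
    rw [← tsum_mul_left]
    refine tsum_congr fun v => ?_
    simp only [hF]
    rw [ofReal_mul]
    ring
  change ∫ τ in Ioi (0 : ℝ), ((a + b * Real.log τ) / τ : ℝ) * ∑' v, w v * jj v.1 v.2 Y τ = _
  simp_rw [e1]
  have hZ : ∀ n c l : ℤ, S.lamZ n (-c) (-l) = -S.lamZ n c l := fun n c l => by
    simp only [Sec.lamZ]
    split_ifs
    · exact h.lam_neg _ _ _
    · exact neg_zero.symm
  have e2 := a7b_tsum_div key.summable
    (fun v hv => by simp only [hF, hw0 v hv, zero_mul, integral_zero])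
    (fun c l => by
      simp only [hF, hw, jj_neg, hZ, neg_mul, mul_neg, neg_neg, ofReal_neg])
  have e3 : ∀ k : ℕ, ∑ x ∈ k.divisorsAntidiagonal, ∫ τ in Ioi (0 : ℝ), F (x.1, x.2) τ =
      ∑ x ∈ k.divisorsAntidiagonal, 2 * (a * S.lamZ (μ - k) x.1 x.2 +
        b * (S.lamZ (μ - k) x.1 x.2 * ((Real.log x.2 - Real.log x.1 : ℝ) : ℂ))) := fun k => by
    refine Finset.sum_congr rfl fun x hx => ?_
    obtain ⟨e, hk⟩ := Nat.mem_divisorsAntidiagonal.mp hx
    have c0 : (0 : ℤ) < x.1 := by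
      exact_mod_cast Nat.pos_of_ne_zero (left_ne_zero_of_mul (e ▸ hk))
    have l0 : (0 : ℤ) < x.2 := by
      exact_mod_cast Nat.pos_of_ne_zero (right_ne_zero_of_mul (e ▸ hk))
    have e' : (x.1 : ℤ) * x.2 = k := by exact_mod_cast e
    simp only [hF, hw]
    rw [integral_const_mul, integral_complex_ofReal, a7b_split a b hY c0.ne' l0.ne',
      anp_mass hY c0 l0, integral_jj_pos hY c0 l0, e']
    simp only [Int.cast_natCast]
    push_cast
    ring
  have e4 : ∀ k : ℕ, ∑ x ∈ k.divisorsAntidiagonal, ∫ τ in Ioi (0 : ℝ), F (x.1, -x.2) τ =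
      2 * b * (S.neg μ k * bet (4 * π * Y * k)) := fun k => by
    rw [Sec.neg, Finset.sum_mul, Finset.mul_sum]
    refine Finset.sum_congr rfl fun x hx => ?_
    obtain ⟨e, hk⟩ := Nat.mem_divisorsAntidiagonal.mp hx
    have c0 : (0 : ℤ) < x.1 := by
      exact_mod_cast Nat.pos_of_ne_zero (left_ne_zero_of_mul (e ▸ hk))
    have l0 : (0 : ℤ) < x.2 := by
      exact_mod_cast Nat.pos_of_ne_zero (right_ne_zero_of_mul (e ▸ hk))
    have e' : (x.1 : ℤ) * x.2 = k := by exact_mod_cast e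
    have e'' : (((x.1 : ℤ) : ℝ) * ((x.2 : ℤ) : ℝ)) = k := by exact_mod_cast e
    have e5 : S.lamZ (μ - x.1 * -x.2) x.1 (-x.2) = S.lam (μ + k) x.1 (-x.2) := by
      rw [mul_neg, e', sub_neg_eq_add, ← Nat.cast_add, Sec.lamZ, if_pos (Nat.cast_nonneg _),
        Int.toNat_natCast]
    simp only [hF, hw]
    rw [integral_const_mul, integral_complex_ofReal,
      a7b_split a b hY c0.ne' (neg_ne_zero.mpr l0.ne'), mass_neg hY c0 l0,
      integral_jj_neg hY c0 l0, e'', e5]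
    push_cast
    ring
  rw [← key.tsum_eq, e2]
  simp only [e3, e4, tsum_mul_left]
  rw [tsum_eq_sum (s := Finset.range (μ + 1))]
  · have e6 : ∑ k ∈ Finset.range (μ + 1), ∑ x ∈ k.divisorsAntidiagonal,
        2 * (a * S.lamZ (μ - k) x.1 x.2 +
          b * (S.lamZ (μ - k) x.1 x.2 * ((Real.log x.2 - Real.log x.1 : ℝ) : ℂ))) =
        2 * (a * S.hol μ + b * S.fin μ) := by
      simp only [Sec.hol, Sec.fin, Finset.mul_sum, ← Finset.sum_add_distrib]
      refine Finset.sum_congr rfl fun k hk => Finset.sum_congr rfl fun x _ => ?_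
      have h1 := Finset.mem_range.mp hk
      rw [Sec.lamZ, if_pos (by omega), Int.toNat_sub]
    rw [e6]
    ring
  · intro k hk
    have h1 := mt Finset.mem_range.mpr hk
    refine Finset.sum_eq_zero fun x _ => ?_
    rw [Sec.lamZ, if_neg (by omega)]
    ring

private lemma a7b_cont_q1 : Continuous q1 := by unfold q1; fun_prop

theorem Sec.Ok.coef_Phi (h : S.Ok A) {m μ : ℕ} (hm : μ * A.h = m * S.M) (hh : 0 < A.h)
    (hT : q1 (m / A.h) = A.ξ ModularGroup.T) (h0 : S.Zero μ) (a b : ℝ) {y : ℝ} (hy : 0 < y) :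
    ∫ x in (0 : ℝ)..1, S.Phi a b (x + y * I) * q1 (-(m * x / A.h)) =
      -4 * I * Real.exp (-2 * π * m * y / A.h) * (a * S.hol μ +
        b * (S.fin μ + ∑' k : ℕ, S.neg μ k * bet (4 * π * (y / S.M) * k))) := by
  have hn' : (0 : ℝ) < S.M := Nat.cast_pos.mpr h.pos
  have hY : 0 < y / S.M := by positivity
  have him : ∀ x : ℝ, (x + y * I : ℂ).im = y := fun x => by simp
  obtain ⟨δ, C, hδ, hC0, hC⟩ := h.norm_Kk_le 0
  have hb : ∀ x τ : ℝ, 0 < τ → ‖S.Kk (x + y * I) τ‖ ≤ C * min τ τ⁻¹ := fun x τ hτ => by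
    obtain ⟨g, hg⟩ := ModularGroup.exists_smul_mem_fd ⟨x + y * I, by rw [him]; exact hy⟩
    have h1 := hC g⁻¹ _ hg τ hτ
    rw [inv_smul_smul, zero_add, pow_one] at h1
    refine h1.trans (mul_le_mul_of_nonneg_right ?_ (le_min hτ.le (inv_nonneg.mpr hτ.le)))
    refine mul_le_of_le_one_right hC0 (Real.exp_le_one_iff.mpr ?_)
    exact mul_nonpos_of_nonpos_of_nonneg (neg_nonpos.mpr hδ.le) (im_pos _).le
  set f : ℝ → ℝ → ℂ := fun x τ =>
    ((a + b * Real.log τ) / τ : ℝ) * (S.Kk (x + y * I) τ * q1 (-(m * x / A.h))) with hf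
  have hi : Integrable (Function.uncurry f)
      ((volume.restrict (uIoc (0 : ℝ) 1)).prod (volume.restrict (Ioi (0 : ℝ)))) := by
    have hm : MeasurableSet (uIoc (0 : ℝ) 1 ×ˢ Ioi (0 : ℝ)) :=
      measurableSet_uIoc.prod measurableSet_Ioi
    have h1 : Integrable
        (fun v : ℝ × ℝ => C * (|(a + b * Real.log v.2) / v.2| * min v.2 v.2⁻¹))
        ((volume.restrict (uIoc (0 : ℝ) 1)).prod (volume.restrict (Ioi (0 : ℝ)))) :=
      Integrable.mul_prod (f := fun _ : ℝ => C)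
        (intervalIntegrable_iff.mp intervalIntegrable_const) (integrableOn_wt_min a b)
    rw [Measure.prod_restrict] at h1 ⊢
    refine h1.mono' (ContinuousOn.aestronglyMeasurable ?_ hm)
      ((ae_restrict_iff' hm).mpr (ae_of_all _ fun v hv => ?_))
    · refine ContinuousOn.mul (continuous_ofReal.comp_continuousOn ?_) (ContinuousOn.mul ?_ ?_)
      · exact (continuousOn_const.add (continuousOn_const.mul
          (continuousOn_snd.log fun v hv => (mem_Ioi.mp hv.2).ne'))).div continuousOn_snd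
          fun v hv => (mem_Ioi.mp hv.2).ne'
      · exact h.continuousOn_Kk.comp (f := fun v : ℝ × ℝ => ((v.1 + y * I : ℂ), v.2))
          (Continuous.continuousOn (by fun_prop)) fun v hv => ⟨by rw [him]; exact hy, hv.2⟩
      · exact (a7b_cont_q1.comp (by fun_prop)).continuousOn
    · have h4 : ‖q1 (-(m * v.1 / A.h))‖ = 1 := by
        have : (-(m * v.1 / A.h) : ℂ) = ((-(m * v.1 / A.h) : ℝ) : ℂ) := by push_cast; ring
        rw [this, norm_q1, ofReal_im, mul_zero, Real.exp_zero]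
      have hτ : 0 < v.2 := hv.2
      simp only [hf, Function.uncurry, norm_mul, h4, mul_one, Complex.norm_real, Real.norm_eq_abs]
      rw [mul_left_comm]
      exact mul_le_mul_of_nonneg_left (hb _ _ hτ) (abs_nonneg _)
  have e1 : ∀ x : ℝ, S.Phi a b (x + y * I) * q1 (-(m * x / A.h)) =
      (y : ℂ)⁻¹ * ∫ τ in Ioi (0 : ℝ), f x τ := fun x => by
    simp only [hf, ← mul_assoc]
    rw [integral_mul_const, Sec.Phi, him]
    ring
  simp_rw [e1]
  rw [intervalIntegral.integral_const_mul, intervalIntegral_integral_swap hi,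
    setIntegral_congr_fun (g := fun τ : ℝ => y * -I * Real.exp (-2 * π * m * y / A.h) *
      (((a + b * Real.log τ) / τ : ℝ) * ∑' v : ℤ × ℤ,
        S.lamZ (μ - v.1 * v.2) v.1 v.2 * jj v.1 v.2 (y / S.M) τ)) measurableSet_Ioi
      fun τ hτ => ?_]
  · have hy' : (y : ℂ) ≠ 0 := ofReal_ne_zero.mpr hy.ne'
    rw [integral_const_mul, h.integral_tsum_jj h0 a b hY]
    field_simp
  · simp only [hf]
    rw [intervalIntegral.integral_const_mul, h.coef_Kk hm hh hT hy hτ]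
    ring

end Pool.Agent.Lib.MP_696deb_nt.Y2.An
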