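import Pool.Agent.Lib.MP_696deb_nt.Y2.A7b
import Pool.Agent.Lib.MP_60ff09_nt.Dih.ANz

/-! Limits of the regularised coefficients. -/

set_option autoImplicit false

open Complex Filter Topology Set MeasureTheory CongruenceSubgroup
open UpperHalfPlane hiding I
open scoped Real MatrixGroups ComplexConjugate Modular Classical
open Pool.Agent.Shared.Weier Pool.Agent.Dih

namespace Pool.Agent.Lib.MP_696deb_nt.Y2.An

variable {A : Lev} {S : Sec}

theorem a8_bd {N : ℕ → ℂ} (h0 : N 0 = 0) {ε C : ℝ} {r : ℕ → ℝ}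
    (hr : ∀ k : ℕ, (0 : ℝ) < k → |r k| ≤ (k : ℝ) ^ (-1 - ε) * C) (k : ℕ) :
    ‖N k * r k‖ ≤ ‖N k‖ * (k : ℝ) ^ (-1 - ε) * C := by
  rcases Nat.eq_zero_or_pos k with rfl | hk
  · simp [h0]
  rw [norm_mul, norm_real, Real.norm_eq_abs, mul_assoc]
  exact mul_le_mul_of_nonneg_left (hr k (Nat.cast_pos.2 hk)) (norm_nonneg _)

theorem a8_A {ε x : ℝ} (hε : 0 < ε) (hx : 0 < x) (k : ℕ) (hk : (0 : ℝ) < k) :
    |kerA ε (k * x)| ≤ (k : ℝ) ^ (-1 - ε) * x ^ (-1 - ε) := by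
  have h := kerA_le hε (mul_pos hk hx)
  rw [abs_of_nonneg h.1, ← Real.mul_rpow hk.le hx.le]
  exact h.2

theorem a8_B {x : ℝ} (hx : 0 < x) (k : ℕ) (hk : (0 : ℝ) < k) :
    |bet (x * k)| ≤ (k : ℝ) ^ (-1 - 1 : ℝ) * (1 / x ^ 2) := by
  have h := mul_pos hx hk
  have h1 : bet (x * k) ≤ ∫ u in Ioi (1 : ℝ), Real.exp (-(x * k) * u) := by
    refine integral_mono_of_nonneg ?_ (integrableOn_exp_mul_Ioi (neg_lt_zero.2 h) 1) ?_ <;>
      filter_upwards [ae_restrict_mem measurableSet_Ioi] with u hu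
    · exact div_nonneg (Real.exp_pos _).le (zero_le_one.trans (le_of_lt hu))
    · exact div_le_self (Real.exp_pos _).le (le_of_lt hu)
  rw [integral_exp_mul_Ioi (neg_lt_zero.2 h), neg_div_neg_eq, mul_one, Real.exp_neg] at h1
  rw [abs_of_nonneg (bet_nonneg _), show (-1 - 1 : ℝ) = -(2 : ℕ) by norm_num,
    Real.rpow_neg hk.le, Real.rpow_natCast]
  have h2 := inv_anti₀ h ((le_add_of_nonneg_right zero_le_one).trans (Real.add_one_le_exp (x * k)))
  refine h1.trans ((div_le_div_of_nonneg_right h2 h.le).trans (le_of_eq ?_))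
  field_simp

theorem a8_gamma {ε r : ℝ} (hε : 0 < ε) (hr : 0 < r) :
    IntegrableOn (fun y : ℝ => y ^ ε * Real.exp (-r * y)) (Ioi 0) ∧
    ∫ y in Ioi (0 : ℝ), y ^ ε * Real.exp (-r * y) = Real.Gamma (1 + ε) * r ^ (-1 - ε) := by
  constructor
  · simpa using integrableOn_rpow_mul_exp_neg_mul_rpow (p := 1) (s := ε) (by linarith) one_pos hr
  · have := Real.integral_rpow_mul_exp_neg_mul_Ioi (a := 1 + ε) (by linarith) hr
    simp only [add_sub_cancel_left] at this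
    simp only [neg_mul]
    rw [this, one_div, Real.inv_rpow hr.le, ← Real.rpow_neg hr.le, mul_comm]
    congr 2
    ring

theorem a8_upd {N : ℕ → ℂ} (h0 : N 0 = 0) {r : ℕ → ℝ} (h : Summable fun k => N k * r k) (F : ℂ) :
    ∑' k, (if k = 0 then F else N k) * (if k = 0 then 1 else r k : ℝ) = F + ∑' k, N k * r k := by
  have h1 : Summable fun k => (if k = 0 then F else N k) * (if k = 0 then 1 else r k : ℝ) := by
    rw [← summable_nat_add_iff 1] at h ⊢
    simpa using h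
  rw [h1.tsum_eq_zero_add, h.tsum_eq_zero_add]
  simp [h0]

theorem a8_int {N : ℕ → ℂ} (h0 : N 0 = 0)
    (hN : ∀ ε : ℝ, 0 < ε → Summable fun k : ℕ => ‖N k‖ * (k : ℝ) ^ (-1 - ε)) {ε m κ : ℝ}
    (hε : 0 < ε) (hm : 0 < m) (hκ : 0 < κ) (F : ℂ) :
    ∫ y in Ioi (0 : ℝ), (y ^ ε * Real.exp (-m * y) : ℝ) * (F + ∑' k : ℕ, N k * bet (κ * y * k)) =
      (Real.Gamma (1 + ε) * m ^ (-1 - ε) : ℝ) * (F + ∑' k : ℕ, N k * kerA ε (k * (κ / m))) := by
  set c : ℝ := Real.Gamma (1 + ε) * m ^ (-1 - ε) with hc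
  set g : ℕ → ℝ → ℝ := fun k y =>
    y ^ ε * Real.exp (-m * y) * if k = 0 then 1 else bet (κ * y * k) with hg
  have hi : ∀ k, IntegrableOn (g k) (Ioi 0) ∧ ∫ y in Ioi (0 : ℝ), g k y =
      c * if k = 0 then 1 else kerA ε (k * (κ / m)) := fun k => by
    by_cases e : k = 0
    · simpa only [hg, if_pos e, mul_one] using a8_gamma hε hm
    · simpa only [hg, if_neg e, mul_right_comm κ, mul_div_right_comm κ, mul_comm (κ / m)] using
        integral_bet hε hm (mul_pos hκ (Nat.cast_pos.2 (Nat.pos_of_ne_zero e)))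
  have hA := a8_bd h0 (a8_A hε (div_pos hκ hm))
  have hS := (hN ε hε).mul_right ((κ / m) ^ (-1 - ε))
  have hH := hasSum_integral_of_summable_integral_norm (μ := volume.restrict (Ioi (0 : ℝ)))
    (F := fun k y => (if k = 0 then F else N k) * g k y)
    (fun k => (hi k).1.ofReal.const_mul _) (by
      rw [← summable_nat_add_iff 1] at hS ⊢
      refine (hS.mul_left |c|).of_nonneg_of_le (fun k => integral_nonneg fun y => norm_nonneg _)
        fun k => le_trans ?_ (mul_le_mul_of_nonneg_left (hA _) (abs_nonneg c))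
      simp only [norm_mul, norm_real]
      rw [integral_const_mul, setIntegral_congr_fun measurableSet_Ioi (g := g (k + 1))
        fun y hy => Real.norm_of_nonneg (mul_nonneg (mul_nonneg (Real.rpow_nonneg (le_of_lt hy) _)
          (Real.exp_pos _).le) (by rw [if_neg k.succ_ne_zero]; exact bet_nonneg _)), (hi _).2,
        if_neg k.succ_ne_zero, if_neg k.succ_ne_zero, mul_left_comm |c|, Real.norm_eq_abs (kerA _ _),
        ← abs_mul]
      exact mul_le_mul_of_nonneg_left (le_abs_self _) (norm_nonneg _))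
  rw [← a8_upd h0 (hS.of_norm_bounded hA), ← tsum_mul_left, tsum_congr fun k => ?_, hH.tsum_eq]
  · refine setIntegral_congr_fun measurableSet_Ioi fun y hy => ?_
    rw [← a8_upd h0 (((hN 1 one_pos).mul_right _).of_norm_bounded
      (a8_bd h0 (a8_B (mul_pos hκ hy)))), ← tsum_mul_left]
    exact tsum_congr fun k => by rw [hg, mul_left_comm, ← ofReal_mul]
  · rw [integral_const_mul, integral_complex_ofReal, (hi k).2, mul_left_comm, ← ofReal_mul]

theorem a8_cmp {N : ℕ → ℂ} (h0 : N 0 = 0)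
    (hN : ∀ ε : ℝ, 0 < ε → Summable fun k : ℕ => ‖N k‖ * (k : ℝ) ^ (-1 - ε)) {x : ℝ} (hx : 0 < x) :
    Tendsto (fun ε : ℝ => ∑' k : ℕ, N k * kerA ε (k * x) -
      (2 ^ ε : ℝ) * (2 * ∑' k : ℕ, N k * kerK ε (1 + 2 * (k * x)))) (𝓝[>] 0) (𝓝 0) := by
  have hS := hN 1 one_pos
  have hlim : Tendsto (fun ε : ℝ => (∑' k : ℕ, ‖N k‖ * (k : ℝ) ^ (-1 - 1 : ℝ)) * (ε / x ^ 2))
      (𝓝[>] 0) (𝓝 0) := by
    simpa using ((tendsto_id.div_const (x ^ 2)).const_mul
      (∑' k : ℕ, ‖N k‖ * (k : ℝ) ^ (-1 - 1 : ℝ))).mono_left (nhdsWithin_le_nhds (a := 0))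
  refine squeeze_zero_norm' ?_ hlim
  filter_upwards [Ioc_mem_nhdsGT one_pos] with ε hε
  have hA := ((hN ε hε.1).mul_right _).of_norm_bounded (a8_bd h0 (a8_A hε.1 hx))
  have hb := a8_bd h0 (ε := 1) (C := ε / x ^ 2)
    (r := fun k => kerA ε (k * x) - 2 ^ ε * (2 * kerK ε (1 + 2 * (k * x)))) fun k hk => by
      refine (kerA_sub hε.1 hε.2 (mul_pos hk hx)).trans (le_of_eq ?_)
      rw [show (-1 - 1 : ℝ) = -(2 : ℕ) by norm_num, Real.rpow_neg hk.le, Real.rpow_natCast]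
      field_simp
  rw [← tsum_mul_left, ← tsum_mul_left, tsum_congr (f := fun _ => _ * (2 * _)) fun k => ?_,
    hA.tsum_sub ((hS.mul_right _).of_norm_bounded hb), sub_sub_cancel, ← tsum_mul_right]
  · exact tsum_of_norm_bounded (hS.mul_right _).hasSum hb
  · rw [ofReal_sub, ofReal_mul, ofReal_mul, ofReal_ofNat]
    ring

theorem a8_lim (h : S.Ok A) {m μ : ℕ} (hm0 : 0 < m) (hm : μ * A.h = m * S.M) (hh : 0 < A.h)
    (hT : q1 (m / A.h) = A.ξ ModularGroup.T) (h0 : S.Zero μ) (a b : ℝ) {L : ℂ}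
    (hL : Tendsto (reg A.h m (S.Phi a b)) (𝓝[>] 0) (𝓝 L)) :
    Tendsto (fun ε => a * S.hol μ + b * S.fin μ + ∑' k : ℕ, b * S.neg μ k * kerA ε (k * (1 / μ)))
      (𝓝[>] 0) (𝓝 (I * π * m / A.h * L)) := by
  have p1 : (0 : ℝ) < m := Nat.cast_pos.2 hm0
  have p2 : (0 : ℝ) < A.h := Nat.cast_pos.2 hh
  have p3 : (0 : ℝ) < S.M := Nat.cast_pos.2 h.pos
  have p4 : (μ : ℝ) = m * S.M / A.h := eq_div_of_mul_eq p2.ne' (by exact_mod_cast hm)
  have hπ := Real.pi_pos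
  have m0 : 0 < 4 * π * m / A.h := by positivity
  have t1 := (continuous_ofReal.tendsto _).comp (tendsto_gamma_rpow m0)
  have mi := ofReal_ne_zero.2 (inv_ne_zero m0.ne')
  have c0 : -4 * I ≠ 0 := mul_ne_zero (by norm_num) I_ne_zero
  convert (hL.div (t1.const_mul (-4 * I)) (mul_ne_zero c0 mi)).congr' ?_ using 2
  · have : (π : ℂ) ≠ 0 := ofReal_ne_zero.2 hπ.ne'
    have : (m : ℂ) ≠ 0 := Nat.cast_ne_zero.2 hm0.ne'
    have : (A.h : ℂ) ≠ 0 := Nat.cast_ne_zero.2 hh.ne'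
    push_cast
    field_simp
    rw [I_sq]
    ring
  filter_upwards [self_mem_nhdsWithin, t1.eventually_ne mi] with ε hε hne
  have e := a8_int (N := fun k => b * S.neg μ k) (by simp [Sec.neg]) (fun ε hε => by
    simpa only [norm_mul, mul_assoc] using (h.summable_neg μ hε).mul_left ‖(b : ℂ)‖) hε m0
    (κ := 4 * π / S.M) (by positivity) (a * S.hol μ + b * S.fin μ)
  rw [show 4 * π / S.M / (4 * π * m / A.h) = 1 / μ by rw [p4]; field_simp] at e
  rw [Pi.div_apply, div_eq_iff (mul_ne_zero c0 hne), mul_left_comm, mul_comm (_ + _),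
    Function.comp_apply, ← e, ← integral_const_mul]
  refine setIntegral_congr_fun measurableSet_Ioi fun y hy => ?_
  have e2 : ∀ k : ℕ, 4 * π * (y / S.M) * k = 4 * π / S.M * y * k := fun k => by ring
  have e3 : Real.exp (-(4 * π * m / A.h) * y) =
      Real.exp (-2 * π * m * y / A.h) * Real.exp (-2 * π * m * y / A.h) := by
    rw [← Real.exp_add]; ring_nf
  simp only [h.coef_Phi hm hh hT h0 a b hy, e2, e3, mul_assoc (b : ℂ), tsum_mul_left, ofReal_mul]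
  ring

theorem Sec.Ok.hol_eq (h : S.Ok A) {m μ : ℕ} (hm0 : 0 < m) (hm : μ * A.h = m * S.M) (hh : 0 < A.h)
    (hT : q1 (m / A.h) = A.ξ ModularGroup.T) (h0 : S.Zero μ) {L : ℂ}
    (hL : Tendsto (reg A.h m (S.Phi 1 0)) (𝓝[>] 0) (𝓝 L)) :
    S.hol μ = I * π * m / A.h * L :=
  tendsto_nhds_unique tendsto_const_nhds
    ((a8_lim h hm0 hm hh hT h0 1 0 hL).congr fun ε => by simp)

theorem Sec.Ok.tendsto_arch (h : S.Ok A) {m μ : ℕ} (hm0 : 0 < m) (hm : μ * A.h = m * S.M)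
    (hh : 0 < A.h) (hT : q1 (m / A.h) = A.ξ ModularGroup.T) (h0 : S.Zero μ) {L : ℂ}
    (hL : Tendsto (reg A.h m (S.Phi 0 1)) (𝓝[>] 0) (𝓝 L)) :
    Tendsto (fun ε => 2 * S.arch μ ε) (𝓝[>] 0) (𝓝 (I * π * m / A.h * L - S.fin μ)) := by
  have p : (0 : ℝ) < μ := Nat.cast_pos.2 (Nat.pos_of_mul_pos_right (hm ▸ mul_pos hm0 h.pos))
  have t5 : Tendsto (fun ε : ℝ => (((2 : ℝ) ^ ε : ℝ) : ℂ)) (𝓝[>] 0) (𝓝 1) := by
    have : ContinuousAt (fun ε : ℝ => (((2 : ℝ) ^ ε : ℝ) : ℂ)) 0 :=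
      continuous_ofReal.continuousAt.comp
        (ContinuousAt.rpow continuousAt_const continuousAt_id (Or.inl two_ne_zero))
    simpa using this.tendsto.mono_left (nhdsWithin_le_nhds (s := Ioi 0))
  have t6 := (((a8_lim h hm0 hm hh hT h0 0 1 hL).sub_const (S.fin μ)).sub (a8_cmp
    (by simp [Sec.neg]) (fun _ => h.summable_neg μ) (one_div_pos.2 p))).div t5 one_ne_zero
  rw [sub_zero, div_one] at t6
  refine t6.congr fun ε => ?_
  have e5 : ∀ k : ℕ, 1 + 2 * (k * (1 / μ : ℝ)) = (μ + 2 * k) / μ := fun k => by field_simp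
  rw [Pi.div_apply, div_eq_iff (ofReal_ne_zero.2 (by positivity))]
  simp only [e5, Sec.arch, ofReal_one, ofReal_zero, one_mul]
  ring

end Pool.Agent.Lib.MP_696deb_nt.Y2.An
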