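import Pool.Agent.Lib.MP_696deb_nt.Y2.A4b
import Pool.Agent.Lib.MP_696deb_nt.Y2.A5
import Pool.Agent.Lib.MP_696deb_nt.Y2.A6
import Pool.Agent.Lib.MP_696deb_nt.Y2.A8

/-! The analytic side. -/

set_option autoImplicit false

open Complex Filter Topology Set MeasureTheory CongruenceSubgroup
open UpperHalfPlane hiding I
open scoped Real MatrixGroups ComplexConjugate Modular Classical
open Pool.Agent.Shared.Weier Pool.Agent.Dih

namespace Pool.Agent.Lib.MP_696deb_nt.Y2.An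

/-- The inverse of the gamma factor. -/
noncomputable def a9G (M n e : ℕ) (s : ℂ) : ℂ :=
  ((M : ℂ) ^ s)⁻¹ * (π : ℂ) ^ (s + 1) * (4 * π / e : ℂ) ^ (s + 1) / (2 * n) * (Gamma (s + 1))⁻¹ ^ 2

theorem a9_diff {M n e : ℕ} (hM : 0 < M) (he : 0 < e) : Differentiable ℂ (a9G M n e) := by
  have h1 : (M : ℂ) ≠ 0 := Nat.cast_ne_zero.2 hM.ne'
  have h2 : (π : ℂ) ≠ 0 := ofReal_ne_zero.2 Real.pi_ne_zero
  have h3 : (4 * π / e : ℂ) ≠ 0 :=
    div_ne_zero (mul_ne_zero (by norm_num) h2) (Nat.cast_ne_zero.2 he.ne')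
  refine Differentiable.mul (Differentiable.div_const (Differentiable.mul (Differentiable.mul
    ?_ ?_) ?_) _) ((differentiable_one_div_Gamma.comp (differentiable_id.add_const 1)).pow 2)
  · exact (differentiable_id.const_cpow (Or.inl h1)).inv fun s => cpow_ne_zero_iff.2 (Or.inl h1)
  · exact (differentiable_id.add_const 1).const_cpow (Or.inl h2)
  · exact (differentiable_id.add_const 1).const_cpow (Or.inl h3)

theorem a9_zero (M n e : ℕ) : a9G M n e 0 = 2 * π ^ 2 / (n * e) := by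
  simp only [a9G, zero_add, cpow_zero, cpow_one, Complex.Gamma_one]
  ring

theorem a9_mul {M n e : ℕ} (hM : 0 < M) (hn : 0 < n) (he : 0 < e) {s : ℂ} (hs : 0 < s.re) :
    2 * (M : ℂ) ^ s * Gamma (s + 1) * (π : ℂ) ^ (-(s + 1)) *
      (n * Gamma (s + 1) * (4 * π / e : ℂ) ^ (-(s + 1))) * a9G M n e s = 1 := by
  have h1 : (M : ℂ) ≠ 0 := Nat.cast_ne_zero.2 hM.ne'
  have h2 : (π : ℂ) ≠ 0 := ofReal_ne_zero.2 Real.pi_ne_zero
  have h3 : (4 * π / e : ℂ) ≠ 0 :=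
    div_ne_zero (mul_ne_zero (by norm_num) h2) (Nat.cast_ne_zero.2 he.ne')
  have h4 : Gamma (s + 1) ≠ 0 := Gamma_ne_zero_of_re_pos (by rw [add_re, one_re]; linarith)
  have h5 : (n : ℂ) ≠ 0 := Nat.cast_ne_zero.2 hn.ne'
  have e1 : (M : ℂ) ^ s ≠ 0 := cpow_ne_zero_iff.2 (Or.inl h1)
  have e2 : (π : ℂ) ^ (s + 1) ≠ 0 := cpow_ne_zero_iff.2 (Or.inl h2)
  have e3 : (4 * π / e : ℂ) ^ (s + 1) ≠ 0 := cpow_ne_zero_iff.2 (Or.inl h3)
  rw [a9G, cpow_neg, cpow_neg]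
  generalize (4 * π / e : ℂ) ^ (s + 1) = x, (π : ℂ) ^ (s + 1) = y, (M : ℂ) ^ s = u,
    Gamma (s + 1) = v at h4 e1 e2 e3 ⊢
  field_simp

theorem an_of_proj {A : Lev} {f : ℂ → ℂ} {a : ℕ → ℂ} {g₀ : SL(2, ℤ)} {n e : ℕ} {b : ℕ → ℂ}
    (hA : A.Ok) (hf : A.Cf f) (hp : ProjStmt A f a) (hc : Cusp A.N f g₀ n e b) :
    AnStmt A a g₀ e b := by
  obtain ⟨β, β0, hβ⟩ := hp
  have c1 : (π : ℂ) ≠ 0 := ofReal_ne_zero.2 Real.pi_ne_zero
  have c2 : (β : ℂ) ≠ 0 := ofReal_ne_zero.2 β0.ne'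
  have c3 : (n : ℂ) ≠ 0 := Nat.cast_ne_zero.2 hc.npos.ne'
  have c4 : (e : ℂ) ≠ 0 := Nat.cast_ne_zero.2 hc.epos.ne'
  have c5 : (A.h : ℂ) ≠ 0 := Nat.cast_ne_zero.2 hA.hpos.ne'
  have c6 : (2 * π ^ 2 / (n * e) : ℂ) ≠ 0 :=
    div_ne_zero (mul_ne_zero two_ne_zero (pow_ne_zero 2 c1)) (mul_ne_zero c3 c4)
  refine ⟨I * π * β / A.h / (2 * π ^ 2 / (n * e)),
    div_ne_zero (div_ne_zero (mul_ne_zero (mul_ne_zero I_ne_zero c1) c2) c5) c6,
    fun S t h ht => ?_⟩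
  have d1 := h.differentiable_mellin hA hf
  have d2 := a9_diff (n := n) h.pos hc.epos
  refine ⟨fun s => mellin (S.Ii A.N f) s * a9G S.M n e s, d1.mul d2, fun s hs => ?_,
    fun m μ hm0 hm hT h0 => ?_⟩
  · have h2 := a9_mul h.pos hc.npos hc.epos (s := s) (by linarith)
    have e1 : ∀ k : ℕ, (k : ℂ) ^ (-(2 * s + 1)) *
        ∑ᶠ q : SL(2, ℤ) ⧸ Gamma0 A.N, ∫ w in Str, S.den f s k q.out w =
        n * Gamma (s + 1) * (4 * π / e : ℂ) ^ (-(s + 1)) * ((k : ℂ) ^ (-(2 * s + 1)) *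
          LSeries (fun m => t k m * conj (b m)) (s + 1)) := fun k => by
      rcases k.eq_zero_or_pos with rfl | hk
      · have : -(2 * s + 1) ≠ 0 := fun z => by
          have := congrArg Complex.re z
          simp at this
          linarith
        rw [Nat.cast_zero, zero_cpow this]
        ring
      · rw [h.integral_den hA hf hc ht hs hk]
        ring
    simp only [h.mellin_Ii hA hf (s := s) (by linarith), e1, tsum_mul_left]
    rw [← mul_assoc, mul_right_comm, h2, one_mul]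
  · have c7 : (m : ℂ) ≠ 0 := Nat.cast_ne_zero.2 hm0.ne'
    refine ⟨?_, fun hz => ?_⟩
    · rw [h.hol_eq hm0 hm hA.hpos hT h0 (hβ _ (h.dec_Phi hA 1 0) m hm0 hT)]
      simp only [h.mellin_zero hA hf, a9_zero]
      generalize (2 * π ^ 2 / (n * e) : ℂ) = x at c6 ⊢
      field_simp
    · have z : mellin (S.Ii A.N f) 0 = 0 := by
        simp only [a9_zero] at hz
        exact (mul_eq_zero.1 hz).resolve_right c6
      have t := h.tendsto_arch hm0 hm hA.hpos hT h0 (hβ _ (h.dec_Phi hA 0 1) m hm0 hT)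
      convert t using 3
      rw [deriv_fun_mul (d1 0) (d2 0), z, zero_mul, add_zero, h.deriv_mellin hA hf, a9_zero]
      generalize (2 * π ^ 2 / (n * e) : ℂ) = x at c6 ⊢
      field_simp

end Pool.Agent.Lib.MP_696deb_nt.Y2.An
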