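import Pool.Agent.Lib.MP_696deb_nt.Y2.AP2
import Pool.Agent.Lib.MP_696deb_nt.B5.HA6

/-! The formula of Jensen for one orbit. -/

set_option autoImplicit false

open Complex Filter Topology Set MeasureTheory CongruenceSubgroup
open UpperHalfPlane hiding I
open scoped Real MatrixGroups ComplexConjugate Modular Classical
open Pool.Agent.Shared.Weier Pool.Agent.Dih

namespace Pool.Agent.Lib.MP_696deb_nt.Y2.An

/-- Points with trivial stabiliser. -/
def Free (N : ℕ) (w : ℍ) : Prop := ∀ g ∈ Gamma0 N, g • w = w → g = 1 ∨ g = -1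

variable {Y : Crv} {ζ : ℂ} {w : ℍ}

theorem Free.smul {N : ℕ} (hw : Free N w) {g : SL(2, ℤ)} (hg : g ∈ Gamma0 N) : Free N (g • w) :=
  fun k hk e => by
    have := hw (g⁻¹ * k * g) (mul_mem (mul_mem (inv_mem hg) hk) hg)
      (by rw [mul_smul, mul_smul, e, inv_smul_smul])
    rw [mul_assoc, inv_mul_eq_iff_eq_mul, inv_mul_eq_iff_eq_mul, mul_one, mul_neg_one] at this
    exact this.imp (fun e => mul_right_cancel (e.trans (one_mul g).symm))
      fun e => mul_right_cancel (e.trans (neg_one_mul g).symm)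

theorem deriv_ne_of_injOn {F : ℂ → ℂ} {z : ℂ} (hF : AnalyticAt ℂ F z) {U : Set ℂ} (hU : U ∈ 𝓝 z)
    (hi : InjOn F U) : deriv F z ≠ 0 := fun h0 => by
  have nc : ¬ ∀ᶠ p in 𝓝 z, F p - F z = 0 := fun e => by
    obtain ⟨p, ⟨h1, h2⟩, h3⟩ := ((((e.and hU).filter_mono nhdsWithin_le_nhds).and
      self_mem_nhdsWithin : ∀ᶠ p in 𝓝[≠] z, _)).exists
    exact h3 (hi h2 (mem_of_mem_nhds hU) (sub_eq_zero.1 h1))
  obtain ⟨k, g, hg, g0, e⟩ :=
    (hF.sub analyticAt_const).exists_eventuallyEq_pow_smul_nonzero_iff.2 nc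
  simp only [Pi.sub_apply, smul_eq_mul] at e
  have k0 : k ≠ 0 := by
    rintro rfl
    exact g0 (by simpa using e.self_of_nhds.symm)
  have k1 : k ≠ 1 := by
    rintro rfl
    have d := (((hasDerivAt_id z).sub_const z).mul hg.differentiableAt.hasDerivAt).congr_of_eventuallyEq
      (f₁ := fun p => F p - F z) (e.mono fun p hp => by simpa using hp)
    exact g0 (by simpa [h0] using d.deriv.symm)
  obtain ⟨H, hH, H0, e'⟩ : ∃ H : ℂ → ℂ, AnalyticAt ℂ H z ∧ H z = 0 ∧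
      ∀ᶠ p in 𝓝 z, F p - F z = g z * H p ^ k := by
    refine ⟨fun p => (p - z) * cexp (log (g p / g z) / k), (analyticAt_id.sub analyticAt_const).mul
      (((hg.div_const (c := g z)).clog (by simp [g0])).div_const.cexp), by simp, ?_⟩
    filter_upwards [e, hg.continuousAt.eventually_ne g0] with p h1 h2
    rw [h1, mul_pow, ← exp_nat_mul, mul_div_cancel₀ _ (Nat.cast_ne_zero.2 k0),
      exp_log (div_ne_zero h2 g0)]
    field_simp
  have op := hH.eventually_constant_or_nhds_le_map_nhds.resolve_left fun c => nc (by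
    filter_upwards [e', c] with p h1 h2
    rw [h1, h2, H0, zero_pow k0, mul_zero])
  have im := op (image_mem_map (e'.and hU))
  rw [H0] at im
  have pr := isPrimitiveRoot_exp k k0
  generalize cexp (2 * π * I / k) = ω at pr
  have t : Tendsto (fun x : ℂ => x * ω) (𝓝 0) (𝓝 0) := by
    simpa using (continuous_mul_const ω).tendsto 0
  obtain ⟨x, ⟨⟨p, p1, p2⟩, q, q1, q2⟩, x0⟩ := (((Eventually.and im (t im)).filter_mono
    nhdsWithin_le_nhds).and self_mem_nhdsWithin : ∀ᶠ x in 𝓝[≠] (0 : ℂ), _).exists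
  obtain rfl : p = q := hi p1.2 q1.2 (sub_left_injective (b := F z) (by
    simp only [p1.1, q1.1, p2, q2, mul_pow, pr.pow_eq_one, mul_one]))
  exact pr.ne_one (by omega) ((mul_eq_left₀ x0).1 (q2.symm.trans p2))

theorem Crv.Ok.f_ne (h : Y.Ok) (hw : Free Y.N w) : Y.f w ≠ 0 := fun h0 => by
  have fin := ((B5.HA.finite_near w w 2).image (· • w)).sdiff (t := {w})
  obtain ⟨ε, e0, hε⟩ := Metric.mem_nhds_iff.1 (fin.isClosed.isOpen_compl.mem_nhds
    (x := w) fun k => k.2 rfl)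
  refine deriv_ne_of_injOn (F := Y.φ) (z := w) (DifferentiableOn.analyticAt
    (fun z hz => (h.hol_φ z hz).differentiableWithinAt)
    ((isOpen_lt continuous_const Complex.continuous_im).mem_nhds w.im_pos))
    (isOpenEmbedding_coe.isOpenMap.image_mem_nhds
      (Metric.ball_mem_nhds w (lt_min (half_pos e0) one_pos))) ?_
    (by rw [(h.hasDerivAt_φ w.im_pos).deriv, h0, mul_zero])
  rintro _ ⟨z, hz, rfl⟩ _ ⟨z', hz', rfl⟩ e
  obtain ⟨g, hg, -, rfl⟩ := h.inj z z' (by rw [e, sub_self]; exact zero_mem _)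
  rw [Metric.mem_ball, lt_min_iff] at hz hz'
  have d := dist_triangle_left w (g • w) (g • z')
  rw [show dist (g • z') (g • w) = dist z' w from dist_smul (g : SL(2, ℝ)) z' w] at d
  have k : g • w = w := by_contra fun k =>
    hε (a := g • w) (by rw [Metric.mem_ball, dist_comm]; linarith)
      ⟨⟨g, by rw [mem_ofPred_eq]; linarith, rfl⟩, k⟩
  rcases hw g hg k with rfl | rfl <;> simp

theorem Crv.Ok.hol_sig (h : Y.Ok) (ζ v : ℂ) :
    Hol fun z => Shared.Weier.sig Y.L (ζ * Y.φ z - v) := fun z hz =>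
  (differentiable_sig Y.L _).comp z (((h.hol_φ z hz).const_mul ζ).sub_const v)

theorem Crv.Ok.deriv_sig_ne (h : Y.Ok) (hw : Free Y.N w) (hζ : ζ ^ Y.u = 1) (z : ℂ) (hz : 0 < z.im)
    (h0 : Shared.Weier.sig Y.L (ζ * Y.φ z - Y.φ w) = 0) :
    deriv (fun z => Shared.Weier.sig Y.L (ζ * Y.φ z - Y.φ w)) z ≠ 0 := by
  have h1 := sig_eq_zero_iff.1 h0
  have := ((differentiable_sig Y.L (ζ * Y.φ z - Y.φ w)).hasDerivAt.comp z
    (((h.hasDerivAt_φ hz).const_mul ζ).sub_const (Y.φ w))).deriv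
  simp only [Function.comp_def] at this
  obtain ⟨g, hg, -, e⟩ := (h.mem_iff' hζ ⟨z, hz⟩ w).1 h1
  rw [this]
  refine mul_ne_zero (An.deriv_sig_ne h1) (mul_ne_zero (fun e => ?_) (mul_ne_zero (div_ne_zero
    (mul_ne_zero two_pi_I_ne_zero h.rho) (Nat.cast_ne_zero.2 h.lev.hpos.ne'))
    (e ▸ h.f_smul_ne (h.f_ne hw) hg : Y.f (⟨z, hz⟩ : ℍ) ≠ 0)))
  simp [e, h.upos.ne'] at hζ

theorem ag1_hasSum {N : ℕ} (hw : Free N w) {P : SL(2, ℤ) → Prop}
    (hP : ∀ γ ∈ Gamma0 N, P γ → P (-γ)) {κ : ℍ → ℂ} (hκ : Function.Injective κ) {D : ℂ → ℝ}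
    (hf : (Function.support D).Finite) (hD : ∀ s, D s ≠ 0 → ∃ γ ∈ Gamma0 N, P γ ∧ κ (γ • w) = s) :
    HasSum (fun γ : Gamma0 N => if P γ then D (κ ((γ : SL(2, ℤ)) • w)) else 0) (2 * ∑ᶠ s, D s) := by
  have h1 : ∀ s ∈ hf.toFinset, HasSum (fun γ : Gamma0 N => if P γ ∧
      κ ((γ : SL(2, ℤ)) • w) = s then D s else 0) (2 * D s) := fun s hs => by
    obtain ⟨γ₀, m, h2, h3⟩ := hD s (hf.mem_toFinset.1 hs)
    have h4 : (⟨γ₀, m⟩ : Gamma0 N) ≠ ⟨-γ₀, neg_mem m⟩ := fun h => by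
      have e := congrArg (fun γ : Gamma0 N => (γ.1 * γ₀⁻¹) 0 0) h
      simp only [neg_mul, mul_inv_cancel] at e
      simp at e
    have h5 := hasSum_sum_of_ne_finset_zero (s := {⟨γ₀, m⟩, ⟨-γ₀, neg_mem m⟩})
      (f := fun γ : Gamma0 N => if P γ ∧ κ ((γ : SL(2, ℤ)) • w) = s then D s else 0)
      (L := .unconditional _) fun γ hγ => by
        refine if_neg fun h => hγ ?_
        have h6 := hκ (h.2.trans h3.symm)
        rw [← inv_smul_eq_iff, ← mul_smul] at h6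
        rw [Finset.mem_insert, Finset.mem_singleton]
        refine (hw _ (mul_mem (inv_mem m) γ.2) h6).imp (fun e => Subtype.ext ?_)
          fun e => Subtype.ext ?_
        · exact (inv_mul_eq_one.mp e).symm
        · exact (inv_mul_eq_iff_eq_mul.mp e).trans (mul_neg_one _)
    rwa [Finset.sum_pair h4, if_pos ⟨h2, h3⟩, if_pos ⟨hP _ m h2, by simpa using h3⟩,
      ← two_mul] at h5
  rw [finsum_eq_sum _ hf, Finset.mul_sum]
  convert hasSum_sum h1 using 2 with γ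
  split_ifs with h
  · simp only [h, true_and, Finset.sum_ite_eq, Finite.mem_toFinset, Function.mem_support]
    split_ifs with k
    · rfl
    · exact not_not.1 k
  · exact (Finset.sum_eq_zero fun s _ => if_neg fun e => h e.1).symm

theorem Crv.Ok.jensen (h : Y.Ok) (hw : Free Y.N w) (hζ : ζ ^ Y.u = 1) (g : SL(2, ℝ))
    (h0 : ∀ γ ∈ Gamma0 Y.N, g • UpperHalfPlane.I ≠ γ • w) {r : ℝ} (hr : r ∈ Ioo (0 : ℝ) 1) :
    CircleIntegrable
      (fun p => Real.log ‖Shared.Weier.sig Y.L (ζ * Y.φ (g • cay p : ℍ) - Y.φ w)‖) 0 r ∧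
    HasSum (fun γ : Gamma0 Y.N => if ζ * Y.ξ γ = 1 then Real.posLog
      (r / Real.tanh (dist (g • UpperHalfPlane.I) ((γ : SL(2, ℤ)) • w) / 2)) else 0)
      (2 * (Real.circleAverage
        (fun p => Real.log ‖Shared.Weier.sig Y.L (ζ * Y.φ (g • cay p : ℍ) - Y.φ w)‖) 0 r -
        Real.log ‖Shared.Weier.sig Y.L (ζ * Y.φ (g • UpperHalfPlane.I : ℍ) - Y.φ w)‖)) := by
  have zi : ∀ z : ℍ, Shared.Weier.sig Y.L (ζ * Y.φ z - Y.φ w) = 0 ↔
      ∃ γ ∈ Gamma0 Y.N, ζ * Y.ξ γ = 1 ∧ z = γ • w := fun z =>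
    sig_eq_zero_iff.trans (h.mem_iff' hζ z w)
  obtain ⟨F, hF⟩ : ∃ F : ℂ → ℂ, F = fun z => Shared.Weier.sig Y.L (ζ * Y.φ z - Y.φ w) := ⟨_, rfl⟩
  have hol : Hol F := hF ▸ h.hol_sig ζ (Y.φ w)
  have e : ∀ z, Shared.Weier.sig Y.L (ζ * Y.φ z - Y.φ w) = F z := fun z => by rw [hF]
  have dn : ∀ z : ℍ, F z = 0 → deriv F z ≠ 0 := fun z k =>
    hF ▸ h.deriv_sig_ne hw hζ z z.im_pos ((e z).trans k)
  simp only [e] at zi ⊢
  have n0 : F (g • cay 0 : ℍ) ≠ 0 := fun k => by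
    obtain ⟨γ, h1, -, h2⟩ := (zi _).1 k
    exact h0 γ h1 (cay_zero ▸ h2)
  have hd : ∀ u : ℂ, ‖u‖ < 1 → AnalyticAt ℂ (fun u => F (g • cay u : ℍ)) u := fun u hu =>
    AnalyticAt.comp (f := fun u => ((g • cay u : ℍ) : ℂ)) (DifferentiableOn.analyticAt
      (fun z hz => (hol z hz).differentiableWithinAt)
      ((isOpen_lt continuous_const Complex.continuous_im).mem_nhds (im_pos _)))
      (B5.HA.analyticAt_smul_cay g hu)
  have cb : ∀ u, u ∈ Metric.closedBall (0 : ℂ) |r| ↔ ‖u‖ ≤ r := fun u => by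
    rw [mem_closedBall_zero_iff, abs_of_pos hr.1]
  have han : AnalyticOnNhd ℂ (fun u => F (g • cay u : ℍ)) (Metric.closedBall 0 |r|) :=
    fun u hu => hd u (((cb u).1 hu).trans_lt hr.2)
  refine ⟨(han.mono Metric.sphere_subset_closedBall).meromorphicOn.circleIntegrable_log_norm, ?_⟩
  rw [han.circleAverage_log_norm hr.1.ne' n0, cay_zero, add_sub_cancel_right]
  refine (ag1_hasSum hw (P := fun γ => ζ * Y.ξ γ = 1) (fun γ m k => by rwa [h.lev.neg' m])
    (κ := fun z => cayInv (g⁻¹ • z)) (fun z z' k => by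
      simpa only [cay_cayInv, smul_inv_smul] using congrArg (fun u => g • cay u) k)
    (((MeromorphicOn.divisor _ _).finiteSupport (isCompact_closedBall _ _)).subset fun u hu k =>
      hu (by rw [k]; simp)) fun u hu => ?_).congr_fun fun γ => ?_
  · have h1 : u ∈ Metric.closedBall (0 : ℂ) |r| := by_contra fun k => hu (by
      rw [Function.locallyFinsuppWithin.apply_eq_zero_of_notMem _ k]; simp)
    have h2 := ((cb u).1 h1).trans_lt hr.2
    obtain ⟨γ, m, h3, h4⟩ := (zi (g • cay u)).1 (by_contra fun k => hu (by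
      rw [MeromorphicOn.AnalyticOnNhd.divisor_apply han h1,
        (hd u h2).analyticOrderAt_eq_zero.mpr k]; simp))
    exact ⟨γ, m, h3, by rw [← h4, inv_smul_smul, cayInv_cay h2]⟩
  split_ifs with k
  swap
  · rfl
  have h3 : F (g • cay (cayInv (g⁻¹ • γ.1 • w)) : ℍ) = 0 :=
    (zi _).2 ⟨γ, γ.2, k, by rw [cay_cayInv, smul_inv_smul]⟩
  rw [← dist_smul g⁻¹, inv_smul_smul, dist_comm, ← B5.HA.norm_cayInv]
  generalize cayInv (g⁻¹ • γ.1 • w) = u at h3
  have h7 : 0 < ‖u‖ := norm_pos_iff.2 fun k => n0 (k ▸ h3)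
  by_cases hu : ‖u‖ ≤ r
  · have h2 := hu.trans_lt hr.2
    rw [MeromorphicOn.AnalyticOnNhd.divisor_apply han ((cb u).2 hu),
      (hd u h2).analyticOrderAt_eq_one_of_zero_deriv_ne_zero h3,
      Real.posLog_eq_log (by rw [abs_of_pos (div_pos hr.1 h7), one_le_div h7]; exact hu)]
    · simp [div_eq_mul_inv]
    have h8 := (analyticAt_smul (g := (g : GL (Fin 2) ℝ)) (by simp)
      (cay u)).differentiableAt.hasDerivAt
    have h9 := deriv_smul_ne_zero (g := (g : GL (Fin 2) ℝ)) (by simp) (cay u)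
    rw [coe_cay h2] at h8 h9
    have h10 := (HasDerivAt.comp (h := fun u => ((g • cay u : ℍ) : ℂ)) u
      (hol _ (g • cay u).im_pos).hasDerivAt (h8.comp u (hasDerivAt_cayC h2))).deriv
    simp only [Function.comp_def] at h10
    rw [h10]
    exact mul_ne_zero (dn _ h3) (mul_ne_zero h9 (div_ne_zero (by simp)
      (pow_ne_zero _ (one_sub_ne h2))))
  · rw [Function.locallyFinsuppWithin.apply_eq_zero_of_notMem _ (mt (cb u).1 hu),
      (Real.posLog_eq_zero_iff _).2 (by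
        rw [abs_of_pos (div_pos hr.1 h7), div_le_one h7]; exact (not_le.1 hu).le)]
    simp

end Pool.Agent.Lib.MP_696deb_nt.Y2.An
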