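import Pool.Agent.Lib.MP_696deb_nt.Y2.A1

/-! Small negative powers of a cusp form are integrable. -/

set_option autoImplicit false

open Complex Filter Topology Set MeasureTheory CongruenceSubgroup
open UpperHalfPlane hiding I
open scoped Real MatrixGroups ComplexConjugate Modular Classical
open Pool.Agent.Shared.Weier Pool.Agent.Dih

namespace Pool.Agent.Lib.MP_696deb_nt.Y2.An

variable {A : Lev} {f Φ : ℂ → ℂ}

theorem integrableAt_neg_rpow {F : ℂ → ℂ} {z₀ : ℂ} (hF : AnalyticAt ℂ F z₀)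
    (hne : ¬ ∀ᶠ z in 𝓝 z₀, F z = 0) : ∃ s₀ : ℝ, 0 < s₀ ∧ ∀ s ∈ Ioc (0 : ℝ) s₀,
      IntegrableAtFilter (fun z : ℂ => ‖F z‖ ^ (-s)) (𝓝 z₀) volume := by
  obtain ⟨n, g, hg, h0, h⟩ := hF.exists_eventuallyEq_pow_smul_nonzero_iff.2 hne
  refine ⟨1 / (n + 1), by positivity, fun s hs => ?_⟩
  have h1 : ContinuousAt (fun z => ‖g z‖ ^ (-s)) z₀ :=
    hg.continuousAt.norm.rpow_const (.inl (norm_ne_zero_iff.2 h0))
  obtain ⟨ε, hε, h2⟩ := Metric.eventually_nhds_iff_ball.1
    ((h1.eventually (eventually_le_nhds (lt_add_one _))).and (h.and hF.eventually_analyticAt))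
  have h5 : n * s < 2 := by
    have := (le_div_iff₀ (by positivity)).1 hs.2
    nlinarith [hs.1]
  have h3 : IntegrableOn (fun u : ℂ => ‖u‖ ^ (-(n * s))) (Metric.ball 0 ε) :=
    integrableOn_ball_of_norm_le_rpow (C := 1) (α := n * s) (by simp) (by simpa using h5)
      (.of_forall fun u => by rw [one_mul, Real.norm_of_nonneg (by positivity)])
      (measurable_norm.pow_const _).aestronglyMeasurable
  have h4 : IntegrableOn (fun z : ℂ => ‖z - z₀‖ ^ (-(n * s))) (Metric.ball z₀ ε) := by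
    have := ((measurePreserving_sub_right volume z₀).integrableOn_comp_preimage
      (measurableEmbedding_subRight _)).mpr h3
    simpa [Function.comp_def, preimage, Metric.ball, dist_eq_norm] using this
  refine ⟨_, Metric.ball_mem_nhds z₀ hε, (h4.mul_const (‖g z₀‖ ^ (-s) + 1)).mono' ?_
    (ae_restrict_of_forall_mem measurableSet_ball fun z hz => ?_)⟩
  · exact (((continuousOn_of_forall_continuousAt fun z hz =>
      (h2 z hz).2.2.continuousAt).norm.aemeasurable measurableSet_ball).pow_const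
        _).aestronglyMeasurable
  · rw [Real.norm_of_nonneg (by positivity), (h2 z hz).2.1, norm_smul, norm_pow,
      Real.mul_rpow (by positivity) (norm_nonneg _), ← Real.rpow_natCast_mul (norm_nonneg _),
      mul_neg]
    exact mul_le_mul_of_nonneg_left (h2 z hz).1 (by positivity)

theorem integrableAt_upper {F : ℂ → ℝ} (hm : Measurable fun z : ℍ => F z) {z₀ : ℍ}
    (hF : IntegrableAtFilter F (𝓝 (z₀ : ℂ)) volume) :
    IntegrableAtFilter (fun z : ℍ => F z) (𝓝 z₀) volume := by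
  obtain ⟨s, hs, hi⟩ := hF
  obtain ⟨U, hU, ho, hz⟩ := mem_nhds_iff.1 hs
  have h0 := z₀.im_pos
  have h1 : IsOpen (UpperHalfPlane.coe ⁻¹' U ∩ {z : ℍ | z₀.im / 2 < z.im}) :=
    (ho.preimage UpperHalfPlane.continuous_coe).inter
      (isOpen_lt continuous_const UpperHalfPlane.continuous_im)
  have h2 := (measurableEmbedding_coe.integrableOn_iff_comap inter_subset_right).1
    (hi.mono_set ((inter_subset_left (t := range UpperHalfPlane.coe)).trans hU))
  refine ⟨_, h1.mem_nhds ⟨hz, half_lt_self h0⟩, ?_⟩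
  rw [IntegrableOn, volume_def, restrict_withDensity h1.measurableSet,
    integrable_withDensity_iff_integrable_smul (by fun_prop)]
  refine ((h2.mono_set fun z hz => ⟨hz.1, z, rfl⟩).norm.const_mul ((1 / (z₀.im / 2)) ^ 2)).mono'
    (Measurable.smul (by fun_prop) hm).aestronglyMeasurable
    (ae_restrict_of_forall_mem h1.measurableSet fun z hz => ?_)
  have h3 : z₀.im / 2 ≤ z.im := hz.2.le
  rw [NNReal.smul_def, norm_smul, Real.norm_of_nonneg (NNReal.coe_nonneg _)]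
  push_cast
  rw [Function.comp_apply]
  gcongr

private theorem ap3_le {x s a : ℝ} (hx : 0 ≤ x) (hs : s ∈ Ioc 0 a) :
    x ^ (-s) ≤ 1 + x ^ (-a) := by
  have h := Real.rpow_nonneg hx (-a)
  rcases hx.eq_or_lt with rfl | e
  · rw [Real.zero_rpow (neg_ne_zero.2 hs.1.ne')]
    linarith
  rcases le_total x 1 with h1 | h1
  · linarith [Real.rpow_le_rpow_of_exponent_ge e h1 (neg_le_neg hs.2)]
  · linarith [Real.rpow_le_one_of_one_le_of_nonpos h1 (neg_nonpos.2 hs.1.le)]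

theorem integrableOn_neg_rpow {F : ℂ → ℂ} (hF : Hol F) (hne : ∃ z : ℍ, F z ≠ 0) {K : Set ℍ}
    (hK : IsCompact K) : ∃ s₀ : ℝ, 0 < s₀ ∧ ∀ s ∈ Ioc (0 : ℝ) s₀,
      IntegrableOn (fun z : ℍ => ‖F z‖ ^ (-s)) K := by
  have ho : IsOpen {z : ℂ | 0 < z.im} := isOpen_lt continuous_const Complex.continuous_im
  have ha : AnalyticOnNhd ℂ F {z : ℂ | 0 < z.im} :=
    DifferentiableOn.analyticOnNhd (fun z hz => (hF z hz).differentiableWithinAt) ho
  have hm : ∀ s : ℝ, Measurable fun z : ℍ => ‖F z‖ ^ (-s) := fun s =>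
    hF.continuous_coe.norm.measurable.pow_const _
  refine hK.induction_on (p := fun K => ∃ s₀ : ℝ, 0 < s₀ ∧ ∀ s ∈ Ioc (0 : ℝ) s₀,
    IntegrableOn (fun z : ℍ => ‖F z‖ ^ (-s)) K) ⟨1, one_pos, fun _ _ => integrableOn_empty⟩
    ?_ ?_ fun z _ => ?_
  · rintro s t e ⟨a, ha, h⟩
    exact ⟨a, ha, fun r hr => (h r hr).mono_set e⟩
  · rintro s t ⟨a, ha, h⟩ ⟨b, hb, h'⟩
    exact ⟨min a b, lt_min ha hb, fun r hr => (h r ⟨hr.1, hr.2.trans (min_le_left _ _)⟩).union
      (h' r ⟨hr.1, hr.2.trans (min_le_right _ _)⟩)⟩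
  obtain ⟨a, h0, h⟩ := integrableAt_neg_rpow (ha z z.im_pos) fun e => by
    obtain ⟨w, hw⟩ := hne
    exact hw (ha.eqOn_zero_of_preconnected_of_eventuallyEq_zero
      (convex_halfSpace_im_gt 0).isPreconnected (z₀ := z) z.im_pos e (x := w) w.im_pos)
  obtain ⟨t, ht, hi⟩ := integrableAt_upper (F := fun z => ‖F z‖ ^ (-a)) (hm a) (h a ⟨h0, le_rfl⟩)
  obtain ⟨r, hr, e⟩ := Metric.mem_nhds_iff.1 ht
  have h1 : IntegrableOn (fun w : ℍ => 1 + ‖F w‖ ^ (-a)) (Metric.ball z r) :=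
    (integrableOn_const (C := (1 : ℝ)) measure_ball_lt_top.ne).add (hi.mono_set e)
  refine ⟨_, mem_nhdsWithin_of_mem_nhds (Metric.ball_mem_nhds z hr), a, h0, fun s hs =>
    h1.mono' (hm s).aestronglyMeasurable (.of_forall fun w => ?_)⟩
  rw [Real.norm_of_nonneg (by positivity)]
  exact ap3_le (norm_nonneg _) hs

private theorem ap3_hol (hf : Hol f) (g : SL(2, ℤ)) :
    Hol fun z => f (mob (g 0 0) (g 0 1) (g 1 0) (g 1 1) z) :=
  hf.comp_mob (by rw [det_SL]; exact one_pos)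

/-- A lower bound near a cusp. -/
theorem Lev.Cf.lower (hA : A.Ok) (hf : A.Cf f) (hne : ∃ z : ℍ, f z ≠ 0) (g : SL(2, ℤ)) :
    ∃ c κ y₀ : ℝ, 0 < c ∧ 0 < κ ∧ ∀ z : ℍ, y₀ ≤ z.im →
      c * Real.exp (-κ * z.im) ≤ ‖f (g • z : ℍ)‖ * (g • z).im := by
  obtain ⟨n, hn, hN, hξ⟩ := hA.ker
  obtain ⟨C, hC⟩ := hf.bd
  obtain ⟨F, hF, e⟩ : ∃ F : ℂ → ℂ, Hol F ∧ ∀ z : ℍ, F z = f (g • z : ℍ) / jac g z ^ 2 :=
    ⟨fun z => f (mob (g 0 0) (g 0 1) (g 1 0) (g 1 1) z) / jac g z ^ 2, fun z hz =>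
      (ap3_hol hf.hol g z hz).div (d := fun z => jac g z ^ 2) (by unfold jac; fun_prop)
        (pow_ne_zero _ (jac_ne g ⟨z, hz⟩)),
      fun z => by rw [coe_smul_eq_mob]⟩
  have h1 : ∀ z : ℍ, ‖f (g • z : ℍ)‖ * (g • z).im = ‖F z‖ * z.im := fun z => by
    rw [e, im_jac, norm_div, norm_pow, normSq_eq_norm_sq]
    ring
  have hr : (0 : ℝ) < n := Nat.cast_pos.2 hn
  have h2 : ∀ z : ℂ, 0 < z.im → 0 < (n * z : ℂ).im := fun z hz => by simpa using mul_pos hr hz
  have h3 : ∀ z : ℍ, F (z + n) = F z := fun z => by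
    have m : g * ModularGroup.T ^ (n : ℤ) * g⁻¹ ∈ CongruenceSubgroup.Gamma n :=
      (Gamma_normal n).conj_mem _ (ModularGroup_T_pow_mem_Gamma n n dvd_rfl) g
    have m' : g * ModularGroup.T ^ (n : ℤ) * g⁻¹ ∈ Gamma0 A.N := Gamma0_mem.2
      ((ZMod.intCast_zmod_eq_zero_iff_dvd _ _).2 ((Int.natCast_dvd_natCast.2 hN).trans
        ((ZMod.intCast_zmod_eq_zero_iff_dvd _ _).1 (Gamma_mem.1 m).2.2.1)))
    have a := hf.law _ m' (g • z)
    have b := jac_mul (g * ModularGroup.T ^ (n : ℤ) * g⁻¹) g z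
    rw [inv_mul_cancel_right, jac_mul, jac_T, mul_one] at b
    rw [hξ _ m, one_mul, mul_smul, mul_smul, inv_smul_smul] at a
    have c := jac_ne (g * ModularGroup.T ^ (n : ℤ) * g⁻¹) (g • z)
    rw [← Int.cast_natCast, ← coe_T, e, e, a, b, mul_pow, mul_div_mul_left _ _ (pow_ne_zero _ c)]
  obtain ⟨P, hP⟩ := QE.exists_of_periodic (F := fun z => F (n * z))
    (fun z hz => (hF _ (h2 z hz)).comp z (by fun_prop))
    (fun z hz => by rw [mul_add, mul_one]; exact h3 ⟨_, h2 z hz⟩) (by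
      refine Asymptotics.IsBigO.of_bound |C| ((tendsto_comap.eventually
        (eventually_ge_atTop (n : ℝ)⁻¹)).mono fun z hz => ?_)
      have a := h2 z ((inv_pos.2 hr).trans_le hz)
      have b : 1 ≤ (n * z : ℂ).im := by simpa using (inv_le_iff_one_le_mul₀' hr).1 hz
      rw [norm_one, mul_one]
      exact (le_mul_of_one_le_right (norm_nonneg _) b).trans
        ((h1 ⟨_, a⟩).ge.trans ((hC _).trans (le_abs_self C))))
  have h4 : ∀ z : ℍ, 0 < ((z : ℂ) / n).im ∧ n * ((z : ℂ) / n) = z := fun z =>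
    ⟨by simpa using div_pos z.im_pos hr, mul_div_cancel₀ _ (Nat.cast_ne_zero.2 hn.ne')⟩
  have h5 : P ≠ 0 := by
    rintro rfl
    obtain ⟨w, hw⟩ := hne
    have a := hP.eq_of_eq (F' := fun _ => 0) (by simpa using QE.const 0) (h4 (g⁻¹ • w)).1
    rw [(h4 _).2, e, smul_inv_smul] at a
    exact div_ne_zero hw (pow_ne_zero _ (jac_ne _ _)) a
  have h6 : 0 < ‖PowerSeries.constantCoeff P.divXPowOrder‖ :=
    norm_pos_iff.2 fun e => h5 (PowerSeries.constantCoeff_divXPowOrder_eq_zero_iff.1 e)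
  rw [← PowerSeries.X_pow_order_mul_divXPowOrder (f := P)] at hP
  generalize P.order.toNat = k, P.divXPowOrder = B at hP h6
  obtain ⟨Y, hY⟩ := eventually_atTop.1 (eventually_comap.1
    (hP.of_X_pow_mul.tendsto.norm.eventually (eventually_ge_nhds (half_lt_self
      (by simpa using h6)))))
  refine ⟨_, 2 * π * (k + 1), max 1 (Y * n), half_pos h6, by positivity, fun z hz => ?_⟩
  obtain ⟨a, b⟩ := max_le_iff.1 hz
  have c := hY _ ((le_div_iff₀ hr).2 b) (z / n) (by simp)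
  have d : (z.im / n) ≤ z.im := div_le_self z.im_pos.le (Nat.one_le_cast.2 hn)
  rw [(h4 z).2, norm_div, norm_pow, le_div_iff₀ (pow_pos (norm_pos_iff.2 (q1_ne _)) _), norm_q1,
    ← Real.exp_nat_mul, PowerSeries.coeff_zero_eq_constantCoeff, div_natCast_im, coe_im] at c
  rw [h1]
  refine le_trans (mul_le_mul_of_nonneg_left (Real.exp_le_exp.2 ?_) (half_pos h6).le)
    (c.trans (le_mul_of_one_le_right (norm_nonneg _) a))
  have u := mul_le_mul_of_nonneg_left d (show 0 ≤ π * k by positivity)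
  nlinarith [mul_pos Real.pi_pos z.im_pos]

private theorem ap3_vol : volume 𝒟 < ⊤ := by
  refine lt_of_le_of_lt (measure_mono_ae ?_) anf_vol
  filter_upwards [anf_null (anf_re (1 / 2)), anf_null (anf_re (-(1 / 2))),
    anf_null (Measure.addHaar_sphere volume (0 : ℂ) 1)] with z h1 h2 h3 hz
  refine ⟨hz.1.lt_of_ne fun e => h3 1 ?_, hz.2.lt_of_ne fun e => ?_⟩
  · rw [one_smul, mem_sphere_zero_iff_norm, ← sq_eq_sq₀ (norm_nonneg _) zero_le_one,
      ← normSq_eq_norm_sq, ← e, one_pow]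
  · rw [← one_smul SL(2, ℤ) z] at e
    rcases eq_or_eq_neg_of_abs_eq e with e | e
    exacts [h1 1 e, h2 1 e]

theorem Lev.Cf.integrableOn_neg (hA : A.Ok) (hf : A.Cf f) (hne : ∃ z : ℍ, f z ≠ 0) (g : SL(2, ℤ))
    {δ : ℝ} (hδ : 0 < δ) : ∃ s₀ : ℝ, 0 < s₀ ∧ ∀ s ∈ Ioc (0 : ℝ) s₀, IntegrableOn
      (fun z : ℍ => Real.exp (-δ * z.im) * (‖f (g • z : ℍ)‖ * (g • z).im) ^ (-s)) 𝒟 := by
  obtain ⟨c, κ, y, hc, hκ, h⟩ := hf.lower hA hne g
  obtain ⟨a, ha, h1⟩ := integrableOn_neg_rpow (ap3_hol hf.hol g) (hne.elim fun w hw =>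
    ⟨g⁻¹ • w, by rwa [← coe_smul_eq_mob, smul_inv_smul]⟩)
    (ModularGroup.isCompact_truncatedFundamentalDomain y)
  simp only [← coe_smul_eq_mob] at h1
  have h2 : Continuous fun z : ℍ => (g • z).im := UpperHalfPlane.continuous_im.comp (anf_cont g)
  have h3 : MeasurableSet (𝒟 ∩ {z : ℍ | y ≤ z.im}) := (ModularGroup.isClosed_fd.inter
    (isClosed_le continuous_const UpperHalfPlane.continuous_im)).measurableSet
  refine ⟨min a (δ / κ), lt_min ha (div_pos hδ hκ), fun s hs => IntegrableOn.mono_set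
    (IntegrableOn.union (s := ModularGroup.truncatedFundamentalDomain y)
      (t := 𝒟 ∩ {z : ℍ | y ≤ z.im}) ?_ ?_) fun z hz =>
        (le_total z.im y).imp (fun e => ⟨hz, e⟩) fun e => ⟨hz, e⟩⟩
  · have := (h1 s ⟨hs.1, hs.2.trans (min_le_left _ _)⟩).continuousOn_mul
      (g := fun z : ℍ => Real.exp (-δ * z.im) * (g • z).im ^ (-s))
      (Continuous.continuousOn (Continuous.mul (by fun_prop)
        (h2.rpow_const fun z => .inl (g • z).im_ne_zero)))
      (ModularGroup.isCompact_truncatedFundamentalDomain y)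
    convert this using 2 with z
    rw [Real.mul_rpow (norm_nonneg _) (g • z).im_pos.le]
    ring
  · refine Measure.integrableOn_of_bounded (M := c ^ (-s))
      ((measure_mono inter_subset_left).trans_lt ap3_vol).ne
      (Measurable.aestronglyMeasurable (Measurable.mul (by fun_prop) (Measurable.pow_const
        ((hf.hol.continuous_coe.comp (anf_cont g)).norm.mul h2).measurable _)))
      (ae_restrict_of_forall_mem h3 fun z hz => ?_)
    have e := Real.rpow_le_rpow_of_nonpos (by positivity) (h z hz.2) (neg_nonpos.2 hs.1.le)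
    have i := (g • z).im_pos
    have k := (le_div_iff₀ hκ).1 (hs.2.trans (min_le_right _ _))
    rw [Real.norm_of_nonneg (by positivity)]
    refine (mul_le_mul_of_nonneg_left e (Real.exp_pos _).le).trans ?_
    rw [Real.mul_rpow hc.le (Real.exp_pos _).le, ← Real.exp_mul, mul_left_comm, ← Real.exp_add]
    refine mul_le_of_le_one_right (by positivity) (Real.exp_le_one_iff.2 ?_)
    nlinarith [mul_le_mul_of_nonneg_right k z.im_pos.le]

theorem Lev.Dec.lintegral_neg (hA : A.Ok) (hf : A.Cf f) (hne : ∃ z : ℍ, f z ≠ 0) (h : A.Dec Φ) :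
    ∃ s : ℝ, 0 < s ∧ ∫⁻ z in XN A.N,
      ENNReal.ofReal ((‖Φ z‖ * z.im) ^ (2 + s) * (‖f z‖ * z.im) ^ (-s)) < ⊤ := by
  obtain ⟨δ, C, hδ, hC⟩ := h.dec
  have := finite_quot hA.Npos
  choose a ha H using fun q : SL(2, ℤ) ⧸ Gamma0 A.N => hf.integrableOn_neg hA hne q.out⁻¹ hδ
  obtain ⟨r, hr⟩ := Finite.exists_min a
  refine ⟨a r, ha r, ?_⟩
  rw [XN, ofPred_exists]
  refine (lintegral_iUnion_le _ _).trans_lt ?_
  have := Fintype.ofFinite (SL(2, ℤ) ⧸ Gamma0 A.N)
  rw [tsum_fintype]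
  refine ENNReal.sum_lt_top.2 fun q _ => ?_
  rw [← (anf_mp q.out⁻¹).setLIntegral_comp_preimage_emb (anf_emb _)]
  refine lt_of_le_of_lt ((lintegral_mono_set fun z hz => ModularGroup.fdo_subset_fd
    (by simpa using hz)).trans (setLIntegral_mono' ModularGroup.isClosed_fd.measurableSet
      fun z hz => ENNReal.ofReal_le_ofReal ?_))
    ((H q _ ⟨ha r, hr q⟩).const_mul (|C| ^ (2 + a r))).lintegral_lt_top
  have i := (q.out⁻¹ • z).im_pos
  have k := ha r
  rw [← mul_assoc]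
  refine mul_le_mul_of_nonneg_right ((Real.rpow_le_rpow (by positivity) ((hC _ z hz).trans
    (mul_le_mul_of_nonneg_right (le_abs_self C) (Real.exp_pos _).le)) (by positivity)).trans ?_)
    (by positivity)
  rw [Real.mul_rpow (abs_nonneg C) (Real.exp_pos _).le, ← Real.exp_mul]
  refine mul_le_mul_of_nonneg_left (Real.exp_le_exp.2 ?_) (by positivity)
  nlinarith [mul_pos hδ z.im_pos, mul_pos (mul_pos hδ z.im_pos) k]

theorem young_neg {Z F ψ s : ℝ} (hZ : 0 ≤ Z) (hF : 0 ≤ F) (hψ : 0 ≤ ψ) (hs : 0 < s) :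
    Z * F * ψ ≤ Z ^ ((2 + s) / (1 + s)) * F ^ 2 + ψ ^ (2 + s) * F ^ (-s) := by
  rcases hF.eq_or_lt with rfl | h0
  · rw [mul_zero, zero_mul]
    positivity
  have h1 : (1 : ℝ) < (2 + s) / (1 + s) := (one_lt_div (by positivity)).2 (by linarith)
  have h := Real.young_inequality_of_nonneg (a := Z * F ^ (2 * (1 + s) / (2 + s)))
    (b := ψ * F ^ (-s / (2 + s))) (p := (2 + s) / (1 + s)) (q := 2 + s) (by positivity)
    (by positivity) (Real.holderConjugate_iff.2 ⟨h1, by field_simp; ring⟩)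
  rw [mul_mul_mul_comm, ← Real.rpow_add h0, Real.mul_rpow hZ (by positivity),
    Real.mul_rpow hψ (by positivity), ← Real.rpow_mul hF, ← Real.rpow_mul hF,
    show 2 * (1 + s) / (2 + s) + -s / (2 + s) = 1 by field_simp; ring,
    show 2 * (1 + s) / (2 + s) * ((2 + s) / (1 + s)) = 2 by field_simp,
    div_mul_cancel₀ _ (by positivity), Real.rpow_one, Real.rpow_two, mul_right_comm] at h
  exact h.trans (add_le_add (div_le_self (by positivity) h1.le)
    (div_le_self (by positivity) (by linarith)))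

end Pool.Agent.Lib.MP_696deb_nt.Y2.An
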