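import Pool.Agent.Lib.MP_696deb_nt.Y2.AG1
import Pool.Agent.Lib.MP_696deb_nt.Y2.AP3

/-! The averages of the Green function tend to zero. -/

set_option autoImplicit false

open Complex Filter Topology Set MeasureTheory CongruenceSubgroup
open UpperHalfPlane hiding I
open scoped Real MatrixGroups ComplexConjugate Modular Classical
open Pool.Agent.Shared.Weier Pool.Agent.Dih

namespace Pool.Agent.Lib.MP_696deb_nt.Y2.An

/-- One term of the Green function, modified at its poles. -/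
noncomputable def Crv.lam0 (Y : Crv) (ζ : ℂ) (w z : ℍ) : ℝ :=
  if ζ * Y.φ z - Y.φ w ∈ Y.L.lattice then 0 else lamL Y.L (ζ * Y.φ z - Y.φ w)

theorem ag2_at (z₀ : ℍ) :
    IntegrableAtFilter (fun z : ℍ => Real.log ‖(z : ℂ) - z₀‖) (𝓝 z₀) volume := by
  have h1 : IntegrableOn (fun z : ℂ => Real.log ‖z‖) (Metric.ball 0 1) :=
    integrableOn_ball_of_norm_le_rpow (C := 1) (α := 1) (by simp) (by simp)
      (ae_restrict_of_forall_mem measurableSet_ball fun z hz => by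
        rcases (norm_nonneg z).eq_or_lt with h | h
        · simp [← h]
        have := Real.abs_log_mul_self_lt _ h (mem_ball_zero_iff.mp hz).le
        rw [abs_mul, abs_of_pos h] at this
        rw [Real.rpow_neg_one, ← div_eq_mul_inv, le_div_iff₀ h]
        exact this.le) (measurable_norm.log.aestronglyMeasurable)
  have h2 : IntegrableOn (fun z : ℂ => Real.log ‖z - z₀‖) (Metric.ball z₀ 1) := by
    have := ((measurePreserving_sub_right volume (z₀ : ℂ)).integrableOn_comp_preimage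
      (measurableEmbedding_subRight _)).mpr h1
    simpa [Function.comp_def, preimage, Metric.ball, dist_eq_norm] using this
  exact integrableAt_upper (F := fun z => Real.log ‖z - z₀‖)
    (Continuous.measurable (by fun_prop)).log ⟨_, Metric.ball_mem_nhds _ one_pos, h2⟩

theorem ag2_loc {f : ℂ → ℂ} (hf : Hol f) (h : ∀ z : ℂ, 0 < z.im → f z = 0 → deriv f z ≠ 0) :
    LocallyIntegrable (fun z : ℍ => Real.log ‖f z‖) volume := fun z₀ => by
  have hm : Measurable fun z : ℍ => Real.log ‖f z‖ := hf.continuous_coe.norm.measurable.log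
  have key : ∀ g : ℂ → ℂ, ContinuousAt g z₀ → g z₀ ≠ 0 →
      ∃ C, ∀ᶠ z : ℍ in 𝓝 z₀, |Real.log ‖g z‖| ≤ C := fun g hg h0 =>
    ⟨_, ((hg.comp UpperHalfPlane.continuous_coe.continuousAt).norm.log
      (norm_ne_zero_iff.mpr h0)).abs.eventually (eventually_le_nhds (lt_add_one _))⟩
  obtain ⟨C, hC⟩ : ∃ C, ∀ᶠ z : ℍ in 𝓝 z₀, |Real.log ‖f z‖| ≤ C + |Real.log ‖(z : ℂ) - z₀‖| := by
    by_cases h0 : f z₀ = 0
    · obtain ⟨C, hC⟩ := key (dslope f z₀) (continuousAt_dslope_same.mpr (hf _ z₀.im_pos))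
        (by simpa using h _ z₀.im_pos h0)
      refine ⟨C, hC.mono fun z hz => ?_⟩
      have h1 := sub_smul_dslope f (z₀ : ℂ) z
      rw [h0, sub_zero, smul_eq_mul] at h1
      by_cases h2 : f z = 0
      · simpa [h2] using add_nonneg ((abs_nonneg _).trans hz) (abs_nonneg _)
      rw [← h1] at h2 ⊢
      rw [norm_mul, Real.log_mul (norm_ne_zero_iff.mpr (left_ne_zero_of_mul h2))
        (norm_ne_zero_iff.mpr (right_ne_zero_of_mul h2))]
      linarith [abs_add_le (Real.log ‖(z : ℂ) - z₀‖) (Real.log ‖dslope f z₀ z‖)]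
    · obtain ⟨C, hC⟩ := key f (hf _ z₀.im_pos).continuousAt h0
      exact ⟨C, hC.mono fun z hz => hz.trans (le_add_of_nonneg_right (abs_nonneg _))⟩
  obtain ⟨s, hs, h1⟩ := ag2_at z₀
  obtain ⟨r, hr, h2⟩ := Metric.eventually_nhds_iff_ball.mp (hC.and hs)
  exact ⟨Metric.ball z₀ r, Metric.ball_mem_nhds _ hr, Integrable.mono' (Integrable.add
    (integrableOn_const (C := C) measure_ball_lt_top.ne) (h1.mono_set fun z hz => (h2 z hz).2).abs)
    hm.aestronglyMeasurable (ae_restrict_of_forall_mem measurableSet_ball fun z hz => (h2 z hz).1)⟩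

variable {Y : Crv} {ζ : ℂ} {w : ℍ}

theorem Crv.Ok.lam0_ae (h : Y.Ok) (hζ : ζ ^ Y.u = 1) (w : ℍ) :
    Y.lam0 ζ w =ᵐ[volume] fun z : ℍ => lamL Y.L (ζ * Y.φ z - Y.φ w) := by
  have k : ∀ᵐ z : ℍ, ∀ g : SL(2, ℤ), z ≠ g • w := ae_all_iff.mpr fun g => by
    have : volume ({g • w} : Set ℍ) = 0 := by
      rw [volume_eq_lintegral, image_singleton]
      simp
    simpa [ae_iff] using this
  filter_upwards [k] with z hz
  exact if_neg fun e => ((h.mem_iff' hζ z w).1 e).elim fun g k => hz g k.2.2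

theorem Crv.Ok.lam0_smul (h : Y.Ok) (hζ : ζ ^ Y.u = 1) (w : ℍ) {g : SL(2, ℤ)}
    (hg : g ∈ Gamma0 Y.N) (z : ℍ) : Y.lam0 ζ w (g • z) = Y.lam0 (ζ * Y.ξ g) w z := by
  have h3 := h.rot ζ hζ _ (h.law g hg z)
  have e : ζ * Y.φ (g • z : ℍ) - Y.φ w =
      ζ * Y.ξ g * Y.φ z - Y.φ w + ζ * (Y.φ (g • z : ℍ) - Y.ξ g * Y.φ z) := by ring
  rw [Crv.lam0, Crv.lam0, e]
  by_cases h4 : ζ * Y.ξ g * Y.φ z - Y.φ w ∈ Y.L.lattice
  · rw [if_pos h4, if_pos (add_mem h4 h3)]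
  · rw [if_neg h4, if_neg fun h5 => h4 ((add_mem_cancel_right h3).mp h5), lamL_add h3 _ h4]

theorem Crv.Ok.tame (h : Y.Ok) (hw : Free Y.N w) (hζ : ζ ^ Y.u = 1) {n : ℕ} (hn : Y.N ∣ n)
    (hk : ∀ g ∈ CongruenceSubgroup.Gamma n, Y.ξ g = 1) :
    Tame (CongruenceSubgroup.Gamma n) (Y.lam0 ζ w) := by
  have c0 := h.hol_φ.continuous_coe
  have c1 : Continuous fun z : ℍ => ζ * Y.φ z - Y.φ w := by fun_prop
  refine ⟨Measurable.ite (c1.measurable Y.L.isClosed_lattice.measurableSet) measurable_const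
    ((measurable_lamL _).comp c1.measurable), fun γ hγ z => ?_, ?_, fun g => ?_⟩
  · rw [h.lam0_smul hζ w (Gamma0_mem.2 ((ZMod.intCast_zmod_eq_zero_iff_dvd _ _).2
      ((Int.natCast_dvd_natCast.2 hn).trans ((ZMod.intCast_zmod_eq_zero_iff_dvd _ _).1
        (Gamma_mem.1 hγ).2.2.1)))), hk γ hγ, mul_one]
  · exact ((ag2_loc (h.hol_sig ζ _) (h.deriv_sig_ne hw hζ)).sub
      (Continuous.locallyIntegrable (f := fun z : ℍ => ((ζ * Y.φ z - Y.φ w) *
        Shared.Weier.eta Y.L (ζ * Y.φ z - Y.φ w)).re / 2) (by fun_prop))).congr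
      (h.lam0_ae hζ w).symm
  · obtain ⟨c, h1, h2⟩ := h.cusp' g
    have h3 := (h1.const_mul ζ).sub_const (Y.φ w)
    have h4 : Tendsto (fun z : ℍ => Y.lam0 ζ w (g • z)) atImInfty (𝓝 (lamL Y.L (ζ * c - Y.φ w))) :=
      ((continuousAt_lamL (h2 ζ hζ w)).tendsto.comp h3).congr' ((h3.eventually
        (Y.L.isClosed_lattice.isOpen_compl.mem_nhds (h2 ζ hζ w))).mono fun z hz =>
          (if_neg hz).symm)
    obtain ⟨B, hB⟩ := (atImInfty_mem _).1 (h4.abs.eventually (eventually_le_nhds (lt_add_one _)))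
    exact ⟨B, _, fun z _ hz => hB z hz⟩

theorem Crv.Ok.integrable_lam0 (h : Y.Ok) (hw : Free Y.N w) (hζ : ζ ^ Y.u = 1) {ε : ℝ}
    (hε : 0 < ε) (z : ℍ) : Integrable fun v => akr ε z v * Y.lam0 ζ w v := by
  obtain ⟨n, h1, h2, h3⟩ := h.lev.ker
  have : NeZero n := ⟨h1.ne'⟩
  exact (h.tame hw hζ h2 h3).integrable hε z

theorem Crv.Ok.tendsto_avg (h : Y.Ok) (hw : Free Y.N w) (c : ℂ → ℝ)
    (hc : ∑ ζ ∈ mu Y.u, c ζ = 0) (z : ℍ) :
    Tendsto (fun ε => ∑ ζ ∈ mu Y.u, c ζ * avg ε (Y.lam0 ζ w) z) (𝓝[>] 0) (𝓝 0) := by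
  obtain ⟨n, h1, h2, h3⟩ := h.lev.ker
  have : NeZero n := ⟨h1.ne'⟩
  choose! g k1 k2 using h.onto
  refine ((h.tame hw (one_pow _) h2 h3).tendsto_sum _ c (fun ζ => g ζ • z) hc).congr fun ε =>
    Finset.sum_congr rfl fun ζ hζ => congrArg (c ζ * ·) ?_
  rw [mem_mu h.upos] at hζ
  refine (avg_smul ε _ (g ζ) z).trans (congrArg (avg ε · z) (funext fun v => ?_))
  exact (h.lam0_smul (one_pow _) w (k1 ζ hζ) v).trans (by rw [k2 ζ hζ, one_mul])

end Pool.Agent.Lib.MP_696deb_nt.Y2.An
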