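import Pool.Agent.Lib.MP_696deb_nt.Y2.AP4

/-! A residue computation on horocycles. -/

set_option autoImplicit false

open Complex Filter Topology Set MeasureTheory CongruenceSubgroup
open UpperHalfPlane hiding I
open scoped Real MatrixGroups ComplexConjugate Modular Classical
open Pool.Agent.Shared.Weier Pool.Agent.Dih

namespace Pool.Agent.Lib.MP_696deb_nt.Y2.An

variable {Y : Crv}

theorem ap4b_fibre {N : ℕ} {w : ℍ} (hw : w ∈ XN N) (t : ℍ → ℂ) (S : Finset ℍ)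
    (hS : ∀ z ∈ S, ∃ g ∈ Gamma0 N, z = g • w) :
    HasSum (fun γ : Gamma0 N => if (γ : SL(2, ℤ)) • w ∈ S then t ((γ : SL(2, ℤ)) • w) else 0)
      (2 * ∑ z ∈ S, t z) := by
  have h1 : ∀ z ∈ S, HasSum (fun γ : Gamma0 N => if (γ : SL(2, ℤ)) • w = z then t z else 0)
      (2 * t z) := fun z hz => by
    obtain ⟨g, hg, rfl⟩ := hS z hz
    have h4 : (⟨g, hg⟩ : Gamma0 N) ≠ ⟨-g, neg_mem hg⟩ := fun e => by
      have e1 : g = -g := congrArg Subtype.val e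
      have e2 : (1 : SL(2, ℤ)) = -1 := mul_left_cancel (a := g) (by simpa using e1)
      simpa using congrArg (fun γ : SL(2, ℤ) => γ 0 0) e2
    have h5 := hasSum_sum_of_ne_finset_zero (s := {⟨g, hg⟩, ⟨-g, neg_mem hg⟩})
      (f := fun γ : Gamma0 N => if (γ : SL(2, ℤ)) • w = g • w then t (g • w) else 0)
      (L := .unconditional _) fun γ hγ => by
        refine if_neg fun h6 => hγ ?_
        rw [← inv_smul_eq_iff, ← mul_smul] at h6
        rw [Finset.mem_insert, Finset.mem_singleton]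
        refine (stab_XN hw h6).imp (fun e => Subtype.ext ?_) fun e => Subtype.ext ?_
        · exact (inv_mul_eq_one.mp e).symm
        · simpa using inv_mul_eq_iff_eq_mul.mp e
    rwa [Finset.sum_pair h4, if_pos rfl, if_pos (ModularGroup.SL_neg_smul g w), ← two_mul] at h5
  rw [Finset.mul_sum]
  convert hasSum_sum h1 using 2 with γ
  rw [Finset.sum_ite_eq]

/-- Counting the points of an orbit in a wide strip. -/
theorem tsum_wide {N k : ℕ} {w : ℍ} (hw : w ∈ XN N) {y : ℝ} {t : ℍ → ℂ}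
    (ht : ∀ z : ℍ, t (ModularGroup.T • z) = t z) (S : Finset ℍ)
    (hS : ∀ z : ℍ, z ∈ S ↔ (0 ≤ z.re ∧ z.re < k ∧ y < z.im) ∧ ∃ g ∈ Gamma0 N, z = g • w) :
    k * (∑' γ : Gamma0 N, if (γ : SL(2, ℤ)) • w ∈ Str ∧ y < ((γ : SL(2, ℤ)) • w).im then
      t ((γ : SL(2, ℤ)) • w) else 0) = 2 * ∑ z ∈ S, t z := by
  rcases k.eq_zero_or_pos with rfl | hk
  · rw [Finset.eq_empty_of_forall_notMem (s := S) fun z hz =>
      ((hS z).1 hz).1.1.not_gt (by simpa using ((hS z).1 hz).1.2.1)]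
    simp
  have k1 : (1 : ℝ) ≤ k := by exact_mod_cast hk
  have h0 : ∀ z : ℍ, z ∈ S.filter (fun z => z.re < 1) ↔
      (z ∈ Str ∧ y < z.im) ∧ ∃ g ∈ Gamma0 N, z = g • w := fun z => by
    rw [Finset.mem_filter, hS]
    exact ⟨fun h => ⟨⟨⟨h.1.1.1, h.2⟩, h.1.1.2.2⟩, h.1.2⟩,
      fun h => ⟨⟨⟨h.1.1.1, h.1.1.2.trans_le k1, h.1.2⟩, h.2⟩, h.1.1.2⟩⟩
  have h1 := (ap4b_fibre hw t _ fun z hz => ((h0 z).1 hz).2).tsum_eq
  have hT : ∀ (j : ℕ) (z : ℍ), t (ModularGroup.T ^ (j : ℤ) • z) = t z := fun j z => by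
    induction j with
    | zero => simp
    | succ j ih => rw [zpow_natCast, pow_succ', mul_smul, ht, ← zpow_natCast, ih]
  have hm : ∀ (j : ℤ) (z : ℍ), (∃ g ∈ Gamma0 N, z = g • w) →
      ∃ g ∈ Gamma0 N, ModularGroup.T ^ j • z = g • w := by
    rintro j _ ⟨g, hg, rfl⟩
    exact ⟨_, mul_mem (T_mem N j) hg, (mul_smul _ _ _).symm⟩
  rw [tsum_congr fun γ : Gamma0 N => if_congr (P := (γ : SL(2, ℤ)) • w ∈ Str ∧
    y < ((γ : SL(2, ℤ)) • w).im) ⟨fun h => (h0 _).2 ⟨h, γ, γ.2, rfl⟩, fun h => ((h0 _).1 h).1⟩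
    rfl rfl, h1, mul_left_comm, ← nsmul_eq_mul, ← Finset.card_range k, ← Finset.sum_const,
    ← Finset.sum_product']
  congr 1
  refine Finset.sum_bij (fun p _ => ModularGroup.T ^ (p.1 : ℤ) • p.2) (fun p hp => ?_)
    (fun p hp q hq e => ?_) (fun z hz => ?_) fun p _ => (hT _ _).symm
  · obtain ⟨a1, a2⟩ := Finset.mem_product.1 hp
    obtain ⟨⟨⟨b1, b2⟩, b3⟩, b4⟩ := (h0 _).1 a2
    have a3 : (p.1 : ℝ) + 1 ≤ k := by exact_mod_cast Finset.mem_range.1 a1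
    rw [hS, ModularGroup.re_T_zpow_smul, ModularGroup.im_T_zpow_smul, Int.cast_natCast]
    exact ⟨⟨by positivity, by linarith, b3⟩, hm _ _ b4⟩
  · obtain ⟨b1, b2⟩ := ((h0 _).1 (Finset.mem_product.1 hp).2).1.1
    obtain ⟨c1, c2⟩ := ((h0 _).1 (Finset.mem_product.1 hq).2).1.1
    have e1 := congrArg UpperHalfPlane.re e
    simp only [ModularGroup.re_T_zpow_smul, Int.cast_natCast] at e1
    have e2 : p.1 < q.1 + 1 := by exact_mod_cast (by linarith : (p.1 : ℝ) < q.1 + 1)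
    have e3 : q.1 < p.1 + 1 := by exact_mod_cast (by linarith : (q.1 : ℝ) < p.1 + 1)
    have e4 : p.1 = q.1 := by omega
    exact Prod.ext e4 (smul_left_cancel _ (e4 ▸ e))
  · obtain ⟨⟨b1, b2, b3⟩, b4⟩ := (hS z).1 hz
    refine ⟨(⌊z.re⌋₊, ModularGroup.T ^ (-(⌊z.re⌋₊ : ℤ)) • z), Finset.mem_product.2
      ⟨Finset.mem_range.2 ((Nat.floor_lt b1).2 b2), (h0 _).2 ⟨⟨⟨?_, ?_⟩, ?_⟩, hm _ _ b4⟩⟩, ?_⟩
    · rw [ModularGroup.re_T_zpow_smul, Int.cast_neg, Int.cast_natCast]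
      linarith [Nat.floor_le b1]
    · rw [ModularGroup.re_T_zpow_smul, Int.cast_neg, Int.cast_natCast]
      linarith [Nat.lt_floor_add_one z.re]
    · rwa [ModularGroup.im_T_zpow_smul]
    · rw [zpow_neg, smul_inv_smul]

theorem Crv.Ok.res_horo (h : Y.Ok) {α : ℂ} {β : ℝ}
    (hη : ∀ v, Shared.Weier.eta Y.L v = α * v + β * conj v) {m : ℕ} (hm : 0 < m)
    (hT : q1 (m / Y.h) = Y.ξ ModularGroup.T) {y : ℝ} (hy : 0 < y) {w : ℍ} (hw : w ∈ XN Y.N)
    (hf : Y.f w ≠ 0) (hne : ∀ g : SL(2, ℤ), (g • w).im ≠ y) :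
    2 * ∫ x in (0 : ℝ)..1, Y.Zs (Y.φ (x + y * I)) (Y.φ w) * q1 (m * (x + y * I) / Y.h) =
      Y.h / Y.ρ * (∑' γ : Gamma0 Y.N,
        if (γ : SL(2, ℤ)) • w ∈ Str ∧ y < ((γ : SL(2, ℤ)) • w).im then
          q1 (m * ((γ : SL(2, ℤ)) • w : ℍ) / Y.h) / Y.f ((γ : SL(2, ℤ)) • w : ℍ) else 0) -
      2 * (Y.u * β * conj (Y.ρ * Y.a m) / m * Real.exp (-4 * π * m * y / Y.h)) := by
  have hu := h.upos
  have hh : (Y.h : ℂ) ≠ 0 := Nat.cast_ne_zero.2 h.lev.hpos.ne'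
  have mT : ModularGroup.T ∈ Gamma0 Y.N := by simpa only [zpow_one] using T_mem Y.N 1
  have cT : ∀ z : ℍ, ((ModularGroup.T • z : ℍ) : ℂ) = z + 1 := fun z => by
    simpa only [zpow_one, Int.cast_one] using coe_T 1 z
  have jT : ∀ z : ℂ, jac ModularGroup.T z = 1 := fun z => by simpa using jac_T 1 z
  have qT : ∀ z : ℂ, q1 (m * (z + 1) / Y.h) = q1 (m * z / Y.h) * Y.ξ ModularGroup.T := fun z => by
    rw [← hT, ← q1_add, mul_add, mul_one, add_div]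
  have nT := h.lev.mul_conj mT
  choose! S h1 h2 h3 using fun ζ (k : ζ ∈ mu Y.u) =>
    h.res_one hη hm hy hf hne ((mem_mu hu).1 k)
  have hq : Continuous fun x : ℝ => q1 (m * (x + y * I) / Y.h) := by unfold q1; fun_prop
  have hd : (mu Y.u : Set ℂ).PairwiseDisjoint S := fun ζ k ζ' k' n =>
    Finset.disjoint_left.2 fun z a b => n <| by
      obtain ⟨g, hg, rfl, rfl⟩ := (h.mem_iff ((mem_mu hu).1 k) _ _).1 ((h1 ζ k z).1 a).2
      obtain ⟨g', hg', rfl, e⟩ := (h.mem_iff ((mem_mu hu).1 k') _ _).1 ((h1 ζ' k' _).1 b).2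
      rw [← inv_smul_eq_iff, ← mul_smul] at e
      rcases stab_XN hw e with e | e
      · rw [inv_mul_eq_one.1 e]
      · rw [inv_mul_eq_iff_eq_mul.1 e, mul_neg, mul_one, h.lev.neg' hg']
  have h4 := tsum_wide (k := Y.h) hw (y := y) (t := fun z => q1 (m * z / Y.h) / Y.f z)
    (fun z => by
      rw [h.cf.law _ mT, cT, qT, jT, one_pow, mul_one, mul_comm,
        mul_div_mul_left _ _ (left_ne_zero_of_mul_eq_one nT)])
    ((mu Y.u).biUnion S) fun z => by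
      rw [Finset.mem_biUnion]
      constructor
      · rintro ⟨ζ, k, a⟩
        obtain ⟨g, hg, -, e⟩ := (h.mem_iff ((mem_mu hu).1 k) _ _).1 ((h1 ζ k z).1 a).2
        exact ⟨((h1 ζ k z).1 a).1, g, hg, e⟩
      · rintro ⟨a, g, hg, e⟩
        have k := (mem_mu hu).2 (h.pow g hg)
        exact ⟨_, k, (h1 _ k z).2 ⟨a, (h.mem_iff (h.pow g hg) _ _).2 ⟨g, hg, rfl, e⟩⟩⟩
  have h5 := integral_nat_period (F := fun x : ℝ =>
    Y.Zs (Y.φ (x + y * I)) (Y.φ w) * q1 (m * (x + y * I) / Y.h)) (fun x => by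
      have e := h.Zs_left mT (z := ⟨x + y * I, by simpa using hy⟩) (w := w) fun γ _ e =>
        hne γ (by rw [← e]; simp [UpperHalfPlane.im])
      rw [cT] at e
      rw [show ((x + 1 : ℝ) : ℂ) + y * I = x + y * I + 1 by push_cast; ring, qT]
      exact (congrArg (· * _) e).trans (by
        linear_combination Y.Zs (Y.φ (x + y * I)) (Y.φ w) * q1 (m * (x + y * I) / Y.h) * nT))
    (((continuous_finsetSum _ h2).mul hq).intervalIntegrable _ _) Y.h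
  simp only [Crv.Zs, Finset.sum_mul] at h5
  rw [intervalIntegral.integral_finsetSum fun ζ k => ((h2 ζ k).fun_mul hq).intervalIntegrable _ _,
    Finset.sum_congr rfl h3, ← Finset.mul_sum, Finset.sum_sub_distrib, Finset.sum_const,
    card_mu hu, ← Finset.sum_biUnion hd] at h5
  simp only [Crv.Zs, Finset.sum_mul]
  rw [← mul_left_cancel₀ hh h5, div_mul_eq_mul_div (Y.h : ℂ), h4, mul_div_assoc (2 : ℂ),
    Finset.sum_div, ← mul_sub]
  congr 2
  · exact Finset.sum_congr rfl fun z _ => by rw [div_div, mul_comm (Y.f z)]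
  · rw [nsmul_eq_mul]
    ring

end Pool.Agent.Lib.MP_696deb_nt.Y2.An
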