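import Pool.Agent.Lib.MP_696deb_nt.Y2.AP3
import Pool.Agent.Lib.MP_696deb_nt.Y2.AP4b
import Pool.Agent.Lib.MP_60ff09_nt.Dih.ANo

/-! The Cauchy transform. -/

set_option autoImplicit false

open Complex Filter Topology Set MeasureTheory CongruenceSubgroup
open UpperHalfPlane hiding I
open scoped Real MatrixGroups ComplexConjugate Modular Classical
open Pool.Agent.Shared.Weier Pool.Agent.Dih

namespace Pool.Agent.Lib.MP_696deb_nt.Y2.An

variable {Y : Crv} {Φ : ℂ → ℂ}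

/-- The Cauchy transform. -/
noncomputable def Crv.cau (Y : Crv) (Φ : ℂ → ℂ) (z : ℂ) : ℂ :=
  ∫ w in XN Y.N, Y.Zs (Y.φ z) (Y.φ w) * (conj (Φ w) * Y.f w * (w.im : ℂ) ^ 2)

/-- The density of the pairing with the form of the curve. -/
noncomputable def ap6G (Y : Crv) (Φ : ℂ → ℂ) (w : ℍ) : ℂ := conj (Φ w) * Y.f w * (w.im : ℂ) ^ 2

theorem ap6_norm (Y : Crv) (Φ : ℂ → ℂ) (z : ℍ) :
    ‖ap6G Y Φ z‖ = (‖Y.f z‖ * z.im) * (‖Φ z‖ * z.im) := by
  rw [ap6G, norm_mul, norm_mul, norm_pow, norm_conj, norm_real, Real.norm_of_nonneg z.im_pos.le]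
  ring

theorem ap6G_meas (h : Y.Ok) (hΦ : Y.toLev.Dec Φ) : Measurable (ap6G Y Φ) :=
  ((continuous_conj.measurable.comp hΦ.meas).mul (ano_cont h.cf.hol).measurable).mul
    ((continuous_ofReal.comp UpperHalfPlane.continuous_im).pow 2).measurable

theorem ap6G_int (h : Y.Ok) (hΦ : Y.toLev.Dec Φ) : IntegrableOn (ap6G Y Φ) (XN Y.N) := by
  obtain ⟨C, hC⟩ := hΦ.bd
  obtain ⟨D, hD⟩ := h.cf.bd
  refine Measure.integrableOn_of_bounded (M := D * C) (volume_XN_lt h.lev.Npos).ne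
    (ap6G_meas h hΦ).aestronglyMeasurable (ae_of_all _ fun z => ?_)
  have := z.im_pos
  rw [ap6_norm]
  exact mul_le_mul (hD z) (hC z) (by positivity) ((by positivity : _ ≤ _).trans (hD z))

theorem ap6_ker (h : Y.Ok) (hΦ : Y.toLev.Dec Φ) {X : Type} [MeasurableSpace X] {u : X → ℂ}
    (hu : Measurable u) : Measurable fun v : X × ℍ => Y.Zs (u v.1) (Y.φ v.2) * ap6G Y Φ v.2 :=
  (Y.measurable_Zs.comp ((hu.comp measurable_fst).prodMk
    ((ano_cont h.hol_φ).measurable.comp measurable_snd))).mul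
    ((ap6G_meas h hΦ).comp measurable_snd)

theorem Crv.Ok.lintegral_Zs (h : Y.Ok) (hΦ : Y.toLev.Dec Φ) : ∃ C : ℝ, ∀ v : ℂ,
    ∫⁻ z in XN Y.N, ‖Y.Zs v (Y.φ z) * (conj (Φ z) * Y.f z * (z.im : ℂ) ^ 2)‖ₑ ≤
      ENNReal.ofReal C := by
  obtain ⟨s, s0, hK⟩ := hΦ.lintegral_neg h.lev h.cf h.exists_ne
  obtain ⟨B, hB⟩ := h.lintegral_ZL (r := (2 + s) / (1 + s)) (by positivity)
    (by rw [div_lt_iff₀ (by positivity)]; linarith)
  have mi := UpperHalfPlane.continuous_im.measurable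
  have mf := (ano_cont h.cf.hol).measurable.norm.mul mi
  have m2 : Measurable fun z : ℍ =>
      ENNReal.ofReal ((‖Φ z‖ * z.im) ^ (2 + s) * (‖Y.f z‖ * z.im) ^ (-s)) :=
    (((hΦ.meas.norm.mul mi).pow_const _).mul (mf.pow_const _)).ennreal_ofReal
  refine ⟨_, fun v => le_trans ?_ (ENNReal.ofReal_toReal (a := ∑ _ζ ∈ mu Y.u,
    (ENNReal.ofReal B + ∫⁻ z in XN Y.N,
      ENNReal.ofReal ((‖Φ z‖ * z.im) ^ (2 + s) * (‖Y.f z‖ * z.im) ^ (-s))))
    (ENNReal.sum_ne_top.2 fun _ _ => ENNReal.add_ne_top.2 ⟨ENNReal.ofReal_ne_top, hK.ne⟩)).ge⟩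
  have m1 : ∀ ζ : ℂ, Measurable fun z : ℍ => ENNReal.ofReal
      (‖ZL Y.L (v - ζ * Y.φ z)‖ ^ ((2 + s) / (1 + s)) * (‖Y.f z‖ * z.im) ^ 2) := fun ζ =>
    ((((measurable_ZL Y.L).comp (((ano_cont h.hol_φ).measurable.const_mul ζ).const_sub
      v)).norm.pow_const _).mul (mf.pow_const 2)).ennreal_ofReal
  refine le_trans ?_ (Finset.sum_le_sum fun ζ hζ =>
    add_le_add (hB ζ ((mem_mu h.upos).1 hζ) v) le_rfl)
  simp only [← lintegral_add_right _ m2]
  refine le_trans (lintegral_mono fun z => ?_)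
    (lintegral_finsetSum _ fun ζ _ => (m1 ζ).fun_add m2).le
  have hz := z.im_pos
  change ‖Y.Zs v (Y.φ z) * ap6G Y Φ z‖ₑ ≤ _
  rw [Crv.Zs, Finset.sum_mul]
  refine (enorm_sum_le _ _).trans (Finset.sum_le_sum fun ζ _ => ?_)
  rw [← ofReal_norm, ← ENNReal.ofReal_add (by positivity) (by positivity), norm_mul, ap6_norm,
    ← mul_assoc]
  exact ENNReal.ofReal_le_ofReal (young_neg (norm_nonneg _) (by positivity) (by positivity) s0)

theorem Crv.Ok.cau_meas (h : Y.Ok) (hΦ : Y.toLev.Dec Φ) :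
    Measurable fun z : ℍ => Y.cau Φ z :=
  (ap6_ker h hΦ (ano_cont h.hol_φ).measurable).stronglyMeasurable.integral_prod_right'.measurable

theorem Crv.Ok.cau_bd (h : Y.Ok) (hΦ : Y.toLev.Dec Φ) : ∃ C : ℝ, ∀ z : ℍ, ‖Y.cau Φ z‖ ≤ C := by
  obtain ⟨C, hC⟩ := h.lintegral_Zs hΦ
  refine ⟨|C|, fun z => ?_⟩
  have := (enorm_integral_le_lintegral_enorm _).trans
    ((hC (Y.φ z)).trans (ENNReal.ofReal_le_ofReal (le_abs_self C)))
  rwa [← ofReal_norm, ENNReal.ofReal_le_ofReal_iff (abs_nonneg C)] at this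

theorem Crv.Ok.cau_law (h : Y.Ok) (Φ : ℂ → ℂ) {g : SL(2, ℤ)} (hg : g ∈ Gamma0 Y.N) (z : ℍ) :
    Y.cau Φ (g • z : ℍ) = conj (Y.ξ g) * Y.cau Φ z := by
  rw [Crv.cau, Crv.cau, ← integral_const_mul]
  refine integral_congr_ae (ae_restrict_of_ae ((ae_im_ne z.im).mono fun w hw => ?_))
  simp only
  rw [h.Zs_left hg fun γ _ e => hw γ (by rw [← e]), mul_assoc]

theorem ap6_q (m k : ℕ) (z : ℂ) : ‖q1 (m * z / k)‖ = Real.exp (-(2 * π * m / k) * z.im) := by
  rw [norm_q1]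
  congr 1
  simp only [div_natCast_im, mul_im, natCast_re, natCast_im, zero_mul, add_zero]
  ring

/-- The truncated integrand on the strip. -/
noncomputable def ap6F (Φ : ℂ → ℂ) (m k : ℕ) (y : ℝ) (z : ℂ) : ℂ :=
  if y < z.im then conj (Φ z) * (z.im : ℂ) ^ 2 * q1 (m * z / k) else 0

theorem ap6F_int {A : Lev} (h : A.Dec Φ) {m k : ℕ} (hm : 0 < m) (hk : 0 < k) {y : ℝ}
    (hy : 0 < y) : IntegrableOn (fun z : ℍ => ap6F Φ m k y z) Str := by
  obtain ⟨C, hC⟩ := h.bd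
  have hC0 : 0 ≤ C := (mul_nonneg (norm_nonneg _) UpperHalfPlane.I.im_pos.le).trans (hC _)
  refine integrableOn_Str (g := fun t => C / y * Real.exp (-(2 * π * m / k) * t) * t ^ 2) ?_ ?_
    fun z _ => ?_
  · exact Measurable.ite (measurableSet_lt measurable_const UpperHalfPlane.continuous_im.measurable)
      (((continuous_conj.measurable.comp h.meas).mul
        ((continuous_ofReal.comp UpperHalfPlane.continuous_im).pow 2).measurable).mul
        (ano_q1.comp ((continuous_const.mul UpperHalfPlane.continuous_coe).div_const _)).measurable)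
      measurable_const
  · refine IntegrableOn.congr_fun (Integrable.const_mul
      (exp_neg_integrableOn_Ioi 0 (by positivity : 0 < 2 * π * m / k)) (C / y)) (fun t ht => ?_)
      measurableSet_Ioi
    exact (mul_div_cancel_right₀ _ (pow_ne_zero 2 (ne_of_gt ht))).symm
  · rw [ap6F]
    split_ifs with k
    · have hz := z.im_pos
      have h1 := hC z
      rw [norm_mul, norm_mul, ap6_q, norm_conj, norm_pow, norm_real, coe_im,
        Real.norm_of_nonneg hz.le, mul_right_comm]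
      refine mul_le_mul_of_nonneg_right (mul_le_mul_of_nonneg_right ?_ (Real.exp_pos _).le)
        (sq_nonneg _)
      rw [le_div_iff₀ hy]
      exact (mul_le_mul_of_nonneg_left (le_of_lt k) (norm_nonneg _)).trans h1
    · rw [norm_zero]
      positivity

theorem ap6F_eq {A : Lev} (h : A.Dec Φ) {m k : ℕ} (hm : 0 < m) (hk : 0 < k) {y : ℝ} (hy : 0 < y) :
    ∫ z in Str, ap6F Φ m k y z =
      ∫ t in Ioi y, ∫ x in (0 : ℝ)..1, conj (Φ (x + t * I)) * q1 (m * (x + t * I) / k) := by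
  rw [(integral_Str (ap6F_int h hm hk hy)).2, ← inter_eq_left.2 (Ioi_subset_Ioi hy.le), inter_comm,
    ← setIntegral_indicator measurableSet_Ioi]
  refine setIntegral_congr_fun measurableSet_Ioi fun t ht => ?_
  have h0 : (t : ℂ) ≠ 0 := ofReal_ne_zero.2 (ne_of_gt ht)
  simp only [ap6F, ano_im, indicator, mem_Ioi]
  split_ifs
  · rw [← intervalIntegral.integral_const_mul]
    refine intervalIntegral.integral_congr fun x _ => ?_
    generalize q1 _ = c
    push_cast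
    field_simp
  · simp

theorem Crv.Ok.cau_horo (h : Y.Ok) (hΦ : Y.toLev.Dec Φ) {α : ℂ} {β : ℝ}
    (hη : ∀ v, Shared.Weier.eta Y.L v = α * v + β * conj v) {m : ℕ} (hm : 0 < m)
    (hT : q1 (m / Y.h) = Y.ξ ModularGroup.T) {y : ℝ} (hy : 0 < y) :
    ∫ x in (0 : ℝ)..1, Y.cau Φ (x + y * I) * q1 (m * (x + y * I) / Y.h) =
      Y.h / Y.ρ * (∫ t in Ioi y, ∫ x in (0 : ℝ)..1,
        conj (Φ (x + t * I)) * q1 (m * (x + t * I) / Y.h)) -
      Y.u * β * conj (Y.ρ * Y.a m) / m * Real.exp (-4 * π * m * y / Y.h) *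
        ∫ w in XN Y.N, conj (Φ w) * Y.f w * (w.im : ℂ) ^ 2 := by
  have hu : Continuous fun x : ℝ => Y.φ (x + y * I) := continuous_iff_continuousAt.2 fun x =>
    (h.hol_φ _ (by rwa [ano_im])).continuousAt.comp (f := fun x : ℝ => (x : ℂ) + y * I)
      (by fun_prop)
  have hq : Continuous fun x : ℝ => q1 (m * (x + y * I) / Y.h) := ano_q1.comp (by fun_prop)
  obtain ⟨C, hC⟩ := h.lintegral_Zs hΦ
  have hI : Integrable (Function.uncurry fun (x : ℝ) (w : ℍ) =>
      Y.Zs (Y.φ (x + y * I)) (Y.φ w) * ap6G Y Φ w * q1 (m * (x + y * I) / Y.h))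
      ((volume.restrict (uIoc 0 1)).prod (volume.restrict (XN Y.N))) := by
    have hk : Measurable (Function.uncurry fun (x : ℝ) (w : ℍ) =>
        Y.Zs (Y.φ (x + y * I)) (Y.φ w) * ap6G Y Φ w * q1 (m * (x + y * I) / Y.h)) :=
      (ap6_ker h hΦ hu.measurable).mul (hq.measurable.comp measurable_fst)
    refine ⟨hk.aestronglyMeasurable, ?_⟩
    rw [hasFiniteIntegral_iff_enorm, lintegral_prod _ hk.enorm.aemeasurable]
    refine (lintegral_mono (g := fun _ => ENNReal.ofReal C) fun x : ℝ =>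
      (lintegral_mono fun w => ?_).trans (hC (Y.φ (x + y * I)))).trans_lt ?_
    swap
    · simp
    refine enorm_le_iff_norm_le.2 ((norm_mul _ _).trans_le (mul_le_of_le_one_right
      (norm_nonneg _) ?_))
    rw [ap6_q, ano_im, Real.exp_le_one_iff]
    exact mul_nonpos_of_nonpos_of_nonneg (neg_nonpos.2 (by positivity)) hy.le
  have hA := hI.integral_prod_right
  have hh : Integrable (Str.indicator fun z : ℍ => ap6F Φ m Y.h y z) :=
    (integrable_indicator_iff measurableSet_Str).2 (ap6F_int hΦ hm h.lev.hpos hy)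
  have h1 := congrArg (Y.h / Y.ρ * ·) (integral_unfoldN (N := Y.N) hh).2.2.2
  rw [integral_indicator measurableSet_Str, ap6F_eq hΦ hm h.lev.hpos hy,
    ← integral_const_mul] at h1
  have h2 : ∫ x in (0 : ℝ)..1, Y.cau Φ (x + y * I) * q1 (m * (x + y * I) / Y.h) = ∫ w in XN Y.N,
      ∫ x in (0 : ℝ)..1,
        Y.Zs (Y.φ (x + y * I)) (Y.φ w) * ap6G Y Φ w * q1 (m * (x + y * I) / Y.h) := by
    rw [← intervalIntegral_integral_swap hI]
    exact intervalIntegral.integral_congr fun x _ => (integral_mul_const _ _).symm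
  set c : ℂ := Y.u * β * conj (Y.ρ * Y.a m) / m * Real.exp (-4 * π * m * y / Y.h)
  have hA' : IntegrableOn (fun w : ℍ => ∫ x in (0 : ℝ)..1,
      Y.Zs (Y.φ (x + y * I)) (Y.φ w) * ap6G Y Φ w * q1 (m * (x + y * I) / Y.h)) (XN Y.N) := by
    simpa only [IntegrableOn, Function.uncurry, uIoc_of_le zero_le_one,
      intervalIntegral.integral_of_le zero_le_one] using hA
  have h3 : ∫ w in XN Y.N, Y.h / Y.ρ * ∑' γ : Gamma0 Y.N,
      Str.indicator (fun z : ℍ => ap6F Φ m Y.h y z) ((γ : SL(2, ℤ)) • w) =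
      ∫ w in XN Y.N, 2 * ((∫ x in (0 : ℝ)..1, Y.Zs (Y.φ (x + y * I)) (Y.φ w) * ap6G Y Φ w *
        q1 (m * (x + y * I) / Y.h)) + c * ap6G Y Φ w) := by
    refine integral_congr_ae ?_
    filter_upwards [ae_restrict_of_ae (ae_im_ne y), ae_restrict_mem (measurableSet_XN Y.N),
      ae_restrict_of_ae h.ae_ne] with w k1 k2 k0
    have k := eq_sub_iff_add_eq.1 (h.res_horo hη hm hT hy k2 k0 k1)
    simp only [mul_right_comm _ (ap6G Y Φ w)]
    rw [intervalIntegral.integral_mul_const, ← add_mul, ← mul_assoc, mul_add, k, mul_assoc,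
      ← tsum_mul_right]
    refine congrArg _ (tsum_congr fun γ => ?_)
    have := h.f_smul_ne k0 γ.2
    rw [ap6G, ← Lev.Law.pair h.lev hΦ.law h.cf.law γ.2 w]
    generalize (γ : SL(2, ℤ)) • w = z at this ⊢
    by_cases k3 : z ∈ Str <;> by_cases k4 : y < z.im <;> simp [ap6F, k3, k4]
    generalize q1 _ = c
    field_simp
  rw [h3, integral_const_mul, integral_add hA' ((ap6G_int h hΦ).const_mul c), integral_const_mul,
    ← h2, mul_left_comm] at h1
  exact eq_sub_of_add_eq (mul_left_cancel₀ two_ne_zero h1)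

end Pool.Agent.Lib.MP_696deb_nt.Y2.An
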