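import Pool.Agent.Lib.MP_696deb_nt.Y2.AP5
import Pool.Agent.Lib.MP_696deb_nt.Y2.AP6

/-! Holomorphic projection in weight two. -/

set_option autoImplicit false

open Complex Filter Topology Set MeasureTheory CongruenceSubgroup
open UpperHalfPlane hiding I
open scoped Real MatrixGroups ComplexConjugate Modular Classical
open Pool.Agent.Shared.Weier Pool.Agent.Dih

namespace Pool.Agent.Lib.MP_696deb_nt.Y2.An

theorem ap7_norm (τ : ℝ) (z : ℂ) : ‖q1 (τ * z)‖ = Real.exp (-(2 * π * τ) * z.im) := by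
  rw [norm_q1]
  congr 1
  simp only [mul_im, ofReal_re, ofReal_im, zero_mul, add_zero]
  ring

theorem ap7_phi {A : Lev} {Φ : ℂ → ℂ} (h : A.Dec Φ) {τ : ℝ} (hτ : 0 < τ) {ε : ℝ} (hε : 0 < ε) :
    IntegrableOn (fun t : ℝ => ((t ^ ε : ℝ) : ℂ) *
      ∫ x in (0 : ℝ)..1, conj (Φ (x + t * I)) * q1 (τ * (x + t * I))) (Ioi 0) := by
  obtain ⟨C, hC⟩ := h.bd
  refine IntegrableOn.congr_fun (integral_Str (F := fun z =>
    ((z.im ^ ε * z.im ^ 2 : ℝ) : ℂ) * (conj (Φ z) * q1 (τ * z))) (integrableOn_Str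
      (g := fun t => C * (t ^ (ε - 1) * Real.exp (-(2 * π * τ) * t ^ (1 : ℝ))) * t ^ 2) ?_ ?_
        fun z _ => ?_)).1 (fun t ht => ?_) measurableSet_Ioi
  · have := UpperHalfPlane.continuous_im.measurable
    exact (measurable_ofReal.comp ((this.pow_const ε).mul (this.pow_const 2))).mul
      ((continuous_conj.measurable.comp h.meas).mul
        (ano_q1.comp (continuous_const.mul UpperHalfPlane.continuous_coe)).measurable)
  · refine IntegrableOn.congr_fun (Integrable.const_mul (integrableOn_rpow_mul_exp_neg_mul_rpow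
      (by linarith : -1 < ε - 1) one_pos (by positivity : 0 < 2 * π * τ)) C) (fun t ht => ?_)
      measurableSet_Ioi
    exact (mul_div_cancel_right₀ _ (pow_ne_zero 2 (ne_of_gt ht))).symm
  · have hz := z.im_pos
    rw [norm_mul, norm_mul, ap7_norm, norm_conj, norm_real, coe_im, Real.rpow_one,
      Real.norm_of_nonneg (by positivity), Real.rpow_sub_one hz.ne']
    calc _ = ‖Φ z‖ * z.im * (z.im ^ ε / z.im * Real.exp (-(2 * π * τ) * z.im)) * z.im ^ 2 := by
          field_simp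
      _ ≤ _ := by gcongr; exact hC z
  · have h0 : (t : ℂ) ≠ 0 := ofReal_ne_zero.2 (ne_of_gt ht)
    simp only [ano_im]
    rw [intervalIntegral.integral_const_mul, ← mul_assoc]
    congr 1
    push_cast
    field_simp

theorem Crv.Ok.proj {Y : Crv} (h : Y.Ok) : ProjStmt Y.toLev Y.f Y.a := by
  obtain ⟨α, β, hβ, hη⟩ := exists_eta_eq Y.L
  have hh : (0 : ℝ) < Y.h := Nat.cast_pos.2 h.lev.hpos
  have hu : (0 : ℝ) < Y.u := Nat.cast_pos.2 (two_pos.trans_le h.two)
  have hρ := normSq_pos.2 h.rho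
  refine ⟨Y.u * β * normSq Y.ρ / Y.h, by positivity, fun Φ hΦ m hm hT => ?_⟩
  obtain ⟨C, hC⟩ := h.cau_bd hΦ
  obtain ⟨n, hn, hN, hk⟩ := h.lev.ker
  obtain ⟨τ, hτ⟩ : ∃ τ : ℝ, τ = m / Y.h := ⟨_, rfl⟩
  have τ0 : 0 < τ := by rw [hτ]; positivity
  have τc : (τ : ℂ) = m / Y.h := by rw [hτ]; push_cast; rfl
  have hq : ∀ z : ℂ, m * z / Y.h = τ * z := fun z => by rw [τc]; ring
  have hT' : ModularGroup.T ∈ Gamma0 Y.N := zpow_one ModularGroup.T ▸ T_mem Y.N 1
  have h0 := horo_zeroN (h.cau_meas hΦ) hC hn (fun γ hγ z => by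
    rw [h.cau_law Φ (Gamma0_mem.2 ((ZMod.intCast_zmod_eq_zero_iff_dvd _ _).2
      ((Int.natCast_dvd_natCast.2 hN).trans ((ZMod.intCast_zmod_eq_zero_iff_dvd _ _).1
        (Gamma_mem.1 hγ).2.2.1)))) z, hk γ hγ, map_one, one_mul]) τ0 fun z => by
    have e := coe_T 1 z
    rw [zpow_one, Int.cast_one] at e
    rw [← e, h.cau_law Φ hT', τc, hT, mul_right_comm, mul_comm (conj _), h.lev.mul_conj hT',
      one_mul]
  have hr : 0 < 4 * π * τ := by positivity
  have h1 : Tendsto (fun ε : ℝ => (1 / (4 * π * τ)) ^ ε * Real.Gamma (ε + 1)) (𝓝[>] 0) (𝓝 1) := by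
    have : ContinuousAt (fun ε : ℝ => (1 / (4 * π * τ)) ^ ε * Real.Gamma (ε + 1)) 0 :=
      (Real.continuousAt_const_rpow (by positivity)).mul
        ((Real.differentiableAt_Gamma fun n => by
          have : (0 : ℝ) ≤ n := n.cast_nonneg
          intro k; linarith).continuousAt.comp (f := fun ε : ℝ => ε + 1) (by fun_prop))
    simpa using this.tendsto.mono_left nhdsWithin_le_nhds
  set P := Y.u * β * conj (Y.ρ * Y.a m) / m *
    ∫ w in XN Y.N, conj (Φ w) * Y.f w * (w.im : ℂ) ^ 2 with hP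
  have h2 := (continuous_conj.tendsto _).comp
    ((h0.add (((continuous_ofReal.tendsto 1).comp h1).mul_const P)).const_mul (Y.ρ / Y.h))
  have h3 : conj (Y.ρ / Y.h * (0 + ((1 : ℝ) : ℂ) * P)) =
      ((Y.u * β * normSq Y.ρ / Y.h : ℝ) : ℂ) * Y.a m / m * pet Y.N Y.f Φ := by
    rw [zero_add, ofReal_one, one_mul, hP, ← mul_assoc, map_mul, ← integral_conj, pet]
    congr 1
    · simp only [map_mul, map_div₀, conj_conj, map_natCast, conj_ofReal, ofReal_div, ofReal_mul,
        ofReal_natCast, ← Complex.mul_conj]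
      ring
    · refine integral_congr_ae (ae_of_all _ fun z => ?_)
      simp [mul_comm]
  rw [h3] at h2
  refine h2.congr' (eventually_mem_nhdsWithin.mono fun ε (hε : 0 < ε) => ?_)
  obtain ⟨k1, k2⟩ := ano_abel hε (ap7_phi hΦ τ0 hε)
  have k3 : IntegrableOn (fun y : ℝ => y ^ (ε - 1) * Real.exp (-(4 * π * τ * y))) (Ioi 0) := by
    simpa using integrableOn_rpow_mul_exp_neg_mul_rpow (by linarith : -1 < ε - 1) one_pos hr
  have k4 : ∫ y in Ioi (0 : ℝ), ((ε * y ^ (ε - 1) : ℝ) : ℂ) *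
      ∫ x in (0 : ℝ)..1, Y.cau Φ (x + y * I) * q1 (τ * (x + y * I)) = ∫ y in Ioi (0 : ℝ),
      (Y.h / Y.ρ * (((ε * y ^ (ε - 1) : ℝ) : ℂ) * ∫ t in Ioi y, ∫ x in (0 : ℝ)..1,
        conj (Φ (x + t * I)) * q1 (τ * (x + t * I))) -
        ((ε * (y ^ (ε - 1) * Real.exp (-(4 * π * τ * y))) : ℝ) : ℂ) * P) := by
    refine setIntegral_congr_fun measurableSet_Ioi fun y hy => ?_
    have e := h.cau_horo hΦ hη hm hT hy
    simp only [hq] at e
    rw [e, hP, show -4 * π * m * y / Y.h = -(4 * π * τ * y) by rw [hτ]; ring,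
      ofReal_mul ε (_ * _), ofReal_mul (_ ^ _), ofReal_mul ε]
    ring
  have k5 : Y.ρ / Y.h * (Y.h / Y.ρ) = 1 := by
    have := h.rho
    have : (Y.h : ℂ) ≠ 0 := Nat.cast_ne_zero.2 h.lev.hpos.ne'
    field_simp
  simp only [Function.comp_apply]
  rw [k4, integral_sub (k1.const_mul _) (ano_ofReal (k3.const_mul ε) P), integral_const_mul, k2,
    integral_mul_const, integral_complex_ofReal, integral_const_mul,
    Real.integral_rpow_mul_exp_neg_mul_Ioi hε hr, Real.Gamma_add_one hε.ne', mul_left_comm ε,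
    sub_add_cancel, ← mul_assoc, k5, one_mul, ← integral_conj, reg]
  refine setIntegral_congr_fun measurableSet_Ioi fun y _ => ?_
  simp only [intervalIntegral.integral_of_le zero_le_one]
  rw [map_mul, conj_ofReal, ← integral_conj, ofReal_mul, mul_assoc]
  congr 1
  rw [← integral_const_mul]
  refine integral_congr_ae (ae_of_all _ fun x => ?_)
  simp only
  rw [map_mul, conj_conj, mul_left_comm, hq, q1, q1, ← exp_conj, ofReal_exp, ← exp_add,
    show -2 * π * m * y / Y.h = -2 * π * τ * y by rw [hτ]; ring]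
  congr 2
  simp only [map_mul, map_add, conj_ofReal, conj_I, map_ofNat]
  push_cast
  linear_combination (2 * π * τ * y : ℂ) * I_mul_I

end Pool.Agent.Lib.MP_696deb_nt.Y2.An
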