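import Pool.Agent.Lib.MP_696deb_nt.Y2.M3
import Pool.Agent.Lib.MP_696deb_nt.JInj

/-! The modular invariant and the injectivity of the Hauptmodul. -/

set_option autoImplicit false

open Filter Topology Complex PeriodPair ModularForm PowerSeries Pool.Agent.Shared.Weier
open scoped Real ComplexConjugate

namespace Pool.Agent.Lib.MP_696deb_nt.Y2

open Klein Gal
open QF (G ii ip)
open Pool.Agent.Lib.MP_23455a_nt (lat lat_ω₁ lat_ω₂ mem_lat)

variable {τ z w : ℂ} {a b c d : ℤ}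

namespace J2

/-- The series starts with `1 + a X`. -/
def Low (F : ℂ⟦X⟧) (a : ℤ) : Prop := ∃ R : ℂ⟦X⟧, F = 1 + (a : ℂ⟦X⟧) * X + X ^ 2 * R

theorem Low.mul {F F' : ℂ⟦X⟧} (h : Low F a) (h' : Low F' b) : Low (F * F') (a + b) := by
  obtain ⟨R, rfl⟩ := h
  obtain ⟨R', rfl⟩ := h'
  exact ⟨(a : ℂ⟦X⟧) * (b : ℂ⟦X⟧) + R * (1 + (b : ℂ⟦X⟧) * X + X ^ 2 * R') +
    R' * (1 + (a : ℂ⟦X⟧) * X), by push_cast; ring⟩

theorem Low.pow {F : ℂ⟦X⟧} (h : Low F a) (n : ℕ) : Low (F ^ n) (n * a) := by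
  induction n with
  | zero => exact ⟨0, by simp⟩
  | succ n ih =>
    have := ih.mul h
    rwa [← pow_succ, show (n : ℤ) * a + a = (n + 1 : ℕ) * a by push_cast; ring] at this

theorem Low.add {F F' : ℂ⟦X⟧} (h : Low F a) (h' : Low F' b) (k : ℤ) :
    Low (F + (k : ℂ⟦X⟧) * (X * F')) (a + k) := by
  obtain ⟨R, rfl⟩ := h
  obtain ⟨R', rfl⟩ := h'
  exact ⟨R + (k : ℂ⟦X⟧) * ((b : ℂ⟦X⟧) + X * R'), by push_cast; ring⟩

theorem Low.exp {F : ℂ⟦X⟧} (h : Low F a) : Low (PowerSeries.expand 2 two_ne_zero F) 0 := by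
  obtain ⟨R, rfl⟩ := h
  exact ⟨(a : ℂ⟦X⟧) + X ^ 2 * PowerSeries.expand 2 two_ne_zero R, by
    simp only [map_add, map_mul, map_pow, map_one, map_intCast, expand_X]; push_cast; ring⟩

theorem Low.sub {F F' : ℂ⟦X⟧} (h : Low F a) (h' : Low F' a) : ∃ R, F - F' = X ^ 2 * R := by
  obtain ⟨R, rfl⟩ := h
  obtain ⟨R', rfl⟩ := h'
  exact ⟨R - R', by ring⟩

theorem Low.ne {F : ℂ⟦X⟧} (h : Low F a) : coeff 0 F ≠ 0 := by
  obtain ⟨R, rfl⟩ := h
  simp

theorem low_D : Low (toC P1 ^ 24) (-24) := by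
  obtain ⟨R, hR⟩ := P1_low
  have : Low (toC P1) (-1) := ⟨-1 + X ^ 3 * toC R, by
    rw [hR]; simp only [map_add, map_sub, map_mul, map_pow, map_one, map_X]; push_cast; ring⟩
  simpa using this.pow 24

theorem low_E : Low (toC E4s) 240 := by
  have : (X : ℤ⟦X⟧) ^ 2 ∣ E4s - (1 + C 240 * X) := by
    rw [X_pow_dvd_iff]
    intro m hm
    interval_cases m <;> simp only [map_sub, map_add, coeff_C_mul] <;>
      simp [E4s, coeff_one, coeff_X]
  obtain ⟨R, hR⟩ := this
  refine ⟨toC R, ?_⟩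
  rw [sub_eq_iff_eq_add.mp hR, map_ofNat]
  simp only [map_add, map_mul, map_pow, map_one, map_X, map_ofNat]
  push_cast
  ring

theorem qe_D1 : QE Dl (X * toC P1 ^ 24) := by simpa using qe_Dl

theorem qe_D2 :
    QE (fun z => Dl (2 * z)) (X ^ 2 * PowerSeries.expand 2 two_ne_zero (toC P1 ^ 24)) := by
  have := qe_D1.expand 2 two_ne_zero
  rw [map_mul, expand_X] at this
  exact this.congr fun z _ => by simp

theorem qe_E2 : QE (fun z => E4 (2 * z)) (PowerSeries.expand 2 two_ne_zero (toC E4s)) :=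
  (qe_E4.expand 2 two_ne_zero).congr fun z _ => by simp

/-- The difference of the two sides. -/
noncomputable def H (z : ℂ) : ℂ :=
  (E4 z ^ 3 * Dl z * Dl (2 * z) - (Dl z + 256 * Dl (2 * z)) ^ 3) / (Dl z ^ 2 * Dl (2 * z))

theorem Dl_mob (h : a * d - b * c = 1) (hz : 0 < z.im) :
    Dl (mob a b c d z) = (c * z + d) ^ 12 * Dl z := by
  simpa [act_of, den] using Dl_act (g := !![a, b; c, d]) (by simpa using h) hz

theorem E4_mob (h : a * d - b * c = 1) (hz : 0 < z.im) :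
    E4 (mob a b c d z) = (c * z + d) ^ 4 * E4 z := by
  simpa [act_of, den] using E4_act (g := !![a, b; c, d]) (by simpa using h) hz

theorem jf_mob (h : a * d - b * c = 1) (hz : 0 < z.im) : jf (mob a b c d z) = jf z :=
  jf_act (g := !![a, b; c, d]) (by simpa using h) hz

theorem hol_H : Hol H := fun z hz => by
  have h1 := qe_D1.hol z hz
  have h2 := qe_D2.hol z hz
  have h3 := qe_E4.hol z hz
  exact ((((h3.pow 3).mul h1).mul h2).sub ((h1.add (h2.const_mul 256)).pow 3)).div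
    ((h1.pow 2).mul h2) (mul_ne_zero (pow_ne_zero _ (Dl_ne hz)) (Dl_ne (im_mul_pos hz)))

theorem H_mob (h : a * d - b * (2 * c) = 1) (hz : 0 < z.im) :
    H (mob a b (2 * c) d z) = H z := by
  have e : 2 * mob a b (2 * c) d z = mob a (2 * b) c d (2 * z) := by
    simp only [mob]; push_cast; ring
  have h0 := den_ne (a := a) (b := b) (c := 2 * c) (d := d) (by omega) hz
  have h1 := Dl_ne hz
  have h2 := Dl_ne (z := 2 * z) (im_mul_pos hz)
  rw [H, H, e, Dl_mob h hz, E4_mob h hz, Dl_mob (by linear_combination h) (im_mul_pos hz),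
    show (c : ℂ) * (2 * z) + d = (2 * c : ℤ) * z + d by push_cast; ring]
  field_simp

theorem tendsto_H : Tendsto H atI (𝓝 0) := by
  obtain ⟨R, hR⟩ := (((low_E.pow 3).mul low_D).mul low_D.exp).sub
    ((low_D.add low_D.exp 256).pow 3)
  rw [Int.cast_ofNat] at hR
  have h1 := (((qe_E4.pow 3).mul qe_D1).mul qe_D2).sub
    ((qe_D1.add ((QE.ofNat 256).mul qe_D2)).pow 3)
  have h2 := (qe_D1.pow 2).mul qe_D2
  have := QE.tendsto_div (m := 4) (B := X * R)
    (B' := (toC P1 ^ 24) ^ 2 * PowerSeries.expand 2 two_ne_zero (toC P1 ^ 24))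
    (by convert h1 using 1; linear_combination -X ^ 3 * hR) (by convert h2 using 1; ring)
    ((low_D.pow 2).mul low_D.exp).ne
  rw [coeff_zero_X_mul, zero_div] at this
  exact this

theorem bdd_H : Bdd fun z => H (mob 0 (-1) 2 0 z) := by
  obtain ⟨R, hR⟩ := (((low_E.exp.pow 3).mul low_D).mul low_D.exp).sub
    ((low_D.add low_D.exp 16).pow 3)
  rw [Int.cast_ofNat] at hR
  have h1 := (((qe_E2.pow 3).mul qe_D1).mul qe_D2).sub
    ((qe_D1.add ((QE.ofNat 16).mul qe_D2)).pow 3)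
  have h2 := qe_D1.mul (qe_D2.pow 2)
  refine (QE.bdd_div (m := 5) (B := R)
    (B' := toC P1 ^ 24 * PowerSeries.expand 2 two_ne_zero (toC P1 ^ 24) ^ 2)
    (by convert h1 using 1; linear_combination -X ^ 3 * hR) (by convert h2 using 1; ring)
    (low_D.mul (low_D.exp.pow 2)).ne).congr fun z hz => ?_
  have hz0 : z ≠ 0 := fun h => by simp [h] at hz
  have e1 : mob 0 (-1) 2 0 z = mob 0 (-1) 1 0 (2 * z) := by simp [mob]
  have e2 : 2 * mob 0 (-1) 2 0 z = mob 0 (-1) 1 0 z := by simp [mob]; field_simp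
  have h1 := Dl_ne hz
  have h2 := Dl_ne (z := 2 * z) (im_mul_pos hz)
  rw [H, e2, e1, Dl_mob (by norm_num) hz, Dl_mob (by norm_num) (im_mul_pos hz),
    E4_mob (by norm_num) (im_mul_pos hz)]
  simp only [Int.cast_one, Int.cast_zero, one_mul, add_zero]
  field_simp
  ring

theorem H_eq (hz : 0 < z.im) : H z = 0 := by
  obtain ⟨k, hk⟩ := const_of_inv 2 hol_H (fun a b c d h z hz => H_mob h hz) fun a b c d h => by
    rcases Int.even_or_odd' c with ⟨c, rfl | rfl⟩
    · exact (Bdd.of_tendsto tendsto_H).congr fun z hz => H_mob h hz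
    · refine (bdd_H.comp_affine (r := 1 / 2) (by norm_num) (d / 2)).congr fun z hz => ?_
      have e : mob 0 (-1) 2 0 ((1 / 2 : ℝ) * z + d / 2) = mob 0 (-1) 1 d z := by
        simp only [mob]; push_cast; ring
      have k := H_mob (a := a * d - b) (b := a) (c := c * d) (d := 2 * c + 1)
        (z := mob 0 (-1) 1 d z) (by linear_combination h) (im_mob_pos (by norm_num) hz)
      rw [mob_mob (by norm_num) _ _ _ _ hz] at k
      rw [e, ← k]
      congr 2 <;> ring
  rw [hk z hz]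
  exact tendsto_nhds_unique
    (tendsto_const_nhds.congr' (ev_pos.mono fun z hz => (hk z hz).symm)) tendsto_H

/-- Points with the same modular invariant are equivalent under the modular group. -/
theorem exists_sl (hτ : 0 < τ.im) (hw : 0 < w.im) (h : jf w = jf τ) :
    ∃ a b c d : ℤ, a * d - b * c = 1 ∧ w = mob a b c d τ := by
  have e1 := discriminant_eq_E₄_cube_sub_E₆_sq ⟨τ, hτ⟩
  have e2 := discriminant_eq_E₄_cube_sub_E₆_sq ⟨w, hw⟩
  change Dl τ = _ at e1
  change Dl w = _ at e2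
  have d1 := Dl_ne hτ
  have d2 := Dl_ne hw
  rw [jf, jf, E4, E4, UpperHalfPlane.ofComplex_apply_of_im_pos hτ,
    UpperHalfPlane.ofComplex_apply_of_im_pos hw, div_eq_div_iff d2 d1] at h
  obtain ⟨c, hc, h4, h6⟩ := exists_scale (x := E₄ ⟨w, hw⟩) (y := E₆ ⟨w, hw⟩) (div_ne_zero d2 d1)
    (by field_simp; linear_combination h)
    (by field_simp; linear_combination h + 1728 * Dl τ * e2 - 1728 * Dl w * e1)
    (Unif.E_ne ⟨τ, hτ⟩)
  have g2 : (Unif.pairOf ⟨w, hw⟩ hc).g₂ = (Unif.pairOf ⟨τ, hτ⟩ one_ne_zero).g₂ := by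
    simp only [PeriodPair.g₂, Unif.G_pairOf _ _ (by norm_num : 3 ≤ 4), h4]; field_simp
  have g3 : (Unif.pairOf ⟨w, hw⟩ hc).g₃ = (Unif.pairOf ⟨τ, hτ⟩ one_ne_zero).g₃ := by
    simp only [PeriodPair.g₃, Unif.G_pairOf _ _ (by norm_num : 3 ≤ 6), h6]; field_simp
  obtain ⟨a, b, h1⟩ := mem_lattice.mp (lattice_le_of_g_eq g2 g3 (ω₁_mem_lattice _))
  obtain ⟨e, d, h2⟩ := mem_lattice.mp (lattice_le_of_g_eq g2 g3 (ω₂_mem_lattice _))
  obtain ⟨a', b', h3⟩ := mem_lattice.mp (lattice_le_of_g_eq g2.symm g3.symm (ω₁_mem_lattice _))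
  obtain ⟨e', d', h7⟩ := mem_lattice.mp (lattice_le_of_g_eq g2.symm g3.symm (ω₂_mem_lattice _))
  simp only [Unif.pairOf, mul_one, one_mul] at h1 h2 h3 h7
  have key {m n : ℤ} (k : (m : ℂ) * τ + n = 0) : m = 0 ∧ n = 0 := by
    have k1 : m = 0 := by simpa [hτ.ne'] using congr_arg Complex.im k
    exact ⟨k1, by simpa [k1] using k⟩
  obtain ⟨k1, k2⟩ := key (m := a' * a + b' * e - 1) (n := a' * b + b' * d)
    (by push_cast; linear_combination h3 + a' * h1 + b' * h2)
  obtain ⟨k3, k4⟩ := key (m := e' * a + d' * e) (n := e' * b + d' * d - 1)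
    (by push_cast; linear_combination h7 + e' * h1 + d' * h2)
  have h5 : w = mob a b e d τ := by rw [mob, h1, h2, mul_div_cancel_left₀ _ hc]
  refine ⟨a, b, e, d, ?_, h5⟩
  have h8 : (a * d - b * e) * (a' * d' - b' * e') = 1 := by
    linear_combination (e' * b + d' * d) * k1 + k4 - (e' * a + d' * e) * k2
  rcases Int.eq_one_or_neg_one_of_mul_eq_one h8 with h9 | h9
  · exact h9
  · rw [h5, im_mob, h9] at hw
    exact absurd hw (not_lt.2 (div_nonpos_of_nonpos_of_nonneg (by simpa using hτ.le) (sq_nonneg _)))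

end J2

/-- The modular invariant in terms of the Hauptmodul of level two. -/
theorem jf_eq (h : 0 < τ.im) :
    jf τ = ((η τ / η (2 * τ)) ^ 24 + 256) ^ 3 / ((η τ / η (2 * τ)) ^ 24) ^ 2 := by
  have h1 := Dl_ne h
  have h2 := Dl_ne (z := 2 * τ) (im_mul_pos h)
  have h3 := J2.H_eq h
  rw [J2.H, div_eq_zero_iff, or_iff_left (mul_ne_zero (pow_ne_zero _ h1) h2)] at h3
  rw [div_pow, ← Dl, ← Dl, jf]
  field_simp
  linear_combination h3

namespace J2

theorem jf_congr (hz : 0 < z.im) (hw : 0 < w.im) (h : tt z = tt w) : jf w = jf z := by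
  rw [jf_eq hz, jf_eq hw, s_eq hz, s_eq hw, h]

theorem jf_ten (hz : 0 < z.im) : jf (al 3 z) = jf (10 * z) := by
  rw [← jf_mob (a := 0) (b := -1) (c := 1) (d := 0) (by norm_num) (im_mul_pos hz)]
  simp [al, alM, mob]

theorem eq0_of_trans (hz : 0 < z.im) (hw : 0 < w.im) (h : tt z = tt w) (ht : ¬ IsAlgebraic ℤ z) :
    Eq0 z w := by
  obtain ⟨a, b, c, d, h1, h2⟩ := exists_sl hz hw (jf_congr hz hw h)
  obtain ⟨a', b', c', d', h3, h4⟩ := exists_sl (τ := 10 * z) (w := 10 * w) (im_mul_pos hz)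
    (im_mul_pos hw) (by
      rw [← jf_ten hz, ← jf_ten hw]
      exact jf_congr (al_im_pos 3 hz) (al_im_pos 3 hw) (by rw [tt_al3 hz, tt_al3 hw, h]))
  have n1 := den_ne (a := a) (b := b) (c := c) (d := d) (by omega) hz
  have n2 := den_ne (a := a') (b := b') (c := c') (d := d') (z := 10 * z) (by omega)
    (im_mul_pos hz)
  rw [h2, mob, mob, ← mul_div_assoc, div_eq_div_iff n1 n2] at h4
  have hP : Polynomial.C (100 * a * c' - 10 * a' * c) * Polynomial.X ^ 2 +
      Polynomial.C (10 * a * d' + 100 * b * c' - 10 * a' * d - b' * c) * Polynomial.X +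
      Polynomial.C (10 * b * d' - b' * d) = 0 := by
    by_contra hP
    refine ht ⟨_, hP, ?_⟩
    simp only [map_add, map_mul, map_pow, Polynomial.aeval_X, eq_intCast, map_intCast]
    push_cast
    linear_combination h4
  have k2 := congr_arg (Polynomial.coeff · 2) hP
  have k1 := congr_arg (Polynomial.coeff · 1) hP
  simp only [Polynomial.coeff_add, Polynomial.coeff_C_mul, Polynomial.coeff_X_pow,
    Polynomial.coeff_X, Polynomial.coeff_C, Polynomial.coeff_zero] at k1 k2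
  norm_num at k1 k2
  obtain ⟨e, rfl⟩ : 10 ∣ c := by
    have k3 : a' * c = 10 * (a * c') := by linarith
    exact ⟨a * c' * d' - (a * d' + 10 * b * c' - a' * d) * c',
      by linear_combination -c * h3 + d' * k3 + c' * k1⟩
  exact ⟨a, b, e, d, h1, h2⟩

end J2

theorem eq0_of_tt (hz : 0 < z.im) (hw : 0 < w.im) (h : tt z = tt w) : Eq0 z w := by
  by_contra hn
  obtain ⟨p, hp, r, hr, hpr⟩ := eventually_prod_iff.mp (ev_not_eq0 hz hw hn)
  have ho : IsOpen {v : ℂ | 0 < v.im} := isOpen_lt continuous_const continuous_im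
  have ha : AnalyticOnNhd ℂ tt {v : ℂ | 0 < v.im} :=
    DifferentiableOn.analyticOnNhd (fun v hv => (hol_tt v hv).differentiableWithinAt) ho
  rcases ha.is_constant_or_isOpen (convex_halfSpace_im_gt 0).isPreconnected with ⟨k, hk⟩ | hop
  · have h1 : Tendsto (fun v => q1 v * tt v) atI (𝓝 (0 * k)) :=
      (tendsto_q1.mul_const k).congr' (ev_pos.mono fun v hv => by simp only [hk v hv])
    simpa using tendsto_nhds_unique h1 tendsto_tt
  obtain ⟨V, hV, hVo, hwV⟩ := eventually_nhds_iff.mp (hr.and (ho.mem_nhds hw))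
  have h2 : ∀ᶠ v in 𝓝 z, tt v ∈ tt '' V := (hol_tt z hz).continuousAt.eventually
    ((hop V (fun v hv => (hV v hv).2) hVo).mem_nhds ⟨w, hwV, h.symm⟩)
  obtain ⟨v, h3, h4, h5, u, h6, h7⟩ := ((mem_closure_iff_frequently.mp
    ((Algebraic.countable ℤ ℂ).dense_compl ℝ z)).and_eventually
    (hp.and ((show ∀ᶠ v in 𝓝 z, 0 < v.im from ho.mem_nhds hz).and h2))).exists
  exact hpr h4 (hV u h6).1 (J2.eq0_of_trans h5 (hV u h6).2 h7.symm h3)

theorem tt_surj {x : ℂ} (h0 : x ≠ 0) (h1 : x ≠ 1) (h5 : x ≠ 5) : ∃ z : ℂ, 0 < z.im ∧ tt z = x := by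
  by_contra hn
  have hx : ∀ z : ℂ, 0 < z.im → tt z - x ≠ 0 := fun z hz h => hn ⟨z, hz, sub_eq_zero.mp h⟩
  have hi : Tendsto (fun z => (tt z - x)⁻¹) atI (𝓝 0) := by
    have := tendsto_q1.div (tendsto_tt.sub (tendsto_q1.mul_const x)) (by simp)
    rw [zero_div] at this
    refine this.congr fun z => ?_
    have := q1_ne z
    simp only [Pi.div_apply, ← mul_sub]
    rw [div_mul_cancel_left₀ this]
  obtain ⟨k, hk⟩ := const10 (F := fun z => (tt z - x)⁻¹)
    (fun z hz => ((hol_tt z hz).sub_const x).inv (hx z hz))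
    (fun a b c d h z hz => by simp only [tt_mob h hz]) fun i => by
      rcases eq_or_ne i 0 with rfl | hi0
      · simpa only [al_zero] using Bdd.of_tendsto hi
      · refine Bdd.of_tendsto (((tendsto_tt_al hi0).sub_const x).inv₀ (sub_ne_zero.mpr ?_))
        fin_cases i <;> simp [alT, h0.symm, h1.symm, h5.symm] at hi0 ⊢
  obtain rfl : k = 0 := tendsto_nhds_unique
    (tendsto_const_nhds.congr' (ev_pos.mono fun z hz => (hk z hz).symm)) hi
  exact inv_ne_zero (hx I (by simp)) (hk I (by simp))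

end Pool.Agent.Lib.MP_696deb_nt.Y2
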