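import Pool.Agent.Lib.MP_696deb_nt.Y2.M5
import Pool.Agent.Lib.MP_696deb_nt.QF.F3

/-! The coefficients, the primitive and the Hecke operators. -/

set_option autoImplicit false

open Filter Topology Complex PeriodPair ModularForm PowerSeries Pool.Agent.Shared.Weier
open scoped Real ComplexConjugate

namespace Pool.Agent.Lib.MP_696deb_nt.Y2

open Klein Gal
open QF (G ii ip)
open Pool.Agent.Lib.MP_23455a_nt (lat lat_ω₁ lat_ω₂ mem_lat)

variable {τ z w : ℂ} {a b c d : ℤ}

theorem m6_ep_mul : ∀ x y : ZMod 5, ep (x * y) = ep x * ep y := by decide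

theorem m6_r5_mul (α β : G) : r5 (α * β) = r5 α * r5 β := by
  have h5 : (5 : ZMod 5) = 0 := rfl
  simp only [r5, Zsqrtd.re_mul, Zsqrtd.im_mul]
  push_cast
  linear_combination (-2 * (α.im : ZMod 5) * β.im) * h5

theorem m6_mul (α β : G) : ep (r5 (α * β)) * (α * β) = ep (r5 α) * α * (ep (r5 β) * β) := by
  rw [m6_r5_mul, m6_ep_mul, mul_mul_mul_comm]

theorem m6_par (α β : G) : ((α * β).re + (α * β).im) % 2 = 0 ↔
    (α.re + α.im) % 2 = 0 ∨ (β.re + β.im) % 2 = 0 := by
  have e : (α * β).re + (α * β).im = (α.re + α.im) * (β.re + β.im) + 2 * -(α.im * β.im) := by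
    simp only [Zsqrtd.re_mul, Zsqrtd.im_mul]
    ring
  rw [e, Int.add_mul_emod_self_left, ← Int.even_iff, ← Int.even_iff, ← Int.even_iff, Int.even_mul]

theorem m6_norm (α : G) : (α.re + α.im) % 2 = 1 ↔ α.norm % 4 = 1 := by
  rw [Zsqrtd.norm_def]
  obtain ⟨x, hx⟩ := Int.even_or_odd' α.re
  obtain ⟨y, hy⟩ := Int.even_or_odd' α.im
  rcases hx with hx | hx <;> rcases hy with hy | hy <;> rw [hx, hy] <;> ring_nf <;> omega

theorem psi_mul (α β : G) : psi (α * β) = psi α * psi β := by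
  simp only [psi, m6_par, m6_mul]
  by_cases h : (α.re + α.im) % 2 = 0 <;> by_cases h' : (β.re + β.im) % 2 = 0 <;> simp [h, h']

theorem m6_four {S : Finset G} (hS : ∀ α, ii * α ∈ S ↔ α ∈ S) :
    ∑ α ∈ S, ep (r5 α) * α = 4 * ∑ α ∈ S.filter fun α => r5 α = 1, α := by
  have key : ∀ r : ZMod 5, ∑ α ∈ S.filter fun α => r5 α = 3 * r, ep (r5 α) * α =
      ∑ α ∈ S.filter fun α => r5 α = r, ep (r5 α) * α := fun r => by
    have e : ∀ α : G, ii * (-ii * α) = α := fun α => by
      rw [← mul_assoc, show ii * -ii = 1 by decide, one_mul]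
    have inj : ∀ x y : ZMod 5, 3 * x = 3 * y ↔ x = y := by decide
    refine (Finset.sum_bij (fun α _ => ii * α) (fun α h => ?_)
      (fun _ _ _ _ h => mul_left_cancel₀ (by decide) h) (fun α h => ⟨-ii * α, ?_, e α⟩)
      fun α _ => ?_).symm
    · rw [Finset.mem_filter] at h ⊢
      exact ⟨(hS α).2 h.1, by rw [m6_r5_mul, h.2]; rfl⟩
    · rw [Finset.mem_filter] at h ⊢
      refine ⟨(hS _).1 ((e α).symm ▸ h.1), (inj _ _).1 ?_⟩
      rw [← h.2, show (3 : ZMod 5) = r5 ii from rfl, ← m6_r5_mul, e]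
    · rw [m6_mul, show ep (r5 ii) * ii = 1 by decide, one_mul]
  have k0 : ∑ α ∈ S.filter fun α => r5 α = 0, ep (r5 α) * α = 0 :=
    Finset.sum_eq_zero fun α h => by
      rw [(Finset.mem_filter.1 h).2, show ep 0 = 0 by decide, zero_mul]
  have k1 : ∑ α ∈ S.filter fun α => r5 α = 1, ep (r5 α) * α =
      ∑ α ∈ S.filter fun α => r5 α = 1, α :=
    Finset.sum_congr rfl fun α h => by
      rw [(Finset.mem_filter.1 h).2, show ep 1 = 1 by decide, one_mul]
  have k3 := key 1
  have k4 := key 3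
  have k2 := key 4
  rw [show (3 * 1 : ZMod 5) = 3 from rfl] at k3
  rw [show (3 * 3 : ZMod 5) = 4 from rfl] at k4
  rw [show (3 * 4 : ZMod 5) = 2 from rfl] at k2
  rw [← Finset.sum_fiberwise S r5, show (Finset.univ : Finset (ZMod 5)) = {0, 1, 2, 3, 4} by decide,
    Finset.sum_insert (by decide), Finset.sum_insert (by decide), Finset.sum_insert (by decide),
    Finset.sum_pair (by decide), k0, k2, k4, k3, k1]
  ring

theorem m6_reps (m : ℕ) (α : G) : ii * α ∈ QF.reps m ↔ α ∈ QF.reps m := by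
  rw [QF.mem_reps, QF.mem_reps, Zsqrtd.norm_mul, show ii.norm = 1 by decide, one_mul]

theorem four_aG (m : ℕ) : ∑ α ∈ QF.reps m, psi α = 4 * aG m := by
  rw [aG, ← Finset.filter_filter, ← m6_four fun α => ?_, Finset.sum_filter]
  · refine Finset.sum_congr rfl fun α _ => ?_
    rw [psi]
    split_ifs <;> first | rfl | omega
  · have := m6_par ii α
    rw [show ii.re + ii.im = 1 from rfl] at this
    rw [Finset.mem_filter, Finset.mem_filter, m6_reps]
    refine and_congr_right fun _ => ?_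
    omega

theorem four_aN (m : ℕ) : ∑ α ∈ QF.reps m, ep (r5 α) * α = 4 * aN m := m6_four (m6_reps m)

theorem aG_eq (m : ℕ) : aG m = if m % 4 = 1 then aN m else 0 := by
  split_ifs with h
  · refine Finset.sum_congr (Finset.filter_congr fun α hα => and_iff_right ?_) fun _ _ => rfl
    rw [m6_norm, QF.mem_reps.1 hα]
    omega
  · refine Finset.sum_eq_zero fun α hα => absurd ?_ h
    obtain ⟨h1, h2, -⟩ := Finset.mem_filter.1 hα
    rw [m6_norm, QF.mem_reps.1 h1] at h2
    omega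

theorem aG_one : aG 1 = 1 := by decide +kernel

theorem aG_five : aG 5 = ⟨-2, 1⟩ := by decide +kernel

theorem aN_two : aN 2 = ⟨-1, -1⟩ := by decide +kernel

theorem aG_inert {p : ℕ} (hp : p.Prime) (h : p % 4 = 3) : aG p = 0 := by
  have _ := hp
  rw [aG_eq, if_neg (by omega)]

theorem m6_inj {x y : G} (h : 4 * x = 4 * y) : x = y := mul_left_cancel₀ (by decide) h

theorem aG_split {p : ℕ} (hp : p.Prime) (h : p % 4 = 1) {l : G} (hl : l.norm = p) :
    aG p = psi l + psi (star l) := by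
  have e := QF.f3_one psi_mul hp h hl 1
  rw [if_neg hp.not_dvd_one, mul_one, add_zero, four_aG, four_aG, aG_one, mul_one, mul_comm _ 4] at e
  exact m6_inj e

section Hk

variable {R : Type} [CommRing R] (u v : ℕ → R)

/-- The sum over common divisors. -/
def m6S (m n : ℕ) : R := ∑ e ∈ (Nat.gcd m n).divisors, v e * u (m / e * (n / e))

/-- The part of the sum with divisors prime to `p`. -/
def m6U (p m n : ℕ) : R :=
  ∑ e ∈ (Nat.gcd m n).divisors.filter fun e => ¬ p ∣ e, v e * u (m / e * (n / e))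

variable {v}

theorem m6_split (hv : ∀ x y, v (x * y) = v x * v y) {p m n : ℕ} (hp : 0 < p) (hm : 0 < m) :
    m6S u v m n = m6U u v p m n + if p ∣ m ∧ p ∣ n then v p * m6S u v (m / p) (n / p) else 0 := by
  rw [m6S, ← Finset.sum_filter_not_add_sum_filter _ fun e => p ∣ e]
  congr 1
  split_ifs with h
  · obtain ⟨⟨m, rfl⟩, n, rfl⟩ := h
    have g0 : Nat.gcd m n ≠ 0 := (Nat.gcd_pos_of_pos_left _ (Nat.pos_of_mul_pos_left hm)).ne'
    rw [Nat.mul_div_cancel_left _ hp, Nat.mul_div_cancel_left _ hp, m6S, Finset.mul_sum,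
      Nat.gcd_mul_left]
    refine (Finset.sum_bij (fun e _ => p * e) (fun e h => ?_)
      (fun _ _ _ _ h => Nat.eq_of_mul_eq_mul_left hp h) (fun e h => ?_) fun e _ => ?_).symm
    · exact Finset.mem_filter.2 ⟨Nat.mem_divisors.2 ⟨Nat.mul_dvd_mul_left _
        (Nat.dvd_of_mem_divisors h), mul_ne_zero hp.ne' g0⟩, Dvd.intro _ rfl⟩
    · obtain ⟨h, e, rfl⟩ := Finset.mem_filter.1 h
      exact ⟨e, Nat.mem_divisors.2 ⟨Nat.dvd_of_mul_dvd_mul_left hp (Nat.dvd_of_mem_divisors h),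
        g0⟩, rfl⟩
    · rw [hv, Nat.mul_div_mul_left _ _ hp, Nat.mul_div_mul_left _ _ hp, mul_assoc]
  · refine Finset.sum_eq_zero fun e he => absurd ?_ h
    obtain ⟨h1, h2⟩ := Finset.mem_filter.1 he
    exact Nat.dvd_gcd_iff.1 (h2.trans (Nat.dvd_of_mem_divisors h1))

variable (v) in
theorem m6_swap {p m n : ℕ} (hp : p.Prime) (hm : 0 < m) (hn : 0 < n) :
    m6U u v p (p * m) n = m6U u v p m (p * n) := by
  have k : ∀ {e x : ℕ}, ¬ p ∣ e → (e ∣ p * x ↔ e ∣ x) := fun h =>
    ((Nat.Prime.coprime_iff_not_dvd hp).2 h).symm.dvd_mul_left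
  refine Finset.sum_congr ?_ fun e he => ?_
  · ext e
    simp only [Finset.mem_filter, Nat.mem_divisors, Nat.dvd_gcd_iff]
    refine and_congr_left fun h => ?_
    rw [k h, k h]
    simp [hm.ne', hn.ne']
  · obtain ⟨h1, h2⟩ := Finset.mem_filter.1 he
    obtain ⟨h3, h4⟩ := Nat.dvd_gcd_iff.1 (Nat.dvd_of_mem_divisors h1)
    rw [Nat.mul_div_assoc _ h3, Nat.mul_div_assoc _ ((k h2).1 h4), mul_comm p, mul_assoc]

variable {u} in
theorem m6_hecke (hv : ∀ x y, v (x * y) = v x * v y) (v1 : v 1 = 1) (u1 : u 1 = 1)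
    (rel : ∀ p : ℕ, p.Prime → ∀ n, u (p * n) + (if p ∣ n then v p * u (n / p) else 0) = u p * u n)
    (m : ℕ) (hm : 0 < m) : ∀ n, 0 < n → u m * u n = m6S u v m n := by
  induction m using Nat.strong_induction_on with
  | _ m ih =>
    intro n hn
    by_cases h1 : m = 1
    · simp [h1, m6S, u1, v1]
    obtain ⟨p, hp, m, rfl⟩ := Nat.exists_prime_and_dvd h1
    have h0 : 0 < m := Nat.pos_of_mul_pos_left hm
    have h2 : m < p * m := lt_mul_of_one_lt_left h0 hp.one_lt
    have e1 := m6_split u hv (n := n) hp.pos hm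
    have e2 := m6_split u hv (n := p * n) hp.pos h0
    have e3 := rel p hp m
    have e4 := rel p hp n
    rw [m6_swap u v hp h0 hn, Nat.mul_div_cancel_left _ hp.pos] at e1
    rw [Nat.mul_div_cancel_left _ hp.pos, ← ih m h2 h0 _ (Nat.mul_pos hp.pos hn)] at e2
    simp only [Dvd.intro _ rfl, true_and, and_true] at e1 e2
    have i1 : p ∣ n → u m * u (n / p) = m6S u v m (n / p) := fun h =>
      ih m h2 h0 _ (Nat.div_pos (Nat.le_of_dvd hn h) hp.pos)
    have i2 : p ∣ m → u (m / p) * u n = m6S u v (m / p) n := fun h =>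
      ih _ ((Nat.div_le_self _ _).trans_lt h2) (Nat.div_pos (Nat.le_of_dvd h0 h) hp.pos) n hn
    split_ifs at e1 e2 e3 e4 with k1 k2 k2
    · linear_combination u n * e3 - u m * e4 - e1 + e2 - v p * i2 k2 + v p * i1 k1
    · linear_combination u n * e3 - u m * e4 - e1 + e2 + v p * i1 k1
    · linear_combination u n * e3 - u m * e4 - e1 + e2 - v p * i2 k2
    · linear_combination u n * e3 - u m * e4 - e1 + e2

end Hk

theorem m6_gen {ψ : G → G} (hψ : ∀ α β, ψ (α * β) = ψ α * ψ β) {u : ℕ → G}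
    (hu : ∀ m, ∑ α ∈ QF.reps m, ψ α = 4 * u m) (u1 : u 1 = 1)
    (ho : ∀ p : ℕ, p % 2 = 1 → ψ p = ep p * p) (m n : ℕ) (hm : 0 < m) (hn : 0 < n) :
    u m * u n = ∑ e ∈ (Nat.gcd m n).divisors, om e * e * u (m / e * (n / e)) := by
  classical
  refine m6_hecke (v := fun e : ℕ => om e * e) (fun x y => ?_) (by decide) u1 (fun p hp => ?_)
    m hm n hn
  · rw [Nat.cast_mul, Nat.cast_mul, om_mul, mul_mul_mul_comm]
  have tab : ∀ x : Fin 20, (x.1 % 4 = 1 → ep x.1 = om x.1) ∧ (x.1 % 4 = 3 → ep x.1 = -om x.1) := by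
    decide
  have t := tab ⟨p % 20, Nat.mod_lt _ (by norm_num)⟩
  simp only [ZMod.natCast_mod] at t
  rw [show ((p % 20 : ℕ) : ZMod 5) = p from (ZMod.natCast_eq_natCast_iff' _ _ 5).2 (by omega)] at t
  suffices h : ∃ T, ∀ n, 4 * u (p * n) + (if p ∣ n then om p * p * (4 * u (n / p)) else 0) =
      T * (4 * u n) by
    obtain ⟨T, hT⟩ := h
    intro n
    have e1 := hT 1
    have e2 := hT n
    rw [if_neg hp.not_dvd_one, mul_one, add_zero, u1, mul_one, mul_comm T] at e1
    rw [← m6_inj e1] at e2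
    refine m6_inj ?_
    split_ifs at e2 ⊢ <;> linear_combination e2
  simp only [← hu]
  rcases hp.eq_two_or_odd with rfl | h2
  · refine ⟨ψ ⟨1, 1⟩, fun n => ?_⟩
    rw [← QF.f3_div hψ two_ne_zero (by decide), Finset.filter_true_of_mem fun α hα => ?_,
      show om (2 : ℕ) = 0 by decide]
    · simp
    · have e := QF.mem_reps.1 hα
      have e' := m6_norm α
      obtain ⟨x, hx⟩ : 2 ∣ α.re + α.im := by omega
      refine ⟨⟨x, α.im - x⟩, ?_⟩
      ext <;> simp [Zsqrtd.re_mul, Zsqrtd.im_mul]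
      omega
  by_cases h4 : p % 4 = 1
  · have := Fact.mk hp
    obtain ⟨a, b, e⟩ := Nat.Prime.sq_add_sq (p := p) (by omega)
    have hz : (⟨a, b⟩ : G).norm = p := by
      rw [Zsqrtd.norm_def, ← e]
      push_cast
      ring
    refine ⟨_, fun n => Eq.trans ?_ (QF.f3_one hψ hp h4 hz n)⟩
    rw [ho p h2, t.1 (by omega)]
  · refine ⟨0, fun n => ?_⟩
    rw [QF.f3_three hψ hp (by omega), ho p h2, t.2 (by omega)]
    split_ifs <;> ring

theorem m6_r5_nat (p : ℕ) : r5 p = p := by simp [r5]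

theorem aG_mul (m n : ℕ) (hm : 0 < m) (hn : 0 < n) : aG m * aG n =
    ∑ e ∈ (Nat.gcd m n).divisors, om e * e * aG (m / e * (n / e)) :=
  m6_gen psi_mul four_aG aG_one (fun p hp => by
    rw [psi, m6_r5_nat, if_neg]
    simp only [Zsqrtd.re_natCast, Zsqrtd.im_natCast]
    omega) m n hm hn

theorem aN_mul (m n : ℕ) (hm : 0 < m) (hn : 0 < n) : aN m * aN n =
    ∑ e ∈ (Nat.gcd m n).divisors, om e * e * aN (m / e * (n / e)) :=
  m6_gen (ψ := fun α => ep (r5 α) * α) m6_mul four_aN (by decide +kernel)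
    (fun p _ => by rw [m6_r5_nat]) m n hm hn

theorem m6_qe {ψ : G → G} {u : ℕ → G} (hu : ∀ m, ∑ α ∈ QF.reps m, ψ α = 4 * u m) {F : ℂ → ℂ}
    (h : ∀ z : ℂ, 0 < z.im → HasSum (fun α : G => (ψ α : ℂ) / 4 * q1 (α.norm * z)) (F z)) :
    QE F (PowerSeries.mk fun m => (u m : ℂ)) := QE.of_hasSum fun z hz => by
  convert! (h z hz).tsum_fiberwise fun α => α.norm.natAbs using 2 with n
  have e : (fun α : G => α.norm.natAbs) ⁻¹' {n} = QF.reps n := by
    ext α
    have := GaussianInt.norm_nonneg α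
    simp only [Set.mem_preimage, Set.mem_singleton_iff, Finset.mem_coe, QF.mem_reps]
    omega
  rw [e, Finset.tsum_subtype' (QF.reps n) fun α => (ψ α : ℂ) / 4 * q1 (α.norm * z),
    Finset.sum_congr rfl (g := fun α => (ψ α : ℂ) * (q1 z ^ n / 4)) fun α hα => by
      rw [QF.mem_reps.1 hα, Int.cast_natCast, q1_nat_mul]; ring,
    ← Finset.sum_mul, ← map_sum, hu, map_mul, map_ofNat, coeff_mk]
  ring

theorem qe_fY : QE (fun z => fY (4 * z)) (PowerSeries.mk fun m => (aG m : ℂ)) :=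
  m6_qe four_aG fun z hz => by
    convert hasSum_fY (τ := 4 * z) (by simpa using hz) using 4
    ring

theorem qe_fY' : QE (fun z => -sl 1 0 (-5) 1 fY (2 * z) / (1 + I))
    (PowerSeries.mk fun m => (aN m : ℂ)) :=
  m6_qe (ψ := fun α => ep (r5 α) * α) four_aN fun z hz => by
    convert hasSum_fY' (τ := 2 * z) (by simpa using hz) using 4
    ring

theorem qe_phi : QE (fun z => phi (4 * z)) (PowerSeries.mk fun m => (aG m : ℂ) / m) :=
  QE.of_hasSum fun z hz => by
    obtain ⟨H, hH, _⟩ := qe_fY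
    simp only [coeff_mk]
    rw [phi, show 4 * z / 4 = z by ring]
    refine (Summable.of_norm_bounded (hH.summable_norm (norm_q1_lt hz)) fun n => ?_).hasSum
    rw [norm_mul, norm_mul, norm_div, coeff_mk]
    gcongr
    rcases Nat.eq_zero_or_pos n with rfl | hn
    · simp
    · exact div_le_self (norm_nonneg _) (by simpa using Nat.succ_le_of_lt hn)

theorem hasDerivAt_phi (h : 0 < τ.im) : HasDerivAt phi (π * I / 2 * fY τ) τ := by
  obtain ⟨F₁, h1, h2⟩ := qe_phi.hasDerivAt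
  have h3 : X * d⁄dX ℂ (PowerSeries.mk fun n => (aG n : ℂ) / n) =
      PowerSeries.mk fun n => (aG n : ℂ) := by
    ext n
    rcases n with _ | n
    · simp [aG_eq]
    · have : (n + 1 : ℂ) ≠ 0 := Nat.cast_add_one_ne_zero n
      simp [coeff_succ_X_mul, coeff_derivative, this]
  have hz : 0 < (τ / 4).im := by simpa using h
  have e : 4 * (τ / 4) = τ := by ring
  rw [h3] at h1
  have h4 := (h2 _ hz).comp τ ((hasDerivAt_id τ).div_const 4)
  rw [← qe_fY.eq_of_eq h1 hz, e] at h4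
  convert! h4 using 1
  · ext w
    simp only [Function.comp, id]
    congr 1
    ring
  · ring

theorem tendsto_phi : Tendsto (fun z => phi z / q1 (z / 4)) atI (𝓝 1) := by
  have h1 : (PowerSeries.mk fun n => (aG n : ℂ) / n) =
      X ^ 1 * PowerSeries.mk fun n => (aG (n + 1) : ℂ) / (n + 1 : ℕ) := by
    ext n
    rcases n with _ | n <;> simp [coeff_succ_X_mul]
  have h2 := (h1 ▸ qe_phi).of_X_pow_mul.tendsto
  have h3 : Tendsto (fun z : ℂ => z / 4) atI atI := by
    refine tendsto_comap_iff.2 ((tendsto_comap.atTop_div_const (r := 4) four_pos).congr fun z => ?_)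
    simp
  convert h2.comp h3 using 2 with z
  · simp only [Function.comp, pow_one]
    congr 2
    ring
  · simp [aG_one]

theorem m6_geom {d : ℕ} (hd : d ≠ 0) (n : ℕ) :
    ∑ k ∈ Finset.range d, q1 (k / d) ^ n = if d ∣ n then (d : ℂ) else 0 := by
  have h := Complex.isPrimitiveRoot_exp d hd
  have e : ∀ k : ℕ, q1 (k / d) ^ n = (cexp (2 * π * I / d) ^ n) ^ k := fun k => by
    rw [← pow_mul, mul_comm n, pow_mul, ← Complex.exp_nat_mul _ k, q1]
    congr 2
    ring
  simp only [e]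
  split_ifs with k
  · simp [(h.pow_eq_one_iff_dvd n).2 k]
  · rw [geom_sum_eq (mt (h.pow_eq_one_iff_dvd n).1 k), ← pow_mul, mul_comm n, pow_mul, h.pow_eq_one,
      one_pow, sub_self, zero_div]

theorem m6_U {F : ℂ → ℂ} {A : ℂ⟦X⟧} (hF : QE F A) {d : ℕ} (hd : d ≠ 0) :
    QE (fun z => ∑ k ∈ Finset.range d, F ((z + k) / d))
      (PowerSeries.mk fun n => d * coeff (d * n) A) := QE.of_hasSum fun z hz => by
  have d0 : (d : ℂ) ≠ 0 := by exact_mod_cast hd
  have h1 : ∀ k : ℕ, HasSum (fun n => coeff n A * q1 (z / d) ^ n * q1 (k / d) ^ n)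
      (F ((z + k) / d)) := fun k => by
    have h2 := hF.hasSum (z := (z + k) / d) (by
      simpa using div_pos hz (Nat.cast_pos.2 (Nat.pos_of_ne_zero hd)))
    simpa only [add_div, q1_add, mul_pow, mul_assoc] using h2
  have h2 := hasSum_sum (s := Finset.range d) fun k _ => h1 k
  simp only [← Finset.mul_sum, m6_geom hd] at h2
  rw [← (mul_right_injective₀ hd).hasSum_iff] at h2
  · convert! h2 using 2 with n
    have h3 : q1 (z / d) ^ (d * n) = q1 z ^ n := by
      rw [pow_mul, ← q1_nat_mul, mul_div_cancel₀ _ d0]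
    simp only [coeff_mk, Function.comp, h3, Dvd.intro _ rfl, if_true]
    ring
  · intro n hn
    rw [if_neg, mul_zero]
    rintro ⟨k, rfl⟩
    exact hn ⟨k, rfl⟩

/-- The Hecke operators. -/
theorem phi_hecke {m : ℕ} (hm : 0 < m) (h : 0 < τ.im) :
    ∑ x ∈ m.divisorsAntidiagonal, (om x.1 : ℂ) * ∑ k ∈ Finset.range x.2,
      phi ((x.1 * τ + 4 * k) / x.2) = aG m * phi τ := by
  have hz : 0 < (τ / 4).im := by simpa using h
  have h1 : ∀ x ∈ m.divisorsAntidiagonal, HasSum (fun n => (if x.1 ∣ n then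
      (om x.1 * x.1 * aG (m / x.1 * (n / x.1)) : G) else 0 : ℂ) / n * q1 (τ / 4) ^ n)
      ((om x.1 : ℂ) * ∑ k ∈ Finset.range x.2, phi ((x.1 * τ + 4 * k) / x.2)) := fun x hx => by
    obtain ⟨n1, n2⟩ := Nat.ne_zero_of_mem_divisorsAntidiagonal hx
    have c1 : (x.1 : ℂ) ≠ 0 := by exact_mod_cast n1
    have c2 : (x.2 : ℂ) ≠ 0 := by exact_mod_cast n2
    convert! ((((m6_U qe_phi n2).expand x.1 n1).hasSum hz).mul_left (om x.1 : ℂ)) using 2 with n
    · rw [coeff_expand, ← (Nat.mem_divisorsAntidiagonal.1 hx).1,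
        Nat.mul_div_cancel_left _ n1.bot_lt]
      split_ifs with k
      · obtain ⟨l, rfl⟩ := k
        simp only [Nat.mul_div_cancel_left _ n1.bot_lt, coeff_mk, map_mul, map_natCast,
          Nat.cast_mul]
        field_simp
      · simp
    · refine Finset.sum_congr rfl fun k _ => ?_
      congr 1
      ring
  have h2 := (qe_phi.hasSum hz).mul_left (aG m : ℂ)
  rw [show 4 * (τ / 4) = τ by ring] at h2
  refine (hasSum_sum h1).unique ?_
  convert! h2 using 2 with n
  rw [← Finset.sum_mul, ← Finset.sum_div, coeff_mk, ← mul_assoc, ← mul_div_assoc]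
  rcases n.eq_zero_or_pos with rfl | hn
  · simp
  rw [← map_mul, aG_mul m n hm hn, map_sum, Nat.sum_divisorsAntidiagonal fun x _ => if x ∣ n then
    ((om x * x * aG (m / x * (n / x)) : G) : ℂ) else 0, ← Finset.sum_filter]
  congr 3
  ext e
  simp [Nat.dvd_gcd_iff, hm.ne']

end Pool.Agent.Lib.MP_696deb_nt.Y2
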