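import Pool.Agent.Lib.MP_696deb_nt.Y2.M4
import Pool.Agent.Lib.MP_696deb_nt.Y2.M6
import Pool.Agent.Lib.MP_696deb_nt.Y2.M3j

/-! The uniformisation. -/

set_option autoImplicit false

open Filter Topology Complex PeriodPair ModularForm PowerSeries Pool.Agent.Shared.Weier
open scoped Real ComplexConjugate

namespace Pool.Agent.Lib.MP_696deb_nt.Y2

open Klein Gal
open QF (G ii ip)
open Pool.Agent.Lib.MP_23455a_nt (lat lat_ω₁ lat_ω₂ mem_lat)

variable {τ z w : ℂ} {a b c d : ℤ}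

/-- A global solution of the Weierstrass equation is the Weierstrass function. -/
theorem P_comp' (L : PeriodPair) {U : Set ℂ} (hU : IsOpen U) (hU' : IsPreconnected U)
    {F A A₁ g : ℂ → ℂ} (hF : ∀ z ∈ U, HasDerivAt F (g z) z)
    (hA : ∀ z ∈ U, HasDerivAt A (g z * A₁ z) z) (hA₁ : ∀ z ∈ U, DifferentiableAt ℂ A₁ z)
    (hE : ∀ z ∈ U, A₁ z ^ 2 = 4 * A z ^ 3 - L.g₂ * A z - L.g₃) {z₀ : ℂ} (h0 : z₀ ∈ U)
    (hg : g z₀ ≠ 0) (h1 : A₁ z₀ ≠ 0) : ∃ c, ∀ z ∈ U, F z + c ∉ L.lattice ∧ A z = ℘[L] (F z + c) ∧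
      A₁ z = ℘'[L] (F z + c) := by
  have an : ∀ {G : ℂ → ℂ}, (∀ z ∈ U, DifferentiableAt ℂ G z) → AnalyticOnNhd ℂ G U := fun h =>
    DifferentiableOn.analyticOnNhd (fun z hz => (h z hz).differentiableWithinAt) hU
  have aF := an fun z hz => (hF z hz).differentiableAt
  have aA := an fun z hz => (hA z hz).differentiableAt
  have hg' : ∀ z ∈ U, ∀ᶠ w in 𝓝[≠] z, deriv F w ≠ 0 := fun z hz =>
    (aF.deriv z hz).eventually_eq_zero_or_eventually_ne_zero.resolve_left fun h =>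
      hg ((hF z₀ h0).deriv ▸ aF.deriv.eqOn_zero_of_preconnected_of_eventuallyEq_zero hU' hz h h0)
  obtain ⟨u, hu, e1, e2⟩ := Unif.exists_P_dP_eq L (hE z₀ h0)
  refine ⟨u - F z₀, ?_⟩
  generalize hc : u - F z₀ = c
  obtain rfl : u = F z₀ + c := by rw [← hc]; ring
  have hFc : ∀ z ∈ U, HasDerivAt (fun w => F w + c) (g z) z := fun z hz => (hF z hz).add_const c
  have aFc := an fun z hz => (hFc z hz).differentiableAt
  have h2 := Unif.P_comp_local L (aFc z₀ h0) (aA z₀ h0) (an hA₁ z₀ h0)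
    (by filter_upwards [hU.mem_nhds h0] with z hz; rw [(hA z hz).deriv, (hFc z hz).deriv]) (by
      filter_upwards [hU.mem_nhds h0, (hA₁ z₀ h0).continuousAt.eventually_ne h1] with z hz hz'
      have k3 := (((hA₁ z hz).hasDerivAt.pow 2).congr_of_eventuallyEq
        (Filter.mem_of_superset (hU.mem_nhds hz) fun w hw => (hE w hw).symm)).unique
        (((((hA z hz).pow 3).const_mul 4).sub ((hA z hz).const_mul L.g₂)).sub_const L.g₃)
      apply mul_left_cancel₀ hz'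
      simp only [Nat.cast_ofNat, Nat.add_one_sub_one, pow_one] at k3
      rw [(hFc z hz).deriv]
      linear_combination k3 / 2) hu e1.symm e2.symm
  have h3 : ∀ z ∈ U, A =ᶠ[𝓝[≠] z] ℘[L] ∘ fun w => F w + c := fun z hz =>
    Unif.mero_ext hU' aA.meromorphicOn
      (fun w hw => (L.meromorphic_weierstrassP _).comp_analyticAt (aFc w hw)) h0 hz
      (h2.filter_mono nhdsWithin_le_nhds)
  have h4 : ∀ z ∈ U, F z + c ∉ L.lattice := fun z hz h => by
    have k : ∀ᶠ w in 𝓝[≠] z, F w ≠ F z := by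
      refine ((aF z hz).eventually_eq_or_eventually_ne analyticAt_const).resolve_left fun k => ?_
      obtain ⟨w, k1, k2⟩ := ((hg' z hz).and
        ((EventuallyEq.deriv k).filter_mono nhdsWithin_le_nhds)).exists
      exact k1 (by simpa using k2)
    exact ((hA z hz).continuousAt.tendsto.mono_left nhdsWithin_le_nhds).not_tendsto
      (Metric.disjoint_nhds_cobounded _) (((Unif.tendsto_P L h).comp (tendsto_nhdsWithin_iff.2
        ⟨(hFc z hz).continuousAt.tendsto.mono_left nhdsWithin_le_nhds,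
          k.mono fun w hw e => hw (add_right_cancel e)⟩)).congr' (h3 z hz).symm)
  have h6 : ∀ z ∈ U, A =ᶠ[𝓝 z] ℘[L] ∘ fun w => F w + c := fun z hz =>
    ((hA z hz).continuousAt.eventuallyEq_nhds_iff_eventuallyEq_nhdsNE
      ((hasDerivAt_wp (h4 z hz)).comp z (hFc z hz)).continuousAt).mp (h3 z hz)
  refine fun z hz => ⟨h4 z hz, (h6 z hz).eq_of_nhds, ?_⟩
  refine (((hA₁ z hz).continuousAt.eventuallyEq_nhds_iff_eventuallyEq_nhdsNE
    ((hasDerivAt_wp' (h4 z hz)).comp z (hFc z hz)).continuousAt).mp ?_).eq_of_nhds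
  filter_upwards [hg' z hz, mem_nhdsWithin_of_mem_nhds (hU.mem_nhds hz)] with w k hw
  rw [(hF w hw).deriv] at k
  refine mul_left_cancel₀ k ?_
  rw [(hA w hw).unique (((hasDerivAt_wp (h4 w hw)).comp w (hFc w hw)).congr_of_eventuallyEq
    (h6 w hw)), mul_comm]
  rfl

theorem hasDerivAt_uu (h : 0 < τ.im) : HasDerivAt uu (rho * (π * I / 2 * fY τ)) τ :=
  (hasDerivAt_phi h).const_mul rho

theorem hasDerivAt_uu_mob (hd : 0 < a * d - b * c) (h : 0 < τ.im) :
    HasDerivAt (fun z => uu (mob a b c d z)) (rho * (π * I / 2 * sl a b c d fY τ)) τ := by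
  refine ((hasDerivAt_uu (im_mob_pos hd h)).comp τ (hasDerivAt_mob hd.ne' h)).congr_deriv ?_
  rw [sl]
  ring

theorem tendsto_uu : Tendsto uu atI (𝓝 0) := by
  have := (tendsto_phi.mul tendsto_Q).const_mul rho
  rw [mul_zero, mul_zero] at this
  exact this.congr fun z => by rw [div_mul_cancel₀ _ (q1_ne _), uu]

theorem uu_spec (h : 0 < τ.im) : uu τ ∉ EA.LG.lattice ∧ ℘[EA.LG] (uu τ) = ux τ / rho ^ 2 ∧
    ℘'[EA.LG] (uu τ) = -2 * uy τ / rho ^ 3 := by
  have n := rho_ne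
  obtain ⟨z₀, h0, e⟩ := tt_surj (x := 2) (by norm_num) (by norm_num) (by norm_num)
  rw [← ux_sq h0] at e
  have n1 : uy z₀ ≠ 0 := fun k => by
    have := uy_sq h0
    rw [k] at this
    have k1 : ux z₀ * (1 - 2 * I) = 0 := by linear_combination -this - ux z₀ * e
    simpa using congr_arg re ((mul_eq_zero.1 k1).resolve_left (ux_ne h0))
  have n2 : uz z₀ ≠ 0 := fun k => by
    have := uz_sq h0
    rw [k] at this
    have k1 : ux z₀ * (1 + 2 * I) = 0 := by linear_combination -this - ux z₀ * e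
    simpa using congr_arg re ((mul_eq_zero.1 k1).resolve_left (ux_ne h0))
  obtain ⟨c, hc⟩ := P_comp' EA.LG (U := {z | 0 < z.im}) (isOpen_lt continuous_const continuous_im)
    (convex_halfSpace_im_gt 0).isPreconnected (F := uu) (A := fun z => ux z / rho ^ 2)
    (A₁ := fun z => -2 * uy z / rho ^ 3) (fun _ => hasDerivAt_uu)
    (fun _ hz => ((hasDerivAt_ux hz).div_const _).congr_deriv (by field_simp))
    (fun z hz => ((hol_uy z hz).const_mul _).div_const _)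
    (fun z hz => by
      rw [EA.g2_LG, EA.g3_LG]
      field_simp
      linear_combination 4 * uy_sq hz + 4 * ux z * rho_four) h0
    (mul_ne_zero n (mul_ne_zero (by simp) (div_ne_zero (mul_ne_zero (gg_ne h0) n2) (ux_ne h0))))
    (div_ne_zero (mul_ne_zero (by norm_num) n1) (pow_ne_zero 3 n))
  have hcL : c ∈ EA.LG.lattice := by
    by_contra k
    have k1 : Tendsto (fun z => ℘[EA.LG] (uu z + c)) atI (𝓝 (℘[EA.LG] c)) :=
      (hasDerivAt_wp k).continuousAt.tendsto.comp (by simpa using tendsto_uu.add_const c)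
    have k2 := tendsto_q1.mul ((k1.mul_const (rho ^ 2)).pow 2)
    rw [zero_mul] at k2
    refine one_ne_zero (tendsto_nhds_unique tendsto_tt (k2.congr' (ev_pos.mono fun w hw => ?_)))
    simp only [← (hc w hw).2.1, div_mul_cancel₀ _ (pow_ne_zero 2 n), ux_sq hw]
  obtain ⟨k1, k2, k3⟩ := hc τ h
  exact ⟨fun h => k1 (add_mem h hcL), (k2.trans (EA.LG.weierstrassP_add_coe _ ⟨c, hcL⟩)).symm,
    (k3.trans (EA.LG.derivWeierstrassP_add_coe _ ⟨c, hcL⟩)).symm⟩

theorem un_uu (h : 0 < τ.im) :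
    ∃ k, EA.un (uu τ) = .some (ux τ / rho ^ 2) (-uy τ / rho ^ 3) k := by
  obtain ⟨h1, h2, h3⟩ := uu_spec h
  have := EA.un_some h1
  rwa [h2, h3, show -2 * uy τ / rho ^ 3 / 2 = -uy τ / rho ^ 3 by ring] at this

theorem wp_unit {ζ : G} (hζ : ζ ^ 4 = 1) (u : ℂ) :
    (ζ * u ∈ EA.LG.lattice ↔ u ∈ EA.LG.lattice) ∧ ℘[EA.LG] (ζ * u) = ζ ^ 2 * ℘[EA.LG] u ∧
      ℘'[EA.LG] (ζ * u) = ζ * ℘'[EA.LG] u := by
  have hi : ii * ii = -1 := by decide
  have : (ζ - 1) * ((ζ + 1) * ((ζ - ii) * (ζ + ii))) = 0 := by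
    linear_combination hζ - (ζ ^ 2 - 1) * hi
  simp only [mul_eq_zero, sub_eq_zero, add_eq_zero_iff_eq_neg] at this
  rcases this with rfl | rfl | rfl | rfl <;>
    simp [EA.ii_coe, EA.I_mem_LG, EA.wp_I, EA.wp'_I]

theorem uu_mob (hd : a * d - b * (10 * c) = 1) (h : 0 < τ.im) :
    uu (mob a b (10 * c) d τ) - xi b d * uu τ ∈ EA.LG.lattice := by
  obtain ⟨h1, h2, h3⟩ := uu_spec h
  obtain ⟨k1, k2, k3⟩ := uu_spec (im_mob_pos (by omega : 0 < a * d - b * (10 * c)) h)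
  obtain ⟨l1, l2, l3⟩ := wp_unit (xi_four hd) (uu τ)
  exact Unif.sub_mem_of_P_eq _ k1 (mt l1.1 h1) (by rw [k2, l2, h2, ux_mob hd h]; ring)
    (by rw [k3, l3, h3, uy_mob hd h]; ring)

/-- The period does not depend on the point. -/
theorem uu_mob' (hd : a * d - b * (10 * c) = 1) : ∃ l ∈ EA.LG.lattice, ∀ τ : ℂ, 0 < τ.im →
    uu (mob a b (10 * c) d τ) = xi b d * uu τ + l := by
  obtain ⟨l, hl⟩ := const_of_deriv (G := fun z => uu (mob a b (10 * c) d z) - xi b d * uu z)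
    fun z hz => ((hasDerivAt_uu_mob (by omega) hz).sub
      ((hasDerivAt_uu hz).const_mul _)).congr_deriv (by rw [sy_fY.inv a b c d hd z hz]; ring)
  exact ⟨l, hl I (by simp) ▸ uu_mob hd (by simp), fun τ h => by rw [← hl τ h]; ring⟩

/-- Equivalence under an element with a given value of the character. -/
def EqX (χ : G) (z w : ℂ) : Prop :=
  ∃ a b c d : ℤ, a * d - b * (10 * c) = 1 ∧ xi b d = χ ∧ w = mob a b (10 * c) d z

theorem EqX.trans {χ χ' : G} {v : ℂ} (h : EqX χ z w) (h' : EqX χ' w v) (hz : 0 < z.im) :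
    EqX (χ' * χ) z v := by
  obtain ⟨a, b, c, d, h, rfl, rfl⟩ := h
  obtain ⟨a', b', c', d', h', rfl, rfl⟩ := h'
  refine ⟨a' * a + b' * (10 * c), a' * b + b' * d, c' * a + d' * c, 10 * c' * b + d' * d,
    by linear_combination (a' * d' - b' * (10 * c')) * h + h', xi_mul h' h, ?_⟩
  rw [mob_mob (by omega) _ _ _ _ hz]
  congr 1
  ring

theorem EqX.symm {χ : G} (h : EqX χ z w) (hz : 0 < z.im) : ∃ χ', χ * χ' = 1 ∧ EqX χ' w z := by
  obtain ⟨a, b, c, d, h, rfl, rfl⟩ := h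
  have h' : d * a - -b * (10 * -c) = 1 := by linear_combination h
  refine ⟨_, ?_, d, -b, -c, a, h', rfl, by rw [mul_neg, Unif.mob_adj (by omega) hz]⟩
  rw [← xi_mul h h', show a * -b + b * a = 0 by ring,
    show 10 * c * -b + d * a = 1 by linear_combination h]
  decide

/-- An elliptic point. -/
theorem eqX_ell (hz : 0 < z.im) (h : uy z = 0) : EqX (-1) z z := by
  obtain ⟨v, hv⟩ : ∃ v : ℂ, v = (-3 + I) / 10 := ⟨_, rfl⟩
  have h0 : 0 < v.im := by rw [hv]; simp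
  have e : v = mob (-3) (-1) (10 * 1) 3 v := by
    rw [mob, eq_div_iff (den_ne (a := -3) (b := -1) (by norm_num) h0), hv]
    push_cast
    linear_combination (1 / 10) * I_mul_I
  have e1 : xi (-1 : ℤ) (3 : ℤ) = -1 := by decide
  have e2 := uy_mob (a := -3) (b := -1) (c := 1) (d := 3) (by norm_num) h0
  rw [← e, e1, map_neg, map_one] at e2
  have k : ∀ {z : ℂ}, 0 < z.im → uy z = 0 → tt z = 1 + 2 * I := fun {z} hz h => by
    refine mul_left_cancel₀ (ux_ne hz) ?_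
    rw [← ux_sq hz]
    linear_combination uy z * h - uy_sq hz
  obtain ⟨a, b, c, d, hd, e3⟩ := eq0_of_tt hz h0
    ((k hz h).trans (k h0 (by linear_combination e2 / 2)).symm)
  have f1 : EqX (xi b d) z v := ⟨a, b, c, d, hd, rfl, e3⟩
  obtain ⟨χ, f2, f3⟩ := f1.symm hz
  have := (f1.trans (show EqX (-1) v v from ⟨-3, -1, 1, 3, by norm_num, e1, e⟩) hz).trans f3 hz
  rwa [show χ * (-1 * xi b d) = -1 by linear_combination -f2] at this

theorem uu_inj (hz : 0 < z.im) (hw : 0 < w.im) : uu z - uu w ∈ EA.LG.lattice ↔ EqY z w := by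
  constructor
  · intro h
    obtain ⟨-, h2, h3⟩ := uu_spec hz
    obtain ⟨-, k2, k3⟩ := uu_spec hw
    have e : uu z = uu w + (⟨_, h⟩ : EA.LG.lattice) := by simp
    rw [e, weierstrassP_add_coe, k2, div_left_inj' (pow_ne_zero 2 rho_ne)] at h2
    rw [e, derivWeierstrassP_add_coe, k3, div_left_inj' (pow_ne_zero 3 rho_ne),
      mul_right_inj' (by norm_num)] at h3
    obtain ⟨a, b, c, d, hd, rfl⟩ := eq0_of_tt hz hw (by rw [← ux_sq hz, ← ux_sq hw, h2])
    rw [ux_mob hd hz, mul_eq_right₀ (ux_ne hz), ← map_pow, ← map_one GaussianInt.toComplex,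
      GaussianInt.toComplex_inj, sq_eq_one_iff] at h2
    rcases h2 with h2 | h2
    · exact ⟨a, b, c, d, hd, h2, rfl⟩
    rw [uy_mob hd hz, h2, map_neg, map_one] at h3
    have := (eqX_ell hz (by linear_combination -h3 / 2)).trans ⟨a, b, c, d, hd, h2, rfl⟩ hz
    rwa [neg_mul_neg, one_mul] at this
  · rintro ⟨a, b, c, d, hd, e, rfl⟩
    have := neg_mem (uu_mob hd hz)
    rwa [e, map_one, one_mul, neg_sub] at this

theorem exists_lim {F g : ℂ → ℂ} {κ : ℂ} (hg : Hol g) (hp : ∀ z : ℂ, 0 < z.im → g (z + 1) = g z)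
    (h0 : Tendsto g atI (𝓝 0)) (hF : ∀ z : ℂ, 0 < z.im → HasDerivAt F (κ * g z) z) :
    ∃ u, Tendsto F atI (𝓝 u) := by
  obtain ⟨A, hA⟩ := QE.exists_of_periodic hg hp (Bdd.of_tendsto h0)
  have e0 := tendsto_nhds_unique hA.tendsto h0
  have hP : QE (fun z => ∑' n, coeff n A / n * q1 z ^ n) (PowerSeries.mk fun n => coeff n A / n) :=
    QE.of_hasSum fun z hz => by
      obtain ⟨H, hH, _⟩ := hA
      simp only [coeff_mk]
      refine (Summable.of_norm_bounded (hH.summable_norm (norm_q1_lt hz)) fun n => ?_).hasSum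
      rw [norm_mul, norm_mul, norm_div]
      gcongr
      rcases Nat.eq_zero_or_pos n with rfl | hn
      · simp
      · exact div_le_self (norm_nonneg _) (by simpa using Nat.succ_le_of_lt hn)
  obtain ⟨F₁, h1, h2⟩ := hP.hasDerivAt
  have h3 : X * d⁄dX ℂ (PowerSeries.mk fun n => coeff n A / n) = A := by
    ext n
    rcases n with _ | n
    · simpa using e0.symm
    · have : (n + 1 : ℂ) ≠ 0 := Nat.cast_add_one_ne_zero n
      simp [coeff_succ_X_mul, coeff_derivative, this]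
  rw [h3] at h1
  obtain ⟨c, hc⟩ := const_of_deriv
    (G := fun z => F z - κ / (2 * π * I) * ∑' n, coeff n A / n * q1 z ^ n) fun z hz =>
      ((hF z hz).sub ((h2 z hz).const_mul _)).congr_deriv (by
        rw [← mul_assoc, div_mul_cancel₀ _ two_pi_I_ne_zero, hA.eq_of_eq h1 hz, sub_self])
  exact ⟨_, ((hP.tendsto.const_mul (κ / (2 * π * I))).add_const c).congr'
    (ev_pos.mono fun z hz => by simp only [← hc z hz]; ring)⟩

theorem eqY_al (i : Fin 4) : ∃ a b c d : ℤ, a * d - b * (10 * c) = 1 ∧ xi b d = 1 ∧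
    ∀ z : ℂ, 0 < z.im → al i (z + 4) = mob a b (10 * c) d (al i z) := by
  have k : ∀ a b c d : ℤ, (a * (alM i).1 + b * (alM i).2.2.1 = (alM i).1 ∧
      a * (alM i).2.1 + b * (alM i).2.2.2 = 4 * (alM i).1 + (alM i).2.1 ∧
      c * (alM i).1 + d * (alM i).2.2.1 = (alM i).2.2.1 ∧
      c * (alM i).2.1 + d * (alM i).2.2.2 = 4 * (alM i).2.2.1 + (alM i).2.2.2) →
      ∀ z : ℂ, 0 < z.im → al i (z + 4) = mob a b c d (al i z) := fun a b c d e z hz => by
    rw [al, mob_mob (alM_det i).ne' _ _ _ _ hz, e.1, e.2.1, e.2.2.1, e.2.2.2, mob, mob]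
    push_cast
    congr 1 <;> ring
  fin_cases i
  exacts [⟨1, 4, 0, 1, rfl, by decide, k _ _ _ _ (by decide)⟩,
    ⟨-39, 8, -20, 41, rfl, by decide, k _ _ _ _ (by decide)⟩,
    ⟨-39, 20, -8, 41, rfl, by decide, k _ _ _ _ (by decide)⟩,
    ⟨1, 0, -4, 1, rfl, by decide, k _ _ _ _ (by decide)⟩]

/-- The values at the cusps. -/
theorem uu_cusp (i : Fin 4) : ∃ u : ℂ, Tendsto (fun z => uu (al i z)) atI (𝓝 u) ∧
    (i = 0 → u = 0) ∧ (i ≠ 0 → u ∉ EA.LG.lattice ∧ (℘[EA.LG] u * rho ^ 2) ^ 2 = alT i) := by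
  obtain ⟨C, hC⟩ := sy_fY.bd
  obtain ⟨g, hg⟩ : ∃ g, g = sl (alM i).1 (alM i).2.1 (alM i).2.2.1 (alM i).2.2.2 fY := ⟨_, rfl⟩
  have h1 : ∀ z : ℂ, 0 < z.im → HasDerivAt (fun z => uu (al i z)) (rho * (π * I / 2 * g z)) z :=
    fun z hz => hg ▸ hasDerivAt_uu_mob (alM_det i) hz
  have h2 : ∀ z : ℂ, 0 < z.im → g (z + 4) = g z := fun z hz => by
    obtain ⟨a, b, c, d, hd, e, e'⟩ := eqY_al i
    obtain ⟨l, -, hl⟩ := uu_mob' hd
    have := deriv_eq_of_ev ((h1 (z + 4) (by simpa using hz)).comp_add_const z 4)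
      ((h1 z hz).add_const l) (mem_of_superset (Unif.upper_mem_nhds hz) fun w hw => by
        rw [Set.mem_ofPred_eq, e' w hw, hl _ (al_im_pos i hw), e, map_one, one_mul])
    exact mul_left_cancel₀ (by simp) (mul_left_cancel₀ rho_ne this)
  have h4 : ∀ z : ℂ, 0 < z.im → 0 < (4 * z).im := fun z hz => by simpa using hz
  obtain ⟨u, hu⟩ := exists_lim (F := fun z => uu (al i (4 * z))) (g := fun z => g (4 * z))
    (κ := rho * (2 * π * I))
    (fun z hz => (hg ▸ sy_fY.hol.sl (alM_det i) _ (h4 z hz) : DifferentiableAt ℂ g _).comp z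
      (by fun_prop)) (fun z hz => by rw [mul_add, mul_one, h2 _ (h4 z hz)])
    (by simpa [Function.comp_def] using (hg ▸ tendsto_zero_of_bd (bd_sl hC (alM_det i)) :
      Tendsto g atI _).comp (tendsto_affine (r := 4) (by norm_num) 0))
    fun z hz => ((h1 _ (h4 z hz)).comp z ((hasDerivAt_id z).const_mul 4)).congr_deriv (by ring)
  have hu' : Tendsto (fun z => uu (al i z)) atI (𝓝 u) :=
    (hu.comp (tendsto_affine (r := 1 / 4) (by norm_num) 0)).congr fun z => by simp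
  refine ⟨u, hu', ?_, fun hi => ?_⟩
  · rintro rfl
    exact tendsto_nhds_unique hu' (tendsto_uu.congr fun z => by rw [al_zero])
  have e : ∀ᶠ z in atI, (℘[EA.LG] (uu (al i z)) * rho ^ 2) ^ 2 = tt (al i z) :=
    ev_pos.mono fun z hz => by
      rw [(uu_spec (al_im_pos i hz)).2.1, div_mul_cancel₀ _ (pow_ne_zero 2 rho_ne),
        ux_sq (al_im_pos i hz)]
  have hn : u ∉ EA.LG.lattice := fun h => by
    have k1 := (Unif.tendsto_P _ h).comp (tendsto_nhdsWithin_iff.mpr ⟨hu',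
      ev_pos.mono fun z hz e => (uu_spec (al_im_pos i hz)).1 (Set.mem_singleton_iff.mp e ▸ h)⟩)
    have k2 := (tendsto_pow_cobounded_cobounded (two_ne_zero)).comp
      ((tendsto_mul_right_cobounded (pow_ne_zero 2 rho_ne)).comp k1)
    exact (tendsto_tt_al hi).not_tendsto (Metric.disjoint_nhds_cobounded _) (k2.congr' e)
  exact ⟨hn, tendsto_nhds_unique ((((hasDerivAt_wp hn).continuousAt.tendsto.comp hu').mul_const
    _).pow 2) ((tendsto_tt_al hi).congr' (EventuallyEq.symm e))⟩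

theorem uu_surj {u : ℂ} (h : u ∉ EA.LG.lattice) (h0 : ℘[EA.LG] u ≠ 0)
    (h1 : (℘[EA.LG] u * rho ^ 2) ^ 2 ≠ 1) (h5 : (℘[EA.LG] u * rho ^ 2) ^ 2 ≠ 5) :
    ∃ z : ℂ, 0 < z.im ∧ uu z - u ∈ EA.LG.lattice := by
  have n := pow_ne_zero 2 rho_ne
  obtain ⟨z, hz, e⟩ : ∃ z : ℂ, 0 < z.im ∧ ux z = ℘[EA.LG] u * rho ^ 2 := by
    obtain ⟨z, hz, e⟩ := tt_surj (pow_ne_zero 2 (mul_ne_zero h0 n)) h1 h5
    rw [← ux_sq hz, sq_eq_sq_iff_eq_or_eq_neg] at e
    rcases e with e | e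
    · exact ⟨z, hz, e⟩
    · refine ⟨z + 1, by simpa using hz, ?_⟩
      rw [ux, (u_T hz).1, (u_T hz).2, ← neg_eq_iff_eq_neg.2 e, ux]
      linear_combination (ua z * ub z) * I_mul_I
  rcases (wp_eq_iff (uu_spec hz).1 h).1 (by rw [(uu_spec hz).2.1, e, mul_div_cancel_right₀ _ n])
    with k | k
  · have := sub_mem (uu_mob (a := 1) (b := 2) (c := 0) (d := 1) rfl hz) k
    rw [show xi (2 : ℤ) (1 : ℤ) = -1 by decide, map_neg, map_one] at this
    exact ⟨_, im_mob_pos (a := 1) (b := 2) (c := 10 * 0) (d := 1) (by norm_num) hz,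
      by convert this using 1; ring⟩
  · exact ⟨z, hz, k⟩

end Pool.Agent.Lib.MP_696deb_nt.Y2
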