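import Pool.Agent.Lib.MP_696deb_nt.Y2.TH1
import Pool.Agent.Lib.MP_696deb_nt.Y2.M7
import Pool.Agent.Lib.MP_696deb_nt.Y2.A9
import Pool.Agent.Lib.MP_696deb_nt.Y2.AP7
import Pool.Agent.Lib.MP_696deb_nt.Y2.AG3

/-! The curve of level twenty satisfies the conditions of the analytic side. -/

set_option autoImplicit false

open Complex Filter Topology CongruenceSubgroup
open UpperHalfPlane hiding I
open scoped Real ComplexConjugate Classical MatrixGroups

namespace Pool.Agent.Lib.MP_696deb_nt.Y2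

open QF (G ii ip mem_reps)

/-- The curve. -/
noncomputable def crvY : An.Crv :=
  { levY with u := 4, L := EA.LG, ρ := rho, a := fun m => (aG m : ℂ), f := fY, φ := uu }

/-- The matrix with given entries. -/
def mk10 {a b c d : ℤ} (h : a * d - b * (10 * c) = 1) : SL(2, ℤ) :=
  ⟨!![a, b; 10 * c, d], by rw [Matrix.det_fin_two_of, h]⟩

theorem mk10_mem {a b c d : ℤ} (h : a * d - b * (10 * c) = 1) : mk10 h ∈ Gamma0 10 :=
  Gamma0_mem.2 ((ZMod.intCast_zmod_eq_zero_iff_dvd _ 10).2 ⟨c, rfl⟩)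

theorem mk10_smul {a b c d : ℤ} (h : a * d - b * (10 * c) = 1) (z : ℍ) :
    ((mk10 h • z : ℍ) : ℂ) = mob a b (10 * c) d z := coe_smul_eq_mob _ z

theorem exists_mob10 {g : SL(2, ℤ)} (hg : g ∈ Gamma0 10) : ∃ c : ℤ, g 1 0 = 10 * c ∧
    g 0 0 * g 1 1 - g 0 1 * (10 * c) = 1 ∧
      ∀ z : ℍ, ((g • z : ℍ) : ℂ) = mob (g 0 0) (g 0 1) (10 * c) (g 1 1) z := by
  obtain ⟨c, hc⟩ := (ZMod.intCast_zmod_eq_zero_iff_dvd _ 10).mp (Gamma0_mem.mp hg)
  rw [Nat.cast_ofNat] at hc
  exact ⟨c, hc, hc ▸ det_SL g, fun z => hc ▸ coe_smul_eq_mob g z⟩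

theorem levY_ok : levY.Ok where
  Npos := by decide
  hpos := by decide
  mul g hg g' hg' := by
    obtain ⟨c, e, h, -⟩ := exists_mob10 hg
    obtain ⟨c', -, h', -⟩ := exists_mob10 hg'
    simp only [levY]
    rw [← map_mul, ← xi_mul h h', ← e]
    simp [Matrix.mul_apply, Fin.sum_univ_two]
  norm g hg := by
    obtain ⟨c, -, h, -⟩ := exists_mob10 hg
    exact (M4.xi_conj h).2.1
  neg := by
    have : xi 0 (-1) = 1 := by decide
    simp [levY, this]
  ker := ⟨20, by decide, by decide, fun g hg => by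
    obtain ⟨-, h1, -, h2⟩ := Gamma_mem.1 hg
    have : xi 0 1 = 1 := by decide
    simp only [levY]
    rw [h1, h2, this, map_one]⟩

theorem fY_cf : levY.Cf fY where
  hol := sy_fY.hol
  law g hg z := by
    obtain ⟨c, e, h, e'⟩ := exists_mob10 hg
    have h1 := sy_fY.inv _ _ _ _ h z z.im_pos
    have h2 := An.jac_ne g z
    rw [sl, h, ← e', ← e, Int.cast_one, one_mul, ← An.jac, div_eq_iff (pow_ne_zero 2 h2)] at h1
    rw [h1, mul_right_comm]
    rfl
  bd := sy_fY.bd.imp fun _ h z => h z z.im_pos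

theorem exists_unit {ζ : ℂ} (h : ζ ^ 4 = 1) :
    ∃ b : ℤ, (ii ^ b.toNat : G) = ζ ∧ xi b (1 : ℤ) = ii ^ b.toNat := by
  have e : (ζ - 1) * (ζ - I) * (ζ + 1) * (ζ + I) = 0 := by
    linear_combination h - (ζ ^ 2 - 1) * I_mul_I
  simp only [mul_eq_zero, sub_eq_zero, add_eq_zero_iff_eq_neg] at e
  rcases e with ((e | e) | e) | e <;> subst e
  exacts [⟨0, by simp, by decide⟩, ⟨1, by simp [EA.ii_coe], by decide⟩,
    ⟨2, by simp [EA.ii_coe], by decide⟩, ⟨3, by simp [EA.ii_coe, pow_succ], by decide⟩]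

theorem tendsto_coe_atI : Tendsto (fun z : ℍ => (z : ℂ)) atImInfty atI :=
  tendsto_comap_iff.2 tendsto_comap

theorem crvY_ok : crvY.Ok where
  lev := levY_ok
  cf := fY_cf
  two := by decide
  rho := rho_ne
  rot ζ h l hl := by
    obtain ⟨b, rfl, -⟩ := exists_unit h
    exact EA.mul_mem_LG _ hl
  pow g hg := by
    obtain ⟨c, -, h, -⟩ := exists_mob10 hg
    exact (M4.xi_conj h).1
  onto ζ h := by
    obtain ⟨b, rfl, e⟩ := exists_unit h
    exact ⟨mk10 (a := 1) (b := b) (c := 0) (d := 1) (by ring), mk10_mem _,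
      congrArg GaussianInt.toComplex e⟩
  a0 := by simp [crvY, aG, reps_zero, Finset.filter_singleton]
  ne := ⟨1, by simp [crvY, aG_one]⟩
  qf := qe_fY
  qφ := by
    have e : (PowerSeries.mk fun m => rho * aG m / m) =
        PowerSeries.C rho * PowerSeries.mk fun m => (aG m : ℂ) / m := by
      ext m
      simp [mul_div_assoc]
    exact e ▸ qe_phi.smul rho
  law g hg z := by
    obtain ⟨c, -, h, e⟩ := exists_mob10 hg
    exact e z ▸ uu_mob h z.im_pos
  inj z w h := by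
    obtain ⟨a, b, c, d, h1, h2, e⟩ := (uu_inj w.im_pos z.im_pos).1 
      (neg_sub (uu z) (uu w) ▸ neg_mem h)
    exact ⟨mk10 h1, mk10_mem h1, (congrArg GaussianInt.toComplex h2).trans (map_one _),
      UpperHalfPlane.ext (e.trans (mk10_smul h1 w).symm)⟩
  cusp g := by
    obtain ⟨i, Q, k, α, β, γ, δ, hQ, -, -, -, -, h, e⟩ := exists_decomp (det_SL g)
    obtain ⟨l, hl, e'⟩ := uu_mob' h
    obtain ⟨u, hu, h0, h1⟩ := uu_cusp i
    have Q0 : (0 : ℝ) < Q := by exact_mod_cast hQ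
    have t : Tendsto (fun z : ℂ => (z + k) / Q) atI atI :=
      (tendsto_affine (inv_pos.2 Q0) (k / Q)).congr fun z => by push_cast; ring
    refine ⟨xi β δ * u + l, ((((hu.comp t).const_mul _).add_const l).comp tendsto_coe_atI).congr
      fun z => ?_, fun w hw => ?_⟩
    · have : 0 < ((z + k : ℂ) / Q).im := by
        rw [← ofReal_intCast Q, div_ofReal_im]
        simpa using div_pos z.im_pos Q0
      change _ = uu _
      rw [coe_smul_eq_mob, e _ z.im_pos, e' _ (al_im_pos i this)]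
      rfl
    · have k1 : xi β δ * u - uu w ∈ EA.LG.lattice := by
        rw [show xi β δ * u - uu w = xi β δ * u + l - uu w - l by ring]
        exact sub_mem hw hl
      obtain ⟨s1, s2, -⟩ := uu_spec w.im_pos
      obtain ⟨u1, u2, -⟩ := wp_unit (xi_four h) u
      rcases eq_or_ne i 0 with rfl | hi
      · rw [h0 rfl, mul_zero, zero_sub] at k1
        exact s1 (neg_mem_iff.1 k1)
      · have k2 := EA.LG.weierstrassP_add_coe (uu w) ⟨_, k1⟩
        rw [add_sub_cancel, u2, s2, eq_div_iff (pow_ne_zero 2 rho_ne)] at k2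
        have k3 : tt w = alT i := by
          rw [← ux_sq w.im_pos, ← k2, ← (h1 hi).2]
          linear_combination (EA.LG.weierstrassP u * rho ^ 2) ^ 2 * (M4.xi_conj h).1
        fin_cases i
        exacts [hi rfl, tt_ne_one w.im_pos (by simpa [alT] using k3),
          tt_ne w.im_pos (by simpa [alT] using k3), tt_ne_five w.im_pos (by simpa [alT] using k3)]

theorem norm_aN_le : ∃ C : ℝ, ∀ m : ℕ, ‖(aN m : ℂ)‖ ≤ C * (1 + m : ℝ) ^ 2 := by
  obtain ⟨C, C0, hC⟩ := card_reps_rpow one_pos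
  refine ⟨C, fun m => ?_⟩
  have h1 : ∀ α ∈ (QF.reps m).filter fun α => r5 α = 1, ‖(α : ℂ)‖ ≤ 1 + m := fun α hα => by
    have e : ‖(α : ℂ)‖ ^ 2 = m := by
      rw [Complex.sq_norm, ← GaussianInt.intCast_real_norm, mem_reps.1 (Finset.mem_filter.1 hα).1,
        Int.cast_natCast]
    nlinarith [sq_nonneg (‖(α : ℂ)‖ - 1), norm_nonneg (α : ℂ)]
  have h2 : (((QF.reps m).filter fun α => r5 α = 1).card : ℝ) ≤ (QF.reps m).card := by
    exact_mod_cast Finset.card_filter_le _ _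
  have h3 := hC m
  rw [Real.rpow_one] at h3
  rw [aN, map_sum, sq, ← mul_assoc]
  refine (norm_sum_le _ _).trans ((Finset.sum_le_card_nsmul _ _ _ h1).trans ?_)
  rw [nsmul_eq_mul]
  exact mul_le_mul_of_nonneg_right (h2.trans h3) (by positivity)

theorem fY_cusp : An.Cusp 10 fY g5 2 2 fun m => -(1 + I) * aN m where
  npos := by decide
  epos := by decide
  width j := by
    rw [Gamma0_mem, ZMod.intCast_zmod_eq_zero_iff_dvd]
    have : (g5⁻¹ * ModularGroup.T ^ j * g5) 1 0 = -25 * j := by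
      simp [g5, ModularGroup.coe_T_zpow, Matrix.SpecialLinearGroup.SL2_inv_expl, Matrix.mul_apply]
      ring
    rw [this]
    omega
  zero := by simp [aN, reps_zero, Finset.sum_filter]
  bd := by
    obtain ⟨C, hC⟩ := norm_aN_le
    exact ⟨‖-(1 + I)‖ * C, fun m => by
      rw [norm_mul, mul_assoc]; exact mul_le_mul_of_nonneg_left (hC m) (norm_nonneg _)⟩
  sum w := by
    have e0 : g5⁻¹ 0 0 = 1 ∧ g5⁻¹ 0 1 = 0 ∧ g5⁻¹ 1 0 = -5 ∧ g5⁻¹ 1 1 = 1 := by
      simp [g5, Matrix.SpecialLinearGroup.SL2_inv_expl]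
    have hj : An.jac g5⁻¹ w * An.jac g5 (g5⁻¹ • w : ℍ) = 1 := by
      rw [mul_comm, ← An.jac_mul, mul_inv_cancel, An.jac_one]
    have h1 : (1 + I) ≠ 0 := fun h => by simpa using congrArg Complex.re h
    have h := (qe_fY'.hasSum (z := w / 2) (by simpa using w.im_pos)).mul_left (-(1 + I))
    have e : An.fs fY g5 w = -(1 + I) * (-sl 1 0 (-5) 1 fY (2 * (w / 2)) / (1 + I)) := by
      rw [An.fs, eq_inv_of_mul_eq_one_right hj, coe_smul_eq_mob, An.jac, e0.1, e0.2.1, e0.2.2.1,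
        e0.2.2.2, mul_div_cancel₀ _ two_ne_zero, sl]
      push_cast
      field_simp
    refine e ▸ hasSum_congr h fun m => ?_
    rw [PowerSeries.coeff_mk, ← q1_nat_mul, mul_assoc, mul_div_assoc, Nat.cast_ofNat]

/-- The analytic side for the curve of level twenty. -/
theorem anY : An.AnStmt levY (fun m => aG m) g5 2 fun m => -(1 + I) * aN m :=
  An.an_of_proj levY_ok fY_cf crvY_ok.proj fY_cusp

/-- The Green function of the curve of level twenty. -/
theorem greenY : An.GreenStmt crvY := crvY_ok.green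

end Pool.Agent.Lib.MP_696deb_nt.Y2
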