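import Pool.Agent.Lib.MP_696deb_nt.Y2.A1
import Pool.Agent.Lib.MP_60ff09_nt.Dih.ANm

/-! The periodic zeta function of a lattice and rotations. -/

set_option autoImplicit false

open Complex Filter Topology Set MeasureTheory CongruenceSubgroup
open UpperHalfPlane hiding I
open scoped Real MatrixGroups ComplexConjugate Modular Classical
open Pool.Agent.Shared.Weier Pool.Agent.Dih

namespace Pool.Agent.Lib.MP_696deb_nt.Y2.An

/-- The periodic zeta function of a lattice. -/
noncomputable def ZL (L : PeriodPair) (v : ℂ) : ℂ := zet L v - Shared.Weier.eta L v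

/-- The logarithm of the norm of the Klein form of a lattice. -/
noncomputable def lamL (L : PeriodPair) (v : ℂ) : ℝ :=
  nerLam (Shared.Weier.sig L) (Shared.Weier.eta L) v

/-- A rotation that preserves the lattice. -/
structure Rot (L : PeriodPair) (ζ : ℂ) : Prop where
  norm : ‖ζ‖ = 1
  mem : ∀ l, ζ * l ∈ L.lattice ↔ l ∈ L.lattice

/-- The kernel summed over the rotations. -/
noncomputable def Crv.Zs (Y : Crv) (p q : ℂ) : ℂ := ∑ ζ ∈ mu Y.u, ZL Y.L (p - ζ * q)

variable {L : PeriodPair} {ζ : ℂ} {u : ℕ}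

theorem ZL_add {l : ℂ} (hl : l ∈ L.lattice) (v : ℂ) (hv : v ∉ L.lattice) :
    ZL L (v + l) = ZL L v := by
  rw [ZL, ZL, zet_add hl hv, map_add, add_sub_add_right_eq_sub]

private theorem ap1_cont {v : ℂ} (hv : v ∉ L.lattice) : ContinuousAt (ZL L) v :=
  (analyticAt_zet hv).continuousAt.sub (Shared.Weier.eta L).continuous.continuousAt

theorem measurable_ZL (L : PeriodPair) : Measurable (ZL L) :=
  measurable_of_countable_not_continuousAt
    ((Shared.Weier.countable_lattice (L := L)).mono fun _ h => by_contra fun h' => h (ap1_cont h'))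

private theorem ap1_ae (L : PeriodPair) : ∀ᵐ p : ℂ, p ∉ L.lattice :=
  (Shared.Weier.countable_lattice (L := L)).ae_notMem _

private theorem ap1_near (L : PeriodPair) (x : ℂ) : ∃ B : ℂ → ℂ, ContinuousAt B 0 ∧
    ∀ p ∉ L.lattice, ZL L (p + x) = B p / p := by
  by_cases hx : x ∈ L.lattice
  · refine ⟨fun p => 1 + p * (zet0 L p - Shared.Weier.eta L p),
      continuousAt_const.add (continuousAt_id.mul (analyticAt_zet0.continuousAt.sub
        (Shared.Weier.eta L).continuous.continuousAt)), fun p hp => ?_⟩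
    rw [ZL_add hx p hp, ZL, zet, add_div, mul_div_cancel_left₀ _ (ne_zero_of_notMem hp),
      add_sub_assoc]
  · exact ⟨fun p => p * ZL L (p + x), continuousAt_id.mul ((ap1_cont hx).comp_of_eq
      (continuous_add_const x).continuousAt (zero_add x)),
      fun p hp => (mul_div_cancel_left₀ _ (ne_zero_of_notMem hp)).symm⟩

private theorem ap1_loc (L : PeriodPair) {r : ℝ} (h0 : 0 < r) (h2 : r < 2) :
    LocallyIntegrable fun p => ‖ZL L p‖ ^ r := by
  intro x
  obtain ⟨B, hB, h⟩ := ap1_near L x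
  obtain ⟨ε, hε, h1⟩ := Metric.eventually_nhds_iff_ball.1
    (hB.norm.eventually (eventually_le_nhds (lt_add_one _)))
  refine ⟨_, Metric.ball_mem_nhds x hε, ?_⟩
  rw [← (measurePreserving_add_right volume x).integrableOn_comp_preimage
    (MeasurableEquiv.addRight x).measurableEmbedding, Metric.preimage_add_right_ball, sub_self]
  refine integrableOn_ball_of_norm_le_rpow (C := (‖B 0‖ + 1) ^ r) (α := r) (by simp) (by simpa)
    ?_ ((((measurable_ZL L).norm.pow_const r).comp
      (measurable_add_const x)).aestronglyMeasurable)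
  filter_upwards [ae_restrict_of_ae (ap1_ae L), ae_restrict_mem measurableSet_ball] with p hp hb
  rw [Function.comp_apply, Real.norm_of_nonneg (by positivity), h p hp, norm_div,
    Real.div_rpow (norm_nonneg _) (norm_nonneg _), Real.rpow_neg (norm_nonneg _), div_eq_mul_inv]
  have := h1 p hb
  gcongr

theorem lintegral_ZL_rpow (L : PeriodPair) {r : ℝ} (h0 : 0 < r) (h2 : r < 2) (R : ℝ) :
    ∃ C : ℝ, ∀ v : ℂ, ∫⁻ p in Metric.closedBall (0 : ℂ) R, ENNReal.ofReal (‖ZL L (v - p)‖ ^ r) ≤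
      ENNReal.ofReal C := by
  refine ⟨_, fun v => le_trans ?_ (ENNReal.ofReal_toReal (((ap1_loc L h0 h2).integrableOn_isCompact
    (isCompact_closedBall 0 (∑ i, ‖L.basis i‖ + R))).setLIntegral_lt_top.ne)).ge⟩
  have h1 : (ZSpan.floor L.basis v : ℂ) ∈ L.lattice := by
    rw [L.lattice_eq_span_range_basis]
    exact (ZSpan.floor L.basis v).2
  have h3 := Measure.measurePreserving_sub_left (volume : Measure ℂ) (ZSpan.fract L.basis v)
  refine le_trans ?_ (h3.setLIntegral_comp_preimage_emb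
    (MeasurableEquiv.subLeft _).measurableEmbedding _ _).le
  refine (lintegral_congr_ae (ae_restrict_of_ae ?_)).trans_le (lintegral_mono_set fun p hp => ?_)
  · filter_upwards [h3.quasiMeasurePreserving.ae (ap1_ae L)] with p hp
    rw [← ZL_add h1 _ hp, ZSpan.fract_apply, sub_add_eq_add_sub, sub_add_cancel]
  · exact mem_closedBall_zero_iff.2
      (norm_sub_le_of_le (ZSpan.norm_fract_le _ _) (mem_closedBall_zero_iff.1 hp))

private theorem Rot.mul_conj (h : Rot L ζ) : ζ * conj ζ = 1 := by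
  rw [Complex.mul_conj', h.norm, ofReal_one, one_pow]

private theorem Rot.ne (h : Rot L ζ) : ζ ≠ 0 := left_ne_zero_of_mul_eq_one h.mul_conj

private theorem Rot.conj_eq (h : Rot L ζ) : conj ζ = ζ⁻¹ := eq_inv_of_mul_eq_one_right h.mul_conj

private theorem Rot.exists_equiv (h : Rot L ζ) :
    ∃ e : L.lattice ≃ L.lattice, ∀ l, (e l : ℂ) = ζ * l :=
  ⟨(Equiv.mulLeft₀ ζ h.ne).subtypeEquiv fun l => (h.mem l).symm, fun _ => rfl⟩

theorem Rot.sig_mul (h : Rot L ζ) (v : ℂ) :
    Shared.Weier.sig L (ζ * v) = ζ * Shared.Weier.sig L v := by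
  obtain ⟨e, he⟩ := h.exists_equiv
  rw [Shared.Weier.sig, Shared.Weier.sig, mul_assoc, sig0, sig0, ← e.tprod_eq]
  simp only [he, mul_div_mul_left _ _ h.ne]

theorem Rot.zet_mul (h : Rot L ζ) (v : ℂ) : zet L (ζ * v) = conj ζ * zet L v := by
  obtain ⟨e, he⟩ := h.exists_equiv
  have h0 := h.ne
  rw [zet, zet, zet0, zet0, ← e.tsum_eq, mul_add, ← tsum_mul_left, h.conj_eq]
  congr 1
  · rw [one_div, one_div, mul_inv]
  · refine tsum_congr fun l => ?_
    rw [he, ← mul_sub, show (ζ * l) ^ 2 * (ζ * (v - l)) = ζ ^ 2 * (ζ * (l ^ 2 * (v - l))) by ring,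
      mul_pow, mul_div_mul_left _ _ (pow_ne_zero 2 h0), div_mul_eq_div_div_swap, div_eq_inv_mul]

theorem Rot.eta_mul (h : Rot L ζ) (v : ℂ) :
    Shared.Weier.eta L (ζ * v) = conj ζ * Shared.Weier.eta L v := by
  have h1 : ∀ l ∈ L.lattice,
      Shared.Weier.eta L (ζ * l) = conj ζ * Shared.Weier.eta L l := fun l hl => by
    have hw := L.ω₁_div_two_notMem_lattice
    have h2 := zet_add ((h.mem l).2 hl) (mt (h.mem _).1 hw)
    rw [← mul_add, h.zet_mul, h.zet_mul, zet_add hl hw] at h2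
    linear_combination -h2
  rw [← L.basis.sum_repr v, Fin.sum_univ_two]
  simp only [PeriodPair.basis_zero, PeriodPair.basis_one, mul_add, mul_smul_comm, map_add, map_smul,
    h1 _ L.ω₁_mem_lattice, h1 _ L.ω₂_mem_lattice]

theorem Rot.ZL_mul (h : Rot L ζ) (v : ℂ) : ZL L (ζ * v) = conj ζ * ZL L v := by
  rw [ZL, ZL, h.zet_mul, h.eta_mul, mul_sub]

theorem Rot.lamL_mul (h : Rot L ζ) (v : ℂ) : lamL L (ζ * v) = lamL L v := by
  rw [lamL, lamL, nerLam, nerLam, h.sig_mul, h.eta_mul, norm_mul, h.norm, one_mul,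
    mul_mul_mul_comm, h.mul_conj, one_mul]

private theorem ap1_lam {v : ℂ} (hv : v ∉ L.lattice) : lamL L v =
    Real.log ‖Shared.Weier.sig L v * cexp (-(Shared.Weier.eta L v * v / 2))‖ := by
  rw [norm_mul, Real.log_mul (norm_ne_zero_iff.2 (sig_ne hv)) (norm_ne_zero_iff.2 (exp_ne_zero _)),
    norm_exp, Real.log_exp, neg_re, div_ofNat_re, mul_comm, lamL, nerLam, sub_eq_add_neg]

theorem lamL_add {l : ℂ} (hl : l ∈ L.lattice) (v : ℂ) (hv : v ∉ L.lattice) :
    lamL L (v + l) = lamL L v := by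
  rw [ap1_lam hv, ap1_lam (add_notMem hv hl), norm_klein_add hl]

theorem continuousAt_lamL {v : ℂ} (hv : v ∉ L.lattice) : ContinuousAt (lamL L) v :=
  ((differentiable_sig L).continuous.continuousAt.norm.log (norm_ne_zero_iff.2 (sig_ne hv))).sub
    ((continuous_re.comp (continuous_id.mul
      (Shared.Weier.eta L).continuous)).continuousAt.div_const 2)

theorem measurable_lamL (L : PeriodPair) : Measurable (lamL L) :=
  measurable_of_countable_not_continuousAt
    ((Shared.Weier.countable_lattice (L := L)).mono fun _ h =>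
      by_contra fun h' => h (continuousAt_lamL h'))

theorem deriv_sig_ne {l : ℂ} (hl : l ∈ L.lattice) : deriv (Shared.Weier.sig L) l ≠ 0 := by
  obtain ⟨e, he, -, h⟩ := sig_add hl
  have h1 := ((((hasDerivAt_id (0 : ℂ)).add_const (l / 2)).const_mul
    (Shared.Weier.eta L l)).cexp.const_mul e).mul (hasDerivAt_sig_zero L)
  have h2 : HasDerivAt (fun z => Shared.Weier.sig L (z + l)) (deriv (Shared.Weier.sig L) l) 0 :=
    HasDerivAt.comp_add_const 0 l (by rw [zero_add]; exact (differentiable_sig L l).hasDerivAt)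
  have h3 := h2.unique (h1.congr_of_eventuallyEq (.of_forall h))
  rw [h3, sig_zero, mul_zero, zero_add, mul_one]
  exact mul_ne_zero (by rcases he with rfl | rfl <;> simp) (exp_ne_zero _)

/-- The local form of the zeta function at a simple pole. -/
theorem zet_loc {G φ : ℂ → ℂ} {s c : ℂ} (hG : AnalyticAt ℂ G s) (h1 : deriv G s ≠ 0)
    (hφ : DifferentiableAt ℂ φ s) (hc : G s - c ∈ L.lattice) :
    (∀ᶠ q in 𝓝[≠] s, G q - c ∉ L.lattice) ∧ ∃ a,
      Tendsto (fun q => zet L (G q - c) * φ q - φ s / deriv G s * (q - s)⁻¹) (𝓝[≠] s) (𝓝 a) := by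
  have hD : DifferentiableAt ℂ (dslope G s) s := by
    obtain ⟨p, hp⟩ := hG
    exact hp.has_fpower_series_dslope_fslope.differentiableAt
  have hD0 : dslope G s s ≠ 0 := by rwa [dslope_same]
  have hu : Tendsto (fun q => G q - G s) (𝓝[≠] s) (𝓝 0) := by
    simpa using (hG.continuousAt.tendsto.sub_const (G s)).mono_left nhdsWithin_le_nhds
  have hne : ∀ᶠ q in 𝓝[≠] s, dslope G s q ≠ 0 :=
    mem_nhdsWithin_of_mem_nhds (hD.continuousAt.eventually_ne hD0)
  have he : ∀ q, G q - G s = (q - s) * dslope G s q := fun q => (sub_smul_dslope G s q).symm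
  have hn : ∀ᶠ q in 𝓝[≠] s, G q - G s ∉ L.lattice := by
    refine (tendsto_nhdsWithin_iff.mpr ⟨hu, ?_⟩).eventually (Shared.Weier.ev_notMem (L := L) 0)
    filter_upwards [hne, self_mem_nhdsWithin] with q h2 h3
    rw [he]
    exact mul_ne_zero (sub_ne_zero.mpr h3) h2
  refine ⟨hn.mono fun q h2 h3 => h2 (by simpa using sub_mem h3 hc), ?_⟩
  have h4 := hasDerivAt_iff_tendsto_slope.mp (hφ.div hD hD0).hasDerivAt
  have h5 := (((analyticAt_zet0 (L := L)).continuousAt.tendsto.comp hu).add_const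
    (Shared.Weier.eta L (G s - c))).mul (hφ.continuousAt.tendsto.mono_left nhdsWithin_le_nhds)
  refine ⟨_, (h4.add h5).congr' ?_⟩
  filter_upwards [hn, hne, self_mem_nhdsWithin] with q h2 h3 h6
  have h7 : q - s ≠ 0 := sub_ne_zero.mpr h6
  rw [show G q - c = (G q - G s) + (G s - c) by ring, zet_add hc h2, zet, slope_def_field]
  simp only [Function.comp, Pi.div_apply, dslope_same]
  rw [show 1 / (G q - G s) = 1 / ((q - s) * dslope G s q) by rw [he]]
  field_simp
  ring

theorem mem_mu (hu : 0 < u) : ζ ∈ mu u ↔ ζ ^ u = 1 := Polynomial.mem_nthRootsFinset hu 1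

theorem card_mu (hu : 0 < u) : (mu u).card = u :=
  (Complex.isPrimitiveRoot_exp u hu.ne').card_nthRootsFinset

theorem sum_mu_mul {M : Type} [AddCommMonoid M] (hu : 0 < u) (hζ : ζ ^ u = 1) (F : ℂ → M) :
    ∑ x ∈ mu u, F (x * ζ) = ∑ x ∈ mu u, F x := by
  have h0 : ζ ≠ 0 := fun e => by simp [e, hu.ne'] at hζ
  refine Finset.sum_equiv (Equiv.mulRight₀ ζ h0) (fun x => ?_) fun _ _ => rfl
  rw [mem_mu hu, mem_mu hu, Equiv.mulRight₀_apply, mul_pow, hζ, mul_one]

theorem sum_mu_conj (hu : 2 ≤ u) : ∑ x ∈ mu u, conj x = 0 := by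
  have h := Complex.isPrimitiveRoot_exp u (by omega)
  have h1 := sum_mu_mul (by omega) h.pow_eq_one fun x : ℂ => x
  rw [← Finset.sum_mul] at h1
  rw [← map_sum, show ∑ x ∈ mu u, x = 0 from
    by_contra fun e => h.ne_one hu ((mul_eq_left₀ e).1 h1), map_zero]

end Pool.Agent.Lib.MP_696deb_nt.Y2.An
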