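import Pool.Agent.Lib.MP_696deb_nt.Y2.AP1
import Pool.Agent.Lib.MP_60ff09_nt.Dih.ANl

/-! The uniformising function of the curve. -/

set_option autoImplicit false

open Complex Filter Topology Set MeasureTheory CongruenceSubgroup
open UpperHalfPlane hiding I
open scoped Real MatrixGroups ComplexConjugate Modular Classical
open Pool.Agent.Shared.Weier Pool.Agent.Dih

namespace Pool.Agent.Lib.MP_696deb_nt.Y2.An

variable {Y : Crv} {ζ : ℂ}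

theorem Crv.Ok.upos (h : Y.Ok) : 0 < Y.u := two_pos.trans_le h.two

theorem Crv.Ok.rot' (h : Y.Ok) (hζ : ζ ^ Y.u = 1) : Rot Y.L ζ :=
  ⟨norm_eq_one_of_pow_eq_one hζ h.upos.ne', fun l => ⟨fun k => by
    have e := h.rot (ζ ^ (Y.u - 1)) (by rw [← pow_mul, mul_comm, pow_mul, hζ, one_pow]) _ k
    rwa [← mul_assoc, ← pow_succ, Nat.sub_add_cancel h.upos, hζ, one_mul] at e, h.rot ζ hζ l⟩⟩

theorem Crv.Ok.conj_pow (h : Y.Ok) (hζ : ζ ^ Y.u = 1) : conj ζ ^ Y.u = 1 ∧ ζ * conj ζ = 1 :=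
  ⟨by rw [← map_pow, hζ, map_one],
    by rw [Complex.mul_conj', (h.rot' hζ).norm, ofReal_one, one_pow]⟩

theorem ap2_deriv (h : Y.Ok) {z : ℂ} (hz : 0 < z.im) :
    HasDerivAt Y.φ (2 * π * I * Y.ρ / Y.h * Y.f z) z := by
  obtain ⟨F, h1, h2⟩ := h.qφ.hasDerivAt
  have h0 : (Y.h : ℂ) ≠ 0 := Nat.cast_ne_zero.2 h.lev.hpos.ne'
  have e : PowerSeries.X * PowerSeries.derivative ℂ (PowerSeries.mk fun m => Y.ρ * Y.a m / m) =
      PowerSeries.C Y.ρ * PowerSeries.mk Y.a := by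
    ext n
    rw [PowerSeries.coeff_C_mul, PowerSeries.coeff_mk]
    rcases n with _ | n
    · rw [PowerSeries.coeff_zero_X_mul, h.a0, mul_zero]
    · rw [PowerSeries.coeff_succ_X_mul, PowerSeries.coeff_derivative, PowerSeries.coeff_mk,
        Nat.cast_succ, div_mul_cancel₀ _ (Nat.cast_add_one_ne_zero n)]
  rw [e] at h1
  have h3 : 0 < (z / Y.h).im := by
    rw [div_natCast_im]
    exact div_pos hz (Nat.cast_pos.2 h.lev.hpos)
  have h4 := (h2 _ h3).comp z ((hasDerivAt_id z).div_const (Y.h : ℂ))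
  rw [h1.eq_of_eq (h.qf.smul Y.ρ) h3, mul_div_cancel₀ _ h0] at h4
  refine (h4.congr_deriv (by ring)).congr_of_eventuallyEq (.of_forall fun w => ?_)
  simp only [Function.comp_apply, id, mul_div_cancel₀ _ h0]

theorem Crv.Ok.hol_φ (h : Y.Ok) : Hol Y.φ := fun _ hz => (ap2_deriv h hz).differentiableAt

theorem Crv.Ok.hasDerivAt_φ (h : Y.Ok) {z : ℂ} (hz : 0 < z.im) :
    HasDerivAt Y.φ (2 * π * I * Y.ρ / Y.h * Y.f z) z := ap2_deriv h hz

theorem Crv.Ok.exists_ne (h : Y.Ok) : ∃ z : ℍ, Y.f z ≠ 0 := by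
  by_contra k
  obtain ⟨m, hm⟩ := h.ne
  have e := h.qf.unique (QE.const 0) fun z hz => by_contra fun k1 =>
    k ⟨⟨Y.h * z, by simpa using mul_pos (Nat.cast_pos.2 h.lev.hpos) hz⟩, k1⟩
  have e1 := congrArg (PowerSeries.coeff m) e
  rw [PowerSeries.coeff_mk, map_zero, map_zero] at e1
  exact hm e1

theorem Crv.Ok.ae_ne (h : Y.Ok) : ∀ᵐ z : ℍ, Y.f z ≠ 0 := by
  have h1 : IsOpen {z : ℂ | 0 < z.im} := isOpen_lt continuous_const Complex.continuous_im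
  have h2 : AnalyticOnNhd ℂ Y.f {z : ℂ | 0 < z.im} :=
    DifferentiableOn.analyticOnNhd (fun z hz => (h.cf.hol z hz).differentiableWithinAt) h1
  have h3 : MeasurePreserving UpperHalfPlane.coe (volume.comap UpperHalfPlane.coe)
      (volume.restrict (range UpperHalfPlane.coe)) :=
    ⟨measurable_coe, measurableEmbedding_coe.map_comap _⟩
  have h4 : range UpperHalfPlane.coe = {z : ℂ | 0 < z.im} :=
    Set.ext fun z => ⟨fun ⟨w, e⟩ => e ▸ w.im_pos, fun hz => ⟨⟨z, hz⟩, rfl⟩⟩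
  rcases h2.eqOn_zero_or_eventually_ne_zero_of_preconnected
    (convex_halfSpace_im_gt 0).isPreconnected with k | k
  · obtain ⟨z, hz⟩ := h.exists_ne
    exact absurd (k z.im_pos) hz
  · rw [h4] at h3
    rw [volume_def]
    exact (withDensity_absolutelyContinuous _ _).ae_le
      (h3.quasiMeasurePreserving.ae (ae_restrict_le_codiscreteWithin h1.measurableSet k))

theorem Crv.Ok.f_smul_ne (h : Y.Ok) {w : ℍ} (hw : Y.f w ≠ 0) {g : SL(2, ℤ)} (hg : g ∈ Gamma0 Y.N) :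
    Y.f (g • w : ℍ) ≠ 0 := by
  rw [h.cf.law g hg w]
  exact mul_ne_zero (mul_ne_zero (left_ne_zero_of_mul_eq_one (h.lev.mul_conj hg))
    (pow_ne_zero _ (jac_ne g w))) hw

theorem Crv.Ok.mem_iff (h : Y.Ok) (hζ : ζ ^ Y.u = 1) (z w : ℍ) :
    Y.φ z - ζ * Y.φ w ∈ Y.L.lattice ↔ ∃ g ∈ Gamma0 Y.N, Y.ξ g = ζ ∧ z = g • w := by
  refine ⟨fun k => ?_, fun ⟨g, hg, e1, e2⟩ => e1 ▸ e2 ▸ h.law g hg w⟩
  obtain ⟨g₀, h0, rfl⟩ := h.onto ζ hζ
  have k1 := sub_mem k (h.law g₀ h0 w)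
  rw [sub_sub_sub_cancel_right] at k1
  obtain ⟨g, hg, e1, e2⟩ := h.inj _ _ k1
  exact ⟨g * g₀, mul_mem hg h0, by rw [h.lev.mul g hg g₀ h0, e1, one_mul], by rw [mul_smul, e2]⟩

theorem Crv.Ok.mem_iff' (h : Y.Ok) (hζ : ζ ^ Y.u = 1) (z w : ℍ) :
    ζ * Y.φ z - Y.φ w ∈ Y.L.lattice ↔ ∃ g ∈ Gamma0 Y.N, ζ * Y.ξ g = 1 ∧ z = g • w := by
  obtain ⟨h1, h2⟩ := h.conj_pow hζ
  have e : ζ * Y.φ z - Y.φ w = ζ * (Y.φ z - conj ζ * Y.φ w) := by
    rw [mul_sub, ← mul_assoc, h2, one_mul]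
  rw [e, (h.rot' hζ).mem, h.mem_iff h1]
  refine exists_congr fun g => and_congr_right fun _ => and_congr_left fun _ =>
    ⟨fun k => k ▸ h2, fun k => ?_⟩
  rw [← one_mul (Y.ξ g), ← h2, mul_right_comm, k, one_mul]

theorem Crv.Ok.notMem (h : Y.Ok) (hζ : ζ ^ Y.u = 1) (w : ℍ) : ζ * Y.φ w ∉ Y.L.lattice := by
  obtain ⟨c, h1, h2⟩ := h.cusp 1
  have h0 : (Y.h : ℂ) ≠ 0 := Nat.cast_ne_zero.2 h.lev.hpos.ne'
  have h3 := (h.qφ.tendsto.comp (tendsto_affine (r := (Y.h : ℝ)⁻¹)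
    (inv_pos.2 (Nat.cast_pos.2 h.lev.hpos)) 0)).comp UpperHalfPlane.tendsto_coe_atImInfty
  rw [PowerSeries.coeff_mk, Nat.cast_zero, div_zero] at h3
  have h4 : c = 0 := tendsto_nhds_unique h1 (h3.congr fun z => by
    simp only [Function.comp_apply, one_smul, add_zero, ofReal_inv, ofReal_natCast,
      mul_inv_cancel_left₀ h0])
  rw [(h.rot' hζ).mem]
  exact fun k => h2 w (by rw [h4, zero_sub]; exact Y.L.lattice.neg_mem k)

theorem Crv.Ok.cusp' (h : Y.Ok) (g : SL(2, ℤ)) :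
    ∃ c : ℂ, Tendsto (fun z : ℍ => Y.φ (g • z : ℍ)) atImInfty (𝓝 c) ∧
      ∀ ζ : ℂ, ζ ^ Y.u = 1 → ∀ w : ℍ, ζ * c - Y.φ w ∉ Y.L.lattice := by
  obtain ⟨c, h1, h2⟩ := h.cusp g
  refine ⟨c, h1, fun ζ hζ w k => ?_⟩
  obtain ⟨h3, h4⟩ := h.conj_pow hζ
  obtain ⟨g₀, h0, e0⟩ := h.onto _ h3
  have e : ζ * c - Y.φ w = ζ * (c - conj ζ * Y.φ w) := by
    rw [mul_sub, ← mul_assoc, h4, one_mul]
  rw [e, (h.rot' hζ).mem, ← e0] at k
  have k1 := sub_mem k (h.law g₀ h0 w)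
  rw [sub_sub_sub_cancel_right] at k1
  exact h2 _ k1

theorem Crv.Ok.φ_bdd (h : Y.Ok) : ∃ R : ℝ, ∀ z ∈ XN Y.N, ‖Y.φ z‖ ≤ R := by
  have key : ∀ g : SL(2, ℤ), ∃ R : ℝ, ∀ z ∈ 𝒟, ‖Y.φ (g • z : ℍ)‖ ≤ R := fun g => by
    obtain ⟨c, h1, -⟩ := h.cusp g
    obtain ⟨A, hA⟩ := (atImInfty_mem _).1
      (h1.norm.eventually (eventually_le_nhds (lt_add_one ‖c‖)))
    obtain ⟨R, hR⟩ :=
      (ModularGroup.isCompact_truncatedFundamentalDomain A).exists_bound_of_continuousOn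
        (f := fun z : ℍ => Y.φ (g • z : ℍ)) (h.hol_φ.continuous_coe.comp (anf_cont g)).continuousOn
    refine ⟨max R (‖c‖ + 1), fun z hz => ?_⟩
    rcases le_total z.im A with k | k
    · exact (hR z ⟨hz, k⟩).trans (le_max_left _ _)
    · exact (hA z k).trans (le_max_right _ _)
  choose R H using key
  have := finite_quot h.lev.Npos
  obtain ⟨q₀, hq₀⟩ := Finite.exists_max fun q : SL(2, ℤ) ⧸ Gamma0 Y.N => R q.out⁻¹
  refine ⟨R q₀.out⁻¹, fun z hz => ?_⟩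
  obtain ⟨q, z₀, h0, rfl⟩ := exists_of_mem_XN hz
  exact (H _ z₀ h0).trans (hq₀ q)

theorem Crv.Ok.lintegral_ZL (h : Y.Ok) {r : ℝ} (h0 : 0 < r) (h2 : r < 2) :
    ∃ C : ℝ, ∀ ζ : ℂ, ζ ^ Y.u = 1 → ∀ v : ℂ, ∫⁻ z in XN Y.N,
      ENNReal.ofReal (‖ZL Y.L (v - ζ * Y.φ z)‖ ^ r * (‖Y.f z‖ * z.im) ^ 2) ≤ ENNReal.ofReal C := by
  obtain ⟨R, hR⟩ := h.φ_bdd
  obtain ⟨C, hC⟩ := lintegral_ZL_rpow Y.L h0 h2 R
  have hd := fun z : ℂ => h.hasDerivAt_φ (z := z)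
  have c0 : (2 * π * I * Y.ρ / Y.h : ℂ) ≠ 0 :=
    div_ne_zero (mul_ne_zero two_pi_I_ne_zero h.rho) (Nat.cast_ne_zero.2 h.lev.hpos.ne')
  generalize (2 * π * I * Y.ρ / Y.h : ℂ) = c at hd c0
  have key : ∀ v : ℂ, ∫⁻ z in XN Y.N, ENNReal.ofReal
      (‖ZL Y.L (v - Y.φ z)‖ ^ r * (‖c * Y.f z‖ * z.im) ^ 2) ≤ ENNReal.ofReal C := fun v => by
    refine le_trans ?_ ((lintegral_mono_set (s := Y.φ '' ((↑) '' XN Y.N)) ?_).trans (hC v))
    · have h1 := measurableEmbedding_coe.measurableSet_image.2 (measurableSet_XN Y.N)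
      have h3 : MeasurePreserving UpperHalfPlane.coe (volume.comap UpperHalfPlane.coe)
          (volume.restrict (range UpperHalfPlane.coe)) :=
        ⟨measurable_coe, measurableEmbedding_coe.map_comap _⟩
      have hi : InjOn Y.φ ((↑) '' XN Y.N) :=
        forall_mem_image.2 fun z hz => forall_mem_image.2 fun w hw e => by
          obtain ⟨g, hg, -, rfl⟩ := h.inj z w (by rw [e, sub_self]; exact zero_mem _)
          rw [eq_of_mem_XN hw hg hz]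
      rw [lintegral_image_eq_lintegral_abs_det_fderiv_mul volume h1 (f' := fun z =>
        (ContinuousLinearMap.toSpanSingleton ℂ (c * Y.f z)).restrictScalars ℝ)
        (forall_mem_image.2 fun z _ => ((hd z z.im_pos).hasFDerivAt.restrictScalars
          ℝ).hasFDerivWithinAt) hi, volume_def, restrict_withDensity (measurableSet_XN Y.N),
        ← inter_eq_self_of_subset_left (image_subset_range _ _),
        ← Measure.restrict_restrict h1, ← h3.setLIntegral_comp_emb measurableEmbedding_coe]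
      refine (lintegral_withDensity_le_lintegral_mul _ (by fun_prop) _).trans
        (lintegral_mono fun z => ?_)
      rw [Pi.mul_apply, ← ENNReal.ofReal_coe_nnreal, ← ENNReal.ofReal_mul (by positivity),
        ← ENNReal.ofReal_mul (by positivity)]
      refine ENNReal.ofReal_le_ofReal (le_of_eq ?_)
      have h5 := z.im_pos.ne'
      generalize c * Y.f z = d
      simp [ContinuousLinearMap.det, LinearMap.det_restrictScalars, Algebra.norm_complex_eq,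
        Complex.normSq_eq_norm_sq]
      field_simp
    · rintro _ ⟨_, ⟨z, hz, rfl⟩, rfl⟩
      exact mem_closedBall_zero_iff.2 (hR z hz)
  have c1 : ‖c‖ ≠ 0 := norm_ne_zero_iff.2 c0
  refine ⟨(‖c‖ ^ 2)⁻¹ * C, fun ζ hζ v => ?_⟩
  rw [ENNReal.ofReal_mul (by positivity)]
  refine le_trans (le_of_eq ?_) (mul_le_mul_right (key (conj ζ * v)) _)
  rw [← lintegral_const_mul' _ _ ENNReal.ofReal_ne_top]
  refine lintegral_congr fun z => ?_
  have e : v - ζ * Y.φ z = ζ * (conj ζ * v - Y.φ z) := by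
    rw [mul_sub, ← mul_assoc, (h.conj_pow hζ).2, one_mul]
  rw [← ENNReal.ofReal_mul (by positivity), e, (h.rot' hζ).ZL_mul, norm_mul, norm_conj,
    (h.rot' hζ).norm, one_mul, norm_mul]
  congr 1
  field_simp

/-- The kernel is invariant in the second variable. -/
theorem Crv.Ok.Zs_right (h : Y.Ok) {g : SL(2, ℤ)} (hg : g ∈ Gamma0 Y.N) {z w : ℍ}
    (hz : ∀ γ ∈ Gamma0 Y.N, z ≠ γ • w) : Y.Zs (Y.φ z) (Y.φ (g • w : ℍ)) = Y.Zs (Y.φ z) (Y.φ w) := by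
  rw [Crv.Zs, Crv.Zs, ← sum_mu_mul h.upos (h.pow g hg) fun x => ZL Y.L (Y.φ z - x * Y.φ w)]
  refine Finset.sum_congr rfl fun x hx => ?_
  have h1 := (mem_mu h.upos).1 hx
  have h2 : (x * Y.ξ g) ^ Y.u = 1 := by rw [mul_pow, h1, h.pow g hg, one_mul]
  rw [← ZL_add (Y.L.lattice.neg_mem (h.rot x h1 _ (h.law g hg w))) (Y.φ z - x * Y.ξ g * Y.φ w)
    fun k => ((h.mem_iff h2 z w).1 k).elim fun γ k1 => hz γ k1.1 k1.2.2]
  congr 1
  ring

/-- The law of the kernel in the first variable. -/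
theorem Crv.Ok.Zs_left (h : Y.Ok) {g : SL(2, ℤ)} (hg : g ∈ Gamma0 Y.N) {z w : ℍ}
    (hz : ∀ γ ∈ Gamma0 Y.N, z ≠ γ • w) :
    Y.Zs (Y.φ (g • z : ℍ)) (Y.φ w) = conj (Y.ξ g) * Y.Zs (Y.φ z) (Y.φ w) := by
  obtain ⟨h3, h4⟩ := h.conj_pow (h.pow g hg)
  rw [Crv.Zs, Crv.Zs, ← sum_mu_mul h.upos h3 fun x => ZL Y.L (Y.φ z - x * Y.φ w), Finset.mul_sum]
  refine Finset.sum_congr rfl fun x hx => ?_
  have h1 := (mem_mu h.upos).1 hx
  have h2 : (x * conj (Y.ξ g)) ^ Y.u = 1 := by rw [mul_pow, h1, h3, one_mul]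
  rw [← (h.rot' (h.pow g hg)).ZL_mul, ← ZL_add (h.law g hg z) _ fun k =>
    ((h.mem_iff h2 z w).1 (((h.rot' (h.pow g hg)).mem _).1 k)).elim fun γ k1 => hz γ k1.1 k1.2.2]
  congr 1
  linear_combination (x * Y.φ w) * h4

theorem Crv.measurable_Zs (Y : Crv) : Measurable fun v : ℂ × ℂ => Y.Zs v.1 v.2 :=
  Finset.measurable_sum _ fun _ _ =>
    (measurable_ZL Y.L).comp (measurable_fst.sub (measurable_snd.const_mul _))

end Pool.Agent.Lib.MP_696deb_nt.Y2.An
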