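import Pool.Agent.Lib.MP_696deb_nt.Y2.AP2

/-! A residue computation on horocycles: one rotation. -/

set_option autoImplicit false

open Complex Filter Topology Set MeasureTheory CongruenceSubgroup
open UpperHalfPlane hiding I
open scoped Real MatrixGroups ComplexConjugate Modular Classical
open Pool.Agent.Shared.Weier Pool.Agent.Dih

namespace Pool.Agent.Lib.MP_696deb_nt.Y2.An

variable {Y : Crv} {ζ : ℂ}

theorem ap4_inj {k : ℕ} (hk : 0 < k) {z w : ℍ} (hz : 0 ≤ z.re ∧ z.re < k)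
    (hw : 0 ≤ w.re ∧ w.re < k) (h : q1 (z / k) = q1 (w / k)) : z = w := by
  obtain ⟨n, hn⟩ := Complex.exp_eq_exp_iff_exists_int.mp h
  have k0 : (k : ℂ) ≠ 0 := Nat.cast_ne_zero.2 hk.ne'
  have k1 : (0 : ℝ) < k := Nat.cast_pos.2 hk
  have h0 : (z : ℂ) / k = w / k + n := mul_left_cancel₀ two_pi_I_ne_zero (by linear_combination hn)
  have h1 : (z : ℂ) = w + n * k := by
    field_simp at h0
    linear_combination h0
  have h2 : z.re = w.re + n * k := by simpa using congrArg Complex.re h1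
  have h3 : (n : ℝ) < 1 := by nlinarith [hz.2, hw.1]
  have h4 : (-1 : ℝ) < n := by nlinarith [hz.1, hw.2]
  have h5 : n = 0 := by
    have : n < 1 := by exact_mod_cast h3
    have : -1 < n := by exact_mod_cast h4
    omega
  exact UpperHalfPlane.ext (by simpa [h5] using h1)

theorem ap4_surj {k : ℕ} (hk : 0 < k) {q : ℂ} (hq : ‖q‖ < 1) (h0 : q ≠ 0) :
    ∃ z : ℍ, (0 ≤ z.re ∧ z.re < k) ∧ q1 (z / k) = q := by
  obtain ⟨z, hz, rfl⟩ := exists_q1 hq h0
  have k0 : (k : ℂ) ≠ 0 := Nat.cast_ne_zero.2 hk.ne'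
  have k1 : (0 : ℝ) < k := Nat.cast_pos.2 hk
  have e : ((k : ℂ) * (z + (-⌊z.re⌋ : ℤ))).re = k * Int.fract z.re := by
    simp [Int.fract, sub_eq_add_neg]
  refine ⟨⟨k * (z + (-⌊z.re⌋ : ℤ)), by simpa using mul_pos k1 hz⟩, ⟨?_, ?_⟩, ?_⟩
  · exact (mul_nonneg k1.le (Int.fract_nonneg _)).trans e.ge
  · exact e.trans_lt (mul_lt_of_lt_one_right k1 (Int.fract_lt_one _))
  · change q1 (k * _ / k) = _
    rw [mul_div_cancel_left₀ _ k0, q1_add, q1_int, mul_one]

theorem Crv.Ok.res_one (h : Y.Ok) {α : ℂ} {β : ℝ}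
    (hη : ∀ v, Shared.Weier.eta Y.L v = α * v + β * conj v) {m : ℕ} (hm : 0 < m) {y : ℝ}
    (hy : 0 < y) {w : ℍ} (hf : Y.f w ≠ 0) (hne : ∀ g : SL(2, ℤ), (g • w).im ≠ y)
    (hζ : ζ ^ Y.u = 1) :
    ∃ S : Finset ℍ, (∀ z : ℍ, z ∈ S ↔ (0 ≤ z.re ∧ z.re < Y.h ∧ y < z.im) ∧
        Y.φ z - ζ * Y.φ w ∈ Y.L.lattice) ∧
      Continuous (fun x : ℝ => ZL Y.L (Y.φ (x + y * I) - ζ * Y.φ w)) ∧
      ∫ x in (0 : ℝ)..Y.h, ZL Y.L (Y.φ (x + y * I) - ζ * Y.φ w) * q1 (m * (x + y * I) / Y.h) =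
        Y.h * (∑ z ∈ S, q1 (m * z / Y.h) / (Y.ρ * Y.f z) -
          β * conj (Y.ρ * Y.a m) / m * Real.exp (-4 * π * m * y / Y.h)) := by
  obtain ⟨G, hG, hF⟩ := h.qφ
  obtain ⟨n, rfl⟩ : ∃ n, m = n + 1 := ⟨m - 1, by omega⟩
  have k0 : (Y.h : ℂ) ≠ 0 := Nat.cast_ne_zero.2 h.lev.hpos.ne'
  have k1 : (0 : ℝ) < Y.h := Nat.cast_pos.2 h.lev.hpos
  have hnm := h.notMem hζ w
  have hfz : ∀ z : ℍ, Y.φ z - ζ * Y.φ w ∈ Y.L.lattice → Y.f z ≠ 0 ∧ z.im ≠ y := fun z hz => by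
    obtain ⟨g, hg, -, rfl⟩ := (h.mem_iff hζ z w).1 hz
    exact ⟨h.f_smul_ne hf hg, hne g⟩
  generalize ζ * Y.φ w = c at hnm hfz ⊢
  set t := y / Y.h with ht
  have ht0 : 0 < t := div_pos hy k1
  set r := Real.exp (-2 * π * t) with hr
  have hr0 : 0 < r := Real.exp_pos _
  have hr1 : r < 1 := by rw [hr, Real.exp_lt_one_iff]; nlinarith [Real.pi_pos]
  have him : ∀ x : ℝ, 0 < ((x : ℂ) + y * I).im := fun x => by simpa using hy
  have hdiv : ∀ z : ℂ, (z / Y.h).im = z.im / Y.h := fun z => Complex.div_natCast_im z _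
  have hpos : ∀ z : ℂ, 0 < z.im → 0 < (z / Y.h).im := fun z hz => hdiv z ▸ div_pos hz k1
  have hF' : ∀ z : ℂ, 0 < z.im → Y.φ z = G (q1 (z / Y.h)) := fun z hz => by
    have := hF (z / Y.h) (hpos z hz)
    rwa [show (fun z => Y.φ (Y.h * z)) (z / Y.h) = Y.φ z from
      congrArg Y.φ (mul_div_cancel₀ z k0)] at this
  have hA : ∀ q : ℂ, ‖q‖ < 1 → AnalyticAt ℂ G q := fun q hq =>
    hG.differentiableOn.analyticAt (Metric.isOpen_ball.mem_nhds (by simpa using hq))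
  have hD : ∀ z : ℂ, 0 < z.im → q1 (z / Y.h) * deriv G (q1 (z / Y.h)) = Y.ρ * Y.f z :=
    fun z hz => by
      have h2 : HasDerivAt (fun v : ℂ => q1 (v / Y.h)) (2 * π * I * q1 (z / Y.h) * (1 / Y.h)) z :=
        HasDerivAt.comp (h₂ := q1) (h := fun v : ℂ => v / Y.h) z (hasDerivAt_q1 (z / Y.h))
          ((hasDerivAt_id z).div_const (Y.h : ℂ))
      have h3 := (hG.differentiableAt (norm_q1_lt (hpos z hz))).hasDerivAt.comp z h2
      have h4 : Y.φ =ᶠ[𝓝 z] G ∘ fun v : ℂ => q1 (v / Y.h) := by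
        filter_upwards [(isOpen_lt continuous_const Complex.continuous_im).mem_nhds hz] with v hv
        exact hF' v hv
      have h5 := (h3.congr_of_eventuallyEq h4).unique (h.hasDerivAt_φ hz)
      exact mul_left_cancel₀ (div_ne_zero two_pi_I_ne_zero k0) (by linear_combination h5)
  have h0 : ∀ q : ℂ, G q - c ∈ Y.L.lattice → q ≠ 0 := by
    rintro q hq rfl
    rw [hG.apply_zero] at hq
    exact hnm (by simpa using hq)
  have hD' : ∀ q : ℂ, ‖q‖ < 1 → G q - c ∈ Y.L.lattice → deriv G q ≠ 0 := fun q hq h1 e => by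
    obtain ⟨z, -, rfl⟩ := ap4_surj h.lev.hpos hq (h0 q h1)
    rw [← hF' z z.im_pos] at h1
    exact mul_ne_zero h.rho (hfz z h1).1 (by rw [← hD z z.im_pos, e, mul_zero])
  have hfin : (Metric.closedBall (0 : ℂ) r \ {q | G q - c ∉ Y.L.lattice}).Finite := by
    refine (isCompact_closedBall _ _).finite_sdiff_of_mem_codiscreteWithin
      (mem_codiscreteWithin.mpr fun q hq => disjoint_principal_right.mpr ?_)
    have hq1 : ‖q‖ < 1 := lt_of_le_of_lt (by simpa using hq) hr1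
    have : ∀ᶠ p in 𝓝[≠] q, G p - c ∉ Y.L.lattice := by
      by_cases h1 : G q - c ∈ Y.L.lattice
      · exact (zet_loc (hA q hq1) (hD' q hq1 h1) differentiableAt_id h1).1
      · exact mem_nhdsWithin_of_mem_nhds (((hA q hq1).continuousAt.sub continuousAt_const)
          (isOpen_compl.mem_nhds h1))
    exact this.mono fun p hp h1 => h1.2 hp
  have hlt : ∀ z : ℍ, ‖q1 (z / Y.h)‖ < r ↔ y < z.im := fun z => by
    rw [norm_q1, hr, Real.exp_lt_exp, hdiv, coe_im, ht,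
      mul_lt_mul_left_of_neg (by nlinarith [Real.pi_pos]), div_lt_div_iff_of_pos_right k1]
  have hle : ∀ z : ℍ, ‖q1 (z / Y.h)‖ ≤ r → y ≤ z.im := fun z hz => by
    rwa [norm_q1, hr, Real.exp_le_exp, hdiv, coe_im, ht,
      mul_le_mul_left_of_neg (by nlinarith [Real.pi_pos]), div_le_div_iff_of_pos_right k1] at hz
  have hinj : InjOn (fun z : ℍ => q1 (z / Y.h))
      {z : ℍ | (0 ≤ z.re ∧ z.re < Y.h ∧ y < z.im) ∧ Y.φ z - c ∈ Y.L.lattice} :=
    fun z hz v hv e => ap4_inj h.lev.hpos ⟨hz.1.1, hz.1.2.1⟩ ⟨hv.1.1, hv.1.2.1⟩ e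
  have hT := Set.Finite.of_finite_image (hfin.subset (by
    rintro _ ⟨z, ⟨h1, h2⟩, rfl⟩
    exact ⟨by simpa using ((hlt z).2 h1.2.2).le, fun e => e (hF' z z.im_pos ▸ h2)⟩)) hinj
  have hmem : ∀ z : ℍ, z ∈ hT.toFinset ↔
      (0 ≤ z.re ∧ z.re < Y.h ∧ y < z.im) ∧ Y.φ z - c ∈ Y.L.lattice := fun z => hT.mem_toFinset
  generalize hT.toFinset = T at hmem
  have hφc : Continuous fun x : ℝ => Y.φ (x + y * I) - c :=
    Continuous.sub (continuous_iff_continuousAt.mpr fun x => ContinuousAt.comp (g := Y.φ)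
      (h.hasDerivAt_φ (him x)).continuousAt (by fun_prop)) continuous_const
  refine ⟨T, hmem, ?_, ?_⟩
  · simp only [ZL, hη]
    refine Continuous.sub (continuous_iff_continuousAt.mpr fun x => ContinuousAt.comp
      (g := zet Y.L) (hasDerivAt_zet fun e => ?_).continuousAt hφc.continuousAt)
      ((continuous_const.mul hφc).add (continuous_const.mul (continuous_conj.comp hφc)))
    exact (hfz ⟨_, him x⟩ e).2 (by simp [UpperHalfPlane.im])
  set S := T.image fun z : ℍ => q1 (z / Y.h) with hS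
  have hS1 : ∀ s ∈ S, ‖s‖ < r ∧ G s - c ∈ Y.L.lattice := fun s hs => by
    obtain ⟨z, hz, rfl⟩ := Finset.mem_image.1 hs
    obtain ⟨h1, h2⟩ := (hmem z).1 hz
    exact ⟨(hlt z).2 h1.2.2, hF' z z.im_pos ▸ h2⟩
  have hS2 : ∀ q, ‖q‖ ≤ r → G q - c ∈ Y.L.lattice → q ∈ S := fun q h1 h2 => by
    obtain ⟨z, h3, rfl⟩ := ap4_surj h.lev.hpos (h1.trans_lt hr1) (h0 q h2)
    rw [← hF' z z.im_pos] at h2
    exact Finset.mem_image_of_mem _ ((hmem z).2
      ⟨⟨h3.1, h3.2, lt_of_le_of_ne (hle z h1) (hfz z h2).2.symm⟩, h2⟩)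
  set k : ℂ → ℂ := fun q => (zet Y.L (G q - c) - α * (G q - c)) * q ^ n with hk
  have hkd : ∀ q, ‖q‖ ≤ r → q ∉ S → DifferentiableAt ℂ k q := fun q h1 h2 => by
    have h3 := (hG.differentiableAt (h1.trans_lt hr1)).sub_const c
    exact (((hasDerivAt_zet fun e => h2 (hS2 q h1 e)).differentiableAt.comp q h3).sub
      (h3.const_mul α)).mul (differentiableAt_pow n)
  have hres := anm_res hr0 S (fun s => s ^ n / deriv G s) (fun s hs => (hS1 s hs).1) hkd
    fun s hs => by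
      have hs1 : ‖s‖ < 1 := (hS1 s hs).1.trans hr1
      have h1 := (hS1 s hs).2
      obtain ⟨L, hL⟩ := (zet_loc (hA s hs1) (hD' s hs1 h1) (differentiableAt_pow n) h1).2
      have h2 : ContinuousAt (fun q => α * (G q - c) * q ^ n) s :=
        (continuousAt_const.mul ((hA s hs1).continuousAt.sub continuousAt_const)).mul
          (continuous_pow n).continuousAt
      refine ⟨_, (hL.sub (h2.tendsto.mono_left nhdsWithin_le_nhds)).congr fun q => ?_⟩
      simp only [hk]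
      ring
  rw [hr, anm_circle] at hres
  replace hres := mul_left_cancel₀ two_pi_I_ne_zero hres
  rw [hS, Finset.sum_image fun z hz v hv e => hinj ((hmem z).1 hz) ((hmem v).1 hv) e] at hres
  have e1 : ∀ z : ℍ, q1 ((n + 1 : ℕ) * z / Y.h) / (Y.ρ * Y.f z) =
      q1 (z / Y.h) ^ n / deriv G (q1 (z / Y.h)) := fun z => by
    rw [mul_div_assoc, q1_nat_mul, ← hD z z.im_pos, pow_succ', mul_div_mul_left _ _ (q1_ne _)]
  have e0 := intervalIntegral.smul_integral_comp_mul_left (a := 0) (b := 1)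
    (fun x : ℝ => ZL Y.L (Y.φ (x + y * I) - c) * q1 ((n + 1 : ℕ) * (x + y * I) / Y.h)) (Y.h : ℝ)
  rw [mul_zero, mul_one] at e0
  simp only [e1]
  rw [← e0, ← hres, real_smul, ofReal_natCast]
  congr 1
  have hcq : Continuous fun x : ℝ => q1 (x + t * I) := by unfold q1; fun_prop
  have hnq : ∀ x : ℝ, ‖q1 (x + t * I)‖ = r := fun x => by rw [norm_q1]; simp [hr]
  have c1 : Continuous fun x : ℝ => k (q1 (x + t * I)) * q1 (x + t * I) :=
    Continuous.mul (continuous_iff_continuousAt.mpr fun x => ContinuousAt.comp (g := k)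
      (hkd _ (hnq x).le fun e => (hS1 _ e).1.ne (hnq x)).continuousAt hcq.continuousAt) hcq
  have c2 : Continuous fun x : ℝ => 1 / q1 (x + t * I) ^ (n + 1) * (G (q1 (x + t * I)) - c) :=
    (continuous_const.div (hcq.pow _) fun x => pow_ne_zero _ (q1_ne _)).mul
      (Continuous.sub (continuous_iff_continuousAt.mpr fun x => ContinuousAt.comp (g := G)
        (hA _ ((hnq x).trans_lt hr1)).continuousAt hcq.continuousAt) continuous_const)
  have qe : QE (fun z => G (q1 z)) _ := ⟨G, hG, fun _ _ => rfl⟩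
  have e2 := (qe.sub (QE.const c)).coeff_eq_integral (n + 1) ht0
  simp only [map_sub, PowerSeries.coeff_mk, PowerSeries.coeff_C, n.succ_ne_zero, if_false,
    sub_zero] at e2
  have e3 : conj (Y.ρ * Y.a (n + 1)) / (n + 1 : ℕ) = ∫ x in (0 : ℝ)..1,
      conj (1 / q1 (x + t * I) ^ (n + 1) * (G (q1 (x + t * I)) - c)) := by
    rw [intervalIntegral.intervalIntegral_conj, ← e2, map_div₀, map_natCast]
  have e4 : (Real.exp (-4 * π * (n + 1 : ℕ) * y / Y.h) : ℂ) = ((r : ℂ) ^ 2) ^ (n + 1) := by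
    rw [hr, ← pow_mul, ← ofReal_pow, ← Real.exp_nat_mul, ht]
    congr 2
    push_cast
    ring
  have c3 : Continuous fun x : ℝ => β * conj (1 / q1 (x + t * I) ^ (n + 1) *
      (G (q1 (x + t * I)) - c)) * ((r : ℂ) ^ 2) ^ (n + 1) :=
    (continuous_const.mul (continuous_conj.comp c2)).mul continuous_const
  rw [mul_div_assoc (β : ℂ), e3, e4, ← intervalIntegral.integral_const_mul,
    ← intervalIntegral.integral_mul_const, ← intervalIntegral.integral_sub
      (c1.intervalIntegrable _ _) (c3.intervalIntegrable _ _)]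
  congr 1 with x
  have e5 : (r : ℂ) ^ 2 = q1 (x + t * I) * conj (q1 (x + t * I)) := by
    rw [mul_conj, normSq_eq_norm_sq, hnq, ofReal_pow]
  have e6 : conj (q1 (x + t * I)) ≠ 0 := (map_ne_zero _).mpr (q1_ne _)
  have e7 : (((Y.h * x : ℝ) : ℂ) + y * I) / Y.h = x + t * I := by
    rw [ht]
    push_cast
    field_simp
  rw [hF' _ (him _), mul_div_assoc, e7]
  simp only [ZL, hk, hη, q1_nat_mul, e5, map_mul, map_div₀, map_one, map_pow, mul_pow]
  field_simp
  ring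

end Pool.Agent.Lib.MP_696deb_nt.Y2.An
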