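import Pool.Agent.Lib.MP_696deb_nt.Y2.A1
import Pool.Agent.Lib.MP_60ff09_nt.Dih.ANn

/-! Means over low horocycles. -/

set_option autoImplicit false

open Complex Filter Topology Set MeasureTheory CongruenceSubgroup
open UpperHalfPlane hiding I
open scoped Real MatrixGroups ComplexConjugate Modular Classical
open Pool.Agent.Shared.Weier Pool.Agent.Dih

namespace Pool.Agent.Lib.MP_696deb_nt.Y2.An

section

variable {v : ℍ → ℂ} {C : ℝ}

theorem ap5_int {t : ℝ} (h0 : 0 < t) :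
    ∫ x in Ioc (0 : ℝ) 1, q1 (t * x : ℝ) = (q1 t - 1) / (2 * π * I * t) := by
  have h : (2 * π * I * t : ℂ) ≠ 0 := by simp [h0.ne', Real.pi_ne_zero]
  have := integral_exp_mul_complex (a := 0) (b := 1) h
  rw [← intervalIntegral.integral_of_le zero_le_one]
  simp only [q1, ofReal_mul, ← mul_assoc, this]
  simp

theorem ap5_mv (v : ℍ → ℂ) (ε x : ℝ) {c : ℝ} (hc : 0 < c) :
    ∫ w, (akr ε (annP x c) w : ℂ) * v w =
      ∫ w, (akr ε UpperHalfPlane.I w : ℂ) * v (annP (x + c * w.re) (c * w.im)) := by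
  rw [← integral_smul_eq_self (μ := volume) (fun w => (akr ε (annP x c) w : ℂ) * v w)
    (g := (annP x c).toSL2R)]
  refine integral_congr_ae (.of_forall fun w => ?_)
  simp only
  rw [← annP_smul x hc, ← akr_smul ε (annP x c).toSL2R UpperHalfPlane.I, toSL2R_smul_I]

theorem ap5_avg (Γ : Subgroup SL(2, ℤ)) [Γ.FiniteIndex] (hm : Measurable v) (hb : ∀ z, ‖v z‖ ≤ C)
    (hi : ∀ γ ∈ Γ, ∀ z : ℍ, v (γ • z) = v z) (z z' : ℍ) :
    Tendsto (fun ε => (∫ w, (akr ε z w : ℂ) * v w) - ∫ w, (akr ε z' w : ℂ) * v w) (𝓝[>] 0)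
      (𝓝 0) := by
  have t : ∀ L : ℂ →L[ℝ] ℝ, Tendsto (fun ε => L ((∫ w, (akr ε z w : ℂ) * v w) -
      ∫ w, (akr ε z' w : ℂ) * v w)) (𝓝[>] 0) (𝓝 0) := fun L => by
    have k : ∀ w, |L (v w)| ≤ ‖L‖ * C := fun w =>
      (L.le_opNorm _).trans (mul_le_mul_of_nonneg_left (hb w) (norm_nonneg _))
    have m : Measurable fun w => L (v w) := L.continuous.measurable.comp hm
    have T : Tame (Γ) fun w => L (v w) := ⟨m, fun γ hγ w => by rw [hi γ hγ],
      (locallyIntegrable_const (‖L‖ * C)).mono m.aestronglyMeasurable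
        (.of_forall fun w => (k w).trans (le_abs_self _)), fun g => ⟨0, _, fun w _ _ => k _⟩⟩
    refine (T.tendsto z z').congr' (eventually_mem_nhdsWithin.mono fun ε hε => ?_)
    simp only
    rw [map_sub, ← L.integral_comp_comm (ann_akr hε hm hb z).1,
      ← L.integral_comp_comm (ann_akr hε hm hb z').1]
    simp only [avg, ← real_smul, map_smul, smul_eq_mul]
  have := ((continuous_ofReal.tendsto 0).comp (t reCLM)).add
    (((continuous_ofReal.tendsto 0).comp (t imCLM)).mul_const I)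
  simpa only [Function.comp_def, reCLM_apply, imCLM_apply, Complex.re_add_im, ofReal_zero,
    zero_mul, add_zero] using this

/-- The Fourier coefficient. -/
noncomputable def ap5U (v : ℍ → ℂ) (t : ℝ) (y : ℝ) : ℂ :=
  ∫ x in Ioc (0 : ℝ) 1, v (annP x y) * q1 (t * x : ℝ)

theorem ap5U_meas (hm : Measurable v) (t : ℝ) : Measurable (ap5U v t) :=
  (StronglyMeasurable.integral_prod_left (f := fun x y : ℝ => v (annP x y) * q1 (t * x : ℝ))
    (((hm.comp annP_meas).mul
      (ann_q1_cont.measurable.comp (by fun_prop))).stronglyMeasurable)).measurable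

theorem ap5U_le (hb : ∀ z, ‖v z‖ ≤ C) (t : ℝ) (y : ℝ) : ‖ap5U v t y‖ ≤ C := by
  refine (norm_setIntegral_le_of_norm_le_const (C := C) measure_Ioc_lt_top fun x _ => ?_).trans_eq
    (by simp)
  rw [norm_mul, ann_q1_norm, mul_one]
  exact hb _

theorem ap5U_shift {t : ℝ} (hT : ∀ x y : ℝ, 0 < y → v (annP (x + 1) y) * q1 t = v (annP x y))
    (a : ℝ) {y : ℝ} (hy : 0 < y) : ∫ x in Ioc (0 : ℝ) 1, v (annP (x + a) y) * q1 (t * x : ℝ) =
      q1 (-(t * a) : ℝ) * ap5U v t y := by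
  have p : Function.Periodic (fun x : ℝ => v (annP x y) * q1 (t * x : ℝ)) 1 := fun x => by
    simp only
    rw [← hT x y hy, mul_add, mul_one, ofReal_add, ann_q1_add]
    ring
  have h := p.intervalIntegral_add_eq a 0
  have h' := intervalIntegral.integral_comp_add_right (a := 0) (b := 1)
    (fun x : ℝ => v (annP x y) * q1 (t * x : ℝ)) a
  rw [zero_add, add_comm 1, h, zero_add] at h'
  rw [ap5U, ← intervalIntegral.integral_of_le zero_le_one,
    ← intervalIntegral.integral_of_le zero_le_one, ← h', ← intervalIntegral.integral_const_mul]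
  refine intervalIntegral.integral_congr fun x _ => ?_
  rw [mul_left_comm, ← ann_q1_add, ← ofReal_add]
  exact congrArg (fun t : ℝ => v (annP (x + a) y) * q1 t) (by ring)

theorem ap5_B (Γ : Subgroup SL(2, ℤ)) [Γ.FiniteIndex] (hm : Measurable v) (hb : ∀ z, ‖v z‖ ≤ C)
    (hi : ∀ γ ∈ Γ, ∀ z : ℍ, v (γ • z) = v z) {t : ℝ} (h0 : 0 < t)
    (hT : ∀ x y : ℝ, 0 < y → v (annP (x + 1) y) * q1 t = v (annP x y)) {c : ℝ} (hc : 0 < c) :
    Tendsto (fun ε : ℝ => ∫ s in Ioi (0 : ℝ), ((ε * s ^ (ε - 1) : ℝ) : ℂ) *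
      (annG (t * c) ε s * ap5U v t (c * s))) (𝓝[>] 0) (𝓝 0) := by
  obtain ⟨F, hF⟩ : ∃ F : ℝ → ℝ → ℍ → ℂ, ∀ ε x w, F ε x w = (akr ε UpperHalfPlane.I w : ℂ) *
    (v (annP (x + c * w.re) (c * w.im)) * q1 (t * x : ℝ)) := ⟨_, fun _ _ _ => rfl⟩
  have f1 : ∀ ε, 0 < ε → Integrable (Function.uncurry (F ε))
      ((volume.restrict (Ioc (0 : ℝ) 1)).prod volume) := fun ε hε => by
    refine (((integrable_akr hε UpperHalfPlane.I).mul_const C).comp_snd _).mono'
      (Measurable.aestronglyMeasurable ?_) (.of_forall fun p => ?_)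
    · have r1 := UpperHalfPlane.continuous_re.measurable
      have r2 := UpperHalfPlane.continuous_im.measurable
      simp only [Function.uncurry_def, hF]
      exact (measurable_ofReal.comp ((continuous_akr_right ε _).measurable.comp measurable_snd)).mul
        ((hm.comp (annP_meas.comp (f := fun p : ℝ × ℍ => (p.1 + c * p.2.re, c * p.2.im))
          (by fun_prop))).mul (ann_q1_cont.measurable.comp (by fun_prop)))
    · rw [Function.uncurry_def]
      simp only
      rw [hF, norm_mul, norm_mul, ann_q1_norm, mul_one,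
        Complex.norm_of_nonneg (akr_nonneg hε _ _)]
      exact mul_le_mul_of_nonneg_left (hb _) (akr_nonneg hε _ _)
  have f2 : ∀ ε x, ∫ w, F ε x w = (∫ w, (akr ε (annP x c) w : ℂ) * v w) * q1 (t * x : ℝ) :=
    fun ε x => by
    rw [ap5_mv v ε x hc, ← integral_mul_const]
    simp only [hF, mul_assoc]
  have q0 : Continuous fun x : ℝ => q1 (t * x : ℝ) := ann_q1_cont.comp (by fun_prop)
  have f3 : Tendsto (fun ε => ∫ x in Ioc (0 : ℝ) 1, ((∫ w, F ε x w) -
      (∫ w, (akr ε (annP 0 c) w : ℂ) * v w) * q1 (t * x : ℝ))) (𝓝[>] 0)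
      (𝓝 (∫ _ in Ioc (0 : ℝ) 1, 0)) := by
    refine tendsto_integral_filter_of_dominated_convergence (fun _ => C + C)
      (eventually_mem_nhdsWithin.mono fun ε hε => (f1 ε hε).integral_prod_left.1.sub
        (q0.const_mul _).aestronglyMeasurable)
      (eventually_mem_nhdsWithin.mono fun ε hε => .of_forall fun x => ?_) (integrable_const _)
      (.of_forall fun x => ?_)
    · rw [f2, ← sub_mul, norm_mul, ann_q1_norm, mul_one]
      exact (norm_sub_le _ _).trans (add_le_add (ann_akr hε hm hb _).2 (ann_akr hε hm hb _).2)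
    · simpa only [f2, ← sub_mul, zero_mul] using
        (ap5_avg Γ hm hb hi (annP x c) (annP 0 c)).mul_const (q1 (t * x : ℝ))
  have f4 : Tendsto (fun ε : ℝ => ((2 * π / 2 ^ (1 + ε) : ℝ) : ℂ)) (𝓝[>] 0)
      (𝓝 ((2 * π / 2 ^ (1 + (0 : ℝ)) : ℝ) : ℂ)) :=
    ((continuous_ofReal.comp (continuous_const.div (Continuous.rpow continuous_const (by fun_prop)
      fun _ => .inl two_ne_zero) fun _ => by positivity)).tendsto 0).mono_left nhdsWithin_le_nhds
  have f9 : Tendsto (fun ε => (∫ w, (akr ε (annP 0 c) w : ℂ) * v w) *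
      ∫ x in Ioc (0 : ℝ) 1, q1 (t * x : ℝ)) (𝓝[>] 0) (𝓝 0) := by
    have g1 := (ap5_avg Γ hm hb hi (annP 0 c) (annP (0 + 1) c)).mul_const
      (q1 t / (2 * π * I * t))
    rw [zero_mul] at g1
    refine g1.congr fun ε => ?_
    have g2 : (∫ w, (akr ε (annP (0 + 1) c) w : ℂ) * v w) * q1 t =
        ∫ w, (akr ε (annP 0 c) w : ℂ) * v w := by
      rw [ap5_mv v ε _ hc, ap5_mv v ε _ hc, ← integral_mul_const]
      refine integral_congr_ae (.of_forall fun w => ?_)
      simp only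
      rw [mul_assoc, add_right_comm, hT _ _ (mul_pos hc w.im_pos)]
    rw [ap5_int h0]
    linear_combination (-1 / (2 * π * I * t)) * g2
  have f5 := f4.mul (f3.add f9)
  rw [integral_zero, add_zero (0 : ℂ), mul_zero] at f5
  refine f5.congr' (eventually_mem_nhdsWithin.mono fun ε hε => ?_)
  have e0 : 0 < ε := hε
  have f6 : ∀ w : ℍ, ∫ x in Ioc (0 : ℝ) 1, F ε x w = (akr ε UpperHalfPlane.I (ofComplex w) : ℂ) *
      (q1 (-(t * c * (w : ℂ).re) : ℝ) * ap5U v t (c * (w : ℂ).im)) := fun w => by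
    simp only [hF]
    rw [integral_const_mul, ap5U_shift hT _ (mul_pos hc w.im_pos), ofComplex_apply, mul_assoc]
    rfl
  have f7 := (f1 ε e0).integral_prod_right
  simp only [Function.uncurry_def, f6] at f7
  have f8 : Integrable (fun x => ∫ w, F ε x w) (volume.restrict (Ioc (0 : ℝ) 1)) :=
    (f1 ε e0).integral_prod_left
  simp only
  rw [integral_sub f8
    ((q0.const_mul _).integrableOn_Icc.mono_set Ioc_subset_Icc_self), integral_const_mul,
    sub_add_cancel, integral_integral_swap (f1 ε e0)]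
  simp only [f6]
  rw [(integral_upper (F := fun ζ => (akr ε UpperHalfPlane.I (ofComplex ζ) : ℂ) *
    (q1 (-(t * c * ζ.re) : ℝ) * ap5U v t (c * ζ.im))) f7).2, ← integral_const_mul]
  refine setIntegral_congr_fun measurableSet_Ioi fun s hs => ?_
  have k1 : ∀ ξ : ℝ, ((ξ : ℂ) + s * I).re = ξ := fun ξ => by simp
  have k2 : ∀ ξ : ℝ, ((ξ : ℂ) + s * I).im = s := fun ξ => by simp
  simp only [k1, k2]
  rw [annG, ← integral_mul_const, ← integral_const_mul, ← integral_const_mul, ← integral_const_mul]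
  refine integral_congr_ae (.of_forall fun ξ => ?_)
  have k3 := congrArg ((↑) : ℝ → ℂ) (ann_ker e0 hs ξ)
  have k4 : ((2 * π / 2 ^ (1 + ε) : ℝ) : ℂ) * (2 ^ (1 + ε) / (2 * π) : ℝ) = 1 := by
    rw [← ofReal_mul, ← ofReal_one]
    exact congrArg _ (by field_simp)
  rw [ofReal_mul, ofReal_mul, ofReal_mul, annP] at k3
  simp only
  linear_combination (((2 * π / 2 ^ (1 + ε) : ℝ) : ℂ) * q1 (-(t * c * ξ) : ℝ) * ap5U v t (c * s)) *
    k3 + (((ε * s ^ (ε - 1) : ℝ) : ℂ) * (((1 + ξ ^ 2 + s ^ 2) ^ (-1 - |ε|) : ℝ) : ℂ) *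
      q1 (-(t * c * ξ) : ℝ) * ap5U v t (c * s)) * k4

end

theorem horo_zeroN {u : ℂ → ℂ} (hm : Measurable fun z : ℍ => u z) {C : ℝ}
    (hb : ∀ z : ℍ, ‖u z‖ ≤ C) {n : ℕ} (hn : 0 < n)
    (hi : ∀ γ ∈ CongruenceSubgroup.Gamma n, ∀ z : ℍ, u (γ • z : ℍ) = u z) {t : ℝ} (ht : 0 < t)
    (hT : ∀ z : ℍ, u (z + 1) * q1 t = u z) :
    Tendsto (fun ε : ℝ => ∫ y in Ioi (0 : ℝ), (ε * y ^ (ε - 1) : ℝ) *
      ∫ x in (0 : ℝ)..1, u (x + y * I) * q1 (t * (x + y * I))) (𝓝[>] 0) (𝓝 0) := by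
  obtain ⟨v, hv⟩ : ∃ v : ℍ → ℂ, v = fun z : ℍ => u z := ⟨_, rfl⟩
  have vm : Measurable v := hv ▸ hm
  have vb : ∀ z, ‖v z‖ ≤ C := hv ▸ hb
  have vi : ∀ γ ∈ CongruenceSubgroup.Gamma n, ∀ z : ℍ, v (γ • z) = v z := hv ▸ hi
  have hC : 0 ≤ C := (norm_nonneg _).trans (vb UpperHalfPlane.I)
  have vT : ∀ x y : ℝ, 0 < y → v (annP (x + 1) y) * q1 t = v (annP x y) := fun x y hy => by
    have := hT (annP x y)
    simp only [hv, annP_coe _ hy] at this ⊢
    rw [← this]
    congr 2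
    push_cast
    ring
  have : NeZero n := ⟨hn.ne'⟩
  obtain ⟨c, hG, hc⟩ : ∃ c : ℝ, annG (t * c) 0 0 ≠ 0 ∧ c ∈ Ioi (0 : ℝ) := by
    have h1 : Continuous fun c : ℝ => annG (t * c) 0 0 :=
      annG_cont.comp (f := fun c : ℝ => ((t * c : ℝ), (0 : ℝ), (0 : ℝ))) (by fun_prop)
    have h2 := (h1.tendsto 0).eventually_ne (b₂ := 0) (by
      rw [mul_zero, annG_zero]
      exact ofReal_ne_zero.2 Real.pi_ne_zero)
    exact ((h2.filter_mono nhdsWithin_le_nhds).and (eventually_mem_nhdsWithin (s := Ioi 0))).exists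
  have c0 : 0 < c := hc
  obtain ⟨e, he⟩ : ∃ e : ℝ → ℂ, ∀ s, e s = q1 (t * (s * I)) := ⟨_, fun _ => rfl⟩
  have ec : Continuous e := funext he ▸ ann_q1_cont.comp (by fun_prop)
  have eb : ∀ s, 0 < s → ‖e (c * s)‖ ≤ (1 + 1 / (2 * π * t * c)) / (1 + s) := fun s hs => by
    have h1 : ‖e (c * s)‖ = Real.exp (-(2 * π * t * c * s)) := by
      rw [he, q1, norm_exp]
      exact congrArg _ (by simp; ring)
    have h2 : 0 < 2 * π * t * c := by positivity
    generalize 2 * π * t * c = a at h1 h2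
    rw [h1, Real.exp_neg, inv_eq_one_div, div_le_div_iff₀ (Real.exp_pos _) (by linarith)]
    refine le_trans ?_ (mul_le_mul_of_nonneg_left (Real.add_one_le_exp (a * s)) (by positivity))
    have h3 : 1 / a * (a * s + 1) = s + 1 / a := by field_simp
    have h4 : 0 < 1 / a := by positivity
    nlinarith [mul_pos h2 hs]
  have Um : Measurable fun s => ap5U v t (c * s) := (ap5U_meas vm t).comp (by fun_prop)
  have Gc : ∀ ε, Continuous fun s => annG (t * c) ε s := fun ε =>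
    annG_cont.comp (f := fun s : ℝ => ((t * c : ℝ), ε, s)) (by fun_prop)
  have mb : ∀ (x : ℂ) (K s : ℝ), ‖x‖ ≤ K / (1 + s) → ‖x * ap5U v t (c * s)‖ ≤ K * C / (1 + s) :=
    fun x K s h => by
    rw [norm_mul, mul_div_right_comm]
    exact mul_le_mul h (ap5U_le vb t _) (norm_nonneg _) ((norm_nonneg _).trans h)
  have h1 := abel_zero (D := fun ε s => annG (t * c) ε s - annG (t * c) 0 0 * e (c * s))
    (C := 2 * π + ‖annG (t * c) 0 0‖ * (1 + 1 / (2 * π * t * c))) (fun ε _ s hs => by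
      rw [add_div, mul_div_assoc _ (1 + _)]
      refine (norm_sub_le _ _).trans (add_le_add (annG_le _ _ hs) ?_)
      rw [norm_mul]
      exact mul_le_mul_of_nonneg_left (eb s hs) (norm_nonneg _)) (by
      refine (Continuous.tendsto' ((annG_cont.comp
        (f := fun p : ℝ × ℝ => ((t * c : ℝ), p.1, p.2)) (by fun_prop)).sub
        ((ec.comp (by fun_prop)).const_mul _)) (0, 0) 0 (by simp [he, q1])).mono_left ?_
      rw [nhds_prod_eq]
      exact Filter.prod_mono nhdsWithin_le_nhds nhdsWithin_le_nhds)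
  have h2 : Tendsto (fun ε : ℝ => ∫ s in Ioi (0 : ℝ), ((ε * s ^ (ε - 1) : ℝ) : ℂ) *
      ((annG (t * c) ε s - annG (t * c) 0 0 * e (c * s)) * ap5U v t (c * s))) (𝓝[>] 0) (𝓝 0) := by
    refine squeeze_zero_norm' ?_ (by simpa only [zero_mul] using h1.mul_const C)
    filter_upwards [Ioc_mem_nhdsGT (show (0 : ℝ) < 1 / 2 by norm_num)] with ε hε
    have e0 := hε.1
    have i1 := (ann_int hε (by positivity) (Gc ε).measurable fun s hs => annG_le _ _ hs).sub
      ((ann_int hε (by positivity) (ec.comp (continuous_const_mul c)).measurable eb).const_mul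
        (annG (t * c) 0 0))
    rw [← integral_mul_const]
    refine norm_integral_le_of_norm_le ((i1.norm.mul_const C).congr ?_) ?_ <;>
      refine (ae_restrict_mem measurableSet_Ioi).mono fun s hs => ?_
    · have s0 : 0 < s := hs
      simp only [Pi.sub_apply, Function.comp_apply]
      rw [mul_left_comm, ← mul_sub, norm_mul, Complex.norm_of_nonneg (by positivity)]
    · have s0 : 0 < s := hs
      rw [norm_mul, norm_mul, Complex.norm_of_nonneg (by positivity), ← mul_assoc]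
      exact mul_le_mul_of_nonneg_left (ap5U_le vb t _) (by positivity)
  have h3 : Tendsto (fun ε : ℝ => ((c ^ ε : ℝ) : ℂ) / annG (t * c) 0 0) (𝓝[>] 0)
      (𝓝 (((c ^ (0 : ℝ) : ℝ) : ℂ) / annG (t * c) 0 0)) :=
    (((continuous_ofReal.comp (Continuous.rpow continuous_const continuous_id
      fun _ => .inl c0.ne')).div_const _).tendsto 0).mono_left nhdsWithin_le_nhds
  have h4 := h3.mul ((ap5_B _ vm vb vi ht vT c0).sub h2)
  rw [sub_zero, mul_zero] at h4
  refine h4.congr' ?_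
  filter_upwards [Ioc_mem_nhdsGT (show (0 : ℝ) < 1 / 2 by norm_num)] with ε hε
  have i1 := ann_int (F := fun s => annG (t * c) ε s * ap5U v t (c * s)) hε (by positivity)
    ((Gc ε).measurable.mul Um) fun s hs => mb _ _ s (annG_le _ _ hs)
  have i2 := ann_int (F := fun s => e (c * s) * ap5U v t (c * s)) hε (by positivity)
    ((ec.comp (continuous_const_mul c)).measurable.mul Um) fun s hs => mb _ _ s (eb s hs)
  have i3 : ∀ s : ℝ, ((ε * s ^ (ε - 1) : ℝ) : ℂ) *
      ((annG (t * c) ε s - annG (t * c) 0 0 * e (c * s)) * ap5U v t (c * s)) =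
      ((ε * s ^ (ε - 1) : ℝ) : ℂ) * (annG (t * c) ε s * ap5U v t (c * s)) -
        annG (t * c) 0 0 * (((ε * s ^ (ε - 1) : ℝ) : ℂ) * (e (c * s) * ap5U v t (c * s))) :=
    fun s => by ring
  have i4 := integral_comp_mul_left_Ioi
    (fun y : ℝ => ((ε * y ^ (ε - 1) : ℝ) : ℂ) * (e y * ap5U v t y)) 0 c0
  rw [mul_zero, eq_inv_smul_iff₀ c0.ne'] at i4
  simp only [i3]
  rw [integral_sub i1 (i2.const_mul _), sub_sub_cancel, integral_const_mul, ← mul_assoc,
    div_mul_cancel₀ _ hG, ← integral_const_mul]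
  refine Eq.trans ?_ (i4.trans (setIntegral_congr_fun measurableSet_Ioi fun y hy => ?_))
  · rw [← integral_smul]
    refine setIntegral_congr_fun measurableSet_Ioi fun s hs => ?_
    rw [Real.mul_rpow c0.le (le_of_lt hs), Real.rpow_sub_one c0.ne', real_smul]
    have : (c : ℂ) ≠ 0 := ofReal_ne_zero.2 c0.ne'
    push_cast
    field_simp
  · rw [ap5U, intervalIntegral.integral_of_le zero_le_one, ← integral_const_mul]
    refine congrArg _ (integral_congr_ae (.of_forall fun x => ?_))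
    simp only
    rw [hv, he, mul_add, ann_q1_add, ofReal_mul]
    simp only [annP_coe x hy]
    ring

end Pool.Agent.Lib.MP_696deb_nt.Y2.An
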