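import Pool.Agent.Lib.MP_696deb_nt.Y2.M0
import Pool.Agent.Lib.MP_696deb_nt.EA.L3

/-! Points with complex multiplication on the curve of level twenty: definitions. -/

set_option autoImplicit false

open scoped Classical
open Complex Finset Pool.Agent.Shared.Weier

namespace Pool.Agent.Lib.MP_696deb_nt.Y2

open EA
open Sm (Qb GQ)
open B2 (Plc)
open Q4 (A II vm zq Tw)
open QF (G ip Prim Per)

/-- The determinant of a pair of Gaussian integers. -/
def dt (ω : G × G) : ℤ := (ω.1 * star ω.2).im

/-- The point of the upper half plane attached to an oriented basis. -/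
noncomputable def tb (ω : G × G) : ℂ := (ω.1 : ℂ) / (ω.2 : ℂ)

/-- The action of an integral matrix on pairs. -/
def mv (p q r s : ℤ) (ω : G × G) : G × G := (p * ω.1 + q * ω.2, r * ω.1 + s * ω.2)

/-- The character of the monoid of level ten at the matrix with first row `(p, q)`. -/
def xp (p q : ℤ) : G := ip (p * q : ℤ) * star (om p)

/-- Multiplication by `g` maps the basis `ω` to a matrix of level ten applied to `ω'`, and `e` is
the character of the matrix. -/
def Tr (g : G) (ω ω' : G × G) (e : G) : Prop := ∃ p q r s : ℤ,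
  (g * ω.1, g * ω.2) = mv p q (10 * r) s ω' ∧ (p * s - q * (10 * r)) % 4 = 1 ∧ ¬ 5 ∣ p ∧ e = xp p q

/-- The algebraic point attached to a basis. -/
noncomputable def Pt (ω : G × G) : A :=
  if h : ∃ P : A, cp P = un (uu (tb ω)) then h.choose else 0

/-- The lattice spanned by `ω₁` and `ω₂`. -/
def Lb (ω : G × G) (y : G) : Prop := ∃ a b : ℤ, y = a * ω.1 + b * ω.2

/-- The lattice spanned by `5 ω₁ + ω₂` and `2 ω₂`. -/
def La (ω : G × G) (y : G) : Prop := ∃ a b : ℤ, y = a * (5 * ω.1 + ω.2) + b * (2 * ω.2)

/-- The kernel of the isogeny. -/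
noncomputable def Cs (m : ℕ) (ω : G × G) : Finset A :=
  (En m).filter fun T => ∃ y, La ω y ∧ T = tq y m

/-- The point of order twenty. -/
noncomputable def Sp (m : ℕ) (ω : G × G) : A := tq ω.1 (2 * m)

/-- The traces of the first coordinates after multiplication by `g`. -/
noncomputable def pq (g : G) (m : ℕ) (ω : G × G) (j : ℤ) : Qb :=
  ∑ T ∈ Cs m ω, xco (g • (j • Sp m ω + T))

/-- The first unit as a function of the values at the multiples. -/
def kP {F : Type} [Field F] (p : ℤ → F) : F :=
  (p 1 - p 9) * (p 8 - p 10) / ((p 4 - p 6) * (p 5 - p 10))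

/-- The second unit as a function of the values at the multiples. -/
def kQ {F : Type} [Field F] (p : ℤ → F) : F :=
  (p 3 - p 7) * (p 4 - p 10) / ((p 2 - p 8) * (p 5 - p 10))

/-- The first coordinate. -/
noncomputable def XX (p : ℤ → Qb) : Qb := kP p * kQ p / rq ^ 2

/-- The second coordinate. -/
noncomputable def YY (p : ℤ → Qb) : Qb := -(kP p + II * kQ p) / rq ^ 3

/-- The character by which the Galois group moves the fourth root of `1 + 2 i`. -/
def eb (g : G) : G := ep (r5 (star g))

/-- The place is good for the basis. -/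
structure Gd (v : Plc) (m : ℕ) (ω : G × G) : Prop where
  two : v.p ≠ 2
  lev : v.V (m : Qb) = 1
  rq : v.V rq = 1
  un : ∀ k ∈ range 4, ∀ i j : ℤ, ¬ 20 ∣ i → ¬ 20 ∣ j → ¬ 20 ∣ i - j → ¬ 20 ∣ i + j →
    v.V (pq 1 m (mv 1 k 0 1 ω) i - pq 1 m (mv 1 k 0 1 ω) j) = 1

/-- Weighted families of bases. -/
structure Fam (ι : Type) where
  w : ι → G × G
  wt : ι → G

/-- The representatives of the Hecke operator. -/
def HI (m : ℕ) : Finset (Σ _ : ℕ × ℕ, ℕ) := m.divisorsAntidiagonal.sigma fun x => range x.2

/-- The Klein form. -/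
noncomputable def kl (z : ℂ) : ℂ := Shared.Weier.sig LG z * cexp (-(eta LG z * z / 2))

/-- The Green function with a character of order four. -/
noncomputable def Gr (p q : ℂ) : ℂ :=
  ∑ k : ZMod 4, ((star (ip k) : G) : ℂ) * (Real.log ‖kl ((ip k : G) * p - q)‖ : ℝ)

namespace Fam

variable {ι κ : Type}

/-- All bases have determinant `d` and all weights are units. -/
structure Ok (F : Fam ι) (d : ℕ) : Prop where
  pos : 0 < d
  det : ∀ j, dt (F.w j) = d
  four : ∀ j, F.wt j ^ 4 = 1

/-- The family is permuted by the primary elements prime to `M`, with the character `χ`. -/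
def Stable (F : Fam ι) (M : ℕ) (χ : G → G) : Prop := ∀ g, Prim g → IsCoprime g M →
  ∃ s : ι ≃ ι, ∀ j, ∃ e, Tr g (F.w j) (F.w (s j)) e ∧ F.wt (s j) = χ g * e * F.wt j

/-- The points of the family. -/
noncomputable def pt (F : Fam ι) (j : ι) : A := F.wt j • Pt (F.w j)

/-- Their complex lifts. -/
noncomputable def z (F : Fam ι) (j : ι) : ℂ := (F.wt j : ℂ) * uu (tb (F.w j))

/-- The image under a Hecke operator. -/
def hk (F : Fam ι) (m : ℕ) : Fam (ι × HI m) where
  w x := mv x.2.1.1.1 (4 * x.2.1.2) 0 x.2.1.1.2 (F.w x.1)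
  wt x := om x.2.1.1.1 * F.wt x.1

/-- The archimedean pairing of two families. -/
noncomputable def arch [Fintype ι] [Fintype κ] (F : Fam ι) (F' : Fam κ) : ℂ :=
  ∑ j, ∑ k, Gr (F.z j) (F'.z k)

end Fam

/-- The character `φ` describes the twisted action. -/
structure Lk (t : Tw) (M : ℕ) (φ : G → G) : Prop where
  pos : 0 < M
  per : Per M φ
  link : ∀ g : GQ, g II = II → φ (cm M g) = Q4.un (zq t.ρ g)

/-- The points that are fixed by the twisted action have finite order. -/
def Tors (t : Tw) : Prop :=
  ∀ P : A, (∀ g : GQ, g II = II → t.tw g P = P) → ∃ n : ℕ, 0 < n ∧ n • P = 0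

/-- The determinant of three points. -/
noncomputable def de (P S R : A) : Qb :=
  (yco R - yco P) * (xco S - xco P) - (yco S - yco P) * (xco R - xco P)

/-- The product of the quotients of lines along the chain of sums that starts at `B`. -/
noncomputable def Sy : List A → A → A → Qb
  | [], _, _ => 1
  | P :: l, B, R => de P B R / de P B (-R) * Sy l (B + P) R

/-- The starting point is generic. -/
def Ge : List A → A → A → Prop
  | [], B, R => B ≠ 0 ∧ B ≠ R ∧ B ≠ -R
  | P :: l, B, R => (B ≠ 0 ∧ B ≠ R ∧ B ≠ -R ∧ B ≠ P ∧ B ≠ -P) ∧ Ge l (B + P) R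

/-- The point is off the divisor. -/
def Off (l : List A) (R : A) : Prop := R ≠ 0 ∧ ∀ P ∈ l, P ≠ R ∧ P ≠ -R

/-- The value at `R` of the odd function with divisor the sum of the `(P) - (-P)`. -/
noncomputable def sy (l : List A) (R : A) : Qb := if h : ∃ B, Ge l B R then Sy l h.choose R else 1

/-- The analytic factor. -/
noncomputable def rz (p z : ℂ) : ℂ :=
  cexp (2 * eta LG p * z) * Shared.Weier.sig LG (z - p) / Shared.Weier.sig LG (z + p)

/-- A complex lift of a point. -/
noncomputable def lf (P : A) : ℂ := (un_surj (cp P)).choose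

theorem un_lf (P : A) : cp P = un (lf P) := (un_surj (cp P)).choose_spec.symm

/-- Additive functions on the positive rational numbers that only depend on the class modulo `l`. -/
structure Lg {M : Type} [AddCommGroup M] (l : ℕ) (L : ℚ → M) : Prop where
  add : ∀ x y, 0 < x → 0 < y → L (x * y) = L x + L y
  one : ∀ a d : ℕ, ¬ l ∣ d → (l : ℤ) ∣ (a : ℤ) - d → L (a / d) = 0

end Pool.Agent.Lib.MP_696deb_nt.Y2
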