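import Pool.Agent.Lib.MP_696deb_nt.Y2.M0

/-! Klein forms at the points of order twenty and the equation of the curve. -/

set_option autoImplicit false

open Filter Topology Complex PeriodPair Pool.Agent.Shared.Weier
open scoped Real ComplexConjugate

namespace Pool.Agent.Lib.MP_696deb_nt.Y2

open Klein Gal
open Pool.Agent.Lib.MP_23455a_nt (lat lat_ω₁ lat_ω₂ mem_lat)

/-- The Klein forms. -/
noncomputable def kk (τ : ℂ) (a : ℤ) : ℂ :=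
  q1 (τ * a ^ 2 / 80) * Th ((5 * τ + 1) / 2) (a * (τ / 4))

lemma wp_sub_Th {ω : ℂ} (hω : 0 < ω.im) {u v : ℂ} (hu : u ∉ (lat ω).lattice)
    (hv : v ∉ (lat ω).lattice) : deriv (Th ω) 0 ^ 2 * (Th ω (u + v) * Th ω (u - v)) =
      -((℘[lat ω] u - ℘[lat ω] v) * Th ω u ^ 2 * Th ω v ^ 2) :=
  wp_sub_of_theta (L := lat ω) (differentiable_Th hω) (Th_neg hω)
    (fun z hz => Th_ne hω fun m n e => hz ((mem_lat hω).mpr ⟨m, n, e⟩)) (deriv_Th_ne hω)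
    ⟨-q1 (-ω / 2), -(2 * π * I), neg_ne_zero.mpr (q1_ne _), fun z => by
      rw [lat_ω₁ hω, Th_add_omega hω, sub_eq_add_neg, q1_add, q1]
      simp only [q1]
      ring_nf⟩
    ⟨-1, 0, by simp, fun z => by simp [lat_ω₂, Th_add_one]⟩ hu hv

lemma hol_kk (a : ℤ) : Hol fun τ => kk τ a := fun τ h => by
  have h1 : ‖q1 ((5 * τ + 1) / 2)‖ < 1 := norm_q1_lt (by simpa using h)
  have hq : ∀ g : ℂ → ℂ, AnalyticAt ℂ g τ → AnalyticAt ℂ (fun z => q1 (g z)) τ := fun g hg =>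
    (analyticAt_q1 _).comp hg
  exact (hq _ (by fun_prop)).differentiableAt.mul (((hq _ (by fun_prop)).differentiableAt.mul
    (differentiableAt_poch (hq _ (by fun_prop)) (hq _ (by fun_prop)) h1)).mul
    (differentiableAt_poch (hq _ (by fun_prop)) (hq _ (by fun_prop)) h1))

variable {τ : ℂ} (h : 0 < τ.im)

include h

lemma om_pos : 0 < ((5 * τ + 1) / 2).im := by simpa using h

lemma mem_Lt {z : ℂ} : z ∈ (Lt τ).lattice ↔ ∃ m n : ℤ, z = m * ((5 * τ + 1) / 2) + n :=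
  mem_lat (om_pos h)

/-- The point has order twenty. -/
lemma ord_Lt {a : ℤ} : a * (τ / 4) ∈ (Lt τ).lattice ↔ 20 ∣ a := by
  rw [mem_Lt h]
  refine ⟨fun ⟨m, n, e⟩ => ?_, fun ⟨m, e⟩ => ⟨2 * m, -m, by rw [e]; push_cast; ring⟩⟩
  have h1 := congr_arg im e
  simp only [mul_im, intCast_re, intCast_im, zero_mul, add_zero, add_im, re_ofNat, im_ofNat,
    div_ofNat_im, one_im] at h1
  have h2 : a = 10 * m := by
    exact_mod_cast mul_right_cancel₀ h.ne' (show (a : ℝ) * τ.im = 10 * m * τ.im by linarith)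
  have h3 : m + 2 * n = 0 := by
    rw [h2] at e
    push_cast at e
    exact_mod_cast (show (m + 2 * n : ℂ) = 0 by linear_combination -2 * e)
  omega

lemma mem20 : 20 * (τ / 4) ∈ (Lt τ).lattice := by simpa using (ord_Lt h (a := 20)).2 dvd_rfl

lemma kk_symm (a : ℤ) : kk τ (20 - a) = kk τ a := by
  have e : ((20 - a : ℤ) : ℂ) * (τ / 4) + 1 =
      -(a * (τ / 4)) + (5 * τ + 1) / 2 + (5 * τ + 1) / 2 := by push_cast; ring
  have e1 := Th_add_one (ω := (5 * τ + 1) / 2) (((20 - a : ℤ) : ℂ) * (τ / 4))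
  rw [e, Th_add_omega (om_pos h), Th_add_omega (om_pos h), Th_neg (om_pos h)] at e1
  have e2 : q1 (τ * ((20 - a : ℤ) : ℂ) ^ 2 / 80) *
      (q1 (-((5 * τ + 1) / 2) / 2 - (-(a * (τ / 4)) + (5 * τ + 1) / 2)) *
        q1 (-((5 * τ + 1) / 2) / 2 - -(a * (τ / 4)))) = q1 (τ * a ^ 2 / 80) := by
    have e3 := q1_add (τ * a ^ 2 / 80) (-1 : ℤ)
    rw [q1_int, mul_one] at e3
    rw [← q1_add, ← q1_add, ← e3]
    congr 1
    push_cast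
    ring
  rw [kk, kk]
  linear_combination q1 (τ * ((20 - a : ℤ) : ℂ) ^ 2 / 80) * e1 +
    Th ((5 * τ + 1) / 2) (a * (τ / 4)) * e2

lemma kk_ne (a : ℤ) (ha : ¬ 20 ∣ a) : kk τ a ≠ 0 :=
  mul_ne_zero (q1_ne _) (Th_ne (om_pos h) fun m n e => ha ((ord_Lt h).1 ((mem_Lt h).2 ⟨m, n, e⟩)))

lemma pp_sub (a b c d : ℤ)
    (H : ¬ 20 ∣ a ∧ ¬ 20 ∣ b ∧ (c = a + b ∨ c = 20 - (a + b)) ∧ d = a - b) :
    pw (Lt τ) (τ / 4) b - pw (Lt τ) (τ / 4) a =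
      deriv (Th ((5 * τ + 1) / 2)) 0 ^ 2 * (kk τ c * kk τ d) / (kk τ a ^ 2 * kk τ b ^ 2) := by
  obtain ⟨ha, hb, hc, rfl⟩ := H
  have e := wp_sub_Th (om_pos h) (mt (ord_Lt h).1 ha) (mt (ord_Lt h).1 hb)
  have e2 : q1 (τ * (a + b) ^ 2 / 80) * q1 (τ * (a - b) ^ 2 / 80) =
      q1 (τ * a ^ 2 / 80) ^ 2 * q1 (τ * b ^ 2 / 80) ^ 2 := by
    simp only [sq (q1 _), ← q1_add]
    ring_nf
  rw [eq_div_iff (mul_ne_zero (pow_ne_zero 2 (kk_ne h a ha)) (pow_ne_zero 2 (kk_ne h b hb))),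
    show kk τ c = kk τ (a + b) by rcases hc with rfl | rfl <;> simp only [kk_symm h]]
  simp only [kk, pw, Lt]
  push_cast
  rw [add_mul (a : ℂ), sub_mul (a : ℂ)]
  linear_combination -(q1 (τ * a ^ 2 / 80) ^ 2 * q1 (τ * b ^ 2 / 80) ^ 2) * e -
    deriv (Th ((5 * τ + 1) / 2)) 0 ^ 2 * Th ((5 * τ + 1) / 2) (a * (τ / 4) + b * (τ / 4)) *
      Th ((5 * τ + 1) / 2) (a * (τ / 4) - b * (τ / 4)) * e2

lemma kk_all : deriv (Th ((5 * τ + 1) / 2)) 0 ≠ 0 ∧ kk τ 1 ≠ 0 ∧ kk τ 2 ≠ 0 ∧ kk τ 3 ≠ 0 ∧ kk τ 4 ≠ 0 ∧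
    kk τ 5 ≠ 0 ∧ kk τ 6 ≠ 0 ∧ kk τ 7 ≠ 0 ∧ kk τ 8 ≠ 0 ∧ kk τ 9 ≠ 0 ∧ kk τ 10 ≠ 0 :=
  ⟨deriv_Th_ne (om_pos h), kk_ne h _ (by decide), kk_ne h _ (by decide),
    kk_ne h _ (by decide), kk_ne h _ (by decide), kk_ne h _ (by decide), kk_ne h _ (by decide),
    kk_ne h _ (by decide), kk_ne h _ (by decide), kk_ne h _ (by decide), kk_ne h _ (by decide)⟩

lemma ua_kk : ua τ = kk τ 2 * kk τ 4 ^ 2 * kk τ 6 ^ 2 / (kk τ 1 ^ 2 * kk τ 8 * kk τ 9 ^ 2) := by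
  obtain ⟨k0, k1, k2, k3, k4, k5, k6, k7, k8, k9, k10⟩ := kk_all h
  rw [ua, kA, pp_sub h 9 1 10 8 (by decide), pp_sub h 10 8 2 2 (by decide),
    pp_sub h 6 4 10 2 (by decide), pp_sub h 10 5 5 5 (by decide)]
  field_simp

lemma ub_kk : ub τ = kk τ 2 ^ 2 * kk τ 6 * kk τ 8 ^ 2 / (kk τ 3 ^ 2 * kk τ 4 * kk τ 7 ^ 2) := by
  obtain ⟨k0, k1, k2, k3, k4, k5, k6, k7, k8, k9, k10⟩ := kk_all h
  rw [ub, kB, pp_sub h 7 3 10 4 (by decide), pp_sub h 10 4 6 6 (by decide),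
    pp_sub h 8 2 10 6 (by decide), pp_sub h 10 5 5 5 (by decide)]
  field_simp

lemma rel1 : kk τ 1 * kk τ 3 * kk τ 5 * kk τ 9 + kk τ 1 * kk τ 5 * kk τ 7 * kk τ 9 =
    kk τ 2 * kk τ 4 * kk τ 6 * kk τ 10 := by
  obtain ⟨k0, k1, k2, k3, k4, k5, k6, k7, k8, k9, k10⟩ := kk_all h
  have : ∀ p : ℤ → ℂ, (p 1 - p 2) * (p 3 - p 8) + (p 2 - p 3) * (p 1 - p 8) =
      (p 1 - p 3) * (p 2 - p 8) := fun p => by ring
  replace this := this (pw (Lt τ) (τ / 4))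
  rw [pp_sub h 2 1 3 1 (by decide), pp_sub h 8 3 9 5 (by decide),
    pp_sub h 3 2 5 1 (by decide), pp_sub h 8 1 9 7 (by decide),
    pp_sub h 3 1 4 2 (by decide), pp_sub h 8 2 10 6 (by decide)] at this
  field_simp at this
  linear_combination this

lemma rel2 : kk τ 3 * kk τ 4 * kk τ 5 * kk τ 6 + kk τ 1 * kk τ 8 * kk τ 9 * kk τ 10 =
    kk τ 4 * kk τ 5 * kk τ 6 * kk τ 7 := by
  obtain ⟨k0, k1, k2, k3, k4, k5, k6, k7, k8, k9, k10⟩ := kk_all h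
  have : ∀ p : ℤ → ℂ, (p 1 - p 4) * (p 5 - p 9) + (p 4 - p 5) * (p 1 - p 9) =
      (p 1 - p 5) * (p 4 - p 9) := fun p => by ring
  replace this := this (pw (Lt τ) (τ / 4))
  rw [pp_sub h 4 1 5 3 (by decide), pp_sub h 9 5 6 4 (by decide),
    pp_sub h 5 4 9 1 (by decide), pp_sub h 9 1 10 8 (by decide),
    pp_sub h 5 1 6 4 (by decide), pp_sub h 9 4 7 5 (by decide)] at this
  field_simp at this
  linear_combination this

lemma rel3 : kk τ 1 * kk τ 2 * kk τ 5 * kk τ 8 + kk τ 2 * kk τ 5 * kk τ 8 * kk τ 9 =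
    kk τ 3 * kk τ 4 * kk τ 7 * kk τ 10 := by
  obtain ⟨k0, k1, k2, k3, k4, k5, k6, k7, k8, k9, k10⟩ := kk_all h
  have : ∀ p : ℤ → ℂ, (p 2 - p 3) * (p 5 - p 7) + (p 3 - p 5) * (p 2 - p 7) =
      (p 2 - p 5) * (p 3 - p 7) := fun p => by ring
  replace this := this (pw (Lt τ) (τ / 4))
  rw [pp_sub h 3 2 5 1 (by decide), pp_sub h 7 5 8 2 (by decide),
    pp_sub h 5 3 8 2 (by decide), pp_sub h 7 2 9 5 (by decide),
    pp_sub h 5 2 7 3 (by decide), pp_sub h 7 3 10 4 (by decide)] at this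
  field_simp at this
  linear_combination this

lemma rel4 : kk τ 1 * kk τ 3 * kk τ 5 * kk τ 7 + kk τ 2 * kk τ 6 * kk τ 8 * kk τ 10 =
    kk τ 3 * kk τ 5 * kk τ 7 * kk τ 9 := by
  obtain ⟨k0, k1, k2, k3, k4, k5, k6, k7, k8, k9, k10⟩ := kk_all h
  have : ∀ p : ℤ → ℂ, (p 1 - p 2) * (p 4 - p 9) + (p 2 - p 4) * (p 1 - p 9) =
      (p 1 - p 4) * (p 2 - p 9) := fun p => by ring
  replace this := this (pw (Lt τ) (τ / 4))
  rw [pp_sub h 2 1 3 1 (by decide), pp_sub h 9 4 7 5 (by decide),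
    pp_sub h 4 2 6 2 (by decide), pp_sub h 9 1 10 8 (by decide),
    pp_sub h 4 1 5 3 (by decide), pp_sub h 9 2 9 7 (by decide)] at this
  field_simp at this
  linear_combination this

lemma rel5 :
    kk τ 1 * kk τ 9 * (kk τ 3 * kk τ 9 + kk τ 1 * kk τ 7) = kk τ 2 ^ 2 * kk τ 8 * kk τ 10 := by
  obtain ⟨k0, k1, k2, k3, k4, k5, k6, k7, k8, k9, k10⟩ := kk_all h
  have : ∀ p : ℤ → ℂ, (p 1 - p 2) + (p 2 - p 9) = p 1 - p 9 := fun p => by ring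
  replace this := this (pw (Lt τ) (τ / 4))
  rw [pp_sub h 2 1 3 1 (by decide), pp_sub h 9 2 9 7 (by decide),
    pp_sub h 9 1 10 8 (by decide)] at this
  field_simp at this
  linear_combination this

lemma rel6 :
    kk τ 3 * kk τ 7 * (kk τ 7 * kk τ 9 + kk τ 1 * kk τ 3) = kk τ 4 * kk τ 6 ^ 2 * kk τ 10 := by
  obtain ⟨k0, k1, k2, k3, k4, k5, k6, k7, k8, k9, k10⟩ := kk_all h
  have : ∀ p : ℤ → ℂ, (p 3 - p 6) + (p 6 - p 7) = p 3 - p 7 := fun p => by ring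
  replace this := this (pw (Lt τ) (τ / 4))
  rw [pp_sub h 6 3 9 3 (by decide), pp_sub h 7 6 7 1 (by decide),
    pp_sub h 7 3 10 4 (by decide)] at this
  field_simp at this
  linear_combination this

lemma rel7 :
    kk τ 2 * kk τ 4 * kk τ 10 ^ 2 + kk τ 1 ^ 2 * kk τ 7 ^ 2 = kk τ 3 ^ 2 * kk τ 9 ^ 2 := by
  obtain ⟨k0, k1, k2, k3, k4, k5, k6, k7, k8, k9, k10⟩ := kk_all h
  have : ∀ p : ℤ → ℂ, (p 1 - p 3) + (p 3 - p 10) = p 1 - p 10 := fun p => by ring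
  replace this := this (pw (Lt τ) (τ / 4))
  rw [pp_sub h 3 1 4 2 (by decide), pp_sub h 10 3 7 7 (by decide),
    pp_sub h 10 1 9 9 (by decide)] at this
  field_simp at this
  linear_combination this

lemma rel8 :
    kk τ 6 * kk τ 8 * kk τ 10 ^ 2 + kk τ 1 ^ 2 * kk τ 3 ^ 2 = kk τ 7 ^ 2 * kk τ 9 ^ 2 := by
  obtain ⟨k0, k1, k2, k3, k4, k5, k6, k7, k8, k9, k10⟩ := kk_all h
  have : ∀ p : ℤ → ℂ, (p 1 - p 7) + (p 7 - p 10) = p 1 - p 10 := fun p => by ring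
  replace this := this (pw (Lt τ) (τ / 4))
  rw [pp_sub h 7 1 8 6 (by decide), pp_sub h 10 7 3 3 (by decide),
    pp_sub h 10 1 9 9 (by decide)] at this
  field_simp at this
  linear_combination this

lemma u_frac : kk τ 7 - kk τ 3 = kk τ 1 * kk τ 8 * kk τ 9 * kk τ 10 / (kk τ 4 * kk τ 5 * kk τ 6) ∧
    kk τ 9 + kk τ 1 = kk τ 3 * kk τ 4 * kk τ 7 * kk τ 10 / (kk τ 2 * kk τ 5 * kk τ 8) ∧
    ua τ = (kk τ 7 + kk τ 3) / (kk τ 7 - kk τ 3) ∧ ub τ = (kk τ 9 - kk τ 1) / (kk τ 9 + kk τ 1) := by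
  obtain ⟨k0, k1, k2, k3, k4, k5, k6, k7, k8, k9, k10⟩ := kk_all h
  have e1 : kk τ 7 - kk τ 3 = kk τ 1 * kk τ 8 * kk τ 9 * kk τ 10 / (kk τ 4 * kk τ 5 * kk τ 6) := by
    field_simp; linear_combination -rel2 h
  have e2 : kk τ 9 + kk τ 1 = kk τ 3 * kk τ 4 * kk τ 7 * kk τ 10 / (kk τ 2 * kk τ 5 * kk τ 8) := by
    field_simp; linear_combination rel3 h
  have e3 : kk τ 7 + kk τ 3 = kk τ 2 * kk τ 4 * kk τ 6 * kk τ 10 / (kk τ 1 * kk τ 5 * kk τ 9) := by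
    field_simp; linear_combination rel1 h
  have e4 : kk τ 9 - kk τ 1 = kk τ 2 * kk τ 6 * kk τ 8 * kk τ 10 / (kk τ 3 * kk τ 5 * kk τ 7) := by
    field_simp; linear_combination -rel4 h
  refine ⟨e1, e2, ?_, ?_⟩
  · rw [e1, e3, ua_kk h]; field_simp
  · rw [e2, e4, ub_kk h]; field_simp

lemma ux_kk : ux τ = kk τ 2 ^ 3 * kk τ 4 * kk τ 6 ^ 3 * kk τ 8 /
    (kk τ 1 ^ 2 * kk τ 3 ^ 2 * kk τ 7 ^ 2 * kk τ 9 ^ 2) := by
  obtain ⟨k0, k1, k2, k3, k4, k5, k6, k7, k8, k9, k10⟩ := kk_all h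
  rw [ux, ua_kk h, ub_kk h]; field_simp

/-- Four more units. -/
lemma u_units :
    ux τ + 1 = 2 * (kk τ 2 * kk τ 5 ^ 2 * kk τ 8) / (kk τ 1 * kk τ 4 * kk τ 9 * kk τ 10) ∧
    ux τ - 1 = 2 * (kk τ 4 * kk τ 5 ^ 2 * kk τ 6) / (kk τ 3 * kk τ 7 * kk τ 8 * kk τ 10) ∧
    ua τ + ub τ = 2 * (kk τ 2 * kk τ 4 * kk τ 5 ^ 2 * kk τ 6 ^ 3) /
      (kk τ 1 * kk τ 3 ^ 2 * kk τ 7 ^ 2 * kk τ 9 * kk τ 10) ∧
    ua τ - ub τ = 2 * (kk τ 2 ^ 3 * kk τ 5 ^ 2 * kk τ 6 * kk τ 8) /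
      (kk τ 1 ^ 2 * kk τ 3 * kk τ 7 * kk τ 9 ^ 2 * kk τ 10) := by
  obtain ⟨k0, k1, k2, k3, k4, k5, k6, k7, k8, k9, k10⟩ := kk_all h
  obtain ⟨e1, e2, e3, e4⟩ := u_frac h
  have n1 : kk τ 7 - kk τ 3 ≠ 0 := by rw [e1]; positivity
  have n2 : kk τ 9 + kk τ 1 ≠ 0 := by rw [e2]; positivity
  have f1 : kk τ 3 * kk τ 9 + kk τ 1 * kk τ 7 = kk τ 2 ^ 2 * kk τ 8 * kk τ 10 / (kk τ 1 * kk τ 9) := by
    field_simp; linear_combination rel5 h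
  have f2 : kk τ 7 * kk τ 9 + kk τ 1 * kk τ 3 = kk τ 4 * kk τ 6 ^ 2 * kk τ 10 / (kk τ 3 * kk τ 7) := by
    field_simp; linear_combination rel6 h
  have f3 : kk τ 3 * kk τ 9 - kk τ 1 * kk τ 7 =
      kk τ 1 * kk τ 4 * kk τ 9 * kk τ 10 / (kk τ 2 * kk τ 8) := by
    refine mul_left_cancel₀ (show kk τ 3 * kk τ 9 + kk τ 1 * kk τ 7 ≠ 0 by rw [f1]; positivity) ?_
    rw [← sq_sub_sq, f1]
    field_simp
    linear_combination -rel7 h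
  have f4 : kk τ 7 * kk τ 9 - kk τ 1 * kk τ 3 =
      kk τ 3 * kk τ 7 * kk τ 8 * kk τ 10 / (kk τ 4 * kk τ 6) := by
    refine mul_left_cancel₀ (show kk τ 7 * kk τ 9 + kk τ 1 * kk τ 3 ≠ 0 by rw [f2]; positivity) ?_
    rw [← sq_sub_sq, f2]
    field_simp
    linear_combination -rel8 h
  have g : ∀ x y z : ℂ, x * ((kk τ 7 - kk τ 3) * (kk τ 9 + kk τ 1)) = 2 * y →
      z * ((kk τ 7 - kk τ 3) * (kk τ 9 + kk τ 1)) = 2 * y → x = z := fun x y z a b =>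
    mul_right_cancel₀ (mul_ne_zero n1 n2) (a.trans b.symm)
  refine ⟨g _ (kk τ 7 * kk τ 9 - kk τ 1 * kk τ 3) _ ?_ ?_,
    g _ (kk τ 3 * kk τ 9 - kk τ 1 * kk τ 7) _ ?_ ?_,
    g _ (kk τ 7 * kk τ 9 + kk τ 1 * kk τ 3) _ ?_ ?_,
    g _ (kk τ 3 * kk τ 9 + kk τ 1 * kk τ 7) _ ?_ ?_⟩
  · rw [ux, e3, e4]; field_simp; ring
  · rw [e1, e2, f4]; field_simp
  · rw [ux, e3, e4]; field_simp; ring
  · rw [e1, e2, f3]; field_simp
  · rw [e3, e4]; field_simp; ring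
  · rw [e1, e2, f2]; field_simp
  · rw [e3, e4]; field_simp; ring
  · rw [e1, e2, f1]; field_simp

/-- The relation between the two units. -/
theorem u_rel : ua τ ^ 2 - ub τ ^ 2 = ux τ ^ 3 - ux τ := by
  obtain ⟨k0, k1, k2, k3, k4, k5, k6, k7, k8, k9, k10⟩ := kk_all h
  obtain ⟨e1, e2, e3, e4⟩ := u_units h
  rw [sq_sub_sq, show ux τ ^ 3 - ux τ = ux τ * ((ux τ + 1) * (ux τ - 1)) by ring, e1, e2, e3, e4,
    ux_kk h]
  field_simp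

/-- The equation of the curve. -/
theorem uy_sq : uy τ ^ 2 = ux τ ^ 3 - (1 + 2 * I) * ux τ := by
  have e : ux τ = ua τ * ub τ := rfl
  rw [uy]
  linear_combination u_rel h + ub τ ^ 2 * I_mul_I + 2 * I * e

/-- The equation of the conjugate curve. -/
theorem uz_sq : uz τ ^ 2 = ux τ ^ 3 - (1 - 2 * I) * ux τ := by
  have e : ux τ = ua τ * ub τ := rfl
  rw [uz]
  linear_combination u_rel h + ub τ ^ 2 * I_mul_I - 2 * I * e

theorem ua_ne : ua τ ≠ 0 := by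
  obtain ⟨k0, k1, k2, k3, k4, k5, k6, k7, k8, k9, k10⟩ := kk_all h
  rw [ua_kk h]; positivity

theorem ub_ne : ub τ ≠ 0 := by
  obtain ⟨k0, k1, k2, k3, k4, k5, k6, k7, k8, k9, k10⟩ := kk_all h
  rw [ub_kk h]; positivity

theorem ux_ne : ux τ ≠ 0 := mul_ne_zero (ua_ne h) (ub_ne h)

theorem ux_sq_ne : ux τ ^ 2 ≠ 1 := by
  obtain ⟨k0, k1, k2, k3, k4, k5, k6, k7, k8, k9, k10⟩ := kk_all h
  rw [← sub_ne_zero, ← one_pow 2, sq_sub_sq, (u_units h).1, (u_units h).2.1]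
  simp [*]

omit h

theorem hol_ua : Hol ua := fun τ h =>
  ((((hol_kk 2 τ h).mul ((hol_kk 4 τ h).pow 2)).mul ((hol_kk 6 τ h).pow 2)).div
    ((((hol_kk 1 τ h).pow 2).mul (hol_kk 8 τ h)).mul ((hol_kk 9 τ h).pow 2))
    (mul_ne_zero (mul_ne_zero (pow_ne_zero _ (kk_ne h _ (by decide))) (kk_ne h _ (by decide)))
      (pow_ne_zero _ (kk_ne h _ (by decide))))).congr_of_eventuallyEq
    (mem_of_superset (Unif.upper_mem_nhds h) fun _ hz => ua_kk hz)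

theorem hol_ub : Hol ub := fun τ h =>
  (((((hol_kk 2 τ h).pow 2).mul (hol_kk 6 τ h)).mul ((hol_kk 8 τ h).pow 2)).div
    ((((hol_kk 3 τ h).pow 2).mul (hol_kk 4 τ h)).mul ((hol_kk 7 τ h).pow 2))
    (mul_ne_zero (mul_ne_zero (pow_ne_zero _ (kk_ne h _ (by decide))) (kk_ne h _ (by decide)))
      (pow_ne_zero _ (kk_ne h _ (by decide))))).congr_of_eventuallyEq
    (mem_of_superset (Unif.upper_mem_nhds h) fun _ hz => ub_kk hz)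

theorem hol_ux : Hol ux := fun τ h => (hol_ua τ h).mul (hol_ub τ h)

theorem hol_uy : Hol uy := fun τ h => (hol_ua τ h).sub ((hol_ub τ h).const_mul I)

theorem hol_uz : Hol uz := fun τ h => (hol_ua τ h).add ((hol_ub τ h).const_mul I)

end Pool.Agent.Lib.MP_696deb_nt.Y2
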