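import Pool.Agent.Lib.MP_696deb_nt.Y2.C0
import Pool.Agent.Lib.MP_696deb_nt.Y2.MK

/-! Sums of the Weierstrass function over the kernel of an isogeny. -/

set_option autoImplicit false

open scoped Classical
open Complex Finset PeriodPair Pool.Agent.Shared.Weier

namespace Pool.Agent.Lib.MP_696deb_nt.Y2

open EA
open Sm (Qb GQ)
open B2 (Plc)
open Q4 (A II vm zq Tw)
open QF (G ip Prim Per)


variable {ω : G × G} {m : ℕ} {p q r s i j : ℤ} {g y : G} {T : A}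

/-- The Weierstrass function of a larger lattice. -/
theorem wp_sum {L M : PeriodPair} {R : Finset ℂ} (hle : ∀ z ∈ M.lattice, z ∈ L.lattice)
    (h1 : ∀ r ∈ R, r ∈ L.lattice) (ex : ∀ l ∈ L.lattice, ∃ r ∈ R, l - r ∈ M.lattice)
    (uq : ∀ r ∈ R, ∀ r' ∈ R, r - r' ∈ M.lattice → r = r') {z w : ℂ} (hz : z ∉ L.lattice)
    (hw : w ∉ L.lattice) : ℘[L] z - ℘[L] w = ∑ r ∈ R, (℘[M] (z + r) - ℘[M] (w + r)) := by
  have _ := hz
  have _ := hw
  have key : ∀ r ∈ R, HasSum (fun l : L.lattice => if (l : ℂ) + r ∈ M.lattice then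
      1 / (z - l) ^ 2 - 1 / (w - l) ^ 2 else 0) (℘[M] (z + r) - ℘[M] (w + r)) := fun r hr => by
    refine (Function.Injective.hasSum_iff
      (g := fun x : M.lattice => (⟨x - r, sub_mem (hle _ x.2) (h1 r hr)⟩ : L.lattice))
      (fun a b e => Subtype.ext (sub_left_inj.1 (congrArg Subtype.val e)))
      fun l hl => if_neg fun e => hl ⟨⟨_, e⟩, Subtype.ext (add_sub_cancel_right _ _)⟩).1 ?_
    refine ((M.hasSum_weierstrassP (z + r)).sub (M.hasSum_weierstrassP (w + r))).congr_fun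
      fun x => ?_
    simp only [Function.comp, sub_add_cancel, x.2, if_true]
    ring
  refine (((L.hasSum_weierstrassP z).sub (L.hasSum_weierstrassP w)).unique
    ((hasSum_sum key).congr_fun fun l => ?_))
  obtain ⟨r, hr, e⟩ := ex (-l) (neg_mem l.2)
  have e1 : (l : ℂ) + r ∈ M.lattice := by
    have := neg_mem e
    rwa [neg_sub, sub_neg_eq_add, add_comm] at this
  rw [sum_eq_single_of_mem r hr fun r' hr' k => if_neg fun e' => k (uq _ hr' _ hr (by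
    simpa using sub_mem e' e1)), if_pos e1]
  ring

theorem dt_mv : dt (mv p q r s ω) = (p * s - q * r) * dt ω := by
  simp [dt, mv]
  ring

theorem dt_mul : dt (g * ω.1, g * ω.2) = g.norm * dt ω := by
  simp [dt, Zsqrtd.norm_def]
  ring

theorem mv_mv {p' q' r' s' : ℤ} : mv p q r s (mv p' q' r' s' ω) =
    mv (p * p' + q * r') (p * q' + q * s') (r * p' + s * r') (r * q' + s * s') ω := by
  simp only [mv, Int.cast_add, Int.cast_mul, Prod.mk.injEq]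
  constructor <;> ring

theorem mv_one : mv 1 0 0 1 ω = ω := by simp [mv]

theorem c1_ind (h : dt ω ≠ 0) {p' q' : ℤ} (e : p * ω.1 + q * ω.2 = p' * ω.1 + q' * ω.2) :
    p = p' ∧ q = q' := by
  have h1 := congrArg Zsqrtd.re e
  have h2 := congrArg Zsqrtd.im e
  simp only [Zsqrtd.re_add, Zsqrtd.im_add, Zsqrtd.re_mul, Zsqrtd.im_mul, Zsqrtd.re_intCast,
    Zsqrtd.im_intCast] at h1 h2
  have e1 : dt ω = ω.1.im * ω.2.re - ω.1.re * ω.2.im := by
    simp [dt]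
    ring
  rw [e1] at h
  exact ⟨mul_right_cancel₀ h (by linear_combination ω.2.re * h2 - ω.2.im * h1),
    mul_right_cancel₀ h (by linear_combination ω.1.im * h1 - ω.1.re * h2)⟩

theorem mv_inj (h : dt ω ≠ 0) {p' q' r' s' : ℤ} (e : mv p q r s ω = mv p' q' r' s' ω) :
    p = p' ∧ q = q' ∧ r = r' ∧ s = s' := by
  obtain ⟨e1, e2⟩ := Prod.mk.inj e
  exact ⟨(c1_ind h e1).1, (c1_ind h e1).2, c1_ind h e2⟩

theorem snd_ne (h : dt ω ≠ 0) : ω.2 ≠ 0 := fun e => h (by simp [dt, e])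

theorem tb_pos (h : 0 < dt ω) : 0 < (tb ω).im := by
  have h1 : 0 < normSq (ω.2 : ℂ) := normSq_pos.2 (coe_ne (snd_ne h.ne'))
  have e1 : dt ω = ω.1.im * ω.2.re - ω.1.re * ω.2.im := by
    simp [dt]
    ring
  rw [tb, div_im, ← sub_div, ← GaussianInt.intCast_re, ← GaussianInt.intCast_re,
    ← GaussianInt.intCast_im, ← GaussianInt.intCast_im]
  refine div_pos ?_ h1
  rw [e1] at h
  exact_mod_cast h

theorem tb_mv (h : dt ω ≠ 0) : tb (mv p q r s ω) = mob p q r s (tb ω) := by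
  have h1 := coe_ne (snd_ne h)
  rw [mob, ← mul_div_mul_right _ _ h1]
  simp only [tb, mv, map_add, map_mul, map_intCast, add_mul, mul_assoc, div_mul_cancel₀ _ h1]

theorem tb_mul (hg : g ≠ 0) : tb (g * ω.1, g * ω.2) = tb ω := by
  simp only [tb, map_mul, mul_div_mul_left _ _ (coe_ne hg)]

theorem Lb_lev (h : dt ω ∣ m) (h0 : dt ω ≠ 0) (y : G) : Lb ω (m * y) := by
  have _ := h0
  obtain ⟨k, e⟩ := h
  refine ⟨k * (y * star ω.2).im, k * (ω.1 * star y).im, ?_⟩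
  rw [← Int.cast_natCast, e]
  ext <;> simp [dt] <;> ring

theorem La_lev (h : 10 * dt ω ∣ m) (h0 : dt ω ≠ 0) (y : G) : La ω (m * y) := by
  have e : dt (mv 5 1 0 2 ω) = 10 * dt ω := by rw [dt_mv]; norm_num
  obtain ⟨a, b, k⟩ := Lb_lev (ω := mv 5 1 0 2 ω) (m := m) (e ▸ h)
    (e ▸ mul_ne_zero (by norm_num) h0) y
  exact ⟨a, b, by simpa [mv] using k⟩

theorem La.lb (h : La ω y) : Lb ω y := by
  obtain ⟨a, b, rfl⟩ := h
  exact ⟨5 * a, a + 2 * b, by push_cast; ring⟩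

theorem c1_ne (hm : 0 < m) : (m : G) ≠ 0 := Nat.cast_ne_zero.2 hm.ne'

theorem c1_tq_add {n : G} (hn : n ≠ 0) (a b : G) : tq (a + b) n = tq a n + tq b n := by
  rw [tq_eq _ hn, tq_eq a hn, tq_eq b hn, add_smul]

theorem c1_tq_neg {n : G} (hn : n ≠ 0) (a : G) : tq (-a) n = -tq a n := by
  rw [tq_eq _ hn, tq_eq a hn, neg_smul]

theorem mem_Cs (hm : 0 < m) : T ∈ Cs m ω ↔ ∃ y, La ω y ∧ T = tq y m := by
  rw [Cs, mem_filter, mem_En (c1_ne hm), and_iff_right_iff_imp]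
  rintro ⟨y, -, rfl⟩
  rw [smul_tq _ _ (c1_ne hm), tq_eq_zero (c1_ne hm)]
  exact dvd_mul_right _ _

theorem c1_add (hm : 0 < m) {T' : A} (h : T ∈ Cs m ω) (h' : T' ∈ Cs m ω) : T + T' ∈ Cs m ω := by
  obtain ⟨_, ⟨a, b, rfl⟩, rfl⟩ := (mem_Cs hm).1 h
  obtain ⟨_, ⟨a', b', rfl⟩, rfl⟩ := (mem_Cs hm).1 h'
  exact (mem_Cs hm).2 ⟨_, ⟨a + a', b + b', by push_cast; ring⟩, (c1_tq_add (c1_ne hm) _ _).symm⟩

theorem c1_neg (hm : 0 < m) (h : T ∈ Cs m ω) : -T ∈ Cs m ω := by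
  obtain ⟨_, ⟨a, b, rfl⟩, rfl⟩ := (mem_Cs hm).1 h
  exact (mem_Cs hm).2 ⟨_, ⟨-a, -b, by push_cast; ring⟩, (c1_tq_neg (c1_ne hm) _).symm⟩

theorem Sp_add (hm : 0 < m) (j : ℤ) (y : G) :
    j • Sp m ω + tq y m = tq (j * ω.1 + 2 * y) (2 * m) := by
  have h2 := mul_ne_zero two_ne_zero (c1_ne hm)
  rw [c1_tq_add h2, tq_mul two_ne_zero _ (c1_ne hm), ← smul_tq _ _ h2, Int.cast_smul_eq_zsmul, Sp]

theorem Sp_kill (hm : 0 < m) (hT : T ∈ Cs m ω) (j : ℤ) : (2 * m : G) • (j • Sp m ω + T) = 0 := by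
  have h2 := mul_ne_zero two_ne_zero (c1_ne hm)
  obtain ⟨y, -, rfl⟩ := (mem_Cs hm).1 hT
  rw [Sp_add hm, smul_tq _ _ h2, tq_eq_zero h2]
  exact dvd_mul_right _ _

theorem Sp_ne (hd : 0 < dt ω) (hm : 0 < m) (h : 10 * dt ω ∣ m) (hj : ¬ 20 ∣ j) (hT : T ∈ Cs m ω) :
    j • Sp m ω + T ≠ 0 := fun e => by
  have h2 := mul_ne_zero two_ne_zero (c1_ne hm)
  obtain ⟨_, ⟨a, b, rfl⟩, rfl⟩ := (mem_Cs hm).1 hT
  rw [Sp_add hm, tq_eq_zero h2] at e
  obtain ⟨t, e⟩ := e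
  obtain ⟨a', b', k⟩ := La_lev h hd.ne' t
  have := c1_ind (p := j) (q := 0) (p' := 10 * (a' - a)) (q' := 2 * (a' - a) + 4 * (b' - b)) hd.ne'
    (by push_cast; linear_combination e + 2 * k)
  omega

theorem c1_cp (P : A) {z : ℂ} (h : cp P = un z) : z - lf P ∈ LG.lattice := by
  rw [← un_eq_zero, map_sub, ← h, ← un_lf, sub_self]

/-- The traces are values of the Weierstrass function of the lattice attached to the basis. -/
theorem jc_pq (hd : 0 < dt ω) (hm : 0 < m) (h : 10 * dt ω ∣ m) (hi : ¬ 20 ∣ i) (hj : ¬ 20 ∣ j) :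
    EA.jc (pq 1 m ω i - pq 1 m ω j) = (m / (2 * (ω.2 : ℂ) * Om)) ^ 2 *
      (pw (Lt (tb ω)) (tb ω / 4) i - pw (Lt (tb ω)) (tb ω / 4) j) := by
  have n2 := coe_ne (snd_ne hd.ne')
  have nm : (m : ℂ) ≠ 0 := Nat.cast_ne_zero.2 hm.ne'
  have nO := Om_ne
  have hc : 2 * (ω.2 : ℂ) * Om / m ≠ 0 :=
    div_ne_zero (mul_ne_zero (mul_ne_zero two_ne_zero n2) nO) nm
  have sc := Gal.sc_scale (Lt (tb ω)) hc
  have hτ := tb_pos hd
  generalize Gal.scale (Lt (tb ω)) hc = L at sc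
  have mL : ∀ z, z ∈ L.lattice ↔ ∃ y, La ω y ∧ z = Om * y / (m : G) := fun z => by
    rw [← sc.symm.mem, mem_Lt hτ]
    refine ⟨fun ⟨a, b, e⟩ => ⟨_, ⟨a, b, rfl⟩, ?_⟩, ?_⟩
    · rw [inv_mul_eq_iff_eq_mul₀ hc] at e
      simp only [e, tb, map_add, map_mul, map_intCast, map_natCast, map_ofNat]
      field_simp
    · rintro ⟨_, ⟨a, b, rfl⟩, rfl⟩
      refine ⟨a, b, ?_⟩
      simp only [tb, map_add, map_mul, map_intCast, map_natCast, map_ofNat]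
      field_simp
  have hle : ∀ z ∈ LG.lattice, z ∈ L.lattice := fun z hz => by
    obtain ⟨t, rfl⟩ := mem_LG.1 hz
    refine (mL _).2 ⟨_, La_lev h hd.ne' t, ?_⟩
    simp only [map_mul, map_natCast]
    field_simp
  have inj : ∀ P P' : A, lf P - lf P' ∈ LG.lattice → P = P' := fun P P' e => cp_inj (by
    rw [← un_eq_zero, map_sub, ← un_lf, ← un_lf, sub_eq_zero] at e
    exact e)
  have key : ∀ k : ℤ, ¬ 20 ∣ k → ∀ T ∈ Cs m ω, EA.jc (xco ((1 : G) • (k • Sp m ω + T))) =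
      ℘[LG] (2 * (ω.2 : ℂ) * Om / m * (k * (tb ω / 4)) + lf T) := fun k hk T hT => by
    rw [one_smul]
    refine (cp_co ?_ (Sp_ne hd hm h hk hT)).1
    rw [map_add, map_add, ← un_lf, map_zsmul, Sp, cp_tq _ (mul_ne_zero two_ne_zero (c1_ne hm)),
      ← map_zsmul]
    congr 2
    simp only [tb, zsmul_eq_mul, map_mul, map_natCast, map_ofNat]
    field_simp
    norm_num
  have e := wp_sum (L := L) (M := LG) (R := (Cs m ω).image lf) hle (fun r hr => by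
      obtain ⟨T, hT, rfl⟩ := mem_image.1 hr
      obtain ⟨y, hy, rfl⟩ := (mem_Cs hm).1 hT
      simpa using sub_mem ((mL _).2 ⟨y, hy, rfl⟩) (hle _ (c1_cp _ (cp_tq y (c1_ne hm)))))
    (fun l hl => by
      obtain ⟨y, hy, rfl⟩ := (mL _).1 hl
      exact ⟨_, mem_image_of_mem _ ((mem_Cs hm).2 ⟨y, hy, rfl⟩), c1_cp _ (cp_tq y (c1_ne hm))⟩)
    (fun r hr r' hr' e => by
      obtain ⟨T, -, rfl⟩ := mem_image.1 hr
      obtain ⟨T', -, rfl⟩ := mem_image.1 hr'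
      rw [inj _ _ e])
    (mt ((sc.mem _).trans (ord_Lt hτ)).1 hi) (mt ((sc.mem _).trans (ord_Lt hτ)).1 hj)
  rw [sc.wp, sc.wp, sum_image fun P _ P' _ e => inj P P' (by rw [e, sub_self]; exact zero_mem _),
    inv_div, ← mul_sub] at e
  rw [pw, pw, e, pq, pq, ← sum_sub_distrib, map_sum]
  exact sum_congr rfl fun T hT => by rw [map_sub, key i hi T hT, key j hj T hT]

theorem pq_ne (hd : 0 < dt ω) (hm : 0 < m) (h : 10 * dt ω ∣ m) (hi : ¬ 20 ∣ i) (hj : ¬ 20 ∣ j)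
    (h1 : ¬ 20 ∣ i - j) (h2 : ¬ 20 ∣ i + j) : pq 1 m ω i - pq 1 m ω j ≠ 0 := fun e => by
  have n2 := coe_ne (snd_ne hd.ne')
  have nm : (m : ℂ) ≠ 0 := Nat.cast_ne_zero.2 hm.ne'
  have nO := Om_ne
  have hτ := tb_pos hd
  have k := jc_pq hd hm h hi hj
  rw [e, map_zero, eq_comm, mul_eq_zero, or_iff_right (pow_ne_zero 2
    (div_ne_zero nm (mul_ne_zero (mul_ne_zero two_ne_zero n2) nO))), sub_eq_zero, pw, pw,
    wp_eq_iff (mt (ord_Lt hτ).1 hi) (mt (ord_Lt hτ).1 hj), ← add_mul, ← sub_mul, ← Int.cast_add,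
    ← Int.cast_sub, ord_Lt hτ, ord_Lt hτ] at k
  exact k.elim h2 h1

theorem pq_per (hm : 0 < m) (h : 20 ∣ i - j) : pq 1 m ω i = pq 1 m ω j := by
  obtain ⟨k, e⟩ := h
  have h0 : (20 * k) • Sp m ω ∈ Cs m ω := by
    refine (mem_Cs hm).2 ⟨10 * k * ω.1, ⟨2 * k, -k, by push_cast; ring⟩, ?_⟩
    rw [← tq_mul two_ne_zero _ (c1_ne hm), ← Int.cast_smul_eq_zsmul G, Sp,
      smul_tq _ _ (mul_ne_zero two_ne_zero (c1_ne hm))]
    congr 1
    push_cast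
    ring
  refine sum_nbij' (fun T => (20 * k) • Sp m ω + T) (fun T => -((20 * k) • Sp m ω) + T)
    (fun T hT => c1_add hm h0 hT) (fun T hT => c1_add hm (c1_neg hm h0) hT)
    (fun T _ => neg_add_cancel_left _ _) (fun T _ => add_neg_cancel_left _ _) fun T _ => ?_
  rw [← add_assoc, ← add_zsmul, show j + 20 * k = i by omega]

end Pool.Agent.Lib.MP_696deb_nt.Y2
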