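import Pool.Agent.Lib.MP_696deb_nt.Y2.C1
import Pool.Agent.Lib.MP_696deb_nt.Y2.M7

/-! The algebraic points attached to bases and their transport. -/

set_option autoImplicit false

open scoped Classical
open Complex Finset PeriodPair Pool.Agent.Shared.Weier

namespace Pool.Agent.Lib.MP_696deb_nt.Y2

open EA
open Sm (Qb GQ)
open B2 (Plc)
open Q4 (A II vm zq Tw)
open QF (G ip Prim Per)


variable {ω ω' ω'' : G × G} {m : ℕ} {p q r s : ℤ} {g g' e e' : G} {P : A}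

/-- The reduction modulo four. -/
def c2_r : ZMod 20 →+* ZMod 4 := ZMod.castHom (by decide) (ZMod 4)

theorem c2_om (h2 : p % 2 = 1) (h5 : ¬ 5 ∣ p) : om p ^ 4 = 1 := by
  have key : ∀ a : ZMod 20, a.val % 2 = 1 → a.val % 5 ≠ 0 → om a ^ 4 = 1 := by decide +kernel
  have h1 := ZMod.val_intCast (n := 20) p
  exact key _ (by omega) (by omega)

theorem c2_odd (h : (p * s - q * (10 * r)) % 4 = 1) : p % 2 = 1 ∧ s % 2 = 1 := by
  have e : (p * s) % 2 = 1 := by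
    rw [show q * (10 * r) = 10 * (q * r) by ring] at h
    omega
  rw [← Int.odd_iff, Int.odd_mul, Int.odd_iff, Int.odd_iff] at e
  exact e

theorem c2_four (h : (p * s - q * (10 * r)) % 4 = 1) :
    (p : ZMod 4) * s - 2 * (q * r) = 1 := by
  have e : ((p * s - q * (10 * r) : ℤ) : ZMod 4) = (1 : ℤ) :=
    (ZMod.intCast_eq_intCast_iff' _ _ 4).2 h
  have e8 : (8 : ZMod 4) = 0 := by decide
  push_cast at e
  linear_combination e + q * r * e8

theorem xp_four (h2 : p % 2 = 1) (h5 : ¬ 5 ∣ p) : xp p q ^ 4 = 1 := by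
  rw [xp, mul_pow, QF.ip_four, ← star_pow, c2_om h2 h5, star_one, one_mul]

theorem xp_one : xp 1 0 = 1 := by decide

theorem xp_xi (h : p * s - q * (10 * r) = 1) : xp p q = xi q s := by
  have k1 : ∀ a b t : ZMod 20, a * b - 10 * t = 1 → star (om a) = om b * ip (2 * c2_r t) := by
    decide +kernel
  have k2 : ∀ a b c d : ZMod 4, a * b - 2 * (c * d) = 1 →
      ip (a * c) * ip (2 * (c * d)) = ip (c * b) := by decide +kernel
  have k3 : ∀ x : ZMod 20, QF.ii ^ x.val = ip (c2_r x) := by decide +kernel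
  have e : (p : ZMod 20) * s - 10 * (q * r) = 1 := by
    have := congrArg (Int.cast (R := ZMod 20)) h
    push_cast at this
    linear_combination this
  rw [xp, xi, k1 _ _ _ e, k3, map_mul, map_mul, map_intCast, map_intCast, map_intCast,
    ← k2 _ _ _ _ (c2_four (by rw [h]; rfl)), Int.cast_mul]
  ring

theorem xp_mul {p' q' r' s' : ℤ} (h : (p * s - q * (10 * r)) % 4 = 1)
    (h' : (p' * s' - q' * (10 * r')) % 4 = 1) :
    xp (p * p' + q * (10 * r')) (p * q' + q * s') = xp p q * xp p' q' := by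
  have k1 : ∀ x t : ZMod 20, c2_r x * c2_r x = 1 →
      star (om (x + 10 * t)) = star (om x) * ip (2 * c2_r t) := by decide +kernel
  have k2 : ∀ a b c : ZMod 4, a * b - 2 * c = 1 → a * a = 1 := by decide +kernel
  have k3 : ∀ a b a' b' c' d' : ZMod 4, a * a = 1 → a' * d' - 2 * (b' * c') = 1 →
      (a * a' + b * (10 * c')) * (a * b' + b * d') + 2 * (b * c') = a * b + a' * b' := by
    decide +kernel
  have a1 := k2 _ _ _ (c2_four h)
  have a2 := k2 _ _ _ (c2_four h')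
  have e : ((p * p' + q * (10 * r') : ℤ) : ZMod 20) = p * p' + 10 * (q * r') := by
    push_cast
    ring
  rw [xp, xp, xp, e, k1 _ _ (by
    rw [map_mul, map_intCast, map_intCast, mul_mul_mul_comm, a1, a2, one_mul]), map_mul,
    map_intCast, map_intCast, mul_left_comm, ← QF.ip_add, om_mul, star_mul]
  push_cast
  rw [k3 _ _ _ _ _ _ a1 (c2_four h'), QF.ip_add]
  ring

theorem xp_congr {p' q' : ℤ} (h : 20 ∣ p - p') (h' : 4 ∣ q - q') : xp p q = xp p' q' := by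
  have a : (p' : ZMod 20) = p := (ZMod.intCast_eq_intCast_iff_dvd_sub _ _ 20).2 h
  have b : (p' : ZMod 4) = p := (ZMod.intCast_eq_intCast_iff_dvd_sub _ _ 4).2 (by omega)
  have c : (q' : ZMod 4) = q := (ZMod.intCast_eq_intCast_iff_dvd_sub _ _ 4).2 h'
  rw [xp, xp, Int.cast_mul, Int.cast_mul, a, b, c]

theorem Tr.four (h : Tr g ω ω' e) : e ^ 4 = 1 := by
  obtain ⟨p, q, r, s, -, h4, h5, rfl⟩ := h
  exact xp_four (c2_odd h4).1 h5

theorem Tr.refl (ω : G × G) : Tr 1 ω ω 1 :=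
  ⟨1, 0, 0, 1, by simp [mv], by decide, by decide, xp_one.symm⟩

theorem Tr.trans (h : Tr g ω ω' e) (h' : Tr g' ω' ω'' e') : Tr (g * g') ω ω'' (e * e') := by
  obtain ⟨p, q, r, s, h1, h4, h5, rfl⟩ := h
  obtain ⟨p', q', r', s', k1, k4, k5, rfl⟩ := h'
  refine ⟨p * p' + q * (10 * r'), p * q' + q * s', r * p' + s * r', 10 * r * q' + s * s', ?_, ?_,
    fun h => ?_, (xp_mul h4 k4).symm⟩
  · simp only [mv, Prod.mk.injEq] at h1 k1 ⊢
    push_cast at h1 k1 ⊢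
    exact ⟨by linear_combination g' * h1.1 + p * k1.1 + q * k1.2,
      by linear_combination g' * h1.2 + 10 * r * k1.1 + s * k1.2⟩
  · rw [show (p * p' + q * (10 * r')) * (10 * r * q' + s * s') -
      (p * q' + q * s') * (10 * (r * p' + s * r')) =
      (p * s - q * (10 * r)) * (p' * s' - q' * (10 * r')) by ring, Int.mul_emod, h4, k4]
    rfl
  · rw [show q * (10 * r') = 5 * (2 * q * r') by ring, Int.dvd_add_left (dvd_mul_right _ _)] at h
    exact ((Int.prime_iff_natAbs_prime.2 (by decide)).dvd_or_dvd h).elim h5 k5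

theorem Tr.uniq (h0 : dt ω' ≠ 0) (h : Tr g ω ω' e) (h' : Tr g ω ω' e') : e = e' := by
  obtain ⟨p, q, r, s, h1, -, -, rfl⟩ := h
  obtain ⟨p', q', r', s', k1, -, -, rfl⟩ := h'
  obtain ⟨a, b, -⟩ := mv_inj h0 (h1.symm.trans k1)
  rw [a, b]

theorem co_smul (he : e ^ 4 = 1) (P : A) :
    xco (e • P) = io e ^ 2 * xco P ∧ yco (e • P) = io e * yco P := by
  have h4 : star e ^ 4 = 1 := by rw [← star_pow, he, star_one]
  have h1 : io (star e) ^ 4 = 1 := by rw [← map_pow, h4, map_one]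
  have h2 := Q4.vm_un h1 (one_pow 4) (RingHom.id Qb) P
  have h3 : star e ^ 2 = e ^ 2 ∧ star e ^ 3 = e := by
    rcases QF.f1_roots QF.f1_ii he with rfl | rfl | rfl | rfl <;> decide
  rw [un_io h4, star_star, mul_one, Q4.vm_one] at h2
  rw [← h2, (xco_vm _ h1 P).1, (xco_vm _ h1 P).2, ← map_pow io _ 3, ← map_pow, h3.1, h3.2, map_pow]
  exact ⟨rfl, rfl⟩

theorem pt_ext' {Q : A} (hP : P ≠ 0) (hQ : Q ≠ 0) (hx : xco P = xco Q) (hy : yco P = yco Q) :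
    P = Q := by
  rcases P with _ | ⟨x, y, h⟩
  · exact absurd rfl hP
  rcases Q with _ | ⟨x', y', h'⟩
  · exact absurd rfl hQ
  exact Q4.pt_ext hx hy

theorem c2_k (hd : 0 < dt ω) (hm : 0 < m) (hl : 10 * dt ω ∣ m) (hp : IsCoprime p 20) :
    EA.jc (kP fun j => pq 1 m ω (p * j)) = kA (Lt (tb ω)) (p * (tb ω / 4)) ∧
    EA.jc (kQ fun j => pq 1 m ω (p * j)) = kB (Lt (tb ω)) (p * (tb ω / 4)) := by
  have n : ∀ j : ℤ, 0 < j → j < 20 → ¬ 20 ∣ p * j := fun j a b h => by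
    have := hp.symm.dvd_of_dvd_mul_left h
    omega
  have e : ∀ j : ℤ, pw (Lt (tb ω)) (tb ω / 4) (p * j) = pw (Lt (tb ω)) (p * (tb ω / 4)) j :=
    fun j => by rw [pw, pw, Int.cast_mul, mul_comm (p : ℂ) j, mul_assoc]
  have k : ∀ i j : ℤ, 0 < i → i < 20 → 0 < j → j < 20 → _ := fun i j a b c d =>
    jc_pq hd hm hl (n i a b) (n j c d)
  have c0 : ((m : ℂ) / (2 * (ω.2 : ℂ) * Om)) ^ 2 ≠ 0 := pow_ne_zero _ (div_ne_zero
    (Nat.cast_ne_zero.2 hm.ne') (mul_ne_zero (mul_ne_zero two_ne_zero (coe_ne (snd_ne hd.ne')))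
      Om_ne))
  simp (disch := norm_num) only [kP, kQ, kA, kB, map_div₀, map_mul, k, e]
  constructor <;>
  rw [mul_mul_mul_comm, mul_mul_mul_comm _ (_ - _) (_ ^ 2),
    mul_div_mul_left _ _ (mul_ne_zero c0 c0)]

theorem pt_spec (hd : 0 < dt ω) : cp (Pt ω) = un (uu (tb ω)) := by
  have hl : 10 * dt ω ∣ ((10 * dt ω).natAbs : ℕ) := Int.dvd_natAbs.2 dvd_rfl
  obtain ⟨a, b⟩ := c2_k hd (by omega) hl (isCoprime_one_left (x := 20))
  obtain ⟨k, e⟩ := un_uu (tb_pos hd)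
  have h : ∃ P : A, cp P = un (uu (tb ω)) := by
    refine exists_cp ?_
    rw [Int.cast_one, one_mul] at a b
    rw [e, xco_some, ux, ua, ub, ← a, ← b, rho, ← map_mul, ← map_pow, ← map_div₀]
    exact (Algebra.IsAlgebraic.isAlgebraic _).algHom EA.jc.toRatAlgHom
  rw [Pt, dif_pos h]
  exact h.choose_spec

theorem pt_ne (hd : 0 < dt ω) : Pt ω ≠ 0 := mt (cp_ne (pt_spec hd)).2 (uu_spec (tb_pos hd)).1

theorem pt_co (hd : 0 < dt ω) : EA.jc (xco (Pt ω)) = ux (tb ω) / rho ^ 2 ∧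
    EA.jc (yco (Pt ω)) = -uy (tb ω) / rho ^ 3 := by
  obtain ⟨a, b⟩ := cp_co (pt_spec hd) (pt_ne hd)
  obtain ⟨-, c, d⟩ := uu_spec (tb_pos hd)
  rw [a, b, c, d]
  exact ⟨rfl, by ring⟩

theorem pt_mul (hg : g ≠ 0) : Pt (g * ω.1, g * ω.2) = Pt ω := by
  simp only [Pt, tb_mul hg]

/-- The change of basis. -/
theorem pt_tr (hd : 0 < dt ω') (h : Tr g ω ω' e) (hg : g.norm * dt ω = dt ω') :
    Pt ω = e • Pt ω' := by
  obtain ⟨p, q, r, s, h1, -, -, rfl⟩ := h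
  have g0 : g ≠ 0 := by
    rintro rfl
    rw [Zsqrtd.norm_zero, zero_mul] at hg
    exact hd.ne hg
  have d0 : 0 < dt ω := (mul_pos_iff_of_pos_left (GaussianInt.norm_pos.2 g0)).1 (hg ▸ hd)
  have h2 : p * s - q * (10 * r) = 1 := by
    have := congrArg dt h1
    rw [dt_mul, dt_mv, hg] at this
    exact mul_right_cancel₀ hd.ne' (this.symm.trans (one_mul _).symm)
  refine cp_inj ?_
  rw [pt_spec d0, cp_smul _ (pt_spec hd), ← sub_eq_zero, ← map_sub, un_eq_zero, ← tb_mul g0, h1,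
    tb_mv hd.ne', xp_xi h2]
  exact uu_mob h2 (tb_pos hd)

theorem c2_add (hm : 0 < m) (x y : G) : tq (x + y) m = tq x m + tq y m := by
  have m0 : (m : G) ≠ 0 := Nat.cast_ne_zero.2 hm.ne'
  rw [tq_eq _ m0, add_smul, ← tq_eq _ m0, ← tq_eq _ m0]

theorem c2_iff (hm : 0 < m) {x y : G} : tq x m = tq y m ↔ (m : G) ∣ x - y := by
  have m0 : (m : G) ≠ 0 := Nat.cast_ne_zero.2 hm.ne'
  rw [← smul_tq_one m0, sub_smul, ← tq_eq _ m0, ← tq_eq _ m0, sub_eq_zero]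

theorem c2_La {x y : G} (hx : La ω x) (hy : La ω y) : La ω (x + y) := by
  obtain ⟨a, b, rfl⟩ := hx
  obtain ⟨c, d, rfl⟩ := hy
  exact ⟨a + c, b + d, by push_cast; ring⟩

/-- Multiplication by `g` transports the traces. -/
theorem pq_map (hm : 0 < m) (h : (g * ω.1, g * ω.2) = mv p (4 * q) (10 * r) s ω') (hp : p % 2 = 1)
    (hs : s % 2 = 1) (h5 : ¬ 5 ∣ p) (hd : dt ω' ≠ 0) (hl : 10 * dt ω' ∣ m)
    (inj : ∀ y, Lb ω y → (m : G) ∣ g * y → (m : G) ∣ y)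
    (surj : ∀ y', Lb ω' y' → ∃ y, Lb ω y ∧ (m : G) ∣ g * y - y') (j : ℤ) :
    pq g m ω j = pq 1 m ω' (p * j) := by
  have m0 : (m : G) ≠ 0 := Nat.cast_ne_zero.2 hm.ne'
  obtain ⟨p0, rfl⟩ : ∃ k, p = 2 * k + 1 := ⟨p / 2, by omega⟩
  obtain ⟨s0, rfl⟩ : ∃ k, s = 2 * k + 1 := ⟨s / 2, by omega⟩
  obtain ⟨h1, h2⟩ := Prod.mk.inj h
  push_cast at h1 h2
  have key : ∀ y, g • (j • Sp m ω + tq y m) =
      (1 : G) • (((2 * p0 + 1) * j) • Sp m ω' + tq (2 * j * q * ω'.2 + g * y) m) := fun y => by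
    rw [Sp_add hm, Sp_add hm, smul_tq _ _ (mul_ne_zero two_ne_zero m0), one_smul]
    congr 1
    push_cast
    linear_combination j * h1
  have hφ : ∀ y, tq (2 * j * q * ω'.2) m + g • tq y m = tq (2 * j * q * ω'.2 + g * y) m :=
    fun y => by rw [smul_tq _ _ m0, c2_add hm]
  refine sum_nbij (fun T => tq (2 * j * q * ω'.2) m + g • T) (fun T hT => ?_)
    (fun T hT T' hT' e => ?_) (fun T hT => ?_) fun T hT => ?_
  · obtain ⟨y, ⟨a, b, rfl⟩, rfl⟩ := (mem_Cs hm).1 hT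
    refine (mem_Cs hm).2 ⟨_, ⟨a * (2 * p0 + 1) + 2 * a * r + 4 * b * r, j * q + 10 * a * q +
      a * (s0 - p0) - a * r + b * (2 * s0 + 1) - 2 * b * r, ?_⟩, hφ _⟩
    push_cast
    linear_combination 5 * a * h1 + (a + 2 * b) * h2
  · obtain ⟨y, hy, rfl⟩ := (mem_Cs hm).1 hT
    obtain ⟨y', hy', rfl⟩ := (mem_Cs hm).1 hT'
    obtain ⟨a, b, e1⟩ := hy.lb
    obtain ⟨c, d, e2⟩ := hy'.lb
    simp only [hφ, c2_iff hm, add_sub_add_left_eq_sub, ← mul_sub] at e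
    exact (c2_iff hm).2 (inj _ ⟨a - c, b - d, by rw [e1, e2]; push_cast; ring⟩ e)
  · obtain ⟨y', hy', rfl⟩ := (mem_Cs hm).1 hT
    have l1 : La ω' (y' + -(2 * j * q * ω'.2)) := c2_La hy' ⟨0, -(j * q), by push_cast; ring⟩
    obtain ⟨y, ⟨a, b, rfl⟩, z, hz⟩ := surj _ l1.lb
    obtain ⟨c, d, e⟩ := c2_La l1 (La_lev hl hd z)
    obtain ⟨e1, e2, -⟩ := mv_inj hd (p := a * (2 * p0 + 1) + 10 * (r * b))
      (q := 4 * (q * a) + (2 * s0 + 1) * b) (r := 0) (s := 0) (p' := 5 * c) (q' := c + 2 * d)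
      (r' := 0) (s' := 0) (by
        simp only [mv, Prod.mk.injEq, and_true]
        push_cast
        linear_combination e + hz - a * h1 - b * h2)
    obtain ⟨a0, rfl⟩ : 5 ∣ a := ((Int.prime_iff_natAbs_prime.2 (by decide)).dvd_or_dvd
      (show (5 : ℤ) ∣ a * (2 * p0 + 1) from
        ⟨c - 2 * (r * b), by linear_combination e1⟩)).resolve_right h5
    obtain ⟨b0, rfl⟩ : ∃ k, b = a0 + 2 * k := ⟨a0 * p0 + r * b + d - 10 * q * a0 - s0 * b, by
      nlinarith⟩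
    refine ⟨_, (mem_Cs hm).2 ⟨_, ⟨a0, b0, rfl⟩, rfl⟩, (hφ _).trans ((c2_iff hm).2 ⟨z, ?_⟩)⟩
    push_cast at hz
    linear_combination hz
  · obtain ⟨y, -, rfl⟩ := (mem_Cs hm).1 hT
    rw [key, hφ]

/-- The coordinates of the transported point. -/
theorem res (hm : 0 < m) (h : Tr g ω ω' e) (hd : 0 < dt ω') (hl : 10 * dt ω' ∣ m)
    (inj : ∀ y, Lb ω y → (m : G) ∣ g * y → (m : G) ∣ y)
    (surj : ∀ y', Lb ω' y' → ∃ y, Lb ω y ∧ (m : G) ∣ g * y - y') :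
    (∃ k ∈ range 4, ∃ p : ℤ, IsCoprime p 20 ∧
      ∀ j, pq g m ω j = pq 1 m (mv 1 k 0 1 ω') (p * j)) ∧
    xco (e • Pt ω') = XX (pq g m ω) ∧ yco (e • Pt ω') = YY (pq g m ω) := by
  obtain ⟨p, q, r, s, h1, h4, h5, rfl⟩ := h
  obtain ⟨hp, hs⟩ := c2_odd h4
  obtain ⟨k, hk, ek⟩ : ∃ k ∈ range 4, (k : ℤ) = p * q % 4 :=
    ⟨(p * q % 4).toNat, mem_range.2 (by omega), by omega⟩
  obtain ⟨n, hn⟩ : 4 ∣ q - k * p := by
    obtain ⟨a, rfl⟩ : ∃ a, p = 2 * a + 1 := ⟨p / 2, by omega⟩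
    exact ⟨(2 * a + 1) * q / 4 * (2 * a + 1) - (a * a + a) * q, by
      rw [ek, Int.emod_def]; ring⟩
  have d1 : dt (mv 1 k 0 1 ω') = dt ω' := by rw [dt_mv]; ring
  have cop : IsCoprime p 20 := by
    have a : IsCoprime p 2 := ⟨1, -(p / 2), by omega⟩
    have b : IsCoprime p 5 :=
      ((Int.prime_iff_natAbs_prime.2 (by decide)).coprime_iff_not_dvd.2 h5).symm
    exact (a.mul_right a).mul_right b
  have H : ∀ j, pq g m ω j = pq 1 m (mv 1 k 0 1 ω') (p * j) :=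
    pq_map hm (q := n) (r := r) (s := s - 10 * (r * k)) (by
      rw [h1, mv_mv]
      congr 1 <;> linarith) hp (by omega) h5 (d1 ▸ hd.ne') (d1 ▸ hl) inj fun y' hy' => surj y' (by
      obtain ⟨a, b, rfl⟩ := hy'
      exact ⟨a, a * k + b, by simp only [mv]; push_cast; ring⟩)
  refine ⟨⟨k, hk, p, cop, H⟩, ?_⟩
  have h2 : Pt (mv 1 k 0 1 ω') = xp 1 k • Pt ω' :=
    pt_tr hd (g := 1) ⟨1, k, 0, 1, by simp, by simp, by decide, rfl⟩ (by simp [d1])
  have h3 : xp p q = star (om p) * xp 1 k := by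
    rw [xp, xp, one_mul, ek, Int.cast_one, om_one, star_one, mul_one, mul_comm]
    exact congrArg (fun x => _ * ip x) (ZMod.intCast_mod _ 4).symm
  have o4 := c2_om hp h5
  have d2 : 0 < dt (mv 1 k 0 1 ω') := d1 ▸ hd
  obtain ⟨a1, a2⟩ := co_smul (e := star (om p)) (by rw [← star_pow, o4, star_one])
    (Pt (mv 1 k 0 1 ω'))
  obtain ⟨b1, b2⟩ := c2_k d2 hm (d1 ▸ hl) cop
  obtain ⟨c1, c2⟩ := k_mul (mem20 (tb_pos d2)) (k := p) (fun e => by simp [e] at o4)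
  obtain ⟨e1, e2⟩ := pt_co d2
  rw [h3, mul_smul, ← h2, a1, a2, funext H]
  constructor <;> refine EA.jc.injective ?_ <;>
  simp only [XX, YY, map_mul, map_pow, map_div₀, map_neg, map_add, jc_io, jc_II, e1, e2, b1, b2, c1,
    c2, ux, uy, ua, ub, GaussianInt.toComplex_def, Zsqrtd.re_star, Zsqrtd.im_star, rho]
  · rcases QF.f1_roots QF.f1_ii o4 with e | e | e | e <;> simp [e, QF.ii] <;> ring
  · push_cast
    linear_combination (-(om p).im * kB (Lt (tb (mv 1 k 0 1 ω'))) (tb (mv 1 k 0 1 ω') / 4) /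
      EA.jc rq ^ 3) * I_mul_I

theorem pt_XY (hm : 0 < m) (hd : 0 < dt ω) (hl : 10 * dt ω ∣ m) :
    xco (Pt ω) = XX (pq 1 m ω) ∧ yco (Pt ω) = YY (pq 1 m ω) := by
  simpa using (res hm (Tr.refl ω) hd hl (fun y _ h => by simpa using h)
    fun y h => ⟨y, h, by simp⟩).2

namespace Fam

variable {ι : Type} {F : Fam ι} {d : ℕ}

theorem Ok.dpos (h : F.Ok d) (j : ι) : 0 < dt (F.w j) := by
  rw [h.det]
  exact_mod_cast h.pos

theorem Ok.cp_pt (h : F.Ok d) (j : ι) : cp (F.pt j) = un (F.z j) := cp_smul _ (pt_spec (h.dpos j))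

theorem Ok.pt_ne (h : F.Ok d) (j : ι) : F.pt j ≠ 0 := fun e =>
  Y2.pt_ne (h.dpos j) (by
    rw [← one_smul G (Pt _), ← h.four j, pow_succ, mul_smul, ← Fam.pt, e, smul_zero])

end Fam

end Pool.Agent.Lib.MP_696deb_nt.Y2
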