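import Pool.Agent.Lib.MP_696deb_nt.Y2.C2

/-! The Galois action on the points with complex multiplication. -/

set_option autoImplicit false

open scoped Classical
open Complex Finset PeriodPair Pool.Agent.Shared.Weier

namespace Pool.Agent.Lib.MP_696deb_nt.Y2

open EA
open Sm (Qb GQ)
open B2 (Plc)
open Q4 (A II vm zq Tw)
open QF (G ip Prim Per)


variable {ω ω' : G × G} {a e : G} {g : GQ}

theorem c3_r5 (a b : G) : r5 (star (a - b)) = r5 (star a) - r5 (star b) := by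
  simp only [r5, Zsqrtd.re_star, Zsqrtd.im_star, Zsqrtd.re_sub, Zsqrtd.im_sub]
  push_cast
  ring

theorem c3_dvd (h : r5 (star a) = 0) : (⟨2, -1⟩ : G) ∣ a := by
  obtain ⟨c, hc⟩ := (ZMod.intCast_zmod_eq_zero_iff_dvd (a.re + 3 * -a.im) 5).1 (by
    rw [← h, r5, Zsqrtd.re_star, Zsqrtd.im_star]
    push_cast
    rfl)
  refine ⟨⟨2 * c + a.im, c + a.im⟩, Zsqrtd.ext ?_ ?_⟩ <;>
    simp only [Zsqrtd.re_mul, Zsqrtd.im_mul] <;> omega

theorem c3_ep : ∀ r : ZMod 5, r5 (star (ep r)) = r ∧ (r ≠ 0 → ep r ^ 4 = 1) := by decide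

theorem c3_five : (⟨2, -1⟩ : G) ∣ 5 := ⟨⟨2, 1⟩, by decide⟩

theorem eb_congr {b : G} (h : (5 : G) ∣ a - b) : eb a = eb b := by
  obtain ⟨c, hc⟩ := h
  have h1 : r5 (star (a - b)) = 0 := by
    rw [hc, show (5 : G) = ⟨5, 0⟩ by decide]
    simp only [r5, Zsqrtd.re_star, Zsqrtd.im_star, Zsqrtd.re_mul, Zsqrtd.im_mul]
    push_cast
    rw [show (5 : ZMod 5) = 0 from rfl]
    ring
  rw [eb, eb, sub_eq_zero.1 ((c3_r5 a b).symm.trans h1)]

theorem eb_four (h : IsCoprime a 5) : eb a ^ 4 = 1 := (c3_ep _).2 fun k =>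
  absurd (Zsqrtd.isUnit_iff_norm_isUnit _ |>.1 (h.isUnit_of_dvd' (c3_dvd k) c3_five)) (by decide)

theorem c3_x {P : A} (h : (⟨2, -1⟩ : G) • P = 0) (h0 : P ≠ 0) :
    (1 - 2 * II) * xco P ^ 2 = 1 ∧ xco P ≠ 0 := by
  have e : Q4.w • P = -(Q4.ii • P) := by
    rw [eq_neg_iff_add_eq_zero, ← add_smul, show Q4.w + Q4.ii = Q4.ii * ⟨2, -1⟩ by decide,
      mul_smul, h, smul_zero]
  have h1 : -(Q4.ii • P) ≠ 0 := neg_ne_zero.2 (mt Q4.isUnit_ii.smul_eq_zero.1 h0)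
  have hx := x_ne (e ▸ h1)
  have h2 : xco (-(Q4.ii • P)) = -xco P := by rw [xco_neg, x_ii]
  refine ⟨?_, hx⟩
  generalize -(Q4.ii • P) = Q at e h1 h2
  rcases Q with _ | ⟨u, v, k'⟩
  · exact absurd rfl h1
  rcases P with _ | ⟨x, y, k⟩
  · exact absurd rfl h0
  have h3 := Q4.wm_some Q4.II_mul ((Q4.w_smul _).symm.trans e)
  simp only [Q4.sl, xco_some] at h3 hx h2 ⊢
  rw [div_pow, eq_div_iff (pow_ne_zero 2 hx), Q4.gen_eq k, h2] at h3
  refine mul_left_cancel₀ hx ?_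
  linear_combination -x ^ 3 * Q4.II_mul - h3

theorem c3_rq : rq ^ 4 = 1 - 2 * II := by
  rw [rq_four, io_apply]
  norm_num

theorem c3_ne : rq ≠ 0 := fun e => io_ne (γ := ⟨1, 2⟩) (by decide) (by
  rw [← rq_four, e, zero_pow four_ne_zero])

/-- The action on the fourth root of `1 + 2 i`. -/
theorem link_rq (hg : g II = II) {m : G} (hm : m ≠ 0) (h5 : (5 : G) ∣ m) :
    zq rq g = io (eb (cm m g)) := by
  have b0 : (⟨2, -1⟩ : G) ≠ 0 := by decide
  have p0 : tq 1 ⟨2, -1⟩ ≠ 0 := fun e => absurd (Zsqrtd.isUnit_iff_norm_isUnit _ |>.1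
    (isUnit_of_dvd_one ((tq_eq_zero b0).1 e))) (by decide)
  obtain ⟨h1, h2⟩ := c3_x (m_tq b0) p0
  have h3 := co_eq p0
  have h4 := eb_four ((cm_cop hm hg).of_isCoprime_of_dvd_right h5)
  have h6 : yco (vm (g : Qb →+* Qb) 1 (tq 1 ⟨2, -1⟩)) = io (eb (cm m g)) * yco (tq 1 ⟨2, -1⟩) := by
    rw [cm_spec hm hg ((smul_tq_one b0).2 (c3_five.trans h5)), ← (co_smul h4 _).2,
      (smul_tq_eq b0 (b := eb (cm m g))).2 (c3_dvd (by rw [c3_r5, eb, (c3_ep _).1, sub_self]))]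
  rw [(xco_vm _ (one_pow 4) _).2, one_pow, one_mul, RingHom.coe_coe] at h6
  generalize xco (tq 1 ⟨2, -1⟩) = x at h1 h2 h3
  generalize yco (tq 1 ⟨2, -1⟩) = y at h3 h6
  have i0 : (1 - II) ^ 4 = -4 := by linear_combination (II ^ 2 - 4 * II + 5) * Q4.II_mul
  have i1 : 1 - II ≠ 0 := fun e => by
    rw [e] at i0
    norm_num at i0
  have h7 : (y * rq ^ 3) ^ 4 = -4 := by
    rw [mul_pow, pow_right_comm, c3_rq, show y ^ 4 = (y ^ 2) ^ 2 by ring, h3]
    linear_combination (((1 - 2 * II) * x ^ 2) ^ 2 + (1 - 2 * II) * x ^ 2 + 1 -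
      2 * (1 - 2 * II) * ((1 - 2 * II) * x ^ 2 + 1) + (1 - 2 * II) ^ 2) * h1 + 4 * Q4.II_mul
  have h8 : g (y * rq ^ 3 / (1 - II)) = y * rq ^ 3 / (1 - II) := by
    rcases Q4.ell_root (u := y * rq ^ 3 / (1 - II)) (by
      rw [div_pow, h7, i0, div_self (by norm_num)]) with e | e | e | e <;> simp [e, hg]
  have h9 : g rq = zq rq g * rq := (div_mul_cancel₀ _ c3_ne).symm
  have h10 : zq rq g ^ 4 = 1 := by
    rw [zq, div_pow, ← map_pow, rq_four, io_fix hg, div_self (io_ne (by decide))]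
  have h11 : y * rq ^ 3 ≠ 0 := fun e => by
    rw [e] at h7
    norm_num at h7
  rw [map_div₀, map_sub, map_one, hg, div_left_inj' i1, map_mul, map_pow, h6, h9] at h8
  have h12 : io (eb (cm m g)) * zq rq g ^ 3 = 1 :=
    mul_right_cancel₀ h11 (by linear_combination h8)
  linear_combination io (eb (cm m g)) * h10 - zq rq g * h12

theorem c3_surj {m : ℕ} (h0 : dt ω ≠ 0) (hd' : dt ω' = dt ω) (hc : IsCoprime a m)
    (h : Tr a ω ω' e) (y' : G) (hy : Lb ω' y') : ∃ y, Lb ω y ∧ (m : G) ∣ a * y - y' := by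
  obtain ⟨p, q, r, s, h1, -⟩ := h
  obtain ⟨α, β, rfl⟩ := hy
  have h2 : a.norm = p * s - q * (10 * r) :=
    mul_right_cancel₀ h0 (by rw [← dt_mul, h1, dt_mv, hd'])
  obtain ⟨u, v, k⟩ := hc
  have k1 := congrArg star k
  rw [star_add, star_mul', star_mul', star_natCast, star_one] at k1
  have k2 : u * star u * (a.norm : G) + (v + star v - v * star v * m) * m = 1 := by
    rw [Zsqrtd.norm_eq_mul_conj]
    linear_combination (star u * star a) * k + (1 - v * m) * k1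
  have k3 := congrArg Zsqrtd.re k2
  rw [mul_comm _ (a.norm : G), mul_comm _ (m : G), ← Int.cast_natCast, Zsqrtd.re_add,
    Zsqrtd.re_smul, Zsqrtd.re_smul, Zsqrtd.re_one, h2] at k3
  generalize (u * star u).re = c at k3
  generalize Zsqrtd.re _ = d at k3
  have k4 := congrArg (Int.cast : ℤ → G) k3
  have e1 := congrArg Prod.fst h1
  have e2 := congrArg Prod.snd h1
  simp only [mv] at e1 e2
  push_cast at k4 e1 e2
  refine ⟨_, ⟨c * (α * s - β * (10 * r)), c * (β * p - α * q), rfl⟩,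
    -(d * (α * ω'.1 + β * ω'.2)), ?_⟩
  push_cast
  linear_combination c * (α * s - β * (10 * r)) * e1 + c * (β * p - α * q) * e2 +
    (α * ω'.1 + β * ω'.2) * k4

theorem gal (hg : g II = II) (hd : 0 < dt ω) (hd' : dt ω' = dt ω) {m : ℕ} (hm : 0 < m)
    (hl : 20 * dt ω ∣ m) (h : Tr (cm m g) ω ω' e) :
    vm (g : Qb →+* Qb) 1 (Pt ω) = (eb (cm m g) * e) • Pt ω' := by
  obtain ⟨n, rfl⟩ : 2 ∣ m := Int.natCast_dvd_natCast.1
    ((Dvd.intro (10 * dt ω) (by push_cast; ring)).trans hl)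
  have n0 : 0 < n := by omega
  have l1 : 10 * dt ω ∣ n := Int.dvd_of_mul_dvd_mul_left two_ne_zero (by
    rw [← mul_assoc]
    exact_mod_cast hl)
  have m0 : ((2 * n : ℕ) : G) ≠ 0 := Nat.cast_ne_zero.2 hm.ne'
  have h5 : (5 : G) ∣ (2 * n : ℕ) := by
    exact_mod_cast map_dvd (Int.castRingHom G)
      ((Dvd.intro (4 * dt ω) (by ring) : (5 : ℤ) ∣ 20 * dt ω).trans hl)
  have c0 := cm_cop m0 hg
  have c1 : IsCoprime (cm (2 * n : ℕ) g) n := c0.of_isCoprime_of_dvd_right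
    (Nat.cast_dvd_cast (dvd_mul_left n 2))
  have h4 := eb_four (c0.of_isCoprime_of_dvd_right h5)
  have h6 := link_rq hg m0 h5
  have h7 : ∀ j, g (pq 1 n ω j) = pq (cm (2 * n : ℕ) g) n ω j := fun j => by
    rw [pq, pq, map_sum]
    refine sum_congr rfl fun T hT => ?_
    rw [← cm_spec m0 hg (by rw [Nat.cast_mul, Nat.cast_ofNat]; exact Sp_kill n0 hT j),
      (xco_vm _ (one_pow 4) _).1, one_pow, one_mul, one_smul, RingHom.coe_coe]
  obtain ⟨-, a1, a2⟩ := res n0 h (hd' ▸ hd) (hd' ▸ l1)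
    (fun y _ k => c1.symm.dvd_of_dvd_mul_left k) (c3_surj hd.ne' hd' c1 h)
  obtain ⟨b1, b2⟩ := pt_XY n0 hd l1
  have h8 : (eb (cm (2 * n : ℕ) g) * e) ^ 4 = 1 := by rw [mul_pow, h4, h.four, one_mul]
  have h9 : g rq = io (eb (cm (2 * n : ℕ) g)) * rq := h6 ▸ (div_mul_cancel₀ _ c3_ne).symm
  have h10 : io (eb (cm (2 * n : ℕ) g)) ^ 4 = 1 := by rw [← map_pow, h4, map_one]
  have h11 : io (eb (cm (2 * n : ℕ) g)) ≠ 0 := fun k => by
    rw [k] at h10
    norm_num at h10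
  have := c3_ne
  refine pt_ext' (mt (map_eq_zero_iff _ (Q4.vm_inj (one_pow 4))).1 (pt_ne hd))
    (mt (IsUnit.of_pow_eq_one h8 four_ne_zero).smul_eq_zero.1 (pt_ne (hd' ▸ hd))) ?_ ?_
  · rw [(xco_vm _ (one_pow 4) _).1, mul_smul, (co_smul h4 _).1, a1, b1, one_pow, one_mul]
    simp only [XX, kP, kQ, RingHom.coe_coe, map_div₀, map_mul, map_sub, map_pow, h7, h9]
    generalize io (eb (cm (2 * n : ℕ) g)) = z at h10 h11
    generalize (_ / _ * (_ / _) : Qb) = c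
    field_simp
    linear_combination -c * h10
  · rw [(xco_vm _ (one_pow 4) _).2, mul_smul, (co_smul h4 _).2, a2, b2, one_pow, one_mul]
    simp only [YY, kP, kQ, RingHom.coe_coe, map_div₀, map_mul, map_sub, map_pow, map_neg, map_add,
      h7, h9, hg]
    generalize io (eb (cm (2 * n : ℕ) g)) = z at h10 h11
    generalize (-(_ + _) : Qb) = c
    field_simp
    linear_combination -c * h10

theorem tw_eq' (t : Tw) (hg : g II = II) (P : A) :
    t.tw g P = Q4.un (zq t.ρ g) • vm (g : Qb →+* Qb) 1 P := by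
  have _ := hg
  rw [← Q4.vm_un (Q4.zq_four t.ne t.pw g) (one_pow 4), mul_one]
  rfl

theorem tw_smul' (t : Tw) (hg : g II = II) (a : G) (P : A) :
    t.tw g (a • P) = a • t.tw g P := by
  rw [tw_eq' t hg, tw_eq' t hg, vm_smul hg, smul_comm]

/-- The twisted action permutes the points of a stable family. -/
theorem Fam.gal {ι : Type} {F : Fam ι} {d M N : ℕ} {t : Tw} {φ : G → G} (hL : Lk t M φ)
    (ok : F.Ok d) (hN : 0 < N) (st : F.Stable N fun a => φ a * eb a) (hg : g II = II) :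
    ∃ s : ι ≃ ι, ∀ j, t.tw g (F.pt j) = F.pt (s j) := by
  have m1 : 0 < 20 * d * (M * N) := Nat.mul_pos (Nat.mul_pos (by norm_num) ok.pos)
    (Nat.mul_pos hL.pos hN)
  have m0 : ((20 * d * (M * N) : ℕ) : G) ≠ 0 := Nat.cast_ne_zero.2 m1.ne'
  have h3 : Q4.w ^ 3 ∣ ((20 * d * (M * N) : ℕ) : G) :=
    (show Q4.w ^ 3 ∣ ((20 : ℕ) : G) from ⟨⟨-5, -5⟩, by decide⟩).trans
      (Nat.cast_dvd_cast ((dvd_mul_right 20 d).mul_right _))
  obtain ⟨s, hs⟩ := st _ (prim_iff.2 (cm_prim m0 h3 hg)) ((cm_cop m0 hg).of_isCoprime_of_dvd_right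
    (Nat.cast_dvd_cast ((dvd_mul_left N M).mul_left _)))
  refine ⟨s, fun j => ?_⟩
  obtain ⟨e, h1, h2⟩ := hs j
  rw [Fam.pt, Fam.pt, tw_smul' t hg, tw_eq' t hg, Y2.gal hg (ok.dpos j)
    ((ok.det _).trans (ok.det j).symm) m1 (by
      rw [ok.det]
      exact_mod_cast dvd_mul_right (20 * d) (M * N)) h1, h2, ← hL.link g hg,
    per_dvd hL.per (cm_dvd m0 (Nat.cast_dvd_cast ((dvd_mul_right M N).mul_left _)) hg),
    smul_smul, smul_smul]
  congr 1
  ring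

end Pool.Agent.Lib.MP_696deb_nt.Y2
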