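import Pool.Agent.Lib.MP_696deb_nt.Y2.C2

/-! The congruence of Kronecker. -/

set_option autoImplicit false

open scoped Classical
open Complex Finset PeriodPair Pool.Agent.Shared.Weier

namespace Pool.Agent.Lib.MP_696deb_nt.Y2

open EA
open Sm (Qb GQ)
open B2 (Plc)
open Q4 (A II vm zq Tw)
open QF (G ip Prim Per)


variable {ω ω' : G × G} {m l : ℕ} {r g e : G} {v : Plc}

theorem kr_ae {P : A} (h : P ≠ 0) : ∃ B : Finset ℕ, ∀ v : Plc, v.p ∉ B → P ∉ Kr v := by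
  by_cases k : xco P = 0
  · exact ⟨∅, fun v _ e => (mem_Kr.1 e).elim h (by simp [k])⟩
  · obtain ⟨B, hB⟩ := B2.finite_supp k
    exact ⟨B, fun v hv e => (mem_Kr.1 e).elim h (hB v hv).not_gt⟩

theorem c4_fin (s : Finset Qb) :
    ∃ B : Finset ℕ, ∀ v : Plc, v.p ∉ B → ∀ x ∈ s, x ≠ 0 → v.V x = 1 := by
  induction s using Finset.induction_on with
  | empty => exact ⟨∅, by simp⟩
  | insert x s _ ih =>
    obtain ⟨B, hB⟩ := ih
    by_cases k : x = 0
    · exact ⟨B, fun v hv => forall_mem_insert _ _ _ |>.2 ⟨fun e => absurd k e, hB v hv⟩⟩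
    · obtain ⟨B', hB'⟩ := B2.finite_supp k
      exact ⟨B ∪ B', fun v hv => forall_mem_insert _ _ _ |>.2
        ⟨fun _ => hB' v fun e => hv (mem_union_right _ e), hB v fun e => hv (mem_union_left _ e)⟩⟩

theorem gd_ae (hd : 0 < dt ω) (hm : 0 < m) (h : 10 * dt ω ∣ m) :
    ∃ B : Finset ℕ, ∀ v : Plc, v.p ∉ B → Gd v m ω := by
  obtain ⟨B, hB⟩ := c4_fin (insert (m : Qb) (insert rq
    ((range 4 ×ˢ Ico (0 : ℤ) 20 ×ˢ Ico (0 : ℤ) 20).image fun x =>
      pq 1 m (mv 1 x.1 0 1 ω) x.2.1 - pq 1 m (mv 1 x.1 0 1 ω) x.2.2)))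
  refine ⟨insert 2 B, fun v hv => ?_⟩
  rw [mem_insert, not_or] at hv
  refine ⟨hv.1, hB v hv.2 _ (mem_insert_self _ _) (Nat.cast_ne_zero.2 hm.ne'),
    hB v hv.2 _ (mem_insert_of_mem (mem_insert_self _ _)) fun e => io_ne (γ := ⟨1, 2⟩) (by decide)
      (by rw [← rq_four, e, zero_pow four_ne_zero]), fun k hk i j hi hj h1 h2 => ?_⟩
  have e : dt (mv 1 k 0 1 ω) = dt ω := by rw [dt_mv]; ring
  refine hB v hv.2 _ (mem_insert_of_mem (mem_insert_of_mem (mem_image.2 ⟨(k, i % 20, j % 20), ?_,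
    ?_⟩))) (pq_ne (e ▸ hd) hm (e ▸ h) hi hj h1 h2)
  · simp only [mem_product, mem_Ico, hk, true_and]
    omega
  · rw [pq_per (i := i % 20) (j := i) hm (by omega), pq_per (i := j % 20) (j := j) hm (by omega)]

/-- Congruent units. -/
def C4g (v : Plc) (x y : Qb) : Prop := v.V y = 1 ∧ v.V (x - y) < 1

theorem C4g.one {x y : Qb} (h : C4g v x y) : v.V x = 1 := by
  rw [← sub_add_cancel x y, v.V.map_add_eq_of_lt_right (h.2.trans_eq h.1.symm), h.1]

theorem C4g.mul {x y x' y' : Qb} (h : C4g v x y) (k : C4g v x' y') : C4g v (x * x') (y * y') := by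
  refine ⟨by rw [map_mul, h.1, k.1, one_mul], ?_⟩
  rw [show x * x' - y * y' = (x - y) * x' + y * (x' - y') by ring]
  exact v.V.map_add_lt (by simpa [k.one] using h.2) (by simpa [h.1] using k.2)

theorem C4g.div {x y x' y' : Qb} (h : C4g v x y) (k : C4g v x' y') : C4g v (x / x') (y / y') := by
  rw [div_eq_mul_inv, div_eq_mul_inv]
  refine h.mul ⟨by rw [map_inv₀, k.1, inv_one], ?_⟩
  rw [inv_sub_inv (fun e => by simpa [e] using k.one) (fun e => by simpa [e] using k.1),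
    map_div₀, map_mul, k.one, k.1, one_mul, div_one, v.V.map_sub_swap]
  exact k.2

theorem V_XY {p p' : ℤ → Qb} (hv : v.V rq = 1) (h : ∀ j, ¬ 20 ∣ j → v.V (p j - p' j) < 1)
    (h' : ∀ i j : ℤ, ¬ 20 ∣ i → ¬ 20 ∣ j → ¬ 20 ∣ i - j → ¬ 20 ∣ i + j → v.V (p' i - p' j) = 1) :
    v.V (XX p') ≤ 1 ∧ v.V (XX p - XX p') < 1 ∧ v.V (YY p - YY p') < 1 := by
  have b : ∀ i j : ℤ, ¬ 20 ∣ i ∧ ¬ 20 ∣ j ∧ ¬ 20 ∣ i - j ∧ ¬ 20 ∣ i + j →
      C4g v (p i - p j) (p' i - p' j) := fun i j ⟨a, b, c, d⟩ => ⟨h' i j a b c d, by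
    rw [sub_sub_sub_comm]
    exact v.V.map_sub_lt (h i a) (h j b)⟩
  have kp : C4g v (kP p) (kP p') := ((b 1 9 (by decide)).mul (b 8 10 (by decide))).div
    ((b 4 6 (by decide)).mul (b 5 10 (by decide)))
  have kq : C4g v (kQ p) (kQ p') := ((b 3 7 (by decide)).mul (b 4 10 (by decide))).div
    ((b 2 8 (by decide)).mul (b 5 10 (by decide)))
  have kx : C4g v (XX p) (XX p') := (kp.mul kq).div ⟨by rw [map_pow, hv, one_pow], by simp⟩
  refine ⟨kx.1.le, kx.2, ?_⟩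
  rw [YY, YY, ← sub_div, map_div₀, map_pow, hv, one_pow, div_one,
    show -(kP p + II * kQ p) - -(kP p' + II * kQ p') = -(kP p - kP p' + II * (kQ p - kQ p')) by ring,
    v.V.map_neg]
  exact v.V.map_add_lt kp.2 (by simpa [V_II] using kq.2)

theorem c4_mul (hr : r.norm = l) : (l : G) = r * star r := by
  rw [← Zsqrtd.norm_eq_mul_conj, hr, Int.cast_natCast]

theorem c4_lev (hr : r.norm = l) (h : 10 * dt ω ∣ m) :
    10 * dt (r * ω.1, r * ω.2) ∣ (m * l : ℕ) := by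
  rw [dt_mul, hr, mul_comm (l : ℤ), ← mul_assoc, Nat.cast_mul]
  exact mul_dvd_mul_right h _

theorem pq_scale (hl : 0 < l) (hr : r.norm = l) (hd : 0 < dt ω) (hm : 0 < m) (h : 10 * dt ω ∣ m)
    {i j : ℤ} (hi : ¬ 20 ∣ i) (hj : ¬ 20 ∣ j) :
    pq 1 (m * l) (r * ω.1, r * ω.2) i - pq 1 (m * l) (r * ω.1, r * ω.2) j =
      io (star r) ^ 2 * (pq 1 m ω i - pq 1 m ω j) := by
  have r0 : r ≠ 0 := fun e => hl.ne' (by simpa [e] using hr.symm)
  have r1 : (r : ℂ) ≠ 0 := fun e => r0 (GaussianInt.toComplex_eq_zero.1 e)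
  have e : (l : ℂ) = r * (star r : G) := by rw [← map_mul, ← c4_mul hr, map_natCast]
  refine EA.jc.injective ?_
  rw [jc_pq (by rw [dt_mul, hr]; positivity) (mul_pos hm hl) (c4_lev hr h) hi hj, map_mul EA.jc, map_pow,
    jc_io, jc_pq hd hm h hi hj, tb_mul r0, ← mul_assoc, ← mul_pow, Nat.cast_mul, e, map_mul]
  congr 2
  rw [show 2 * ((r : ℂ) * ω.2) * Om = r * (2 * ω.2 * Om) by ring, mul_left_comm,
    mul_div_mul_left _ _ r1, mul_comm, mul_div_assoc]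

theorem prime_of_norm (hl : l.Prime) (hr : r.norm = l) : Prime r := QF.f3_prime hl hr

theorem p_of_norm (hl : l.Prime) (hr : r.norm = l) (hv : v.V (io r) < 1) : v.p = l := by
  by_contra k
  exact hv.ne (V_io_one fun e => k ((Nat.prime_dvd_prime_iff_eq v.prime hl).1
    (Int.natCast_dvd_natCast.1 (hr ▸ e))))

theorem c4_cop_star (hl : l.Prime) (hr : r.norm = l) (hp : Prim r) : IsCoprime r (star r) := by
  refine (prime_of_norm hl hr).irreducible.coprime_iff_not_dvd.2 fun d => ?_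
  obtain ⟨c, e⟩ : r ∣ ((2 * r.re : ℤ) : G) := by
    rw [show ((2 * r.re : ℤ) : G) = r + star r from Zsqrtd.ext (by simp [two_mul]) (by simp)]
    exact dvd_add dvd_rfl d
  have h1 := congrArg Zsqrtd.norm e
  have h2 := prim_norm hp
  have h3 := Nat.prime_iff_prime_int.1 hl
  rw [Zsqrtd.norm_mul, Zsqrtd.norm_intCast, hr] at h1
  rw [hr, Int.natAbs_natCast] at h2
  rw [Zsqrtd.norm_def] at hr
  obtain ⟨x, hx⟩ : (l : ℤ) ∣ r.re :=
    (h3.dvd_or_dvd ((h3.dvd_or_dvd ⟨_, h1⟩).elim id id)).resolve_left fun k => by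
      have := (Nat.prime_dvd_prime_iff_eq hl Nat.prime_two).1 (Int.natCast_dvd_natCast.1 k)
      omega
  obtain ⟨y, hy⟩ : (l : ℤ) ∣ r.im := (h3.dvd_or_dvd (a := r.im) (b := r.im)
    ⟨1 - x * r.re, by linear_combination hr - r.re * hx⟩).elim id id
  exact h3.not_dvd_one ⟨x * x + y * y, mul_left_cancel₀ h3.ne_zero (by
    rw [hx, hy] at hr
    linear_combination -hr)⟩

theorem V_star (hl : l.Prime) (hr : r.norm = l) (hp : Prim r) (hv : v.V (io r) < 1) :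
    v.V (io (star r)) = 1 := by
  obtain ⟨a, b, e⟩ := c4_cop_star hl hr hp
  refine (V_io_le v _).eq_of_not_lt fun k => ?_
  have := v.V.map_add_lt (x := io (a * r)) (y := io (b * star r))
    (by rw [mul_comm, map_mul, map_mul]; exact mul_lt_one_of_lt_of_le hv (V_io_le v a))
    (by rw [mul_comm, map_mul, map_mul]; exact mul_lt_one_of_lt_of_le k (V_io_le v b))
  rw [← map_add, e, map_one, map_one] at this
  exact this.false

theorem kron (hl : l.Prime) (hr : r.norm = l) (hp : Prim r) (hv : v.V (io r) < 1) (hd : 0 < dt ω')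
    (hm : 0 < m) (h : 10 * dt ω' ∣ m) (gd : Gd v m ω') (hω : dt ω = l * dt ω')
    (h1 : 2 * m * star r ∣ g - 1) (h2 : r ∣ g) (tr : Tr g ω (r * ω'.1, r * ω'.2) e)
    (inj : ∀ y, Lb ω y → ((m * l : ℕ) : G) ∣ g * y → ((m * l : ℕ) : G) ∣ y)
    (surj : ∀ y', Lb ω' y' → ∃ y, Lb ω y ∧ ((m * l : ℕ) : G) ∣ g * y - r * y') :
    Pt ω - e • Pt ω' ∈ Kr v := by
  have pr := prime_of_norm hl hr
  have n0 := mul_pos hm hl.pos
  have d0 : 0 < dt ω := hω ▸ mul_pos (Int.natCast_pos.2 hl.pos) hd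
  have d1 : dt (r * ω'.1, r * ω'.2) = dt ω := by rw [dt_mul, hr, hω]
  have lv := c4_lev hr h
  have vs := V_star hl hr hp hv
  obtain ⟨⟨k, hk, p, cop, hp'⟩, x1, y1⟩ := res n0 tr (d1 ▸ d0) lv inj fun y' ⟨a, b, e⟩ => by
    obtain ⟨y, k⟩ := surj _ ⟨a, b, rfl⟩
    exact ⟨y, by rwa [e, mul_left_comm, mul_left_comm (b : G), ← mul_add]⟩
  rw [d1] at lv
  obtain ⟨x2, y2⟩ := pt_XY n0 d0 lv
  rw [pt_mul pr.ne_zero] at x1 y1
  obtain ⟨v1, v2, v3⟩ := V_XY (p := pq 1 (m * l) ω) (p' := pq g (m * l) ω) gd.rq (fun j hj => by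
    rw [pq, pq, ← sum_sub_distrib]
    refine v.V.map_sum_lt one_ne_zero fun T hT => ?_
    have k0 := Sp_ne d0 n0 lv hj hT
    have k1 := Sp_kill n0 hT j
    obtain ⟨y, hy, rfl⟩ := (mem_Cs n0).1 hT
    obtain ⟨a, b, rfl⟩ := hy.lb
    obtain ⟨c, hc⟩ := h1
    obtain ⟨c', rfl⟩ := h2
    have n1 : (2 * (m * l : ℕ) : G) ≠ 0 := mul_ne_zero two_ne_zero (Nat.cast_ne_zero.2 n0.ne')
    have e0 : (2 * (m * l : ℕ) : G) = r * (2 * m * star r) := by
      rw [Nat.cast_mul, c4_mul hr]; ring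
    rw [Sp_add n0] at k0 k1 ⊢
    rw [one_smul, v.V.map_sub_swap]
    refine (near_of_Kr (fun k => k0 ?_) (mem_Kr_of pr (prim_red hp) hv ?_)).1
    · have k2 := Kr_tors (n := 2 * m * star r) (by
        rw [map_mul, map_mul, map_mul, map_mul, vs, map_natCast, gd.lev, map_ofNat, V_two gd.two]
        simp) k (by rw [smul_smul, mul_comm, mul_right_comm, ← e0, mul_comm, mul_smul, k1, smul_zero])
      rw [smul_tq _ _ n1, tq_eq_zero n1] at k2
      obtain ⟨t, ht⟩ := inj _ ⟨j + 2 * a, 2 * b, by push_cast; ring⟩ ((dvd_mul_left _ _).trans k2)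
      rw [tq_eq_zero n1]
      rw [eq_add_of_sub_eq hc, add_mul, one_mul] at k2
      exact (dvd_add_right ⟨m * star r * c * t, by rw [ht]; ring⟩).1 k2
    · rw [← one_smul G (tq _ _), smul_smul, mul_one, ← sub_smul, hc, smul_smul, ← mul_assoc, ← e0,
        mul_comm, mul_smul, k1, smul_zero]) fun i j hi hj h3 h4 => by
    have nd : ∀ i : ℤ, ¬ 20 ∣ i → ¬ 20 ∣ p * i := fun i hi k =>
      hi (cop.symm.dvd_of_dvd_mul_left k)
    have e1 : dt (mv 1 k 0 1 ω') = dt ω' := by rw [dt_mv]; ring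
    rw [hp', hp', show mv 1 k 0 1 (r * ω'.1, r * ω'.2) =
      (r * (mv 1 k 0 1 ω').1, r * (mv 1 k 0 1 ω').2) by simp only [mv]; congr 1 <;> ring,
      pq_scale hl.pos hr (e1 ▸ hd) hm (e1 ▸ h) (nd i hi) (nd j hj), map_mul, map_pow, vs,
      gd.un k hk _ _ (nd i hi) (nd j hj) (mul_sub p i j ▸ nd _ h3) (mul_add p i j ▸ nd _ h4)]
    simp
  rw [← x1, ← x2] at v2
  rw [← y1, ← y2] at v3
  rw [← x1] at v1
  refine Kr_near gd.two (fun k => (mem_Kr.1 k).elim (pt_ne d0) (not_lt.2 ?_))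
    (fun k => (mem_Kr.1 k).elim (fun k => pt_ne hd ?_) v1.not_gt) v2 v3
  · rw [← sub_add_cancel (xco (Pt ω))]
    exact v.V.map_add_le v2.le v1
  · rw [← one_smul G (Pt ω'), ← tr.four, pow_succ, mul_smul, k, smul_zero]

end Pool.Agent.Lib.MP_696deb_nt.Y2
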