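import Pool.Agent.Lib.MP_696deb_nt.Y2.C4
import Pool.Agent.Lib.MP_696deb_nt.Y2.C5

/-! The Hecke operator at a split prime modulo the prime. -/

set_option autoImplicit false

open scoped Classical
open Complex Finset PeriodPair Pool.Agent.Shared.Weier

namespace Pool.Agent.Lib.MP_696deb_nt.Y2

open EA
open Sm (Qb GQ)
open B2 (Plc)
open Q4 (A II vm zq Tw)
open QF (G ip Prim Per)


variable {ι : Type} {F : Fam ι} {d N : ℕ} {χ : G → G}

theorem c6_comb {ω : G × G} {y y' : G} (h : Lb ω y) (h' : Lb ω y') (a b : ℤ) :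
    Lb ω (a * y + b * y') := by
  obtain ⟨p, q, rfl⟩ := h
  obtain ⟨p', q', rfl⟩ := h'
  exact ⟨a * p + b * p', a * q + b * q', by push_cast; ring⟩

theorem c6_row {ω : G × G} (p q r s : ℤ) : Lb ω (mv p q r s ω).1 ∧ Lb ω (mv p q r s ω).2 :=
  ⟨⟨p, q, rfl⟩, r, s, rfl⟩

/-- Modulo an element of prime norm every Gaussian integer is an integer. -/
theorem c6_int {l : ℕ} {r : G} (hl : l.Prime) (hr : r.norm = l) (z : G) : ∃ c : ℤ, r ∣ z - c := by
  have e : r.re * r.re + r.im * r.im = l := by rw [← hr, Zsqrtd.norm_def]; ring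
  have hp := Nat.prime_iff_prime_int.1 hl
  obtain ⟨x, y, h⟩ : IsCoprime (l : ℤ) r.im :=
    hp.irreducible.coprime_iff_not_dvd.2 fun ⟨b, hb⟩ => by
      obtain ⟨a, ha⟩ : (l : ℤ) ∣ r.re := hp.dvd_of_dvd_pow (n := 2)
        ⟨1 - l * b * b, by rw [hb] at e; linear_combination e⟩
      refine hp.not_isUnit (isUnit_of_dvd_one ⟨a * a + b * b, mul_left_cancel₀ hp.ne_zero ?_⟩)
      rw [ha, hb] at e
      linear_combination -e
  refine ⟨z.re - z.im * y * r.re, z.im * (y + x * QF.ii * star r), ?_⟩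
  ext
  · simp [QF.ii]
    ring
  · simp [QF.ii]
    linear_combination -z.im * h - z.im * x * e

/-- A sublattice of prime index has a cyclic quotient. -/
theorem c6_cyc {l : ℕ} (hl : l.Prime) {x : Σ _ : ℕ × ℕ, ℕ} (hx : x ∈ HI l) {ω : G × G} {z z₀ : G}
    (h₀ : Lb ω z₀) (hn : ¬ Lb (mv x.1.1 (4 * x.2) 0 x.1.2 ω) z₀) (h : Lb ω z) :
    ∃ c : ℤ, Lb (mv x.1.1 (4 * x.2) 0 x.1.2 ω) (z - c * z₀) := by
  obtain ⟨u, w, k⟩ : ∃ u w : ℤ, ∀ a b : ℤ, (l : ℤ) ∣ u * a + w * b →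
      Lb (mv x.1.1 (4 * x.2) 0 x.1.2 ω) (a * ω.1 + b * ω.2) := by
    obtain ⟨⟨A, D⟩, B⟩ := x
    have hm : A * D = l := (mem_HI.1 hx).1.1
    rcases (Nat.dvd_prime hl).1 ⟨D, hm.symm⟩ with rfl | rfl
    · rw [one_mul] at hm
      subst hm
      refine ⟨-(4 * B), 1, fun a b ⟨c, hc⟩ => ⟨a, c, ?_⟩⟩
      obtain rfl : b = D * c + 4 * B * a := by linear_combination hc
      simp only [mv]
      push_cast
      ring
    · obtain rfl : D = 1 := (Nat.mul_eq_left hl.ne_zero).1 hm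
      refine ⟨1, 0, fun a b ⟨c, hc⟩ => ⟨c, b - 4 * B * c, ?_⟩⟩
      obtain rfl : a = A * c := by linear_combination hc
      simp only [mv]
      push_cast
      ring
  obtain ⟨a₀, b₀, rfl⟩ := h₀
  obtain ⟨a, b, rfl⟩ := h
  obtain ⟨s, t, e⟩ := (Nat.prime_iff_prime_int.1 hl).irreducible.coprime_iff_not_dvd.2
    (mt (k a₀ b₀) hn)
  refine ⟨t * (u * a + w * b), ?_⟩
  convert k (a - t * (u * a + w * b) * a₀) (b - t * (u * a + w * b) * b₀)
    ⟨s * (u * a + w * b), by linear_combination -(u * a + w * b) * e⟩ using 1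
  push_cast
  ring

theorem c6_det (ok : F.Ok d) {l : ℕ} {r : G} (hr : r.norm = l) {j j' : ι} {p q t s : ℤ}
    (h : (r * (F.w j').1, r * (F.w j').2) = mv p q t s (F.w j)) : p * s - q * t = l := by
  have := congrArg dt h
  rw [dt_mul, dt_mv, ok.det, ok.det, hr] at this
  exact mul_right_cancel₀ (Int.natCast_ne_zero.2 ok.pos.ne') this.symm

theorem c6_dt (ok : F.Ok d) {l : ℕ} (j : ι) {x : Σ _ : ℕ × ℕ, ℕ} (hx : x ∈ HI l) :
    dt (mv x.1.1 (4 * x.2) 0 x.1.2 (F.w j)) = l * d := by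
  rw [dt_mv, ok.det, ← (mem_HI.1 hx).1.1]
  push_cast
  ring

/-- The points attached to the conjugate prime. -/
theorem Fam.exact (ok : F.Ok d) {l : ℕ} {r : G} (hl : l % 4 = 1) (h5 : ¬ 5 ∣ l) (hr : r.norm = l)
    {j j' : ι} {e : G} (tr : Tr r (F.w j') (F.w j) e) (hw : F.wt j = χ r * e * F.wt j') :
    ∃ k : HI l, (F.hk l).pt (j, k) = χ r • F.pt j' ∧
      ∀ y, Lb ((F.hk l).w (j, k)) y → r ∣ y := by
  obtain ⟨p, q, t, s, h1, -, h3, -⟩ := id tr
  have det := c6_det ok hr h1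
  obtain ⟨x, hx, a, b, c, f, e1, e2, e3, e4⟩ := exists_HI (m := l) (by omega)
    (det.trans (mul_one _).symm) one_pos isCoprime_one_left
  have hm := (mem_HI.1 hx).1.1
  have c10 : Nat.Coprime 10 l := Nat.Coprime.mul_left
    ((Nat.Prime.coprime_iff_not_dvd Nat.prime_two).2 (by omega))
    ((Nat.Prime.coprime_iff_not_dvd Nat.prime_five).2 h5)
  obtain ⟨c, rfl⟩ : (10 : ℤ) ∣ c := (Nat.isCoprime_iff_coprime.2
    (c10.coprime_dvd_right ⟨_, hm.symm⟩)).dvd_of_dvd_mul_right ⟨t, e3.symm⟩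
  have det1 : a * f - b * (10 * c) = 1 := by
    refine mul_right_cancel₀ (Int.natCast_ne_zero.2 (by omega : l ≠ 0)) ?_
    rw [e1, e2, e3, e4] at det
    rw [← hm] at det ⊢
    push_cast at det ⊢
    linear_combination det
  have k1 : (r * (F.w j').1, r * (F.w j').2) =
      mv a b (10 * c) f (mv x.1.1 (4 * x.2) 0 x.1.2 (F.w j)) := by
    rw [h1, mv_mv, e1, e2, e3, e4]
    simp only [mul_zero, add_zero]
  have tr1 : Tr r (F.w j') (mv x.1.1 (4 * x.2) 0 x.1.2 (F.w j)) (xp a b) :=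
    ⟨a, b, c, f, k1, by rw [det1]; rfl, fun h => h3 (e1 ▸ h.mul_right _), rfl⟩
  obtain ⟨t1, t2⟩ := tr_HI hl h5 hx (F.w j)
  have he := Tr.uniq (ok.dpos j).ne' tr (mul_one r ▸ tr1.trans t1)
  have dp := c6_dt ok j hx
  refine ⟨⟨x, hx⟩, ?_, ?_⟩
  · change (om x.1.1 * F.wt j) • Pt (mv x.1.1 (4 * x.2) 0 x.1.2 (F.w j)) = χ r • F.wt j' • Pt _
    rw [pt_tr (dp ▸ Int.mul_pos (by omega) (Int.natCast_pos.2 ok.pos)) tr1
      (by rw [dp, hr, ok.det]), smul_smul, smul_smul, hw, he]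
    congr 1
    linear_combination χ r * xp a b * F.wt j' * t2
  · rintro _ ⟨u, w, rfl⟩
    change r ∣ u * (mv x.1.1 (4 * x.2) 0 x.1.2 (F.w j)).1 +
      w * (mv x.1.1 (4 * x.2) 0 x.1.2 (F.w j)).2
    generalize mv x.1.1 (4 * x.2) 0 x.1.2 (F.w j) = ω at k1
    have k2 : r * (F.w j').1 = a * ω.1 + b * ω.2 := congrArg Prod.fst k1
    have k3 : r * (F.w j').2 = (10 * c : ℤ) * ω.1 + f * ω.2 := congrArg Prod.snd k1
    have k4 := congrArg (Int.cast : ℤ → G) det1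
    push_cast at k3 k4
    exact ⟨u * (f * (F.w j').1 - b * (F.w j').2) + w * (a * (F.w j').2 - 10 * c * (F.w j').1), by
      linear_combination (w * 10 * c - u * f) * k2 + (u * b - w * a) * k3 -
        (u * ω.1 + w * ω.2) * k4⟩

/-- All other points are congruent. -/
theorem Fam.cong (ok : F.Ok d) {l : ℕ} {r : G} {v : Plc} (hl : l.Prime) (h5 : l ≠ 5) (hp : Prim r)
    (hr : r.norm = l) (hv : v.V (io r) < 1) {j j' : ι} {e : G} (gd : Gd v (10 * d) (F.w j'))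
    (tr : Tr r (F.w j') (F.w j) e) (hw : F.wt j = χ r * e * F.wt j') {k : HI l}
    (hk : ¬ ∀ y, Lb ((F.hk l).w (j, k)) (10 * d * star r * y)) :
    (F.hk l).pt (j, k) - χ r • F.pt j' ∈ Kr v := by
  obtain ⟨x, hx⟩ := k
  change ¬ ∀ y, Lb (mv x.1.1 (4 * x.2) 0 x.1.2 (F.w j)) (10 * d * star r * y) at hk
  obtain ⟨p, q, t, s, h1, h2, -, rfl⟩ := tr
  have det := c6_det ok hr h1
  have dp := c6_dt ok j hx
  have hm : (x.1.1 : ℤ) * x.1.2 = l := by exact_mod_cast (mem_HI.1 hx).1.1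
  have l4 : l % 4 = 1 := by simpa [hr] using prim_norm hp
  have l5 : ¬ 5 ∣ l := fun h => h5 ((Nat.prime_dvd_prime_iff_eq Nat.prime_five hl).1 h).symm
  have t2 := (tr_HI l4 l5 hx (F.w j)).2
  have rr : r * star r = l := by rw [← Zsqrtd.norm_eq_mul_conj, hr, Int.cast_natCast]
  have d0 := Int.natCast_ne_zero.2 ok.pos.ne'
  have lm : ¬ (l : ℤ) ∣ (10 * d : ℕ) := p_of_norm hl hr hv ▸ v.V_int_eq_one.1
    (by rw [Int.cast_natCast]; exact gd.lev)
  obtain ⟨l', n, hn⟩ : IsCoprime (l : ℤ) (200 * d) :=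
    (((Nat.prime_iff_prime_int.1 hl).irreducible.coprime_iff_not_dvd.2 lm).pow_right
      (n := 3)).of_isCoprime_of_dvd_right ⟨5 * d * d, by push_cast; ring⟩
  obtain ⟨u, w, huw⟩ := c4_cop_star hl hr hp
  have hn' := congrArg (Int.cast : ℤ → G) hn
  have det' := congrArg (Int.cast : ℤ → G) det
  have k1 : r * (F.w j').1 = p * (F.w j).1 + q * (F.w j).2 := congrArg Prod.fst h1
  have k2 : r * (F.w j').2 = (10 * t : ℤ) * (F.w j).1 + s * (F.w j).2 := congrArg Prod.snd h1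
  push_cast at hn' det' k2
  obtain ⟨g, hg⟩ : ∃ g : G, g = l' * l + 200 * d * n * u * r := ⟨_, rfl⟩
  have g1 : g - 1 = 10 * d * star r * (2 * -(10 * n * w)) := by
    linear_combination hg + hn' + 200 * d * n * huw
  have g2 : g = r * (l' * star r + 200 * d * n * u) := by linear_combination hg - l' * rr
  have lv := fun y => Lb_lev (ω := F.w j') (m := d) (by rw [ok.det]) (ok.dpos j').ne' y
  obtain ⟨a, b, hab⟩ := lv (10 * n * u * (mv x.1.1 (4 * x.2) 0 x.1.2 (F.w j)).1)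
  obtain ⟨c, f, hcf⟩ := lv (10 * n * u * (mv x.1.1 (4 * x.2) 0 x.1.2 (F.w j)).2)
  obtain ⟨P, hP⟩ : ∃ P, P = l' * (x.1.1 * s - 40 * x.2 * t) + 20 * a := ⟨_, rfl⟩
  obtain ⟨Q, hQ⟩ : ∃ Q, Q = l' * (4 * x.2 * p - x.1.1 * q) + 20 * b := ⟨_, rfl⟩
  obtain ⟨R, hR⟩ : ∃ R, R = -(l' * x.1.2 * t) + 2 * c := ⟨_, rfl⟩
  obtain ⟨S, hS⟩ : ∃ S, S = l' * x.1.2 * p + 20 * f := ⟨_, rfl⟩
  have e1 : P * p + Q * (10 * t) - x.1.1 = 20 * (a * p + 10 * b * t - 10 * d * n * x.1.1) := by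
    rw [hP, hQ]
    linear_combination l' * x.1.1 * det + x.1.1 * hn
  have e2 : P * q + Q * s - 0 = 4 * (l' * x.2 * l + 5 * (a * q + b * s)) := by
    rw [hP, hQ]
    linear_combination 4 * l' * x.2 * det
  have e3 : (P * S - Q * (10 * R)) % 4 = 1 := by
    have : P * S - Q * (10 * R) = 4 * (5 * (P * f - Q * c + l' * x.1.2 * (a * p + 10 * b * t)) -
        50 * d * n * (l' * l + 1)) + 1 := by
      rw [hP, hQ, hR, hS]
      linear_combination l' * l' * x.1.1 * x.1.2 * det + l' * l' * l * hm + (l' * l + 1) * hn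
    omega
  have e4 : xp P Q * xp p q = star (om x.1.1) := by
    rw [← xp_mul e3 h2, xp_congr ⟨_, e1⟩ ⟨_, e2⟩, xp, mul_zero, Int.cast_zero, QF.ip_zero,
      one_mul, Int.cast_natCast]
  have tr : Tr g (mv x.1.1 (4 * x.2) 0 x.1.2 (F.w j)) (r * (F.w j').1, r * (F.w j').2)
      (xp P Q) := by
    refine ⟨P, Q, R, S, ?_, e3, fun h => l5 ?_, rfl⟩
    · rw [hP, hQ, hR, hS, hg]
      simp only [mv] at hab hcf ⊢
      push_cast at hab hcf ⊢
      refine Prod.ext ?_ ?_ <;> dsimp only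
      · linear_combination 20 * r * hab - l' * (x.1.1 * s - 40 * x.2 * t) * k1 -
          l' * (4 * x.2 * p - x.1.1 * q) * k2 -
          l' * (x.1.1 * (F.w j).1 + 4 * x.2 * (F.w j).2) * det'
      · linear_combination 20 * r * hcf + 10 * l' * x.1.2 * t * k1 - l' * x.1.2 * p * k2 -
          l' * x.1.2 * (F.w j).2 * det'
    · obtain ⟨P, rfl⟩ := h
      exact Int.natCast_dvd_natCast.1 (hm ▸ Dvd.dvd.mul_right
        ⟨P * p + Q * (2 * t) - 4 * (a * p + 10 * b * t - 10 * d * n * x.1.1), by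
          push_cast
          linear_combination -e1⟩ _)
  have key := kron hl hr hp hv (ok.dpos j') (by have := ok.pos; omega : 0 < 10 * d)
    (by rw [ok.det]; push_cast; rfl) gd (by rw [dp, ok.det])
    ⟨-(10 * n * w), by push_cast; linear_combination g1⟩ ⟨_, g2⟩ tr ?_ ?_
  · change (om x.1.1 * F.wt j) • Pt (mv x.1.1 (4 * x.2) 0 x.1.2 (F.w j)) -
      χ r • F.wt j' • Pt _ ∈ _
    convert (Kr v).smul_mem (om x.1.1 * F.wt j) key using 1
    rw [smul_sub, smul_smul, smul_smul, hw]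
    congr 2
    linear_combination -χ r * F.wt j' * (om x.1.1 * e4 + t2)
  · rintro y hy ⟨z, hz⟩
    push_cast at hz ⊢
    obtain ⟨y, rfl⟩ : 10 * d * star r ∣ y := ⟨r * z + 20 * n * w * y, by
      linear_combination hz - y * g1 - 10 * d * z * rr⟩
    rw [← rr, mul_comm r, ← mul_assoc]
    refine mul_dvd_mul_left _ (by_contra fun h => hk fun y₀ => ?_)
    obtain ⟨α, β, e⟩ := (prime_of_norm hl hr).irreducible.coprime_iff_not_dvd.2 h
    obtain ⟨γ, z, hz⟩ := c6_int hl hr (β * y₀)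
    convert c6_comb hy (Lb_lev (m := l * d) (by rw [dp]; push_cast; rfl)
      (by rw [dp]; exact mul_ne_zero (Int.natCast_ne_zero.2 hl.ne_zero) d0)
      (α * y₀ + z * y)) γ 10 using 1
    push_cast
    linear_combination 10 * d * star r * (y * hz - y₀ * e) + 10 * d * (α * y₀ + z * y) * rr
  · rintro _ ⟨α, β, rfl⟩
    obtain ⟨y₀, h₀⟩ := not_forall.1 hk
    have := c6_row (ω := F.w j) p q (10 * t) s
    rw [← h1] at this
    obtain ⟨γ, hγ⟩ := c6_cyc hl hx (by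
      convert Lb_lev (ω := F.w j) (m := d) (by rw [ok.det]) (ok.dpos j).ne' (10 * star r * y₀)
        using 1
      ring) h₀ (c6_comb this.1 this.2 α β)
    refine ⟨_, hγ, -(20 * n * w * (α * (F.w j').1 + β * (F.w j').2)) -
      γ * (l' * star r + 200 * d * n * u) * y₀, ?_⟩
    push_cast
    rw [← rr]
    linear_combination r * (α * (F.w j').1 + β * (F.w j').2) * g1 -
      γ * (10 * d * star r * y₀) * g2

theorem Fam.kron [Finite ι] (ok : F.Ok d) (hN : 0 < N) (st : F.Stable N χ) :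
    ∃ B : Finset ℕ, ∀ (l : ℕ) (r : G) (v : Plc), l.Prime → l ∉ B → Prim r → r.norm = l →
      v.V (io r) < 1 → ∃ (s s' : ι ≃ ι) (k0 : ι → HI l), ∀ j,
        (F.hk l).pt (j, k0 j) = χ (star r) • F.pt (s' j) ∧
        ∀ k, k ≠ k0 j → (F.hk l).pt (j, k) - χ r • F.pt (s j) ∈ Kr v := by
  have d0 : 0 < 10 * d := by have := ok.pos; omega
  choose B hB using fun j => gd_ae (ok.dpos j) d0 (by rw [ok.det]; push_cast; rfl)
  have := Fintype.ofFinite ι
  refine ⟨(10 * d * N).primeFactors ∪ univ.biUnion B, fun l r v hl hb hp hr hv => ?_⟩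
  rw [mem_union, not_or, mem_biUnion, Nat.mem_primeFactors] at hb
  have cop : l.Coprime (10 * d * N) :=
    hl.coprime_iff_not_dvd.2 fun h => hb.1 ⟨hl, h, (Nat.mul_pos d0 hN).ne'⟩
  have l5 : ¬ 5 ∣ l := Nat.prime_five.coprime_iff_not_dvd.1
    (cop.coprime_dvd_right ⟨2 * d * N, by ring⟩).symm
  have l4 : l % 4 = 1 := by simpa [hr] using prim_norm hp
  have rr : r * star r = l := by rw [← Zsqrtd.norm_eq_mul_conj, hr, Int.cast_natCast]
  have cN : IsCoprime (r * star r) (N : G) := by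
    simpa [rr] using (Nat.isCoprime_iff_coprime.2 cop.coprime_mul_left_right).intCast (R := G)
  obtain ⟨s, hs⟩ := st r hp cN.of_mul_left_left
  obtain ⟨s', hs'⟩ := st _ (prim_star hp) cN.of_mul_left_right
  choose k0 h0 h1 using fun j => (hs' (s'.symm j)).elim fun e h =>
    Fam.exact (χ := χ) (j := j) ok l4 l5 ((Zsqrtd.norm_conj r).trans hr)
      (by simpa using h.1) (by simpa using h.2)
  refine ⟨s.symm, s'.symm, k0, fun j => ⟨h0 j, fun k hk => ?_⟩⟩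
  obtain ⟨e, tr, hw⟩ := hs (s.symm j)
  rw [Equiv.apply_symm_apply] at tr hw
  refine Fam.cong ok hl (fun h => l5 h.symm.dvd) hp hr hv
    (hB _ v fun h => hb.2 ⟨_, mem_univ _, p_of_norm hl hr hv ▸ h⟩) tr hw fun h => hk ?_
  obtain ⟨α, β, e⟩ := Nat.isCoprime_iff_coprime.2 cop.coprime_mul_right_right
  have hm : (k.1.1.1 : G) * k.1.1.2 = l := by exact_mod_cast (mem_HI.1 k.2).1.1
  have sub : ∀ y, Lb (F.w j) y → Lb ((F.hk l).w (j, k0 j)) y → Lb ((F.hk l).w (j, k)) y := by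
    rintro _ ⟨a, b, rfl⟩ hy
    obtain ⟨y, hy⟩ := h1 j _ hy
    have e' := congrArg (Int.cast : ℤ → G) e
    have : Lb ((F.hk l).w (j, k)) (l * (a * (F.w j).1 + b * (F.w j).2)) :=
      ⟨a * k.1.1.2, b * k.1.1.1 - 4 * k.1.2 * a, by
        simp only [Fam.hk, mv]
        push_cast
        linear_combination -(a * (F.w j).1 + b * (F.w j).2) * hm⟩
    convert c6_comb this (h y) α β using 1
    push_cast at e'
    linear_combination -(a * (F.w j).1 + b * (F.w j).2) * e' + β * 10 * d * hy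
  obtain ⟨a, b, e1⟩ := sub ((F.hk l).w (j, k0 j)).1 (c6_row _ _ _ _).1 ⟨1, 0, by simp⟩
  obtain ⟨c, f, e2⟩ := sub ((F.hk l).w (j, k0 j)).2 (c6_row _ _ _ _).2 ⟨0, 1, by simp⟩
  obtain ⟨u1, u2, u3, u4⟩ := mv_inj (ok.dpos j).ne'
    ((Prod.ext e1 e2 : (F.hk l).w (j, k0 j) = mv a b c f ((F.hk l).w (j, k))).trans mv_mv)
  exact Subtype.ext (HI_uniq (by omega) (k0 j).2 k.2 (a := a) (b := b) (c := c) (e := f)
    (by simpa using u1) u2 (by simpa using u3) u4).symm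

end Pool.Agent.Lib.MP_696deb_nt.Y2
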