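import Pool.Agent.Lib.MP_696deb_nt.Y2.C0
import Pool.Agent.Shared.Weier.Leg

/-! Lines and the sigma function. -/

set_option autoImplicit false

open scoped Classical
open Complex Finset PeriodPair Pool.Agent.Shared.Weier

namespace Pool.Agent.Lib.MP_696deb_nt.Y2

open EA
open Sm (Qb GQ)
open B2 (Plc)
open Q4 (A II vm zq Tw)
open QF (G ip Prim Per)


variable {p s z l : ℂ}

open Filter Topology in
theorem c7_ext {f g : ℂ → ℂ} (hf : ContinuousAt f z) (hg : ContinuousAt g z)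
    (h : ∀ᶠ w in 𝓝[≠] z, f w = g w) : f z = g z :=
  tendsto_nhds_unique_of_eventuallyEq (hf.tendsto.mono_left nhdsWithin_le_nhds)
    (hg.tendsto.mono_left nhdsWithin_le_nhds) h

open Filter Topology in
theorem c7_ev (z p : ℂ) : ∀ᶠ w in 𝓝[≠] z, w + p ∉ LG.lattice :=
  (tendsto_add_nhdsNE z p).eventually (ev_notMem _)

theorem c7_gen (hp : p ∉ LG.lattice) (hz : z ∉ LG.lattice) (hs : s ∉ LG.lattice)
    (h1 : z + p ∉ LG.lattice) (h2 : s + p ∉ LG.lattice) (h3 : z + p / 2 ∉ LG.lattice) :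
    (zet LG (z + p) - zet LG z - zet LG (s + p) + zet LG s) *
      (Shared.Weier.sig LG (s + p) * Shared.Weier.sig LG s) *
      (Shared.Weier.sig LG (z + p) * Shared.Weier.sig LG z) =
      Shared.Weier.sig LG p * (Shared.Weier.sig LG (z + p + s) * Shared.Weier.sig LG (z - s)) := by
  have hb : p / 2 ∉ LG.lattice := fun h => hp (add_halves p ▸ add_mem h h)
  have e1 : ∀ w, p / 2 + (w + p / 2) = w + p := fun w => by ring
  have e2 : ∀ w, p / 2 - (w + p / 2) = -w := fun w => by ring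
  have c := (differentiable_sig LG).continuous
  have c1 := (analyticAt_zet hs).continuousAt
  have c2 : ContinuousAt (fun w => zet LG (w + p)) s :=
    ((hasDerivAt_zet h2).comp_add_const s p).continuousAt
  refine c7_ext (z := s) (f := fun s => (_ - zet LG (s + p) + zet LG s) *
    (Shared.Weier.sig LG (s + p) * Shared.Weier.sig LG s) * _) (g := fun s =>
      _ * (Shared.Weier.sig LG (z + p + s) * Shared.Weier.sig LG (z - s))) (by fun_prop)
      (by fun_prop) ?_
  filter_upwards [ev_notMem (L := LG) s, c7_ev s p, c7_ev s (p / 2)] with s hs h2 h4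
  have a1 := zet_aux hb h3 (by rwa [e1]) (by rwa [e2, neg_mem_iff])
  have a2 := zet_aux hb h4 (by rwa [e1]) (by rwa [e2, neg_mem_iff])
  have w1 := wp_sub' hb h3
  have w2 := wp_sub' hb h4
  have w3 := wp_sub' h3 h4
  have d := sig_two_mul hb
  rw [e1, e2, zet_neg] at a1 a2
  rw [e1, e2, sig_neg, mul_neg, neg_inj] at w1 w2
  rw [show z + p / 2 + (s + p / 2) = z + p + s by ring, add_sub_add_right_eq_sub] at w3
  rw [mul_div_cancel₀ _ two_ne_zero] at d
  rw [w1, w2, w3, d]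
  linear_combination Shared.Weier.sig LG (p / 2) ^ 4 * Shared.Weier.sig LG (z + p / 2) ^ 2 *
    Shared.Weier.sig LG (s + p / 2) ^ 2 * ((℘[LG] (p / 2) - ℘[LG] (z + p / 2)) * a2 -
      (℘[LG] (p / 2) - ℘[LG] (s + p / 2)) * a1)

/-- The line through two points in terms of sigma. -/
theorem line_sig (hp : p ∉ LG.lattice) (hs : s ∉ LG.lattice) (h1 : p + s ∉ LG.lattice)
    (h2 : p - s ∉ LG.lattice) : ∃ c : ℂ, c ≠ 0 ∧ ∀ z ∉ LG.lattice,
      ((℘'[LG] z / 2 - ℘'[LG] p / 2) * (℘[LG] s - ℘[LG] p) -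
        (℘'[LG] s / 2 - ℘'[LG] p / 2) * (℘[LG] z - ℘[LG] p)) * Shared.Weier.sig LG z ^ 3 =
      c * (Shared.Weier.sig LG (z - p) * Shared.Weier.sig LG (z - s) *
        Shared.Weier.sig LG (z + p + s)) := by
  rw [add_comm] at h1
  rw [← neg_mem_iff, neg_sub] at h2
  have n1 := sig_ne hp
  have n2 := sig_ne hs
  have n3 := sig_ne h1
  refine ⟨-(℘[LG] s - ℘[LG] p) / (Shared.Weier.sig LG p *
    (Shared.Weier.sig LG (s + p) * Shared.Weier.sig LG s)),
    div_ne_zero (neg_ne_zero.2 (wp_ne hs hp h1 h2)) (mul_ne_zero n1 (mul_ne_zero n3 n2)),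
    fun z hz => ?_⟩
  have c := (differentiable_sig LG).continuous
  have c1 := (hasDerivAt_wp hz).continuousAt
  have c2 := (hasDerivAt_wp' hz).continuousAt
  refine c7_ext (z := z) (f := fun z => ((℘'[LG] z / 2 - _) * _ - _ * (℘[LG] z - _)) *
    Shared.Weier.sig LG z ^ 3) (g := fun z => _ * (Shared.Weier.sig LG (z - p) *
      Shared.Weier.sig LG (z - s) * Shared.Weier.sig LG (z + p + s))) (by fun_prop) (by fun_prop) ?_
  filter_upwards [ev_notMem (L := LG) z, c7_ev z p, c7_ev z (p / 2), c7_ev z (-p)]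
    with z hz k1 k2 k3
  have a1 := zet_add_formula hz hp k1 (by rwa [sub_eq_add_neg])
  have a2 := zet_add_formula hs hp h1 h2
  have a3 := c7_gen hp hz hs k1 h1 k2
  have a4 := wp_sub' hz hp
  rw [div_mul_eq_mul_div, eq_div_iff (mul_ne_zero n1 (mul_ne_zero n3 n2)), ← sub_div, ← sub_div,
    a1, a2]
  refine mul_left_cancel₀ n1 ?_
  linear_combination (℘[LG] s - ℘[LG] p) * ((zet LG (z + p) - zet LG z - zet LG (s + p) +
    zet LG s) * (Shared.Weier.sig LG (s + p) * Shared.Weier.sig LG s) * Shared.Weier.sig LG z * a4 -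
      Shared.Weier.sig LG (z - p) * a3)

theorem rz_add (hl : l ∈ LG.lattice) : rz (p + l) z = rz p z := by
  obtain ⟨e, he, -, h⟩ := sig_add hl
  have k : cexp (2 * (eta LG p + eta LG l) * z) = cexp (2 * eta LG p * z) *
      cexp (eta LG l * (z - (p + l) + l / 2)) * cexp (eta LG l * (z + p + l / 2)) := by
    rw [← Complex.exp_add, ← Complex.exp_add]
    congr 1
    ring
  have n := exp_ne_zero (eta LG l * (z + p + l / 2))
  rw [rz, rz, ← add_assoc, h, show z - p = z - (p + l) + l by ring, h, map_add, k,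
    div_eq_mul_inv _ (Shared.Weier.sig _ _), div_eq_mul_inv, mul_inv]
  generalize (Shared.Weier.sig LG (z + p))⁻¹ = x
  rcases he with rfl | rfl <;> field_simp

theorem rz_ne (h1 : z - p ∉ LG.lattice) (h2 : z + p ∉ LG.lattice) : rz p z ≠ 0 :=
  div_ne_zero (mul_ne_zero (exp_ne_zero _) (sig_ne h1)) (sig_ne h2)

theorem rz_neg (h1 : z - p ∉ LG.lattice) (h2 : z + p ∉ LG.lattice) : rz (-p) z * rz p z = 1 := by
  have n1 := sig_ne h1
  have n2 := sig_ne h2
  have n3 := exp_ne_zero (2 * eta LG p * z)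
  rw [rz, rz, map_neg, mul_neg, neg_mul, exp_neg, sub_neg_eq_add, ← sub_eq_add_neg]
  field_simp

theorem rz_neg' (h1 : z - p ∉ LG.lattice) (h2 : z + p ∉ LG.lattice) :
    rz p (-z) * rz p z = 1 := by
  have n1 := sig_ne h1
  have n2 := sig_ne h2
  have n3 := exp_ne_zero (2 * eta LG p * z)
  rw [rz, rz, mul_neg, exp_neg, ← neg_add', neg_add_eq_sub, ← neg_sub z, sig_neg, sig_neg]
  field_simp

theorem norm_kl_add (hl : l ∈ LG.lattice) : ‖kl (z + l)‖ = ‖kl z‖ := norm_klein_add hl z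

theorem c7_sig (z : ℂ) : Shared.Weier.sig LG (I * z) = I * Shared.Weier.sig LG z := by
  have h : ∀ f : ℂ → ℂ, ∏' l : LG.lattice, f l = ∏' γ : G, f (Om * γ) := fun f =>
    ((eO Om_ne).tprod_eq fun l => f l).symm
  rw [Shared.Weier.sig, Shared.Weier.sig, sig0, sig0, mul_assoc, h fun l => E2 (I * z / l),
    h fun l => E2 (z / l), ← (Units.mulLeft (⟨QF.ii, -QF.ii, by decide, by decide⟩ : Gˣ)).tprod_eq
      fun γ : G => E2 (I * z / (Om * γ))]
  congr 3
  funext γ
  rw [Units.mulLeft_apply, map_mul, ii_coe, mul_left_comm, mul_div_mul_left _ _ I_ne_zero]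

theorem norm_kl_I : ‖kl (I * z)‖ = ‖kl z‖ := by
  have h := eta_mul QF.ii z
  rw [ii_coe, conj_I] at h
  rw [kl, kl, c7_sig, h, mul_assoc, norm_mul, norm_I, one_mul,
    show -I * eta LG z * (I * z) = eta LG z * z by linear_combination -(eta LG z * z) * I_sq]

theorem norm_kl_neg : ‖kl (-z)‖ = ‖kl z‖ := by
  rw [kl, kl, sig_neg, map_neg, neg_mul_neg, neg_mul, norm_neg]

theorem log_rz (h1 : z - p ∉ LG.lattice) (h2 : z + p ∉ LG.lattice) :
    Real.log ‖rz p z‖ = Real.log ‖kl (p - z)‖ - Real.log ‖kl (-p - z)‖ := by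
  have n1 := norm_ne_zero_iff.2 (sig_ne h1)
  have n2 := norm_ne_zero_iff.2 (sig_ne h2)
  have h := re_eta_form (L := LG) p z
  rw [← neg_sub z, ← neg_add', norm_kl_neg, norm_kl_neg, add_comm p]
  simp only [rz, kl, norm_div, norm_mul, norm_exp, Real.log_mul, Real.log_div, n1, n2,
    Real.exp_ne_zero, ne_eq, not_false_eq_true, mul_eq_zero, or_self, Real.log_exp]
  have e : 2 * eta LG p * z = -(eta LG (z - p) * (z - p) / 2) - -(eta LG (z + p) * (z + p) / 2) +
      (eta LG p * z - eta LG z * p) := by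
    rw [map_sub, map_add]
    ring
  rw [e, add_re, h, sub_re]
  ring

theorem c7_Gr (p q : ℂ) : Gr p q = (Real.log ‖kl (p - q)‖ : ℝ) -
    I * (Real.log ‖kl (I * p - q)‖ : ℝ) - (Real.log ‖kl (-p - q)‖ : ℝ) +
    I * (Real.log ‖kl (-(I * p) - q)‖ : ℝ) := by
  refine (Fin.sum_univ_four _).trans ?_
  rw [show ip (0 : Fin 4) = 1 by decide, show ip (1 : Fin 4) = QF.ii by decide,
    show ip (2 : Fin 4) = -1 by decide, show ip (3 : Fin 4) = -QF.ii by decide, star_neg, star_neg,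
    star_one, show star QF.ii = -QF.ii by decide]
  simp only [map_neg, map_one, ii_coe, one_mul, neg_mul, neg_neg]
  ring

theorem Gr_eq (h1 : z - p ∉ LG.lattice) (h2 : z + p ∉ LG.lattice) (h3 : I * z - p ∉ LG.lattice)
    (h4 : I * z + p ∉ LG.lattice) :
    Gr p z = (Real.log ‖rz p z‖ : ℝ) + I * (Real.log ‖rz p (I * z)‖ : ℝ) := by
  rw [c7_Gr, log_rz h1 h2, log_rz h3 h4, ← norm_kl_I (z := I * p - z),
    ← norm_kl_I (z := -(I * p) - z),
    show I * (I * p - z) = -p - I * z by linear_combination p * I_sq,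
    show I * (-(I * p) - z) = p - I * z by linear_combination -p * I_sq]
  push_cast
  ring

theorem Gr_add_left (hl : l ∈ LG.lattice) : Gr (p + l) z = Gr p z :=
  sum_congr rfl fun k _ => by rw [mul_add, add_sub_right_comm, norm_kl_add (mul_mem_LG _ hl)]

theorem Gr_add_right (hl : l ∈ LG.lattice) : Gr p (z + l) = Gr p z :=
  sum_congr rfl fun k _ => by
    rw [← sub_sub, sub_eq_add_neg _ l, norm_kl_add (neg_mem hl)]

theorem c7_ip {a : G} (h : a ^ 4 = 1) : ∃ k, a = ip k := by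
  have k : QF.ii ^ 2 = -1 := by decide
  have e : (a - 1) * (a - QF.ii) * (a + 1) * (a + QF.ii) = 0 := by
    linear_combination h - (a ^ 2 - 1) * k
  simp only [mul_eq_zero, sub_eq_zero, add_eq_zero_iff_eq_neg] at e
  rcases e with ((e | e) | e) | e
  exacts [⟨0, e⟩, ⟨1, e⟩, ⟨2, e⟩, ⟨3, e⟩]

theorem c7_kl (k : ZMod 4) (z : ℂ) : ‖kl ((ip k : G) * z)‖ = ‖kl z‖ := by
  rw [ip, map_pow, ii_coe]
  induction k.val with
  | zero => rw [pow_zero, one_mul]
  | succ n ih => rw [pow_succ', mul_assoc, norm_kl_I, ih]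

theorem Gr_unit {a b : G} (ha : a ^ 4 = 1) (hb : b ^ 4 = 1) :
    Gr (a * p) (b * z) = a * ((star b : G) : ℂ) * Gr p z := by
  obtain ⟨i, rfl⟩ := c7_ip ha
  obtain ⟨j, rfl⟩ := c7_ip hb
  have e1 : ∀ i j k : ZMod 4, star (ip (k + (j - i))) = ip i * star (ip j) * star (ip k) := by
    decide
  have e2 : ∀ i j k : ZMod 4, ip (k + (j - i)) * ip i = ip j * ip k := by decide
  rw [Gr, Gr, mul_sum, ← Equiv.sum_comp (Equiv.addRight (j - i))]
  refine sum_congr rfl fun k _ => ?_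
  rw [Equiv.coe_addRight, e1, ← mul_assoc, ← map_mul, e2, map_mul _ (ip j), mul_assoc (ip j : ℂ),
    ← mul_sub, c7_kl, map_mul, map_mul, mul_assoc _ (_ : ℂ) (Real.log _ : ℂ)]

end Pool.Agent.Lib.MP_696deb_nt.Y2
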