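import Pool.Agent.Lib.MP_696deb_nt.Y2.C0
import Pool.Agent.Lib.MP_696deb_nt.Q4.Stmt
import Pool.Agent.Lib.MP_696deb_nt.Q4.EllT

/-! Gaussian numbers among the algebraic numbers, and rational points. -/

set_option autoImplicit false

open scoped Classical
open Complex Finset PeriodPair Pool.Agent.Shared.Weier

namespace Pool.Agent.Lib.MP_696deb_nt.Y2

open EA
open Sm (Qb GQ)
open B2 (Plc)
open Q4 (A II vm zq Tw)
open QF (G ip Prim Per)


variable {x : Qb} {l : ℕ} {r : G}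

theorem c9_II (g : GQ) : g II = II ∨ g II = -II :=
  mul_self_eq_mul_self_iff.1 (by rw [← map_mul, Q4.II_mul, map_neg, map_one])

theorem c9_cc : B2.cc II = -II := by
  refine (c9_II _).resolve_left fun e => ?_
  have h := B2.jC_cc II
  rw [e] at h
  have h2 : B2.jC II * B2.jC II = -1 := by rw [← map_mul, Q4.II_mul, map_neg, map_one]
  obtain ⟨s, hs⟩ := Complex.conj_eq_iff_real.1 h.symm
  rw [hs] at h2
  have : s * s = -1 := by exact_mod_cast h2
  nlinarith [mul_self_nonneg s]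

/-- An element that is fixed by the subgroup of index two has at most two conjugates. -/
theorem c9_act {α : Type} {T : GQ → α → α} (hT : ∀ g h P, T (g * h) P = T g (T h P)) {P : α}
    (hP : ∀ g : GQ, g II = II → T g P = P) (g : GQ) :
    (g II = II ∧ T g P = P ∧ T g (T B2.cc P) = T B2.cc P) ∨
      (g II = -II ∧ T g P = T B2.cc P ∧ T g (T B2.cc P) = P) := by
  have hc := c9_cc
  have k : ∀ s : GQ, s II = -II → T s P = T B2.cc P := fun s e => by
    have e1 : T s P = T (B2.cc * (B2.cc * s)) P := by rw [← mul_assoc, B2.cc_mul_cc, one_mul]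
    rw [e1, hT, hP]
    rw [AlgEquiv.mul_apply, e, map_neg, hc, neg_neg]
  rcases c9_II g with e | e
  · refine .inl ⟨e, hP g e, ?_⟩
    rw [← hT, k]
    rw [AlgEquiv.mul_apply, hc, map_neg, e]
  · refine .inr ⟨e, k g e, ?_⟩
    rw [← hT, hP]
    rw [AlgEquiv.mul_apply, hc, map_neg, e, neg_neg]

theorem c9_rat (h : ∀ g : GQ, g x = x) : ∃ q : ℚ, x = q := by
  obtain ⟨q, hq⟩ := (InfiniteGalois.mem_range_algebraMap_iff_fixed (k := ℚ) x).2 h
  exact ⟨q, hq.symm⟩

/-- The numbers that are fixed by the Galois group of the Gaussian field. -/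
theorem exists_frac (h : ∀ g : GQ, g II = II → g x = x) :
    ∃ a d : G, d ≠ 0 ∧ IsCoprime a d ∧ x * io d = io a := by
  have k := c9_act (T := fun g y => g y) (fun _ _ _ => rfl) h
  obtain ⟨a, ha⟩ := c9_rat (x := x + B2.cc x) fun g => by
    rcases k g with ⟨-, e, e'⟩ | ⟨-, e, e'⟩
    · rw [map_add, e, e']
    · rw [map_add, e, e', add_comm]
  obtain ⟨b, hb⟩ := c9_rat (x := II * (x - B2.cc x)) fun g => by
    rcases k g with ⟨e0, e, e'⟩ | ⟨e0, e, e'⟩
    · rw [map_mul, map_sub, e0, e, e']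
    · rw [map_mul, map_sub, e0, e, e']
      ring
  obtain ⟨n, d, hd, e⟩ : ∃ n d : G, d ≠ 0 ∧ x * io d = io n := by
    refine ⟨⟨a.num * b.den, b.num * a.den⟩, ((2 * a.den * b.den : ℕ) : G), ?_, ?_⟩
    · exact Nat.cast_ne_zero.2 (mul_ne_zero (mul_ne_zero two_ne_zero a.den_nz) b.den_nz)
    · have e1 : (a.num : Qb) = a * a.den := by exact_mod_cast (Rat.mul_den_eq_num a).symm
      have e2 : (b.num : Qb) = b * b.den := by exact_mod_cast (Rat.mul_den_eq_num b).symm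
      rw [map_natCast, io_apply]
      push_cast
      rw [e1, e2, ← ha, ← hb]
      linear_combination (a.den * b.den * (x - B2.cc x)) * Q4.II_mul
  obtain ⟨n', hn⟩ := EuclideanDomain.gcd_dvd_left n d
  obtain ⟨d', hd'⟩ := EuclideanDomain.gcd_dvd_right n d
  have hg := EuclideanDomain.gcd_eq_gcd_ab n d
  generalize EuclideanDomain.gcd n d = c at hn hd' hg
  generalize EuclideanDomain.gcdA n d = s at hg
  generalize EuclideanDomain.gcdB n d = u at hg
  subst hn hd'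
  have hc : c ≠ 0 := left_ne_zero_of_mul hd
  refine ⟨n', d', right_ne_zero_of_mul hd, ⟨s, u, mul_left_cancel₀ hc ?_⟩,
    mul_left_cancel₀ (io_ne hc) ?_⟩
  · linear_combination -hg
  · rw [map_mul, map_mul] at e
    linear_combination e

/-- The norm of a Gaussian number. -/
noncomputable def nq (x : Qb) : ℚ := if h : ∃ q : ℚ, (q : ℝ) = ‖EA.jc x‖ ^ 2 then h.choose else 1

/-- The nonzero Gaussian numbers. -/
def KU (x : Qb) : Prop := x ≠ 0 ∧ ∀ g : GQ, g II = II → g x = x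

theorem KU.mul {y : Qb} (h : KU x) (h' : KU y) : KU (x * y) :=
  ⟨mul_ne_zero h.1 h'.1, fun g hg => by rw [map_mul, h.2 g hg, h'.2 g hg]⟩

theorem KU.inv (h : KU x) : KU x⁻¹ :=
  ⟨inv_ne_zero h.1, fun g hg => by rw [map_inv₀, h.2 g hg]⟩

theorem c9_norm {a d : G} (hd : d ≠ 0) (e : x * io d = io a) :
    (((a.norm : ℚ) / d.norm : ℚ) : ℝ) = ‖EA.jc x‖ ^ 2 := by
  have e1 := congrArg (fun y => Complex.normSq (EA.jc y)) e
  simp only [map_mul, jc_io] at e1
  rw [← GaussianInt.intCast_real_norm, ← GaussianInt.intCast_real_norm,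
    Complex.normSq_eq_norm_sq] at e1
  have h0 : (d.norm : ℝ) ≠ 0 := by exact_mod_cast (GaussianInt.norm_pos.2 hd).ne'
  push_cast
  rw [div_eq_iff h0, e1]

theorem KU.nq_eq (h : KU x) : (nq x : ℝ) = ‖EA.jc x‖ ^ 2 := by
  obtain ⟨a, d, hd, -, e⟩ := exists_frac h.2
  have k : ∃ q : ℚ, (q : ℝ) = ‖EA.jc x‖ ^ 2 := ⟨_, c9_norm hd e⟩
  rw [nq, dif_pos k]
  exact k.choose_spec

theorem KU.nq_pos (h : KU x) : 0 < nq x := by
  have : (0 : ℝ) < nq x := by
    rw [h.nq_eq]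
    exact pow_pos (norm_pos_iff.2 ((map_ne_zero EA.jc).2 h.1)) 2
  exact_mod_cast this

theorem KU.log_nq (h : KU x) : Real.log (nq x) = 2 * Real.log ‖EA.jc x‖ := by
  rw [h.nq_eq, Real.log_pow, Nat.cast_ofNat]

theorem c9_mul_lt {v : Plc} {a : G} (h : v.V (io a) < 1) (b : G) : v.V (io (a * b)) < 1 := by
  rw [map_mul, map_mul]
  exact (mul_le_of_le_one_right' (V_io_le v b)).trans_lt h

theorem c9_cop {v : Plc} {a d : G} (h : IsCoprime a d) (ha : v.V (io a) < 1)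
    (hd : v.V (io d) < 1) : False := by
  obtain ⟨s, u, e⟩ := h
  have := v.V.map_add_lt (c9_mul_lt ha s) (c9_mul_lt hd u)
  rw [← map_add io, mul_comm a, mul_comm d, e, map_one, map_one] at this
  exact lt_irrefl _ this

theorem c9_den {v : Plc} {a d : G} (h : IsCoprime a d) (e : x * io d = io a) (h1 : v.V x = 1) :
    v.V (io d) = 1 := by
  refine (V_io_le v d).eq_or_lt.resolve_right fun k => c9_cop h ?_ k
  rwa [← e, map_mul, h1, one_mul]

theorem c9_pow (hl : l.Prime) (hr : r.norm = l) (y : G) : r ∣ y ^ l - y := by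
  have := Fact.mk hl
  have hc : Nat.card (G ⧸ Ideal.span {r}) = l := by exact_mod_cast (card_quot r).trans hr
  have : Finite (G ⧸ Ideal.span {r}) := Nat.finite_of_card_ne_zero (hc ▸ hl.ne_zero)
  have := Fintype.ofFinite (G ⧸ Ideal.span {r})
  obtain ⟨z, hz⟩ := (ZMod.ringEquivOfPrime (G ⧸ Ideal.span {r}) hl
    (Nat.card_eq_fintype_card.symm.trans hc)).surjective (Ideal.Quotient.mk _ y)
  rw [← Ideal.mem_span_singleton, ← Ideal.Quotient.eq, map_pow, ← hz, ← map_pow, ZMod.pow_card]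

theorem KU.fermat (h : KU x) (hl : l.Prime) (hr : r.norm = l) {v : Plc} (hv : v.V (io r) < 1)
    (h1 : v.V x = 1) : v.V (x ^ l - x) < 1 := by
  obtain ⟨a, d, -, hc, e⟩ := exists_frac h.2
  obtain ⟨s, hs⟩ := c9_pow hl hr a
  obtain ⟨u, hu⟩ := c9_pow hl hr d
  have k : (x ^ l - x) * (io d ^ l * io d) = io (r * (s * d - a * u)) := by
    rw [show r * (s * d - a * u) = a ^ l * d - a * d ^ l by linear_combination a * hu - d * hs,
      map_sub, map_mul, map_mul, map_pow, map_pow, ← e, mul_pow]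
    ring
  have := c9_mul_lt hv (s * d - a * u)
  rwa [← k, map_mul, map_mul, map_pow, c9_den hc e h1, one_pow, mul_one, mul_one] at this

theorem c9_star (hr : r.norm = l) : r * star r = l := by
  rw [← Zsqrtd.norm_eq_mul_conj, hr, Int.cast_natCast]

theorem exists_plc_of (hl : l.Prime) (hr : r.norm = l) : ∃ v : Plc, v.V (io r) < 1 := by
  obtain ⟨w, rfl⟩ := B2.exists_plc hl
  have h := B2.b2a_p_lt w
  rw [← map_natCast io, ← c9_star hr, map_mul, map_mul] at h
  rcases (V_io_le w r).eq_or_lt with e | e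
  · refine ⟨B2.cc • w, ?_⟩
    rw [e, one_mul] at h
    rw [B2.smul_V, inv_eq_of_mul_eq_one_right B2.cc_mul_cc]
    convert h using 2
    simp [io_apply, c9_cc]
  · exact ⟨w, e⟩

theorem c9_prime (hl : l.Prime) (hr : r.norm = l) : Irreducible r := by
  refine ⟨fun h => hl.ne_one ?_, fun a b e => ?_⟩
  · have := Zsqrtd.norm_eq_one_iff.2 h
    rwa [hr, Int.natAbs_natCast] at this
  · have : l = a.norm.natAbs * b.norm.natAbs := by
      rw [← Int.natAbs_mul, ← Zsqrtd.norm_mul, ← e, hr, Int.natAbs_natCast]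
    exact (hl.isUnit_or_isUnit this).imp
      (fun h => Zsqrtd.norm_eq_one_iff.1 (Nat.isUnit_iff.1 h))
      fun h => Zsqrtd.norm_eq_one_iff.1 (Nat.isUnit_iff.1 h)

theorem c9_one (hp : Irreducible r) {v : Plc} (hv : v.V (io r) < 1) {a d : G} (hc : IsCoprime a d)
    (e : x * io d = io a) (h1 : v.V (x - 1) < 1) : r ∣ a - d ∧ ¬ r ∣ d := by
  have hx : v.V x = 1 := by
    have := v.V.map_one_add_of_lt h1
    rwa [add_sub_cancel] at this
  have hd := c9_den hc e hx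
  refine ⟨by_contra fun k => c9_cop (hp.coprime_iff_not_dvd.2 k) hv ?_, ?_⟩
  · rwa [map_sub, ← e, ← sub_one_mul, map_mul, hd, mul_one]
  · rintro ⟨s, rfl⟩
    exact (c9_mul_lt hv s).ne hd

section

variable {M : Type} [AddCommGroup M] {L : ℚ → M}

theorem c9_nq_mul {y : Qb} (h : KU x) (h' : KU y) : nq (x * y) = nq x * nq y := by
  have : (nq (x * y) : ℝ) = nq x * nq y := by
    rw [(h.mul h').nq_eq, h.nq_eq, h'.nq_eq, map_mul, norm_mul, mul_pow]
  exact_mod_cast this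

theorem Lg.nq_mul (hL : Lg l L) {y : Qb} (h : KU x) (h' : KU y) :
    L (nq (x * y)) = L (nq x) + L (nq y) := by
  rw [c9_nq_mul h h', hL.add _ _ h.nq_pos h'.nq_pos]

theorem Lg.nq_inv (hL : Lg l L) (h : KU x) : L (nq x⁻¹) = -L (nq x) := by
  have k : KU 1 := ⟨one_ne_zero, fun g _ => map_one g⟩
  have e := hL.nq_mul k k
  rw [mul_one, left_eq_add] at e
  rw [eq_neg_iff_add_eq_zero, ← hL.nq_mul h.inv h, inv_mul_cancel₀ h.1, e]

/-- Numbers that are one at a place above each of two conjugate primes. -/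
theorem Lg.nq_one (hL : Lg l L) (hl : l.Prime) (hr : r.norm = l) (hc : IsCoprime r (star r))
    {v v' : Plc} (hv : v.V (io r) < 1) (hv' : v'.V (io (star r)) < 1) (h : KU x)
    (h1 : v.V (x - 1) < 1) (h2 : v'.V (x - 1) < 1) : L (nq x) = 0 := by
  obtain ⟨a, d, hd, hcd, e⟩ := exists_frac h.2
  have hp := c9_prime hl hr
  obtain ⟨k1, n1⟩ := c9_one hp hv hcd e h1
  obtain ⟨k2, n2⟩ := c9_one (c9_prime hl ((Zsqrtd.norm_conj r).trans hr)) hv' hcd e h2
  obtain ⟨s, hs⟩ := hc.mul_dvd k1 k2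
  rw [c9_star hr, sub_eq_iff_eq_add] at hs
  have e1 : nq x = (a.norm.natAbs : ℚ) / (d.norm.natAbs : ℚ) := by
    have : nq x = (a.norm : ℚ) / d.norm := by exact_mod_cast h.nq_eq.trans (c9_norm hd e).symm
    rw [this, ← Int.cast_natCast, ← Int.cast_natCast d.norm.natAbs, GaussianInt.natCast_natAbs_norm,
      GaussianInt.natCast_natAbs_norm]
    rfl
  rw [e1]
  refine hL.one _ _ (fun k => ?_) ?_
  · have k' : (l : G) ∣ d * star d := by
      rw [← Zsqrtd.norm_eq_mul_conj, ← Int.cast_natCast]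
      exact Int.cast_dvd_cast _ _ (Int.natCast_dvd.2 k)
    rw [← c9_star hr] at k'
    rcases hp.prime.dvd_or_dvd ((dvd_mul_right r _).trans k') with q | ⟨u, q⟩
    · exact n1 q
    · exact n2 ⟨star u, by rw [← star_mul', ← q, star_star]⟩
  · rw [Int.natAbs_of_nonneg (GaussianInt.norm_nonneg a),
      Int.natAbs_of_nonneg (GaussianInt.norm_nonneg d), hs]
    refine ⟨l * s.norm + 2 * (s.re * d.re + s.im * d.im), ?_⟩
    simp [Zsqrtd.norm_def]
    ring

end

theorem c9_vc (t : Tw) : VC (algebraMap ℚ Qb) (Q4.ED t.N) (Q4.W1 Qb) (1 / t.ρ) 0 0 0 := by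
  have h0 := t.ρ_ne
  refine ⟨by simp [h0], ?_, ?_, ?_, ?_, ?_⟩ <;> simp [Q4.ED, Q4.W1]
  rw [← t.pw]
  field_simp

theorem c9_fix (t : Tw) {P : A} (h : ∀ g : GQ, t.tw g P = P) : ∃ R, (c9_vc t).hom R = P := by
  have h0 := t.ρ_ne
  rcases P with _ | ⟨X, Y, k⟩
  · exact ⟨0, rfl⟩
  have e : ∀ g : GQ, zq t.ρ g ^ 2 * g X = X ∧ zq t.ρ g ^ 3 * g Y = Y := fun g => by
    obtain ⟨k', e⟩ := Q4.vm_some (f := (g : Qb →+* Qb)) (t.four g) k
    exact (WeierstrassCurve.Affine.Point.some.injEq ..).mp (e.symm.trans (h g))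
  obtain ⟨a, ha⟩ := c9_rat (x := t.ρ ^ 2 * X) fun g => by
    rw [map_mul, map_pow, ← congrArg (t.ρ ^ 2 * ·) (e g).1, zq]
    field_simp
  obtain ⟨b, hb⟩ := c9_rat (x := t.ρ ^ 3 * Y) fun g => by
    rw [map_mul, map_pow, ← congrArg (t.ρ ^ 3 * ·) (e g).2, zq]
    field_simp
  refine (c9_vc t).mem_range k (x := a) (y := b) ?_ ?_
  · rw [eq_ratCast, ← ha]
    field_simp
    ring
  · rw [eq_ratCast, ← hb]
    field_simp
    ring

theorem c9_ii (t : Tw) (g : GQ) (P : A) : (g II = II → t.tw g (Q4.ii • P) = Q4.ii • t.tw g P) ∧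
    (g II = -II → t.tw g (Q4.ii • P) = -(Q4.ii • t.tw g P)) := by
  have h4 : (zq t.ρ g * II) ^ 4 = 1 := by rw [mul_pow, t.four, Q4.II_four, mul_one]
  rw [Q4.ii_smul, Q4.ii_smul, Q4.Tw.tw, Q4.JJ, Q4.vm_comp (t.four g) Q4.II_four,
    Q4.vm_comp Q4.II_four (t.four g), RingHom.id_apply, RingHom.coe_coe, mul_comm II]
  refine ⟨fun h => ?_, fun h => ?_⟩
  · rw [h]
    rfl
  · rw [h, mul_neg, Q4.vm_neg h4]
    rfl

/-- Rank zero over the rational numbers gives rank zero over the Gaussian field. -/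
theorem tors_of (t : Tw) (h : ∀ P : (Q4.ED t.N).toAffine.Point, ∃ n : ℕ, 0 < n ∧ n • P = 0) :
    Tors t := by
  have tor : ∀ P : A, (∀ g : GQ, t.tw g P = P) → ∃ n : ℕ, 0 < n ∧ n • P = 0 := fun P hP => by
    obtain ⟨R, rfl⟩ := c9_fix t hP
    obtain ⟨n, hn, e⟩ := h R
    exact ⟨n, hn, by rw [← map_nsmul, e, map_zero]⟩
  intro P hP
  have k := c9_act (T := fun g Q => t.tw g Q) t.tw_mul hP
  obtain ⟨m, hm, e1⟩ := tor (P + t.tw B2.cc P) fun g => by
    rcases k g with ⟨-, e, e'⟩ | ⟨-, e, e'⟩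
    · rw [map_add, e, e']
    · rw [map_add, e, e', add_comm]
  obtain ⟨n, hn, e2⟩ := tor (Q4.ii • (P - t.tw B2.cc P)) fun g => by
    rcases k g with ⟨e0, e, e'⟩ | ⟨e0, e, e'⟩
    · rw [(c9_ii t g _).1 e0, map_sub, e, e']
    · rw [(c9_ii t g _).2 e0, map_sub, e, e', ← smul_neg, neg_sub]
  have e3 : n • (P - t.tw B2.cc P) = 0 := by
    have := congrArg Q4.JJ e2
    rwa [map_nsmul, Q4.ii_smul, Q4.JJ_JJ, map_zero, smul_neg, neg_eq_zero] at this
  refine ⟨m * n * 2, by positivity, ?_⟩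
  rw [mul_smul, show 2 • P = (P + t.tw B2.cc P) + (P - t.tw B2.cc P) by abel, smul_add,
    mul_smul m n (P - _), e3, mul_comm m, mul_smul, e1, smul_zero, smul_zero, add_zero]

end Pool.Agent.Lib.MP_696deb_nt.Y2
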