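import Pool.Agent.Lib.MP_696deb_nt.Y2.C6
import Pool.Agent.Lib.MP_696deb_nt.Y2.C8
import Pool.Agent.Lib.MP_696deb_nt.Y2.C9

/-! The symbol of two families. -/

set_option autoImplicit false

open scoped Classical
open Complex Finset PeriodPair Pool.Agent.Shared.Weier

namespace Pool.Agent.Lib.MP_696deb_nt.Y2

open EA
open Sm (Qb GQ)
open B2 (Plc)
open Q4 (A II vm zq Tw)
open QF (G ip Prim Per)


variable {ι κ : Type} [Fintype ι] [Fintype κ] {F : Fam ι} {F' : Fam κ} {d d' M N N' n : ℕ} {t : Tw}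
  {φ : G → G}

/-- The points of a family, each `n` times. -/
noncomputable def Fam.ls (F : Fam ι) (n : ℕ) : List A := (n • univ.val.map F.pt).toList

/-- The value of the function on a rotated family. -/
noncomputable def bb (l : List A) (F' : Fam κ) (η : G) : Qb := ∏ k, sy l (η • F'.pt k)

/-- The families do not meet. -/
def Sep (l : List A) (F' : Fam κ) : Prop := ∀ η : G, η ^ 4 = 1 → ∀ k, Off l (η • F'.pt k)

theorem ce_mem {P : A} (h : P ∈ F.ls n) : ∃ j, F.pt j = P := by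
  obtain ⟨j, -, e⟩ := Multiset.mem_map.1 (Multiset.mem_of_mem_nsmul (Multiset.mem_toList.1 h))
  exact ⟨j, e⟩

theorem ce_mem' (hn : n ≠ 0) (j : ι) : F.pt j ∈ F.ls n :=
  Multiset.mem_toList.2 ((Multiset.mem_nsmul_of_ne_zero hn).2
    (Multiset.mem_map_of_mem _ (mem_univ j)))

theorem ce_prod (f : A → ℂ) : ((F.ls n).map f).prod = (∏ j, f (F.pt j)) ^ n := by
  rw [← Multiset.prod_coe, ← Multiset.map_coe, Fam.ls, Multiset.coe_toList, Multiset.map_nsmul,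
    Multiset.prod_nsmul, Multiset.map_map]
  rfl

theorem ce_perm {T : A → A} {s : ι ≃ ι} (h : ∀ j, T (F.pt j) = F.pt (s j)) :
    ((F.ls n).map T).Perm (F.ls n) := by
  rw [← Multiset.coe_eq_coe, ← Multiset.map_coe, Fam.ls, Multiset.coe_toList, Multiset.map_nsmul,
    Multiset.map_map, show T ∘ F.pt = F.pt ∘ s from funext h, ← Multiset.map_map,
    Multiset.map_univ_val_equiv]

theorem ce_unit {η : G} (h : η ^ 4 = 1) : η = 1 ∨ η = -1 ∨ η = QF.ii ∨ η = -QF.ii := by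
  have e : (η - 1) * ((η + 1) * ((η - QF.ii) * (η + QF.ii))) = 0 := by
    have : QF.ii ^ 2 = -1 := by decide
    linear_combination h - (η ^ 2 - 1) * this
  simpa only [mul_eq_zero, sub_eq_zero, add_eq_zero_iff_eq_neg] using e

theorem ce_ip {η : G} (h : η ^ 4 = 1) : ∃ c, η = ip c := by
  rcases ce_unit h with rfl | rfl | rfl | rfl
  exacts [⟨0, by decide⟩, ⟨2, by decide⟩, ⟨1, by decide⟩, ⟨3, by decide⟩]

theorem ce_xi {η : G} (h : η ^ 4 = 1) : ∃ c : ℤ, η = xi c (1 : ℤ) := by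
  rcases ce_unit h with rfl | rfl | rfl | rfl
  exacts [⟨0, by decide⟩, ⟨2, by decide⟩, ⟨1, by decide⟩, ⟨3, by decide⟩]

theorem ce_ne (ok : F.Ok d) (ok' : F'.Ok d') {j : ι} {k : κ}
    (h : ¬ Eq0 (tb (F.w j)) (tb (F'.w k))) {η : G} (hη : η ^ 4 = 1) : F.pt j ≠ η • F'.pt k := by
  intro e
  have h1 := tb_pos (ok.dpos j)
  have h2 := tb_pos (ok'.dpos k)
  obtain ⟨c, hc⟩ := ce_xi (η := F.wt j ^ 3 * η * F'.wt k) (by
    rw [mul_pow, mul_pow, pow_right_comm, ok.four, hη, ok'.four, one_pow, one_mul, one_mul])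
  have e1 : Pt (F.w j) = xi c (1 : ℤ) • Pt (F'.w k) := by
    have := congrArg (F.wt j ^ 3 • ·) e
    simp only [Fam.pt, smul_smul] at this
    rwa [← pow_succ, ok.four, one_smul, ← mul_assoc, hc] at this
  have e2 := cp_smul (xi c (1 : ℤ)) (pt_spec (ok'.dpos k))
  rw [← e1, pt_spec (ok.dpos j), ← sub_eq_zero, ← map_sub, un_eq_zero] at e2
  have hd : (1 : ℤ) * 1 - c * (10 * 0) = 1 := by ring
  have e3 := sub_mem e2 (uu_mob hd h2)
  rw [sub_sub_sub_cancel_right] at e3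
  obtain ⟨a, b, c', d, k1, -, k2⟩ := (uu_inj h1 (im_mob_pos (by omega) h2)).1 e3
  exact h (Eq0.trans ⟨a, b, c', d, k1, k2⟩ (Eq0.symm ⟨1, c, 0, 1, hd, rfl⟩ h2) h1)

theorem ce_off (ok : F.Ok d) (ok' : F'.Ok d') (hn : n ≠ 0) (sep : Sep (F.ls n) F') {η : G}
    (h : η ^ 4 = 1) (j : ι) (k : κ) :
    η * F'.z k - F.z j ∉ LG.lattice ∧ η * F'.z k + F.z j ∉ LG.lattice := by
  obtain ⟨h1, h2⟩ := (sep η h k).2 _ (ce_mem' hn j)
  rw [← un_eq_zero, ← un_eq_zero, map_sub, map_add, ← cp_smul η (ok'.cp_pt k), ← ok.cp_pt,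
    ← map_sub, ← map_add, map_eq_zero_iff _ cp_inj, map_eq_zero_iff _ cp_inj]
  exact ⟨fun e => h1 (sub_eq_zero.1 e).symm, fun e => h2 (eq_neg_of_add_eq_zero_right e)⟩

theorem ls_ne (ok : F.Ok d) : ∀ P ∈ F.ls n, P ≠ 0 := fun _ h =>
  (ce_mem h).elim fun j e => e ▸ ok.pt_ne j

theorem exists_ls (hL : Lk t M φ) (ok : F.Ok d) (hN : 0 < N)
    (st : F.Stable N fun a => φ a * eb a) (hT : Tors t) : ∃ n, 0 < n ∧ (F.ls n).sum = 0 := by
  obtain ⟨n, h1, h2⟩ := hT (∑ j, F.pt j) fun g hg => by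
    obtain ⟨s, hs⟩ := Fam.gal hL ok hN st hg
    rw [map_sum, sum_congr rfl fun j _ => hs j, Equiv.sum_comp s F.pt]
  refine ⟨n, h1, ?_⟩
  rw [Fam.ls, Multiset.sum_toList, Multiset.sum_nsmul]
  exact h2

theorem sep_of (ok : F.Ok d) (ok' : F'.Ok d') (h : ∀ j k, ¬ Eq0 (tb (F.w j)) (tb (F'.w k))) :
    Sep (F.ls n) F' := fun η hη k => by
  refine ⟨fun e => ok'.pt_ne k ?_, fun P hP => ?_⟩
  · rw [← one_smul G (F'.pt k), ← hη, pow_succ, mul_smul, e, smul_zero]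
  · obtain ⟨j, rfl⟩ := ce_mem hP
    exact ⟨ce_ne ok ok' (h j k) hη, neg_smul η (F'.pt k) ▸ ce_ne ok ok' (h j k)
      ((Even.neg_pow (by decide) η).trans hη)⟩

theorem bb_KU (hL : Lk t M φ) (ok : F.Ok d) (hN : 0 < N) (st : F.Stable N fun a => φ a * eb a)
    (hN' : 0 < N') (ok' : F'.Ok d') (st' : F'.Stable N' fun a => φ a * eb a)
    (hs : (F.ls n).sum = 0) (sep : Sep (F.ls n) F') {η : G} (h : η ^ 4 = 1) :
    KU (bb (F.ls n) F' η) := by
  refine ⟨prod_ne_zero_iff.2 fun k _ => sy_ne (ls_ne ok) hs (sep η h k), fun g hg => ?_⟩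
  obtain ⟨s, h1⟩ := Fam.gal hL ok hN st hg
  obtain ⟨s', h2⟩ := Fam.gal hL ok' hN' st' hg
  rw [bb, map_prod, ← Equiv.prod_comp s' fun k => sy (F.ls n) (η • F'.pt k)]
  exact prod_congr rfl fun k _ => by
    rw [← sy_tw (ls_ne ok) hs (sep η h k) t hg (ce_perm h1), tw_smul' t hg, h2]

theorem bb_neg (ok : F.Ok d) (hs : (F.ls n).sum = 0) (sep : Sep (F.ls n) F') {η : G}
    (h : η ^ 4 = 1) : bb (F.ls n) F' (-η) = (bb (F.ls n) F' η)⁻¹ := by
  rw [bb, bb, ← prod_inv_distrib]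
  exact prod_congr rfl fun k _ => by rw [neg_smul, sy_neg (ls_ne ok) hs (sep η h k)]

theorem ce_log (ok : F.Ok d) (ok' : F'.Ok d') (hs : (F.ls n).sum = 0) (sep : Sep (F.ls n) F')
    {η : G} (h : η ^ 4 = 1) : Real.log ‖EA.jc (bb (F.ls n) F' η)‖ =
      n * ∑ j, ∑ k, Real.log ‖rz (F.z j) (η * F'.z k)‖ := by
  have e : ∀ j w, rz (lf (F.pt j)) w = rz (F.z j) w := fun j w => by
    rw [← rz_add (p := F.z j) (l := lf (F.pt j) - F.z j) (by
      rw [← un_eq_zero, map_sub, ← un_lf, ok.cp_pt, sub_self]), add_sub_cancel]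
  rw [bb, map_prod, prod_congr rfl fun k _ => (jc_sy (ls_ne ok) hs (sep η h k)
    (cp_smul η (ok'.cp_pt k))).trans (ce_prod _), prod_pow, norm_pow, Real.log_pow]
  rcases eq_or_ne n 0 with rfl | hn
  · simp
  have ne := fun j k => norm_ne_zero_iff.2
    (rz_ne (ce_off ok ok' hn sep h j k).1 (ce_off ok ok' hn sep h j k).2)
  simp only [e, norm_prod]
  rw [prod_comm, Real.log_prod fun j _ => prod_ne_zero_iff.2 fun k _ => ne j k,
    sum_congr rfl fun j _ => Real.log_prod fun k _ => ne j k]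

theorem bb_arch (ok : F.Ok d) (ok' : F'.Ok d') (hs : (F.ls n).sum = 0) (sep : Sep (F.ls n) F') :
    ((Real.log ‖EA.jc (bb (F.ls n) F' 1)‖ : ℝ) + I * (Real.log ‖EA.jc (bb (F.ls n) F' QF.ii)‖ : ℝ) : ℂ) =
      n * F.arch F' := by
  have h1 : (1 : G) ^ 4 = 1 := one_pow 4
  have h2 : QF.ii ^ 4 = 1 := by decide
  have e : ((QF.ii : G) : ℂ) = I := by simp [QF.ii, GaussianInt.toComplex_def']
  rw [ce_log ok ok' hs sep h1, ce_log ok ok' hs sep h2]
  rcases eq_or_ne n 0 with rfl | hn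
  · simp
  have k1 := ce_off ok ok' hn sep h1
  have k2 := ce_off ok ok' hn sep h2
  simp only [map_one, one_mul, e] at k1 k2 ⊢
  rw [Fam.arch, sum_congr rfl fun j _ => sum_congr rfl fun k _ =>
    Gr_eq (k1 j k).1 (k1 j k).2 (k2 j k).1 (k2 j k).2]
  simp only [sum_add_distrib, ← mul_sum]
  push_cast
  ring

theorem bb_cong (ok : F.Ok d) (hN' : 0 < N') (ok' : F'.Ok d') {χ : G → G} (st' : F'.Stable N' χ)
    (hs : (F.ls n).sum = 0) (sep : Sep (F.ls n) F') :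
    ∃ B : Finset ℕ, ∀ (l : ℕ) (r : G) (v : Plc), l.Prime → l ∉ B → Prim r → r.norm = l →
      v.V (io r) < 1 → χ r ^ 4 = 1 → χ (star r) ^ 4 = 1 → Sep (F.ls n) (F'.hk l) ∧
      ∀ η : G, η ^ 4 = 1 → v.V (bb (F.ls n) F' η) = 1 ∧ v.V (bb (F.ls n) (F'.hk l) η -
        bb (F.ls n) F' (η * χ (star r)) * bb (F.ls n) F' (η * χ r) ^ l) < 1 := by
  choose B hB using fun x : ZMod 4 × κ => sy_cong (ls_ne ok) hs (sep (ip x.1) (by
    generalize x.1 = c
    revert c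
    decide) x.2)
  obtain ⟨B', hB'⟩ := Fam.kron ok' hN' st'
  refine ⟨univ.biUnion B ∪ B', fun l r v hl hb hp hr hv c1 c2 => ?_⟩
  rw [notMem_union] at hb
  obtain ⟨s, s', k0, hk⟩ := hB' l r v hl hb.2 hp hr hv
  have H : ∀ η : G, η ^ 4 = 1 → ∀ k, v.V (sy (F.ls n) (η • F'.pt k)) = 1 ∧
      ∀ R', R' - η • F'.pt k ∈ Kr v → Off (F.ls n) R' ∧
        v.V (sy (F.ls n) R' - sy (F.ls n) (η • F'.pt k)) < 1 := fun η hη k => by
    obtain ⟨c, rfl⟩ := ce_ip hη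
    exact hB (c, k) v fun e => hb.1 (p_of_norm hl hr hv ▸ mem_biUnion.2 ⟨_, mem_univ _, e⟩)
  let T : G → κ × HI l → A := fun η x =>
    if x.2 = k0 x.1 then (η * χ (star r)) • F'.pt (s' x.1) else (η * χ r) • F'.pt (s x.1)
  have K : ∀ η : G, η ^ 4 = 1 → ∀ x, v.V (sy (F.ls n) (T η x)) = 1 ∧
      Off (F.ls n) (η • (F'.hk l).pt x) ∧
      v.V (sy (F.ls n) (η • (F'.hk l).pt x) - sy (F.ls n) (T η x)) < 1 := fun η hη ⟨j, k⟩ => by
    simp only [T]
    split_ifs with e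
    · have := H (η * χ (star r)) (by rw [mul_pow, hη, c2, mul_one]) (s' j)
      exact ⟨this.1, this.2 _ (by rw [e, (hk j).1, mul_smul, sub_self]; exact zero_mem _)⟩
    · have := H (η * χ r) (by rw [mul_pow, hη, c1, mul_one]) (s j)
      exact ⟨this.1, this.2 _ (by
        rw [mul_smul, ← smul_sub]
        exact (Kr v).smul_mem η ((hk j).2 k e))⟩
  refine ⟨fun η hη x => (K η hη x).2.1, fun η hη => ⟨?_, ?_⟩⟩
  · rw [bb, map_prod]
    exact prod_eq_one fun k _ => (H η hη k).1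
  have e : bb (F.ls n) F' (η * χ (star r)) * bb (F.ls n) F' (η * χ r) ^ l =
      ∏ x, sy (F.ls n) (T η x) := by
    rw [bb, bb, ← Equiv.prod_comp s', ← Equiv.prod_comp s fun k => sy _ ((η * χ r) • F'.pt k),
      ← prod_pow, ← prod_mul_distrib, Fintype.prod_prod_type]
    refine prod_congr rfl fun j _ => ?_
    rw [← mul_prod_erase _ _ (mem_univ (k0 j)), prod_congr rfl fun k hk =>
      congrArg (sy (F.ls n)) (if_neg (ne_of_mem_erase hk) :
        T η (j, k) = (η * χ r) • F'.pt (s j)), prod_const, card_erase_of_mem (mem_univ _),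
      card_univ, Fintype.card_coe, card_HI hl, Nat.add_sub_cancel, show T η (j, k0 j) = _ from if_pos rfl]
  rw [e]
  refine V_prod_cong univ (fun x _ => ?_) (fun x _ => (K η hη x).1.le) fun x _ => (K η hη x).2.2
  rw [← sub_add_cancel (sy _ _) (sy (F.ls n) (T η x))]
  exact v.V.map_add_le (K η hη x).2.2.le (K η hη x).1.le

end Pool.Agent.Lib.MP_696deb_nt.Y2
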