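import Pool.Agent.Lib.MP_696deb_nt.Y2.CE

/-! The symbol of two families: the final statements. -/

set_option autoImplicit false

open scoped Classical
open Complex Finset PeriodPair Pool.Agent.Shared.Weier

namespace Pool.Agent.Lib.MP_696deb_nt.Y2

open EA
open Sm (Qb GQ)
open B2 (Plc)
open Q4 (A II vm zq Tw)
open QF (G ip Prim Per)

variable {ι κ : Type} [Fintype ι] [Fintype κ] {F : Fam ι} {F' : Fam κ} {d d' M N N' n : ℕ} {t : Tw}
  {φ : G → G}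

theorem cg_unit {u : G} (h : u ^ 4 = 1) : u = 1 ∨ u = -1 ∨ u = QF.ii ∨ u = -QF.ii :=
  QF.f1_roots QF.f1_ii h

theorem ls_sum (F : Fam ι) (n : ℕ) : (F.ls n).sum = n • ∑ j, F.pt j := by
  rw [Fam.ls, Multiset.sum_toList, Multiset.sum_nsmul]
  rfl

theorem cp_sum (ok : F.Ok d) : cp (∑ j, F.pt j) = un (∑ j, F.z j) := by
  rw [map_sum, map_sum]
  exact sum_congr rfl fun j _ => ok.cp_pt j

theorem tors_iff (ok : F.Ok d) (n : ℕ) :
    n • ∑ j, F.pt j = 0 ↔ (n : ℂ) * ∑ j, F.z j ∈ LG.lattice := by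
  rw [← un_eq_zero, ← nsmul_eq_mul, map_nsmul, ← cp_sum ok, ← map_nsmul,
    map_eq_zero_iff _ cp_inj]

theorem arch_hk_one (ok : F'.Ok d') : F.arch (F'.hk 1) = F.arch F' := by
  refine sum_congr rfl fun j _ => ?_
  rw [Fam.sum_hk ok fun z => Gr (F.z j) z]
  simp [om_one, Fam.z]

omit [Fintype κ] in
theorem cg_four (ok : F'.Ok d') {χ : G → G} (st : F'.Stable N' χ) [Nonempty κ] {r : G}
    (hp : Prim r) (hc : IsCoprime r N') : χ r ^ 4 = 1 := by
  obtain ⟨s, hs⟩ := st r hp hc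
  obtain ⟨j⟩ := ‹Nonempty κ›
  obtain ⟨e, h1, h2⟩ := hs j
  have := ok.four (s j)
  rwa [h2, mul_pow, mul_pow, h1.four, ok.four, mul_one, mul_one] at this

theorem cg_cop {l : ℕ} {r : G} (hl : l.Prime) (hr : r.norm = l) (h : ¬ l ∣ N) : IsCoprime r N := by
  have k : IsCoprime ((l : ℤ) : G) ((N : ℤ) : G) :=
    (Nat.isCoprime_iff_coprime.2 ((Nat.Prime.coprime_iff_not_dvd hl).2 h)).map (Int.castRingHom G)
  rw [← hr, Zsqrtd.norm_eq_mul_conj, Int.cast_natCast] at k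
  exact k.of_mul_left_left

theorem cg_rot {Z : Type} [AddCommGroup Z] {b : G → Z} (h : ∀ η, η ^ 4 = 1 → b (-η) = -b η) {u : G}
    (hu : u ^ 4 = 1) : b (1 * u) = (star u).re • b 1 - (star u).im • b QF.ii ∧
      b (QF.ii * u) = (star u).im • b 1 + (star u).re • b QF.ii := by
  have h1 := h 1 (one_pow 4)
  have h2 := h QF.ii (by decide)
  rcases cg_unit hu with rfl | rfl | rfl | rfl
  · simp
  · simp [h1, h2]
  · rw [QF.f1_ii, h1]
    simp [QF.ii]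
  · rw [mul_neg QF.ii, QF.f1_ii, neg_neg, one_mul, h2]
    simp [QF.ii]

theorem cg_log {x y : Qb} (hx : KU x) (hy : KU y) {c : ℂ}
    (h : ((Real.log ‖EA.jc x‖ : ℝ) + I * (Real.log ‖EA.jc y‖ : ℝ) : ℂ) = n * c) :
    ((Real.log (nq x) : ℝ) + I * (Real.log (nq y) : ℝ) : ℂ) = (2 * n : ℕ) * c := by
  rw [hx.log_nq, hy.log_nq]
  push_cast at h ⊢
  linear_combination 2 * h

theorem cg_val {v : Plc} {l : ℕ} {r : G} (hl : l.Prime) (hr : r.norm = l) (hv : v.V (io r) < 1)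
    {x y z : Qb} (hz : KU z) (h1 : v.V y = 1) (h2 : v.V z = 1) (h : v.V (x - y * z ^ l) < 1) :
    v.V (x * (y * z)⁻¹ - 1) < 1 := by
  have k : v.V (y * z) = 1 := by rw [map_mul, h1, h2, mul_one]
  have k0 : y * z ≠ 0 := fun e => by simp [e] at k
  have e : x * (y * z)⁻¹ - 1 = ((x - y * z ^ l) + y * (z ^ l - z)) * (y * z)⁻¹ := by
    linear_combination mul_inv_cancel₀ k0
  rw [e, map_mul, map_inv₀, k, inv_one, mul_one]
  refine v.V.map_add_lt h ?_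
  rw [map_mul, h1, one_mul]
  exact hz.fermat hl hr hv h2

/-- The symbol. -/
theorem sym_end (hL : Lk t M φ) (ok : F.Ok d) (hN : 0 < N) (st : F.Stable N fun a => φ a * eb a)
    (hN' : 0 < N') (ok' : F'.Ok d') (st' : F'.Stable N' fun a => φ a * eb a) [Nonempty κ]
    (h : ∀ j k, ¬ Eq0 (tb (F.w j)) (tb (F'.w k)))
    (hT : ∃ n : ℕ, 0 < n ∧ (n : ℂ) * ∑ j, F.z j ∈ LG.lattice) :
    ∃ (n : ℕ) (R1 R2 : ℚ) (B : Finset ℕ), 0 < n ∧ 0 < R1 ∧ 0 < R2 ∧
      ((Real.log R1 : ℝ) + I * (Real.log R2 : ℝ) : ℂ) = n * F.arch (F'.hk 1) ∧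
      ∀ (l : ℕ) (r z : G), l.Prime → l ∉ B → Prim r → r.norm = l →
        z = star (φ r * eb r + φ (star r) * eb (star r)) → ∃ S1 S2 : ℚ, 0 < S1 ∧ 0 < S2 ∧
          ((Real.log S1 : ℝ) + I * (Real.log S2 : ℝ) : ℂ) = n * F.arch (F'.hk l) ∧
          ∀ (Z : Type) [AddCommGroup Z] (L : ℚ → Z), Lg l L →
            L S1 = z.re • L R1 - z.im • L R2 ∧ L S2 = z.im • L R1 + z.re • L R2 := by
  obtain ⟨n, n0, hn⟩ := hT
  have hs : (F.ls n).sum = 0 := by rw [ls_sum, tors_iff ok]; exact hn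
  have sep : Sep (F.ls n) F' := sep_of ok ok' h
  have i4 : QF.ii ^ 4 = 1 := by decide
  have ku : ∀ η : G, η ^ 4 = 1 → KU (bb (F.ls n) F' η) := fun η k =>
    bb_KU hL ok hN st hN' ok' st' hs sep k
  obtain ⟨B, hB⟩ := bb_cong ok hN' ok' st' hs sep
  refine ⟨2 * n, nq (bb (F.ls n) F' 1), nq (bb (F.ls n) F' QF.ii), B ∪ (5 * N').primeFactors,
    by omega, (ku 1 (one_pow 4)).nq_pos, (ku _ i4).nq_pos, ?_, fun l r z hl hb hp hr hz => ?_⟩
  · rw [arch_hk_one ok']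
    exact cg_log (ku 1 (one_pow 4)) (ku _ i4) (bb_arch ok ok' hs sep)
  rw [notMem_union, Nat.mem_primeFactors] at hb
  have b1 : ¬ l ∣ 5 * N' := fun e => hb.2 ⟨hl, e, by omega⟩
  have l4 : l % 4 = 1 := by simpa [hr] using prim_norm hp
  have l5 : ¬ 5 ∣ l := fun e => b1 (by
    rw [← (Nat.prime_dvd_prime_iff_eq Nat.prime_five hl).1 e]
    exact dvd_mul_right _ _)
  have hr' : (star r).norm = l := by rw [Zsqrtd.norm_conj, hr]
  have b2 : ¬ l ∣ N' := fun e => b1 (e.mul_left _)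
  have c1 := cg_four ok' st' hp (cg_cop hl hr b2)
  have c2 := cg_four ok' st' (prim_star hp) (cg_cop hl hr' b2)
  obtain ⟨v, hv⟩ := exists_plc_of hl hr
  obtain ⟨v', hv'⟩ := exists_plc_of hl hr'
  obtain ⟨sp, k1⟩ := hB l r v hl hb.1 hp hr hv c1 c2
  obtain ⟨-, k2⟩ := hB l (star r) v' hl hb.1 (prim_star hp) hr' hv' c2 (by rwa [star_star])
  have okl := Fam.hk_ok ok' l4 l5
  have kl : ∀ η : G, η ^ 4 = 1 → KU (bb (F.ls n) (F'.hk l) η) := fun η k =>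
    bb_KU hL ok hN st (Nat.mul_pos hl.pos hN') okl (Fam.hk_stable ok' l4 l5 st') hs sp k
  refine ⟨nq (bb (F.ls n) (F'.hk l) 1), nq (bb (F.ls n) (F'.hk l) QF.ii), (kl 1 (one_pow 4)).nq_pos,
    (kl _ i4).nq_pos, cg_log (kl 1 (one_pow 4)) (kl _ i4) (bb_arch ok okl hs sp),
    fun Z _ L hg => ?_⟩
  rw [star_star] at k2
  generalize φ r * eb r = a at *
  generalize φ (star r) * eb (star r) = a' at *
  have key : ∀ η : G, η ^ 4 = 1 → L (nq (bb (F.ls n) (F'.hk l) η)) =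
      L (nq (bb (F.ls n) F' (η * a))) + L (nq (bb (F.ls n) F' (η * a'))) := fun η k => by
    have e1 : (η * a) ^ 4 = 1 := by rw [mul_pow, k, c1, mul_one]
    have e2 : (η * a') ^ 4 = 1 := by rw [mul_pow, k, c2, mul_one]
    have e3 := ((ku _ e1).mul (ku _ e2)).inv
    have e4 := hg.nq_one hl hr (c4_cop_star hl hr hp) hv hv' ((kl η k).mul e3)
      (by rw [mul_comm (bb _ F' (η * a))]
          exact cg_val hl hr hv (ku _ e1) (k1 _ e2).1 (k1 _ e1).1 (k1 η k).2)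
      (cg_val hl hr' hv' (ku _ e2) (k2 _ e1).1 (k2 _ e2).1 (k2 η k).2)
    rwa [hg.nq_mul (kl η k) e3, hg.nq_inv ((ku _ e1).mul (ku _ e2)),
      hg.nq_mul (ku _ e1) (ku _ e2), add_neg_eq_zero] at e4
  have rot := fun u hu => cg_rot (b := fun η => L (nq (bb (F.ls n) F' η))) (u := u)
    (fun η k => by rw [bb_neg ok hs sep k, hg.nq_inv (ku η k)]) hu
  rw [key 1 (one_pow 4), key _ i4, (rot a c1).1, (rot a c1).2, (rot a' c2).1, (rot a' c2).2, hz,
    star_add, Zsqrtd.re_add, Zsqrtd.im_add, add_smul, add_smul, add_smul, add_smul]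
  constructor <;> abel

theorem lk_of {D : ℤ} (h1 : QF.Gch (2 * D) φ) (per : Per (8 * D.natAbs) φ)
    (h8 : ∀ (p : ℕ) [Fact p.Prime] (z : G) (ρ : G →+* ZMod p) (χ : MulChar (ZMod p) G),
      QF.Qc p z ρ χ → ¬ (p : ℤ) ∣ D → φ z = star (χ D)) (ht : t.N = D) :
    Lk t (8 * D.natAbs) φ := by
  subst ht
  have hM : 0 < 8 * t.N.natAbs := mul_pos (by norm_num) (Int.natAbs_pos.2 t.ne)
  exact ⟨hM, per, fun g hg => link_phi t.ne h1 hM per h8 t.pw hg⟩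

theorem exists_tw {D : ℤ} (hD : D ≠ 0) : ∃ t : Tw, t.N = D := by
  obtain ⟨ρ, h⟩ := IsAlgClosed.exists_pow_nat_eq (D : Qb) (n := 4) (by norm_num)
  exact ⟨⟨ρ, D, hD, h⟩, rfl⟩

theorem log_kl {z : ℂ} : Real.log ‖kl z‖ = if z ∈ LG.lattice then 0 else
    Real.log ‖Shared.Weier.sig LG z‖ - (z * eta LG z).re / 2 := by
  split_ifs with h
  · simp [kl, sig_eq_zero_iff.2 h]
  rw [kl, norm_mul, Real.log_mul (norm_ne_zero_iff.2 (sig_ne h))
    (norm_ne_zero_iff.2 (exp_ne_zero _)), norm_exp, Real.log_exp, neg_re, div_ofNat_re, mul_comm z]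
  rfl

/-- The Green function as a sum over the complex roots of unity. -/
theorem Gr_roots (p q : ℂ) : Gr p q = ∑ ζ ∈ Polynomial.nthRootsFinset 4 (1 : ℂ),
    (starRingEnd ℂ) ζ * (Real.log ‖kl (ζ * p - q)‖ : ℝ) := by
  refine sum_bij (fun k _ => ((ip k : G) : ℂ)) (fun k _ => ?_) (fun a _ b _ e => ?_)
    (fun ζ h => ?_) fun k _ => ?_
  · rw [Polynomial.mem_nthRootsFinset (by norm_num), ← map_pow, QF.ip_four, map_one]
  · exact QF.ip_inj a b (GaussianInt.toComplex_inj.1 e)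
  · rw [Polynomial.mem_nthRootsFinset (by norm_num)] at h
    rcases QF.f1_roots I_mul_I h with rfl | rfl | rfl | rfl
    · exact ⟨0, mem_univ _, by simp [QF.ip_zero]⟩
    · exact ⟨2, mem_univ _, by rw [show ip 2 = -1 by decide]; simp⟩
    · exact ⟨1, mem_univ _, by
        rw [show ip 1 = ⟨0, 1⟩ by decide, GaussianInt.toComplex_def']; simp⟩
    · exact ⟨3, mem_univ _, by
        rw [show ip 3 = ⟨0, -1⟩ by decide, GaussianInt.toComplex_def']; simp⟩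
  · rw [GaussianInt.toComplex_star]

/-- A point of infinite order. -/
theorem exists_inf (hL : Lk t M φ) (ok : F.Ok d) (hN : 0 < N)
    (st : F.Stable N fun a => φ a * eb a)
    (h : ¬ ∃ n : ℕ, 0 < n ∧ (n : ℂ) * ∑ j, F.z j ∈ LG.lattice) :
    ∃ P : (Q4.ED t.N).toAffine.Point, ¬ IsOfFinAddOrder P := by
  by_contra k
  push Not at k
  obtain ⟨n, n0, e⟩ := exists_ls hL ok hN st
    (tors_of t fun P => isOfFinAddOrder_iff_nsmul_eq_zero.1 (k P))
  exact h ⟨n, n0, (tors_iff ok n).1 (ls_sum F n ▸ e)⟩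

end Pool.Agent.Lib.MP_696deb_nt.Y2
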