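import Pool.Agent.Lib.MP_696deb_nt.Y2.M0
import Pool.Agent.Lib.MP_696deb_nt.QA.F8
import Pool.Agent.Lib.MP_696deb_nt.JFun
import Pool.Agent.Lib.MP_696deb_nt.EA.K8

/-! The points with complex multiplication and the coefficients of the kernel: definitions. -/

set_option autoImplicit false

open Finset
open scoped Classical

namespace Pool.Agent.Lib.MP_696deb_nt.Y2

open QF

/-- The matrix of the map `z ↦ α z + β conj z` on the basis `(i, 1)`. -/
def mb (α β : G) : MZ := !![α.re - β.re, β.im - α.im; α.im + β.im, α.re + β.re]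

/-- The weight of an integer matrix. -/
def w0 (g : MZ) : G :=
  if 10 ∣ g 1 0 ∧ g.det % 4 = 1 then om (g 0 0 : ℤ) * ip (-((g 0 0 * g 0 1 : ℤ) : ZMod 4)) else 0

/-- The value of `w` at `Y / k`, zero if this matrix is not integral. -/
noncomputable def sc (w : MZ → G) (k : ℤ) (Y : MZ) : G :=
  if ∀ i j, k ∣ Y i j then w (Y.map (· / k)) else 0

/-- The part at two of the weight. -/
def w2 (a b c d : ZMod 4) : G :=
  if c.val % 2 = 0 ∧ a * d - b * c = 1 then ip (a - 1 - a * b) else 0

/-- The Fourier transform of the part at two. -/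
def wh2 (a b c d : ZMod 4) : G :=
  ∑ p : ZMod 4, ∑ q : ZMod 4, ∑ r : ZMod 4, ∑ s : ZMod 4,
    w2 p q r s * ip (p * d - q * c - r * b + s * a)

/-- The weight after the Fourier transform at two. -/
def wh (Y : MZ) : G :=
  if 5 ∣ Y 1 0 then ep (Y 0 0 : ℤ) * wh2 (Y 0 0 : ℤ) (Y 0 1 : ℤ) (Y 1 0 : ℤ) (Y 1 1 : ℤ) else 0

/-- The matrices that act without changing weights: `10 ∣ c`, `4 ∣ b`, `a = 1` modulo twenty. -/
structure Tri (d : MZ) : Prop where
  c : 10 ∣ d 1 0
  b : 4 ∣ d 0 1
  a : 20 ∣ d 0 0 - 1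

/-- The index at two of the lattices of the first family. -/
def dx (κ : ZMod 4) : ℤ := if κ = 0 ∨ κ = 2 then 1 else 2

/-- The type at two. -/
def g2 (κ : ZMod 4) : MZ := if κ = 2 then 1 else !![1, 0; 5, dx κ]

/-- The matrix that sends infinity to the cusp `-1 / 5`. -/
def g0 : MZ := !![1, 0; -5, 1]

/-- The part at two of the bases of the first family. -/
def hx (κ : ZMod 4) : MZ := g0 * g2 κ

/-- The part at two of the bases of the second family. -/
def hy (κ : ZMod 4) (b : Fin 2) : MZ := g0 * !![1, 2 * ((b : ℕ) : ℤ); 0, 2] * g2 κ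

/-- `S` is an oriented basis `(s₁, s₂)` with `s₁ = i u`, `conj u s₂ = 1` modulo `M`. -/
def IsS (M : ℕ) (u : G) (S : MZ) : Prop :=
  S.det = 1 ∧ ∀ i j, (M : ℤ) ∣ (!![1, 0; 0, u.norm] * S - mb u 0) i j

/-- A chosen basis. -/
noncomputable def bs (M : ℕ) (u : G) : MZ := if h : ∃ S, IsS M u S then h.choose else 1

/-- The residues modulo `M`. -/
def box (M : ℕ) : Finset G := (range M ×ˢ range M).image fun p : ℕ × ℕ => (⟨p.1, p.2⟩ : G)

/-- The reduction modulo `M`. -/
def red (M : ℕ) (u : G) : G := ⟨u.re % M, u.im % M⟩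

/-- The data of a curve `y ^ 2 = x ^ 3 - D x` with `D` not divisible by four. -/
structure Dat where
  κ : ZMod 4
  t : ℤ
  Q : Finset ℕ
  v : ℕ → ℕ
  X : ℕ → G → G
  hQ : ∀ q ∈ Q, q.Prime ∧ q ≠ 2 ∧ IsX q (X q)
  hv : ∀ q ∈ Q, ¬ 4 ∣ v q
  ht : ∏ q ∈ Q, qs q ^ v q = 4 * t + 1
  hK : (t : ZMod 4) = ∑ q ∈ Q, (v q : ZMod 4) * f8k q

namespace Dat

variable (d : Dat)

/-- The coefficient of the curve. -/
def D : ℤ := ck d.κ * (4 * d.t + 1)

/-- The odd level. -/
def N : ℕ := ∏ q ∈ insert 5 d.Q, q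

/-- The modulus of the index set. -/
def M : ℕ := 80 * d.N

/-- The finite part of the Hecke character of the curve. -/
def φ : G → G := fphi d.κ d.t d.X d.Q d.v

/-- The root number. -/
def W : G := ip (e0 d.κ d.t) * ∏ q ∈ d.Q, f8s q * star (d.X q (ii * nu d.κ)) ^ d.v q

/-- The weights; they vanish on the elements that are not prime to `2 N`. -/
def kap (u : G) : G := d.φ u * ep (r5 (star u)) * ep (r5 u) ^ 4

/-- The index set: the units modulo `M`. -/
noncomputable def U : Finset G := (box d.M).filter fun u => IsCoprime u (d.M : G)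

/-- The bases of the first family, as matrices on `(i, 1)`. -/
noncomputable def Bx (u : G) : MZ := hx d.κ * !![1, 0; 0, (d.N : ℤ)] * bs d.M u

/-- The bases of the second family. -/
noncomputable def By (u : G) (b : Fin 2) : MZ := hy d.κ b * !![1, 0; 0, (d.N : ℤ)] * bs d.M u

/-- The points of the first family. -/
noncomputable def tx (u : G) : ℂ := act (d.Bx u) Complex.I

/-- The points of the second family. -/
noncomputable def ty (u : G) (b : Fin 2) : ℂ := act (d.By u b) Complex.I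

/-- The lift of the sum of the points of the first family. -/
noncomputable def pt : ℂ := ∑ u ∈ d.U, (d.kap u : ℂ) * uu (d.tx u)

/-- The weight of the matrix `g` with `g By = Bx (mb α β) / (4 N)`. -/
noncomputable def Phi0 (u u' : G) (b : Fin 2) (α β : G) : G :=
  sc w0 (8 * dx d.κ * d.N ^ 2) (d.Bx u * mb α β * (d.By u' b).adjugate)

/-- The coefficients of the kernel; the quadratic form is `(N α - N β) / (2 (8 N) ^ 2)`. -/
noncomputable def Phi (α β : G) : G :=
  ∑ u ∈ d.U, ∑ u' ∈ d.U, ∑ b : Fin 2, star (d.kap u) * d.kap u' * d.Phi0 u u' b α β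

/-- The transformed weight of the matrix `Y` with `Y By = 2 Bx (mb y 0)`. -/
noncomputable def Psi0 (u u' : G) (b : Fin 2) (y : G) : G :=
  sc wh (dx d.κ * d.N) (d.Bx u * mb y 0 * (d.By u' b).adjugate)

/-- The function that defines the section. -/
noncomputable def Psi (y : G) : G :=
  ∑ u ∈ d.U, ∑ u' ∈ d.U, ∑ b : Fin 2, star (d.kap u) * d.kap u' * d.Psi0 u u' b y

/-- The shape of `Psi` if the root number is minus one. -/
def kap1 (y : G) : G :=
  d.kap y + if d.κ = 0 ∧ (y.re + y.im) % 2 = 0 then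
    ⟨1, 1⟩ * d.kap ⟨(y.re + y.im) / 2, (y.im - y.re) / 2⟩ else 0

end Dat

end Pool.Agent.Lib.MP_696deb_nt.Y2
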