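import Pool.Agent.Lib.MP_696deb_nt.Y2.D0

/-! Matrices and weights. -/

set_option autoImplicit false

namespace Pool.Agent.Lib.MP_696deb_nt.Y2

open QF

/-- The reduction to the modulus four. -/
def d1c4 : ZMod 20 →+* ZMod 4 := ZMod.castHom (by decide) _

/-- The reduction to the modulus five. -/
def d1c5 : ZMod 20 →+* ZMod 5 := ZMod.castHom (by decide) _

theorem d1_om : ∀ m : ZMod 20, om (2 * m + 1) = ip (d1c4 (2 * m + 1) - 1) * ep (d1c5 (2 * m + 1)) := by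
  decide +kernel

theorem d1_four : ∀ x : ZMod 20, om x = 0 ∨ om x ^ 4 = 1 ∧ x ^ 4 - 1 = 0 := by decide +kernel

set_option synthInstance.maxSize 2000 in
theorem w2_left : ∀ a b c d : ZMod 4, c.val % 2 = 0 → a * d - b * c = 1 → ∀ p q r s : ZMod 4,
    w2 (a * p + b * r) (a * q + b * s) (c * p + d * r) (c * q + d * s) = w2 a b c d * w2 p q r s := by
  decide +kernel

set_option synthInstance.maxSize 2000 in
theorem w2_right : ∀ a b c d : ZMod 4, c.val % 2 = 0 → a * d - b * c = 1 → ∀ p q r s : ZMod 4,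
    w2 (p * a + q * c) (p * b + q * d) (r * a + s * c) (r * b + s * d) = w2 a b c d * w2 p q r s := by
  decide +kernel

set_option synthInstance.maxSize 2000 in
theorem d1_xi : ∀ e : ZMod 20, e = 0 ∨ e = 10 → ∀ a b d : ZMod 20, a * d - b * e = 1 →
    om a * ip (-d1c4 (a * b)) = star (xi b d) := by decide +kernel

set_option synthInstance.maxSize 2000 in
theorem wh2_zero : ∀ a b c d : ZMod 4, c.val % 2 = 0 ∨ (a * d - b * c).val % 2 = 1 →
    wh2 a b c d = 0 := by decide +kernel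

theorem ep_mul : ∀ a b : ZMod 5, ep (a * b) = ep a * ep b := by decide

open Finset
open scoped Classical

variable {α β γ δ t : G} {g h Y : MZ} {k : ℤ} {w : MZ → G}

theorem mb_det (α β : G) : (mb α β).det = α.norm - β.norm := by
  simp only [mb, Matrix.det_fin_two_of, Zsqrtd.norm_def]
  ring

theorem mb_mul (α β γ δ : G) :
    mb α β * mb γ δ = mb (α * γ + star β * δ) (β * γ + star α * δ) := by
  ext i j
  fin_cases i <;> fin_cases j <;> simp [mb, Matrix.mul_apply, Fin.sum_univ_two] <;> ring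

theorem mb_adj (α β : G) : (mb α β).adjugate = mb (star α) (-β) := by
  ext i j
  fin_cases i <;> fin_cases j <;> simp [mb, Matrix.adjugate_fin_two] <;> ring

theorem mb_add (α β γ δ : G) : mb (α + γ) (β + δ) = mb α β + mb γ δ := by
  ext i j
  fin_cases i <;> fin_cases j <;> simp [mb] <;> ring

theorem mb_smul (k : ℤ) (α β : G) : mb (k * α) (k * β) = k • mb α β := by
  ext i j
  fin_cases i <;> fin_cases j <;> simp [mb] <;> ring

theorem mb_one : mb 1 0 = 1 := by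
  ext i j
  fin_cases i <;> fin_cases j <;> simp [mb]

theorem mb_inj (h : mb α β = mb γ δ) : α = γ ∧ β = δ := by
  have a := congrFun (congrFun h 0) 0
  have b := congrFun (congrFun h 0) 1
  have c := congrFun (congrFun h 1) 0
  have d := congrFun (congrFun h 1) 1
  simp [mb] at a b c d
  constructor <;> ext <;> omega

theorem mb_surj (Y : MZ) : ∃ α β, mb α β = (2 : ℤ) • Y := 
  ⟨⟨Y 0 0 + Y 1 1, Y 1 0 - Y 0 1⟩, ⟨Y 1 1 - Y 0 0, Y 1 0 + Y 0 1⟩, by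
    ext i j
    fin_cases i <;> fin_cases j <;> simp [mb] <;> ring⟩

theorem sc_smul (hk : k ≠ 0) (g : MZ) : sc w k (k • g) = w g := by
  rw [sc, if_pos (show ∀ i j, k ∣ (k • g) i j from fun i j => dvd_mul_right k (g i j))]
  congr 1
  ext i j
  exact Int.mul_ediv_cancel_left _ hk

theorem sc_ne (h : sc w k Y ≠ 0) : ∃ g, Y = k • g := by
  rw [sc] at h
  split_ifs at h with e
  · exact ⟨Y.map (· / k), by
      ext i j
      exact (Int.mul_ediv_cancel' (e i j)).symm⟩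
  · exact absurd rfl h

theorem sc_scale (hk : k ≠ 0) (j : ℤ) (Y : MZ) : sc w (k * j) (k • Y) = sc w j Y := by
  rw [sc, sc]
  by_cases hj : ∀ a b, j ∣ Y a b
  · rw [if_pos hj, if_pos (show ∀ a b, k * j ∣ (k • Y) a b from
      fun a b => mul_dvd_mul_left k (hj a b))]
    congr 1
    ext a b
    obtain ⟨c, hc⟩ := hj a b
    show k * Y a b / (k * j) = Y a b / j
    by_cases j0 : j = 0
    · simp [j0]
    rw [hc, ← mul_assoc, Int.mul_ediv_cancel_left _ (mul_ne_zero hk j0),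
      Int.mul_ediv_cancel_left _ j0]
  · rw [if_neg hj, if_neg fun e => hj fun a b => (mul_dvd_mul_iff_left hk).1 (e a b)]

theorem d1_smul (h : ∀ i j, k ∣ Y i j) : ∃ g, Y = k • g :=
  ⟨Y.map (· / k), by
    ext i j
    exact (Int.mul_ediv_cancel' (h i j)).symm⟩

theorem sc_mul_left {c : G} (hk : k ≠ 0) (hg : IsCoprime g.det k) (hw : ∀ h, w (g * h) = c * w h) (Y : MZ) :
    sc w k (g * Y) = c * sc w k Y := by
  by_cases e : ∀ i j, k ∣ Y i j
  · obtain ⟨Z, rfl⟩ := d1_smul e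
    rw [Matrix.mul_smul, sc_smul hk, sc_smul hk, hw]
  · rw [sc, sc, if_neg e, mul_zero, if_neg fun d => e fun i j => ?_]
    obtain ⟨Z, hZ⟩ := d1_smul d
    have := congrArg (g.adjugate * ·) hZ
    simp only [← Matrix.mul_assoc, Matrix.adjugate_mul, Matrix.smul_mul, Matrix.one_mul,
      Matrix.mul_smul] at this
    exact hg.symm.dvd_of_dvd_mul_left ⟨_, congrFun (congrFun this i) j⟩

theorem sc_mul_right {c : G} (hk : k ≠ 0) (hg : IsCoprime g.det k) (hw : ∀ h, w (h * g) = c * w h) (Y : MZ) :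
    sc w k (Y * g) = c * sc w k Y := by
  by_cases e : ∀ i j, k ∣ Y i j
  · obtain ⟨Z, rfl⟩ := d1_smul e
    rw [Matrix.smul_mul, sc_smul hk, sc_smul hk, hw]
  · rw [sc, sc, if_neg e, mul_zero, if_neg fun d => e fun i j => ?_]
    obtain ⟨Z, hZ⟩ := d1_smul d
    have := congrArg (· * g.adjugate) hZ
    simp only [Matrix.mul_assoc, Matrix.mul_adjugate, Matrix.smul_mul, Matrix.mul_one,
      Matrix.mul_smul] at this
    exact hg.symm.dvd_of_dvd_mul_left ⟨_, congrFun (congrFun this i) j⟩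

theorem om_eq (a : ℤ) (h : a % 2 = 1) : om a = ip ((a : ZMod 4) - 1) * ep a := by
  obtain ⟨m, rfl⟩ : ∃ m, a = 2 * m + 1 := ⟨a / 2, by omega⟩
  have := d1_om m
  rwa [show 2 * (m : ZMod 20) + 1 = (2 * m + 1 : ℤ) by push_cast; rfl, map_intCast,
    map_intCast] at this

theorem d1_even (c : ℤ) : (c : ZMod 4).val % 2 = 0 ↔ 2 ∣ c := by
  have := ZMod.val_intCast (n := 4) c
  omega

theorem d1_det (g : MZ) : ((g 0 0 : ℤ) : ZMod 4) * (g 1 1 : ℤ) - (g 0 1 : ℤ) * (g 1 0 : ℤ) = 1 ↔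
    g.det % 4 = 1 := by
  rw [Matrix.det_fin_two, ← Int.cast_mul, ← Int.cast_mul, ← Int.cast_sub, ← Int.cast_one,
    ZMod.intCast_eq_intCast_iff']
  rfl

theorem d1_odd (hc : 2 ∣ g 1 0) (hd : g.det % 4 = 1) : g 0 0 % 2 = 1 ∧ g 1 1 % 2 = 1 := by
  rw [Matrix.det_fin_two] at hd
  have := hc.mul_left (g 0 1)
  constructor <;> by_contra e
  · have := Dvd.dvd.mul_right (show 2 ∣ g 0 0 by omega) (g 1 1)
    omega
  · have := Dvd.dvd.mul_left (show 2 ∣ g 1 1 by omega) (g 0 0)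
    omega

theorem w0_eq (g : MZ) : w0 g = (if 5 ∣ g 1 0 then ep (g 0 0 : ℤ) else 0) *
    w2 (g 0 0 : ℤ) (g 0 1 : ℤ) (g 1 0 : ℤ) (g 1 1 : ℤ) := by
  rw [w0, w2]
  simp only [d1_even, d1_det]
  by_cases h : 10 ∣ g 1 0 ∧ g.det % 4 = 1
  · rw [if_pos h, if_pos (by omega), if_pos ⟨by omega, h.2⟩,
      om_eq _ (d1_odd (by omega) h.2).1, sub_eq_add_neg (_ - 1), ip_add, Int.cast_mul]
    ring
  · rw [if_neg h]
    split_ifs with h1 h2
    · exact absurd ⟨by omega, h2.2⟩ h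
    all_goals simp

theorem w0_bd (g : MZ) : w0 g = 0 ∨ w0 g ^ 4 = 1 := by
  rw [w0]
  split_ifs
  · refine (d1_four (g 0 0 : ℤ)).imp (fun e => ?_) fun e => ?_
    · rw [e, zero_mul]
    · rw [mul_pow, e.1, ip_four, one_mul]
  · exact .inl rfl

theorem w0_ne (h : w0 g ≠ 0) : 10 ∣ g 1 0 ∧ g.det % 4 = 1 ∧ IsCoprime (g 0 0) 10 := by
  rw [w0] at h
  split_ifs at h with e
  · refine ⟨e.1, e.2, ?_⟩
    obtain ⟨m, hm⟩ := (ZMod.intCast_zmod_eq_zero_iff_dvd (g 0 0 ^ 4 - 1) 20).1 (by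
      push_cast
      exact ((d1_four _).resolve_left (left_ne_zero_of_mul h)).2)
    exact ⟨g 0 0 ^ 3, -2 * m, by push_cast at hm; linear_combination hm⟩
  · exact absurd rfl h

theorem w0_neg (g : MZ) : w0 (-g) = w0 g := by
  simp [w0, Matrix.det_neg, om_neg]

theorem w0_per (g h : MZ) (h0 : 20 ∣ h 0 0) (h1 : 4 ∣ h 0 1) (h2 : 20 ∣ h 1 0) (h3 : 4 ∣ h 1 1) :
    w0 (g + h) = w0 g := by
  obtain ⟨a, h0⟩ := h0
  obtain ⟨b, h1⟩ := h1
  obtain ⟨c, h2⟩ := h2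
  obtain ⟨d, h3⟩ := h3
  have e4 : (4 : ZMod 4) = 0 := rfl
  have e5 : (20 : ZMod 4) = 0 := rfl
  have e6 : (20 : ZMod 5) = 0 := rfl
  have e7 : 5 ∣ g 1 0 + 20 * c ↔ 5 ∣ g 1 0 := by omega
  simp [w0_eq, h0, h1, h2, h3, e4, e5, e6, e7]

theorem d1_five (hc : 10 ∣ g 1 0) (h5 : ¬ 5 ∣ g.det) (h : MZ) :
    ((if 5 ∣ (g * h) 1 0 then ep ((g * h) 0 0 : ℤ) else 0) =
      ep (g 0 0 : ℤ) * if 5 ∣ h 1 0 then ep (h 0 0 : ℤ) else 0) ∧
    ((if 5 ∣ (h * g) 1 0 then ep ((h * g) 0 0 : ℤ) else 0) =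
      ep (g 0 0 : ℤ) * if 5 ∣ h 1 0 then ep (h 0 0 : ℤ) else 0) := by
  have c5 : 5 ∣ g 1 0 := by omega
  have p5 : Prime (5 : ℤ) := Int.prime_iff_natAbs_prime.2 Nat.prime_five
  have z : ∀ x : ℤ, 5 ∣ x → (x : ZMod 5) = 0 := fun x => (ZMod.intCast_zmod_eq_zero_iff_dvd x 5).2
  rw [Matrix.det_fin_two] at h5
  have n0 : ¬ 5 ∣ g 0 0 := fun e => h5 ((e.mul_right _).sub (c5.mul_left _))
  have n1 : ¬ 5 ∣ g 1 1 := fun e => h5 ((e.mul_left _).sub (c5.mul_left _))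
  simp only [Matrix.mul_apply, Fin.sum_univ_two, dvd_add_right (c5.mul_right _),
    dvd_add_left (c5.mul_left _), p5.dvd_mul, n0, n1, false_or, or_false, Int.cast_add,
    Int.cast_mul, z _ c5, mul_zero, add_zero]
  constructor <;> split_ifs with e
  · rw [z _ e, mul_zero, add_zero, ep_mul]
  · rw [mul_zero]
  · rw [ep_mul, mul_comm]
  · rw [mul_zero]

theorem wh_eq (Y : MZ) : wh Y = (if 5 ∣ Y 1 0 then ep (Y 0 0 : ℤ) else 0) *
    wh2 (Y 0 0 : ℤ) (Y 0 1 : ℤ) (Y 1 0 : ℤ) (Y 1 1 : ℤ) := by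
  rw [wh, ite_mul, zero_mul]

theorem wh2_sum (a b c d : ZMod 4) : wh2 a b c d = ∑ x : ZMod 4 × ZMod 4 × ZMod 4 × ZMod 4,
    w2 x.1 x.2.1 x.2.2.1 x.2.2.2 * ip (x.1 * d - x.2.1 * c - x.2.2.1 * b + x.2.2.2 * a) := by
  simp only [wh2, Fintype.sum_prod_type]

theorem wh2_left {a b c d : ZMod 4} (h1 : c.val % 2 = 0) (h2 : a * d - b * c = 1)
    (p q r s : ZMod 4) : wh2 (a * p + b * r) (a * q + b * s) (c * p + d * r) (c * q + d * s) =
      w2 a b c d * wh2 p q r s := by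
  have k : Function.Bijective fun x : ZMod 4 × ZMod 4 × ZMod 4 × ZMod 4 =>
      (a * x.1 + b * x.2.2.1, a * x.2.1 + b * x.2.2.2, c * x.1 + d * x.2.2.1,
        c * x.2.1 + d * x.2.2.2) := Finite.injective_iff_bijective.1 fun x y e => by
    simp only [Prod.mk.injEq] at e
    obtain ⟨e1, e2, e3, e4⟩ := e
    refine Prod.ext ?_ (Prod.ext ?_ (Prod.ext ?_ ?_))
    · linear_combination d * e1 - b * e3 - (x.1 - y.1) * h2
    · linear_combination d * e2 - b * e4 - (x.2.1 - y.2.1) * h2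
    · linear_combination a * e3 - c * e1 - (x.2.2.1 - y.2.2.1) * h2
    · linear_combination a * e4 - c * e2 - (x.2.2.2 - y.2.2.2) * h2
  rw [wh2_sum, wh2_sum, mul_sum, ← k.sum_comp]
  refine sum_congr rfl fun x _ => ?_
  rw [w2_left a b c d h1 h2, mul_assoc]
  congr 3
  linear_combination (x.1 * s - x.2.1 * r - x.2.2.1 * q + x.2.2.2 * p) * h2

theorem wh2_right {a b c d : ZMod 4} (h1 : c.val % 2 = 0) (h2 : a * d - b * c = 1)
    (p q r s : ZMod 4) : wh2 (p * a + q * c) (p * b + q * d) (r * a + s * c) (r * b + s * d) =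
      w2 a b c d * wh2 p q r s := by
  have k : Function.Bijective fun x : ZMod 4 × ZMod 4 × ZMod 4 × ZMod 4 =>
      (x.1 * a + x.2.1 * c, x.1 * b + x.2.1 * d, x.2.2.1 * a + x.2.2.2 * c,
        x.2.2.1 * b + x.2.2.2 * d) := Finite.injective_iff_bijective.1 fun x y e => by
    simp only [Prod.mk.injEq] at e
    obtain ⟨e1, e2, e3, e4⟩ := e
    refine Prod.ext ?_ (Prod.ext ?_ (Prod.ext ?_ ?_))
    · linear_combination d * e1 - c * e2 - (x.1 - y.1) * h2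
    · linear_combination a * e2 - b * e1 - (x.2.1 - y.2.1) * h2
    · linear_combination d * e3 - c * e4 - (x.2.2.1 - y.2.2.1) * h2
    · linear_combination a * e4 - b * e3 - (x.2.2.2 - y.2.2.2) * h2
  rw [wh2_sum, wh2_sum, mul_sum, ← k.sum_comp]
  refine sum_congr rfl fun x _ => ?_
  rw [w2_right a b c d h1 h2, mul_assoc]
  congr 3
  linear_combination (x.1 * s - x.2.1 * r - x.2.2.1 * q + x.2.2.2 * p) * h2

theorem w0_mul_left (hc : 10 ∣ g 1 0) (hd : g.det % 4 = 1) (h5 : ¬ 5 ∣ g.det) (h : MZ) :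
    w0 (g * h) = w0 g * w0 h := by
  rw [w0_eq, w0_eq h, w0_eq g, (d1_five hc h5 h).1, if_pos (show 5 ∣ g 1 0 by omega),
    mul_mul_mul_comm, ← w2_left _ _ _ _ ((d1_even _).2 (by omega)) ((d1_det g).2 hd)]
  simp only [Matrix.mul_apply, Fin.sum_univ_two, Int.cast_add, Int.cast_mul]

theorem w0_mul_right (hc : 10 ∣ g 1 0) (hd : g.det % 4 = 1) (h5 : ¬ 5 ∣ g.det) (h : MZ) :
    w0 (h * g) = w0 g * w0 h := by
  rw [w0_eq, w0_eq h, w0_eq g, (d1_five hc h5 h).2, if_pos (show 5 ∣ g 1 0 by omega),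
    mul_mul_mul_comm, ← w2_right _ _ _ _ ((d1_even _).2 (by omega)) ((d1_det g).2 hd)]
  simp only [Matrix.mul_apply, Fin.sum_univ_two, Int.cast_add, Int.cast_mul]

theorem wh_mul_left (hc : 10 ∣ g 1 0) (hd : g.det % 4 = 1) (h5 : ¬ 5 ∣ g.det) (h : MZ) :
    wh (g * h) = w0 g * wh h := by
  rw [wh_eq, wh_eq h, w0_eq g, (d1_five hc h5 h).1, if_pos (show 5 ∣ g 1 0 by omega),
    mul_mul_mul_comm, ← wh2_left ((d1_even _).2 (by omega)) ((d1_det g).2 hd)]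
  simp only [Matrix.mul_apply, Fin.sum_univ_two, Int.cast_add, Int.cast_mul]

theorem wh_mul_right (hc : 10 ∣ g 1 0) (hd : g.det % 4 = 1) (h5 : ¬ 5 ∣ g.det) (h : MZ) :
    wh (h * g) = w0 g * wh h := by
  rw [wh_eq, wh_eq h, w0_eq g, (d1_five hc h5 h).2, if_pos (show 5 ∣ g 1 0 by omega),
    mul_mul_mul_comm, ← wh2_right ((d1_even _).2 (by omega)) ((d1_det g).2 hd)]
  simp only [Matrix.mul_apply, Fin.sum_univ_two, Int.cast_add, Int.cast_mul]

theorem w0_gamma {a b c d : ℤ} (hd : a * d - b * (10 * c) = 1) :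
    w0 !![a, b; 10 * c, d] = star (xi b d) := by
  rw [w0, if_pos ⟨by simp, by simp [hd]⟩,
    ← d1_xi (10 * c) ((by decide : ∀ c : ZMod 20, 10 * c = 0 ∨ 10 * c = 10) _) a b d (by
      exact_mod_cast congrArg (Int.cast : ℤ → ZMod 20) hd), ← Int.cast_mul, map_intCast]
  rfl

theorem w0_ut {a d : ℤ} (k : ℤ) (h : (a * d) % 4 = 1) : w0 !![a, 4 * k; 0, d] = om a := by
  rw [w0, if_pos ⟨by simp, by simpa using h⟩]
  simp [show (4 : ZMod 4) = 0 from rfl, ip_zero]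

theorem Tri.w0 (h : Tri g) (hd : g.det % 4 = 1) : w0 g = 1 := by
  obtain ⟨b, hb⟩ := h.b
  rw [Y2.w0, if_pos ⟨h.c, hd⟩, hb, ((ZMod.intCast_eq_intCast_iff_dvd_sub 1 (g 0 0) 20).2 h.a).symm]
  simp [show (4 : ZMod 4) = 0 from rfl, ip_zero, om_one]

theorem Tri.w0_adj (h : Tri g) (hd : g.det % 4 = 1) : Y2.w0 g.adjugate = ep (g.det : ℤ) := by
  obtain ⟨b, hb⟩ := h.b
  obtain ⟨a, ha⟩ := h.a
  obtain ⟨c, hc⟩ := h.c
  have e : g.det = g 1 1 + 20 * (a * g 1 1 - 2 * b * c) := by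
    rw [Matrix.det_fin_two, hb, hc, eq_add_of_sub_eq ha]
    ring
  rw [Y2.w0, if_pos ⟨by simp [Matrix.adjugate_fin_two, hc], by simpa [Matrix.det_adjugate] using hd⟩]
  have e1 : ((g 1 1 : ℤ) : ZMod 4) = (1 : ℤ) :=
    (ZMod.intCast_eq_intCast_iff_dvd_sub _ _ 4).2 (by omega)
  have e2 : ((g 1 1 : ℤ) : ZMod 5) = (g.det : ℤ) :=
    (ZMod.intCast_eq_intCast_iff_dvd_sub _ _ 5).2 (by omega)
  simp [Matrix.adjugate_fin_two, om_eq (g 1 1) (by omega), hb, e1, e2, ip_zero,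
    show (4 : ZMod 4) = 0 from rfl]

theorem r5_mul (α β : G) : r5 (α * β) = r5 α * r5 β := by
  simp only [r5, Zsqrtd.re_mul, Zsqrtd.im_mul]
  push_cast
  linear_combination (-2 * (α.im : ZMod 5) * β.im) * (by decide : (5 : ZMod 5) = 0)

theorem r5_add (α β : G) : r5 (α + β) = r5 α + r5 β := by
  simp only [r5, Zsqrtd.re_add, Zsqrtd.im_add]
  push_cast
  ring

theorem r5_int (k : ℤ) : r5 k = k := by simp [r5]

theorem d1_cop {m t c : ℤ} (hm : m ≠ 0)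
    (h : ∀ l : ℕ, l.Prime → (l : ℤ) ∣ m → (l : ℤ) ∣ t → ¬ (l : ℤ) ∣ c) :
    ∃ j : ℤ, IsCoprime m (t + c * j) := by
  refine ⟨∏ l ∈ m.natAbs.primeFactors.filter (fun l : ℕ => ¬ (l : ℤ) ∣ t), (l : ℤ), ?_⟩
  rw [Int.isCoprime_iff_nat_coprime]
  refine Nat.coprime_of_dvd fun l hl h1 h2 => ?_
  rw [← Int.natCast_dvd] at h1 h2
  have hp := Nat.prime_iff_prime_int.1 hl
  by_cases ht : (l : ℤ) ∣ t
  · rcases hp.dvd_or_dvd ((dvd_add_right ht).1 h2) with h4 | h4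
    · exact h l hl h1 ht h4
    · obtain ⟨l', hl', h5⟩ := (Prime.dvd_finsetProd_iff hp _).1 h4
      rw [mem_filter, Nat.mem_primeFactors] at hl'
      have := (Nat.prime_dvd_prime_iff_eq hl hl'.1.1).1 (Int.natCast_dvd_natCast.1 h5)
      exact hl'.2 (this ▸ ht)
  · exact ht ((dvd_add_left (Dvd.dvd.mul_left (dvd_prod_of_mem _ (mem_filter.2
      ⟨Nat.mem_primeFactors.2 ⟨hl, Int.natCast_dvd.1 h1, Int.natAbs_ne_zero.2 hm⟩, ht⟩)) c)).1 h2)

theorem d1_sl {M : MZ} {n : ℤ} (hn : n ≠ 0) (h : n ∣ M.det - 1) :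
    ∃ σ : MZ, σ.det = 1 ∧ ∀ i j, n ∣ σ i j - M i j := by
  rw [Matrix.det_fin_two] at h
  obtain ⟨c, c0, e, hc⟩ : ∃ c : ℤ, c ≠ 0 ∧ ∃ e, c = M 1 0 + n * e := by
    by_cases h0 : M 1 0 = 0
    · exact ⟨n, hn, 1, by simp [h0]⟩
    · exact ⟨M 1 0, h0, 0, by simp⟩
  obtain ⟨j, u, v, huv⟩ := d1_cop (t := M 1 1) (c := n) c0 fun l hl h1 h2 h3 => by
    have h4 : (l : ℤ) ∣ M 1 0 := (dvd_add_left (h3.mul_right e)).1 (hc ▸ h1)
    have h5 := (dvd_sub (h2.mul_left (M 0 0)) (h4.mul_left (M 0 1))).sub (h3.trans h)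
    rw [sub_sub_cancel] at h5
    exact (Nat.prime_iff_prime_int.1 hl).not_dvd_one h5
  obtain ⟨f, hf⟩ := h
  subst hc
  refine ⟨!![v + (u * M 0 0 + v * M 0 1) * (M 1 0 + n * e),
    -u + (u * M 0 0 + v * M 0 1) * (M 1 1 + n * j); M 1 0 + n * e, M 1 1 + n * j], ?_,
    fun i j' => ?_⟩
  · rw [Matrix.det_fin_two_of]
    linear_combination huv
  · fin_cases i <;> fin_cases j'
    · exact ⟨-v * (f + M 0 0 * j - M 0 1 * e), by
        simp
        linear_combination M 0 0 * huv - v * hf⟩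
    · exact ⟨u * (f + M 0 0 * j - M 0 1 * e), by
        simp
        linear_combination M 0 1 * huv + u * hf⟩
    · simp
    · simp

theorem exists_isS {M : ℕ} (hM : 0 < M) {u : G} (h : IsCoprime u (M : G)) : ∃ S, IsS M u S := by
  obtain ⟨a, b, e⟩ := h
  have k : (M : ℤ) ∣ a.norm * u.norm - 1 := by
    rw [← Zsqrtd.norm_mul, eq_sub_of_add_eq e]
    exact ⟨-2 * b.re + M * b.norm, by simp [Zsqrtd.norm_def]; ring⟩
  obtain ⟨S, h1, h2⟩ := d1_sl (M := !![1, 0; 0, a.norm] * mb u 0) (n := M) (by omega) (by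
    rwa [Matrix.det_mul, mb_det, Matrix.det_fin_two_of, Zsqrtd.norm_zero, sub_zero, mul_zero,
      sub_zero, one_mul])
  refine ⟨S, h1, fun i j => ?_⟩
  have r : ∀ (x : ℤ) (Y : MZ), (!![1, 0; 0, x] * Y) 0 j = Y 0 j ∧
      (!![1, 0; 0, x] * Y) 1 j = x * Y 1 j := fun x Y => by
    rw [Matrix.mul_apply, Matrix.mul_apply, Fin.sum_univ_two, Fin.sum_univ_two]
    simp
  revert i
  rw [Fin.forall_fin_two, Matrix.sub_apply, Matrix.sub_apply, (r _ _).1, (r _ _).2]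
  have h0 := h2 0 j
  obtain ⟨m, hm⟩ := ((h2 1 j).mul_left u.norm).add (k.mul_right (mb u 0 1 j))
  rw [(r _ _).1] at h0
  rw [(r _ _).2] at hm
  exact ⟨h0, m, by linear_combination hm⟩

theorem bs_spec {M : ℕ} (hM : 0 < M) {u : G} (h : IsCoprime u (M : G)) : IsS M u (bs M u) := by
  rw [bs, dif_pos (exists_isS hM h)]
  exact (exists_isS hM h).choose_spec

theorem red_mem {M : ℕ} (hM : 0 < M) (u : G) : red M u ∈ box M := by
  have m0 : (0 : ℤ) < M := by exact_mod_cast hM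
  refine mem_image.2 ⟨((u.re % M).toNat, (u.im % M).toNat), mem_product.2
    ⟨mem_range.2 ((Int.toNat_lt' hM).2 (Int.emod_lt_of_pos _ m0)),
      mem_range.2 ((Int.toNat_lt' hM).2 (Int.emod_lt_of_pos _ m0))⟩, ?_⟩
  simp only [red, Int.toNat_of_nonneg (Int.emod_nonneg _ m0.ne')]

theorem red_dvd (M : ℕ) (u : G) : (M : G) ∣ red M u - u := 
  ⟨⟨-(u.re / M), -(u.im / M)⟩, by ext <;> simp [red, Int.emod_def]⟩

theorem box_rep {M : ℕ} (hM : 0 < M) : EA.IsRep M (box M) := EA.isRep_box hM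

end Pool.Agent.Lib.MP_696deb_nt.Y2
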