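import Pool.Agent.Lib.MP_696deb_nt.Y2.D2a

/-! The two families of bases are stable. -/

set_option autoImplicit false

open Finset
open scoped Classical

namespace Pool.Agent.Lib.MP_696deb_nt.Y2

open QF

namespace Dat

variable (d : Dat) {u u' t α β y : G} {b : Fin 2}

theorem N_prime {q : ℕ} (h : q ∈ insert 5 d.Q) : q.Prime ∧ q ≠ 2 := by
  rcases mem_insert.1 h with rfl | h
  exacts [⟨Nat.prime_five, by norm_num⟩, ⟨(d.hQ q h).1, (d.hQ q h).2.1⟩]

theorem N_pos : 0 < d.N := prod_pos fun _ h => (d.N_prime h).1.pos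

theorem N_odd : Odd d.N := prod_induction _ Odd (fun _ _ => Odd.mul) odd_one
  fun _ h => (d.N_prime h).1.odd_of_ne_two (d.N_prime h).2

theorem five_dvd : 5 ∣ d.N := dvd_prod_of_mem (fun q => q) (mem_insert_self _ _)

theorem dvd_N {q : ℕ} (h : q ∈ d.Q) : q ∣ d.N := dvd_prod_of_mem (fun q => q) (mem_insert_of_mem h)

theorem prime_dvd_N {p : ℕ} (hp : p.Prime) : p ∣ d.N ↔ p = 5 ∨ p ∈ d.Q := by
  refine ⟨fun h => ?_, fun h => dvd_prod_of_mem (fun q => q) (mem_insert.2 h)⟩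
  obtain ⟨q, hq, e⟩ := hp.prime.exists_mem_finset_dvd h
  exact mem_insert.1 (((Nat.prime_dvd_prime_iff_eq hp (d.N_prime hq).1).1 e) ▸ hq)

theorem N_sqfree : Squarefree d.N :=
  Finset.squarefree_prod_of_pairwise_isCoprime (fun _ hp _ hq e => Nat.coprime_iff_isRelPrime.1
    ((Nat.coprime_primes (d.N_prime hp).1 (d.N_prime hq).1).2 e))
    fun _ h => (d.N_prime h).1.prime.squarefree

theorem M_pos : 0 < d.M := Nat.mul_pos (by norm_num) d.N_pos

theorem N_ne : (d.N : ℤ) ≠ 0 := by exact_mod_cast d.N_pos.ne'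

theorem cop_iff : IsCoprime u (d.M : G) ↔
    ¬ 2 ∣ u.norm ∧ ¬ 5 ∣ u.norm ∧ ∀ q ∈ d.Q, ¬ (q : ℤ) ∣ u.norm := by
  rw [cop_norm]
  have k : ∀ p : ℕ, p.Prime → p ∣ d.M → IsCoprime u.norm (d.M : ℤ) → ¬ (p : ℤ) ∣ u.norm :=
    fun p hp h1 h h2 => (Nat.prime_iff_prime_int.1 hp).not_isUnit
      (h.isUnit_of_dvd' h2 (Int.natCast_dvd_natCast.2 h1))
  refine ⟨fun h => ⟨k 2 Nat.prime_two (Dvd.dvd.mul_right (by norm_num) _) h,
    k 5 Nat.prime_five (Dvd.dvd.mul_right (by norm_num) _) h,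
    fun q hq => k q (d.hQ q hq).1 ((d.dvd_N hq).mul_left _) h⟩, fun ⟨h2, h5, h⟩ => ?_⟩
  refine Int.isCoprime_iff_gcd_eq_one.2 (Nat.coprime_of_dvd fun p hp h1 h3 => ?_)
  have h4 := Int.natCast_dvd.2 h1
  rcases (Nat.Prime.dvd_mul hp).1 h3 with e | e
  · rcases (Nat.Prime.dvd_mul (m := 2 ^ 4) (n := 5) hp).1 e with e | e
    · obtain rfl := (Nat.prime_dvd_prime_iff_eq hp Nat.prime_two).1 (hp.dvd_of_dvd_pow e)
      exact h2 h4
    · obtain rfl := (Nat.prime_dvd_prime_iff_eq hp Nat.prime_five).1 e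
      exact h5 h4
  · rcases (d.prime_dvd_N hp).1 e with rfl | e
    exacts [h5 h4, h p e h4]

theorem r5_ne (h : IsCoprime u (d.M : G)) : r5 u ≠ 0 ∧ r5 (star u) ≠ 0 := by
  refine (by decide : ∀ a b : ZMod 5, a * b ≠ 0 → a ≠ 0 ∧ b ≠ 0) _ _ fun e => (d.cop_iff.1 h).2.1 ?_
  exact (ZMod.intCast_zmod_eq_zero_iff_dvd _ 5).1 ((norm_five u).trans e)

theorem norm_mod (h : IsCoprime u (d.M : G)) : u.norm % 4 = 1 := norm_odd (d.cop_iff.1 h).1

theorem φ_mul (α β : G) : d.φ (α * β) = d.φ α * d.φ β := fphi_mul _ _ d.hQ α β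

theorem φ_conj (α : G) : d.φ (star α) = star (d.φ α) := by
  rw [φ, fphi, fphi, star_mul', star_prod, ph2_conj,
    prod_congr rfl fun q h => by rw [(d.hQ q h).2.2.conj, ← star_pow]]

theorem prod_ip (c : ZMod 4) : ∏ q ∈ d.Q, star (ip (c * f8k q)) ^ d.v q = ip (-(c * d.t)) := by
  rw [prod_congr rfl fun q _ => f8_ipow _ _, f8_ip, d.hK, mul_sum]
  congr 2
  exact sum_congr rfl fun q _ => by ring

theorem φ_ii : d.φ ii * ii = 1 := by
  rw [φ, fphi, ph2_ii, prod_congr rfl fun q h => by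
    rw [(d.hQ q h).2.2.at_ii (d.hQ q h).1 (d.hQ q h).2.1], prod_ip]
  exact (by decide : ∀ K : ZMod 4, ip (2 * K - 1) * ip (-(2 * K)) * ii = 1) _

theorem kap_mul (α β : G) : d.kap (α * β) = d.kap α * d.kap β := by
  rw [kap, kap, kap, φ_mul, star_mul', r5_mul, r5_mul, ep_mul, ep_mul]
  ring

theorem φ_per : Per (8 * d.N) d.φ := f8_per (fphi_per _ _ d.hQ) (Nat.mul_dvd_mul_left 8
  (prod_dvd_prod_of_subset _ _ _ (subset_insert _ _)))

theorem kap_per : Per (8 * d.N) d.kap := fun α γ => by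
  obtain ⟨c, hc⟩ := d.five_dvd
  have k : ∀ α γ : G, r5 (α + (8 * d.N : ℕ) * γ) = r5 α := fun α γ => by
    rw [r5_add, r5_mul, ← Int.cast_natCast, r5_int, (ZMod.intCast_zmod_eq_zero_iff_dvd _ 5).2
      ⟨8 * c, by rw [hc]; push_cast; ring⟩, zero_mul, add_zero]
  rw [kap, kap, d.φ_per, k, star_add, star_mul', star_natCast, k]

theorem kap_unit (h : IsCoprime u (d.M : G)) : d.kap u = d.φ u * ep (r5 (star u)) := by
  rw [kap, (by decide : ∀ r : ZMod 5, r ≠ 0 → ep r ^ 4 = 1) _ (d.r5_ne h).1, mul_one]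

theorem kap_int {k : ℤ} (h : IsCoprime k (d.M : ℤ)) : d.kap k = om k := by
  have h1 : IsCoprime (k : G) (d.M : G) := by simpa using h.map (Int.castRingHom G)
  have h2 := d.cop_iff.1 h1
  rw [Zsqrtd.norm_intCast] at h2
  have h3 : k % 2 = 1 := by
    have : ¬ 2 ∣ k := fun e => h2.1 (e.mul_left _)
    omega
  rw [d.kap_unit h1, om_eq k h3, star_intCast, r5_int, φ, fphi, prod_eq_one fun q hq => by
    rw [(d.hQ q hq).2.2.int k fun e => h2.2.2 q hq (e.mul_left _), star_one, one_pow], mul_one]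
  congr 1
  have k1 : ∀ (κ K : ZMod 4) (x : ZMod 8), x.val % 2 = 1 → ph8 κ K x 0 = ip ((x.val : ZMod 4) - 1) := by
    decide +kernel
  have k2 : (((k : ZMod 8).val : ℕ) : ℤ) = k % 8 := ZMod.val_intCast _
  rw [ph2, Zsqrtd.re_intCast, Zsqrtd.im_intCast, Int.cast_zero, k1 _ _ _ (by omega),
    ← Int.cast_natCast, k2, (ZMod.intCast_eq_intCast_iff' _ k 4).2 (by omega)]

theorem kap_one : d.kap 1 = 1 := by
  simpa [om_one] using d.kap_int (k := 1) isCoprime_one_left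

theorem kap_ii : d.kap ii = 1 := by
  rw [kap, mul_assoc, show ep (r5 (star ii)) * ep (r5 ii) ^ 4 = ii by decide, φ_ii]

theorem φ_four (h : IsCoprime u (d.M : G)) : d.φ u ^ 4 = 1 := by
  obtain ⟨h2, -, h3⟩ := d.cop_iff.1 h
  rw [φ, fphi, mul_pow, ← prod_pow, prod_eq_one fun q hq => by
    rw [← pow_mul, mul_comm, pow_mul, ← star_pow, (d.hQ q hq).2.2.four u (h3 q hq), star_one, one_pow],
    mul_one, ph2, ph8, if_neg, ip_four]
  have k2 : (((u.re + u.im : ℤ) : ZMod 8).val : ℤ) = (u.re + u.im) % 8 := ZMod.val_intCast _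
  rw [← Int.cast_add]
  intro e
  obtain ⟨c, hc⟩ : 2 ∣ u.re + u.im := by omega
  exact h2 ⟨2 * c * c - u.re * u.im, by
    rw [Zsqrtd.norm_def]
    linear_combination (u.re + u.im + 2 * c) * hc⟩

theorem kap_four (h : IsCoprime u (d.M : G)) : d.kap u ^ 4 = 1 := by
  rw [d.kap_unit h, mul_pow, d.φ_four h,
    (by decide : ∀ r : ZMod 5, r ≠ 0 → ep r ^ 4 = 1) _ (d.r5_ne h).2, mul_one]

theorem kap_zero (h : ¬ IsCoprime u (d.M : G)) : d.kap u = 0 := by
  rw [cop_iff] at h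
  by_cases h2 : 2 ∣ u.norm
  · rw [kap, φ, fphi, ph2_zero _ _ h2]
    ring
  by_cases h5 : 5 ∣ u.norm
  · have := (norm_five u).symm.trans ((ZMod.intCast_zmod_eq_zero_iff_dvd _ 5).2 h5)
    rcases (by decide : ∀ a b : ZMod 5, a * b = 0 → a = 0 ∨ b = 0) _ _ this with e | e <;> rw [kap, e, show ep 0 = 0 by decide] <;> ring
  obtain ⟨q, hq, e⟩ : ∃ q ∈ d.Q, (q : ℤ) ∣ u.norm := by
    by_contra k
    exact h ⟨h2, h5, fun q hq e => k ⟨q, hq, e⟩⟩
  rw [kap, φ, fphi, prod_eq_zero hq (by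
    rw [(d.hQ q hq).2.2.zero u e, star_zero, zero_pow fun z => d.hv q hq (by simp [z])])]
  ring

theorem kap_star (h : IsCoprime u (d.M : G)) : star (d.kap u) * d.kap u = 1 := by
  rcases f1_roots f1_ii (d.kap_four h) with e | e | e | e <;> rw [e] <;> decide

theorem kap_conj (h : IsCoprime t (d.M : G)) :
    star (d.kap (star t)) * ep (t.norm : ℤ) = d.kap t := by
  rw [d.kap_unit h, d.kap_unit (cop_star h), star_star, φ_conj, star_mul', star_star, norm_five,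
    ep_mul, mul_assoc, ← mul_assoc (star _),
    (by decide : ∀ r : ZMod 5, r ≠ 0 → star (ep r) * ep r = 1) _ (d.r5_ne h).1, one_mul]

theorem mem_U : u ∈ d.U ↔ u ∈ box d.M ∧ IsCoprime u (d.M : G) := mem_filter

theorem cop (hu : u ∈ d.U) : IsCoprime u (d.M : G) := (d.mem_U.1 hu).2

theorem cop_red (h : IsCoprime u (d.M : G)) : IsCoprime (red d.M u) (d.M : G) := by
  obtain ⟨c, hc⟩ := red_dvd d.M u
  rw [eq_add_of_sub_eq' hc]
  exact h.add_mul_left_left c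

theorem red_U' (h : IsCoprime u (d.M : G)) : red d.M u ∈ d.U :=
  d.mem_U.2 ⟨red_mem d.M_pos u, d.cop_red h⟩

theorem red_U (ht : IsCoprime t (d.M : G)) (hu : u ∈ d.U) : red d.M (t * u) ∈ d.U :=
  d.red_U' (ht.mul_left (d.cop hu))

theorem red_inj (ht : IsCoprime t (d.M : G)) (hu : u ∈ d.U) (hu' : u' ∈ d.U)
    (e : red d.M (t * u) = red d.M (t * u')) : u = u' := by
  refine (box_rep d.M_pos).uq _ (d.mem_U.1 hu).1 _ (d.mem_U.1 hu').1
    (ht.symm.dvd_of_dvd_mul_left ?_)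
  have := dvd_sub (red_dvd d.M (t * u')) (red_dvd d.M (t * u))
  rwa [e, sub_sub_sub_cancel_left, ← mul_sub] at this

/-- Multiplication by a unit permutes the index set. -/
theorem sum_red {A : Type} [AddCommMonoid A] (ht : IsCoprime t (d.M : G)) (F : G → A) :
    ∑ u ∈ d.U, F (red d.M (t * u)) = ∑ u ∈ d.U, F u := by
  have i : Set.InjOn (fun u => red d.M (t * u)) d.U := fun _ hu _ hu' => d.red_inj ht hu hu'
  rw [← sum_image i, eq_of_subset_of_card_le (image_subset_iff.2 fun _ => d.red_U ht)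
    (card_image_of_injOn i).ge]

theorem kap_red (u : G) : d.kap (red d.M u) = d.kap u := by
  obtain ⟨c, hc⟩ := red_dvd d.M u
  rw [eq_add_of_sub_eq' hc, f8_per d.kap_per (M := d.M) ⟨10, by rw [M]; ring⟩]

theorem exists_two : ∃ k : ℤ, IsCoprime k (d.M : ℤ) ∧ om k = -1 := by
  have k : ∀ Q : Finset ℕ, (∀ q ∈ Q, q.Prime ∧ q ≠ 2) → ∃ k : ℤ, k % 20 = 9 ∧ ∀ q ∈ Q, ¬ (q : ℤ) ∣ k := by
    intro Q hQ
    obtain ⟨p, h1, hp, h2⟩ := Nat.forall_exists_prime_gt_and_modEq (Q.sup id) (q := 20) (a := 9)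
      (by norm_num) (by norm_num)
    refine ⟨p, by unfold Nat.ModEq at h2; omega, fun q hq e => ?_⟩
    obtain rfl := (Nat.prime_dvd_prime_iff_eq (hQ q hq).1 hp).1 (Int.natCast_dvd_natCast.1 e)
    exact h1.not_ge (le_sup (f := id) hq)
  obtain ⟨k, h1, h2⟩ := k d.Q fun q h => ⟨(d.hQ q h).1, (d.hQ q h).2.1⟩
  have : IsCoprime (k : G) (d.M : G) := d.cop_iff.2 (by
    rw [Zsqrtd.norm_intCast]
    exact ⟨fun e => by have := Int.prime_two.dvd_or_dvd e; omega,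
      fun e => by have := (Nat.prime_iff_prime_int.1 Nat.prime_five).dvd_or_dvd e; omega,
      fun q hq e => h2 q hq (((Nat.prime_iff_prime_int.1 (d.hQ q hq).1).dvd_or_dvd e).elim id id)⟩)
  rw [cop_norm, Zsqrtd.norm_intCast] at this
  exact ⟨k, this.of_mul_left_left, by
    rw [(ZMod.intCast_eq_intCast_iff' k 9 20).2 h1]; decide⟩

theorem sum_kap : ∑ u ∈ d.U, d.kap u = 0 := by
  obtain ⟨k, h1, h2⟩ := d.exists_two
  have h3 : IsCoprime (k : G) (d.M : G) := by simpa using h1.map (Int.castRingHom G)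
  have := d.sum_red h3 d.kap
  simp only [kap_red, kap_mul, d.kap_int h1, h2, neg_one_mul, sum_neg_distrib] at this
  exact (mul_eq_zero.1 (by linear_combination -this : (2 : G) * _ = 0)).resolve_left (by decide)

theorem spec (hu : u ∈ d.U) : IsS d.M u (bs d.M u) := bs_spec d.M_pos (d.cop hu)

theorem Bx_det (hu : u ∈ d.U) : (d.Bx u).det = dx d.κ * d.N := by
  simp [Bx, hx_det, (d.spec hu).1]

theorem By_det (hu : u ∈ d.U) (b : Fin 2) : (d.By u b).det = 2 * dx d.κ * d.N := by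
  simp [By, hy_det, (d.spec hu).1]

theorem dN_pos : 0 < dx d.κ * d.N :=
  mul_pos (by rcases dx_cases d.κ with e | e <;> omega) (by exact_mod_cast d.N_pos)

theorem tx_pos (hu : u ∈ d.U) : 0 < (d.tx u).im :=
  act_pos (d.Bx_det hu ▸ d.dN_pos) (by simp)

theorem ty_pos (hu : u ∈ d.U) (b : Fin 2) : 0 < (d.ty u b).im :=
  act_pos (by rw [d.By_det hu, mul_assoc]; exact mul_pos two_pos d.dN_pos) (by simp)

theorem H_mul {H : MZ} (hH : Hok H) (ht : IsCoprime t (d.M : G)) (hu : u ∈ d.U) :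
    ∃ g : MZ, Tri g ∧ g.det = t.norm ∧ H * !![1, 0; 0, (d.N : ℤ)] * bs d.M u * mb t 0 =
      g * (H * !![1, 0; 0, (d.N : ℤ)] * bs d.M (red d.M (t * u))) := by
  have h' := d.spec (d.red_U ht hu)
  obtain ⟨E, hE⟩ := (d.spec hu).mul h' (cop_norm.1 (d.cop hu)) (red_dvd _ _)
  obtain ⟨g, h1, h2⟩ := hH.conj (t.norm / 4)
    !![d.N * E 0 0, E 0 1; d.N * d.N * E 1 0, d.N * E 1 1]
  have h3 := d.norm_mod ht
  have e : H * !![1, 0; 0, (d.N : ℤ)] * bs d.M u * mb t 0 =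
      g * (H * !![1, 0; 0, (d.N : ℤ)] * bs d.M (red d.M (t * u))) := by
    rw [mul_assoc _ (bs d.M u), hE, ← mul_assoc, ← mul_assoc g, ← mul_assoc g, ← h2, mul_assoc H,
      mul_assoc H _ !![1, 0; 0, (d.N : ℤ)], show 4 * (t.norm / 4) + 1 = t.norm by omega]
    congr 2
    ext p q
    fin_cases p <;> fin_cases q <;> simp [M, Matrix.mul_apply, -zsmul_eq_mul] <;> ring
  refine ⟨g, h1, ?_, e⟩
  have k := congrArg Matrix.det e
  obtain ⟨c, hc, -⟩ := hH
  have H0 : H.det ≠ 0 := fun z => by simp [z] at hc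
  simp only [Matrix.det_mul, (d.spec hu).1, h'.1, mb_det, Matrix.det_fin_two_of, Zsqrtd.norm_zero] at k
  exact mul_left_cancel₀ (mul_ne_zero H0 d.N_ne) (by linear_combination -k)

/-- The first family is stable. -/
theorem Bx_mul (ht : IsCoprime t (d.M : G)) (hu : u ∈ d.U) : ∃ g : MZ, Tri g ∧ g.det = t.norm ∧
    d.Bx u * mb t 0 = g * d.Bx (red d.M (t * u)) := d.H_mul (hok_x _) ht hu

/-- The second family is stable. -/
theorem By_mul (ht : IsCoprime t (d.M : G)) (hu : u ∈ d.U) (b : Fin 2) : ∃ g : MZ, Tri g ∧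
    g.det = t.norm ∧ d.By u b * mb t 0 = g * d.By (red d.M (t * u)) b := d.H_mul (hok_y _ b) ht hu

/-- The points of the second family lie above those of the first. -/
theorem tx_ty (hu : u ∈ d.U) : ∃ τ : ℂ, 0 < τ.im ∧ d.tx u = mob 1 0 (-5) 1 τ ∧
    d.ty u 0 = mob 1 0 (-5) 1 (τ / 2) ∧ d.ty u 1 = mob 1 0 (-5) 1 (τ / 2 + 1) := by
  have h0 : 0 < (g2 d.κ * (!![1, 0; 0, (d.N : ℤ)] * bs d.M u)).det := by
    have : (g2 d.κ).det = dx d.κ := by
      rw [← hx_det, hx, Matrix.det_mul, show g0.det = 1 by decide, one_mul]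
    rw [Matrix.det_mul, Matrix.det_mul, this, (d.spec hu).1]
    simpa using d.dN_pos
  have h1 := act_pos h0 (z := Complex.I) (by simp)
  have k : ∀ b : Fin 2, d.ty u b = mob 1 0 (-5) 1 (act (g2 d.κ * (!![1, 0; 0, (d.N : ℤ)] * bs d.M u))
      Complex.I / 2 + (b : ℕ)) := fun b => by
    rw [ty, By, hy, mul_assoc, mul_assoc, act_mul _ h0.ne' (by simp), act_mul _ (by simp) h1, g0,
      act_of, act_of]
    congr 1
    simp [mob]
    ring
  refine ⟨_, h1, ?_, by simpa using k 0, by simpa using k 1⟩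
  rw [tx, Bx, hx, mul_assoc, mul_assoc, act_mul _ h0.ne' (by simp), g0, act_of]

/-- The adjoint form of the relation between a matrix and a pair. -/
theorem pair_adj (hu : u ∈ d.U) (hu' : u' ∈ d.U) {g : MZ} {k : ℤ}
    (h : k • (g * d.By u' b) = d.Bx u * mb α β) :
    (2 * k) • (g.adjugate * d.Bx u) = d.By u' b * mb (star α) (-β) := by
  have e := congrArg (fun X => d.By u' b * X.adjugate * d.Bx u) h
  simp only [Matrix.adjugate_smul, Matrix.adjugate_mul_distrib, mb_adj, Fintype.card_fin] at e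
  rw [mul_smul_comm, ← mul_assoc, Matrix.mul_adjugate, mul_assoc, mul_assoc,
    Matrix.adjugate_mul, d.Bx_det hu, d.By_det hu'] at e
  refine smul_right_injective MZ d.dN_pos.ne' ?_
  simp only [smul_mul_assoc, mul_smul_comm, one_mul, mul_one, smul_smul] at e ⊢
  rw [← e]
  congr 1
  ring

/-- The rows of the bases of the second family generate the unit ideal. -/
theorem By_unit (hu : u ∈ d.U) (b : Fin 2) : IsCoprime (row (d.By u b) 0) (row (d.By u b) 1) := by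
  obtain ⟨p, q, x, h1, h2⟩ : ∃ p q x : ℤ, p * hy d.κ b 0 0 + q * hy d.κ b 1 0 = 1 ∧
      p * hy d.κ b 0 1 + q * hy d.κ b 1 1 = 2 * x := by
    rw [hy_eq]
    split_ifs
    · exact ⟨1, 0, b, by simp, by simp⟩
    · fin_cases b
      · exact ⟨1, 0, 0, by simp, by simp⟩
      · exact ⟨-4, -1, 0, by simp, by simp; ring⟩
  have h3 : IsCoprime (row (bs d.M u) 0) (d.M : G) := by
    obtain ⟨a, ha⟩ := (d.spec hu).2 0 0
    obtain ⟨c, hc⟩ := (d.spec hu).2 0 1
    have : row (bs d.M u) 0 = ii * u + d.M * ⟨c, a⟩ := by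
      simp [mb, Matrix.vecMul, dotProduct] at ha hc
      ext <;> simp [row, ii] <;> linarith
    rw [this]
    exact (IsCoprime.mul_left ⟨-ii, 0, by simp; decide⟩ (d.cop hu)).add_mul_left_left _
  have h4 : IsCoprime (row (bs d.M u) 0 + (2 * d.N : G) * (x * row (bs d.M u) 1)) (2 * d.N : G) :=
    (IsCoprime.of_mul_right_right (y := 40) (by
      rwa [show (40 : G) * (2 * d.N) = (80 * d.N : ℕ) by push_cast; ring])).add_mul_left_left _
  have h5 : row (bs d.M u) 0 + (2 * d.N : G) * (x * row (bs d.M u) 1) =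
      p * row (d.By u b) 0 + q * row (d.By u b) 1 := by
    ext <;> simp [row, By, Matrix.mul_apply]
    · linear_combination -bs d.M u 0 1 * h1 - d.N * bs d.M u 1 1 * h2
    · linear_combination -bs d.M u 0 0 * h1 - d.N * bs d.M u 1 0 * h2
  have h6 : ((2 * dx d.κ * d.N : ℤ) : G) =
      (-d.By u b 1 0 : ℤ) * row (d.By u b) 0 + (d.By u b 0 0 : ℤ) * row (d.By u b) 1 := by
    rw [← d.By_det hu b, Matrix.det_fin_two]
    ext <;> simp [row] <;> ring
  obtain ⟨r, s, e⟩ := h4.pow_right (n := 2)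
  obtain ⟨z, hz⟩ : ∃ z : G, (2 * d.N : G) ^ 2 = z * (2 * dx d.κ * d.N : ℤ) := by
    rcases dx_cases d.κ with k | k <;> rw [k]
    exacts [⟨2 * d.N, by push_cast; ring⟩, ⟨d.N, by push_cast; ring⟩]
  rw [h5, hz, h6] at e
  exact ⟨r * p + s * z * (-d.By u b 1 0 : ℤ), r * q + s * z * (d.By u b 0 0 : ℤ), by
    linear_combination e⟩

theorem five_row (u : G) (b : Fin 2) (j : Fin 2) : 5 ∣ d.Bx u 1 j ∧ 5 ∣ d.By u b 1 j := by
  have h := Int.natCast_dvd_natCast.2 d.five_dvd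
  have k : ∀ H : MZ, 5 ∣ H 1 0 → 5 ∣ (H * !![1, 0; 0, (d.N : ℤ)] * bs d.M u) 1 j := fun H hH => by
    simp only [Matrix.mul_apply, Fin.sum_univ_two]
    simp
    exact dvd_add (hH.mul_right _) ((h.mul_left _).mul_right _)
  refine ⟨k _ ?_, k _ ?_⟩
  · rw [hx_eq]
    split_ifs <;> simp
  · rw [hy_eq]
    split_ifs <;> simp
    omega

end Dat

end Pool.Agent.Lib.MP_696deb_nt.Y2
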