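import Pool.Agent.Lib.MP_696deb_nt.Y2.D1

/-! The bases: congruences and the matrices at two. -/

set_option autoImplicit false

open Finset
open scoped Classical

namespace Pool.Agent.Lib.MP_696deb_nt.Y2

open QF

theorem cop_star {M : ℕ} {u : G} (h : IsCoprime u (M : G)) : IsCoprime (star u) (M : G) := by
  simpa [starRingEnd_apply] using h.map (starRingEnd G)

theorem cop_norm {M : ℕ} {u : G} : IsCoprime u (M : G) ↔ IsCoprime u.norm (M : ℤ) := by
  refine ⟨fun h => ?_, fun ⟨a, b, e⟩ => ⟨a * star u, b, ?_⟩⟩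
  · obtain ⟨a, b, e⟩ := h.mul_left (cop_star h)
    rw [← Zsqrtd.norm_eq_mul_conj] at e
    exact ⟨a.re, b.re, by simpa using congrArg Zsqrtd.re e⟩
  · rw [mul_assoc, mul_comm (star u), ← Zsqrtd.norm_eq_mul_conj]
    exact_mod_cast congrArg (Int.cast : ℤ → G) e

theorem norm_five (u : G) : ((u.norm : ℤ) : ZMod 5) = r5 u * r5 (star u) := by
  rw [← r5_mul, ← Zsqrtd.norm_eq_mul_conj, r5_int]

theorem norm_odd {u : G} (h : ¬ 2 ∣ u.norm) : u.norm % 4 = 1 := by
  rw [Zsqrtd.norm_def] at h ⊢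
  obtain ⟨a, ha | ha⟩ := Int.even_or_odd' u.re <;> obtain ⟨b, hb | hb⟩ := Int.even_or_odd' u.im <;>
    rw [ha, hb] at h ⊢
  · exact absurd ⟨2 * (a * a + b * b), by ring⟩ h
  · rw [show 2 * a * (2 * a) - -1 * (2 * b + 1) * (2 * b + 1) = 1 + 4 * (a * a + b * b + b) by ring]
    omega
  · rw [show (2 * a + 1) * (2 * a + 1) - -1 * (2 * b) * (2 * b) = 1 + 4 * (a * a + b * b + a) by ring]
    omega
  · exact absurd ⟨2 * (a * a + b * b + a + b) + 1, by ring⟩ h

/-- The rows of a matrix as Gaussian integers. -/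
def row (B : MZ) (i : Fin 2) : G := ⟨B i 1, B i 0⟩

theorem row_mb (B : MZ) (α β : G) (i : Fin 2) :
    row (B * mb α β) i = α * row B i + β * star (row B i) := by
  ext <;> simp [row, mb, Matrix.mul_apply] <;> ring

theorem row_mul (g B : MZ) (i : Fin 2) : row (g * B) i = g i 0 * row B 0 + g i 1 * row B 1 := by
  ext <;> simp [row, Matrix.mul_apply]

theorem row_smul (k : ℤ) (B : MZ) (i : Fin 2) : row (k • B) i = k * row B i := by
  ext <;> simp [row]

/-- The matrices at two that keep the diagonal matrices in the group. -/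
def Hok (H : MZ) : Prop := ∃ e : ℤ, e * H.det = 4 ∧ 20 ∣ e * H 0 1 * H 1 0 ∧ 4 ∣ e * H 0 1 * H 0 0 ∧
  10 ∣ e * H 1 1 * H 1 0

theorem kcases : ∀ κ : ZMod 4, κ = 0 ∨ κ = 1 ∨ κ = 2 ∨ κ = 3 := by decide

theorem hx_eq (κ : ZMod 4) : hx κ = !![1, 0; if κ = 2 then -5 else 0, dx κ] := by
  rcases kcases κ with rfl | rfl | rfl | rfl <;> decide

theorem hy_eq (κ : ZMod 4) (b : Fin 2) : hy κ b =
    if κ = 2 then !![1, 2 * (b : ℤ); -5, 2 - 10 * (b : ℤ)] else
    !![1 + 10 * (b : ℤ), 2 * dx κ * b; 5 - 50 * (b : ℤ), dx κ * (2 - 10 * b)] := by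
  rcases kcases κ with rfl | rfl | rfl | rfl <;> fin_cases b <;> decide

theorem dx_cases (κ : ZMod 4) : dx κ = 1 ∨ dx κ = 2 := by
  unfold dx
  split_ifs <;> simp

theorem dx_two : dx 2 = 1 := rfl

theorem hx_det (κ : ZMod 4) : (hx κ).det = dx κ := by simp [hx_eq]

theorem hy_det (κ : ZMod 4) (b : Fin 2) : (hy κ b).det = 2 * dx κ := by
  rw [hy_eq]
  split_ifs with h
  · rw [h, dx_two, Matrix.det_fin_two_of]
    ring
  · rw [Matrix.det_fin_two_of]
    ring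

theorem hok_x (κ : ZMod 4) : Hok (hx κ) := by
  refine ⟨4 / dx κ, ?_⟩
  rw [hx_det]
  rcases kcases κ with rfl | rfl | rfl | rfl <;> decide

theorem hok_y (κ : ZMod 4) (b : Fin 2) : Hok (hy κ b) := by
  refine ⟨2 / dx κ, ?_⟩
  rw [hy_det]
  rcases kcases κ with rfl | rfl | rfl | rfl <;> fin_cases b <;> decide

theorem Hok.conj {H : MZ} (h : Hok H) (j : ℤ) (E : MZ) :
    ∃ g, Tri g ∧ H * (!![1, 0; 0, 4 * j + 1] + (80 : ℤ) • E) = g * H := by
  obtain ⟨e, h0, ⟨a, h1⟩, ⟨b, h2⟩, ⟨c, h3⟩⟩ := h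
  refine ⟨1 + e • (H * (!![0, 0; 0, j] + (20 : ℤ) • E) * H.adjugate), ?_, ?_⟩
  · have k : ∀ p q, (H * (!![0, 0; 0, j] + (20 : ℤ) • E) * H.adjugate) p q =
        j * H p 1 * H.adjugate 1 q + 20 * (H * E * H.adjugate) p q := fun p q => by
      simp [Matrix.mul_apply, Fin.sum_univ_two, -zsmul_eq_mul]
      ring
    refine ⟨⟨-j * c + 2 * e * (H * E * H.adjugate) 1 0, ?_⟩,
      ⟨j * b + 5 * e * (H * E * H.adjugate) 0 1, ?_⟩, ⟨-j * a + e * (H * E * H.adjugate) 0 0, ?_⟩⟩ <;>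
    rw [Matrix.add_apply, Matrix.smul_apply, k, Matrix.adjugate_fin_two] <;> simp
    · linear_combination -j * h3
    · linear_combination j * h2
    · linear_combination -j * h1
  · rw [add_mul, one_mul, smul_mul_assoc, mul_assoc _ _ H, Matrix.adjugate_mul, mul_smul_comm,
      mul_one, smul_smul, h0, ← mul_smul_comm]
    conv_rhs => rw [← mul_one H, mul_assoc, one_mul, ← mul_add]
    congr 1
    ext p q
    fin_cases p <;> fin_cases q <;> simp [-zsmul_eq_mul] <;> ring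

theorem IsS.mul {M : ℕ} {u u' t : G} {S S' : MZ} (h : IsS M u S) (h' : IsS M u' S')
    (hu : IsCoprime u.norm (M : ℤ)) (e : (M : G) ∣ u' - t * u) :
    ∃ E : MZ, S * mb t 0 = (!![1, 0; 0, t.norm] + (M : ℤ) • E) * S' := by
  have k : ∀ i j, (M : ℤ) ∣ (S * mb t 0 - !![1, 0; 0, t.norm] * S') i j := by
    obtain ⟨γ, e⟩ := e
    have e1 : u' = t * u + M * γ := eq_add_of_sub_eq' e
    have n1 : (M : ℤ) ∣ u'.norm - u.norm * t.norm :=
      ⟨2 * ((t * u).re * γ.re + (t * u).im * γ.im) + M * γ.norm, by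
        rw [mul_comm u.norm, ← Zsqrtd.norm_mul, e1]
        generalize t * u = x
        simp [Zsqrtd.norm_def]
        ring⟩
    have r1 : u'.re = t.re * u.re - t.im * u.im + M * γ.re := by rw [e1]; simp; ring
    have r2 : u'.im = t.re * u.im + t.im * u.re + M * γ.im := by rw [e1]; simp
    obtain ⟨a0, a0'⟩ := h.2 0 0
    obtain ⟨a1, a1'⟩ := h.2 0 1
    obtain ⟨a2, a2'⟩ := h.2 1 0
    obtain ⟨a3, a3'⟩ := h.2 1 1
    obtain ⟨b0, b0'⟩ := h'.2 0 0
    obtain ⟨b1, b1'⟩ := h'.2 0 1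
    obtain ⟨b2, b2'⟩ := h'.2 1 0
    obtain ⟨b3, b3'⟩ := h'.2 1 1
    obtain ⟨n, n1⟩ := n1
    simp [mb, Matrix.vecMul, dotProduct] at a0' a1' a2' a3' b0' b1' b2' b3'
    intro i j
    fin_cases i <;> fin_cases j
    · refine ⟨a0 * t.re + a1 * t.im - b0 - γ.re, ?_⟩
      simp [mb, Matrix.mul_apply, Matrix.vecMul, dotProduct]
      linear_combination t.re * a0' + t.im * a1' - b0' - r1
    · refine ⟨-a0 * t.im + a1 * t.re - b1 + γ.im, ?_⟩
      simp [mb, Matrix.mul_apply, Matrix.vecMul, dotProduct]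
      linear_combination -t.im * a0' + t.re * a1' - b1' + r2
    · refine hu.symm.dvd_of_dvd_mul_left ⟨a2 * t.re + a3 * t.im - b2 - γ.im + n * S' 1 0, ?_⟩
      simp [mb, Matrix.mul_apply, Matrix.vecMul, dotProduct]
      linear_combination t.re * a2' + t.im * a3' - b2' - r2 + S' 1 0 * n1
    · refine hu.symm.dvd_of_dvd_mul_left ⟨-a2 * t.im + a3 * t.re - b3 - γ.re + n * S' 1 1, ?_⟩
      simp [mb, Matrix.mul_apply, Matrix.vecMul, dotProduct]
      linear_combination -t.im * a2' + t.re * a3' - b3' - r1 + S' 1 1 * n1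
  choose F hF using k
  refine ⟨Matrix.of F * S'.adjugate, ?_⟩
  rw [add_mul, smul_mul_assoc, mul_assoc, Matrix.adjugate_mul, h'.1, one_smul, mul_one,
    ← sub_eq_iff_eq_add']
  ext i j
  exact hF i j

end Pool.Agent.Lib.MP_696deb_nt.Y2
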