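import Pool.Agent.Lib.MP_696deb_nt.Y2.D2

/-! The symmetries of the coefficients. -/

set_option autoImplicit false

open Finset
open scoped Classical

namespace Pool.Agent.Lib.MP_696deb_nt.Y2

open QF

theorem sc_add {w : MZ → G} {k : ℤ} (hk : k ≠ 0) {h : MZ} (hw : ∀ g, w (g + h) = w g) (Y : MZ) :
    sc w k (Y + k • h) = sc w k Y := by
  by_cases e : ∃ g, Y = k • g
  · obtain ⟨g, rfl⟩ := e
    rw [← smul_add, sc_smul hk, sc_smul hk, hw]
  · rw [not_not.1 fun z => e (sc_ne z)]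
    by_contra z
    obtain ⟨g, hg⟩ := sc_ne z
    exact e ⟨g - h, by rw [smul_sub, ← hg, add_sub_cancel_right]⟩

theorem wh_per (g h : MZ) (h0 : 20 ∣ h 0 0) (h1 : 4 ∣ h 0 1) (h2 : 20 ∣ h 1 0) (h3 : 4 ∣ h 1 1) :
    wh (g + h) = wh g := by
  have k : ∀ (a b : ℤ) (n : ℕ), (n : ℤ) ∣ b → ((a + b : ℤ) : ZMod n) = a := fun a b n e => by
    rw [Int.cast_add, (ZMod.intCast_zmod_eq_zero_iff_dvd _ n).2 e, add_zero]
  simp only [wh, Matrix.add_apply]
  rw [k _ _ 5 (by omega), k _ _ 4 (by omega), k _ _ 4 h1, k _ _ 4 (by omega), k _ _ 4 h3,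
    if_congr (dvd_add_left (by omega)) rfl rfl]

theorem two_dvd_norm (y : G) : 2 ∣ y.norm ↔ (y.re + y.im) % 2 = 0 := by
  rw [← Int.dvd_iff_emod_eq_zero, ← Int.prime_two.dvd_pow_iff_dvd (a := y.re + y.im) two_ne_zero,
    show (y.re + y.im) ^ 2 = y.norm + 2 * (y.re * y.im) by rw [Zsqrtd.norm_def]; ring]
  exact (dvd_add_left (dvd_mul_right _ _)).symm

namespace Dat

variable (d : Dat) {u u' t α β y : G} {b : Fin 2}

theorem k_ne : 8 * dx d.κ * (d.N : ℤ) ^ 2 ≠ 0 := by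
  have := mul_pos d.dN_pos (lt_of_le_of_ne (Int.natCast_nonneg _) d.N_ne.symm)
  intro e
  nlinarith

theorem mul_adj (hu' : u' ∈ d.U) {k j : ℤ} {g X : MZ} (hj : j = k * (2 * dx d.κ * d.N)) :
    k • (g * d.By u' b) = X ↔ X * (d.By u' b).adjugate = j • g := by
  constructor
  · rintro rfl
    rw [smul_mul_assoc, mul_assoc, Matrix.mul_adjugate, d.By_det hu', mul_smul_comm, mul_one,
      smul_smul, hj]
  · intro h
    have e := congrArg (· * d.By u' b) h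
    simp only [mul_assoc X, Matrix.adjugate_mul, d.By_det hu', mul_smul_comm, mul_one,
      smul_mul_assoc] at e
    refine smul_right_injective MZ (r := 2 * dx d.κ * d.N)
      (by rw [mul_assoc]; exact (mul_pos two_pos d.dN_pos).ne') ?_
    simp only [e, smul_smul, hj, mul_comm k]

theorem Phi0_eq (hu' : u' ∈ d.U) {g : MZ} (h : (4 * d.N : ℤ) • (g * d.By u' b) = d.Bx u * mb α β) :
    d.Phi0 u u' b α β = w0 g := by
  rw [Phi0, (d.mul_adj hu' (j := 8 * dx d.κ * d.N ^ 2) (by ring)).1 h, sc_smul d.k_ne]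

theorem Phi0_ne (hu' : u' ∈ d.U) (h : d.Phi0 u u' b α β ≠ 0) :
    ∃ g : MZ, (4 * d.N : ℤ) • (g * d.By u' b) = d.Bx u * mb α β :=
  (sc_ne h).imp fun _ e => (d.mul_adj hu' (by ring)).2 e

/-- Every integer matrix comes from a pair of Gaussian integers. -/
theorem exists_pair (hu : u ∈ d.U) (u' : G) (b : Fin 2) (g : MZ) :
    ∃ α β : G, (4 * d.N : ℤ) • (g * d.By u' b) = d.Bx u * mb α β := by
  obtain ⟨α, β, e⟩ := mb_surj ((2 / dx d.κ) • ((d.Bx u).adjugate * (g * d.By u' b)))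
  refine ⟨α, β, ?_⟩
  rw [e, mul_smul_comm, mul_smul_comm, ← mul_assoc, Matrix.mul_adjugate, d.Bx_det hu, smul_mul_assoc,
    one_mul, smul_smul, smul_smul]
  congr 1
  rcases dx_cases d.κ with r | r <;> rw [r] <;> omega

theorem pair_det (hu : u ∈ d.U) (hu' : u' ∈ d.U) {g : MZ}
    (h : (4 * d.N : ℤ) • (g * d.By u' b) = d.Bx u * mb α β) :
    α.norm - β.norm = 32 * d.N ^ 2 * g.det := by
  have e := congrArg Matrix.det h
  rw [Matrix.det_smul, Matrix.det_mul, Matrix.det_mul, d.Bx_det hu, d.By_det hu', mb_det,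
    Fintype.card_fin] at e
  exact mul_left_cancel₀ d.dN_pos.ne' (by linear_combination -e)

theorem row_odd (hu : u ∈ d.U) (b i : Fin 2) : ¬ 2 ∣ (row (d.By u b) i).norm := by
  obtain ⟨a, ha⟩ := (d.spec hu).2 0 0
  obtain ⟨c, hc⟩ := (d.spec hu).2 0 1
  have h1 := mt (two_dvd_norm u).2 (d.cop_iff.1 (d.cop hu)).1
  obtain ⟨p, q, h2, h3⟩ : ∃ p q : ℤ, hy d.κ b i 0 = 2 * p + 1 ∧ hy d.κ b i 1 = 2 * q := by
    refine ⟨hy d.κ b i 0 / 2, hy d.κ b i 1 / 2, ?_⟩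
    generalize d.κ = κ
    revert κ b i
    decide
  simp [mb, M, Matrix.vecMul, dotProduct] at ha hc
  rw [two_dvd_norm]
  simp [row, By, Matrix.mul_apply, h2, h3]
  rw [show (2 * p + 1) * bs d.M u 0 1 + 2 * q * d.N * bs d.M u 1 1 +
      ((2 * p + 1) * bs d.M u 0 0 + 2 * q * d.N * bs d.M u 1 0) = (bs d.M u 0 1 + bs d.M u 0 0) + 2 *
      (p * (bs d.M u 0 1 + bs d.M u 0 0) + q * d.N * (bs d.M u 1 1 + bs d.M u 1 0)) by ring]
  rw [M, mul_assoc] at *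
  omega

theorem Phi0_aux (hu : u ∈ d.U) (hu' : u' ∈ d.U) (h : d.Phi0 u u' b α β ≠ 0) : α ≠ 0 ∧ β ≠ 0 := by
  obtain ⟨g, e⟩ := d.Phi0_ne hu' h
  obtain ⟨⟨c, h1⟩, h2, -⟩ := w0_ne (d.Phi0_eq hu' e ▸ h)
  have h3 := d.pair_det hu hu' e
  have h4 := congrArg (fun X => (row X 1).norm) e
  simp only [row_smul, row_mul g, row_mb, Zsqrtd.norm_mul, Zsqrtd.norm_intCast] at h4
  have h5 : ¬ 2 ∣ (g 1 0 * row (d.By u' b) 0 + g 1 1 * row (d.By u' b) 1 : G).norm := by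
    have k1 := mt (two_dvd_norm _).2 (d.row_odd hu' b 1)
    have k2 : g 1 1 % 2 = 1 := by
      rw [Matrix.det_fin_two, h1, mul_left_comm] at h2
      by_contra z
      obtain ⟨x, hx⟩ : 2 ∣ g 1 1 := by omega
      rw [hx, mul_left_comm] at h2
      omega
    obtain ⟨x, hx⟩ : ∃ x, g 1 1 = 2 * x + 1 := ⟨g 1 1 / 2, by omega⟩
    rw [two_dvd_norm, h1, hx]
    generalize row (d.By u' b) 0 = r at *
    generalize row (d.By u' b) 1 = s at *
    simp only [Zsqrtd.re_add, Zsqrtd.im_add, Zsqrtd.re_smul, Zsqrtd.im_smul]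
    rw [show 10 * c * r.re + (2 * x + 1) * s.re + (10 * c * r.im + (2 * x + 1) * s.im) =
      s.re + s.im + 2 * (5 * c * (r.re + r.im) + x * (s.re + s.im)) by ring]
    omega
  have h6 : (16 * d.N ^ 2 : ℤ) ≠ 0 := mul_ne_zero (by norm_num) (pow_ne_zero _ d.N_ne)
  constructor <;> rintro rfl
  · rw [zero_mul, zero_add, Zsqrtd.norm_mul] at h4
    rw [Zsqrtd.norm_zero] at h3
    exact h5 ⟨-g.det * (star (row (d.Bx u) 1)).norm, mul_left_cancel₀ h6 (by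
      linear_combination h4 - (star (row (d.Bx u) 1)).norm * h3)⟩
  · rw [zero_mul, add_zero, Zsqrtd.norm_mul] at h4
    rw [Zsqrtd.norm_zero] at h3
    exact h5 ⟨g.det * (row (d.Bx u) 1).norm, mul_left_cancel₀ h6 (by
      linear_combination h4 + (row (d.Bx u) 1).norm * h3)⟩

/-- The two families do not meet. -/
theorem Phi0_zero (hu : u ∈ d.U) (hu' : u' ∈ d.U) (b : Fin 2) (α : G) : d.Phi0 u u' b α 0 = 0 :=
  not_not.1 fun h => (d.Phi0_aux hu hu' h).2 rfl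

theorem Phi0_zero' (hu : u ∈ d.U) (hu' : u' ∈ d.U) (b : Fin 2) (β : G) : d.Phi0 u u' b 0 β = 0 :=
  not_not.1 fun h => (d.Phi0_aux hu hu' h).1 rfl

theorem shift (u' : G) (b : Fin 2) (X : MZ) : ∃ h : MZ, 20 ∣ h 0 0 ∧ 4 ∣ h 0 1 ∧ 20 ∣ h 1 0 ∧
    4 ∣ h 1 1 ∧ dx d.κ • h = (8 : ℤ) • (X * (d.By u' b).adjugate) := by
  have k : ∀ i, 5 ∣ (X * (d.By u' b).adjugate) i 0 := fun i => by
    rw [Matrix.mul_apply, Fin.sum_univ_two, Matrix.adjugate_fin_two]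
    exact dvd_add ((d.five_row u' b 1).2.mul_left _) ((d.five_row u' b 0).2.neg_right.mul_left _)
  have k0 := k 0
  have k1 := k 1
  refine ⟨(8 / dx d.κ) • (X * (d.By u' b).adjugate), ?_⟩
  simp only [Matrix.smul_apply, smul_eq_mul, smul_smul]
  rcases dx_cases d.κ with r | r <;> rw [r] <;>
    exact ⟨by omega, by omega, by omega, by omega, rfl⟩

theorem Phi0_per (_ : u ∈ d.U) (_ : u' ∈ d.U) (b : Fin 2) (α β γ δ : G) :
    d.Phi0 u u' b (α + (64 * d.N ^ 2 : ℕ) * γ) (β + (64 * d.N ^ 2 : ℕ) * δ) = d.Phi0 u u' b α β := by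
  obtain ⟨h, h0, h1, h2, h3, e⟩ := d.shift u' b (d.Bx u * mb γ δ)
  rw [Phi0, Phi0, ← sc_add d.k_ne (fun g => w0_per g h h0 h1 h2 h3) (d.Bx u * mb α β * _), mb_add,
    ← Int.cast_natCast (R := G), mb_smul, mul_add, add_mul, mul_smul_comm, smul_mul_assoc,
    show 8 * dx d.κ * (d.N : ℤ) ^ 2 = 8 * d.N ^ 2 * dx d.κ by ring, ← smul_smul _ (dx _), e, smul_smul]
  congr 3
  push_cast
  ring

theorem Phi_per (α β γ δ : G) :
    d.Phi (α + (64 * d.N ^ 2 : ℕ) * γ) (β + (64 * d.N ^ 2 : ℕ) * δ) = d.Phi α β :=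
  sum_congr rfl fun _ hu => sum_congr rfl fun _ hu' => sum_congr rfl fun b _ => by
    rw [d.Phi0_per hu hu']

theorem cop_of (ht : IsCoprime t (d.M : G)) {k : ℤ} (hk : k ∣ (d.M : ℤ) ^ 2) : IsCoprime t.norm k :=
  (cop_norm.1 ht).pow_right.of_isCoprime_of_dvd_right hk

theorem k_dvd : 8 * dx d.κ * (d.N : ℤ) ^ 2 ∣ (d.M : ℤ) ^ 2 ∧ dx d.κ * (d.N : ℤ) ∣ (d.M : ℤ) ^ 2 := by
  rcases dx_cases d.κ with r | r <;> rw [r, M] <;> push_cast
  exacts [⟨⟨800, by ring⟩, 6400 * d.N, by ring⟩, ⟨⟨400, by ring⟩, 3200 * d.N, by ring⟩]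

theorem sc_left {w : MZ → G} (hw : ∀ g : MZ, 10 ∣ g 1 0 → g.det % 4 = 1 → ¬ 5 ∣ g.det → ∀ h,
    w (g * h) = w0 g * w h) {k : ℤ} (k0 : k ≠ 0) (hk : k ∣ (d.M : ℤ) ^ 2) (ht : IsCoprime t (d.M : G))
    (hu : u ∈ d.U) (X Y : MZ) : sc w k (d.Bx u * (mb t 0 * X) * Y) =
      sc w k (d.Bx (red d.M (t * u)) * X * Y) := by
  obtain ⟨g, h1, h2, h3⟩ := d.Bx_mul ht hu
  have h4 := d.norm_mod ht
  rw [← mul_assoc, h3, mul_assoc g, mul_assoc g, sc_mul_left k0 (h2 ▸ d.cop_of ht hk)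
    (hw g h1.c (h2 ▸ h4) (h2 ▸ (d.cop_iff.1 ht).2.1)), h1.w0 (h2 ▸ h4), one_mul]

theorem sum_left (ht : IsCoprime t (d.M : G)) (F : G → G → Fin 2 → G) :
    ∑ u ∈ d.U, ∑ u' ∈ d.U, ∑ b : Fin 2, star (d.kap u) * d.kap u' * F (red d.M (t * u)) u' b =
      d.kap t * ∑ u ∈ d.U, ∑ u' ∈ d.U, ∑ b : Fin 2, star (d.kap u) * d.kap u' * F u u' b := by
  rw [← d.sum_red ht fun u => ∑ u' ∈ d.U, ∑ b : Fin 2, star (d.kap u) * d.kap u' * F u u' b]
  simp only [mul_sum]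
  refine sum_congr rfl fun u _ => sum_congr rfl fun u' _ => sum_congr rfl fun b _ => ?_
  rw [kap_red, kap_mul, star_mul']
  linear_combination -(star (d.kap u) * d.kap u' * F (red d.M (t * u)) u' b) * d.kap_star ht

theorem Phi_left (ht : IsCoprime t (d.M : G)) (α β : G) :
    d.Phi (t * α) (star t * β) = d.kap t * d.Phi α β := by
  rw [Phi, Phi, ← d.sum_left ht fun u u' b => d.Phi0 u u' b α β]
  refine sum_congr rfl fun u hu => sum_congr rfl fun u' _ => sum_congr rfl fun b _ => ?_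
  rw [Phi0, Phi0, ← d.sc_left (fun _ => w0_mul_left) d.k_ne d.k_dvd.1 ht hu, mb_mul]
  simp

theorem Phi0_right (ht : IsCoprime t (d.M : G)) (u : G) (hu : u' ∈ d.U) (b : Fin 2) (α β : G) :
    d.Phi0 u u' b (t * α) (t * β) = ep (t.norm : ℤ) * d.Phi0 u (red d.M (star t * u')) b α β := by
  obtain ⟨g, h1, h2, h3⟩ := d.By_mul (cop_star ht) hu b
  rw [Zsqrtd.norm_conj] at h2
  have h4 := d.norm_mod ht
  have h5 : g.adjugate.det = t.norm := by rw [Matrix.det_adjugate, h2]; simp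
  have h6 := congrArg Matrix.adjugate h3
  rw [Matrix.adjugate_mul_distrib, Matrix.adjugate_mul_distrib, mb_adj, star_star, neg_zero] at h6
  rw [Phi0, Phi0, show mb (t * α) (t * β) = mb α β * mb t 0 by simp [mb_mul, mul_comm], ← mul_assoc,
    mul_assoc _ (mb t 0), h6, ← mul_assoc, sc_mul_right d.k_ne (h5 ▸ d.cop_of ht d.k_dvd.1)
      (w0_mul_right (by simpa [Matrix.adjugate_fin_two] using h1.c) (h5 ▸ h4)
        (h5 ▸ (d.cop_iff.1 ht).2.1)), h1.w0_adj (h2 ▸ h4), h2]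

theorem Phi_right (ht : IsCoprime t (d.M : G)) (α β : G) :
    d.Phi (t * α) (t * β) = d.kap t * d.Phi α β := by
  rw [Phi, Phi, mul_sum]
  refine sum_congr rfl fun u _ => ?_
  rw [← d.sum_red (cop_star ht) fun u' => ∑ b : Fin 2, star (d.kap u) * d.kap u' * d.Phi0 u u' b α β,
    mul_sum]
  refine sum_congr rfl fun u' hu' => ?_
  rw [mul_sum]
  refine sum_congr rfl fun b _ => ?_
  rw [d.Phi0_right ht u hu', kap_red, kap_mul, ← d.kap_conj ht]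
  linear_combination -(star (d.kap u) * d.kap u' * ep (t.norm : ℤ) *
    d.Phi0 u (red d.M (star t * u')) b α β) * d.kap_star (cop_star ht)

/-- Invariance under the units of norm one. -/
theorem Phi_inv (ht : IsCoprime t (d.M : G)) (α β : G) : d.Phi α (t * β) = d.Phi α (star t * β) := by
  obtain ⟨r, s, e⟩ : IsCoprime t ((64 * d.N ^ 2 : ℕ) : G) :=
    (ht.pow_right (n := 2)).of_isCoprime_of_dvd_right ⟨100, by rw [M]; push_cast; ring⟩
  have k : ∀ β, d.Phi α β = d.Phi (t * (r * α)) β := fun β => by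
    rw [← d.Phi_per (t * (r * α)) β (s * α) 0, mul_zero, add_zero]
    congr 1
    linear_combination -α * e
  rw [k, k (star t * β), d.Phi_left ht, d.Phi_right ht]

theorem Phi_det (h : d.Phi α β ≠ 0) :
    ∃ m : ℤ, m % 4 = 1 ∧ α.norm - β.norm = 32 * d.N ^ 2 * m := by
  obtain ⟨u, hu, h⟩ := exists_ne_zero_of_sum_ne_zero h
  obtain ⟨u', hu', h⟩ := exists_ne_zero_of_sum_ne_zero h
  obtain ⟨b, -, h⟩ := exists_ne_zero_of_sum_ne_zero h
  have h := right_ne_zero_of_mul h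
  obtain ⟨g, e⟩ := d.Phi0_ne hu' h
  exact ⟨_, (w0_ne (d.Phi0_eq hu' e ▸ h)).2.1, d.pair_det hu hu' e⟩

theorem mul_adj' (hu' : u' ∈ d.U) {Y X : MZ} :
    Y * d.By u' b = (2 : ℤ) • X ↔ X * (d.By u' b).adjugate = (dx d.κ * d.N) • Y := by
  rw [← one_smul ℤ (Y * _), d.mul_adj hu' (one_mul _).symm, smul_mul_assoc, mul_assoc, ← smul_smul]
  exact (smul_right_injective MZ two_ne_zero).eq_iff

theorem Psi0_eq (hu' : u' ∈ d.U) {Y : MZ} (h : Y * d.By u' b = (2 : ℤ) • (d.Bx u * mb y 0)) :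
    d.Psi0 u u' b y = wh Y := by
  rw [Psi0, (d.mul_adj' hu').1 h, sc_smul d.dN_pos.ne']

theorem Psi0_ne (hu' : u' ∈ d.U) (h : d.Psi0 u u' b y ≠ 0) :
    ∃ Y : MZ, Y * d.By u' b = (2 : ℤ) • (d.Bx u * mb y 0) :=
  (sc_ne h).imp fun _ e => (d.mul_adj' hu').2 e

theorem Psi0_per (_ : u ∈ d.U) (_ : u' ∈ d.U) (b : Fin 2) : Per (8 * d.N) (d.Psi0 u u' b) := by
  intro α γ
  obtain ⟨h, h0, h1, h2, h3, e⟩ := d.shift u' b (d.Bx u * mb γ 0)
  have k := mb_smul ((8 * d.N : ℕ) : ℤ) γ 0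
  rw [mul_zero, Int.cast_natCast] at k
  rw [Psi0, Psi0, ← sc_add d.dN_pos.ne' (fun g => wh_per g h h0 h1 h2 h3) (d.Bx u * mb α 0 * _),
    ← add_zero (0 : G), mb_add, add_zero, k, mul_add, add_mul, mul_smul_comm, smul_mul_assoc,
    mul_comm (dx _), ← smul_smul _ (dx _), e, smul_smul]
  congr 3
  push_cast
  ring

theorem Psi_per : Per (8 * d.N) d.Psi := fun _ _ =>
  sum_congr rfl fun _ hu => sum_congr rfl fun _ hu' => sum_congr rfl fun b _ => by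
    rw [d.Psi0_per hu hu']

theorem Psi_mul (ht : IsCoprime t (d.M : G)) (y : G) : d.Psi (t * y) = d.kap t * d.Psi y := by
  rw [Psi, Psi, ← d.sum_left ht fun u u' b => d.Psi0 u u' b y]
  refine sum_congr rfl fun u hu => sum_congr rfl fun u' _ => sum_congr rfl fun b _ => ?_
  rw [Psi0, Psi0, ← d.sc_left (fun _ => wh_mul_left) d.dN_pos.ne' d.k_dvd.2 ht hu, mb_mul]
  simp

end Dat

end Pool.Agent.Lib.MP_696deb_nt.Y2
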