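import Pool.Agent.Lib.MP_696deb_nt.Y2.D4b

/-! The function that defines the section. -/

set_option autoImplicit false

open Finset
open scoped Classical

namespace Pool.Agent.Lib.MP_696deb_nt.Y2

open QF

namespace Dat

variable (d : Dat) {u u' t y : G}

theorem sum_crt {A : Type} [AddCommMonoid A] {a b : G} (ha : ¬ 2 ∣ a.norm)
    (hb : IsCoprime b (d.N : G)) (F : G → G → A)
    (h1 : ∀ x y z, (8 : G) ∣ x - y → F x z = F y z) (h2 : ∀ x y z, (d.N : G) ∣ x - y → F z x = F z y) :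
    ∑ u ∈ d.U, F (a * u) (b * u) = ∑ u ∈ d.U, F u u := by
  obtain ⟨t, t1, t2⟩ := crt (m := 8) (Nat.Coprime.pow_left 3 (Nat.coprime_two_left.2 d.N_odd)) a b
  have c1 : IsCoprime t (2 : G) := by
    obtain ⟨c, hc⟩ := t1
    rw [eq_add_of_sub_eq' hc, show ((8 : ℕ) : G) * c = 2 * (4 * c) by push_cast; ring]
    exact (cop_norm (M := 2).2 ((Int.prime_two.coprime_iff_not_dvd.2 ha).symm)).add_mul_left_left _
  have c2 : IsCoprime t (d.N : G) := by
    obtain ⟨c, hc⟩ := t2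
    rw [eq_add_of_sub_eq' hc]
    exact hb.add_mul_left_left _
  have ht : IsCoprime t (d.M : G) := by
    obtain ⟨n, hn⟩ := d.five_dvd
    have c3 : IsCoprime t (5 : G) := c2.of_isCoprime_of_dvd_right ⟨n, by rw [hn]; push_cast; rfl⟩
    rw [show (d.M : G) = 2 ^ 4 * 5 * d.N by rw [M]; push_cast; ring]
    exact (c1.pow_right.mul_right c3).mul_right c2
  rw [← d.sum_red ht fun u => F u u]
  refine sum_congr rfl fun u _ => ?_
  obtain ⟨c, hc⟩ := red_dvd d.M (t * u)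
  obtain ⟨c1, hc1⟩ := t1
  obtain ⟨c2, hc2⟩ := t2
  rw [M] at hc
  push_cast at hc hc1
  rw [M, h1 (red _ _) (a * u) _ ⟨10 * d.N * c + c1 * u, by linear_combination hc + u * hc1⟩,
    h2 (red _ _) (b * u) _ ⟨80 * c + c2 * u, by linear_combination hc + u * hc2⟩]

theorem im_congr (y : G) {x z : G} (h : (d.N : G) ∣ x - z) :
    (d.N : ℤ) ∣ (y * star x).im ↔ (d.N : ℤ) ∣ (y * star z).im := by
  obtain ⟨c, hc⟩ := h
  rw [eq_add_of_sub_eq' hc, star_add, star_mul', star_natCast, mul_add, mul_left_comm,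
    Zsqrtd.im_add]
  exact dvd_add_left ⟨(y * star c).im, by simp⟩

/-- The number of units that are integers modulo `N`. -/
noncomputable def nz : ℕ := (d.U.filter fun u => (d.N : ℤ) ∣ (star u).im).card

theorem nz_pos : 0 < d.nz := card_pos.2 ⟨1, mem_filter.2 ⟨d.one_U, by simp⟩⟩

theorem sum_g8 (hy : IsCoprime y (d.N : G)) {c : G} (h : ∀ u₀ u₁ : ZMod 8, (u₀ + u₁).val % 2 = 1 →
    g8 d.κ d.t d.N y.re y.im u₀ u₁ + g8 d.κ d.t d.N y.re y.im (-u₁) u₀ = c) :
    2 * ∑ u ∈ d.U, (if (d.N : ℤ) ∣ (y * star u).im then g8 d.κ d.t d.N y.re y.im u.re u.im else 0) =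
      d.nz * c := by
  have k1 := d.sum_crt (a := ii) (b := 1) (by decide) isCoprime_one_left (fun x z =>
    if (d.N : ℤ) ∣ (y * star z).im then g8 d.κ d.t d.N y.re y.im x.re x.im else 0)
    (fun x x' z e => by
      obtain ⟨e1, e2⟩ := (f4_dvd (q := 8)).1 e
      rw [(ZMod.intCast_eq_intCast_iff_dvd_sub x'.re x.re 8).2 e1,
        (ZMod.intCast_eq_intCast_iff_dvd_sub x'.im x.im 8).2 e2])
    fun x x' z e => by simp only [d.im_congr y e]
  have k2 := d.sum_crt (a := 1) (b := star y) (by decide) (cop_star hy) (fun _ z =>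
    if (d.N : ℤ) ∣ (1 * star z).im then c else 0) (fun _ _ _ _ => rfl)
    fun x x' z e => by simp only [d.im_congr 1 e]
  simp only [one_mul, star_mul', star_star] at k1 k2
  rw [two_mul]
  nth_rw 2 [← k1]
  rw [← sum_add_distrib, nz, ← nsmul_eq_mul, ← sum_const, sum_filter, ← k2]
  refine sum_congr rfl fun u hu => ?_
  split_ifs
  · rw [← h u.re u.im]
    · simp [ii]
    · have k2 := val8 (u.re + u.im)
      have k3 := (d.cop_iff.1 (d.cop hu)).1
      rw [← Int.cast_add]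
      by_contra e
      obtain ⟨c, hc⟩ : 2 ∣ u.re + u.im := by omega
      exact k3 ⟨2 * c * c - u.re * u.im, by
        rw [Zsqrtd.norm_def]
        linear_combination (u.re + u.im + 2 * c) * hc⟩
  · rw [add_zero]

theorem Rs_zero {p : ℕ} (hp : p.Prime) (hN : p ∣ d.N) (h : (p : ℤ) ∣ y.norm) : d.Rs y = 0 := by
  have hp' := Nat.prime_iff_prime_int.1 hp
  have k : ∀ u : G, (d.N : ℤ) ∣ (y * star u).im → (p : ℤ) ∣ (y * star u).re := fun u e => by
    have e1 := (Int.natCast_dvd_natCast.2 hN).trans e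
    have e2 : (p : ℤ) ∣ (y * star u).norm := Zsqrtd.norm_mul y _ ▸ h.mul_right _
    rw [Zsqrtd.norm_def] at e2
    exact (hp'.dvd_or_dvd ((dvd_sub_left (e1.mul_left _)).1 e2)).elim id id
  by_cases h5 : p = 5
  · refine sum_eq_zero fun u hu => ?_
    obtain ⟨a, h1, h2⟩ := d.Psi0_one hu y
    rw [sum_eq_zero fun b _ => ?_, mul_zero]
    rw [h2]
    split_ifs with e
    · subst h5
      have := (hp'.dvd_or_dvd ((dvd_sub_left (k u e)).1 h1)).resolve_left
        (d.cop_iff.1 (d.cop hu)).2.1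
      rw [(ZMod.intCast_zmod_eq_zero_iff_dvd _ 5).2 this, mul_zero, show ep 0 = 0 by decide]
      ring
    · rfl
  have hq := ((d.prime_dvd_N hp).1 hN).resolve_left h5
  by_cases hy : (p : G) ∣ y
  swap
  · refine sum_eq_zero fun u hu => ?_
    obtain ⟨a, -, h2⟩ := d.Psi0_one hu y
    rw [sum_eq_zero fun b _ => ?_, mul_zero]
    rw [h2, if_neg fun e => hy ?_]
    exact ((cop_star (d.cop hu)).of_isCoprime_of_dvd_right
      (Nat.cast_dvd_cast (hN.mul_left 80))).symm.dvd_of_dvd_mul_right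
      (f4_dvd.2 ⟨k u e, (Int.natCast_dvd_natCast.2 hN).trans e⟩)
  obtain ⟨n, hn⟩ := hN
  obtain ⟨α, a1, a2⟩ := (d.hQ p hq).2.2.ne_pow hp (d.hQ p hq).2.1 (d.hv p hq)
  have c1 : p.Coprime n := Nat.coprime_of_squarefree_mul (hn ▸ d.N_sqfree)
  have c2 : p.Coprime (80 * n) := Nat.Coprime.mul_right (Nat.Coprime.mul_right (m := 2 ^ 4) (n := 5)
    (((Nat.coprime_primes hp Nat.prime_two).2 (d.hQ p hq).2.1).pow_right _)
    ((Nat.coprime_primes hp Nat.prime_five).2 h5)) c1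
  obtain ⟨t, ⟨r, t1⟩, s, t2⟩ := crt c2 α 1
  have t1' := eq_add_of_sub_eq' t1
  have t2' := eq_add_of_sub_eq' t2
  have ht : IsCoprime t (d.M : G) := by
    rw [show (d.M : G) = p * (80 * n : ℕ) by rw [M, hn]; push_cast; ring]
    refine IsCoprime.mul_right ?_ ?_
    · rw [t1']
      exact (cop_norm.2 (hp'.coprime_iff_not_dvd.2 a1).symm).add_mul_left_left _
    · rw [t2']
      exact isCoprime_one_left.add_mul_left_left _
  have e1 : d.Rs (t * y) = d.Rs y := by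
    obtain ⟨z, rfl⟩ := hy
    rw [Rs, Rs, show t * (p * z) = p * z + (8 * d.N : ℕ) * (10 * s * z) by
      rw [t2', hn]; push_cast; ring]
    exact sum_congr rfl fun u hu => by simp only [d.Psi0_per d.one_U hu _ _ _]
  have e2 : d.kap t = star (d.X p α) ^ d.v p := by
    have n5 : 5 ∣ n := (Nat.prime_five.dvd_mul.1 (hn ▸ d.five_dvd)).resolve_left
      fun e => h5 ((Nat.prime_dvd_prime_iff_eq Nat.prime_five hp).1 e).symm
    have r1 : r5 (star t) = 1 := by
      rw [t2', star_add, star_one, star_mul', star_natCast, r5_add, r5_mul, ← Int.cast_natCast, r5_int,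
        Int.cast_natCast, Nat.cast_mul, show ((80 : ℕ) : ZMod 5) = 0 by decide, zero_mul, zero_mul,
        add_zero]
      decide
    have r2 : ph2 d.κ d.t t = 1 := by
      rw [t2', f8_per (ph2_per _ _) (M := 80 * n) ⟨10 * n, by ring⟩]
      simpa using ph2_nat d.κ d.t (n := 1) odd_one
    rw [d.kap_unit ht, r1, show ep 1 = 1 by decide, mul_one, φ, fphi, r2, one_mul,
      prod_eq_single_of_mem p hq fun q h1 h2 => ?_, t1', (d.hQ p hq).2.2.per]
    have : q ∣ n := ((d.hQ q h1).1.dvd_mul.1 (hn ▸ d.dvd_N h1)).resolve_left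
      fun e => h2 ((Nat.prime_dvd_prime_iff_eq (d.hQ q h1).1 hp).1 e)
    rw [t2', f8_per (d.hQ q h1).2.2.per (this.mul_left 80), (d.hQ q h1).2.2.one (d.hQ q h1).1,
      star_one, one_pow]
  rw [d.Rs_mul ht, e2] at e1
  refine (mul_left_eq_self₀.1 e1).resolve_left fun e => a2 ?_
  rw [← star_star (d.X p α ^ d.v p), star_pow, e, star_one]

theorem Rs_two (y : G) : d.Rs (2 * y) = 0 := by
  refine sum_eq_zero fun u hu => ?_
  obtain ⟨a, -, h2⟩ := d.Psi0_one hu (2 * y)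
  rw [sum_eq_zero fun b _ => ?_, mul_zero]
  rw [h2]
  split_ifs
  · have k := t8_even' d.κ b ((y * star u).re * u.norm : ℤ) (-(y * star u).im * d.N : ℤ)
      (d.N * (y * star u).im * u.norm : ℤ) (y * star u).re
    have e1 : (2 * y * star u).re = 2 * (y * star u).re := by simp; ring
    have e2 : (2 * y * star u).im = 2 * (y * star u).im := by simp; ring
    rw [e1, e2]
    refine mul_eq_zero_of_right _ (Eq.trans ?_ k)
    congr 1 <;> push_cast <;> ring
  · rfl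

theorem Psi_zero {p : ℕ} (hp : p.Prime) (hN : p ∣ d.N) (h : (p : ℤ) ∣ y.norm) : d.Psi y = 0 := by
  rw [Psi_Rs, d.Rs_zero hp hN h, mul_zero]

theorem Psi_two (y : G) : d.Psi (2 * y) = 0 := by rw [Psi_Rs, d.Rs_two, mul_zero]

theorem Rs_val (h : d.W = -1) : d.Rs 1 = (if d.κ = 2 then 16 else 8) * d.nz ∧
    d.Rs ⟨1, 1⟩ = if d.κ = 0 then (⟨1, 1⟩ : G) * (8 * d.nz) else 0 := by
  have hN : (d.N : ZMod 8).val % 2 = 1 := by
    have := Nat.odd_iff.1 d.N_odd
    rw [ZMod.val_natCast]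
    omega
  have T := fun u₀ u₁ k => g8_tab d.κ d.t d.N u₀ u₁ hN k (by
    rw [← h, W_eq, ZMod.val_natCast, ← ZMod.natCast_mod (d.N % 8) 4, Nat.mod_mod_of_dvd _ (by norm_num),
      ZMod.natCast_mod])
  have c2 : IsCoprime (⟨1, 1⟩ : G) (d.N : G) := cop_norm.2
    (Nat.isCoprime_iff_coprime.2 (Nat.coprime_two_left.2 d.N_odd))
  have k1 := d.sum_g8 (y := 1) isCoprime_one_left fun u₀ u₁ k => by simpa using (T u₀ u₁ k).1
  have k2 := d.sum_g8 c2 fun u₀ u₁ k => by simpa using (T u₀ u₁ k).2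
  have o1 : d.co 1 = 1 := by
    rw [co, prod_eq_one fun q hq => by rw [(d.hQ q hq).2.2.one (d.hQ q hq).1, star_one, one_pow]]
    decide
  have o2 : d.co ⟨1, 1⟩ = ip (-d.t) * -ii := by
    rw [co, prod_congr rfl fun q hq => by
      rw [show (⟨1, 1⟩ : G) = 1 + ii by decide, (d.hQ q hq).2.2.one_add],
      show ep (r5 (star ⟨1, 1⟩)) = -ii by decide]
    have := d.prod_ip 1
    simp only [one_mul] at this
    exact congrArg (· * -ii) this
  have z2 : (2 : G) ≠ 0 := by decide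
  constructor <;> refine mul_left_cancel₀ z2 ?_
  · rw [d.Rs_eq fun q hq => f8_ndvd' (d.hQ q hq).1, mul_left_comm, k1, o1]
    split_ifs
    · linear_combination (d.nz : G) * (by decide : (8 * ii * 1 * ⟨0, -4⟩ : G) = 32)
    · linear_combination (d.nz : G) * (by decide : (8 * ii * 1 * ⟨0, -2⟩ : G) = 16)
  · rw [d.Rs_eq (y := ⟨1, 1⟩) fun q hq => f8_ndvd (d.hQ q hq).1 Nat.prime_two (d.hQ q hq).2.1,
      mul_left_comm, k2, o2]
    split_ifs
    · linear_combination (d.nz : G) * (by decide : ∀ K : ZMod 4,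
        (8 * ii * (ip (-K) * -ii) * (⟨2, 2⟩ * ip K) : G) = 2 * (⟨1, 1⟩ * 8)) d.t
    · simp

/-- The function that defines the section is a multiple of a character. -/
theorem Psi_eq (h : d.W = -1) : ∃ c : ℕ, 0 < c ∧ ∀ y, d.Psi y = c * d.kap1 y := by
  obtain ⟨h1, h2⟩ := d.Rs_val h
  refine ⟨d.U.card * ((if d.κ = 2 then 16 else 8) * d.nz), Nat.mul_pos (card_pos.2 ⟨1, d.one_U⟩)
    (Nat.mul_pos (by split_ifs <;> norm_num) d.nz_pos), fun y => ?_⟩
  have k : ∀ y c : G, ¬ 2 ∣ y.norm → IsCoprime c.norm d.N → d.Rs (y * c) = d.kap y * d.Rs c := by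
    intro y c h2 hc
    by_cases hy : IsCoprime y (d.M : G)
    · exact d.Rs_mul hy c
    rw [d.kap_zero hy, zero_mul]
    rw [cop_iff] at hy
    by_cases h5 : 5 ∣ y.norm
    · exact d.Rs_zero Nat.prime_five d.five_dvd (Zsqrtd.norm_mul y c ▸ h5.mul_right _)
    obtain ⟨q, hq, e⟩ : ∃ q ∈ d.Q, (q : ℤ) ∣ y.norm := by
      by_contra k
      exact hy ⟨h2, h5, fun q hq e => k ⟨q, hq, e⟩⟩
    exact d.Rs_zero (d.hQ q hq).1 (d.dvd_N hq) (Zsqrtd.norm_mul y c ▸ e.mul_right _)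
  have par : ∀ y : G, 2 ∣ y.norm ↔ (y.re + y.im) % 2 = 0 := fun y => by
    rw [← Int.dvd_iff_emod_eq_zero, ← Int.prime_two.dvd_pow_iff_dvd (a := y.re + y.im) two_ne_zero,
      show (y.re + y.im) ^ 2 = y.norm + 2 * (y.re * y.im) by rw [Zsqrtd.norm_def]; ring]
    exact (dvd_add_left (dvd_mul_right _ _)).symm
  have z : ∀ y : G, 2 ∣ y.norm → d.kap y = 0 := fun y e => d.kap_zero fun c => (d.cop_iff.1 c).1 e
  rw [Psi_Rs, Nat.cast_mul, mul_assoc, kap1]
  congr 1
  by_cases e : 2 ∣ y.norm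
  swap
  · rw [if_neg (c := _ ∧ _) fun c => e ((par y).2 c.2), add_zero, ← mul_one y, k y 1 e (by simp [isCoprime_one_left]),
      h1, mul_one, mul_comm]
    split_ifs <;> simp
  have e1 := (par y).1 e
  obtain ⟨x, hx⟩ : ∃ x : G, x = ⟨(y.re + y.im) / 2, (y.im - y.re) / 2⟩ := ⟨_, rfl⟩
  have e2 : y = x * ⟨1, 1⟩ := by
    rw [hx]
    ext <;> simp <;> omega
  rw [z y e, zero_add, ← hx]
  by_cases f : 2 ∣ x.norm
  · have f1 := (par x).1 f
    have : y = 2 * ⟨(x.re - x.im) / 2, (x.re + x.im) / 2⟩ := by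
      rw [e2]
      ext <;> simp <;> omega
    rw [z x f, mul_zero, ite_self, mul_zero, this, Rs_two]
  · conv_lhs => rw [e2, k x ⟨1, 1⟩ f (Nat.isCoprime_iff_coprime.2 (Nat.coprime_two_left.2 d.N_odd)), h2]
    by_cases r : d.κ = 0
    · rw [if_pos r, if_pos (c := _ ∧ _) ⟨r, e1⟩, if_neg (c := d.κ = 2) (by rw [r]; decide)]
      push_cast
      ring
    · rw [if_neg r, if_neg (c := _ ∧ _) fun c => r c.1, mul_zero, mul_zero]

end Dat

end Pool.Agent.Lib.MP_696deb_nt.Y2
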