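import Pool.Agent.Lib.MP_696deb_nt.Y2.D2a

/-! The finite tables at two. -/

set_option autoImplicit false

open Finset
open scoped Classical

namespace Pool.Agent.Lib.MP_696deb_nt.Y2

open QF

/-- The closed form of the Fourier transform at two. -/
def nu2 (a b c d : ZMod 4) : G :=
  if c.val % 2 = 1 ∧ (a * d - b * c).val % 2 = 0 then
    (if d.val % 2 = 0 then ip (c + 1 - c * (a + d)) else ip (a + d - b - b * c)) else 0

theorem wh2_eq : ∀ a b c d : ZMod 4, wh2 a b c d = 8 * nu2 a b c d := by decide +kernel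

/-- Division by `dx` on residues. -/
def hf (κ : ZMod 4) (a : ZMod 8) : ZMod 4 := if κ = 0 ∨ κ = 2 then a.val else (a.val / 2 : ℕ)

/-- The weight at two of a matrix divided by `dx`. -/
def s8 (κ : ZMod 4) (a b c d : ZMod 8) : G :=
  if (κ = 0 ∨ κ = 2) ∨ a.val % 2 = 0 ∧ b.val % 2 = 0 ∧ c.val % 2 = 0 ∧ d.val % 2 = 0 then
    nu2 (hf κ a) (hf κ b) (hf κ c) (hf κ d) else 0

/-- The weight at two of `hx Z hy⁻¹`. -/
def t8 (κ : ZMod 4) (β a b c e : ZMod 8) : G :=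
  if κ = 2 then s8 κ (a * (2 - 10 * β) + 5 * b) (b - 2 * β * a)
    ((c - 5 * a) * (2 - 10 * β) + 5 * (e - 5 * b)) (e - 5 * b - 2 * β * (c - 5 * a))
  else if κ = 0 then s8 κ (a * (2 - 10 * β) - b * (5 - 50 * β)) (b * (1 + 10 * β) - 2 * β * a)
    (c * (2 - 10 * β) - e * (5 - 50 * β)) (e * (1 + 10 * β) - 2 * β * c)
  else s8 κ (a * (4 - 20 * β) - b * (5 - 50 * β)) (b * (1 + 10 * β) - 4 * β * a)
    (2 * (c * (4 - 20 * β) - e * (5 - 50 * β))) (2 * (e * (1 + 10 * β) - 4 * β * c))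

/-- The part at two of a term of the section. -/
def g8 (κ K : ZMod 4) (N y₀ y₁ u₀ u₁ : ZMod 8) : G :=
  ph8 κ K u₀ u₁ * ∑ β : Fin 2, t8 κ (β : ℕ) ((y₀ * u₀ + y₁ * u₁) * (u₀ * u₀ + u₁ * u₁))
    (-(y₁ * u₀ - y₀ * u₁) * N) (N * (y₁ * u₀ - y₀ * u₁) * (u₀ * u₀ + u₁ * u₁)) (y₀ * u₀ + y₁ * u₁)

theorem g8_tab : ∀ (κ K : ZMod 4) (N u₀ u₁ : ZMod 8), N.val % 2 = 1 → (u₀ + u₁).val % 2 = 1 →
    ip (e0 κ K - (if κ = 0 then 3 else 2) * K + (N.val - 1)) = -1 →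
    g8 κ K N 1 0 u₀ u₁ + g8 κ K N 1 0 (-u₁) u₀ = (if κ = 2 then ⟨0, -4⟩ else ⟨0, -2⟩) ∧
    g8 κ K N 1 1 u₀ u₁ + g8 κ K N 1 1 (-u₁) u₀ = if κ = 0 then ⟨2, 2⟩ * ip K else 0 := by
  decide +kernel

theorem t8_even : ∀ (κ : ZMod 4) (β : Fin 2) (a b c e : Fin 4),
    t8 κ (β : ℕ) (2 * (a : ℕ)) (2 * (b : ℕ)) (2 * (c : ℕ)) (2 * (e : ℕ)) = 0 := by
  decide +kernel

theorem t8_even' (κ : ZMod 4) (β : Fin 2) (a b c e : ZMod 8) :
    t8 κ (β : ℕ) (2 * a) (2 * b) (2 * c) (2 * e) = 0 := by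
  have k : ∀ a : ZMod 8, ∃ x : Fin 4, 2 * a = 2 * ((x : ℕ) : ZMod 8) := by decide
  obtain ⟨a, ha⟩ := k a
  obtain ⟨b, hb⟩ := k b
  obtain ⟨c, hc⟩ := k c
  obtain ⟨e, he⟩ := k e
  rw [ha, hb, hc, he, t8_even]

theorem val8 (a : ℤ) : (((a : ZMod 8).val : ℕ) : ℤ) = a % 8 := ZMod.val_intCast _

theorem sc_wh (κ : ZMod 4) {A : MZ} (h5 : 5 ∣ A 1 0) : sc wh (dx κ) A =
    8 * ep ((if κ = 0 ∨ κ = 2 then 1 else 3) * (A 0 0 : ℤ)) *
      s8 κ (A 0 0 : ℤ) (A 0 1 : ℤ) (A 1 0 : ℤ) (A 1 1 : ℤ) := by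
  by_cases h : κ = 0 ∨ κ = 2
  · have k : ∀ a : ℤ, hf κ a = a := fun a => by
      rw [hf, if_pos h, ← Int.cast_natCast, val8, (ZMod.intCast_eq_intCast_iff' _ a 4).2 (by omega)]
    have := sc_smul (w := wh) one_ne_zero A
    rw [one_smul] at this
    rw [dx, if_pos h, this, wh, if_pos h5, wh2_eq, s8, if_pos h, if_pos (.inl h), k, k, k, k, one_mul]
    ring
  rw [dx, if_neg h, if_neg h, s8]
  split_ifs with e
  · obtain ⟨e0, e1, e2, e3⟩ := e.resolve_left h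
    have k : ∀ a : ℤ, hf κ (2 * a : ℤ) = a := fun a => by
      rw [hf, if_neg h, ← Int.cast_natCast, Int.natCast_div, val8,
        (ZMod.intCast_eq_intCast_iff' _ a 4).2 (by push_cast; omega)]
    obtain ⟨Y, rfl⟩ : ∃ Y : MZ, A = (2 : ℤ) • Y := ⟨A.map (· / 2), by
      have := val8 (A 0 0)
      have := val8 (A 0 1)
      have := val8 (A 1 0)
      have := val8 (A 1 1)
      ext i j
      fin_cases i <;> fin_cases j <;> simp [-zsmul_eq_mul] <;> omega⟩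
    simp only [Matrix.smul_apply, smul_eq_mul] at h5 ⊢
    rw [sc_smul two_ne_zero, wh, if_pos (by omega), wh2_eq, k, k, k, k, Int.cast_mul, ← mul_assoc 3,
      show (3 : ZMod 5) * (2 : ℤ) = 1 by decide, one_mul]
    ring
  · rw [mul_zero]
    by_contra z
    obtain ⟨Y, rfl⟩ := sc_ne z
    have k : ∀ a : ℤ, ((2 * a : ℤ) : ZMod 8).val % 2 = 0 := fun a => by
      have := val8 (2 * a)
      omega
    exact e (.inr ⟨k _, k _, k _, k _⟩)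

theorem sc_hy (κ : ZMod 4) (β : Fin 2) {Z : MZ} (h5 : 5 ∣ Z 1 0) :
    sc wh (dx κ) (hx κ * Z * (hy κ β).adjugate) = 8 * ep (2 * (Z 0 0 : ℤ)) *
      t8 κ (β : ℕ) (Z 0 0 : ℤ) (Z 0 1 : ℤ) (Z 1 0 : ℤ) (Z 1 1 : ℤ) := by
  obtain ⟨c, hc⟩ := h5
  have z5 : (5 : ZMod 5) = 0 := rfl
  rw [sc_wh, hx_eq, hy_eq, t8]
  · rcases kcases κ with rfl | rfl | rfl | rfl <;>
      simp +decide only [if_true, if_false, dx, Matrix.adjugate_fin_two_of] <;> congr 2 <;>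
      (try congr 1) <;> simp [Matrix.mul_apply, Matrix.vecMul, dotProduct]
    all_goals first
      | ring1
      | linear_combination (-2 * (β : ℕ) * Z 0 0 - Z 0 1 + 10 * (β : ℕ) * Z 0 1) * z5
      | linear_combination (2 * Z 0 0 - 12 * (β : ℕ) * Z 0 0 - 3 * Z 0 1 + 30 * (β : ℕ) * Z 0 1) * z5
      | linear_combination (-2 * (β : ℕ) * Z 0 0 + Z 0 1) * z5
  · rw [hx_eq, hy_eq]
    rcases kcases κ with rfl | rfl | rfl | rfl <;>
      simp +decide only [if_true, if_false, dx, Matrix.adjugate_fin_two_of] <;>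
      simp [Matrix.mul_apply, Matrix.vecMul, dotProduct, hc] <;> fin_cases β <;> simp <;> omega

/-- The Chinese remainder theorem. -/
theorem crt {m n : ℕ} (h : m.Coprime n) (a b : G) : ∃ t : G, (m : G) ∣ t - a ∧ (n : G) ∣ t - b := by
  obtain ⟨r, s, e⟩ : IsCoprime (m : G) (n : G) := Nat.Coprime.cast h
  exact ⟨a * s * n + b * r * m, ⟨(b - a) * r, by linear_combination a * e⟩,
    ⟨(a - b) * s, by linear_combination b * e⟩⟩

end Pool.Agent.Lib.MP_696deb_nt.Y2
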