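import Pool.Agent.Lib.MP_696deb_nt.Y2.D3
import Pool.Agent.Lib.MP_696deb_nt.Y2.D4a

/-! The terms of the function that defines the section. -/

set_option autoImplicit false

open Finset
open scoped Classical

namespace Pool.Agent.Lib.MP_696deb_nt.Y2

open QF

theorem IsS.zz {M : ℕ} {u : G} {S S' : MZ} (h : IsS M 1 S) (h' : IsS M u S') (y : G) :
    (M : ℤ) ∣ u.norm * (S * mb y 0 * S'.adjugate) 0 0 - (y * star u).re ∧
    (M : ℤ) ∣ (S * mb y 0 * S'.adjugate) 0 1 + (y * star u).im ∧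
    (M : ℤ) ∣ u.norm * (S * mb y 0 * S'.adjugate) 1 0 - (y * star u).im ∧
    (M : ℤ) ∣ (S * mb y 0 * S'.adjugate) 1 1 - (y * star u).re := by
  have a := fun i j => (ZMod.intCast_zmod_eq_zero_iff_dvd _ M).2 (h.2 i j)
  have b := fun i j => (ZMod.intCast_zmod_eq_zero_iff_dvd _ M).2 (h'.2 i j)
  have a0 := a 0 0
  have a1 := a 0 1
  have a2 := a 1 0
  have a3 := a 1 1
  have b0 := b 0 0
  have b1 := b 0 1
  have b2 := b 1 0
  have b3 := b 1 1
  simp [mb, Matrix.vecMul, dotProduct, sub_eq_zero] at a0 a1 a2 a3 b0 b1 b2 b3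
  refine ⟨?_, ?_, ?_, ?_⟩ <;> rw [← ZMod.intCast_zmod_eq_zero_iff_dvd] <;>
    simp [mb, Matrix.mul_apply, Matrix.adjugate_fin_two, a0, a1, a2, a3, b0]
  · linear_combination (y.re : ZMod M) * b3 + y.im * b2
  · linear_combination -(y.re : ZMod M) * b1
  · linear_combination (y.im : ZMod M) * b3 - y.re * b2
  · linear_combination -(y.im : ZMod M) * b1

theorem f8_ndvd' {q : ℕ} (hq : q.Prime) : ¬ (q : ℤ) ∣ (1 : G).norm := fun e =>
  hq.one_lt.ne' (Nat.dvd_one.1 (Int.natCast_dvd_natCast.1 e))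

namespace Dat

variable (d : Dat) {u u' t y : G}

theorem W_eq : d.W = ip (e0 d.κ d.t - (if d.κ = 0 then 3 else 2) * d.t + (d.N - 1)) := by
  have k : ∀ s : Finset ℕ, (∀ q ∈ s, Odd q) →
      ∏ q ∈ s, (f8s q : G) = ip (((∏ q ∈ s, q : ℕ) : ZMod 4) - 1) ∧ Odd (∏ q ∈ s, q) := fun s hs => by
    induction s using Finset.induction_on with
    | empty => exact ⟨by decide, by decide⟩
    | insert a s ha ih =>
      obtain ⟨h1, h2⟩ := ih fun q h => hs q (mem_insert_of_mem h)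
      have h3 := hs a (mem_insert_self _ _)
      rw [prod_insert ha, prod_insert ha, h1]
      refine ⟨?_, h3.mul h2⟩
      generalize ∏ q ∈ s, q = n at h2
      rw [Nat.cast_mul, ← ZMod.natCast_mod a 4, ← ZMod.natCast_mod n 4, f8s]
      rw [Nat.odd_iff] at h2 h3
      rcases (by omega : a % 4 = 1 ∨ a % 4 = 3) with e | e <;>
        rcases (by omega : n % 4 = 1 ∨ n % 4 = 3) with f | f <;> rw [e, f] <;> decide
  have h1 := (k _ fun q h => (d.N_prime h).1.odd_of_ne_two (d.N_prime h).2).1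
  rw [prod_insert_of_eq_one_if_notMem fun _ => by decide] at h1
  rw [W, prod_congr rfl fun q h => by
    rw [(d.hQ q h).2.2.at_nu (d.hQ q h).1 (d.hQ q h).2.1], prod_mul_distrib, prod_ip, h1, ip_add,
    sub_eq_add_neg (e0 _ _), ip_add, N]
  ring

theorem cop_dN (ht : IsCoprime t (d.M : G)) : IsCoprime t.norm (dx d.κ * d.N) := by
  refine (cop_norm.1 ht).of_isCoprime_of_dvd_right ?_
  rcases dx_cases d.κ with e | e <;> rw [e, M]
  exacts [⟨80, by push_cast; ring⟩, ⟨40, by push_cast; ring⟩]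

theorem Psi0_left (ht : IsCoprime t (d.M : G)) (hu : u ∈ d.U) (u' : G) (b : Fin 2) (y : G) :
    d.Psi0 u u' b (t * y) = d.Psi0 (red d.M (t * u)) u' b y := by
  obtain ⟨g, h1, h2, h3⟩ := d.Bx_mul ht hu
  have h4 := d.norm_mod ht
  rw [Psi0, Psi0, show mb (t * y) 0 = mb t 0 * mb y 0 by simp [mb_mul], ← mul_assoc, h3, mul_assoc g,
    mul_assoc g, sc_mul_left d.dN_pos.ne' (h2 ▸ d.cop_dN ht)
      (wh_mul_left h1.c (h2 ▸ h4) (h2 ▸ (d.cop_iff.1 ht).2.1)), h1.w0 (h2 ▸ h4), one_mul]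

theorem Psi0_right (ht : IsCoprime t (d.M : G)) (u : G) (hu : u' ∈ d.U) (b : Fin 2) (y : G) :
    d.Psi0 u u' b (t * y) = ep (t.norm : ℤ) * d.Psi0 u (red d.M (star t * u')) b y := by
  obtain ⟨g, h1, h2, h3⟩ := d.By_mul (cop_star ht) hu b
  rw [Zsqrtd.norm_conj] at h2
  have h4 := d.norm_mod ht
  have h5 : g.adjugate.det = t.norm := by rw [Matrix.det_adjugate, h2]; simp
  have h6 := congrArg Matrix.adjugate h3
  rw [Matrix.adjugate_mul_distrib, Matrix.adjugate_mul_distrib, mb_adj, star_star, neg_zero] at h6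
  rw [Psi0, Psi0, show mb (t * y) 0 = mb y 0 * mb t 0 by simp [mb_mul, mul_comm], ← mul_assoc,
    mul_assoc _ (mb t 0), h6, ← mul_assoc, sc_mul_right d.dN_pos.ne' (h5 ▸ d.cop_dN ht)
      (wh_mul_right (by simpa [Matrix.adjugate_fin_two] using h1.c) (h5 ▸ h4)
        (h5 ▸ (d.cop_iff.1 ht).2.1)), h1.w0_adj (h2 ▸ h4), h2]

theorem one_U : (1 : G) ∈ d.U := by
  have := d.N_pos
  exact d.mem_U.2 ⟨mem_image.2 ⟨(1, 0), by simp [M]; omega, rfl⟩, isCoprime_one_left⟩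

theorem red_self (hu : u ∈ d.U) : red d.M u = u :=
  (box_rep d.M_pos).uq _ (red_mem d.M_pos u) _ (d.mem_U.1 hu).1 (red_dvd _ _)

/-- The inner sum. -/
noncomputable def Rs (y : G) : G := ∑ u ∈ d.U, d.kap u * ∑ b : Fin 2, d.Psi0 1 u b y

theorem Rs_mul (ht : IsCoprime t (d.M : G)) (y : G) : d.Rs (t * y) = d.kap t * d.Rs y := by
  rw [Rs, Rs, ← d.sum_red (cop_star ht) fun u => d.kap u * ∑ b : Fin 2, d.Psi0 1 u b y, mul_sum]
  refine sum_congr rfl fun u hu => ?_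
  rw [sum_congr rfl fun b _ => d.Psi0_right ht 1 hu b y, ← mul_sum, kap_red, kap_mul,
    ← d.kap_conj ht]
  linear_combination -(d.kap u * ep (t.norm : ℤ) *
    ∑ b : Fin 2, d.Psi0 1 (red d.M (star t * u)) b y) * d.kap_star (cop_star ht)

theorem Psi_Rs (y : G) : d.Psi y = d.U.card * d.Rs y := by
  rw [Psi, ← nsmul_eq_mul, ← sum_const]
  refine sum_congr rfl fun u hu => ?_
  have k : ∀ u' b, d.Psi0 u u' b y = d.Psi0 1 u' b (u * y) := fun u' b => by
    rw [d.Psi0_left (d.cop hu) d.one_U, mul_one, d.red_self hu]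
  rw [← one_mul (d.Rs y), ← d.kap_star (d.cop hu), mul_assoc, ← d.Rs_mul (d.cop hu), Rs, mul_sum]
  exact sum_congr rfl fun u' _ => by simp only [k, mul_sum, mul_assoc]

/-- The terms of the inner sum. -/
theorem Psi0_one (hu : u ∈ d.U) (y : G) : ∃ a : ℤ, 5 ∣ u.norm * a - (y * star u).re ∧ ∀ b : Fin 2,
    d.Psi0 1 u b y = if (d.N : ℤ) ∣ (y * star u).im then 8 * ep (2 * a) *
      t8 d.κ (b : ℕ) ((y * star u).re * u.norm : ℤ) (-(y * star u).im * d.N : ℤ)
        (d.N * (y * star u).im * u.norm : ℤ) (y * star u).re else 0 := by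
  obtain ⟨⟨c0, h0⟩, ⟨c1, h1⟩, ⟨c2, h2⟩, c3, h3⟩ := (d.spec d.one_U).zz (d.spec hu) y
  have e : ∀ b, d.Bx 1 * mb y 0 * (d.By u b).adjugate = hx d.κ * (!![1, 0; 0, (d.N : ℤ)] *
      (bs d.M 1 * mb y 0 * (bs d.M u).adjugate) * !![(d.N : ℤ), 0; 0, 1]) * (hy d.κ b).adjugate :=
    fun b => by
      rw [Bx, By, Matrix.adjugate_mul_distrib, Matrix.adjugate_mul_distrib,
        Matrix.adjugate_fin_two_of]
      simp only [mul_assoc, neg_zero]
  generalize bs d.M 1 * mb y 0 * (bs d.M u).adjugate = Z at h0 h1 h2 h3 e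
  generalize (y * star u).re = x0 at *
  generalize (y * star u).im = x1 at *
  obtain ⟨n, hn⟩ := d.five_dvd
  have hM : (d.M : ℤ) = 80 * d.N := by rw [M]; push_cast; rfl
  have n4 := d.norm_mod (d.cop hu)
  have nN := d.N_odd
  rw [hM] at h0 h1 h2 h3
  refine ⟨Z 0 0, ⟨16 * d.N * c0, by linear_combination h0⟩, fun b => ?_⟩
  rw [Psi0, e]
  split_ifs with h
  · obtain ⟨z, rfl⟩ := h
    have k : !![1, 0; 0, (d.N : ℤ)] * Z * !![(d.N : ℤ), 0; 0, 1] =
        (d.N : ℤ) • !![Z 0 0, -z + 80 * c1; d.N * Z 1 0, Z 1 1] := by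
      ext i j
      fin_cases i <;> fin_cases j <;>
        simp [Matrix.mul_apply, Matrix.vecMul, dotProduct, -zsmul_eq_mul] <;> linarith
    have q : ∀ x : ZMod 8, x.val % 2 = 1 → x * x = 1 := by decide
    have q1 := q (u.norm : ℤ) (by have := val8 u.norm; omega)
    have q2 := q (d.N : ℤ) (by have := val8 d.N; rw [Nat.odd_iff] at nN; omega)
    have z8 : (80 : ZMod 8) = 0 := rfl
    rw [k, mul_smul_comm, smul_mul_assoc, mul_comm (dx _), sc_scale d.N_ne, sc_hy _ _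
      ⟨n * Z 1 0, by simp [hn]; ring⟩]
    have g0 := congrArg (Int.cast : ℤ → ZMod 8) h0
    have g2 := congrArg (Int.cast : ℤ → ZMod 8) h2
    have g3 := congrArg (Int.cast : ℤ → ZMod 8) h3
    push_cast at g0 g2 g3 q2
    congr 2 <;> simp
    · linear_combination (u.norm : ZMod 8) * g0 - (Z 0 0 : ZMod 8) * q1 + u.norm * d.N * c0 * z8
    · linear_combination (c1 : ZMod 8) * z8 + z * q2
    · linear_combination (d.N * u.norm : ZMod 8) * g2 - (d.N * Z 1 0 : ZMod 8) * q1 +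
        u.norm * d.N * d.N * c2 * z8
    · linear_combination g3 + d.N * c3 * z8
  · by_contra z
    obtain ⟨Y, hY⟩ := sc_ne z
    have k := congrArg (fun X => ((hx d.κ).adjugate * X * hy d.κ b) 0 1) hY
    simp only [mul_smul_comm, smul_mul_assoc, ← mul_assoc (hx d.κ).adjugate, Matrix.adjugate_mul,
      mul_assoc _ (hy d.κ b).adjugate, hx_det, hy_det, one_mul, mul_one, Matrix.smul_apply,
      smul_eq_mul] at k
    have k1 : (!![1, 0; 0, (d.N : ℤ)] * Z * !![(d.N : ℤ), 0; 0, 1]) 0 1 = Z 0 1 := by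
      simp [Matrix.mul_apply, Matrix.vecMul, dotProduct]
    rw [k1] at k
    have k2 : (d.N : ℤ) ∣ 8 * Z 0 1 := by
      rcases dx_cases d.κ with r | r <;> rw [r] at k
      exacts [⟨4 * ((hx d.κ).adjugate * Y * hy d.κ b) 0 1, by linear_combination 4 * k⟩,
        ⟨2 * ((hx d.κ).adjugate * Y * hy d.κ b) 0 1, by linear_combination k⟩]
    obtain ⟨w, hw⟩ := IsCoprime.dvd_of_dvd_mul_left (Nat.isCoprime_iff_coprime.2
      (Nat.Coprime.pow_right 3 (Nat.coprime_two_right.2 nN))) k2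
    exact h ⟨80 * c1 - w, by linear_combination h1 - hw⟩

theorem X_eq {q : ℕ} (hq : q ∈ d.Q) (hu : IsCoprime u (d.M : G)) (hy : ¬ (q : ℤ) ∣ y.norm)
    (h : (q : ℤ) ∣ (y * star u).im) : star (d.X q u) = star (d.X q y) := by
  have hX := (d.hQ q hq).2.2
  obtain ⟨c, hc⟩ := h
  have h1 : y * star u = ((y * star u).re : G) + q * ⟨0, c⟩ := by
    generalize y * star u = x at hc
    ext <;> simp [hc]
  have h2 : ¬ (q : ℤ) ∣ (y * star u).re := fun e =>
    ((Nat.prime_iff_prime_int.1 (d.hQ q hq).1).dvd_or_dvd (a := y.norm) (b := u.norm) (by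
      rw [← Zsqrtd.norm_conj u, ← Zsqrtd.norm_mul, Zsqrtd.norm_def, hc]
      exact dvd_sub (e.mul_right _) (Dvd.dvd.mul_left (dvd_mul_right _ _) _))).elim hy
      ((d.cop_iff.1 hu).2.2 q hq)
  have h3 := hX.mul y (star u)
  rw [h1, hX.per, hX.int _ h2, hX.conj] at h3
  have h4 : star (d.X q y) * d.X q y = 1 := by
    rcases f1_roots f1_ii (hX.four y hy) with e | e | e | e <;> rw [e] <;> decide
  linear_combination -star (d.X q u) * h4 - star (d.X q y) * h3

/-- The part prime to two of the weights. -/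
def co (y : G) : G := (∏ q ∈ d.Q, star (d.X q y) ^ d.v q) * ep (r5 (star y))

theorem Rs_eq (hy : ∀ q ∈ d.Q, ¬ (q : ℤ) ∣ y.norm) : d.Rs y = 8 * ii * d.co y *
    ∑ u ∈ d.U, if (d.N : ℤ) ∣ (y * star u).im then g8 d.κ d.t d.N y.re y.im u.re u.im else 0 := by
  rw [Rs, mul_sum]
  refine sum_congr rfl fun u hu => ?_
  obtain ⟨a, h1, h2⟩ := d.Psi0_one hu y
  simp only [h2]
  split_ifs with h
  swap
  · simp
  have e1 : ep (r5 (star u)) * ep (2 * a) = ii * ep (r5 (star y)) := by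
    have k1 := (ZMod.intCast_zmod_eq_zero_iff_dvd _ 5).2 h1
    have k2 := (ZMod.intCast_zmod_eq_zero_iff_dvd _ 5).2
      ((Int.natCast_dvd_natCast.2 d.five_dvd).trans h)
    have k3 : r5 (star y) * r5 u = (y * star u).re := by
      rw [← r5_mul, ← star_star u, ← star_mul', star_star, r5, Zsqrtd.re_star, Zsqrtd.im_star,
        Int.cast_neg, k2, neg_zero, mul_zero, add_zero]
    rw [Int.cast_sub, Int.cast_mul, norm_five, ← k3] at k1
    rw [← ep_mul, show ii = ep 2 by decide, ← ep_mul]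
    congr 1
    refine (by decide : ∀ a b c : ZMod 5, a ≠ 0 → a * b = a * c → b = c) _ _ _ (d.r5_ne (d.cop hu)).1 ?_
    linear_combination 2 * k1
  rw [d.kap_unit (d.cop hu), φ, fphi, prod_congr rfl fun q hq => by
    rw [d.X_eq hq (d.cop hu) (hy q hq) ((Int.natCast_dvd_natCast.2 (d.dvd_N hq)).trans h)],
    ← mul_sum, co, g8, ph2]
  have e2 : ∀ b : Fin 2, t8 d.κ (b : ℕ) ((y * star u).re * u.norm : ℤ) (-(y * star u).im * d.N : ℤ)
      (d.N * (y * star u).im * u.norm : ℤ) (y * star u).re = t8 d.κ (b : ℕ)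
      ((y.re * u.re + y.im * u.im) * (u.re * u.re + u.im * u.im))
      (-(y.im * u.re - y.re * u.im) * d.N)
      (d.N * (y.im * u.re - y.re * u.im) * (u.re * u.re + u.im * u.im))
      (y.re * u.re + y.im * u.im) := fun b => by
    congr 1 <;> simp [Zsqrtd.norm_def] <;> ring
  simp only [e2]
  linear_combination 8 * ph8 d.κ d.t u.re u.im * (∏ q ∈ d.Q, star (d.X q y) ^ d.v q) *
    (∑ b : Fin 2, t8 d.κ (b : ℕ) ((y.re * u.re + y.im * u.im) * (u.re * u.re + u.im * u.im))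
      (-(y.im * u.re - y.re * u.im) * d.N)
      (d.N * (y.im * u.re - y.re * u.im) * (u.re * u.re + u.im * u.im))
      (y.re * u.re + y.im * u.im)) * e1

end Dat

end Pool.Agent.Lib.MP_696deb_nt.Y2
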