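import Pool.Agent.Lib.MP_696deb_nt.Y2.D2
import Pool.Agent.Lib.MP_696deb_nt.EU.C7

/-! The data of a curve. -/

set_option autoImplicit false

open Finset
open scoped Classical

namespace Pool.Agent.Lib.MP_696deb_nt.Y2

open QF

theorem exists_dat {D : ℤ} (hD : QA.Fam D) (h4 : ¬ 4 ∣ D) : ∃ d : Dat, d.D = D ∧
    d.Q = D.natAbs.primeFactors.erase 2 ∧ (∀ q, d.v q = padicValInt q D) ∧ EU.Phi D d.φ ∧
      (¬ QA.Wq D → d.W = -1) := by
  obtain ⟨κ, hF⟩ := exists_fac4 hD.ne h4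
  have hn := QA.n2_eq hD.ne
  have hQ0 : ∀ q ∈ D.natAbs.primeFactors.erase 2, q.Prime ∧ q ≠ 2 := fun q hq =>
    ⟨Nat.prime_of_mem_primeFactors (mem_of_mem_erase hq), ne_of_mem_erase hq⟩
  have hdvd : ∀ q ∈ D.natAbs.primeFactors.erase 2, (q : ℤ) ∣ D := fun q h =>
    Int.natCast_dvd.2 (Nat.dvd_of_mem_primeFactors (mem_of_mem_erase h))
  have hmem : ∀ p : ℕ, p.Prime → p ≠ 2 → (p : ℤ) ∣ D → p ∈ D.natAbs.primeFactors.erase 2 :=
    fun p hp h2 h => mem_erase.2 ⟨h2, Nat.mem_primeFactors.2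
      ⟨hp, Int.natCast_dvd.1 h, Int.natAbs_ne_zero.2 hD.ne⟩⟩
  have hn' : QA.n2 D = ((D.natAbs.primeFactors.erase 2).filter
      fun p => p % 4 = 3 ∧ padicValInt p D = 2).card := by
    rw [hn]
    congr 1
    ext p
    simp only [mem_filter, mem_erase]
    exact ⟨fun h => ⟨⟨by omega, h.1⟩, h.2⟩, fun h => ⟨h.1.2, h.2⟩⟩
  have hM : ∏ q ∈ D.natAbs.primeFactors.erase 2, q ∣ D.natAbs :=
    (prod_dvd_prod_of_subset _ _ _ (erase_subset _ _)).trans (Nat.prod_primeFactors_dvd _)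
  generalize D.natAbs.primeFactors.erase 2 = Q at hF hQ0 hdvd hmem hn' hM ⊢
  have hv := fun q h => hD.val (hQ0 q h).1 (hdvd q h)
  generalize hvv : (fun q => padicValInt q D) = v
  simp only [show ∀ q, padicValInt q D = v q from congrFun hvv] at hF hv hn' ⊢
  have hX : ∀ q : ℕ, ∃ X, q ∈ Q → IsX q X := fun q => by
    by_cases h : q ∈ Q
    · exact (exists_X (hQ0 q h).1 (hQ0 q h).2).imp fun _ k _ => k
    · exact ⟨id, fun k => absurd k h⟩
  choose X hX using hX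
  have hQ : ∀ q ∈ Q, q.Prime ∧ q ≠ 2 ∧ IsX q (X q) := fun q h => ⟨(hQ0 q h).1, (hQ0 q h).2, hX q h⟩
  obtain ⟨t, t1, t2⟩ := f8_mod4 Q hQ0 v
  have hσ : ∏ q ∈ Q, f8s q ^ v q = 1 ∨ ∏ q ∈ Q, f8s q ^ v q = -1 :=
    prod_induction _ (fun x => x = 1 ∨ x = -1)
      (by rintro a b (rfl | rfl) (rfl | rfl) <;> simp) (Or.inl rfl) fun q _ => by
        unfold f8s
        split_ifs
        · simp
        · exact neg_one_pow_eq_or ℤ _
  have hP : (0 : ℤ) < ∏ q ∈ Q, (q : ℤ) ^ v q :=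
    prod_pos fun q h => pow_pos (by exact_mod_cast (hQ0 q h).1.pos) _
  have hPσ : 4 * t + 1 = (∏ q ∈ Q, f8s q ^ v q) * ∏ q ∈ Q, (q : ℤ) ^ v q := by
    rw [← t1, ← prod_mul_distrib]
    exact prod_congr rfl fun q _ => by rw [f8_qs, mul_pow]
  have hs : ∏ q ∈ Q, f8s q = (-1) ^ QA.n2 D * ∏ q ∈ Q, f8s q ^ v q := by
    rw [hn', ← prod_const, prod_filter, ← prod_mul_distrib]
    refine prod_congr rfl fun q h => ?_
    have k1 := hv q h
    have k2 := (hQ0 q h).1.eq_two_or_odd.resolve_left (hQ0 q h).2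
    unfold f8s
    rcases (by omega : v q = 1 ∨ v q = 2 ∨ v q = 3) with e | e | e <;> rw [e] <;>
      rcases (by omega : q % 4 = 1 ∨ q % 4 = 3) with r | r <;> simp [r]
  have hpow : ∀ c : ZMod 4, ∏ q ∈ Q, star (ip (c * f8k q)) ^ v q = ip (-(c * t)) := fun c => by
    rw [prod_congr rfl fun q _ => f8_ipow _ _, f8_ip, t2, mul_sum]
    congr 2
    exact sum_congr rfl fun q _ => by ring
  have hW : (ip (e0 κ t) * ∏ q ∈ Q, f8s q * star (X q (ii * nu κ)) ^ v q : G) =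
      (-1) ^ QA.n2 D * if (0 < D ↔ QA.W2 D) then 1 else -1 := by
    rw [prod_congr rfl fun q h => by rw [(hX q h).at_nu (hQ0 q h).1 (hQ0 q h).2],
      prod_mul_distrib, hpow, ← Int.cast_prod, hs,
      ← f8_sign4 κ t (∏ q ∈ Q, f8s q ^ v q) ?_ (t1 ▸ hF)]
    · push_cast
      ring
    · rcases hσ with e | e <;> rw [e] at hPσ ⊢
      · exact Or.inl ⟨rfl, by linarith⟩
      · exact Or.inr ⟨rfl, by linarith⟩
  refine ⟨⟨κ, t, Q, v, X, hQ, fun q h => by have := hv q h; omega, t1, t2⟩, t1 ▸ hF.symm, rfl,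
    fun _ => rfl, (?_ : EU.Phi D (fphi κ t X Q v)), fun h => hW.trans ?_⟩
  swap
  · unfold QA.Wq at h
    rcases Nat.even_or_odd (QA.n2 D) with e | e
    · rw [e.neg_one_pow, if_neg (by tauto), one_mul]
    · have e' := Nat.not_even_iff_odd.2 e
      rw [e.neg_one_pow, if_pos (by
        by_cases a : 0 < D <;> by_cases b : QA.W2 D <;> simp [a, b, e'] at h ⊢), mul_one]
  refine ⟨⟨?_, fphi_mul κ t hQ, ?_, fun α => ?_, fun p hp h α e => ?_, dvd_mul_right _ _,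
    fun p hp h => ?_, fun α => ?_⟩, fun α γ => ?_, fun p _ z ρ χ h hp => ?_⟩
  · have := ph2_nat κ t (n := 1) odd_one
    rw [Nat.cast_one, if_pos rfl] at this
    rw [fphi, this, one_mul]
    exact prod_eq_one fun q h => by rw [(hX q h).one (hQ0 q h).1, star_one, one_pow]
  · rw [fphi, ph2_ii, prod_congr rfl fun q h => by
      rw [(hX q h).at_ii (hQ0 q h).1 (hQ0 q h).2], hpow]
    exact (by decide : ∀ K : ZMod 4, ip (2 * K - 1) * ip (-(2 * K)) * ii = 1) _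
  · rw [fphi, fphi, star_mul', star_prod, ph2_conj,
      prod_congr rfl fun q h => by rw [(hX q h).conj, ← star_pow]]
  · by_cases h2 : p = 2
    · subst h2
      rw [fphi, ph2_zero κ t e, zero_mul]
    · have hq := hmem p hp h2 (((Nat.prime_iff_prime_int.1 hp).dvd_or_dvd h).resolve_left
        (f8_ndvd hp Nat.prime_two h2))
      rw [fphi, prod_eq_zero hq (by
        rw [(hX p hq).zero α e, star_zero, zero_pow (by have := hv p hq; omega)]), mul_zero]
  · rw [fphi_nat κ t hQ hp (fun e => h (e ▸ dvd_mul_right _ _))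
      fun e => h ((hdvd p e).mul_left 2), f8_qs, Int.cast_mul, Int.cast_natCast]
  · have k : ∀ a b : G, a.norm ≤ 1 → b.norm ≤ 1 → (a * b).norm ≤ 1 := fun a b ha hb => by
      rw [Zsqrtd.norm_mul]
      exact mul_le_one₀ ha (GaussianInt.norm_nonneg _) hb
    refine k _ _ (ph2_bd κ t α) (prod_induction _ (fun x : G => x.norm ≤ 1) k
      Zsqrtd.norm_one.le fun q h => ?_)
    exact (map_pow Zsqrtd.normMonoidHom _ _).trans_le
      (pow_le_one₀ (GaussianInt.norm_nonneg _) ((hX q h).bd α))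
  · obtain ⟨m, hm⟩ := hM
    rw [hm, ← mul_assoc, Nat.cast_mul, mul_assoc]
    exact fphi_per κ t hQ α _
  · rw [fphi, ph2_prim κ t h.prim, ← h.supp, hF, Int.cast_mul, Int.cast_prod, map_mul, map_prod,
      star_mul', star_prod]
    congr 1
    exact prod_congr rfl fun q hq => by
      rw [Int.cast_pow, map_pow, star_pow,
        h.recip (hQ0 q hq).1 (hQ0 q hq).2 (fun e => hp (e ▸ hdvd q hq)) (hX q hq)]

end Pool.Agent.Lib.MP_696deb_nt.Y2
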