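import Pool.Agent.Lib.MP_696deb_nt.Y2.N0

/-! The type of the quotient of two Gaussian integers. -/

set_option autoImplicit false

open Complex
open scoped Classical

namespace Pool.Agent.Lib.MP_696deb_nt.Y2

open Pool.Agent.Dih

variable {w1 w2 : GaussianInt} {l i : ℕ} {k : ℤ}

/-- The norm form in a basis. -/
def fmG (w1 w2 : GaussianInt) : Fm := (w2.norm, -2 * (w1 * star w2).re, w1.norm)

theorem fmG_disc (w1 w2 : GaussianInt) : fdisc (fmG w1 w2) = -4 * (w1 * star w2).im ^ 2 := by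
  simp only [fdisc, fmG, Zsqrtd.norm_def, Zsqrtd.re_mul, Zsqrtd.im_mul, Zsqrtd.re_star,
    Zsqrtd.im_star]
  ring

theorem n6_ne (h : (w1 * star w2).im ≠ 0) : (w2 : ℂ) ≠ 0 := fun e => h (by
  rw [GaussianInt.toComplex_eq_zero.1 e, star_zero, mul_zero, Zsqrtd.im_zero])

theorem fmG_rt (h : (w1 * star w2).im ≠ 0) : Rt (fmG w1 w2) ((w1 : ℂ) / w2) := by
  have := n6_ne h
  rw [Rt]
  field_simp
  simp only [fmG, Zsqrtd.norm_def, Zsqrtd.re_mul, Zsqrtd.re_star, Zsqrtd.im_star,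
    GaussianInt.toComplex_def]
  push_cast
  linear_combination ((w1.im : ℂ) * w2.re - w1.re * w2.im) ^ 2 * I_sq +
    (-2 * (w1.im : ℂ) * w2.im * (w1.re * w2.re + w1.im * w2.im) + w1.im ^ 2 * w2.im ^ 2 * 2 +
      2 * w1.re * w1.im * w2.re * w2.im) * I_sq

theorem n6_pos (h : 0 < (w1 * star w2).im) : 0 < ((w1 : ℂ) / w2).im := by
  have h0 := normSq_pos.2 (n6_ne h.ne')
  have h1 : (0 : ℝ) < ((w1 * star w2).im : ℤ) := by exact_mod_cast h
  rw [div_im, ← sub_div]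
  refine div_pos (h1.trans_eq ?_) h0
  simp only [Zsqrtd.im_mul, Zsqrtd.re_star, Zsqrtd.im_star, GaussianInt.intCast_re,
    GaussianInt.intCast_im, Int.cast_add, Int.cast_mul, Int.cast_neg]
  ring

theorem ed_of (h0 : 0 < (w1 * star w2).im) (hn : (w1 * star w2).im = k * l ^ i)
    (hk : ¬ (l : ℤ) ∣ k) (h : ¬ (l : ℤ) ∣ w1.norm ∨ ¬ (l : ℤ) ∣ w2.norm) {fw : Prop}
    (hf : fw ↔ ¬ (l : ℤ) ∣ w2.norm) : Ed l i fw ((w1 : ℂ) / w2) :=
  ⟨n6_pos h0, fmG w1 w2, k, fmG_rt h0.ne', by rw [fmG_disc, hn]; ring, hk,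
    fun e => h.elim (fun a => a e.2.2) fun a => a e.1, hf⟩

end Pool.Agent.Lib.MP_696deb_nt.Y2
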