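import Pool.Agent.Lib.MP_696deb_nt.Y2.N5
import Pool.Agent.Lib.MP_60ff09_nt.Dih.FPa

/-! The local heights summed over a Hecke correspondence. -/

set_option autoImplicit false

open Complex
open scoped Classical

namespace Pool.Agent.Lib.MP_696deb_nt.Y2

open Pool.Agent.Dih

open Finset

variable {v : AbsoluteValue ℂ ℝ} {c τ τ' T T' : ℂ} {p i j a d : ℕ}

/-- The excess of the local height. -/
noncomputable def ex (v : AbsoluteValue ℂ ℝ) (c T T' : ℂ) : ℝ :=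
  Real.log (max (v (4 * c)) (max (v (T - 5)) (v (T' - 5))) / v (T - T'))

theorem n7_le (hv : IsNonarchimedean v) (c T T' : ℂ) :
    v (T - T') ≤ max (v (4 * c)) (max (v (T - 5)) (v (T' - 5))) := by
  refine le_trans ?_ (le_max_right _ _)
  have := hv (T - 5) (-(T' - 5))
  rwa [v.map_neg, show T - 5 + -(T' - 5) = T - T' by ring] at this

theorem ex_nonneg (hv : IsNonarchimedean v) (h : T ≠ T') : 0 ≤ ex v c T T' :=
  Real.log_nonneg ((one_le_div (v.pos (sub_ne_zero.2 h))).2 (n7_le hv c T T'))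

theorem n7_act (τ : ℂ) (a d : ℕ) (b : ℤ) : act !![(a : ℤ), b; 0, d] τ = (a * τ + b) / d := by
  simp [act_of, mob]

theorem n7_det (a d : ℕ) (b : ℤ) : (!![(a : ℤ), b; 0, d] : MZ).det = (a * d : ℕ) := by
  rw [Matrix.det_fin_two_of, mul_zero, sub_zero, Nat.cast_mul]

theorem n7_pos (h : (a * d).Coprime 10) (b : ℤ) : 0 < (!![(a : ℤ), b; 0, d] : MZ).det := by
  rw [n7_det]
  exact_mod_cast Nat.pos_of_ne_zero fun e => by simp [e] at h

theorem YT.hecke (h : YT j τ) (had : (a * d).Coprime 10) (b : ℤ) : YT j ((a * τ + b) / d) :=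
  n7_act τ a d b ▸ h.act (n7_pos had b) (by
    rw [n7_det]
    exact Nat.isCoprime_iff_coprime.2 had) (dvd_zero _)

theorem XT.hecke (h : XT j τ) (had : (a * d).Coprime 10) (b : ℤ) : XT j ((a * τ + b) / d) :=
  n7_act τ a d b ▸ h.act (n7_pos had b) (by
    rw [n7_det]
    exact Nat.isCoprime_iff_coprime.2 had) (dvd_zero _)

theorem tt_ne_tt (hτ : XT i τ) (hτ' : YT j τ') (hj : i < j) : tt τ ≠ tt τ' :=
  na_ne hτ.lv hτ'.lv hj (on_tt hτ.lv.pos) (on_tt hτ'.lv.pos)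

/-- No excess at two and at the split primes. -/
theorem ex_zero (hv : IsNonarchimedean v) (hp : p.Prime) (h4 : p = 2 ∨ p % 4 = 1) (hV : v p < 1)
    (hc : (c - 1) ^ 2 = -4) (hτ : XT i τ) (hτ' : YT j τ') (hj : i < j) :
    ex v c (tt τ) (tt τ') = 0 := by
  rw [ex, le_antisymm (na_zero hv hp h4 hV hc hτ hτ' hj (on_tt hτ.lv.pos) (on_tt hτ'.lv.pos))
    (n7_le hv _ _ _), div_self (v.pos (sub_ne_zero.2 (tt_ne_tt hτ hτ' hj))).ne', Real.log_one]

theorem Lv.exists_form {l : ℕ} (h : Lv l i τ) (hl : l.Prime) :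
    ∃ (Q : Fm) (f : ℤ), f ≠ 0 ∧ Rt Q τ ∧ fdisc Q = -4 * f ^ 2 := by
  obtain ⟨-, -, Q, k, h1, h2, h3, -⟩ := h
  exact ⟨Q, k * l ^ i, mul_ne_zero (fun e => h3 (e ▸ dvd_zero _))
    (pow_ne_zero _ (by exact_mod_cast hl.ne_zero)), h1, by rw [h2]; ring⟩

/-- The excess at an inert prime grows slowly along the powers of that prime. -/
theorem ex_sum (hp : p.Prime) (h3 : p % 4 = 3) (hτ : Lv 2 i τ) (hτ' : Lv 2 j τ') (hj : i < j) :
    ∃ n : ℕ, ∀ v : AbsoluteValue ℂ ℝ, IsNonarchimedean v → v p < 1 → ∀ c : ℂ, (c - 1) ^ 2 = -4 →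
      ∀ s : ℕ, ∑ x ∈ (p ^ s).divisorsAntidiagonal, ∑ k ∈ range x.2,
        ex v c (tt τ) (tt ((x.1 * τ' + 4 * k) / x.2)) ≤ n * (s + 1) ^ 2 * -Real.log (v p) := by
  obtain ⟨Q, f, f0, q1, q2⟩ := hτ.exists_form Nat.prime_two
  obtain ⟨Q', f', f1, q3, q4⟩ := hτ'.exists_form Nat.prime_two
  obtain ⟨n, hn⟩ := na_inert hp h3 f0 f1
  refine ⟨n, fun v hv hV c hc s => ?_⟩
  have p0 : (0 : ℝ) < p ^ s := pow_pos (by exact_mod_cast hp.pos) _
  have l0 : 0 ≤ -Real.log (v p) := neg_nonneg.2 (Real.log_nonpos (v.nonneg _) hV.le)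
  have h1 : ∀ t ∈ HI (p ^ s), ex v c (tt τ) (tt ((t.1.1 * τ' + 4 * t.2) / t.1.2)) ≤
      n * (hgc t : ℝ) ^ 2 / p ^ s * -Real.log (v p) := fun t ht => by
    have h2 := mem_sigma.1 ht
    obtain ⟨e, -⟩ := Nat.mem_divisorsAntidiagonal.1 h2.1
    obtain ⟨n1, n2⟩ := Nat.ne_zero_of_mem_divisorsAntidiagonal h2.1
    have h4 := fpa_im n1 n2 (4 * t.2) hτ'.pos
    have h5 := hn v hv hV c τ τ' _ _ Q Q' i j s t.1.1 t.1.2 (4 * t.2 : ℕ) hc q1 q2 q3 q4 hτ hτ' hj e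
      (on_tt hτ.pos) (on_tt (by exact_mod_cast h4))
    have h6 : Nat.Coprime 4 t.1.2 := Nat.Coprime.coprime_dvd_right (Dvd.intro_left _ e)
      (Nat.Coprime.pow 2 s ((Nat.coprime_primes Nat.prime_two hp).2 (by omega)))
    rw [Int.natAbs_natCast, h6.gcd_mul_left_cancel_right] at h5
    push_cast at h5
    exact h5
  have h7 : (∑ t ∈ HI (p ^ s), (hgc t : ℝ) ^ 2) ≤ (s + 1) ^ 2 * p ^ s := by
    have := sum_hgc_le (p ^ s)
    rw [Nat.divisors_prime_pow hp, card_map, card_range] at this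
    exact_mod_cast this
  refine (le_of_eq (sum_sigma _ _ fun t : (_ : ℕ × ℕ) × ℕ =>
    ex v c (tt τ) (tt ((t.1.1 * τ' + 4 * t.2) / t.1.2))).symm).trans ((sum_le_sum h1).trans ?_)
  rw [← sum_mul, ← sum_div, ← mul_sum]
  refine mul_le_mul_of_nonneg_right ?_ l0
  rw [div_le_iff₀ p0, mul_assoc]
  exact mul_le_mul_of_nonneg_left h7 n.cast_nonneg

end Pool.Agent.Lib.MP_696deb_nt.Y2
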