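import Pool.Agent.Lib.MP_696deb_nt.Y2.D2
import Pool.Agent.Lib.MP_696deb_nt.Y2.C5
import Pool.Agent.Lib.MP_696deb_nt.Y2.N6
import Pool.Agent.Lib.MP_696deb_nt.Y2.N7
import Pool.Agent.Lib.MP_696deb_nt.EU.C7

/-! The two families of points attached to the data of a curve. -/

set_option autoImplicit false

open scoped Classical
open Complex Finset

namespace Pool.Agent.Lib.MP_696deb_nt.Y2

open EA
open Q4 (Tw)
open QF (G Prim Per)

/-- The basis attached to a matrix on `(i, 1)`. -/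
def rows (B : MZ) : G × G := (⟨B 0 1, B 0 0⟩, ⟨B 1 1, B 1 0⟩)

/-- The exponent of the conductor at two of the first family. -/
def lv (κ : ZMod 4) : ℕ := if κ = 0 ∨ κ = 2 then 0 else 1

theorem dx_eq (κ : ZMod 4) : dx κ = 2 ^ lv κ := by
  unfold dx lv
  split_ifs <;> rfl

theorem dt_rows (B : MZ) : dt (rows B) = B.det := by
  simp only [dt, rows, Matrix.det_fin_two, Zsqrtd.im_mul, Zsqrtd.re_star, Zsqrtd.im_star]
  ring

theorem tb_rows (B : MZ) : tb (rows B) = act B I := by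
  simp only [tb, rows, act, mob, GaussianInt.toComplex_def']
  rw [add_comm, add_comm (B 1 1 : ℂ)]

theorem rows_mul (g B : MZ) : rows (g * B) = mv (g 0 0) (g 0 1) (g 1 0) (g 1 1) (rows B) := by
  simp only [rows, mv, Matrix.mul_apply, Fin.sum_univ_two, Prod.mk.injEq]
  constructor <;> ext <;> simp

theorem rows_mb (B : MZ) (t : G) : rows (B * mb t 0) = (t * (rows B).1, t * (rows B).2) := by
  simp only [rows, mb, Matrix.mul_apply, Fin.sum_univ_two, Prod.mk.injEq]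
  constructor <;> ext <;> simp <;> ring

theorem g0_prim {t : G} (h : Prim t) : t.norm % 4 = 1 := by
  obtain ⟨a, ha⟩ : ∃ a, t.im = 2 * a := ⟨t.im / 2, by have := h.1; omega⟩
  obtain ⟨b, hb⟩ : ∃ b, t.re = 2 * b + 1 := ⟨t.re / 2, by have := h.1; have := h.2; omega⟩
  rw [Zsqrtd.norm_def, ha, hb, show (2 * b + 1) * (2 * b + 1) - -1 * (2 * a) * (2 * a) =
    1 + 4 * (b * b + b + a * a) by ring]
  omega

theorem Tri.tr {g B B' : MZ} {t : G} (h : Tri g) (ht : Prim t) (hd : g.det = t.norm)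
    (e : B * mb t 0 = g * B') : Tr t (rows B) (rows B') 1 := by
  obtain ⟨c, hc⟩ := h.c
  refine ⟨g 0 0, g 0 1, c, g 1 1, by rw [← rows_mb, e, rows_mul, hc], ?_, fun k => ?_, ?_⟩
  · rw [← hc, ← Matrix.det_fin_two, hd, g0_prim ht]
  · have := h.a
    omega
  · rw [xp_congr h.a (q' := 0) (by simpa using h.b), xp_one]

theorem g0_norm {l a b : ℤ} (h : l ∣ b) (x y : G) :
    l ∣ (a * x + b * y : G).norm - a ^ 2 * x.norm := by
  obtain ⟨c, rfl⟩ := h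
  refine ⟨2 * a * c * (x.re * y.re + x.im * y.im) + l * c ^ 2 * y.norm, ?_⟩
  simp only [Zsqrtd.norm_def, Zsqrtd.re_add, Zsqrtd.im_add, Zsqrtd.re_mul, Zsqrtd.im_mul,
    Zsqrtd.re_intCast, Zsqrtd.im_intCast]
  ring

theorem XT.not_eq0 {i j : ℕ} {τ τ' : ℂ} (h : XT i τ) (h' : YT j τ') (hj : i < j) : ¬ Eq0 τ τ' :=
  fun ⟨a, b, c, e, k, k'⟩ => h.lv.jf_ne h'.lv Nat.prime_two hj
    (by rw [k', J2.jf_mob k h.lv.pos])

namespace Dat

variable (d : Dat) {m : ℕ}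

/-- The first family. -/
noncomputable def FX : Fam d.U := ⟨fun u => rows (d.Bx u), fun u => d.kap u⟩

/-- The second family. -/
noncomputable def FY : Fam (d.U × Fin 2) := ⟨fun x => rows (d.By x.1 x.2), fun x => d.kap x.1⟩

theorem tb_FX (u : d.U) : tb (d.FX.w u) = d.tx u := tb_rows _

theorem tb_FY (x : d.U × Fin 2) : tb (d.FY.w x) = d.ty x.1 x.2 := tb_rows _

theorem FX_ok : d.FX.Ok (2 ^ lv d.κ * d.N) :=
  ⟨mul_pos (by positivity) d.N_pos, fun u => by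
    rw [FX, dt_rows, d.Bx_det u.2, dx_eq]
    push_cast
    rfl, fun u => d.kap_four (d.mem_U.1 u.2).2⟩

theorem FY_ok : d.FY.Ok (2 ^ (lv d.κ + 1) * d.N) :=
  ⟨mul_pos (by positivity) d.N_pos, fun x => by
    rw [FY, dt_rows, d.By_det x.1.2, dx_eq]
    push_cast
    ring, fun x => d.kap_four (d.mem_U.1 x.1.2).2⟩

theorem exists_perm {t : G} (ht : IsCoprime t (d.M : G)) :
    ∃ s : d.U ≃ d.U, ∀ u, (s u : G) = red d.M (t * u) := by
  refine ⟨Equiv.ofBijective (fun u => ⟨_, d.red_U ht u.2⟩)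
    (Finite.injective_iff_bijective.1 fun u u' e => Subtype.ext ?_), fun _ => rfl⟩
  have e1 : red d.M (t * u) = red d.M (t * u') := congrArg Subtype.val e
  have h1 := dvd_sub (red_dvd d.M (t * u')) (red_dvd d.M (t * u))
  rw [e1, sub_sub_sub_cancel_left, ← mul_sub] at h1
  exact (box_rep d.M_pos).uq _ (d.mem_U.1 u.2).1 _ (d.mem_U.1 u'.2).1
    (ht.symm.dvd_of_dvd_mul_left h1)

theorem FX_stable : d.FX.Stable d.M fun a => d.φ a * eb a := fun t hp ht => by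
  obtain ⟨s, hs⟩ := d.exists_perm ht
  refine ⟨s, fun u => ?_⟩
  obtain ⟨g, g1, g2, g3⟩ := d.Bx_mul ht u.2
  refine ⟨1, ?_, ?_⟩
  · simpa only [FX, hs] using g1.tr hp g2 g3
  · simp only [FX, hs, kap_red, kap_mul, d.kap_unit ht, eb, mul_one]

theorem FY_stable : d.FY.Stable d.M fun a => d.φ a * eb a := fun t hp ht => by
  obtain ⟨s, hs⟩ := d.exists_perm ht
  refine ⟨s.prodCongr (Equiv.refl _), fun x => ?_⟩
  obtain ⟨g, g1, g2, g3⟩ := d.By_mul ht x.1.2 x.2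
  refine ⟨1, ?_, ?_⟩
  · simpa only [FY, Equiv.prodCongr_apply, Prod.map_fst, Prod.map_snd, hs, Equiv.refl_apply]
      using g1.tr hp g2 g3
  · simp only [FY, Equiv.prodCongr_apply, Prod.map_fst, hs, kap_red, kap_mul, d.kap_unit ht, eb,
      mul_one]

theorem D_ne : d.D ≠ 0 := mul_ne_zero (by unfold QF.ck; split_ifs <;> decide) (by omega)

theorem exists_lk (h : EU.Phi d.D d.φ) : ∃ (t : Tw) (M : ℕ), t.N = d.D ∧ Lk t M d.φ := by
  obtain ⟨ρ, hρ⟩ := IsAlgClosed.exists_pow_nat_eq (d.D : Sm.Qb) (n := 4) (by norm_num)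
  have h0 : 0 < 8 * d.D.natAbs := mul_pos (by norm_num) (Int.natAbs_pos.2 d.D_ne)
  exact ⟨⟨ρ, d.D, d.D_ne, hρ⟩, _, rfl, h0, h.per,
    fun g hg => link_phi d.D_ne h.gch h0 h.per h.qc hρ hg⟩

theorem g0_one {u : G} (hu : u ∈ d.U) {l : ℕ} (hl : l.Prime) (h : l ∣ 10) :
    ¬ (l : ℤ) ∣ (rows (bs d.M u)).1.norm := fun k => by
  have hc := (d.mem_U.1 hu).2
  have hM : (l : ℤ) ∣ d.M := by exact_mod_cast (h.trans ⟨8, rfl⟩).mul_right d.N
  obtain ⟨-, h2⟩ := bs_spec d.M_pos hc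
  obtain ⟨a, ha⟩ := hM.trans (h2 0 0)
  obtain ⟨b, hb⟩ := hM.trans (h2 0 1)
  simp [mb, Matrix.vecMul, dotProduct] at ha hb
  have e : (rows (bs d.M u)).1.norm =
      u.norm + l * (2 * (a * u.re - b * u.im) + l * (a * a + b * b)) := by
    simp only [rows, Zsqrtd.norm_def, eq_add_of_sub_eq ha, eq_sub_of_add_eq hb]
    ring
  rw [e, dvd_add_left (dvd_mul_right _ _)] at k
  exact (Nat.prime_iff_prime_int.1 hl).not_isUnit ((cop_norm.1 hc).isUnit_of_dvd' k hM)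

theorem g0_dvd {u : G} (hu : u ∈ d.U) {l : ℕ} (hl : l.Prime) (h : l ∣ 10) {a b : ℤ}
    (hb : (l : ℤ) ∣ b) (y : G) :
    (l : ℤ) ∣ (a * (rows (bs d.M u)).1 + b * y : G).norm ↔ (l : ℤ) ∣ a := by
  have hp := Nat.prime_iff_prime_int.1 hl
  rw [dvd_iff_dvd_of_dvd_sub (g0_norm hb _ y)]
  exact ⟨fun k => hp.dvd_of_dvd_pow ((hp.dvd_or_dvd k).resolve_right (d.g0_one hu hl h)),
    fun k => (k.trans (dvd_pow_self a two_ne_zero)).mul_right _⟩

theorem g0_rows (H S : MZ) : rows (H * !![1, 0; 0, (d.N : ℤ)] * S) =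
    (H 0 0 * (rows S).1 + (H 0 1 * d.N : ℤ) * (rows S).2,
      H 1 0 * (rows S).1 + (H 1 1 * d.N : ℤ) * (rows S).2) := by
  rw [rows_mul]
  simp [mv, Matrix.mul_apply, Fin.sum_univ_two]

theorem g0_five {u : G} (hu : u ∈ d.U) {H : MZ} {j : ℕ} (h0 : ¬ 5 ∣ H 0 0) (h1 : 5 ∣ H 1 0)
    (hd : (H * !![1, 0; 0, (d.N : ℤ)] * bs d.M u).det = 2 ^ j * d.N) :
    Ed 5 (0 + 1) False (act (H * !![1, 0; 0, (d.N : ℤ)] * bs d.M u) I) := by
  obtain ⟨k, hk⟩ := d.five_dvd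
  have h5 : ((5 : ℕ) : ℤ) ∣ d.N := by exact_mod_cast d.five_dvd
  have hN := d.N_pos
  rw [← dt_rows] at hd
  rw [← tb_rows]
  refine ed_of (hd.symm ▸ by positivity : 0 < dt _) (k := 2 ^ j * k) (hd.trans (by
    rw [hk]; push_cast; ring)) (fun e => ?_) (Or.inl ?_) ?_
  · have e1 : 5 ∣ k := (Nat.Coprime.pow_right j (by norm_num)).dvd_of_dvd_mul_left
      (show 5 ∣ 2 ^ j * k by exact_mod_cast e)
    exact Nat.prime_five.one_lt.ne' (Nat.isUnit_iff.1 (d.N_sqfree 5 (hk ▸ mul_dvd_mul_left 5 e1)))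
  · rw [g0_rows, d.g0_dvd hu Nat.prime_five (by norm_num) (h5.mul_left _)]
    exact h0
  · rw [g0_rows, d.g0_dvd hu Nat.prime_five (by norm_num) (h5.mul_left _), false_iff, not_not]
    exact h1

theorem g0_two {B : MZ} {j : ℕ} (hd : B.det = 2 ^ j * d.N)
    (h : ¬ ((2 : ℕ) : ℤ) ∣ (rows B).1.norm ∨ ¬ ((2 : ℕ) : ℤ) ∣ (rows B).2.norm) {fw : Prop}
    (hf : fw ↔ ¬ ((2 : ℕ) : ℤ) ∣ (rows B).2.norm) : Ed 2 j fw (act B I) := by
  have hN := d.N_pos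
  rw [← dt_rows] at hd
  rw [← tb_rows]
  exact ed_of (hd.symm ▸ by positivity : 0 < dt _) (k := d.N) (hd.trans (by push_cast; ring))
    (fun e => (Nat.not_even_iff_odd.2 d.N_odd) (even_iff_two_dvd.2 (by exact_mod_cast e))) h hf

theorem XT_tx {u : G} (hu : u ∈ d.U) : XT (lv d.κ) (d.tx u) := by
  have hd := d.Bx_det hu
  rw [dx_eq] at hd
  have h1 : ¬ ((2 : ℕ) : ℤ) ∣ (rows (d.Bx u)).1.norm := by
    rw [Bx, g0_rows, d.g0_dvd hu Nat.prime_two (by norm_num) (by simp [hx_eq]), hx_eq]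
    simp
  refine ⟨?_, 0, d.g0_five hu (by simp [hx_eq]) (by rw [hx_eq]; split_ifs <;> simp) hd⟩
  by_cases h2 : ((2 : ℕ) : ℤ) ∣ (rows (d.Bx u)).2.norm
  · exact Or.inl (d.g0_two hd (Or.inl h1) (by simpa using h2))
  · have h3 : lv d.κ = 0 := by
      by_contra h3
      have h4 : ¬ (d.κ = 0 ∨ d.κ = 2) := fun e => h3 (if_pos e)
      refine h2 ?_
      rw [Bx, g0_rows, d.g0_dvd hu Nat.prime_two (by norm_num) (by
        rw [hx_eq, dx, if_neg h4]; simp), hx_eq, if_neg fun e => h4 (Or.inr e)]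
      simp
    exact Or.inr ⟨h3, h3 ▸ d.g0_two hd (Or.inl h1) (by simpa using h2)⟩

theorem YT_ty {u : G} (hu : u ∈ d.U) (b : Fin 2) : YT (lv d.κ + 1) (d.ty u b) := by
  have hd : (d.By u b).det = 2 ^ (lv d.κ + 1) * d.N := by
    rw [d.By_det hu, dx_eq]
    ring
  have h0 := (by decide : ∀ κ b, ¬ 5 ∣ hy κ b 0 0 ∧ 5 ∣ hy κ b 1 0 ∧ ¬ 2 ∣ hy κ b 1 0 ∧
    2 ∣ hy κ b 1 1) d.κ b
  have h1 : ¬ ((2 : ℕ) : ℤ) ∣ (rows (d.By u b)).2.norm := by
    rw [By, g0_rows, d.g0_dvd hu Nat.prime_two (by norm_num) (h0.2.2.2.mul_right _)]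
    exact h0.2.2.1
  exact ⟨d.g0_two hd (Or.inr h1) (by simpa using h1), 0, d.g0_five hu h0.1 h0.2.1 hd⟩

theorem XT_FX (u : d.U) : XT (lv d.κ) (tb (d.FX.w u)) := d.tb_FX u ▸ d.XT_tx u.2

theorem YT_FY (x : d.U × Fin 2) : YT (lv d.κ + 1) (tb (d.FY.w x)) := d.tb_FY x ▸ d.YT_ty x.1.2 x.2

theorem tb_hk (x : (d.U × Fin 2) × HI m) : tb ((d.FY.hk m).w x) =
    (x.2.1.1.1 * d.ty x.1.1 x.1.2 + 4 * x.2.1.2) / x.2.1.1.2 := by
  rw [Fam.hk, tb_mv (d.FY_ok.dpos x.1).ne', tb_FY]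
  simp [mob]

theorem YT_hk (hm : m % 4 = 1) (h5 : ¬ 5 ∣ m) (x : (d.U × Fin 2) × HI m) :
    YT (lv d.κ + 1) (tb ((d.FY.hk m).w x)) := by
  have h := (d.YT_ty x.1.1.2 x.1.2).hecke (a := x.2.1.1.1) (d := x.2.1.1.2) (by
    rw [(mem_HI.1 x.2.2).1.1]
    exact (Nat.coprime_two_right.2 (Nat.odd_iff.2 (by omega))).mul_right
      (Nat.prime_five.coprime_iff_not_dvd.2 h5).symm) (4 * x.2.1.2)
  rw [tb_hk]
  exact_mod_cast h

theorem not_eq0 (u : d.U) (x : d.U × Fin 2) : ¬ Eq0 (tb (d.FX.w u)) (tb (d.FY.w x)) :=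
  (d.XT_FX u).not_eq0 (d.YT_FY x) (Nat.lt_succ_self _)

theorem sum_FX : ∑ u, d.FX.z u = d.pt := by
  rw [pt, ← sum_coe_sort d.U]
  exact sum_congr rfl fun u _ => by rw [Fam.z, tb_FX, FX]

theorem sum_FY : ∑ x, d.FY.z x = aN 2 * d.pt := by
  obtain ⟨C, hC⟩ := uu_U2
  have h : ∀ u : d.U, ∑ b, d.FY.z (u, b) = aN 2 * (d.kap u * uu (d.tx u)) + d.kap u * C :=
    fun u => by
      obtain ⟨τ, h0, h1, h2, h3⟩ := d.tx_ty u.2
      simp only [Fin.sum_univ_two, Fam.z, tb_FY]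
      rw [h1, h2, h3, FY, ← mul_add, hC τ h0]
      ring
  have h0 : ∑ u ∈ d.U, (d.kap u : ℂ) = 0 := by rw [← map_sum, sum_kap, map_zero]
  rw [Fintype.sum_prod_type, sum_congr rfl fun u _ => h u, sum_add_distrib, ← sum_mul, ← mul_sum,
    sum_coe_sort d.U fun u => (d.kap u : ℂ), h0, zero_mul, add_zero, pt, ← sum_coe_sort d.U]

theorem sum_hk (hm : 0 < m) : ∑ x, (d.FY.hk m).z x = aG m * aN 2 * d.pt := by
  rw [mul_assoc, ← sum_FY, mul_sum, Fam.sum_hk d.FY_ok fun z => z]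
  refine sum_congr rfl fun x _ => ?_
  have h := phi_hecke hm (tb_pos (d.FY_ok.dpos x))
  rw [Fam.z, uu, show (aG m : ℂ) * (d.FY.wt x * (rho * phi (tb (d.FY.w x)))) =
    d.FY.wt x * rho * (aG m * phi (tb (d.FY.w x))) by ring, ← h, mul_sum]
  refine sum_congr rfl fun y _ => ?_
  rw [mul_sum, mul_sum]
  exact sum_congr rfl fun k _ => by rw [uu]; ring

end Dat

end Pool.Agent.Lib.MP_696deb_nt.Y2
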