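import Pool.Agent.Lib.MP_696deb_nt.Y2.G0

/-! Points with even conductor have trivial stabilisers. -/

set_option autoImplicit false

open scoped Classical MatrixGroups
open Complex UpperHalfPlane

namespace Pool.Agent.Lib.MP_696deb_nt.Y2

variable {i j : ℕ} {τ : ℂ}

theorem g1_lin (hτ : 0 < τ.im) {x y : ℤ} (h : x * τ + y = 0) : x = 0 ∧ y = 0 := by
  have h1 : x = 0 := by simpa [hτ.ne'] using congrArg Complex.im h
  exact ⟨h1, by simpa [h1] using h⟩

theorem Lv.fix (h : Lv 2 (j + 1) τ) {a b c d : ℤ} (hd : a * d - b * c = 1)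
    (e : a * τ + b = τ * (c * τ + d)) : b = 0 ∧ c = 0 ∧ (a = 1 ∧ d = 1 ∨ a = -1 ∧ d = -1) := by
  obtain ⟨-, hτ, ⟨A, B, C⟩, k, h1, h2, h3, h4, -⟩ := h
  simp only [Dih.Rt, fdisc, Dih.Prm] at h1 h2 h4
  obtain ⟨e1, e2⟩ := g1_lin hτ (x := B * c - A * (d - a)) (y := C * c + A * b) (by
    push_cast
    linear_combination (c : ℂ) * h1 + (A : ℂ) * e)
  by_cases hc : c = 0
  · subst hc
    obtain ⟨e3, e4⟩ := g1_lin hτ (x := a - d) (y := b) (by
      push_cast at e ⊢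
      linear_combination e)
    exact ⟨e4, rfl, Int.eq_one_or_neg_one_of_mul_eq_one' (by simpa using hd)⟩
  exfalso
  obtain ⟨l, hl⟩ : ∃ l : ℤ, l = k * 2 ^ j := ⟨_, rfl⟩
  have l0 : l ≠ 0 := hl ▸ mul_ne_zero (fun e => h3 (e ▸ dvd_zero _)) (by positivity)
  have h5 : B ^ 2 - 4 * A * C = -16 * l ^ 2 := by
    rw [h2, hl]
    push_cast
    ring
  have h6 : A ^ 2 * (4 - (a + d) ^ 2) = (4 * c * l) ^ 2 := by
    linear_combination (-4 * A ^ 2) * hd - c ^ 2 * h5 + (B * c + A * (d - a)) * e1 -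
      4 * A * c * e2
  have h7 : 0 < (4 * c * l) ^ 2 := by positivity
  have h8 : (a + d) ^ 2 < 4 := by nlinarith [sq_nonneg A]
  obtain h9 | h9 : a + d = 0 ∨ (a + d) ^ 2 = 1 := by
    have : -2 < a + d := by nlinarith
    have : a + d < 2 := by nlinarith
    rcases (by omega : a + d = 0 ∨ a + d = 1 ∨ a + d = -1) with k | k | k <;> simp [k]
  · obtain ⟨m, hm⟩ : ∃ m, A = c * (2 * m) := by
      rcases sq_eq_sq_iff_eq_or_eq_neg.1 (show A ^ 2 = (c * (2 * l)) ^ 2 by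
        rw [h9] at h6
        nlinarith) with k | k
      exacts [⟨l, k⟩, ⟨-l, by rw [k]; ring⟩]
    refine h4 ⟨⟨c * m, by rw [hm]; push_cast; ring⟩, ⟨m * (d - a), mul_left_cancel₀ hc ?_⟩,
      ⟨-(m * b), mul_left_cancel₀ hc ?_⟩⟩
    · push_cast
      linear_combination e1 + (d - a) * hm
    · push_cast
      linear_combination e2 - b * hm
  · rw [h9] at h6
    have h10 : IsSquare (3 : ℤ) := by
      have A0 : A ≠ 0 := fun k => by simp [← h6, k] at h7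
      obtain ⟨r, hr⟩ : A ∣ 4 * c * l := (Int.pow_dvd_pow_iff two_ne_zero).1 ⟨_, h6.symm⟩
      exact ⟨r, mul_left_cancel₀ (pow_ne_zero 2 A0) (by rw [hr] at h6; linear_combination h6)⟩
    obtain ⟨r, hr⟩ := h10
    have : -2 < r := by nlinarith
    have : r < 2 := by nlinarith
    interval_cases r <;> omega

theorem g1_smul (g : SL(2, ℤ)) (w : ℍ) : ((g • w : ℍ) : ℂ) = mob (g 0 0) (g 0 1) (g 1 0) (g 1 1) w := by
  rw [specialLinearGroup_apply]
  simp [mob]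

theorem g1_det (g : SL(2, ℤ)) : g 0 0 * g 1 1 - g 0 1 * g 1 0 = 1 := by
  rw [← Matrix.det_fin_two]
  exact g.det_coe

theorem Lv.free {w : ℍ} (h : Lv 2 (j + 1) w) (g : SL(2, ℤ)) (e : g • w = w) : g = 1 ∨ g = -1 := by
  have e1 := g1_smul g w
  have h0 : (g 1 0 : ℂ) * w + g 1 1 ≠ 0 := fun k => by
    obtain ⟨a, b⟩ := g1_lin w.im_pos k
    simpa [a, b] using g1_det g
  rw [e, mob, eq_div_iff h0] at e1
  obtain ⟨a, b, c⟩ := h.fix (g1_det g) e1.symm
  refine c.imp (fun c => ?_) fun c => ?_ <;> ext x y <;> fin_cases x <;> fin_cases y <;>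
    simp [a, b, c.1, c.2]

theorem Lv.ne_smul {z w : ℍ} (h : Lv 2 i z) (h' : Lv 2 j w) (hj : i < j) (g : SL(2, ℤ)) :
    z ≠ g • w := fun e => h.jf_ne h' Nat.prime_two hj
  (by rw [e, g1_smul, J2.jf_mob (g1_det g) w.im_pos])

end Pool.Agent.Lib.MP_696deb_nt.Y2
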