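import Pool.Agent.Lib.MP_23455a_nt.Mod
import Pool.Agent.Lib.MP_696deb_nt.UnifG
import Pool.Agent.Lib.MP_696deb_nt.EA.K5

/-! The modular curve of genus one over `X_0(10)`: definitions. -/

set_option autoImplicit false

open Filter Topology Complex PeriodPair ModularForm Pool.Agent.Shared.Weier
open scoped Real ComplexConjugate

namespace Pool.Agent.Lib.MP_696deb_nt.Y2

open Klein Gal
open QF (G ii ip)
open Pool.Agent.Lib.MP_23455a_nt (lat lat_ω₁ lat_ω₂ mem_lat)

/-- The even character of conductor twenty and order four that sends three to `i`. -/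
def om (d : ZMod 20) : G :=
  if d = 1 ∨ d = 19 then 1 else if d = 3 ∨ d = 17 then ⟨0, 1⟩ else if d = 9 ∨ d = 11 then -1
  else if d = 7 ∨ d = 13 then ⟨0, -1⟩ else 0

theorem om_mul : ∀ a b : ZMod 20, om (a * b) = om a * om b := by decide +kernel

theorem om_one : om 1 = 1 := by decide

theorem om_neg : ∀ a : ZMod 20, om (-a) = om a := by decide

theorem om_inv : ∀ a d : ZMod 20, a * d = 1 → om a ≠ 0 ∧ om d = star (om a) ∧ om d ^ 4 = 1 := by
  decide +kernel

/-- The multiples of a point. -/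
noncomputable def pw (L : PeriodPair) (t : ℂ) (j : ℤ) : ℂ := ℘[L] (j * t)

/-- The first unit. -/
noncomputable def kA (L : PeriodPair) (t : ℂ) : ℂ :=
  (pw L t 1 - pw L t 9) * (pw L t 8 - pw L t 10) / ((pw L t 4 - pw L t 6) * (pw L t 5 - pw L t 10))

/-- The second unit. -/
noncomputable def kB (L : PeriodPair) (t : ℂ) : ℂ :=
  (pw L t 3 - pw L t 7) * (pw L t 4 - pw L t 10) / ((pw L t 2 - pw L t 8) * (pw L t 5 - pw L t 10))

/-- The representative of least absolute value, up to sign. -/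
def nf (x : ZMod 20) : ℤ := if x.val ≤ 10 then x.val else 20 - x.val

section

variable {L M : PeriodPair} {t s c : ℂ}

theorem pw_congr (h : 20 * t ∈ L.lattice) {a b : ℤ} (hab : 20 ∣ a - b ∨ 20 ∣ a + b) :
    pw L t a = pw L t b := by
  have key : ∀ a b : ℤ, 20 ∣ a - b → pw L t a = pw L t b := by
    rintro a b ⟨m, hm⟩
    rw [pw, pw, ← L.weierstrassP_add_coe (b * t) ⟨_, zsmul_mem h m⟩, show a = b + 20 * m by omega]
    simp only [zsmul_eq_mul]
    push_cast
    ring_nf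
  rcases hab with e | e
  · exact key a b e
  · rw [key a (-b) (by simpa using e), pw, pw, Int.cast_neg, neg_mul, weierstrassP_neg]

theorem pw_nf (h : 20 * t ∈ L.lattice) (j k : ℤ) : pw L (k * t) j = pw L t (nf (j * k)) := by
  have e : pw L (k * t) j = pw L t (j * k) := by rw [pw, pw, Int.cast_mul, mul_assoc]
  rw [e]
  refine pw_congr h ?_
  have h1 := ZMod.val_intCast (n := 20) (j * k)
  rw [nf, ← Int.cast_mul]
  split_ifs <;> omega

theorem nf_tab : ∀ x : ZMod 20, om x ≠ 0 → nf (5 * x) = 5 ∧ nf (10 * x) = 10 ∧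
    (om x = 1 ∧ nf (1 * x) = 1 ∧ nf (9 * x) = 9 ∧ nf (8 * x) = 8 ∧ nf (4 * x) = 4 ∧ nf (6 * x) = 6 ∧
      nf (3 * x) = 3 ∧ nf (7 * x) = 7 ∧ nf (2 * x) = 2 ∨
    om x = ⟨0, 1⟩ ∧ nf (1 * x) = 3 ∧ nf (9 * x) = 7 ∧ nf (8 * x) = 4 ∧ nf (4 * x) = 8 ∧
      nf (6 * x) = 2 ∧ nf (3 * x) = 9 ∧ nf (7 * x) = 1 ∧ nf (2 * x) = 6 ∨
    om x = -1 ∧ nf (1 * x) = 9 ∧ nf (9 * x) = 1 ∧ nf (8 * x) = 8 ∧ nf (4 * x) = 4 ∧ nf (6 * x) = 6 ∧
      nf (3 * x) = 7 ∧ nf (7 * x) = 3 ∧ nf (2 * x) = 2 ∨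
    om x = ⟨0, -1⟩ ∧ nf (1 * x) = 7 ∧ nf (9 * x) = 3 ∧ nf (8 * x) = 4 ∧ nf (4 * x) = 8 ∧
      nf (6 * x) = 2 ∧ nf (3 * x) = 1 ∧ nf (7 * x) = 9 ∧ nf (2 * x) = 6) := by decide +kernel

/-- The action of the diamond operators. -/
theorem k_mul (h : 20 * t ∈ L.lattice) {k : ℤ} (hk : om k ≠ 0) :
    kA L (k * t) = (om k).re * kA L t - (om k).im * kB L t ∧
      kB L (k * t) = (om k).im * kA L t + (om k).re * kB L t := by
  obtain ⟨h5, h10, H⟩ := nf_tab k hk
  simp only [kA, kB, pw_nf h, Int.cast_ofNat, Int.cast_one]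
  rw [h5, h10]
  rcases H with ⟨e, h1, h9, h8, h4, h6, h3, h7, h2⟩ | ⟨e, h1, h9, h8, h4, h6, h3, h7, h2⟩ |
    ⟨e, h1, h9, h8, h4, h6, h3, h7, h2⟩ | ⟨e, h1, h9, h8, h4, h6, h3, h7, h2⟩ <;>
  rw [e, h1, h9, h8, h4, h6, h3, h7, h2]
  · simp
  · constructor
    · rw [← neg_sub (pw L t 2) (pw L t 8), neg_mul, div_neg]; simp
    · rw [← neg_sub (pw L t 1) (pw L t 9), ← neg_sub (pw L t 4) (pw L t 6), neg_mul, neg_mul,
        neg_div_neg_eq]; simp
  · constructor
    · rw [← neg_sub (pw L t 1) (pw L t 9), neg_mul, neg_div]; simp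
    · rw [← neg_sub (pw L t 3) (pw L t 7), neg_mul, neg_div]; simp
  · constructor
    · rw [← neg_sub (pw L t 3) (pw L t 7), ← neg_sub (pw L t 2) (pw L t 8), neg_mul, neg_mul,
        neg_div_neg_eq]; simp
    · rw [← neg_sub (pw L t 4) (pw L t 6), neg_mul, div_neg]; simp

theorem pw_sc (h1 : Sc c M L) (h2 : c * s - t ∈ L.lattice) (k : ℤ) :
    pw L t k = c⁻¹ ^ 2 * pw M s k := by
  rw [pw, pw, ← h1.wp, ← L.weierstrassP_add_coe (k * t) ⟨_, zsmul_mem h2 k⟩]
  congr 1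
  simp only [zsmul_eq_mul]
  ring

/-- Homogeneity. -/
theorem k_sc (h1 : Sc c M L) (h2 : c * s - t ∈ L.lattice) : kA L t = kA M s ∧ kB L t = kB M s := by
  have := pow_ne_zero 2 (inv_ne_zero h1.ne)
  simp only [kA, kB, pw_sc h1 h2, ← mul_sub]
  constructor <;>
  rw [mul_mul_mul_comm, mul_mul_mul_comm _ (_ - _) (c⁻¹ ^ 2),
    mul_div_mul_left _ _ (mul_ne_zero this this)]

end

/-- The character of `Γ₀(10)` at the matrix with second column `(b, d)`. -/
def xi (b d : ZMod 20) : G := ii ^ (b * d).val * om d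

/-- The quartic character modulo five that sends two to `i`. -/
def ep (r : ZMod 5) : G :=
  if r = 1 then 1 else if r = 2 then ⟨0, 1⟩ else if r = 3 then ⟨0, -1⟩ else if r = 4 then -1 else 0

/-- The residue modulo `2 + i`. -/
def r5 (α : G) : ZMod 5 := α.re + 3 * α.im

/-- The Hecke character of conductor `2 + i`, extended by zero on even elements. -/
def psi (α : G) : G := if (α.re + α.im) % 2 = 0 then 0 else ep (r5 α) * α

/-- The coefficients of the cusp form. -/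
noncomputable def aG (m : ℕ) : G :=
  ∑ α ∈ (QF.reps m).filter fun α => (α.re + α.im) % 2 = 1 ∧ r5 α = 1, α

/-- The coefficients of the newform of level twenty. -/
noncomputable def aN (m : ℕ) : G := ∑ α ∈ (QF.reps m).filter fun α => r5 α = 1, α

/-- The lattice spanned by `(5 τ + 1) / 2` and one. -/
noncomputable def Lt (τ : ℂ) : PeriodPair := lat ((5 * τ + 1) / 2)

/-- The first unit on the upper half plane. -/
noncomputable def ua (τ : ℂ) : ℂ := kA (Lt τ) (τ / 4)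

/-- The second unit on the upper half plane. -/
noncomputable def ub (τ : ℂ) : ℂ := kB (Lt τ) (τ / 4)

/-- The first coordinate. -/
noncomputable def ux (τ : ℂ) : ℂ := ua τ * ub τ

/-- The second coordinate. -/
noncomputable def uy (τ : ℂ) : ℂ := ua τ - I * ub τ

/-- The second coordinate on the conjugate curve. -/
noncomputable def uz (τ : ℂ) : ℂ := ua τ + I * ub τ

/-- The Hauptmodul of level ten. -/
noncomputable def tt (τ : ℂ) : ℂ :=
  eta2 (2 * τ) ^ 2 * eta2 (5 * τ) / (eta2 τ * eta2 (10 * τ) ^ 2)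

/-- An eta product of weight two. -/
noncomputable def gg (τ : ℂ) : ℂ := eta2 τ * eta2 (5 * τ)

/-- The cusp form. -/
noncomputable def fY (τ : ℂ) : ℂ := gg τ * uz τ / ux τ

/-- The primitive of the cusp form. -/
noncomputable def phi (τ : ℂ) : ℂ := ∑' m : ℕ, (aG m : ℂ) / m * q1 (τ / 4) ^ m

/-- A fourth root of `1 + 2 i` among the algebraic numbers. -/
noncomputable def rq : Sm.Qb :=
  (IsAlgClosed.exists_pow_nat_eq (EA.io ⟨1, 2⟩) (n := 4) (by norm_num)).choose

theorem rq_four : rq ^ 4 = EA.io ⟨1, 2⟩ :=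
  (IsAlgClosed.exists_pow_nat_eq (EA.io ⟨1, 2⟩) (n := 4) (by norm_num)).choose_spec

/-- A complex fourth root of `1 + 2 i`. -/
noncomputable def rho : ℂ := EA.jc rq

theorem rho_four : rho ^ 4 = 1 + 2 * I := by
  rw [rho, ← map_pow, rq_four, EA.jc_io, GaussianInt.toComplex_def']
  simp

theorem rho_ne : rho ≠ 0 := fun h => by
  have := congr_arg re rho_four
  simp [h] at this

/-- The uniformising function; its values are read modulo the lattice `EA.LG`. -/
noncomputable def uu (τ : ℂ) : ℂ := rho * phi τ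

/-- Equivalence under `Γ₀(10)`. -/
def Eq0 (z w : ℂ) : Prop := ∃ a b c d : ℤ, a * d - b * (10 * c) = 1 ∧ w = mob a b (10 * c) d z

/-- Equivalence under the kernel of the character. -/
def EqY (z w : ℂ) : Prop :=
  ∃ a b c d : ℤ, a * d - b * (10 * c) = 1 ∧ xi b d = 1 ∧ w = mob a b (10 * c) d z

/-- Cusp forms of weight two on `Γ₀(10)` with the character `xi`. -/
structure SY (F : ℂ → ℂ) : Prop where
  hol : Hol F
  inv : ∀ a b c d : ℤ, a * d - b * (10 * c) = 1 → ∀ z : ℂ, 0 < z.im →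
    sl a b (10 * c) d F z = xi b d * F z
  bd : ∃ C : ℝ, ∀ z : ℂ, 0 < z.im → ‖F z‖ * z.im ≤ C

/-- The Atkin-Lehner matrices; they send infinity to the cusps `∞`, `1 / 5`, `1 / 2`, `0`. -/
def alM : Fin 4 → ℤ × ℤ × ℤ × ℤ := ![(1, 0, 0, 1), (2, 1, 10, 6), (5, 2, 10, 5), (0, -1, 10, 0)]

/-- The Atkin-Lehner maps. -/
noncomputable def al (i : Fin 4) : ℂ → ℂ := mob (alM i).1 (alM i).2.1 (alM i).2.2.1 (alM i).2.2.2

/-- One half of the product formula for a Klein form of level ten. -/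
noncomputable def W10 (τ : ℂ) (j : ℤ) : ℂ := poch (q1 (10 * τ)) (q1 (j * τ))

end Pool.Agent.Lib.MP_696deb_nt.Y2
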