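import Pool.Agent.Lib.MP_696deb_nt.Y2.TH0
import Pool.Agent.Lib.MP_696deb_nt.Y2.A0
import Pool.Agent.Lib.MP_696deb_nt.Y2.M0
import Pool.Agent.Lib.MP_696deb_nt.QF.F3

/-! The section attached to a periodic function on the Gaussian integers: definitions. -/

set_option autoImplicit false

open Complex Finset
open scoped Real ComplexConjugate Classical MatrixGroups

namespace Pool.Agent.Lib.MP_696deb_nt.Y2

open QF (G ii ip Per FT mem_reps)

/-- The sum over the residues. -/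
noncomputable def sm (M : ℕ) (f : G → ℂ) : ℂ := ∑ x ∈ range M, ∑ y ∈ range M, f ⟨x, y⟩

/-- The element `M (1 + i) / 2`. -/
def hM (M : ℕ) : G := ⟨(M / 2 : ℕ), (M / 2 : ℕ)⟩

/-- The scalar product. -/
def bil (x y : G) : ℤ := x.re * y.re + x.im * y.im

/-- The inverse Fourier transform. -/
noncomputable def iFT (M : ℕ) (ψ : G → ℂ) (x : G) : ℂ := FT M ψ (-x) / M ^ 2

/-- The coefficients of a theta series with rational characteristics. -/
noncomputable def cf (M : ℕ) (p q c d : ℤ) (x A : G) : ℂ :=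
  if (M : G) ∣ A - c * x - p * hM M then
    q1 (q * (bil (A - c * x - p * hM M) ⟨1, 1⟩ : ℤ) / (2 * M) +
      d * (2 * bil A x - c * x.norm : ℤ) / (2 * M ^ 2)) else 0

/-- The coefficient of the section without the weight of the row. -/
noncomputable def ph (M : ℕ) (a : G → ℂ) (c d : ℤ) (A : G) : ℂ :=
  sm M fun x => a x * cf M 1 0 c d x A

/-- The weight of a row. -/
noncomputable def Wt (c d : ℤ) : ℂ := if c % 2 = 1 ∧ 5 ∣ c then conj (ep d : G) else 0

/-- The section. -/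
noncomputable def sec (M : ℕ) (a : G → ℂ) : An.Sec :=
  ⟨2 * M ^ 2, fun n c d => Wt c d * ∑ A ∈ QF.reps n, ph M a c d A⟩

/-- The Fourier transform in the second entry of the row, at one element. -/
noncomputable def lamA (M : ℕ) (a : G → ℂ) (c l : ℤ) (A : G) : ℂ :=
  (∑ d ∈ range (2 * M ^ 2), Wt c d * ph M a c d A * q1 (d * l / (2 * M ^ 2))) / (2 * M ^ 2)

/-- The coefficients at the cusp `1 / 5`. -/
noncomputable def tk (M : ℕ) (a : G → ℂ) (k m : ℕ) : ℂ :=
  Wt (5 * k) k * ∑ y ∈ QF.reps m, FT M a (k * y)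

/-- The level and the character. -/
noncomputable def levY : An.Lev := ⟨10, 4, fun g => (xi (g 0 1) (g 1 1) : G)⟩

/-- The matrix of the cusp `1 / 5`. -/
def g5 : SL(2, ℤ) := ⟨!![1, 0; 5, 1], by simp⟩

/-- Periodic functions that are odd at two. -/
structure Adm (M : ℕ) (a : G → ℂ) : Prop where
  pos : 0 < M
  ten : 10 ∣ M
  per : Per M a
  odd : ∃ (k M' : ℕ) (u : ℤ), M = 2 ^ k * M' ∧ M' % 2 = 1 ∧ (M' : ℤ) ∣ u - 1 ∧
    2 * (M : ℤ) ^ 2 ∣ u ^ 2 - 1 ∧ ∀ x, a (u * x) = -a x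

variable {M : ℕ} {f a : G → ℂ} {p q c d : ℤ} {z : ℂ}

theorem per_of_dvd (hf : Per M f) {x y : G} (h : (M : G) ∣ x - y) : f x = f y := by
  obtain ⟨γ, e⟩ := h
  rw [← hf y γ, ← e, add_sub_cancel]

theorem FT_eq (M : ℕ) (f : G → ℂ) (ξ : G) :
    FT M f ξ = sm M fun x => f x * q1 ((bil x ξ : ℤ) / M) := by
  simp only [FT, sm, q1, bil, mul_div_assoc]

theorem sm_congr {g : G → ℂ} (h : ∀ x, f x = g x) : sm M f = sm M g := by rw [funext h]

theorem sm_mul_left (t : ℂ) : sm M (fun x => t * f x) = t * sm M f := by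
  simp only [sm, mul_sum]

theorem sm_sub (f g : G → ℂ) : sm M (fun x => f x - g x) = sm M f - sm M g := by
  simp only [sm, sum_sub_distrib]

theorem sm_neg : sm M (fun x => -f x) = -sm M f := by simp only [sm, sum_neg_distrib]

theorem sm_comm (F : G → G → ℂ) {N : ℕ} :
    sm M (fun x => sm N fun y => F x y) = sm N fun y => sm M fun x => F x y := by
  simp only [sm]
  exact (sum_congr rfl fun _ _ => sum_comm.trans (sum_congr rfl fun _ _ => sum_comm)).trans
    (sum_comm.trans (sum_congr rfl fun _ _ => sum_comm))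

theorem norm_sm_le {B : G → ℝ} (h : ∀ x, ‖f x‖ ≤ B x) :
    ‖sm M f‖ ≤ ∑ x ∈ range M, ∑ y ∈ range M, B ⟨x, y⟩ :=
  norm_sum_le_of_le _ fun _ _ => norm_sum_le_of_le _ fun _ _ => h _

theorem hasSum_sm {ι : Type} {F : G → ι → ℂ} (h : ∀ x, HasSum (F x) (f x)) :
    HasSum (fun i => sm M fun x => F x i) (sm M f) :=
  hasSum_sum fun _ _ => hasSum_sum fun _ _ => h _

/-- Sums over residues are invariant under permutations of the residues. -/
theorem sm_perm (hM : 0 < M) (hf : Per M f) {σ : G → G}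
    (hσ : ∀ x y, (M : G) ∣ σ x - σ y → (M : G) ∣ x - y) : sm M (fun x => f (σ x)) = sm M f := by
  have M0 : (0 : ℤ) < M := by exact_mod_cast hM
  let r : G → ℕ × ℕ := fun x => ((x.re % M).toNat, (x.im % M).toNat)
  have e1 : ∀ t : ℤ, ((t % M).toNat : ℤ) = t % M := fun t =>
    Int.toNat_of_nonneg (Int.emod_nonneg _ M0.ne')
  have h1 : ∀ x : G, (M : G) ∣ x - ⟨(r x).1, (r x).2⟩ := fun x => by
    rw [← Int.cast_natCast, Zsqrtd.intCast_dvd]
    simp only [r, e1, Zsqrtd.re_sub, Zsqrtd.im_sub]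
    exact ⟨Int.dvd_self_sub_emod, Int.dvd_self_sub_emod⟩
  have h2 : ∀ x : G, r x ∈ range M ×ˢ range M := fun x => by
    have := Int.emod_lt_of_pos x.re M0
    have := Int.emod_lt_of_pos x.im M0
    simp only [r, mem_product, mem_range]
    omega
  have key : ∀ s t : ℕ, s < M → t < M → (M : ℤ) ∣ s - t → s = t := fun s t hs ht h => by
    have := Int.eq_zero_of_abs_lt_dvd h (by rw [abs_lt]; omega)
    omega
  rw [sm, sm, ← sum_product', ← sum_product']
  have inj : Set.InjOn (fun v : ℕ × ℕ => r (σ ⟨v.1, v.2⟩)) (range M ×ˢ range M : Finset _) := by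
    intro v hv w hw e
    have h3 := dvd_sub (h1 (σ ⟨v.1, v.2⟩)) (h1 (σ ⟨w.1, w.2⟩))
    simp only at e
    rw [e, sub_sub_sub_cancel_right] at h3
    have h4 := hσ _ _ h3
    rw [← Int.cast_natCast, Zsqrtd.intCast_dvd] at h4
    simp only [coe_product, Set.mem_prod, mem_coe, mem_range] at hv hw
    exact Prod.ext (key _ _ hv.1 hw.1 h4.1) (key _ _ hv.2 hw.2 h4.2)
  have him : (range M ×ˢ range M).image (fun v : ℕ × ℕ => r (σ ⟨v.1, v.2⟩)) = range M ×ˢ range M :=
    eq_of_subset_of_card_le (fun v hv => by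
      obtain ⟨w, -, rfl⟩ := mem_image.1 hv
      exact h2 _) (card_image_of_injOn inj).ge
  conv_rhs => rw [← him, sum_image inj]
  exact sum_congr rfl fun v _ => per_of_dvd hf (h1 _)

theorem sm_mul (hM : 0 < M) (hf : Per M f) {k k' : G} (h : (M : G) ∣ k' * k - 1) :
    sm M (fun x => f (k * x)) = sm M f :=
  sm_perm hM hf fun x y e => by
    rw [show x - y = k' * (k * x - k * y) - (k' * k - 1) * (x - y) by ring]
    exact dvd_sub (e.mul_left _) (h.mul_right _)

theorem sm_add (hM : 0 < M) (hf : Per M f) (t : G) : sm M (fun x => f (x + t)) = sm M f :=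
  sm_perm hM hf fun x y e => by rwa [add_sub_add_right_eq_sub] at e

theorem norm_eq_bil (x : G) : x.norm = bil x x := by rw [Zsqrtd.norm_def, bil]; ring

theorem norm_q1_real (t : ℝ) : ‖q1 t‖ = 1 := by rw [norm_q1]; simp

theorem norm_cf_le (x A : G) : ‖cf M p q c d x A‖ ≤ 1 := by
  rw [cf]
  split_ifs
  · rw [norm_q1, Real.exp_le_one_iff]
    norm_cast
    simp
  · simp

theorem two_hM (h : 2 ∣ M) : ∃ H : ℕ, M = 2 * H ∧ hM M = ⟨H, H⟩ := by
  obtain ⟨H, rfl⟩ := h
  exact ⟨H, rfl, by simp [hM]⟩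

theorem hasSum_cf (hM : 0 < M) (h2 : 2 ∣ M) (hz : 0 < z.im) (p q c d : ℤ) (x : G) :
    HasSum (fun A : G => cf M p q c d x A * q1 (A.norm * z / (2 * M ^ 2)))
      (Th2 p q (c * x / M) (d * x / M) z) := by
  obtain ⟨H, rfl, hH⟩ := two_hM h2
  have M0 : ((2 * H : ℕ) : G) ≠ 0 := by exact_mod_cast hM.ne'
  have H0 : (H : ℂ) ≠ 0 := by exact_mod_cast (show H ≠ 0 by omega)
  have inj : Function.Injective fun b : G => (2 * H : ℕ) * b + c * x + p * Y2.hM (2 * H) :=
    fun b b' e => mul_left_cancel₀ M0 (add_right_cancel (add_right_cancel e))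
  refine (inj.hasSum_iff fun A hA => ?_).1 ((hasSum_Th2 hz p q _ _).congr_fun fun b => ?_)
  · rw [cf, if_neg, zero_mul]
    rintro ⟨b, e⟩
    exact hA ⟨b, by linear_combination -e⟩
  · have e : ∀ t : ℤ, ((t : ℂ) * x / (2 * H : ℕ)).re = t * x.re / (2 * H) ∧
        ((t : ℂ) * x / (2 * H : ℕ)).im = t * x.im / (2 * H) := fun t => by
      rw [div_natCast_re, div_natCast_im, GaussianInt.toComplex_def]
      simp
    rw [Function.comp, cf, if_pos ⟨b, by ring⟩, t1T, t1T, ← q1_add, ← q1_add, (e c).1, (e c).2,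
      (e d).1, (e d).2, norm_eq_bil, norm_eq_bil, hH]
    congr 1
    simp only [bil, Zsqrtd.re_add, Zsqrtd.im_add, Zsqrtd.re_sub, Zsqrtd.im_sub, Zsqrtd.re_mul,
      Zsqrtd.im_mul, Zsqrtd.re_intCast, Zsqrtd.im_intCast, Zsqrtd.re_natCast, Zsqrtd.im_natCast]
    push_cast
    field_simp
    ring

theorem cf_per (hM : 0 < M) (h2 : 2 ∣ M) (hc : c % 2 = 1) (d : ℤ) (A : G) :
    Per M fun x => cf M 1 0 c d x A := fun x γ => by
  obtain ⟨H, rfl, hH⟩ := two_hM h2
  have H0 : (H : ℂ) ≠ 0 := by exact_mod_cast (show H ≠ 0 by omega)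
  have e : A - c * (x + (2 * H : ℕ) * γ) - (1 : ℤ) * Y2.hM (2 * H) =
      A - c * x - (1 : ℤ) * Y2.hM (2 * H) - (2 * H : ℕ) * (c * γ) := by ring
  simp only [cf]
  rw [e]
  refine if_ctx_congr (dvd_sub_left (dvd_mul_right _ _)) (fun ⟨β, hβ⟩ => ?_) fun _ => rfl
  obtain ⟨s, hs⟩ := Int.even_mul_pred_self γ.re
  obtain ⟨t, ht⟩ := Int.even_mul_pred_self γ.im
  obtain ⟨k, rfl⟩ : ∃ k, c = 2 * k + 1 := ⟨c / 2, by omega⟩
  obtain rfl : A = (2 * k + 1 : ℤ) * x + ⟨H, H⟩ + (2 * H : ℕ) * β := by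
    rw [hH] at hβ
    linear_combination hβ
  refine q1_congr (d * (bil β γ - s - t - k * bil γ γ)) ?_
  have hs' : (γ.re : ℂ) * (γ.re - 1) = s + s := by exact_mod_cast hs
  have ht' : (γ.im : ℂ) * (γ.im - 1) = t + t := by exact_mod_cast ht
  simp only [norm_eq_bil, bil, Zsqrtd.re_add, Zsqrtd.im_add, Zsqrtd.re_mul,
    Zsqrtd.im_mul, Zsqrtd.re_intCast, Zsqrtd.im_intCast, Zsqrtd.re_natCast, Zsqrtd.im_natCast]
  push_cast
  field_simp
  linear_combination (-4 * d * H ^ 2) * (hs' + ht')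

theorem card_reps_pow {p a : ℕ} (hp : p.Prime) (ha : ¬ p ∣ a) (k : ℕ) :
    (QF.reps (p ^ k * a)).card ≤ (k + 1) * (QF.reps a).card := by
  have h1 : ∀ α β : G, (fun _ => (1 : G)) (α * β) = (fun _ => 1) α * (fun _ => 1) β :=
    fun _ _ => (one_mul 1).symm
  have e : ∀ j, p ^ (j + 1) * a = p * (p ^ j * a) := fun j => by ring
  have hd : ∀ j, p ∣ p ^ (j + 1) * a := fun j => e j ▸ dvd_mul_right _ _
  have hq : ∀ j, p ^ (j + 1) * a / p = p ^ j * a := fun j => by
    rw [e, Nat.mul_div_cancel_left _ hp.pos]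
  rcases hp.eq_two_or_odd with rfl | h2
  · refine le_trans (le_of_eq ?_) (Nat.le_mul_of_pos_left _ k.succ_pos)
    induction k with
    | zero => simp
    | succ k ih =>
      have h := QF.f3_div (ψ := fun _ => 1) h1 two_ne_zero (w := ⟨1, 1⟩) (by decide) (2 ^ k * a)
      rw [filter_true_of_mem fun α hα => ?_] at h
      · rw [e, ← ih]
        simpa using h
      · have h3 := mem_reps.1 hα
        obtain ⟨s, hs⟩ := Int.even_mul_pred_self α.re
        obtain ⟨t, ht⟩ := Int.even_mul_pred_self α.im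
        obtain ⟨r, hr⟩ : ∃ r, α.re + α.im = 2 * r := ⟨(2 ^ k * a : ℕ) - s - t, by
          rw [norm_eq_bil, bil, Nat.cast_mul] at h3
          push_cast at h3 ⊢
          linear_combination h3 - hs - ht⟩
        exact ⟨⟨r, α.im - r⟩, by ext <;> simp <;> omega⟩
  rcases Nat.odd_mod_four_iff.1 h2 with h4 | h4
  · have := Fact.mk hp
    obtain ⟨x, y, hxy⟩ := Nat.Prime.sq_add_sq (p := p) (by omega)
    have hz : (⟨x, y⟩ : G).norm = p := by rw [norm_eq_bil, bil, ← hxy]; push_cast; ring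
    have h := fun n => QF.f3_one (ψ := fun _ => 1) h1 hp h4 hz n
    suffices H : (QF.reps (p ^ k * a)).card = (k + 1) * (QF.reps a).card ∧
        (QF.reps (p ^ (k + 1) * a)).card = (k + 2) * (QF.reps a).card from H.1.le
    induction k with
    | zero =>
      have h0 := h a
      simp only [if_neg ha, sum_const, nsmul_eq_mul, mul_one, add_zero, one_add_one_eq_two] at h0
      exact ⟨by simp, by rw [zero_add, pow_one]; exact_mod_cast h0⟩
    | succ k ih =>
      have h0 := h (p ^ (k + 1) * a)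
      simp only [if_pos (hd k), hq, ← e, sum_const, nsmul_eq_mul, mul_one, one_mul,
        one_add_one_eq_two] at h0
      have h5 : (QF.reps (p ^ (k + 1 + 1) * a)).card + (QF.reps (p ^ k * a)).card =
        2 * (QF.reps (p ^ (k + 1) * a)).card := by exact_mod_cast h0
      exact ⟨ih.2, by rw [ih.1, ih.2] at h5; nlinarith⟩
  · have h := fun n => QF.f3_three (ψ := fun _ => 1) h1 hp h4 n
    refine le_trans ?_ (Nat.le_mul_of_pos_left _ k.succ_pos)
    suffices H : (QF.reps (p ^ k * a)).card ≤ (QF.reps a).card ∧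
        (QF.reps (p ^ (k + 1) * a)).card ≤ (QF.reps a).card from H.1
    induction k with
    | zero =>
      have h0 := h a
      simp only [if_neg ha, sum_const, nsmul_eq_mul, mul_one, Nat.cast_eq_zero] at h0
      exact ⟨by simp, by rw [zero_add, pow_one, h0]; exact Nat.zero_le _⟩
    | succ k ih =>
      have h0 := h (p ^ (k + 1) * a)
      simp only [if_pos (hd k), hq, ← e, sum_const, nsmul_eq_mul, mul_one, one_mul,
        Nat.cast_inj] at h0
      exact ⟨ih.2, h0 ▸ ih.1⟩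

theorem card_reps_le (n : ℕ) (hn : n ≠ 0) : (QF.reps n).card ≤ 4 * n.divisors.card := by
  induction n using Nat.recOnPrimePow with
  | zero => exact absurd rfl hn
  | one => decide +kernel
  | prime_pow_mul a p k hp ha hk ih =>
    have a0 : a ≠ 0 := fun e => ha (e ▸ dvd_zero p)
    rw [Nat.Coprime.card_divisors_mul (Nat.Coprime.pow_left _ (hp.coprime_iff_not_dvd.2 ha)),
      Nat.divisors_prime_pow hp, card_map, card_range]
    nlinarith [card_reps_pow hp ha k, ih a0]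

theorem reps_zero : QF.reps 0 = {0} := by
  ext x
  simp [mem_reps, GaussianInt.norm_eq_zero]

theorem card_reps_rpow {ε : ℝ} (hε : 0 < ε) :
    ∃ C : ℝ, 0 ≤ C ∧ ∀ n : ℕ, ((QF.reps n).card : ℝ) ≤ C * (1 + n : ℝ) ^ ε := by
  obtain ⟨C, hC, H⟩ := fdivisor_bound hε
  refine ⟨4 * C, by positivity, fun n => ?_⟩
  rcases eq_or_ne n 0 with rfl | hn
  · rw [reps_zero]
    simp
    linarith
  · have h1 : ((QF.reps n).card : ℝ) ≤ 4 * n.divisors.card := by exact_mod_cast card_reps_le n hn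
    have h2 : (n : ℝ) ^ ε ≤ (1 + n : ℝ) ^ ε := by gcongr; linarith
    nlinarith [H n hn]

end Pool.Agent.Lib.MP_696deb_nt.Y2
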