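import Pool.Agent.Lib.MP_696deb_nt.Y2.D0
import Pool.Agent.Lib.MP_696deb_nt.Y2.TH1

/-! The sections attached to the data of a curve: definitions. -/

set_option autoImplicit false

open Finset
open scoped Classical

namespace Pool.Agent.Lib.MP_696deb_nt.Y2

open QF

/-- The finite part of the coefficient with an integer valued logarithm. -/
noncomputable def finL (S : An.Sec) (L : ℕ → ℤ) (μ : ℕ) : ℂ :=
  ∑ k ∈ range (μ + 1), ∑ x ∈ k.divisorsAntidiagonal,
    S.lam (μ - k) x.1 x.2 * ((L x.2 - L x.1 : ℤ) : ℂ)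

/-- Tame weights: lifts of a discrete logarithm modulo a prime of degree one. -/
structure TWt (π : G) (l u : ℕ) (W : G → ℤ) : Prop where
  prime : l.Prime
  norm : π.norm = l
  per : ∀ a b, π ∣ a - b → W a = W b
  zero : W 0 = 0
  mul : ∀ a b, ¬ π ∣ a → ¬ π ∣ b → 2 ^ u ∣ W (a * b) - W a - W b
  unit : 2 ^ u ∣ W ii

/-- The logarithm on the natural numbers that belongs to a tame weight. -/
def lgN (l : ℕ) (W : G → ℤ) (n : ℕ) : ℤ := W (n / l ^ n.factorization l : ℕ)

namespace Dat

variable (d : Dat)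

/-- The function at the cusp. -/
noncomputable def ps (y : G) : ℂ := (-1) ^ y.norm.natAbs * d.Psi y

/-- The section. -/
noncomputable def S : An.Sec := sec (8 * d.N) (iFT (8 * d.N) d.ps)

/-- The index of the coefficient. -/
def mu (m : ℕ) : ℕ := 32 * d.N ^ 2 * m

/-- The tame section. -/
noncomputable def St (l : ℕ) (W : G → ℤ) : An.Sec :=
  sec (8 * d.N * l) (iFT (8 * d.N * l) fun y => d.ps y * W y)

end Dat

end Pool.Agent.Lib.MP_696deb_nt.Y2
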