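import Pool.Agent.Lib.MP_696deb_nt.Y2.GC1
import Pool.Agent.Lib.MP_696deb_nt.Y2.AI
import Pool.Agent.Lib.MP_696deb_nt.Y2.G1
import Pool.Agent.Lib.MP_696deb_nt.Y2.D3
import Pool.Agent.Lib.MP_696deb_nt.Y2.CG
import Pool.Agent.Lib.MP_696deb_nt.Y2.P0

/-! The archimedean pairing as a limit of sums over pairs of Gaussian integers. -/

set_option autoImplicit false

open Complex Finset Filter Topology CongruenceSubgroup
open UpperHalfPlane hiding I
open scoped Classical MatrixGroups ComplexConjugate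

namespace Pool.Agent.Lib.MP_696deb_nt.Y2

open QF (G)

theorem gc_green {i j : ℕ} {z w : ℍ} (hz : Lv 2 i z) (hw : Lv 2 (j + 1) w) (h : i < j + 1) :
    (∀ ε : ℝ, 0 < ε → HasSum (fun g : Gamma0 10 => levY.ξ g *
      kerK ε (Real.cosh (dist z ((g : SL(2, ℤ)) • w)))) (levY.gsum z w ε)) ∧
    Tendsto (levY.gsum z w) (𝓝[>] 0) (𝓝 (-2 * Gr (uu z) (uu w))) := by
  obtain ⟨h1, h2⟩ := greenY z w (fun g _ => hw.free g) fun g _ => hz.ne_smul hw h g
  refine ⟨fun ε hε => Summable.hasSum (.of_norm_bounded (h1 ε hε) fun g => ?_), ?_⟩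
  · rw [norm_mul, levY_ok.norm _ g.2, one_mul, norm_real, Real.norm_of_nonneg (kerK_nonneg _ _)]
  · refine (?_ : crvY.gr (uu z) (uu w) = Gr (uu z) (uu w)) ▸ h2
    rw [Gr_roots]
    refine sum_congr rfl fun ζ hζ => ?_
    rw [log_kl, if_neg fun k => ?_]
    · rfl
    obtain ⟨g, -, -, e⟩ := (crvY_ok.mem_iff' ((An.mem_mu (by decide)).1 hζ) z w).1 k
    exact hz.ne_smul hw h g e

theorem w0_hkM {m : ℕ} (hm : m % 4 = 1) (γ : Gamma0 10) (x : HI m) :
    (w0 (((γ : SL(2, ℤ)) : MZ) * hkM x) : ℂ) = om x.1.1.1 * conj (levY.ξ γ) := by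
  obtain ⟨c, e, h, -⟩ := exists_mob10 γ.2
  have h1 := w0_gamma h
  rw [← e, ← Matrix.eta_fin_two] at h1
  have h2 : ((γ : SL(2, ℤ)) : MZ).det = 1 := γ.1.2
  rw [w0_mul_left ⟨c, e⟩ (by rw [h2]; rfl) (by rw [h2]; decide), hkM, w0_ut _ (by
    have := (mem_HI.1 x.2).1.1
    zify at this hm
    rwa [this]), h1, map_mul, GaussianInt.toComplex_star, mul_comm, Int.cast_natCast]
  rfl

namespace Dat

variable (d : Dat) {m : ℕ}

theorem gc_inj {u' : G} (hu' : u' ∈ d.U) {b : Fin 2} {g g' : MZ}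
    (h : (4 * d.N : ℤ) • (g * d.By u' b) = (4 * d.N : ℤ) • (g' * d.By u' b)) : g = g' := by
  have h1 := congrArg (· * (d.By u' b).adjugate)
    (smul_right_injective _ (mul_ne_zero (by norm_num) d.N_ne) h)
  simp only [mul_assoc, Matrix.mul_adjugate, mul_smul_comm, mul_one] at h1
  refine smul_right_injective _ ?_ h1
  rw [d.By_det hu', mul_assoc]
  exact (mul_pos two_pos d.dN_pos).ne'

theorem gc_inj' {u α β γ δ : G} (hu : u ∈ d.U) (h : d.Bx u * mb α β = d.Bx u * mb γ δ) :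
    (α, β) = (γ, δ) := by
  have h1 := congrArg ((d.Bx u).adjugate * ·) h
  simp only [← mul_assoc, Matrix.adjugate_mul, smul_mul_assoc, one_mul] at h1
  exact Prod.ext_iff.2 (mb_inj (smul_right_injective _ (d.Bx_det hu ▸ d.dN_pos.ne') h1))

theorem gc_pair (hm : m % 4 = 1) (h5 : ¬ 5 ∣ m) (u : d.U) (y : d.U × Fin 2) {z : ℍ}
    (hz : (z : ℂ) = d.tx u) {w : HI m → ℍ} (hw : ∀ x, (w x : ℂ) = tb ((d.FY.hk m).w (y, x)))
    {ε : ℝ} (hε : 0 < ε) :
    HasSum (fun k : ℕ => (∑ A ∈ QF.reps (d.mu m + k), ∑ β ∈ QF.reps k,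
      (d.Phi0 u y.1 y.2 A β : ℂ)) * kerK ε ((d.mu m + 2 * k) / d.mu m))
      (∑ x : HI m, om x.1.1.1 * conj (levY.gsum z (w x) ε)) := by
  have m0 : 0 < m := by omega
  have hy := d.ty_pos y.1.2 y.2
  have hB : (d.By y.1 y.2).det ≠ 0 := by
    rw [d.By_det y.1.2, mul_assoc]
    exact (mul_pos two_pos d.dN_pos).ne'
  set K : MZ → ℝ := fun g => kerK ε (Real.cosh (dist z (ofComplex (act g (d.ty y.1 y.2))))) with hK
  have h1 := hasSum_hecke hm h5 (F := fun g => w0 g * K g)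
    (a := fun x => om x.1.1.1 * conj (levY.gsum z (w x) ε)) fun x => by
      have k1 := ((gc_green (hz ▸ (d.XT_tx u.2).lv) (hw x ▸ (d.YT_hk hm h5 (y, x)).lv)
        (Nat.lt_succ_self _)).1 ε hε).star.mul_left (om x.1.1.1 : ℂ)
      refine hasSum_congr k1 fun γ => ?_
      have k2 : (hkM x).det ≠ 0 := by
        have := (mem_HI.1 x.2).1.1
        zify at this
        simp [hkM, Matrix.det_fin_two_of, -mul_eq_zero, this, m0.ne']
      have k3 : act (hkM x) (d.ty y.1 y.2) = w x := by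
        rw [hw, tb_hk]
        simp [hkM, act, mob]
      simp only [hK]
      rw [w0_hkM hm, act_mul _ k2 hy, k3, act, ← g1_smul, ofComplex_apply, star_mul', mul_assoc]
      simp
  choose α β hp using d.exists_pair u.2 y.1 y.2
  have hi : Function.Injective fun g => (α g, β g) := fun g g' e => d.gc_inj y.1.2 (by
    rw [hp, hp, (Prod.mk.inj e).1, (Prod.mk.inj e).2])
  have n0 : (32 * d.N ^ 2 : ℤ) ≠ 0 := mul_ne_zero (by norm_num) (pow_ne_zero _ d.N_ne)
  have h2 := hasSum_reps (μ := d.mu m) (f := fun A B => (d.Phi0 u y.1 y.2 A B : ℂ) *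
      kerK ε ((A.norm + B.norm) / (A.norm - B.norm))) ((hi.hasSum_iff fun v hv => by
    refine ite_eq_right_iff.2 fun _ => mul_eq_zero_of_left ?_ _
    by_contra k
    obtain ⟨g, hg⟩ := d.Phi0_ne y.1.2 fun e => k (by rw [e, map_zero])
    exact hv ⟨g, d.gc_inj' u.2 ((hp g).symm.trans hg)⟩).1 (hasSum_congr h1 fun g => by
    have k1 := d.pair_det u.2 y.1.2 (hp g)
    simp only [Function.comp_apply, d.Phi0_eq y.1.2 (hp g)]
    by_cases k2 : g.det = m
    · have k3 : (β g).norm < (α g).norm := by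
        rw [← sub_pos, k1, k2]
        have := d.N_pos
        positivity
      have k4 : 0 < (act g (d.ty y.1 y.2)).im := act_pos (by rw [k2]; exact_mod_cast m0) hy
      rw [if_pos (show (α g).norm - (β g).norm = d.mu m by rw [k1, k2, mu]; push_cast; rfl),
        ← cosh_mb (d.Bx_det u.2 ▸ d.dN_pos) k3 hz (w := ofComplex (act g (d.ty y.1 y.2))) (by
          rw [← hp, act_smul (mul_ne_zero (by norm_num) d.N_ne), act_mul _ hB (by simp),
            ofComplex_apply_of_im_pos k4]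
          rfl)]
      split_ifs with k5
      · rfl
      · rw [w0, if_neg fun e => k5 ⟨k2, e.1⟩, map_zero, zero_mul]
    · rw [if_neg fun e => k2 (mul_left_cancel₀ n0 ?_), if_neg fun e => k2 e.1]
      rw [← k1, e, mu]
      push_cast
      rfl))
  refine hasSum_congr h2 fun k => ?_
  rw [sum_mul]
  refine sum_congr rfl fun A hA => ?_
  rw [sum_mul]
  refine sum_congr rfl fun B hB => ?_
  rw [QF.mem_reps.1 hA, QF.mem_reps.1 hB]
  congr 3
  push_cast
  ring

/-- The count of matrices gives the archimedean pairing. -/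
theorem gc (hm : m % 4 = 1) (h5 : ¬ 5 ∣ m) :
    Tendsto (fun ε : ℝ => ∑' k : ℕ, (∑ A ∈ QF.reps (d.mu m + k), ∑ β ∈ QF.reps k,
      (d.Phi A β : ℂ)) * kerK ε ((d.mu m + 2 * k) / d.mu m)) (𝓝[>] 0)
      (𝓝 (-2 * conj (d.FX.arch (d.FY.hk m)))) := by
  obtain ⟨z, hz⟩ : ∃ z : d.U → ℍ, ∀ u, (z u : ℂ) = d.tx u := ⟨fun u => ⟨_, d.tx_pos u.2⟩, fun _ => rfl⟩
  obtain ⟨w, hw⟩ : ∃ w : (d.U × Fin 2) × HI m → ℍ, ∀ x, (w x : ℂ) = tb ((d.FY.hk m).w x) :=
    ⟨fun x => ⟨_, (d.YT_hk hm h5 x).lv.pos⟩, fun _ => rfl⟩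
  have h1 := tendsto_finsetSum univ fun (u : d.U) _ => tendsto_finsetSum univ
    fun (x : (d.U × Fin 2) × HI m) _ => ((continuous_conj.tendsto _).comp
      (gc_green (hz u ▸ (d.XT_tx u.2).lv) (hw x ▸ (d.YT_hk hm h5 x).lv)
        (Nat.lt_succ_self _)).2).const_mul ((star (d.kap u) * d.kap x.1.1 * om x.2.1.1.1 : G) : ℂ)
  refine (Eq.symm ?_ : _ = -2 * conj (d.FX.arch (d.FY.hk m))) ▸
    h1.congr' (eventually_mem_nhdsWithin.mono fun ε (hε : 0 < ε) => ?_)
  · rw [Fam.arch, map_sum, mul_sum]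
    refine sum_congr rfl fun u _ => ?_
    rw [map_sum, mul_sum]
    refine sum_congr rfl fun x _ => ?_
    rw [Fam.z, Fam.z, Gr_unit (d.FX_ok.four u) ((Fam.hk_ok d.FY_ok hm h5).four x), tb_FX, hz, hw]
    simp only [map_mul, ← GaussianInt.toComplex_star, star_star, FX, FY, Fam.hk, map_neg,
      map_ofNat]
    ring
  · have h2 := hasSum_sum (s := univ) fun (u : d.U) _ => hasSum_sum (s := univ)
      fun (y : d.U × Fin 2) _ => (d.gc_pair hm h5 u y (hz u) (fun x => hw (y, x)) hε).mul_left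
        ((star (d.kap u) * d.kap y.1 : G) : ℂ)
    refine Eq.trans ?_ (h2.tsum_eq.symm.trans (tsum_congr fun k => ?_))
    · refine sum_congr rfl fun u _ => ?_
      rw [Fintype.sum_prod_type]
      refine sum_congr rfl fun y _ => ?_
      rw [mul_sum]
      exact sum_congr rfl fun x _ => by rw [map_mul _ _ (om _), mul_assoc]; rfl
    · simp only [← mul_assoc, ← sum_mul, Phi, map_sum, mul_sum, ← map_mul]
      congr 1
      simp only [← sum_coe_sort d.U, ← Fintype.sum_prod_type']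
      exact sum_comm.trans (sum_congr rfl fun _ _ => sum_comm)

end Dat

end Pool.Agent.Lib.MP_696deb_nt.Y2
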