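import Pool.Agent.Lib.MP_696deb_nt.Y2.HT4
import Pool.Agent.Lib.MP_696deb_nt.Y2.G0

/-! The height side of the Gross-Zagier formula. -/

set_option autoImplicit false

open scoped Classical
open Finset

namespace Pool.Agent.Lib.MP_696deb_nt.Y2.Dat

variable (d : Dat) {p : ℕ}

/-- The canonical height of the sum of the points of the first family. -/
noncomputable def hgt : ℝ := HT.ht (∑ u, d.FX.pt u)

theorem ht_side (hφ : EU.Phi d.D d.φ) (hp : p.Prime) :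
    (p = 2 ∨ p % 4 = 1 → 4 * d.hgt + 2 * (d.FX.arch (d.FY.hk 1)).re ∈ LogS p) ∧
    (p % 4 = 3 → ∃ C : ℝ, ∀ s : ℕ, ∃ e ρ : ℚ, (p : ℝ) ^ s ≤ |(e : ℝ)| ∧
      |(ρ : ℝ)| ≤ C * (s + 1) ^ 2 ∧ e * d.hgt +
        2 * (d.FX.arch (d.FY.hk (p ^ (2 * s)))).re - ρ * Real.log p ∈ LogS p) := by
  obtain ⟨t, M, -, hL⟩ := d.exists_lk hφ
  exact fam_side hL d.FX_ok d.FY_ok d.M_pos d.M_pos d.FX_stable d.FY_stable d.XT_FX d.YT_FY
    (Nat.lt_succ_self _) (fun m h _ => by rw [d.sum_hk (by omega), d.sum_FX]) hp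

theorem tors_pt (h : d.hgt = 0) : ∃ n : ℕ, 0 < n ∧ n * d.pt ∈ EA.LG.lattice :=
  d.sum_FX ▸ d.FX_ok.tors h

/-- The point has finite order if the archimedean pairings are small sums of logarithms. -/
theorem tors_of_arch (hφ : EU.Phi d.D d.φ)
    (h1 : ∀ p : ℕ, p.Prime → p = 2 ∨ p % 4 = 1 → (d.FX.arch (d.FY.hk 1)).re ∈ LogS p)
    (h3 : ∀ p : ℕ, p.Prime → p % 4 = 3 → ∃ (C : ℝ) (k : ℕ), ∀ s : ℕ, ∃ c : ℚ,
      |(c : ℝ)| ≤ C * (s + 1) ^ k ∧
        (d.FX.arch (d.FY.hk (p ^ (2 * s)))).re - c * Real.log p ∈ LogS p) :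
    ∃ n : ℕ, 0 < n ∧ n * d.pt ∈ EA.LG.lattice := by
  refine d.tors_pt (HT.zero_of fun p hp => ?_)
  obtain ⟨a, b⟩ := d.ht_side hφ hp
  by_cases h : p % 4 = 3
  · obtain ⟨C, hC⟩ := b h
    obtain ⟨C', k, hC'⟩ := h3 p hp h
    refine .inr ⟨|C| + 2 * |C'|, k + 2, fun s => ?_⟩
    obtain ⟨e, ρ, e1, e2, e3⟩ := hC s
    obtain ⟨c, c1, c2⟩ := hC' s
    refine ⟨e, ρ - 2 * c, e1, ?_, ?_⟩
    · have s1 : (1 : ℝ) ≤ s + 1 := by simp
      have k1 := mul_le_mul (le_abs_self C) (pow_le_pow_right₀ s1 (Nat.le_add_left 2 k))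
        (by positivity) (abs_nonneg C)
      have k2 := mul_le_mul (le_abs_self C') (pow_le_pow_right₀ s1 (Nat.le_add_right k 2))
        (by positivity) (abs_nonneg C')
      push_cast
      refine (abs_sub _ _).trans ?_
      rw [abs_mul, abs_two]
      linarith
    · convert sub_mem e3 (LogS.int_mul 2 c2) using 1
      push_cast
      ring
  · have h' : p = 2 ∨ p % 4 = 1 := hp.eq_two_or_odd.imp_right fun e => by omega
    refine .inl ⟨4, four_ne_zero, ?_⟩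
    convert sub_mem (a h') (LogS.int_mul 2 (h1 p hp h')) using 1
    push_cast
    ring

end Pool.Agent.Lib.MP_696deb_nt.Y2.Dat
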