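import Pool.Agent.Lib.MP_696deb_nt.Y2.TL0

/-! From real logarithms to discrete logarithms. -/

set_option autoImplicit false

open scoped Classical NNReal ComplexConjugate Real
open Finset

namespace Pool.Agent.Lib.MP_696deb_nt.Y2.TL

open EU

/-- Additive functions on the positive rationals. -/
def Ad {M : Type} [AddCommGroup M] (L : ℚ → M) : Prop :=
  ∀ a b : ℚ, 0 < a → 0 < b → L (a * b) = L a + L b

theorem tlt_one {M : Type} [AddCommGroup M] {L : ℚ → M} (hL : Ad L) : L 1 = 0 := by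
  have h := hL 1 1 one_pos one_pos
  rw [mul_one] at h
  exact left_eq_add.1 h

theorem tlt_zpow {M : Type} [AddCommGroup M] {L : ℚ → M} (hL : Ad L) {a : ℚ} (ha : 0 < a)
    (e : ℤ) : L (a ^ e) = e • L a := by
  induction e using Int.induction_on with
  | zero => rw [zpow_zero, tlt_one hL, zero_smul]
  | succ n ih => rw [zpow_add_one₀ ha.ne', hL _ _ (zpow_pos ha _) ha, ih, add_smul, one_smul]
  | pred n ih =>
    have h := hL (a ^ (-(n : ℤ) - 1)) a (zpow_pos ha _) ha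
    rw [← zpow_add_one₀ ha.ne', sub_add_cancel, ih] at h
    rw [sub_smul, one_smul, h, add_sub_cancel_right]

theorem tlt_prod {ι M : Type} [AddCommGroup M] {L : ℚ → M} (hL : Ad L) (s : Finset ι)
    {ρ : ι → ℚ} (hρ : ∀ i ∈ s, 0 < ρ i) : L (∏ i ∈ s, ρ i) = ∑ i ∈ s, L (ρ i) := by
  induction s using Finset.induction_on with
  | empty => rw [prod_empty, sum_empty, tlt_one hL]
  | insert j s hj ih =>
    have k : ∀ i ∈ s, 0 < ρ i := fun i hi => hρ i (mem_insert_of_mem hi)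
    rw [prod_insert hj, sum_insert hj, hL _ _ (hρ j (mem_insert_self _ _)) (prod_pos k), ih k]

theorem transfer0 {ι M : Type} [AddCommGroup M] {L : ℚ → M} (hL : Ad L) (s : Finset ι) (e : ι → ℤ)
    {ρ : ι → ℚ} (hρ : ∀ i ∈ s, 0 < ρ i) (h : ∑ i ∈ s, (e i : ℝ) * Real.log (ρ i) = 0) :
    ∑ i ∈ s, e i • L (ρ i) = 0 := by
  have k : ∀ i ∈ s, 0 < ρ i ^ e i := fun i hi => zpow_pos (hρ i hi) _
  have h1 : Real.log ((∏ i ∈ s, ρ i ^ e i : ℚ) : ℝ) = 0 := by
    rw [Rat.cast_prod, Real.log_prod fun i hi => (Rat.cast_pos.2 (k i hi)).ne', ← h]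
    exact sum_congr rfl fun i _ => by rw [Rat.cast_zpow, Real.log_zpow]
  have h2 : (∏ i ∈ s, ρ i ^ e i : ℚ) = 1 := by
    have h3 : (0 : ℝ) < ((∏ i ∈ s, ρ i ^ e i : ℚ) : ℝ) := Rat.cast_pos.2 (prod_pos k)
    have h4 := Real.exp_log h3
    rw [h1, Real.exp_zero] at h4
    exact_mod_cast h4.symm
  rw [← tlt_one hL, ← h2, tlt_prod hL s k]
  exact sum_congr rfl fun i hi => (tlt_zpow hL (hρ i hi) _).symm

theorem transfer {ι : Type} {N : ℕ} [NeZero N] {L : ℚ → ZMod N} (hL : Ad L) (s : Finset ι)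
    (e : ι → O) {ρ : ι → ℚ} (hρ : ∀ i ∈ s, 0 < ρ i)
    (h : ∑ i ∈ s, (e i : ℂ) * (Real.log (ρ i) : ℂ) = 0) :
    (N : O) ∣ ∑ i ∈ s, e i * ((L (ρ i)).val : O) := by
  have hr : ∑ i ∈ s, ((e i).re : ℝ) * Real.log (ρ i) = 0 := by
    have k := congrArg Complex.re h
    rw [Complex.re_sum, Complex.zero_re] at k
    rw [← k]
    exact sum_congr rfl fun i _ => by
      rw [Complex.re_mul_ofReal, GaussianInt.intCast_re]
  have hi : ∑ i ∈ s, ((e i).im : ℝ) * Real.log (ρ i) = 0 := by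
    have k := congrArg Complex.im h
    rw [Complex.im_sum, Complex.zero_im] at k
    rw [← k]
    exact sum_congr rfl fun i _ => by
      rw [Complex.im_mul_ofReal, GaussianInt.intCast_im]
  have key : ∀ f : ι → ℤ, ∑ i ∈ s, (f i : ℝ) * Real.log (ρ i) = 0 →
      (N : ℤ) ∣ ∑ i ∈ s, f i * ((L (ρ i)).val : ℤ) := fun f hf => by
    rw [← ZMod.intCast_zmod_eq_zero_iff_dvd, ← transfer0 hL s f hρ hf, Int.cast_sum]
    exact sum_congr rfl fun i _ => by
      rw [Int.cast_mul, Int.cast_natCast, ZMod.natCast_zmod_val, zsmul_eq_mul]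
  have e1 : ∑ i ∈ s, e i * ((L (ρ i)).val : O) =
      ((∑ i ∈ s, (e i).re * ((L (ρ i)).val : ℤ) : ℤ) : O) +
        (⟨0, 1⟩ : O) * ((∑ i ∈ s, (e i).im * ((L (ρ i)).val : ℤ) : ℤ) : O) := by
    rw [Int.cast_sum, Int.cast_sum, mul_sum, ← sum_add_distrib]
    exact sum_congr rfl fun i _ => by
      ext <;> simp
  have c : ∀ {z : ℤ}, (N : ℤ) ∣ z → (N : O) ∣ (z : O) := fun {z} hz => by
    simpa using Int.cast_dvd_cast (α := O) _ _ hz
  rw [e1]
  exact dvd_add (c (key _ hr)) (Dvd.dvd.mul_left (c (key _ hi)) _)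

/-- The discrete logarithm on the positive rationals. -/
theorem exists_L {r : TP} {u : ℕ} (x : Ix r u) (hs : nm r.π = r.v.p) :
    ∃ L : ℚ → ZMod (2 ^ u), Ad L ∧ L (nm r.π) = 0 ∧
      (∀ n : ℕ, ¬ nm r.π ∣ n → L n = x.ind n) ∧
      ∀ a : ℚ, 0 < a → ((nm r.π : ℕ) : ℤ) ∣ a.num - a.den → L a = 0 := by
  have hp : (nm r.π).Prime := hs ▸ r.v.prime
  have hd : ∀ n : ℕ, ¬ nm r.π ∣ n → ¬ r.π ∣ (n : O) := fun n hn k => by
    have k1 := r.V_lt.2 k
    rw [map_natCast, ← Int.cast_natCast] at k1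
    exact k1.ne (r.v.V_int_eq_one.2 fun k2 => hn (hs ▸ Int.natCast_dvd_natCast.1 k2))
  set l := nm r.π with hl
  let f : ℕ → ZMod (2 ^ u) := fun n => x.ind ((ordCompl[l] n : ℕ) : O)
  have fm : ∀ m n : ℕ, m ≠ 0 → n ≠ 0 → f (m * n) = f m + f n := fun m n hm hn => by
    simp only [f]
    rw [Nat.ordCompl_mul, Nat.cast_mul]
    exact x.mul _ _ (hd _ (Nat.not_dvd_ordCompl hp hm)) (hd _ (Nat.not_dvd_ordCompl hp hn))
  have f0 : ∀ n : ℕ, ¬ l ∣ n → f n = x.ind n := fun n hn => by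
    simp only [f]
    rw [Nat.factorization_eq_zero_of_not_dvd hn, pow_zero, Nat.div_one]
  have f1 : f 1 = 0 := left_eq_add.1 (fm 1 1 one_ne_zero one_ne_zero)
  have fl : f l = f 1 := by
    simp only [f]
    rw [hp.factorization_self, pow_one, Nat.div_self hp.pos, Nat.factorization_one,
      Finsupp.zero_apply, pow_zero, Nat.div_one]
  have np : ∀ a : ℚ, 0 < a → a.num.natAbs ≠ 0 := fun a ha =>
    Int.natAbs_ne_zero.2 (Rat.num_pos.2 ha).ne'
  have nq : ∀ a : ℚ, 0 < a → (a.num.natAbs : ℚ) = a * a.den := fun a ha => by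
    rw [Rat.mul_den_eq_num, ← Int.cast_natCast, Int.natAbs_of_nonneg (Rat.num_pos.2 ha).le]
  refine ⟨fun a => f a.num.natAbs - f a.den, fun a b ha hb => ?_, ?_, fun n hn => ?_,
    fun a ha h => ?_⟩
  · have k : (a * b).num.natAbs * (a.den * b.den) =
        a.num.natAbs * b.num.natAbs * (a * b).den := by
      have : (((a * b).num.natAbs * (a.den * b.den) : ℕ) : ℚ) =
          ((a.num.natAbs * b.num.natAbs * (a * b).den : ℕ) : ℚ) := by
        simp only [Nat.cast_mul]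
        rw [nq _ ha, nq _ hb, nq _ (mul_pos ha hb)]
        ring
      exact_mod_cast this
    have k1 := congrArg f k
    rw [fm _ _ (np _ (mul_pos ha hb)) (mul_ne_zero a.den_nz b.den_nz), fm _ _ a.den_nz b.den_nz,
      fm _ _ (mul_ne_zero (np _ ha) (np _ hb)) (a * b).den_nz, fm _ _ (np _ ha) (np _ hb)] at k1
    show f _ - f _ = f _ - f _ + (f _ - f _)
    linear_combination k1
  · show f _ - f _ = 0
    rw [Rat.num_natCast, Rat.den_natCast, Int.natAbs_natCast, fl, sub_self]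
  · show f _ - f _ = _
    rw [Rat.num_natCast, Rat.den_natCast, Int.natAbs_natCast, f1, sub_zero, f0 n hn]
  · have e : ((a.num.natAbs : ℕ) : ℤ) = a.num := Int.natAbs_of_nonneg (Rat.num_pos.2 ha).le
    have k : ¬ (l ∣ a.num.natAbs ∧ l ∣ a.den) := fun k =>
      hp.one_lt.ne' (Nat.eq_one_of_dvd_coprimes a.reduced k.1 k.2)
    have k1 : l ∣ a.num.natAbs ↔ l ∣ a.den := by
      rw [← Int.natCast_dvd_natCast, ← Int.natCast_dvd_natCast, e]
      exact ⟨fun k2 => by simpa using dvd_sub k2 h, fun k2 => by simpa using dvd_add h k2⟩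
    have k2 : ¬ l ∣ a.den := fun k2 => k ⟨k1.2 k2, k2⟩
    show f _ - f _ = 0
    rw [f0 _ k2, f0 _ fun k3 => k2 (k1.1 k3), sub_eq_zero]
    refine x.per _ _ (r.dvd_p.trans ?_)
    rw [← e] at h
    have := Int.cast_dvd_cast (α := O) _ _ h
    rw [Int.cast_sub, Int.cast_natCast, Int.cast_natCast, Int.cast_natCast] at this
    rwa [← hs]

end Pool.Agent.Lib.MP_696deb_nt.Y2.TL
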