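import Pool.Agent.Lib.MP_696deb_nt.Y2.P0
import Pool.Agent.Lib.MP_696deb_nt.Y2.C0
import Pool.Agent.Lib.MP_696deb_nt.Y2.TLt

/-! From the complex identity to a congruence for the finite parts. -/

set_option autoImplicit false

open scoped Classical NNReal ComplexConjugate
open Finset Complex

namespace Pool.Agent.Lib.MP_696deb_nt.Y2

open QF (G Prim)

/-- The statement on the symbol. -/
def SymS (φ : G → G) (ar : ℕ → ℂ) : Prop :=
  ∃ (n : ℕ) (R1 R2 : ℚ) (B : Finset ℕ), 0 < n ∧ 0 < R1 ∧ 0 < R2 ∧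
    ((Real.log R1 : ℝ) + I * (Real.log R2 : ℝ) : ℂ) = n * ar 1 ∧
    ∀ (l : ℕ) (r z : G), l.Prime → l ∉ B → Prim r → r.norm = l →
      z = star (φ r * eb r + φ (star r) * eb (star r)) → ∃ S1 S2 : ℚ, 0 < S1 ∧ 0 < S2 ∧
        ((Real.log S1 : ℝ) + I * (Real.log S2 : ℝ) : ℂ) = n * ar l ∧
        ∀ (Z : Type) [AddCommGroup Z] (L : ℚ → Z), Lg l L →
          L S1 = z.re • L R1 - z.im • L R2 ∧ L S2 = z.im • L R1 + z.re • L R2

/-- The complex identity. -/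
def GzaS (S : An.Sec) (mu : ℕ → ℕ) (a : ℕ → G) (ar : ℕ → ℂ) : Prop :=
  ∃ (c0 : ℚ) (κ : ℂ), ∀ m, m % 4 = 1 → ¬ 5 ∣ m → c0 * conj (ar m) = κ * a m - S.fin (mu m)

/-- The coefficients have bounded denominators. -/
def RatS (S : An.Sec) : Prop := ∃ den : ℕ, 0 < den ∧ ∀ n c l, ∃ e : G, den * S.lam n c l = e

section
variable {N : ℕ} {L : ℚ → ZMod N}

/-- Logarithms and their discrete counterparts. -/
def RL (hL : TL.Ad L) : AddSubgroup (ℂ × G) where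
  carrier := {p | ∃ a b : ℚ, 0 < a ∧ 0 < b ∧ p.1 = (Real.log a : ℝ) + I * (Real.log b : ℝ) ∧
    (p.2.re : ZMod N) = L a ∧ (p.2.im : ZMod N) = L b}
  zero_mem' := ⟨1, 1, one_pos, one_pos, by simp, by simp [TL.tlt_one hL], by simp [TL.tlt_one hL]⟩
  add_mem' := by
    rintro p q ⟨a, b, a0, b0, e1, e2, e3⟩ ⟨c, d, c0, d0, f1, f2, f3⟩
    refine ⟨a * c, b * d, mul_pos a0 c0, mul_pos b0 d0, ?_, ?_, ?_⟩
    · rw [Prod.fst_add, e1, f1, Rat.cast_mul, Rat.cast_mul,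
        Real.log_mul (Rat.cast_pos.2 a0).ne' (Rat.cast_pos.2 c0).ne',
        Real.log_mul (Rat.cast_pos.2 b0).ne' (Rat.cast_pos.2 d0).ne']
      push_cast
      ring
    · rw [hL _ _ a0 c0, ← e2, ← f2, Prod.snd_add, Zsqrtd.re_add, Int.cast_add]
    · rw [hL _ _ b0 d0, ← e3, ← f3, Prod.snd_add, Zsqrtd.im_add, Int.cast_add]
  neg_mem' := by
    rintro p ⟨a, b, a0, b0, e1, e2, e3⟩
    have k : ∀ a : ℚ, 0 < a → L a⁻¹ = -L a := fun a h => by
      rw [eq_neg_iff_add_eq_zero, ← hL _ _ (inv_pos.2 h) h, inv_mul_cancel₀ h.ne', TL.tlt_one hL]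
    refine ⟨a⁻¹, b⁻¹, inv_pos.2 a0, inv_pos.2 b0, ?_, ?_, ?_⟩
    · rw [Prod.fst_neg, e1, Rat.cast_inv, Rat.cast_inv, Real.log_inv, Real.log_inv]
      push_cast
      ring
    · rw [k a a0, ← e2, Prod.snd_neg, Zsqrtd.re_neg, Int.cast_neg]
    · rw [k b b0, ← e3, Prod.snd_neg, Zsqrtd.im_neg, Int.cast_neg]

variable (hL : TL.Ad L)

theorem RL_conj {a b : ℚ} (ha : 0 < a) (hb : 0 < b) {y : G} (h1 : (y.re : ZMod N) = L a)
    (h2 : (y.im : ZMod N) = -L b) :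
    (conj ((Real.log a : ℝ) + I * (Real.log b : ℝ) : ℂ), y) ∈ RL hL := by
  refine ⟨a, b⁻¹, ha, inv_pos.2 hb, ?_, h1, h2.trans ?_⟩
  · simp only [Rat.cast_inv, Real.log_inv, map_add, map_mul, conj_ofReal, conj_I]
    push_cast
    ring
  · rw [eq_comm, eq_neg_iff_add_eq_zero, ← hL _ _ (inv_pos.2 hb) hb, inv_mul_cancel₀ hb.ne',
      TL.tlt_one hL]

theorem RL_mul {p : ℂ × G} (h : p ∈ RL hL) (e : G) : ((e : ℂ) * p.1, e * p.2) ∈ RL hL := by
  have k : (I * p.1, QF.ii * p.2) ∈ RL hL := by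
    obtain ⟨a, b, a0, b0, e1, e2, e3⟩ := h
    have := neg_mem (RL_conj hL b0 a0 (y := -(QF.ii * p.2)) (by simp [QF.ii, e3])
      (by simp [QF.ii, e2]))
    convert this using 1
    simp only [Prod.neg_mk, neg_neg, e1, map_add, map_mul, conj_ofReal, conj_I, Prod.mk.injEq,
      and_true]
    linear_combination (Real.log b : ℂ) * I_mul_I
  convert add_mem (zsmul_mem h e.re) (zsmul_mem k e.im) using 1
  refine Prod.ext ?_ ?_
  · change _ = e.re • p.1 + e.im • (I * p.1)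
    simp only [zsmul_eq_mul, GaussianInt.toComplex_def e]
    ring
  · change _ = e.re • p.2 + e.im • (QF.ii * p.2)
    simp only [zsmul_eq_mul, ← mul_assoc, ← add_mul]
    congr 1
    ext <;> simp [QF.ii]

theorem RL_zero {y : G} (h : ((0 : ℂ), y) ∈ RL hL) : (N : G) ∣ y := by
  obtain ⟨a, b, a0, b0, e1, e2, e3⟩ := h
  have k : ∀ a : ℚ, 0 < a → Real.log a = 0 → L a = 0 := fun a h e => by
    have := Real.eq_one_of_pos_of_log_eq_zero (Rat.cast_pos.2 h) e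
    rw [show a = 1 by exact_mod_cast this, TL.tlt_one hL]
  rw [k a a0 (by simpa using (congrArg re e1).symm)] at e2
  rw [k b b0 (by simpa using (congrArg im e1).symm)] at e3
  rw [← Int.cast_natCast, Zsqrtd.intCast_dvd]
  exact ⟨(ZMod.intCast_zmod_eq_zero_iff_dvd _ _).1 e2, (ZMod.intCast_zmod_eq_zero_iff_dvd _ _).1 e3⟩

theorem RL_fin {S : An.Sec} {den : ℕ} (h : ∀ n c l, ∃ e : G, den * S.lam n c l = e) {Lz : ℕ → ℤ}
    (hz : ∀ k : ℕ, 0 < k → (Lz k : ZMod N) = L k) (μ : ℕ) :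
    ∃ F : G, den * finL S Lz μ = F ∧ (den * S.fin μ, F) ∈ RL hL := by
  choose e he using h
  have k : ∀ k : ℕ, 0 < k → (((Real.log k : ℝ) : ℂ), (Lz k : G)) ∈ RL hL := fun k h =>
    ⟨k, 1, Nat.cast_pos.2 h, one_pos, by simp, by simpa using hz k h, by simp [TL.tlt_one hL]⟩
  refine ⟨∑ k ∈ range (μ + 1), ∑ x ∈ k.divisorsAntidiagonal,
    e (μ - k) x.1 x.2 * ((Lz x.2 - Lz x.1 : ℤ) : G), ?_, ?_⟩
  · simp only [finL, mul_sum, ← mul_assoc, he, map_sum, map_mul, map_intCast]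
  · simp only [An.Sec.fin, mul_sum, ← mul_assoc, he]
    rw [prod_mk_sum]
    refine sum_mem fun j _ => ?_
    rw [prod_mk_sum]
    refine sum_mem fun x hx => ?_
    have := RL_mul hL (sub_mem (k _ (Nat.pos_of_ne_zero (Nat.right_ne_zero_of_mem_divisorsAntidiagonal hx)))
      (k _ (Nat.pos_of_ne_zero (Nat.left_ne_zero_of_mem_divisorsAntidiagonal hx)))) (e (μ - j) x.1 x.2)
    simpa only [Prod.mk_sub_mk, ofReal_sub, Int.cast_sub] using this

end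

/-- The congruence for the finite parts. -/
theorem fin_cong {φ : G → G} {ar : ℕ → ℂ} {S : An.Sec} {mu : ℕ → ℕ} {a : ℕ → G} (a1 : a 1 = 1)
    (h1 : SymS φ ar) (h2 : GzaS S mu a ar) (h3 : RatS S) :
    ∃ (T : ℕ) (B : Finset ℕ), 0 < T ∧ ∀ (l N : ℕ) (r z : G) (L : ℚ → ZMod N) (Lz : ℕ → ℤ),
      l.Prime → l ∉ B → l % 4 = 1 → ¬ 5 ∣ l → Prim r → r.norm = l → Lg l L →
      (∀ k : ℕ, 0 < k → (Lz k : ZMod N) = L k) →
      (N : G) ∣ φ r * eb r + φ (star r) * eb (star r) - a l → (N : G) ∣ z - a l →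
      ∃ E : G, T * (finL S Lz (mu l) - z * finL S Lz (mu 1)) = N * E := by
  obtain ⟨n, R1, R2, B, n0, r1, r2, e1, h1⟩ := h1
  obtain ⟨c, κ, h2⟩ := h2
  obtain ⟨den, d0, h3⟩ := h3
  refine ⟨n * c.den * den, B, by positivity, fun l N r z L Lz hl hB l4 l5 hp hr hL hz k1 k2 => ?_⟩
  have := Fact.mk hl
  obtain ⟨S1, S2, s1, s2, e2, k⟩ := h1 l r _ hl hB hp hr rfl
  obtain ⟨k3, k4⟩ := k _ L hL
  generalize φ r * eb r + φ (star r) * eb (star r) = y at k1 k3 k4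
  obtain ⟨F1, f1, g1⟩ := RL_fin hL.add h3 hz (mu 1)
  obtain ⟨F2, f2, g2⟩ := RL_fin hL.add h3 hz (mu l)
  obtain ⟨x1, y1⟩ := ZMod.intCast_surjective (L R1)
  obtain ⟨x2, y2⟩ := ZMod.intCast_surjective (L R2)
  have p1 := RL_conj hL.add r1 r2 (y := ⟨x1, -x2⟩) y1 (by rw [← y2, Int.cast_neg])
  have p2 := RL_conj hL.add s1 s2 (y := y * ⟨x1, -x2⟩)
    (by rw [k3, ← y1, ← y2]; simp) (by rw [k4, ← y1, ← y2]; simp)
  rw [e1] at p1
  rw [e2] at p2
  have q1 := h2 1 rfl (by decide)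
  have q2 := h2 l l4 l5
  have p3 := sub_mem (add_mem (RL_mul _ p2 (c.num * den)) (RL_mul _ g2 (n * c.den)))
    (RL_mul _ (add_mem (RL_mul _ p1 (c.num * den)) (RL_mul _ g1 (n * c.den))) (a l))
  simp only [Prod.mk_add_mk, Prod.mk_sub_mk, map_mul, map_natCast, map_intCast] at p3
  have c1 : (c.num : ℂ) = c * c.den := by exact_mod_cast (Rat.mul_den_eq_num c).symm
  rw [a1, map_one] at q1
  rw [show ∀ x : ℂ, x = 0 → ∀ y : G, (x, y) = (0, y) from fun x e y => by rw [e]] at p3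
  swap
  · rw [c1]
    linear_combination (n * c.den * den : ℂ) * q2 - (n * c.den * den * a l : ℂ) * q1
  obtain ⟨E1, j1⟩ := RL_zero _ p3
  obtain ⟨E2, j2⟩ := k1
  obtain ⟨E3, j3⟩ := k2
  refine ⟨E1 - c.num * den * ⟨x1, -x2⟩ * E2 - n * c.den * F1 * E3, ?_⟩
  have j4 : (n * c.den * (F2 - z * F1) : G) =
      N * (E1 - c.num * den * ⟨x1, -x2⟩ * E2 - n * c.den * F1 * E3) := by
    linear_combination j1 - c.num * den * ⟨x1, -x2⟩ * j2 - n * c.den * F1 * j3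
  have j5 := congrArg GaussianInt.toComplex j4
  rw [map_mul _ (N : G), map_natCast, map_mul, map_mul, map_natCast, map_natCast, map_sub, map_mul,
    ← f1, ← f2] at j5
  rw [← j5]
  push_cast
  ring

end Pool.Agent.Lib.MP_696deb_nt.Y2
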