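import Pool.Agent.Lib.MP_696deb_nt.Y2.Wb

/-! Factorisation and elements of norm one. -/

set_option autoImplicit false

open Complex Finset
open scoped Real ComplexConjugate Classical

namespace Pool.Agent.Lib.MP_696deb_nt.Y2.W

open QF (G ii ip Per FT mem_reps)

variable {M : ℕ} {Φ : G → G → G} {a : G → ℂ}

theorem wc1_norm (z : G) : ((z.norm : ℤ) : G) = z * star z := Zsqrtd.norm_eq_mul_conj z

theorem wc1_norm_int (n : ℤ) : (n : G).norm = n * n := Zsqrtd.norm_intCast n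

theorem wc1_norm_dvd {x y : G} (h : x ∣ y) : x.norm ∣ y.norm := by
  obtain ⟨c, rfl⟩ := h
  exact ⟨c.norm, Zsqrtd.norm_mul _ _⟩

theorem wc1_reps_one : QF.reps 1 = {1, -1, ii, -ii} := by
  ext z
  rw [mem_reps, Zsqrtd.norm_def]
  simp only [mem_insert, mem_singleton, ii, Zsqrtd.ext_iff]
  obtain ⟨x, y⟩ := z
  simp only [Zsqrtd.re_one, Zsqrtd.im_one, Zsqrtd.re_neg, Zsqrtd.im_neg]
  constructor
  · intro h
    have h1 : x * x + y * y = 1 := by push_cast at h; linarith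
    have hx : -1 ≤ x ∧ x ≤ 1 := by constructor <;> nlinarith [mul_self_nonneg y]
    have hy : -1 ≤ y ∧ y ≤ 1 := by constructor <;> nlinarith [mul_self_nonneg x]
    obtain ⟨h2, h3⟩ := hx
    obtain ⟨h4, h5⟩ := hy
    interval_cases x <;> interval_cases y <;> simp_all
  · rintro (⟨rfl, rfl⟩ | ⟨rfl, rfl⟩ | ⟨rfl, rfl⟩ | ⟨rfl, rfl⟩) <;> simp

theorem wc1_card_one : (QF.reps 1).card = 4 := by
  rw [wc1_reps_one]; decide

theorem wc1_ne {k : ℕ} (hk : 0 < k) {z : G} (h : z.norm = k) : z ≠ 0 := by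
  rintro rfl
  simp at h
  omega

theorem wc1_gcd {k : ℕ} (hk : 0 < k) {β : G} {t : ℤ} (h : β.norm = k * t)
    (ht : IsCoprime t (k : ℤ)) :
    ∃ g : G, g.norm = k ∧ g ∣ β ∧ ∀ z : G, z.norm = k → z ∣ β → z ∣ g := by
  set g := EuclideanDomain.gcd β (k : G) with hg
  have h1 : g ∣ β := EuclideanDomain.gcd_dvd_left _ _
  have h2 : g ∣ (k : G) := EuclideanDomain.gcd_dvd_right _ _
  refine ⟨g, ?_, h1, fun z hz hb => EuclideanDomain.dvd_gcd hb ⟨star z, ?_⟩⟩
  · have a1 : g.norm ∣ k * t := h ▸ wc1_norm_dvd h1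
    have a2 : g.norm ∣ k * k := by
      have := wc1_norm_dvd h2
      rwa [← Int.cast_natCast, wc1_norm_int] at this
    obtain ⟨u, v, e⟩ := ht
    have a3 : g.norm ∣ k := by
      have : (k : ℤ) = u * (k * t) + v * (k * k) := by linear_combination (-(k : ℤ)) * e
      rw [this]
      exact (a1.mul_left _).add (a2.mul_left _)
    have a4 : (k : ℤ) ∣ g.norm := by
      rw [hg, EuclideanDomain.gcd_eq_gcd_ab]
      generalize EuclideanDomain.gcdA β (k : G) = x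
      generalize EuclideanDomain.gcdB β (k : G) = y
      have e1 : β.re * β.re + β.im * β.im = k * t := by rw [← h, Zsqrtd.norm_def]; ring
      refine ⟨t * (x.re * x.re + x.im * x.im) + 2 * ((β * x).re * y.re + (β * x).im * y.im)
        + k * (y.re * y.re + y.im * y.im), ?_⟩
      simp only [Zsqrtd.norm_def, Zsqrtd.re_add, Zsqrtd.im_add, Zsqrtd.re_mul, Zsqrtd.im_mul,
        Zsqrtd.re_natCast, Zsqrtd.im_natCast]
      linear_combination (x.re * x.re + x.im * x.im) * e1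
    exact Int.dvd_antisymm (GaussianInt.norm_nonneg g) (by positivity) a3 a4
  · rw [← wc1_norm, hz, Int.cast_natCast]

theorem card_div {k : ℕ} (hk : 0 < k) {β : G} {t : ℤ} (h : β.norm = k * t) (ht : IsCoprime t (k : ℤ)) :
    ((QF.reps k).filter (· ∣ β)).card = 4 := by
  obtain ⟨g, g1, g2, g3⟩ := wc1_gcd hk h ht
  have g0 := wc1_ne hk g1
  have hk' : (k : ℤ) ≠ 0 := by positivity
  rw [← wc1_card_one]
  symm
  refine card_bij (fun u _ => u * g) (fun u hu => ?_) (fun u _ v _ e => mul_right_cancel₀ g0 e)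
    fun z hz => ?_
  · have hu1 : u.norm = 1 := by simpa using mem_reps.1 hu
    refine mem_filter.2 ⟨mem_reps.2 (by rw [Zsqrtd.norm_mul, hu1, one_mul, g1]), ?_⟩
    have : u * g ∣ g := ⟨star u, by
      rw [mul_right_comm, ← wc1_norm, hu1, Int.cast_one, one_mul]⟩
    exact this.trans g2
  · obtain ⟨z1, z2⟩ := mem_filter.1 hz
    rw [mem_reps] at z1
    obtain ⟨c, e⟩ := g3 z z1 z2
    have hc : c.norm = 1 := by
      have := congrArg Zsqrtd.norm e
      rw [Zsqrtd.norm_mul, g1, z1] at this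
      exact (mul_left_cancel₀ hk' (this.symm.trans (mul_one _).symm))
    refine ⟨star c, mem_reps.2 (by rw [Zsqrtd.norm_conj, hc, Nat.cast_one]), ?_⟩
    rw [e, mul_comm z, ← mul_assoc, mul_comm (star c), ← wc1_norm, hc, Int.cast_one, one_mul]

theorem sum_reps_mul {k₁ k₂ : ℕ} (h1 : 0 < k₁) (h : k₁.Coprime k₂) (f : G → ℂ) :
    4 * ∑ β ∈ QF.reps (k₁ * k₂), f β = ∑ z ∈ QF.reps k₁, ∑ y ∈ QF.reps k₂, f (z * y) := by
  have hk' : (k₁ : ℤ) ≠ 0 := by positivity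
  have e1 : ∀ z ∈ QF.reps k₁, ∑ y ∈ QF.reps k₂, f (z * y) =
      ∑ β ∈ QF.reps (k₁ * k₂), if z ∣ β then f β else 0 := fun z hz => by
    rw [mem_reps] at hz
    rw [← sum_filter]
    refine sum_bij (fun y _ => z * y) (fun y hy => ?_)
      (fun u _ v _ e => mul_left_cancel₀ (wc1_ne h1 hz) e) (fun β hβ => ?_) fun _ _ => rfl
    · exact mem_filter.2 ⟨mem_reps.2 (by rw [Zsqrtd.norm_mul, hz, mem_reps.1 hy, Nat.cast_mul]),
        dvd_mul_right _ _⟩
    · obtain ⟨b1, y, rfl⟩ := mem_filter.1 hβ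
      rw [mem_reps, Zsqrtd.norm_mul, hz, Nat.cast_mul] at b1
      exact ⟨y, mem_reps.2 (mul_left_cancel₀ hk' b1), rfl⟩
  rw [sum_congr rfl e1, sum_comm, mul_sum]
  refine sum_congr rfl fun β hβ => ?_
  rw [← sum_filter, sum_const, card_div h1 (t := k₂) (by rw [mem_reps.1 hβ, Nat.cast_mul])
    (Nat.isCoprime_iff_coprime.2 h.symm), nsmul_eq_mul, Nat.cast_ofNat]

theorem wc1_comb (hM : 0 < M) {x y : G} (h : (M : ℤ) ∣ x.norm + y.norm - 1) :
    ∃ c d : ℤ, IsCoprime ((c * x + d * y : G).norm) (M : ℤ) := by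
  let c : ℕ := ∏ p ∈ M.primeFactors.filter fun p : ℕ => (p : ℤ) ∣ x.norm, p
  let d : ℕ := ∏ p ∈ M.primeFactors.filter fun p : ℕ => ¬ (p : ℤ) ∣ x.norm, p
  refine ⟨c, d, ?_⟩
  rw [Int.isCoprime_iff_gcd_eq_one, Int.gcd_comm]
  refine Nat.coprime_of_dvd fun p hp hpM hn => ?_
  rw [Int.natAbs_natCast] at hpM
  rw [← Int.natCast_dvd] at hn
  have pp : Prime (p : ℤ) := Nat.prime_iff_prime_int.1 hp
  have hm : p ∈ M.primeFactors := Nat.mem_primeFactors.2 ⟨hp, hpM, hM.ne'⟩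
  have h' : (p : ℤ) ∣ x.norm + y.norm - 1 := (Int.natCast_dvd_natCast.2 hpM).trans h
  have key : ∀ (P : ℕ → Prop) [DecidablePred P], p ∣ ∏ q ∈ M.primeFactors.filter P, q → P p := by
    intro P _ hd
    obtain ⟨q, hq, e⟩ := (hp.prime.dvd_finsetProd_iff _).1 hd
    obtain ⟨q1, q2⟩ := mem_filter.1 hq
    rwa [(Nat.prime_dvd_prime_iff_eq hp (Nat.prime_of_mem_primeFactors q1)).1 e]
  have en : (((c : ℤ) : G) * x + ((d : ℤ) : G) * y).norm = c * c * x.norm + d * d * y.norm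
      + c * d * (2 * (x.re * y.re + x.im * y.im)) := by
    simp only [Zsqrtd.norm_def, Zsqrtd.re_add, Zsqrtd.im_add, Zsqrtd.re_mul, Zsqrtd.im_mul,
      Zsqrtd.re_intCast, Zsqrtd.im_intCast]
    ring
  rw [en] at hn
  by_cases hx : (p : ℤ) ∣ x.norm
  · have pc : (p : ℤ) ∣ c := Int.natCast_dvd_natCast.2 (dvd_prod_of_mem _ (mem_filter.2 ⟨hm, hx⟩))
    have pd : ¬ (p : ℤ) ∣ d := fun e => key _ (Int.natCast_dvd_natCast.1 e) hx
    have h3 : (p : ℤ) ∣ d * d * y.norm := by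
      have := (hn.sub (hx.mul_left (c * c))).sub ((pc.mul_right d).mul_right
        (2 * (x.re * y.re + x.im * y.im)))
      exact this.trans (dvd_of_eq (by ring))
    rcases pp.dvd_or_dvd h3 with e | e
    · exact pd ((pp.dvd_or_dvd e).elim id id)
    · refine pp.not_dvd_one ?_
      have := (hx.add e).sub h'
      exact this.trans (dvd_of_eq (by ring))
  · have pd : (p : ℤ) ∣ d := Int.natCast_dvd_natCast.2 (dvd_prod_of_mem _ (mem_filter.2 ⟨hm, hx⟩))
    have pc : ¬ (p : ℤ) ∣ c := fun e => hx (key _ (Int.natCast_dvd_natCast.1 e))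
    have h3 : (p : ℤ) ∣ c * c * x.norm := by
      have := (hn.sub ((pd.mul_right d).mul_right y.norm)).sub ((pd.mul_left c).mul_right
        (2 * (x.re * y.re + x.im * y.im)))
      exact this.trans (dvd_of_eq (by ring))
    rcases pp.dvd_or_dvd h3 with e | e
    · exact pc ((pp.dvd_or_dvd e).elim id id)
    · exact hx e

theorem wc1_cop {u : G} {n : ℤ} (h : IsCoprime u.norm n) : IsCoprime u (n : G) := by
  have := h.map (Int.castRingHom G)
  rw [eq_intCast, eq_intCast, wc1_norm] at this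
  exact this.of_mul_left_left

theorem wc1_per {P : ℕ} {f : G → G} (hf : Per P f) {x y : G} (h : (P : G) ∣ x - y) : f x = f y := by
  obtain ⟨γ, e⟩ := h
  rw [← hf y γ, ← e, add_sub_cancel]

theorem Ker.wc1_odd (h : Ker M Φ a) {r : G} (hs : 2 * (M : ℤ) ^ 2 ∣ (1 + 2 * r).norm - 1) (A β : G) :
    Φ A ((1 + 2 * r) * β) = Φ A β := by
  obtain ⟨n, hn⟩ := hs
  have e0 : 2 * r.re + 2 * (r.re * r.re + r.im * r.im) = M ^ 2 * n := by
    have e : (1 + 2 * r).norm = 1 + 4 * r.re + 4 * (r.re * r.re + r.im * r.im) := by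
      have : (2 : G) = ((2 : ℤ) : G) := rfl
      rw [this]
      simp only [Zsqrtd.norm_def, Zsqrtd.re_add, Zsqrtd.im_add, Zsqrtd.re_mul, Zsqrtd.im_mul,
        Zsqrtd.re_intCast, Zsqrtd.im_intCast, Zsqrtd.re_one, Zsqrtd.im_one]
      ring
    rw [e] at hn
    linarith
  obtain ⟨c, d, hc⟩ := wc1_comb (M := M) h.adm.pos (x := 1 + r) (y := -ii * r) ⟨M * n, by
    simp only [Zsqrtd.norm_def, Zsqrtd.re_add, Zsqrtd.im_add, Zsqrtd.re_mul, Zsqrtd.im_mul,
      Zsqrtd.re_neg, Zsqrtd.im_neg, Zsqrtd.re_one, Zsqrtd.im_one, ii]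
    linear_combination e0⟩
  set u : G := c * (1 + r) + d * (-ii * r) with hu
  have cu : IsCoprime u (M : G) := by simpa using wc1_cop hc
  obtain ⟨w, v, e⟩ := cu.pow_right (n := 2)
  have e1 : (1 + 2 * r) * star u - u = (M : G) ^ 2 * (n * (c + d * ii)) := by
    have t2 : (2 : G) = ((2 : ℤ) : G) := rfl
    have tM : (M : G) ^ 2 = (((M : ℤ) ^ 2 : ℤ) : G) := by push_cast; rfl
    rw [hu, t2, tM]
    ext
    · simp only [Zsqrtd.re_add, Zsqrtd.im_add, Zsqrtd.re_mul, Zsqrtd.im_mul, Zsqrtd.re_sub,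
        Zsqrtd.re_neg, Zsqrtd.im_neg, Zsqrtd.re_one, Zsqrtd.im_one, ii, Zsqrtd.re_intCast,
        Zsqrtd.im_intCast, Zsqrtd.re_star, Zsqrtd.im_star]
      linear_combination c * e0
    · simp only [Zsqrtd.re_add, Zsqrtd.im_add, Zsqrtd.re_mul, Zsqrtd.im_mul, Zsqrtd.im_sub,
        Zsqrtd.re_neg, Zsqrtd.im_neg, Zsqrtd.re_one, Zsqrtd.im_one, ii, Zsqrtd.re_intCast,
        Zsqrtd.im_intCast, Zsqrtd.re_star, Zsqrtd.im_star]
      linear_combination d * e0
  have k := h.inv u cu A ((1 + 2 * r) * β * w)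
  rw [wc1_per (h.per A) (y := (1 + 2 * r) * β) ⟨-(v * ((1 + 2 * r) * β)), by
      push_cast; linear_combination ((1 + 2 * r) * β) * e⟩,
    wc1_per (h.per A) (x := star u * _) (y := β) ⟨n * (c + d * ii) * β * w - v * β, by
      push_cast; linear_combination β * w * e1 + β * e⟩] at k
  exact k

theorem Ker.inv_norm (h : Ker M Φ a) {s : G} (hs : 2 * (M : ℤ) ^ 2 ∣ s.norm - 1) :
    ∃ ζ : G, ζ.norm = 1 ∧ ∀ A β, Φ A (s * β) = Φ A (ζ * β) := by
  have t2 : (2 : G) = ((2 : ℤ) : G) := rfl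
  have hp : (2 : ℤ) ∣ s.re * s.re + s.im * s.im - 1 := by
    have := (dvd_mul_right 2 _).trans hs
    rw [Zsqrtd.norm_def] at this
    exact this.trans (dvd_of_eq (by ring))
  obtain ⟨x, y⟩ := s
  obtain ⟨n, hn⟩ := hp
  simp only at hn
  obtain ⟨p, rfl | rfl⟩ := Int.even_or_odd' x <;> obtain ⟨q, rfl | rfl⟩ := Int.even_or_odd' y
  · exfalso
    have : 2 * (2 * p * p + 2 * q * q - n) = 1 := by linarith
    omega
  · have e : (⟨2 * p, 2 * q + 1⟩ : G) = (1 + 2 * ⟨q, -p⟩) * ii := by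
      rw [t2]; ext <;> simp [ii, add_comm]
    refine ⟨ii, by decide, fun A β => ?_⟩
    rw [e, mul_assoc]
    refine h.wc1_odd ?_ A _
    rw [e, Zsqrtd.norm_mul, show ii.norm = 1 by decide, mul_one] at hs
    exact hs
  · have e : (⟨2 * p + 1, 2 * q⟩ : G) = 1 + 2 * ⟨p, q⟩ := by
      rw [t2]; ext <;> simp [add_comm]
    refine ⟨1, by simp, fun A β => ?_⟩
    rw [e] at hs ⊢
    rw [one_mul]
    exact h.wc1_odd hs A _
  · exfalso
    have : 2 * (n - 2 * p * p - 2 * p - 2 * q * q - 2 * q) = 1 := by linarith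
    omega

theorem Ker.sum_inv (h : Ker M Φ a) {y y' : G} (hy : IsCoprime y.norm (M : ℤ))
    (hs : 2 * (M : ℤ) ^ 2 ∣ y'.norm - y.norm) (k : ℕ) (A : G) :
    ∑ z ∈ QF.reps k, Φ A (z * y') = ∑ z ∈ QF.reps k, Φ A (z * y) := by
  have h2 : (2 : ℤ) ∣ M := by
    have := (show 2 ∣ 10 by norm_num).trans h.adm.ten
    exact_mod_cast this
  obtain ⟨e, v, he⟩ : IsCoprime y.norm (2 * (M : ℤ) ^ 2) :=
    (hy.of_isCoprime_of_dvd_right h2).mul_right hy.pow_right
  obtain ⟨n, hn⟩ := hs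
  obtain ⟨ζ, z1, z2⟩ := h.inv_norm (s := y' * star y * e) ⟨n * y.norm * e * e
      - v * (1 + e * y.norm), by
    rw [Zsqrtd.norm_mul, Zsqrtd.norm_mul, Zsqrtd.norm_conj, wc1_norm_int]
    linear_combination y.norm * e * e * hn + (1 + e * y.norm) * he⟩
  have he' : (e : G) * (y * star y) + v * (2 * (M : G) ^ 2) = 1 := by
    rw [← wc1_norm]
    exact_mod_cast congrArg (Int.cast : ℤ → G) he
  have hz : ζ * star ζ = 1 := by rw [← wc1_norm, z1, Int.cast_one]
  have e1 : ∀ z, Φ A (z * y') = Φ A (ζ * z * y) := fun z => by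
    rw [mul_assoc, ← z2]
    exact wc1_per (h.per A) ⟨z * y' * v * 2, by push_cast; linear_combination (-(z * y')) * he'⟩
  rw [sum_congr rfl fun z _ => e1 z]
  refine sum_bij' (fun z _ => ζ * z) (fun z _ => star ζ * z) (fun z hz => ?_) (fun z hz => ?_)
    (fun z _ => ?_) (fun z _ => ?_) fun _ _ => rfl
  · exact mem_reps.2 (by rw [Zsqrtd.norm_mul, z1, one_mul, mem_reps.1 hz])
  · exact mem_reps.2 (by rw [Zsqrtd.norm_mul, Zsqrtd.norm_conj, z1, one_mul, mem_reps.1 hz])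
  · linear_combination z * hz
  · linear_combination z * hz

end Pool.Agent.Lib.MP_696deb_nt.Y2.W
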