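import Pool.Agent.Lib.MP_696deb_nt.Y2.Wh

/-! Divisor sums. -/

set_option autoImplicit false

open Complex Finset
open scoped Real ComplexConjugate Classical

namespace Pool.Agent.Lib.MP_696deb_nt.Y2.W

open QF (G ii ip Per FT mem_reps)

variable {M : ℕ} {Φ : G → G → G} {a : G → ℂ}

theorem exists_split (M : ℕ) {k : ℕ} (hk : 0 < k) :
    ∃ k₁ k₂ : ℕ, k = k₁ * k₂ ∧ Smo M k₁ ∧ k₂.Coprime M := by
  induction k using Nat.strong_induction_on with
  | _ k ih =>
    by_cases h : k.Coprime M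
    · exact ⟨1, k, (one_mul k).symm, fun p hp e => absurd e hp.not_dvd_one, h⟩
    obtain ⟨p, hp, ⟨j, rfl⟩, h2⟩ := Nat.Prime.not_coprime_iff_dvd.1 h
    have hj : 0 < j := Nat.pos_of_mul_pos_left hk
    obtain ⟨k₁, k₂, rfl, h3, h4⟩ := ih j (lt_mul_of_one_lt_left hj hp.one_lt) hj
    refine ⟨p * k₁, k₂, (mul_assoc _ _ _).symm, fun r hr e => ?_, h4⟩
    rcases hr.dvd_mul.1 e with e | e
    · exact e.trans h2
    · exact h3 r hr e

theorem Smo.coprime {k₁ k₂ : ℕ} (h1 : Smo M k₁) (h2 : k₂.Coprime M) : k₁.Coprime k₂ :=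
  Nat.eq_one_iff_not_exists_prime_dvd.2 fun p hp e =>
    hp.not_dvd_one (h2 ▸ Nat.dvd_gcd (e.trans (Nat.gcd_dvd_right _ _))
      (h1 p hp (e.trans (Nat.gcd_dvd_left _ _))))

theorem Smo.of_dvd {k c : ℕ} (h : Smo M k) (hc : c ∣ k) : Smo M c := fun p hp e => h p hp (e.trans hc)

theorem we_sum_mul {R : Type} [AddCommMonoid R] {m n : ℕ} (h : m.Coprime n) (f : ℕ → R) :
    ∑ c ∈ (m * n).divisors, f c = ∑ x ∈ m.divisors, ∑ y ∈ n.divisors, f (x * y) := by
  rw [Nat.divisors_mul, mul_def, sum_image h.mul_injOn_divisors, sum_product]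

theorem Ker.sum_split (h : Ker M Φ a) {k₁ k₂ : ℕ} (h1 : Smo M k₁) (h2 : k₂.Coprime M) (σ : ℤ)
    (A : G) (u : ℕ → ℂ) :
    ∑ x ∈ (k₁ * k₂).divisorsAntidiagonal, lamA M a x.1 (σ * x.2) A * u x.1 =
      ∑ c₁ ∈ k₁.divisors, ∑ c₂ ∈ k₂.divisors,
        et c₂ * lamA M a c₁ (σ * (k₁ * k₂) / c₁) A * u (c₁ * c₂) := by
  rw [Nat.sum_divisorsAntidiagonal fun x y : ℕ => lamA M a x (σ * y) A * u x,
    we_sum_mul (h1.coprime h2)]
  refine sum_congr rfl fun c₁ m₁ => sum_congr rfl fun c₂ m₂ => ?_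
  have p₁ := Nat.pos_of_mem_divisors m₁
  have p₂ := Nat.pos_of_mem_divisors m₂
  obtain ⟨d₁, rfl⟩ := Nat.dvd_of_mem_divisors m₁
  obtain ⟨d₂, rfl⟩ := Nat.dvd_of_mem_divisors m₂
  have e : c₁ * d₁ * (c₂ * d₂) / (c₁ * c₂) = d₁ * d₂ :=
    Nat.div_eq_of_eq_mul_right (Nat.mul_pos p₁ p₂) (by ring)
  have e' : σ * (((c₁ * d₁ : ℕ) : ℤ) * ((c₂ * d₂ : ℕ) : ℤ)) / c₁ = c₂ * (σ * (d₁ * d₂ : ℕ)) :=
    Int.ediv_eq_of_eq_mul_right (by exact_mod_cast p₁.ne') (by push_cast; ring)
  rw [e, e', Nat.cast_mul c₁ c₂, mul_comm (c₁ : ℤ),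
    h.hom c₂ (Nat.isCoprime_iff_coprime.2 (h2.coprime_mul_right))]

theorem we_et_pow (x : ℤ) (j : ℕ) : et (x ^ j) = et x ^ j := by
  rw [et, et, Int.cast_pow, map_pow]

theorem we_et_one {p : ℕ} (h : p % 4 = 1) : et p = 1 := ZMod.χ₄_int_one_mod_four (by omega)

theorem we_et_three {p : ℕ} (h : p % 4 = 3) : et p = -1 := ZMod.χ₄_int_three_mod_four (by omega)

set_option linter.unusedVariables false in
theorem et_sum_zero {p q k : ℕ} (hp : p.Prime) (hq : q.Prime) (hpq : p ≠ q) (h4 : q % 4 = 3)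
    (hk : Odd (k.factorization q)) (u : ℕ → ℂ) :
    ∑ c ∈ k.divisors, et c * u (c.factorization p) = 0 := by
  have k0 : k ≠ 0 := by
    rintro rfl
    simp at hk
  rw [← Nat.ordProj_mul_ordCompl_eq_self k q,
    we_sum_mul ((Nat.coprime_ordCompl hq k0).pow_left _), Nat.sum_divisors_prime_pow hq, sum_comm]
  refine sum_eq_zero fun c hc => ?_
  rw [sum_congr rfl (g := fun j => (-1) ^ j * (et c * u (c.factorization p))) fun j _ => ?_,
    ← sum_mul, neg_one_geom_sum, if_pos hk.add_one, zero_mul]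
  rw [Nat.factorization_mul (pow_ne_zero _ hq.ne_zero) (Nat.pos_of_mem_divisors hc).ne',
    hq.factorization_pow, Nat.cast_mul, Nat.cast_pow, et_mul, we_et_pow, we_et_three h4,
    Finsupp.add_apply, Finsupp.single_eq_of_ne hpq, zero_add]
  push_cast
  ring

theorem we_rec {p : ℕ} (hp : p.Prime) (n : ℕ) :
    ((QF.reps (p * n)).card : ℤ) + (if p ∣ n then et p * (QF.reps (n / p)).card else 0) =
      (1 + et p) * (QF.reps n).card := by
  have h1 : ∀ α β : G, (fun _ => (1 : G)) (α * β) = (fun _ => 1) α * (fun _ => 1) β :=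
    fun _ _ => (one_mul 1).symm
  rcases hp.eq_two_or_odd with rfl | h2
  · have h := QF.f3_div (ψ := fun _ => 1) h1 two_ne_zero (w := ⟨1, 1⟩) (by decide) n
    rw [filter_true_of_mem fun α hα => ?_] at h
    · have e : et 2 = 0 := by decide
      simpa [e] using h
    · have h3 := mem_reps.1 hα
      obtain ⟨s, hs⟩ := Int.even_mul_pred_self α.re
      obtain ⟨t, ht⟩ := Int.even_mul_pred_self α.im
      obtain ⟨r, hr⟩ : ∃ r, α.re + α.im = 2 * r := ⟨n - s - t, by
        rw [norm_eq_bil, bil, Nat.cast_mul] at h3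
        push_cast at h3 ⊢
        linear_combination h3 - hs - ht⟩
      exact ⟨⟨r, α.im - r⟩, by ext <;> simp; omega⟩
  rcases Nat.odd_mod_four_iff.1 h2 with h4 | h4
  · have := Fact.mk hp
    obtain ⟨x, y, hxy⟩ := Nat.Prime.sq_add_sq (p := p) (by omega)
    have hz : (⟨x, y⟩ : G).norm = p := by rw [norm_eq_bil, bil, ← hxy]; push_cast; ring
    have h := QF.f3_one (ψ := fun _ => 1) h1 hp h4 hz n
    simp only [sum_const, nsmul_eq_mul, mul_one, one_mul] at h
    rw [we_et_one h4, one_mul]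
    exact_mod_cast h
  · have h := QF.f3_three (ψ := fun _ => 1) h1 hp h4 n
    simp only [sum_const, nsmul_eq_mul, mul_one, one_mul] at h
    rw [we_et_three h4]
    split_ifs at h ⊢
    · rw [Nat.cast_injective h]
      ring
    · rw [Nat.cast_eq_zero.1 h]
      ring

theorem we_card_pow {p n : ℕ} (hp : p.Prime) (hn : ¬ p ∣ n) (j : ℕ) :
    ((QF.reps (p ^ j * n)).card : ℤ) = (∑ i ∈ range (j + 1), et p ^ i) * (QF.reps n).card := by
  have e : ∀ j, p ^ (j + 1) * n = p * (p ^ j * n) := fun j => by ring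
  induction j using Nat.twoStepInduction with
  | zero => simp
  | one =>
    have h := we_rec hp n
    rw [if_neg hn, add_zero] at h
    simpa [sum_range_succ] using h
  | more j h0 h1 =>
    have h := we_rec hp (p ^ (j + 1) * n)
    rw [if_pos (e j ▸ dvd_mul_right _ _), ← e, h1, e j, Nat.mul_div_cancel_left _ hp.pos, h0,
      sum_range_succ _ (j + 1)] at h
    rw [sum_range_succ, sum_range_succ]
    linear_combination h

/-- The number of representations as a sum of two squares. -/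
theorem et_sum_card {k : ℕ} (hk : 0 < k) : 4 * ∑ c ∈ k.divisors, et c = (QF.reps k).card := by
  induction k using Nat.recOnPrimePow with
  | zero => exact absurd hk (lt_irrefl 0)
  | one => decide +kernel
  | prime_pow_mul n p j hp hn hj ih =>
    rw [we_card_pow hp hn, ← ih (Nat.pos_of_mul_pos_left hk),
      we_sum_mul ((hp.coprime_iff_not_dvd.2 hn).pow_left _), Nat.sum_divisors_prime_pow hp,
      mul_left_comm, sum_mul_sum]
    simp only [Nat.cast_mul, Nat.cast_pow, et_mul, we_et_pow]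

theorem we_two (v : ℕ) {m : ℤ} (hm : m % 4 = 3) (x y : ℤ) : x * x + y * y ≠ 2 ^ v * m := by
  induction v generalizing x y with
  | zero =>
    intro h
    obtain ⟨s, rfl | rfl⟩ := Int.even_or_odd' x <;> obtain ⟨t, rfl | rfl⟩ := Int.even_or_odd' y
    · have : m = 4 * (s * s + t * t) := by linear_combination -h
      omega
    · have : m = 4 * (s * s + t * t + t) + 1 := by linear_combination -h
      omega
    · have : m = 4 * (s * s + t * t + s) + 1 := by linear_combination -h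
      omega
    · have : m = 4 * (s * s + t * t + s + t) + 2 := by linear_combination -h
      omega
  | succ v ih =>
    intro h
    obtain ⟨s, hs⟩ := Int.even_mul_pred_self x
    obtain ⟨t, ht⟩ := Int.even_mul_pred_self y
    obtain ⟨r, hr⟩ : ∃ r, x = 2 * r - y := ⟨2 ^ v * m - s - t, by linear_combination h - hs - ht⟩
    refine ih r (r - y) (mul_left_cancel₀ two_ne_zero ?_)
    rw [hr] at h
    linear_combination h

theorem exists_obs {k : ℕ} (hk : 0 < k) : ∃ q, Obs q k := by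
  by_cases h : k / 2 ^ k.factorization 2 % 4 = 1
  · exact ⟨2, Nat.prime_two, .inr ⟨rfl, h⟩⟩
  have h2 := Nat.not_dvd_ordCompl Nat.prime_two hk.ne'
  have h3 : ¬ ∃ x y, k = x ^ 2 + y ^ 2 := fun ⟨x, y, e⟩ =>
    we_two (k.factorization 2) (m := (k / 2 ^ k.factorization 2 : ℕ)) (by omega) x y (by
      have := (Nat.ordProj_mul_ordCompl_eq_self k 2).trans e
      rw [← sq, ← sq]
      exact_mod_cast this.symm)
  rw [Nat.eq_sq_add_sq_iff] at h3
  push Not at h3
  obtain ⟨q, hq, h4, h5⟩ := h3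
  have := Nat.prime_of_mem_primeFactors hq
  exact ⟨q, this, .inl ⟨h4, by rw [Nat.factorization_def _ this]; exact Nat.not_even_iff_odd.1 h5⟩⟩

theorem Obs.not_dvd {q k : ℕ} (h : Obs q k) (β : G) :
    ¬ (q : ℤ) ^ (k.factorization q + 2) ∣ β.norm + k := by
  rintro ⟨t, ht⟩
  obtain ⟨hq, h⟩ := h
  have k0 : k ≠ 0 := by
    rintro rfl
    simp at h
  have h1 := Nat.not_dvd_ordCompl hq k0
  have h2 := Nat.ordProj_mul_ordCompl_eq_self k q
  replace h : q % 4 = 3 ∧ Odd (k.factorization q) ∨ q = 2 ∧ k / q ^ k.factorization q % 4 = 1 :=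
    h.imp_right fun ⟨e, e'⟩ => ⟨e, by rw [e]; exact e'⟩
  generalize k.factorization q = v at *
  have h3 : β.re * β.re + β.im * β.im = q ^ v * (q ^ 2 * t - (k / q ^ v : ℕ)) := by
    have : (q : ℤ) ^ v * (k / q ^ v : ℕ) = k := by exact_mod_cast h2
    rw [norm_eq_bil, bil] at ht
    linear_combination ht + this
  rcases h with ⟨h4, h5⟩ | ⟨rfl, h5⟩
  · obtain ⟨n, hn⟩ : ∃ n, n = (q ^ 2 * t - (k / q ^ v : ℕ) : ℤ).natAbs := ⟨_, rfl⟩
    have h6 : ¬ q ∣ n := fun e => h1 (Int.natCast_dvd_natCast.1 (by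
      rw [hn, ← Int.natCast_dvd] at e
      exact (dvd_sub_right ((dvd_pow_self _ two_ne_zero).mul_right t)).1 e))
    have n0 : n ≠ 0 := fun e => h6 (e ▸ dvd_zero q)
    have h7 : q ^ v * n = β.re.natAbs ^ 2 + β.im.natAbs ^ 2 := by
      have := congrArg Int.natAbs h3
      rw [Int.natAbs_mul, Int.natAbs_pow, Int.natAbs_natCast, ← hn] at this
      rw [← this, sq, sq, ← Int.natAbs_mul, ← Int.natAbs_mul]
      exact Int.natAbs_add_of_nonneg (mul_self_nonneg _) (mul_self_nonneg _)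
    have := Fact.mk hq
    have h8 := Nat.eq_sq_add_sq_iff.1 ⟨_, _, h7⟩ q (Nat.mem_primeFactors.2
      ⟨hq, (dvd_pow_self q h5.pos.ne').mul_right n, mul_ne_zero (pow_ne_zero _ hq.ne_zero) n0⟩) h4
    rw [padicValNat.mul (pow_ne_zero _ hq.ne_zero) n0, padicValNat.prime_pow,
      padicValNat.eq_zero_of_not_dvd h6, add_zero] at h8
    exact Nat.not_even_iff_odd.2 h5 h8
  · refine we_two v ?_ _ _ h3
    generalize k / 2 ^ v = m at h5 ⊢
    push_cast
    omega

end Pool.Agent.Lib.MP_696deb_nt.Y2.W
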