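import Pool.Agent.Lib.MP_696deb_nt.Y2.Wv

/-! The finite part of the derivative. -/

set_option autoImplicit false

open Complex Finset
open scoped Real ComplexConjugate Classical

namespace Pool.Agent.Lib.MP_696deb_nt.Y2.W

open QF (G ii ip Per FT mem_reps)

variable {M : ℕ} {Φ : G → G → G} {a : G → ℂ} {p : ℕ}

theorem wf_log {μ n : ℕ} (h : n ≤ μ) : Real.log n =
    ∑ p ∈ (range (μ + 1)).filter Nat.Prime, (n.factorization p : ℝ) * Real.log p := by
  rw [Real.log_nat_eq_sum_factorization]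
  refine Finsupp.sum_of_support_subset _ (fun q hq => ?_) _ fun _ _ => by simp
  rw [Nat.support_factorization] at hq
  have := Nat.le_of_mem_primeFactors hq
  exact mem_filter.2 ⟨mem_range.2 (by omega), Nat.prime_of_mem_primeFactors hq⟩

theorem fin_eq (M : ℕ) (a : G → ℂ) (μ : ℕ) : (sec M a).fin μ =
    ∑ p ∈ (range (μ + 1)).filter Nat.Prime, cP M a p μ * (Real.log p : ℝ) := by
  simp only [An.Sec.fin, cP, cA, sum_mul, lam_sec]
  rw [sum_comm (s := (range (μ + 1)).filter Nat.Prime)]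
  refine sum_congr rfl fun k hk => ?_
  rw [sum_comm (s := (range (μ + 1)).filter Nat.Prime), sum_comm]
  refine sum_congr rfl fun A _ => ?_
  rw [sum_comm (s := (range (μ + 1)).filter Nat.Prime)]
  refine sum_congr rfl fun x hx => ?_
  obtain ⟨e, k0⟩ := Nat.mem_divisorsAntidiagonal.1 hx
  have hμ : k ≤ μ := Nat.lt_succ_iff.1 (mem_range.1 hk)
  rw [wf_log ((Nat.le_of_dvd k0.bot_lt (Dvd.intro _ e)).trans hμ),
    wf_log ((Nat.le_of_dvd k0.bot_lt (Dvd.intro_left _ e)).trans hμ), ← sum_sub_distrib]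
  push_cast
  rw [mul_sum]
  exact sum_congr rfl fun q _ => by ring

theorem wf_card (hp : p.Prime) (h3 : p % 4 = 3) (n s : ℕ) :
    (QF.reps (p ^ (2 * s) * n)).card = (QF.reps n).card := by
  induction s with
  | zero => simp
  | succ s ih =>
    have e := QF.f3_three (ψ := fun _ => 1) (fun _ _ => (mul_one _).symm) hp h3
      (p * (p ^ (2 * s) * n))
    rw [if_pos (Dvd.intro _ rfl), Nat.mul_div_cancel_left _ hp.pos] at e
    simp only [sum_const, nsmul_eq_mul, mul_one, one_mul, Nat.cast_inj] at e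
    rw [← ih, ← e]
    congr 2
    ring

theorem wf_dvd (hp : p.Prime) (h3 : p % 4 = 3) (s : ℕ) : ∀ (k n : ℕ) (A : G), A.norm = n →
    Odd (k.factorization p) → p ^ (2 * s) ∣ n + k → p ^ (2 * s) ∣ k := by
  induction s with
  | zero => simp
  | succ s ih =>
    intro k n A hA hk h
    have := Fact.mk hp
    have e2 : p ^ (2 * (s + 1)) = p * p * p ^ (2 * s) := by ring
    rw [e2] at h ⊢
    have k0 : k ≠ 0 := by rintro rfl; simp at hk
    have h1 : p ∣ k := (hp.dvd_iff_one_le_factorization k0).2 hk.pos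
    obtain ⟨m, rfl⟩ : p ∣ n :=
      (Nat.dvd_add_left h1).1 (((Dvd.intro _ rfl).trans (Dvd.intro _ rfl)).trans h)
    have hd := ((GaussianInt.prime_iff_mod_four_eq_three_of_nat_prime p).2 h3).dvd_or_dvd
      (Dvd.intro (m : G) (by rw [QF.f3_mul hA, Nat.cast_mul]))
    obtain ⟨B, rfl⟩ : (p : G) ∣ A := hd.elim id fun k => by simpa using QF.f3_star k
    obtain ⟨n', hn⟩ := Int.eq_ofNat_of_zero_le (GaussianInt.norm_nonneg B)
    have en : p * m = p * p * n' := by
      rw [Zsqrtd.norm_mul, Zsqrtd.norm_natCast, hn] at hA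
      exact_mod_cast hA.symm
    rw [en] at h
    obtain ⟨k', rfl⟩ : p * p ∣ k :=
      (Nat.dvd_add_right (Dvd.intro _ rfl)).1 ((Dvd.intro _ rfl).trans h)
    rw [← mul_add] at h
    refine mul_dvd_mul_left _ (ih k' n' B hn ?_
      (Nat.dvd_of_mul_dvd_mul_left (mul_pos hp.pos hp.pos) h))
    rw [← sq, Nat.factorization_mul (pow_ne_zero _ hp.ne_zero) (right_ne_zero_of_mul k0),
      hp.factorization_pow] at hk
    simp only [Finsupp.add_apply, Finsupp.single_eq_same] at hk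
    rw [Nat.odd_iff] at hk ⊢
    omega

theorem wf_cA (hp : p.Prime) {K : ℝ} (hK : ∀ c l A, ‖lamA M a c l A‖ ≤ K) {μ k : ℕ} (hk : k ≤ μ)
    (s : ℕ) (A : G) : ‖cA M a p (p ^ (2 * s) * k) A‖ ≤ K * (2 * μ * (2 + μ)) * (s + 1) ^ 2 := by
  have K0 : 0 ≤ K := (norm_nonneg _).trans (hK 0 0 0)
  rcases k.eq_zero_or_pos with rfl | k0
  · simp only [cA, mul_zero, Nat.divisorsAntidiagonal_zero, sum_empty, norm_zero]
    positivity
  have hc : (p ^ (2 * s) * k).divisorsAntidiagonal.card ≤ (2 * s + 1) * μ := by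
    rw [← Nat.map_div_right_divisors, card_map, Nat.divisors_mul]
    refine card_mul_le.trans (Nat.mul_le_mul ?_ ((Nat.card_divisors_le_self k).trans hk))
    rw [Nat.divisors_prime_pow hp, card_map, card_range]
  refine (norm_sum_le_of_le (n := fun _ => K * (2 * s + μ)) _ fun x hx => ?_).trans ?_
  · obtain ⟨e, n0⟩ := Nat.mem_divisorsAntidiagonal.1 hx
    have e1 := congrArg (fun n : ℕ => n.factorization p) e
    rw [← e] at n0
    simp only [Nat.factorization_mul (left_ne_zero_of_mul n0) (right_ne_zero_of_mul n0),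
      Nat.factorization_mul (pow_ne_zero _ hp.ne_zero) k0.ne', hp.factorization_pow,
      Finsupp.add_apply, Finsupp.single_eq_same] at e1
    have e2 := Nat.factorization_lt p k0.ne'
    rw [norm_mul]
    refine mul_le_mul (hK _ _ _) ((norm_sub_le _ _).trans ?_) (norm_nonneg _) K0
    rw [Complex.norm_natCast, Complex.norm_natCast]
    exact_mod_cast (by omega : x.2.factorization p + x.1.factorization p ≤ 2 * s + μ)
  · rw [sum_const, nsmul_eq_mul]
    have hc' : ((p ^ (2 * s) * k).divisorsAntidiagonal.card : ℝ) ≤ (2 * s + 1) * μ := by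
      exact_mod_cast hc
    have s0 : (0 : ℝ) ≤ s := Nat.cast_nonneg s
    have m0 : (0 : ℝ) ≤ μ := Nat.cast_nonneg μ
    calc _ ≤ (2 * (s + 1) * μ : ℝ) * (K * ((2 + μ) * (s + 1))) :=
          mul_le_mul (hc'.trans (by nlinarith)) (mul_le_mul_of_nonneg_left (by nlinarith) K0)
            (by positivity) (by positivity)
      _ = _ := by ring

theorem Ker.cP_bd (h : Ker M Φ a) (hp : p.Prime) (h3 : p % 4 = 3) (μ : ℕ) :
    ∃ C : ℝ, ∀ s : ℕ, ‖cP M a p (μ * p ^ (2 * s))‖ ≤ C * (s + 1) ^ 2 := by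
  obtain ⟨K, hK⟩ := norm_lamA_le h.adm.pos a
  refine ⟨∑ k ∈ range (μ + 1), (QF.reps (μ - k)).card * (K * (2 * μ * (2 + μ))), fun s => ?_⟩
  have P0 : 0 < p ^ (2 * s) := pow_pos hp.pos _
  have e : cP M a p (μ * p ^ (2 * s)) = ∑ k ∈ range (μ + 1),
      ∑ A ∈ QF.reps (p ^ (2 * s) * (μ - k)), cA M a p (p ^ (2 * s) * k) A := by
    refine (sum_of_injOn (fun k => p ^ (2 * s) * k)
      (fun _ _ _ _ e => Nat.eq_of_mul_eq_mul_left P0 e) (fun k hk => ?_) (fun k hk hn => ?_)
      fun k _ => by rw [Nat.mul_sub, mul_comm μ]).symm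
    · have := Nat.mul_le_mul_left (p ^ (2 * s)) (Nat.lt_succ_iff.1 (mem_range.1 hk))
      exact mem_range.2 (Nat.lt_succ_iff.2 (mul_comm μ _ ▸ this))
    · have hk' := Nat.lt_succ_iff.1 (mem_range.1 hk)
      refine sum_eq_zero fun A hA => h.cA_zero hp (fun o => hn ?_) A
      obtain ⟨j, rfl⟩ := wf_dvd hp h3 s k _ A (mem_reps.1 hA) o.2
        (by rw [Nat.sub_add_cancel hk']; exact Dvd.intro_left _ rfl)
      rw [mul_comm μ] at hk'
      exact ⟨j, mem_coe.2 (mem_range.2 (Nat.lt_succ_iff.2 (Nat.le_of_mul_le_mul_left hk' P0))), rfl⟩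
  rw [e, sum_mul]
  refine norm_sum_le_of_le _ fun k hk => ?_
  refine (norm_sum_le_of_le _ fun A _ =>
    wf_cA hp hK (Nat.lt_succ_iff.1 (mem_range.1 hk)) s A).trans ?_
  rw [sum_const, nsmul_eq_mul, wf_card hp h3, ← mul_assoc]

end Pool.Agent.Lib.MP_696deb_nt.Y2.W
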