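import Pool.Agent.Lib.MP_696deb_nt.Y2.W0
import Pool.Agent.Lib.MP_696deb_nt.Y2.D4

/-! The data of a curve satisfy the conditions of the finite side. -/

set_option autoImplicit false

open Finset
open scoped Classical

namespace Pool.Agent.Lib.MP_696deb_nt.Y2

open QF

theorem wpx_par (a b : G) (h : 2 ∣ a.norm - b.norm) :
    (-1 : ℂ) ^ a.norm.natAbs = (-1) ^ b.norm.natAbs := by
  rw [neg_one_pow_eq_pow_mod_two, neg_one_pow_eq_pow_mod_two (n := b.norm.natAbs)]
  congr 1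
  omega

namespace Dat

variable (d : Dat) {u u' t y : G} {b : Fin 2}

theorem wpx_cop (h : IsCoprime t ((8 * d.N : ℕ) : G)) : IsCoprime t (d.M : G) := by
  obtain ⟨c, e⟩ := d.five_dvd
  exact (h.pow_right (n := 2)).of_isCoprime_of_dvd_right ⟨4 * c, by rw [M, e]; push_cast; ring⟩

theorem wpx_adj (hu : u ∈ d.U) (hu' : u' ∈ d.U) {Z : MZ} {r : ℤ}
    (h : r • (Z * d.By u' b) = (2 : ℤ) • (d.Bx u * mb y 0)) :
    r • (Z.adjugate * d.Bx u) = d.By u' b * mb (star y) 0 := by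
  have k := mb_smul 2 y 0
  have k' := mb_smul 2 (star y) 0
  rw [mul_zero] at k k'
  rw [← mul_smul_comm 2, ← k] at h
  have e := d.pair_adj hu hu' h
  rw [star_mul', star_intCast, neg_zero, k', mul_smul_comm, ← smul_smul] at e
  exact smul_right_injective MZ two_ne_zero e

theorem Bx_unit (hu : u ∈ d.U) : IsCoprime (row (d.Bx u) 0) (d.M : G) := by
  obtain ⟨a, ha⟩ := (d.spec hu).2 0 0
  obtain ⟨c, hc⟩ := (d.spec hu).2 0 1
  have : row (d.Bx u) 0 = ii * u + d.M * ⟨c, a⟩ := by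
    simp [mb, Matrix.vecMul, dotProduct] at ha hc
    ext <;> simp [row, ii, Bx, hx_eq, Matrix.mul_apply] <;> linarith
  rw [this]
  exact (IsCoprime.mul_left ⟨-ii, 0, by simp; decide⟩ (d.cop hu)).add_mul_left_left _

theorem pair (hu : u ∈ d.U) (hu' : u' ∈ d.U) (b : Fin 2) :
    W.Pair d.N (d.Bx u) (d.By u' b) (d.Phi0 u u' b) (d.Psi0 u u' b) := by
  refine ⟨d.N_pos, d.Bx_det hu ▸ d.dN_pos.ne', by rw [d.By_det hu', d.Bx_det hu, mul_assoc],
    d.exists_pair hu u' b, fun _ _ _ => d.Phi0_eq hu', fun _ _ => d.Phi0_ne hu',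
    d.Phi0_per hu hu' b, fun _ _ => d.Psi0_eq hu', fun _ => d.Psi0_ne hu', d.Psi0_per hu hu' b,
    fun Z y r h => ?_, fun Z y h h5 => ?_⟩
  · have e := d.wpx_adj hu hu' h
    have k : ∀ i, (r : G) ∣ star y * row (d.By u' b) i := fun i => ⟨row (Z.adjugate * d.Bx u) i, by
      rw [← row_smul, e, row_mb, zero_mul, add_zero]⟩
    obtain ⟨p, q, e1⟩ := d.By_unit hu' b
    have k1 : (r : G) ∣ star y := by
      convert dvd_add ((k 0).mul_left p) ((k 1).mul_left q) using 1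
      linear_combination -star y * e1
    simpa [starRingEnd_apply] using map_dvd (starRingEnd G) k1
  · have e := d.wpx_adj hu hu' (r := 1) (by rwa [one_smul])
    have c5 : IsCoprime (row (d.Bx u) 0) (5 : G) :=
      (d.Bx_unit hu).of_isCoprime_of_dvd_right ⟨16 * d.N, by rw [M]; push_cast; ring⟩
    have r1 : (5 : G) ∣ row (d.By u' b) 1 :=
      (f4_dvd (q := 5)).2 ⟨(d.five_row u' b 1).2, (d.five_row u' b 0).2⟩
    have r2 : (5 : G) ∣ row (d.Bx u) 1 :=
      (f4_dvd (q := 5)).2 ⟨(d.five_row u b 1).1, (d.five_row u b 0).1⟩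
    have e0 := congrArg (row · 0) h
    have e1 := congrArg (row · 0) e
    simp only [one_smul, row_smul, row_mul Z, row_mul Z.adjugate, row_mb, zero_mul, add_zero] at e0 e1
    have k0 : (5 : G) ∣ (Z 0 0 : ℤ) := by simpa using map_dvd (Int.castRingHom G) h5
    have k1 : (5 : G) ∣ y := by
      have := dvd_add (k0.mul_right (row (d.By u' b) 0)) (r1.mul_left (Z 0 1 : ℤ))
      rw [e0] at this
      exact c5.symm.dvd_of_dvd_mul_right (IsCoprime.dvd_of_dvd_mul_left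
        (y := ((2 : ℤ) : G)) ⟨1, -2, by decide⟩ this)
    have k2 : (5 : G) ∣ star y := by simpa [starRingEnd_apply] using map_dvd (starRingEnd G) k1
    have k3 := c5.symm.dvd_of_dvd_mul_right ((dvd_add_left (r2.mul_left _)).1 (e1 ▸ k2.mul_right _))
    simpa [Matrix.adjugate_fin_two] using ((f4_dvd (q := 5)).1 k3).1

theorem hom : W.Hom d.N d.ps d.kap := by
  refine ⟨d.N_pos, d.N_odd, d.five_dvd, d.N_sqfree, fun a γ => ?_, fun t ht y => ?_, fun k hk => ?_,
    fun t ht => d.kap_four (d.wpx_cop ht), fun t ht => d.kap_conj (d.wpx_cop ht),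
    fun p hp hN _ y ⟨c, e⟩ => ?_, fun y => ⟨(-1) ^ y.norm.natAbs * d.Psi y, by simp [ps]⟩⟩
  · rw [ps, ps, d.Psi_per a γ, wpx_par _ a]
    simp only [Zsqrtd.norm_def, Zsqrtd.re_add, Zsqrtd.im_add, Zsqrtd.re_mul, Zsqrtd.im_mul,
      Zsqrtd.re_natCast, Zsqrtd.im_natCast]
    exact ⟨4 * d.N * (2 * (a.re * γ.re + a.im * γ.im) + 8 * d.N * (γ.re ^ 2 + γ.im ^ 2)), by
      push_cast
      ring⟩
  · have := d.norm_mod (d.wpx_cop ht)
    rw [ps, ps, d.Psi_mul (d.wpx_cop ht), wpx_par _ y (by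
      rw [Zsqrtd.norm_mul, ← sub_one_mul]
      exact Dvd.dvd.mul_right (by omega) _), map_mul]
    ring
  · have h1 : IsCoprime (k : G) (d.M : G) := d.wpx_cop (by simpa using hk.map (Int.castRingHom G))
    have h2 := cop_norm.1 h1
    have h3 := (d.cop_iff.1 h1).1
    rw [Zsqrtd.norm_intCast] at h2 h3
    have h4 : k % 2 = 1 := by
      have : ¬ 2 ∣ k := fun e => h3 (e.mul_left _)
      omega
    rw [d.kap_int h2.of_mul_left_left, om_eq k h4, W.et]
    rcases (by omega : k % 4 = 1 ∨ k % 4 = 3) with e | e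
    · rw [(ZMod.intCast_eq_intCast_iff' k 1 4).2 e]
      congr 1
    · rw [(ZMod.intCast_eq_intCast_iff' k 3 4).2 e]
      congr 1
  · rw [ps, d.Psi_zero hp hN, map_zero, mul_zero]
    rw [e, Zsqrtd.norm_mul, Zsqrtd.norm_natCast]
    exact (dvd_mul_right _ _).mul_right _

end Dat

end Pool.Agent.Lib.MP_696deb_nt.Y2
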