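import Pool.Agent.Lib.MP_696deb_nt.Y2.Wi
import Pool.Agent.Lib.MP_696deb_nt.Y2.Wpx

/-! The data of a curve give pairs of bases and an eigenfunction. -/

set_option autoImplicit false

open Complex Finset
open scoped Real ComplexConjugate Classical

namespace Pool.Agent.Lib.MP_696deb_nt.Y2.W

open QF (G ii ip Per FT mem_reps)

variable (d : Dat)

theorem dat_pair {u u' : G} (hu : u ∈ d.U) (hu' : u' ∈ d.U) (b : Fin 2) :
    Pair d.N (d.Bx u) (d.By u' b) (d.Phi0 u u' b) (d.Psi0 u u' b) := d.pair hu hu' b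

theorem dat_hom : Hom d.N d.ps d.kap := d.hom

end Pool.Agent.Lib.MP_696deb_nt.Y2.W
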