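import Pool.Agent.Lib.MP_696deb_nt.Y2.GL
import Pool.Agent.Lib.MP_696deb_nt.Y2.GH
import Pool.Agent.Lib.MP_696deb_nt.Y2.GC
import Pool.Agent.Lib.MP_696deb_nt.Y2.P1
import Pool.Agent.Lib.MP_696deb_nt.Y2.WF
import Pool.Agent.Lib.MP_696deb_nt.Y2.Wp

/-! The archimedean pairing in terms of the derivative and of the finite part. -/

set_option autoImplicit false

open scoped Classical ComplexConjugate Topology
open Complex Finset Filter

namespace Pool.Agent.Lib.MP_696deb_nt.Y2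

open QF (G Per)

theorem ga_T {m : ℕ} (hm : m % 4 = 1) : q1 (m / levY.h) = levY.ξ ModularGroup.T := by
  obtain ⟨k, rfl⟩ : ∃ k, m = 1 + 4 * k := ⟨m / 4, by omega⟩
  simp only [levY, ModularGroup.coe_T]
  rw [show xi ((!![1, 1; 0, 1] : Matrix _ _ ℤ) 0 1) ((!![1, 1; 0, 1] : Matrix _ _ ℤ) 1 1) =
    QF.ip (1 : ℤ) by decide, ← q1_quarter]
  exact q1_congr k (by push_cast; ring)

theorem ga_log {S : An.Sec} (h : RatS S) (p μ : ℕ) : ∃ c : ℚ,
    (c : ℝ) = (∑ k ∈ range (μ + 1), ∑ x ∈ k.divisorsAntidiagonal, S.lam (μ - k) x.1 x.2 *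
      ((x.2.factorization p : ℂ) - x.1.factorization p)).re ∧
      (S.fin μ).re - c * Real.log p ∈ LogS p := by
  obtain ⟨den, d0, h⟩ := h
  choose e he using h
  have d1 : (den : ℝ) ≠ 0 := by exact_mod_cast d0.ne'
  have k : ∀ n c l, (S.lam n c l).re = ((e n c l).re / den : ℚ) := fun n c l => by
    have := congrArg re (he n c l)
    rw [← ofReal_natCast, re_ofReal_mul, ← GaussianInt.intCast_re] at this
    push_cast
    rw [← this, mul_div_cancel_left₀ _ d1]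
  refine ⟨∑ k ∈ range (μ + 1), ∑ x ∈ k.divisorsAntidiagonal, (e (μ - k) x.1 x.2).re / den *
    ((x.2.factorization p : ℚ) - x.1.factorization p), ?_, ?_⟩
  · simp only [re_sum, ← ofReal_natCast, ← ofReal_sub, re_mul_ofReal, k]
    push_cast
    rfl
  · simp only [An.Sec.fin, re_sum, re_mul_ofReal, k, Rat.cast_sum, sum_mul, ← sum_sub_distrib]
    refine sum_mem fun j _ => sum_mem fun x _ => ?_
    convert LogS.rat_mul ((e (μ - j) x.1 x.2).re / den)
      (sub_mem (log_nat_sub_mem p x.2) (log_nat_sub_mem p x.1)) using 1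
    push_cast
    ring

namespace Dat

variable (d : Dat)

theorem ga_cP (p μ : ℕ) : W.cP (8 * d.N) (iFT (8 * d.N) d.ps) p μ =
    ∑ k ∈ range (μ + 1), ∑ x ∈ k.divisorsAntidiagonal, d.S.lam (μ - k) x.1 x.2 *
      ((x.2.factorization p : ℂ) - x.1.factorization p) :=
  sum_congr rfl fun k _ => by
    simp only [W.cA, S, lam_sec, sum_mul]
    exact sum_comm

theorem ratS : RatS d.S := by
  choose g hg using d.lamA_int
  refine ⟨4 * (8 * d.N) ^ 4, by have := d.N_pos; positivity, fun n c l =>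
    ⟨∑ A ∈ QF.reps n, g c l A, ?_⟩⟩
  rw [S, lam_sec, mul_sum, map_sum]
  refine sum_congr rfl fun A _ => ?_
  rw [← hg]
  push_cast
  rfl

/-- The complex identity. -/
theorem gza (hW : d.W = -1) : ∃ (c0 : ℚ) (κ : ℂ), c0 ≠ 0 ∧ (∀ m, m % 4 = 1 → ¬ 5 ∣ m →
    c0 * conj (d.FX.arch (d.FY.hk m)) = κ * aG m - d.S.fin (d.mu m)) ∧
      (EU.Phi d.D d.φ → ∀ F, IsL d.D F → deriv F 1 = 0 → κ = 0) := by
  have ad := (W.dat_ker d).adm
  obtain ⟨C, -, an⟩ := anY
  obtain ⟨Λ, k1, k2, k3⟩ := an _ _ ad.ok ad.at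
  obtain ⟨K, K0, h1⟩ := d.count
  obtain ⟨l0, l1⟩ := d.lam_zero hW k1 fun s hs => by
    rw [k2 s hs]
    simp only [TL.RS, tk, FT_iFT ad.pos (W.dat_hom d).per, bY]
  refine ⟨-4 * K, C * deriv Λ 0, mul_ne_zero (by norm_num) K0.ne', fun m hm h5 => ?_,
    fun h F hF h0 => by rw [l1 h F hF h0, mul_zero]⟩
  have m0 : 0 < d.mu m := mul_pos (mul_pos (by norm_num) (pow_pos d.N_pos 2)) (by omega)
  have k4 := (k3 m (d.mu m) (by omega) (by simp only [mu, levY, sec]; ring) (ga_T hm)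
    (ad.zero _)).2 l0
  have k5 := tendsto_nhds_unique (((d.gc hm h5).const_mul (2 * K : ℂ)).congr fun ε => ?_) k4
  · rw [S]
    push_cast
    linear_combination k5
  rw [An.Sec.arch, ← tsum_mul_left, ← tsum_mul_left]
  refine tsum_congr fun k => ?_
  rcases Nat.eq_zero_or_pos k with rfl | k0
  · simp [kerK, m0.ne']
  · rw [← S, h1 _ k k0]
    ring

theorem gzaS (hW : d.W = -1) : GzaS d.S d.mu aG fun m => d.FX.arch (d.FY.hk m) := by
  obtain ⟨c, κ, -, h, -⟩ := d.gza hW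
  exact ⟨c, κ, h⟩

/-- If the derivative of the L-function vanishes, the sum of the points has finite order. -/
theorem tors_of_deriv (hφ : EU.Phi d.D d.φ) (hW : d.W = -1) {F : ℂ → ℂ} (hF : IsL d.D F)
    (hz : deriv F 1 = 0) : ∃ n : ℕ, 0 < n ∧ n * d.pt ∈ EA.LG.lattice := by
  obtain ⟨c0, κ, h0, h, h2⟩ := d.gza hW
  have k : ∀ p m : ℕ, m % 4 = 1 → ¬ 5 ∣ m → ∃ c : ℚ,
      |(c : ℝ)| ≤ |(c0⁻¹ : ℝ)| * ‖W.cP (8 * d.N) (iFT (8 * d.N) d.ps) p (d.mu m)‖ ∧
        (d.FX.arch (d.FY.hk m)).re - c * Real.log p ∈ LogS p := fun p m hm h5 => by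
    obtain ⟨c, c1, c2⟩ := ga_log d.ratS p (d.mu m)
    have e := congrArg re (h m hm h5)
    rw [h2 hφ F hF hz, zero_mul, zero_sub, ← ofReal_ratCast, re_ofReal_mul, conj_re, neg_re] at e
    have h1 : (c0 : ℝ) ≠ 0 := by exact_mod_cast h0
    refine ⟨-(c0⁻¹ * c), ?_, LogS.of_mul h0 ?_⟩
    · push_cast
      rw [abs_neg, abs_mul, c1, ← ga_cP]
      exact mul_le_mul_of_nonneg_left (abs_re_le_norm _) (abs_nonneg _)
    · convert neg_mem c2 using 1
      push_cast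
      rw [mul_sub, e]
      field_simp
      ring
  refine d.tors_of_arch hφ (fun p hp h4 => ?_) fun p hp h3 => ?_
  · obtain ⟨c, c1, c2⟩ := k p 1 rfl (by decide)
    rw [(W.dat_ker d).cP_zero hp (by omega), norm_zero, mul_zero, abs_nonpos_iff] at c1
    simpa [c1] using c2
  · obtain ⟨C, hC⟩ := (W.dat_ker d).cP_bd hp h3 (32 * d.N ^ 2)
    refine ⟨|(c0⁻¹ : ℝ)| * C, 2, fun s => ?_⟩
    obtain ⟨c, c1, c2⟩ := k p (p ^ (2 * s)) (by
      rw [pow_mul, Nat.pow_mod, Nat.pow_mod p, h3]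
      simp) fun e => by
        have := (Nat.prime_dvd_prime_iff_eq Nat.prime_five hp).1 (Nat.prime_five.dvd_of_dvd_pow e)
        omega
    exact ⟨c, c1.trans (by
      rw [mul_assoc]
      exact mul_le_mul_of_nonneg_left (hC s) (abs_nonneg _)), c2⟩

end Dat

end Pool.Agent.Lib.MP_696deb_nt.Y2
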