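import Pool.Agent.Lib.MP_696deb_nt.Y2.D2
import Pool.Agent.Lib.MP_696deb_nt.Y2.C5

/-! Sums over matrices of given determinant and over pairs of Gaussian integers. -/

set_option autoImplicit false

open Complex Finset CongruenceSubgroup
open UpperHalfPlane hiding I
open scoped Classical MatrixGroups

namespace Pool.Agent.Lib.MP_696deb_nt.Y2

open QF (G)

/-- The matrix of a representative of the Hecke operator. -/
def hkM (x : Σ _ : ℕ × ℕ, ℕ) : MZ := !![x.1.1, 4 * x.2; 0, x.1.2]

/-- The matrices of determinant `m` and level ten, coset by coset. -/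
theorem hasSum_hecke {m : ℕ} (hm : m % 4 = 1) (h5 : ¬ 5 ∣ m) {F : MZ → ℂ} {a : HI m → ℂ}
    (h : ∀ x : HI m, HasSum (fun γ : Gamma0 10 => F (((γ : SL(2, ℤ)) : MZ) * hkM x)) (a x)) :
    HasSum (fun g : MZ => if g.det = m ∧ 10 ∣ g 1 0 then F g else 0) (∑ x, a x) := by
  have m0 : (m : ℤ) ≠ 0 := by omega
  have hd : ∀ x : HI m, (hkM x).det = m := fun x => by
    rw [hkM, Matrix.det_fin_two_of, (c5_div hm h5 x.2).1, mul_zero, sub_zero]
  let e : HI m → Gamma0 10 → MZ := fun x γ => ((γ : SL(2, ℤ)) : MZ) * hkM x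
  have inj : ∀ x, Function.Injective (e x) := fun x γ γ' k => by
    have := congrArg (· * (hkM x).adjugate) k
    simp only [e, Matrix.mul_assoc, Matrix.mul_adjugate, hd, Matrix.mul_smul, Matrix.mul_one] at this
    exact Subtype.ext (Subtype.ext (smul_right_injective _ m0 this))
  have k : ∀ x, HasSum (fun g => if g ∈ Set.range (e x) then F g else 0) (a x) := fun x =>
    ((inj x).hasSum_iff fun g hg => if_neg hg).1 ((h x).congr_fun fun γ => if_pos ⟨γ, rfl⟩)
  refine (hasSum_sum fun x (_ : x ∈ univ) => k x).congr_fun fun g => ?_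
  split_ifs with hg
  · obtain ⟨x, hx, p, q, r, s, e1, e2, e3, e4⟩ := exists_HI (m := m) (n := 1) (by omega)
      (by rw [← Matrix.det_fin_two, hg.1, mul_one]) one_pos isCoprime_one_left
    obtain ⟨x1, x2, x3⟩ := c5_div hm h5 hx
    have e5 : g = !![p, q; r, s] * hkM x := by
      rw [Matrix.eta_fin_two g, e1, e2, e3, e4, hkM, Matrix.mul_fin_two]
      simp only [mul_zero, add_zero]
    have e6 : !![p, q; r, s].det = 1 := mul_right_cancel₀ m0 (by
      rw [one_mul, ← hd ⟨x, hx⟩, ← Matrix.det_mul, ← e5, hd, hg.1])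
    have e7 : (10 : ℤ) ∣ r := by
      refine IsCoprime.dvd_of_dvd_mul_right (Nat.isCoprime_iff_coprime.2 ?_) (e3 ▸ hg.2)
      exact Nat.Coprime.mul_left ((Nat.prime_two.coprime_iff_not_dvd).2 (by omega))
        ((Nat.prime_five.coprime_iff_not_dvd).2 x3)
    let γ : Gamma0 10 := ⟨⟨_, e6⟩, Gamma0_mem.2 ((ZMod.intCast_zmod_eq_zero_iff_dvd _ 10).2 e7)⟩
    rw [sum_eq_single ⟨x, hx⟩ (fun y _ hy => if_neg ?_) (by simp), if_pos ⟨γ, e5.symm⟩]
    rintro ⟨δ, hδ⟩
    obtain ⟨T, e8⟩ : ∃ T : MZ, hkM y = T * hkM x := ⟨((δ : SL(2, ℤ)) : MZ).adjugate * !![p, q; r, s],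
      by rw [Matrix.mul_assoc, ← e5, ← hδ, ← Matrix.mul_assoc, Matrix.adjugate_mul,
        Matrix.SpecialLinearGroup.det_coe, one_smul, Matrix.one_mul]⟩
    rw [Matrix.eta_fin_two T, hkM, hkM, Matrix.mul_fin_two] at e8
    have e9 := fun i j => congrFun (congrFun e8 i) j
    exact hy (Subtype.ext (HI_uniq (by omega) y.2 hx (by simpa using e9 0 0) (e9 0 1)
      (by simpa using e9 1 0) (e9 1 1)))
  · refine (sum_eq_zero fun x _ => if_neg ?_).symm
    rintro ⟨γ, rfl⟩
    refine hg ⟨by rw [Matrix.det_mul, hd, Matrix.SpecialLinearGroup.det_coe, one_mul], ?_⟩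
    have := (ZMod.intCast_zmod_eq_zero_iff_dvd _ 10).1 (Gamma0_mem.1 γ.2)
    simpa [e, hkM, Matrix.mul_apply] using this.mul_right _

/-- The distance of two points in terms of the pair. -/
theorem cosh_mb {B : MZ} (hB : 0 < B.det) {α β : G} (h : β.norm < α.norm) {z w : ℍ}
    (hz : (z : ℂ) = act B I) (hw : (w : ℂ) = act (B * mb α β) I) :
    Real.cosh (dist z w) = (α.norm + β.norm) / (α.norm - β.norm) := by
  have hI : 0 < I.im := by simp
  have d1 : (B * mb α β).det = B.det * (α.norm - β.norm) := by rw [Matrix.det_mul, mb_det]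
  have n1 := den_ne' hB.ne' hI
  have n2 := den_ne' (d1 ▸ mul_pos hB (sub_pos.2 h)).ne' hI
  have i1 : ∀ M : MZ, (act M I).im = M.det / ‖den M I‖ ^ 2 := fun M => by
    rw [act, im_mob, Matrix.det_fin_two, Complex.I_im, mul_one, den]
  have e : (z - w : ℂ) = 2 * I * β * B.det / (den B I * den (B * mb α β) I) := by
    rw [hz, hw, act, act, mob, mob, ← den, ← den, div_sub_div _ _ n1 n2]
    congr 1
    simp only [den, Matrix.mul_apply, Fin.sum_univ_two, Matrix.det_fin_two, mb,
      GaussianInt.toComplex_def β]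
    apply Complex.ext <;> simp <;> ring
  have e1 : ‖(β : ℂ)‖ ^ 2 = β.norm := by rw [Complex.sq_norm, GaussianInt.intCast_real_norm]
  have p1 : (0 : ℝ) < B.det := by exact_mod_cast hB
  have p2 : (0 : ℝ) < α.norm - β.norm := by exact_mod_cast sub_pos.2 h
  have p3 := norm_pos_iff.2 n1
  have p4 := norm_pos_iff.2 n2
  rw [cosh_dist, Complex.dist_eq, e, ← coe_im, ← coe_im, hz, hw, i1, i1, d1]
  simp only [norm_div, norm_mul, div_pow, mul_pow, e1, norm_I, Complex.norm_intCast, sq_abs,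
    Complex.norm_ofNat]
  rw [Int.cast_mul, Int.cast_sub]
  field_simp
  ring

/-- Pairs with given difference of norms, sorted by the second norm. -/
theorem hasSum_reps {μ : ℕ} {f : G → G → ℂ} {a : ℂ}
    (h : HasSum (fun v : G × G => if v.1.norm - v.2.norm = μ then f v.1 v.2 else 0) a) :
    HasSum (fun k : ℕ => ∑ A ∈ QF.reps (μ + k), ∑ β ∈ QF.reps k, f A β) a := by
  refine (h.tsum_fiberwise fun v => v.2.norm.toNat).congr_fun fun k => ?_
  rw [_root_.tsum_subtype _ fun v : G × G => if v.1.norm - v.2.norm = μ then f v.1 v.2 else 0,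
    tsum_eq_sum (s := QF.reps (μ + k) ×ˢ QF.reps k), sum_product]
  · refine sum_congr rfl fun A hA => sum_congr rfl fun β hβ => ?_
    rw [QF.mem_reps] at hA hβ
    rw [Set.indicator_of_mem (by simp [hβ]), if_pos (by simp [hA, hβ])]
  · intro v hv
    refine Set.indicator_apply_eq_zero.2 fun h1 => if_neg fun h2 => hv ?_
    have := GaussianInt.norm_nonneg v.2
    simp only [Set.mem_preimage, Set.mem_singleton_iff, mem_product, QF.mem_reps] at h1 ⊢
    omega

end Pool.Agent.Lib.MP_696deb_nt.Y2
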