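import Pool.Agent.Lib.MP_696deb_nt.Y2.TH1

/-! The section attached to a periodic function satisfies the conditions of the analytic side. -/

set_option autoImplicit false

open Complex Finset CongruenceSubgroup
open UpperHalfPlane hiding I
open scoped Real ComplexConjugate Classical MatrixGroups Modular

namespace Pool.Agent.Lib.MP_696deb_nt.Y2

open QF (G ii ip Per FT mem_reps)

variable {M : ℕ} {a : G → ℂ} {p q c d l : ℤ} {z : ℂ}

/-- The form of a row without the weight. -/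
noncomputable def F0 (M : ℕ) (a : G → ℂ) (c d : ℤ) (z : ℂ) : ℂ :=
  sm M fun x => a x * Th2 1 0 (c * x / M) (d * x / M) z

theorem hasSum_norm {g : G → ℂ} {F : ℤ → ℂ} {s : ℂ} (h : HasSum (fun A : G => g A * F A.norm) s) :
    HasSum (fun n : ℕ => (∑ A ∈ QF.reps n, g A) * F n) s := by
  refine (h.tsum_fiberwise fun A => A.norm.toNat).congr_fun fun n => ?_
  have e : (fun A : G => A.norm.toNat) ⁻¹' {n} = (QF.reps n : Set G) := by
    ext A
    have := GaussianInt.norm_nonneg A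
    simp only [Set.mem_preimage, Set.mem_singleton_iff, mem_coe, mem_reps]
    omega
  rw [e, Finset.tsum_subtype' (QF.reps n) fun A => g A * F A.norm, sum_mul]
  exact sum_congr rfl fun A hA => by rw [mem_reps.1 hA]

theorem Adm.two (h : Adm M a) : 2 ∣ M := Dvd.dvd.trans ⟨5, rfl⟩ h.ten

theorem Adm.sec_F (h : Adm M a) (hz : 0 < z.im) (c d : ℤ) :
    (sec M a).F c d z = Wt c d * F0 M a c d z := by
  have h1 := hasSum_sm (M := M) fun x => (hasSum_cf h.pos h.two hz 1 0 c d x).mul_left (a x)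
  have h2 := hasSum_norm (g := ph M a c d) (F := fun n => q1 (n * z / (2 * M ^ 2)))
    (h1.congr_fun fun A => by rw [ph, mul_comm, ← sm_mul_left]; exact sm_congr fun x => by ring)
  refine ((h2.mul_left (Wt c d)).congr_fun fun n => ?_).tsum_eq
  simp only [sec]
  push_cast
  ring

theorem norm_ip (k : ZMod 4) : ‖((ip k : G) : ℂ)‖ = 1 := by
  rw [ip, map_pow, norm_pow, ii, GaussianInt.toComplex_def']
  simp

theorem norm_ze (a b c d : ZMod 4) : ‖((ze a b c d : G) : ℂ)‖ = 1 := by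
  rw [ze]
  split_ifs <;> exact norm_ip _

theorem th2_ep_mul : ∀ a b : ZMod 5, ep (a * b) = ep a * ep b := by decide

theorem norm_Wt_le (c d : ℤ) : ‖Wt c d‖ ≤ 1 := by
  have key : ∀ r : ZMod 5, ep r = 0 ∨ ∃ k, ep r = ip k := by decide
  rw [Wt]
  split_ifs
  · rcases key d with e | ⟨k, e⟩ <;> rw [e]
    · simp
    · rw [norm_conj, norm_ip]
  · simp

theorem norm_ph_le (M : ℕ) (a : G → ℂ) : ∃ K : ℝ, 0 ≤ K ∧ ∀ c d A, ‖ph M a c d A‖ ≤ K :=
  ⟨_, sum_nonneg fun _ _ => sum_nonneg fun _ _ => norm_nonneg _, fun _ _ A =>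
    norm_sm_le (B := fun x => ‖a x‖) fun x =>
      (norm_mul_le _ _).trans (mul_le_of_le_one_right (norm_nonneg _) (norm_cf_le x A))⟩

theorem Wt_congr {c' d' : ℤ} (hc : 10 ∣ c' - c) (hd : 5 ∣ d' - d) : Wt c' d' = Wt c d := by
  rw [Wt, Wt, (ZMod.intCast_eq_intCast_iff_dvd_sub d d' 5).2 hd]
  exact if_congr (by omega) rfl rfl

theorem ph_congr (h0 : 0 < M) {c' d' : ℤ} (hc : 2 * (M : ℤ) ^ 2 ∣ c' - c)
    (hd : 2 * (M : ℤ) ^ 2 ∣ d' - d) (A : G) : ph M a c' d' A = ph M a c d A := by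
  obtain ⟨s, hs⟩ := hc
  obtain ⟨t, ht⟩ := hd
  obtain rfl : c' = c + 2 * M ^ 2 * s := by omega
  obtain rfl : d' = d + 2 * M ^ 2 * t := by omega
  have M0 : (M : ℂ) ≠ 0 := by exact_mod_cast h0.ne'
  refine sm_congr fun x => congrArg _ ?_
  rw [cf, cf, show A - (c + 2 * M ^ 2 * s : ℤ) * x - (1 : ℤ) * hM M =
    A - c * x - (1 : ℤ) * hM M - M * (2 * M * s * x) by push_cast; ring]
  refine if_congr (dvd_sub_left (dvd_mul_right _ _)) (q1_congr
    (t * (2 * bil A x - c * x.norm) - (d + 2 * M ^ 2 * t) * s * x.norm) ?_) rfl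
  push_cast
  field_simp
  ring

theorem ph_neg (h2 : 2 ∣ M) (c d : ℤ) (A : G) : ph M a (-c) (-d) (-A) = ph M a c d A := by
  obtain ⟨H, rfl, hH⟩ := two_hM h2
  refine sm_congr fun x => congrArg _ ?_
  rw [cf, cf, show -A - (-c : ℤ) * x - (1 : ℤ) * hM (2 * H) =
    -(A - c * x - (1 : ℤ) * hM (2 * H)) - (2 * H : ℕ) * ⟨1, 1⟩ by
      rw [hH]; ext <;> simp <;> ring]
  refine if_congr ((dvd_sub_left (dvd_mul_right _ _)).trans dvd_neg) (congrArg _ ?_) rfl
  simp only [bil, Zsqrtd.re_neg, Zsqrtd.im_neg]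
  push_cast
  ring

theorem th2_xi : ∀ b d : ZMod 20, om d ≠ 0 → xi b d * star (ep d.cast) =
    ip ((b.cast : ZMod 4) * d.cast + d.cast - 1) := by decide +kernel

theorem Wt_law {A B C D : ℤ} (h : A * D - B * C = 1) (hC : 10 ∣ C) (c d : ℤ) :
    Wt c d * (ze A B C D : G) = (xi B D : G) * Wt (c * A + d * C) (c * B + d * D) := by
  obtain ⟨C, rfl⟩ := hC
  have hA : A % 2 = 1 := by
    by_contra e
    obtain ⟨k, rfl⟩ : ∃ k, A = 2 * k := ⟨A / 2, by omega⟩
    have : 2 * (k * D - B * (5 * C)) = 1 := by linear_combination h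
    omega
  have e1 : (c * A + d * (10 * C)) % 2 = 1 ∧ 5 ∣ c * A + d * (10 * C) ↔ c % 2 = 1 ∧ 5 ∣ c := by
    refine and_congr ?_ ⟨fun e => ?_, fun e => (e.mul_right _).add ⟨d * 2 * C, by ring⟩⟩
    · rw [show d * (10 * C) = 2 * (5 * d * C) by ring, Int.add_mul_emod_self_left, Int.mul_emod, hA]
      omega
    · rw [show c = D * (c * A + d * (10 * C)) - 5 * (2 * C * (c * B + d * D)) by
        linear_combination -c * h]
      exact (e.mul_left _).sub (dvd_mul_right _ _)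
  rw [Wt, Wt]
  split_ifs with h1 h2 h2
  · have h3 : ∀ A B C D : ZMod 20, A * D - B * (10 * C) = 1 → om D ≠ 0 := by
      intro A B C D e h0
      have : ∀ D t s : ZMod 20, om D = 0 → t * D - 10 * s ≠ 1 := by decide +kernel
      exact this D A (B * C) h0 (by linear_combination e)
    have h4 := th2_xi B D (h3 A B C D (by exact_mod_cast congr_arg (Int.cast : ℤ → ZMod 20) h))
    rw [ZMod.cast_intCast (by norm_num), ZMod.cast_intCast (by norm_num),
      ZMod.cast_intCast (by norm_num)] at h4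
    have h5 : ((c * B + d * D : ℤ) : ZMod 5) = d * D := by
      push_cast
      rw [(ZMod.intCast_zmod_eq_zero_iff_dvd c 5).2 h1.2]
      ring
    have h6 : ((10 * C : ℤ) : ZMod 4) = 0 ∨ ((10 * C : ℤ) : ZMod 4) = 2 := by
      push_cast
      generalize (C : ZMod 4) = t
      revert t
      decide
    rw [ze, if_pos h6, ← h4, h5, th2_ep_mul, map_mul, map_mul, map_mul, GaussianInt.toComplex_star]
    ring
  · exact absurd (e1.2 h1) h2
  · exact absurd (e1.1 h2) h1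
  · simp

theorem Th2_law (g : SL(2, ℤ)) (z : ℍ) (c d : ℤ) (x : G) :
    Th2 1 0 (c * x / M) (d * x / M) (g • z : ℍ) = (ze (g 0 0) (g 0 1) (g 1 0) (g 1 1) : G) *
      An.jac g z * Th2 (1 + g 1 0) (1 + g 1 1) ((c * g 0 0 + d * g 1 0 : ℤ) * x / M)
        ((c * g 0 1 + d * g 1 1 : ℤ) * x / M) z := by
  rw [coe_smul_eq_mob, (law (det_SL g)).2 _ _ _ z.im_pos, An.jac]
  congr 2 <;> push_cast <;> ring

theorem cf_zero (h0 : 0 < M) (h2 : 2 ∣ M) {u : ℤ} (hu : 2 * (M : ℤ) ^ 2 ∣ u ^ 2 - 1) (x : G) :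
    cf M p q c d (u * x) 0 = cf M p q c d x 0 := by
  obtain ⟨H, rfl, hH⟩ := two_hM h2
  obtain ⟨t, ht⟩ := hu
  have H0 : (H : ℂ) ≠ 0 := by exact_mod_cast (show H ≠ 0 by omega)
  obtain ⟨k, rfl⟩ : ∃ k, u = 2 * k + 1 := ⟨u / 2, by
    rcases Int.emod_two_eq_zero_or_one u with e | e
    · obtain ⟨k, rfl⟩ : ∃ k, u = 2 * k := ⟨u / 2, by omega⟩
      have : 2 * (2 * k ^ 2 - (2 * H : ℕ) ^ 2 * t) = 1 := by linear_combination ht
      omega
    · omega⟩
  have e0 : (2 : G) * hM (2 * H) = (2 * H : ℕ) * ⟨1, 1⟩ := by rw [hH]; ext <;> simp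
  have ht1 : ((2 * k + 1 : ℤ) : G) ^ 2 - 1 = 2 * (2 * H : ℕ) ^ 2 * t := by exact_mod_cast ht
  have e1 : ∀ y : G, 0 - c * ((2 * k + 1 : ℤ) * y) - p * hM (2 * H) =
      (2 * k + 1 : ℤ) * (0 - c * y - p * hM (2 * H)) + (2 * H : ℕ) * (k * p * ⟨1, 1⟩) := fun y => by
    push_cast at e0 ⊢
    linear_combination k * p * e0
  have e2 : ∀ y : G, ((2 * H : ℕ) : G) ∣ 0 - c * y - p * hM (2 * H) →
      ((2 * H : ℕ) : G) ∣ 0 - c * ((2 * k + 1 : ℤ) * y) - p * hM (2 * H) := fun y e =>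
    e1 y ▸ (e.mul_left _).add (dvd_mul_right _ _)
  rw [cf, cf]
  refine if_ctx_congr ⟨fun e => ?_, e2 x⟩ (fun ⟨β, hβ⟩ => ?_) fun _ => rfl
  · have := e2 _ e
    rw [show 0 - c * ((2 * k + 1 : ℤ) * ((2 * k + 1 : ℤ) * x)) - p * hM (2 * H) =
      0 - c * x - p * hM (2 * H) - (2 * H : ℕ) * (2 * (2 * H : ℕ) * t * c * x) by
        linear_combination -c * x * ht1] at this
    exact (dvd_sub_left (dvd_mul_right _ _)).1 this
  · have ht2 : (2 * k + 1 : ℂ) ^ 2 - 1 = 2 * (2 * H) ^ 2 * t := by exact_mod_cast ht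
    rw [e1, hβ]
    refine q1_congr (q * k * (β.re + β.im + p) - d * c * t * x.norm) ?_
    simp only [norm_eq_bil, bil, Zsqrtd.re_add, Zsqrtd.im_add, Zsqrtd.re_mul, Zsqrtd.re_zero,
      Zsqrtd.im_zero, Zsqrtd.im_mul, Zsqrtd.re_intCast, Zsqrtd.im_intCast, Zsqrtd.re_natCast,
      Zsqrtd.im_natCast]
    push_cast
    field_simp
    linear_combination (-d * c * (x.re ^ 2 + x.im ^ 2)) * ht2

theorem summable_gauss {t : ℝ} (ht : 0 < t) : Summable fun A : G => Real.exp (-π * t * A.norm) := by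
  refine (hasSum_Th2 (z := t * I) (by simpa using ht) 0 0 0 0).summable.norm.congr fun A => ?_
  rw [t1T, t1T, ← q1_add, norm_q1, norm_eq_bil, bil]
  congr 1
  simp [pow_two]
  ring

theorem Th2_sub_le (h0 : 0 < M) (h2 : 2 ∣ M) {u : ℤ} (hu : 2 * (M : ℤ) ^ 2 ∣ u ^ 2 - 1) :
    ∃ C : ℝ, 0 ≤ C ∧ ∀ (p q c d : ℤ) (x : G) (z : ℂ), 1 / 2 ≤ z.im →
      ‖Th2 p q (c * x / M) (d * x / M) z - Th2 p q (c * (u * x : G) / M) (d * (u * x : G) / M) z‖ ≤
        C * Real.exp (-(π / (2 * M ^ 2)) * z.im) := by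
  have M0 : (0 : ℝ) < M := by exact_mod_cast h0
  have hs := summable_gauss (t := 1 / (4 * M ^ 2)) (by positivity)
  refine ⟨2 * ∑' A : G, Real.exp (-π * (1 / (4 * M ^ 2)) * A.norm),
    mul_nonneg two_pos.le (tsum_nonneg fun _ => (Real.exp_pos _).le), fun p q c d x z hz => ?_⟩
  have hz' : 0 < z.im := by linarith
  have h := (hasSum_cf h0 h2 hz' p q c d x).sub (hasSum_cf h0 h2 hz' p q c d (u * x))
  refine h.norm_le_of_bounded ((hs.hasSum.mul_left 2).mul_right _) fun A => ?_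
  rw [← sub_mul]
  rcases eq_or_ne A 0 with rfl | hA
  · rw [cf_zero h0 h2 hu, sub_self, zero_mul, norm_zero]
    positivity
  have h1 : (1 : ℝ) ≤ A.norm := by exact_mod_cast GaussianInt.norm_pos.2 hA
  rw [norm_mul, norm_q1, mul_assoc 2, ← Real.exp_add]
  refine mul_le_mul ((norm_sub_le _ _).trans ((add_le_add (norm_cf_le _ _) (norm_cf_le _ _)).trans
    one_add_one_eq_two.le)) (Real.exp_le_exp.2 ?_) (by positivity) two_pos.le
  rw [show (A.norm * z / (2 * M ^ 2) : ℂ) = ((A.norm / (2 * M ^ 2) : ℝ) : ℂ) * z by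
    push_cast; ring, im_ofReal_mul]
  have h3 : 0 ≤ π / (4 * M ^ 2) * (2 * (A.norm - 1) * z.im + A.norm * (2 * z.im - 1)) :=
    mul_nonneg (by positivity) (by nlinarith)
  calc _ = -π * (1 / (4 * M ^ 2)) * A.norm + -(π / (2 * M ^ 2)) * z.im -
        π / (4 * M ^ 2) * (2 * (A.norm - 1) * z.im + A.norm * (2 * z.im - 1)) := by
        field_simp
        ring
    _ ≤ _ := by linarith

theorem Adm.dec (h : Adm M a) : ∃ δ C : ℝ, 0 < δ ∧ ∀ g : SL(2, ℤ), ∀ z ∈ 𝒟, ∀ c d : ℤ,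
    ‖(sec M a).F c d (g • z : ℍ)‖ * √(g • z).im ≤ C * Real.exp (-δ * z.im) := by
  obtain ⟨-, -, u, -, -, -, hu, ho⟩ := h.odd
  obtain ⟨C, C0, hC⟩ := Th2_sub_le h.pos h.two hu
  have M0 : (0 : ℝ) < M := by exact_mod_cast h.pos
  obtain ⟨δ, hδ⟩ : ∃ δ : ℝ, δ = π / (4 * M ^ 2) := ⟨_, rfl⟩
  have δ0 : 0 < δ := by rw [hδ]; positivity
  obtain ⟨K, hK⟩ : ∃ K : ℝ, K = ∑ x ∈ range M, ∑ y ∈ range M, ‖a ⟨x, y⟩‖ := ⟨_, rfl⟩
  have K0 : 0 ≤ K := by rw [hK]; positivity
  refine ⟨δ, K * C * (1 + 1 / δ), δ0, fun g z hz c d => ?_⟩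
  have y0 := z.im_pos
  have hy : 1 / 2 ≤ z.im := by
    have := ModularGroup.three_le_four_mul_im_sq_of_mem_fd hz
    nlinarith
  rw [h.sec_F (g • z).im_pos]
  by_cases hc : c % 2 = 1
  swap
  · rw [Wt, if_neg fun e => hc e.1, zero_mul, norm_zero, zero_mul]
    positivity
  have hp : Per M fun x : G => Th2 1 0 (c * x / M) (d * x / M) (g • z : ℍ) := fun x γ =>
    (hasSum_cf h.pos h.two (g • z).im_pos 1 0 c d _).unique
      ((hasSum_cf h.pos h.two (g • z).im_pos 1 0 c d x).congr_fun fun A =>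
        congrArg (· * _) (cf_per h.pos h.two hc d A x γ))
  have hu' : (M : G) ∣ u * u - 1 := by
    obtain ⟨t, ht⟩ := hu
    exact ⟨2 * M * t, by exact_mod_cast (show u * u - 1 = M * (2 * M * t) by linear_combination ht)⟩
  have e1 := sm_mul h.pos (f := fun x => a x * Th2 1 0 (c * x / M) (d * x / M) (g • z : ℍ))
    (fun x γ => congrArg₂ _ (h.per x γ) (hp x γ)) hu'
  simp only [ho, neg_mul, sm_neg] at e1
  have e2 : 2 * F0 M a c d (g • z : ℍ) = sm M fun x => a x * (Th2 1 0 (c * x / M) (d * x / M)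
      (g • z : ℍ) - Th2 1 0 (c * (u * x : G) / M) (d * (u * x : G) / M) (g • z : ℍ)) := by
    simp only [mul_sub, sm_sub]
    rw [F0]
    linear_combination -e1
  have e3 : ‖2 * F0 M a c d (g • z : ℍ)‖ ≤ K * (‖An.jac g z‖ * (C * Real.exp (-(2 * δ) * z.im))) := by
    rw [e2, hK, sum_mul]
    simp only [sum_mul]
    refine norm_sm_le (B := fun x => ‖a x‖ * _) fun x => ?_
    rw [Th2_law, Th2_law, ← mul_sub, norm_mul, norm_mul, norm_mul, norm_ze, one_mul,
      show 2 * δ = π / (2 * M ^ 2) by rw [hδ]; ring]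
    gcongr
    exact hC _ _ _ _ _ _ hy
  have e4 : ‖An.jac g z‖ * √(g • z).im = √z.im := by
    have hj : 0 < ‖An.jac g z‖ := norm_pos_iff.2 (den_ne (det_SL g ▸ one_ne_zero) y0)
    rw [← coe_im (g • z), coe_smul_eq_mob, im_mob, det_SL, Int.cast_one, one_mul,
      Real.sqrt_div' _ (sq_nonneg _), Real.sqrt_sq (norm_nonneg _), coe_im]
    exact mul_div_cancel₀ _ hj.ne'
  have e5 : √z.im ≤ (1 + 1 / δ) * Real.exp (δ * z.im) := by
    have h1 := Real.add_one_le_exp (δ * z.im)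
    have h2 : √z.im ≤ 1 + z.im := Real.sqrt_le_iff.2 ⟨by positivity, by nlinarith⟩
    calc _ ≤ 1 + z.im + (δ * z.im + 1 / δ) := by
          have : 0 ≤ δ * z.im + 1 / δ := by positivity
          linarith
      _ = (1 + 1 / δ) * (δ * z.im + 1) := by field_simp; ring
      _ ≤ _ := by gcongr
  rw [norm_mul, Complex.norm_two] at e3
  calc _ ≤ 1 * (K * (‖An.jac g z‖ * (C * Real.exp (-(2 * δ) * z.im)))) * √(g • z).im := by
        rw [norm_mul]
        gcongr
        exacts [norm_Wt_le c d, by linarith [norm_nonneg (F0 M a c d (g • z : ℍ))]]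
    _ = K * C * (√z.im * Real.exp (-(2 * δ) * z.im)) := by rw [← e4]; ring
    _ ≤ K * C * ((1 + 1 / δ) * Real.exp (δ * z.im) * Real.exp (-(2 * δ) * z.im)) := by gcongr
    _ = _ := by rw [mul_assoc (1 + 1 / δ), ← Real.exp_add]; ring_nf

theorem Adm.ok (h : Adm M a) : (sec M a).Ok levY := by
  have h10 : (10 : ℤ) ∣ 2 * M ^ 2 :=
    ((Int.natCast_dvd_natCast.2 h.ten).trans (dvd_pow_self _ two_ne_zero)).mul_left _
  have h5 : (5 : ℤ) ∣ 2 * M ^ 2 := Dvd.dvd.trans ⟨2, rfl⟩ h10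
  refine ⟨by have := h.pos; simp only [sec]; positivity, ?_, fun n c d => ?_, fun n c d => ?_,
    fun n c d => ?_, fun ε hε => ?_, fun g hg c d z => ?_, h.dec⟩
  · obtain ⟨H, rfl⟩ := h.two
    exact ⟨2 * H ^ 2, by simp only [sec, levY]; ring⟩
  · simp only [sec]
    rw [Wt_congr (c := c) (d := d) (by simpa using h10) (by simp),
      sum_congr rfl fun A _ => ph_congr (c := c) (d := d) h.pos (by simp) (by simp) A]
  · simp only [sec]
    rw [Wt_congr (c := c) (d := d) (by simp) (by simpa using h5),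
      sum_congr rfl fun A _ => ph_congr (c := c) (d := d) h.pos (by simp) (by simp) A]
  · have e : Wt (-c) (-d) = -Wt c d := by
      have : ∀ r : ZMod 5, ep (-r) = -ep r := by decide
      rw [Wt, Wt, Int.cast_neg, this, map_neg, map_neg, apply_ite Neg.neg, neg_zero]
      exact if_congr (by omega) rfl rfl
    simp only [sec]
    rw [e, neg_mul]
    congr 2
    exact sum_nbij' Neg.neg Neg.neg (by simp [mem_reps]) (by simp [mem_reps]) (by simp) (by simp)
      fun A _ => by rw [← ph_neg h.two c d, neg_neg]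
  · obtain ⟨C, C0, hC⟩ := card_reps_rpow hε
    obtain ⟨K, K0, hK⟩ := norm_ph_le M a
    refine ⟨K * C, fun n c d => ?_⟩
    simp only [sec]
    rw [norm_mul, mul_assoc]
    refine (mul_le_of_le_one_left (norm_nonneg _) (norm_Wt_le c d)).trans
      ((norm_sum_le_of_le _ fun A _ => hK c d A).trans ?_)
    rw [sum_const, nsmul_eq_mul, mul_comm]
    exact mul_le_mul_of_nonneg_left (hC n) K0
  · have hC : (10 : ℤ) ∣ g 1 0 := (ZMod.intCast_zmod_eq_zero_iff_dvd _ 10).1 (Gamma0_mem.1 hg)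
    have hD : 2 ∣ 1 + g 1 1 - 0 := by
      obtain ⟨C, e⟩ := hC
      have h1 := det_SL g
      by_contra e'
      obtain ⟨k, hk⟩ : ∃ k, g 1 1 = 2 * k := ⟨g 1 1 / 2, by omega⟩
      rw [e, hk] at h1
      have : 2 * (g 0 0 * k - g 0 1 * (5 * C)) = 1 := by linear_combination h1
      omega
    have e := Wt_law (det_SL g) hC c d
    rw [h.sec_F (g • z).im_pos, h.sec_F z.im_pos, F0, F0]
    simp only [Th2_law, Th2_p (p := 1) (p' := 1 + g 1 0) z.im_pos _ _ (by omega),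
      Th2_q z.im_pos _ _ hD, mul_left_comm (a _), sm_mul_left, levY]
    linear_combination (An.jac g z * sm M fun x => a x * Th2 1 0 ((c * g 0 0 + d * g 1 0 : ℤ) * x / M)
      ((c * g 0 1 + d * g 1 1 : ℤ) * x / M) z) * e

end Pool.Agent.Lib.MP_696deb_nt.Y2
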