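import Pool.Agent.Lib.MP_696deb_nt.Y2.TL0

/-! The character of the companion curve. -/

set_option autoImplicit false

open scoped Classical NNReal ComplexConjugate
open Finset

namespace Pool.Agent.Lib.MP_696deb_nt.Y2.TL

open EU

theorem tl6a_cop (a : O) : IsCoprime (star a) 5 ↔ IsCoprime a 5 := by
  have k : ∀ a : O, IsCoprime a 5 → IsCoprime (star a) 5 := fun a h => by
    have k := h.map (starRingEnd O)
    rwa [map_ofNat] at k
  exact ⟨fun h => by simpa using k _ h, k a⟩

theorem tl6a_five {a : O} (h : (5 : ℤ) ∣ a.norm) : ¬ IsCoprime a 5 := fun k => by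
  have k1 := k.mul_left ((tl6a_cop a).2 k)
  obtain ⟨c, hc⟩ := h
  rw [← Zsqrtd.norm_eq_mul_conj, hc, Int.cast_mul] at k1
  have k2 : IsUnit (5 : O) := isCoprime_self.1 (by exact_mod_cast k1.of_mul_left_left)
  rw [← Zsqrtd.norm_eq_one_iff' (by norm_num)] at k2
  exact absurd k2 (by decide)

theorem tl6a_mul {M : ℤ} {φ : O → O} (h : QF.Gch M φ) (a b : O) :
    c5 φ (a * b) = c5 φ a * c5 φ b := by
  simp only [c5, IsCoprime.mul_left_iff, h.mul]
  by_cases h1 : IsCoprime a 5 <;> by_cases h2 : IsCoprime b 5 <;> simp [h1, h2]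

theorem tl6a_conj {M : ℤ} {φ : O → O} (h : QF.Gch M φ) (a : O) :
    c5 φ (star a) = star (c5 φ a) := by
  simp only [c5, tl6a_cop, h.conj]
  split_ifs <;> simp

theorem tl6a_ii {M : ℤ} {φ : O → O} (h : QF.Gch M φ) : φ QF.ii = -QF.ii := by
  have k : QF.ii * -QF.ii = 1 := by decide
  linear_combination -QF.ii * h.unit - φ QF.ii * k

section
variable {D D' t : ℤ} (hD : QA.Fam D) (hD' : QA.Fam D') (ht : D' * t ^ 4 = 5 * D ^ 3)
include hD hD' ht

theorem tl6a_val {p : ℕ} (hp : p.Prime) (h5 : p ≠ 5) :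
    padicValInt p D' + 4 * padicValInt p t = 3 * padicValInt p D := by
  have := Fact.mk hp
  have t0 : t ≠ 0 := fun e => hD.ne (by
    rw [e] at ht
    simpa using ht)
  have k : padicValInt p 5 = 0 := padicValInt.eq_zero_of_not_dvd fun e =>
    h5 ((Nat.prime_dvd_prime_iff_eq hp Nat.prime_five).1 (by exact_mod_cast e))
  have pw : ∀ (a : ℤ) (n : ℕ), padicValInt p (a ^ n) = n * padicValInt p a := fun a n => by
    rw [padicValInt, Int.natAbs_pow, padicValNat.pow, padicValInt]
  have := congrArg (padicValInt p) ht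
  rwa [padicValInt.mul hD'.ne (pow_ne_zero _ t0),
    padicValInt.mul (by norm_num) (pow_ne_zero _ hD.ne), pw, pw, k, zero_add] at this

theorem comp_dvd {p : ℕ} (hp : p.Prime) (h5 : p ≠ 5) : (p : ℤ) ∣ D' ↔ (p : ℤ) ∣ D := by
  have k := tl6a_val hD hD' ht hp h5
  constructor <;> intro h <;> by_contra e
  · have := hD'.val hp h
    have := padicValInt.eq_zero_of_not_dvd e
    omega
  · have := hD.val hp h
    have := padicValInt.eq_zero_of_not_dvd e
    omega

theorem comp_odd {p : ℕ} (hp : p.Prime) (h5 : p ≠ 5) (hv : Odd (padicValInt p D)) :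
    Odd (padicValInt p D') := by
  have k := tl6a_val hD hD' ht hp h5
  rw [Nat.odd_iff] at hv ⊢
  omega

/-- The character of the companion is the conjugate character times the quartic symbol of five. -/
theorem comp_eq {φ φ' X : O → O} (hφ : Phi D φ) (hφ' : Phi D' φ') (hX : QF.IsX 5 X) (a : O) :
    c5 φ' a = star (φ a) * star (X a) := by
  let P : O → Prop := fun a => c5 φ' a = star (φ a) * star (X a)
  have mul : ∀ a b, P a → P b → P (a * b) := fun a b ha hb => by
    simp only [P] at ha hb ⊢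
    rw [tl6a_mul hφ'.gch, ha, hb, hφ.gch.mul, hX.mul, star_mul', star_mul']
    ring
  have cj : ∀ a, P a → P (star a) := fun a ha => by
    simp only [P] at ha ⊢
    rw [tl6a_conj hφ'.gch, ha, hφ.gch.conj, hX.conj, star_mul']
  have bad : ∀ p : ℕ, p.Prime → p = 5 ∨ (p : ℤ) ∣ 2 * D → ∀ a : O, (p : ℤ) ∣ a.norm → P a :=
    fun p hp h a ha => by
      simp only [P]
      by_cases h5 : p = 5
      · subst h5
        rw [c5, if_neg (tl6a_five ha), hX.zero a ha, star_zero, mul_zero]
      have h1 := h.resolve_left h5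
      have h2 : (p : ℤ) ∣ 2 * D' := ((Nat.prime_iff_prime_int.1 hp).dvd_or_dvd h1).elim
        (·.mul_right _) fun e => ((comp_dvd hD hD' ht hp h5).2 e).mul_left _
      rw [c5, hφ'.gch.zero p hp h2 a ha, hφ.gch.zero p hp h1 a ha, ite_self, star_zero, zero_mul]
  have one : P 1 := by
    simp only [P]
    rw [c5, if_pos isCoprime_one_left, hφ'.gch.one, hφ.gch.one, hX.one Nat.prime_five, star_one,
      mul_one]
  have ii : P QF.ii := by
    simp only [P]
    rw [c5, if_pos ⟨-QF.ii, 0, by decide⟩, tl6a_ii hφ'.gch, tl6a_ii hφ.gch,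
      hX.at_ii Nat.prime_five (by norm_num)]
    decide
  have unit : ∀ u : O, IsUnit u → P u := fun u hu => by
    have k : u ∈ QF.reps 1 := QF.mem_reps.2 ((Zsqrtd.norm_eq_one_iff' (by norm_num) u).2 hu)
    rw [show QF.reps 1 = {1, QF.ii, QF.ii * QF.ii, QF.ii * QF.ii * QF.ii} by decide] at k
    simp only [mem_insert, mem_singleton] at k
    rcases k with rfl | rfl | rfl | rfl
    exacts [one, ii, mul _ _ ii ii, mul _ _ (mul _ _ ii ii) ii]
  refine UniqueFactorizationMonoid.induction_on_prime (P := P) a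
    (bad 5 Nat.prime_five (.inl rfl) 0 (by simp)) unit fun b π _ hπ hb => mul _ _ ?_ hb
  have ass : ∀ w : O, Prime w → w ∣ π → P w → P π := fun w hw ⟨u, e⟩ h =>
    e ▸ mul _ _ h (unit u ((hπ.irreducible.isUnit_or_isUnit e).resolve_left hw.not_isUnit))
  obtain ⟨p, hp, hd⟩ := Nat.exists_prime_and_dvd (n := π.norm.natAbs) fun e =>
    hπ.not_isUnit (Zsqrtd.norm_eq_one_iff.1 e)
  replace hd : (p : ℤ) ∣ π.norm := Int.natCast_dvd.2 hd
  by_cases h : p = 5 ∨ (p : ℤ) ∣ 2 * D
  · exact bad p hp h π hd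
  rw [not_or] at h
  have := Fact.mk hp
  have d1 : ¬ (p : ℤ) ∣ D := fun e => h.2 (e.mul_left _)
  have d2 : ¬ (p : ℤ) ∣ D' := fun e => d1 ((comp_dvd hD hD' ht hp h.1).1 e)
  have d3 : p ≠ 2 := fun e => h.2 (by rw [e]; exact dvd_mul_right _ _)
  have d4 : (p : O) ∣ π * star π := by
    obtain ⟨c, hc⟩ := hd
    exact ⟨c, by rw [← Zsqrtd.norm_eq_mul_conj, hc, Int.cast_mul, Int.cast_natCast]⟩
  have d5 : IsCoprime (p : O) 5 := by
    exact_mod_cast Nat.Coprime.cast (R := O) ((Nat.coprime_primes hp Nat.prime_five).2 h.1)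
  by_cases h4 : p % 4 = 1
  · obtain ⟨z, ρ, χ, hq⟩ := QF.exists_qc h4
    have z1 := QF.f3_prime hp hq.norm
    have z2 : z ∣ (p : O) := Dvd.intro _ (QF.f3_mul hq.norm)
    have hz : P z := by
      have t0 : (t : ZMod p) ≠ 0 := fun e => by
        have k := ((ZMod.intCast_zmod_eq_zero_iff_dvd t p).1 e).trans
          ((dvd_pow_self t four_ne_zero).mul_left D')
        rw [ht] at k
        have hp' := Nat.prime_iff_prime_int.1 hp
        exact (hp'.dvd_or_dvd k).elim (fun e => h.1
          ((Nat.prime_dvd_prime_iff_eq hp Nat.prime_five).1 (by exact_mod_cast e)))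
          fun e => d1 (hp'.dvd_of_dvd_pow e)
      have k := congrArg (fun x : ℤ => χ (x : ZMod p)) ht
      simp only [Int.cast_mul, Int.cast_pow, map_mul, map_pow, hq.four _ t0, mul_one, hq.cube] at k
      have r := hq.recip Nat.prime_five (by norm_num) (Ne.symm h.1) hX
      rw [show QF.qs 5 = 5 from rfl] at r
      simp only [P]
      rw [c5, if_pos (d5.of_isCoprime_of_dvd_left z2), hφ'.qc p z ρ χ hq d2, hφ.qc p z ρ χ hq d1,
        k, r, star_mul', mul_comm]
    rcases z1.dvd_or_dvd (z2.trans d4) with e | e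
    · exact ass z z1 e hz
    · exact ass _ (QF.f3_prime hp ((Zsqrtd.norm_conj z).trans hq.norm)) (QF.f3_star e) (cj z hz)
  · have h3 : p % 4 = 3 := by
      have := hp.eq_two_or_odd.resolve_left d3
      omega
    have z1 := (GaussianInt.prime_iff_mod_four_eq_three_of_nat_prime p).2 h3
    have key : ∀ {M : ℤ} {ψ : O → O}, QF.Gch (2 * M) ψ → ¬ (p : ℤ) ∣ M → ψ p = -1 :=
      fun {M ψ} g e => by
        have k := g.int p hp fun k => ((Nat.prime_iff_prime_int.1 hp).dvd_or_dvd k).elim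
          (fun k => d3 ((Nat.prime_dvd_prime_iff_eq hp Nat.prime_two).1 (by exact_mod_cast k))) e
        rw [QF.qs, if_neg h4, Int.cast_neg, Int.cast_natCast, ← neg_one_mul (p : O)] at k
        exact mul_right_cancel₀ z1.ne_zero k
    refine ass _ z1 ((z1.dvd_or_dvd d4).elim id fun k => by simpa using QF.f3_star k) ?_
    simp only [P]
    rw [c5, if_pos d5, key hφ'.gch d2, key hφ.gch d1, hX.nat Nat.prime_five hp (Ne.symm h.1)]
    simp

end

end Pool.Agent.Lib.MP_696deb_nt.Y2.TL
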