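import Pool.Agent.Lib.MP_696deb_nt.Y2.TLr
import Pool.Agent.Lib.MP_696deb_nt.Y2.TL6a
import Pool.Agent.Lib.MP_696deb_nt.Y2.TH1
import Pool.Agent.Lib.MP_696deb_nt.Y2.M6

/-! The series of the analytic side as a double series. -/

set_option autoImplicit false

open scoped Classical NNReal ComplexConjugate
open Finset

namespace Pool.Agent.Lib.MP_696deb_nt.Y2.TL

open EU

/-- The conjugate of the Hecke character of conductor `2 + i`. -/
noncomputable def U0 (a : O) : ℂ := conj ((ep (r5 a) * a : O) : ℂ)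

/-- The character of finite order. -/
noncomputable def V0 (φ : O → O) (a : O) : O := star (c5 φ a) * ep (r5 a)

/-- The series of the analytic side. -/
noncomputable def RS (ψ : O → ℂ) (b : ℕ → ℂ) (s : ℂ) : ℂ := ∑' k : ℕ, (k : ℂ) ^ (-(2 * s + 1)) *
  LSeries (fun m => (Wt (5 * k) k * ∑ y ∈ QF.reps m, ψ (k * y)) * conj (b m)) (s + 1)

theorem U0_mul (a b : O) : U0 (a * b) = U0 a * U0 b := by
  rw [U0, U0, U0, m6_mul, map_mul, map_mul]

theorem U0_ii (a : O) : U0 (ii * a) = U0 a := by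
  rw [U0_mul, U0, show ep (r5 ii) * ii = 1 by decide, map_one, map_one, one_mul]

theorem U0_w : U0 w = -(1 - Complex.I) := by
  rw [U0, show ep (r5 w) * w = ⟨-1, -1⟩ by decide, GaussianInt.toComplex_def']
  simp
  ring

theorem t8_ep (r : ZMod 5) : ‖((ep r : O) : ℂ)‖ ≤ 1 := by
  have k : ((ep r).norm : ℝ) ≤ 1 := by exact_mod_cast (by decide : ∀ r, (ep r).norm ≤ 1) r
  rw [GaussianInt.intCast_real_norm, Complex.normSq_eq_norm_sq] at k
  exact (sq_le_one_iff₀ (norm_nonneg _)).1 k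

theorem U0_le (a : O) : ‖U0 a‖ ≤ ‖(a : ℂ)‖ := by
  rw [U0, Complex.norm_conj, map_mul, norm_mul]
  exact mul_le_of_le_one_left (norm_nonneg _) (t8_ep _)

theorem t8_mem {m : ℕ} {y : O} : y ∈ QF.reps m ↔ nm y = m := by
  have := GaussianInt.norm_nonneg y
  rw [QF.mem_reps, nm]
  omega

theorem t8_fib {ψ : O → ℂ} {b : ℕ → ℂ} {β : ℂ} (hb : ∀ m, b m = β * aN m) {s Z : ℂ}
    (h : HasSum (fun x : ℕ × O => (if x.1 % 2 = 1 then ψ (x.1 * x.2) else 0) *
      (∑ y ∈ QF.reps (nm x.2), U0 (x.1 * y)) / (nm (x.1 * x.2) : ℂ) ^ (s + 1)) Z) :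
    RS ψ b s = conj β / 4 * Z := by
  refine ((h.mul_left _).prod_fiberwise fun k => ?_).tsum_eq
  have h1 := ((h.mul_left (conj β / 4)).summable.prod_factor k).hasSum
  refine Eq.subst (motive := fun x => HasSum _ x) (Eq.symm ?_) h1
  rw [LSeries, ← tsum_mul_left]
  refine ((h1.tsum_fiberwise nm).congr_fun fun m => ?_).tsum_eq
  rw [show nm ⁻¹' {m} = (QF.reps m : Set O) from Set.ext fun y => t8_mem.symm,
    Finset.tsum_subtype' (QF.reps m) fun y : O => conj β / 4 *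
      ((if k % 2 = 1 then ψ (k * y) else 0) * (∑ y ∈ QF.reps (nm y), U0 (k * y)) /
        (nm (k * y) : ℂ) ^ (s + 1))]
  by_cases hk : k % 2 = 1
  swap
  · have : Wt (5 * k) k = 0 := if_neg fun e => hk (by omega)
    simp [hk, this, LSeries.term_def]
  have k0 : (k : ℂ) ≠ 0 := Nat.cast_ne_zero.2 (by omega)
  have e1 : ∑ y ∈ QF.reps m, U0 (k * y) = Wt (5 * k) k * k * (4 * conj (aN m : ℂ)) := by
    simp only [U0_mul, ← mul_sum]
    rw [Wt, if_pos ⟨by omega, dvd_mul_right _ _⟩, U0, m6_r5_nat]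
    simp only [U0, ← map_sum, four_aN]
    simp [map_ofNat]
  rw [sum_congr rfl (g := fun y => conj β / 4 * (ψ (k * y) *
    (Wt (5 * k) k * k * (4 * conj (aN m : ℂ))) / ((k * k * m : ℕ) : ℂ) ^ (s + 1))) fun y hy => by
      rw [if_pos hk, g1_nm_mul, g1_nm_nat, t8_mem.1 hy, e1, sq], ← mul_sum, ← sum_div, ← sum_mul]
  rcases eq_or_ne m 0 with rfl | m0
  · simp [show aN 0 = 0 by rw [aN, reps_zero]; decide]
  rw [LSeries.term_of_ne_zero m0, hb, Nat.cast_mul, Complex.natCast_mul_natCast_cpow, Nat.cast_mul,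
    Complex.natCast_mul_natCast_cpow, show -(2 * s + 1) = 1 - (s + 1) - (s + 1) by ring,
    Complex.cpow_sub _ _ k0, Complex.cpow_sub _ _ k0, Complex.cpow_one, map_mul]
  have := Complex.cpow_ne_zero_iff.2 (.inl k0 : _ ∨ s + 1 = 0)
  have := Complex.cpow_ne_zero_iff.2 (.inl (Nat.cast_ne_zero.2 m0) : (m : ℂ) ≠ 0 ∨ s + 1 = 0)
  field_simp

theorem t8_even {k : ℕ} (hk : ¬ k % 2 = 1) (y : O) : w ∣ k * y := by
  obtain ⟨j, rfl⟩ : ∃ j, k = 2 * j := ⟨k / 2, by omega⟩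
  push_cast
  exact (Dvd.dvd.mul_right (⟨star w, by decide⟩ : w ∣ 2) _).mul_right y

theorem t8_odd {k : ℕ} (hk : k % 2 = 1) {y : O} (h : w ∣ k * y) : w ∣ y :=
  (g1_w.dvd_or_dvd h).resolve_left fun e => by
    obtain ⟨j, rfl⟩ : ∃ j, k = 2 * j + 1 := ⟨k / 2, by omega⟩
    have k2 : w ∣ 2 * (j : O) := Dvd.dvd.mul_right ⟨star w, by decide⟩ _
    push_cast at e
    exact g1_w.not_dvd_one ((dvd_add_right k2).1 e)

theorem t8_reps (k m : ℕ) : ∑ y ∈ QF.reps (2 * m), U0 (k * y) = U0 w * ∑ y ∈ QF.reps m, U0 (k * y) := by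
  rw [mul_sum]
  refine (sum_bij (fun y _ => w * y) (fun y h => ?_)
    (fun _ _ _ _ e => mul_left_cancel₀ g1_w.ne_zero e) (fun y h => ?_)
    fun y _ => by rw [mul_left_comm, U0_mul w]).symm
  · rw [t8_mem] at h ⊢
    rw [g1_nm_mul, h]
    rfl
  · have k1 : w ∣ y * star y := by
      rw [← Zsqrtd.norm_eq_mul_conj, QF.mem_reps.1 h]
      push_cast
      exact Dvd.dvd.mul_right ⟨star w, by decide⟩ _
    obtain ⟨z, rfl⟩ : w ∣ y := (g1_w.dvd_or_dvd k1).elim id fun ⟨z, e⟩ =>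
      ⟨-ii * star z, by
        rw [← mul_assoc, show w * -ii = star w by decide, ← star_mul', ← e, star_star]⟩
    rw [t8_mem, g1_nm_mul, show nm w = 2 from rfl] at h
    exact ⟨z, t8_mem.2 (by omega), rfl⟩

/-- The two shells. -/
theorem rs_two {ψ V V' : O → ℂ} {K : ℝ} (hV : ∀ a, ‖V a‖ ≤ K) (hV' : ∀ a, ‖V' a‖ ≤ K)
    (o1 : ∀ a, w ∣ a → V a = 0) (o2 : ∀ a, w ∣ a → V' a = 0) (h0 : ∀ y, ¬ w ∣ y → ψ y = V y)
    (h1 : ∀ y, ψ (w * y) = V' y) {b : ℕ → ℂ} {β : ℂ} (hb : ∀ m, b m = β * aN m) {s : ℂ}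
    (hs : 1 / 2 < s.re) : RS ψ b s = conj β / 4 *
      (∑' p : O × O, V (p.1 * p.2) * U0 (p.1 * star p.2) / (nm (p.1 * p.2) : ℂ) ^ (s + 1) +
        U0 w / 2 ^ (s + 1) *
          ∑' p : O × O, V' (p.1 * p.2) * U0 (p.1 * star p.2) / (nm (p.1 * p.2) : ℂ) ^ (s + 1)) := by
  have hU : ∀ a, ‖U0 a‖ ≤ max K 1 * ‖(a : ℂ)‖ := fun a =>
    (U0_le a).trans (le_mul_of_one_le_left (norm_nonneg _) (le_max_right _ _))
  have hs' : 3 / 2 < (s + 1).re := by rw [Complex.add_re, Complex.one_re]; linarith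
  have a1 := rp (fun a => (hV a).trans (le_max_left _ 1)) hU o1 U0_ii hs'
  have a2 := (rp (fun a => (hV' a).trans (le_max_left _ 1)) hU o2 U0_ii hs').mul_left
    (U0 w / 2 ^ (s + 1))
  have inj : Function.Injective fun x : ℕ × O => (x.1, w * x.2) := fun x y e =>
    Prod.ext (Prod.ext_iff.1 e).1 (mul_left_cancel₀ g1_w.ne_zero (Prod.ext_iff.1 e).2)
  have a3 := (inj.hasSum_iff (f := fun x : ℕ × O => (if x.1 % 2 = 1 ∧ w ∣ x.2 then ψ (x.1 * x.2)
      else 0) * (∑ y ∈ QF.reps (nm x.2), U0 (x.1 * y)) / (nm (x.1 * x.2) : ℂ) ^ (s + 1))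
    fun x hx => by
      rw [if_neg fun ⟨_, z, e⟩ => hx ⟨(x.1, z), Prod.ext rfl e.symm⟩, zero_mul, zero_div]).1
    (a2.congr_fun fun x => by
      simp only [Function.comp, dvd_mul_right, and_true]
      split_ifs with k
      · rw [mul_left_comm (x.1 : O), h1, g1_nm_mul w, g1_nm_mul w, show nm w = 2 from rfl, t8_reps,
          Nat.cast_mul, Complex.natCast_mul_natCast_cpow, Nat.cast_ofNat]
        ring
      · simp [o2 _ (t8_even k _)])
  refine t8_fib hb ((a1.add a3).congr_fun fun x => ?_)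
  rw [← add_div, ← add_mul]
  by_cases k : x.1 % 2 = 1
  · by_cases e : w ∣ x.2
    · simp [k, e, o1 _ (e.mul_left _)]
    · simp [k, e, h0 _ fun l => e (t8_odd k l)]
  · simp [k, o1 _ (t8_even k _)]

theorem t8_X {X : O → O} (hX : QF.IsX 5 X) {a : O} (ha : IsCoprime a 5) :
    star (X a) = ep (r5 a) * star (ep (r5 (star a))) ∧ ep (r5 a) * star (ep (r5 a)) = 1 := by
  have ad : ∀ a b : O, r5 (a - b) = r5 a - r5 b := fun a b => by
    simp only [r5, Zsqrtd.re_sub, Zsqrtd.im_sub]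
    push_cast
    ring
  have z : ∀ a : O, IsCoprime a 5 → r5 a ≠ 0 := fun a ⟨s, t, e⟩ k => by
    have := ad 1 (s * a)
    rw [← e, add_sub_cancel_left, m6_r5_mul, m6_r5_mul, k, show r5 5 = 0 by decide, e] at this
    exact absurd this (by rw [mul_zero, mul_zero]; decide)
  have n5 : ¬ ((5 : ℕ) : ℤ) ∣ a.norm := fun e => tl6a_five e ha
  obtain ⟨c, e⟩ := hX.spec1 rfl a n5
  have e1 := congrArg r5 e
  rw [show 5 / 4 = 1 from rfl, pow_one, pow_one, ad, m6_r5_mul, m6_r5_mul,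
    show r5 (5 : ℕ) = 0 by decide, zero_mul, sub_eq_zero] at e1
  have h4 : X a = 1 ∨ X a = -1 ∨ X a = ii ∨ X a = -ii := by
    have k : (X a - 1) * ((X a + 1) * ((X a - ii) * (X a + ii))) = 0 := by
      linear_combination hX.four a n5 - (X a ^ 2 - 1) * (by decide : ii * ii = -1)
    simpa only [mul_eq_zero, sub_eq_zero, add_eq_zero_iff_eq_neg] using k
  have tab : ∀ x ∈ ({1, -1, ii, -ii} : Finset O), ∀ s : ZMod 5, s ≠ 0 →
      star x = ep (r5 x * s) * star (ep s) := by decide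
  refine ⟨?_, (by decide : ∀ s : ZMod 5, s ≠ 0 → ep s * star (ep s) = 1) _ (z a ha)⟩
  rw [e1]
  exact tab _ (by simpa using h4) _ (z _ ((tl6a_cop a).2 ha))

section
variable {D D' t : ℤ} (hD : QA.Fam D) (hD' : QA.Fam D') (ht : D' * t ^ 4 = 5 * D ^ 3)
  {φ φ' : O → O} (hφ : Phi D φ) (hφ' : Phi D' φ')
include hD hD' ht hφ hφ'

theorem t8_fac (a b : O) : (V0 φ (a * b) : ℂ) * U0 (a * star b) =
    conj (c5 φ a : ℂ) * conj (a : ℂ) * ((c5 φ' b : ℂ) * b) := by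
  obtain ⟨X, hX⟩ := QF.exists_X Nat.prime_five (by decide)
  have k : V0 φ (a * b) * star (ep (r5 (a * star b))) = star (c5 φ a) * c5 φ' b := by
    rw [V0, tl6a_mul hφ.gch]
    by_cases ha : IsCoprime a 5
    swap
    · simp [c5, ha]
    by_cases hb : IsCoprime b 5
    swap
    · simp [c5, hb]
    rw [comp_eq hD hD' ht hφ hφ' hX, (t8_X hX hb).1, m6_r5_mul, m6_r5_mul, m6_ep_mul, m6_ep_mul,
      star_mul', star_mul', show c5 φ b = φ b from if_pos hb]
    linear_combination star (c5 φ a) * star (φ b) * ep (r5 b) * star (ep (r5 (star b))) *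
      (t8_X hX ha).2
  have k2 := congrArg GaussianInt.toComplex k
  simp only [map_mul, GaussianInt.toComplex_star] at k2
  simp only [U0, map_mul, GaussianInt.toComplex_star, Complex.conj_conj]
  linear_combination conj (a : ℂ) * b * k2

/-- The series of the analytic side in terms of the double series. -/
theorem rs_DD {ψ W : O → ℂ} {K : ℝ} (hW : ∀ a, ‖W a‖ ≤ K) {c0 c1 : ℂ}
    (h0 : ∀ y, ¬ w ∣ y → ψ y = c0 * V0 φ y) (h1 : ∀ y, ψ (w * y) = c1 * V0 φ y) {b : ℕ → ℂ} {β : ℂ}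
    (hb : ∀ m, b m = β * aN m) {s : ℂ} (hs : 1 / 2 < s.re) :
    RS (fun y => ψ y * W y) b s = conj β / 4 *
      (c0 * DD W (fun a => conj (c5 φ a : ℂ)) (fun a => (c5 φ' a : ℂ)) (s + 1) +
        c1 * U0 w / 2 ^ (s + 1) *
          DD (fun a => W (w * a)) (fun a => conj (c5 φ a : ℂ)) (fun a => (c5 φ' a : ℂ)) (s + 1)) := by
  have b0 : ∀ a, ‖(V0 φ a : ℂ)‖ ≤ 1 := fun a => by
    have k : ((c5 φ a).norm : ℝ) ≤ 1 := by
      rw [c5]
      split_ifs
      · exact_mod_cast hφ.gch.bd a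
      · simp
    rw [GaussianInt.intCast_real_norm, Complex.normSq_eq_norm_sq] at k
    rw [V0, map_mul, norm_mul, GaussianInt.toComplex_star, Complex.norm_conj]
    exact mul_le_one₀ ((sq_le_one_iff₀ (norm_nonneg _)).1 k) (norm_nonneg _) (t8_ep _)
  have b1 : ∀ (c : ℂ) a a', ‖c‖ ≤ ‖c0‖ + ‖c1‖ → ‖c * V0 φ a * W a'‖ ≤ (‖c0‖ + ‖c1‖) * K :=
    fun c a a' h => by
      rw [norm_mul, norm_mul]
      exact mul_le_mul ((mul_le_of_le_one_right (norm_nonneg _) (b0 a)).trans h) (hW a')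
        (norm_nonneg _) (by positivity)
  have z : ∀ a, w ∣ a → V0 φ a = 0 := fun a ⟨c, e⟩ => by
    rw [V0, c5, EA.phi_zero hφ.gch (by
      rw [e, Zsqrtd.norm_mul]
      exact Dvd.intro _ rfl), ite_self, star_zero, zero_mul]
  rw [rs_two (V := fun y => c0 * V0 φ y * W y) (V' := fun y => c1 * V0 φ y * W (w * y))
    (fun a => b1 _ _ _ (le_add_of_nonneg_right (norm_nonneg _)))
    (fun a => b1 _ _ _ (le_add_of_nonneg_left (norm_nonneg _))) (fun a h => by simp [z a h])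
    (fun a h => by simp [z a h]) (fun y h => by rw [h0 y h]) (fun y => by rw [h1]) hb hs,
    DD, DD, ← tsum_mul_left, ← tsum_mul_left, ← tsum_mul_left]
  congr 2
  · exact tsum_congr fun p => by
      linear_combination c0 * W (p.1 * p.2) / (nm (p.1 * p.2) : ℂ) ^ (s + 1) *
        t8_fac hD hD' ht hφ hφ' p.1 p.2
  · exact tsum_congr fun p => by
      linear_combination U0 w / 2 ^ (s + 1) * c1 * W (w * (p.1 * p.2)) /
        (nm (p.1 * p.2) : ℂ) ^ (s + 1) * t8_fac hD hD' ht hφ hφ' p.1 p.2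

end

end Pool.Agent.Lib.MP_696deb_nt.Y2.TL
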