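import Pool.Agent.Lib.MP_696deb_nt.Y2.D4
import Pool.Agent.Lib.MP_696deb_nt.Y2.P0
import Pool.Agent.Lib.MP_696deb_nt.Y2.TH2
import Pool.Agent.Lib.MP_696deb_nt.Y2.TL8

/-! The series of the analytic side is a multiple of the L-function of the curve. -/

set_option autoImplicit false

open scoped Classical ComplexConjugate
open Complex Finset

namespace Pool.Agent.Lib.MP_696deb_nt.Y2

open QF TL
open EU (nm)
open Q4 (w)

/-- The entire function `F` is the L-function of the curve. -/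
def IsL (D : ℤ) (F : ℂ → ℂ) : Prop := Differentiable ℂ F ∧
  ∀ s : ℂ, (3 : ℝ) / 2 < s.re → HasProd (fun p : ℕ =>
    if p.Prime ∧ ¬ ((p : ℤ) ∣ 2 * (-4 * (-D) ^ 3 - 27 * 0 ^ 2)) then
      (1 - ((p : ℂ) - (QF.cnt D p : ℂ)) * (p : ℂ) ^ (-s) + (p : ℂ) ^ (1 - 2 * s))⁻¹ else 1) (F s)

theorem gl_le {x : G} (h : x.norm ≤ 1) : ‖(x : ℂ)‖ ≤ 1 := by
  have k : (x.norm : ℝ) ≤ 1 := by exact_mod_cast h
  rw [GaussianInt.intCast_real_norm, Complex.normSq_eq_norm_sq] at k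
  exact (sq_le_one_iff₀ (norm_nonneg _)).1 k

theorem gl_ext {F L : ℂ → ℂ} (hF : Differentiable ℂ F) (hL : Differentiable ℂ L) {σ : ℝ}
    (h : ∀ s : ℂ, σ < s.re → F s = L s) : F = L := by
  refine AnalyticOnNhd.eq_of_eventuallyEq (fun z _ => hF.analyticAt z)
    (fun z _ => hL.analyticAt z) (z₀ := σ + 1) ?_
  filter_upwards [(isOpen_lt continuous_const continuous_re).mem_nhds
    (show (σ + 1 : ℂ) ∈ {s : ℂ | σ < s.re} by simp)] with s hs using h s hs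

theorem gl_euler {D : ℤ} (hD : D ≠ 0) {φ : G → G} (h : EU.Phi D φ) {F : ℂ → ℂ} (hF : IsL D F)
    {a : ℕ → ℂ} (ha : ∀ n, ∑ α ∈ QF.reps n, (φ α : ℂ) * (α : ℂ) = 4 * a n) {s : ℂ}
    (hs : (3 : ℝ) / 2 < s.re) (h0 : LSeriesSummable a s) : F s = LSeries a s := by
  have h1 := h.gch
  obtain ⟨a', a1, a2, a3, a4⟩ := h1.hecke
  obtain rfl : a = fun n => 1 * (a' n : ℂ) := funext fun n =>
    mul_left_cancel₀ (by norm_num : (4 : ℂ) ≠ 0) (by
    rw [← ha]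
    simpa [map_ofNat] using congrArg GaussianInt.toComplex (a2 n))
  have m0 : 2 * (-4 * (-D) ^ 3 - 27 * 0 ^ 2) ≠ 0 := by
    rw [show 2 * (-4 * (-D) ^ 3 - 27 * 0 ^ 2) = 8 * D ^ 3 by ring]
    positivity
  rw [(hF.2 s hs).unique (hasProd_frozen a1 rfl (fun _ _ => (mul_one _).symm) h0 m0
    (fun p => (p : ℂ) - (QF.cnt D p : ℂ)) fun p hp k => ?_), prod_eq_one fun p hp => ?_, one_mul]
  · obtain ⟨p1, p2, -⟩ := Nat.mem_primeFactors.1 hp
    have p3 : (p : ℤ) ∣ 2 * D := (Nat.prime_iff_prime_int.1 p1).dvd_of_dvd_pow (n := 3)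
      ((Int.natCast_dvd.2 p2).trans (Dvd.intro 1 (by ring)))
    have p4 := ha p
    rw [sum_eq_zero fun α hα => by
      rw [h1.zero p p1 p3 α (by rw [mem_reps.1 hα]), map_zero, zero_mul]] at p4
    have p5 : (a' p : ℂ) = 0 := by simpa using p4
    simp [loc, p3, p5]
  have := Fact.mk hp
  have k1 : ¬ (p : ℤ) ∣ 2 * D := fun e => k (e.trans ⟨4 * D ^ 2, by ring⟩)
  refine ⟨?_, one_pow 2, if_neg k1⟩
  have k2 : p ≠ 2 := fun e => k1 (e ▸ dvd_mul_right _ _)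
  have k3 := hp.eq_two_or_odd.resolve_left k2
  rw [one_mul]
  rcases (by omega : p % 4 = 1 ∨ p % 4 = 3) with e | e
  · obtain ⟨z, ρ, χ, hq⟩ := exists_qc e
    have k4 : ¬ (p : ℤ) ∣ D := fun e => k1 (e.mul_left 2)
    have k5 := a4 p z hp e hq.norm
    rw [h.qc p z ρ χ hq k4, star_mul', star_star, ← hq.count k4, Int.cast_inj] at k5
    rw [k5]
    push_cast
    rfl
  · rw [a3 p hp e, count_three e, sub_self, Int.cast_zero]

theorem gl_sum {f : G → ℂ} (bd : ∀ α, ‖f α‖ ≤ 1) {a : ℕ → ℂ}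
    (ha : ∀ n, ∑ α ∈ QF.reps n, f α * (α : ℂ) = 4 * a n) {s : ℂ} (hs : (3 : ℝ) / 2 < s.re) :
    HasSum (fun α : G => f α * (α : ℂ) / (nm α : ℂ) ^ s) (4 * LSeries a s) := by
  have h := (t3a_sum bd hs).of_norm.hasSum
  have k := hasSum_norm (g := fun α => f α * (α : ℂ)) (F := fun n => 1 / (n.natAbs : ℂ) ^ s)
    (h.congr_fun fun α => by rw [mul_one_div, nm])
  rw [LSeries, ← tsum_mul_left, tsum_congr (g := fun n : ℕ =>
    (∑ α ∈ QF.reps n, f α * (α : ℂ)) * (1 / ((n : ℤ).natAbs : ℂ) ^ s)) fun n => ?_, k.tsum_eq]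
  · exact h
  rcases eq_or_ne n 0 with rfl | h0
  · simp [reps_zero]
  · rw [LSeries.term_of_ne_zero h0, ha, Int.natAbs_natCast]
    ring

theorem gl_cut {T : G → ℂ} (hT : ∀ a b, T (a * b) = T a * T b) {z : G} (hz : z ≠ 0) {Z : ℂ}
    (h : HasSum T Z) : HasSum (fun a => if z ∣ a then 0 else T a) ((1 - T z) * Z) := by
  have k : HasSum (fun a => if z ∣ a then T a else 0) (T z * Z) :=
    ((mul_right_injective₀ hz).hasSum_iff fun a ha => if_neg fun ⟨c, e⟩ => ha ⟨c, e.symm⟩).1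
      ((h.mul_left _).congr_fun fun a => by simp [hT])
  rw [sub_mul, one_mul]
  exact (h.sub k).congr_fun fun a => by split_ifs <;> simp

theorem gl_r5 (a : G) : (⟨2, 1⟩ : G) ∣ a ↔ r5 a = 0 := by
  refine ⟨fun ⟨c, e⟩ => by rw [e, r5_mul, show r5 ⟨2, 1⟩ = 0 by decide, zero_mul], fun h => ?_⟩
  obtain ⟨c, e⟩ := (ZMod.intCast_zmod_eq_zero_iff_dvd (a.re + 3 * a.im) 5).1 (by
    rw [← h, r5]; push_cast; rfl)
  refine ⟨⟨2 * c - a.im, a.im - c⟩, ?_⟩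
  ext <;> simp at e ⊢ <;> omega

theorem gl_r5' (a : G) : (⟨2, -1⟩ : G) ∣ a ↔ r5 (star a) = 0 := by
  rw [← gl_r5]
  exact ⟨fun h => f3_star (z := ⟨2, -1⟩) (by rwa [star_star]), fun h => f3_star h⟩

/-- The coefficients of the cusp form at the second cusp. -/
noncomputable def bY (m : ℕ) : ℂ := -(1 + I) * aN m

namespace Dat

variable (d : Dat)

theorem φ_le (α : G) : ‖(d.φ α : ℂ)‖ ≤ 1 := by
  rw [φ, fphi, map_mul, map_prod, norm_mul, norm_prod]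
  refine mul_le_one₀ (gl_le (ph2_bd _ _ α)) (prod_nonneg fun _ _ => norm_nonneg _)
    (prod_le_one (fun _ _ => norm_nonneg _) fun q h => ?_)
  rw [map_pow, norm_pow]
  exact pow_le_one₀ (norm_nonneg _) (gl_le ((d.hQ q h).2.2.bd α))

theorem kap_le (α : G) : ‖(d.kap α : ℂ)‖ ≤ 1 := by
  rw [kap, map_mul, map_mul, map_pow, norm_mul, norm_mul, norm_pow]
  exact mul_le_one₀ (mul_le_one₀ (d.φ_le α) (norm_nonneg _) (t8_ep _)) (by positivity)
    (pow_le_one₀ (norm_nonneg _) (t8_ep _))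

theorem exists_L (hW : d.W = -1) : ∃ L : ℂ → ℂ, Differentiable ℂ L ∧ L 1 = 0 ∧
    (∀ s : ℂ, (3 : ℝ) / 2 < s.re →
      HasSum (fun α : G => (d.φ α : ℂ) * (α : ℂ) / (nm α : ℂ) ^ s) (4 * L s)) ∧
    (EU.Phi d.D d.φ → ∀ F, IsL d.D F → F = L) := by
  obtain ⟨l, l1, l2⟩ := th_fe (mul_pos (by norm_num) (prod_pos fun q h => (d.hQ q h).1.pos))
    (f := fun α => (d.φ α : ℂ)) (fun α γ => congrArg _ (fphi_per _ _ d.hQ α γ))
    (show nu d.κ ≠ 0 by unfold nu; split_ifs <;> decide) (fphi_sd d.κ d.t d.hQ d.hv)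
  have e : ((d.W : G) : ℂ) = -1 := by simp [hW]
  rw [W] at e
  rw [e] at l2
  have ha : ∀ n, ∑ α ∈ QF.reps n, (d.φ α : ℂ) * (α : ℂ) =
      4 * ((∑ α ∈ QF.reps n, (d.φ α : ℂ) * (α : ℂ)) / 4) := fun n => by ring
  obtain ⟨L, b1, b2, b3⟩ := analytic d.φ_le l1 (by norm_num) l2 ha
  exact ⟨L, b1, b3 rfl, fun s hs => (b2 s hs).2 ▸ gl_sum d.φ_le ha hs, fun h F hF =>
    gl_ext hF.1 b1 fun s hs => (gl_euler (mul_ne_zero (by unfold ck; split_ifs <;> decide)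
      (by omega)) h hF ha hs (b2 s hs).1).trans (b2 s hs).2.symm⟩

theorem gl_kap {a : G} (h : w ∣ a) : d.kap a = 0 := d.kap_zero fun k => by
  obtain ⟨c, rfl⟩ := h
  exact (d.cop_iff.1 k).1 (Zsqrtd.norm_mul w c ▸ Dvd.intro _ rfl)

theorem gl_odd {c : ℕ} (h : ∀ y, d.Psi y = c * d.kap1 y) {y : G} (hy : ¬ w ∣ y) :
    d.ps y = -c * d.kap y := by
  have h1 : ¬ (y.re + y.im) % 2 = 0 := fun e => hy ⟨⟨(y.re + y.im) / 2, (y.im - y.re) / 2⟩, by
    ext <;> simp [w] <;> omega⟩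
  have h2 := (m6_norm y).1 (by omega)
  rw [ps, h, kap1, if_neg fun e => h1 e.2, Odd.neg_one_pow (Int.natAbs_odd.2 (Int.odd_iff.2
    (by omega)))]
  simp

theorem gl_w {c : ℕ} (h : ∀ y, d.Psi y = c * d.kap1 y) (y : G) :
    d.ps (w * y) = (if d.κ = 0 then c * (w : ℂ) else 0) * d.kap y := by
  have h1 : ((w * y).re + (w * y).im) % 2 = 0 := by simp [w]; omega
  have h2 : (⟨((w * y).re + (w * y).im) / 2, ((w * y).im - (w * y).re) / 2⟩ : G) = y := by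
    ext <;> simp [w] <;> omega
  rw [ps, h, kap1, h2, d.gl_kap (dvd_mul_right _ _), Even.neg_one_pow (Int.natAbs_even.2 (by
    rw [Zsqrtd.norm_mul]; exact Even.mul_right (by decide) _))]
  simp only [h1, and_true]
  split_ifs <;> simp [w, mul_assoc]

theorem gl_five {s Z : ℂ} (h : HasSum (fun α : G => (d.φ α : ℂ) * (α : ℂ) / (nm α : ℂ) ^ s) Z) :
    HasSum (fun α : G => (d.kap α : ℂ) * conj ((ep (r5 (star α)) : G) : ℂ) * (α : ℂ) / (nm α : ℂ) ^ s)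
      ((1 - d.φ ⟨2, -1⟩ * (⟨2, -1⟩ : G) / 5 ^ s) * ((1 - d.φ ⟨2, 1⟩ * (⟨2, 1⟩ : G) / 5 ^ s) * Z)) := by
  have m : ∀ a b : G, (d.φ (a * b) : ℂ) * (a * b : G) / (nm (a * b) : ℂ) ^ s =
      d.φ a * a / (nm a : ℂ) ^ s * (d.φ b * b / (nm b : ℂ) ^ s) := fun a b => by
    rw [φ_mul, nm, Zsqrtd.norm_mul, Int.natAbs_mul, Nat.cast_mul, natCast_mul_natCast_cpow, map_mul,
      map_mul, div_mul_div_comm, mul_mul_mul_comm, nm, nm]
  have k := gl_cut (z := ⟨2, -1⟩) (fun a b => by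
    simp only [gl_r5, r5_mul, (by decide : ∀ a b : ZMod 5, a * b = 0 ↔ a = 0 ∨ b = 0), m]
    by_cases h1 : r5 a = 0 <;> by_cases h2 : r5 b = 0 <;> simp [h1, h2]) (by decide)
    (gl_cut m (z := ⟨2, 1⟩) (by decide) h)
  rw [if_neg (by rw [gl_r5]; decide)] at k
  refine k.congr_fun fun a => ?_
  have e : d.kap a * star (ep (r5 (star a))) =
      if r5 (star a) = 0 then 0 else if r5 a = 0 then 0 else d.φ a := by
    rw [kap, mul_assoc, mul_assoc, (by decide : ∀ x y : ZMod 5, ep x * (ep y ^ 4 * star (ep x)) =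
      if x = 0 then 0 else if y = 0 then 0 else 1)]
    split_ifs <;> simp
  rw [← GaussianInt.toComplex_star, ← map_mul, e, gl_r5, gl_r5']
  split_ifs <;> simp

theorem exists_E (hW : d.W = -1) {L : ℂ → ℂ} (hL : ∀ s : ℂ, (3 : ℝ) / 2 < s.re →
    HasSum (fun α : G => (d.φ α : ℂ) * (α : ℂ) / (nm α : ℂ) ^ s) (4 * L s)) :
    ∃ E : ℂ → ℂ, Differentiable ℂ E ∧ ∀ s : ℂ, 1 < s.re → RS d.ps bY s = E s * L (s + 1) := by
  obtain ⟨c, -, hc⟩ := d.Psi_eq hW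
  obtain ⟨c1, h1⟩ : ∃ c1 : ℂ, ∀ y, d.ps (w * y) = c1 * d.kap y := ⟨_, d.gl_w hc⟩
  have b1 : ∀ a b : G, ‖(d.kap a : ℂ) * conj ((ep (r5 b) : G) : ℂ)‖ ≤ 1 := fun a b => by
    rw [norm_mul, norm_conj]
    exact mul_le_one₀ (d.kap_le a) (norm_nonneg _) (t8_ep _)
  obtain ⟨L2, l1, l2⟩ := DS_ent (n := (8 * d.N * 5 : ℕ)) (by exact_mod_cast (by
    have := d.N_pos; positivity : 8 * d.N * 5 ≠ 0))
    (g := fun a => (d.kap a : ℂ) * conj ((ep (r5 a) : G) : ℂ)) fun a b ⟨e, he⟩ => by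
      have k : r5 a = r5 b := by
        rw [eq_add_of_sub_eq he, r5_add, r5_mul, ← Int.cast_natCast, r5_int,
          (ZMod.intCast_zmod_eq_zero_iff_dvd _ 5).2 (by exact_mod_cast Dvd.intro_left _ rfl),
          zero_mul, zero_add]
      simp only [k, EA.per_dvd d.kap_per (a := a) (b := b) ⟨5 * e, by rw [he]; push_cast; ring⟩]
  have p2 : ∀ (n : ℂ), n ≠ 0 → ∀ x : ℂ, Differentiable ℂ fun s : ℂ => x / n ^ (s + 1) :=
    fun n hn x => (differentiable_const _).div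
      ((differentiable_id.add_const 1).const_cpow (Or.inl hn)) fun s e => hn ((cpow_eq_zero_iff _ _).1 e).1
  refine ⟨fun s => conj (-(1 + I)) / 4 * (-c + c1 * U0 w / 2 ^ (s + 1)) * L2 (s + 1) *
    ((1 - d.φ ⟨2, -1⟩ * (⟨2, -1⟩ : G) / 5 ^ (s + 1)) *
      ((1 - d.φ ⟨2, 1⟩ * (⟨2, 1⟩ : G) / 5 ^ (s + 1)) * 4)), ?_, fun s hs => ?_⟩
  · exact ((((p2 2 two_ne_zero _).const_add _).const_mul _).mul
      (l1.comp (differentiable_id.add_const 1))).mul (((p2 5 (by norm_num) _).const_sub _).mul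
        (((p2 5 (by norm_num) _).const_sub _).mul_const _))
  have s1 : (3 : ℝ) / 2 < (s + 1).re := by simp; linarith
  have b2 : ∀ (x : ℂ) a, ‖x‖ ≤ c + ‖c1‖ → ‖x * d.kap a‖ ≤ c + ‖c1‖ := fun x a h => by
    rw [norm_mul]
    exact (mul_le_of_le_one_right (norm_nonneg _) (d.kap_le a)).trans h
  have k : ∀ x : ℂ, ∑' p : G × G, x * d.kap (p.1 * p.2) * U0 (p.1 * star p.2) /
      (nm (p.1 * p.2) : ℂ) ^ (s + 1) = x * (L2 (s + 1) *
        ((1 - d.φ ⟨2, -1⟩ * (⟨2, -1⟩ : G) / 5 ^ (s + 1)) *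
          ((1 - d.φ ⟨2, 1⟩ * (⟨2, 1⟩ : G) / 5 ^ (s + 1)) * (4 * L (s + 1))))) := fun x => by
    rw [← (d.gl_five (hL _ s1)).tsum_eq, l2 _ (by simp; linarith),
      ← t3a_DS fun a => (d.kap a : ℂ) * conj ((ep (r5 (star a)) : G) : ℂ),
      ← DD_one (fun a => b1 a a) (fun a => b1 a (star a)) s1, DD, ← tsum_mul_left]
    refine tsum_congr fun p => ?_
    simp only [kap_mul, U0, r5_mul, ep_mul, map_mul, GaussianInt.toComplex_star, conj_conj]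
    ring
  rw [rs_two (ψ := d.ps) (b := bY) (V := fun y => -c * d.kap y) (V' := fun y => c1 * d.kap y) (K := c + ‖c1‖)
    (fun a => b2 _ _ (by simp)) (fun a => b2 _ _ (by simp)) (fun a h => by simp [d.gl_kap h])
    (fun a h => by simp [d.gl_kap h]) (fun y h => d.gl_odd hc h) h1 (β := -(1 + I)) (fun _ => rfl)
    (by linarith), k, k]
  ring

/-- The order of vanishing of the series of the analytic side. -/
theorem lam_zero (hW : d.W = -1) {Λ : ℂ → ℂ} (hΛ : Differentiable ℂ Λ)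
    (h : ∀ s : ℂ, 5 < s.re → Λ s = RS d.ps bY s) : Λ 0 = 0 ∧
      (EU.Phi d.D d.φ → ∀ F, IsL d.D F → deriv F 1 = 0 → deriv Λ 0 = 0) := by
  obtain ⟨L, l1, l2, l3, l4⟩ := d.exists_L hW
  obtain ⟨E, e1, e2⟩ := d.exists_E hW l3
  have l5 : Differentiable ℂ fun s => L (s + 1) := l1.comp (differentiable_id.add_const 1)
  obtain rfl : Λ = fun s => E s * L (s + 1) :=
    gl_ext hΛ (e1.mul l5) fun s hs => (h s hs).trans (e2 s (by linarith))
  refine ⟨by simp [l2], fun hφ F hF h0 => ?_⟩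
  rw [deriv_fun_mul (e1 0) (l5 0), deriv_comp_add_const, zero_add, l2, ← l4 hφ F hF, h0]
  simp

end Dat

end Pool.Agent.Lib.MP_696deb_nt.Y2
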