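import Pool.Agent.Lib.MP_696deb_nt.Y2.HT1
import Pool.Agent.Lib.MP_696deb_nt.B5.HTd
import Pool.Agent.Lib.MP_696deb_nt.EA.K5

/-! Local heights on the curve `y ^ 2 = x ^ 3 - x`. -/

set_option autoImplicit false

open Complex WeierstrassCurve WeierstrassCurve.Affine Finset
open scoped Classical

namespace Pool.Agent.Lib.MP_696deb_nt.Y2.HT

open Pool.Agent.Shared.Weier Pool.Agent.B5 Q4

export Q4 (W1 P1)

section
variable {K L : Type*} [Field K] [Field L] {f : K →+* L} {W' : WeierstrassCurve K}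
  {W : WeierstrassCurve L} {u r s t : L}

theorem vc_b (h : VC f W' W u r s t) : u ^ 2 * f W'.b₂ = W.b₂ + 12 * r ∧
    u ^ 4 * f W'.b₄ = W.b₄ + r * W.b₂ + 6 * r ^ 2 ∧
    u ^ 6 * f W'.b₆ = W.b₆ + 2 * r * W.b₄ + r ^ 2 * W.b₂ + 4 * r ^ 3 ∧
    u ^ 8 * f W'.b₈ = W.b₈ + 3 * r * W.b₆ + 3 * r ^ 2 * W.b₄ + r ^ 3 * W.b₂ + 3 * r ^ 4 := by
  obtain ⟨-, h1, h2, h3, h4, h6⟩ := h
  simp only [b₂, b₄, b₆, b₈, map_add, map_sub, map_mul, map_pow, map_ofNat]
  refine ⟨?_, ?_, ?_, ?_⟩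
  · rw [show u ^ 2 * (f W'.a₁ ^ 2 + 4 * f W'.a₂) = (u * f W'.a₁) ^ 2 + 4 * (u ^ 2 * f W'.a₂) by
      ring, h1, h2]
    ring
  · rw [show u ^ 4 * (2 * f W'.a₄ + f W'.a₁ * f W'.a₃) = 2 * (u ^ 4 * f W'.a₄) +
      (u * f W'.a₁) * (u ^ 3 * f W'.a₃) by ring, h1, h3, h4]
    ring
  · rw [show u ^ 6 * (f W'.a₃ ^ 2 + 4 * f W'.a₆) = (u ^ 3 * f W'.a₃) ^ 2 + 4 * (u ^ 6 * f W'.a₆) by
      ring, h3, h6]
    ring
  · rw [show u ^ 8 * (f W'.a₁ ^ 2 * f W'.a₆ + 4 * f W'.a₂ * f W'.a₆ - f W'.a₁ * f W'.a₃ * f W'.a₄ +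
      f W'.a₂ * f W'.a₃ ^ 2 - f W'.a₄ ^ 2) = (u * f W'.a₁) ^ 2 * (u ^ 6 * f W'.a₆) +
      4 * (u ^ 2 * f W'.a₂) * (u ^ 6 * f W'.a₆) - (u * f W'.a₁) * (u ^ 3 * f W'.a₃) *
      (u ^ 4 * f W'.a₄) + (u ^ 2 * f W'.a₂) * (u ^ 3 * f W'.a₃) ^ 2 - (u ^ 4 * f W'.a₄) ^ 2 by
      ring, h1, h2, h3, h4, h6]
    ring

theorem vc_dup (h : VC f W' W u r s t) (x : K) :
    dup2 W (u ^ 2 * f x + r) = u ^ 6 * f (dup2 W' x) ∧
      dup1 W (u ^ 2 * f x + r) = u ^ 8 * f (dup1 W' x) + r * (u ^ 6 * f (dup2 W' x)) := by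
  obtain ⟨h2, h4, h6, h8⟩ := vc_b h
  simp only [dup1, dup2, map_add, map_sub, map_mul, map_pow, map_ofNat]
  constructor
  · linear_combination -(u ^ 2 * f x) ^ 2 * h2 - 2 * (u ^ 2 * f x) * h4 - h6
  · linear_combination -r * (u ^ 2 * f x) ^ 2 * h2 + ((u ^ 2 * f x) ^ 2 - 2 * r * (u ^ 2 * f x)) * h4 +
      (2 * (u ^ 2 * f x) - r) * h6 + h8

theorem log_max_le (v : AbsoluteValue L ℝ) (a b x : L) :
    Real.log (max 1 (v (a * x + b))) ≤ Real.log (max 1 (v x)) + Real.log (1 + v a + v b) := by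
  have h1 := v.nonneg a
  have h2 := v.nonneg b
  have h3 := le_max_left 1 (v x)
  have h4 := le_max_right 1 (v x)
  have h5 := v.add_le (a * x) b
  rw [map_mul] at h5
  rw [← Real.log_mul (by positivity) (by positivity)]
  exact Real.log_le_log (by positivity) (max_le (by nlinarith) (by nlinarith))

variable [DecidableEq K] [DecidableEq L]

/-- Local heights under a change of variables. -/
theorem neron_vc [W'.IsElliptic] (h : VC f W' W u r s t) {v : AbsoluteValue L ℝ} {Λ : W.toAffine.Point → ℝ}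
    (hΛ : NeronLocal v Λ) : NeronLocal (fun x => v (f x))
      fun P => Λ (h.hom P) - if P = 0 then 0 else 2 * Real.log (v u) := by
  obtain ⟨C, hC⟩ := hΛ.bdd
  have hu := h.hu
  have u0 := (v.pos hu).ne'
  refine ⟨⟨C + |2 * Real.log (v u)| + |Real.log (1 + v (u ^ 2) + v r)| +
    |Real.log (1 + v (u ^ 2)⁻¹ + v (-r / u ^ 2))|, fun P => ?_⟩, fun P => ?_⟩
  · have a1 := abs_nonneg (2 * Real.log (v u))
    have a2 := abs_nonneg (Real.log (1 + v (u ^ 2) + v r))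
    have a3 := abs_nonneg (Real.log (1 + v (u ^ 2)⁻¹ + v (-r / u ^ 2)))
    have k := abs_le.1 (hC (h.hom P))
    rcases P with _ | ⟨x, y, hP⟩
    · rw [← Point.zero_def] at k ⊢
      rw [map_zero] at k
      simp only [map_zero, xco_zero, if_true, sub_zero] at k ⊢
      rw [abs_le]
      constructor <;> linarith [k.1, k.2]
    have b1 := log_max_le v (u ^ 2) r (f x)
    have b2 := log_max_le v (u ^ 2)⁻¹ (-r / u ^ 2) (u ^ 2 * f x + r)
    rw [show (u ^ 2)⁻¹ * (u ^ 2 * f x + r) + -r / u ^ 2 = f x by field_simp; ring] at b2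
    rw [if_neg (Point.some_ne_zero hP), xco_some, abs_le]
    rw [h.hom_some, xco_some, ← h.hom_some hP] at k
    constructor <;> linarith [k.1, k.2, le_abs_self (2 * Real.log (v u)),
      neg_abs_le (2 * Real.log (v u)), le_abs_self (Real.log (1 + v (u ^ 2) + v r)),
      le_abs_self (Real.log (1 + v (u ^ 2)⁻¹ + v (-r / u ^ 2)))]
  · have k := hΛ.dup (h.hom P)
    rw [← map_nsmul] at k
    rcases P with _ | ⟨x, y, hP⟩
    · rw [← Point.zero_def] at k ⊢
      simpa using k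
    obtain ⟨d2, d1⟩ := vc_dup h x
    rw [h.hom_some, dupc_some, d1, d2, ← h.hom_some hP] at k
    rw [k, if_neg (Point.some_ne_zero hP), dupc_some]
    by_cases e : dup2 W' x = 0
    · rw [if_pos (two_nsmul_eq_zero hP e), if_pos e, if_pos (by simp [e]), e, map_zero, mul_zero,
        mul_zero, add_zero, map_mul, map_pow, Real.log_mul (pow_ne_zero _ u0)
        (v.pos ((map_ne_zero f).2 (dup_ne e))).ne', Real.log_pow]
      push_cast
      ring
    · obtain ⟨y', h', e'⟩ := two_nsmul_some hP e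
      have e0 := (map_ne_zero f).2 e
      rw [e', if_neg (Point.some_ne_zero h'), if_neg e, if_neg (mul_ne_zero (pow_ne_zero _ hu) e0),
        map_mul, map_pow, Real.log_mul (pow_ne_zero _ u0) (v.pos e0).ne', Real.log_pow]
      push_cast
      ring

end

instance ell (K : Type) [Field K] [CharZero K] : (W1 K).IsElliptic :=
  ⟨by
    rw [show (W1 K).Δ = 64 by norm_num [W1, Δ, b₂, b₄, b₆, b₈]]
    exact IsUnit.mk0 _ (by norm_num)⟩

theorem neron_vm {K L : Type} [Field K] [CharZero K] [Field L] (f : K →+* L) {u : L}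
    (hu : u ^ 4 = 1) {v : AbsoluteValue L ℝ} {Λ : P1 L → ℝ} (hΛ : NeronLocal v Λ) :
    NeronLocal (fun x => v (f x)) fun P : P1 K => Λ (vm f u P) := by
  have e : v u = 1 := (pow_eq_one_iff_of_nonneg (v.nonneg u) four_ne_zero).1
    (by rw [← map_pow, hu, map_one])
  simpa [e, vm, hu] using neron_vc (vc1 f hu) hΛ

/-- The archimedean local height. -/
noncomputable abbrev La : P1 ℂ → ℝ := lamA EA.isPer

theorem La_un {z : ℂ} (hz : z ∉ EA.LG.lattice) : La (EA.un z) = lamL EA.LG z := lamA_unif _ hz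

theorem La_vm {f : ℂ →+* ℂ} (hf : ∀ x, ‖f x‖ = ‖x‖) {u : ℂ} (hu : u ^ 4 = 1) (R : P1 ℂ) :
    La (vm f u R) = La R := by
  have := neron_vm f hu (v := NormedField.toAbsoluteValue ℂ) (neron_lamA EA.isPer)
  exact congrFun (NeronLocal.unique (funext hf ▸ this) (neron_lamA EA.isPer)) R

variable {v : AbsoluteValue ℂ ℝ} {R : P1 ℂ} {r : ℂ}

theorem intW (hv : IsNonarchimedean v) : IntW v (W1 ℂ) := by
  refine ⟨hv, ?_, ?_, ?_, ?_⟩ <;> simp [W1, b₂, b₄, b₆, b₈]
  exact na_nat hv 2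

/-- A model with good reduction everywhere. -/
theorem good (hv : IsNonarchimedean v) (hr : r ^ 4 - 2 * r ^ 2 + 5 = 0) :
    ∃ (W' : WeierstrassCurve ℂ) (φ : W'.toAffine.Point →+ P1 ℂ), IntW v W' ∧
      Function.Injective φ ∧ ∀ R ≠ 0, ∃ P, φ P = R ∧
      lamV v R = Real.log (hx v P * v 2) ∧ xco R - r = xco P * 2 := by
  obtain ⟨u, hu⟩ := IsAlgClosed.exists_pow_nat_eq (2 : ℂ) two_pos
  obtain ⟨a, ha⟩ : ∃ a, r ^ 2 = 1 + 2 * a := ⟨(r ^ 2 - 1) / 2, by ring⟩
  have a2 : a ^ 2 = -1 := by linear_combination (hr - (r ^ 2 + 2 * a - 1) * ha) / 4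
  have va : v a = 1 := (pow_eq_one_iff_of_nonneg (v.nonneg a) two_ne_zero).1
    (by rw [← map_pow, a2, v.map_neg, map_one])
  have v2 := na_nat hv 2
  have vr : v r ≤ 1 := (pow_le_one_iff_of_nonneg (v.nonneg r) two_ne_zero).1 (by
    rw [← map_pow, ha]
    exact na_add hv v.map_one.le (by simpa [va] using v2))
  let W' : WeierstrassCurve ℂ := ⟨0, 3 * r / 2, 0, (1 + 3 * a) / 2, r * a / 4⟩
  have h : VC (RingHom.id ℂ) W' (W1 ℂ) u r 0 0 := by
    refine ⟨fun e => by simp [e] at hu, by simp [W', W1], ?_, by simp [W', W1], ?_, ?_⟩ <;>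
      simp only [W', W1, RingHom.id_apply]
    · linear_combination (3 * r / 2) * hu
    · linear_combination (1 + 3 * a) / 2 * (u ^ 2 + 2) * hu - 3 * ha
    · linear_combination r * a / 4 * (u ^ 4 + 2 * u ^ 2 + 4) * hu - r * ha
  have c2 : W'.b₂ = 6 * r := by simp only [W', b₂]; ring
  have c4 : W'.b₄ = 1 + 3 * a := by simp only [W', b₄]; ring
  have c6 : W'.b₆ = r * a := by simp only [W', b₆]; ring
  have c8 : W'.b₈ = -1 := by
    simp only [W', b₈]
    linear_combination (3 * a / 2) * ha + (3 / 4) * a2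
  have cd : W'.Δ = 1 := by
    rw [Δ, c2, c4, c6, c8]
    linear_combination (36 + 54 * a + 135 * a ^ 2) * ha + (54 * a + 27) * a2
  have : W'.IsElliptic := ⟨cd ▸ isUnit_one⟩
  have i : IntW v W' := ⟨hv, by simpa [c2] using mul_le_one₀ (na_nat hv 6) (v.nonneg r) vr,
    c4 ▸ na_add hv v.map_one.le (by simpa [va] using na_nat hv 3), by simpa [c6, va] using vr,
    by simp [c8]⟩
  refine ⟨W', h.hom, i, h.hom_injective, ?_⟩
  rintro (_ | ⟨x, y, k⟩) hR
  · exact absurd rfl hR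
  obtain ⟨_ | ⟨x', y', k'⟩, e⟩ := h.mem_range k (x := (x - r) / u ^ 2) (y := y / u ^ 3)
    (by have := h.hu; simp only [RingHom.id_apply]; field_simp; ring)
    (by have := h.hu; simp only [RingHom.id_apply]; field_simp; ring)
  · exact absurd e.symm (Point.some_ne_zero _)
  have e1 := congrFun ((neron_vc h (intW hv).neron).unique i.neron) (.some x' y' k')
  rw [e, if_neg (Point.some_ne_zero _), i.lam_good (by rw [cd, map_one]), sub_eq_iff_eq_add,
    ← Nat.cast_ofNat, ← Real.log_pow, ← map_pow, hu,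
    ← Real.log_mul (by positivity) (v.pos two_ne_zero).ne'] at e1
  refine ⟨_, e, e1, ?_⟩
  rw [xco_some, ← (Point.some.inj e).1, hu, mul_comm]
  simp

theorem root (a : ℂ) (ha : (a - 1) ^ 2 = -4) : ∃ r, r ^ 4 - 2 * r ^ 2 + 5 = 0 ∧ a * r ^ 2 = 5 := by
  obtain ⟨r, hr⟩ := IsAlgClosed.exists_pow_nat_eq (2 - a) two_pos
  exact ⟨r, by linear_combination (r ^ 2 - a) * hr + ha, by linear_combination a * hr - ha⟩

/-- The local height at the finite places. -/
theorem lam_all (hv : IsNonarchimedean v) (hr : r ^ 4 - 2 * r ^ 2 + 5 = 0) (hR : R ≠ 0) :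
    lamV v R = Real.log (max (v (xco R - r)) (v 2)) := by
  obtain ⟨W', φ, -, -, h⟩ := good hv hr
  obtain ⟨P, -, e1, e2⟩ := h R hR
  rw [e1, e2, map_mul, hx, max_mul_of_nonneg _ _ (v.nonneg 2), one_mul, max_comm]

theorem lam_sq (hv : IsNonarchimedean v) (hr : r ^ 4 - 2 * r ^ 2 + 5 = 0) (hR : R ≠ 0) :
    2 * lamV v R = Real.log (max (v 4) (v (xco R ^ 2 - r ^ 2))) := by
  have h1 := lam_all hv hr hR
  have h2 := lam_all (r := -r) hv (by linear_combination hr) hR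
  have p := v.pos (two_ne_zero (α := ℂ))
  have e := Real.log_injOn_pos (lt_max_of_lt_right p) (lt_max_of_lt_right p) (h1.symm.trans h2)
  rw [two_mul, h1, ← Real.log_mul (by positivity) (by positivity),
    show xco R ^ 2 - r ^ 2 = (xco R - r) * (xco R - -r) by ring, show (4 : ℂ) = 2 * 2 by norm_num,
    map_mul, map_mul]
  congr 1
  rcases le_or_gt (v (xco R - r)) (v 2) with k | k
  · rw [max_eq_right k] at e ⊢
    exact (max_eq_left (mul_le_mul k (e ▸ le_max_left _ _) (v.nonneg _) p.le)).symm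
  · rw [max_eq_left k.le] at e ⊢
    rw [(max_eq_iff.1 e.symm).elim (·.1) fun a => absurd a.1 k.ne, max_eq_right (by nlinarith)]

theorem lam_min (hv : IsNonarchimedean v) {S : P1 ℂ} (hR : R ≠ 0) (hS : S ≠ 0) (h0 : R - S ≠ 0) :
    min (lamV v R) (lamV v S) ≤ lamV v (R - S) := by
  obtain ⟨r, hr, -⟩ := root (1 + 2 * I) (by linear_combination 4 * I_sq)
  obtain ⟨W', φ, i, j, h⟩ := good hv hr
  obtain ⟨P, rfl, a1, -⟩ := h R hR
  obtain ⟨Q, rfl, b1, -⟩ := h S hS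
  obtain ⟨T, c0, c1, -⟩ := h _ h0
  obtain rfl : T = P - Q := j (by rw [c0, map_sub])
  have p := v.pos (two_ne_zero (α := ℂ))
  have k : ∀ X : W'.toAffine.Point, Real.log (hx v (P - Q) * v 2) < Real.log (hx v X * v 2) →
      Big v (hx v (P - Q)) X := fun X e => .inr ((lt_max_iff.1 (lt_of_mul_lt_mul_right
    ((Real.log_lt_log_iff (mul_pos (hx_pos _) p) (mul_pos (hx_pos _) p)).1 e) p.le)).resolve_left
      (one_le_hx _).not_gt)
  by_contra! e
  rw [a1, b1, c1, lt_min_iff] at e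
  rcases i.big_sub (one_le_hx _) (k P e.1) (k Q e.2) with e | e
  · exact h0 (by rw [← c0, e, map_zero])
  · exact e.not_ge (le_max_right _ _)

theorem lam_vm (hv : IsNonarchimedean v) {u : ℂ} (hu : u ^ 4 = 1) (R : P1 ℂ) :
    lamV v (vm (RingHom.id ℂ) u R) = lamV v R :=
  congrFun ((neron_vm (RingHom.id ℂ) hu (intW hv).neron).unique (intW hv).neron) R

theorem xco_ne {S : P1 ℂ} (h : xco R ≠ xco S) : R - S ≠ 0 ∧ R - -S ≠ 0 :=
  ⟨fun e => h (by rw [sub_eq_zero.1 e]), fun e => h (by rw [sub_eq_zero.1 e, xco_neg])⟩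

/-- The local error term. -/
noncomputable def Ev (v : AbsoluteValue ℂ ℝ) (a T T' : ℂ) : ℝ :=
  Real.log (max (v (4 * a)) (max (v (T - 5)) (v (T' - 5))) / v (T - T'))

/-- The bound for the local terms. -/
theorem lam_four (hv : IsNonarchimedean v) {a : ℂ} (ha : (a - 1) ^ 2 = -4) {S : P1 ℂ} (hR : R ≠ 0)
    (hS : S ≠ 0) (h : xco R ^ 2 ≠ xco S ^ 2) :
    |lamV v (R - S) - lamV v (R + S)| ≤ 2 * Ev v a (a * xco R ^ 2) (a * xco S ^ 2) := by
  obtain ⟨r, hr, h5⟩ := root a ha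
  have a0 : a ≠ 0 := fun e => by simp [e] at h5
  obtain ⟨S', e⟩ : ∃ S', S' = vm (RingHom.id ℂ) I S := ⟨_, rfl⟩
  have s0 : S' ≠ 0 := e ▸ (map_ne_zero_iff _ (vm_inj I_pow_four)).2 hS
  have s1 : xco S' = -xco S := by simp [e, (EA.xco_vm _ I_pow_four S).1]
  have s2 : lamV v S' = lamV v S := e ▸ lam_vm hv I_pow_four S
  have n1 : xco R ≠ xco S := fun k => h (by rw [k])
  have n2 : xco R ≠ xco S' := fun k => h (by rw [k, s1, neg_sq])
  have i := intW hv
  have p1 := i.par' hR hS n1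
  have p2 := i.par' hR s0 n2
  have m1 := lam_min hv hR hS (xco_ne n1).1
  have m2 := lam_min hv hR (neg_ne_zero.2 hS) (xco_ne n1).2
  have m3 := lam_min hv hR s0 (xco_ne n2).1
  have m4 := lam_min hv hR (neg_ne_zero.2 s0) (xco_ne n2).2
  rw [i.lam_neg, sub_neg_eq_add] at m2 m4
  rw [s2] at p2 m3 m4
  have q : Ev v a (a * xco R ^ 2) (a * xco S ^ 2) = max (2 * lamV v R) (2 * lamV v S) -
      (Real.log (v (xco R - xco S)) + Real.log (v (xco R - xco S'))) := by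
    have b1 := v.pos (sub_ne_zero.2 n1)
    have b2 := v.pos (sub_ne_zero.2 n2)
    have b3 := v.pos (show (4 : ℂ) ≠ 0 by norm_num)
    have b4 : MonotoneOn Real.log (Set.Ioi 0) := Real.strictMonoOn_log.monotoneOn
    rw [Ev, lam_sq hv hr hR, lam_sq hv hr hS, ← b4.map_max (lt_max_of_lt_left b3)
      (lt_max_of_lt_left b3), max_max_max_comm, max_self, ← Real.log_mul b1.ne' b2.ne',
      ← Real.log_div (by positivity) (by positivity), ← h5, ← mul_sub, ← mul_sub, ← mul_sub,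
      mul_comm 4, map_mul, map_mul, map_mul, map_mul, ← mul_max_of_nonneg _ _ (v.nonneg a),
      ← mul_max_of_nonneg _ _ (v.nonneg a), mul_div_mul_left _ _ (v.pos a0).ne', ← map_mul, s1]
    ring_nf
  rw [q, abs_le]
  rcases le_total (lamV v R) (lamV v S) with k | k
  · rw [min_eq_left k] at m1 m2 m3 m4
    rw [max_eq_right (by linarith)]
    constructor <;> linarith
  · rw [min_eq_right k] at m1 m2 m3 m4
    rw [max_eq_left (by linarith)]
    constructor <;> linarith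

end Pool.Agent.Lib.MP_696deb_nt.Y2.HT
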