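import Pool.Agent.Lib.MP_696deb_nt.Y2.HT2

/-! The canonical height on the curve `y ^ 2 = x ^ 3 - x` and its local decomposition. -/

set_option autoImplicit false

open Complex WeierstrassCurve WeierstrassCurve.Affine Finset Height NumberField
open scoped Classical PeriodPair

namespace Pool.Agent.Lib.MP_696deb_nt.Y2.HT

open Pool.Agent.Shared.Weier Pool.Agent.B5 Q4 EA Sm

export EA (jc)

theorem vcq : VC (RingHom.id ℂ) (W1 ℂ) ((W1 ℚ).baseChange ℂ) 1 0 0 0 := by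
  constructor <;> simp [W1, WeierstrassCurve.baseChange]

theorem vcb : VC (RingHom.id ℂ) ((W1 ℚ).baseChange ℂ) (W1 ℂ) 1 0 0 0 := by
  constructor <;> simp [W1, WeierstrassCurve.baseChange]

theorem zw : ZW (W1 ℚ) := ⟨⟨0, 0, 0, -1, 0⟩, by ext <;> simp [W1]⟩

theorem vcb_vcq (R : P1 ℂ) : vcb.hom (vcq.hom R) = R := by
  rcases R with _ | ⟨x, y, h⟩
  · rfl
  · exact pt_ext (by simp) (by simp)

theorem pmap_vcq (f : ℂ →+* ℂ) (R : P1 ℂ) : vcb.hom (pmap f (vcq.hom R)) = vm f 1 R := by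
  rcases R with _ | ⟨x, y, h⟩
  · exact (map_zero _).symm
  · obtain ⟨h', e⟩ := vm_some (f := f) (one_pow 4) h
    exact .trans (pt_ext (by simp) (by simp)) e.symm

theorem co_vcq (R : P1 ℂ) : xco (vcq.hom R) = xco R ∧ yco (vcq.hom R) = yco R := by
  rcases R with _ | ⟨x, y, h⟩
  · exact ⟨rfl, rfl⟩
  · simp [VC.hom_some]

/-- The algebraic points inside the complex points of the rational model. -/
noncomputable def tc : A →+ Alg (W1 ℚ) :=
  (vcq.hom.comp cp).codRestrict _ fun P => by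
    have h := xco_vm jc (one_pow 4) P
    have k : ∀ x, IsAlgebraic ℚ (jc x) := fun x =>
      (Algebra.IsAlgebraic.isAlgebraic x).algHom jc.toRatAlgHom
    refine ⟨?_, ?_⟩
    · rw [AddMonoidHom.comp_apply, (co_vcq _).1, cp, h.1, one_pow, one_mul]
      exact k _
    · rw [AddMonoidHom.comp_apply, (co_vcq _).2, cp, h.2, one_pow, one_mul]
      exact k _

theorem tc_val (P : A) : (tc P).1 = vcq.hom (cp P) := rfl

/-- The canonical height. -/
noncomputable def ht (P : A) : ℝ := hhat (tc P).1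

theorem tor_of_ht {P : A} (h : ht P = 0) : IsOfFinAddOrder P := by
  have := isOfFinAddOrder_of_hpair (tc P).2 (by rw [hpair_self (tc P).2, ← ht, h, mul_zero])
  rwa [tc_val, vcq.hom_injective.isOfFinAddOrder_iff, cp_inj.isOfFinAddOrder_iff] at this

theorem ht_JJ (P : A) : ht (JJ P) = ht P := by
  have k : ∀ x : Qb, absLogHeight₁ (jc (-x)) = absLogHeight₁ (jc x) := fun x => by
    obtain ⟨H, _, h, -⟩ := exists_field (W := W1 ℚ) Set.finite_empty (by simp)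
      (Set.finite_singleton (jc x)) (by
        simpa using (Algebra.IsAlgebraic.isAlgebraic x).algHom jc.toRatAlgHom)
    have : NumberField H := {}
    have e := absLogHeight₁_ringHom H.val.toRingHom (-⟨_, h _ rfl⟩)
    rw [logHeight₁_neg, ← absLogHeight₁_ringHom H.val.toRingHom, map_neg] at e
    rw [map_neg]
    exact e
  have e : ∀ Q : A, xco (tc Q).1 = jc (xco Q) := fun Q => by
    rw [tc_val, (co_vcq _).1, cp, (xco_vm jc (one_pow 4) Q).1, one_pow, one_mul]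
  simp only [ht, hhat, tate, ← AddSubgroupClass.coe_nsmul, ← map_nsmul, e]
  simp only [JJ, (xco_vm _ II_four _).1, pow_two, II_mul, RingHom.id_apply, neg_one_mul, k]

theorem hb_smul (b : O) (P : A) : hbil (tc P) (tc (b • P)) = 2 * b.re * ht P := by
  have e : ∀ P Q : A, hbil (tc P) (tc Q) = ht (P + Q) - ht P - ht Q := fun P Q => by
    rw [ht, map_add]
    rfl
  have h1 : hbil (tc (JJ P)) (tc (JJ (JJ P))) = hbil (tc P) (tc (JJ P)) := by
    rw [e, e, ← map_add, ht_JJ, ht_JJ (JJ P), ht_JJ]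
  rw [JJ_JJ, map_neg, map_neg, hbil_apply, hpair_comm, ← hbil_apply] at h1
  rw [smul_def, map_add, map_add, map_zsmul, map_zsmul, map_zsmul, map_zsmul,
    show hbil (tc P) (tc (JJ P)) = 0 by linarith, hbil_apply, hpair_self (tc P).2, ht]
  simp
  ring

theorem restr {σ : ℂ ≃+* ℂ} (h : σ I = I) :
    ∃ g : GQ, g II = II ∧ (σ : ℂ →+* ℂ).comp jc = jc.comp g := by
  let _ : Algebra Qb ℂ := jc.toAlgebra
  have : IsScalarTower ℚ Qb ℂ := IsScalarTower.of_algebraMap_eq fun q => (map_ratCast jc q).symm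
  let t : ℂ ≃ₐ[ℚ] ℂ := AlgEquiv.ofRingEquiv (f := σ) fun q => by simp
  have k : ∀ x, jc (t.restrictNormal Qb x) = σ (jc x) := AlgEquiv.restrictNormal_commutes t Qb
  exact ⟨t.restrictNormal Qb, jc.injective (by rw [k, jc_II, map_neg, h]),
    RingHom.ext fun x => (k x).symm⟩

variable {ι κ : Type} {p : ℕ} {B G : ℝ}

theorem dec0 {s : Finset ι} {n : ι → ℤ} {R : ι → A} (hG : ∀ g : GQ, g II = II →
      ∑ i ∈ s, n i * La (cp (vm (g : Qb →+* Qb) 1 (R i))) = G) (hp : p.Prime) (hB0 : 0 ≤ B)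
    (hB : ∀ v : AbsoluteValue ℂ ℝ, IsNonarchimedean v → v p < 1 →
      |∑ i ∈ s, n i * lamV v (cp (R i))| ≤ B * -Real.log (v p)) :
    ∃ ρ : ℚ, |(ρ : ℝ)| ≤ B ∧ ∑ i ∈ s, n i * ht (R i) - G - ρ * Real.log p ∈ LogS p := by
  have h1 : ∀ σ : ℂ ≃+* ℂ, σ I = I → ∑ i ∈ s, n i * La (vm (σ : ℂ →+* ℂ) 1 (cp (R i))) = G :=
    fun σ h => by
      obtain ⟨g, a, b⟩ := restr h
      simp only [← hG g a, cp, vm_comp (one_pow 4) (one_pow 4), b, map_one]
  refine G5.htd_dec (H := 1) (Λ := fun P => La (vcb.hom P)) zw (by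
    have := neron_vc vcb (v := NormedField.toAbsoluteValue ℂ) (neron_lamA isPer)
    simp only [map_one, Real.log_one, mul_zero, ite_self, sub_zero] at this
    exact this)
    (fun i _ => (tc (R i)).2) one_ne_zero (fun σ => ?_) hp hB0 fun v i hv => ?_
  · simp only [map_one, norm_one, Real.log_one, zero_add, tc_val, pmap_vcq]
    have e : σ I * σ I = I * I := by rw [← map_mul, I_mul_I, map_neg, map_one]
    rcases mul_self_eq_mul_self_iff.1 e with e | e
    · exact h1 σ e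
    rw [← h1 (σ.trans conjAe.toRingEquiv) (by simp [e])]
    refine sum_congr rfl fun i _ => ?_
    rw [← La_vm (f := starRingEnd ℂ) norm_conj (one_pow 4), vm_comp (one_pow 4) (one_pow 4),
      map_one, mul_one]
    rfl
  · have e := (neron_vc vcq i.neron).unique (intW i.na).neron
    simp only [map_one, Real.log_one, mul_zero, ite_self, sub_zero] at e
    simpa only [map_one, Real.log_one, zero_add, tc_val, congrFun e] using hB v i.na hv

/-- Families of points that the Galois group permutes up to a common rotation. -/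
def Gl (s : Finset ι) (t : Finset κ) (X : ι → A) (Y : κ → A) : Prop :=
  ∀ g : GQ, g II = II → ∃ u : Qb, u ^ 4 = 1 ∧
    (∀ f : A → ℝ, ∑ i ∈ s, f (vm (g : Qb →+* Qb) u (X i)) = ∑ i ∈ s, f (X i)) ∧
      ∀ f : A → ℝ, ∑ j ∈ t, f (vm (g : Qb →+* Qb) u (Y j)) = ∑ j ∈ t, f (Y j)

/-- The decomposition of the height. -/
theorem dec {s : Finset ι} {t : Finset κ} {X : ι → A} {Y : κ → A} {x : ι → ℂ} {y : κ → ℂ}
    {a : ℂ} {b : O} (ha : (a - 1) ^ 2 = -4) (hx : ∀ i ∈ s, cp (X i) = EA.un (x i))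
    (hy : ∀ j ∈ t, cp (Y j) = EA.un (y j)) (x0 : ∀ i ∈ s, X i ≠ 0) (y0 : ∀ j ∈ t, Y j ≠ 0)
    (hne : ∀ i ∈ s, ∀ j ∈ t, ℘[LG] (x i) ^ 2 ≠ ℘[LG] (y j) ^ 2) (hG : Gl s t X Y)
    (hs : ∑ j ∈ t, Y j = b • ∑ i ∈ s, X i) (hp : p.Prime) (hB0 : 0 ≤ B)
    (hB : ∀ v : AbsoluteValue ℂ ℝ, IsNonarchimedean v → v p < 1 → ∑ i ∈ s, ∑ j ∈ t,
      Ev v a (a * ℘[LG] (x i) ^ 2) (a * ℘[LG] (y j) ^ 2) ≤ B * -Real.log (v p)) :
    ∃ ρ : ℚ, |(ρ : ℝ)| ≤ 2 * B ∧ -4 * b.re * ht (∑ i ∈ s, X i) -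
      ∑ i ∈ s, ∑ j ∈ t, (lamL LG (x i - y j) - lamL LG (x i + y j)) - ρ * Real.log p ∈ LogS p := by
  have c : ∀ {P : A} {z : ℂ}, cp P = EA.un z → P ≠ 0 → xco (cp P) = ℘[LG] z := fun h h0 => by
    rw [← (cp_co h h0).1, cp, (xco_vm jc (one_pow 4) _).1, one_pow, one_mul]
  have S : ∀ F : A → ℝ, ∑ k ∈ (s ×ˢ t).disjSum (s ×ˢ t),
      ((Sum.elim (fun _ => 1) (fun _ => -1) k : ℤ) : ℝ) *
        F (Sum.elim (fun k : ι × κ => X k.1 - Y k.2) (fun k => X k.1 + Y k.2) k) =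
      ∑ i ∈ s, ∑ j ∈ t, (F (X i - Y j) - F (X i + Y j)) := fun F => by
    simp [sum_disjSum, sum_product, sub_eq_add_neg, sum_add_distrib]
  refine (dec0 (s := (s ×ˢ t).disjSum (s ×ˢ t))
    (n := Sum.elim (fun _ => 1) fun _ => -1)
    (R := Sum.elim (fun k : ι × κ => X k.1 - Y k.2) fun k => X k.1 + Y k.2) (B := 2 * B)
    (G := ∑ i ∈ s, ∑ j ∈ t, (lamL LG (x i - y j) - lamL LG (x i + y j))) (fun g hg => ?_) hp
    (by positivity) fun v hv hv' => ?_).imp fun ρ ⟨h1, h2⟩ => ⟨h1, ?_⟩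
  rotate_right
  · rw [S ht] at h2
    convert h2 using 3
    have e := hb_smul b (∑ i ∈ s, X i)
    rw [← hs] at e
    simp only [map_sum, AddMonoidHom.finsetSum_apply] at e
    rw [show (-4 : ℝ) * b.re * ht (∑ i ∈ s, X i) = -2 * (2 * b.re * ht (∑ i ∈ s, X i)) by ring,
      ← e, sum_comm, mul_sum]
    refine sum_congr rfl fun i _ => ?_
    rw [mul_sum]
    refine sum_congr rfl fun j _ => ?_
    rw [ht, ht, map_sub, map_add, AddSubgroupClass.coe_sub, hhat_sub (tc _).2 (tc _).2, hbil_apply,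
      hpair, polar, AddSubgroup.coe_add]
    ring
  · obtain ⟨u, hu, k1, k2⟩ := hG g hg
    have e : ∀ P : A, La (cp (vm (g : Qb →+* Qb) 1 P)) = La (cp (vm (g : Qb →+* Qb) u P)) :=
      fun P => by
        have u4 : jc u ^ 4 = 1 := by rw [← map_pow, hu, map_one]
        rw [← La_vm (f := RingHom.id ℂ) (fun _ => rfl) u4, cp, vm_comp (one_pow 4) (one_pow 4),
          vm_comp hu (one_pow 4), vm_comp (by simp) u4]
        simp
    rw [S fun P => La (cp (vm (g : Qb →+* Qb) 1 P))]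
    simp only [e, map_sub (vm (g : Qb →+* Qb) u), map_add (vm (g : Qb →+* Qb) u)]
    rw [k1 fun P => ∑ j ∈ t, (La (cp (P - vm (g : Qb →+* Qb) u (Y j))) -
      La (cp (P + vm (g : Qb →+* Qb) u (Y j))))]
    refine sum_congr rfl fun i hi => ?_
    rw [k2 fun Q => La (cp (X i - Q)) - La (cp (X i + Q))]
    refine sum_congr rfl fun j hj => ?_
    have n := xco_ne (R := cp (X i)) (S := cp (Y j)) fun k => hne i hi j hj (by
      rw [← c (hx i hi) (x0 i hi), k, c (hy j hj) (y0 j hj)])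
    rw [sub_neg_eq_add, hx i hi, hy j hj, ← map_sub, ← map_add] at n
    rw [map_sub, map_add, hx i hi, hy j hj, ← map_sub, ← map_add, La_un (mt un_eq_zero.2 n.1),
      La_un (mt un_eq_zero.2 n.2)]
  · rw [S fun P => lamV v (cp P), mul_assoc]
    refine ((abs_sum_le_sum_abs _ _).trans ?_).trans
      (mul_le_mul_of_nonneg_left (hB v hv hv') two_pos.le)
    rw [mul_sum]
    refine sum_le_sum fun i hi => (abs_sum_le_sum_abs _ _).trans ?_
    rw [mul_sum]
    refine sum_le_sum fun j hj => ?_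
    rw [← c (hx i hi) (x0 i hi), ← c (hy j hj) (y0 j hj), map_sub, map_add]
    exact lam_four hv ha ((map_ne_zero_iff _ cp_inj).2 (x0 i hi))
      ((map_ne_zero_iff _ cp_inj).2 (y0 j hj))
      (by rw [c (hx i hi) (x0 i hi), c (hy j hj) (y0 j hj)]; exact hne i hi j hj)

/-- The growth argument at one prime. -/
theorem mem_of_growth (hp : p.Prime) {h C : ℝ} {k : ℕ} (H : ∀ s : ℕ, ∃ e ρ : ℚ,
    (p : ℝ) ^ s ≤ |(e : ℝ)| ∧ |(ρ : ℝ)| ≤ C * (s + 1) ^ k ∧ e * h - ρ * Real.log p ∈ LogS p) :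
    h ∈ LogS p := by
  have p1 : (1 : ℝ) < p := by exact_mod_cast hp.one_lt
  choose e ρ h1 h2 h3 using H
  have e0 : ∀ s, 0 < |(e s : ℝ)| := fun s => (pow_pos (one_pos.trans p1) s).trans_le (h1 s)
  have e1 : ∀ s, e s ≠ 0 := fun s a => by simpa [a] using e0 s
  have a : ∀ s, h - (ρ s / e s : ℚ) * Real.log p ∈ LogS p := fun s =>
    LogS.of_mul (e1 s) (by
      have := abs_pos.1 (e0 s)
      convert h3 s using 1
      push_cast
      field_simp)
  have b : ∀ s, ρ s / e s = ρ 0 / e 0 := fun s => by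
    by_contra hx
    have k := LogS.rat_mul (ρ s / e s - ρ 0 / e 0)⁻¹ (sub_mem (a 0) (a s))
    rw [sub_sub_sub_cancel_left, ← sub_mul, ← mul_assoc, ← Rat.cast_sub, ← Rat.cast_mul,
      inv_mul_cancel₀ (sub_ne_zero.2 hx), Rat.cast_one, one_mul] at k
    exact linInd_log.notMem_span_image (s := {q | q.1 ≠ p}) (x := ⟨p, hp⟩) (fun e => e rfl) k
  have t := ((tendsto_pow_const_div_const_pow_of_one_lt k p1).comp
    (Filter.tendsto_add_atTop_nat 1)).const_mul (C * p)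
  rw [mul_zero] at t
  have c : |((ρ 0 / e 0 : ℚ) : ℝ)| ≤ 0 := ge_of_tendsto' t fun s => by
    rw [← b s, Rat.cast_div, abs_div]
    refine (div_le_div₀ ((abs_nonneg _).trans (h2 s)) (h2 s) (by positivity) (h1 s)).trans_eq ?_
    simp only [Function.comp, pow_succ, Nat.cast_add, Nat.cast_one]
    field_simp
  simpa [abs_nonpos_iff.1 c] using a 0

/-- The vanishing criterion. -/
theorem zero_of {h : ℝ} (H : ∀ p : ℕ, p.Prime → (∃ e : ℚ, e ≠ 0 ∧ e * h ∈ LogS p) ∨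
    ∃ (C : ℝ) (k : ℕ), ∀ s : ℕ, ∃ e ρ : ℚ, (p : ℝ) ^ s ≤ |(e : ℝ)| ∧
      |(ρ : ℝ)| ≤ C * (s + 1) ^ k ∧ e * h - ρ * Real.log p ∈ LogS p) : h = 0 :=
  eq_zero_of_mem_LogS fun p hp => (H p hp).elim (fun ⟨_, a, b⟩ => LogS.of_mul a b)
    fun ⟨_, _, a⟩ => mem_of_growth hp a

end Pool.Agent.Lib.MP_696deb_nt.Y2.HT
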