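import Pool.Agent.Lib.MP_696deb_nt.Y2.HT3
import Pool.Agent.Lib.MP_696deb_nt.Y2.C3
import Pool.Agent.Lib.MP_696deb_nt.Y2.C5
import Pool.Agent.Lib.MP_696deb_nt.Y2.N7
import Pool.Agent.Lib.MP_696deb_nt.Y2.M6

/-! The decomposition of the height for families of points with complex multiplication. -/

set_option autoImplicit false

open scoped Classical
open Complex Finset PeriodPair Pool.Agent.Shared.Weier

namespace Pool.Agent.Lib.MP_696deb_nt.Y2

open EA HT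
open Sm (Qb GQ)
open Q4 (A II vm zq Tw)
open QF (G ip)

variable {ι κ : Type} {F : Fam ι} {F' : Fam κ} {d d' M N N' p : ℕ} {t : Tw} {φ : G → G} {B : ℝ}

theorem ht4_kl {z : ℂ} (h : z ∉ LG.lattice) : Real.log ‖kl z‖ = -lamL LG z / 2 := by
  rw [kl, norm_mul, Real.log_mul (norm_ne_zero_iff.2 (sig_ne h))
    (norm_ne_zero_iff.2 (exp_ne_zero _)), norm_exp, Real.log_exp, lamL, neg_re, div_ofNat_re]
  ring

theorem ht4_Gr {x y : ℂ} (h1 : x - y ∉ LG.lattice) (h2 : x + y ∉ LG.lattice) :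
    2 * (Gr x y).re = -(lamL LG (x - y) - lamL LG (x + y)) := by
  have e : ‖kl (-x - y)‖ = ‖kl (x + y)‖ := by
    rw [show -x - y = -(x + y) by ring, kl, kl, sig_neg, map_neg, neg_mul_neg, norm_mul, norm_mul,
      norm_neg]
  have i0 : ip 0 = 1 := by decide
  have i1 : star (ip 1) = ⟨0, -1⟩ := by decide
  have i2 : ip 2 = -1 := by decide
  have i3 : star (ip 3) = ⟨0, 1⟩ := by decide
  rw [Gr, show (univ : Finset (ZMod 4)) = {0, 1, 2, 3} by decide, sum_insert (by decide),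
    sum_insert (by decide), sum_insert (by decide), sum_singleton, i0, i1, i2, i3]
  simp [GaussianInt.toComplex_def', e, ht4_kl h1, ht4_kl h2]
  ring

theorem Fam.Ok.wp (h : F.Ok d) (j : ι) : (1 + 2 * I) * ℘[LG] (F.z j) ^ 2 = tt (tb (F.w j)) := by
  rw [← tt_wp (tb_pos (h.dpos j)), ← (cp_co (h.cp_pt j) (h.pt_ne j)).1,
    ← (cp_co (pt_spec (h.dpos j)) (Y2.pt_ne (h.dpos j))).1, Fam.pt, (co_smul (h.four j) _).1,
    ← map_pow, ← map_pow EA.jc, mul_pow, ← pow_mul, ← map_pow, h.four j, map_one, one_mul]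

variable [Fintype ι] [Fintype κ]

theorem Fam.Ok.cp_sum (h : F.Ok d) : cp (∑ j, F.pt j) = un (∑ j, F.z j) := by
  simp only [map_sum, h.cp_pt]

theorem Fam.Ok.tors (h : F.Ok d) (h0 : ht (∑ j, F.pt j) = 0) :
    ∃ n : ℕ, 0 < n ∧ n * ∑ j, F.z j ∈ LG.lattice := by
  obtain ⟨n, hn, e⟩ := isOfFinAddOrder_iff_nsmul_eq_zero.1 (tor_of_ht h0)
  exact ⟨n, hn, by rw [← un_eq_zero, ← nsmul_eq_mul, map_nsmul, ← h.cp_sum, ← map_nsmul, e,
    map_zero]⟩

theorem fam_dec (hL : Lk t M φ) (ok : F.Ok d) (ok' : F'.Ok d') (hN : 0 < N) (hN' : 0 < N')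
    (st : F.Stable N fun a => φ a * eb a) (st' : F'.Stable N' fun a => φ a * eb a)
    (hne : ∀ j k, tt (tb (F.w j)) ≠ tt (tb (F'.w k))) {b : G} (hs : ∑ k, F'.z k = b * ∑ j, F.z j)
    (hp : p.Prime) (hB0 : 0 ≤ B) (hB : ∀ v : AbsoluteValue ℂ ℝ, IsNonarchimedean v → v p < 1 →
      ∑ j, ∑ k, ex v (1 + 2 * I) (tt (tb (F.w j))) (tt (tb (F'.w k))) ≤ B * -Real.log (v p)) :
    ∃ ρ : ℚ, |(ρ : ℝ)| ≤ 2 * B ∧
      -4 * b.re * ht (∑ j, F.pt j) + 2 * (F.arch F').re - ρ * Real.log p ∈ LogS p := by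
  have n : ∀ j k, ℘[LG] (F.z j) ^ 2 ≠ ℘[LG] (F'.z k) ^ 2 := fun j k e =>
    hne j k (by rw [← ok.wp, ← ok'.wp, e])
  refine (dec (s := univ) (t := univ) (a := 1 + 2 * I) (b := b) (by linear_combination 4 * I_sq)
    (fun j _ => ok.cp_pt j) (fun k _ => ok'.cp_pt k) (fun j _ => ok.pt_ne j)
    (fun k _ => ok'.pt_ne k) (fun j _ k _ => n j k) (fun g hg => ?_)
    (cp_inj (by rw [ok'.cp_sum, cp_smul b ok.cp_sum, hs])) hp hB0 fun v hv h => ?_).imp
      fun ρ ⟨h1, h2⟩ => ⟨h1, ?_⟩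
  · obtain ⟨s, hs⟩ := Fam.gal hL ok hN st hg
    obtain ⟨s', hs'⟩ := Fam.gal hL ok' hN' st' hg
    exact ⟨zq t.ρ g, Q4.zq_four t.ne t.pw g,
      fun f => (sum_congr rfl fun j _ => congrArg f (hs j)).trans (s.sum_comp fun j => f (F.pt j)),
      fun f => (sum_congr rfl fun j _ => congrArg f (hs' j)).trans
        (s'.sum_comp fun j => f (F'.pt j))⟩
  · simp only [ok.wp, ok'.wp]
    exact hB v hv h
  · convert h2 using 2
    rw [sub_eq_add_neg, Fam.arch, re_sum, mul_sum, ← sum_neg_distrib]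
    refine congrArg _ (sum_congr rfl fun j _ => ?_)
    rw [re_sum, mul_sum, ← sum_neg_distrib]
    refine sum_congr rfl fun k _ => ?_
    have c := xco_ne (R := cp (F.pt j)) (S := cp (F'.pt k)) fun e => n j k (by
      rw [← (cp_co (ok.cp_pt j) (ok.pt_ne j)).1, ← (cp_co (ok'.cp_pt k) (ok'.pt_ne k)).1]
      simpa [cp, (xco_vm EA.jc (one_pow 4) _).1] using congrArg (· ^ 2) e)
    rw [sub_neg_eq_add, ok.cp_pt, ok'.cp_pt, ← map_sub, ← map_add] at c
    exact ht4_Gr (mt un_eq_zero.2 c.1) (mt un_eq_zero.2 c.2)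

theorem ht4_aG (hp : p.Prime) (h3 : p % 4 = 3) (s : ℕ) :
    ∃ u : G, u ^ 4 = 1 ∧ aG (p ^ (2 * s)) = u * p ^ s := by
  have h5 : p % 5 ≠ 0 := fun e => by
    have := (Nat.prime_dvd_prime_iff_eq Nat.prime_five hp).1 (Nat.dvd_of_mod_eq_zero e)
    omega
  have o : ∀ x : ZMod 20, x.val % 4 = 3 → x.val % 5 ≠ 0 → om x ^ 4 = 1 := by decide
  replace o := o p (by rw [ZMod.val_natCast]; omega) (by rw [ZMod.val_natCast]; omega)
  induction s with
  | zero => exact ⟨1, one_pow 4, by simpa using aG_one⟩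
  | succ s ih =>
    obtain ⟨u, h1, h2⟩ := ih
    have e := aG_mul p (p ^ (2 * s) * p) hp.pos (by have := hp.pos; positivity)
    rw [aG_inert hp h3, zero_mul, Nat.gcd_mul_left_right, hp.sum_divisors, Nat.div_self hp.pos,
      Nat.mul_div_cancel _ hp.pos, one_mul, h2, Nat.div_one, Nat.div_one, Nat.cast_one, om_one,
      Nat.cast_one, show p * (p ^ (2 * s) * p) = p ^ (2 * (s + 1)) by ring] at e
    exact ⟨-om p * u, by rw [mul_pow, h1, Even.neg_pow (by decide), o, one_mul],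
      by linear_combination -e⟩

theorem ht4_unit {u : G} (h : u ^ 4 = 1) : |(u * ⟨-1, -1⟩).re| = 1 := by
  have e : u.norm = 1 := (pow_eq_one_iff_of_nonneg (GaussianInt.norm_nonneg u) four_ne_zero).1
    ((map_pow Zsqrtd.normMonoidHom u 4).symm.trans (by rw [h, map_one]))
  obtain ⟨a, b⟩ := u
  simp only [Zsqrtd.norm_def] at e
  have h1 : -1 ≤ a := by nlinarith [mul_self_nonneg b]
  have h2 : a ≤ 1 := by nlinarith [mul_self_nonneg b]
  have h3 : -1 ≤ b := by nlinarith [mul_self_nonneg a]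
  have h4 : b ≤ 1 := by nlinarith [mul_self_nonneg a]
  interval_cases a <;> interval_cases b <;> first | decide | omega

/-- The height side for two families and the Hecke images of the second. -/
theorem fam_side {i j : ℕ} (hL : Lk t M φ) (ok : F.Ok d) (ok' : F'.Ok d') (hN : 0 < N)
    (hN' : 0 < N') (st : F.Stable N fun a => φ a * eb a) (st' : F'.Stable N' fun a => φ a * eb a)
    (hx : ∀ k, XT i (tb (F.w k))) (hy : ∀ k, YT j (tb (F'.w k))) (hij : i < j)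
    (hs : ∀ m, m % 4 = 1 → ¬ 5 ∣ m → ∑ k, (F'.hk m).z k = aG m * aN 2 * ∑ k, F.z k)
    (hp : p.Prime) :
    (p = 2 ∨ p % 4 = 1 → 4 * ht (∑ k, F.pt k) + 2 * (F.arch (F'.hk 1)).re ∈ LogS p) ∧
    (p % 4 = 3 → ∃ C : ℝ, ∀ s : ℕ, ∃ e ρ : ℚ, (p : ℝ) ^ s ≤ |(e : ℝ)| ∧
      |(ρ : ℝ)| ≤ C * (s + 1) ^ 2 ∧ e * ht (∑ k, F.pt k) +
        2 * (F.arch (F'.hk (p ^ (2 * s)))).re - ρ * Real.log p ∈ LogS p) := by
  have c : (1 + 2 * I - 1) ^ 2 = -4 := by linear_combination 4 * I_sq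
  have e : ∀ m (x : κ × HI m), tb ((F'.hk m).w x) =
      (x.2.1.1.1 * tb (F'.w x.1) + 4 * x.2.1.2) / x.2.1.1.2 := fun m x => by
    simp [Fam.hk, tb_mv (ok'.dpos _).ne', mob]
  have y : ∀ m, m.Coprime 10 → ∀ x, YT j (tb ((F'.hk m).w x)) := fun m hm x => by
    have := (hy x.1).hecke ((mem_HI.1 x.2.2).1.1 ▸ hm) (4 * x.2.1.2)
    rw [e]
    exact_mod_cast this
  have D : ∀ m, m % 4 = 1 → ¬ 5 ∣ m → ∀ B : ℝ, 0 ≤ B → _ → _ := fun m h4 h5 B => fam_dec
    (B := B) (b := aG m * aN 2) hL ok (Fam.hk_ok ok' h4 h5) hN (Nat.mul_pos (by omega) hN') st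
    (Fam.hk_stable ok' h4 h5 st') (fun a b => tt_ne_tt (hx a) (y m (Nat.Coprime.mul_right
      (k := m) (m := 2) (n := 5) (Nat.coprime_two_right.2 (Nat.odd_iff.2 (by omega)))
      ((Nat.Prime.coprime_iff_not_dvd Nat.prime_five).2 h5).symm) b) hij)
    (by rw [hs m h4 h5, map_mul]) hp
  refine ⟨fun h => ?_, fun h => ?_⟩
  · obtain ⟨ρ, h1, h2⟩ := D 1 rfl (by decide) 0 le_rfl fun v hv h' => by
      simp only [ex_zero hv hp h h' c (hx _) (y 1 (by decide) _) hij, sum_const_zero, zero_mul,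
        le_refl]
    rw [mul_zero, abs_nonpos_iff] at h1
    simpa [h1, aG_one, aN_two] using h2
  choose n hn using fun a b => ex_sum hp h (hx a).lv (hy b).lv hij
  refine ⟨2 * (4 * ∑ a, ∑ b, (n a b : ℝ)), fun s => ?_⟩
  obtain ⟨u, u1, u2⟩ := ht4_aG hp h s
  obtain ⟨ρ, h1, h2⟩ := D (p ^ (2 * s)) (by rw [pow_mul, Nat.pow_mod, Nat.pow_mod p, h]; simp)
    (fun k => by
      have := (Nat.prime_dvd_prime_iff_eq Nat.prime_five hp).1 (Nat.prime_five.dvd_of_dvd_pow k)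
      omega) ((∑ a, ∑ b, (n a b : ℝ)) * ((2 * s : ℕ) + 1) ^ 2) (by positivity) fun v hv h' => by
      rw [mul_assoc, sum_mul]
      refine sum_le_sum fun a _ => ?_
      rw [sum_mul, Fintype.sum_prod_type]
      refine sum_le_sum fun b _ => le_trans (le_of_eq ?_)
        ((hn a b v hv h' _ c (2 * s)).trans_eq (mul_assoc _ _ _))
      simp only [e]
      rw [sum_coe_sort _ fun x : Σ _ : ℕ × ℕ, ℕ => ex v (1 + 2 * I) (tt (tb (F.w a)))
        (tt ((x.1.1 * tb (F'.w b) + 4 * x.2) / x.1.2)), HI, sum_sigma]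
  refine ⟨(-4 * (aG (p ^ (2 * s)) * aN 2).re : ℤ), ρ, ?_, h1.trans ?_, by exact_mod_cast h2⟩
  · have k : |(aG (p ^ (2 * s)) * aN 2).re| = p ^ s := by
      rw [u2, aN_two, mul_right_comm, ← Nat.cast_pow, ← Int.cast_natCast, mul_comm,
        Zsqrtd.re_smul, abs_mul, ht4_unit u1]
      simp
    rw [Rat.cast_intCast, ← Int.cast_abs, abs_mul, k]
    push_cast
    norm_num
    have : (0 : ℝ) < p ^ s := pow_pos (by exact_mod_cast hp.pos) s
    linarith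
  · rw [mul_assoc, mul_assoc 4, mul_left_comm 4]
    gcongr
    push_cast
    nlinarith [s.cast_nonneg (α := ℝ)]

end Pool.Agent.Lib.MP_696deb_nt.Y2
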