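import Pool.Agent.Lib.MP_696deb_nt.Y2.MK

/-! Product formulas and the transformation laws of the units. -/

set_option autoImplicit false

open Filter Topology Complex PeriodPair ModularForm PowerSeries Pool.Agent.Shared.Weier
open scoped Real ComplexConjugate

namespace Pool.Agent.Lib.MP_696deb_nt.Y2

open Klein Gal
open QF (G ii ip)
open Pool.Agent.Lib.MP_23455a_nt (lat lat_ω₁ lat_ω₂ mem_lat)

variable {τ z w : ℂ} {a b c d : ℤ}

theorem poch_mul_neg {x : ℂ} (hx : ‖x‖ < 1) (w : ℂ) :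
    poch x w * poch x (-w) = poch (x ^ 2) (w ^ 2) := by
  rw [poch, poch, poch, ← (multipliable_one_add_of_summable (summable_poch hx w)).tprod_mul
    (multipliable_one_add_of_summable (summable_poch hx (-w)))]
  congr 1
  funext n
  ring

theorem poch_two {x : ℂ} (hx : ‖x‖ < 1) (w : ℂ) :
    poch x w = poch (x ^ 2) w * poch (x ^ 2) (x * w) := by
  rw [poch_split hx two_ne_zero]
  simp [Finset.prod_range_succ]

theorem poch_ne_of_lt {x w : ℂ} (hx : ‖x‖ < 1) (hw : ‖w‖ < 1) : poch x w ≠ 0 :=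
  poch_ne hx fun n e => by
    have h1 := congr_arg norm e
    rw [norm_mul, norm_pow, norm_one] at h1
    have := pow_le_one₀ (n := n) (norm_nonneg x) hx.le
    nlinarith [norm_nonneg w, pow_nonneg (norm_nonneg x) n]

/-- Products in the fourth root of the parameter. -/
noncomputable def RR (τ : ℂ) (j : ℕ) : ℂ := poch (q1 (τ / 4) ^ 40) (q1 (τ / 4) ^ j)

theorem norm_Q (h : 0 < τ.im) {j : ℕ} (hj : j ≠ 0) : ‖q1 (τ / 4) ^ j‖ < 1 := by
  rw [norm_pow]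
  exact pow_lt_one₀ (norm_nonneg _) (norm_q1_lt (by simpa using h)) hj

theorem RR_ne (h : 0 < τ.im) {j : ℕ} (hj : j ≠ 0) : RR τ j ≠ 0 :=
  poch_ne_of_lt (norm_Q h (by norm_num)) (norm_Q h hj)

theorem W10_RR (τ : ℂ) (j : ℕ) : W10 τ j = RR τ (4 * j) := by
  rw [W10, RR, ← q1_nat_mul, ← q1_nat_mul]
  congr 2 <;> push_cast <;> ring

theorem P_RR (h : 0 < τ.im) (j : ℕ) :
    poch (q1 (τ / 4) ^ 20) (q1 (τ / 4) ^ j) = RR τ j * RR τ (20 + j) := by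
  rw [poch_two (norm_Q h (by norm_num)), ← pow_mul, ← pow_add, RR, RR]

theorem N_RR (h : 0 < τ.im) {j : ℕ} (hj : j ≠ 0) :
    poch (q1 (τ / 4) ^ 20) (-q1 (τ / 4) ^ j) = RR τ (2 * j) / (RR τ j * RR τ (20 + j)) := by
  rw [eq_div_iff (mul_ne_zero (RR_ne h hj) (RR_ne h (by omega))), ← P_RR h, mul_comm,
    poch_mul_neg (norm_Q h (by norm_num)), ← pow_mul, ← pow_mul, mul_comm j, RR]

theorem q1_om (τ : ℂ) : q1 ((5 * τ + 1) / 2) = -q1 (τ / 4) ^ 10 := by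
  have := q1_add ((5 * τ + 1) / 2) (-1 / 2)
  rw [q1_half] at this
  rw [← q1_nat_mul, show ((10 : ℕ) : ℂ) * (τ / 4) = (5 * τ + 1) / 2 + -1 / 2 by push_cast; ring, this]
  ring

theorem kk_poch (h : 0 < τ.im) (j k : ℕ) (hj : j + k = 10) : kk τ j * q1 (τ / 80) ^ (j * k) =
    poch (q1 (τ / 4) ^ 20) (q1 (τ / 4) ^ j) * poch (q1 (τ / 4) ^ 20) (-q1 (τ / 4) ^ (10 + j)) *
      (poch (q1 (τ / 4) ^ 20) (-q1 (τ / 4) ^ k) *
        poch (q1 (τ / 4) ^ 20) (q1 (τ / 4) ^ (10 + k))) := by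
  have hj' : (j + k : ℂ) = 10 := by exact_mod_cast hj
  have e1 : q1 ((5 * τ + 1) / 2 - j * (τ / 4)) = -q1 (τ / 4) ^ k := by
    have := q1_add ((5 * τ + 1) / 2 - j * (τ / 4)) (-1 / 2)
    rw [q1_half] at this
    rw [← q1_nat_mul, show (k : ℂ) * (τ / 4) = (5 * τ + 1) / 2 - j * (τ / 4) + -1 / 2 by
      linear_combination τ / 4 * hj', this]
    ring
  have e2 : q1 (τ * (j : ℂ) ^ 2 / 80) * q1 (-(j * (τ / 4)) / 2) * q1 (τ / 80) ^ (j * k) = 1 := by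
    rw [← q1_nat_mul, ← q1_add, ← q1_add, ← q1_zero]
    congr 1
    push_cast
    linear_combination τ * j / 80 * hj'
  have hx : ‖q1 ((5 * τ + 1) / 2)‖ < 1 := norm_q1_lt (om_pos h)
  rw [kk, Th, Int.cast_natCast, e1, q1_nat_mul, poch_two hx, poch_two hx (-_), q1_om, neg_sq,
    ← pow_mul, neg_mul, neg_mul_neg, ← pow_add, ← pow_add]
  linear_combination (poch (q1 (τ / 4) ^ 20) (q1 (τ / 4) ^ j) *
    poch (q1 (τ / 4) ^ 20) (-q1 (τ / 4) ^ (10 + j)) * (poch (q1 (τ / 4) ^ 20) (-q1 (τ / 4) ^ k) *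
        poch (q1 (τ / 4) ^ 20) (q1 (τ / 4) ^ (10 + k)))) * e2

theorem kk_RR (h : 0 < τ.im) (j k : ℕ) (hj : j + k = 10) (hk : k ≠ 0) : kk τ j =
    RR τ j * RR τ (20 + j) * (RR τ (2 * (10 + j)) / (RR τ (10 + j) * RR τ (20 + (10 + j)))) *
      (RR τ (2 * k) / (RR τ k * RR τ (20 + k)) * (RR τ (10 + k) * RR τ (20 + (10 + k)))) /
      q1 (τ / 80) ^ (j * k) := by
  rw [eq_div_iff (pow_ne_zero _ (q1_ne _)), kk_poch h j k hj, P_RR h, P_RR h, N_RR h hk,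
    N_RR h (by omega)]

theorem kk_ten (h : 0 < τ.im) : kk τ 10 = 2 * (RR τ 10 * RR τ 30 / RR τ 20) ^ 2 := by
  have e := kk_poch h 10 0 rfl
  have n := RR_ne h (j := 40) (by norm_num)
  have e1 : poch (q1 (τ / 4) ^ 20) (-q1 (τ / 4) ^ 20) = (RR τ 20)⁻¹ := by
    have e2 := poch_mul_neg (norm_Q h (j := 20) (by norm_num)) (q1 (τ / 4) ^ 20)
    rw [P_RR h, ← pow_mul] at e2
    refine eq_inv_of_mul_eq_one_right (mul_left_cancel₀ n ?_)
    rw [mul_one]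
    exact Eq.trans (by ring) e2
  rw [mul_zero, pow_zero, pow_zero, mul_one, poch_step (norm_Q h (by norm_num)) (-1), mul_neg_one,
    P_RR h, e1] at e
  rw [show ((10 : ℤ)) = (10 : ℕ) from rfl, e]
  ring

theorem kk_list (h : 0 < τ.im) :
    kk τ 1 * kk τ 9 = RR τ 2 * RR τ 18 * RR τ 22 * RR τ 38 / q1 (τ / 80) ^ 18 ∧
    kk τ 3 * kk τ 7 = RR τ 6 * RR τ 14 * RR τ 26 * RR τ 34 / q1 (τ / 80) ^ 42 ∧
    kk τ 2 = RR τ 2 * RR τ 22 * RR τ 18 * RR τ 38 * RR τ 24 * RR τ 16 /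
      (RR τ 12 * RR τ 32 * RR τ 8 * RR τ 28 * q1 (τ / 80) ^ 16) ∧
    kk τ 8 = RR τ 8 * RR τ 28 * RR τ 12 * RR τ 32 * RR τ 36 * RR τ 4 /
      (RR τ 18 * RR τ 38 * RR τ 2 * RR τ 22 * q1 (τ / 80) ^ 16) ∧
    kk τ 4 = RR τ 4 * RR τ 24 * RR τ 16 * RR τ 36 * RR τ 28 * RR τ 12 /
      (RR τ 14 * RR τ 34 * RR τ 6 * RR τ 26 * q1 (τ / 80) ^ 24) ∧
    kk τ 6 = RR τ 6 * RR τ 26 * RR τ 14 * RR τ 34 * RR τ 32 * RR τ 8 /
      (RR τ 16 * RR τ 36 * RR τ 4 * RR τ 24 * q1 (τ / 80) ^ 24) ∧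
    kk τ 5 = RR τ 10 * RR τ 30 / q1 (τ / 80) ^ 25 := by
  have n : ∀ j : ℕ, RR τ (j + 1) ≠ 0 := fun j => RR_ne h j.succ_ne_zero
  have n0 := q1_ne (τ / 80)
  have k1 := kk_RR h 1 9 rfl (by norm_num)
  have k2 := kk_RR h 2 8 rfl (by norm_num)
  have k3 := kk_RR h 3 7 rfl (by norm_num)
  have k4 := kk_RR h 4 6 rfl (by norm_num)
  have k5 := kk_RR h 5 5 rfl (by norm_num)
  have k6 := kk_RR h 6 4 rfl (by norm_num)
  have k7 := kk_RR h 7 3 rfl (by norm_num)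
  have k8 := kk_RR h 8 2 rfl (by norm_num)
  have k9 := kk_RR h 9 1 rfl (by norm_num)
  norm_num only at k1 k2 k3 k4 k5 k6 k7 k8 k9
  have := n 0; have := n 2; have := n 4; have := n 6; have := n 8; have := n 10; have := n 12
  have := n 14; have := n 16; have := n 18; have := n 20; have := n 22; have := n 24
  have := n 26; have := n 28; have := n 30; have := n 32; have := n 34; have := n 36; have := n 38
  norm_num only at *
  refine ⟨?_, ?_, ?_, ?_, ?_, ?_, ?_⟩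
  · rw [k1, k9]; field_simp
  · rw [k3, k7]; field_simp
  · rw [k2]; ring
  · rw [k8]; ring
  · rw [k4]; ring
  · rw [k6]; ring
  · rw [k5]; field_simp

theorem W10_ne (h : 0 < τ.im) {j : ℤ} (hj : 0 < j) : W10 τ j ≠ 0 := by
  lift j to ℕ using hj.le
  rw [W10_RR]
  exact RR_ne h (by omega)

theorem tendsto_W10 {j : ℤ} (hj : 0 < j) : Tendsto (fun τ => W10 τ j) atI (𝓝 1) := by
  lift j to ℕ using hj.le
  have h1 := (differentiableAt_poch (x := fun s => s ^ 10) (w := fun s => s ^ j) (s := 0)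
    (by fun_prop) (by fun_prop) (by simp)).continuousAt.tendsto
  rw [zero_pow (by omega : j ≠ 0), poch_zero] at h1
  refine (h1.comp tendsto_q1).congr fun τ => ?_
  simp only [Function.comp, W10, ← q1_nat_mul, Nat.cast_ofNat, Int.cast_natCast]

theorem Q_eq (τ : ℂ) : q1 (τ / 4) = q1 (τ / 80) ^ 20 := by
  rw [← q1_nat_mul]; congr 1; push_cast; ring

theorem W10_list (τ : ℂ) : W10 τ 1 = RR τ 4 ∧ W10 τ 2 = RR τ 8 ∧ W10 τ 3 = RR τ 12 ∧
    W10 τ 4 = RR τ 16 ∧ W10 τ 5 = RR τ 20 ∧ W10 τ 6 = RR τ 24 ∧ W10 τ 7 = RR τ 28 ∧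
    W10 τ 8 = RR τ 32 ∧ W10 τ 9 = RR τ 36 ∧ W10 τ 10 = RR τ 40 :=
  ⟨W10_RR τ 1, W10_RR τ 2, W10_RR τ 3, W10_RR τ 4, W10_RR τ 5, W10_RR τ 6, W10_RR τ 7, W10_RR τ 8,
    W10_RR τ 9, W10_RR τ 10⟩

theorem RR_even (h : 0 < τ.im) : RR τ 2 ≠ 0 ∧ RR τ 4 ≠ 0 ∧ RR τ 6 ≠ 0 ∧ RR τ 8 ≠ 0 ∧ RR τ 10 ≠ 0 ∧
    RR τ 12 ≠ 0 ∧ RR τ 14 ≠ 0 ∧ RR τ 16 ≠ 0 ∧ RR τ 18 ≠ 0 ∧ RR τ 20 ≠ 0 ∧ RR τ 22 ≠ 0 ∧
    RR τ 24 ≠ 0 ∧ RR τ 26 ≠ 0 ∧ RR τ 28 ≠ 0 ∧ RR τ 30 ≠ 0 ∧ RR τ 32 ≠ 0 ∧ RR τ 34 ≠ 0 ∧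
    RR τ 36 ≠ 0 ∧ RR τ 38 ≠ 0 ∧ RR τ 40 ≠ 0 ∧ q1 (τ / 80) ≠ 0 := by
  refine ⟨?_, ?_, ?_, ?_, ?_, ?_, ?_, ?_, ?_, ?_, ?_, ?_, ?_, ?_, ?_, ?_, ?_, ?_, ?_, ?_,
    q1_ne _⟩ <;> exact RR_ne h (by norm_num)

theorem ua_eq (h : 0 < τ.im) :
    ua τ * q1 (τ / 4) ^ 3 = W10 τ 4 * W10 τ 6 / (W10 τ 1 * W10 τ 9) := by
  obtain ⟨k19, k37, k2, k8, k4, k6, k5⟩ := kk_list h
  obtain ⟨w1, w2, w3, w4, w5, w6, w7, w8, w9, w10⟩ := W10_list τ
  obtain ⟨r2, r4, r6, r8, r10, r12, r14, r16, r18, r20, r22, r24, r26, r28, r30, r32, r34, r36, r38,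
    r40, r0⟩ := RR_even h
  rw [ua_kk h, show kk τ 1 ^ 2 * kk τ 8 * kk τ 9 ^ 2 = (kk τ 1 * kk τ 9) ^ 2 * kk τ 8 by ring, k19,
    k2, k8, k4, k6, w1, w4, w6, w9, Q_eq]
  field_simp

theorem ub_eq (h : 0 < τ.im) :
    ub τ = q1 (τ / 4) * (W10 τ 2 * W10 τ 8 / (W10 τ 3 * W10 τ 7)) := by
  obtain ⟨k19, k37, k2, k8, k4, k6, k5⟩ := kk_list h
  obtain ⟨w1, w2, w3, w4, w5, w6, w7, w8, w9, w10⟩ := W10_list τ
  obtain ⟨r2, r4, r6, r8, r10, r12, r14, r16, r18, r20, r22, r24, r26, r28, r30, r32, r34, r36, r38,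
    r40, r0⟩ := RR_even h
  rw [ub_kk h, show kk τ 3 ^ 2 * kk τ 4 * kk τ 7 ^ 2 = (kk τ 3 * kk τ 7) ^ 2 * kk τ 4 by ring, k37,
    k2, k8, k4, k6, w2, w3, w7, w8, Q_eq]
  field_simp

theorem eul_split (h : 0 < τ.im) (d m : ℕ) (hd : m * d = 10) :
    eul (q1 (d * τ)) = ∏ r ∈ Finset.range m, RR τ (4 * ((r + 1) * d)) := by
  have h0 : (0 : ℝ) < d := by exact_mod_cast Nat.pos_of_ne_zero (by rintro rfl; omega)
  have e : q1 (d * τ) = q1 (τ / 4) ^ (4 * d) := by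
    rw [← q1_nat_mul]; congr 1; push_cast; ring
  rw [eul_eq_poch, poch_split (norm_q1_lt (by simpa using mul_pos h0 h)) (m := m)
    (by rintro rfl; omega)]
  refine Finset.prod_congr rfl fun r _ => ?_
  rw [RR, ← pow_succ, e, ← pow_mul, ← pow_mul]
  congr 2
  · rw [mul_assoc, mul_comm d, hd]; rfl
  · ring

theorem eta_list (h : 0 < τ.im) :
    η τ = q1 (τ / 240) ^ 10 * (RR τ 4 * RR τ 8 * RR τ 12 * RR τ 16 * RR τ 20 * RR τ 24 * RR τ 28 *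
      RR τ 32 * RR τ 36 * RR τ 40) ∧
    η (2 * τ) = q1 (τ / 240) ^ 20 * (RR τ 8 * RR τ 16 * RR τ 24 * RR τ 32 * RR τ 40) ∧
    η (5 * τ) = q1 (τ / 240) ^ 50 * (RR τ 20 * RR τ 40) ∧
    η (10 * τ) = q1 (τ / 240) ^ 100 * RR τ 40 ∧ q1 (τ / 80) = q1 (τ / 240) ^ 3 := by
  have e1 := eul_split h 1 10 rfl
  have e2 := eul_split h 2 5 rfl
  have e5 := eul_split h 5 2 rfl
  have e10 := eul_split h 10 1 rfl
  norm_num [Finset.prod_range_succ] at e1 e2 e5 e10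
  simp only [MP_23455a_nt.ModA.eta_q, e1, e2, e5, e10, ← q1_nat_mul]
  refine ⟨?_, ?_, ?_, ?_, ?_⟩ <;> congr 2 <;> push_cast <;> ring

theorem ux_eta (h : 0 < τ.im) :
    ux τ = η (2 * τ) ^ 2 * η (5 * τ) / (η τ * η (10 * τ) ^ 2) := by
  obtain ⟨w1, w2, w3, w4, w5, w6, w7, w8, w9, w10⟩ := W10_list τ
  obtain ⟨r2, r4, r6, r8, r10, r12, r14, r16, r18, r20, r22, r24, r26, r28, r30, r32, r34, r36, r38,
    r40, r0⟩ := RR_even h
  obtain ⟨e1, e2, e5, e10, e⟩ := eta_list h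
  have n := q1_ne (τ / 240)
  rw [ux, eq_div_of_mul_eq (pow_ne_zero 3 (q1_ne _)) (ua_eq h), ub_eq h, e1, e2, e5, e10, w1, w2,
    w3, w4, w6, w7, w8, w9, Q_eq, e]
  field_simp

theorem ux_sq (h : 0 < τ.im) : ux τ ^ 2 = tt τ := by
  rw [ux_eta h, tt, eta2, eta2, eta2, eta2, div_pow]
  congr 1 <;> ring

theorem tt_sub_one (h : 0 < τ.im) :
    tt τ - 1 = η (2 * τ) * η (5 * τ) ^ 5 / (η τ * η (10 * τ) ^ 5) := by
  obtain ⟨k19, k37, k2, k8, k4, k6, k5⟩ := kk_list h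
  obtain ⟨r2, r4, r6, r8, r10, r12, r14, r16, r18, r20, r22, r24, r26, r28, r30, r32, r34, r36, r38,
    r40, r0⟩ := RR_even h
  obtain ⟨e1, e2, e5, e10, e⟩ := eta_list h
  obtain ⟨k0, l1, l2, l3, l4, l5, l6, l7, l8, l9, l10⟩ := kk_all h
  have n := q1_ne (τ / 240)
  have e3 : tt τ - 1 = 4 * (kk τ 2 * kk τ 5 ^ 4 * kk τ 6) /
      (kk τ 1 * kk τ 9 * (kk τ 3 * kk τ 7) * kk τ 10 ^ 2) := by
    rw [← ux_sq h, ← one_pow 2, sq_sub_sq, (u_units h).1, (u_units h).2.1]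
    field_simp
    norm_num
  rw [e3, k19, k37, k2, k5, k6, kk_ten h, e1, e2, e5, e10, e]
  field_simp
  norm_num

theorem xi_four (hd : a * d - b * (10 * c) = 1) : xi b d ^ 4 = 1 := by
  have k : ∀ e : ZMod 20, e = 0 ∨ e = 10 → ∀ a d : ZMod 20, a * d - e = 1 → om d ^ 4 = 1 := by
    decide +kernel
  have k1 : ∀ x : ZMod 20, 10 * x = 0 ∨ 10 * x = 10 := by decide
  rw [xi, mul_pow, ← pow_mul, mul_comm _ 4, pow_mul, show ii ^ 4 = 1 by decide, one_pow, one_mul]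
  refine k _ (k1 (b * c)) a d ?_
  have := congr_arg (Int.cast : ℤ → ZMod 20) hd
  push_cast at this
  linear_combination this

theorem u_T (h : 0 < τ.im) : ua (τ + 1) = I * ua τ ∧ ub (τ + 1) = I * ub τ := by
  have h' : 0 < (τ + 1).im := by simpa using h
  have e : ∀ j : ℤ, W10 (τ + 1) j = W10 τ j := fun j => by
    have := q1_int 10
    push_cast at this
    rw [W10, W10, mul_add, mul_add, q1_add, q1_add, mul_one, mul_one, q1_int, this, mul_one, mul_one]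
  have e1 : q1 ((τ + 1) / 4) = I * q1 (τ / 4) := by
    rw [add_div, q1_add, mul_comm, q1, show 2 * π * I * (1 / 4) = π / 2 * I by ring,
      exp_pi_div_two_mul_I]
  refine ⟨mul_right_cancel₀ (pow_ne_zero 3 (q1_ne ((τ + 1) / 4))) ?_, ?_⟩
  · rw [ua_eq h', e1]
    simp only [e]
    rw [← ua_eq h]
    linear_combination (-ua τ * q1 (τ / 4) ^ 3) * I_pow_four
  · rw [ub_eq h', ub_eq h, e1, mul_assoc]
    simp only [e]

theorem u_even {k : ℤ} (hd : a * d - 2 * k * (10 * c) = 1) (h : 0 < τ.im) :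
    ua (mob a (2 * k) (10 * c) d τ) =
      (om (a + 10 * k : ℤ)).re * ua τ - (om (a + 10 * k : ℤ)).im * ub τ ∧
    ub (mob a (2 * k) (10 * c) d τ) =
      (om (a + 10 * k : ℤ)).im * ua τ + (om (a + 10 * k : ℤ)).re * ub τ := by
  have hj : (10 * c * τ + d : ℂ) ≠ 0 := by
    simpa using den_ne (by omega : a * d - 2 * k * (10 * c) ≠ 0) h
  have h' := im_mob_pos (by omega : 0 < a * d - 2 * k * (10 * c)) h
  have e : (10 * c * τ + d) * mob a (2 * k) (10 * c) d τ = a * τ + 2 * k := by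
    rw [mob]; push_cast; field_simp
  obtain ⟨m, hm⟩ : 2 ∣ d - a := by
    have ho : Odd (a * d) := ⟨10 * k * c, by linear_combination hd⟩
    obtain ⟨⟨u, hu⟩, v, hv⟩ := Int.odd_mul.1 ho
    omega
  have hm' : (d - a : ℂ) = 2 * m := by exact_mod_cast hm
  have s1 : Sc (10 * c * τ + d) (Lt (mob a (2 * k) (10 * c) d τ)) (Lt τ) := by
    refine MP_23455a_nt.ModB.sc_of_basis hj (a := a + 2 * c) (b := 5 * k + m - c) (a' := 4 * c)
      (b' := d - 2 * c) (e := 1) (by linear_combination hd + 2 * c * hm) ?_ ?_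
    · rw [Lt, Lt, lat_ω₁ (om_pos h'), lat_ω₁ (om_pos h), lat_ω₂]
      push_cast
      linear_combination 5 / 2 * e + hm' / 2
    · rw [Lt, Lt, lat_ω₂, lat_ω₁ (om_pos h), lat_ω₂]
      push_cast
      ring
  obtain ⟨e1, e2⟩ := k_sc (t := (a + 10 * k : ℤ) * (τ / 4)) (s := mob a (2 * k) (10 * c) d τ / 4) s1
    ((mem_Lt h).2 ⟨-k, k, by push_cast; linear_combination e / 4⟩)
  have k1 : ∀ a d k : ZMod 20, a * d = 1 → om (a + 10 * k) ≠ 0 := by decide +kernel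
  rw [ua, ua, ub, ub, ← e1, ← e2]
  refine k_mul (mem20 h) ?_
  have := congr_arg (Int.cast : ℤ → ZMod 20) hd
  push_cast at this ⊢
  refine k1 a d k ?_
  rw [← this, show (2 * k * (10 * c) : ZMod 20) = 20 * (k * c) by ring,
    show (20 : ZMod 20) = 0 from rfl, zero_mul, sub_zero]

theorem yz_even {k : ℤ} (hd : a * d - 2 * k * (10 * c) = 1) (h : 0 < τ.im) :
    uy (mob a (2 * k) (10 * c) d τ) = xi (2 * k : ℤ) d * uy τ ∧
    uz (mob a (2 * k) (10 * c) d τ) = conj (xi (2 * k : ℤ) d : ℂ) * uz τ := by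
  have k1 : ∀ a d k : ZMod 20, a * d = 1 → xi (2 * k) d = star (om (a + 10 * k)) := by
    decide +kernel
  have e : xi (2 * k : ℤ) d = star (om (a + 10 * k : ℤ)) := by
    have := congr_arg (Int.cast : ℤ → ZMod 20) hd
    push_cast at this ⊢
    refine k1 a d k ?_
    rw [← this, show (2 * k * (10 * c) : ZMod 20) = 20 * (k * c) by ring,
      show (20 : ZMod 20) = 0 from rfl, zero_mul, sub_zero]
  rw [uy, uz, uy, uz, (u_even hd h).1, (u_even hd h).2, e, GaussianInt.toComplex_def]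
  simp only [map_add, map_mul, map_neg, map_intCast, conj_I, Zsqrtd.re_star, Zsqrtd.im_star,
    Int.cast_neg]
  constructor
  · linear_combination (-(om (a + 10 * k : ℤ)).im * ub τ) * I_mul_I
  · linear_combination (-(om (a + 10 * k : ℤ)).im * ub τ) * I_mul_I

theorem yz_mob (hd : a * d - b * (10 * c) = 1) (h : 0 < τ.im) :
    uy (mob a b (10 * c) d τ) = xi b d * uy τ ∧
    uz (mob a b (10 * c) d τ) = (-1) ^ b * conj (xi b d : ℂ) * uz τ := by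
  rcases Int.even_or_odd' b with ⟨k, rfl | rfl⟩
  · rw [(yz_even hd h).2, Even.neg_one_zpow (even_two_mul k), one_mul]
    exact ⟨(yz_even hd h).1, rfl⟩
  have ho : Odd (a * d) := ⟨5 * c * (2 * k + 1), by linear_combination hd⟩
  obtain ⟨u, rfl⟩ := (Int.odd_mul.1 ho).1
  have h' : 0 < (τ + 1).im := by simpa using h
  have e : mob (2 * u + 1) (2 * k + 1) (10 * c) d τ =
      mob (2 * u + 1) (2 * (k - u)) (10 * c) (d - 10 * c) (τ + 1) := by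
    simp only [mob]
    push_cast
    congr 1 <;> ring
  have k1 : ∀ e : ZMod 20, e = 0 ∨ e = 10 → ∀ u k d : ZMod 20, (2 * u + 1) * d - e = 1 →
      xi (2 * k + 1) d = xi (2 * (k - u)) (d - e) * ii := by decide +kernel
  have k2 : ∀ x : ZMod 20, 10 * x = 0 ∨ 10 * x = 10 := by decide
  have e1 : xi (2 * k + 1 : ℤ) d = xi (2 * (k - u) : ℤ) (d - 10 * c : ℤ) * ii := by
    have := congr_arg (Int.cast : ℤ → ZMod 20) hd
    push_cast at this ⊢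
    refine k1 _ (k2 c) u k d ?_
    rwa [show ((2 * k + 1) * (10 * c) : ZMod 20) = 20 * (k * c) + 10 * c by ring,
      show (20 : ZMod 20) = 0 from rfl, zero_mul, zero_add] at this
  obtain ⟨f1, f2⟩ := yz_even (a := 2 * u + 1) (k := k - u) (c := c) (d := d - 10 * c)
    (by linear_combination hd) h'
  rw [e, f1, f2, e1, map_mul, map_mul, EA.ii_coe, conj_I, Odd.neg_one_zpow ⟨k, rfl⟩, uy, uz, uy, uz,
    (u_T h).1, (u_T h).2]
  constructor <;> ring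

theorem uy_mob (hd : a * d - b * (10 * c) = 1) (h : 0 < τ.im) :
    uy (mob a b (10 * c) d τ) = xi b d * uy τ := (yz_mob hd h).1

theorem uz_mob (hd : a * d - b * (10 * c) = 1) (h : 0 < τ.im) :
    uz (mob a b (10 * c) d τ) = (-1) ^ b * conj (xi b d : ℂ) * uz τ := (yz_mob hd h).2

theorem xi_conj (hd : a * d - b * (10 * c) = 1) : conj (xi b d : ℂ) = (xi b d : ℂ) ^ 3 := by
  have k : ∀ b d : ZMod 20, xi b d ^ 4 = 1 → star (xi b d) = xi b d ^ 3 := by decide +kernel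
  rw [← GaussianInt.toComplex_star, k _ _ (xi_four hd), map_pow]

theorem ux_yz (τ : ℂ) : 4 * I * ux τ = uz τ ^ 2 - uy τ ^ 2 := by
  rw [ux, uy, uz]; ring

theorem ux_mob (hd : a * d - b * (10 * c) = 1) (h : 0 < τ.im) :
    ux (mob a b (10 * c) d τ) = (xi b d : ℂ) ^ 2 * ux τ := by
  have h4 : (xi b d : ℂ) ^ 4 = 1 := by rw [← map_pow, xi_four hd, map_one]
  have h1 : ((-1 : ℂ) ^ b) ^ 2 = 1 := by
    rw [← zpow_natCast, ← zpow_mul]; exact Even.neg_one_zpow ⟨b, by push_cast; ring⟩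
  refine mul_left_cancel₀ (mul_ne_zero (by norm_num : (4 : ℂ) ≠ 0) I_ne_zero) ?_
  rw [ux_yz, uy_mob hd h, uz_mob hd h, xi_conj hd, mul_left_comm, ux_yz]
  linear_combination ((xi b d : ℂ) ^ 6 * uz τ ^ 2) * h1 + ((xi b d : ℂ) ^ 2 * uz τ ^ 2) * h4

theorem tt_mob (hd : a * d - b * (10 * c) = 1) (h : 0 < τ.im) :
    tt (mob a b (10 * c) d τ) = tt τ := by
  rw [← ux_sq h, ← ux_sq (im_mob_pos (by omega) h), ux_mob hd h, mul_pow, ← pow_mul, ← map_pow,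
    xi_four hd, map_one, one_mul]

theorem tendsto_ua : Tendsto (fun τ => ua τ * q1 (τ / 4) ^ 3) atI (𝓝 1) := by
  have := ((tendsto_W10 (j := 4) (by norm_num)).mul (tendsto_W10 (j := 6) (by norm_num))).div
    ((tendsto_W10 (j := 1) (by norm_num)).mul (tendsto_W10 (j := 9) (by norm_num))) (by norm_num)
  norm_num at this
  exact this.congr' (ev_pos.mono fun z hz => (ua_eq hz).symm)

theorem tendsto_ub : Tendsto (fun τ => ub τ / q1 (τ / 4)) atI (𝓝 1) := by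
  have := ((tendsto_W10 (j := 2) (by norm_num)).mul (tendsto_W10 (j := 8) (by norm_num))).div
    ((tendsto_W10 (j := 3) (by norm_num)).mul (tendsto_W10 (j := 7) (by norm_num))) (by norm_num)
  norm_num at this
  refine this.congr' (ev_pos.mono fun z hz => ?_)
  beta_reduce
  rw [ub_eq hz, mul_div_cancel_left₀ _ (q1_ne _)]
  rfl

theorem tendsto_Q : Tendsto (fun τ => q1 (τ / 4)) atI (𝓝 0) := by
  have := tendsto_q1.comp (tendsto_affine (r := 1 / 4) (by norm_num) 0)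
  exact this.congr fun z => by simp [div_eq_inv_mul]

theorem tendsto_uy : Tendsto (fun τ => uy τ * q1 (τ / 4) ^ 3) atI (𝓝 1) := by
  have := tendsto_ua.sub ((tendsto_ub.mul (tendsto_Q.pow 4)).const_mul I)
  norm_num at this
  refine this.congr fun z => ?_
  have := q1_ne (z / 4)
  rw [uy]
  field_simp

theorem exists_uy_ne : ∃ z : ℂ, 0 < z.im ∧ uy z ≠ 0 := by
  obtain ⟨z, h0, h1⟩ := (ev_pos.and (tendsto_uy.eventually_ne one_ne_zero)).exists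
  exact ⟨z, h0, left_ne_zero_of_mul h1⟩

theorem xi_mul {a' b' c' d' : ℤ} (hd : a * d - b * (10 * c) = 1)
    (hd' : a' * d' - b' * (10 * c') = 1) :
    xi (a * b' + b * d' : ℤ) (10 * c * b' + d * d' : ℤ) = xi b d * xi b' d' := by
  obtain ⟨z, hz, h0⟩ := exists_uy_ne
  have e := uy_mob hd (im_mob_pos (by omega : 0 < a' * d' - b' * (10 * c')) hz)
  rw [mob_mob (by omega) _ _ _ _ hz, uy_mob hd' hz,
    show 10 * c * a' + d * (10 * c') = 10 * (c * a' + d * c') by ring,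
    uy_mob (by linear_combination (a' * d' - b' * (10 * c')) * hd + hd') hz, ← mul_assoc,
    ← map_mul] at e
  exact GaussianInt.toComplex_inj.1 (mul_right_cancel₀ h0 e)

end Pool.Agent.Lib.MP_696deb_nt.Y2
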