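import Pool.Agent.Lib.MP_696deb_nt.Y2.M0

/-! The cusps of `Γ₀(10)`. -/

set_option autoImplicit false

open Filter Topology Complex PeriodPair ModularForm PowerSeries Pool.Agent.Shared.Weier
open scoped Real ComplexConjugate

namespace Pool.Agent.Lib.MP_696deb_nt.Y2

open Klein Gal
open QF (G ii ip)
open Pool.Agent.Lib.MP_23455a_nt (lat lat_ω₁ lat_ω₂ mem_lat)

variable {τ z w : ℂ} {a b c d : ℤ}

theorem Eq0.refl (z : ℂ) : Eq0 z z := ⟨1, 0, 0, 1, by norm_num, by simp [mob]⟩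

theorem Eq0.im_pos (h : Eq0 z w) (hz : 0 < z.im) : 0 < w.im := by
  obtain ⟨a, b, c, d, h, rfl⟩ := h
  exact im_mob_pos (by omega) hz

theorem Eq0.symm (h : Eq0 z w) (hz : 0 < z.im) : Eq0 w z := by
  obtain ⟨a, b, c, d, h, rfl⟩ := h
  exact ⟨d, -b, -c, a, by linear_combination h, by
    rw [mul_neg, Unif.mob_adj (by omega) hz]⟩

theorem Eq0.trans {v : ℂ} (h : Eq0 z w) (h' : Eq0 w v) (hz : 0 < z.im) : Eq0 z v := by
  obtain ⟨a, b, c, d, h, rfl⟩ := h
  obtain ⟨a', b', c', d', h', rfl⟩ := h'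
  refine ⟨a' * a + b' * (10 * c), a' * b + b' * d, c' * a + d' * c, 10 * c' * b + d' * d,
    by linear_combination (a' * d' - b' * (10 * c')) * h + h', ?_⟩
  rw [mob_mob (by omega) _ _ _ _ hz]
  congr 1
  ring

theorem alM_det : ∀ i, 0 < (alM i).1 * (alM i).2.2.2 - (alM i).2.1 * (alM i).2.2.1 := by decide

theorem al_zero (z : ℂ) : al 0 z = z := by simp [al, alM, mob]

theorem al_im_pos (i : Fin 4) (hz : 0 < z.im) : 0 < (al i z).im := im_mob_pos (alM_det i) hz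

theorem mob_of_decomp {α β γ δ Q k : ℤ} (i : Fin 4) (hQ : 0 < Q)
    (e1 : α * (alM i).1 + β * (alM i).2.2.1 = Q * a)
    (e2 : α * (alM i).2.1 + β * (alM i).2.2.2 = b - k * a)
    (e3 : 10 * γ * (alM i).1 + δ * (alM i).2.2.1 = Q * c)
    (e4 : 10 * γ * (alM i).2.1 + δ * (alM i).2.2.2 = d - k * c) (z : ℂ) (hz : 0 < z.im) :
    mob a b c d z = mob α β (10 * γ) δ (al i ((z + k) / Q)) := by
  have hu : 0 < 1 * Q - k * 0 := by simpa using hQ
  have h4 : (z + k) / Q = mob 1 k 0 Q z := by simp [mob]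
  rw [h4, al, mob_mob (alM_det i).ne' _ _ _ _ (im_mob_pos hu hz), e1, e2, e3, e4,
    mob_mob hu.ne' _ _ _ _ hz, ← mob_scale hQ.ne' a b c d]
  congr 1 <;> ring

/-- Every matrix of determinant one is a matrix of `Γ₀(10)` times an Atkin-Lehner matrix times an
affine map. -/
theorem exists_decomp (hd : a * d - b * c = 1) : ∃ (i : Fin 4) (Q k α β γ δ : ℤ),
    0 < Q ∧ Q ≤ 10 ∧ 0 ≤ k ∧ k < 10 ∧ (i = 0 → 10 ∣ c) ∧ α * δ - β * (10 * γ) = 1 ∧
      ∀ z : ℂ, 0 < z.im → mob a b c d z = mob α β (10 * γ) δ (al i ((z + k) / Q)) := by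
  have f2 : ¬ 2 ∣ c → 2 ∣ d - d * c ^ 3 * c := fun hc => by
    rw [show (2 : ℤ) = (2 : ℕ) from rfl, ← ZMod.intCast_zmod_eq_zero_iff_dvd] at hc ⊢
    push_cast
    generalize (c : ZMod 2) = x at hc ⊢
    generalize (d : ZMod 2) = y
    revert x y
    decide
  have f5 : ¬ 5 ∣ c → 5 ∣ d - d * c ^ 3 * c := fun hc => by
    rw [show (5 : ℤ) = (5 : ℕ) from rfl, ← ZMod.intCast_zmod_eq_zero_iff_dvd] at hc ⊢
    push_cast
    generalize (c : ZMod 5) = x at hc ⊢
    generalize (d : ZMod 5) = y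
    revert x y
    decide
  generalize d * c ^ 3 = k at f2 f5
  rw [← Int.emod_add_mul_ediv k 10, add_mul, mul_assoc] at f2 f5
  have k0 := Int.emod_nonneg k (b := 10) (by norm_num)
  have k1 := Int.emod_lt_of_pos k (b := 10) (by norm_num)
  generalize k / 10 * c = l at f2 f5
  generalize k % 10 = k at f2 f5 k0 k1
  by_cases h2 : 2 ∣ c <;> by_cases h5 : 5 ∣ c
  · obtain ⟨c, rfl⟩ : 10 ∣ c := by omega
    exact ⟨0, 1, 0, a, b, c, d, by norm_num, by norm_num, by norm_num, by norm_num,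
      fun _ => ⟨c, rfl⟩, hd, fun z _ => by simp [al_zero]⟩
  · obtain ⟨c, rfl⟩ := h2
    obtain ⟨e, he⟩ : 5 ∣ d - k * (2 * c) := by have := f5 h5; omega
    exact ⟨2, 5, k, 5 * a - 2 * (b - k * a), b - k * a - 2 * a, c - e, 5 * e - 4 * c, by norm_num,
      by norm_num, k0, k1, by simp, by linear_combination hd - a * he,
      mob_of_decomp 2 (by norm_num) (by simp [alM]; ring) (by simp [alM]; ring)
      (by simp [alM]; ring) (by simp [alM]; linear_combination -he)⟩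
  · obtain ⟨c, rfl⟩ := h5
    obtain ⟨e, he⟩ : 2 ∣ d - k * (5 * c) := by have := f2 h2; omega
    exact ⟨1, 2, k, 6 * a - 5 * (b - k * a), b - k * a - a, 3 * c - e, 2 * e - 5 * c, by norm_num,
      by norm_num, k0, k1, by simp, by linear_combination hd - a * he,
      mob_of_decomp 1 (by norm_num) (by simp [alM]; ring) (by simp [alM]; ring)
      (by simp [alM]; ring) (by simp [alM]; linear_combination -he)⟩
  · obtain ⟨e, he⟩ : 10 ∣ d - k * c := by have := f2 h2; have := f5 h5; omega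
    exact ⟨3, 10, k, -(b - k * a), a, -e, c, by norm_num, by norm_num, k0, k1, by simp,
      by linear_combination hd - a * he,
      mob_of_decomp 3 (by norm_num) (by simp [alM]; ring) (by simp [alM])
      (by simp [alM]; ring) (by simp [alM]; linear_combination -he)⟩

/-- An invariant holomorphic function that is bounded at the four cusps is constant. -/
theorem const10 {F : ℂ → ℂ} (hF : Hol F)
    (hinv : ∀ a b c d : ℤ, a * d - b * (10 * c) = 1 → ∀ z : ℂ, 0 < z.im →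
      F (mob a b (10 * c) d z) = F z) (hb : ∀ i, Bdd fun z => F (al i z)) :
    ∃ c, ∀ z : ℂ, 0 < z.im → F z = c := by
  refine const_of_inv 10 hF hinv fun a b c d hd => ?_
  obtain ⟨i, Q, k, α, β, γ, δ, q0, -, -, -, -, h3, H⟩ := exists_decomp hd
  have hQ : (0 : ℝ) < (Q : ℝ)⁻¹ := inv_pos.2 (by exact_mod_cast q0)
  refine ((hb i).comp_affine hQ (k / Q)).congr fun z hz => ?_
  have h4 : (((Q : ℝ)⁻¹ : ℝ) : ℂ) * z + k / Q = (z + k) / Q := by
    push_cast
    ring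
  have h5 : 0 < ((z + k) / Q).im := by
    rw [div_intCast_im]
    exact div_pos (by simpa using hz) (by exact_mod_cast q0)
  rw [h4, H z hz, hinv _ _ _ _ h3 _ (al_im_pos i h5)]

/-- Inequivalent points have inequivalent neighbourhoods. -/
theorem ev_not_eq0 (hz : 0 < z.im) (hw : 0 < w.im) (h : ¬ Eq0 z w) :
    ∀ᶠ p in 𝓝 z ×ˢ 𝓝 w, ¬ Eq0 p.1 p.2 := by
  obtain ⟨K, k1, k2, k3⟩ := local_compact_nhds (Unif.upper_mem_nhds hz)
  obtain ⟨K', l1, l2, l3⟩ := local_compact_nhds (Unif.upper_mem_nhds hw)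
  have h1 := (Unif.finite_SL (k3.union l3) (Set.union_subset k2 l2)).inter_of_left
    {g | 10 ∣ g.2.2.1}
  have h2 := (eventually_all_finite (l := 𝓝 z ×ˢ 𝓝 w)
      (p := fun g p => mob g.1 g.2.1 g.2.2.1 g.2.2.2 p.1 ≠ p.2) h1).mpr <| by
    rintro ⟨a, b, _, d⟩ ⟨⟨hg, -⟩, c, rfl⟩
    exact (((hol_mob (by simp only at hg; omega) z hz).continuousAt.tendsto.comp
      tendsto_fst).sub tendsto_snd).eventually_ne
        (sub_ne_zero.mpr fun h' => h ⟨a, b, c, d, hg, h'.symm⟩) |>.mono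
      fun p hp => sub_ne_zero.mp hp
  filter_upwards [h2, prod_mem_prod k1 l1]
  rintro p hp ⟨p1, p2⟩ ⟨a, b, c, d, h, e⟩
  exact hp (a, b, 10 * c, d) ⟨⟨h, p.1, Or.inl p1, Or.inr (e ▸ p2)⟩, c, rfl⟩ e.symm

/-- A Siegel set. -/
theorem exists_rep (hτ : 0 < τ.im) :
    ∃ (i : Fin 4) (z : ℂ), |z.re| ≤ 11 ∧ 1 / 20 ≤ z.im ∧ Eq0 (al i z) τ := by
  obtain ⟨g, hg⟩ := ModularGroup.exists_smul_mem_fd ⟨τ, hτ⟩
  have h1 := ModularGroup.three_le_four_mul_im_sq_of_mem_fd hg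
  have h2 := hg.2
  have h3 := (g • (⟨τ, hτ⟩ : UpperHalfPlane)).im_pos
  have h4 := det_SL g
  rw [← UpperHalfPlane.coe_im, coe_smul_eq_mob] at h1 h3
  rw [← UpperHalfPlane.coe_re, coe_smul_eq_mob] at h2
  obtain ⟨i, Q, k, α, β, γ, δ, q0, q1, k0, k1, -, hd, H⟩ := exists_decomp (a := g 1 1)
    (b := -g 0 1) (c := -g 1 0) (d := g 0 0) (by linear_combination h4)
  have h5 := H _ h3
  rw [Unif.mob_adj (by omega) hτ] at h5
  generalize mob (g 0 0) (g 0 1) (g 1 0) (g 1 1) _ = w at h1 h2 h3 h5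
  have r0 : (1 : ℝ) ≤ Q := by exact_mod_cast q0
  have r1 : (Q : ℝ) ≤ 10 := by exact_mod_cast q1
  have s0 : (0 : ℝ) ≤ k := by exact_mod_cast k0
  have s1 : (k : ℝ) < 10 := by exact_mod_cast k1
  refine ⟨i, _, ?_, ?_, α, β, γ, δ, hd, h5⟩
  · rw [div_intCast_re, abs_div, abs_of_pos (by linarith : (0 : ℝ) < Q), div_le_iff₀ (by linarith),
      abs_le]
    simp only [add_re, intCast_re]
    constructor <;> linarith [abs_le.mp h2]
  · rw [div_intCast_im, le_div_iff₀ (by linarith)]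
    simp only [add_im, intCast_im]
    nlinarith

theorem al_one (h : 0 < τ.im) : Eq0 (al 2 (al 3 τ)) (al 1 τ) := by
  refine ⟨-7, 3, -4, 17, by norm_num, ?_⟩
  have e1 : al 1 τ = mob 2 1 10 6 τ := rfl
  have e2 : al 2 (al 3 τ) = mob 5 2 10 5 (mob 0 (-1) 10 0 τ) := rfl
  rw [e1, e2, mob_mob (by norm_num) _ _ _ _ h, mob_mob (by norm_num) _ _ _ _ h,
    ← mob_scale (Q := 5) (by norm_num) 2 1 10 6]
  norm_num

end Pool.Agent.Lib.MP_696deb_nt.Y2
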