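import Pool.Agent.Lib.MP_696deb_nt.Y2.M2

/-! The eta products at the cusps. -/

set_option autoImplicit false

open Filter Topology Complex PeriodPair ModularForm PowerSeries Pool.Agent.Shared.Weier
open scoped Real ComplexConjugate

namespace Pool.Agent.Lib.MP_696deb_nt.Y2

open Klein Gal
open QF (G ii ip)
open Pool.Agent.Lib.MP_23455a_nt (lat lat_ω₁ lat_ω₂ mem_lat)

variable {τ z w : ℂ} {a b c d : ℤ}

open MP_23455a_nt.ModA (tendsto_eul tendsto_eul_mul)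

theorem m2e_hol (r : ℕ) [r.AtLeastTwo] : Hol fun z => eta2 ((OfNat.ofNat r : ℂ) * z) :=
  fun z hz => ((hol_eta _ (im_mul_pos hz)).comp z (by fun_prop)).pow 2

theorem hol_gg : Hol gg := fun z hz => ((hol_eta z hz).pow 2).mul (m2e_hol 5 z hz)

theorem gg_ne (h : 0 < τ.im) : gg τ ≠ 0 := mul_ne_zero (eta2_ne h) (eta2_ne (im_five h))

theorem m2e_ne (h : 0 < τ.im) : eta2 τ * eta2 (10 * τ) ^ 2 ≠ 0 :=
  mul_ne_zero (eta2_ne h) (pow_ne_zero 2 (eta2_ne (im_mul_pos h)))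

theorem hol_tt : Hol tt := fun z hz => (((m2e_hol 2 z hz).pow 2).mul (m2e_hol 5 z hz)).div
  (((hol_eta z hz).pow 2).mul ((m2e_hol 10 z hz).pow 2)) (m2e_ne hz)

theorem tt_ne (h : 0 < τ.im) : tt τ ≠ 0 :=
  div_ne_zero (mul_ne_zero (pow_ne_zero 2 (eta2_ne (im_mul_pos h))) (eta2_ne (im_five h)))
    (m2e_ne h)

theorem gg_mob (hd : a * d - b * (10 * c) = 1) (h : 0 < τ.im) :
    sl a b (10 * c) d gg τ = (-1) ^ b * gg τ := by
  have h0 := den_ne (a := a) (b := b) (by omega : a * d - b * (10 * c) ≠ 0) h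
  have h1 := eta2_tr a b (10 * c) d hd τ h
  have h2 := eta2_tr a (5 * b) (2 * c) d (by linear_combination hd) _ (im_five h)
  have h3 := mul_mob (m := 5) a b (2 * c) d τ
  have h4 : ∀ a b c d : ZMod 12, a * d - b * (10 * c) = 1 →
      PsiE a b (10 * c) d + PsiE a (5 * b) (2 * c) d = b * 6 := by decide +kernel
  have h5 := congr_arg e12 (h4 a b c d (by exact_mod_cast congr_arg (Int.cast : ℤ → ZMod 12) hd))
  rw [e12_add, ← zsmul_eq_mul, e12.eq_1 (b • 6), AddChar.map_zsmul_eq_zpow, ← e12.eq_1 6,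
    e12_six] at h5
  rw [show 5 * (2 * c) = 10 * c by ring] at h3
  rw [sl, hd, div_eq_iff (pow_ne_zero 2 h0)]
  push_cast at h1 h2 h3 ⊢
  rw [gg, gg, h3, h1, h2]
  linear_combination ((10 * c * τ + d) ^ 2 * eta2 τ * eta2 (5 * τ)) * h5

theorem gg_al1 (h : 0 < τ.im) : sl 2 1 10 6 gg τ = 2 * gg (2 * τ) := by
  have h0 := den_ne (a := 2) (b := 1) (c := 10) (d := 6) (by norm_num) h
  have h1 := eta2_tr 1 1 5 6 (by norm_num) (2 * τ) (im_mul_pos h)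
  have h5 := eta2_tr 1 5 1 6 (by norm_num) (5 * (2 * τ)) (im_five (im_mul_pos h))
  have e1 : mob 2 1 10 6 τ = mob 1 1 5 6 (2 * τ) := by
    simp only [mob]; push_cast; congr 1 <;> ring
  have h6 := congr_arg e12 (by decide : PsiE 1 1 5 6 + PsiE 1 5 1 6 = 0)
  have e5 := mul_mob (m := 5) 1 1 1 6 (2 * τ)
  rw [e12_add, e12_zero] at h6
  rw [sl, div_eq_iff (pow_ne_zero 2 h0), gg, gg, e1]
  norm_num at h1 h5 e5 ⊢
  rw [e5, h1, h5]
  linear_combination (2 * (10 * τ + 6) ^ 2 * eta2 (2 * τ) * eta2 (5 * (2 * τ))) * h6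

theorem m2e_al2 (h : 0 < τ.im) : 2 * τ + 1 ≠ 0 ∧
    eta2 (al 2 τ) = e12 (PsiE 1 2 2 5) * (5 * (2 * τ + 1)) * eta2 (5 * τ) ∧
    eta2 (2 * al 2 τ) = e12 (PsiE 1 4 1 5) * (5 * (2 * τ + 1)) * eta2 (10 * τ) ∧
    eta2 (5 * al 2 τ) = e12 (PsiE 5 2 2 1) * (2 * τ + 1) * eta2 τ ∧
    eta2 (10 * al 2 τ) = e12 (PsiE 5 4 1 1) * (2 * τ + 1) * eta2 (2 * τ) := by
  have h0 : 2 * τ + 1 ≠ 0 := by
    simpa using den_ne (a := 1) (b := 0) (c := 2) (d := 1) (by norm_num) h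
  have e : al 2 τ = (5 * τ + 2) / (5 * (2 * τ + 1)) := by
    simp only [al, alM, mob]; congr 1; simp; ring
  have h1 := eta2_tr 1 2 2 5 (by norm_num) (5 * τ) (im_five h)
  have h2 := eta2_tr 1 4 1 5 (by norm_num) (10 * τ) (im_mul_pos h)
  have h5 := eta2_tr 5 2 2 1 (by norm_num) τ h
  have h10 := eta2_tr 5 4 1 1 (by norm_num) (2 * τ) (im_mul_pos h)
  simp only [mob] at h1 h2 h5 h10
  push_cast at h1 h2 h5 h10
  rw [show 2 * (5 * τ) + 5 = 5 * (2 * τ + 1) by ring, one_mul] at h1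
  rw [show 1 * (10 * τ) + 5 = 5 * (2 * τ + 1) by ring] at h2
  rw [one_mul] at h10
  refine ⟨h0, e ▸ h1, ?_, ?_, ?_⟩
  · rw [← h2, e]; congr 1; ring
  · rw [← h5, e]; congr 1; field_simp
  · rw [← h10, e]; congr 1; field_simp; ring

theorem gg_al2 (h : 0 < τ.im) : sl 5 2 10 5 gg τ = gg τ := by
  obtain ⟨-, h1, -, h5, -⟩ := m2e_al2 h
  have h6 := congr_arg e12 (by decide : PsiE 1 2 2 5 + PsiE 5 2 2 1 = 0)
  rw [e12_add, e12_zero] at h6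
  rw [sl, div_eq_iff (pow_ne_zero 2 (den_ne (a := 5) (b := 2) (by norm_num) h)), gg, gg,
    show mob 5 2 10 5 τ = al 2 τ from rfl, h1, h5]
  push_cast
  linear_combination (25 * (2 * τ + 1) ^ 2 * eta2 τ * eta2 (5 * τ)) * h6

theorem m2e_al3 (h : 0 < τ.im) : τ ≠ 0 ∧ al 3 τ = -1 / (10 * τ) ∧ 2 * al 3 τ = -1 / (5 * τ) ∧
    5 * al 3 τ = -1 / (2 * τ) ∧ 10 * al 3 τ = -1 / τ := by
  have h0 : τ ≠ 0 := fun e => by simp [e] at h
  have e : al 3 τ = -1 / (10 * τ) := by simp [al, alM, mob]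
  refine ⟨h0, e, ?_, ?_, ?_⟩ <;> rw [e] <;> field_simp <;> norm_num

theorem gg_al3 (h : 0 < τ.im) : sl 0 (-1) 10 0 gg τ = -2 * gg (2 * τ) := by
  obtain ⟨h0, h1, -, h5, -⟩ := m2e_al3 h
  rw [sl, gg, gg, show mob 0 (-1) 10 0 τ = al 3 τ from rfl, h5, h1, eta2_S (im_mul_pos h),
    eta2_S (im_mul_pos h), show 5 * (2 * τ) = 10 * τ by ring, div_eq_iff (by simpa using h0)]
  push_cast
  linear_combination (200 * τ ^ 2 * eta2 (2 * τ) * eta2 (10 * τ)) * I_sq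

theorem gg_bd : ∃ C : ℝ, ∀ z : ℂ, 0 < z.im → ‖gg z‖ * z.im ≤ C := by
  obtain ⟨C, hC⟩ := eta_bound
  refine ⟨C, fun z hz => ?_⟩
  have h1 := hC z hz
  have h5 := hC (5 * z) (im_five hz)
  simp only [mul_im, re_ofNat, im_ofNat, zero_mul, add_zero] at h5
  rw [gg, eta2, eta2, norm_mul, norm_pow, norm_pow]
  nlinarith [mul_nonneg (sq_nonneg (‖η z‖ ^ 2 - ‖η (5 * z)‖ ^ 2)) hz.le,
    mul_nonneg (pow_nonneg (norm_nonneg (η (5 * z))) 4) hz.le]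

theorem tendsto_gg : Tendsto (fun z => gg z / q1 (z / 2)) atI (𝓝 1) := by
  simpa using ((tendsto_eul.pow 2).mul ((tendsto_eul_mul 5).pow 2)).congr fun z => by
    have e : q1 (z / 2) = q1 (z / 24) ^ 2 * q1 (5 * z / 24) ^ 2 := by
      simp only [← q1_nat_mul, ← q1_add]
      congr 1
      push_cast
      ring
    rw [eq_div_iff (q1_ne _), e, gg, eta2, eta2, MP_23455a_nt.ModA.eta_q,
      MP_23455a_nt.ModA.eta_q]
    ring

theorem tendsto_tt : Tendsto (fun z => q1 z * tt z) atI (𝓝 1) := by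
  simpa using ((((tendsto_eul_mul 2).pow 4).mul ((tendsto_eul_mul 5).pow 2)).div
    ((tendsto_eul.pow 2).mul ((tendsto_eul_mul 10).pow 4)) (by simp)).congr'
      (ev_pos.mono fun z hz => by
    have e : q1 z * (q1 (2 * z / 24) ^ 4 * q1 (5 * z / 24) ^ 2) =
        q1 (z / 24) ^ 2 * q1 (10 * z / 24) ^ 4 := by
      simp only [← q1_nat_mul, ← q1_add]
      congr 1
      push_cast
      ring
    rw [Pi.div_apply, tt, ← mul_div_assoc, div_eq_div_iff (mul_ne_zero (pow_ne_zero _ (eul_ne hz))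
      (pow_ne_zero _ (eul_ne (im_mul_pos hz)))) (m2e_ne hz)]
    simp only [eta2, MP_23455a_nt.ModA.eta_q]
    linear_combination -(eul (q1 (2 * z)) ^ 4 * eul (q1 (5 * z)) ^ 2 * eul (q1 z) ^ 2 *
      eul (q1 (10 * z)) ^ 4) * e)

theorem tt_al2 (h : 0 < τ.im) : tt (al 2 τ) = 5 / tt τ := by
  obtain ⟨-, h1, h2, h5, h10⟩ := m2e_al2 h
  have h6 := congr_arg e12 (by decide : PsiE 1 4 1 5 + PsiE 1 4 1 5 + PsiE 5 2 2 1 =
    PsiE 1 2 2 5 + (PsiE 5 4 1 1 + PsiE 5 4 1 1))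
  simp only [e12_add] at h6
  rw [eq_div_iff (tt_ne h), tt, tt, div_mul_div_comm,
    div_eq_iff (mul_ne_zero (m2e_ne (al_im_pos 2 h)) (m2e_ne h)), h1, h2, h5, h10]
  linear_combination (25 * (2 * τ + 1) ^ 3 * eta2 τ * eta2 (2 * τ) ^ 2 * eta2 (5 * τ) *
    eta2 (10 * τ) ^ 2) * h6

theorem tt_al3' (h : 0 < τ.im) :
    tt (al 3 τ) = 5 * (η (5 * τ) ^ 4 * η (2 * τ) ^ 2 / (η (10 * τ) ^ 2 * η τ ^ 4)) := by
  obtain ⟨-, h1, h2, h5, h10⟩ := m2e_al3 h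
  rw [tt, ← mul_div_assoc, div_eq_div_iff (m2e_ne (al_im_pos 3 h)) (mul_ne_zero
    (pow_ne_zero _ (eta_ne (im_mul_pos h))) (pow_ne_zero _ (eta_ne h))), h2, h5, h10, h1,
    eta2_S h, eta2_S (im_mul_pos h), eta2_S (im_mul_pos h), eta2_S (im_mul_pos h)]
  simp only [eta2]
  ring

theorem m2e_sqrt (h : z ≠ 0) : sqrt (5 * z) = cexp (Real.log 5 / 2) * sqrt z := by
  have := Complex.log_ofReal_mul (r := 5) (by norm_num) h
  rw [ofReal_ofNat] at this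
  rw [sqrt_eq_exp h, sqrt_eq_exp (mul_ne_zero (by norm_num) h), this, add_div, Complex.exp_add]

theorem e1_al3 (h : 0 < τ.im) :
    η (2 * al 3 τ) * η (5 * al 3 τ) ^ 5 / (η (al 3 τ) * η (10 * al 3 τ) ^ 5) =
      4 * (η (5 * τ) * η (2 * τ) ^ 5 / (η (10 * τ) * η τ ^ 5)) := by
  obtain ⟨h0, h1, h2, h5, h10⟩ := m2e_al3 h
  have k := al_im_pos 3 h
  have e := m2e_sqrt (mul_ne_zero two_ne_zero h0)
  have e4 : sqrt (2 * τ) ^ 4 = 4 * sqrt τ ^ 4 := by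
    rw [show 4 = 2 * 2 from rfl, pow_mul, pow_mul, csqrt_sq, csqrt_sq]
    ring
  rw [show 5 * (2 * τ) = 10 * τ by ring] at e
  rw [← mul_div_assoc, div_eq_div_iff (mul_ne_zero (eta_ne k) (pow_ne_zero _
    (eta_ne (im_mul_pos k)))) (mul_ne_zero (eta_ne (im_mul_pos h)) (pow_ne_zero _ (eta_ne h))),
    h2, h5, h10, h1, eta_S h, eta_S (im_mul_pos h), eta_S (im_mul_pos h), eta_S (im_mul_pos h), e,
    m2e_sqrt h0]
  linear_combination ((sqrt I)⁻¹ ^ 6 * cexp (Real.log 5 / 2) * sqrt τ * sqrt (2 * τ) * η (5 * τ) *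
    η (2 * τ) ^ 5 * η (10 * τ) * η τ ^ 5) * e4

end Pool.Agent.Lib.MP_696deb_nt.Y2
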