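import Pool.Agent.Lib.MP_696deb_nt.Y2.M1
import Pool.Agent.Lib.MP_696deb_nt.Y2.M2e

/-! The Hauptmodul of level ten. -/

set_option autoImplicit false

open Filter Topology Complex PeriodPair ModularForm PowerSeries Pool.Agent.Shared.Weier
open scoped Real ComplexConjugate

namespace Pool.Agent.Lib.MP_696deb_nt.Y2

open Klein Gal
open QF (G ii ip)
open Pool.Agent.Lib.MP_23455a_nt (lat lat_ω₁ lat_ω₂ mem_lat)

variable {τ z w : ℂ} {a b c d : ℤ}

theorem m3_ne (h : 0 < τ.im) : η τ ≠ 0 ∧ η (2 * τ) ≠ 0 ∧ η (5 * τ) ≠ 0 ∧ η (10 * τ) ≠ 0 :=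
  ⟨eta_ne h, eta_ne (im_mul_pos h), eta_ne (im_mul_pos h), eta_ne (im_mul_pos h)⟩

theorem m3_tt (τ : ℂ) : tt τ = η (2 * τ) ^ 4 * η (5 * τ) ^ 2 / (η τ ^ 2 * η (10 * τ) ^ 4) := by
  simp only [tt, eta2, ← pow_mul]

theorem tt_sub_five (h : 0 < τ.im) :
    tt τ - 5 = η τ ^ 3 * η (5 * τ) / (η (2 * τ) * η (10 * τ) ^ 3) := by
  have h1 := tt_sub_one h
  have h2 := tt_sub_one (al_im_pos 3 h)
  rw [e1_al3 h, tt_al3' h] at h2
  obtain ⟨n1, n2, n3, n4⟩ := m3_ne h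
  rw [m3_tt] at h1 ⊢
  generalize η τ = x, η (2 * τ) = y, η (5 * τ) = u, η (10 * τ) = v at *
  have e1 : x ^ 3 * u / (y * v ^ 3) * (u ^ 4 * y ^ 2 / (v ^ 2 * x ^ 4)) = y * u ^ 5 / (x * v ^ 5) := by
    field_simp
  have e2 : x ^ 3 * u / (y * v ^ 3) * (u * y ^ 5 / (v * x ^ 5)) =
      y ^ 4 * u ^ 2 / (x ^ 2 * v ^ 4) := by field_simp
  linear_combination 5 * h1 + x ^ 3 * u / (y * v ^ 3) * h2 - 5 * e1 + 4 * e2

theorem tt_ne_one (h : 0 < τ.im) : tt τ ≠ 1 := by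
  obtain ⟨n1, n2, n3, n4⟩ := m3_ne h
  rw [← sub_ne_zero, tt_sub_one h]
  positivity

theorem tt_ne_five (h : 0 < τ.im) : tt τ ≠ 5 := by
  obtain ⟨n1, n2, n3, n4⟩ := m3_ne h
  rw [← sub_ne_zero, tt_sub_five h]
  positivity

theorem tt_al3 (h : 0 < τ.im) : tt (al 3 τ) = 5 * (tt τ - 1) / (tt τ - 5) := by
  obtain ⟨n1, n2, n3, n4⟩ := m3_ne h
  rw [tt_al3' h, tt_sub_one h, tt_sub_five h]
  field_simp

theorem tt_al1 (h : 0 < τ.im) : tt (al 1 τ) = (tt τ - 5) / (tt τ - 1) := by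
  obtain ⟨a, b, c, d, hd, e⟩ := al_one h
  rw [e, tt_mob hd (al_im_pos 2 (al_im_pos 3 h)), tt_al2 (al_im_pos 3 h), tt_al3 h, div_div_eq_mul_div,
    mul_div_mul_left _ _ (by norm_num)]

/-- The values at the cusps (the value at infinity is a dummy). -/
def alT : Fin 4 → ℤ := ![0, 1, 0, 5]

theorem tendsto_tt_al {i : Fin 4} (hi : i ≠ 0) :
    Tendsto (fun z => tt (al i z)) atI (𝓝 (alT i)) := by
  have u : Tendsto (fun z => (tt z)⁻¹) atI (𝓝 0) := by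
    simpa using (tendsto_q1.div tendsto_tt one_ne_zero).congr fun z => by
      rw [Pi.div_apply, div_mul_cancel_left₀ (q1_ne z)]
  have u1 := u.const_sub 1
  have u5 := (u.const_mul 5).const_sub 1
  have e : ∀ z : ℂ, 0 < z.im → ∀ x y : ℂ,
      (1 - x * (tt z)⁻¹) / (1 - y * (tt z)⁻¹) = (tt z - x) / (tt z - y) := fun z hz x y => by
    rw [← mul_div_mul_right _ _ (tt_ne hz), sub_mul, sub_mul, inv_mul_cancel_right₀ (tt_ne hz),
      inv_mul_cancel_right₀ (tt_ne hz), one_mul]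
  fin_cases i
  · exact absurd rfl hi
  · simpa [alT] using (u5.div u1 (by simp)).congr' (ev_pos.mono fun z hz => by
      simpa [tt_al1 hz] using e z hz 5 1 : _ =ᶠ[atI] fun z => tt (al 1 z))
  · simpa [alT] using (u.const_mul 5).congr' (ev_pos.mono fun z hz => by
      simp only [tt_al2 hz, div_eq_mul_inv] : _ =ᶠ[atI] fun z => tt (al 2 z))
  · simpa [alT] using ((u1.div u5 (by simp)).const_mul 5).congr' (ev_pos.mono fun z hz => by
      simpa [tt_al3 hz, mul_div_assoc] using e z hz 1 5 : _ =ᶠ[atI] fun z => tt (al 3 z))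

theorem m3_low (d : ℕ) (hd : d + 2 ≠ 0) : ∃ R : ℤ⟦X⟧, expand (d + 2) hd P1 = 1 + X ^ 2 * R := by
  obtain ⟨R, hR⟩ : X ∣ P1 - 1 := X_dvd_iff.2 (by simp [cc_P1])
  exact ⟨X ^ d * expand (d + 2) hd R, by
    rw [eq_add_of_sub_eq' hR, map_add, map_one, map_mul, expand_X]; ring⟩

/-- The expansion of the Hauptmodul has integral coefficients. -/
theorem qe_tt : ∃ R : ℤ⟦X⟧, QE (fun z => q1 z * tt z) (toC (1 + 2 * X + X ^ 2 * R)) := by
  obtain ⟨R1, h1⟩ := P1_low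
  obtain ⟨R2, h2⟩ := m3_low 0 (by norm_num)
  obtain ⟨R5, h5⟩ := m3_low 3 (by norm_num)
  obtain ⟨R0, h0⟩ := m3_low 8 (by norm_num)
  have k : ∀ {d : ℕ} {hd : d ≠ 0} {R : ℤ⟦X⟧}, expand d hd P1 = R →
      QE (fun z => eul (q1 (d * z))) (toC R) := fun {d hd R} e => by
    simpa only [← e, map_expand] using qe_P1.expand d hd
  obtain ⟨D, hD⟩ : ∃ D, P1 ^ 2 * (1 + X ^ 2 * R0) ^ 4 * D = 1 :=
    ⟨_, mul_invOfUnit _ 1 (by simp [cc_P1])⟩
  obtain ⟨R, hR⟩ : X ^ 2 ∣ (1 + X ^ 2 * R2) ^ 4 * (1 + X ^ 2 * R5) ^ 2 -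
      (1 + 2 * X) * (P1 ^ 2 * (1 + X ^ 2 * R0) ^ 4) := by
    let φ := Ideal.Quotient.mk (Ideal.span {(X : ℤ⟦X⟧) ^ 2})
    have hx : φ X ^ 2 = 0 := by
      rw [← map_pow, Ideal.Quotient.eq_zero_iff_mem]; exact Ideal.mem_span_singleton_self _
    have hx5 : φ X ^ 5 = 0 := by linear_combination φ X ^ 3 * hx
    refine Ideal.mem_span_singleton.1 (Ideal.Quotient.eq_zero_iff_mem.1 (show φ _ = 0 from ?_))
    simp only [h1, map_sub, map_add, map_mul, map_pow, map_ofNat, map_one, hx, hx5]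
    linear_combination (3 - 2 * φ X) * hx
  refine ⟨R * D, ?_⟩
  rw [show 1 + 2 * X + X ^ 2 * (R * D) = (1 + X ^ 2 * R2) ^ 4 * (1 + X ^ 2 * R5) ^ 2 * D by
    linear_combination -D * hR - (1 + 2 * X) * hD, map_mul, map_mul, map_pow, map_pow]
  refine ((((k h2).pow 4).mul ((k h5).pow 2)).mul (((qe_P1.pow 2).mul ((k h0).pow 4)).inv
    (fun z hz => mul_ne_zero (pow_ne_zero _ (eul_ne hz)) (pow_ne_zero _ (eul_ne (by simpa using hz))))
    (by rw [← map_pow, ← map_pow, ← map_mul, ← map_mul, hD, map_one]))).congr fun z _ => ?_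
  have e : ∀ (n : ℕ) (z : ℂ), q1 (n * z / 24) = q1 (z / 24) ^ n := fun n z => by
    rw [mul_div_assoc, q1_nat_mul]
  have e2 := e 2 z
  have e5 := e 5 z
  have e0 := e 10 z
  have e1 := e 24 z
  have := q1_ne (z / 24)
  push_cast at e2 e5 e0 e1 ⊢
  rw [mul_div_cancel_left₀ _ (by norm_num)] at e1
  simp only [m3_tt, MP_23455a_nt.ModA.eta_q, e2, e5, e0]
  nth_rw 1 [e1]
  field_simp

/-- The expansion principle at level ten. -/
theorem exists_poly_tt {S : AddSubgroup ℂ} (n : ℕ) {F : ℂ → ℂ} {A : ℂ⟦X⟧}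
    (hinv : ∀ a b c d : ℤ, a * d - b * (10 * c) = 1 → ∀ z : ℂ, 0 < z.im →
      F (mob a b (10 * c) d z) = F z) (hb : ∀ i, i ≠ 0 → Bdd fun z => F (al i z))
    (hA : QE (fun z => q1 z ^ n * F z) A) (hS : Cf S A) :
    ∃ P : Polynomial ℂ, (∀ k, P.coeff k ∈ S) ∧ P.natDegree ≤ n ∧ P.coeff n = coeff 0 A ∧
      ∀ z : ℂ, 0 < z.im → F z = P.eval (tt z) := by
  induction n generalizing F A with
  | zero =>
    replace hA : QE F A := hA.congr fun z _ => by simp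
    obtain ⟨c, hc⟩ := const10 hA.hol hinv fun i => by
      rcases eq_or_ne i 0 with rfl | hi
      exacts [hA.bdd.congr fun z _ => by rw [al_zero], hb i hi]
    refine ⟨.C (coeff 0 A), fun k => ?_, by simp, by simp, fun z hz => ?_⟩
    · rw [Polynomial.coeff_C]
      split_ifs
      exacts [hS 0, S.zero_mem]
    · rw [Polynomial.eval_C, hc z hz]
      exact tendsto_nhds_unique
        (tendsto_const_nhds.congr' (ev_pos.mono fun z hz => (hc z hz).symm)) hA.tendsto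
  | succ n ih =>
    obtain ⟨R, hR⟩ := qe_tt
    obtain ⟨B, hB⟩ : X ∣ A - C (coeff 0 A) * toC ((1 + 2 * X + X ^ 2 * R) ^ (n + 1)) := by
      rw [X_dvd_iff, ← coeff_zero_eq_constantCoeff, map_sub, coeff_C_mul, cc_toC]
      simp
    have h1 := hA.sub ((hR.pow (n + 1)).smul (coeff 0 A))
    rw [← map_pow, hB, ← pow_one X] at h1
    obtain ⟨P, p1, p2, -, p4⟩ := ih (F := fun z => F z - coeff 0 A * tt z ^ (n + 1)) (A := B)
      (fun a b c d hd z hz => by simp only [hinv a b c d hd z hz, tt_mob hd hz])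
      (fun i hi => (hb i hi).sub ((Bdd.const _).mul (.of_tendsto ((tendsto_tt_al hi).pow _))))
      (h1.of_X_pow_mul.congr fun z _ => by have := q1_ne z; field_simp; ring)
      (Cf.of_X_mul (hB ▸ hS.sub (Cf.const_mul_toC (hS 0) _)))
    refine ⟨P + .monomial (n + 1) (coeff 0 A), fun k => ?_, ?_, ?_, fun z hz => ?_⟩
    · rw [Polynomial.coeff_add, Polynomial.coeff_monomial]
      split_ifs
      exacts [S.add_mem (p1 k) (hS 0), S.add_mem (p1 k) S.zero_mem]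
    · exact (Polynomial.natDegree_add_le _ _).trans
        (max_le (by omega) (Polynomial.natDegree_monomial_le _))
    · rw [Polynomial.coeff_add, Polynomial.coeff_eq_zero_of_natDegree_lt (by omega),
        Polynomial.coeff_monomial_same, zero_add]
    · rw [Polynomial.eval_add, Polynomial.eval_monomial, ← p4 z hz, sub_add_cancel]

theorem s_eq (h : 0 < τ.im) : (η τ / η (2 * τ)) ^ 24 = (tt τ - 1) * (tt τ - 5) ^ 5 / tt τ ^ 5 := by
  obtain ⟨n1, n2, n3, n4⟩ := m3_ne h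
  rw [tt_sub_one h, tt_sub_five h, m3_tt]
  generalize η τ = x, η (2 * τ) = y, η (5 * τ) = u, η (10 * τ) = v at *
  field_simp

theorem hh_sq (h : 0 < τ.im) : (uy τ * uz τ) ^ 2 = tt τ * (tt τ ^ 2 - 2 * tt τ + 5) := by
  rw [mul_pow, uy_sq h, uz_sq h, ← ux_sq h]
  linear_combination -4 * ux τ ^ 2 * I_mul_I

end Pool.Agent.Lib.MP_696deb_nt.Y2
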