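import Pool.Agent.Lib.MP_696deb_nt.Y2.M3

/-! The derivative of the Hauptmodul and the cusp form. -/

set_option autoImplicit false

open Filter Topology Complex PeriodPair ModularForm PowerSeries Pool.Agent.Shared.Weier
open scoped Real ComplexConjugate

namespace Pool.Agent.Lib.MP_696deb_nt.Y2

open Klein Gal
open QF (G ii ip)
open Pool.Agent.Lib.MP_23455a_nt (lat lat_ω₁ lat_ω₂ mem_lat)

variable {τ z w : ℂ} {a b c d : ℤ}

namespace M4

open Pool.Agent.Lib.MP_23455a_nt.ModA Asymptotics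

/-- The normalised derivative of the Hauptmodul. -/
noncomputable def EE (z : ℂ) : ℂ := deriv tt z / (2 * π * I)

lemma hasDerivAt_EE (h : 0 < z.im) : HasDerivAt tt (2 * π * I * EE z) z := by
  rw [EE, mul_div_cancel₀ _ two_pi_I]
  exact (hol_tt z h).hasDerivAt

lemma qe_EE : ∃ A B : ℂ⟦X⟧, QE (fun z => q1 z * tt z) (1 + 2 * X + X ^ 2 * A) ∧
    QE (fun z => q1 z * EE z) (-1 + X ^ 2 * B) := by
  obtain ⟨R, hT⟩ := qe_tt
  simp only [map_add, map_mul, map_pow, map_X, map_one, map_ofNat] at hT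
  obtain ⟨T, h1, h2⟩ := hT.hasDerivAt
  refine ⟨_, toC R + X * d⁄dX ℂ (toC R), hT, ?_⟩
  have e : X * d⁄dX ℂ (1 + 2 * X + X ^ 2 * toC R) - (1 + 2 * X + X ^ 2 * toC R) =
      -1 + X ^ 2 * (toC R + X * d⁄dX ℂ (toC R)) := by
    rw [two_mul, sq]
    simp only [map_add, Derivation.leibniz, derivative_X, Derivation.map_one_eq_zero, smul_eq_mul]
    ring
  rw [← e]
  refine (h1.sub hT).congr fun z hz => mul_left_cancel₀ two_pi_I ?_
  have h3 := (h2 z hz).unique ((hasDerivAt_q1 z).mul (hasDerivAt_EE hz))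
  linear_combination -h3

lemma hol_EE : Hol EE := fun z hz => by
  obtain ⟨A, B, -, h⟩ := qe_EE
  have h1 := (h.hol z hz).div (hasDerivAt_q1 z).differentiableAt (q1_ne z)
  convert! h1 using 1
  ext w
  simp [q1_ne w]

lemma tendsto_EE : Tendsto (fun z => q1 z * EE z) atI (𝓝 (-1)) := by
  obtain ⟨A, B, -, h⟩ := qe_EE
  simpa using h.tendsto

lemma sl_EE (h : 0 < a * d - b * c) {p r u v : ℂ} (h0 : ∀ z : ℂ, 0 < z.im → u * tt z + v ≠ 0)
    (hM : ∀ z : ℂ, 0 < z.im → tt (mob a b c d z) = (p * tt z + r) / (u * tt z + v))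
    (hz : 0 < z.im) : sl a b c d EE z = (p * v - r * u) * (EE z / (u * tt z + v) ^ 2) := by
  have h1 := (hasDerivAt_EE (im_mob_pos h hz)).comp z (hasDerivAt_mob h.ne' hz)
  have h2 := (((hasDerivAt_EE hz).const_mul p).add_const r).div
    (((hasDerivAt_EE hz).const_mul u).add_const v) (h0 z hz)
  have h3 := (h1.congr_of_eventuallyEq
    (mem_of_superset (Unif.upper_mem_nhds hz) fun w hw => (hM w hw).symm)).unique h2
  apply mul_left_cancel₀ two_pi_I
  rw [sl]
  linear_combination h3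

lemma xi_conj (hd : a * d - b * (10 * c) = 1) : (xi b d : ℂ) ^ 4 = 1 ∧ ‖(xi b d : ℂ)‖ = 1 ∧
    (xi b d : ℂ) * conj (xi b d : ℂ) = 1 := by
  have h1 : (xi b d : ℂ) ^ 4 = 1 := by rw [← map_pow, xi_four hd, map_one]
  have h2 := Complex.norm_eq_one_of_pow_eq_one h1 (by norm_num)
  exact ⟨h1, h2, by rw [mul_conj', h2]; simp⟩

lemma neg_sq (b : ℤ) : (-1 : ℂ) ^ b * (-1) ^ b = 1 := by rw [← mul_zpow]; simp

/-- The function whose vanishing is the differential equation. -/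
noncomputable def ZZ (z : ℂ) : ℂ := EE z / gg z + uy z * uz z

lemma ZZ_mob (hd : a * d - b * (10 * c) = 1) (hz : 0 < z.im) :
    ZZ (mob a b (10 * c) d z) = (-1) ^ b * ZZ z := by
  have h1 := sl_EE (p := 1) (r := 0) (u := 0) (v := 1) (by omega : 0 < a * d - b * (10 * c))
    (by simp) (fun w hw => by simpa using tt_mob hd hw) hz
  have h2 := (xi_conj hd).2.2
  have h3 := neg_sq b
  have h4 := gg_ne hz
  have h5 : (-1 : ℂ) ^ b ≠ 0 := zpow_ne_zero _ (by simp)
  rw [ZZ, ZZ, div_mob (by omega) _ _ hz, h1, gg_mob hd hz, uy_mob hd hz, uz_mob hd hz]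
  field_simp
  linear_combination -EE z * h3 + ((-1) ^ b) ^ 2 * gg z * uy z * uz z * h2

lemma tendsto_gg1 : Tendsto (fun z => q1 z / gg z) atI (𝓝 0) := by
  have h1 := tendsto_q1.comp (tendsto_affine (r := 1 / 2) (by norm_num) 0)
  have h2 := h1.div tendsto_gg one_ne_zero
  rw [zero_div] at h2
  refine h2.congr fun z => ?_
  have e : q1 z = q1 (z / 2) * q1 (z / 2) := by rw [← q1_add, add_halves]
  simp only [Pi.div_apply, Function.comp]
  rw [e, div_div_eq_mul_div]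
  congr 3
  push_cast
  ring

lemma tendsto_gg2 : Tendsto (fun z => gg (2 * z) / q1 z) atI (𝓝 1) := by
  refine (tendsto_gg.comp (tendsto_affine (r := 2) (by norm_num) 0)).congr fun z => ?_
  simp

lemma bdd_EE {g : ℂ → ℂ} (hg : Bdd fun z => q1 z / g z) (v : ℂ) :
    Bdd fun z => EE z / (1 * tt z + v) ^ 2 / g z := by
  have h1 := tendsto_EE.div ((tendsto_tt.add (tendsto_q1.const_mul v)).pow 2) (by simp)
  refine ((Bdd.of_tendsto h1).mul hg).congr fun z _ => ?_
  have := q1_ne z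
  simp only [Pi.div_apply]
  rw [show q1 z * tt z + v * q1 z = q1 z * (1 * tt z + v) by ring]
  generalize 1 * tt z + v = x
  simp only [div_eq_mul_inv, mul_pow, mul_inv]
  field_simp

lemma bdd_al {i : Fin 4} (hi : i ≠ 0) : Bdd fun z => ZZ (al i z) := by
  have b2 : Bdd fun z => q1 z / gg (2 * z) :=
    (Bdd.of_tendsto (tendsto_gg2.inv₀ one_ne_zero)).congr fun z _ => (inv_div _ _).symm
  have t := tendsto_tt_al hi
  refine Bdd.add ?_ (Bdd.of_sq ((Bdd.of_tendsto (t.mul (((t.pow 2).sub (t.const_mul 2)).add_const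
    5))).congr fun z hz => hh_sq (al_im_pos i hz)))
  fin_cases i
  · exact absurd rfl hi
  · refine ((Bdd.const 2).mul (bdd_EE b2 (-1))).congr fun z hz => ?_
    change EE (mob 2 1 10 6 z) / gg (mob 2 1 10 6 z) = _
    rw [div_mob (by norm_num) _ _ hz, gg_al1 hz, sl_EE (a := 2) (b := 1) (c := 10) (d := 6)
      (p := 1) (r := -5) (u := 1) (v := -1) (by norm_num)
      (fun w hw => by simpa [← sub_eq_add_neg, sub_eq_zero] using tt_ne_one hw)
      (fun w hw => (tt_al1 hw).trans (by ring)) hz]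
    ring
  · refine ((Bdd.const (-5)).mul (bdd_EE (Bdd.of_tendsto tendsto_gg1) 0)).congr fun z hz => ?_
    change EE (mob 5 2 10 5 z) / gg (mob 5 2 10 5 z) = _
    rw [div_mob (by norm_num) _ _ hz, gg_al2 hz, sl_EE (a := 5) (b := 2) (c := 10) (d := 5)
      (p := 0) (r := 5) (u := 1) (v := 0) (by norm_num)
      (fun w hw => by simpa using tt_ne hw)
      (fun w hw => (tt_al2 hw).trans (by ring)) hz]
    ring
  · refine ((Bdd.const 10).mul (bdd_EE b2 (-5))).congr fun z hz => ?_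
    change EE (mob 0 (-1) 10 0 z) / gg (mob 0 (-1) 10 0 z) = _
    rw [div_mob (by norm_num) _ _ hz, gg_al3 hz, sl_EE (a := 0) (b := -1) (c := 10) (d := 0)
      (p := 5) (r := -5) (u := 1) (v := -5) (by norm_num)
      (fun w hw => by simpa [← sub_eq_add_neg, sub_eq_zero] using tt_ne_five hw)
      (fun w hw => (tt_al3 hw).trans (by ring)) hz]
    ring

lemma qe_low (n : ℕ) : ∃ R : ℂ⟦X⟧, QE (fun z => eul (q1 ((n + 2 : ℕ) * z))) (1 + X ^ 2 * R) := by
  obtain ⟨R, hR⟩ := P1_low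
  have h := qe_P1.expand (n + 2) (by omega)
  rw [show P1 = 1 + X * (-1 - X + X ^ 4 * R) by rw [hR]; ring] at h
  generalize -1 - X + X ^ 4 * R = S at h
  refine ⟨X ^ n * expand (n + 2) (by omega) (toC S), ?_⟩
  simp only [map_add, map_mul, map_one, map_X, expand_X] at h
  convert h using 2
  ring

lemma ux_gg (hz : 0 < z.im) : ux z * gg z * eul (q1 (10 * z)) ^ 2 =
    eul (q1 z) * eul (q1 (2 * z)) ^ 2 * eul (q1 (5 * z)) ^ 3 := by
  have e : q1 (10 * z / 24) ^ 2 = q1 (z / 24) * q1 (2 * z / 24) ^ 2 * q1 (5 * z / 24) ^ 3 := by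
    simp only [← q1_nat_mul, ← q1_add]
    congr 1
    push_cast
    ring
  have l1 := eul_ne hz
  have l10 := eul_ne (z := 10 * z) (im_mul_pos hz)
  have n1 := q1_ne (z / 24)
  have n2 := q1_ne (2 * z / 24)
  have n5 := q1_ne (5 * z / 24)
  rw [ux_eta hz, gg, eta2, eta2]
  simp only [MP_23455a_nt.ModA.eta_q, mul_pow, e]
  generalize eul (q1 (2 * z)) = x2, eul (q1 (5 * z)) = x5, eul (q1 (10 * z)) = x10,
    q1 (2 * z / 24) = y2, q1 (5 * z / 24) = y5 at l10 n2 n5 ⊢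
  field_simp

lemma tendsto_ub : Tendsto ub atI (𝓝 0) := by
  have h1 := tendsto_q1.comp (tendsto_affine (r := 1 / 4) (by norm_num) 0)
  have h2 := h1.mul (((tendsto_W10 (j := 2) (by norm_num)).mul (tendsto_W10 (j := 8)
    (by norm_num))).div ((tendsto_W10 (j := 3) (by norm_num)).mul (tendsto_W10 (j := 7)
    (by norm_num))) (by simp))
  rw [zero_mul] at h2
  refine h2.congr' (ev_pos.mono fun z hz => ?_)
  simp only [Pi.div_apply, Function.comp]
  rw [ub_eq hz]
  congr 2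
  push_cast
  ring

lemma tendsto_ZZ : Tendsto ZZ atI (𝓝 0) := by
  obtain ⟨A, B, hT, hE⟩ := qe_EE
  obtain ⟨R1, e1⟩ := P1_low
  obtain ⟨R2, h2⟩ := qe_low 0
  obtain ⟨R5, h5⟩ := qe_low 3
  obtain ⟨R10, h10⟩ := qe_low 8
  have h1 := qe_P1
  rw [e1] at h1
  simp only [map_add, map_sub, map_mul, map_pow, map_X, map_one] at h1
  have hN := ((h10.pow 2).mul hE).add (((h1.mul (h2.pow 2)).mul (h5.pow 3)).mul (hT.sub QE.q))
  obtain ⟨N, e⟩ : X ^ 2 ∣ (1 + X ^ 2 * R10) ^ 2 * (-1 + X ^ 2 * B) +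
      (1 - X - X ^ 2 + X ^ 5 * toC R1) * (1 + X ^ 2 * R2) ^ 2 * (1 + X ^ 2 * R5) ^ 3 *
        (1 + 2 * X + X ^ 2 * A - X) := by
    rw [← Ideal.mem_span_singleton, ← Ideal.Quotient.eq_zero_iff_mem]
    have hx : Ideal.Quotient.mk (Ideal.span {(X : ℂ⟦X⟧) ^ 2}) X ^ 2 = 0 := by
      rw [← map_pow, Ideal.Quotient.eq_zero_iff_mem]; exact Ideal.mem_span_singleton_self _
    generalize Ideal.Quotient.mk (Ideal.span {(X : ℂ⟦X⟧) ^ 2}) = φ at hx ⊢
    simp only [map_add, map_sub, map_mul, map_pow, map_one, map_neg, map_ofNat, hx]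
    linear_combination (-1 + φ X ^ 3 * φ (toC R1) * (1 + φ X)) * hx
  rw [e] at hN
  have h3 := ((tendsto_gg1.mul (hN.of_X_pow_mul.tendsto.div (h10.pow 2).tendsto (by simp))).add
    ((tendsto_ub.pow 2).const_mul 2))
  simp only [zero_mul, zero_add, ne_eq, OfNat.ofNat_ne_zero, not_false_eq_true, zero_pow,
    mul_zero] at h3
  refine h3.congr' (ev_pos.mono fun z hz => ?_)
  have l0 := q1_ne z
  have l1 := gg_ne hz
  have l10 := eul_ne (z := 10 * z) (im_mul_pos hz)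
  have k : uy z * uz z = ux z * (tt z - 1) + 2 * ub z ^ 2 := by
    rw [uy, uz, ← ux_sq hz]
    linear_combination u_rel hz - ub z ^ 2 * I_mul_I
  simp only [Pi.div_apply, Nat.reduceAdd, Nat.cast_ofNat]
  rw [← ux_gg hz, ZZ, k]
  generalize eul (q1 (10 * z)) = x at l10 ⊢
  field_simp
  ring

lemma ZZ_eq (hz : 0 < z.im) : ZZ z = 0 := by
  obtain ⟨k, hk⟩ := const10 (F := fun z => ZZ z ^ 2)
    (fun z hz => (((hol_EE z hz).div (hol_gg z hz) (gg_ne hz)).add
      ((hol_uy z hz).mul (hol_uz z hz))).pow 2)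
    (fun a b c d hd z hz => by rw [ZZ_mob hd hz, mul_pow, sq, neg_sq, one_mul])
    fun i => by
      have h : Bdd fun z => ZZ (al i z) := by
        rcases eq_or_ne i 0 with rfl | hi
        · simpa only [al_zero] using Bdd.of_tendsto tendsto_ZZ
        · exact bdd_al hi
      simpa only [sq] using h.mul h
  have h0 : k = 0 ^ 2 := tendsto_nhds_unique
    (tendsto_const_nhds.congr' (ev_pos.mono fun z hz => (hk z hz).symm)) (tendsto_ZZ.pow 2)
  simpa [h0] using hk z hz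

lemma bd_of_rep {Φ : ℂ → ℂ} (hc : ∀ z : ℂ, 0 < z.im → ContinuousAt Φ z)
    (hinv : ∀ z w : ℂ, 0 < z.im → Eq0 z w → ‖Φ w‖ = ‖Φ z‖) (hb : ∀ i, Bdd fun z => Φ (al i z)) :
    ∃ C : ℝ, ∀ z : ℂ, 0 < z.im → ‖Φ z‖ ≤ C := by
  have key : ∀ i, ∃ C : ℝ, ∀ z : ℂ, |z.re| ≤ 11 → 1 / 20 ≤ z.im → ‖Φ (al i z)‖ ≤ C := fun i => by
    obtain ⟨C, hC⟩ := (hb i).bound
    obtain ⟨M, hM⟩ := eventually_atTop.1 (eventually_comap.1 hC)
    obtain ⟨D, hD⟩ := ((isCompact_Icc (a := (-11 : ℝ)) (b := 11)).reProdIm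
      (isCompact_Icc (a := (1 / 20 : ℝ)) (b := M))).exists_bound_of_continuousOn
      (f := fun z => Φ (al i z)) fun z hz => by
        have h0 : 0 < z.im := lt_of_lt_of_le (by norm_num) hz.2.1
        exact ((hc _ (al_im_pos i h0)).comp
          (hol_mob (alM_det i).ne' z h0).continuousAt).continuousWithinAt
    refine ⟨max C D, fun z h1 h2 => ?_⟩
    rcases le_total z.im M with h | h
    · exact (hD z ⟨abs_le.1 h1, h2, h⟩).trans (le_max_right _ _)
    · exact le_max_of_le_left (by simpa using hM _ h z rfl)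
  choose C hC using key
  obtain ⟨D, hD⟩ := Finite.bddAbove_range C
  refine ⟨D, fun z hz => ?_⟩
  obtain ⟨i, w, h1, h2, h3⟩ := exists_rep hz
  rw [hinv _ _ (al_im_pos i (lt_of_lt_of_le (by norm_num) h2)) h3]
  exact (hC i w h1 h2).trans (hD ⟨i, rfl⟩)

lemma fY_inv (hd : a * d - b * (10 * c) = 1) (hz : 0 < z.im) :
    sl a b (10 * c) d fY z = xi b d * fY z := by
  have e : sl a b (10 * c) d fY z = sl a b (10 * c) d gg z * uz (mob a b (10 * c) d z) /
      ux (mob a b (10 * c) d z) := by rw [sl, sl, fY]; ring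
  obtain ⟨h1, -, h2⟩ := xi_conj hd
  have h3 := neg_sq b
  have h4 := ux_ne hz
  have h5 : (xi b d : ℂ) ≠ 0 := left_ne_zero_of_mul_eq_one h2
  rw [e, gg_mob hd hz, uz_mob hd hz, ux_mob hd hz, fY]
  field_simp
  linear_combination gg z * uz z * (conj (xi b d : ℂ) * h3 - conj (xi b d : ℂ) * h1 +
    (xi b d : ℂ) ^ 3 * h2)

lemma sl_four (h : 0 < a * d - b * c) (hz : 0 < z.im) : sl a b c d fY z ^ 4 =
    sl a b c d gg z ^ 4 * ((tt (mob a b c d z) - (1 - 2 * I)) ^ 2 / tt (mob a b c d z)) := by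
  have hw := im_mob_pos h hz
  have e : sl a b c d fY z = sl a b c d gg z * (uz (mob a b c d z) / ux (mob a b c d z)) := by
    rw [sl, sl, fY]; ring
  have h4 := ux_ne hw
  rw [e, mul_pow, div_pow, show 4 = 2 * 2 from rfl, pow_mul (uz _), uz_sq hw, ← ux_sq hw]
  field_simp
  ring

lemma bdd_q_im : Bdd fun z => q1 z * (z.im : ℂ) ^ 4 := by
  refine IsBigO.of_bound 24 (ev_pos.mono fun z hz => ?_)
  have h1 := Real.pow_div_factorial_le_exp z.im hz.le 4
  have h2 : Real.exp (-2 * π * z.im) * Real.exp z.im ≤ 1 := by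
    rw [← Real.exp_add, Real.exp_le_one_iff]
    nlinarith [Real.pi_gt_three]
  have h3 := Real.exp_pos (-2 * π * z.im)
  rw [norm_mul, norm_pow, norm_q1, norm_real, Real.norm_of_nonneg hz.le]
  norm_num [Nat.factorial] at h1 h2 h3 ⊢
  nlinarith

lemma bdd_four (i : Fin 4) : Bdd fun z =>
    sl (alM i).1 (alM i).2.1 (alM i).2.2.1 (alM i).2.2.2 gg z ^ 4 *
      ((tt (al i z) - (1 - 2 * I)) ^ 2 / tt (al i z)) / q1 z := by
  have e : ∀ z, q1 z = q1 (z / 2) ^ 2 := fun z => by rw [sq, ← q1_add, add_halves]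
  have b1 : Bdd fun z => gg z ^ 4 / q1 z ^ 2 := (Bdd.of_tendsto (tendsto_gg.pow 4)).congr
    fun z _ => by rw [e z, div_pow, ← pow_mul]
  have b2 : ∀ i : Fin 4, i ≠ 0 → (alT i : ℂ) ≠ 0 → Bdd fun z => 16 * gg (2 * z) ^ 4 *
      ((tt (al i z) - (1 - 2 * I)) ^ 2 / tt (al i z)) / q1 z := fun i hi h0 => by
    have t := tendsto_tt_al hi
    refine (Bdd.of_tendsto ((((tendsto_gg2.pow 4).mul (tendsto_q1.pow 3)).const_mul 16).mul
      (((t.sub_const (1 - 2 * I)).pow 2).div t h0))).congr fun z _ => ?_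
    have := q1_ne z
    simp only [Pi.div_apply]
    generalize (tt (al i z) - (1 - 2 * I)) ^ 2 / tt (al i z) = x
    field_simp
  fin_cases i
  · refine (b1.mul (Bdd.of_tendsto (((tendsto_tt.sub (tendsto_q1.const_mul (1 - 2 * I))).pow 2).div
      tendsto_tt one_ne_zero))).congr fun z hz => ?_
    have := q1_ne z
    have := tt_ne hz
    change sl 1 0 0 1 gg z ^ 4 * ((tt (al 0 z) - _) ^ 2 / tt (al 0 z)) / _ = _
    rw [al_zero, show sl 1 0 0 1 gg z = gg z by simp [sl, mob]]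
    simp only [Pi.div_apply]
    field_simp
  · refine (b2 1 (by decide) (by simp [alT])).congr fun z hz => ?_
    change sl 2 1 10 6 gg z ^ 4 * ((tt (al 1 z) - _) ^ 2 / tt (al 1 z)) / _ = _
    rw [gg_al1 hz]
    ring
  · refine (b1.mul (Bdd.of_tendsto ((((tendsto_q1.const_mul 5).sub
      (tendsto_tt.const_mul (1 - 2 * I))).pow 2).div (tendsto_tt.const_mul 5)
      (by simp)))).congr fun z hz => ?_
    have := q1_ne z
    have := tt_ne hz
    change sl 5 2 10 5 gg z ^ 4 * ((tt (al 2 z) - _) ^ 2 / tt (al 2 z)) / _ = _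
    rw [gg_al2 hz, tt_al2 hz]
    simp only [Pi.div_apply]
    field_simp
  · refine (b2 3 (by decide) (by simp [alT])).congr fun z hz => ?_
    change sl 0 (-1) 10 0 gg z ^ 4 * ((tt (al 3 z) - _) ^ 2 / tt (al 3 z)) / _ = _
    rw [gg_al3 hz]
    ring

end M4

theorem hasDerivAt_tt (h : 0 < τ.im) :
    HasDerivAt tt (-(2 * π * I) * (gg τ * (uy τ * uz τ))) τ := by
  have h1 := M4.ZZ_eq h
  rw [M4.ZZ, add_eq_zero_iff_eq_neg, div_eq_iff (gg_ne h)] at h1
  convert M4.hasDerivAt_EE h using 1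
  rw [h1]
  ring

theorem hasDerivAt_ux (h : 0 < τ.im) : HasDerivAt ux (-(π * I) * (fY τ * uy τ)) τ := by
  have h1 := (hol_ux τ h).hasDerivAt
  have h2 := ((hasDerivAt_tt h).congr_of_eventuallyEq
    (mem_of_superset (Unif.upper_mem_nhds h) fun w hw => ux_sq hw)).unique (h1.pow 2)
  have h3 := ux_ne h
  refine h1.congr_deriv ?_
  rw [fY]
  field_simp
  simp only [Nat.cast_ofNat, Nat.add_one_sub_one, pow_one] at h2
  linear_combination (-1 / 2) * h2

theorem sy_fY : SY fY := by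
  have hf : Hol fY := fun z hz =>
    ((hol_gg z hz).mul (hol_uz z hz)).div (hol_ux z hz) (ux_ne hz)
  have n : ∀ z : ℂ, 0 < z.im → ∀ x : ℂ, ‖x * (z.im : ℂ)‖ = ‖x‖ * z.im := fun z hz x => by
    rw [norm_mul, norm_real, Real.norm_of_nonneg hz.le]
  refine ⟨hf, fun a b c d hd z hz => M4.fY_inv hd hz, ?_⟩
  obtain ⟨C, hC⟩ := M4.bd_of_rep (Φ := fun z => fY z * (z.im : ℂ))
    (fun z hz => (hf z hz).continuousAt.mul (by fun_prop)) (by
      rintro z w hz ⟨a, b, c, d, hd, rfl⟩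
      rw [n _ hz, n _ (im_mob_pos (by omega) hz), ← norm_sl (by omega), M4.fY_inv hd hz, norm_mul,
        (M4.xi_conj hd).2.1, one_mul]) fun i => by
      have h1 : Bdd fun z => (sl (alM i).1 (alM i).2.1 (alM i).2.2.1 (alM i).2.2.2 fY z *
          (z.im : ℂ)) ^ 4 := ((M4.bdd_four i).mul M4.bdd_q_im).congr fun z hz => by
        have := q1_ne z
        rw [mul_pow, M4.sl_four (alM_det i) hz, al]
        generalize _ ^ 2 / tt _ = x
        field_simp
      have h2 := Asymptotics.IsBigO.of_pow (g := fun _ => (1 : ℝ)) (n := 4) (by norm_num)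
        (Asymptotics.IsBigO.congr h1 (fun _ => rfl) fun _ => by simp)
      refine (h2.norm_left.congr' (ev_pos.mono fun z hz => ?_) EventuallyEq.rfl).of_norm_left
      simp only
      rw [n _ hz, n _ (al_im_pos i hz), norm_sl (alM_det i), al]
  exact ⟨C, fun z hz => (n z hz _).symm.trans_le (hC z hz)⟩

end Pool.Agent.Lib.MP_696deb_nt.Y2
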