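import Pool.Agent.Lib.MP_696deb_nt.Y2.MK

/-! The triple product formula and a product formula for a Wronskian of theta series. -/

set_option autoImplicit false

open Filter Topology Complex PeriodPair PowerSeries Pool.Agent.Shared.Weier
open scoped Real

namespace Pool.Agent.Lib.MP_696deb_nt.Y2

open Klein Gal
open Pool.Agent.Lib.MP_23455a_nt (lat lat_ω₁ lat_ω₂ mem_lat)

/-- The odd theta function as a series. -/
noncomputable def TJ (ω v : ℂ) : ℂ := q1 (-v / 2) * jacobiTheta₂ (v - 1 / 2 - ω / 2) ω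

/-- A theta series with characteristic. -/
noncomputable def thA (ω a : ℂ) : ℂ := q1 (ω * a ^ 2 / 2) * jacobiTheta₂ (a * ω) ω

/-- A theta series with characteristic and a linear weight. -/
noncomputable def thB (ω a : ℂ) : ℂ :=
  q1 (ω * a ^ 2 / 2) * (jacobiTheta₂' (a * ω) ω / (2 * π * I) + a * jacobiTheta₂ (a * ω) ω)

theorem TJ_add_one (ω v : ℂ) : TJ ω (v + 1) = -TJ ω v := by
  rw [TJ, TJ, show v + 1 - 1 / 2 - ω / 2 = v - 1 / 2 - ω / 2 + 1 by ring, jacobiTheta₂_add_left,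
    show -(v + 1) / 2 = -v / 2 + -1 / 2 by ring, q1_add, q1_half]
  ring

theorem TJ_add_omega (ω v : ℂ) : TJ ω (v + ω) = -q1 (-ω / 2 - v) * TJ ω v := by
  have e : q1 (-(v + ω) / 2) * cexp (-π * I * (ω + 2 * (v - 1 / 2 - ω / 2))) * q1 (-1 / 2) =
      q1 (-ω / 2 - v) * q1 (-v / 2) := by
    simp only [q1, ← Complex.exp_add]
    congr 1
    ring
  rw [q1_half] at e
  rw [TJ, TJ, show v + ω - 1 / 2 - ω / 2 = v - 1 / 2 - ω / 2 + ω by ring, jacobiTheta₂_add_left']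
  linear_combination (-jacobiTheta₂ (v - 1 / 2 - ω / 2) ω) * e

theorem TJ_zero (ω : ℂ) : TJ ω 0 = 0 := by
  have e := TJ_add_omega ω 0
  have e1 : jacobiTheta₂ (0 + ω - 1 / 2 - ω / 2) ω = jacobiTheta₂ (0 - 1 / 2 - ω / 2) ω := by
    rw [← jacobiTheta₂_add_left, ← jacobiTheta₂_neg_left]
    congr 1
    ring
  rw [TJ, e1, zero_add, sub_zero, TJ, neg_zero, zero_div, q1_zero, one_mul] at e
  rw [TJ, mul_left_cancel₀ (q1_ne (-ω / 2))
    (show q1 (-ω / 2) * jacobiTheta₂ (0 - 1 / 2 - ω / 2) ω = q1 (-ω / 2) * 0 by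
      linear_combination e / 2), mul_zero]

variable {ω : ℂ} (hω : 0 < ω.im)

include hω

theorem hasDerivAt_TJ (v : ℂ) : HasDerivAt (TJ ω) (q1 (-v / 2) *
    (jacobiTheta₂' (v - 1 / 2 - ω / 2) ω - π * I * jacobiTheta₂ (v - 1 / 2 - ω / 2) ω)) v := by
  have h1 := (hasDerivAt_q1 _).comp v ((hasDerivAt_id v).neg.div_const 2)
  have h2 := (hasDerivAt_jacobiTheta₂_fst (v - 1 / 2 - ω / 2) hω).comp v
    (((hasDerivAt_id v).sub_const (1 / 2)).sub_const (ω / 2))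
  refine (h1.mul h2).congr_deriv ?_
  simp only [Function.comp, id, Pi.neg_apply]
  ring

theorem Th_zero : Th ω 0 = 0 := by simp [Th_eq hω]

theorem Th_ne' {z : ℂ} (hz : z ∉ (lat ω).lattice) : Th ω z ≠ 0 :=
  Th_ne hω fun m n e => hz ((mem_lat hω).mpr ⟨m, n, e⟩)

theorem exists_TJ : ∃ c : ℂ, ∀ v, TJ ω v = c * Th ω v := by
  have hd : Differentiable ℂ (TJ ω) := fun v => (hasDerivAt_TJ hω v).differentiableAt
  have hd' := differentiable_Th hω
  refine ⟨deriv (TJ ω) 0 / deriv (Th ω) 0, eq_of_eq_off (L := lat ω) hd.continuous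
    (continuous_const.mul hd'.continuous) fun z hz => ?_⟩
  rw [← div_eq_iff (Th_ne' hω hz)]
  refine liouville (L := lat ω) (f := fun z => TJ ω z / Th ω z)
    (fun w hw => (hd w).div (hd' w) (Th_ne' hω hw)) (fun l hl => ?_) ?_ hz
  · refine lattice_induction (P := fun l => ∀ z ∉ (lat ω).lattice,
      TJ ω (z + l) / Th ω (z + l) = TJ ω z / Th ω z) (fun z _ => ?_) (fun z _ => ?_) (by simp)
      (fun a ha b _ h1 h2 z hz => ?_) (fun a ha h1 z hz => ?_) hl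
    · rw [lat_ω₁ hω, TJ_add_omega, Th_add_omega hω,
        mul_div_mul_left _ _ (neg_ne_zero.2 (q1_ne _))]
    · rw [lat_ω₂, TJ_add_one, Th_add_one, neg_div_neg_eq]
    · rw [← add_assoc, h2 _ (add_notMem hz ha), h1 z hz]
    · rw [← h1 _ (add_notMem hz (neg_mem ha)), neg_add_cancel_right]
  · refine ((hd 0).hasDerivAt.tendsto_slope.div (hd' 0).hasDerivAt.tendsto_slope
      (deriv_Th_ne hω)).congr' ?_
    filter_upwards [self_mem_nhdsWithin] with z hz
    simp only [Pi.div_apply, slope_def_field, TJ_zero, Th_zero hω, sub_zero]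
    rw [div_div_div_cancel_right₀ hz]

/-- The triple product formula. -/
theorem TJ_eq (v : ℂ) : TJ ω v = eul (q1 ω) * Th ω v := by
  obtain ⟨c, hc⟩ := exists_TJ hω
  have hy : ‖q1 (ω / 3)‖ < 1 := norm_q1_lt (by simpa using hω)
  have e3 : q1 ω = q1 (ω / 3) ^ 3 := by rw [← q1_nat_mul]; congr 1; push_cast; ring
  have e2 : q1 (ω - ω / 3) = q1 (ω / 3) * q1 (ω / 3) := by rw [← q1_add]; congr 1; ring
  have h1 : jacobiTheta₂ (ω / 3 - 1 / 2 - ω / 2) ω = eul (q1 (ω / 3)) := by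
    have h := qs_eul _ hy
    rw [← pentagonal_injective.hasSum_iff
      fun n hn => by simp [coeff_pentagonalSeries_eq_zero ℂ hn]] at h
    refine (hasSum_jacobiTheta₂_term _ hω).unique ?_
    convert h using 2 with k
    have e : (2 * (pentagonal k : ℂ)) = k * (3 * k - 1) := by
      exact_mod_cast two_mul_natCast_pentagonal k
    have e4 : ((Int.negOnePow k : ℤˣ) : ℂ) = q1 (-k / 2) := by
      rw [Int.cast_negOnePow, ← q1_half, q1, q1, ← exp_int_mul]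
      congr 1
      ring
    simp only [Function.comp, coeff_pentagonalSeries_pentagonal]
    rw [e4, ← q1_nat_mul, ← q1_add, jacobiTheta₂_term, q1]
    congr 1
    linear_combination (-π * I * ω / 3) * e
  have h2 := hc (ω / 3)
  have h3 : Th ω (ω / 3) ≠ 0 := Th_ne hω fun m n e => by
    have h4 := congr_arg im e
    simp only [add_im, mul_im, intCast_re, intCast_im, zero_mul, add_zero, div_ofNat_im] at h4
    have h5 : (1 : ℝ) = 3 * m := mul_right_cancel₀ hω.ne' (by linarith)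
    have h6 : (1 : ℤ) = 3 * m := by exact_mod_cast h5
    omega
  rw [hc, mul_right_cancel₀ h3 (show c * Th ω (ω / 3) = eul (q1 ω) * Th ω (ω / 3) by
    rw [← h2, TJ, h1, Th, eul_eq_poch, eul_eq_poch, poch_split hy three_ne_zero, e2, e3]
    simp only [Finset.prod_range_succ, Finset.prod_range_zero, pow_zero, zero_add, pow_one,
      one_mul, show q1 (ω / 3) ^ 2 * q1 (ω / 3) = q1 (ω / 3) ^ 3 by ring]
    ring)]

theorem deriv_Th : deriv (Th ω) 0 = -(2 * π * I) * eul (q1 ω) ^ 2 := by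
  have h1 := ((hasDerivAt_q1 _).comp 0 ((hasDerivAt_id (0 : ℂ)).neg.div_const 2)).sub
    ((hasDerivAt_q1 _).comp 0 ((hasDerivAt_id (0 : ℂ)).div_const 2))
  have h2 := h1.mul ((differentiable_poch_q1 hω (g := fun z => ω + z) (by fun_prop)).mul
    (differentiable_poch_q1 hω (g := fun z => ω - z) (by fun_prop)) 0).hasDerivAt
  rw [funext (Th_eq hω), eul_eq_poch]
  refine h2.deriv.trans ?_
  simp [q1_zero]
  ring

theorem Th_wron {v : ℂ} (h2 : 2 * v ∉ (lat ω).lattice) :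
    (3 * Th ω (3 * v) * deriv (Th ω) v - deriv (Th ω) (3 * v) * Th ω v) * Th ω v ^ 2 =
      deriv (Th ω) 0 * Th ω (2 * v) ^ 3 := by
  have h1 : v ∉ (lat ω).lattice := fun h => h2 (two_mul v ▸ add_mem h h)
  have hd := fun z => (differentiable_Th hω z).hasDerivAt
  have key : ∀ u ∉ (lat ω).lattice, deriv (Th ω) 0 ^ 2 *
      (deriv (Th ω) (u + v) * Th ω (u - v) - Th ω (u + v) * deriv (Th ω) (u - v)) =
      ℘'[lat ω] v * Th ω u ^ 2 * Th ω v ^ 2 -
        2 * (℘[lat ω] u - ℘[lat ω] v) * Th ω u ^ 2 * Th ω v * deriv (Th ω) v := fun u hu => by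
    have d1 := (((hd (u + v)).comp_const_add u v).mul ((hd (u - v)).comp_const_sub u v)).const_mul
      (deriv (Th ω) 0 ^ 2)
    have d2 := ((((hasDerivAt_wp h1).const_sub (℘[lat ω] u)).mul_const (Th ω u ^ 2)).mul
      ((hd v).pow 2)).neg
    have := deriv_eq_of_ev d1 d2 (by
      filter_upwards [isOpen_compl.mem_nhds h1] with w hw using wp_sub_Th hω hu hw)
    simp only [Pi.pow_apply, Nat.cast_ofNat] at this
    linear_combination this
  have e1 := key v h1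
  have e2 := key _ h2
  have e3 := wp_sub_Th hω h2 h1
  rw [sub_self, Th_zero hω, ← two_mul] at e1
  rw [show 2 * v + v = 3 * v by ring, show 2 * v - v = v by ring] at e2 e3
  refine mul_left_cancel₀ (pow_ne_zero 2 (deriv_Th_ne hω)) ?_
  linear_combination (-Th ω v ^ 2) * e2 + Th ω (2 * v) ^ 2 * e1 +
    (2 * Th ω v * deriv (Th ω) v) * e3

omit hω in
theorem hasSum_congr {ι : Type} {f g : ι → ℂ} {a : ℂ} (h : HasSum f a) (e : ∀ i, g i = f i) :
    HasSum g a := funext e ▸ h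

theorem hasSum_thA (a : ℂ) : HasSum (fun n : ℤ => q1 (ω * (n + a) ^ 2 / 2)) (thA ω a) := by
  refine hasSum_congr ((hasSum_jacobiTheta₂_term (a * ω) hω).mul_left (q1 (ω * a ^ 2 / 2)))
    fun n => ?_
  rw [jacobiTheta₂_term, q1, q1, ← Complex.exp_add]
  congr 1
  ring

theorem hasSum_thB (a : ℂ) :
    HasSum (fun n : ℤ => (n + a) * q1 (ω * (n + a) ^ 2 / 2)) (thB ω a) := by
  refine hasSum_congr ((((hasSum_jacobiTheta₂'_term (a * ω) hω).div_const (2 * π * I)).add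
    ((hasSum_jacobiTheta₂_term (a * ω) hω).mul_left a)).mul_left (q1 (ω * a ^ 2 / 2))) fun n => ?_
  have e : q1 (ω * (n + a) ^ 2 / 2) = q1 (ω * a ^ 2 / 2) * jacobiTheta₂_term n (a * ω) ω := by
    rw [jacobiTheta₂_term, q1, q1, ← Complex.exp_add]
    congr 1
    ring
  have := two_pi_I_ne_zero
  rw [e, jacobiTheta₂'_term, mul_assoc (2 * π * I), mul_div_cancel_left₀ _ this]
  ring

omit hω in
theorem t_neg (a : ℂ) : thA ω (-a) = thA ω a ∧ thB ω (-a) = -thB ω a := by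
  simp only [thA, thB, neg_mul, jacobiTheta₂_neg_left, jacobiTheta₂'_neg_left, neg_sq]
  exact ⟨trivial, by ring⟩

theorem t_add_one (a : ℂ) : thA ω (a + 1) = thA ω a ∧ thB ω (a + 1) = thB ω a := by
  constructor
  · refine (hasSum_thA hω _).unique ?_
    refine hasSum_congr ((Equiv.addRight (1 : ℤ)).hasSum_iff.2 (hasSum_thA hω a)) fun n => ?_
    simp [add_assoc, add_comm a]
  · refine (hasSum_thB hω _).unique ?_
    refine hasSum_congr ((Equiv.addRight (1 : ℤ)).hasSum_iff.2 (hasSum_thB hω a)) fun n => ?_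
    simp [add_assoc, add_comm a]

/-- A Wronskian of theta series is an infinite product. -/
theorem t_wron {a : ℂ} (h2 : ∀ m n : ℤ, 2 * a * ω ≠ m * ω + n) :
    (3 * thA ω (3 * a + 1) * thB ω a - thB ω (3 * a + 1) * thA ω a) *
      (poch (q1 ω) (-q1 ((1 / 2 + a) * ω)) * poch (q1 ω) (-q1 ((1 / 2 - a) * ω))) ^ 2 =
    -eul (q1 ω) ^ 4 * q1 (ω * (a ^ 2 + (3 * a + 1) ^ 2) / 2) *
      (poch (q1 ω) (q1 ((1 + 2 * a) * ω)) * poch (q1 ω) (q1 (-(2 * a) * ω))) ^ 3 := by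
  obtain ⟨v, hv⟩ : ∃ v, v = 1 / 2 + (1 / 2 + a) * ω := ⟨_, rfl⟩
  have e := Th_wron hω (v := v) fun h => by
    obtain ⟨m, n, e⟩ := (mem_lat hω).1 h
    exact h2 (m - 1) (n - 1) (by push_cast; linear_combination e - 2 * hv)
  have hd : ∀ w, eul (q1 ω) * deriv (Th ω) w = q1 (-w / 2) *
      (jacobiTheta₂' (w - 1 / 2 - ω / 2) ω - π * I * jacobiTheta₂ (w - 1 / 2 - ω / 2) ω) :=
    fun w => ((differentiable_Th hω w).hasDerivAt.const_mul _).unique
      (funext (TJ_eq hω) ▸ hasDerivAt_TJ hω w)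
  have a1 : v - 1 / 2 - ω / 2 = a * ω := by rw [hv]; ring
  have a3 : 3 * v - 1 / 2 - ω / 2 = (3 * a + 1) * ω + 1 := by rw [hv]; ring
  have d1 := hd v
  have d3 := hd (3 * v)
  have f1 := TJ_eq hω v
  have f3 := TJ_eq hω (3 * v)
  rw [TJ, a1] at f1
  rw [TJ, a3, jacobiTheta₂_add_left] at f3
  rw [a1] at d1
  rw [a3, jacobiTheta₂_add_left, jacobiTheta₂'_add_left] at d3
  have i1 := q1_int 1
  have i2 := q1_int (-1)
  have i3 := q1_add (1 / 2) (-1 / 2)
  push_cast at i1 i2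
  rw [q1_half, show (1 / 2 + -1 / 2 : ℂ) = 0 by ring, q1_zero] at i3
  have g1 : Th ω v = q1 (-v / 2) *
      (poch (q1 ω) (-q1 ((1 / 2 + a) * ω)) * poch (q1 ω) (-q1 ((1 / 2 - a) * ω))) := by
    rw [Th, show ω - v = -1 / 2 + (1 / 2 - a) * ω by rw [hv]; ring, q1_add, q1_half, mul_assoc]
    congr 3
    · rw [hv, q1_add]; linear_combination q1 ((1 / 2 + a) * ω) * i3
    · ring
  have g2 : Th ω (2 * v) = q1 (-v / 2) ^ 2 *
      (poch (q1 ω) (q1 ((1 + 2 * a) * ω)) * poch (q1 ω) (q1 (-(2 * a) * ω))) := by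
    rw [Th, show ω - 2 * v = -1 + -(2 * a) * ω by rw [hv]; ring, q1_add, i2, one_mul,
      sq, ← q1_add, show -v / 2 + -v / 2 = -(2 * v) / 2 by ring,
      show q1 (2 * v) = q1 ((1 + 2 * a) * ω) by
        rw [show 2 * v = 1 + (1 + 2 * a) * ω by rw [hv]; ring, q1_add, i1, one_mul], mul_assoc]
  have g3 : q1 (-(3 * v) / 2) = q1 (-v / 2) ^ 3 := by rw [← q1_nat_mul]; congr 1; push_cast; ring
  have g4 : q1 (ω * (a ^ 2 + (3 * a + 1) ^ 2) / 2) =
      q1 (ω * a ^ 2 / 2) * q1 (ω * (3 * a + 1) ^ 2 / 2) := by rw [← q1_add]; congr 1; ring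
  have e' : (3 * (eul (q1 ω) * Th ω (3 * v)) * (eul (q1 ω) * deriv (Th ω) v) -
      eul (q1 ω) * deriv (Th ω) (3 * v) * (eul (q1 ω) * Th ω v)) * Th ω v ^ 2 =
      eul (q1 ω) ^ 2 * (deriv (Th ω) 0 * Th ω (2 * v) ^ 3) := by linear_combination eul (q1 ω) ^ 2 * e
  rw [d1, d3, ← f1, ← f3, g1, g2, g3, deriv_Th hω] at e'
  have n1 := two_pi_I_ne_zero
  have n2 := q1_ne (-v / 2)
  refine mul_left_cancel₀ (mul_ne_zero n1 (pow_ne_zero 6 n2)) ?_
  have n3 : (2 * π * I : ℂ) * (2 * π * I)⁻¹ = 1 := mul_inv_cancel₀ n1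
  rw [thA, thA, thB, thB, g4, div_eq_mul_inv _ (2 * π * I), div_eq_mul_inv _ (2 * π * I)]
  generalize (2 * π * I : ℂ)⁻¹ = s at n3 ⊢
  linear_combination (q1 (ω * a ^ 2 / 2) * q1 (ω * (3 * a + 1) ^ 2 / 2)) * e' +
    (q1 (-v / 2) ^ 6 * q1 (ω * a ^ 2 / 2) * q1 (ω * (3 * a + 1) ^ 2 / 2) *
      (poch (q1 ω) (-q1 ((1 / 2 + a) * ω)) * poch (q1 ω) (-q1 ((1 / 2 - a) * ω))) ^ 2 *
      (3 * jacobiTheta₂ ((3 * a + 1) * ω) ω * jacobiTheta₂' (a * ω) ω -
        jacobiTheta₂' ((3 * a + 1) * ω) ω * jacobiTheta₂ (a * ω) ω)) * n3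

end Pool.Agent.Lib.MP_696deb_nt.Y2
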