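import Pool.Agent.Lib.MP_696deb_nt.Y2.M1
import Pool.Agent.Lib.MP_696deb_nt.Y2.M2e
import Pool.Agent.Lib.MP_696deb_nt.Y2.MT

/-! The cusp form as a theta series. -/

set_option autoImplicit false

open Filter Topology Complex PeriodPair ModularForm PowerSeries Pool.Agent.Shared.Weier
open scoped Real ComplexConjugate

namespace Pool.Agent.Lib.MP_696deb_nt.Y2

open Klein Gal
open QF (G ii ip)
open Pool.Agent.Lib.MP_23455a_nt (lat lat_ω₁ lat_ω₂ mem_lat)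

variable {τ z w : ℂ} {a b c d : ℤ}

theorem hasSum_two {ω : ℂ} (hω : 0 < ω.im) (x y : ℂ) :
    HasSum (fun p : ℤ × ℤ => (p.1 + x + I * (p.2 + y)) * q1 (ω * ((p.1 + x) ^ 2 + (p.2 + y) ^ 2) / 2))
      (thB ω x * thA ω y + I * (thA ω x * thB ω y)) := by
  have k : ∀ {f g : ℤ → ℂ} {s t : ℂ}, HasSum f s → HasSum g t →
      HasSum (fun p : ℤ × ℤ => f p.1 * g p.2) (s * t) := fun hf hg =>
    hf.mul hg (summable_mul_of_summable_norm hf.summable.norm hg.summable.norm)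
  refine hasSum_congr ((k (hasSum_thB hω x) (hasSum_thA hω y)).add
    ((k (hasSum_thA hω x) (hasSum_thB hω y)).mul_left I)) fun p => ?_
  rw [mul_add ω, add_div, q1_add]
  ring

theorem hasSum_coset {ω s x y : ℂ} (hω : 0 < ω.im) {β : G} (h1 : β * (x + I * y) = 1)
    (h2 : (star β : G) * (x - I * y) = 1) (hs : 2 * (β * (star β : G)) * s = ω) {p : G → Prop}
    [DecidablePred p] (hp : ∀ α, p α ↔ ∃ m n : ℤ, 1 + β * ⟨m, n⟩ = α) :
    HasSum (fun α : G => if p α then (α : ℂ) * q1 (α.norm * s) else 0)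
      (β * (thB ω x * thA ω y + I * (thA ω x * thB ω y))) := by
  have hβ : β ≠ 0 := fun e => by simp [e] at h1
  have hj : Function.Injective fun v : ℤ × ℤ => 1 + β * (⟨v.1, v.2⟩ : G) := fun v w e => by
    have := mul_left_cancel₀ hβ (add_left_cancel e)
    exact Prod.ext (congr_arg Zsqrtd.re this) (congr_arg Zsqrtd.im this)
  rw [← hj.hasSum_iff fun α hα => if_neg fun h => by
    obtain ⟨m, n, e⟩ := (hp α).1 h
    exact hα ⟨(m, n), e⟩]
  refine hasSum_congr ((hasSum_two hω x y).mul_left (β : ℂ)) fun v => ?_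
  have e1 : ((1 + β * ⟨v.1, v.2⟩ : G) : ℂ) = β * (v.1 + x + I * (v.2 + y)) := by
    rw [map_add, map_one, map_mul, GaussianInt.toComplex_def' v.1]
    linear_combination -h1
  have e2 : ((star (1 + β * ⟨v.1, v.2⟩) : G) : ℂ) = (star β : G) * (v.1 + x - I * (v.2 + y)) := by
    rw [star_add, star_one, star_mul', map_add, map_one, map_mul, Zsqrtd.star_mk v.1,
      GaussianInt.toComplex_def' v.1]
    push_cast
    linear_combination -h2
  have e3 : (((1 + β * ⟨v.1, v.2⟩ : G).norm : ℤ) : ℂ) =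
      β * (star β : G) * ((v.1 + x) ^ 2 + (v.2 + y) ^ 2) := by
    rw [← map_intCast GaussianInt.toComplex, Zsqrtd.norm_eq_mul_conj, map_mul, e1, e2]
    linear_combination (-(β : ℂ) * (star β : G) * (v.2 + y) ^ 2) * I_mul_I
  rw [Function.comp, if_pos ((hp _).2 ⟨_, _, rfl⟩), e1, e3, ← hs, mul_assoc]
  congr 3
  ring

theorem r5_ii (α : G) : r5 (ii * α) = 3 * r5 α := by
  simp only [r5, ii, Zsqrtd.re_mul, Zsqrtd.im_mul]
  have e : (5 : ZMod 5) = 0 := rfl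
  push_cast
  linear_combination (-2 * α.im : ZMod 5) * e

theorem hasSum_symm {p : G → Prop} [DecidablePred p] (hp : ∀ α, p (ii * α) ↔ p α) {F : ℤ → ℂ}
    {S : ℂ} (h : HasSum (fun α : G => if p α ∧ r5 α = 1 then (α : ℂ) * F α.norm else 0) S) :
    HasSum (fun α : G => ((if p α then ep (r5 α) * α else 0 : G) : ℂ) / 4 * F α.norm) S := by
  let e : G ≃ G := Units.mulLeft ⟨ii, -ii, by decide, by decide⟩
  have he : ∀ α, e α = ii * α := fun _ => rfl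
  have h1 := e.hasSum_iff.2 h
  have h2 := e.hasSum_iff.2 h1
  have h3 := e.hasSum_iff.2 h2
  have hn : ∀ α : G, (ii * α).norm = α.norm := fun α => by
    rw [Zsqrtd.norm_mul, show ii.norm = 1 by decide, one_mul]
  rw [show S = (S + S + S + S) / 4 by ring]
  refine hasSum_congr ((((h.add h1).add h2).add h3).div_const 4) fun α => ?_
  simp only [Function.comp, he, hp, hn, r5_ii, map_mul, EA.ii_coe]
  by_cases k : p α
  · have k1 : ∀ r : ZMod 5, ep r = (if r = 1 then 1 else 0) + (if 3 * r = 1 then ii else 0) +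
        (if 3 * (3 * r) = 1 then ii * ii else 0) +
        if 3 * (3 * (3 * r)) = 1 then ii * (ii * ii) else 0 := by decide
    rw [if_pos k, k1]
    simp only [k, true_and, map_mul, map_add, apply_ite GaussianInt.toComplex, EA.ii_coe, map_one,
      map_zero]
    split_ifs <;> ring
  · simp [k]

theorem r5_eq_one (α : G) : r5 α = 1 ↔ 5 ∣ α.re + 3 * α.im - 1 := by
  rw [← Int.cast_one, r5, eq_comm, show (α.re + 3 * α.im : ZMod 5) = (α.re + 3 * α.im : ℤ) by simp,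
    ZMod.intCast_eq_intCast_iff_dvd_sub]
  rfl

theorem wron10 (h : 0 < τ.im) (j k : ℕ) (hj : j + k = 5) (j0 : j ≠ 0) (k0 : k ≠ 0) :
    (3 * thA (5 * τ) (3 * (-j / 10) + 1) * thB (5 * τ) (-j / 10) -
      thB (5 * τ) (3 * (-j / 10) + 1) * thA (5 * τ) (-j / 10)) =
    -(RR τ 20 * RR τ 40) ^ 4 * q1 (τ * (j ^ 2 + (10 - 3 * j) ^ 2) / 40) *
      (RR τ (4 * k) * RR τ (20 + 4 * k) * (RR τ (4 * j) * RR τ (20 + 4 * j))) ^ 3 /
      (RR τ (2 * (2 * k)) / (RR τ (2 * k) * RR τ (20 + 2 * k)) *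
        (RR τ (2 * (10 + 2 * j)) / (RR τ (10 + 2 * j) * RR τ (20 + (10 + 2 * j))))) ^ 2 := by
  have hj' : (j + k : ℂ) = 5 := by exact_mod_cast hj
  have e := t_wron (im_five h) (a := -j / 10) fun m n e => by
    have h1 := congr_arg im (show -(j : ℂ) * τ = (5 * m : ℤ) * τ + n by
      push_cast; linear_combination e)
    simp only [mul_im, intCast_re, intCast_im, zero_mul, add_zero, add_im, neg_re, neg_im,
      natCast_re, natCast_im, neg_zero] at h1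
    have h2 : -(j : ℤ) = 5 * m := by exact_mod_cast mul_right_cancel₀ h.ne' h1
    omega
  have q : ∀ (x : ℂ) (n : ℕ), x = n * (τ / 4) → q1 x = q1 (τ / 4) ^ n := fun x n e => by
    rw [e, q1_nat_mul]
  rw [q ((1 / 2 + -j / 10) * (5 * τ)) (2 * k) (by push_cast; linear_combination (-τ / 2) * hj'),
    q ((1 / 2 - -j / 10) * (5 * τ)) (10 + 2 * j) (by push_cast; ring),
    q ((1 + 2 * (-j / 10)) * (5 * τ)) (4 * k) (by push_cast; linear_combination (-τ) * hj'),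
    q (-(2 * (-j / 10)) * (5 * τ)) (4 * j) (by push_cast; ring), eul_eq_poch,
    q (5 * τ) 20 (by push_cast; ring), P_RR h, P_RR h, P_RR h, N_RR h (by omega),
    N_RR h (by omega)] at e
  have n : ∀ i : ℕ, i ≠ 0 → RR τ i ≠ 0 := fun i => RR_ne h
  rw [eq_div_iff (pow_ne_zero 2 (mul_ne_zero
    (div_ne_zero (n _ (by omega)) (mul_ne_zero (n _ (by omega)) (n _ (by omega))))
    (div_ne_zero (n _ (by omega)) (mul_ne_zero (n _ (by omega)) (n _ (by omega)))))), e]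
  congr 3
  ring

theorem gg_RR (h : 0 < τ.im) : gg τ = q1 (τ / 4) ^ 2 * (RR τ 4 * RR τ 8 * RR τ 12 * RR τ 16 *
    RR τ 24 * RR τ 28 * RR τ 32 * RR τ 36) ^ 2 * (RR τ 20 * RR τ 40) ^ 4 := by
  obtain ⟨e1, -, e5, -, e⟩ := eta_list h
  rw [gg, eta2, eta2, e1, e5, Q_eq, e]
  ring

theorem t_shift {ω x y : ℂ} (hω : 0 < ω.im) (e : x = y + 1) : thA ω x = thA ω y ∧ thB ω x = thB ω y :=
  e ▸ t_add_one hω y

theorem t_flip (ω : ℂ) {x y : ℂ} (e : x = -y) : thA ω x = thA ω y ∧ thB ω x = -thB ω y :=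
  e ▸ t_neg y

theorem fY_theta (h : 0 < τ.im) : fY τ = (1 + 3 * I) *
    (thB (5 * τ) (1 / 10) * thA (5 * τ) (-3 / 10) + I * (thA (5 * τ) (1 / 10) * thB (5 * τ) (-3 / 10))) := by
  obtain ⟨w1, w2, w3, w4, w5, w6, w7, w8, w9, w10⟩ := W10_list τ
  obtain ⟨r2, r4, r6, r8, r10, r12, r14, r16, r18, r20, r22, r24, r26, r28, r30, r32, r34, r36, r38,
    r40, -⟩ := RR_even h
  have n := q1_ne (τ / 4)
  have e1 := wron10 h 1 4 rfl (by norm_num) (by norm_num)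
  have e3 := wron10 h 3 2 rfl (by norm_num) (by norm_num)
  obtain ⟨s0, s1⟩ := t_shift (x := 3 * (-(1 : ℕ) / 10) + 1) (y := -3 / 10) (im_five h) (by norm_num)
  obtain ⟨f0, f1⟩ := t_flip (5 * τ) (x := -(1 : ℕ) / 10) (y := 1 / 10) (by norm_num)
  rw [s0, s1, f0, f1, show τ * (((1 : ℕ) : ℂ) ^ 2 + (10 - 3 * (1 : ℕ)) ^ 2) / 40 =
    (5 : ℕ) * (τ / 4) by push_cast; ring, q1_nat_mul] at e1
  rw [show (3 * (-(3 : ℕ) / 10) + 1 : ℂ) = 1 / 10 by norm_num, show τ * (((3 : ℕ) : ℂ) ^ 2 +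
    (10 - 3 * (3 : ℕ)) ^ 2) / 40 = τ / 4 by push_cast; ring, Nat.cast_ofNat] at e3
  have g1 : gg τ / ua τ = -(3 * thA (5 * τ) (-3 / 10) * -thB (5 * τ) (1 / 10) -
      thB (5 * τ) (-3 / 10) * thA (5 * τ) (1 / 10)) := by
    rw [e1, gg_RR h, eq_div_of_mul_eq (pow_ne_zero 3 n) (ua_eq h), w1, w4, w6, w9]
    norm_num only
    field_simp
  have g3 : gg τ / ub τ = -(3 * thA (5 * τ) (1 / 10) * thB (5 * τ) (-3 / 10) -
      thB (5 * τ) (1 / 10) * thA (5 * τ) (-3 / 10)) := by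
    rw [e3, gg_RR h, ub_eq h, w2, w3, w7, w8]
    norm_num only
    field_simp
  have g : fY τ = gg τ / ub τ + I * (gg τ / ua τ) := by
    have := ua_ne h
    have := ub_ne h
    rw [fY, uz, ux]
    field_simp
  rw [g, g1, g3]
  linear_combination (-3 * thA (5 * τ) (1 / 10) * thB (5 * τ) (-3 / 10)) * I_mul_I

theorem hasSum_fY (h : 0 < τ.im) :
    HasSum (fun α : G => (psi α : ℂ) / 4 * q1 (α.norm * τ / 4)) (fY τ) := by
  have e : ((⟨1, 3⟩ : G) : ℂ) = 1 + 3 * I := by simp [GaussianInt.toComplex_def']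
  have e' : ((star ⟨1, 3⟩ : G) : ℂ) = 1 - 3 * I := by
    simp [GaussianInt.toComplex_def', sub_eq_add_neg]
  have := hasSum_symm (p := fun α => ¬ (α.re + α.im) % 2 = 0) (F := fun n => q1 (n * (τ / 4)))
    (fun α => by simp only [ii, Zsqrtd.re_mul, Zsqrtd.im_mul]; omega)
    (hasSum_coset (im_five h) (β := ⟨1, 3⟩) (x := 1 / 10) (y := -3 / 10)
      (by rw [e]; linear_combination (-9 / 10) * I_mul_I)
      (by rw [e']; linear_combination (-9 / 10) * I_mul_I)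
      (by rw [e, e']; linear_combination (-9 / 2 * τ) * I_mul_I) fun α => by
        simp only [r5_eq_one, Zsqrtd.ext_iff, Zsqrtd.re_add, Zsqrtd.im_add, Zsqrtd.re_mul,
          Zsqrtd.im_mul, Zsqrtd.re_one, Zsqrtd.im_one]
        exact ⟨fun _ => ⟨(α.re + 3 * α.im - 1) / 10, (α.im - 3 * α.re + 3) / 10, by omega⟩,
          fun ⟨m, n, _⟩ => by omega⟩)
  rw [e, ← fY_theta h] at this
  refine hasSum_congr this fun α => ?_
  rw [psi, ite_not, mul_div_assoc]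

theorem Th_RR (τ : ℂ) (j k : ℕ) (hj : j + k = 20) :
    Th (10 * τ) ((j : ℤ) * (τ / 2)) = RR τ (2 * j) * RR τ (2 * k) / q1 (τ / 4) ^ j := by
  have hj' : (j + k : ℂ) = 20 := by exact_mod_cast hj
  have e : q1 (-(j * (τ / 2)) / 2) * q1 (τ / 4) ^ j = 1 := by
    rw [← q1_nat_mul, ← q1_add, ← q1_zero]; congr 1; ring
  rw [eq_div_iff (pow_ne_zero _ (q1_ne _)), Th, RR, RR, Int.cast_natCast, ← q1_nat_mul 40,
    ← q1_nat_mul (2 * j), ← q1_nat_mul (2 * k),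
    show ((40 : ℕ) : ℂ) * (τ / 4) = 10 * τ by push_cast; ring,
    show ((2 * j : ℕ) : ℂ) * (τ / 4) = j * (τ / 2) by push_cast; ring,
    show ((2 * k : ℕ) : ℂ) * (τ / 4) = 10 * τ - j * (τ / 2) by
      push_cast; linear_combination τ / 2 * hj']
  linear_combination (poch (q1 (10 * τ)) (q1 (j * (τ / 2))) *
    poch (q1 (10 * τ)) (q1 (10 * τ - j * (τ / 2)))) * e

theorem pw_sub20 (h : 0 < τ.im) (a b c d : ℤ) (H : ¬ 20 ∣ a ∧ ¬ 20 ∣ b ∧ c = a + b ∧ d = a - b) :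
    pw (lat (10 * τ)) (τ / 2) b - pw (lat (10 * τ)) (τ / 2) a = deriv (Th (10 * τ)) 0 ^ 2 *
      (Th (10 * τ) (c * (τ / 2)) * Th (10 * τ) (d * (τ / 2))) /
      (Th (10 * τ) (a * (τ / 2)) ^ 2 * Th (10 * τ) (b * (τ / 2)) ^ 2) := by
  obtain ⟨ha, hb, rfl, rfl⟩ := H
  have h' : 0 < (10 * τ).im := im_mul_pos h
  have k : ∀ a : ℤ, ¬ 20 ∣ a → a * (τ / 2) ∉ (lat (10 * τ)).lattice := fun a ha e => by
    obtain ⟨m, n, e⟩ := (mem_lat h').1 e
    have h1 := congr_arg im (show (a : ℂ) * τ = (20 * m : ℤ) * τ + (2 * n : ℤ) by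
      push_cast; linear_combination 2 * e)
    simp only [mul_im, intCast_re, intCast_im, zero_mul, add_zero, add_im] at h1
    exact ha ⟨m, by exact_mod_cast mul_right_cancel₀ h.ne' h1⟩
  rw [eq_div_iff (mul_ne_zero (pow_ne_zero 2 (Th_ne' h' (k a ha)))
    (pow_ne_zero 2 (Th_ne' h' (k b hb)))), Int.cast_add, Int.cast_sub, add_mul, sub_mul (a : ℂ),
    wp_sub_Th h' (k a ha) (k b hb), pw, pw]
  ring

/-- The units at the cusp `1 / 5`. -/
theorem u_cusp (h : 0 < τ.im) :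
    ua (mob 1 0 (-5) 1 τ) = RR τ 4 * RR τ 36 * (RR τ 8 * RR τ 32) ^ 2 * (RR τ 12 * RR τ 28) ^ 2 /
      ((RR τ 2 * RR τ 38) ^ 2 * (RR τ 16 * RR τ 24) * (RR τ 18 * RR τ 22) ^ 2) ∧
    ub (mob 1 0 (-5) 1 τ) = (RR τ 4 * RR τ 36) ^ 2 * (RR τ 12 * RR τ 28) * (RR τ 16 * RR τ 24) ^ 2 /
      ((RR τ 6 * RR τ 34) ^ 2 * (RR τ 8 * RR τ 32) * (RR τ 14 * RR τ 26) ^ 2) := by
  obtain ⟨r2, r4, r6, r8, r10, r12, r14, r16, r18, r20, r22, r24, r26, r28, r30, r32, r34, r36, r38,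
    r40, -⟩ := RR_even h
  have n := q1_ne (τ / 4)
  have h' : 0 < (10 * τ).im := im_mul_pos h
  have n0 := deriv_Th_ne h'
  have hj : (-5 * τ + 1 : ℂ) ≠ 0 := by
    simpa using den_ne (a := 1) (b := 0) (c := -5) (d := 1) (by norm_num) h
  have h1 := im_mob_pos (a := 1) (b := 0) (c := -5) (d := 1) (by norm_num) h
  have e : (-5 * τ + 1) * mob 1 0 (-5) 1 τ = τ := by
    rw [mob]
    push_cast
    rw [mul_div_cancel₀ _ hj, one_mul, add_zero]
  have s1 : Sc (2 * (-5 * τ + 1)) (Lt (mob 1 0 (-5) 1 τ)) (lat (10 * τ)) := by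
    refine MP_23455a_nt.ModB.sc_of_basis (mul_ne_zero two_ne_zero hj) (a := 0) (b := 1) (a' := -1)
      (b' := 2) (e := 1) (by norm_num) ?_ ?_
    · rw [Lt, lat_ω₁ (om_pos h1), lat_ω₂]
      push_cast
      linear_combination 5 * e
    · rw [Lt, lat_ω₂, lat_ω₁ h', lat_ω₂]
      push_cast
      ring
  obtain ⟨e1, e2⟩ := k_sc (t := τ / 2) (s := mob 1 0 (-5) 1 τ / 4) s1
    (by rw [show 2 * (-5 * τ + 1) * (mob 1 0 (-5) 1 τ / 4) - τ / 2 = 0 by
      linear_combination e / 2]; exact zero_mem _)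
  have t1 := Th_RR τ 1 19 rfl
  have t2 := Th_RR τ 2 18 rfl
  have t3 := Th_RR τ 3 17 rfl
  have t4 := Th_RR τ 4 16 rfl
  have t5 := Th_RR τ 5 15 rfl
  have t6 := Th_RR τ 6 14 rfl
  have t7 := Th_RR τ 7 13 rfl
  have t8 := Th_RR τ 8 12 rfl
  have t9 := Th_RR τ 9 11 rfl
  have t10 := Th_RR τ 10 10 rfl
  have t14 := Th_RR τ 14 6 rfl
  have t15 := Th_RR τ 15 5 rfl
  have t18 := Th_RR τ 18 2 rfl
  simp only [Nat.cast_ofNat, Nat.cast_one, Nat.reduceMul] at t1 t2 t3 t4 t5 t6 t7 t8 t9 t10 t14 t15 t18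
  constructor
  · rw [ua, ← e1, kA, pw_sub20 h 9 1 10 8 (by decide), pw_sub20 h 10 8 18 2 (by decide),
      pw_sub20 h 6 4 10 2 (by decide), pw_sub20 h 10 5 15 5 (by decide), t1, t2, t4, t5, t6, t8, t9,
      t10, t15, t18]
    field_simp
  · rw [ub, ← e2, kB, pw_sub20 h 7 3 10 4 (by decide), pw_sub20 h 10 4 14 6 (by decide),
      pw_sub20 h 8 2 10 6 (by decide), pw_sub20 h 10 5 15 5 (by decide), t2, t3, t4, t5, t6, t7, t8,
      t10, t14, t15]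
    field_simp

theorem gg_cusp (h : 0 < τ.im) : sl 1 0 (-5) 1 gg τ = -gg τ := by
  have h0 := den_ne (a := 1) (b := 0) (c := -5) (d := 1) (by norm_num) h
  have h1 := eta2_tr 1 0 (-5) 1 (by norm_num) τ h
  have h5 := eta2_tr 1 0 (-1) 1 (by norm_num) (5 * τ) (im_five h)
  have h6 := congr_arg e12 (by decide : PsiE 1 0 (-5) 1 + PsiE 1 0 (-1) 1 = 6)
  have e5 := mul_mob (m := 5) 1 0 (-1) 1 τ
  rw [e12_add, e12_six] at h6
  rw [sl, div_eq_iff (pow_ne_zero 2 h0), gg, gg]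
  norm_num at h1 h5 e5 ⊢
  rw [e5, h1, h5]
  linear_combination ((-(5 * τ) + 1) ^ 2 * eta2 τ * eta2 (5 * τ)) * h6

theorem fY_theta' (h : 0 < τ.im) : -sl 1 0 (-5) 1 fY τ / (1 + I) = (2 + I) *
    (thB (5 * τ) (2 / 5) * thA (5 * τ) (-1 / 5) + I * (thA (5 * τ) (2 / 5) * thB (5 * τ) (-1 / 5))) := by
  obtain ⟨r2, r4, r6, r8, r10, r12, r14, r16, r18, r20, r22, r24, r26, r28, r30, r32, r34, r36, r38,
    r40, -⟩ := RR_even h
  have n := q1_ne (τ / 4)
  have h1 := im_mob_pos (a := 1) (b := 0) (c := -5) (d := 1) (by norm_num) h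
  have e4 := wron10 h 4 1 rfl (by norm_num) (by norm_num)
  have e2 := wron10 h 2 3 rfl (by norm_num) (by norm_num)
  obtain ⟨f0, f1⟩ := t_flip (5 * τ) (x := -(4 : ℕ) / 10) (y := 2 / 5) (by norm_num)
  rw [f0, f1, show (3 * (-(4 : ℕ) / 10) + 1 : ℂ) = -1 / 5 by norm_num,
    show τ * (((4 : ℕ) : ℂ) ^ 2 + (10 - 3 * (4 : ℕ)) ^ 2) / 40 = (2 : ℕ) * (τ / 4) by
      push_cast; ring, q1_nat_mul] at e4
  rw [show (3 * (-(2 : ℕ) / 10) + 1 : ℂ) = 2 / 5 by norm_num,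
    show (-(2 : ℕ) / 10 : ℂ) = -1 / 5 by norm_num,
    show τ * (((2 : ℕ) : ℂ) ^ 2 + (10 - 3 * (2 : ℕ)) ^ 2) / 40 = (2 : ℕ) * (τ / 4) by
      push_cast; ring, q1_nat_mul] at e2
  have g1 : gg τ / ua (mob 1 0 (-5) 1 τ) = -(3 * thA (5 * τ) (-1 / 5) * -thB (5 * τ) (2 / 5) -
      thB (5 * τ) (-1 / 5) * thA (5 * τ) (2 / 5)) := by
    rw [e4, gg_RR h, (u_cusp h).1]
    norm_num only
    field_simp
  have g3 : gg τ / ub (mob 1 0 (-5) 1 τ) = -(3 * thA (5 * τ) (2 / 5) * thB (5 * τ) (-1 / 5) -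
      thB (5 * τ) (2 / 5) * thA (5 * τ) (-1 / 5)) := by
    rw [e2, gg_RR h, (u_cusp h).2]
    norm_num only
    field_simp
  have g : sl 1 0 (-5) 1 fY τ =
      -(gg τ / ub (mob 1 0 (-5) 1 τ) + I * (gg τ / ua (mob 1 0 (-5) 1 τ))) := by
    have := ua_ne h1
    have := ub_ne h1
    have h0 := den_ne (a := 1) (b := 0) (c := -5) (d := 1) (by norm_num) h
    rw [← neg_neg (gg τ), ← gg_cusp h, sl, sl, fY, uz, ux]
    field_simp
    ring
  have n1 : (1 + I : ℂ) ≠ 0 := fun e => by simpa using congr_arg re e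
  rw [g, g1, g3, div_eq_iff n1]
  linear_combination (-thB (5 * τ) (2 / 5) * thA (5 * τ) (-1 / 5) -
    (3 + I) * thA (5 * τ) (2 / 5) * thB (5 * τ) (-1 / 5)) * I_mul_I

/-- The expansion at the cusp `1 / 5`. -/
theorem hasSum_fY' (h : 0 < τ.im) :
    HasSum (fun α : G => (ep (r5 α) * α : G) / 4 * q1 (α.norm * τ / 2))
      (-sl 1 0 (-5) 1 fY τ / (1 + I)) := by
  have e : ((⟨2, 1⟩ : G) : ℂ) = 2 + I := by simp [GaussianInt.toComplex_def']
  have e' : ((star ⟨2, 1⟩ : G) : ℂ) = 2 - I := by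
    simp [GaussianInt.toComplex_def', sub_eq_add_neg]
  have := hasSum_symm (p := fun _ => True) (F := fun n => q1 (n * (τ / 2))) (fun α => Iff.rfl)
    (hasSum_coset (im_five h) (β := ⟨2, 1⟩) (x := 2 / 5) (y := -1 / 5)
      (by rw [e]; linear_combination (-1 / 5) * I_mul_I)
      (by rw [e']; linear_combination (-1 / 5) * I_mul_I)
      (by rw [e, e']; linear_combination (-τ) * I_mul_I) fun α => by
        simp only [r5_eq_one, Zsqrtd.ext_iff, Zsqrtd.re_add, Zsqrtd.im_add, Zsqrtd.re_mul,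
          Zsqrtd.im_mul, Zsqrtd.re_one, Zsqrtd.im_one, true_and]
        exact ⟨fun _ => ⟨(2 * α.re + α.im - 2) / 5, (2 * α.im - α.re + 1) / 5, by omega⟩,
          fun ⟨m, n, _⟩ => by omega⟩)
  rw [e, ← fY_theta' h] at this
  refine hasSum_congr this fun α => ?_
  rw [if_pos trivial, mul_div_assoc]

end Pool.Agent.Lib.MP_696deb_nt.Y2
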