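import Pool.Agent.Lib.MP_60ff09_nt.Dih.FPe
import Pool.Agent.Lib.MP_60ff09_nt.Dih.FPg

/-! The finite places on the curve of level twenty: definitions. -/

set_option autoImplicit false

open Complex
open scoped Classical

namespace Pool.Agent.Lib.MP_696deb_nt.Y2

open Pool.Agent.Dih

/-- The point has multiplications by an order of the Gaussian field with conductor of valuation
`i` at `l`, and `fw` tells whether the isogeny to `l τ` raises the conductor. -/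
def Ed (l i : ℕ) (fw : Prop) (τ : ℂ) : Prop := 0 < τ.im ∧ ∃ (Q : Fm) (k : ℤ), Rt Q τ ∧
  fdisc Q = -4 * k ^ 2 * l ^ (2 * i) ∧ ¬ (l : ℤ) ∣ k ∧ Prm l Q ∧ (fw ↔ ¬ (l : ℤ) ∣ Q.1)

/-- The conductor has valuation `i` at `l`. -/
def Lv (l i : ℕ) (τ : ℂ) : Prop := ∃ fw, Ed l i fw τ

/-- The type of the first points. -/
def XT (i : ℕ) (τ : ℂ) : Prop :=
  (Ed 2 i False τ ∨ i = 0 ∧ Ed 2 0 True τ) ∧ ∃ j, Ed 5 (j + 1) False τ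

/-- The type of the second points. -/
def YT (i : ℕ) (τ : ℂ) : Prop := Ed 2 i True τ ∧ ∃ j, Ed 5 (j + 1) False τ

/-- `T` is the value at `τ` of the generator of the functions of level ten. -/
structure On (τ T : ℂ) : Prop where
  h0 : jf τ * Dl τ ^ 2 * Dl (2 * τ) = (Dl τ + 256 * Dl (2 * τ)) ^ 3
  h2 : Dl τ * T ^ 5 = Dl (2 * τ) * ((T - 1) * (T - 5) ^ 5)
  h5 : T ^ 12 * Dl τ * Dl (10 * τ) ^ 2 = Dl (2 * τ) ^ 2 * Dl (5 * τ)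

variable {l i : ℕ} {fw : Prop} {τ : ℂ} {g : MZ}

theorem Ed.lv (h : Ed l i fw τ) : Lv l i τ := ⟨fw, h⟩

theorem Lv.pos (h : Lv l i τ) : 0 < τ.im := h.choose_spec.1

theorem XT.lv (h : XT i τ) : Lv 2 i τ := by
  rcases h.1 with k | ⟨rfl, k⟩
  exacts [k.lv, k.lv]

theorem YT.lv (h : YT i τ) : Lv 2 i τ := h.1.lv

theorem n0_form (hl : l.Prime) {Q : Fm} {k : ℤ} (hτ : 0 < τ.im) (h1 : Rt Q τ)
    (h2 : fdisc Q = -4 * k ^ 2 * l ^ (2 * i)) (h3 : ¬ (l : ℤ) ∣ k) (h4 : Prm l Q) (hg : 0 < g.det)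
    (hc : ¬ (l : ℤ) ∣ g.det) {fw : Prop} (h5 : fw ↔ ¬ (l : ℤ) ∣ fval Q (g 1 1) (-g 1 0)) :
    Ed l i fw (act g τ) := by
  refine ⟨act_pos hg hτ, _, k * g.det, h1.act hτ hg.ne', by rw [fpe_disc, h2]; ring, fun e =>
    ((Nat.prime_iff_prime_int.1 hl).dvd_or_dvd e).elim h3 hc, h4.fmap hl ?_, h5⟩
  rwa [Matrix.det_fin_two, mul_comm (g 0 0), ← neg_mul_neg (g 0 1)] at hc

theorem Lv.act (h : Lv l i τ) (hl : l.Prime) (hg : 0 < g.det) (hc : ¬ (l : ℤ) ∣ g.det) :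
    Lv l i (act g τ) := by
  obtain ⟨-, hτ, Q, k, h1, h2, h3, h4, -⟩ := h
  exact ⟨_, n0_form hl hτ h1 h2 h3 h4 hg hc Iff.rfl⟩

theorem Ed.act (h : Ed l i fw τ) (hl : l.Prime) (hg : 0 < g.det) (hc : ¬ (l : ℤ) ∣ g.det)
    (h0 : (l : ℤ) ∣ g 1 0) : Ed l i fw (act g τ) := by
  obtain ⟨hτ, Q, k, h1, h2, h3, h4, h5⟩ := h
  have hp := Nat.prime_iff_prime_int.1 hl
  refine n0_form hl hτ h1 h2 h3 h4 hg hc (h5.trans (not_congr ?_))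
  have hd : ¬ (l : ℤ) ∣ g 1 1 := fun e => hc (by
    rw [Matrix.det_fin_two]
    exact dvd_sub (e.mul_left _) (h0.mul_left _))
  obtain ⟨c, hc'⟩ := h0
  rw [show fval Q (g 1 1) (-g 1 0) = Q.1 * g 1 1 ^ 2 + l * (Q.2.2 * l * c ^ 2 - Q.2.1 * g 1 1 * c) by
    rw [fval, hc']; ring, dvd_add_left (dvd_mul_right _ _)]
  exact ⟨fun e => e.mul_right _, fun e => (hp.dvd_or_dvd e).resolve_right
    fun e' => hd (hp.dvd_of_dvd_pow e')⟩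

theorem n0_ten (hg : IsCoprime g.det 10) : ¬ ((2 : ℕ) : ℤ) ∣ g.det ∧ ¬ ((5 : ℕ) : ℤ) ∣ g.det := by
  obtain ⟨a, b, h⟩ := hg
  constructor <;> rintro ⟨c, e⟩ <;> rw [e, mul_left_comm] at h <;> omega

theorem XT.act (h : XT i τ) (hg : 0 < g.det) (hc : IsCoprime g.det 10) (h0 : 10 ∣ g 1 0) :
    XT i (act g τ) := by
  obtain ⟨a, b⟩ := n0_ten hc
  have c2 : ((2 : ℕ) : ℤ) ∣ g 1 0 := Dvd.dvd.trans ⟨5, rfl⟩ h0
  obtain ⟨h1, j, h2⟩ := h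
  exact ⟨h1.imp (fun k => k.act Nat.prime_two hg a c2) fun k => ⟨k.1, k.2.act Nat.prime_two hg a c2⟩,
    j, h2.act Nat.prime_five hg b (Dvd.dvd.trans ⟨2, rfl⟩ h0)⟩

theorem YT.act (h : YT i τ) (hg : 0 < g.det) (hc : IsCoprime g.det 10) (h0 : 10 ∣ g 1 0) :
    YT i (act g τ) := by
  obtain ⟨a, b⟩ := n0_ten hc
  obtain ⟨h1, j, h2⟩ := h
  exact ⟨h1.act Nat.prime_two hg a (Dvd.dvd.trans ⟨5, rfl⟩ h0),
    j, h2.act Nat.prime_five hg b (Dvd.dvd.trans ⟨2, rfl⟩ h0)⟩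

theorem Lv.isCM (h : Lv l i τ) (hl : l.Prime) : ∃ k : ℤ, k ≠ 0 ∧ IsCM (-4 * k ^ 2) τ := by
  obtain ⟨-, hτ, Q, k, h1, h2, h3, -⟩ := h
  have k0 : k * l ^ i ≠ 0 := mul_ne_zero (fun e => h3 (e ▸ dvd_zero _))
    (pow_ne_zero _ (by exact_mod_cast hl.ne_zero))
  have e : fdisc Q = -4 * (k * l ^ i) ^ 2 := by rw [h2]; ring
  exact ⟨_, k0, e ▸ h1.isCM hτ (by rw [e]; nlinarith [sq_pos_of_ne_zero k0])⟩

theorem Lv.yv (h : Lv l i τ) : Yv l (-4 * l ^ (2 * i)) τ := by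
  obtain ⟨-, hτ, Q, k, h1, h2, h3, -⟩ := h
  exact ⟨hτ, Q, k, h1, by rw [h2]; ring, h3⟩

theorem Lv.zv {j : ℕ} (h : Lv l j τ) (hl : l.Prime) (hj : i < j) : Zv l (-4 * l ^ (2 * i)) τ := by
  obtain ⟨-, hτ, Q, k, h1, h2, h3, h4, -⟩ := h
  obtain ⟨d, rfl⟩ := Nat.exists_eq_add_of_lt hj
  exact ⟨k * l ^ d, mul_ne_zero (fun e => h3 (e ▸ dvd_zero _))
    (pow_ne_zero _ (by exact_mod_cast hl.ne_zero)), hτ, Q, h1, by rw [h2]; ring, h4⟩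

theorem n0_neg (hl : l.Prime) : (-4 * l ^ (2 * i) : ℤ) < 0 := by
  have := hl.pos
  have : (0 : ℤ) < l ^ (2 * i) := by positivity
  omega

theorem Lv.jf_ne {j : ℕ} {τ' : ℂ} (h : Lv l i τ) (h' : Lv l j τ') (hl : l.Prime) (hj : i < j) :
    jf τ ≠ jf τ' := h.yv.jf_ne (h'.zv hl hj) hl (n0_neg hl)

end Pool.Agent.Lib.MP_696deb_nt.Y2
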