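import Pool.Agent.Lib.MP_696deb_nt.Y2.M7
import Pool.Agent.Lib.MP_696deb_nt.Y2.N0

/-! The Hecke operator at two and the equations of the Hauptmodul. -/

set_option autoImplicit false

open Filter Topology Complex PeriodPair ModularForm PowerSeries Pool.Agent.Shared.Weier
open scoped Real ComplexConjugate

namespace Pool.Agent.Lib.MP_696deb_nt.Y2

open Klein Gal
open QF (G ii ip)

variable {τ z w : ℂ} {a b c d : ℤ}

theorem aN_zero : aN 0 = 0 := by decide +kernel

theorem aN_two_mul (n : ℕ) : aN (2 * n) = aN 2 * aN n := by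
  rcases Nat.eq_zero_or_pos n with rfl | hn
  · rw [aN_zero, mul_zero]
  rw [aN_mul 2 n two_pos hn, Finset.sum_eq_single 1]
  · simp [om_one]
  · intro e he h1
    rcases (Nat.dvd_prime Nat.prime_two).1 ((Nat.dvd_of_mem_divisors he).trans
      (Nat.gcd_dvd_left 2 n)) with rfl | rfl
    · exact absurd rfl h1
    · rw [show om (2 : ℕ) = 0 by decide, zero_mul, zero_mul]
  · simp

theorem sl_U2 (h : 0 < τ.im) : sl 1 0 (-5) 1 fY (τ / 2) + sl 1 0 (-5) 1 fY (τ / 2 + 1) =
    2 * aN 2 * sl 1 0 (-5) 1 fY τ := by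
  have h1 := m6_U qe_fY' two_ne_zero
  have h2 := qe_fY'.smul (2 * aN 2)
  have e : (PowerSeries.mk fun n => ((2 : ℕ) : ℂ) * coeff (2 * n)
      (PowerSeries.mk fun m => (aN m : ℂ))) = C (2 * aN 2 : ℂ) * PowerSeries.mk fun m => (aN m : ℂ) := by
    ext n
    simp only [coeff_mk, coeff_C_mul, aN_two_mul, map_mul, Nat.cast_ofNat, mul_assoc]
  have n1 : (1 + I : ℂ) ≠ 0 := fun e => by simpa using congr_arg re e
  have := (e ▸ h1).eq_of_eq h2 (z := τ / 2) (by simpa using h)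
  simp only [Finset.sum_range_succ, Finset.sum_range_zero, Nat.cast_ofNat, Nat.cast_zero,
    Nat.cast_one, zero_add, add_zero, mul_div_cancel₀ _ (two_ne_zero (α := ℂ))] at this
  rw [← add_div, ← mul_div_assoc, div_left_inj' n1] at this
  linear_combination -this

/-- The Hecke operator at two, at the cusp `1 / 5`. -/
theorem phi_U2 : ∃ C : ℂ, ∀ τ : ℂ, 0 < τ.im → phi (mob 1 0 (-5) 1 (τ / 2)) +
    phi (mob 1 0 (-5) 1 (τ / 2 + 1)) = aN 2 * phi (mob 1 0 (-5) 1 τ) + C := by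
  have k : ∀ z : ℂ, 0 < z.im → HasDerivAt (fun z => phi (mob 1 0 (-5) 1 z))
      (π * I / 2 * sl 1 0 (-5) 1 fY z) z := fun z hz => by
    refine ((hasDerivAt_phi (im_mob_pos (by norm_num) hz)).comp z
      (hasDerivAt_mob (by norm_num) hz)).congr_deriv ?_
    rw [sl]
    ring
  obtain ⟨C, hC⟩ := const_of_deriv (G := fun τ => phi (mob 1 0 (-5) 1 (τ / 2)) +
    phi (mob 1 0 (-5) 1 (τ / 2 + 1)) - aN 2 * phi (mob 1 0 (-5) 1 τ)) fun z hz => by
      have d1 := (k (z / 2) (by simpa using hz)).comp z ((hasDerivAt_id z).div_const 2)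
      have d2 := (k (z / 2 + 1) (by simpa using hz)).comp z (h := fun x => x / 2 + 1)
        (((hasDerivAt_id z).div_const 2).add_const 1)
      exact ((d1.add d2).sub ((k z hz).const_mul (aN 2 : ℂ))).congr_deriv
        (by linear_combination π * I / 4 * sl_U2 hz)
  exact ⟨C, fun τ h => by rw [← hC τ h]; ring⟩

theorem uu_U2 : ∃ C : ℂ, ∀ τ : ℂ, 0 < τ.im → uu (mob 1 0 (-5) 1 (τ / 2)) +
    uu (mob 1 0 (-5) 1 (τ / 2 + 1)) = aN 2 * uu (mob 1 0 (-5) 1 τ) + C := by
  obtain ⟨C, hC⟩ := phi_U2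
  exact ⟨rho * C, fun τ h => by rw [uu, uu, uu]; linear_combination rho * hC τ h⟩

/-- The Hauptmodul satisfies the equations used at the finite places. -/
theorem on_tt (h : 0 < τ.im) : On τ (tt τ) := by
  have n1 := eta_ne h
  have n2 : η (2 * τ) ≠ 0 := eta_ne (im_mul_pos h)
  have n10 : η (10 * τ) ≠ 0 := eta_ne (im_mul_pos h)
  have n := tt_ne h
  refine ⟨?_, ?_, ?_⟩
  · rw [jf_eq h, Dl, Dl]
    field_simp
  · have := s_eq h
    rw [Dl, Dl]
    field_simp at this
    linear_combination this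
  · rw [tt, Dl, Dl, Dl, Dl, eta2, eta2, eta2, eta2]
    generalize η (10 * τ) = x at n10
    field_simp

end Pool.Agent.Lib.MP_696deb_nt.Y2
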