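import Pool.Agent.Lib.MP_696deb_nt.Y2.N0

/-! Valuations of the isogenies in the tree at a prime. -/

set_option autoImplicit false

open Complex
open scoped Classical

namespace Pool.Agent.Lib.MP_696deb_nt.Y2

open Pool.Agent.Dih

variable {Γ : Type*} [LinearOrderedCommGroupWithZero Γ] {V : Valuation ℂ Γ} {P : ℕ} {D : ℤ}
  {Q : Fm} {τ τ' : ℂ}

theorem n1_fwd (hP : P.Prime) (hV : V P < 1) (hτ : 0 < τ.im) (h : Rt Q τ)
    (hD : fdisc Q < 0) {i k : Option (Fin P)} (hi : ∀ l, (P : ℤ) ∣ Dih.ev P Q l ↔ l = i)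
    (hk : ¬ (P : ℤ) ∣ Dih.ev P Q k) : V (ph P i τ) * V (ph P k τ) ^ P = V P ^ 12 := by
  rw [← val_ph_mul hP hτ ((h.isCM hτ hD).val_jf V) i, map_prod,
    Finset.prod_congr rfl (g := fun _ => V (ph P k τ)) fun l hl => val_ph_eq hP hV hτ h hD
      (fun e => Finset.ne_of_mem_erase hl ((hi l).mp e)) hk, Finset.prod_const,
    Finset.card_erase_of_mem (Finset.mem_univ i)]
  simp

theorem n1_ind (hP : P.Prime) (hV : V P < 1) (d0 : D < 0) (d4 : 4 ∣ D) {N : ℕ}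
    (h0 : ∀ (Q : Fm) (τ : ℂ), 0 < τ.im → Rt Q τ → fdisc Q = D → Prm P Q →
      ∀ k, ¬ (P : ℤ) ∣ Dih.ev P Q k → V (ph P k τ) ^ N = V P ^ 12) (i : ℕ) :
    ∀ (Q : Fm) (τ : ℂ), 0 < τ.im → Rt Q τ → fdisc Q = D * P ^ (2 * i) → Prm P Q →
      ∀ k, ¬ (P : ℤ) ∣ Dih.ev P Q k → V (ph P k τ) ^ (N * P ^ i) = V P ^ 12 := by
  have hp0 : (0 : ℤ) < P := by exact_mod_cast hP.pos
  induction i with
  | zero =>
    intro Q τ hτ hQ hD hq k hk
    simpa using h0 Q τ hτ hQ (by simpa using hD) hq k hk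
  | succ i ih =>
    intro Q τ hτ hQ hD hq k hk
    have hD0 : fdisc Q < 0 := hD ▸ mul_neg_of_neg_of_pos d0 (pow_pos hp0 _)
    have hD2 : fdisc Q = D * P ^ (2 * i) * P ^ 2 := by rw [hD]; ring
    obtain ⟨j, hj⟩ := exists_back hP hq ⟨D * P ^ (2 * i) * P, by rw [hD2]; ring⟩
    obtain ⟨R, l, r1, r2, r3, r4, r5⟩ := exists_down hP hτ hQ hq hD2
      (Or.inl (Int.emod_eq_zero_of_dvd (d4.mul_right _))) ((hj j).mpr rfl)
    have e1 := n1_fwd hP hV hτ hQ hD0 hj hk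
    have e2 := congr_arg V r5
    rw [map_mul, map_pow, ← e1, mul_comm] at e2
    have e3 := mul_left_cancel₀ (V.ne_zero_iff.mpr (phi_ne (rP_pos hP j) hτ)) e2
    rw [← ih R _ (act_pos (rP_pos hP j) hτ) r1 r2 r3 l r4, e3, ← pow_mul]
    congr 1
    ring

theorem n1_ram (hV : V (2 : ℕ) < 1) (hτ : 0 < τ.im) (h : Rt Q τ) {k : ℤ}
    (hD : fdisc Q = -4 * k ^ 2) (hk : ¬ ((2 : ℕ) : ℤ) ∣ k) :
    ∃ j, ((2 : ℕ) : ℤ) ∣ Dih.ev 2 Q j ∧ V (ph 2 j τ) = V (2 : ℕ) ^ 6 := by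
  have hP := Nat.prime_two
  have k0 : k ≠ 0 := fun e => hk (e ▸ dvd_zero _)
  have k2 := sq_pos_of_ne_zero k0
  have hj := (h.isCM hτ (by omega)).val_jf V
  obtain ⟨a, b, c⟩ := Q
  simp only [fdisc, Rt] at h hD
  obtain ⟨b, rfl⟩ : 2 ∣ b := Int.prime_two.dvd_of_dvd_pow (n := 2) ⟨2 * (a * c - k ^ 2), by
    linear_combination hD⟩
  have e0 : a * c - b ^ 2 = k ^ 2 := by linarith
  have hS : (!![k - b, -c; a, k + b] : MZ).det = 2 * k ^ 2 := by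
    rw [Matrix.det_fin_two_of]
    linear_combination e0
  have hS0 : 0 < (!![k - b, -c; a, k + b] : MZ).det := by omega
  obtain ⟨j, N, hN⟩ := exists_factor hP (B := !![k - b, -c; a, k + b]) ⟨_, hS⟩
  have hN1 : N.det = k ^ 2 := by
    have := congr_arg Matrix.det hN
    rw [hS, Matrix.det_mul, (isReps_rP hP).det] at this
    omega
  have hF : act !![k - b, -c; a, k + b] τ = τ := by
    rw [act_eq_iff hS0.ne' hτ]
    simp
    push_cast at h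
    linear_combination h
  have h5 : phiJ !![k - b, -c; a, k + b] τ = -(((2 : ℕ) : ℂ) ^ 6 * (k : ℂ) ^ 12) := by
    have hd := den_ne' hS0.ne' hτ
    have e1 : (a : ℂ) * c - b ^ 2 = k ^ 2 := by exact_mod_cast e0
    have e2 : ((a : ℂ) * τ + b) ^ 2 = -(k : ℂ) ^ 2 := by
      push_cast at h
      linear_combination a * h - e1
    have hd4 : den !![k - b, -c; a, k + b] τ ^ 4 = -4 * (k : ℂ) ^ 4 := by
      simp [den]
      linear_combination (((a : ℂ) * τ + b) ^ 2 + 4 * k * (a * τ + b) + 5 * k ^ 2) * e2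
    rw [phi_of_fixed hτ hF, hS, div_pow, div_eq_iff (pow_ne_zero _ hd),
      show 12 = 4 * 3 from rfl, pow_mul (den _ _), hd4]
    push_cast
    ring
  refine ⟨j, ?_, ?_⟩
  · have q := fun x y => congrFun (congrFun hN x) y
    have q00 := q 0 0
    have q01 := q 0 1
    have q10 := q 1 0
    have q11 := q 1 1
    rcases j with _ | j
    · simp [rP, ut, Matrix.mul_apply, Fin.sum_univ_two] at q10
      exact ⟨N 1 0, by rw [Dih.ev, q10, mul_comm]; rfl⟩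
    · fin_cases j <;> simp [rP, ut, Matrix.mul_apply, Fin.sum_univ_two] at q00 q01 q10 q11 <;>
        simp only [Dih.ev, fval] <;> push_cast <;> omega
  · rw [hN, phi_mul _ (rP_pos hP j) hτ] at h5
    replace h5 := congr_arg V h5
    rw [map_mul, val_phi_eq_one (by omega) (act_pos (rP_pos hP j) hτ)
      (val_isog (rP_pos hP j) hτ hj).2 (val_int_eq_one hP hV (by
        rw [hN1]
        exact fun e => hk (Int.prime_two.dvd_of_dvd_pow e))), one_mul, V.map_neg, map_mul, map_pow,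
      map_pow, val_int_eq_one hP hV hk, one_pow, mul_one] at h5
    exact h5

theorem n1_two (hV : V (2 : ℕ) < 1) {k : ℤ} (hk : ¬ ((2 : ℕ) : ℤ) ∣ k) {i : ℕ} (hτ : 0 < τ.im)
    (h : Rt Q τ) (hD : fdisc Q = -4 * k ^ 2 * (2 : ℕ) ^ (2 * i)) (hq : Prm 2 Q)
    {j : Option (Fin 2)} (hj : ¬ ((2 : ℕ) : ℤ) ∣ Dih.ev 2 Q j) :
    V (ph 2 j τ) ^ (4 * 2 ^ i) = V (2 : ℕ) ^ 12 := by
  have k2 := sq_pos_of_ne_zero (show k ≠ 0 from fun e => hk (e ▸ dvd_zero _))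
  refine n1_ind Nat.prime_two hV (by omega) ⟨-k ^ 2, by ring⟩ ?_ i Q τ hτ h hD hq j hj
  intro Q τ hτ h hD hq j hj
  obtain ⟨m, hm⟩ := exists_back Nat.prime_two hq ⟨-2 * k ^ 2, by rw [hD]; push_cast; ring⟩
  obtain ⟨m', h1, h2⟩ := n1_ram hV hτ h hD hk
  obtain rfl := (hm _).1 h1
  have e := n1_fwd Nat.prime_two hV hτ h (by omega) hm hj
  rw [h2, show 12 = 6 + 6 from rfl, pow_add] at e
  rw [show 4 = 2 * 2 from rfl, pow_mul,
    mul_left_cancel₀ (pow_pos (fpg_pos Nat.prime_two) 6).ne' e, ← pow_mul]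

theorem Ed.two_fw {i : ℕ} (h : Ed 2 i True τ) (hV : V (2 : ℕ) < 1) :
    V (ph 2 none τ) ^ (4 * 2 ^ i) = V (2 : ℕ) ^ 12 := by
  obtain ⟨hτ, Q, k, h1, h2, h3, h4, h5⟩ := h
  exact n1_two hV h3 hτ h1 h2 h4 (h5.1 trivial)

theorem Ed.two_bw {i : ℕ} (h : Ed 2 i False τ) (hV : V (2 : ℕ) < 1) :
    V (ph 2 none τ) ^ 4 ≤ V (2 : ℕ) ^ 12 := by
  obtain ⟨hτ, Q, k, h1, h2, h3, h4, h5⟩ := h
  have k2 := sq_pos_of_ne_zero (show k ≠ 0 from fun e => h3 (e ▸ dvd_zero _))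
  have d0 : fdisc Q < 0 := h2 ▸ mul_neg_of_neg_of_pos (by omega) (by positivity)
  obtain ⟨m, hm⟩ := exists_back Nat.prime_two h4
    ⟨-2 * k ^ 2 * (2 : ℕ) ^ (2 * i), by rw [h2]; push_cast; ring⟩
  obtain rfl : none = m := (hm none).1 (not_not.1 fun e => h5.2 e)
  have hk : ¬ ((2 : ℕ) : ℤ) ∣ Dih.ev 2 Q (some 0) := fun e => Option.some_ne_none _ ((hm _).1 e)
  have e1 := n1_fwd Nat.prime_two hV hτ h1 d0 hm hk
  have e2 := n1_two hV h3 hτ h1 h2 h4 hk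
  have e3 := val_ph_le Nat.prime_two hτ ((h1.isCM hτ d0).val_jf V) (some 0)
  have e4 := val_ph_le Nat.prime_two hτ ((h1.isCM hτ d0).val_jf V) none
  have hπ := fpg_pos (V := V) Nat.prime_two
  generalize V (ph 2 none τ) = B at e1 e4 ⊢
  generalize V (ph 2 (some 0) τ) = F at e1 e2 e3
  have e5 : V (2 : ℕ) ^ 12 ≤ F ^ 4 := e2 ▸ pow_le_pow_of_le_one zero_le e3
    (Nat.le_mul_of_pos_right _ (by positivity))
  have e6 : B ^ 2 ≤ V (2 : ℕ) ^ 12 := by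
    rw [← mul_le_mul_iff_left₀ (pow_pos hπ 12)]
    calc B ^ 2 * V (2 : ℕ) ^ 12 ≤ B ^ 2 * F ^ 4 := mul_le_mul_right e5 _
      _ = (B * F ^ 2) * (B * F ^ 2) := by rw [← sq, mul_pow, ← pow_mul]
      _ = _ := by rw [e1]
  exact (pow_le_pow_of_le_one zero_le e4 (by norm_num)).trans e6

theorem n1_lt {i j : ℕ} (h : XT i τ) (h' : YT j τ') (hj : i < j) (hV : V (2 : ℕ) < 1) :
    V (ph 2 none τ) < V (ph 2 none τ') ∧ V (ph 2 none τ') < 1 := by
  have hπ := fpg_pos (V := V) Nat.prime_two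
  have e1 : V (ph 2 none τ) ^ 4 ≤ V (2 : ℕ) ^ 12 := by
    rcases h.1 with k | ⟨-, k⟩
    exacts [k.two_bw hV, (k.two_fw hV).le]
  have e2 := h'.1.two_fw hV
  generalize V (ph 2 none τ') = F at e2 ⊢
  have x0 : 0 < F := zero_lt_iff.2 fun e => by
    rw [e, zero_pow (by positivity)] at e2
    exact (pow_pos hπ 12).ne e2
  have x1 : F < 1 := not_le.1 fun e =>
    ((one_le_pow₀ e).trans_eq e2).not_gt (pow_lt_one₀ zero_le hV (by norm_num))
  refine ⟨lt_of_pow_lt_pow_left₀ 4 zero_le (e1.trans_lt ?_), x1⟩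
  rw [← e2]
  refine pow_lt_pow_right_of_lt_one₀ x0 x1 ?_
  have := Nat.one_lt_two_pow (show j ≠ 0 by omega)
  omega

theorem Lv.ord {l i : ℕ} (h : Lv l i τ) (hl : l.Prime) (hP : P.Prime) (h4 : P % 4 = 1)
    (hV : V P < 1) : Ord V P τ := by
  obtain ⟨k, -, h1⟩ := h.isCM hl
  have := Fact.mk hP
  obtain ⟨x, hx⟩ := ZMod.exists_sq_eq_neg_one_iff.2 (show P % 4 ≠ 3 by omega)
  obtain ⟨x, rfl⟩ := ZMod.intCast_surjective x
  obtain ⟨c, hc⟩ : (P : ℤ) ∣ x * x + 1 := (ZMod.intCast_zmod_eq_zero_iff_dvd _ _).1 (by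
    push_cast
    rw [← hx, neg_add_cancel])
  refine h1.ord hP hV ⟨k, -4, 2 * x, by ring, fun e => ?_, c, by linear_combination 4 * hc⟩
  have := (Nat.prime_dvd_prime_iff_eq hP Nat.prime_two).1 (hP.dvd_of_dvd_pow (n := 2)
    (by exact_mod_cast dvd_neg.1 e))
  omega

theorem Lv.val_sub {i j : ℕ} (h : Lv 2 i τ) (h' : Lv 2 j τ') (hj : i < j) (hP : P.Prime)
    (h4 : P % 4 = 1) (hV : V P < 1) : V (jf τ - jf τ') = 1 :=
  h.yv.val_sub (h'.zv Nat.prime_two hj) Nat.prime_two (n0_neg Nat.prime_two) hP hV (by omega)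
    (h.ord Nat.prime_two hP h4 hV)

theorem Ed.can {j : ℕ} (h : Ed P (j + 1) False τ) (hP : P.Prime) (h4 : P % 4 = 1)
    (hV : V P < 1) : V (ph P none τ) = V P ^ 12 := by
  obtain ⟨i, hi⟩ := h.lv.ord hP hP h4 hV
  obtain ⟨hτ, Q, k, h1, h2, h3, h5, h6⟩ := h
  have k2 := sq_pos_of_ne_zero (show k ≠ 0 from fun e => h3 (e ▸ dvd_zero _))
  have p0 := hP.pos
  have d0 : fdisc Q < 0 := h2 ▸ mul_neg_of_neg_of_pos (by omega) (by positivity)
  obtain ⟨m, hm⟩ := exists_back hP h5 (h2 ▸ (dvd_pow_self _ (by omega)).mul_left _)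
  obtain rfl : none = m := (hm none).1 (not_not.1 fun e => h6.2 e)
  rcases i with _ | i
  · exact hi.val
  have : Nontrivial (Fin P) := Fin.nontrivial_iff_two_le.2 hP.two_le
  obtain ⟨k, hk⟩ := exists_ne i
  have := val_ph_eq hP hV hτ h1 d0 (i := some i) (k := some k)
    (fun e => Option.some_ne_none _ ((hm _).1 e)) fun e => Option.some_ne_none _ ((hm _).1 e)
  exact absurd (this.trans (hi.unit _ fun e => hk (Option.some.inj e))) (hi.lt hV).ne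

end Pool.Agent.Lib.MP_696deb_nt.Y2
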