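import Pool.Agent.Lib.MP_696deb_nt.Y2.N1

/-! Congruences between integral numbers. -/

set_option autoImplicit false

open Complex
open scoped Classical

namespace Pool.Agent.Lib.MP_696deb_nt.Y2

open Pool.Agent.Dih

variable {Γ : Type*} [LinearOrderedCommGroupWithZero Γ] {V : Valuation ℂ Γ}

theorem n3_nat (V : Valuation ℂ Γ) (n : ℕ) : V n ≤ 1 := natCast_mem V.integer n

/-- Two integral numbers that are congruent. -/
def Cg (V : Valuation ℂ Γ) (δ : Γ) (x y : ℂ) : Prop := V x ≤ 1 ∧ V y ≤ 1 ∧ V (x - y) ≤ δ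

section
variable {δ : Γ} {x y z w : ℂ}

theorem Cg.const (h : V x ≤ 1) : Cg V δ x x := ⟨h, h, by simp⟩

theorem Cg.add (h : Cg V δ x y) (k : Cg V δ z w) : Cg V δ (x + z) (y + w) :=
  ⟨V.map_add_le h.1 k.1, V.map_add_le h.2.1 k.2.1, by
    rw [add_sub_add_comm]
    exact V.map_add_le h.2.2 k.2.2⟩

theorem Cg.sub (h : Cg V δ x y) (k : Cg V δ z w) : Cg V δ (x - z) (y - w) :=
  ⟨V.map_sub_le h.1 k.1, V.map_sub_le h.2.1 k.2.1, by
    rw [sub_sub_sub_comm]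
    exact V.map_sub_le h.2.2 k.2.2⟩

theorem Cg.mul (h : Cg V δ x y) (k : Cg V δ z w) : Cg V δ (x * z) (y * w) := by
  refine ⟨?_, ?_, ?_⟩
  · rw [map_mul]
    exact mul_le_one' h.1 k.1
  · rw [map_mul]
    exact mul_le_one' h.2.1 k.2.1
  · rw [show x * z - y * w = x * (z - w) + w * (x - y) by ring]
    refine V.map_add_le ?_ ?_ <;> rw [map_mul]
    exacts [(mul_le_of_le_one_left' h.1).trans k.2.2, (mul_le_of_le_one_left' k.2.1).trans h.2.2]

theorem Cg.pow (h : Cg V δ x y) (n : ℕ) : Cg V δ (x ^ n) (y ^ n) := by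
  induction n with
  | zero => exact .const (by simp)
  | succ n ih => simpa only [pow_succ] using ih.mul h

theorem Cg.inv (h : Cg V δ x y) (hx : V x = 1) (hy : V y = 1) : Cg V δ x⁻¹ y⁻¹ := by
  have x0 : x ≠ 0 := V.ne_zero_iff.1 (hx ▸ one_ne_zero)
  have y0 : y ≠ 0 := V.ne_zero_iff.1 (hy ▸ one_ne_zero)
  refine ⟨by simp [hx], by simp [hy], ?_⟩
  rw [show x⁻¹ - y⁻¹ = -((x - y) * (x⁻¹ * y⁻¹)) by field_simp; ring]
  simpa [hx, hy] using h.2.2

end

end Pool.Agent.Lib.MP_696deb_nt.Y2
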