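import Pool.Agent.Lib.MP_696deb_nt.Y2.N2
import Pool.Agent.Lib.MP_696deb_nt.Y2.N3

/-! The local heights at the finite places. -/

set_option autoImplicit false

open Complex
open scoped Classical

namespace Pool.Agent.Lib.MP_696deb_nt.Y2

open Pool.Agent.Dih

variable {Γ : Type*} [LinearOrderedCommGroupWithZero Γ] {V : Valuation ℂ Γ} {τ τ' T T' : ℂ}
  {p i j : ℕ}

/-- The quotient of discriminants of level two. -/
noncomputable def sv (τ : ℂ) : ℂ := Dl τ / Dl (2 * τ)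

theorem n4_pos (hτ : 0 < τ.im) (n : ℕ) [n.AtLeastTwo] : 0 < ((OfNat.ofNat n : ℂ) * τ).im := by
  have : (0 : ℝ) < OfNat.ofNat n := Nat.ofNat_pos
  simpa using mul_pos this hτ

theorem sv_ne (hτ : 0 < τ.im) : sv τ ≠ 0 := div_ne_zero (Dl_ne hτ) (Dl_ne (n4_pos hτ 2))

theorem sv_mul (hτ : 0 < τ.im) : sv τ * ph 2 none τ = 2 ^ 12 := by
  have h1 := Dl_ne hτ
  have h2 := Dl_ne (n4_pos hτ 2)
  rw [sv, ph_none]
  push_cast
  field_simp

theorem sv_le (hτ : 0 < τ.im) (hj : V (jf τ) ≤ 1) : V (sv τ) ≤ 1 := by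
  have h0 := rP_pos Nat.prime_two none
  have h1 := phi_adjugate_mul h0 hτ
  rw [(isReps_rP Nat.prime_two).det] at h1
  rw [mul_right_cancel₀ (phi_ne h0 hτ) ((sv_mul hτ).trans (by exact_mod_cast h1.symm))]
  exact (val_isog (by rwa [det_adjugate_two]) (act_pos h0 hτ) (val_isog h0 hτ hj).2).1

theorem sv_one (hτ : 0 < τ.im) (hj : V (jf τ) ≤ 1) (h2 : V 2 = 1) : V (sv τ) = 1 := by
  have := congrArg V (sv_mul hτ)
  rwa [map_mul, map_pow, h2, one_pow, ph, val_phi_eq_one (rP_pos Nat.prime_two none) hτ hj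
    (by rw [(isReps_rP Nat.prime_two).det]; exact_mod_cast h2), mul_one] at this

theorem On.s_eq (h : On τ T) (hτ : 0 < τ.im) : sv τ * T ^ 5 = (T - 1) * (T - 5) ^ 5 := by
  rw [sv, div_mul_eq_mul_div, h.h2, mul_div_cancel_left₀ _ (Dl_ne (n4_pos hτ 2))]

theorem On.j_eq (h : On τ T) (hτ : 0 < τ.im) : jf τ = (sv τ + 256) ^ 3 * (sv τ)⁻¹ ^ 2 := by
  have h1 := Dl_ne hτ
  have h2 := Dl_ne (n4_pos hτ 2)
  rw [sv]
  field_simp
  linear_combination h.h0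

theorem On.ne (h : On τ T) (hτ : 0 < τ.im) : T ≠ 0 := by
  rintro rfl
  have := h.s_eq hτ
  norm_num at this

theorem On.s_eq' (h : On τ T) (hτ : 0 < τ.im) : sv τ = (T - 1) * (T - 5) ^ 5 * T⁻¹ ^ 5 := by
  rw [← h.s_eq hτ, mul_assoc, ← mul_pow, mul_inv_cancel₀ (h.ne hτ), one_pow, mul_one]

theorem On.le (h : On τ T) (hτ : 0 < τ.im) (hj : V (jf τ) ≤ 1) : V T ≤ 1 := not_lt.1 fun k => by
  have e := congrArg V (h.s_eq hτ)
  rw [map_mul, map_mul, map_pow, map_pow, V.map_sub_eq_of_lt_left (V.map_one.trans_lt k),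
    V.map_sub_eq_of_lt_left (y := 5) ((n3_nat V 5).trans_lt k)] at e
  exact ((sv_le hτ hj).trans_lt k).ne
    (mul_right_cancel₀ (pow_pos (zero_lt_one.trans k) 5).ne' e)

theorem On.unit (h : On τ T) (hτ : 0 < τ.im) (hj : V (jf τ) ≤ 1) (h5 : V 5 = 1) : V T = 1 :=
  (h.le hτ hj).eq_of_not_lt fun k => by
    have e := congrArg V (h.s_eq hτ)
    rw [map_mul, map_mul, map_pow, map_pow, V.map_sub_eq_of_lt_right (k.trans_eq V.map_one.symm),
      V.map_sub_eq_of_lt_right (k.trans_eq h5.symm), h5, map_one, one_pow, one_mul] at e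
    exact ((mul_le_of_le_one_left' (sv_le hτ hj)).trans_lt
      (pow_lt_one₀ zero_le k (by norm_num))).ne e

theorem On.unit_five (h : On τ T) (he : Ed 5 (j + 1) False τ) (h5 : V 5 < 1) : V T = 1 := by
  have hτ := he.1
  obtain ⟨k, -, c⟩ := he.lv.isCM Nat.prime_five
  have hj := c.val_jf V
  have h2 : V 2 = 1 := by
    exact_mod_cast val_int_eq_one (n := 2) Nat.prime_five h5 (by norm_num)
  have e1 := he.can Nat.prime_five rfl h5
  have t5 := n4_pos hτ 5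
  have e2 := sv_one hτ hj h2
  have e3 := sv_one (V := V) t5 (by
    simpa [act_none] using (val_isog (rP_pos Nat.prime_five none) hτ hj).2) h2
  have n1 := V.ne_zero_iff.2 (Dl_ne hτ)
  rw [ph_none, map_mul, map_pow, mul_eq_left₀ (pow_pos (fpg_pos Nat.prime_five) _).ne', map_mul,
    map_inv₀, mul_inv_eq_one₀ n1, Nat.cast_ofNat] at e1
  rw [sv, map_div₀, div_eq_one_iff_eq (V.ne_zero_iff.2 (Dl_ne (n4_pos hτ 2)))] at e2
  rw [sv, map_div₀, div_eq_one_iff_eq (V.ne_zero_iff.2 (Dl_ne (n4_pos t5 2))), ← mul_assoc,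
    show (2 : ℂ) * 5 = 10 by norm_num] at e3
  have e := congrArg V h.h5
  simp only [map_mul, map_pow] at e
  rw [← e3, ← e2, e1, mul_assoc, mul_comm (V (Dl τ)),
    mul_eq_right₀ (mul_ne_zero (pow_ne_zero _ n1) n1)] at e
  exact (pow_eq_one_iff_of_nonneg zero_le (by norm_num)).1 e

theorem On.cg (h : On τ T) (h' : On τ' T') (hτ : 0 < τ.im) (hτ' : 0 < τ'.im) (hj : V (jf τ) ≤ 1)
    (hj' : V (jf τ') ≤ 1) (h2 : V 2 = 1) (hT : V T = 1) (hT' : V T' = 1) :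
    V (jf τ - jf τ') ≤ V (T - T') := by
  have c : Cg V (V (T - T')) T T' := ⟨hT.le, hT'.le, le_rfl⟩
  have s : Cg V (V (T - T')) (sv τ) (sv τ') := by
    rw [h.s_eq' hτ, h'.s_eq' hτ']
    exact ((c.sub (.const V.map_one.le)).mul ((c.sub (.const (n3_nat V 5))).pow 5)).mul
      ((c.inv hT hT').pow 5)
  rw [h.j_eq hτ, h'.j_eq hτ']
  exact (((s.add (.const (n3_nat V 256))).pow 3).mul
    ((s.inv (sv_one hτ hj h2) (sv_one hτ' hj' h2)).pow 2)).2.2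

theorem na_ne (hτ : Lv 2 i τ) (hτ' : Lv 2 j τ') (hj : i < j) (h : On τ T) (h' : On τ' T') :
    T ≠ T' := fun e => hτ.jf_ne hτ' Nat.prime_two hj (by
  rw [h.j_eq hτ.pos, h'.j_eq hτ'.pos, h.s_eq' hτ.pos, h'.s_eq' hτ'.pos, e])

theorem n4_a (V : Valuation ℂ Γ) {a : ℂ} (ha : (a - 1) ^ 2 = -4) : V (4 * a) ≤ V 4 := by
  have : V (a - 1) ≤ 1 := by
    rw [← pow_le_one_iff_of_nonneg zero_le two_ne_zero, ← map_pow, ha, V.map_neg]
    exact n3_nat V 4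
  rw [map_mul, ← sub_add_cancel a 1]
  exact mul_le_of_le_one_right' (V.map_add_le this V.map_one.le)

theorem n4_max {a : ℂ} (ha : (a - 1) ^ 2 = -4) (hT : V T ≤ 1) (hT' : V T' ≤ 1) :
    max (V (4 * a)) (max (V (T - 5)) (V (T' - 5))) ≤ 1 :=
  max_le ((n4_a V ha).trans (n3_nat V 4))
    (max_le (V.map_sub_le hT (n3_nat V 5)) (V.map_sub_le hT' (n3_nat V 5)))

theorem n4_cop (hp : p.Prime) (hV : V p < 1) {l : ℕ} (hl : l.Prime) (h : p ≠ l) : V l = 1 := by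
  exact_mod_cast val_int_eq_one (n := l) hp hV fun e =>
    h ((Nat.prime_dvd_prime_iff_eq hp hl).1 (by exact_mod_cast e))

theorem n4_split (hp : p.Prime) (h4 : p % 4 = 1) (hV : V p < 1) (hτ : XT i τ) (hτ' : YT j τ')
    (hj : i < j) (h : On τ T) (h' : On τ' T') : V T = 1 ∧ V T' = 1 ∧ 1 ≤ V (T - T') := by
  have h2 : V 2 = 1 := n4_cop hp hV Nat.prime_two (show p ≠ 2 by omega)
  obtain ⟨k, -, c⟩ := hτ.lv.isCM Nat.prime_two
  obtain ⟨k', -, c'⟩ := hτ'.lv.isCM Nat.prime_two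
  have e := hτ.lv.val_sub hτ'.lv hj hp h4 hV
  obtain ⟨hT, hT'⟩ : V T = 1 ∧ V T' = 1 := by
    by_cases h5 : p = 5
    · subst h5
      exact ⟨h.unit_five hτ.2.choose_spec hV, h'.unit_five hτ'.2.choose_spec hV⟩
    · have h5 : V 5 = 1 := n4_cop hp hV Nat.prime_five h5
      exact ⟨h.unit c.1 (c.val_jf V) h5, h'.unit c'.1 (c'.val_jf V) h5⟩
  exact ⟨hT, hT', e.ge.trans (h.cg h' c.1 c'.1 (c.val_jf V) (c'.val_jf V) h2 hT hT')⟩

theorem n4_two (h : On τ T) (hτ : 0 < τ.im) (hj : V (jf τ) ≤ 1) (hV : V 2 < 1)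
    (h1 : V (ph 2 none τ) < 1) : V 4 < V (T - 5) ∧ V (T - 5) ^ 6 * V (ph 2 none τ) = V 2 ^ 12 := by
  have hT := h.unit hτ hj (n4_cop Nat.prime_two hV Nat.prime_five (by norm_num))
  have e := congrArg V (h.s_eq hτ)
  have e1 := congrArg V (sv_mul hτ)
  rw [map_mul, map_pow, hT, one_pow, mul_one, map_mul, map_pow] at e
  rw [map_mul, map_pow] at e1
  have s0 := zero_lt_iff.2 (V.ne_zero_iff.2 (sv_ne hτ))
  have e2 : V 2 ^ 12 < V (sv τ) := e1 ▸ mul_lt_of_lt_one_right s0 h1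
  have v4 : V 4 = V 2 ^ 2 := by rw [← map_pow]; norm_num
  have t5 : T - 1 = T - 5 + 4 := by ring
  have e3 : V 4 < V (T - 5) := not_le.1 fun k => e2.not_ge (by
    rw [e, t5, show 12 = 2 * (5 + 1) from rfl, pow_mul, ← v4, pow_succ' (V 4)]
    exact mul_le_mul' (V.map_add_le k le_rfl) (pow_le_pow_left₀ zero_le k 5))
  rw [t5, V.map_add_eq_of_lt_left e3] at e
  exact ⟨e3, by rw [← e1, e, ← pow_succ']⟩

theorem n4_zero (hp : p.Prime) (h4 : p = 2 ∨ p % 4 = 1) (hV : V p < 1) {a : ℂ}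
    (ha : (a - 1) ^ 2 = -4) (hτ : XT i τ) (hτ' : YT j τ') (hj : i < j) (h : On τ T)
    (h' : On τ' T') : max (V (4 * a)) (max (V (T - 5)) (V (T' - 5))) ≤ V (T - T') := by
  rcases h4 with rfl | h4
  · obtain ⟨k, -, c⟩ := hτ.lv.isCM Nat.prime_two
    obtain ⟨k', -, c'⟩ := hτ'.lv.isCM Nat.prime_two
    obtain ⟨e1, e2⟩ := n1_lt (V := V) hτ hτ' hj hV
    obtain ⟨a1, a3⟩ := n4_two h c.1 (c.val_jf V) hV (e1.trans e2)
    obtain ⟨b1, b3⟩ := n4_two h' c'.1 (c'.val_jf V) hV e2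
    have k : V (T' - 5) < V (T - 5) := not_le.1 fun k =>
      (mul_lt_mul_of_le_of_lt_of_nonneg_of_pos (pow_le_pow_left₀ zero_le k 6) e1 zero_le
        (pow_pos (zero_le.trans_lt b1) 6)).ne (a3.trans b3.symm)
    rw [← sub_sub_sub_cancel_right T T' 5, V.map_sub_eq_of_lt_left k]
    exact max_le ((n4_a V ha).trans a1.le) (max_le le_rfl k.le)
  · obtain ⟨a1, a2, a3⟩ := n4_split hp h4 hV hτ hτ' hj h h'
    exact (n4_max ha a1.le a2.le).trans a3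

theorem n4_inert (hp : p.Prime) (h3 : p % 4 = 3) {f f' : ℤ} (hf : f ≠ 0) (hf' : f' ≠ 0) :
    ∃ n : ℕ, ∀ V : Valuation ℂ Γ, V p < 1 → ∀ (τ τ' T T' : ℂ) (Q Q' : Fm)
      (i i' j a d : ℕ) (b : ℤ), Rt Q τ → fdisc Q = -4 * f ^ 2 → Rt Q' τ' → fdisc Q' = -4 * f' ^ 2 →
      Lv 2 i τ → Lv 2 i' τ' → i < i' → a * d = p ^ j → On τ T → On ((a * τ' + b) / d) T' →
      V T = 1 ∧ V T' = 1 ∧ T ≠ T' ∧ V p ^ (n * a.gcd (d.gcd b.natAbs) ^ 2) ≤ V (T - T') ^ p ^ j := by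
  have hq := (Nat.prime_iff_prime_int.1 hp).irreducible
  obtain ⟨e, k, hk, rfl⟩ := WfDvdMonoid.max_power_factor hf hq
  obtain ⟨e', k', hk', rfl⟩ := WfDvdMonoid.max_power_factor hf' hq
  obtain ⟨n, hn⟩ := (ni_of hp h3 hk).near (Γ := Γ) (ni_of hp h3 hk') hp e
  refine ⟨n * p ^ (1 + 2 * e'), fun V hA τ τ' T T' Q Q' i i' j a d b q1 q2 q3 q4 l1 l2 hi
    had h h' => ?_⟩
  obtain ⟨u, u1, u2, -⟩ := n2_dp (a := 1) (d := 1) (j := 0) (b := 0) hp h3 hk l1.pos q1 q2 rfl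
  obtain ⟨w, -, w2, w3⟩ := n2_dp (b := b) hp h3 hk' l2.pos q3 q4 had
  have hg : (!![(a : ℤ), b; 0, d] : MZ).det = p ^ j := by
    rw [Matrix.det_fin_two_of, mul_zero, sub_zero]
    exact_mod_cast had
  have l3 := l2.act (g := !![(a : ℤ), b; 0, d]) Nat.prime_two
    (hg ▸ pow_pos (by exact_mod_cast hp.pos) _) fun c => by
      rw [hg] at c
      have := (Nat.prime_dvd_prime_iff_eq Nat.prime_two hp).1
        (Nat.prime_two.dvd_of_dvd_pow (by exact_mod_cast c))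
      omega
  rw [show act !![(a : ℤ), b; 0, d] τ' = (a * τ' + b) / d by simp [act_of, mob]] at w2 l3
  rw [show act !![((1 : ℕ) : ℤ), 0; 0, (1 : ℕ)] τ = τ by simp [act_of, mob]] at u2
  have e1 := hn V hA u w _ _ u1 u2 w2 (l1.jf_ne l3 Nat.prime_two hi)
  have j1 := (u2.fpg_isCM ((ni_of hp h3 hk).neg hp _)).val_jf V
  have j2 := (w2.fpg_isCM ((ni_of hp h3 hk').neg hp _)).val_jf V
  have h5 : V 5 = 1 := n4_cop hp hA Nat.prime_five (show p ≠ 5 by omega)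
  have t1 := h.unit l1.pos j1 h5
  have t2 := h'.unit l3.pos j2 h5
  have e2 := h.cg h' l1.pos l3.pos j1 j2 (n4_cop hp hA Nat.prime_two (show p ≠ 2 by omega)) t1 t2
  refine ⟨t1, t2, na_ne l1 l3 hi h h', le_trans ?_ (pow_le_pow_of_le_one zero_le
    (V.map_sub_le t1.le t2.le) w3)⟩
  rw [mul_assoc, pow_mul, mul_comm _ (p ^ w), pow_mul (V (T - T'))]
  exact pow_le_pow_left₀ zero_le (e1.trans (pow_le_pow_left₀ zero_le e2 _)) _

/-- The valuation attached to a nonarchimedean absolute value. -/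
def nv (v : AbsoluteValue ℂ ℝ) (hv : IsNonarchimedean v) : Valuation ℂ NNReal where
  toFun x := ⟨v x, v.nonneg x⟩
  map_zero' := Subtype.ext v.map_zero
  map_one' := Subtype.ext v.map_one
  map_mul' x y := Subtype.ext (v.map_mul x y)
  map_add_le_max' x y := by
    rw [← NNReal.coe_le_coe, NNReal.coe_max]
    exact hv x y

theorem nv_coe {v : AbsoluteValue ℂ ℝ} (hv : IsNonarchimedean v) (x : ℂ) :
    (nv v hv x : ℝ) = v x := rfl

theorem na_zero {v : AbsoluteValue ℂ ℝ} (hv : IsNonarchimedean v) (hp : p.Prime)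
    (h4 : p = 2 ∨ p % 4 = 1) (hV : v p < 1) {a : ℂ} (ha : (a - 1) ^ 2 = -4) (hτ : XT i τ)
    (hτ' : YT j τ') (hj : i < j) (h : On τ T) (h' : On τ' T') :
    max (v (4 * a)) (max (v (T - 5)) (v (T' - 5))) ≤ v (T - T') := by
  simpa only [← NNReal.coe_le_coe, NNReal.coe_max, nv_coe] using
    n4_zero (V := nv v hv) hp h4 hV ha hτ hτ' hj h h'

theorem na_inert (hp : p.Prime) (h3 : p % 4 = 3) {f f' : ℤ} (hf : f ≠ 0) (hf' : f' ≠ 0) :
    ∃ n : ℕ, ∀ v : AbsoluteValue ℂ ℝ, IsNonarchimedean v → v p < 1 → ∀ (c τ τ' T T' : ℂ) (Q Q' : Fm)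
      (i i' j a d : ℕ) (b : ℤ), (c - 1) ^ 2 = -4 → Rt Q τ → fdisc Q = -4 * f ^ 2 → Rt Q' τ' →
      fdisc Q' = -4 * f' ^ 2 → Lv 2 i τ → Lv 2 i' τ' → i < i' → a * d = p ^ j → On τ T →
      On ((a * τ' + b) / d) T' →
      Real.log (max (v (4 * c)) (max (v (T - 5)) (v (T' - 5))) / v (T - T')) ≤
        n * (a.gcd (d.gcd b.natAbs) : ℝ) ^ 2 / p ^ j * -Real.log (v p) := by
  obtain ⟨n, hn⟩ := n4_inert (Γ := NNReal) hp h3 hf hf'
  refine ⟨n, fun v hv hV c τ τ' T T' Q Q' i i' j a d b hc q1 q2 q3 q4 l1 l2 hi had h h' => ?_⟩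
  obtain ⟨t1, t2, t3, t4⟩ := hn (nv v hv) hV τ τ' T T' Q Q' i i' j a d b q1 q2 q3 q4 l1 l2 hi had
    h h'
  have t5 := n4_max hc t1.le t2.le
  simp only [← NNReal.coe_le_coe, NNReal.coe_max, NNReal.coe_pow, nv_coe, NNReal.coe_one] at t4 t5
  have p0 : 0 < v p := v.pos (Nat.cast_ne_zero.2 hp.ne_zero)
  have d0 : 0 < v (T - T') := v.pos (sub_ne_zero.2 t3)
  have c0 : 0 < v (4 * c) := v.pos (mul_ne_zero (by norm_num) (by
    rintro rfl
    norm_num at hc))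
  have m0 := c0.trans_le (le_max_left _ (max (v (T - 5)) (v (T' - 5))))
  have t6 := Real.log_le_log (pow_pos p0 _) t4
  have t7 := Real.log_nonpos m0.le t5
  have q0 : (0 : ℝ) < p ^ j := pow_pos (by exact_mod_cast hp.pos) _
  rw [Real.log_pow, Real.log_pow] at t6
  push_cast at t6
  rw [Real.log_div m0.ne' d0.ne', div_mul_eq_mul_div, le_div_iff₀ q0]
  nlinarith [mul_nonpos_of_nonpos_of_nonneg t7 q0.le]

end Pool.Agent.Lib.MP_696deb_nt.Y2
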