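import Pool.Agent.Lib.MP_696deb_nt.Y2.N4
import Pool.Agent.Lib.MP_696deb_nt.Y2.M9

/-! The generator of the functions of level ten satisfies the relations. -/

set_option autoImplicit false

open Complex
open scoped Classical

namespace Pool.Agent.Lib.MP_696deb_nt.Y2

open Pool.Agent.Dih

open ModularForm PeriodPair

variable {τ : ℂ}

theorem tt_wp (h : 0 < τ.im) : (1 + 2 * I) * ℘[EA.LG] (uu τ) ^ 2 = tt τ := by
  have := rho_ne
  rw [(uu_spec h).2.1, ← rho_four, ← ux_sq h]
  field_simp

end Pool.Agent.Lib.MP_696deb_nt.Y2
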