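import Pool.Agent.Lib.MP_696deb_nt.Y2.TH2

/-! The section at the cusp, its singular terms and its homogeneity. -/

set_option autoImplicit false

open Complex Finset CongruenceSubgroup
open UpperHalfPlane hiding I
open scoped Real ComplexConjugate Classical MatrixGroups Modular

namespace Pool.Agent.Lib.MP_696deb_nt.Y2

open QF (G ii ip Per FT mem_reps)

variable {M : ℕ} {a ψ : G → ℂ} {c d l : ℤ}

theorem exists_of_q1 {z : ℂ} (h : q1 z = 1) : ∃ k : ℤ, z = k := by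
  obtain ⟨k, hk⟩ := exp_eq_one_iff.1 h
  exact ⟨k, mul_left_cancel₀ two_pi_I_ne_zero (hk.trans (mul_comm _ _))⟩

theorem bil_comm (x y : G) : bil x y = bil y x := by rw [bil, bil]; ring

theorem q1_bil_per (hM : 0 < M) (ξ : G) : Per M fun x => q1 ((bil x ξ : ℤ) / M) := fun x γ => by
  have M0 : (M : ℂ) ≠ 0 := by exact_mod_cast hM.ne'
  refine q1_congr (bil γ ξ) ?_
  simp [bil]
  field_simp
  ring

theorem sm_char (hM : 0 < M) (ξ : G) :
    sm M (fun x => q1 ((bil x ξ : ℤ) / M)) = if (M : G) ∣ ξ then (M : ℂ) ^ 2 else 0 := by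
  have M0 : (M : ℂ) ≠ 0 := by exact_mod_cast hM.ne'
  split_ifs with h
  · obtain ⟨γ, rfl⟩ := h
    rw [sm_congr (g := fun _ => 1) fun x => by
      have := q1_bil_per hM x 0 γ
      simp only [zero_add] at this
      rw [bil_comm, this]
      simp [bil, q1]]
    simp [sm, sq]
  · by_contra h0
    have key : ∀ t : G, (M : ℤ) ∣ bil t ξ := fun t => by
      have h1 := sm_add hM (q1_bil_per hM ξ) t
      rw [sm_congr (g := fun x => q1 ((bil t ξ : ℤ) / M) * q1 ((bil x ξ : ℤ) / M)) fun x => by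
        rw [← q1_add]
        congr 1
        simp [bil]
        ring, sm_mul_left] at h1
      obtain ⟨k, hk⟩ := exists_of_q1 ((mul_left_eq_self₀.1 h1).resolve_right h0)
      rw [div_eq_iff M0] at hk
      exact ⟨k, by rw [mul_comm]; exact_mod_cast hk⟩
    refine h ?_
    rw [← Int.cast_natCast, Zsqrtd.intCast_dvd]
    exact ⟨by simpa [bil] using key 1, by simpa [bil] using key ⟨0, 1⟩⟩

theorem sm_delta (hM : 0 < M) (h : Per M ψ) (x : G) (t : ℂ) :
    sm M (fun y => ψ y * if (M : G) ∣ x - y then t else 0) = ψ x * t := by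
  rw [← sm_add hM (fun y γ => by
    rw [h, ← sub_sub, if_congr (dvd_sub_left (dvd_mul_right _ _)) rfl rfl]) x]
  simp only [sub_add_cancel_right, dvd_neg]
  have key : ∀ s : ℕ, s < M → (M : ℤ) ∣ s → s = 0 := fun s hs e =>
    Nat.eq_zero_of_dvd_of_lt (Int.natCast_dvd_natCast.1 e) hs
  rw [sm, sum_eq_single_of_mem 0 (mem_range.2 hM) fun s hs s0 => sum_eq_zero fun r _ => ?_,
    sum_eq_single_of_mem 0 (mem_range.2 hM) fun s hs s0 => ?_]
  · rw [show (⟨(0 : ℕ), (0 : ℕ)⟩ : G) = 0 from rfl, zero_add, if_pos (dvd_zero _)]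
  all_goals
    rw [if_neg, mul_zero]
    rw [← Int.cast_natCast, Zsqrtd.intCast_dvd]
  exacts [fun e => s0 (key s (mem_range.1 hs) e.2), fun e => s0 (key s (mem_range.1 hs) e.1)]

theorem FT_per (hM : 0 < M) (a : G → ℂ) : Per M (FT M a) := fun ξ γ => by
  rw [FT_eq, FT_eq]
  exact sm_congr fun x => by rw [bil_comm, bil_comm x]; exact congrArg _ (q1_bil_per hM x ξ γ)

theorem iFT_per (hM : 0 < M) (ψ : G → ℂ) : Per M (iFT M ψ) := fun ξ γ => by
  rw [iFT, iFT, neg_add, ← mul_neg, FT_per hM]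

theorem FT_FT (hM : 0 < M) (h : Per M ψ) (y : G) : FT M (FT M ψ) y = ψ (-y) * M ^ 2 := by
  rw [FT_eq, ← sm_delta hM h]
  simp only [FT_eq, mul_comm (sm M _), ← sm_mul_left]
  rw [sm_comm]
  refine sm_congr fun x => ?_
  rw [if_congr (show (M : G) ∣ -y - x ↔ (M : G) ∣ y + x by rw [← dvd_neg, neg_sub, sub_neg_eq_add,
    add_comm]) rfl rfl, ← sm_char hM, ← sm_mul_left]
  refine sm_congr fun t => ?_
  rw [mul_left_comm, ← q1_add]
  congr 2
  simp [bil]
  ring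

theorem iFT_FT (hM : 0 < M) (h : Per M a) (x : G) : iFT M (FT M a) x = a x := by
  have M0 : (M : ℂ) ≠ 0 := by exact_mod_cast hM.ne'
  rw [iFT, FT_FT hM h, neg_neg, mul_div_cancel_right₀ _ (pow_ne_zero 2 M0)]

theorem iFT_mul (hM : 0 < M) (h : Per M ψ) {k k' : ℤ} (hk : (M : ℤ) ∣ k' * k - 1) (x : G) :
    iFT M (fun y => ψ (k * y)) x = iFT M ψ (k' * x) := by
  have M0 : (M : ℂ) ≠ 0 := by exact_mod_cast hM.ne'
  obtain ⟨t, ht⟩ := hk
  have ht' : (k' : ℂ) * k - 1 = M * t := by exact_mod_cast ht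
  rw [iFT, iFT, FT_eq, FT_eq, ← sm_mul hM (k := k) (k' := k')
    (f := fun y => ψ y * q1 ((bil y (-(k' * x)) : ℤ) / M)) (fun y γ =>
      congrArg₂ _ (h y γ) (q1_bil_per hM _ y γ)) ⟨t, by exact_mod_cast ht⟩]
  refine congrArg (· / _) (sm_congr fun y => congrArg _ (q1_congr (t * bil y x) ?_))
  simp [bil]
  field_simp
  linear_combination (y.re * x.re + y.im * x.im : ℂ) * ht'

theorem FT_iFT (hM : 0 < M) (h : Per M ψ) (y : G) : FT M (iFT M ψ) y = ψ y := by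
  have M0 : (M : ℂ) ≠ 0 := by exact_mod_cast hM.ne'
  have h1 := FT_FT hM h (-y)
  rw [neg_neg, FT_eq, ← sm_mul hM (k := -1) (k' := -1) (fun y γ =>
    congrArg₂ (· * ·) (FT_per hM ψ y γ) (q1_bil_per hM _ y γ)) (by simp)] at h1
  rw [FT_eq, eq_comm, ← mul_div_cancel_right₀ (ψ y) (pow_ne_zero 2 M0), ← h1, div_eq_inv_mul,
    ← sm_mul_left]
  refine sm_congr fun x => ?_
  rw [iFT, neg_one_mul, show bil (-x) (-y) = bil x y by simp [bil]]
  ring

theorem adm_iFT {k M' : ℕ} (hM : M = 2 ^ k * M') (h2 : M' % 2 = 1) (h10 : 10 ∣ M) (h : Per M ψ)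
    (ho : ∀ u : ℤ, u % 4 = 3 → (M' : ℤ) ∣ u - 1 → IsCoprime u M → ∀ y, ψ (u * y) = -ψ y) :
    Adm M (iFT M ψ) := by
  have M0 : 0 < M := by
    rw [hM]
    exact Nat.mul_pos (by positivity) (by omega)
  obtain ⟨s, t, e⟩ : IsCoprime ((2 : ℤ) ^ (2 * k + 2)) ((M' : ℤ) ^ 2) :=
    IsCoprime.pow ⟨-(M' / 2), 1, by omega⟩
  have hM' : (M : ℤ) = 2 ^ k * M' := by exact_mod_cast hM
  have h3 : 2 * (M : ℤ) ^ 2 ∣ (2 * s * 2 ^ (2 * k + 2) - 1) ^ 2 - 1 :=
    ⟨-8 * s * t, by rw [hM']; linear_combination 4 * s * 2 ^ (2 * k + 2) * e⟩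
  have h4 : (M' : ℤ) ∣ 2 * s * 2 ^ (2 * k + 2) - 1 - 1 := ⟨-2 * t * M', by linear_combination 2 * e⟩
  have h5 : (M : ℤ) ∣ (2 * s * 2 ^ (2 * k + 2) - 1) * (2 * s * 2 ^ (2 * k + 2) - 1) - 1 :=
    ((dvd_pow_self _ two_ne_zero).mul_left 2).trans (sq (2 * s * 2 ^ (2 * k + 2) - 1) ▸ h3)
  refine ⟨M0, h10, iFT_per M0 ψ, k, M', _, hM, h2, h4, h3, fun x => ?_⟩
  rw [← iFT_mul M0 h h5, funext (ho _ ?_ h4 ?_), iFT, iFT, FT_eq, FT_eq, ← neg_div, ← sm_neg]
  · simp only [neg_mul]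
  · rw [show 2 * s * 2 ^ (2 * k + 2) = 4 * (2 * s * 2 ^ (2 * k)) by ring]
    omega
  · obtain ⟨r, hr⟩ := h5
    exact ⟨2 * s * 2 ^ (2 * k + 2) - 1, -r, by linear_combination hr⟩

theorem lam_sec (M : ℕ) (a : G → ℂ) (n : ℕ) (c l : ℤ) :
    (sec M a).lam n c l = ∑ A ∈ QF.reps n, lamA M a c l A := by
  simp only [An.Sec.lam, sec, lamA, mul_sum, sum_mul]
  rw [sum_comm, sum_div]
  push_cast
  rfl

theorem lamA_of_Wt (h : ¬ (c % 2 = 1 ∧ 5 ∣ c)) (A : G) : lamA M a c l A = 0 := by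
  simp [lamA, Wt, if_neg h]

theorem norm_lamA_le (hM : 0 < M) (a : G → ℂ) : ∃ C : ℝ, ∀ c l A, ‖lamA M a c l A‖ ≤ C := by
  obtain ⟨K, K0, hK⟩ := norm_ph_le M a
  have M0 : (0 : ℝ) < M := by exact_mod_cast hM
  refine ⟨K, fun c l A => ?_⟩
  rw [lamA, norm_div, div_le_iff₀ (by simp; positivity)]
  refine (norm_sum_le_of_le (n := fun _ => K) _ fun d _ => ?_).trans (by simp [mul_comm])
  rw [norm_mul, norm_mul, show (d * l / (2 * M ^ 2) : ℂ) = (d * l / (2 * M ^ 2) : ℝ) by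
    push_cast; ring, norm_q1_real, mul_one]
  exact (mul_le_of_le_one_left (norm_nonneg _) (norm_Wt_le c d)).trans (hK c d A)

theorem sum_range_perm {n : ℕ} (hn : 0 < n) {φ : ℤ → ℂ} (hφ : ∀ x t, φ (x + n * t) = φ x)
    {k k' : ℤ} (hk : (n : ℤ) ∣ k' * k - 1) (t : ℤ) :
    ∑ x ∈ range n, φ (k * x + t) = ∑ x ∈ range n, φ x := by
  have n0 : (n : ℂ) ≠ 0 := by exact_mod_cast hn.ne'
  obtain ⟨s, hs⟩ := hk
  have h1 := sm_perm hn (f := fun x => φ x.re) (fun x γ => by simp [hφ]) (σ := fun x => k * x + t)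
    fun x y e => by
      rw [show x - y = k' * (k * x + t - (k * y + t)) - (k' * k - 1 : ℤ) * (x - y) by
        push_cast; ring, hs]
      exact dvd_sub (e.mul_left _) ⟨s * (x - y), by push_cast; ring⟩
  simpa [sm, ← mul_sum, n0] using h1

theorem Adm.term_per (h : Adm M a) (c l : ℤ) (A : G) (x t : ℤ) :
    Wt c (x + (2 * M ^ 2 : ℕ) * t) * ph M a c (x + (2 * M ^ 2 : ℕ) * t) A *
      q1 ((x + (2 * M ^ 2 : ℕ) * t : ℤ) * l / (2 * M ^ 2)) =
      Wt c x * ph M a c x A * q1 (x * l / (2 * M ^ 2)) := by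
  have M0 : (M : ℂ) ≠ 0 := by exact_mod_cast h.pos.ne'
  obtain ⟨N, hN⟩ := h.ten
  rw [Wt_congr (c := c) (d := x) (by simp) ⟨40 * N ^ 2 * t, by rw [hN]; push_cast; ring⟩,
    ph_congr (c := c) (d := x) h.pos (by simp) (by simp),
    q1_congr (y := x * l / (2 * M ^ 2)) (t * l) (by push_cast; field_simp)]

theorem Adm.lamA_supp (h : Adm M a) {A : G} (h0 : lamA M a c l A ≠ 0) :
    4 * (M : ℤ) ^ 2 ∣ 2 * (A.norm + c * l) - M ^ 2 := by
  have hc : c % 2 = 1 ∧ 5 ∣ c := by_contra fun e => h0 (lamA_of_Wt e A)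
  have M0 : (M : ℂ) ≠ 0 := by exact_mod_cast h.pos.ne'
  have h1 := sum_range_perm (n := 2 * M ^ 2) (by have := h.pos; positivity)
    (φ := fun d => Wt c d * ph M a c d A * q1 (d * l / (2 * M ^ 2))) (h.term_per c l A)
    (k := 1) (k' := 1) (by simp) c
  have h2 : ∀ d : ℤ, ph M a c (d + c) A = q1 (A.norm / (2 * M ^ 2) - 1 / 4) * ph M a c d A := by
    intro d
    rw [ph, ph, ← sm_mul_left]
    refine sm_congr fun x => ?_
    rw [mul_left_comm, cf, cf]
    congr 1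
    split_ifs with e
    · obtain ⟨H, rfl, hH⟩ := two_hM h.two
      obtain ⟨β, hβ⟩ := e
      obtain ⟨s, hs⟩ := Int.even_mul_succ_self β.re
      obtain ⟨t, ht⟩ := Int.even_mul_succ_self β.im
      have hs' : (β.re : ℂ) * (β.re + 1) = s + s := by exact_mod_cast hs
      have ht' : (β.im : ℂ) * (β.im + 1) = t + t := by exact_mod_cast ht
      have H0 : (H : ℂ) ≠ 0 := fun e => M0 (by simp [e])
      obtain rfl : A = c * x + ⟨H, H⟩ + (2 * H : ℕ) * β := by
        rw [hH] at hβ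
        linear_combination hβ
      rw [← q1_add]
      refine q1_congr (-(s + t)) ?_
      simp only [norm_eq_bil, bil, Zsqrtd.re_add, Zsqrtd.im_add, Zsqrtd.re_mul,
        Zsqrtd.im_mul, Zsqrtd.re_intCast, Zsqrtd.im_intCast, Zsqrtd.re_natCast, Zsqrtd.im_natCast]
      push_cast
      field_simp
      linear_combination (-16 * H ^ 2) * (hs' + ht')
    · simp
  rw [sum_congr rfl (g := fun d : ℕ => q1 ((A.norm + c * l) / (2 * M ^ 2) - 1 / 4) *
    (Wt c d * ph M a c d A * q1 (d * l / (2 * M ^ 2)))) fun d _ => by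
      rw [one_mul, h2, Wt_congr (c := c) (d := d) (by simp) (by simpa using hc.2),
        show ((A.norm + c * l) / (2 * M ^ 2) - 1 / 4 : ℂ) = A.norm / (2 * M ^ 2) - 1 / 4 +
          c * l / (2 * M ^ 2) by ring, q1_add, show ((d + c : ℤ) * l / (2 * M ^ 2) : ℂ) =
          c * l / (2 * M ^ 2) + d * l / (2 * M ^ 2) by push_cast; ring, q1_add]
      ring, ← mul_sum] at h1
  obtain ⟨k, hk⟩ := exists_of_q1 ((mul_left_eq_self₀.1 h1).resolve_right fun e => h0 (by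
    rw [lamA, div_eq_zero_iff]
    exact .inl (by simpa using e)))
  refine ⟨k, ?_⟩
  have : (2 * (A.norm + c * l) - M ^ 2 : ℂ) = 4 * M ^ 2 * k := by
    rw [← hk]
    field_simp
    ring
  exact_mod_cast this

theorem th3_two (j : ℕ) : ∀ (A : G) (t : ℤ), A.norm = 2 * 4 ^ j * (2 * t + 1) →
    ∃ B : G, A = 2 ^ j * (2 * B + ⟨1, 1⟩) := by
  have key : ∀ x y : ZMod 4, (x * x + y * y = 2 → x.val % 2 = 1 ∧ y.val % 2 = 1) ∧
      (x * x + y * y = 0 → x.val % 2 = 0 ∧ y.val % 2 = 0) := by decide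
  induction j with
  | zero =>
    intro A t e
    have h1 := (key A.re A.im).1 (by
      have := congr_arg (Int.cast : ℤ → ZMod 4) e
      rw [norm_eq_bil, bil] at this
      push_cast at this
      rw [this, show (2 * (2 * t + 1) : ZMod 4) = 4 * t + 2 by ring,
        show (4 : ZMod 4) = 0 from rfl, zero_mul, zero_add])
    have h2 := ZMod.val_intCast (n := 4) A.re
    have h3 := ZMod.val_intCast (n := 4) A.im
    exact ⟨⟨A.re / 2, A.im / 2⟩, by ext <;> simp <;> omega⟩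
  | succ j ih =>
    intro A t e
    have h1 := (key A.re A.im).2 (by
      have := congr_arg (Int.cast : ℤ → ZMod 4) e
      rw [norm_eq_bil, bil] at this
      push_cast at this
      rw [this, pow_succ, show (4 : ZMod 4) = 0 from rfl]
      ring)
    have h2 := ZMod.val_intCast (n := 4) A.re
    have h3 := ZMod.val_intCast (n := 4) A.im
    obtain ⟨B, rfl⟩ : ∃ B : G, A = 2 * B := ⟨⟨A.re / 2, A.im / 2⟩, by ext <;> simp <;> omega⟩
    obtain ⟨C, rfl⟩ := ih B t (by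
      rw [Zsqrtd.norm_mul, show (2 : G).norm = 4 from rfl] at e
      linarith [pow_succ (4 : ℤ) j ▸ e])
    exact ⟨C, by ring⟩

theorem Adm.lamA_zero (h : Adm M a) (c : ℤ) (A : G) : lamA M a c 0 A = 0 := by
  by_contra h0
  have hc : c % 2 = 1 ∧ 5 ∣ c := by_contra fun e => h0 (lamA_of_Wt e A)
  obtain ⟨s, hs⟩ := h.lamA_supp h0
  obtain ⟨k, M', u, hM, h2, hu, -, ho⟩ := h.odd
  obtain ⟨m, rfl⟩ : ∃ m, M' = 2 * m + 1 := ⟨M' / 2, by omega⟩
  obtain ⟨j, rfl⟩ : ∃ j, k = j + 1 := Nat.exists_eq_succ_of_ne_zero fun e => by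
    have := h.two
    rw [hM, e] at this
    omega
  obtain ⟨B, hB⟩ := th3_two j A (2 * (m ^ 2 + m) * (4 * s + 1) + 2 * s) (by
    rw [hM] at hs
    push_cast at hs
    rw [show (4 : ℤ) = 2 ^ 2 from rfl, ← pow_mul]
    linarith [show ((2 : ℤ) ^ (j + 1) * (2 * m + 1)) ^ 2 * (4 * s + 1) = 2 * (2 * 2 ^ (2 * j) *
      (2 * (2 * (m ^ 2 + m) * (2 ^ 2 * s + 1) + 2 * s) + 1)) by ring])
  have hH : Y2.hM M = 2 ^ j * (2 * m + 1) * ⟨1, 1⟩ := by
    rw [Y2.hM, show M / 2 = 2 ^ j * (2 * m + 1) by rw [hM, pow_succ', mul_assoc]; simp,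
      show (2 : G) ^ j * (2 * m + 1) = (2 ^ j * (2 * m + 1) : ℕ) by push_cast; rfl]
    ext <;> simp only [Zsqrtd.re_mul, Zsqrtd.im_mul, Zsqrtd.re_natCast, Zsqrtd.im_natCast] <;> ring
  have hM' : (M : G) = 2 ^ (j + 1) * (2 * m + 1) := by exact_mod_cast hM
  refine h0 ?_
  rw [lamA, sum_eq_zero fun d _ => ?_, zero_div]
  rw [ph, sm_congr (g := fun _ => 0) fun x => ?_]
  · simp [sm]
  rw [cf]
  split_ifs with e
  · obtain ⟨β, hβ⟩ := e
    obtain ⟨r, hr⟩ := hu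
    obtain ⟨s, t, hst⟩ : IsCoprime c (2 ^ (j + 1)) := IsCoprime.pow_right ⟨1, -(c / 2), by omega⟩
    have hr' : (u : G) - 1 = (2 * m + 1) * r := by exact_mod_cast hr
    have hst' : (s : G) * c + t * 2 ^ (j + 1) = 1 := by exact_mod_cast hst
    have h3 := per_of_dvd h.per (x := u * x) (y := x)
      ⟨r * (s * (B - m * ⟨1, 1⟩ - (2 * m + 1) * β) + t * x), by
        rw [hB, hH, hM'] at hβ
        rw [hM']
        push_cast at hβ
        linear_combination x * hr' - (2 * m + 1) * r * x * hst' - (2 * m + 1) * r * s * hβ⟩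
    rw [ho] at h3
    rw [show a x = 0 by linear_combination -h3 / 2, zero_mul]
  · simp

theorem Adm.zero (h : Adm M a) (μ : ℕ) : (sec M a).Zero μ := fun c => by
  rw [lam_sec, lam_sec]
  exact ⟨sum_eq_zero fun A _ => h.lamA_zero c A, sum_eq_zero fun A _ => lamA_of_Wt (by simp) A⟩

theorem Adm.ph_mul (h : Adm M a) (hc : c % 2 = 1) {k k' : ℤ} (hk : (M : ℤ) ∣ k' * k - 1) (A : G) :
    ph M a (k * c) (k * d) A = ph M (fun x => a (k' * x)) c d A := by
  obtain ⟨t, ht⟩ := hk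
  have ht' : (k' : G) * k - 1 = M * t := by exact_mod_cast ht
  rw [ph, ph, ← sm_mul h.pos (k := k) (k' := k') (f := fun x => a (k' * x) * cf M 1 0 c d x A)
    (fun x γ => congrArg₂ _ (by rw [mul_add, mul_left_comm, h.per]) (cf_per h.pos h.two hc d A x γ))
    ⟨t, ht'⟩]
  refine sm_congr fun x => congrArg₂ _ (per_of_dvd h.per ⟨-t * x, by linear_combination -x * ht'⟩) ?_
  rw [cf, cf, show ((k * c : ℤ) : G) * x = c * (k * x) by push_cast; ring]
  refine if_congr Iff.rfl (congrArg _ ?_) rfl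
  simp [norm_eq_bil, bil]
  ring

/-- Homogeneity of the Fourier transform for eigenfunctions. -/
theorem Adm.lamA_mul (h : Adm M a) {k k' : ℤ} (hk : 2 * (M : ℤ) ^ 2 ∣ k' * k - 1) {t : ℂ}
    (ht : ∀ x, a (k' * x) = t * a x) (c l : ℤ) (A : G) :
    lamA M a (k * c) l A = conj ((ep k : G) : ℂ) * t * lamA M a c (k * l) A := by
  have hk' : (M : ℤ) ∣ k' * k - 1 := ((dvd_pow_self _ two_ne_zero).mul_left 2).trans hk
  obtain ⟨s, hs⟩ := (Int.natCast_dvd_natCast.2 h.ten).trans hk'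
  have e : (k * c) % 2 = 1 ∧ 5 ∣ k * c ↔ c % 2 = 1 ∧ 5 ∣ c := by
    refine and_congr ?_ ⟨fun e => ?_, fun e => e.mul_left _⟩
    · rcases Int.emod_two_eq_zero_or_one k with e | e
      · obtain ⟨r, rfl⟩ : ∃ r, k = 2 * r := ⟨k / 2, by omega⟩
        have : 2 * (k' * r - 5 * s) = 1 := by linear_combination hs
        omega
      · rw [Int.mul_emod, e]
        omega
    · rw [show c = k' * (k * c) - 5 * (2 * s * c) by linear_combination -c * hs]
      exact (e.mul_left _).sub (dvd_mul_right _ _)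
  by_cases hc : c % 2 = 1 ∧ 5 ∣ c
  swap
  · rw [lamA_of_Wt hc, lamA_of_Wt (mt e.1 hc), mul_zero]
  have h1 := sum_range_perm (n := 2 * M ^ 2) (by have := h.pos; positivity)
    (φ := fun d => Wt (k * c) d * ph M a (k * c) d A * q1 (d * l / (2 * M ^ 2)))
    (h.term_per _ l A) (k := k) (k' := k') (by exact_mod_cast hk) 0
  simp only [Int.cast_natCast] at h1
  rw [lamA, lamA, ← h1, ← mul_div_assoc, mul_sum]
  refine congrArg (· / _) (sum_congr rfl fun d _ => ?_)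
  rw [add_zero, h.ph_mul hc.1 hk', Wt, Wt, if_pos hc, if_pos (e.2 hc), Int.cast_mul, th2_ep_mul, map_mul,
    map_mul, ph, ph]
  simp only [ht, mul_assoc t, sm_mul_left]
  push_cast
  ring_nf

theorem Adm.at (h : Adm M a) : (sec M a).At 10 g5 2 (tk M a) := by
  have M0 : (M : ℂ) ≠ 0 := by exact_mod_cast h.pos.ne'
  refine ⟨fun g => ?_, ?_, fun k _ w => ?_⟩
  · by_cases hc : g 1 0 % 2 = 1 ∧ 5 ∣ g 1 0
    · refine .inr ⟨g 0 0 + 1, ?_⟩
      rw [Gamma0_mem, ZMod.intCast_zmod_eq_zero_iff_dvd]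
      have : (g5⁻¹ * ModularGroup.T ^ (g 0 0 + 1) * g) 1 0 =
          g 1 0 - 5 * (g 0 0 + (g 0 0 + 1) * g 1 0) := by
        simp [g5, ModularGroup.coe_T_zpow, Matrix.SpecialLinearGroup.SL2_inv_expl, Matrix.mul_apply]
        ring
      obtain ⟨r, hr⟩ : ∃ r, g 1 0 = 10 * r + 5 := ⟨g 1 0 / 10, by omega⟩
      rw [this, hr]
      exact ⟨r - (g 0 0 + (g 0 0 + 1) * (5 * r + 2)), by push_cast; ring⟩
    · refine .inl fun k z => ?_
      rw [h.sec_F z.im_pos, Wt]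
      split_ifs with e
      · have h5 : (5 : ℤ) ∣ k := (Int.prime_iff_natAbs_prime.2 (by norm_num)).dvd_or_dvd e.2
          |>.resolve_right fun e' => hc ⟨by
            have := e.1
            rw [Int.mul_emod] at this
            rcases Int.emod_two_eq_zero_or_one (g 1 0) with e2 | e2
            · simp [e2] at this
            · exact e2, e'⟩
        rw [(ZMod.intCast_zmod_eq_zero_iff_dvd _ 5).2 (h5.mul_right _),
          show ep 0 = 0 by decide]
        simp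
      · simp
  · obtain ⟨C, C0, hC⟩ := card_reps_rpow two_pos
    refine ⟨(∑ x ∈ range M, ∑ y ∈ range M, ‖a ⟨x, y⟩‖) * C, fun k m => ?_⟩
    rw [tk, norm_mul, mul_assoc]
    refine (mul_le_of_le_one_left (norm_nonneg _) (norm_Wt_le _ _)).trans
      ((norm_sum_le_of_le (n := fun _ => ∑ x ∈ range M, ∑ y ∈ range M, ‖a ⟨x, y⟩‖) _
        fun A _ => ?_).trans ?_)
    · rw [FT_eq]
      refine norm_sm_le (B := fun x => ‖a x‖) fun x => ?_
      rw [norm_mul, show ((bil x (k * A) : ℤ) / M : ℂ) = ((bil x (k * A) : ℤ) / M : ℝ) by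
        push_cast; rfl, norm_q1_real, mul_one]
    · rw [sum_const, nsmul_eq_mul, mul_comm]
      exact mul_le_mul_of_nonneg_left (by simpa using hC m) (by positivity)
  · have e0 : g5⁻¹ 0 0 = 1 ∧ g5⁻¹ 0 1 = 0 ∧ g5⁻¹ 1 0 = -5 ∧ g5⁻¹ 1 1 = 1 := by
      simp [g5, Matrix.SpecialLinearGroup.SL2_inv_expl]
    have e1 : g5 1 0 = 5 ∧ g5 1 1 = 1 := by simp [g5]
    have hj : An.jac g5⁻¹ w * An.jac g5 (g5⁻¹ • w : ℍ) = 1 := by
      have := den_ne (a := 1) (b := 0) (c := -5) (d := 1) (by norm_num) w.im_pos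
      rw [An.jac, An.jac, coe_smul_eq_mob, e0.1, e0.2.1, e0.2.2.1, e0.2.2.2, e1.1, e1.2,
        mob_den (by norm_num) _ _ w.im_pos]
      field_simp
      simp
    have h1 : ∀ x : G, HasSum (fun y : G => q1 ((bil x (k * y) : ℤ) / M) * q1 (y.norm * w / 2))
        (Th2 0 0 0 (k * x / M) w) := fun x => (hasSum_Th2 w.im_pos 0 0 _ _).congr_fun fun y => by
      rw [t1T, t1T, ← q1_add, ← q1_add, div_natCast_re, div_natCast_im]
      congr 1
      simp [norm_eq_bil, bil, ← GaussianInt.intCast_re, ← GaussianInt.intCast_im]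
      ring
    have h2 := hasSum_norm (g := fun y => FT M a (k * y)) (F := fun n => q1 (n * w / 2))
      ((hasSum_sm (M := M) fun x => (h1 x).mul_left (a x)).congr_fun fun y => by
        rw [FT_eq, mul_comm, ← sm_mul_left]
        exact sm_congr fun x => by ring)
    rw [show (sec M a).Th k g5 w = Wt (5 * k) k * sm M fun x => a x * Th2 0 0 0 (k * x / M) w
      from ?_]
    swap
    · rw [An.Sec.Th, h.sec_F (g5⁻¹ • w).im_pos, F0, e1.1, e1.2, mul_one, mul_comm (k : ℤ), mul_assoc,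
        mul_comm (sm M _), ← sm_mul_left]
      refine congrArg _ (sm_congr fun x => ?_)
      rw [Th2_law, e0.1, e0.2.1, e0.2.2.1, e0.2.2.2,
        show ze ((1 : ℤ) : ZMod 4) ((0 : ℤ) : ZMod 4) ((-5 : ℤ) : ZMod 4) ((1 : ℤ) : ZMod 4) = 1 by
          decide, Th2_p (p := 0) w.im_pos _ _ (by norm_num), Th2_q (q := 0) w.im_pos _ _ (by norm_num),
        show 5 * (k : ℤ) * 1 + k * -5 = 0 by ring, show 5 * (k : ℤ) * 0 + k * 1 = k by ring]
      simp only [map_one, Int.cast_zero, zero_mul, zero_div, Int.cast_natCast]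
      linear_combination (a x * Th2 0 0 0 (k * x / M) w) * hj
    · refine (h2.mul_left (Wt (5 * k) k)).congr_fun fun m => ?_
      rw [tk]
      push_cast
      ring

end Pool.Agent.Lib.MP_696deb_nt.Y2
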