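import Pool.Agent.Lib.MP_696deb_nt.Y2.TL7
import Pool.Agent.Lib.MP_696deb_nt.Y2.TL8

/-! The central value of the tame series of the analytic side has bounded valuation. -/

set_option autoImplicit false

open scoped Classical NNReal ComplexConjugate
open Finset

namespace Pool.Agent.Lib.MP_696deb_nt.Y2.TL

open EU

theorem RS_star (ψ : O → ℂ) (b : ℕ → ℂ) : RS (fun y => ψ (star y)) b = RS ψ b := by
  have n : ∀ y : O, nm (star y) = nm y := fun y => by rw [nm, Zsqrtd.norm_conj, nm]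
  have : ∀ k m : ℕ, ∑ y ∈ QF.reps m, ψ (star (k * y)) = ∑ y ∈ QF.reps m, ψ (k * y) := fun k m =>
    sum_nbij' star star (fun y h => by rwa [t8_mem, n, ← t8_mem]) (fun y h => by
      rwa [t8_mem, n, ← t8_mem]) (fun y _ => star_star y) (fun y _ => star_star y) fun y _ => by
        rw [star_mul', star_natCast]
  funext s
  simp only [RS, this]

theorem t9_val {F1 F2 Λ : ℂ → ℂ} (h1 : Ent F1) (h2 : Ent F2) (hΛ : Differentiable ℂ Λ) {a b c : ℂ}
    (h : ∀ s : ℂ, 5 < s.re → Λ s = c * (a * F1 (s + 1) + b / 2 ^ (s + 1) * F2 (s + 1))) :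
    Λ 0 = c * (a * val1 F1 + b / 2 * val1 F2) := by
  obtain ⟨L1, a1, a2⟩ := h1
  obtain ⟨L2, b1, b2⟩ := h2
  have d : Differentiable ℂ fun s : ℂ => c * (a * L1 (s + 1) + b / 2 ^ (s + 1) * L2 (s + 1)) := by
    refine (((a1.comp (by fun_prop)).const_mul a).add (Differentiable.mul
      ((differentiable_const b).div (Differentiable.const_cpow (by fun_prop) (.inl two_ne_zero))
        fun s => Complex.cpow_ne_zero_iff.2 (.inl two_ne_zero)) (b1.comp (by fun_prop)))).const_mul c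
  have e : Λ = fun s : ℂ => c * (a * L1 (s + 1) + b / 2 ^ (s + 1) * L2 (s + 1)) := by
    refine AnalyticOnNhd.eq_of_eventuallyEq (fun z _ => hΛ.analyticAt z)
      (fun z _ => d.analyticAt z) (z₀ := 6) ?_
    filter_upwards [(isOpen_lt continuous_const Complex.continuous_re).mem_nhds
      (show (6 : ℂ) ∈ {s : ℂ | (5 : ℝ) < s.re} by norm_num)] with s hs
    have k : 2 < (s + 1).re := by rw [Complex.add_re, Complex.one_re]; linarith
    rw [h s hs, a2 _ k, b2 _ k]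
  rw [e, val1_eq a1 a2, val1_eq b1 b2]
  simp

section
variable {D D' t : ℤ} (hD : QA.Fam D) (hD' : QA.Fam D') (ht : D' * t ^ 4 = 5 * D ^ 3) {q : ℕ}
  (hq : q.Prime) (h2 : q ≠ 2) (h5 : q ≠ 5) (hv : Odd (padicValInt q D))
  (h1 : B2.Stmt.CorankLE (QP.EQ D) 1) (h0 : B2.Stmt.CorankLE (QP.EQ D') 0) {φ φ' : O → O}
  (hφ : Phi D φ) (hφ' : Phi D' φ') (hz : Hz D φ)
include hD hD' ht hq h2 h5 hv h1 h0 hφ hφ' hz

/-- The end statement on the side of the series. -/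
theorem tl_lam {ψ : O → ℂ} {c0 c1 : O} (e0 : ∀ y, ¬ w ∣ y → ψ y = c0 * V0 φ y)
    (e1 : ∀ y, ψ (w * y) = c1 * V0 φ y) (hc : 2 * c0 ≠ c1 * star w) {b : ℕ → ℂ} {β : ℂ}
    (hβ : β ≠ 0) (hb : ∀ m, b m = β * aN m) {C : ℂ} (hC : C ≠ 0) :
    ∃ (b0 : O) (δ : ℝ≥0), 0 < δ ∧ ∀ v, ∃ u ≥ v, ∃ (r : TP) (x : Ix r u), AdmR D φ b0 r u ∧
      ∀ Λ : ℂ → ℂ, Differentiable ℂ Λ →
        (∀ s : ℂ, 5 < s.re → Λ s = RS (fun y => ψ y * tw x y) b s) →
        ∀ X : Qbar, jc X = C * Λ 0 → δ ≤ w2.V X := by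
  obtain ⟨b0, δ, K, d0, h⟩ := tl_main hD hD' ht hq h2 h5 hv h1 h0 hφ hφ' hz
  have n0 : C * (conj β / 8) * Om ^ 2 ≠ 0 := mul_ne_zero (mul_ne_zero hC
    (div_ne_zero ((map_ne_zero _).2 hβ) (by norm_num))) (pow_ne_zero 2 EA.Om_ne)
  obtain ⟨κ, k0, k1⟩ : ∃ κ : Qbar, κ ≠ 0 ∧ ∀ y, jc y = C * (conj β / 8) * Om ^ 2 → y = κ := by
    by_cases e : ∃ y, jc y = C * (conj β / 8) * Om ^ 2
    · obtain ⟨y, e⟩ := e
      exact ⟨y, fun k => n0 (by rw [← e, k, map_zero]), fun y' e' => jc.injective (e'.trans e.symm)⟩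
    · exact ⟨1, one_ne_zero, fun y k => (e ⟨y, k⟩).elim⟩
  have p0 : 0 < w2.V (io (2 * c0 - c1 * star w)) * δ :=
    mul_pos (B2.b3a_pos w2 (EA.io_ne (sub_ne_zero.2 hc))) d0
  obtain ⟨v0, hv0⟩ : ∃ v0, ∀ u ≥ v0, K * w2.V (2 ^ u) < w2.V (io (2 * c0 - c1 * star w)) * δ := by
    have := (NNReal.tendsto_pow_atTop_nhds_zero_of_lt_one V_two_lt).const_mul K
    rw [mul_zero] at this
    simpa only [map_pow] using Filter.eventually_atTop.1 (this.eventually (gt_mem_nhds p0))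
  refine ⟨b0, w2.V κ * (w2.V (io (2 * c0 - c1 * star w)) * δ), mul_pos (B2.b3a_pos w2 k0) p0,
    fun v => ?_⟩
  obtain ⟨u, hu, r, x, a1, B0, a2, a3⟩ := h (max v v0)
  refine ⟨u, le_of_max_le_left hu, r, x, a1, fun Λ hΛ hs X e => ?_⟩
  obtain ⟨B, b1, b2⟩ := a3 1 r.prime.not_dvd_one
  obtain ⟨B', c1', c2⟩ := a3 w fun k =>
    a1.nd ((k.trans ⟨star w, (by decide : (2 : O) = _)⟩).trans ⟨5 * D * nm b0, by push_cast; ring⟩)
  obtain ⟨K', -, hK'⟩ := (show Pd r.π fun a => (tw x a : ℂ) from fun a b e =>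
    congrArg Nat.cast (tw_pd x a b e)).bd r.prime.ne_zero
  have v1 := t9_val (TD_ent hD.ne hD'.ne hφ hφ' x 1) (TD_ent hD.ne hD'.ne hφ hφ' x w) hΛ
    fun s h => (hs s h).trans (by
      simpa only [TD, one_mul] using rs_DD hD hD' ht hφ hφ' hK' e0 e1 hb (s := s) (by linarith))
  have m : ∀ (a : O) {y : Qbar}, w2.V y ≤ K * w2.V (2 ^ u) → w2.V (io a * y) ≤ K * w2.V (2 ^ u) :=
    fun a y h => by
      rw [map_mul]
      exact (mul_le_of_le_one_left zero_le (EA.V_io_le _ _)).trans h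
  have b4 : w2.V (io (2 * c0 - c1 * star w)) * δ ≤ w2.V (io (2 * c0 - c1 * star w) * B0) := by
    rw [map_mul]
    exact mul_le_mul' le_rfl a2
  have b3 : w2.V (io (2 * c0 - c1 * star w)) * δ ≤ w2.V (io (2 * c0) * B - io (c1 * star w) * B') := by
    refine b4.trans_eq (w2.V.map_eq_of_sub_lt (lt_of_le_of_lt ?_
      ((hv0 u (le_of_max_le_right hu)).trans_le b4))).symm
    convert w2.V.map_sub_le (m (2 * c0) b2) (m (c1 * star w) c2) using 2
    rw [map_sub io]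
    ring
  have b5 : io (2 * c0) * B - io (c1 * star w) * B' ≠ 0 := fun e => by
    rw [e, map_zero] at b3
    exact p0.not_ge b3
  have b6 := k1 (X / (io (2 * c0) * B - io (c1 * star w) * B')) (by
    rw [map_div₀, div_eq_iff ((map_ne_zero jc).2 b5), e, v1, b1, c1', U0_w, map_sub, map_mul jc,
      map_mul jc, EA.jc_io, EA.jc_io, map_mul, map_mul, map_ofNat,
      show star w = ⟨1, -1⟩ from rfl, GaussianInt.toComplex_def' 1]
    push_cast
    ring)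
  rw [(div_eq_iff b5).1 b6, map_mul]
  exact mul_le_mul' le_rfl b3

end

end Pool.Agent.Lib.MP_696deb_nt.Y2.TL
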