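import Pool.Agent.Lib.MP_696deb_nt.Y2.TL0

/-! Gauss sums. -/

set_option autoImplicit false

open scoped Classical NNReal ComplexConjugate Real
open Finset

namespace Pool.Agent.Lib.MP_696deb_nt.Y2.TL

open EU

theorem tlg_nm (a : O) : ((nm a : ℕ) : ℤ) = a.norm := by
  rw [nm, Int.natCast_natAbs, abs_of_nonneg (GaussianInt.norm_nonneg a)]

theorem tlg_dvd {a : O} (hp : (nm a).Prime) (n : ℤ) : a ∣ (n : O) ↔ (nm a : ℤ) ∣ n := by
  constructor
  · rintro ⟨c, hc⟩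
    have h := congrArg Zsqrtd.norm hc
    rw [Zsqrtd.norm_mul, Zsqrtd.norm_intCast, ← tlg_nm] at h
    exact ((Nat.prime_iff_prime_int.1 hp).dvd_or_dvd ⟨_, h⟩).elim id id
  · rintro ⟨c, rfl⟩
    rw [tlg_nm, Int.cast_mul, Zsqrtd.norm_eq_mul_conj]
    exact (dvd_mul_right _ _).mul_right _

theorem tlg_zeta {l : ℕ} (hl : l ≠ 0) :
    ∃ ζ : Qbar, IsPrimitiveRoot ζ l ∧ jc ζ = Complex.exp (2 * π * Complex.I / l) := by
  have := NeZero.mk hl
  obtain ⟨z, hz⟩ := HasEnoughRootsOfUnity.exists_primitiveRoot Qbar l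
  have h := Complex.isPrimitiveRoot_exp l hl
  obtain ⟨i, -, hi⟩ := (hz.map_of_injective jc.injective).eq_pow_of_pow_eq_one h.pow_eq_one
  rw [← map_pow] at hi
  exact ⟨z ^ i, IsPrimitiveRoot.of_map_of_injective (hi ▸ h) jc.injective, hi⟩

theorem tlg_exp {l : ℕ} [NeZero l] (n : ℤ) :
    Complex.exp (2 * π * Complex.I / l) ^ (n : ZMod l).val =
      Complex.exp (2 * π * Complex.I * n / l) := by
  have h0 : (l : ℂ) ≠ 0 := Nat.cast_ne_zero.2 (NeZero.ne l)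
  have h : (n : ℂ) = ((n : ZMod l).val : ℂ) + l * (n / l : ℤ) := by
    have k := congrArg (Int.cast : ℤ → ℂ) (Int.emod_add_mul_ediv n l)
    rw [← ZMod.val_intCast, Int.cast_add, Int.cast_mul, Int.cast_natCast, Int.cast_natCast] at k
    exact k.symm
  rw [← Complex.exp_nat_mul, ← mul_one (Complex.exp (_ * _)),
    ← Complex.exp_int_mul_two_pi_mul_I (n / l), ← Complex.exp_add]
  congr 1
  conv_rhs => rw [h]
  field_simp

/-- The Fourier transform of the tame weight. -/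
theorem gauss_tw {r : TP} {u : ℕ} (x : Ix r u) (hs : nm r.π = r.v.p) :
    ∃ G0 : Qbar, w2.V G0 ≤ 1 ∧ ∀ μ : ℤ, ¬ (nm r.π : ℤ) ∣ μ → ∃ E : Qbar, w2.V E ≤ 1 ∧
      ∑ a ∈ range (nm r.π), (tw x a : ℂ) * Complex.exp (2 * π * Complex.I * (μ * a) / nm r.π) =
        jc (G0 + tw x μ + 2 ^ u * E) := by
  have hp : (nm r.π).Prime := hs ▸ r.v.prime
  have hd := tlg_dvd hp
  generalize nm r.π = l at hp hd ⊢
  have := Fact.mk hp
  obtain ⟨ζ, hζ, hj⟩ := tlg_zeta hp.ne_zero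
  let ψ : AddChar (ZMod l) Qbar := AddChar.zmodChar l hζ.pow_eq_one
  have ψa : ∀ a, ψ a = ζ ^ a.val := fun a => AddChar.zmodChar_apply _ a
  have ψV : ∀ a, w2.V (ψ a) ≤ 1 := fun a => by
    rw [ψa, map_pow, w2.V_root_of_unity hp.ne_zero hζ.pow_eq_one, one_pow]
  let t : ZMod l → ℕ := fun a => tw x (a.val : O)
  have tc : ∀ n : ℤ, t n = tw x n := fun n => tw_pd x _ _ (by
    rw [← Int.cast_natCast, ← Int.cast_sub, hd, ← ZMod.intCast_zmod_eq_zero_iff_dvd]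
    simp)
  have t0 : t 0 = 0 := by simp [t, tw]
  have sV : ∀ f : ZMod l → ℤ, ∀ g : ZMod l → ZMod l, w2.V (∑ a, (f a : Qbar) * ψ (g a)) ≤ 1 :=
    fun f g => w2.V.map_sum_le fun a _ => by
      rw [map_mul]
      exact mul_le_one' (w2.V_int_le _) (ψV _)
  refine ⟨∑ a, (t a : Qbar) * ψ a, by simpa using sV (fun a => t a) id, fun μ hμ => ?_⟩
  have μ0 : (μ : ZMod l) ≠ 0 := fun e => hμ ((ZMod.intCast_zmod_eq_zero_iff_dvd _ _).1 e)
  have k : ∀ a : ZMod l, ∃ e : ℤ,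
      (t a : ℤ) = t (a * μ) - tw x μ + (if a = 0 then (tw x μ : ℤ) else 0) + 2 ^ u * e := by
    intro a
    by_cases h : a = 0
    · exact ⟨0, by simp [h, t0]⟩
    have h1 : ¬ r.π ∣ ((a.val : ℤ) : O) := by
      rw [hd, ← ZMod.intCast_zmod_eq_zero_iff_dvd]
      simpa using h
    obtain ⟨e, he⟩ := tw_mul x h1 (mt (hd μ).1 hμ)
    rw [← Int.cast_mul, ← tc, ← tc (a.val : ℤ)] at he
    rw [Int.cast_mul, Int.cast_natCast, ZMod.natCast_zmod_val] at he
    exact ⟨-e, by rw [if_neg h]; linear_combination -he⟩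
  choose e he using k
  refine ⟨∑ a, (e a : Qbar) * ψ (a * μ), sV _ _, ?_⟩
  have s0 : ∑ a, ψ (a * μ) = 0 := by
    rw [AddChar.sum_mulShift _ (AddChar.zmodChar_primitive_of_primitive_root l hζ), if_neg μ0,
      Nat.cast_zero]
  have s1 : ∑ a, (t (a * μ) : Qbar) * ψ (a * μ) = ∑ a, (t a : Qbar) * ψ a :=
    Equiv.sum_comp (Equiv.mulRight₀ (μ : ZMod l) μ0) fun a => (t a : Qbar) * ψ a
  have s2 : ∑ a, (t a : Qbar) * ψ (a * μ) =
      ∑ a, (t a : Qbar) * ψ a + tw x μ + 2 ^ u * ∑ a, (e a : Qbar) * ψ (a * μ) := by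
    have h : ∀ a, (t a : Qbar) * ψ (a * μ) = t (a * μ) * ψ (a * μ) - tw x μ * ψ (a * μ) +
        (if a = 0 then (tw x μ : Qbar) else 0) + 2 ^ u * (e a * ψ (a * μ)) := fun a => by
      have h := congrArg (Int.cast : ℤ → Qbar) (he a)
      push_cast at h
      rw [h]
      split_ifs with h0
      · rw [h0, zero_mul, AddChar.map_zero_eq_one]
        ring
      · ring
    rw [sum_congr rfl fun a _ => h a, sum_add_distrib, sum_add_distrib, sum_sub_distrib, s1,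
      ← mul_sum, ← mul_sum, s0, mul_zero, sub_zero, sum_ite_eq', if_pos (mem_univ _)]
  rw [← s2, map_sum]
  refine sum_bij' (fun a _ => (a : ZMod l)) (fun a _ => a.val) (fun _ _ => mem_univ _)
    (fun a _ => mem_range.2 a.val_lt) (fun a h => ZMod.val_cast_of_lt (mem_range.1 h))
    (fun a _ => ZMod.natCast_zmod_val a) fun a _ => ?_
  have h := tlg_exp (l := l) (a * μ)
  have h' := tc a
  push_cast at h h'
  rw [map_mul, map_natCast, ψa, map_pow, hj, h, h', mul_comm (a : ℂ)]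

end Pool.Agent.Lib.MP_696deb_nt.Y2.TL
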