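import Pool.Agent.Lib.MP_696deb_nt.Y2.P1
import Pool.Agent.Lib.MP_696deb_nt.Y2.TL9
import Pool.Agent.Lib.MP_696deb_nt.Y2.TLg
import Pool.Agent.Lib.MP_696deb_nt.Y2.TH3
import Pool.Agent.Lib.MP_696deb_nt.Y2.D4

/-! The tame formula against the first derivative of the elliptic units. -/

set_option autoImplicit false

open scoped Classical NNReal ComplexConjugate
open Finset Complex

namespace Pool.Agent.Lib.MP_696deb_nt.Y2

open QF (G Prim Per)
open EU (TP Ix AdmR nm Qbar)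
open TL (tw V0 c5 RS Hz)

namespace Dat

variable (d : Dat)

/-- The tame formula. -/
def TameS : Prop := ∃ den B : ℕ, 0 < den ∧ ∀ (π : G) (l u : ℕ) (W : G → ℤ), B < l → TWt π l u W →
  ∃ (z : G) (X : Qbar), z ^ 4 = 1 ∧ EU.w2.V X ≤ 1 ∧
    den * (2 * l * (d.St l W).hol (d.mu (l ^ 2)) - z * (finL d.S (lgN l W) (d.mu l) -
      (d.kap π + d.kap (star π) : G) * finL d.S (lgN l W) (d.mu 1))) = EA.jc (2 ^ u * X)

theorem p2_par (a b : G) (h : 2 ∣ a.norm - b.norm) :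
    (-1 : ℂ) ^ a.norm.natAbs = (-1) ^ b.norm.natAbs := by
  rw [neg_one_pow_eq_pow_mod_two, neg_one_pow_eq_pow_mod_two (n := b.norm.natAbs)]
  congr 1
  omega

theorem ps_per : Per (8 * d.N) d.ps := fun a γ => by
  rw [ps, ps, d.Psi_per a γ, p2_par _ a]
  simp only [Zsqrtd.norm_def, Zsqrtd.re_add, Zsqrtd.im_add, Zsqrtd.re_mul, Zsqrtd.im_mul,
    Zsqrtd.re_natCast, Zsqrtd.im_natCast]
  exact ⟨4 * d.N * (2 * (a.re * γ.re + a.im * γ.im) + 8 * d.N * (γ.re ^ 2 + γ.im ^ 2)), by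
    push_cast
    ring⟩

theorem ps_odd {u : ℤ} (h4 : u % 4 = 3) (h5 : (d.N : ℤ) ∣ u - 1) (h : IsCoprime u (8 * d.N : ℕ))
    (y : G) : d.ps (u * y) = -d.ps y := by
  have k : IsCoprime u (d.M : ℤ) := (h.pow_right (n := 2)).of_isCoprime_of_dvd_right (by
    obtain ⟨c, e⟩ := d.five_dvd
    exact ⟨4 * c, by rw [M, e]; push_cast; ring⟩)
  have k5 := (Int.natCast_dvd_natCast.2 d.five_dvd).trans h5
  have e : (u : ZMod 20) = 11 := (ZMod.intCast_eq_intCast_iff' u 11 20).2 (by omega)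
  rw [ps, ps, d.Psi_mul (by simpa using k.map (Int.castRingHom G)), d.kap_int k, e,
    show om 11 = -1 by decide, p2_par _ y]
  · simp
  · obtain ⟨c, rfl⟩ : ∃ c, u = 2 * c + 1 := ⟨u / 2, by omega⟩
    rw [Zsqrtd.norm_mul, Zsqrtd.norm_intCast]
    exact ⟨2 * (c * c + c) * y.norm, by ring⟩

section
variable {d} {π : G} {l u : ℕ} {W : G → ℤ} (h : TWt π l u W)
include h

theorem tame_per : Per (8 * d.N * l) fun y => d.ps y * W y := fun a γ => by
  have k : π ∣ (l : G) := ⟨star π, by rw [← Zsqrtd.norm_eq_mul_conj, h.norm, Int.cast_natCast]⟩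
  beta_reduce
  rw [h.per _ a (by
    rw [add_sub_cancel_left, Nat.cast_mul]
    exact (k.mul_left _).mul_right _), Nat.cast_mul, mul_assoc, d.ps_per]

theorem tame_adm (h2 : l % 2 = 1) :
    Adm (8 * d.N * l) (iFT (8 * d.N * l) fun y => d.ps y * W y) := by
  have k : π ∣ (l : G) := ⟨star π, by rw [← Zsqrtd.norm_eq_mul_conj, h.norm, Int.cast_natCast]⟩
  refine adm_iFT (k := 3) (M' := d.N * l) (mul_assoc _ _ _)
    (Nat.odd_iff.1 (d.N_odd.mul (Nat.odd_iff.2 h2)))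
    ((Nat.mul_dvd_mul (by decide : 2 ∣ 8) d.five_dvd).mul_right l) (tame_per h) fun v h4 h5 hc y => ?_
  rw [Nat.cast_mul] at h5 hc
  have k2 : (l : G) ∣ v - 1 := by
    simpa using map_dvd (Int.castRingHom G) ((dvd_mul_left _ _).trans h5)
  rw [d.ps_odd h4 ((dvd_mul_right _ _).trans h5) hc.of_mul_right_left, h.per _ y (by
    rw [← sub_one_mul]
    exact (k.trans k2).mul_right y), neg_mul]

end

theorem kap_V0 (hφ : EU.Phi d.D d.φ) (y : G) : d.kap (star y) = V0 d.φ y := by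
  rw [kap, V0, star_star, hφ.gch.conj, c5]
  split_ifs with h
  · obtain ⟨X, hX⟩ := QF.exists_X Nat.prime_five (by decide)
    rw [(by decide : ∀ s : ZMod 5, ep s * star (ep s) = 1 → ep s ^ 4 = 1) _
      (TL.t8_X hX ((TL.tl6a_cop y).2 h)).2, mul_one]
  · have k : r5 y * r5 (star y) = 0 := by
      rw [← norm_five, ZMod.intCast_zmod_eq_zero_iff_dvd]
      by_contra k
      exact h (by simpa using (cop_norm (M := 5)).2 ((Nat.prime_iff_prime_int.1
        Nat.prime_five).irreducible.coprime_iff_not_dvd.2 k).symm)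
    rw [mul_assoc, (by decide : ∀ a b : ZMod 5, a * b = 0 → ep a * ep b ^ 4 = 0) _ _ k]
    simp

theorem ps_shape (hφ : EU.Phi d.D d.φ) (hW : d.W = -1) : ∃ c0 c1 : G,
    (∀ y, ¬ Q4.w ∣ y → d.ps (star y) = c0 * V0 d.φ y) ∧
      (∀ y, d.ps (star (Q4.w * y)) = c1 * V0 d.φ y) ∧ 2 * c0 ≠ c1 * star Q4.w := by
  obtain ⟨c, c0, h⟩ := d.Psi_eq hW
  refine ⟨-c, if d.κ = 0 then c * Q4.w else 0, fun y k => ?_, fun y => ?_, ?_⟩
  · have k1 : (y.re + y.im) % 2 = 1 := by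
      by_contra e
      exact k ⟨⟨(y.re + y.im) / 2, (y.im - y.re) / 2⟩, by ext <;> simp [Q4.w] <;> omega⟩
    rw [ps, h, kap1, if_neg (by simp; omega), add_zero, d.kap_V0 hφ, p2_par _ 1]
    · simp
    · have := (m6_norm y).1 k1
      rw [Zsqrtd.norm_conj, Zsqrtd.norm_one]
      omega
  · have e : star (Q4.w * y) = ⟨y.re - y.im, -(y.re + y.im)⟩ := by ext <;> simp [Q4.w] <;> ring
    have e2 : d.kap ⟨-y.im, -y.re⟩ = V0 d.φ y := by
      rw [← d.kap_V0 hφ, show star y = QF.ii * ⟨-y.im, -y.re⟩ by ext <;> simp [QF.ii], kap_mul,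
        kap_ii, one_mul]
    rw [ps, h, kap1, d.kap_zero fun k => (d.cop_iff.1 k).1 (by
      rw [Zsqrtd.norm_conj, Zsqrtd.norm_mul]
      exact Dvd.intro _ rfl), p2_par _ 0 (by
      rw [Zsqrtd.norm_conj, Zsqrtd.norm_mul, Zsqrtd.norm_zero, sub_zero]
      exact Dvd.intro _ rfl), e]
    simp only [show (y.re - y.im + -(y.re + y.im)) % 2 = 0 by omega, and_true,
      show (y.re - y.im + -(y.re + y.im)) / 2 = -y.im by omega,
      show (-(y.re + y.im) - (y.re - y.im)) / 2 = -y.re by omega, e2]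
    split_ifs
    · rw [map_mul _ _ Q4.w, Q4.w]
      simp [mul_assoc]
    · simp
  · split_ifs
    · rw [mul_assoc, show Q4.w * star Q4.w = 2 by decide]
      intro e
      have := congrArg Zsqrtd.re e
      simp at this
      omega
    · simpa using c0.ne'

end Dat

theorem p2_twt {r : TP} {u : ℕ} (x : Ix r u) (hs : nm r.π = r.v.p) :
    TWt (star r.π) (nm r.π) u fun y => tw x (star y) := by
  have k : ∀ a, ¬ star r.π ∣ a → ¬ r.π ∣ star a := fun a h e => h (TL.tl3_star.2 e)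
  refine ⟨hs ▸ r.v.prime, by rw [Zsqrtd.norm_conj, TL.tlg_nm], fun a b e => ?_, by simp [tw],
    fun a b ha hb => ?_, ?_⟩
  · rw [TL.tw_pd x _ _ (star_sub a b ▸ TL.tl3_star.1 e)]
  · obtain ⟨e, he⟩ := TL.tw_mul x (k a ha) (k b hb)
    exact ⟨e, by rw [star_mul', he]; ring⟩
  · have n : ∀ j : ℕ, ¬ r.π ∣ Q4.ii ^ j := fun j e => r.prime.not_isUnit
      (isUnit_of_dvd_unit e ((IsUnit.of_mul_eq_one (-Q4.ii) (by decide)).pow j))
    have e1 := x.mul _ _ (n 1) (n 2)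
    have e2 := x.mul _ _ (n 1) (n 1)
    rw [pow_one, x.unit, show Q4.ii * Q4.ii = Q4.ii ^ 2 by decide] at e2
    rw [pow_one, x.unit, e2, show Q4.ii * Q4.ii ^ 2 = star QF.ii by decide] at e1
    simp [tw, e1]

theorem p2_L {r : TP} {u : ℕ} (x : Ix r u) (hs : nm r.π = r.v.p) : ∃ L : ℚ → ZMod (2 ^ u),
    Lg (nm r.π) L ∧ ∀ k : ℕ, 0 < k →
      (lgN (nm r.π) (fun y => tw x (star y)) k : ZMod (2 ^ u)) = L k := by
  obtain ⟨L, h1, h2, h3, h4⟩ := TL.exists_L x hs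
  have hp : (nm r.π).Prime := hs ▸ r.v.prime
  refine ⟨L, ⟨h1, fun a c hc e => ?_⟩, fun k k0 => ?_⟩
  · have c0 : c ≠ 0 := fun e => hc (e ▸ dvd_zero _)
    have a0 : a ≠ 0 := fun k => hc (by simpa [k, Int.natCast_dvd_natCast] using e)
    refine h4 _ (by positivity) (((Nat.prime_iff_prime_int.1 hp).dvd_or_dvd (b := c) ?_).resolve_right
      fun k => hc (Int.natCast_dvd_natCast.1 k))
    have k : ((a : ℚ) / c).num * c = a * ((a : ℚ) / c).den := by
      have := Rat.mul_den_eq_num ((a : ℚ) / c)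
      rw [div_mul_eq_mul_div, div_eq_iff (Nat.cast_ne_zero.2 c0)] at this
      exact_mod_cast this.symm
    rw [sub_mul, k, mul_comm _ (c : ℤ), ← sub_mul]
    exact e.mul_right _
  · have n := Nat.not_dvd_ordCompl hp k0.ne'
    have e := Nat.ordProj_mul_ordCompl_eq_self k (nm r.π)
    have p : 0 < k / nm r.π ^ k.factorization (nm r.π) := Nat.ordCompl_pos _ k0.ne'
    rw [lgN]
    generalize k / nm r.π ^ k.factorization (nm r.π) = j at n e p
    have z : ∀ i : ℕ, L (nm r.π ^ i) = 0 := fun i => by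
      induction i with
      | zero => exact TL.tlt_one h1
      | succ i ih => rw [pow_succ, h1 _ _ (pow_pos (Nat.cast_pos.2 hp.pos) _) (Nat.cast_pos.2 hp.pos),
          ih, h2, add_zero]
    rw [← e, Nat.cast_mul, Nat.cast_pow, h1 _ _ (pow_pos (Nat.cast_pos.2 hp.pos) _)
      (Nat.cast_pos.2 p), z, zero_add, h3 j n, star_natCast, tw,
      if_neg fun k => n (Int.natCast_dvd_natCast.1 ((TL.tlg_dvd hp j).1 (by simpa using k)))]
    simp

theorem p2_a {r : G} {l N : ℕ} (hl : l.Prime) (h4 : l % 4 = 1) (hr : r.norm = l) (hp : Prim r)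
    (h : (N : G) ∣ r - 1) : (N : G) ∣ 1 * eb r + star 1 * eb (star r) - aG l := by
  have h' : (N : G) ∣ star r - 1 := by simpa [starRingEnd_apply] using map_dvd (starRingEnd G) h
  have k := hp.1
  have k' := hp.2
  rw [aG_split hl h4 hr, psi, psi, if_neg (by omega), if_neg (by simp; omega), eb, eb, star_star]
  convert dvd_sub (h.mul_left (-ep (r5 r))) (h'.mul_left (ep (r5 (star r)))) using 1
  rw [star_one]
  ring

/-- The sum of the points is not of finite order: the contradiction. -/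
theorem Dat.point_core (d : Dat) {D' t : ℤ} (hD : QA.Fam d.D) (hD' : QA.Fam D')
    (ht : D' * t ^ 4 = 5 * d.D ^ 3) {q : ℕ} (hq : q.Prime) (h2 : q ≠ 2) (h5 : q ≠ 5)
    (hv : Odd (padicValInt q d.D)) (h1 : B2.Stmt.CorankLE (QP.EQ d.D) 1)
    (h0 : B2.Stmt.CorankLE (QP.EQ D') 0) {φ' : G → G} (hφ : EU.Phi d.D d.φ) (hφ' : EU.Phi D' φ')
    (hz : Hz d.D d.φ) (hW : d.W = -1) (an : An.AnStmt levY (fun m => (aG m : ℂ)) g5 2
      fun m => -(1 + I) * aN m) {ar : ℕ → ℂ} (sy : SymS d.φ ar) (gz : GzaS d.S d.mu aG ar)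
    (ra : RatS d.S) (ta : d.TameS) : False := by
  obtain ⟨C, C0, an⟩ := an
  obtain ⟨T, B, T0, fc⟩ := fin_cong aG_one sy gz ra
  obtain ⟨den, B', d0, ta⟩ := ta
  obtain ⟨c0, c1, e0, e1, hc⟩ := d.ps_shape hφ hW
  obtain ⟨b0, δ, p0, h⟩ := TL.tl_lam hD hD' ht hq h2 h5 hv h1 h0 hφ hφ' hz e0 e1 hc
    (β := -(1 + I)) (fun e => by simpa using congrArg re e) (fun _ => rfl)
    (C := (T * den * 2 : ℕ) * C) (mul_ne_zero (Nat.cast_ne_zero.2 (by positivity)) C0)
  obtain ⟨v0, hv0⟩ : ∃ v0, ∀ u ≥ v0, EU.w2.V (2 ^ u) < δ := by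
    simpa only [map_pow] using Filter.eventually_atTop.1
      ((NNReal.tendsto_pow_atTop_nhds_zero_of_lt_one EU.V_two_lt).eventually (gt_mem_nhds p0))
  obtain ⟨u, hu, r, x, a1, h⟩ := h (v0 + (B.sup id + B' + d.M + 2))
  have hl : (nm r.π).Prime := a1.split ▸ r.v.prime
  have l1 := (Nat.le_of_dvd (Nat.sub_pos_of_lt hl.one_lt) x.dvd).trans_lt' Nat.lt_two_pow_self
  have l4 : nm r.π % 4 = 1 := by
    obtain ⟨c, e⟩ := (pow_dvd_pow 2 (by omega : 2 ≤ u + 2)).trans x.dvd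
    omega
  have l5 : ¬ 5 ∣ nm r.π := fun e => by
    have := (Nat.prime_dvd_prime_iff_eq Nat.prime_five hl).1 e
    have := d.N_pos
    rw [Dat.M] at hu
    omega
  have hr := (TL.tlg_nm r.π).symm
  obtain ⟨f1, f2, -⟩ := TL.comp_r hD hD' ht hφ hφ' a1 x (by omega)
  have cp : IsCoprime r.π (d.M : G) := cop_norm.2 (by
    rw [hr, Nat.isCoprime_iff_coprime, hl.coprime_iff_not_dvd]
    exact Nat.not_dvd_of_pos_of_lt d.M_pos (by omega))
  have g1 := p2_a hl l4 hr r.prim (N := 2 ^ u) (by exact_mod_cast f2)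
  obtain ⟨L, L1, L2⟩ := p2_L x a1.split
  have tw1 := p2_twt x a1.split
  obtain ⟨E, hE⟩ := fc _ _ r.π (d.kap (star r.π) + d.kap (star (star r.π))) L _ hl
    (fun k => by have := le_sup (f := id) k; simp only [id] at this; omega) l4 l5 r.prim hr L1 L2
    (by rwa [hφ.gch.conj, f1]) (by
      rwa [star_star, d.kap_unit cp, d.kap_unit (cop_star cp), hφ.gch.conj, f1, add_comm])
  obtain ⟨z, X, -, X1, hX⟩ := ta _ _ u _ (by omega) tw1
  have ad := Dat.tame_adm (d := d) tw1 (by omega)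
  obtain ⟨Λ, k1, k2, k3⟩ := an _ _ ad.ok ad.at
  have k4 := (k3 1 (d.mu (nm r.π ^ 2)) one_pos (by simp only [Dat.mu, levY, sec]; ring) (by
    simp only [levY, ModularGroup.coe_T]
    rw [show xi ((!![1, 1; 0, 1] : Matrix _ _ ℤ) 0 1) ((!![1, 1; 0, 1] : Matrix _ _ ℤ) 1 1) =
      ⟨0, 1⟩ by decide, GaussianInt.toComplex_def', q1, show 2 * (Real.pi : ℂ) * I *
        (((1 : ℕ) : ℂ) / (4 : ℕ)) = Real.pi / 2 * I by push_cast; ring, exp_pi_div_two_mul_I]
    simp) (ad.zero _)).1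
  have l0 : (nm r.π : ℂ) ≠ 0 := Nat.cast_ne_zero.2 hl.ne_zero
  have k5 := h Λ k1 (fun s hs => by
    rw [k2 s hs, ← TL.RS_star]
    simp only [RS, tk, FT_iFT ad.pos (Dat.tame_per tw1), star_star]
    simp only [Int.cast_natCast])
    (2 ^ u * (T * X + den * EA.io (z * E)) / nm r.π) (by
      simp only [aG_one, map_one, mul_one] at k4
      rw [map_mul, map_pow, map_ofNat, Dat.St, k4] at hX
      simp only [map_div₀, map_mul, map_add, map_natCast, map_pow, map_ofNat, EA.jc_io]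
      rw [div_eq_iff l0]
      push_cast at hE hX ⊢
      linear_combination -(T : ℂ) * hX - den * z * hE)
  refine (hv0 u (by omega)).not_ge (k5.trans ?_)
  have l2 : EU.w2.V (nm r.π : Qbar) = 1 := by
    rw [← Int.cast_natCast, EU.w2.V_int_eq_one, EU.w2_p]
    omega
  have m : ∀ (n : ℕ) {y : Qbar}, EU.w2.V y ≤ 1 → EU.w2.V (n * y) ≤ 1 := fun n y h => by
    rw [map_mul]
    exact mul_le_one' (by simpa using EU.w2.V_int_le n) h
  rw [map_div₀, l2, div_one, map_mul]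
  exact mul_le_of_le_one_right zero_le (EU.w2.V.map_add_le (m _ X1) (m _ (EA.V_io_le _ _)))

end Pool.Agent.Lib.MP_696deb_nt.Y2
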