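import Pool.Agent.Lib.MP_696deb_nt.Y2.P2
import Pool.Agent.Lib.MP_696deb_nt.Y2.CG
import Pool.Agent.Lib.MP_696deb_nt.Y2.G0
import Pool.Agent.Lib.MP_696deb_nt.Y2.AI
import Pool.Agent.Lib.MP_696deb_nt.QA.Fe
import Pool.Agent.Lib.MP_696deb_nt.QA.Fin4

/-! The point has infinite order. -/

set_option autoImplicit false

open scoped Classical
open Finset

namespace Pool.Agent.Lib.MP_696deb_nt.Y2

open QF (G)

/-- The Hecke character is determined by the curve. -/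
theorem phi_uniq {D : ℤ} {φ φ' : G → G} (hφ : EU.Phi D φ) (hφ' : EU.Phi D φ') : φ = φ' := by
  funext a
  let P : G → Prop := fun a => φ a = φ' a
  have mul : ∀ a b, P a → P b → P (a * b) := fun a b ha hb => by
    simp only [P] at ha hb ⊢
    rw [hφ.gch.mul, hφ'.gch.mul, ha, hb]
  have ii : P QF.ii := (TL.tl6a_ii hφ.gch).trans (TL.tl6a_ii hφ'.gch).symm
  have unit : ∀ u : G, IsUnit u → P u := fun u hu => by
    have k : u ∈ QF.reps 1 := QF.mem_reps.2 ((Zsqrtd.norm_eq_one_iff' (by norm_num) u).2 hu)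
    rw [show QF.reps 1 = {1, QF.ii, QF.ii * QF.ii, QF.ii * QF.ii * QF.ii} by decide] at k
    simp only [mem_insert, mem_singleton] at k
    rcases k with rfl | rfl | rfl | rfl
    exacts [hφ.gch.one.trans hφ'.gch.one.symm, ii, mul _ _ ii ii, mul _ _ (mul _ _ ii ii) ii]
  have bad : ∀ p : ℕ, p.Prime → (p : ℤ) ∣ 2 * D → ∀ a : G, (p : ℤ) ∣ a.norm → P a :=
    fun p hp h a ha => (hφ.gch.zero p hp h a ha).trans (hφ'.gch.zero p hp h a ha).symm
  refine UniqueFactorizationMonoid.induction_on_prime (P := P) a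
    (bad 2 Nat.prime_two (dvd_mul_right _ _) 0 (by simp)) unit fun b π _ hπ hb => mul _ _ ?_ hb
  have ass : ∀ w : G, Prime w → w ∣ π → P w → P π := fun w hw ⟨u, e⟩ h =>
    e ▸ mul _ _ h (unit u ((hπ.irreducible.isUnit_or_isUnit e).resolve_left hw.not_isUnit))
  obtain ⟨p, hp, hd⟩ := Nat.exists_prime_and_dvd (n := π.norm.natAbs) fun e =>
    hπ.not_isUnit (Zsqrtd.norm_eq_one_iff.1 e)
  replace hd : (p : ℤ) ∣ π.norm := Int.natCast_dvd.2 hd
  by_cases h : (p : ℤ) ∣ 2 * D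
  · exact bad p hp h π hd
  have := Fact.mk hp
  have d3 : p ≠ 2 := fun e => h (by rw [e]; exact dvd_mul_right _ _)
  have d4 : (p : G) ∣ π * star π := by
    obtain ⟨c, hc⟩ := hd
    exact ⟨c, by rw [← Zsqrtd.norm_eq_mul_conj, hc, Int.cast_mul, Int.cast_natCast]⟩
  by_cases h4 : p % 4 = 1
  · obtain ⟨z, ρ, χ, hq⟩ := QF.exists_qc h4
    have z1 := QF.f3_prime hp hq.norm
    have hz : φ z = φ' z := (hφ.qc p z ρ χ hq fun e => h (e.mul_left _)).trans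
      (hφ'.qc p z ρ χ hq fun e => h (e.mul_left _)).symm
    rcases z1.dvd_or_dvd ((Dvd.intro _ (QF.f3_mul hq.norm)).trans d4) with e | e
    · exact ass z z1 e hz
    · exact ass _ (QF.f3_prime hp ((Zsqrtd.norm_conj z).trans hq.norm)) (QF.f3_star e)
        ((hφ.gch.conj z).trans (hz ▸ (hφ'.gch.conj z).symm))
  · have z1 := (GaussianInt.prime_iff_mod_four_eq_three_of_nat_prime p).2 (by
      have := hp.eq_two_or_odd.resolve_left d3
      omega)
    exact ass _ z1 ((z1.dvd_or_dvd d4).elim id fun k => by simpa using QF.f3_star k)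
      (mul_right_cancel₀ z1.ne_zero ((hφ.gch.int p hp h).trans (hφ'.gch.int p hp h).symm))

/-- The central value vanishes if the root number is minus one. -/
theorem hz_of {D : ℤ} {φ : G → G} (hD : QA.Fam D) (hφ : EU.Phi D φ) (hw : ¬ QA.Wq D) :
    TL.Hz D φ := by
  obtain ⟨ψ, h1, h2, h3, h4⟩ := EA.final4 hD
  obtain ⟨F, f1, f2, f3⟩ := QF.fe4 hD
  exact phi_uniq ⟨h1, h2, h3⟩ hφ ▸ h4 F f1 f2 (f3 hw)

/-- The point has infinite order, given the complex identity and the tame formula. -/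
theorem Dat.point (d : Dat) (hD : QA.Fam d.D) (hw : ¬ QA.Wq d.D) (hφ : EU.Phi d.D d.φ)
    (hW : d.W = -1) (h1 : B2.Stmt.CorankLE (QP.EQ d.D) 1)
    (hq : ∃ q : ℕ, q.Prime ∧ q ≠ 2 ∧ q ≠ 5 ∧ Odd (padicValInt q d.D)) {D' m : ℤ}
    (hD' : QA.Fam D') (ht : 5 * d.D ^ 3 = D' * m ^ 4) (h0 : B2.Stmt.CorankLE (QP.EQ D') 0)
    (gz : GzaS d.S d.mu aG fun m => d.FX.arch (d.FY.hk m)) (ra : RatS d.S) (ta : d.TameS) :
    ¬ ∃ n : ℕ, 0 < n ∧ n * d.pt ∈ EA.LG.lattice := fun hT => by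
  obtain ⟨q, q1, q2, q3, q4⟩ := hq
  obtain ⟨φ', g1, g2, g3, -⟩ := EA.final4 hD'
  obtain ⟨t, M, -, hL⟩ := d.exists_lk hφ
  have : Nonempty (d.U × Fin 2) := ⟨⟨_, d.red_U' isCoprime_one_left⟩, 0⟩
  rw [← d.sum_FX] at hT
  have sy : SymS d.φ fun m => d.FX.arch (d.FY.hk m) :=
    sym_end hL d.FX_ok d.M_pos d.FX_stable d.M_pos d.FY_ok d.FY_stable d.not_eq0 hT
  exact d.point_core hD hD' ht.symm q1 q2 q3 q4 h1 h0 hφ ⟨g1, g2, g3⟩ (hz_of hD hφ hw) hW anY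
    sy gz ra ta

end Pool.Agent.Lib.MP_696deb_nt.Y2
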