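import Pool.Agent.Lib.MP_696deb_nt.QE
import Pool.Agent.Lib.MP_696deb_nt.Eta
import Pool.Agent.Lib.MP_696deb_nt.QF.F6

/-! Theta series with characteristics of the Gaussian lattice and their transformation law. -/

set_option autoImplicit false

open Complex
open scoped Real

namespace Pool.Agent.Lib.MP_696deb_nt.Y2

open QF (G ii ip)

/-- A term of the theta series in one variable. -/
noncomputable def t1T (p q : ℤ) (u v : ℝ) (z : ℂ) (n : ℤ) : ℂ :=
  q1 (q * n / 2 + (n + p / 2 + u) ^ 2 * z / 2 + (n + p / 2 + u / 2) * v)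

/-- The theta series in one variable. -/
noncomputable def t1 (p q : ℤ) (u v : ℝ) (z : ℂ) : ℂ :=
  q1 ((p / 2 + u) ^ 2 * z / 2 + (p / 2 + u / 2) * v) * jacobiTheta₂ ((p / 2 + u) * z + v + q / 2) z

/-- The theta series in two variables. -/
noncomputable def Th2 (p q : ℤ) (u v z : ℂ) : ℂ := t1 p q u.re v.re z * t1 p q u.im v.im z

/-- The multiplier. -/
def ze (a b c d : ZMod 4) : G :=
  if c = 0 ∨ c = 2 then ip (b * d + d - 1) else ip (a * c + c + 2)

variable {p q : ℤ} {z : ℂ}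

theorem q1_congr {x y : ℂ} (k : ℤ) (h : x = y + k) : q1 x = q1 y := by
  rw [h, q1_add, q1_int, mul_one]

theorem q1_quarter (k : ℤ) : q1 (k / 4) = (ip k : G) := by
  have h4 : q1 (1 / 4) = I := by
    rw [q1, show 2 * π * I * (1 / 4) = π / 2 * I by ring, exp_pi_div_two_mul_I]
  have h1 := ZMod.val_intCast (n := 4) k
  have h2 : (k : ℂ) = ((k : ZMod 4).val : ℕ) + 4 * (k / 4 : ℤ) := by
    exact_mod_cast (show k = (((k : ZMod 4).val : ℕ) : ℤ) + 4 * (k / 4) by omega)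
  rw [q1_congr (y := ((k : ZMod 4).val : ℕ) * (1 / 4)) (k / 4) (by
    conv_lhs => rw [h2]
    ring), q1_nat_mul, h4, ip, map_pow, ii, GaussianInt.toComplex_def']
  simp

theorem hasSum_t1 (hz : 0 < z.im) (p q : ℤ) (u v : ℝ) : HasSum (t1T p q u v z) (t1 p q u v z) := by
  refine ((hasSum_jacobiTheta₂_term _ hz).mul_left _).congr_fun fun n => ?_
  rw [t1T, jacobiTheta₂_term, q1, q1, ← exp_add]
  congr 1
  ring

theorem t1_q (hz : 0 < z.im) (u v : ℝ) (k : ℤ) : t1 p (q + 2 * k) u v z = t1 p q u v z := by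
  refine (hasSum_t1 hz ..).unique ((hasSum_t1 hz p q u v).congr_fun fun n => ?_)
  exact q1_congr (k * n) (by push_cast; ring)

theorem t1_p (hz : 0 < z.im) (u v : ℝ) (k : ℤ) :
    t1 (p + 2 * k) q u v z = q1 (-(q * k) / 2) * t1 p q u v z := by
  refine (hasSum_t1 hz ..).unique ?_
  refine (((Equiv.addRight k).hasSum_iff.2 (hasSum_t1 hz p q u v)).mul_left _).congr_fun fun n => ?_
  rw [Function.comp, t1T, t1T, ← q1_add]
  congr 1
  simp only [Equiv.coe_addRight]
  push_cast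
  ring

theorem t1_T (hz : 0 < z.im) (u v : ℝ) :
    t1 p q u v (z + 1) = q1 (p ^ 2 / 8) * t1 p (q + 1 + p) u (u + v) z := by
  refine (hasSum_t1 (by simpa using hz) ..).unique
    (((hasSum_t1 hz p (q + 1 + p) u (u + v)).mul_left _).congr_fun fun n => ?_)
  obtain ⟨k, hk⟩ := Int.even_mul_pred_self n
  have hk' : (n : ℂ) * (n - 1) = k + k := by exact_mod_cast hk
  rw [t1T, t1T, ← q1_add]
  exact q1_congr k (by push_cast; linear_combination hk' / 2)

theorem t1_S (hz : 0 < z.im) (u v : ℝ) : t1 p q u v (-1 / z) =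
    (-I * z) ^ (1 / 2 : ℂ) * q1 (-(p * q) / 4) * t1 q (-p) v (-u) z := by
  have z0 : z ≠ 0 := fun h => by simp [h] at hz
  have s0 : (-I * z) ^ (1 / 2 : ℂ) ≠ 0 :=
    cpow_ne_zero_iff.2 (.inl (mul_ne_zero (neg_ne_zero.2 I_ne_zero) z0))
  rw [t1, t1, jacobiTheta₂_functional_equation _ z]
  have e : ((q / 2 + v) * z + (-u : ℝ) + (-p : ℤ) / 2) / z =
      (p / 2 + u) * (-1 / z) + v + q / 2 := by
    push_cast
    field_simp
    ring
  rw [e]
  generalize jacobiTheta₂ _ (-1 / z) = J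
  generalize (-I * z) ^ (1 / 2 : ℂ) = s at s0
  have e2 : q1 ((p / 2 + u) ^ 2 * (-1 / z) / 2 + (p / 2 + u / 2) * v) = q1 (-(p * q) / 4) *
      (q1 ((q / 2 + v) ^ 2 * z / 2 + (q / 2 + v / 2) * (-u : ℝ)) *
        cexp (-π * I * ((q / 2 + v) * z + (-u : ℝ) + (-p : ℤ) / 2) ^ 2 / z)) := by
    rw [q1, q1, q1, ← exp_add, ← exp_add]
    congr 1
    push_cast
    field_simp
    ring
  rw [e2]
  field_simp

theorem Th2_q (hz : 0 < z.im) (u v : ℂ) {q' : ℤ} (h : 2 ∣ q' - q) :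
    Th2 p q' u v z = Th2 p q u v z := by
  obtain ⟨k, hk⟩ := h
  rw [Th2, Th2, show q' = q + 2 * k by omega, t1_q hz, t1_q hz]

theorem Th2_p (hz : 0 < z.im) (u v : ℂ) {p' : ℤ} (h : 2 ∣ p' - p) :
    Th2 p' q u v z = Th2 p q u v z := by
  obtain ⟨k, hk⟩ := h
  rw [Th2, Th2, show p' = p + 2 * k by omega, t1_p hz, t1_p hz, mul_mul_mul_comm, ← q1_add,
    show (-(q * k) / 2 + -(q * k) / 2 : ℂ) = (-(q * k) : ℤ) by push_cast; ring, q1_int, one_mul]

theorem Th2_T (hz : 0 < z.im) (u v : ℂ) :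
    Th2 p q u v (z + 1) = (ip (p ^ 2) : G) * Th2 p (q + 1 + p) u (u + v) z := by
  rw [Th2, Th2, t1_T hz, t1_T hz, mul_mul_mul_comm, ← q1_add, ← Int.cast_pow (R := ZMod 4),
    ← q1_quarter, add_re, add_im]
  congr 2
  push_cast
  ring

theorem Th2_S (hz : 0 < z.im) (u v : ℂ) :
    Th2 p q u v (-1 / z) = (ip (3 - 2 * p * q) : G) * z * Th2 q (-p) v (-u) z := by
  have z0 : -I * z ≠ 0 := mul_ne_zero (neg_ne_zero.2 I_ne_zero) fun h => by simp [h] at hz
  have e := q1_quarter (3 - 2 * p * q)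
  have e3 := q1_quarter 3
  have e4 : ((ip ((3 : ℤ) : ZMod 4) : G) : ℂ) = -I := by
    rw [show ip ((3 : ℤ) : ZMod 4) = ⟨0, -1⟩ by decide, GaussianInt.toComplex_def']
    simp
  push_cast at e
  rw [Th2, t1_S hz, t1_S hz, mul_mul_mul_comm, mul_mul_mul_comm (_ ^ _), ← cpow_add _ _ z0,
    add_halves, cpow_one, Th2, neg_re, neg_im, ← e,
    show ((3 - 2 * p * q) / 4 : ℂ) = (3 : ℤ) / 4 + (-(p * q) / 4 + -(p * q) / 4) by
      push_cast; ring, q1_add, q1_add, e3, e4]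
  ring

theorem ze_T : ∀ a b c d : ZMod 4, a * d - b * c = 1 →
    ze a (a + b) c (c + d) = ze a b c d * ip ((1 + c) ^ 2) := by decide +kernel

theorem ze_S : ∀ a b c d : ZMod 4, a * d - b * c = 1 →
    ze b (-a) d (-c) = ze a b c d * ip (3 - 2 * (1 + c) * (1 + d)) := by decide +kernel

/-- The transformation law under one matrix. -/
def Law (a b c d : ℤ) : Prop := a * d - b * c = 1 ∧ ∀ u v z : ℂ, 0 < z.im →
  Th2 1 0 u v (mob a b c d z) =
    (ze a b c d : G) * (c * z + d) * Th2 (1 + c) (1 + d) (u * a + v * c) (u * b + v * d) z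

variable {a b c d : ℤ}

theorem Law.T (h : Law a b c d) : Law a (a + b) c (c + d) := by
  refine ⟨by linear_combination h.1, fun u v z hz => ?_⟩
  have h4 := ze_T a b c d (by exact_mod_cast congr_arg (Int.cast : ℤ → ZMod 4) h.1)
  have e : mob a (a + b) c (c + d) z = mob a b c d (z + 1) := by
    rw [mob, mob]
    congr 1 <;> push_cast <;> ring
  rw [e, h.2 u v _ (by simpa using hz), Th2_T hz, Th2_q (q := 1 + (c + d)) hz _ _ (by omega)]
  push_cast
  rw [h4, map_mul, show u * a + v * c + (u * b + v * d) = u * (a + b) + v * (c + d) by ring]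
  ring

theorem Law.S (h : Law a b c d) : Law b (-a) d (-c) := by
  refine ⟨by linear_combination h.1, fun u v z hz => ?_⟩
  have z0 : z ≠ 0 := fun h => by simp [h] at hz
  have h4 := ze_S a b c d (by exact_mod_cast congr_arg (Int.cast : ℤ → ZMod 4) h.1)
  have e0 : -1 / z = mob 0 (-1) 1 0 z := by simp [mob]
  have e : mob b (-a) d (-c) z = mob a b c d (-1 / z) := by
    rw [e0, mob_mob (by norm_num) _ _ _ _ hz]
    congr 1 <;> ring
  rw [e, h.2 u v _ (e0 ▸ im_mob_pos (by norm_num) hz), Th2_S hz,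
    Th2_q (q := 1 + -c) hz _ _ (by omega)]
  push_cast
  rw [h4, map_mul, show -(u * a + v * c) = u * -a + v * -c by ring]
  field_simp
  ring

theorem law (h : a * d - b * c = 1) : Law a b c d := by
  have h1 : Law 1 0 0 1 := ⟨by norm_num, fun u v z hz => by
    rw [show ze ((1 : ℤ) : ZMod 4) ((0 : ℤ) : ZMod 4) ((0 : ℤ) : ZMod 4) ((1 : ℤ) : ZMod 4) = 1 by
      decide, Th2_q (q := 0) (q' := 1 + 1) hz _ _ (by omega)]
    simp [mob]⟩
  refine euclid (N := 1) (.inl rfl) Law (fun a b c d _ => ⟨fun H => ?_, fun H => ?_⟩)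
    (fun a b c d _ => ⟨fun H => ?_, fun H => ?_⟩) h1 ?_ a b c d (by simpa using h)
  · simpa using H.T
  · convert H.S.T.S.T.S.S.S using 1 <;> ring
  · convert H.T.S.T using 1 <;> ring
  · convert H.S.T.S.S.S using 1 <;> ring
  · simpa using h1.S.S

theorem hasSum_Th2 (hz : 0 < z.im) (p q : ℤ) (u v : ℂ) :
    HasSum (fun b : G => t1T p q u.re v.re z b.re * t1T p q u.im v.im z b.im) (Th2 p q u v z) := by
  have h := QF.f6_mul (hasSum_t1 hz p q u.re v.re) (hasSum_t1 hz p q u.im v.im)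
  exact h

end Pool.Agent.Lib.MP_696deb_nt.Y2
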