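import Pool.Agent.Lib.MP_696deb_nt.EU.K0
import Pool.Agent.Lib.MP_696deb_nt.QA.D0

/-! Dirichlet series of periodic functions and their values at one. -/

set_option autoImplicit false

open scoped Classical NNReal ComplexConjugate
open Finset

namespace Pool.Agent.Lib.MP_696deb_nt.Y2.TL

export EA (jc cp Om LG Es IsRep Ph be exists_rep dl)

open EU

/-- The series of a function on the Gaussian integers. -/
noncomputable def DS (g : O → ℂ) (s : ℂ) : ℂ := ∑' γ : O, g γ * conj (γ : ℂ) / (nm γ : ℂ) ^ s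

/-- The double series with a weight. -/
noncomputable def DD (W g h : O → ℂ) (s : ℂ) : ℂ :=
  ∑' p : O × O, W (p.1 * p.2) * (g p.1 * conj (p.1 : ℂ)) * (h p.2 * (p.2 : ℂ)) /
    (nm (p.1 * p.2) : ℂ) ^ s

/-- Functions on a half plane that extend to entire functions. -/
def Ent (F : ℂ → ℂ) : Prop := ∃ L : ℂ → ℂ, Differentiable ℂ L ∧ ∀ s : ℂ, 2 < s.re → L s = F s

/-- The value at one of the entire extension. -/
noncomputable def val1 (F : ℂ → ℂ) : ℂ := if h : Ent F then h.choose 1 else 0

/-- Periodic functions. -/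
def Pd {β : Type} (n : O) (g : O → β) : Prop := ∀ a b, n ∣ a - b → g a = g b

/-- The value at one of the series. -/
noncomputable def Lc (g : O → ℂ) : ℂ := val1 (DS g)

/-- The algebraic value of the Eisenstein-Kronecker function at a torsion point. -/
noncomputable def Zt (P : A) : Qbar :=
  if h : ∃ ζ : Qbar, ∀ z, cp P = EA.un z → jc ζ = Es LG z then h.choose else 0

/-- The algebraic part of the value at one. -/
noncomputable def Lq (g : O → Qbar) : Qbar :=
  if h : ∃ B : Qbar, Lc (fun a => jc (g a)) = Om * jc B then h.choose else 0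

/-- The tame weight. -/
noncomputable def tw {r : TP} {u : ℕ} (x : Ix r u) (a : O) : ℕ :=
  if r.π ∣ a then 0 else (x.ind a).val

/-- A function with the support restricted to the elements prime to five. -/
noncomputable def c5 (φ : O → O) (a : O) : O := if IsCoprime a 5 then φ a else 0

/-- The conjugate character with algebraic values. -/
noncomputable def ch (φ : O → O) (a : O) : Qbar := io (star (φ a))

/-- A function with the multiples of an element removed from the support. -/
noncomputable def cut (δ : O) (ψ : O → Qbar) (a : O) : Qbar := if δ ∣ a then 0 else ψ a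

/-- Periodic multiplicative functions with integral values. -/
structure Mu (m : O) (ψ : O → Qbar) : Prop where
  per : Pd m ψ
  mul : ∀ a b, ψ (a * b) = ψ a * ψ b
  zero : ψ 0 = 0
  le : ∀ a, w2.V (ψ a) ≤ 1

/-- A bound for the algebraic parts at level `m` times an odd element. -/
def Bd (m : O) (K : ℝ≥0) : Prop := ∀ n : O, Q4.red n = 1 → ∀ g : O → Qbar, Pd (m * n) g → g 0 = 0 →
  ∀ ε : ℝ≥0, (∀ a, w2.V (g a) ≤ ε) → w2.V (Lq g) ≤ K * ε

/-- Numbers that stay large along a family of admissible primes. -/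
def Big (D : ℤ) (φ : O → O) (b : O) (f : ∀ (u : ℕ) (r : TP), Ix r u → Qbar) : Prop :=
  ∃ δ : ℝ≥0, 0 < δ ∧ ∀ v, ∃ u ≥ v, ∃ (r : TP) (x : Ix r u), AdmR D φ b r u ∧ δ ≤ w2.V (f u r x)

/-- The tame double series of two characters. -/
noncomputable def TD (φ φ' : O → O) {r : TP} {u : ℕ} (x : Ix r u) (a0 : O) : ℂ → ℂ :=
  DD (fun a => (tw x (a0 * a) : ℂ)) (fun a => conj (c5 φ a : ℂ)) fun a => (c5 φ' a : ℂ)

theorem Pd.mono {β : Type} {n n' : O} {g : O → β} (h : Pd n g) (k : n ∣ n') : Pd n' g :=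
  fun a b e => h a b (k.trans e)

theorem Pd.per {β : Type} {n : ℕ} {g : O → β} (h : Pd n g) : Per n g :=
  fun _ γ => h _ _ ⟨γ, add_sub_cancel_left _ _⟩

theorem tw_pd {r : TP} {u : ℕ} (x : Ix r u) : Pd r.π (tw x) := fun a b e => by
  have k : r.π ∣ a ↔ r.π ∣ b := ⟨fun k => by simpa using dvd_sub k e, fun k => by
    simpa using dvd_add e k⟩
  simp only [tw, k, x.per a b e]

theorem tw_mul {r : TP} {u : ℕ} (x : Ix r u) {a b : O} (ha : ¬ r.π ∣ a) (hb : ¬ r.π ∣ b) :
    ∃ e : ℤ, (tw x (a * b) : ℤ) = tw x a + tw x b + 2 ^ u * e := by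
  have k : ¬ r.π ∣ a * b := fun e => (r.prime.dvd_or_dvd e).elim ha hb
  have : ((2 ^ u : ℕ) : ℤ) ∣ (tw x (a * b) : ℤ) - (tw x a + tw x b) := by
    rw [← ZMod.intCast_zmod_eq_zero_iff_dvd]
    simp [tw, k, ha, hb, x.mul a b ha hb]
  obtain ⟨e, he⟩ := this
  exact ⟨e, by rw [Nat.cast_pow, Nat.cast_ofNat] at he; linear_combination he⟩

end Pool.Agent.Lib.MP_696deb_nt.Y2.TL
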