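import Pool.Agent.Lib.MP_696deb_nt.Y2.TL1b

/-! The value at one as a finite sum. -/

set_option autoImplicit false

open scoped Classical NNReal ComplexConjugate Real
open Finset Filter Topology

namespace Pool.Agent.Lib.MP_696deb_nt.Y2.TL

open EU

theorem tl1_Ph {n : O} {R : Finset O} (hR : IsRep n R) {g : O → ℂ} (hg : Pd n g) (h0 : g 0 = 0) :
    Tendsto (Ph fun a => g (star a)) (𝓝[>] 0)
      (𝓝 (Om / n * ∑ a ∈ R, g a * Es LG (Om * a / n))) := by
  have n0 := EA.coe_ne hR.ne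
  have n1 := norm_pos_iff.2 n0
  have O1 := EA.Om_ne
  have O0 := norm_pos_iff.2 O1
  have hc : 0 < ‖(n : ℂ)‖ ^ 2 / ‖Om‖ ^ 2 := by positivity
  have sc : Tendsto (fun t : ℝ => ‖(n : ℂ)‖ ^ 2 / ‖Om‖ ^ 2 * t) (𝓝[>] 0) (𝓝[>] 0) :=
    tendsto_nhdsWithin_iff.2 ⟨(Continuous.tendsto' (by fun_prop) 0 _ (mul_zero _)).mono_left
      nhdsWithin_le_nhds, eventually_mem_nhdsWithin.mono fun t ht => mul_pos hc ht⟩
  have h1 : Tendsto (fun t : ℝ => Om / n * ∑ a ∈ R,
      g a * EA.St LG (‖(n : ℂ)‖ ^ 2 / ‖Om‖ ^ 2 * t) (Om * a / n)) (𝓝[>] 0)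
      (𝓝 (Om / n * ∑ a ∈ R, g a * Es LG (Om * a / n))) := by
    refine Tendsto.const_mul _ (tendsto_finsetSum _ fun a _ => ?_)
    by_cases e : n ∣ a
    · simp [hg a 0 (by rwa [sub_zero]), h0]
    · exact Tendsto.const_mul _ ((EA.tendsto_St fun k => e ((EA.div_mem_LG hR.ne).1 k)).comp sc)
  refine h1.congr' ((sc.eventually (Ioc_mem_nhdsGT one_pos)).mono fun t ht => ?_)
  have h2 := hR.split (F := fun α => g α * conj (α : ℂ) *
      (Real.exp (-π * t * (α.norm : ℝ)) : ℝ) / (α.norm : ℝ))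
    (s := fun a => Om / n * (g a * EA.St LG (‖(n : ℂ)‖ ^ 2 / ‖Om‖ ^ 2 * t) (Om * a / n)))
    fun a _ => by
    refine (((EA.hasSum_St ht.1 ht.2 (Om * a / n)).mul_left _).mul_left _).congr_fun fun γ => ?_
    have e : Om * a / n + Om * γ = Om / n * ((a + n * γ : O) : ℂ) := by
      rw [map_add, map_mul]
      field_simp
    rw [e, ← hg (a + n * γ) a ⟨γ, add_sub_cancel_left _ _⟩]
    generalize a + n * γ = α
    have e2 : EA.gs (‖(n : ℂ)‖ ^ 2 / ‖Om‖ ^ 2 * t) (Om / n * α) =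
        Real.exp (-π * t * (α.norm : ℝ)) := by
      rw [EA.gs, GaussianInt.intCast_real_norm, Complex.normSq_eq_norm_sq, norm_mul, norm_div]
      congr 1
      field_simp
    rw [e2, GaussianInt.intCast_real_norm, ← Complex.mul_conj]
    rcases eq_or_ne (α : ℂ) 0 with k | k
    · simp [k]
    · have k2 : conj (α : ℂ) ≠ 0 := (map_ne_zero _).2 k
      field_simp
  simp only [← mul_sum] at h2
  rw [← h2.tsum_eq, Ph, ← (Function.Involutive.toPerm _ star_star).tsum_eq]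
  simp only [Function.Involutive.coe_toPerm, GaussianInt.toComplex_star, Complex.conj_conj,
    Zsqrtd.norm_conj]

theorem Lc_rep {n : O} {R : Finset O} (hR : IsRep n R) {g : O → ℂ} (hg : Pd n g) (h0 : g 0 = 0) :
    Lc g = Om / n * ∑ a ∈ R, g a * Es LG (Om * a / n) := by
  obtain ⟨L, h1, h2, h3⟩ := DS_ent' hR.ne hg
  rw [Lc, val1_eq h1 fun s hs => h2 s (by linarith)]
  exact tendsto_nhds_unique h3 (tl1_Ph hR hg h0)

end Pool.Agent.Lib.MP_696deb_nt.Y2.TL
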