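import Pool.Agent.Lib.MP_696deb_nt.Y2.TL0

/-! Values at one of entire extensions. -/

set_option autoImplicit false

open scoped Classical NNReal ComplexConjugate Real
open Finset Filter Topology

namespace Pool.Agent.Lib.MP_696deb_nt.Y2.TL

open EU

theorem val1_eq {F L : ℂ → ℂ} (hL : Differentiable ℂ L) (h : ∀ s : ℂ, 2 < s.re → L s = F s) :
    val1 F = L 1 := by
  have k : Ent F := ⟨L, hL, h⟩
  rw [val1, dif_pos k]
  refine congrFun (AnalyticOnNhd.eq_of_eventuallyEq (fun z _ => k.choose_spec.1.analyticAt z)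
    (fun z _ => hL.analyticAt z) (z₀ := 3) ?_) 1
  filter_upwards [(isOpen_lt continuous_const Complex.continuous_re).mem_nhds
    (show (3 : ℂ) ∈ {s : ℂ | (2 : ℝ) < s.re} by norm_num)] with s hs
  rw [k.choose_spec.2 s hs, h s hs]

theorem val1_mul {F Λ c : ℂ → ℂ} (hF : Ent F) (hΛ : Differentiable ℂ Λ)
    (hc : DifferentiableOn ℂ c {s | 0 < s.re}) {σ : ℝ} (h : ∀ s : ℂ, σ < s.re → Λ s = c s * F s) :
    Λ 1 = c 1 * val1 F := by
  obtain ⟨L, hL, k⟩ := hF
  rw [val1_eq hL k]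
  have o : IsOpen {s : ℂ | 0 < s.re} := isOpen_lt continuous_const Complex.continuous_re
  have m : ((max σ 2 + 1 : ℝ) : ℂ) ∈ {s : ℂ | max σ 2 < s.re} := lt_add_one (max σ 2)
  refine AnalyticOnNhd.eqOn_of_preconnected_of_eventuallyEq (f := Λ) (g := fun s => c s * L s)
    (hΛ.differentiableOn.analyticOnNhd o) ((hc.mul hL.differentiableOn).analyticOnNhd o)
    (convex_halfSpace_re_gt 0).isPreconnected (z₀ := (max σ 2 + 1 : ℝ))
    (lt_trans (lt_of_lt_of_le two_pos (le_max_right σ 2)) m) ?_ (show (0 : ℝ) < (1 : ℂ).re by simp)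
  filter_upwards [(isOpen_lt continuous_const Complex.continuous_re).mem_nhds m] with s hs
  rw [h s ((le_max_left _ _).trans_lt hs), k s ((le_max_right _ _).trans_lt hs)]

theorem Pd.bd {n : O} (hn : n ≠ 0) {g : O → ℂ} (hg : Pd n g) : ∃ K : ℝ, 0 < K ∧ ∀ a, ‖g a‖ ≤ K := by
  obtain ⟨R, hR, -⟩ := exists_rep hn
  refine ⟨∑ r ∈ R, ‖g r‖ + 1, by positivity, fun a => ?_⟩
  obtain ⟨r, hr, e⟩ := hR.ex a
  rw [hg a r e]
  exact (single_le_sum (f := fun r => ‖g r‖) (fun _ _ => norm_nonneg _) hr).trans (lt_add_one _).le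

theorem DS_sum {g : O → ℂ} {K : ℝ} (hg : ∀ a, ‖g a‖ ≤ K) {s : ℂ} (hs : 3 / 2 < s.re) :
    Summable fun γ : O => ‖g γ * conj (γ : ℂ) / (nm γ : ℂ) ^ s‖ := by
  refine .of_nonneg_of_le (fun _ => norm_nonneg _) (fun γ => ?_)
    ((QF.f7_sum (f := fun _ => 1) (fun _ => norm_one.le) one_pos hs).mul_left K)
  have e : (nm γ : ℝ) = (γ.norm : ℝ) := by
    rw [nm, Nat.cast_natAbs, abs_of_nonneg (GaussianInt.norm_nonneg γ)]
  rw [norm_div, Complex.norm_natCast_cpow_of_re_ne_zero _ (by linarith), norm_mul, RCLike.norm_conj,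
    one_mul, one_mul, e, mul_div_assoc]
  exact mul_le_mul_of_nonneg_right (hg γ) (div_nonneg (norm_nonneg _) (Real.rpow_nonneg
    (by exact_mod_cast GaussianInt.norm_nonneg γ) _))

end Pool.Agent.Lib.MP_696deb_nt.Y2.TL
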