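import Pool.Agent.Lib.MP_696deb_nt.Y2.TL1a

/-! The entire extension of the series of a periodic function. -/

set_option autoImplicit false

open scoped Classical NNReal ComplexConjugate Real
open Finset Filter Topology

namespace Pool.Agent.Lib.MP_696deb_nt.Y2.TL

open EU

open Complex MeasureTheory QF EA in
theorem tl1b_an {f f' : O → ℂ} (bd : ∀ α, ‖f α‖ ≤ 1) (bd' : ∀ α, ‖f' α‖ ≤ 1) {l : ℝ} (hl : 0 < l)
    {w : ℂ} (hw : w ≠ 0) (fe : ∀ t : ℝ, 0 < t → th f (l / t) = w * t ^ 2 * th f' (l * t)) :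
    ∃ L : ℂ → ℂ, Differentiable ℂ L ∧ (∀ s : ℂ, 3 / 2 < s.re →
      HasSum (fun α : O => f α * (α : ℂ) / (nm α : ℂ) ^ s) (L s)) ∧
      Tendsto (Ph f) (𝓝[>] 0) (𝓝 (L 1)) := by
  have hi : ∀ {f : O → ℂ}, (∀ α, ‖f α‖ ≤ 1) →
      LocallyIntegrableOn (fun t => th f (l * t)) (Set.Ioi 0) := fun bd =>
    ((f7_cont bd).comp (by fun_prop) fun t ht => mul_pos hl ht).locallyIntegrableOn
      measurableSet_Ioi
  have ht : ∀ {f : O → ℂ}, (∀ α, ‖f α‖ ≤ 1) → ∀ r : ℝ,
      (fun t => th f (l * t) - 0) =O[Filter.atTop] (· ^ r) := fun {f} bd r => by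
    refine Asymptotics.IsBigO.trans ?_
      (isLittleO_exp_neg_mul_rpow_atTop (mul_pos Real.pi_pos hl) r).isBigO
    refine .of_bound ((∑' α : O, ‖f α * (α : ℂ) * (Real.exp (-π * l * (α.norm : ℝ)) : ℝ)‖) *
      Real.exp (π * l)) ((Filter.eventually_ge_atTop 1).mono fun t h => ?_)
    rw [sub_zero, Real.norm_of_nonneg (Real.exp_pos _).le, mul_assoc, ← Real.exp_add]
    convert f7_bound bd hl (le_mul_of_one_le_right hl.le h) using 3
    ring
  let P : WeakFEPair ℂ := ⟨fun t => th f (l * t), fun t => th f' (l * t), 2, w, 0, 0, hi bd,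
    hi bd', two_pos, hw, fun x hx => by
      rw [mul_one_div, fe x hx, Real.rpow_two, ofReal_pow, smul_eq_mul], ht bd, ht bd'⟩
  have hP : IsStrongFEPair P := ⟨rfl, rfl⟩
  have l0 : (l : ℂ) ≠ 0 := ofReal_ne_zero.2 hl.ne'
  have p0 : (π : ℂ) ≠ 0 := ofReal_ne_zero.2 Real.pi_ne_zero
  refine ⟨fun s => π ^ s * l ^ s * (Gamma s)⁻¹ * P.Λ s,
    (((differentiable_id.const_cpow (.inl p0)).mul (differentiable_id.const_cpow (.inl l0))).mul
      differentiable_one_div_Gamma).mul hP.differentiable_Λ, fun s hs => ?_, ?_⟩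
  · have s0 : 0 < s.re := by linarith
    have h1 := (hasSum_mellin_pi_mul (a := fun α : O => f α * (α : ℂ))
      (q := fun α => l * (α.norm : ℝ)) (F := P.f) (fun α => (eq_or_ne α 0).imp
        (fun e => by simp [e]) fun e => mul_pos hl (by exact_mod_cast GaussianInt.norm_pos.2 e))
      s0 (fun t ht => (summable_th bd (mul_pos hl ht)).of_norm.hasSum.congr_fun fun α => by
        congr 3
        ring) (f7_sum bd hl hs)).mul_left (π ^ s * l ^ s * (Gamma s)⁻¹)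
    simp only [hP.Λ_eq]
    refine h1.congr_fun fun α => ?_
    have g0 := Gamma_ne_zero_of_re_pos s0
    have := cpow_ne_zero_iff.2 (.inl p0 : _ ∨ s = 0)
    have := cpow_ne_zero_iff.2 (.inl l0 : _ ∨ s = 0)
    rw [ofReal_mul, mul_cpow_ofReal_nonneg hl.le (by exact_mod_cast GaussianInt.norm_nonneg α),
      cpow_neg, nm, GaussianInt.natCast_natAbs_norm, ofReal_intCast]
    field_simp
  · have h1 : IntegrableOn (fun t => th f (l * t)) (Set.Ioi 0) := by
      simpa [MellinConvergent, P] using (hP.hasMellin 1).1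
    have h2 := ((h1.continuousWithinAt_Ici_primitive_Ioi.mono Set.Ioi_subset_Ici_self).tendsto.comp
      (show Tendsto (fun t : ℝ => t / l) (𝓝[>] 0) (𝓝[>] 0) from
        tendsto_nhdsWithin_iff.2 ⟨(Continuous.tendsto' (by fun_prop) 0 _ (zero_div l)).mono_left
          nhdsWithin_le_nhds, eventually_mem_nhdsWithin.mono fun t ht => div_pos ht hl⟩)).const_mul
      (π * l : ℂ)
    convert h2.congr' (eventually_mem_nhdsWithin.mono fun t ht => ?_) using 2
    · simp only [hP.Λ_eq, mellin, cpow_one, Gamma_one, sub_self, cpow_zero, one_smul, P]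
      ring
    · rw [Function.comp_apply, ← k3_int bd hl (div_pos ht hl), mul_div_cancel₀ _ hl.ne']

open Complex QF in
theorem tl1b_per {M : ℕ} (hM : 0 < M) {f : O → ℂ} (per : Per M f) (bd : ∀ α, ‖f α‖ ≤ 1) :
    ∃ L : ℂ → ℂ, Differentiable ℂ L ∧ (∀ s : ℂ, 3 / 2 < s.re →
      HasSum (fun α : O => f α * (α : ℂ) / (nm α : ℂ) ^ s) (L s)) ∧
      Tendsto (Ph f) (𝓝[>] 0) (𝓝 (L 1)) := by
  have M0 : (0 : ℝ) < M := by positivity
  have M1 : (M : ℂ) ≠ 0 := by exact_mod_cast hM.ne'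
  have b : ∀ ξ, ‖FT M f ξ‖ ≤ M ^ 2 := fun ξ => by
    refine (norm_sum_le_of_le _ fun x _ => norm_sum_le_of_le (n := fun _ => (1 : ℝ)) _
      fun y _ => ?_).trans_eq (by simp [pow_two])
    generalize (x * ξ.re + y * ξ.im : ℤ) = k
    rw [norm_mul, show 2 * π * I * (k : ℂ) / M = ((2 * π * k / M : ℝ) : ℂ) * I by
      push_cast; ring, norm_exp_ofReal_mul_I, mul_one]
    exact bd _
  refine tl1b_an (f' := fun ξ => ((M : ℂ) ^ 2)⁻¹ * FT M f ξ) bd (fun ξ => ?_) (inv_pos.2 M0)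
    (w := -I * M) (mul_ne_zero (neg_ne_zero.2 I_ne_zero) M1) fun t ht => ?_
  · rw [norm_mul, norm_inv, norm_pow, norm_natCast]
    exact inv_mul_le_one_of_le₀ (b ξ) (by positivity)
  · have t1 : (t : ℂ) ≠ 0 := by exact_mod_cast ht.ne'
    have e : th (fun ξ => ((M : ℂ) ^ 2)⁻¹ * FT M f ξ) ((M : ℝ)⁻¹ * t) =
        ((M : ℂ) ^ 2)⁻¹ * th (FT M f) ((M : ℝ)⁻¹ * t) := by
      rw [th, th, ← tsum_mul_left]
      simp only [mul_assoc]
    rw [poisson hM per (div_pos (inv_pos.2 M0) ht), e,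
      show 1 / ((M : ℝ) ^ 2 * ((M : ℝ)⁻¹ / t)) = (M : ℝ)⁻¹ * t by field_simp]
    push_cast
    field_simp

theorem DS_ent' {n : O} (hn : n ≠ 0) {g : O → ℂ} (hg : Pd n g) :
    ∃ L : ℂ → ℂ, Differentiable ℂ L ∧ (∀ s : ℂ, 3 / 2 < s.re → L s = DS g s) ∧
      Tendsto (Ph fun a => g (star a)) (𝓝[>] 0) (𝓝 (L 1)) := by
  obtain ⟨K, K0, hK⟩ := hg.bd hn
  have K1 : (K : ℂ) ≠ 0 := Complex.ofReal_ne_zero.2 K0.ne'
  have d : n ∣ (nm n : O) := ⟨star n, by
    rw [nm, GaussianInt.natCast_natAbs_norm, Zsqrtd.norm_eq_mul_conj]⟩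
  obtain ⟨L, h1, h2, h3⟩ := tl1b_per (M := nm n) (f := fun a => (K : ℂ)⁻¹ * g (star a))
    (Int.natAbs_pos.2 (GaussianInt.norm_pos.2 hn).ne') (fun α γ => congrArg _ (hg _ _ (by
      rw [star_add, add_sub_cancel_left, star_mul', star_natCast]
      exact d.mul_right _))) fun α => by
      rw [norm_mul, norm_inv, Complex.norm_real, Real.norm_of_nonneg K0.le]
      exact inv_mul_le_one_of_le₀ (hK _) K0.le
  refine ⟨fun s => K * L s, h1.const_mul _, fun s hs => ?_,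
    (h3.const_mul (K : ℂ)).congr fun t => ?_⟩
  · refine (((star_involutive (R := O)).toPerm.hasSum_iff.2 ((h2 s hs).mul_left (K : ℂ))).congr_fun
      fun γ => ?_).tsum_eq.symm
    simp only [Function.comp_apply, Function.Involutive.coe_toPerm, star_star, nm, Zsqrtd.norm_conj,
      GaussianInt.toComplex_star]
    field_simp
  · rw [Ph, Ph, ← tsum_mul_left]
    refine tsum_congr fun α => ?_
    field_simp

theorem DS_ent {n : O} (hn : n ≠ 0) {g : O → ℂ} (hg : Pd n g) : Ent (DS g) :=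
  (DS_ent' hn hg).imp fun _ h => ⟨h.1, fun s hs => h.2.1 s (by linarith)⟩

end Pool.Agent.Lib.MP_696deb_nt.Y2.TL
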