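import Pool.Agent.Lib.MP_696deb_nt.Y2.TL0

/-! Algebraic values of the Eisenstein-Kronecker function. -/

set_option autoImplicit false

open scoped Classical NNReal ComplexConjugate
open Finset

namespace Pool.Agent.Lib.MP_696deb_nt.Y2.TL

open EU

theorem tl2a_es {P : A} (h0 : P ≠ 0) {z z' : ℂ} (hz : cp P = EA.un z) (hz' : cp P = EA.un z') :
    Es LG z' = Es LG z := by
  have := EA.Es_add (L := LG) (mt (EA.cp_ne hz).1 h0) (w := z' - z)
    (EA.un_eq_zero.1 (by rw [map_sub, ← hz, ← hz', sub_self]))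
  rwa [add_sub_cancel] at this

theorem tl2a_red (n : O) : Q4.red (1 + 2 * n) = 1 := EA.red_iff.2 (by simp)

theorem tl2a_fix {n : O} {P : A} (hP : n • P = 0) : (1 + 2 * n) • P = P := by
  rw [add_smul, one_smul, mul_smul, hP, smul_zero, add_zero]

theorem tl2a_key {n : O} {P : A} (hP : n • P = 0) (h0 : P ≠ 0) {z : ℂ} (hz : cp P = EA.un z) :
    jc (io ((1 + 2 * n) * (-2 * star n))) * Es LG z = jc (dl (1 + 2 * n) P) := by
  have h := EA.dlog_alg (EA.ne_of_red (tl2a_red n)) hz (by rwa [tl2a_fix hP])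
  rw [tl2a_es h0 hz (tl2a_fix hP ▸ EA.cp_smul (1 + 2 * n) hz)] at h
  rw [EA.dl, ← h, EA.jc_io, show (1 + 2 * n) * (-2 * star n) = 1 + 2 * n - (1 + 2 * n).norm by
    rw [Zsqrtd.norm_eq_mul_conj, star_add, star_mul', star_one, star_ofNat]
    ring, map_sub, map_intCast, sub_mul]

theorem tl2a_ne {n : O} (hn : n ≠ 0) : io ((1 + 2 * n) * (-2 * star n)) ≠ 0 :=
  EA.io_ne (mul_ne_zero (EA.ne_of_red (tl2a_red n)) (mul_ne_zero (by decide) (star_ne_zero.2 hn)))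

theorem Zt_spec {n : O} (hn : n ≠ 0) {P : A} (hP : n • P = 0) (h0 : P ≠ 0) {z : ℂ}
    (hz : cp P = EA.un z) : jc (Zt P) = Es LG z := by
  have h : ∃ ζ : Qbar, ∀ z, cp P = EA.un z → jc ζ = Es LG z :=
    ⟨dl (1 + 2 * n) P / io ((1 + 2 * n) * (-2 * star n)), fun z hz => by
      rw [map_div₀, ← tl2a_key hP h0 hz,
        mul_div_cancel_left₀ _ ((map_ne_zero jc).2 (tl2a_ne hn))]⟩
  rw [Zt, dif_pos h]
  exact h.choose_spec z hz

theorem Zt_ii {n : O} (hn : n ≠ 0) {P : A} (hP : n • P = 0) (h0 : P ≠ 0) :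
    Zt (ii • P) = II * Zt P := by
  obtain ⟨z, hz⟩ := EA.un_surj (cp P)
  have e : ((ii : O) : ℂ) = Complex.I := by simp [Q4.ii, GaussianInt.toComplex_def]
  have u : IsUnit (ii : O) := .of_mul_eq_one (-ii) (by decide)
  refine jc.injective ?_
  rw [map_mul, Zt_spec hn hP h0 hz.symm, Zt_spec hn (by rw [smul_comm, hP, smul_zero])
    (mt u.smul_eq_zero.1 h0) (EA.cp_smul ii hz.symm), EA.jc_II, EA.Es, EA.Es, EA.eta_mul, e,
    EA.zet_I, Complex.conj_I, mul_sub]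

theorem dl_Zt {n b : O} (hn : n ≠ 0) (hb : b ≠ 0) {P : A} (hP : n • P = 0) (h0 : b • P ≠ 0) :
    dl b P = io b * Zt (b • P) - (nm b : Qbar) * Zt P := by
  obtain ⟨z, hz⟩ := EA.un_surj (cp P)
  refine jc.injective ?_
  rw [EA.dl, ← EA.dlog_alg hb hz.symm h0, map_sub, map_mul, map_mul, EA.jc_io, map_natCast,
    Zt_spec hn hP (fun e => h0 (by rw [e, smul_zero])) hz.symm,
    Zt_spec hn (by rw [smul_comm, hP, smul_zero]) h0 (EA.cp_smul b hz.symm), nm,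
    Nat.cast_natAbs, abs_of_nonneg (GaussianInt.norm_nonneg b)]

theorem tl2a_dl {b : O} (hb : Q4.red b = 1) {P : A} (hP : b • P = P) (h : P ∉ Kr w2) :
    w2.V (dl b P) ≤ (w2.V 2)⁻¹ := by
  refine w2.V.map_sum_le fun T hT => ?_
  obtain ⟨t0, t1⟩ := (EA.mem_En0 (EA.ne_of_red hb)).1 hT
  have k := EA.sep (fun e => t0 (EA.Kr_tors (V_w2_odd hb) e t1)) h
    (fun e => h (by simpa [t1, hP] using (Kr w2).smul_mem b e))
    fun e => h (by simpa [smul_sub, t1, hP] using (Kr w2).smul_mem b e)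
  rw [map_mul, w2.V.map_sub_swap] at k
  rw [map_div₀]
  exact div_le_of_le_mul₀ zero_le zero_le
    ((le_inv_mul_iff₀ (pos_iff_ne_zero.2 (by simp))).2 k)

theorem Zt_bd {m : O} (hm : m ≠ 0) : ∃ K : ℝ≥0, ∀ n : O, Q4.red n = 1 → ∀ P : A,
    (m * n) • P = 0 → P ≠ 0 → w2.V (Zt P) ≤ K := by
  refine ⟨((En m).sup fun S => w2.V (Zt S)) + (w2.V (io (-2 * star m)))⁻¹ * (w2.V 2)⁻¹,
    fun n hn P hP h0 => ?_⟩
  by_cases h : P ∈ Kr w2
  · refine le_add_right (le_sup (f := fun S => w2.V (Zt S)) ((EA.mem_En hm).2 ?_))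
    exact EA.Kr_tors (V_w2_odd hn) ((Kr w2).smul_mem m h) (by rwa [smul_smul, mul_comm])
  obtain ⟨z, hz⟩ := EA.un_surj (cp P)
  have k := tl2a_key hP h0 hz.symm
  rw [← Zt_spec (mul_ne_zero hm (EA.ne_of_red hn)) hP h0 hz.symm, ← map_mul] at k
  have k1 := tl2a_dl (tl2a_red _) (tl2a_fix hP) h
  have k2 : Q4.red (star n) = 1 := by
    rw [EA.red_iff] at hn ⊢
    simp
    omega
  rw [← jc.injective k, star_mul', ← mul_assoc (-2), map_mul, map_mul, map_mul, map_mul, map_mul,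
    V_w2_odd (tl2a_red _), V_w2_odd k2, one_mul, mul_one] at k1
  exact le_add_left ((le_inv_mul_iff₀ (pos_iff_ne_zero.2 ((map_ne_zero _).2
    (EA.io_ne (mul_ne_zero (by decide) (star_ne_zero.2 hm)))))).2 k1)

end Pool.Agent.Lib.MP_696deb_nt.Y2.TL
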