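import Pool.Agent.Lib.MP_696deb_nt.Y2.TL1
import Pool.Agent.Lib.MP_696deb_nt.Y2.TL2a

/-! The algebraic part of the values at one. -/

set_option autoImplicit false

open scoped Classical NNReal ComplexConjugate
open Finset

namespace Pool.Agent.Lib.MP_696deb_nt.Y2.TL

open EU

section
variable {n : O} {g h : O → Qbar}

theorem tl2_tors (hn : n ≠ 0) (a : O) : n • tq a n = 0 := by
  rw [EA.smul_tq _ _ hn, EA.tq_eq_zero hn]
  exact dvd_mul_right _ _

theorem tl2_zero (hn : n ≠ 0) (hg : Pd n g) (h0 : g 0 = 0) {a : O} (e : tq a n = 0) : g a = 0 :=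
  (hg a 0 (by simpa using (EA.tq_eq_zero hn).1 e)).trans h0

theorem Lq_both {R : Finset O} (hR : IsRep n R) (hg : Pd n g) (h0 : g 0 = 0) :
    Lc (fun a => jc (g a)) = Om * jc (Lq g) ∧
      Lq g = (∑ a ∈ R, g a * Zt (tq a n)) / io n := by
  have e : Lc (fun a => jc (g a)) = Om * jc ((∑ a ∈ R, g a * Zt (tq a n)) / io n) := by
    rw [Lc_rep hR (g := fun a => jc (g a)) (fun a b k => congrArg jc (hg a b k))
      (by rw [h0, map_zero]), map_div₀, map_sum, EA.jc_io, div_mul_eq_mul_div, mul_div_assoc]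
    refine congrArg (fun x => Om * (x / (n : ℂ))) (sum_congr rfl fun a _ => ?_)
    rw [map_mul]
    by_cases k : tq a n = 0
    · rw [tl2_zero hR.ne hg h0 k, map_zero, zero_mul, zero_mul]
    · rw [Zt_spec hR.ne (tl2_tors hR.ne a) k (EA.cp_tq a hR.ne)]
  have ex : ∃ B : Qbar, Lc (fun a => jc (g a)) = Om * jc B := ⟨_, e⟩
  have k : Lc (fun a => jc (g a)) = Om * jc (Lq g) := by
    rw [Lq, dif_pos ex]
    exact ex.choose_spec
  exact ⟨k, jc.injective (mul_left_cancel₀ EA.Om_ne (k.symm.trans e))⟩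

theorem Lq_spec (hn : n ≠ 0) (hg : Pd n g) (h0 : g 0 = 0) :
    Lc (fun a => jc (g a)) = Om * jc (Lq g) :=
  (exists_rep hn).elim fun _ k => (Lq_both k.1 hg h0).1

theorem Lq_rep {R : Finset O} (hR : IsRep n R) (hg : Pd n g) (h0 : g 0 = 0) :
    Lq g = (∑ a ∈ R, g a * Zt (tq a n)) / io n := (Lq_both hR hg h0).2

theorem Lq_add (hn : n ≠ 0) (hg : Pd n g) (g0 : g 0 = 0) (hh : Pd n h) (h0 : h 0 = 0) :
    Lq (fun a => g a + h a) = Lq g + Lq h := by
  obtain ⟨R, hR, -⟩ := exists_rep hn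
  rw [Lq_rep hR hg g0, Lq_rep hR hh h0, Lq_rep hR (g := fun a => g a + h a)
    (fun a b k => by simp only [hg a b k, hh a b k]) (by simp only [g0, h0, add_zero]),
    ← add_div, ← sum_add_distrib]
  simp only [add_mul]

theorem Lq_mul (hn : n ≠ 0) (hg : Pd n g) (g0 : g 0 = 0) (c : Qbar) :
    Lq (fun a => c * g a) = c * Lq g := by
  obtain ⟨R, hR, -⟩ := exists_rep hn
  rw [Lq_rep hR hg g0, Lq_rep hR (g := fun a => c * g a)
    (fun a b k => by simp only [hg a b k]) (by simp only [g0, mul_zero]), ← mul_div_assoc, mul_sum]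
  simp only [mul_assoc]

theorem Lq_sum (hn : n ≠ 0) {ι : Type} (s : Finset ι) {f : ι → O → Qbar} (hf : ∀ i ∈ s, Pd n (f i))
    (f0 : ∀ i ∈ s, f i 0 = 0) : Lq (fun a => ∑ i ∈ s, f i a) = ∑ i ∈ s, Lq (f i) := by
  obtain ⟨R, hR, -⟩ := exists_rep hn
  rw [sum_congr rfl fun i hi => Lq_rep hR (hf i hi) (f0 i hi),
    Lq_rep hR (g := fun a => ∑ i ∈ s, f i a)
      (fun a b k => sum_congr rfl fun i hi => hf i hi a b k) (sum_eq_zero f0), ← sum_div, sum_comm]
  simp only [sum_mul]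

theorem Lq_div (hn : n ≠ 0) (hg : Pd n g) (g0 : g 0 = 0) {δ : O} (hδ : δ ≠ 0) :
    Lq (fun a => if δ ∣ a then g a else 0) = Lq (fun a => g (δ * a)) / io δ := by
  obtain ⟨R, hR, -⟩ := exists_rep (mul_ne_zero hδ hn)
  have inj : Set.InjOn (δ * ·) ((δ * ·) ⁻¹' (R : Set O)) := (mul_right_injective₀ hδ).injOn
  have hS : IsRep n (R.preimage (δ * ·) inj) := by
    refine ⟨hn, fun a => ?_, fun r hr r' hr' k => mul_left_cancel₀ hδ
      (hR.uq _ (mem_preimage.1 hr) _ (mem_preimage.1 hr') ?_)⟩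
    · obtain ⟨r, hr, t, e⟩ := hR.ex (δ * a)
      refine ⟨a - n * t, mem_preimage.2 ?_, t, by ring⟩
      rwa [show δ * (a - n * t) = r by linear_combination e]
    · rw [← mul_sub]
      exact mul_dvd_mul_left δ k
  have p1 : Pd (δ * n) fun a => if δ ∣ a then g a else 0 := fun a b k => by
    have k1 : δ ∣ a - b := (dvd_mul_right δ n).trans k
    have k2 : δ ∣ a ↔ δ ∣ b := ⟨fun j => by simpa using dvd_sub j k1, fun j => by
      simpa using dvd_add k1 j⟩
    simp only [k2, hg a b ((dvd_mul_left n δ).trans k)]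
  have p2 : Pd n fun a => g (δ * a) := fun a b k => hg _ _ (by
    rw [← mul_sub]; exact k.mul_left δ)
  rw [Lq_rep hR p1 (by simp [g0]), Lq_rep hS p2 (by simp [g0]), div_div, map_mul, mul_comm (io δ),
    ← sum_preimage (δ * ·) R inj _ fun a _ k => by
      rw [if_neg fun ⟨t, e⟩ => k ⟨t, e.symm⟩, zero_mul]]
  simp only [dvd_mul_right, if_true, EA.tq_mul hδ _ hn]

end

theorem exists_bd {m : O} (hm : m ≠ 0) : ∃ K, 1 ≤ K ∧ Bd m K := by
  obtain ⟨K, hK⟩ := Zt_bd hm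
  refine ⟨max 1 (K / w2.V (io m)), le_max_left _ _, fun n hn g hg g0 ε hε => ?_⟩
  have n0 := mul_ne_zero hm (EA.ne_of_red hn)
  obtain ⟨R, hR, -⟩ := exists_rep n0
  rw [Lq_rep hR hg g0, map_div₀, map_mul io, map_mul, V_w2_odd hn, mul_one]
  refine le_trans ?_ (mul_le_mul_left (le_max_right _ _) ε)
  rw [div_mul_eq_mul_div]
  refine div_le_div_of_nonneg_right (w2.V.map_sum_le fun a _ => ?_) zero_le
  by_cases k : tq a (m * n) = 0
  · rw [tl2_zero n0 hg g0 k, zero_mul, map_zero]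
    exact zero_le
  · rw [map_mul, mul_comm]
    exact mul_le_mul' (hK n hn _ (tl2_tors n0 a) k) (hε a)

end Pool.Agent.Lib.MP_696deb_nt.Y2.TL
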