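import Pool.Agent.Lib.MP_696deb_nt.Y2.TL1b

/-! The double series. -/

set_option autoImplicit false

open scoped Classical NNReal ComplexConjugate
open Finset

namespace Pool.Agent.Lib.MP_696deb_nt.Y2.TL

open EU

theorem t3a_term (c : ℂ) (g h : O → ℂ) (s : ℂ) (p : O × O) :
    c * (g p.1 * conj (p.1 : ℂ)) * (h p.2 * (p.2 : ℂ)) / (nm (p.1 * p.2) : ℂ) ^ s =
      c * (g p.1 * conj (p.1 : ℂ) / (nm p.1 : ℂ) ^ s * (h p.2 * (p.2 : ℂ) / (nm p.2 : ℂ) ^ s)) := by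
  rw [g1_nm_mul, Nat.cast_mul, Complex.natCast_mul_natCast_cpow, div_mul_div_comm, mul_assoc,
    mul_div_assoc]

theorem t3a_star (h : O → ℂ) (s : ℂ) (γ : O) :
    h (star (star γ)) * conj ((star γ : O) : ℂ) / (nm (star γ) : ℂ) ^ s =
      h γ * γ / (nm γ : ℂ) ^ s := by
  rw [star_star, GaussianInt.toComplex_star, Complex.conj_conj, nm, Zsqrtd.norm_conj, nm]

theorem t3a_sum {h : O → ℂ} {K : ℝ} (hh : ∀ a, ‖h a‖ ≤ K) {s : ℂ} (hs : 3 / 2 < s.re) :
    Summable fun γ : O => ‖h γ * (γ : ℂ) / (nm γ : ℂ) ^ s‖ :=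
  ((DS_sum (g := fun a => h (star a)) (fun _ => hh _) hs).comp_injective star_injective).congr
    fun γ => congrArg _ (t3a_star h s γ)

theorem t3a_DS (h : O → ℂ) (s : ℂ) :
    DS (fun a => h (star a)) s = ∑' γ : O, h γ * (γ : ℂ) / (nm γ : ℂ) ^ s :=
  ((star_involutive.toPerm star).tsum_eq _).symm.trans (tsum_congr (t3a_star h s))

theorem DD_sum {W g h : O → ℂ} {K : ℝ} (hW : ∀ a, ‖W a‖ ≤ K) (hg : ∀ a, ‖g a‖ ≤ K)
    (hh : ∀ a, ‖h a‖ ≤ K) {s : ℂ} (hs : 3 / 2 < s.re) :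
    Summable fun p : O × O => ‖W (p.1 * p.2) * (g p.1 * conj (p.1 : ℂ)) * (h p.2 * (p.2 : ℂ)) /
      (nm (p.1 * p.2) : ℂ) ^ s‖ := by
  refine .of_nonneg_of_le (fun _ => norm_nonneg _) (fun p => ?_)
    (((DS_sum hg hs).mul_norm (t3a_sum hh hs)).mul_left K)
  rw [t3a_term, norm_mul]
  exact mul_le_mul_of_nonneg_right (hW _) (norm_nonneg _)

theorem DD_one {g h : O → ℂ} {K : ℝ} (hg : ∀ a, ‖g a‖ ≤ K) (hh : ∀ a, ‖h a‖ ≤ K) {s : ℂ}
    (hs : 3 / 2 < s.re) : DD (fun _ => 1) g h s = DS g s * DS (fun a => h (star a)) s := by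
  rw [t3a_DS, DS, tsum_mul_tsum_of_summable_norm (DS_sum hg hs) (t3a_sum hh hs), DD]
  exact tsum_congr fun p => (t3a_term 1 g h s p).trans (one_mul _)

theorem t3a_pd {n : O} (hn : n ≠ 0) {g h : O → ℂ} (hg : Pd n g) (hh : Pd n h) {s : ℂ}
    (hs : 3 / 2 < s.re) : HasSum (fun p : O × O => 1 * (g p.1 * conj (p.1 : ℂ)) *
      (h p.2 * (p.2 : ℂ)) / (nm (p.1 * p.2) : ℂ) ^ s) (DS g s * DS (fun a => h (star a)) s) := by
  obtain ⟨K, -, h1⟩ := hg.bd hn
  obtain ⟨K', -, h2⟩ := hh.bd hn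
  have k1 : ∀ a, ‖g a‖ ≤ max 1 (max K K') := fun a =>
    (h1 a).trans ((le_max_left _ _).trans (le_max_right _ _))
  have k2 : ∀ a, ‖h a‖ ≤ max 1 (max K K') := fun a =>
    (h2 a).trans ((le_max_right _ _).trans (le_max_right _ _))
  rw [← DD_one k1 k2 hs]
  exact (DD_sum (W := fun _ => 1) (fun _ => norm_one.trans_le (le_max_left _ _)) k1 k2
    hs).of_norm.hasSum

theorem DD_val {r n : O} {R : Finset O} (hR : IsRep r R) (hn : n ≠ 0) {W g h : O → ℂ} (hW : Pd r W)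
    (hg : Pd n g) (hh : Pd n h) : Ent (DD W g h) ∧ val1 (DD W g h) =
      ∑ x ∈ R, Lc (fun a => if r ∣ a - x then g a else 0) *
        Lc fun a => W (x * star a) * h (star a) := by
  have n0 := mul_ne_zero hR.ne hn
  have p1 : ∀ x, Pd (r * n) fun a => if r ∣ a - x then g a else 0 := fun x a b e => by
    have k := (dvd_mul_right r n).trans e
    exact if_congr ⟨fun d => by simpa using dvd_sub d k, fun d => by simpa using dvd_add k d⟩
      (hg a b ((dvd_mul_left n r).trans e)) rfl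
  have p2 : ∀ x, Pd (r * n) fun a => W (x * a) * h a := fun x a b e =>
    congrArg₂ (· * ·) (hW _ _ (mul_sub x a b ▸ ((dvd_mul_right r n).trans e).mul_left x))
      (hh a b ((dvd_mul_left n r).trans e))
  have p3 : ∀ x, Pd (star (r * n)) fun a => W (x * star a) * h (star a) := fun x a b ⟨c, e⟩ =>
    p2 x _ _ ⟨star c, by rw [← star_sub, e, star_mul', star_star]⟩
  choose L1 a1 b1 using fun x => DS_ent n0 (p1 x)
  choose L2 a2 b2 using fun x => DS_ent (star_ne_zero.2 n0) (p3 x)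
  have d : Differentiable ℂ fun s => ∑ x ∈ R, L1 x s * L2 x s :=
    .fun_sum fun x _ => (a1 x).mul (a2 x)
  have e : ∀ s : ℂ, 2 < s.re → ∑ x ∈ R, L1 x s * L2 x s = DD W g h s := fun s hs => by
    simp only [b1 _ s hs, b2 _ s hs]
    rw [← (hasSum_sum fun x (_ : x ∈ R) => t3a_pd n0 (p1 x) (p2 x) (s := s) (by linarith)).tsum_eq]
    refine tsum_congr fun p => ?_
    obtain ⟨x, hx, k⟩ := hR.ex p.1
    rw [sum_eq_single_of_mem x hx fun y hy ne => by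
      rw [if_neg fun d => ne (hR.uq y hy x hx (by simpa using dvd_sub k d)), zero_mul, mul_zero,
        zero_mul, zero_div], if_pos k, hW (p.1 * p.2) (x * p.2) (sub_mul p.1 x p.2 ▸ k.mul_right _)]
    ring
  refine ⟨⟨_, d, e⟩, (val1_eq d e).trans (sum_congr rfl fun x _ => ?_)⟩
  rw [Lc, Lc, val1_eq (a1 x) (b1 x), val1_eq (a2 x) (b2 x)]

end Pool.Agent.Lib.MP_696deb_nt.Y2.TL
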