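import Pool.Agent.Lib.MP_696deb_nt.Y2.TL2
import Pool.Agent.Lib.MP_696deb_nt.Y2.TL3a

/-! The tame double series. -/

set_option autoImplicit false

open scoped Classical NNReal ComplexConjugate
open Finset

namespace Pool.Agent.Lib.MP_696deb_nt.Y2.TL

open EU

theorem tl3_dvd {n a b : O} (e : n ∣ a - b) : n ∣ a ↔ n ∣ b :=
  ⟨fun k => by simpa using dvd_sub k e, fun k => by simpa using dvd_add e k⟩

theorem tl3_star {n a : O} : star n ∣ a ↔ n ∣ star a :=
  ⟨fun ⟨c, e⟩ => ⟨star c, by rw [e, star_mul', star_star]⟩,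
    fun ⟨c, e⟩ => ⟨star c, by rw [← star_mul', ← e, star_star]⟩⟩

/-- The restriction of a function to a residue class. -/
noncomputable def tl3g (n y : O) (ψ : O → Qbar) (a : O) : Qbar := if n ∣ a - y then ψ a else 0

theorem tl3g_pd {m n : O} (y : O) {ψ : O → Qbar} (h : Pd m ψ) : Pd (m * n) (tl3g n y ψ) :=
  fun a b e => by
    have k : n ∣ a - y ↔ n ∣ b - y := tl3_dvd (by
      rw [sub_sub_sub_cancel_right]
      exact (dvd_mul_left n m).trans e)
    simp only [tl3g, k, h a b ((dvd_mul_right m n).trans e)]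

theorem tl3g_zero (n y : O) {ψ : O → Qbar} (h : ψ 0 = 0) : tl3g n y ψ 0 = 0 := by
  simp only [tl3g, h, ite_self]

theorem tl3g_sum {m n : O} (hm : m ≠ 0) {R : Finset O} (hR : IsRep n R) {ψ F : O → Qbar}
    (h : Pd m ψ) (h0 : ψ 0 = 0) (hF : Pd n F) :
    ∑ y ∈ R, F y * Lq (tl3g n y ψ) = Lq fun a => F a * ψ a := by
  have n0 := mul_ne_zero hm hR.ne
  rw [sum_congr rfl fun y _ => (Lq_mul n0 (tl3g_pd y h) (tl3g_zero n y h0) (F y)).symm,
    ← Lq_sum n0 R (f := fun y a => F y * tl3g n y ψ a)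
      (fun y _ a b e => congrArg _ (tl3g_pd y h a b e)) fun y _ => by
        rw [tl3g_zero n y h0, mul_zero]]
  refine congrArg Lq (funext fun a => ?_)
  obtain ⟨y, hy, e⟩ := hR.ex a
  rw [sum_eq_single_of_mem y hy fun z hz k => ?_, tl3g, if_pos e, hF a y e]
  rw [tl3g, if_neg fun e' => k (hR.uq z hz y hy (by simpa using dvd_sub e e')), mul_zero]

/-- The value of the tame double series. -/
theorem DD_tw {m : O} (hm : m ≠ 0) {K : ℝ≥0} (hK : Bd m K) {ψ ψ' : O → Qbar} (h1 : Mu m ψ)
    (h2 : Mu m ψ') {r : TP} {u : ℕ} (x : Ix r u) (hz : Lq (cut r.π ψ) = 0)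
    {a0 : O} (h0 : ¬ r.π ∣ a0) :
    ∃ B : Qbar, val1 (DD (fun a => (tw x (a0 * a) : ℂ)) (fun a => jc (ψ a))
      fun a => jc (ψ' (star a))) = Om ^ 2 * jc B ∧
        w2.V (B - Lq (cut (star r.π) ψ') * Lq fun a => ψ a * tw x a) ≤ K * K * w2.V (2 ^ u) := by
  obtain ⟨R, hR, -⟩ := exists_rep r.prime.ne_zero
  have n1 := mul_ne_zero hm r.prime.ne_zero
  have n2 := mul_ne_zero hm (star_ne_zero.2 r.prime.ne_zero)
  have o2 : Q4.red (star r.π) = 1 := by
    have := EA.red_iff.1 r.red
    rw [EA.red_iff, Zsqrtd.re_star, Zsqrtd.im_star]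
    omega
  let h : O → O → Qbar := fun y a => tw x (y * star a) * ψ' a
  have hp : ∀ y, Pd (m * star r.π) (h y) := fun y a b e => by
    have k : r.π ∣ y * star a - y * star b := by
      rw [← mul_sub, ← star_sub]
      exact (tl3_star.1 ((dvd_mul_left _ m).trans e)).mul_left y
    simp only [h, tw_pd x _ _ k, h2.per a b ((dvd_mul_right m _).trans e)]
  have hz0 : ∀ y, h y 0 = 0 := fun y => by simp only [h, h2.zero, mul_zero]
  have cp : Pd (m * star r.π) (cut (star r.π) ψ') := fun a b e => by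
    simp only [cut, tl3_dvd ((dvd_mul_left _ m).trans e), h2.per a b ((dvd_mul_right m _).trans e)]
  have c0 : cut (star r.π) ψ' 0 = 0 := if_pos (dvd_zero _)
  let c : O → Qbar := fun y => if r.π ∣ y then 0 else 1
  let e : O → O → Qbar := fun y a => h (a0 * y) a - (tw x y * cut (star r.π) ψ' a + c y * h a0 a)
  have ep : ∀ y, Pd (m * star r.π) (e y) := fun y a b k => by
    simp only [e, hp _ a b k, cp a b k]
  have e0 : ∀ y, e y 0 = 0 := fun y => by simp only [e, hz0, c0, mul_zero, add_zero, sub_zero]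
  have eb : ∀ y a, w2.V (e y a) ≤ w2.V (2 ^ u) := fun y a => by
    by_cases k : r.π ∣ y
    · simp [e, h, c, tw, k, (k.mul_left a0).mul_right (star a)]
    by_cases l : r.π ∣ star a
    · simp [e, h, tw, cut, tl3_star, l, l.mul_left]
    obtain ⟨t, ht⟩ := tw_mul x k fun j => (r.prime.dvd_or_dvd (a := a0) (b := star a) j).elim h0 l
    have ht' : (tw x (y * (a0 * star a)) : Qbar) = tw x y + tw x (a0 * star a) + 2 ^ u * t := by
      exact_mod_cast congrArg (Int.cast : ℤ → Qbar) ht
    have : e y a = 2 ^ u * (t * ψ' a) := by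
      simp only [e, h, c, cut, tl3_star, if_neg k, if_neg l, show a0 * y * star a =
        y * (a0 * star a) by ring, ht']
      ring
    rw [this, map_mul, map_mul]
    exact mul_le_of_le_one_right' (mul_le_one' (w2.V_int_le t) (h2.le a))
  have hq : ∀ y, Lq (h (a0 * y)) =
      tw x y * Lq (cut (star r.π) ψ') + c y * Lq (h a0) + Lq (e y) := fun y => by
    rw [← Lq_mul n2 cp c0, ← Lq_mul n2 (hp a0) (hz0 a0), ← Lq_add n2
      (fun a b k => by simp only [cp a b k]) (by rw [c0, mul_zero])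
      (fun a b k => by simp only [hp _ a b k]) (by rw [hz0, mul_zero]), ← Lq_add n2
      (fun a b k => by simp only [cp a b k, hp _ a b k]) (by rw [c0, hz0]; simp) (ep y) (e0 y)]
    exact congrArg Lq (funext fun a => (add_sub_cancel _ _).symm)
  refine ⟨∑ y ∈ R, Lq (tl3g r.π y ψ) * Lq (h (a0 * y)), ?_, ?_⟩
  · rw [(DD_val hR (mul_ne_zero hm (star_ne_zero.2 hm)) (fun a b k => ?_) (fun a b k => ?_)
      fun a b k => ?_).2, map_sum, mul_sum]
    · refine sum_congr rfl fun y _ => ?_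
      have k1 := Lq_spec n1 (tl3g_pd y h1.per) (tl3g_zero r.π y h1.zero)
      have k2 := Lq_spec n2 (hp (a0 * y)) (hz0 _)
      simp only [tl3g, apply_ite jc, map_zero] at k1
      simp only [h, map_mul, map_natCast, mul_assoc] at k2
      simp only [star_star]
      rw [k1, k2, map_mul]
      simp only [h, mul_assoc]
      ring
    · rw [tw_pd x (a0 * a) (a0 * b) (by rw [← mul_sub]; exact k.mul_left _)]
    · rw [h1.per a b ((dvd_mul_right m _).trans k)]
    · rw [h2.per (star a) (star b) (by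
        rw [← star_sub]
        exact tl3_star.1 ((dvd_mul_left _ m).trans k))]
  · have s1 := tl3g_sum hm hR h1.per h1.zero (F := fun a => tw x a) fun a b k => by
      simp only [tw_pd x a b k]
    have s2 := tl3g_sum hm hR h1.per h1.zero (F := c) fun a b k => by simp only [c, tl3_dvd k]
    rw [show (fun a => c a * ψ a) = cut r.π ψ from funext fun a => by
      simp only [c, cut, ite_mul, zero_mul, one_mul], hz] at s2
    have s3 : (∑ y ∈ R, Lq (tl3g r.π y ψ) * Lq (h (a0 * y))) -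
        Lq (cut (star r.π) ψ') * Lq (fun a => ψ a * tw x a) =
        ∑ y ∈ R, Lq (tl3g r.π y ψ) * Lq (e y) + Lq (h a0) * ∑ y ∈ R, c y * Lq (tl3g r.π y ψ) := by
      simp only [mul_comm (ψ _)]
      rw [← s1, mul_sum, mul_sum, ← sum_sub_distrib, ← sum_add_distrib]
      refine sum_congr rfl fun y _ => ?_
      rw [hq]
      ring
    rw [s3, s2, mul_zero, add_zero]
    refine w2.V.map_sum_le fun y _ => ?_
    rw [map_mul, mul_assoc]
    refine mul_le_mul' ((hK _ r.red _ (tl3g_pd y h1.per) (tl3g_zero _ y h1.zero) 1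
      fun a => ?_).trans_eq (mul_one K)) (hK _ o2 _ (ep y) (e0 y) _ (eb y))
    rw [tl3g]
    split_ifs
    · exact h1.le a
    · simp

end Pool.Agent.Lib.MP_696deb_nt.Y2.TL
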