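import Pool.Agent.Lib.MP_696deb_nt.Y2.TL2

/-! Euler factors. -/

set_option autoImplicit false

open scoped Classical NNReal ComplexConjugate
open Finset

namespace Pool.Agent.Lib.MP_696deb_nt.Y2.TL

open EU

theorem Big.of {D : ℤ} {φ : O → O} {b : O} {f g : ∀ (u : ℕ) (r : TP), Ix r u → Qbar}
    (h : Big D φ b f) {K κ : ℝ≥0} (hκ : 0 < κ) (k : ∀ u (r : TP) (x : Ix r u), AdmR D φ b r u →
      ∃ c, κ ≤ w2.V c ∧ w2.V (g u r x - c * f u r x) ≤ K * w2.V (2 ^ u)) : Big D φ b g := by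
  obtain ⟨δ, hδ, H⟩ := h
  obtain ⟨v0, hv⟩ := NNReal.exists_pow_lt_of_lt_one (a := κ * δ / (K + 1)) (b := 2⁻¹)
    (by positivity) (inv_lt_one_of_one_lt₀ one_lt_two)
  have h2 : w2.V 2 = 2⁻¹ := by simpa [w2_p] using w2.hV
  refine ⟨κ * δ, mul_pos hκ hδ, fun v => ?_⟩
  obtain ⟨u, hu, r, x, ha, hf⟩ := H (max v v0)
  obtain ⟨c, c1, c2⟩ := k u r x ha
  have k1 : κ * δ ≤ w2.V (c * f u r x) := by
    rw [map_mul]
    exact mul_le_mul' c1 hf
  refine ⟨u, (le_max_left _ _).trans hu, r, x, ha, k1.trans_eq (w2.V.map_eq_of_sub_lt ?_).symm⟩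
  rw [lt_div_iff₀ (by positivity), mul_comm] at hv
  rw [map_pow, h2] at c2
  exact (c2.trans_lt ((mul_le_mul' le_self_add (pow_le_pow_of_le_one zero_le
    (inv_le_one_of_one_le₀ one_le_two) ((le_max_right _ _).trans hu))).trans_lt hv)).trans_le k1

theorem tl4_iff {δ a b : O} (e : δ ∣ a - b) : δ ∣ a ↔ δ ∣ b :=
  ⟨fun k => by simpa using dvd_sub k e, fun k => by simpa using dvd_add e k⟩

theorem tl4_cut {n δ : O} {g : O → Qbar} (hn : n ≠ 0) (hg : Pd n g) (g0 : g 0 = 0) (hδ : δ ≠ 0) :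
    Lq (cut δ g) = Lq g - Lq (fun a => g (δ * a)) / io δ := by
  have p1 : Pd (n * δ) fun a => if δ ∣ a then g a else 0 := fun a b e => by
    simp only [tl4_iff ((Dvd.intro_left _ rfl).trans e), hg a b ((Dvd.intro _ rfl).trans e)]
  have e : cut δ g = fun a => g a + -1 * if δ ∣ a then g a else 0 := funext fun a => by
    rw [cut]
    split_ifs <;> ring
  rw [e, Lq_add (mul_ne_zero hn hδ) (hg.mono (Dvd.intro _ rfl)) g0
    (fun a b k => congr_arg (-1 * ·) (p1 a b k)) (by simp [g0]), Lq_mul (mul_ne_zero hn hδ) p1 (by simp [g0]),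
    Lq_div hn hg g0 hδ]
  ring

section
variable {m : O} {ψ : O → Qbar}

theorem Mu.mono (h : Mu m ψ) {n : O} (k : m ∣ n) : Mu n ψ := ⟨h.per.mono k, h.mul, h.zero, h.le⟩

theorem Mu.cut (h : Mu m ψ) {δ : O} (hδ : Prime δ) (k : δ ∣ m) : Mu m (cut δ ψ) := by
  refine ⟨fun a b e => ?_, fun a b => ?_, if_pos (dvd_zero _), fun a => ?_⟩
  · simp only [TL.cut, tl4_iff (k.trans e), h.per a b e]
  · simp only [TL.cut, hδ.dvd_mul, h.mul]
    by_cases h1 : δ ∣ a <;> by_cases h2 : δ ∣ b <;> simp [h1, h2]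
  · rw [TL.cut]
    split_ifs
    exacts [by simp, h.le a]

theorem Lq_cut (hm : m ≠ 0) (h : Mu m ψ) {δ : O} (hδ : δ ≠ 0) :
    Lq (cut δ ψ) = (1 - ψ δ / io δ) * Lq ψ := by
  rw [tl4_cut hm h.per h.zero hδ]
  simp only [h.mul]
  rw [Lq_mul hm h.per h.zero]
  ring

theorem Lq_cut_tw (hm : m ≠ 0) (h : Mu m ψ) (hz : Lq ψ = 0) {K : ℝ≥0} (hK : Bd m K) {δ : O}
    (hδ : Q4.red δ = 1) {r : TP} {u : ℕ} (x : Ix r u) (hr : ¬ r.π ∣ δ) :
    w2.V (Lq (fun a => cut δ ψ a * tw x a) - (1 - ψ δ / io δ) * Lq fun a => ψ a * tw x a) ≤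
      K * w2.V (2 ^ u) := by
  have d0 : δ ≠ 0 := fun e => absurd (e ▸ hδ) (by decide)
  have hn := mul_ne_zero hm r.prime.ne_zero
  have l1 : m ∣ m * r.π := Dvd.intro _ rfl
  have l2 : r.π ∣ m * r.π := Dvd.intro_left _ rfl
  have p1 : Pd (m * r.π) fun a => ψ a * tw x a := fun a b e => by
    simp only [h.per a b (l1.trans e), tw_pd x a b (l2.trans e)]
  have p2 : Pd (m * r.π) (cut r.π ψ) := ((h.mono l1).cut r.prime l2).per
  have z1 : ψ 0 * (tw x 0 : Qbar) = 0 := by rw [h.zero, zero_mul]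
  have z2 : cut r.π ψ 0 = 0 := if_pos (dvd_zero _)
  obtain ⟨E, hE⟩ : ∃ E : O → Qbar, ∀ a,
      E a = ψ a * tw x (δ * a) - ψ a * tw x a - tw x δ * cut r.π ψ a := ⟨_, fun _ => rfl⟩
  have p3 : Pd (m * r.π) E := fun a b e => by
    rw [hE, hE, p2 a b e, h.per a b (l1.trans e), tw_pd x a b (l2.trans e),
      tw_pd x (δ * a) (δ * b) (mul_sub δ a b ▸ (l2.trans e).mul_left δ)]
  have z3 : E 0 = 0 := by simp [hE, h.zero, z2]
  have b3 := hK _ (EA.prim_red r.prim) E p3 z3 (w2.V (2 ^ u)) fun a => by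
    rw [hE, cut]
    split_ifs with k
    · simp [tw, k, k.mul_left δ]
    · obtain ⟨e, he⟩ := tw_mul x hr k
      have he' : (tw x (δ * a) : Qbar) = tw x δ + tw x a + 2 ^ u * io e := by
        rw [map_intCast]
        exact_mod_cast congr_arg (Int.cast : ℤ → Qbar) he
      rw [show _ - _ - _ = 2 ^ u * (ψ a * io e) by rw [he']; ring, map_mul, map_mul]
      exact mul_le_of_le_one_right' (mul_le_one' (h.le a) (EA.V_io_le _ _))
  have e1 : (fun a => cut δ ψ a * tw x a) = cut δ fun a => ψ a * tw x a := funext fun a => by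
    simp only [cut, ite_mul, zero_mul]
  have e2 : (fun a => ψ (δ * a) * tw x (δ * a)) =
      fun a => ψ δ * (ψ a * tw x a + (tw x δ * cut r.π ψ a + E a)) := funext fun a => by
    rw [hE, h.mul]
    ring
  have p4 : Pd (m * r.π) fun a => tw x δ * cut r.π ψ a := fun a b e => by simp only [p2 a b e]
  have p5 : Pd (m * r.π) fun a => tw x δ * cut r.π ψ a + E a := fun a b e => by
    simp only [p2 a b e, p3 a b e]
  rw [e1, tl4_cut hn p1 z1 d0, e2, Lq_mul hn (fun a b e => by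
      rw [p2 a b e, p3 a b e, h.per a b (l1.trans e), tw_pd x a b (l2.trans e)])
      (by simp [h.zero, z2, z3]), Lq_add hn p1 z1 p5 (by simp [z2, z3]),
    Lq_add hn p4 (by simp [z2]) p3 z3, Lq_mul hn p2 z2, Lq_cut hm h r.prime.ne_zero, hz,
    show _ - _ - _ = -(ψ δ / io δ * Lq E) by ring, Valuation.map_neg, map_mul, map_div₀,
    V_w2_odd hδ, div_one]
  exact (mul_le_of_le_one_left' (h.le δ)).trans b3

end

theorem mu_ch {D : ℤ} {φ : O → O} (h : Phi D φ) : Mu ((8 * D : ℤ) : O) (ch φ) := by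
  refine ⟨fun a b e => ?_, fun a b => ?_, ?_, fun a => EA.V_io_le _ _⟩
  · rw [ch, ch, h.per' dvd_rfl e]
  · rw [ch, h.gch.mul, star_mul', map_mul, ch, ch]
  · rw [ch, EA.phi_zero h.gch (by simp), star_zero, map_zero]

theorem ch_c5 (φ : O → O) : ch (c5 φ) = cut (star be) (cut be (ch φ)) := by
  have p2 : Prime (star be) := (MulEquiv.prime_iff (starMulAut : O ≃* O)).2 EA.be_prime
  funext a
  have e : IsCoprime a 5 ↔ ¬ be ∣ a ∧ ¬ star be ∣ a := by
    rw [show (5 : O) = be * star be by decide, IsCoprime.mul_right_iff, isCoprime_comm,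
      isCoprime_comm (x := a), EA.be_prime.coprime_iff_not_dvd, p2.coprime_iff_not_dvd]
  simp only [ch, c5, cut, e]
  by_cases h1 : be ∣ a <;> by_cases h2 : star be ∣ a <;> simp [h1, h2]

theorem eul_ne {a δ : O} (ha : a.norm ≤ 1) (hδ : 1 < δ.norm) : 1 - io a / io δ ≠ 0 := by
  have d0 : δ ≠ 0 := fun e => by simp [e] at hδ
  intro e
  rw [sub_eq_zero, eq_div_iff (EA.io_ne d0), one_mul, ← sub_eq_zero, ← map_sub] at e
  obtain rfl : δ = a := sub_eq_zero.1 (by_contra fun k => EA.io_ne k e)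
  omega

end Pool.Agent.Lib.MP_696deb_nt.Y2.TL
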