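import Pool.Agent.Lib.MP_696deb_nt.Y2.TL4
import Pool.Agent.Lib.MP_696deb_nt.EU.C8

/-! The link with the elliptic units. -/

set_option autoImplicit false

open scoped Classical NNReal ComplexConjugate
open Finset

namespace Pool.Agent.Lib.MP_696deb_nt.Y2.TL

open EU

/-- A sum over all residues is four times the sum over the primary residues. -/
theorem tl5_four {n : O} {R : Finset O} (hR : IsRep n R) (k : w ^ 3 ∣ n) {t : O → Qbar}
    (hp : Pd n t) (t1 : ∀ a, t (ii * a) = t a) (t0 : ∀ a : O, (2 : ℤ) ∣ a.norm → t a = 0) :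
    4 * ∑ a ∈ R with Prim a, t a = ∑ a ∈ R, t a := by
  have t2 := fun u (hu : IsUnit u) => hR.sum_mul hR (F := fun a => if Prim a then t a else 0)
    (c := u) (by
      obtain ⟨u, rfl⟩ := hu
      exact ⟨↑u⁻¹, 0, by simp⟩) fun a γ => by
      have e : n ∣ a + n * γ - a := ⟨γ, add_sub_cancel_left _ _⟩
      exact if_congr ⟨prim_of_dvd k (dvd_sub_comm.1 e), prim_of_dvd k e⟩ (hp _ _ e) rfl
  rw [sum_filter, show ∀ x : Qbar, 4 * x = x + x + x + x from fun x => by ring]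
  nth_rw 1 [← t2 _ Q4.isUnit_ii, ← t2 _ (Q4.isUnit_ii.mul Q4.isUnit_ii),
    ← t2 _ (Q4.isUnit_ii.mul (Q4.isUnit_ii.mul Q4.isUnit_ii))]
  simp only [← sum_add_distrib, mul_assoc, t1]
  refine sum_congr rfl fun a _ => ?_
  by_cases e : (2 : ℤ) ∣ a.norm
  · simp [t0 a e]
  have e2 : (a.re + a.im) % 2 = 1 := by
    rw [Zsqrtd.norm_def] at e
    by_contra e3
    obtain ⟨s, e4⟩ : (2 : ℤ) ∣ a.re + a.im := by omega
    exact e ⟨(a.re + a.im) * s - a.re * a.im, by linear_combination (a.re + a.im) * e4⟩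
  have q : ∀ x : O, ii * x = ⟨-x.im, x.re⟩ := fun x => by ext <;> simp [Q4.ii]
  simp only [q]
  have : (Prim ⟨-a.im, a.re⟩ ∧ ¬ Prim ⟨-a.re, -a.im⟩ ∧ ¬ Prim ⟨- -a.im, -a.re⟩ ∧ ¬ Prim a) ∨
      (¬ Prim ⟨-a.im, a.re⟩ ∧ Prim ⟨-a.re, -a.im⟩ ∧ ¬ Prim ⟨- -a.im, -a.re⟩ ∧ ¬ Prim a) ∨
      (¬ Prim ⟨-a.im, a.re⟩ ∧ ¬ Prim ⟨-a.re, -a.im⟩ ∧ Prim ⟨- -a.im, -a.re⟩ ∧ ¬ Prim a) ∨
      (¬ Prim ⟨-a.im, a.re⟩ ∧ ¬ Prim ⟨-a.re, -a.im⟩ ∧ ¬ Prim ⟨- -a.im, -a.re⟩ ∧ Prim a) := by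
    simp only [QF.Prim]
    omega
  rcases this with k | k | k | k <;> simp only [k, if_true, if_false, add_zero, zero_add]

section
variable {r : TP} {u : ℕ} (x : Ix r u)

theorem tl5_ii (a : O) : tw x (ii * a) = tw x a := by
  have k : ¬ r.π ∣ ii := fun e => r.prime.not_isUnit (isUnit_of_dvd_unit e Q4.isUnit_ii)
  by_cases h : r.π ∣ a
  · rw [tw, tw, if_pos h, if_pos (h.mul_left _)]
  · rw [tw, tw, if_neg h, if_neg fun e => (r.prime.dvd_or_dvd e).elim k h, x.mul _ _ k h, x.unit,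
      zero_add]

variable {D : ℤ} {φ : O → O} {m : O}

theorem tl5_pd (h : Mu m (ch φ)) (c : O) : Pd (m * r.π) fun a => ch φ a * tw x (c * a) :=
  fun a b e => by
    simp only [h.per a b ((dvd_mul_right _ _).trans e), tw_pd x (c * a) (c * b)
      (mul_sub c a b ▸ ((dvd_mul_left _ _).trans e).mul_left c)]

/-- The derivative as a sum over all residues. -/
theorem tl5_kur (hφ : Phi D φ) (h : Mu m (ch φ)) (k : w ^ 3 ∣ m) {b : O} (b0 : b ≠ 0)
    (z : ∀ a, ¬ IsCoprime a m → φ a = 0) {R : Finset O} (hR : IsRep (m * r.π) R) :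
    4 * kur φ m b x = ∑ a ∈ R, ch φ a * tw x a * dl b (tq a (m * r.π)) := by
  have n0 := hR.ne
  have p := tl5_pd x h 1
  simp only [one_mul] at p
  have p2 : φ ii = -ii := mul_right_cancel₀ Q4.isUnit_ii.ne_zero (hφ.gch.unit.trans (by decide))
  rw [← tl5_four hR (k.mul_right _) (fun a a' e => by
      simp only [p a a' e, (tq_eq_iff n0).2 e]) (fun a => by
      rw [tl5_ii, ← EA.smul_tq _ _ n0, EA.dl_ii b0, h.mul, ch, p2, show star (-ii) = ii by decide,
        EA.io_apply ii, Q4.ii]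
      push_cast
      linear_combination -ch φ a * tw x a * dl b (tq a (m * r.π)) * Q4.II_mul) fun a e => by
      rw [ch, EA.phi_zero hφ.gch e, star_zero, map_zero, zero_mul, zero_mul], kur]
  congr 1
  refine (sum_congr rfl fun P hP => by rw [co_spec n0 (Im_kill n0 hP), ch]).trans ((sum_Im n0
    (k.mul_right _) hR (fun a => ch φ a * ((x.ind a).val : Qbar) * dl b (tq a (m * r.π)))
      fun a a' e => by
        simp only [h.per a a' ((dvd_mul_right _ _).trans e),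
          x.per a a' ((dvd_mul_left _ _).trans e), (tq_eq_iff n0).2 e]).trans ?_)
  rw [← filter_filter, sum_filter]
  refine sum_congr rfl fun a _ => ?_
  by_cases e : r.π ∣ a
  · rw [tw, if_pos e, if_neg fun j => r.prime.not_isUnit (j.isUnit_of_dvd' e (dvd_mul_left _ _))]
    simp
  · rw [tw, if_neg e]
    refine ite_eq_left_iff.2 fun j => ?_
    rw [ch, z a fun l => j (l.mul_right (r.prime.irreducible.coprime_iff_not_dvd.2 e).symm)]
    simp

/-- Changing the weight. -/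
theorem tl5_err (hm : m ≠ 0) (h : Mu m (ch φ)) (hz : Lq (ch φ) = 0) {K : ℝ≥0} (hK : Bd m K) {c : O}
    (hc : ¬ r.π ∣ c) : w2.V ((Lq fun a => ch φ a * tw x (c * a)) - Lq fun a => ch φ a * tw x a) ≤
      K * w2.V (2 ^ u) := by
  have n0 := mul_ne_zero hm r.prime.ne_zero
  have p1 := tl5_pd x h 1
  simp only [one_mul] at p1
  have p2 : Pd (m * r.π) (cut r.π (ch φ)) :=
    ((h.mono (dvd_mul_right _ _)).cut r.prime (dvd_mul_left _ _)).per
  have c0 : cut r.π (ch φ) 0 = 0 := if_pos (dvd_zero _)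
  obtain ⟨E, hE⟩ : ∃ E : O → Qbar, ∀ a, E a = ch φ a * tw x (c * a) -
    (ch φ a * tw x a + tw x c * cut r.π (ch φ) a) := ⟨_, fun _ => rfl⟩
  have p3 : Pd (m * r.π) E := fun a b e => by
    simp only [hE, tl5_pd x h c a b e, p1 a b e, p2 a b e]
  have E0 : E 0 = 0 := by simp [hE, h.zero, c0]
  have p4 : Pd (m * r.π) fun a => tw x c * cut r.π (ch φ) a := fun a b e => by
    simp only [p2 a b e]
  have e1 : (fun a => ch φ a * tw x (c * a)) =
      fun a => (ch φ a * tw x a + tw x c * cut r.π (ch φ) a) + E a := funext fun a => by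
    rw [hE, add_sub_cancel]
  rw [e1, Lq_add n0 (fun a b e => by simp only [p1 a b e, p2 a b e]) (by simp [h.zero, c0]) p3 E0,
    Lq_add n0 p1 (by simp [h.zero]) p4 (by simp [c0]), Lq_mul n0 p2 c0,
    Lq_cut hm h r.prime.ne_zero, hz, mul_zero, mul_zero, add_zero, add_sub_cancel_left]
  refine hK _ r.red E p3 E0 _ fun a => ?_
  by_cases e : r.π ∣ a
  · simp [hE, tw, cut, e, e.mul_left c]
  · obtain ⟨j, hj⟩ := tw_mul x hc e
    have k : (tw x (c * a) : Qbar) = tw x c + tw x a + 2 ^ u * j := by exact_mod_cast hj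
    rw [hE, k, cut, if_neg e, show ch φ a * (tw x c + tw x a + 2 ^ u * j) -
      (ch φ a * tw x a + tw x c * ch φ a) = ch φ a * j * 2 ^ u by ring, map_mul, map_mul]
    exact mul_le_of_le_one_left' (mul_le_one' (h.le a) (w2.V_int_le j))

end

theorem kur_Lq {D : ℤ} (hD : D ≠ 0) {φ : O → O} (hφ : Phi D φ) (hz : Lq (ch φ) = 0) (b : TP)
    (hb : ¬ b.π ∣ (D : O)) (e : ℕ) : ∃ K κ : ℝ≥0, 0 < κ ∧ ∀ u (r : TP) (x : Ix r u),
      AdmR D φ b.π r u → ∃ c, κ ≤ w2.V c ∧ w2.V ((Lq fun a => ch φ a * tw x a) -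
        c * kur φ ((D.natAbs * 2 ^ (e + 3) : ℕ) : O) b.π x) ≤ K * w2.V (2 ^ u) := by
  have z : ∀ a, ¬ IsCoprime a ((D.natAbs * 2 ^ (e + 3) : ℕ) : O) → φ a = 0 := fun a =>
    c8_zero hφ.gch
  have m0 : ((D.natAbs * 2 ^ (e + 3) : ℕ) : O) ≠ 0 :=
    Nat.cast_ne_zero.2 (mul_ne_zero (Int.natAbs_ne_zero.2 hD) (by positivity))
  have m1 : ((D.natAbs * 2 ^ (e + 3) : ℕ) : O) = (D.natAbs : O) * 2 ^ (e + 3) := by
    rw [Nat.cast_mul, Nat.cast_pow, Nat.cast_ofNat]
  generalize ((D.natAbs * 2 ^ (e + 3) : ℕ) : O) = m at *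
  have ab : Associated (D.natAbs : O) D := by
    rw [← Int.cast_natCast]
    exact (Int.associated_natAbs _).symm.map (Int.castRingHom O)
  have m2 : w ^ 3 ∣ m := by
    rw [m1, pow_add]
    exact (Dvd.dvd.mul_left (pow_dvd_pow_of_dvd ⟨star w, by decide⟩ 3) _).mul_left _
  have h : Mu m (ch φ) := (mu_ch hφ).mono (by
    rw [m1, pow_add, Int.cast_mul, mul_comm]
    exact mul_dvd_mul ab.symm.dvd (Dvd.dvd.mul_left ⟨1, by decide⟩ _))
  have m3 : IsCoprime b.π m := b.prime.irreducible.coprime_iff_not_dvd.2 fun k =>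
    (b.prime.dvd_or_dvd (m1 ▸ k)).elim (fun k => hb (k.trans ab.dvd))
      fun k => t1a_two b (b.prime.dvd_of_dvd_pow k)
  have b0 := b.prime.ne_zero
  have b1 : b.π * star b.π = nm b.π := by
    rw [nm, ← Int.cast_natCast, Int.natAbs_of_nonneg (GaussianInt.norm_nonneg _),
      Zsqrtd.norm_eq_mul_conj]
  have b2 := (hφ.unit hD (b.prime.irreducible.coprime_iff_not_dvd.2 fun k =>
    (b.prime.dvd_or_dvd (Int.cast_mul (α := O) 2 D ▸ k)).elim (t1a_two b) hb)).2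
  have b3 : w2.V (ch φ b.π) = 1 := g1_unit (IsUnit.of_mul_eq_one_right _ b2)
  obtain ⟨Δ, hΔ⟩ : ∃ Δ : O, Δ = b.π - star (φ b.π) * nm b.π := ⟨_, rfl⟩
  have d0 : io Δ ≠ 0 := EA.io_ne fun k => b.prime.not_isUnit (isUnit_star.1
    (IsUnit.of_mul_eq_one_right (star (φ b.π)) (mul_left_cancel₀ b0 (by
      rw [← b1] at hΔ
      linear_combination hΔ - k))))
  have d1 : io Δ = io b.π - ch φ b.π * nm b.π := by rw [hΔ, map_sub, map_mul, map_natCast, ch]
  have d2 := (Valuation.pos_iff w2.V).2 d0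
  obtain ⟨K, -, hK⟩ := exists_bd m0
  refine ⟨K / w2.V (io Δ), w2.V 4, (Valuation.pos_iff _).2 (by norm_num), fun u r x a => ?_⟩
  have n0 := mul_ne_zero m0 r.prime.ne_zero
  have n1 := EA.io_ne n0
  have r1 : ¬ r.π ∣ b.π := fun k => a.nd (by
    rw [Int.cast_mul, Int.cast_natCast, ← b1]
    exact (k.mul_right _).mul_left _)
  have r2 : IsCoprime b.π (m * r.π) :=
    m3.mul_right (r.prime.irreducible.coprime_iff_not_dvd.2 r1).symm
  obtain ⟨c, s, hc⟩ := id r2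
  have r3 : ¬ r.π ∣ c := fun k => r.prime.not_dvd_one
    (hc ▸ dvd_add (k.mul_right _) ((dvd_mul_left _ _).mul_left _))
  obtain ⟨R, hR, -⟩ := exists_rep n0
  have p1 := tl5_pd x h 1
  simp only [one_mul] at p1
  have s1 := (eq_div_iff n1).1 (Lq_rep hR p1 (by simp [h.zero]))
  have s2 := (eq_div_iff n1).1 (Lq_rep hR (tl5_pd x h c) (by simp [h.zero]))
  rw [← hR.sum_mul hR r2 fun a γ => by
    have e : m * r.π ∣ a + m * r.π * γ - a := ⟨γ, add_sub_cancel_left _ _⟩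
    simp only [tl5_pd x h c _ _ e, (tq_eq_iff n0).2 e]] at s2
  have s3 : ch φ b.π * (4 * kur φ m b.π x) =
      io b.π * ((Lq fun a => ch φ a * tw x (c * a)) * io (m * r.π)) -
        ch φ b.π * nm b.π * ((Lq fun a => ch φ a * tw x a) * io (m * r.π)) := by
    rw [tl5_kur x hφ h m2 b0 z hR, s1, s2, mul_sum, mul_sum, mul_sum, ← sum_sub_distrib]
    refine sum_congr rfl fun a _ => ?_
    rw [tw_pd x (c * (b.π * a)) a ⟨-(s * m * a), by linear_combination a * hc⟩, h.mul]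
    by_cases k : r.π ∣ a
    · simp [tw, k]
    · rw [dl_Zt n0 b0 (m_tq n0 a) (by
        rw [EA.smul_tq _ _ n0, ne_eq, EA.tq_eq_zero n0]
        exact fun j => (r.prime.dvd_or_dvd ((dvd_mul_left _ _).trans j)).elim r1 k),
        EA.smul_tq _ _ n0]
      ring
  refine ⟨4 * ch φ b.π / (io Δ * io (m * r.π)), ?_, ?_⟩
  · rw [map_div₀, map_mul, b3, mul_one, le_div_iff₀ ((Valuation.pos_iff _).2 (mul_ne_zero d0 n1)),
      ← map_mul io]
    exact mul_le_of_le_one_right' (EA.V_io_le _ _)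
  · rw [show (Lq fun a => ch φ a * tw x a) - 4 * ch φ b.π / (io Δ * io (m * r.π)) * kur φ m b.π x =
      -(io b.π * ((Lq fun a => ch φ a * tw x (c * a)) - Lq fun a => ch φ a * tw x a) / io Δ) by
        field_simp
        rw [d1]
        linear_combination -s3, Valuation.map_neg, map_div₀, map_mul, div_mul_eq_mul_div]
    exact div_le_div_of_nonneg_right ((mul_le_of_le_one_left' (EA.V_io_le _ _)).trans
      (tl5_err x m0 h hz hK r3)) zero_le

end Pool.Agent.Lib.MP_696deb_nt.Y2.TL
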