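import Pool.Agent.Lib.MP_696deb_nt.Y2.TL4
import Pool.Agent.Lib.MP_696deb_nt.EU.Main

/-! Vanishing and non-vanishing of the central values. -/

set_option autoImplicit false

open scoped Classical NNReal ComplexConjugate
open Finset

namespace Pool.Agent.Lib.MP_696deb_nt.Y2.TL

open EU

/-- The vanishing of the sums of logarithmic derivatives. -/
def Hz (D : ℤ) (φ : O → O) : Prop := ∀ m : ℕ, 0 < m → 8 * D.natAbs ∣ m →
  ∀ (b d : O) (R : Finset O), IsCoprime b m → IsCoprime d m → IsRep m R →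
    ∑ a ∈ R with Prim a, io (star (φ a)) * dl b (a • tq d m) = 0

theorem t5a_four {m : ℕ} (h4 : 4 ∣ m) {R : Finset O} (hR : IsRep m R) {t : O → Qbar}
    (t0 : ∀ a : O, (2 : ℤ) ∣ a.norm → t a = 0) (t1 : ∀ a, t (ii * a) = t a) (tp : Per m t) :
    ∑ a ∈ R, t a = 4 * ∑ a ∈ R with Prim a, t a := by
  have u : IsUnit ii := Q4.isUnit_ii
  have t2 := fun u (hu : IsUnit u) => hR.sum_mul hR (F := fun a => if Prim a then t a else 0)
    (c := u) (by
      obtain ⟨u, rfl⟩ := hu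
      exact ⟨↑u⁻¹, 0, by simp⟩) fun a γ => by
      obtain ⟨n, rfl⟩ := h4
      simp only [tp a γ]
      refine if_congr ?_ rfl rfl
      simp only [QF.Prim, Zsqrtd.re_add, Zsqrtd.im_add, Nat.cast_mul, mul_assoc,
        Zsqrtd.re_mul, Zsqrtd.im_mul, Zsqrtd.re_natCast, Zsqrtd.im_natCast, Nat.cast_ofNat]
      simp
      omega
  rw [sum_filter, show ∀ x : Qbar, 4 * x = x + x + x + x from fun x => by ring]
  nth_rw 1 [← t2 _ u, ← t2 _ (u.mul u), ← t2 _ (u.mul (u.mul u))]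
  simp only [← sum_add_distrib, mul_assoc, t1]
  refine sum_congr rfl fun a _ => ?_
  by_cases e : (2 : ℤ) ∣ a.norm
  · simp [t0 a e]
  have e2 : (a.re + a.im) % 2 = 1 := by
    rw [Zsqrtd.norm_def] at e
    by_contra e3
    obtain ⟨s, e4⟩ : (2 : ℤ) ∣ a.re + a.im := by omega
    exact e ⟨(a.re + a.im) * s - a.re * a.im, by linear_combination (a.re + a.im) * e4⟩
  have q : ∀ x : O, ii * x = ⟨-x.im, x.re⟩ := fun x => by ext <;> simp [Q4.ii]
  simp only [q]
  have : (Prim ⟨-a.im, a.re⟩ ∧ ¬ Prim ⟨-a.re, -a.im⟩ ∧ ¬ Prim ⟨- -a.im, -a.re⟩ ∧ ¬ Prim a) ∨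
      (¬ Prim ⟨-a.im, a.re⟩ ∧ Prim ⟨-a.re, -a.im⟩ ∧ ¬ Prim ⟨- -a.im, -a.re⟩ ∧ ¬ Prim a) ∨
      (¬ Prim ⟨-a.im, a.re⟩ ∧ ¬ Prim ⟨-a.re, -a.im⟩ ∧ Prim ⟨- -a.im, -a.re⟩ ∧ ¬ Prim a) ∨
      (¬ Prim ⟨-a.im, a.re⟩ ∧ ¬ Prim ⟨-a.re, -a.im⟩ ∧ ¬ Prim ⟨- -a.im, -a.re⟩ ∧ Prim a) := by
    simp only [QF.Prim]
    omega
  rcases this with k | k | k | k <;> simp only [k, if_true, if_false, add_zero, zero_add]

theorem t5a_pd {m : ℕ} {φ : O → O} (h : Per m φ) : Pd (m : O) (ch φ) := fun a b ⟨γ, e⟩ => by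
  rw [ch, ch, ← h b γ, ← e, add_sub_cancel]

theorem hz_iff {D : ℤ} (hD : D ≠ 0) {φ : O → O} (hφ : Phi D φ) : Hz D φ ↔ Lq (ch φ) = 0 := by
  have h1 := hφ.gch
  have c0 : ch φ 0 = 0 := by rw [ch, EA.phi_zero h1 (by simp), star_zero, map_zero]
  refine ⟨fun h => ?_, fun h m hm k b d R hb hd hR => ?_⟩
  · have per := hφ.per
    have hm : 0 < 8 * D.natAbs := by positivity
    have h4 : 4 ∣ 8 * D.natAbs := (by decide : 4 ∣ 8).mul_right _
    replace h := h _ hm dvd_rfl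
    generalize 8 * D.natAbs = m at *
    have m0 : (m : O) ≠ 0 := Nat.cast_ne_zero.2 hm.ne'
    obtain ⟨R, hR, -⟩ := exists_rep m0
    have b0 : ((1 + m : ℕ) : O) ≠ 0 := Nat.cast_ne_zero.2 (by omega)
    have z : ∀ a : O, (m : O) • tq a m = 0 := fun a => by
      rw [EA.smul_tq _ _ m0, EA.tq_eq_zero m0]
      exact dvd_mul_right _ _
    have p2 : φ ii = -ii := mul_right_cancel₀ Q4.isUnit_ii.ne_zero (h1.unit.trans (by decide))
    have k := t5a_four h4 hR (t := fun a => io (star (φ a)) * dl ((1 + m : ℕ) : O) (a • tq 1 m))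
      (fun a e => by rw [EA.phi_zero h1 e, star_zero, map_zero, zero_mul]) (fun a => by
        simp only [mul_smul, EA.dl_ii b0, h1.mul, p2, star_mul', map_mul]
        rw [show star (-ii) = ii by decide, EA.io_apply ii, Q4.ii]
        push_cast
        linear_combination -io (star (φ a)) * dl (1 + m) (a • tq 1 m) * Q4.II_mul) fun a γ => by
        simp only [per a γ]
        rw [add_smul, mul_comm (m : O), mul_smul, z, smul_zero, add_zero]
    rw [h _ 1 R ⟨1, -1, by push_cast; ring⟩ isCoprime_one_left hR, mul_zero,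
      sum_congr rfl (g := fun a => -((1 + m : Qbar) * m) * (ch φ a * Zt (tq a m))) fun a _ => ?_,
      ← mul_sum] at k
    · rw [Lq_rep hR (t5a_pd per) c0, (mul_eq_zero.1 k).resolve_left (neg_ne_zero.2
        (mul_ne_zero (by exact_mod_cast (by omega : 1 + m ≠ 0))
          (Nat.cast_ne_zero.2 hm.ne'))), zero_div]
    · by_cases e : (m : O) ∣ a
      · simp [ch, EA.phi_dvd h1 per e]
      have e2 : ((1 + m : ℕ) : O) • tq a m = tq a m := by
        rw [Nat.cast_add, add_smul, z, add_zero, Nat.cast_one, one_smul]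
      rw [← EA.tq_eq _ m0, dl_Zt m0 b0 (z a) (by rwa [e2, Ne, EA.tq_eq_zero m0]), e2, nm,
        Zsqrtd.norm_natCast, Int.natAbs_mul, Int.natAbs_natCast, map_natCast, ch]
      push_cast
      ring
  · have per := QF.f8_per hφ.per k
    have m0 : (m : O) ≠ 0 := hR.ne
    have e := Lq_spec m0 (t5a_pd per) c0
    rw [h, map_zero, mul_zero, Lc_rep (EA.isRep_box hm) (g := fun a => jc (ch φ a))
      (fun a b e => congrArg jc (t5a_pd per a b e)) (by rw [c0, map_zero]),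
      sum_image fun p _ q _ e => by simpa [Prod.ext_iff] using e, sum_product] at e
    refine EA.sum_prim h1 hm per ?_ hR (((by decide : 4 ∣ 8).mul_right _).trans k) hb hd
    rw [← (mul_eq_zero.1 e).resolve_left (div_ne_zero EA.Om_ne (EA.coe_ne m0)), EA.ES]
    simp only [ch, EA.jc_io, map_natCast]

theorem Lq_ne {D : ℤ} (hD : QA.Fam D) {q : ℕ} (hq : q.Prime) (h2 : q ≠ 2)
    (hv : Odd (padicValInt q D)) (h : B2.Stmt.CorankLE (QP.EQ D) 0) {φ : O → O} (hφ : Phi D φ) :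
    Lq (ch φ) ≠ 0 := fun e => by
  have hz := (hz_iff hD.ne hφ).2 e
  obtain ⟨c, rfl, rfl⟩ := exists_cb hD hq h2 hv hφ
  exact (Cx.ok1 ⟨c, fun k => (c.exists_lv k).some⟩ h (c.van hz)).false

end Pool.Agent.Lib.MP_696deb_nt.Y2.TL
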