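import Pool.Agent.Lib.MP_696deb_nt.Y2.TL6a

/-! The companion character at an admissible prime. -/

set_option autoImplicit false

open scoped Classical NNReal ComplexConjugate
open Finset

namespace Pool.Agent.Lib.MP_696deb_nt.Y2.TL

open EU

theorem tl6_four {p : ℕ} [Fact p.Prime] (h : p % 4 = 1) {x : ZMod p} (h0 : x ≠ 0)
    (k : x ^ (p / 4) = 1) : ∃ y, y ^ 4 = x := by
  have h2 := (Fact.out : p.Prime).two_le
  obtain ⟨g, hg⟩ := IsCyclic.exists_generator (α := (ZMod p)ˣ)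
  obtain ⟨n, hn⟩ := mem_powers_iff_mem_zpowers.2 (hg (Units.mk0 x h0))
  have e : g ^ n = Units.mk0 x h0 := hn
  have d : orderOf g ∣ n * (p / 4) :=
    orderOf_dvd_of_pow_eq_one (by rw [pow_mul, e]; exact Units.ext k)
  rw [orderOf_eq_card_of_forall_mem_zpowers hg, Nat.card_eq_fintype_card, ZMod.card_units,
    show p - 1 = 4 * (p / 4) by omega] at d
  obtain ⟨m, rfl⟩ := Nat.dvd_of_mul_dvd_mul_right (by omega) d
  exact ⟨(g ^ m : (ZMod p)ˣ), by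
    rw [← Units.val_pow_eq_pow_val, ← pow_mul, mul_comm, e, Units.val_mk0]⟩

theorem tl6_X {X : O → O} (hX : QF.IsX 5 X) (r : TP) (h : nm r.π = r.v.p) (h5 : ¬ r.π ∣ 5)
    (k : ¬ ∃ a : O, r.π ∣ a ^ 4 - 5) : X r.π ^ 4 = 1 ∧ X r.π ≠ 1 := by
  have hp := r.v.prime
  have := Fact.mk hp
  have h4 : r.v.p % 4 = 1 := h ▸ r.nm_mod
  have n5 : 5 ≠ r.v.p := fun e => h5 (by simpa [← e] using r.dvd_p)
  have d5 : ¬ 5 ∣ r.v.p := fun e => n5 ((Nat.prime_dvd_prime_iff_eq Nat.prime_five hp).1 e)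
  have hn : r.π.norm = r.v.p := by
    rw [← h, nm, Int.natAbs_of_nonneg (GaussianInt.norm_nonneg _)]
  refine ⟨hX.four _ (hn ▸ mt Int.natCast_dvd_natCast.1 d5), fun e => k ?_⟩
  obtain ⟨z, ρ, χ, q⟩ := QF.exists_qc h4
  have e1 : X z = 1 := by
    rcases r.prime.dvd_or_dvd (QF.f3_mul q.norm ▸ r.dvd_p) with d | d
    · rwa [prim_assoc r.prim q.prim (r.prime.associated_of_dvd (QF.f3_prime hp q.norm) d)] at e
    · rwa [prim_assoc r.prim (EA.prim_star q.prim) (r.prime.associated_of_dvd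
        (QF.f3_prime hp ((Zsqrtd.norm_conj z).trans q.norm)) d), hX.conj, star_eq_iff_star_eq,
        star_one, eq_comm] at e
  have e2 := q.spec (QF.qs 5 : ℤ)
  rw [q.recip Nat.prime_five (by norm_num) n5 hX, e1, map_one, show QF.qs 5 = (5 : ℕ) by decide,
    Int.cast_natCast] at e2
  obtain ⟨y, hy⟩ := tl6_four h4 (fun c => n5 ((Nat.prime_dvd_prime_iff_eq hp Nat.prime_five).1
    ((ZMod.natCast_eq_zero_iff _ _).1 c)).symm) e2.symm
  obtain ⟨a, rfl⟩ := ZMod.intCast_surjective y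
  have d : (r.v.p : ℤ) ∣ a ^ 4 - 5 := (ZMod.intCast_zmod_eq_zero_iff_dvd _ _).1 (by
    rw [Int.cast_sub, Int.cast_pow, hy]
    simp)
  exact ⟨a, r.dvd_p.trans (by simpa using map_dvd (Int.castRingHom O) d)⟩

section
variable {D D' t : ℤ} (hD : QA.Fam D) (hD' : QA.Fam D') (ht : D' * t ^ 4 = 5 * D ^ 3)
include hD hD' ht

theorem comp_r {φ φ' : O → O} (hφ : Phi D φ) (hφ' : Phi D' φ') {b : O} {r : TP} {u : ℕ}
    (h : AdmR D φ b r u) (x : Ix r u) (hu : 2 ≤ u) :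
    φ r.π = 1 ∧ (2 : O) ^ u ∣ r.π - 1 ∧ c5 φ r.π = 1 ∧
      (c5 φ' r.π = ii ∨ c5 φ' r.π = -ii ∨ c5 φ' r.π = -1) := by
  have D0 : D ≠ 0 := fun e => hD 2 Nat.prime_two (e ▸ dvd_zero _)
  have n5 : ¬ r.π ∣ 5 := fun e => h.nd (e.trans ⟨2 * D * nm b, by push_cast; ring⟩)
  have c := r.prime.irreducible.coprime_iff_not_dvd.2 n5
  have k := hφ.unit D0 (r.prime.irreducible.coprime_iff_not_dvd.2 fun e =>
    h.nd (e.trans ⟨5 * nm b, by push_cast; ring⟩))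
  have e1 : φ r.π = 1 := prim_assoc (g1_prim.2 (by
      have := ((show w ^ 3 ∣ 2 ^ 2 from ⟨⟨-1, -1⟩, by decide⟩).trans
        ((pow_dvd_pow 2 hu).trans h.one)).sub ((g1_prim.1 r.prim).mul_left (φ r.π))
      rwa [show φ r.π * r.π - 1 - φ r.π * (r.π - 1) = φ r.π - 1 by ring] at this))
    (g1_prim.2 (by simp)) (associated_one_iff_isUnit.2 (IsUnit.of_mul_eq_one _ k.2))
  have e2 := h.one
  rw [e1, one_mul] at e2
  refine ⟨e1, e2, by rw [c5, if_pos c, e1], ?_⟩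
  obtain ⟨X, hX⟩ := QF.exists_X Nat.prime_five (by norm_num)
  obtain ⟨x1, x2⟩ := tl6_X hX r h.split n5 h.five
  rw [comp_eq hD hD' ht hφ hφ' hX, e1, star_one, one_mul]
  rcases QF.f1_roots QF.f1_ii x1 with e | e | e | e
  · exact absurd e x2
  all_goals
    rw [e]
    decide

end

end Pool.Agent.Lib.MP_696deb_nt.Y2.TL
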