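import Pool.Agent.Lib.MP_696deb_nt.Y2.TL3
import Pool.Agent.Lib.MP_696deb_nt.Y2.TL5
import Pool.Agent.Lib.MP_696deb_nt.Y2.TL5a
import Pool.Agent.Lib.MP_696deb_nt.Y2.TL6
import Pool.Agent.Lib.MP_696deb_nt.EU.KMain

/-! The value of the tame double series has bounded valuation. -/

set_option autoImplicit false

open scoped Classical NNReal ComplexConjugate
open Finset

namespace Pool.Agent.Lib.MP_696deb_nt.Y2.TL

open EU

theorem t7_eul {z ζ : O} {u : ℕ} (hu : 2 ≤ u) (h : (2 : O) ^ u ∣ z - 1)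
    (k : ζ = ii ∨ ζ = -ii ∨ ζ = -1) : w2.V 2 ≤ w2.V (1 - io ζ / io z) := by
  obtain ⟨c, e⟩ := (pow_dvd_pow (2 : O) hu).trans h
  have r : ∀ y : O, Q4.red (1 + 2 * y) = 1 := fun y => EA.red_iff.2 (by
    simp only [two_mul, Zsqrtd.re_add, Zsqrtd.im_add, Zsqrtd.re_one, Zsqrtd.im_one]
    omega)
  have z1 : w2.V (io z) = 1 := V_w2_odd (by
    rw [show z = 1 + 2 * (2 * c) by linear_combination e]
    exact r _)
  have z0 : io z ≠ 0 := fun e => by simp [e] at z1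
  obtain ⟨y, hy⟩ : ∃ y, (1 - ζ) * y = 2 := by
    rcases k with rfl | rfl | rfl
    · exact ⟨1 + ii, by decide⟩
    · exact ⟨1 - ii, by decide⟩
    · exact ⟨1, by decide⟩
  have k1 : (z - ζ) * y = 2 * (1 + 2 * (c * y)) := by linear_combination hy + y * e
  have k2 := congrArg (fun a => w2.V (io a)) k1
  simp only [map_mul, V_w2_odd (r _), mul_one, map_ofNat] at k2
  rw [one_sub_div z0, map_div₀, z1, div_one, ← map_sub, ← k2]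
  exact mul_le_of_le_one_right zero_le (EA.V_io_le _ _)

theorem t7_star {z : O} (h : Prime z) : Prime (star z) := (MulEquiv.prime_iff (starRingAut (R := O))).2 h

theorem t7_mu {D : ℤ} {φ : O → O} (h : Phi D φ) {m : O} (k : ((8 * D : ℤ) : O) ∣ m) (k5 : 5 ∣ m) :
    Mu m (ch φ) ∧ Mu m (cut be (ch φ)) ∧ Mu m (ch (c5 φ)) := by
  have a1 := (mu_ch h).mono k
  have a2 := a1.cut EA.be_prime (Dvd.dvd.trans ⟨star be, by decide⟩ k5)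
  exact ⟨a1, a2, ch_c5 φ ▸ a2.cut (t7_star EA.be_prime) (Dvd.dvd.trans ⟨be, by decide⟩ k5)⟩

theorem t7_ne {D : ℤ} {φ : O → O} (h : Phi D φ) :
    1 - ch φ be / io be ≠ 0 ∧ 1 - cut be (ch φ) (star be) / io (star be) ≠ 0 := by
  have k : ∀ a, (star (φ a)).norm ≤ 1 := fun a => by rw [Zsqrtd.norm_conj]; exact h.gch.bd a
  refine ⟨eul_ne (k _) (by decide), ?_⟩
  rw [cut]
  split_ifs
  · simp
  · exact eul_ne (k _) (by decide)

theorem t7_conj {D : ℤ} {φ : O → O} (h : Phi D φ) (a : O) : ch (c5 φ) (star a) = io (c5 φ a) := by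
  have k : ∀ a : O, IsCoprime a 5 → IsCoprime (star a) 5 := fun a k => by
    simpa [starRingEnd_apply] using k.map (starRingEnd O)
  have k2 : IsCoprime (star a) 5 ↔ IsCoprime a 5 := ⟨fun e => by simpa using k _ e, k a⟩
  simp only [ch, c5, k2]
  split_ifs
  · rw [h.gch.conj, star_star]
  · rw [star_zero]

section
variable {D D' t : ℤ} (hD : QA.Fam D) (hD' : QA.Fam D') (ht : D' * t ^ 4 = 5 * D ^ 3) {q : ℕ}
  (hq : q.Prime) (h2 : q ≠ 2) (h5 : q ≠ 5) (hv : Odd (padicValInt q D))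
  (h1 : B2.Stmt.CorankLE (QP.EQ D) 1) (h0 : B2.Stmt.CorankLE (QP.EQ D') 0) {φ φ' : O → O}
  (hφ : Phi D φ) (hφ' : Phi D' φ') (hz : Hz D φ)
include hD hD' ht hq h2 h5 hv h1 h0 hφ hφ' hz

theorem tl_main : ∃ (b : O) (δ K : ℝ≥0), 0 < δ ∧ ∀ v, ∃ u ≥ v, ∃ (r : TP) (x : Ix r u),
    AdmR D φ b r u ∧ ∃ B0 : Qbar, δ ≤ w2.V B0 ∧ ∀ a0, ¬ r.π ∣ a0 → ∃ B : Qbar,
      val1 (TD φ φ' x a0) = Om ^ 2 * jc B ∧ w2.V (B - B0) ≤ K * w2.V (2 ^ u) := by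
  obtain ⟨b, e, a, -, b2, -, hb⟩ := kur_main hD hq h2 h5 hv h1 hφ hz
  have z0 := (hz_iff hD.ne hφ).1 hz
  have n8 : ∀ {D : ℤ}, D ≠ 0 → ((8 * D : ℤ) : O) ≠ 0 := fun h =>
    Int.cast_ne_zero.2 (mul_ne_zero (by norm_num) h)
  have hm : ((8 * D : ℤ) : O) * ((8 * D' : ℤ) : O) * 5 ≠ 0 :=
    mul_ne_zero (mul_ne_zero (n8 hD.ne) (n8 hD'.ne)) (by decide)
  obtain ⟨a1, a2, a3⟩ := t7_mu hφ ((dvd_mul_right _ ((8 * D' : ℤ) : O)).mul_right 5)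
    (dvd_mul_left _ _)
  obtain ⟨c1, c2, c3⟩ := t7_mu hφ' ((dvd_mul_left _ ((8 * D : ℤ) : O)).mul_right 5)
    (dvd_mul_left _ _)
  generalize ((8 * D : ℤ) : O) * ((8 * D' : ℤ) : O) * 5 = m at hm a1 a2 a3 c1 c2 c3
  obtain ⟨K, -, hK⟩ := exists_bd hm
  have p : ∀ {y : Qbar}, y ≠ 0 → 0 < w2.V y := fun h => B2.b3a_pos w2 h
  have s0 : star be ≠ 0 := by decide
  have z1 : Lq (cut be (ch φ)) = 0 := by rw [Lq_cut hm a1 EA.be_ne, z0, mul_zero]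
  have z2 : Lq (ch (c5 φ)) = 0 := by rw [ch_c5, Lq_cut hm a2 s0, z1, mul_zero]
  have y2 : Lq (ch (c5 φ')) ≠ 0 := by
    rw [ch_c5, Lq_cut hm c2 s0, Lq_cut hm c1 EA.be_ne]
    exact mul_ne_zero (t7_ne hφ').2 (mul_ne_zero (t7_ne hφ').1
      (Lq_ne hD' hq h2 (comp_odd hD hD' ht hq h5 hv) h0 hφ'))
  have n5 : ∀ {u} {r : TP}, AdmR D φ b.π r u → ∀ {y : O}, y ∣ 5 → ¬ r.π ∣ y := fun h y k e =>
    h.nd ((e.trans k).trans ⟨2 * D * nm b.π, by push_cast; ring⟩)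
  obtain ⟨K0, κ, k0, k1⟩ := kur_Lq hD.ne hφ z0 b b2 e
  have B0 : Big D φ b.π fun _ _ x => kur φ ((D.natAbs * 2 ^ (e + 3) : ℕ) : O) b.π x :=
    ⟨_, p (pow_ne_zero a two_ne_zero), hb⟩
  have B1 := B0.of k0 k1
  have B2 : Big D φ b.π fun _ _ x => Lq fun a => cut be (ch φ) a * tw x a :=
    B1.of (p (t7_ne hφ).1) fun u r x h =>
      ⟨_, le_rfl, Lq_cut_tw hm a1 z0 hK EA.be_red x (n5 h ⟨star be, by decide⟩)⟩
  have B3 : Big D φ b.π fun _ _ x => Lq fun a => cut (star be) (cut be (ch φ)) a * tw x a :=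
    B2.of (p (t7_ne hφ).2) fun u r x h =>
      ⟨_, le_rfl, Lq_cut_tw hm a2 z1 hK (by decide) x (n5 h ⟨be, by decide⟩)⟩
  rw [← ch_c5] at B3
  obtain ⟨δ, d0, B3⟩ := B3
  refine ⟨b.π, w2.V 2 * w2.V (Lq (ch (c5 φ'))) * δ, K * K,
    mul_pos (mul_pos (p two_ne_zero) (p y2)) d0, fun v => ?_⟩
  obtain ⟨u, hu, r, x, h, k⟩ := B3 (max v 2)
  have u2 := le_of_max_le_right hu
  obtain ⟨-, r1, -, r2⟩ := comp_r hD hD' ht hφ hφ' h x u2
  refine ⟨u, le_of_max_le_left hu, r, x, h,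
    Lq (cut (star r.π) (ch (c5 φ'))) * Lq fun a => ch (c5 φ) a * tw x a, ?_, fun a0 h0 => ?_⟩
  · rw [map_mul, Lq_cut hm c3 (star_ne_zero.2 r.prime.ne_zero), map_mul, t7_conj hφ']
    refine mul_le_mul' (mul_le_mul' (t7_eul u2 ?_ r2) le_rfl) k
    simpa [starRingEnd_apply] using map_dvd (starRingEnd O) r1
  · have := DD_tw hm hK a3 c3 x (by rw [Lq_cut hm a3 r.prime.ne_zero, z2, mul_zero]) h0
    simp only [t7_conj hφ', EA.jc_io] at this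
    simpa only [TD, ch, EA.jc_io, GaussianInt.toComplex_star] using this

theorem tl_end {C : ℂ} (hC : C ≠ 0) : ∃ (b : O) (δ : ℝ≥0), 0 < δ ∧ ∀ v, ∃ u ≥ v,
    ∃ (r : TP) (x : Ix r u), AdmR D φ b r u ∧ ∀ a0, ¬ r.π ∣ a0 → ∀ X : Qbar,
      jc X = C * val1 (TD φ φ' x a0) → δ ≤ w2.V X := by
  obtain ⟨b, δ, K, d0, h⟩ := tl_main hD hD' ht hq h2 h5 hv h1 h0 hφ hφ' hz
  obtain ⟨κ, k0, k1⟩ : ∃ κ : Qbar, κ ≠ 0 ∧ ∀ y, jc y = C * Om ^ 2 → y = κ := by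
    by_cases e : ∃ y, jc y = C * Om ^ 2
    · obtain ⟨y, e⟩ := e
      exact ⟨y, fun k => mul_ne_zero hC (pow_ne_zero 2 EA.Om_ne) (by rw [← e, k, map_zero]),
        fun y' e' => jc.injective (e'.trans e.symm)⟩
    · exact ⟨1, one_ne_zero, fun y k => (e ⟨y, k⟩).elim⟩
  obtain ⟨v0, hv0⟩ : ∃ v0, ∀ u ≥ v0, K * w2.V (2 ^ u) < δ := by
    have := (NNReal.tendsto_pow_atTop_nhds_zero_of_lt_one V_two_lt).const_mul K
    rw [mul_zero] at this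
    simpa only [map_pow] using Filter.eventually_atTop.1 (this.eventually (gt_mem_nhds d0))
  refine ⟨b, w2.V κ * δ, mul_pos (B2.b3a_pos w2 k0) d0, fun v => ?_⟩
  obtain ⟨u, hu, r, x, a1, B0, a2, a3⟩ := h (max v v0)
  refine ⟨u, le_of_max_le_left hu, r, x, a1, fun a0 k X e => ?_⟩
  obtain ⟨B, b1, b2⟩ := a3 a0 k
  have b3 : δ ≤ w2.V B := by
    rw [w2.V.map_eq_of_sub_lt ((b2.trans_lt (hv0 u (le_of_max_le_right hu))).trans_le a2)]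
    exact a2
  have b4 : B ≠ 0 := fun e => by simp [e, d0.ne'] at b3
  have b5 := k1 (X / B) (by
    rw [map_div₀, e, b1, ← mul_assoc, mul_div_cancel_right₀ _ ((map_ne_zero jc).2 b4)])
  rw [(div_eq_iff b4).1 b5, map_mul]
  exact mul_le_mul' le_rfl b3

end

theorem TD_ent {D D' : ℤ} (hD : D ≠ 0) (hD' : D' ≠ 0) {φ φ' : O → O} (hφ : Phi D φ)
    (hφ' : Phi D' φ') {r : TP} {u : ℕ} (x : Ix r u) (a0 : O) : Ent (TD φ φ' x a0) := by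
  have n8 : ∀ {D : ℤ}, D ≠ 0 → ((8 * D : ℤ) : O) ≠ 0 := fun h =>
    Int.cast_ne_zero.2 (mul_ne_zero (by norm_num) h)
  have hm : ((8 * D : ℤ) : O) * ((8 * D' : ℤ) : O) * 5 ≠ 0 :=
    mul_ne_zero (mul_ne_zero (n8 hD) (n8 hD')) (by decide)
  obtain ⟨-, -, a3⟩ := t7_mu hφ ((dvd_mul_right _ ((8 * D' : ℤ) : O)).mul_right 5)
    (dvd_mul_left _ _)
  obtain ⟨-, -, c3⟩ := t7_mu hφ' ((dvd_mul_left _ ((8 * D : ℤ) : O)).mul_right 5)
    (dvd_mul_left _ _)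
  have k : ∀ {ψ : O → O} {m : O}, Mu m (ch ψ) → Pd m fun a => conj (ψ a : ℂ) := fun h a b e => by
    simpa only [ch, EA.jc_io, GaussianInt.toComplex_star] using congrArg jc (h.per a b e)
  obtain ⟨R, hR, -⟩ := exists_rep r.prime.ne_zero
  exact (DD_val hR hm (fun a b e => by rw [tw_pd x _ _ (mul_sub a0 a b ▸ e.mul_left a0)]) (k a3)
    fun a b e => (starRingEnd ℂ).injective (k c3 a b e)).1

end Pool.Agent.Lib.MP_696deb_nt.Y2.TL
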