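import Pool.Agent.Lib.MP_696deb_nt.Y2.TL3a
import Pool.Agent.Lib.MP_696deb_nt.Y2.TLra

/-! Pairs of elements of equal norm. -/

set_option autoImplicit false

open scoped Classical NNReal ComplexConjugate
open Finset

namespace Pool.Agent.Lib.MP_696deb_nt.Y2.TL

open EU

theorem tlr_four (k : ℕ) : ii ^ (3 * k) * ii ^ k = 1 := by
  rw [← pow_add, show 3 * k + k = 4 * k by ring, pow_mul, show ii ^ 4 = 1 by decide, one_pow]

/-- Rotations of pairs with a primary second entry. -/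
def tlrI (y : {y : O × O × Fin 4 // ¬ w ∣ y.1 ∧ Prim y.2.1}) : O × O :=
  (ii ^ (3 * y.1.2.2 : ℕ) * y.1.1, ii ^ (y.1.2.2 : ℕ) * y.1.2.1)

theorem tlr_inj : Function.Injective tlrI := by
  rintro ⟨⟨a, b, j⟩, ha, hb⟩ ⟨⟨a', b', j'⟩, ha', hb'⟩ e
  obtain ⟨e1, e2⟩ := Prod.mk.inj e
  obtain rfl : b = b' := prim_assoc hb hb' ((associated_unit_mul_left b _
    (Q4.isUnit_ii.pow j)).symm.trans (e2 ▸ associated_unit_mul_left b' _ (Q4.isUnit_ii.pow j')))
  obtain rfl : j = j' := (by decide : ∀ j j' : Fin 4, ii ^ (j : ℕ) = ii ^ (j' : ℕ) → j = j') _ _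
    (mul_right_cancel₀ (EA.ne_of_red (EA.prim_red hb)) e2)
  obtain rfl : a = a' := mul_left_cancel₀ (Q4.isUnit_ii.pow _).ne_zero e1
  rfl

theorem tlr_range {p : O × O} (h : ¬ w ∣ p.1 * p.2) : p ∈ Set.range tlrI := by
  obtain ⟨n, hn⟩ := exists_prim (((by decide : ∀ a : ZMod 2, a = 0 ∨ a = 1) _).resolve_left
    fun e => h ((EA.w_dvd e).mul_left p.1))
  obtain ⟨j, hj⟩ : ∃ j : Fin 4, ii ^ (j : ℕ) * ii ^ n = 1 := ⟨⟨3 * n % 4, Nat.mod_lt _ four_pos⟩, by
    rw [← pow_eq_pow_mod _ (by decide), tlr_four]⟩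
  refine ⟨⟨(ii ^ (j : ℕ) * p.1, ii ^ n * p.2, j), fun e => h (.mul_right ?_ _), hn⟩, ?_⟩
  · exact (Q4.isUnit_ii.pow _).dvd_mul_left.1 e
  · rw [tlrI, ← mul_assoc, ← mul_assoc, tlr_four, hj, one_mul, one_mul]

theorem rp {V U : O → ℂ} {K : ℝ} (hV : ∀ a, ‖V a‖ ≤ K) (hU : ∀ a, ‖U a‖ ≤ K * ‖(a : ℂ)‖)
    (odd : ∀ a, w ∣ a → V a = 0) (inv : ∀ a, U (ii * a) = U a) {s : ℂ} (hs : 3 / 2 < s.re) :
    HasSum (fun x : ℕ × O => V (x.1 * x.2) * (∑ β ∈ QF.reps (nm x.2), U (x.1 * β)) /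
      (nm (x.1 * x.2) : ℂ) ^ s)
      (∑' p : O × O, V (p.1 * p.2) * U (p.1 * star p.2) / (nm (p.1 * p.2) : ℂ) ^ s) := by
  have K0 : 0 ≤ K := (norm_nonneg _).trans (hV 0)
  have inv' : ∀ k a, U (ii ^ k * a) = U a := fun k a => by
    induction k with
    | zero => rw [pow_zero, one_mul]
    | succ k ih => rw [pow_succ', mul_assoc, inv, ih]
  have h1 : Summable fun p : O × O =>
      V (p.1 * p.2) * U (p.1 * star p.2) / (nm (p.1 * p.2) : ℂ) ^ s := by
    refine .of_norm_bounded (DD_sum (W := V) (g := fun _ => K) (h := fun _ => 1) (K := max K 1)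
      (fun a => le_max_of_le_left (hV a)) (fun _ => by simp [abs_of_nonneg K0])
      (fun _ => by simp) hs) fun p => ?_
    have := hU (p.1 * star p.2)
    rw [map_mul, GaussianInt.toComplex_star, norm_mul, Complex.norm_conj] at this
    simp only [norm_div, norm_mul, Complex.norm_conj, Complex.norm_real, one_mul, mul_assoc,
      Real.norm_of_nonneg K0]
    gcongr
  obtain ⟨e, he⟩ := rp_bij
  have h2 := e.hasSum_iff.2 ((tlr_inj.hasSum_iff fun p hp => by
    rw [odd _ (by_contra fun k => hp (tlr_range k)), zero_mul, zero_div]).2 h1.hasSum)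
  have h3 : HasSum (fun x : ℕ × O × O => if nm x.2.2 = nm x.2.1 then
      V (x.1 * x.2.1) * U (x.1 * x.2.2) / (nm (x.1 * x.2.1) : ℂ) ^ s else 0) _ :=
    (Subtype.val_injective.hasSum_iff fun x hx => by
      split_ifs with k
      · rw [odd _ (by_contra fun d => hx ⟨⟨x, d, k⟩, rfl⟩), zero_mul, zero_div]
      · rfl).1 (h2.congr_fun fun x => by
        obtain ⟨e1, e2⟩ := he x
        simp only [Function.comp, tlrI, if_pos x.2.2, e1, e2, inv']
        rw [mul_mul_mul_comm, tlr_four, one_mul, star_mul', star_pow,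
          show star ii = ii ^ 3 by decide, ← pow_mul, mul_mul_mul_comm, ← pow_add, inv'])
  refine ((Equiv.prodAssoc ℕ O O).hasSum_iff.2 h3).prod_fiberwise fun x => ?_
  have m : ∀ β, β ∈ QF.reps (nm x.2) ↔ nm β = nm x.2 := fun β => by
    have := GaussianInt.norm_nonneg β
    rw [QF.mem_reps, show nm β = β.norm.natAbs from rfl]
    omega
  rw [mul_sum, sum_div, ← sum_congr rfl fun β h => if_pos ((m β).1 h)]
  exact hasSum_sum_of_ne_finset_zero fun β h => if_neg (mt (m β).2 h)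

end Pool.Agent.Lib.MP_696deb_nt.Y2.TL
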