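import Pool.Agent.Lib.MP_696deb_nt.EU.KSel
import Pool.Agent.Lib.MP_696deb_nt.QK.Top

/-! The isogeny of degree two keeps the corank and the Euler factors. -/

set_option autoImplicit false

open scoped Classical
open Finset

namespace Pool.Agent.Lib.MP_696deb_nt.Y2

open B2 (Gam)
open Q4 (A O Tw w II zq)
open EU (KsQ)
open QP (EQ cw Gro)
open B2.Stmt (CorankLE)

/-- The growth of the number of Selmer cocycles. -/
def GroT (t : Tw) (e : ℕ) : Prop := ∃ C : ℕ, ∀ (m : ℕ) (s : Finset (Gam → A)),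
  (∀ ξ ∈ s, KsQ t m ξ) → s.card ≤ C * 2 ^ (e * m)

theorem groT_iff (t : Tw) (e : ℕ) : @Gro (cw t.N t.ne) e ↔ GroT t e := by
  have c2 : ∀ (k : ℕ) (P : A), (2 : O) ^ k • P = 2 ^ k • P := fun k P => by
    rw [← Nat.cast_smul_eq_nsmul O, Nat.cast_pow, Nat.cast_ofNat]
  let _ := cw t.N t.ne
  let Ψ : Pool.Agent.B6.EE ≃+ A := Q4.linkPsi t.ne t.pw
  have e1 : ∀ (g : Gam) (P : A), g • Ψ.symm P = Ψ.symm (t.tw g P) := fun g P =>
    Ψ.injective ((Q4.link_pm t.ne t.pw t.pw (g : B2.Qbar →+* B2.Qbar) (Ψ.symm P)).trans (by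
      rw [Ψ.apply_symm_apply]
      exact congrArg (t.tw g) (Ψ.apply_symm_apply P)))
  have e2 : ∀ (P S : A) (g : Gam), P = t.cob S g ↔ Ψ.symm P =
      Pool.Agent.B6.tw 1 g (Ψ.symm S) - Ψ.symm S := fun P S g => by
    rw [QP.tw_one, e1, ← map_sub, Ψ.symm.apply_eq_iff_eq, Q4.Tw.cob]
  have key : ∀ (m : ℕ) (ξ : Gam → A), KsQ t m ξ ↔
      Pool.Agent.B6.hSel 1 (fun g => Ψ.symm (ξ g)) ∧ ∀ g, 2 ^ m • Ψ.symm (ξ g) = 0 := fun m ξ =>
    ⟨fun h => ⟨⟨h.sm.comp fun P => Ψ.symm P, fun g k => by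
        simp only [QP.tw_one, e1, h.coc, map_add],
      fun v => (h.loc v).elim fun S k => ⟨_, fun g hg => (e2 _ S g).1 (k g hg)⟩,
      h.inf.elim fun S k => ⟨_, (e2 _ S _).1 k⟩⟩, fun g => by
        rw [← map_nsmul, ← c2, h.tor, map_zero]⟩,
    fun ⟨h, k⟩ => ⟨by simpa using h.sm.comp Ψ, fun g => Ψ.symm.injective (by
        rw [c2, map_nsmul, k, map_zero]), fun g g' => Ψ.symm.injective (by
        rw [map_add, ← e1, ← QP.tw_one]
        exact h.coc g g'),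
      h.inf.elim fun S k => ⟨Ψ S, (e2 _ _ _).2 (by rwa [Ψ.symm_apply_apply])⟩,
      fun v => (h.loc v).elim fun S k => ⟨Ψ S, fun g hg => (e2 _ _ _).2 (by
        rw [Ψ.symm_apply_apply]
        exact k g hg)⟩⟩⟩
  refine exists_congr fun C => forall_congr' fun m => ⟨fun h s hs => ?_, fun h s hs => ?_⟩
  · rw [← card_image_of_injective s (f := fun ξ g => Ψ.symm (ξ g))
      fun ξ η k => funext fun g => Ψ.symm.injective (congrFun k g)]
    refine h _ fun x hx => ?_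
    obtain ⟨ξ, hξ, rfl⟩ := mem_image.1 hx
    exact (key m ξ).1 (hs ξ hξ)
  · rw [← card_image_of_injective s (f := fun ξ g => Ψ (ξ g))
      fun ξ η k => funext fun g => Ψ.injective (congrFun k g)]
    refine h _ fun x hx => ?_
    obtain ⟨ξ, hξ, rfl⟩ := mem_image.1 hx
    exact (key m _).2 (by simpa only [Ψ.symm_apply_apply] using hs ξ hξ)

theorem groT_of {t t' : Tw} (ht : ∀ g P, w • t.tw g P = t'.tw g (w • P)) {e e' : ℕ}
    (h0 : GroT t e') (h : GroT t' e) : GroT t e := by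
  obtain ⟨C0, h0⟩ := h0
  obtain ⟨C, h⟩ := h
  have hc : ∀ S g, w • t.cob S g = t'.cob (w • S) g := fun S g => by
    rw [Q4.Tw.cob, Q4.Tw.cob, smul_sub, ht]
  have sb : ∀ S S' g, t.cob S g - t.cob S' g = t.cob (S - S') g := fun S S' g => by
    simp only [Q4.Tw.cob, map_sub]
    abel
  refine ⟨C0 * 2 ^ (e' * 1) * C, fun m s hs => ?_⟩
  rw [mul_assoc]
  refine (card_le_mul_card_image (f := fun ξ => w • ξ) s _ fun x hx => ?_).trans
    (Nat.mul_le_mul_left _ (h m _ fun x hx => ?_))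
  · obtain ⟨η, hη, rfl⟩ := mem_image.1 hx
    rw [← card_image_of_injective _ (sub_left_injective (b := η))]
    refine h0 1 _ fun x hx => ?_
    obtain ⟨ξ, k, rfl⟩ := mem_image.1 hx
    obtain ⟨a, b⟩ := mem_filter.1 k
    obtain ⟨a1, -, a3, ⟨S, a4⟩, a5⟩ := hs ξ a
    obtain ⟨b1, -, b3, ⟨S', b4⟩, b5⟩ := hs η hη
    refine ⟨a1.comp₂ b1 (· - ·), fun g => ?_, fun g g' => ?_,
      ⟨S - S', by rw [Pi.sub_apply, a4, b4, sb]⟩, fun v => ?_⟩
    · have k1 : w • ξ g = w • η g := congrFun b g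
      rw [pow_one, Q4.two_eq, pow_two, ← mul_assoc, mul_smul, Pi.sub_apply, smul_sub w, k1, sub_self,
        smul_zero]
    · simp only [Pi.sub_apply, a3, b3, map_sub]
      abel
    · obtain ⟨R, hR⟩ := a5 v
      obtain ⟨R', hR'⟩ := b5 v
      exact ⟨R - R', fun g hg => by rw [Pi.sub_apply, hR g hg, hR' g hg, sb]⟩
  · obtain ⟨ξ, k, rfl⟩ := mem_image.1 hx
    obtain ⟨a1, a2, a3, ⟨S, a4⟩, a5⟩ := hs ξ k
    refine ⟨a1.comp (w • ·), fun g => ?_, fun g g' => ?_, ⟨w • S, by rw [Pi.smul_apply, a4, hc]⟩,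
      fun v => (a5 v).elim fun R hR => ⟨w • R, fun g hg => by rw [Pi.smul_apply, hR g hg, hc]⟩⟩
    · rw [Pi.smul_apply, smul_comm, a2, smul_zero]
    · simp only [Pi.smul_apply, a3, smul_add, ht]

/-- The corank bound passes to an isogenous curve. -/
theorem corank_isog {D E a b : ℤ} (hE : QA.Fam E) (hD : D ≠ 0) (ha : a ≠ 0)
    (h : D * a ^ 4 = -4 * E * b ^ 4) {r : ℕ} (hr : CorankLE (EQ D) r) : CorankLE (EQ E) r := by
  have hb : (b : Sm.Qb) ≠ 0 := Int.cast_ne_zero.2 fun e =>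
    mul_ne_zero hD (pow_ne_zero 4 ha) (by rw [h, e]; ring)
  have ha' : (a : Sm.Qb) ≠ 0 := Int.cast_ne_zero.2 ha
  let t : Tw := ⟨Q4.q4 E, E, hE.ne, Q4.q4_pow E⟩
  let t' : Tw := ⟨(t.it 1).ρ * (b / a), D, hD, by
    rw [mul_pow, (t.it 1).pw, div_pow, ← mul_div_assoc, div_eq_iff (pow_ne_zero 4 ha')]
    simp only [Q4.Tw.it, t, pow_one]
    exact_mod_cast h.symm⟩
  obtain ⟨s, -, hs⟩ := QP.exists_gro4 hE
  refine @QP.corank_of_gro (cw E hE.ne) r ((groT_iff t _).2 (groT_of (t' := t') (fun g P => ?_)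
    ((groT_iff t s).1 ((hs s).2 le_rfl))
    ((groT_iff t' _).1 (@QP.gro_of_corank (cw D hD) r hr)))) (QT.link hE.ne)
  rw [Q4.Tw.ellT_w_tw, Q4.Tw.tw, Q4.Tw.tw, Q4.zq_mul (ρ' := b / a), zq.eq_1 (b / a), map_div₀,
    map_intCast, map_intCast, div_self (div_ne_zero hb ha'), mul_one]

theorem pair_quarter {E : ℤ} (hD : QA.Fam (-4 * E)) (h : QK.Pair (-4 * E)) : QK.Pair E := by
  obtain ⟨h1, D', ⟨h2, m, m0, h3⟩, h4, q, q1, q2, q3, q4, -⟩ := h
  have hE := (QA.quarter hD).1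
  obtain ⟨E', k⟩ := QK.exists_comp hE.ne
  obtain ⟨c, hc⟩ := k.val hE.ne q1 q3
  have := Fact.mk q1
  rw [padicValInt.mul (by norm_num) hE.ne, padicValInt.eq_zero_of_not_dvd fun e => q2
    ((Nat.prime_dvd_prime_iff_eq q1 Nat.prime_two).1 (q1.dvd_of_dvd_pow (n := 2)
      (by exact_mod_cast dvd_neg.1 e))), zero_add] at q4
  obtain ⟨k1, n, n0, k2⟩ := id k
  refine ⟨corank_isog (a := 1) (b := 1) hE hD.ne one_ne_zero rfl h1, E', k,
    corank_isog (b := 2 * n) k1 h2.ne m0 (by linear_combination -h3 - 64 * k2) h4,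
    q, q1, q2, q3, q4, ?_⟩
  rw [Nat.odd_iff] at q4 ⊢
  omega

theorem cnt_quarter {E : ℤ} {p : ℕ} (hp : p.Prime) (h : ¬ (p : ℤ) ∣ 2 * E) :
    QF.cnt (-4 * E) p = QF.cnt E p := by
  have := Fact.mk hp
  have k := hp.eq_two_or_odd.resolve_left fun e => h (e ▸ dvd_mul_right _ _)
  rcases (by omega : p % 4 = 1 ∨ p % 4 = 3) with e | e
  · obtain ⟨z, ρ, χ, hq⟩ := QF.exists_qc e
    have e1 : χ ((-4 : ℤ) : ZMod p) = 1 := by
      rw [show ((-4 : ℤ) : ZMod p) = -1 * (2 * 2) by push_cast; ring, map_mul, map_mul, hq.neg_one,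
        hq.two, ← QF.ip_add, ← QF.ip_add, ← QF.ip_zero]
      congr 1
      ring
    have e2 := hq.count (D := -4 * E) fun k => h ((Nat.prime_iff_prime_int.1 hp).dvd_of_dvd_pow
      (n := 2) (k.trans ⟨-E, by ring⟩))
    rw [Int.cast_mul, map_mul, e1, one_mul, ← hq.count fun k => h (k.mul_left 2), Int.cast_inj] at e2
    omega
  · rw [QF.count_three e, QF.count_three e]

end Pool.Agent.Lib.MP_696deb_nt.Y2
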