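import Pool.Agent.Lib.MP_696deb_nt.Y2.WT3
import Pool.Agent.Lib.MP_696deb_nt.Y2.WF
import Pool.Agent.Lib.MP_696deb_nt.EU.G0

/-! The tame formula. -/

set_option autoImplicit false

open Complex Finset
open scoped ComplexConjugate Classical

namespace Pool.Agent.Lib.MP_696deb_nt.Y2

open QF (G ii ip Per FT mem_reps)

theorem wt_jc {e : ℂ} (h : IsIntegral ℤ e) : ∃ X : EU.Qbar, EU.w2.V X ≤ 1 ∧ EA.jc X = e := by
  obtain ⟨p, hp, he⟩ := h
  obtain ⟨X, rfl⟩ := (IsAlgClosed.splits (p.map (algebraMap ℤ EU.Qbar))).mem_range_of_isRoot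
    (hp.map _).ne_zero (i := EA.jc) (x := e) (by
      rw [Polynomial.map_map, Polynomial.IsRoot, Polynomial.eval_map,
        Subsingleton.elim (EA.jc.comp _) (algebraMap ℤ ℂ)]
      exact he)
  exact ⟨X, EU.w2.V_le_one_of_isIntegral ((isIntegral_algHom_iff EA.jc.toIntAlgHom
    EA.jc.injective).1 ⟨p, hp, he⟩), rfl⟩

theorem wt_unit {g : G} (h : g ^ 4 = 1) : star g * g = 1 := by
  have e : g.norm ^ 4 = 1 :=
    (map_pow (Zsqrtd.normMonoidHom (d := -1)) g 4).symm.trans (by rw [h, map_one])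
  rw [mul_comm, ← Zsqrtd.norm_eq_mul_conj,
    (pow_eq_one_iff_of_nonneg (GaussianInt.norm_nonneg g) four_ne_zero).1 e, Int.cast_one]

theorem W.Hom.lamA_hom {N : ℕ} {ψ : G → ℂ} {κ : G → G} (h : W.Hom N ψ κ)
    (ha : Adm (8 * N) (iFT (8 * N) ψ)) {t : G} (ht : IsCoprime t ((8 * N : ℕ) : G)) (c L : ℤ) (A : G) :
    lamA (8 * N) (iFT (8 * N) ψ) c (t.norm * L) (t * A) = κ t * lamA (8 * N) (iFT (8 * N) ψ) c L A := by
  have hs := cop_star ht
  obtain ⟨k, s, e⟩ : IsCoprime t.norm (2 * ((8 * N : ℕ) : ℤ) ^ 2) :=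
    ((cop_norm.1 ht).pow_right (n := 3)).of_isCoprime_of_dvd_right ⟨4 * N, by push_cast; ring⟩
  obtain ⟨p, q, e'⟩ := hs
  rw [ha.lamA_hom (k := k) ⟨-s, by linear_combination e⟩ (τ := (star (κ (star t)) : G)) fun x => ?_,
    ← map_mul, h.nrm t ht]
  rw [iFT, iFT, FT_eq, FT_eq, ← mul_div_assoc, ← sm_mul ha.pos (k := star t) (k' := p)
    (f := fun y => ψ y * q1 ((bil y (-x) : ℤ) / (8 * N : ℕ))) (fun y γ =>
      congrArg₂ _ (h.per y γ) (q1_bil_per ha.pos _ y γ)) ⟨-q, by linear_combination e'⟩, ← sm_mul_left]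
  refine congrArg (· / _) (sm_congr fun y => ?_)
  rw [h.eq _ ⟨p, q, e'⟩, ← mul_assoc, ← mul_assoc, ← map_mul, wt_unit (h.four _ ⟨p, q, e'⟩), map_one,
    one_mul, show bil (star t * y) (-x) = bil y (-(t * x)) by simp [bil]; ring]

theorem hol_sec (M : ℕ) (a : G → ℂ) (μ : ℕ) : (sec M a).hol μ =
    ∑ p ∈ wtP μ, ∑ x ∈ p.1.divisorsAntidiagonal, lamA M a x.1 x.2 p.2 := by
  rw [sum_wtP μ fun k A => ∑ x ∈ k.divisorsAntidiagonal, lamA M a x.1 x.2 A, An.Sec.hol]
  exact sum_congr rfl fun k _ => by simp only [lam_sec]; exact sum_comm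

theorem finL_sec (M : ℕ) (a : G → ℂ) (l : ℕ) (W : G → ℤ) (t : ℂ) (μ : ℕ) :
    ∑ p ∈ wtP μ, wtF l W (fun c L A => t * lamA M a c L A) p.1 p.2 =
      t * finL (sec M a) (lgN l W) μ := by
  rw [sum_wtP, finL, mul_sum]
  refine sum_congr rfl fun k _ => ?_
  simp only [lam_sec, wtF, sum_mul, mul_sum, mul_assoc]
  exact sum_comm

namespace Dat

variable (d : Dat)

theorem lam_rat : ∃ den : ℕ, 0 < den ∧ ∀ n c l, ∃ e : G, den * d.S.lam n c l = e := by
  refine ⟨4 * (8 * d.N) ^ 4, by have := d.N_pos; positivity, fun n c l => ?_⟩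
  choose g hg using d.lamA_int c l
  refine ⟨∑ A ∈ QF.reps n, g A, ?_⟩
  rw [S, lam_sec, mul_sum, map_sum, Nat.cast_mul, Nat.cast_pow]
  exact sum_congr rfl fun A _ => hg A

/-- The tame formula. -/
theorem tame : ∃ den B : ℕ, 0 < den ∧ ∀ (π : G) (l u : ℕ) (W : G → ℤ), B < l → TWt π l u W →
    ∃ (z : G) (X : EU.Qbar), z ^ 4 = 1 ∧ EU.w2.V X ≤ 1 ∧
      den * (2 * l * (d.St l W).hol (d.mu (l ^ 2)) - z * (finL d.S (lgN l W) (d.mu l) -
        (d.kap π + d.kap (star π) : G) * finL d.S (lgN l W) (d.mu 1))) = EA.jc (2 ^ u * X) := by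
  have N0 := d.N_pos
  have hh := W.dat_hom d
  have hk := W.dat_ker d
  have ha := hk.adm
  refine ⟨2 * (8 * d.N) ^ 4, 32 * d.N ^ 2, by positivity, fun π l u W hB h => ?_⟩
  have l0 : (l : ℂ) ≠ 0 := by exact_mod_cast h.prime.ne_zero
  have nM : ¬ (l : ℤ) ∣ 2 * (8 * d.N : ℕ) := fun e => by
    have := Int.le_of_dvd (by positivity) e
    push_cast at this
    nlinarith
  have c0 : IsCoprime (l : ℤ) ((8 * d.N : ℕ) : ℤ) :=
    h.prZ.irreducible.coprime_iff_not_dvd.2 fun e => nM (e.mul_left _)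
  have c1 : IsCoprime π ((8 * d.N : ℕ) : G) := cop_norm.2 (h.norm ▸ c0)
  have c2 := cop_star c1
  have h4 : (l : ℤ) % 4 = 1 := h.norm ▸ norm_odd (u := π) fun e => nM (by
    rw [h.norm] at e
    rw [← (Nat.prime_dvd_prime_iff_eq Nat.prime_two h.prime).1 (Int.natCast_dvd_natCast.1 e)]
    exact dvd_mul_right _ _)
  generalize hM : 8 * d.N = M at hh hk ha nM c0 c1 c2
  let a := iFT M d.ps
  let t : ℂ := (2 * M ^ 4 : ℕ)
  let S : ℤ → ℤ → G → ℤ → ℂ := fun c L A r =>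
    t * sm M fun x => a x * wtT (M * l) c L A (l * x + M * (π * r))
  have hc : WtC M l u π W (d.kap π) (d.kap (star π)) (star (d.kap (star π)) : G)
      (fun c L A => t * lamA M a c L A) S := by
    subst hM
    refine ⟨h, by omega, nM, wt_int_G _, wt_int_G _, by rw [← map_mul, wt_unit (hh.four _ c2), map_one],
      wt_int_lamA ha.pos fun x => ?_, fun k A => by rw [← mul_sum, d.van, mul_zero],
      fun c L A => by rw [← h.norm, hh.lamA_hom ha c1, mul_left_comm],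
      fun c L A => by rw [← h.norm, ← Zsqrtd.norm_conj, hh.lamA_hom ha c2, mul_left_comm],
      fun c L A => by rw [hk.hom l c0, W.et, ZMod.χ₄_int_one_mod_four h4, Int.cast_one, one_mul],
      fun c L => by rw [ha.lamA_at_zero, mul_zero],
      fun c L A γ A' L' e1 e2 => by rw [ha.lamA_shift e1 e2],
      fun c L A r A' L' e1 e2 => by
        simp only [S, wtT_up ha.pos ha.ten h.prime.pos e1 e2, lamA_eq], fun c L A r e => ?_⟩
    · obtain ⟨g, e⟩ := hh.alg x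
      exact e ▸ wt_int_G g
    · by_contra k
      refine e (mul_eq_zero_of_right _ ?_)
      rw [sm_congr (g := fun _ => 0) fun x => mul_eq_zero_of_right _
        (by_contra fun e => k (wtT_supp ha.pos ha.ten h.prime.pos e))]
      simp [sm]
  obtain ⟨e, he, e1⟩ := hc.main hB
  obtain ⟨X, hX, rfl⟩ := wt_jc he
  refine ⟨star (d.kap (star π)), X, by rw [← star_pow, hh.four _ (hM ▸ c2), star_one], hX, ?_⟩
  have e2 : ∀ c L A, wtH l π W S c L A =
      t * l * lamA (M * l) (iFT (M * l) fun y => d.ps y * W y) c L A := fun c L A => by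
    rw [lamA_eq, h.expand hc.four ha.pos (hM ▸ hh.per) (wtT_per (Nat.mul_pos ha.pos h.prime.pos)
      (ha.two.mul_right l) c L A), mul_sum]
    refine sum_congr rfl fun r _ => ?_
    simp only [S]
    field_simp
    rfl
  rw [finL_sec, finL_sec] at e1
  simp only [wtS, e2, ← mul_sum] at e1
  rw [map_mul, map_pow, map_ofNat, ← e1, St, Dat.S, hM, hol_sec, mu, mu, mu, mul_one, sq l, ← mul_assoc,
    map_add]
  ring

end Dat

end Pool.Agent.Lib.MP_696deb_nt.Y2
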