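import Pool.Agent.Lib.MP_696deb_nt.Y2.To0
import Pool.Agent.Lib.MP_696deb_nt.Y2.P3
import Pool.Agent.Lib.MP_696deb_nt.Y2.GA
import Pool.Agent.Lib.MP_696deb_nt.Y2.WT4
import Pool.Agent.Lib.MP_696deb_nt.Y2.D5
import Pool.Agent.Lib.MP_696deb_nt.QK.One
import Pool.Agent.Lib.MP_696deb_nt.EU.Main

/-! The converse theorem in rank one. -/

set_option autoImplicit false

open scoped Classical

namespace Pool.Agent.Lib.MP_696deb_nt.Y2

open Q4 (Tw II zq)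

theorem one_odd {D : ℤ} (hD : QA.Fam D) (h4 : ¬ 4 ∣ D) (h : QK.Pair D) (hw : ¬ QA.Wq D) :
    (∀ k : ℕ, ∃ P : (QP.EQ ((-4) ^ k * D)).toAffine.Point, ¬ IsOfFinAddOrder P) ∧
      ∀ F, IsL D F → deriv F 1 ≠ 0 := by
  obtain ⟨d, rfl, -, -, hφ, hW⟩ := exists_dat hD h4
  obtain ⟨h1, hq, D', ⟨h2, m, -, h3⟩, -, h0, -⟩ := h.zero EU.conv hD hw
  have k := d.point hD hw hφ (hW hw) h1 hq h2 h3 h0 (d.gzaS (hW hw)) d.ratS d.tame
  refine ⟨fun j => ?_, fun F hF e => k (d.tors_of_deriv hφ (hW hw) hF e)⟩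
  obtain ⟨t, M, e, hL⟩ := d.exists_lk hφ
  rw [← d.sum_FX] at k
  rw [← e]
  refine exists_inf (t := t.it j) ⟨hL.pos, hL.per, fun g hg => (hL.link g hg).trans ?_⟩ d.FX_ok
    d.M_pos d.FX_stable k
  have n : (1 - II) ^ j ≠ 0 := pow_ne_zero _ fun e => by
    simpa [e] using Q4.wb_four
  rw [Q4.Tw.it, Q4.zq_mul, zq.eq_1 (_ ^ j), map_pow, map_sub, map_one, hg, div_self n, mul_one]

/-- A twist with root number minus one and a good companion has a point of infinite order, and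
its L-function has a simple zero. -/
theorem one : QK.One := fun D hD h hw => by
  by_cases h4 : 4 ∣ D
  · obtain ⟨E, rfl⟩ : ∃ E, D = -4 * E := h4.elim fun c e => ⟨-c, by omega⟩
    obtain ⟨k1, k2, k3, -⟩ := QA.quarter hD
    obtain ⟨a, b⟩ := one_odd k1 k2 (pair_quarter hD h) fun e => hw (k3.2 e)
    have a1 := a 1
    rw [pow_one] at a1
    refine ⟨a1, fun F h1 h2 _ => b F ⟨h1, fun s hs => ?_⟩⟩
    convert h2 s hs using 1
    funext p
    by_cases hp : p.Prime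
    · have q := Nat.prime_iff_prime_int.1 hp
      have e1 : (p : ℤ) ∣ 2 * (-4 * (-(-4 * E)) ^ 3 - 27 * 0 ^ 2) ↔ (p : ℤ) ∣ 2 * E :=
        ⟨fun k => q.dvd_of_dvd_pow (n := 9) (k.trans ⟨-E ^ 6, by ring⟩),
          fun k => k.trans ⟨-256 * E ^ 2, by ring⟩⟩
      have e2 : (p : ℤ) ∣ 2 * (-4 * (-E) ^ 3 - 27 * 0 ^ 2) ↔ (p : ℤ) ∣ 2 * E :=
        ⟨fun k => q.dvd_of_dvd_pow (n := 3) (k.trans ⟨1, by ring⟩),
          fun k => k.trans ⟨4 * E ^ 2, by ring⟩⟩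
      simp only [e1, e2]
      split_ifs with k
      · rw [cnt_quarter hp k.2]
      · rfl
    · simp only [hp, false_and, if_false]
  · obtain ⟨a, b⟩ := one_odd hD h4 h hw
    have a0 := a 0
    rw [pow_zero, one_mul] at a0
    exact ⟨a0, fun F h1 h2 _ => b F ⟨h1, h2⟩⟩

end Pool.Agent.Lib.MP_696deb_nt.Y2
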