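import Pool.Agent.Lib.MP_696deb_nt.Y2.P0

/-! The finite side of the kernel: definitions. -/

set_option autoImplicit false

open Complex Finset
open scoped Real ComplexConjugate Classical

namespace Pool.Agent.Lib.MP_696deb_nt.Y2.W

open QF (G ii ip Per FT mem_reps)

instance : Module.Finite ℤ G :=
  Module.Finite.of_surjective
    (AddMonoidHom.mk' (fun p : ℤ × ℤ => (⟨p.1, p.2⟩ : G)) fun _ _ => rfl).toIntLinearMap
    fun x => ⟨(x.re, x.im), rfl⟩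

section Mean

variable {Γ : Type} [AddCommGroup Γ]

/-- Functions with the period `P`. -/
def Pe (P : ℕ) (f : Γ → ℂ) : Prop := ∀ x y, f (x + P • y) = f x

/-- Periodic functions. -/
def PP (f : Γ → ℂ) : Prop := ∃ P : ℕ, 0 < P ∧ Pe P f

/-- The group of the periods. -/
def stab (f : Γ → ℂ) : AddSubgroup Γ where
  carrier := {s | ∀ x, f (x + s) = f x}
  zero_mem' x := by rw [add_zero]
  add_mem' ha hb x := by rw [← add_assoc, hb, ha]
  neg_mem' {s} h x := by rw [← h, neg_add_cancel_right]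

/-- The mean value of a periodic function. -/
noncomputable def Av (f : Γ → ℂ) : ℂ := (∑ᶠ q : Γ ⧸ stab f, f q.out) / (stab f).index

/-- Integer valued functions that preserve congruences. -/
def Cg (q : Γ → ℤ) : Prop := ∀ (P : ℕ) x y, (P : ℤ) ∣ q (x + P • y) - q x

end Mean

/-- The character modulo four. -/
def et (k : ℤ) : ℤ := ZMod.χ₄ k

/-- All prime factors of `c` divide `M`. -/
def Smo (M c : ℕ) : Prop := ∀ p : ℕ, p.Prime → p ∣ c → p ∣ M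

/-- Elements of the Gaussian field. -/
def QI (z : ℂ) : Prop := ∃ a b : ℚ, z = a + b * I

/-- Multiples of `2 ^ u` in the ring of algebraic integers. -/
def Cn (u : ℕ) (z : ℂ) : Prop := ∃ E : ℂ, IsIntegral ℤ E ∧ z = 2 ^ u * E

/-- The prime `q` shows that `-k` is not a norm. -/
def Obs (q k : ℕ) : Prop := q.Prime ∧
  (q % 4 = 3 ∧ Odd (k.factorization q) ∨ q = 2 ∧ k / 2 ^ k.factorization 2 % 4 = 1)

/-- Eigenfunctions of the units modulo `8 N`. -/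
structure Hom (N : ℕ) (ψ : G → ℂ) (κ : G → G) : Prop where
  pos : 0 < N
  odd : Odd N
  five : 5 ∣ N
  sqf : Squarefree N
  per : Per (8 * N) ψ
  eq : ∀ t : G, IsCoprime t ((8 * N : ℕ) : G) → ∀ y, ψ (t * y) = κ t * ψ y
  int : ∀ k : ℤ, IsCoprime k ((8 * N : ℕ) : ℤ) → κ k = et k * ep k
  four : ∀ t : G, IsCoprime t ((8 * N : ℕ) : G) → κ t ^ 4 = 1
  nrm : ∀ t : G, IsCoprime t ((8 * N : ℕ) : G) → star (κ (star t)) * ep (t.norm : ℤ) = κ t
  zero : ∀ p : ℕ, p.Prime → p ∣ N → p ≠ 5 → ∀ y : G, (p : G) ∣ y → ψ y = 0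
  alg : ∀ y, ∃ g : G, ψ y = g

/-- A section that matches the function `Φ`. -/
structure Ker (M : ℕ) (Φ : G → G → G) (a : G → ℂ) : Prop where
  adm : Adm M a
  prim : ∀ (p : ℕ) (c d : ℤ) (A : G), p.Prime → p ∣ M → (p : ℤ) ∣ c → (p : ℤ) ∣ d →
    Wt c d * ph M a c d A = 0
  hom : ∀ k : ℤ, IsCoprime k (M : ℤ) → ∀ c l A, lamA M a (k * c) l A = et k * lamA M a c (k * l) A
  per : ∀ A, Per (M ^ 2) (Φ A)
  supp : ∀ A β, Φ A β ≠ 0 → 4 * (M : ℤ) ^ 2 ∣ 2 * (A.norm - β.norm) - M ^ 2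
  inv : ∀ t : G, IsCoprime t (M : G) → ∀ A β, Φ A (t * β) = Φ A (star t * β)
  mat : ∀ (c : ℕ) (d : ℤ), 0 < c → IsCoprime (c : ℤ) d → ∀ A, Wt c d * ph M a c d A =
    c * Av fun β => (Φ A β : ℂ) * q1 (d * β.norm / (c * (2 * M ^ 2)))
  alg : ∀ x, IsIntegral ℤ ((M : ℂ) ^ 2 * a x)

/-- A pair of bases and the weights of the matrices between them. -/
structure Pair (N : ℕ) (X Y : MZ) (Φ : G → G → G) (Ψ : G → G) : Prop where
  pos : 0 < N
  det : X.det ≠ 0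
  det2 : Y.det = 2 * X.det
  ex : ∀ g : MZ, ∃ α β : G, (4 * N : ℤ) • (g * Y) = X * mb α β
  Phi_eq : ∀ (g : MZ) (α β : G), (4 * N : ℤ) • (g * Y) = X * mb α β → Φ α β = w0 g
  Phi_ne : ∀ α β, Φ α β ≠ 0 → ∃ g : MZ, (4 * N : ℤ) • (g * Y) = X * mb α β
  Phi_per : ∀ α β γ δ, Φ (α + (64 * N ^ 2 : ℕ) * γ) (β + (64 * N ^ 2 : ℕ) * δ) = Φ α β
  Psi_eq : ∀ (Z : MZ) (y : G), Z * Y = (2 : ℤ) • (X * mb y 0) → Ψ y = wh Z
  Psi_ne : ∀ y, Ψ y ≠ 0 → ∃ Z : MZ, Z * Y = (2 : ℤ) • (X * mb y 0)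
  Psi_per : Per (8 * N) Ψ
  int : ∀ (Z : MZ) (y : G) (r : ℤ), r • (Z * Y) = (2 : ℤ) • (X * mb y 0) → (r : G) ∣ y
  five : ∀ (Z : MZ) (y : G), Z * Y = (2 : ℤ) • (X * mb y 0) → 5 ∣ Z 0 0 → 5 ∣ Z 1 1

/-- The bilinear form of the determinant. -/
def pr (g Z : MZ) : ℤ := g 0 0 * Z 1 1 - g 0 1 * Z 1 0 - g 1 0 * Z 0 1 + g 1 1 * Z 0 0

/-- The Gauss sum on the matrices at the frequency `Z / T`. -/
noncomputable def Gs (c d : ℤ) (Z : MZ) (T : ℤ) : ℂ :=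
  Av fun g : MZ => (w0 g : ℂ) * q1 ((-(d * g.det : ℤ) + (pr g Z : ℤ) / T) / (4 * c))

/-- The triples `(c, l, A)` with `N A + c l = μ`. -/
noncomputable def TT (μ : ℕ) : Finset (ℕ × ℕ × G) :=
  (range (μ + 1)).biUnion fun k => (k.divisorsAntidiagonal ×ˢ QF.reps (μ - k)).image
    fun v => (v.1.1, v.1.2, v.2)

/-- The coefficient of `log p` at one element. -/
noncomputable def cA (M : ℕ) (a : G → ℂ) (p k : ℕ) (A : G) : ℂ :=
  ∑ x ∈ k.divisorsAntidiagonal,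
    lamA M a x.1 x.2 A * ((x.2.factorization p : ℂ) - x.1.factorization p)

/-- The coefficient of `log p` in the finite part. -/
noncomputable def cP (M : ℕ) (a : G → ℂ) (p μ : ℕ) : ℂ :=
  ∑ k ∈ range (μ + 1), ∑ A ∈ QF.reps (μ - k), cA M a p k A

/-- The local factor of the section at a tame prime. -/
noncomputable def pl (l : ℕ) (b : G → ℂ) (c e : ℤ) (A : G) : ℂ :=
  sm l fun x => b x *
    if (l : G) ∣ A - c * x then q1 (e * (2 * bil A x - c * x.norm : ℤ) / l ^ 2) else 0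

/-- The Fourier transform of the local factor. -/
noncomputable def ll (l : ℕ) (b : G → ℂ) (c ν : ℤ) (A : G) : ℂ :=
  sm l fun x => b x *
    if (l : G) ∣ A - c * x ∧ (l : ℤ) ^ 2 ∣ 2 * bil A x - c * x.norm + ν then 1 else 0

/-- The Fourier transform of a tame weight. -/
noncomputable def whZ (l : ℕ) (ω : G → ℂ) (t : ZMod l) : ℂ :=
  ∑ y ∈ range l, ω y * q1 (t.val * y / l)

/-- The sum over the rows that are prime to `l`. -/
noncomputable def tA (M : ℕ) (a : G → ℂ) (l : ℕ) (W : G → ℤ) (k : ℕ) (A : G) : ℂ :=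
  ∑ x ∈ k.divisorsAntidiagonal, lamA M a x.1 x.2 A * if l ∣ x.1 then 0 else (W x.1 : ℂ)

end Pool.Agent.Lib.MP_696deb_nt.Y2.W
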