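import Pool.Agent.Lib.MP_696deb_nt.Y2.TH3

/-! The terms of the Fourier transform of a section. -/

set_option autoImplicit false

open Complex Finset
open scoped Real ComplexConjugate Classical

namespace Pool.Agent.Lib.MP_696deb_nt.Y2

open QF (G ii ip Per FT mem_reps)

/-- The average of the character modulo five against an additive character. -/
noncomputable def wtE (n : ℕ) (k : ℤ) : ℂ :=
  (∑ d ∈ range n, conj ((ep (d : ℤ) : G) : ℂ) * q1 ((d : ℤ) * k / n)) / n

/-- One term of the Fourier transform. -/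
noncomputable def wtT (M : ℕ) (c L : ℤ) (A x : G) : ℂ :=
  if (c % 2 = 1 ∧ 5 ∣ c) ∧ (M : G) ∣ A - c * x - hM M then
    wtE (2 * M ^ 2) (2 * bil A x - c * x.norm + L) else 0

variable {M n m l : ℕ} {a ψ : G → ℂ} {c L K : ℤ} {A x : G}

theorem wtT_eq (M : ℕ) (c L : ℤ) (A x : G) : wtT M c L A x = (∑ d ∈ range (2 * M ^ 2),
    Wt c d * cf M 1 0 c d x A * q1 (d * L / (2 * M ^ 2))) / (2 * M ^ 2) := by
  rw [wtT]
  split_ifs with h
  · rw [wtE]
    push_cast
    refine congrArg (· / _) (sum_congr rfl fun d _ => ?_)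
    rw [Wt, if_pos h.1, cf, if_pos (by simpa using h.2), mul_assoc, ← q1_add]
    push_cast
    congr 2
    ring
  · rw [sum_eq_zero fun d _ => ?_, zero_div]
    by_cases e : c % 2 = 1 ∧ 5 ∣ c
    · rw [cf, if_neg fun k => h ⟨e, by simpa using k⟩, mul_zero, zero_mul]
    · rw [Wt, if_neg e, zero_mul, zero_mul]

theorem lamA_eq (M : ℕ) (a : G → ℂ) (c L : ℤ) (A : G) :
    lamA M a c L A = sm M fun x => a x * wtT M c L A x := by
  simp only [lamA, ph, wtT_eq, sm, mul_sum, sum_mul, sum_div]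
  rw [sum_comm]
  refine sum_congr rfl fun x _ => sum_comm.trans (sum_congr rfl fun y _ => sum_congr rfl fun d _ => ?_)
  ring

theorem wtT_per (hM : 0 < M) (h2 : 2 ∣ M) (c L : ℤ) (A : G) : Per M (wtT M c L A) := fun x γ => by
  by_cases e : c % 2 = 1
  · rw [wtT_eq, wtT_eq]
    exact congrArg (· / _) (sum_congr rfl fun d _ => by
      rw [show cf M 1 0 c d (x + M * γ) A = cf M 1 0 c d x A from cf_per hM h2 e d A x γ])
  · rw [wtT, wtT, if_neg fun k => e k.1.1, if_neg fun k => e k.1.1]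

theorem wt_ep {s t : ℤ} (h : 5 ∣ s - t) : ep s = ep t := by
  rw [(ZMod.intCast_eq_intCast_iff_dvd_sub t s 5).2 h]

theorem wtE_mul (hn : 0 < n) (h5 : 5 ∣ n) {k k' : ℤ} (hk : (n : ℤ) ∣ k' * k - 1) (K : ℤ) :
    wtE n (k * K) = (ep k : G) * wtE n K := by
  have n0 : (n : ℂ) ≠ 0 := by exact_mod_cast hn.ne'
  have h5' : (5 : ℤ) ∣ n := by exact_mod_cast h5
  have h1 := sum_range_perm hn (φ := fun d => conj ((ep (k' * d : ℤ) : G) : ℂ) * q1 (d * K / n))
    (fun x t => by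
      rw [wt_ep (t := k' * x) (by rw [← mul_sub, add_sub_cancel_left]; exact (h5'.mul_right _).mul_left _),
        q1_congr (y := x * K / n) (t * K) (by push_cast; field_simp)]) hk 0
  have h2 : star (ep k') = ep k := (by decide : ∀ a b : ZMod 5, a * b = 1 → star (ep a) = ep b) _ _
    (by exact_mod_cast ((ZMod.intCast_eq_intCast_iff_dvd_sub 1 _ 5).2 (h5'.trans hk)).symm)
  rw [wtE, wtE, ← mul_div_assoc, mul_sum]
  refine congrArg (· / _) ((sum_congr rfl fun d _ => ?_).trans (h1.trans (sum_congr rfl fun d _ => ?_)))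
  · rw [add_zero, wt_ep (s := k' * (k * d)) (t := d) (by
      rw [show k' * (k * d) - d = (k' * k - 1) * d by ring]
      exact (h5'.trans hk).mul_right _)]
    push_cast
    ring_nf
  · rw [Int.cast_mul, th2_ep_mul, map_mul, map_mul, ← h2, GaussianInt.toComplex_star, mul_assoc]

theorem wt_sum_mul {φ : ℤ → ℂ} (hφ : ∀ x t, φ (x + n * t) = φ x) (m : ℕ) :
    ∑ d ∈ range (n * m), φ d = m * ∑ d ∈ range n, φ d := by
  induction m with
  | zero => simp
  | succ m ih =>
    rw [Nat.mul_succ, sum_range_add, ih]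
    push_cast
    simp only [add_comm (n * m : ℤ), hφ]
    ring

theorem wtE_scale (hn : 0 < n) (h5 : 5 ∣ n) (hm : 0 < m) (K : ℤ) : wtE (n * m) (m * K) = wtE n K := by
  have n0 : (n : ℂ) ≠ 0 := by exact_mod_cast hn.ne'
  have m0 : (m : ℂ) ≠ 0 := by exact_mod_cast hm.ne'
  have h5' : (5 : ℤ) ∣ n := by exact_mod_cast h5
  have h1 := wt_sum_mul (n := n) (φ := fun d => conj ((ep d : G) : ℂ) * q1 (d * K / n))
    (fun x t => by
      rw [wt_ep (t := x) (by rw [add_sub_cancel_left]; exact h5'.mul_right _),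
        q1_congr (y := x * K / n) (t * K) (by push_cast; field_simp)]) m
  rw [wtE, wtE, sum_congr rfl fun d _ => by
    rw [show (((d : ℤ) : ℂ) * (m * K : ℤ) / (n * m : ℕ)) = (d : ℤ) * K / n by push_cast; field_simp], h1,
    Nat.cast_mul, mul_comm (n : ℂ), mul_div_mul_left _ _ m0]

theorem wtE_dvd (hn : 0 < n) (h5 : 5 ∣ n) (hm : 0 < m) (h : wtE (n * m) K ≠ 0) : (m : ℤ) ∣ K := by
  have n0 : (n : ℂ) ≠ 0 := by exact_mod_cast hn.ne'
  have m0 : (m : ℂ) ≠ 0 := by exact_mod_cast hm.ne'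
  have h5' : (5 : ℤ) ∣ n := by exact_mod_cast h5
  have h1 := sum_range_perm (Nat.mul_pos hn hm)
    (φ := fun d => conj ((ep d : G) : ℂ) * q1 (d * K / (n * m : ℕ))) (fun x t => by
      rw [wt_ep (t := x) (by
        rw [add_sub_cancel_left, Nat.cast_mul]; exact (h5'.mul_right _).mul_right _),
        q1_congr (y := x * K / (n * m : ℕ)) (t * K) (by push_cast; field_simp)])
    (k := 1) (k' := 1) (by simp) n
  rw [sum_congr rfl (g := fun d : ℕ => q1 (K / m) *
    (conj ((ep (d : ℤ) : G) : ℂ) * q1 ((d : ℤ) * K / (n * m : ℕ)))) fun d _ => by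
      rw [one_mul, wt_ep (t := d) (by rwa [add_sub_cancel_left]), mul_left_comm, ← q1_add]
      congr 2
      push_cast
      field_simp
      ring, ← mul_sum] at h1
  obtain ⟨k, hk⟩ := exists_of_q1 ((mul_left_eq_self₀.1 h1).resolve_right fun e => h (by
    rw [wtE, e, zero_div]))
  rw [div_eq_iff m0] at hk
  exact ⟨k, by rw [mul_comm]; exact_mod_cast hk⟩

theorem wt_hM (h2 : 2 ∣ M) (l : ℕ) : hM (M * l) = l * hM M := by
  obtain ⟨H, rfl⟩ := h2
  rw [hM, hM, mul_assoc, Nat.mul_div_cancel_left _ two_pos, Nat.mul_div_cancel_left _ two_pos]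
  ext <;> simp [mul_comm]

/-- Raising the level. -/
theorem wtT_up (hM : 0 < M) (h10 : 10 ∣ M) (hl : 0 < l) {γ A' : G} {L' : ℤ}
    (h1 : A - c * M * γ = l * A') (h2 : L + 2 * M * bil A γ - c * M ^ 2 * γ.norm = l ^ 2 * L') (x : G) :
    wtT (M * l) c L A (l * x + M * γ) = wtT M c L' A' x := by
  have l0 : (l : G) ≠ 0 := by exact_mod_cast hl.ne'
  have e : A - c * (l * x + M * γ) - Y2.hM (M * l) = l * (A' - c * x - Y2.hM M) := by
    rw [wt_hM (Dvd.dvd.trans ⟨5, rfl⟩ h10)]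
    linear_combination h1
  rw [wtT, wtT, e, Nat.cast_mul, mul_comm (M : G), mul_dvd_mul_iff_left l0, mul_pow, ← mul_assoc,
    ← wtE_scale (n := 2 * M ^ 2) (m := l ^ 2) (by positivity)
      (((Dvd.dvd.trans ⟨2, rfl⟩ h10).trans (dvd_pow_self _ two_ne_zero)).mul_left 2) (by positivity)]
  congr 2
  obtain rfl : A = l * A' + c * M * γ := by linear_combination h1
  simp only [norm_eq_bil, bil, Zsqrtd.re_add, Zsqrtd.im_add, Zsqrtd.re_mul,
    Zsqrtd.im_mul, Zsqrtd.re_intCast, Zsqrtd.im_intCast, Zsqrtd.re_natCast, Zsqrtd.im_natCast] at h2 ⊢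
  push_cast
  linear_combination h2

theorem wtT_supp (hM : 0 < M) (h10 : 10 ∣ M) (hl : 0 < l) {γ : G}
    (h : wtT (M * l) c L A (l * x + M * γ) ≠ 0) : ∃ (A' : G) (L' : ℤ), A - c * M * γ = l * A' ∧
      L + 2 * M * bil A γ - c * M ^ 2 * γ.norm = l ^ 2 * L' := by
  rw [wtT] at h
  split_ifs at h with e
  swap
  · exact absurd rfl h
  obtain ⟨β, hβ⟩ := e.2
  rw [wt_hM (Dvd.dvd.trans ⟨5, rfl⟩ h10), Nat.cast_mul] at hβ
  rw [mul_pow, ← mul_assoc] at h
  obtain ⟨s, hs⟩ := wtE_dvd (by positivity) (((Dvd.dvd.trans ⟨2, rfl⟩ h10).trans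
    (dvd_pow_self _ two_ne_zero)).mul_left 2) (by positivity) h
  generalize Y2.hM M = H at hβ
  refine ⟨c * x + H + M * β, s - 2 * bil (c * x + H + M * β) x + c * x.norm, by
    linear_combination hβ, ?_⟩
  obtain rfl : A = l * (c * x + H + M * β) + c * M * γ := by linear_combination hβ
  generalize c * x + H + M * β = B at hs ⊢
  simp only [norm_eq_bil, bil, Zsqrtd.re_add, Zsqrtd.im_add, Zsqrtd.re_mul,
    Zsqrtd.im_mul, Zsqrtd.re_intCast, Zsqrtd.im_intCast, Zsqrtd.re_natCast, Zsqrtd.im_natCast] at hs ⊢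
  push_cast at hs
  linear_combination hs

theorem Adm.lamA_shift (h : Adm M a) {γ A' : G} {L' : ℤ} (h1 : A - c * M * γ = A')
    (h2 : L + 2 * M * bil A γ - c * M ^ 2 * γ.norm = L') : lamA M a c L A = lamA M a c L' A' := by
  rw [lamA_eq, lamA_eq]
  refine sm_congr fun x => congrArg _ ?_
  have := wtT_up (l := 1) (A' := A') (L' := L') h.pos h.ten one_pos (by simpa using h1)
    (by simpa using h2) x
  rwa [mul_one, Nat.cast_one, one_mul, wtT_per h.pos h.two] at this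

/-- Homogeneity in the Gaussian variable. -/
theorem Adm.lamA_hom (h : Adm M a) {t : G} {k : ℤ} (hk : 2 * (M : ℤ) ^ 2 ∣ k * t.norm - 1) {τ : ℂ}
    (ht : ∀ x, a (t * x) = τ * a x) (c L : ℤ) (A : G) :
    lamA M a c (t.norm * L) (t * A) = τ * (ep t.norm : G) * lamA M a c L A := by
  have hk' : (M : G) ∣ k * star t * t - 1 := by
    obtain ⟨s, hs⟩ := ((dvd_pow_self _ two_ne_zero).mul_left 2).trans hk
    refine ⟨s, ?_⟩
    rw [mul_assoc, mul_comm (star t), ← Zsqrtd.norm_eq_mul_conj]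
    exact_mod_cast hs
  obtain ⟨s, hs⟩ : ∃ s : G, (t - 1) * hM M = M * s := by
    obtain ⟨H, rfl, hH⟩ := two_hM h.two
    obtain ⟨r, hr⟩ := (dvd_mul_right 2 _).trans hk
    obtain ⟨p, hp⟩ := Int.even_mul_pred_self t.re
    obtain ⟨q, hq⟩ := Int.even_mul_pred_self t.im
    obtain ⟨j, hj⟩ : Odd (t.re + t.im) := Int.not_even_iff_odd.1 fun ⟨j, hj⟩ => by
      rw [norm_eq_bil, bil] at hr
      have : 2 * (k * (p + q + j) - r) = 1 := by linear_combination hr - k * hp - k * hq - k * hj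
      omega
    refine ⟨⟨j - t.im, j⟩, ?_⟩
    rw [hH]
    ext <;> simp
    · linear_combination H * hj
    · linear_combination H * hj
  rw [lamA_eq, lamA_eq, ← sm_mul h.pos (f := fun x => a x * wtT M c (t.norm * L) (t * A) x)
    (fun x γ => congrArg₂ _ (h.per x γ) (wtT_per h.pos h.two _ _ _ x γ)) hk', ← sm_mul_left]
  refine sm_congr fun x => ?_
  have e : (M : G) ∣ t * A - c * (t * x) - hM M ↔ (M : G) ∣ A - c * x - hM M := by
    rw [show t * A - c * (t * x) - hM M = t * (A - c * x - hM M) + M * s by linear_combination hs,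
      dvd_add_left (dvd_mul_right _ _)]
    refine ⟨fun e => ?_, fun e => e.mul_left _⟩
    generalize A - c * x - hM M = B at e
    rw [show B = k * star t * (t * B) - (k * star t * t - 1) * B by ring]
    exact (e.mul_left _).sub (hk'.mul_right _)
  rw [ht, wtT, wtT, e]
  split_ifs
  · rw [show 2 * bil (t * A) (t * x) - c * (t * x).norm + t.norm * L =
      t.norm * (2 * bil A x - c * x.norm + L) by simp [norm_eq_bil, bil]; ring,
      wtE_mul (by have := h.pos; positivity) (((Dvd.dvd.trans ⟨2, rfl⟩ h.ten).trans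
        (dvd_pow_self _ two_ne_zero)).mul_left 2) (k' := k) (by exact_mod_cast hk)]
    ring
  · simp

theorem Adm.lamA_at_zero (h : Adm M a) (c L : ℤ) : lamA M a c L 0 = 0 := by
  obtain ⟨k, M', u, hM, h2, ⟨r, hr⟩, hu, ho⟩ := h.odd
  rw [lamA_eq, sm_congr (g := fun _ => 0) fun x => ?_]
  · simp [sm]
  rw [wtT]
  split_ifs with e
  swap
  · exact mul_zero _
  obtain ⟨β, hβ⟩ := e.2
  obtain ⟨H, hH, hH'⟩ := two_hM h.two
  obtain ⟨s, t, hst⟩ : IsCoprime c (2 ^ k) := IsCoprime.pow_right ⟨1, -(c / 2), by omega⟩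
  obtain ⟨j, rfl⟩ : 2 ∣ r := by
    obtain ⟨v, hv⟩ := (dvd_mul_right 2 _).trans hu
    obtain ⟨m, rfl⟩ : ∃ m, M' = 2 * m + 1 := ⟨M' / 2, by omega⟩
    obtain rfl : u = 1 + (2 * m + 1 : ℕ) * r := by linear_combination hr
    refine (Int.prime_two.dvd_of_dvd_pow (n := 2) ⟨v - (2 * m + 1) * r - 2 * (m ^ 2 + m) * r ^ 2, ?_⟩)
    push_cast at hv
    linear_combination hv
  have hM' : (M : G) = 2 ^ k * M' := by exact_mod_cast hM
  have h4 : 2 * Y2.hM M = M * ⟨1, 1⟩ := by
    rw [hH', hH]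
    ext <;> simp
  have hr' : (u : G) - 1 = M' * (2 * j) := by exact_mod_cast hr
  have hst' : (s : G) * c + t * 2 ^ k = 1 := by exact_mod_cast hst
  have h3 := per_of_dvd h.per (x := u * x) (y := x)
    ⟨j * (2 * t * x - M' * s * (2 * β + ⟨1, 1⟩)), by
      linear_combination x * hr' - 2 * j * M' * x * hst' - 2 * j * M' * s * hβ - j * M' * s * h4 -
        2 * j * t * x * hM'⟩
  rw [ho] at h3
  rw [show a x = 0 by linear_combination -h3 / 2, zero_mul]

theorem wt_int_q1 (hn : 0 < n) (k : ℤ) : IsIntegral ℤ (q1 (k / n)) := by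
  have n0 : (n : ℂ) ≠ 0 := by exact_mod_cast hn.ne'
  refine IsIntegral.of_pow hn ?_
  rw [← q1_nat_mul, mul_div_cancel₀ _ n0, q1_int]
  exact isIntegral_one

theorem wt_int_G (γ : G) : IsIntegral ℤ (γ : ℂ) := by
  rw [GaussianInt.toComplex_def]
  refine (isIntegral_intCast _).add ((isIntegral_intCast _).mul (IsIntegral.of_pow two_pos ?_))
  rw [I_sq]
  exact isIntegral_one.neg

theorem wt_int_sm {f : G → ℂ} (h : ∀ x, IsIntegral ℤ (f x)) : IsIntegral ℤ (sm M f) :=
  IsIntegral.sum _ fun _ _ => IsIntegral.sum _ fun _ _ => h _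

theorem wt_int_lamA (hM : 0 < M) (h : ∀ x, IsIntegral ℤ (ψ x)) (c L : ℤ) (A : G) :
    IsIntegral ℤ ((2 * M ^ 4 : ℕ) * lamA M (iFT M ψ) c L A) := by
  have M0 : (M : ℂ) ≠ 0 := by exact_mod_cast hM.ne'
  rw [lamA_eq, ← sm_mul_left]
  refine wt_int_sm fun x => ?_
  rw [show ((2 * M ^ 4 : ℕ) : ℂ) * (iFT M ψ x * wtT M c L A x) =
    FT M ψ (-x) * ((2 * M ^ 2 : ℕ) * wtT M c L A x) by rw [iFT]; push_cast; field_simp, FT_eq]
  refine (wt_int_sm fun y => (h y).mul (wt_int_q1 hM _)).mul ?_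
  rw [wtT]
  split_ifs
  · rw [wtE, mul_div_cancel₀ _ (Nat.cast_ne_zero.2 (by positivity))]
    refine IsIntegral.sum _ fun d _ => IsIntegral.mul ?_ ?_
    · rw [← GaussianInt.toComplex_star]
      exact wt_int_G _
    · rw [← Int.cast_mul]
      exact wt_int_q1 (by positivity) _
  · rw [mul_zero]
    exact isIntegral_zero

end Pool.Agent.Lib.MP_696deb_nt.Y2
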