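import Pool.Agent.Lib.MP_696deb_nt.Y2.WT1

/-! The cells of the tame coefficient. -/

set_option autoImplicit false

open Complex Finset
open scoped ComplexConjugate Classical

namespace Pool.Agent.Lib.MP_696deb_nt.Y2

open QF (G ii ip Per FT mem_reps)

/-- The pairs of an index and an element. -/
noncomputable def wtP (μ : ℕ) : Finset (ℕ × G) :=
  (range (μ + 1)).biUnion fun k => (QF.reps (μ - k)).image fun A => (k, A)

theorem mem_wtP' {μ : ℕ} (p : ℕ × G) : p ∈ wtP μ ↔ p.1 ∈ range (μ + 1) ∧ p.2 ∈ QF.reps (μ - p.1) := by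
  simp only [wtP, mem_biUnion, mem_image]
  exact ⟨fun ⟨k, h1, A, h2, e⟩ => e ▸ ⟨h1, h2⟩, fun h => ⟨_, h.1, _, h.2, rfl⟩⟩

theorem mem_wtP {μ : ℕ} {p : ℕ × G} : p ∈ wtP μ ↔ p.2.norm + p.1 = μ := by
  have := GaussianInt.norm_nonneg p.2
  rw [mem_wtP', mem_range, mem_reps]
  omega

theorem sum_wtP (μ : ℕ) (g : ℕ → G → ℂ) :
    ∑ p ∈ wtP μ, g p.1 p.2 = ∑ k ∈ range (μ + 1), ∑ A ∈ QF.reps (μ - k), g k A :=
  sum_finset_product' _ _ _ mem_wtP'

theorem wtP_div {l : ℕ} (hl : 0 < l) {w : G} (hw : w.norm = l) (μ : ℕ) (g : ℕ → G → ℂ) :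
    ∑ p ∈ wtP (μ * l), (if w ∣ p.2 then g p.1 p.2 else 0) = ∑ p ∈ wtP μ, g (l * p.1) (w * p.2) := by
  have l0 : (l : ℤ) ≠ 0 := by exact_mod_cast hl.ne'
  have w0 : w ≠ 0 := fun e => l0 (by rw [← hw, e, Zsqrtd.norm_zero])
  refine (sum_of_injOn (fun p : ℕ × G => (l * p.1, w * p.2)) (fun p _ q _ e => Prod.ext
    (mul_left_cancel₀ hl.ne' (Prod.ext_iff.1 e).1) (mul_left_cancel₀ w0 (Prod.ext_iff.1 e).2))
    (fun p hp => ?_) (fun p hp h => if_neg fun e => h ?_)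
    fun p _ => by rw [if_pos (dvd_mul_right _ _)]).symm
  · rw [mem_coe, mem_wtP] at hp ⊢
    rw [Zsqrtd.norm_mul, hw]
    push_cast
    linear_combination l * hp
  · obtain ⟨B, e⟩ := e
    rw [mem_wtP, e, Zsqrtd.norm_mul, hw] at hp
    push_cast at hp
    obtain ⟨k, hk⟩ : l ∣ p.1 := Int.natCast_dvd_natCast.1 ⟨μ - B.norm, by linear_combination hp⟩
    refine ⟨(k, B), mem_wtP.2 (mul_left_cancel₀ l0 ?_), Prod.ext hk.symm e.symm⟩
    rw [hk] at hp
    push_cast at hp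
    linear_combination hp

theorem wt_div {l : ℕ} (hl : l.Prime) (k : ℕ) (g : ℕ → ℕ → ℂ) :
    ∑ x ∈ (l * k).divisorsAntidiagonal, g x.1 x.2 =
      ∑ x ∈ k.divisorsAntidiagonal, (if l ∣ x.1 then 0 else g x.1 (l * x.2)) +
        ∑ x ∈ k.divisorsAntidiagonal, g (l * x.1) x.2 := by
  rw [sum_congr rfl (g := fun x : ℕ × ℕ => (if l ∣ x.1 then 0 else g x.1 x.2) +
    if l ∣ x.1 then g x.1 x.2 else 0) fun x _ => by split_ifs <;> simp, sum_add_distrib]
  congr 1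
  · refine (sum_of_injOn (fun p : ℕ × ℕ => (p.1, l * p.2)) (fun p _ q _ e => Prod.ext
      (Prod.ext_iff.1 e).1 (mul_left_cancel₀ hl.ne_zero (Prod.ext_iff.1 e).2))
      (fun p hp => ?_) (fun p hp h => if_pos (by_contra fun e => h ?_)) fun p _ => rfl).symm
    · rw [mem_coe, Nat.mem_divisorsAntidiagonal] at hp ⊢
      exact ⟨by rw [← hp.1]; ring, mul_ne_zero hl.ne_zero hp.2⟩
    · rw [Nat.mem_divisorsAntidiagonal] at hp
      obtain ⟨j, hj⟩ := (hl.dvd_mul.1 ⟨_, hp.1⟩).resolve_left e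
      refine ⟨(p.1, j), Nat.mem_divisorsAntidiagonal.2 ⟨mul_left_cancel₀ hl.ne_zero ?_,
        right_ne_zero_of_mul hp.2⟩, Prod.ext rfl hj.symm⟩
      rw [← hp.1, hj]
      ring
  · refine (sum_of_injOn (fun p : ℕ × ℕ => (l * p.1, p.2)) (fun p _ q _ e => Prod.ext
      (mul_left_cancel₀ hl.ne_zero (Prod.ext_iff.1 e).1) (Prod.ext_iff.1 e).2)
      (fun p hp => ?_) (fun p hp h => if_neg fun e => h ?_)
      fun p _ => by rw [if_pos (dvd_mul_right _ _)]).symm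
    · rw [mem_coe, Nat.mem_divisorsAntidiagonal] at hp ⊢
      exact ⟨by rw [← hp.1]; ring, mul_ne_zero hl.ne_zero hp.2⟩
    · rw [Nat.mem_divisorsAntidiagonal] at hp
      obtain ⟨j, hj⟩ := e
      refine ⟨(j, p.2), Nat.mem_divisorsAntidiagonal.2 ⟨mul_left_cancel₀ hl.ne_zero ?_,
        right_ne_zero_of_mul hp.2⟩, Prod.ext hj.symm rfl⟩
      rw [← hp.1, hj]
      ring

theorem wt_nd {l k : ℕ} (h : k < l) {x : ℕ × ℕ} (hx : x ∈ k.divisorsAntidiagonal) :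
    ¬ l ∣ x.1 * x.2 := fun e => by
  rw [Nat.mem_divisorsAntidiagonal] at hx
  exact hx.2 (Nat.eq_zero_of_dvd_of_lt (hx.1 ▸ e) h)

theorem lgN_of_not {l n : ℕ} (W : G → ℤ) (h : ¬ l ∣ n) : lgN l W n = W n := by
  rw [lgN, Nat.factorization_eq_zero_of_not_dvd h, pow_zero, Nat.div_one]

theorem lgN_mul {l n : ℕ} (hl : l.Prime) (W : G → ℤ) (h : ¬ l ∣ n) : lgN l W (l * n) = W n := by
  rw [lgN, Nat.factorization_mul hl.ne_zero (b := n) fun e => h (e ▸ dvd_zero l), Finsupp.add_apply,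
    hl.factorization_self, Nat.factorization_eq_zero_of_not_dvd h, add_zero, pow_one,
    Nat.mul_div_cancel_left _ hl.pos]

/-- The properties of the coefficients that the computation of the cells uses. -/
structure WtC (M l u : ℕ) (π : G) (W : G → ℤ) (z z' y : ℂ) (f : ℤ → ℤ → G → ℂ)
    (S : ℤ → ℤ → G → ℤ → ℂ) : Prop where
  tw : TWt π l u W
  four : l % 4 = 1
  nM : ¬ (l : ℤ) ∣ 2 * M
  iz : IsIntegral ℤ z
  iy : IsIntegral ℤ y
  yz : y * z' = 1
  int : ∀ c L A, IsIntegral ℤ (f c L A)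
  van : ∀ (k : ℕ) A, ∑ x ∈ k.divisorsAntidiagonal, f x.1 x.2 A = 0
  h1 : ∀ c L A, f c (l * L) (π * A) = z * f c L A
  h2 : ∀ c L A, f c (l * L) (star π * A) = z' * f c L A
  mul : ∀ c L A, f (l * c) L A = f c (l * L) A
  zero : ∀ c L, f c L 0 = 0
  sh : ∀ (c L : ℤ) (A γ A' : G) (L' : ℤ), A - c * M * γ = A' →
    L + 2 * M * bil A γ - c * M ^ 2 * γ.norm = L' → f c L A = f c L' A'
  up : ∀ (c L : ℤ) (A : G) (r : ℤ) (A' : G) (L' : ℤ), A - c * M * (π * r) = l * A' →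
    L + 2 * M * bil A (π * r) - c * M ^ 2 * (π * r).norm = l ^ 2 * L' → S c L A r = f c L' A'
  supp : ∀ (c L : ℤ) (A : G) (r : ℤ), S c L A r ≠ 0 → ∃ (A' : G) (L' : ℤ),
    A - c * M * (π * r) = l * A' ∧ L + 2 * M * bil A (π * r) - c * M ^ 2 * (π * r).norm = l ^ 2 * L'

/-- The tame coefficient. -/
noncomputable def wtH (l : ℕ) (π : G) (W : G → ℤ) (S : ℤ → ℤ → G → ℤ → ℂ) (c L : ℤ) (A : G) : ℂ :=
  ∑ r ∈ range l, wtO π l W r * S c L A r

namespace WtC

variable {M l u μ : ℕ} {π : G} {W : G → ℤ} {z z' y : ℂ} {f : ℤ → ℤ → G → ℂ}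
  {S : ℤ → ℤ → G → ℤ → ℂ} (h : WtC M l u π W z z' y f S) {c L : ℤ} {A : G}
include h

theorem sdvd (n : ℤ) : star π ∣ (n : G) ↔ (l : ℤ) ∣ n := by
  rw [← h.tw.dvd_int]
  exact ⟨fun e => star_star π ▸ QF.f3_star (α := n) (by simpa using e),
    fun e => QF.f3_star (by simpa using e)⟩

theorem nrm (r : ℤ) : (π * r).norm = l * r ^ 2 := by
  rw [Zsqrtd.norm_mul, h.tw.norm, Zsqrtd.norm_intCast, sq]

theorem c0 (hA : ¬ π ∣ A) (c L : ℤ) : wtH l π W S c L A = 0 :=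
  sum_eq_zero fun r _ => mul_eq_zero_of_right _ (by_contra fun e => hA (by
    obtain ⟨B, -, e, -⟩ := h.supp _ _ _ _ e
    exact ⟨star π * B + c * M * r, by linear_combination e - B * h.tw.mul_star⟩))

theorem c3 (hA : ¬ ((l : G) ∣ A ∧ (l : ℤ) ∣ L)) (c : ℤ) : wtH l π W S (l * c) L A = 0 :=
  sum_eq_zero fun r _ => mul_eq_zero_of_right _ (by_contra fun e => hA (by
    obtain ⟨B, K, e, e'⟩ := h.supp _ _ _ _ e
    obtain rfl : A = l * (B + c * M * (π * r)) := by push_cast at e; linear_combination e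
    generalize B + c * M * (π * r) = B at e'
    generalize π * r = γ at e'
    refine ⟨dvd_mul_right _ _, l * K - 2 * M * bil B γ + c * M ^ 2 * γ.norm, ?_⟩
    rw [show bil (l * B) γ = l * bil B γ by simp [bil]; ring] at e'
    linear_combination e'))

theorem c1 (hc : ¬ (l : ℤ) ∣ c) (hi : A.norm + c * L = μ * l) {s : ℤ} (hs : star π ∣ A - c * M * s) :
    wtH l π W S c (l * L) (π * A) = wtO π l W s * (y * f c L A) := by
  refine wt_single h.tw.prime.pos (wtO_per h.tw.prime.pos) s (fun r hr => ?_) fun r hr => ?_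
  · obtain ⟨B, hB⟩ : star π ∣ A - c * M * r := by
      rw [show A - c * M * r = A - c * M * s - (c * M) * (r - s : ℤ) by push_cast; ring]
      exact hs.sub (((h.sdvd _).2 hr).mul_left _)
    have e := congrArg Zsqrtd.norm hB
    rw [Zsqrtd.norm_mul, Zsqrtd.norm_conj, h.tw.norm] at e
    obtain ⟨K, hK⟩ : (l : ℤ) ∣ L + 2 * M * bil A r - c * M ^ 2 * (r : G).norm :=
      (h.tw.prZ.dvd_or_dvd ⟨μ - B.norm, by
        rw [mul_sub (l : ℤ), ← e, mul_comm (l : ℤ), ← hi]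
        simp [norm_eq_bil, bil]
        ring⟩).resolve_left hc
    rw [h.up c _ _ r B K (by linear_combination π * hB + B * h.tw.mul_star) (by
      rw [h.nrm, show bil (π * A) (π * r) = π.norm * bil A r by simp [norm_eq_bil, bil]; ring,
        h.tw.norm]
      rw [Zsqrtd.norm_intCast] at hK
      linear_combination l * hK), h.sh c L A r _ _ hB hK, h.h2, ← mul_assoc, h.yz, one_mul]
  · obtain ⟨B, -, e, -⟩ := h.supp _ _ _ _ hr
    have e1 : star π ∣ A - c * M * r := ⟨B, mul_left_cancel₀ h.tw.pr.ne_zero (by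
      linear_combination e - B * h.tw.mul_star)⟩
    have e2 := (h.sdvd (c * (M * (r - s)))).1 (by
      convert hs.sub e1 using 1
      push_cast
      ring)
    exact (h.tw.prZ.dvd_or_dvd ((h.tw.prZ.dvd_or_dvd e2).resolve_left hc)).resolve_left
      fun k => h.nM (k.mul_left _)

theorem c2 (c L : ℤ) (A : G) (r : ℤ) : S (l * c) (l * L) (l * A) r =
    if (l : ℤ) ∣ L + 2 * M * bil π A * r then f c L A else 0 := by
  have e1 : bil (l * A) (π * r) = l * (bil π A * r) := by simp [bil]; ring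
  have e2 : bil A (π * r) = bil π A * r := by simp [bil]; ring
  split_ifs with e
  · obtain ⟨K, hK⟩ := e
    rw [h.up _ _ _ r (A - c * M * (π * r)) (K - c * M ^ 2 * r ^ 2) (by push_cast; ring) (by
      rw [h.nrm, e1]
      linear_combination l * hK), h.mul, h.sh c L A (π * r) _ (l * (K - c * M ^ 2 * r ^ 2)) rfl (by
      rw [h.nrm, e2]
      linear_combination hK)]
  · refine by_contra fun k => e ?_
    obtain ⟨-, K, -, hK⟩ := h.supp _ _ _ _ k
    rw [h.nrm, e1] at hK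
    exact ⟨K + c * M ^ 2 * r ^ 2, mul_left_cancel₀ h.tw.prZ.ne_zero (by linear_combination hK)⟩

theorem wmul {a b : ℤ} (hab : ¬ (l : ℤ) ∣ a * b) : ((W (a * b : ℤ) - W a - W b : ℤ) : ℂ) ∈ wtI u := by
  rw [Int.cast_mul]
  exact wtI_int (h.tw.mul _ _ (fun e => hab (((h.tw.dvd_int _).1 e).mul_right _))
    fun e => hab (((h.tw.dvd_int _).1 e).mul_left _))

theorem cong {r : ℤ} (hr : ¬ (l : ℤ) ∣ r) : wtO π l W r - wtO π l W 1 - W r ∈ wtI u :=
  h.tw.cong fun e => (h.tw.prZ.dvd_or_dvd e).elim hr (h.tw.nd_re h.four)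

theorem t1 (hA : ¬ star π ∣ A) : ∃ K : ℂ, ∀ c L : ℤ, ¬ (l : ℤ) ∣ c → A.norm + c * L = μ * l →
    wtH l π W S c (l * L) (π * A) - (K - W c) * (y * f c L A) ∈ wtI u := by
  obtain ⟨j, hj⟩ := h.tw.ex h.four (star A)
  have hj' : star π ∣ A - j := QF.f3_star (by simpa using hj)
  refine ⟨wtO π l W 1 + W j - W (M : ℤ), fun c L hc hi => ?_⟩
  have hM : ¬ (l : ℤ) ∣ c * M := fun e => (h.tw.prZ.dvd_or_dvd e).elim hc fun k => h.nM (k.mul_left _)
  obtain ⟨k, hk⟩ := h.tw.inv hM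
  have e : (l : ℤ) ∣ c * M * (k * j) - j := by
    rw [show c * M * (k * j) - j = (k * (c * M) - 1) * j by ring]
    exact hk.mul_right _
  have n : ¬ (l : ℤ) ∣ c * M * (k * j) := fun e' => hA (by
    simpa using hj'.add ((h.sdvd j).2 (by simpa using e'.sub e)))
  rw [h.c1 hc hi (s := k * j) (by
    convert hj'.sub ((h.sdvd _).2 e) using 1
    push_cast
    ring), ← sub_mul]
  refine wtI_mul ?_ (h.iy.mul (h.int _ _ _))
  convert sub_mem (sub_mem (h.cong fun e => n (e.mul_left _)) (h.wmul n)) (h.wmul hM) using 1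
  rw [h.tw.per (c * M * (k * j) : ℤ) j (by rw [← Int.cast_sub, h.tw.dvd_int]; exact e)]
  push_cast
  ring

theorem t2 (hA : A = 0 ∨ ¬ π ∣ A) : ∃ K : ℂ, ∀ c L : ℤ, ¬ (l : ℤ) ∣ L →
    wtH l π W S (l * c) (l * L) (l * A) - (K + W L) * f c L A ∈ wtI u := by
  rcases hA with rfl | hA
  · refine ⟨0, fun c L _ => ?_⟩
    simp only [wtH, h.c2, h.zero, ite_self]
    simp
  have hb : ¬ (l : ℤ) ∣ -(2 * M * bil π A) := fun e =>
    (h.tw.prZ.dvd_or_dvd (dvd_neg.1 e)).elim h.nM (mt (h.tw.dvd_bil h.four A).1 hA)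
  obtain ⟨k, hk⟩ := h.tw.inv hb
  generalize hb' : 2 * M * bil π A = b at hb hk
  refine ⟨wtO π l W 1 - W (-b : ℤ), fun c L hL => ?_⟩
  have e : (l : ℤ) ∣ -b * (k * L) - L := by
    rw [show -b * (k * L) - L = (k * -b - 1) * L by ring]
    exact hk.mul_right _
  have n : ¬ (l : ℤ) ∣ -b * (k * L) := fun e' => hL (by simpa using e'.sub e)
  have e1 : ∀ r, (l : ℤ) ∣ L + b * r ↔ (l : ℤ) ∣ r - k * L := fun r => by
    rw [show L + b * r = -(-b * (r - k * L)) - (-b * (k * L) - L) by ring, dvd_sub_left e, dvd_neg]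
    exact ⟨fun e => (h.tw.prZ.dvd_or_dvd e).resolve_left hb, fun e => e.mul_left _⟩
  rw [wtH, wt_single h.tw.prime.pos (wtO_per h.tw.prime.pos) (k * L) (v := f c L A)
    (fun r hr => by rw [h.c2, hb', if_pos ((e1 r).2 hr)])
    fun r hr => (e1 r).1 (by_contra fun k => hr (by rw [h.c2, hb', if_neg k])), ← sub_mul]
  refine wtI_mul ?_ (h.int _ _ _)
  convert sub_mem (h.cong fun e => n (e.mul_left _)) (h.wmul n) using 1
  rw [h.tw.per (-b * (k * L) : ℤ) L (by rw [← Int.cast_sub, h.tw.dvd_int]; exact e)]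
  push_cast
  ring

theorem t3 (hc : ¬ (l : ℤ) ∣ c) (hi : A.norm + c * L = μ) :
    wtH l π W S c (l * (l * L)) (l * A) = wtO π l W 0 * f c L A := by
  rw [← h.tw.mul_star, mul_assoc π, h.c1 (μ := μ) hc (s := 0) (by
    rw [Zsqrtd.norm_mul, Zsqrtd.norm_conj, h.tw.norm, ← hi]
    ring) (by simp), h.h2, ← mul_assoc y, h.yz, one_mul]

end WtC

end Pool.Agent.Lib.MP_696deb_nt.Y2
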