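import Pool.Agent.Lib.MP_696deb_nt.Y2.W0

/-! Mean values of periodic functions. -/

set_option autoImplicit false

open Complex Finset
open scoped Real ComplexConjugate Classical

namespace Pool.Agent.Lib.MP_696deb_nt.Y2.W

open QF (G ii ip Per FT mem_reps)

variable {Γ Γ' : Type} [AddCommGroup Γ] [AddCommGroup Γ'] {f g : Γ → ℂ} {P Q : ℕ}

theorem Pe.mono (h : Pe P f) (k : P ∣ Q) : Pe Q f := fun x y => by
  obtain ⟨r, rfl⟩ := k
  rw [mul_smul, h]

theorem Pe.pp (h : Pe P f) (hP : 0 < P) : PP f := ⟨P, hP, h⟩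

theorem Pe.mul (hf : Pe P f) (hg : Pe P g) : Pe P fun x => f x * g x := fun x y => by
  simp only [hf x y, hg x y]

theorem PP.both (hf : PP f) (hg : PP g) : ∃ P, 0 < P ∧ Pe P f ∧ Pe P g := by
  obtain ⟨P, hP, h⟩ := hf
  obtain ⟨Q, hQ, k⟩ := hg
  exact ⟨P * Q, mul_pos hP hQ, h.mono (dvd_mul_right _ _), k.mono (dvd_mul_left _ _)⟩

theorem pp_const (c : ℂ) : PP fun _ : Γ => c := ⟨1, one_pos, fun _ _ => rfl⟩

theorem PP.op (hf : PP f) (hg : PP g) (F : ℂ → ℂ → ℂ) : PP fun x => F (f x) (g x) := by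
  obtain ⟨P, hP, h, k⟩ := hf.both hg
  exact ⟨P, hP, fun x y => by simp only [h x y, k x y]⟩

theorem PP.mul (hf : PP f) (hg : PP g) : PP fun x => f x * g x := hf.op hg (· * ·)

theorem PP.add (hf : PP f) (hg : PP g) : PP fun x => f x + g x := hf.op hg (· + ·)

theorem PP.sub (hf : PP f) (hg : PP g) : PP fun x => f x - g x := hf.op hg (· - ·)

theorem PP.const_mul (hf : PP f) (c : ℂ) : PP fun x => c * f x := (pp_const c).mul hf

theorem PP.sum {ι : Type} {s : Finset ι} {F : ι → Γ → ℂ} (h : ∀ i ∈ s, PP (F i)) :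
    PP fun x => ∑ i ∈ s, F i x := by
  induction s using Finset.induction_on with
  | empty => simpa using pp_const 0
  | insert i s hi ih =>
    simp only [sum_insert hi]
    exact (h i (mem_insert_self _ _)).add (ih fun j hj => h j (mem_insert_of_mem hj))

theorem Pe.comp (h : Pe P f) (φ : Γ' →+ Γ) (a : Γ) : Pe P fun x => f (φ x + a) := fun x y => by
  simp only [map_add, map_nsmul]
  rw [add_right_comm, h]

theorem PP.comp (h : PP f) (φ : Γ' →+ Γ) : PP fun x => f (φ x) := by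
  obtain ⟨P, hP, h⟩ := h
  exact ⟨P, hP, by simpa using h.comp φ 0⟩

theorem PP.shift (h : PP f) (a : Γ) : PP fun x => f (x + a) := by
  obtain ⟨P, hP, h⟩ := h
  exact ⟨P, hP, h.comp (AddMonoidHom.id Γ) a⟩

theorem pe_iff_per {f : G → ℂ} : Pe P f ↔ Per P f := by simp only [Pe, Per, nsmul_eq_mul]

theorem cg_const (c : ℤ) : Cg fun _ : Γ => c := fun _ _ _ => by simp

theorem cg_hom (φ : Γ →+ ℤ) : Cg fun x => φ x := fun P x y => ⟨φ y, by simp⟩

theorem Cg.add {p q : Γ → ℤ} (hp : Cg p) (hq : Cg q) : Cg fun x => p x + q x := fun P x y => by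
  simpa only [add_sub_add_comm] using dvd_add (hp P x y) (hq P x y)

theorem Cg.neg {p : Γ → ℤ} (hp : Cg p) : Cg fun x => -p x := fun P x y => by
  simpa only [neg_sub_neg, neg_sub] using (hp P x y).neg_right

theorem Cg.sub {p q : Γ → ℤ} (hp : Cg p) (hq : Cg q) : Cg fun x => p x - q x := by
  simpa only [sub_eq_add_neg] using hp.add hq.neg

theorem Cg.mul {p q : Γ → ℤ} (hp : Cg p) (hq : Cg q) : Cg fun x => p x * q x := fun P x y => by
  rw [show p (x + P • y) * q (x + P • y) - p x * q x =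
    (p (x + P • y) - p x) * q (x + P • y) + p x * (q (x + P • y) - q x) by ring]
  exact dvd_add ((hp P x y).mul_right _) ((hq P x y).mul_left _)

theorem Cg.comp {p : Γ → ℤ} (hp : Cg p) (φ : Γ' →+ Γ) : Cg fun x => p (φ x) := fun P x y => by
  simpa only [map_add, map_nsmul] using hp P (φ x) (φ y)

theorem cg_bil {φ φ' : Γ →+ G} : Cg fun x => bil (φ x) (φ' x) := fun P x y =>
  ⟨bil (φ x) (φ' y) + bil (φ y) (φ' x) + P * bil (φ y) (φ' y), by simp [bil]; ring⟩

theorem cg_bil_left (φ : Γ →+ G) (z : G) : Cg fun x => bil (φ x) z := fun P x y =>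
  ⟨bil (φ y) z, by simp [bil]; ring⟩

theorem cg_norm (φ : Γ →+ G) : Cg fun x => (φ x).norm := by
  simpa only [norm_eq_bil] using cg_bil

theorem Cg.pe {q : Γ → ℤ} (h : Cg q) {F : ℤ → ℂ} (hF : ∀ a b : ℤ, (P : ℤ) ∣ a - b → F a = F b) :
    Pe P fun x => F (q x) := fun x y => hF _ _ (h P x y)

theorem q1_div_congr {n a b : ℤ} (h : n ∣ a - b) : q1 (a / n) = q1 (b / n) := by
  obtain ⟨k, hk⟩ := h
  rcases eq_or_ne n 0 with rfl | hn
  · simp
  · have : (n : ℂ) ≠ 0 := by exact_mod_cast hn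
    refine q1_congr k ?_
    rw [show a = b + n * k by omega]
    push_cast
    field_simp

theorem Cg.pp_q1 {q : Γ → ℤ} (h : Cg q) {n : ℤ} (hn : n ≠ 0) : PP fun x => q1 (q x / n) :=
  ⟨n.natAbs, Int.natAbs_pos.2 hn, h.pe (F := fun a => q1 (a / n)) fun _ _ e =>
    q1_div_congr (Int.natAbs_dvd.1 e)⟩

theorem Cg.pp_dvd {q : Γ → ℤ} (h : Cg q) {n : ℤ} (hn : n ≠ 0) (hf : PP f) :
    PP fun x => if n ∣ q x then f x else 0 := by
  have : PP fun x => if n ∣ q x then (1 : ℂ) else 0 :=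
    ⟨n.natAbs, Int.natAbs_pos.2 hn, h.pe (F := fun a => if n ∣ a then 1 else 0) fun a b e =>
      if_congr (dvd_iff_dvd_of_dvd_sub (Int.natAbs_dvd.1 e)) rfl rfl⟩
  simpa using this.mul hf

theorem q1_div_eq_one {n a : ℤ} (hn : n ≠ 0) : q1 (a / n) = 1 ↔ n ∣ a := by
  have : (n : ℂ) ≠ 0 := by exact_mod_cast hn
  refine ⟨fun h => ?_, fun h => by simpa [q1] using q1_div_congr (b := 0) (by simpa using h)⟩
  obtain ⟨k, hk⟩ := exp_eq_one_iff.1 h
  have e : (a : ℂ) / n = k := mul_left_cancel₀ two_pi_I_ne_zero (hk.trans (mul_comm _ _))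
  exact ⟨k, by rw [div_eq_iff this, mul_comm] at e; exact_mod_cast e⟩

theorem wa_shift (S : AddSubgroup Γ) (hS : ∀ s ∈ S, ∀ x, f (x + s) = f x) {R : Finset Γ}
    (hR : ∀ x, ∃! r, r ∈ R ∧ x - r ∈ S) (a : Γ) : ∑ r ∈ R, f (r + a) = ∑ r ∈ R, f r := by
  choose ρ h1 h2 using hR
  refine sum_nbij' (fun r => ρ (r + a)) (fun r => ρ (r - a)) (fun _ _ => (h1 _).1)
    (fun _ _ => (h1 _).1) (fun r hr => (h2 _ r ⟨hr, ?_⟩).symm) (fun r hr => (h2 _ r ⟨hr, ?_⟩).symm)
    fun r _ => by rw [← hS _ (h1 (r + a)).2 (ρ _), add_sub_cancel]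
  · convert neg_mem (h1 (r + a)).2 using 1
    abel
  · convert neg_mem (h1 (r - a)).2 using 1
    abel

/-- The mean value as a sum over a system of representatives of a group of periods. -/
theorem av_rep (S : AddSubgroup Γ) (hS : ∀ s ∈ S, ∀ x, f (x + s) = f x) {R : Finset Γ}
    (hR : ∀ x, ∃! r, r ∈ R ∧ x - r ∈ S) : Av f = (∑ r ∈ R, f r) / R.card := by
  have m : ∀ s ∈ S, ∀ x : Γ, ((x + s : Γ) : Γ ⧸ stab f) = x := fun s hs x =>
    QuotientAddGroup.mk_add_of_mem x (hS s hs)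
  have : Finite (Γ ⧸ stab f) := .of_surjective (fun r : R => ((r : Γ) : Γ ⧸ stab f)) fun q => by
    obtain ⟨r, h, -⟩ := hR q.out
    exact ⟨⟨r, h.1⟩, (m _ h.2 r).symm.trans (by rw [add_sub_cancel, QuotientAddGroup.out_eq'])⟩
  have := Fintype.ofFinite (Γ ⧸ stab f)
  obtain ⟨c, hc⟩ : ∃ c : ℂ, ∀ q : Γ ⧸ stab f, ∑ r ∈ R, (if (r : Γ ⧸ stab f) = q then 1 else 0) = c :=
    ⟨_, fun q => by
      rw [← wa_shift (f := fun r : Γ => if (r : Γ ⧸ stab f) = q then 1 else 0) S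
        (fun s hs x => by rw [m s hs]) hR q.out]
      simp only [QuotientAddGroup.mk_add, QuotientAddGroup.out_eq', add_eq_right]
      rfl⟩
  have k : ∀ g : Γ ⧸ stab f → ℂ, ∑ r ∈ R, g r = c * ∑ q, g q := fun g => by
    rw [mul_sum, sum_congr rfl fun q _ => congrArg (· * g q) (hc q).symm]
    simp only [sum_mul]
    rw [sum_comm]
    simp
  have k1 := k fun _ => 1
  have k2 := k fun q => f q.out
  rw [sum_congr rfl fun (r : Γ) _ => show f ((r : Γ ⧸ stab f).out) = f r by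
    obtain ⟨s, hs⟩ := QuotientAddGroup.mk_out_eq_add (stab f) r
    rw [hs, s.2]] at k2
  simp only [sum_const, nsmul_eq_mul, mul_one, card_univ] at k1
  have c0 : c ≠ 0 := fun e => by
    obtain ⟨r, h, -⟩ := hR 0
    exact card_ne_zero_of_mem h.1 (by simpa [e] using k1)
  rw [Av, finsum_eq_sum_of_fintype, k1, k2, mul_div_mul_left _ _ c0, AddSubgroup.index,
    Nat.card_eq_fintype_card]

theorem wa_rep {R : Finset Γ} (hR : ∀ x, ∃! r, r ∈ R ∧ ∃ y, x = r + P • y) (h : Pe P f) :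
    Av f = (∑ r ∈ R, f r) / R.card :=
  av_rep (nsmulAddMonoidHom P).range (by rintro _ ⟨y, rfl⟩ x; exact h x y) fun x => by
    simpa only [AddMonoidHom.mem_range, nsmulAddMonoidHom_apply, eq_sub_iff_add_eq',
      eq_comm (b := x)] using hR x

variable [Module.Finite ℤ Γ]

/-- A system of representatives modulo `P`. -/
theorem exists_rep (hP : 0 < P) : ∃ R : Finset Γ, R.Nonempty ∧
    (∀ x, ∃! r, r ∈ R ∧ ∃ y, x = r + P • y) ∧
      ∀ f : Γ → ℂ, Pe P f → Av f = (∑ r ∈ R, f r) / R.card := by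
  have : AddGroup.FG Γ := Module.Finite.iff_addGroup_fg.1 inferInstance
  have := AddSubgroup.finiteIndex_range_nsmulAddMonoidHom_of_fg Γ hP.ne'
  have := Fintype.ofFinite (Γ ⧸ (nsmulAddMonoidHom P).range)
  have h : ∀ x, ∃! r, r ∈ univ.image (fun q : Γ ⧸ (nsmulAddMonoidHom P).range => q.out) ∧
      ∃ y, x = r + P • y := fun x => by
    refine ⟨(x : Γ ⧸ (nsmulAddMonoidHom P).range).out, ⟨mem_image_of_mem _ (mem_univ _), ?_⟩, ?_⟩
    · obtain ⟨⟨_, y, rfl⟩, hs⟩ := QuotientAddGroup.mk_out_eq_add (nsmulAddMonoidHom P).range x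
      exact ⟨-y, by simp [hs]⟩
    · rintro r ⟨hr, y, rfl⟩
      obtain ⟨q, -, rfl⟩ := mem_image.1 hr
      rw [QuotientAddGroup.mk_add_of_mem (b := P • y) _ (AddMonoidHom.mem_range.2 ⟨y, rfl⟩),
        QuotientAddGroup.out_eq']
  exact ⟨_, ⟨_, (h 0).exists.choose_spec.1⟩, h, fun f => wa_rep h⟩

theorem av_const (c : ℂ) : Av (fun _ : Γ => c) = c := by
  obtain ⟨R, h0, -, h⟩ := exists_rep (Γ := Γ) one_pos
  rw [h _ fun _ _ => rfl, sum_const, nsmul_eq_mul,
    mul_div_cancel_left₀ _ (Nat.cast_ne_zero.2 h0.card_pos.ne')]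

theorem av_add (hf : PP f) (hg : PP g) : Av (fun x => f x + g x) = Av f + Av g := by
  obtain ⟨P, hP, a, b⟩ := hf.both hg
  obtain ⟨R, -, -, h⟩ := exists_rep (Γ := Γ) hP
  rw [h f a, h g b, h _ fun x y => by rw [a, b], sum_add_distrib, add_div]

theorem av_mul_left (hf : PP f) (c : ℂ) : Av (fun x => c * f x) = c * Av f := by
  obtain ⟨P, hP, a⟩ := hf
  obtain ⟨R, -, -, h⟩ := exists_rep (Γ := Γ) hP
  rw [h f a, h _ fun x y => by rw [a], ← mul_sum, mul_div_assoc]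

theorem av_minus (hf : PP f) (hg : PP g) : Av (fun x => f x - g x) = Av f - Av g := by
  have := av_add hf (hg.const_mul (-1))
  rw [av_mul_left hg] at this
  simpa only [neg_one_mul, ← sub_eq_add_neg] using this

theorem av_sum {ι : Type} {s : Finset ι} {F : ι → Γ → ℂ} (h : ∀ i ∈ s, PP (F i)) :
    Av (fun x => ∑ i ∈ s, F i x) = ∑ i ∈ s, Av (F i) := by
  induction s using Finset.induction_on with
  | empty => simpa using av_const 0
  | insert i s hi ih =>
    have k := fun j hj => h j (mem_insert_of_mem hj)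
    simp only [sum_insert hi]
    rw [av_add (h i (mem_insert_self _ _)) (PP.sum k), ih k]

theorem av_shift (hf : PP f) (a : Γ) : Av (fun x => f (x + a)) = Av f := by
  obtain ⟨P, hP, k⟩ := hf
  obtain ⟨R, -, hR, h⟩ := exists_rep (Γ := Γ) hP
  rw [h f k, h (fun x => f (x + a)) (k.comp (AddMonoidHom.id Γ) a), wa_shift (nsmulAddMonoidHom P).range
    (by rintro _ ⟨y, rfl⟩ x; exact k x y) fun x => by
      simpa only [AddMonoidHom.mem_range, nsmulAddMonoidHom_apply, eq_sub_iff_add_eq',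
        eq_comm (b := x)] using hR x]

theorem av_zero_of_shift (hf : PP f) {s : Γ} {ζ : ℂ} (h : ∀ x, f (x + s) = ζ * f x) (hζ : ζ ≠ 1) :
    Av f = 0 := by
  have e := av_shift hf s
  simp only [h, av_mul_left hf] at e
  exact (mul_left_eq_self₀.1 e).resolve_left hζ

/-- Averaging over finitely many shifts. -/
theorem av_shifts (hf : PP f) {ι : Type} (s : Finset ι) (a : ι → Γ) :
    Av (fun x => ∑ i ∈ s, f (x + a i)) = s.card * Av f := by
  rw [av_sum fun i _ => hf.shift (a i), sum_congr rfl fun i _ => av_shift hf (a i), sum_const,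
    nsmul_eq_mul]

theorem av_QI (hf : PP f) (h : ∀ x, QI (f x)) : QI (Av f) := by
  obtain ⟨P, hP, k⟩ := hf
  obtain ⟨R, -, -, e⟩ := exists_rep (Γ := Γ) hP
  choose a b hab using h
  refine ⟨(∑ r ∈ R, a r) / R.card, (∑ r ∈ R, b r) / R.card, ?_⟩
  simp only [e f k, hab, sum_add_distrib, ← sum_mul]
  push_cast
  ring

theorem av_ind {p : Γ → Prop} (hf : PP fun x => if p x then (1 : ℂ) else 0) {a : Γ} (ha : p a) :
    ∃ K : ℚ, 0 < K ∧ Av (fun x => if p x then (1 : ℂ) else 0) = K := by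
  obtain ⟨P, hP, k⟩ := hf
  obtain ⟨R, h0, hR, e⟩ := exists_rep (Γ := Γ) hP
  obtain ⟨r, ⟨h1, y, rfl⟩, -⟩ := hR a
  have h2 : p r := by simpa [ha] using (k r y).symm
  refine ⟨(R.filter p).card / R.card, div_pos (Nat.cast_pos.2 (card_pos.2
    ⟨r, mem_filter.2 ⟨h1, h2⟩⟩)) (Nat.cast_pos.2 h0.card_pos), ?_⟩
  rw [e _ k, sum_boole]
  push_cast
  rfl

theorem av_int {f : ℤ → ℂ} (hP : 0 < P) (h : Pe P f) : Av f = (∑ d ∈ range P, f d) / P := by
  have P0 : (0 : ℤ) < P := by exact_mod_cast hP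
  rw [wa_rep (R := (range P).image Nat.cast) (fun x => ?_) h,
    sum_image Nat.cast_injective.injOn, card_image_of_injective _ Nat.cast_injective, card_range]
  refine ⟨x % P, ⟨mem_image.2 ⟨(x % P).toNat, mem_range.2 ((Int.toNat_lt' hP).2
    (Int.emod_lt_of_pos _ P0)), Int.toNat_of_nonneg (Int.emod_nonneg _ P0.ne')⟩, x / P,
    by rw [nsmul_eq_mul, Int.emod_add_mul_ediv]⟩, ?_⟩
  rintro r ⟨hr, y, rfl⟩
  obtain ⟨n, hn, rfl⟩ := mem_image.1 hr
  rw [nsmul_eq_mul, Int.add_mul_emod_self_left, Int.emod_eq_of_lt n.cast_nonneg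
    (by exact_mod_cast mem_range.1 hn)]

theorem av_G {f : G → ℂ} (hP : 0 < P) (h : Per P f) : Av f = sm P f / P ^ 2 := by
  have r := EA.isRep_box hP
  have i : Function.Injective fun p : ℕ × ℕ => (⟨p.1, p.2⟩ : G) := fun p q e => by
    simpa [Prod.ext_iff] using e
  rw [wa_rep (fun x => ?_) (pe_iff_per.2 h), sum_image i.injOn, card_image_of_injective _ i,
    sum_product, card_product, card_range, Nat.cast_mul, sm, sq]
  obtain ⟨a, a1, y, a2⟩ := r.ex x
  refine ⟨a, ⟨a1, y, by rw [nsmul_eq_mul, ← a2, add_sub_cancel]⟩, fun b ⟨b1, z, b2⟩ =>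
    r.uq _ b1 _ a1 ⟨y - z, ?_⟩⟩
  rw [nsmul_eq_mul] at b2
  linear_combination a2 - b2

end Pool.Agent.Lib.MP_696deb_nt.Y2.W
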