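import Pool.Agent.Lib.MP_696deb_nt.Y2.Wa
import Pool.Agent.Lib.MP_696deb_nt.Y2.TH3

/-! Mean values and homomorphisms. -/

set_option autoImplicit false

open Complex Finset
open scoped Real ComplexConjugate Classical

namespace Pool.Agent.Lib.MP_696deb_nt.Y2.W

open QF (G ii ip Per FT mem_reps)

variable {Γ Γ' : Type} [AddCommGroup Γ] [AddCommGroup Γ'] [Module.Finite ℤ Γ] [Module.Finite ℤ Γ']
  {f g : Γ → ℂ} {P Q : ℕ}

theorem wb_rep (Γ : Type) [AddCommGroup Γ] [Module.Finite ℤ Γ] (hP : 0 < P) :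
    ∃ R : Finset Γ, (R.card : ℂ) ≠ 0 ∧
      ∀ f : Γ → ℂ, Pe P f → ∀ x, ∑ r ∈ R, f (x + r) = R.card * Av f := by
  obtain ⟨R, h0, -, h⟩ := exists_rep (Γ := Γ) hP
  have n : (R.card : ℂ) ≠ 0 := Nat.cast_ne_zero.2 h0.card_ne_zero
  refine ⟨R, n, fun f hf x => ?_⟩
  rw [← av_shift (hf.pp hP) x, h (fun y => f (y + x)) (hf.comp (AddMonoidHom.id Γ) x),
    mul_div_cancel₀ _ n]
  simp only [add_comm]

/-- Homomorphisms that are onto modulo a period preserve the mean value. -/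
theorem av_comp (hP : 0 < P) (hf : Pe P f) (φ : Γ' →+ Γ) (hφ : ∀ x, ∃ y z, x = φ y + P • z) :
    Av (fun x => f (φ x)) = Av f := by
  obtain ⟨R, n, h⟩ := wb_rep Γ hP
  choose y z e using hφ
  refine mul_left_cancel₀ n ?_
  rw [← av_shifts ((hf.pp hP).comp φ) R y, ← av_const (Γ := Γ') (R.card * Av f)]
  congr 1
  funext x
  rw [← h f hf (φ x)]
  exact sum_congr rfl fun r _ => by rw [map_add, ← hf _ (z r), add_assoc, ← e]

/-- Functions that vanish outside a subgroup. -/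
theorem av_sub (hf : PP f) (φ : Γ' →+ Γ) (hi : φ.range.index ≠ 0)
    (h0 : ∀ x, f x ≠ 0 → ∃ y, x = φ y) : Av (fun x => f (φ x)) = φ.range.index * Av f := by
  obtain ⟨P, hP, k⟩ := id hf
  obtain ⟨R, n, h⟩ := wb_rep Γ' hP
  have : φ.range.FiniteIndex := ⟨hi⟩
  have := Fintype.ofFinite (Γ ⧸ φ.range)
  refine mul_left_cancel₀ n ?_
  rw [mul_left_comm, ← av_shifts hf R φ, AddSubgroup.index_eq_card, Nat.card_eq_fintype_card,
    ← card_univ, ← av_shifts (PP.sum fun r _ => hf.shift (φ r)) univ Quotient.out,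
    ← av_const (Γ := Γ) (R.card * Av fun x => f (φ x))]
  congr 1
  funext x
  have e : ∀ q : Γ ⧸ φ.range, x + q.out ∈ φ.range ↔ (-x : Γ) = q := fun q => by
    conv_rhs => rw [← q.out_eq', QuotientAddGroup.eq, neg_neg]
  refine Eq.trans ?_ (sum_eq_single_of_mem ((-x : Γ) : Γ ⧸ φ.range) (mem_univ _) fun q _ hq =>
    sum_eq_zero fun r _ => ?_).symm
  · obtain ⟨y, hy⟩ := (e _).2 rfl
    rw [← hy, ← h _ (by simpa using k.comp φ 0) y]
    simp only [map_add]
  · by_contra k0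
    obtain ⟨y, hy⟩ := h0 _ k0
    exact hq ((e q).1 ⟨y - r, by rw [map_sub, ← hy, add_sub_cancel_right]⟩).symm

omit [Module.Finite ℤ Γ] [Module.Finite ℤ Γ'] in
theorem wb_pe {F : Γ × Γ' → ℂ} (h : Pe P F) : Pe P fun x => Av fun y => F (x, y) := fun x z =>
  congrArg Av (funext fun y => by simpa using h (x, y) (z, 0))

theorem pp_av {F : Γ × Γ' → ℂ} (h : PP F) : PP fun x => Av fun y => F (x, y) :=
  h.imp fun _ h => ⟨h.1, wb_pe h.2⟩

theorem av_prod {F : Γ × Γ' → ℂ} (h : PP F) : Av F = Av fun x => Av fun y => F (x, y) := by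
  obtain ⟨P, hP, k⟩ := id h
  obtain ⟨R, n, e⟩ := wb_rep Γ hP
  obtain ⟨R', n', e'⟩ := wb_rep Γ' hP
  refine mul_left_cancel₀ (mul_ne_zero n' n) ?_
  rw [mul_comm (R'.card : ℂ), ← Nat.cast_mul, ← card_product, ← av_shifts h (R ×ˢ R') id,
    ← av_const (Γ := Γ × Γ') (_ * Av fun x => Av fun y => F (x, y))]
  congr 1
  funext x
  rw [card_product, Nat.cast_mul, mul_comm (R.card : ℂ), mul_assoc, ← e _ (wb_pe k) x.1, mul_sum,
    sum_product]
  exact sum_congr rfl fun r _ => e' (fun y => F (x.1 + r, y))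
    (fun y z => by simpa using k (x.1 + r, y) (0, z)) x.2

theorem av_prod' {F : Γ × Γ' → ℂ} (h : PP F) : Av F = Av fun y => Av fun x => F (x, y) := by
  obtain ⟨P, hP, k⟩ := id h
  let φ : Γ' × Γ →+ Γ × Γ' := AddEquiv.prodComm.toAddMonoidHom
  rw [← av_comp hP k φ fun x => ⟨x.swap, 0, by simp [φ]⟩]
  exact av_prod (h.comp φ)

/-- Functions with coprime periods are independent. -/
theorem av_indep (hP : 0 < P) (hQ : 0 < Q) (h : P.Coprime Q) (hf : Pe P f) (hg : Pe Q g) :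
    Av (fun x => f x * g x) = Av f * Av g := by
  obtain ⟨R, n, e⟩ := wb_rep Γ hP
  obtain ⟨a, b, k⟩ := Nat.isCoprime_iff_coprime.2 h
  refine mul_left_cancel₀ n ?_
  rw [← av_shifts ((hf.pp hP).mul (hg.pp hQ)) R fun r => Q • b • r, ← mul_assoc,
    ← av_mul_left (hg.pp hQ)]
  congr 1
  funext x
  rw [← e f hf x, sum_mul]
  refine sum_congr rfl fun r _ => ?_
  rw [hg, ← hf _ (a • r), add_assoc, ← natCast_zsmul, ← natCast_zsmul, ← mul_smul, ← mul_smul,
    ← add_smul, show Q * b + P * a = 1 by linear_combination k, one_smul]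

theorem av_unit {f : G → ℂ} (hP : 0 < P) (hf : Per P f) {t : G} (ht : IsCoprime t (P : G)) :
    Av (fun x => f (t * x)) = Av f := by
  obtain ⟨a, b, k⟩ := ht
  exact av_comp hP (pe_iff_per.2 hf) (AddMonoidHom.mulLeft t) fun x => ⟨a * x, b * x, by
    rw [AddMonoidHom.coe_mulLeft, nsmul_eq_mul]
    linear_combination -x * k⟩

theorem av_dvd {f : G → ℂ} (hf : PP f) {z : G} (hz : z ≠ 0) :
    Av (fun x => f (z * x)) = z.norm * Av fun x => if z ∣ x then f x else 0 := by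
  have e : ((AddMonoidHom.mulLeft z).range.index : ℤ) = z.norm := by
    rw [← EA.card_quot, show (AddMonoidHom.mulLeft z).range = (Ideal.span {z}).toAddSubgroup from
      AddSubgroup.ext fun x => (Ideal.mem_span_singleton.trans ⟨fun ⟨y, h⟩ => ⟨y, h.symm⟩,
        fun ⟨y, h⟩ => ⟨y, h.symm⟩⟩).symm]
    rfl
  have n : (AddMonoidHom.mulLeft z).range.index ≠ 0 := fun k =>
    hz (GaussianInt.norm_eq_zero.1 (by rw [← e, k, Nat.cast_zero]))
  have p : PP fun x => if z ∣ x then (1 : ℂ) else 0 := ⟨_, Nat.pos_of_ne_zero n, fun x y =>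
    if_congr (dvd_add_left (by
      rw [nsmul_eq_mul, ← Int.cast_natCast, e, Zsqrtd.norm_eq_mul_conj, mul_assoc]
      exact dvd_mul_right _ _)) rfl rfl⟩
  have h := av_sub (p.mul hf) (AddMonoidHom.mulLeft z) n fun x k => by
    by_contra k0
    exact k (by rw [if_neg (show ¬ z ∣ x from k0), zero_mul])
  rw [← Int.cast_natCast, e] at h
  simpa using h

theorem av_char {n : ℤ} (hn : n ≠ 0) (t : ℤ) :
    Av (fun d : ℤ => q1 (d * t / n)) = if n ∣ t then 1 else 0 := by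
  split_ifs with h
  · rw [← av_const (Γ := ℤ) 1]
    exact congrArg Av (funext fun d => by
      rw [← Int.cast_mul, (q1_div_eq_one hn).2 (h.mul_left d)])
  · refine av_zero_of_shift (s := 1) (ζ := q1 (t / n)) ?_ (fun d => ?_)
      (mt (q1_div_eq_one hn).1 h)
    · simpa using ((cg_hom (AddMonoidHom.id ℤ)).mul (cg_const t)).pp_q1 hn
    · rw [← q1_add]
      congr 1
      push_cast
      ring

theorem sum_char (hP : 0 < P) (t : ℤ) :
    ∑ j ∈ range P, q1 (j * t / P) = if (P : ℤ) ∣ t then (P : ℂ) else 0 := by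
  have n : (P : ℂ) ≠ 0 := Nat.cast_ne_zero.2 hP.ne'
  have h := av_char (n := P) (Nat.cast_ne_zero.2 hP.ne') t
  rw [av_int hP fun x y => q1_congr (y * t) (by
    simp only [nsmul_eq_mul]
    push_cast
    field_simp), div_eq_iff n] at h
  simpa using h

/-- A periodic function is determined by its Fourier coefficients. -/
theorem fourier_zero {f : G → ℂ} (hP : 0 < P) (hf : Per P f)
    (h : ∀ y, Av (fun x => f x * q1 ((bil x y : ℤ) / P)) = 0) (x : G) : f x = 0 := by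
  have n : (P : ℂ) ^ 2 ≠ 0 := pow_ne_zero 2 (Nat.cast_ne_zero.2 hP.ne')
  have e : FT P f = fun _ => 0 := funext fun y => by
    have k := h y
    rwa [av_G hP fun a b => congrArg₂ (· * ·) (hf a b) (q1_bil_per hP y a b), div_eq_zero_iff,
      or_iff_left n, ← FT_eq] at k
  rw [← iFT_FT hP hf, e, iFT, FT_eq]
  simp [sm]

end Pool.Agent.Lib.MP_696deb_nt.Y2.W
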