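import Pool.Agent.Lib.MP_696deb_nt.Y2.Wb

/-! The quadratic Gauss sum of the Gaussian integers. -/

set_option autoImplicit false

open Complex Finset
open scoped Real ComplexConjugate Classical

namespace Pool.Agent.Lib.MP_696deb_nt.Y2.W

open QF (G ii ip Per FT mem_reps)

/-- The mean value of the phase. -/
noncomputable def wgS (r : ℤ) (c : ℕ) : ℂ := Av fun β : G => q1 ((r * β.norm : ℤ) / c)

theorem wg_pe (r : ℤ) (c : ℕ) : Pe c fun β : G => q1 ((r * β.norm : ℤ) / c) :=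
  ((cg_const r).mul (cg_norm (AddMonoidHom.id G))).pe (F := fun a => q1 (a / c))
    fun _ _ e => by simpa only [Int.cast_natCast] using q1_div_congr e

theorem wg_ind {z : G} (hz : z ≠ 0) : (PP fun x : G => if z ∣ x then (1 : ℂ) else 0) ∧
    Av (fun x : G => if z ∣ x then (1 : ℂ) else 0) = 1 / z.norm := by
  have n : z.norm ≠ 0 := mt GaussianInt.norm_eq_zero.1 hz
  refine ⟨⟨z.norm.natAbs, Int.natAbs_pos.2 n, fun x y => if_congr (dvd_add_left ?_) rfl rfl⟩, ?_⟩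
  · rw [nsmul_eq_mul, GaussianInt.natCast_natAbs_norm, Zsqrtd.norm_eq_mul_conj, mul_assoc]
    exact dvd_mul_right _ _
  · rw [eq_div_iff (Int.cast_ne_zero.2 n), mul_comm, ← av_dvd (pp_const 1) hz, av_const]

theorem wg_et {p : ℕ} : (p % 4 = 1 → et p = 1) ∧ (p % 4 = 3 → et p = -1) := by
  rw [et, Int.cast_natCast]
  exact ⟨ZMod.χ₄_nat_one_mod_four, ZMod.χ₄_nat_three_mod_four⟩

theorem wg_sq {p m : ℕ} (hp : p.Prime) (h2 : Odd p) (hm : 0 < m) {r : ℤ}
    (hr : IsCoprime r (p : ℤ)) : (p : ℂ) ^ 2 * wgS r (p * p * m) = wgS r m := by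
  have p0 : (p : ℂ) ≠ 0 := Nat.cast_ne_zero.2 hp.ne_zero
  have m0 : (m : ℂ) ≠ 0 := Nat.cast_ne_zero.2 hm.ne'
  have pp := (wg_pe r (p * p * m)).pp (Nat.mul_pos (Nat.mul_pos hp.pos hp.pos) hm)
  have c : ∀ x, (p : ℤ) ∣ 2 * r * x ↔ (p : ℤ) ∣ x := fun x =>
    ⟨((Nat.isCoprime_iff_coprime.2 (Nat.coprime_two_right.2 h2)).mul_right
      hr.symm).dvd_of_dvd_mul_left, fun h => h.mul_left _⟩
  have h1 := av_shifts pp (range p ×ˢ range p) fun v => ⟨p * m * v.1, p * m * v.2⟩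
  have h3 := av_dvd pp (z := p) (Nat.cast_ne_zero.2 hp.ne_zero)
  rw [card_product, card_range, Nat.cast_mul p p, ← sq (p : ℂ)] at h1
  rw [Zsqrtd.norm_natCast, ← av_mul_left ((wg_ind (Nat.cast_ne_zero.2 hp.ne_zero)).1.op pp
    (· * ·) |>.imp fun _ h => by simpa only [ite_mul, one_mul, zero_mul] using h)] at h3
  rw [wgS, ← h1, wgS]
  refine (congrArg Av (funext fun β => ?_)).trans (h3.symm.trans (congrArg Av (funext fun β => ?_)))
  · rw [sum_congr rfl (g := fun v : ℕ × ℕ => q1 ((r * β.norm : ℤ) / (p * p * m : ℕ)) *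
      (q1 (v.1 * (2 * r * β.re : ℤ) / p) * q1 (v.2 * (2 * r * β.im : ℤ) / p))) fun v _ => ?_,
      ← mul_sum, sum_product]
    · simp only [← sum_mul_sum, sum_char hp.pos, c, ← Int.cast_natCast (R := G),
        Zsqrtd.intCast_dvd, ite_and]
      split_ifs <;> simp [mul_comm]
    · rw [← q1_add, ← q1_add]
      refine q1_congr (r * m * (v.1 * v.1 + v.2 * v.2)) ?_
      simp only [norm_eq_bil, bil, Zsqrtd.re_add, Zsqrtd.im_add]
      push_cast
      field_simp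
      ring
  · rw [Zsqrtd.norm_mul, Zsqrtd.norm_natCast]
    congr 1
    push_cast
    field_simp

theorem wg_mul {a b : ℕ} (ha : 0 < a) (hb : 0 < b) {s t : ℤ} (h : s * b + t * a = 1) (r : ℤ) :
    wgS r (a * b) = wgS (r * s) a * wgS (r * t) b := by
  have a0 : (a : ℂ) ≠ 0 := Nat.cast_ne_zero.2 ha.ne'
  have b0 : (b : ℂ) ≠ 0 := Nat.cast_ne_zero.2 hb.ne'
  have h' := congrArg (Int.cast : ℤ → ℂ) h
  rw [wgS, wgS, wgS, ← av_indep ha hb (Nat.isCoprime_iff_coprime.1 ⟨t, s, by rw [← h, add_comm]⟩)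
    (wg_pe _ a) (wg_pe _ b)]
  refine congrArg Av (funext fun β => ?_)
  rw [← q1_add]
  congr 1
  push_cast at h' ⊢
  field_simp
  linear_combination -(r * β.norm : ℂ) * h'

theorem wg_unit {p : ℕ} (hp : p.Prime) {r : ℤ} (hr : IsCoprime r (p : ℤ)) : wgS r p = wgS 1 p := by
  have := Fact.mk hp
  obtain ⟨a, b, e⟩ := ZMod.sq_add_sq p r
  obtain ⟨a, rfl⟩ := ZMod.intCast_surjective a
  obtain ⟨b, rfl⟩ := ZMod.intCast_surjective b
  obtain ⟨k, hk⟩ := (ZMod.intCast_eq_intCast_iff_dvd_sub (⟨a, b⟩ : G).norm r p).1 (by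
    rw [← e, norm_eq_bil, bil]
    push_cast
    ring)
  obtain ⟨u, w, h⟩ := hr
  have h' := congrArg (Int.cast : ℤ → G) (show u * (⟨a, b⟩ : G).norm + (w + u * k) * p = 1 by
    linear_combination h - u * hk)
  rw [wgS, wgS, ← av_unit hp.pos (pe_iff_per.1 (wg_pe 1 p)) (t := ⟨a, b⟩)
    ⟨u * star ⟨a, b⟩, (w + u * k : ℤ), by
      rw [mul_assoc, mul_comm (star _), ← Zsqrtd.norm_eq_mul_conj]
      exact_mod_cast h'⟩]
  refine congrArg Av (funext fun β => ?_)
  simpa only [Int.cast_natCast] using q1_div_congr (n := p) ⟨k * β.norm, by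
    rw [Zsqrtd.norm_mul]
    linear_combination β.norm * hk⟩

theorem wg_count {p : ℕ} (hp : p.Prime) (h2 : Odd p) :
    (p : ℂ) ^ 2 * Av (fun β : G => if (p : ℤ) ∣ β.norm then (1 : ℂ) else 0) =
      p + (p - 1) * et p := by
  have := Fact.mk hp
  have p0 : (p : ℂ) ≠ 0 := Nat.cast_ne_zero.2 hp.ne_zero
  obtain ⟨i1, i2⟩ := wg_ind (z := p) (Nat.cast_ne_zero.2 hp.ne_zero)
  have d : ∀ β : G, (p : ℤ) ∣ β.norm ↔ (p : G) ∣ β * star β := fun β => by
    rw [← Zsqrtd.norm_eq_mul_conj, ← Int.cast_natCast (R := G), Zsqrtd.intCast_dvd_intCast]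
  rw [Zsqrtd.norm_natCast] at i2
  rcases Nat.odd_mod_four_iff.1 (Nat.odd_iff.1 h2) with h | h
  · obtain ⟨x, y, e⟩ := Nat.Prime.sq_add_sq (p := p) (by omega)
    obtain ⟨z, hz⟩ : ∃ z : G, z.norm = p :=
      ⟨⟨x, y⟩, by rw [norm_eq_bil, bil, ← e]; push_cast; ring⟩
    have z0 := (QF.f3_prime hp hz).ne_zero
    obtain ⟨j1, j2⟩ := wg_ind z0
    obtain ⟨k1, k2⟩ := wg_ind (star_ne_zero.2 z0)
    rw [show (fun β : G => if (p : ℤ) ∣ β.norm then (1 : ℂ) else 0) = fun β =>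
      ((if z ∣ β then 1 else 0) + if star z ∣ β then 1 else 0) - if (p : G) ∣ β then 1 else 0 from
      funext fun β => ?_, av_minus (j1.add k1) i1, av_add j1 k1, i2, j2, k2, Zsqrtd.norm_conj, hz,
      wg_et.1 h]
    · push_cast
      field_simp
      ring
    have : (p : ℤ) ∣ β.norm ↔ z ∣ β ∨ star z ∣ β := by
      refine ⟨fun k => ?_, fun k => hz ▸ ?_⟩
      · exact ((QF.f3_prime hp hz).dvd_or_dvd
          ((Dvd.intro _ (QF.f3_mul hz)).trans ((d β).1 k))).imp_right QF.f3_star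
      · rcases k with ⟨γ, rfl⟩ | ⟨γ, rfl⟩ <;> simp [Zsqrtd.norm_mul]
    simp only [this, ← QF.f3_both hp h hz]
    by_cases a : z ∣ β <;> by_cases b : star z ∣ β <;> simp [a, b]
  · rw [show (fun β : G => if (p : ℤ) ∣ β.norm then (1 : ℂ) else 0) = fun β =>
      if (p : G) ∣ β then 1 else 0 from funext fun β => if_congr ((d β).trans ⟨fun k => ?_,
        fun k => k.mul_right _⟩) rfl rfl, i2, wg_et.2 h]
    · push_cast
      field_simp
      ring
    exact (((GaussianInt.prime_iff_mod_four_eq_three_of_nat_prime p).2 h).dvd_or_dvd k).elim id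
      fun k => by simpa using QF.f3_star k

theorem wg_prime {p : ℕ} (hp : p.Prime) (h2 : Odd p) {r : ℤ} (hr : IsCoprime r (p : ℤ)) :
    wgS r p = et p / p := by
  have p0 : (p : ℂ) ≠ 0 := Nat.cast_ne_zero.2 hp.ne_zero
  have p1 : (p : ℂ) - 1 ≠ 0 := sub_ne_zero.2 (Nat.cast_ne_one.2 hp.ne_one)
  have h1 := av_sum (s := range p) fun j _ => (wg_pe j p).pp hp.pos
  have h3 := wg_count hp h2
  have pp : PP fun β : G => if (p : ℤ) ∣ β.norm then (1 : ℂ) else 0 :=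
    (cg_norm (AddMonoidHom.id G)).pp_dvd (Int.natCast_ne_zero.2 hp.ne_zero) (pp_const 1)
  rw [sq, mul_assoc, ← av_mul_left pp] at h3
  simp only [Int.cast_mul, Int.cast_natCast, sum_char hp.pos] at h1
  simp only [mul_ite, mul_one, mul_zero, h1] at h3
  rw [range_eq_Ico, sum_eq_sum_Ico_succ_bot hp.pos, sum_congr rfl (g := fun _ => wgS 1 p)
    fun j hj => ?_] at h3
  · simp only [Nat.cast_zero, zero_mul, zero_div, show q1 0 = 1 by simp [q1],
      av_const, sum_const, Nat.card_Ico,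
      nsmul_eq_mul, zero_add, Nat.cast_sub hp.one_le, Nat.cast_one] at h3
    rw [wg_unit hp hr, eq_div_iff p0]
    exact mul_left_cancel₀ p1 (by linear_combination h3)
  · rw [← wg_unit hp (r := j) (Nat.isCoprime_iff_coprime.2 (Nat.coprime_of_lt_prime
      (by have := (mem_Ico.1 hj).1; omega) (mem_Ico.1 hj).2 hp).symm), wgS]
    simp only [Int.cast_mul, Int.cast_natCast]

theorem gauss_O {c : ℕ} (hc : Odd c) {r : ℤ} (hr : IsCoprime r (c : ℤ)) :
    Av (fun β : G => q1 ((r * β.norm : ℤ) / c)) = et c / c := by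
  change wgS r c = _
  have em : ∀ a b : ℕ, (et (a * b : ℕ) : ℂ) = et a * et b := fun a b => by
    rw [et, et, et, Nat.cast_mul, Int.cast_mul, map_mul, Int.cast_mul]
  induction c using Nat.strong_induction_on generalizing r with
  | _ c ih =>
  by_cases h1 : c = 1
  · simp [h1, wgS, et, -Int.cast_mul, q1_int, av_const]
  obtain ⟨p, hp, m, rfl⟩ := Nat.exists_prime_and_dvd h1
  obtain ⟨h2, h3⟩ := Nat.odd_mul.1 hc
  have p0 : (p : ℂ) ≠ 0 := Nat.cast_ne_zero.2 hp.ne_zero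
  have lt : m < p * m := lt_mul_of_one_lt_left h3.pos hp.one_lt
  rw [Nat.cast_mul] at hr
  by_cases h : p ∣ m
  · obtain ⟨m, rfl⟩ := h
    have h4 := (Nat.odd_mul.1 h3).2
    have m0 : (m : ℂ) ≠ 0 := Nat.cast_ne_zero.2 h4.pos.ne'
    have e : (et p : ℂ) * et p = 1 := by
      rcases Nat.odd_mod_four_iff.1 (Nat.odd_iff.1 h2) with k | k
      · simp [wg_et.1 k]
      · simp [wg_et.2 k]
    rw [Nat.cast_mul] at hr
    refine mul_left_cancel₀ (pow_ne_zero 2 p0) ?_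
    rw [em, em, ← mul_assoc p, wg_sq hp h2 h4.pos hr.of_mul_right_left, ih m
      ((Nat.le_mul_of_pos_left m hp.pos).trans_lt lt) h4 hr.of_mul_right_right.of_mul_right_right,
      ← mul_assoc, e]
    push_cast
    field_simp
  · obtain ⟨t, s, e⟩ := Nat.isCoprime_iff_coprime.2 (hp.coprime_iff_not_dvd.2 h)
    rw [wg_mul hp.pos h3.pos (s := s) (t := t) (by rw [← e, add_comm]),
      wg_prime hp h2 (hr.of_mul_right_left.mul_left ⟨m, t, by rw [← e]; ring⟩),
      ih m lt h3 (hr.of_mul_right_right.mul_left ⟨p, s, by rw [← e]; ring⟩), em, Nat.cast_mul,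
      div_mul_div_comm]

end Pool.Agent.Lib.MP_696deb_nt.Y2.W
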