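import Pool.Agent.Lib.MP_696deb_nt.Y2.Wb
import Pool.Agent.Lib.MP_696deb_nt.Y2.D1

/-! Gauss sums on the matrices that vanish. -/

set_option autoImplicit false

open Complex Finset
open scoped Real ComplexConjugate Classical

namespace Pool.Agent.Lib.MP_696deb_nt.Y2.W

open QF (G ii ip Per FT mem_reps)

variable {c d T : ℤ} {Z : MZ}

theorem wg1_det (g h : MZ) (k : ℤ) :
    (g + k • h).det = g.det + k * (pr g h + k * h.det) := by
  simp only [Matrix.det_fin_two, pr, Matrix.add_apply, Matrix.smul_apply, smul_eq_mul]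
  ring

theorem wg1_pr (g h Z : MZ) (k : ℤ) : pr (g + k • h) Z = pr g Z + k * pr h Z := by
  simp only [pr, Matrix.add_apply, Matrix.smul_apply, smul_eq_mul]
  ring

theorem wg1_smul (g Z : MZ) (k : ℤ) : pr g (k • Z) = k * pr g Z := by
  simp only [pr, Matrix.smul_apply, smul_eq_mul]
  ring

/-- The phase after a shift by a multiple of `4 c`. -/
theorem wg1_four (hc : c ≠ 0) (d : ℤ) (Z : MZ) (T : ℤ) (g h : MZ) :
    q1 ((-(d * (g + (4 * c) • h).det : ℤ) + (pr (g + (4 * c) • h) Z : ℤ) / T) / (4 * c)) =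
      q1 ((pr h Z : ℤ) / T) * q1 ((-(d * g.det : ℤ) + (pr g Z : ℤ) / T) / (4 * c)) := by
  have c0 : (c : ℂ) ≠ 0 := Int.cast_ne_zero.2 hc
  rw [← q1_add, ← mul_one (q1 (_ + _)), ← q1_int (-(d * (pr g h + 4 * c * h.det))), ← q1_add,
    wg1_det, wg1_pr]
  congr 1
  push_cast
  simp only [div_eq_mul_inv _ (T : ℂ)]
  field_simp
  ring

theorem pp_w0 : PP fun g : MZ => (w0 g : ℂ) :=
  ⟨20, by norm_num, fun x y => congrArg _ (w0_per x _ ⟨y 0 0, by simp⟩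
    ⟨5 * y 0 1, by simp; ring⟩ ⟨y 1 0, by simp⟩ ⟨5 * y 1 1, by simp; ring⟩)⟩

theorem pp_gs (hc : c ≠ 0) (hT : T ≠ 0) (d : ℤ) (Z : MZ) : PP fun g : MZ =>
    (w0 g : ℂ) * q1 ((-(d * g.det : ℤ) + (pr g Z : ℤ) / T) / (4 * c)) := by
  have c0 : (c : ℂ) ≠ 0 := Int.cast_ne_zero.2 hc
  have T0 : (T : ℂ) ≠ 0 := Int.cast_ne_zero.2 hT
  have k : Cg fun g : MZ => -(d * g.det) * T + pr g Z := fun P x y =>
    ⟨-(d * (pr x y + P * y.det)) * T + pr y Z, by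
      simp only [← natCast_zsmul, wg1_det, wg1_pr]
      ring⟩
  have l := pp_w0.mul (k.pp_q1 (n := 4 * c * T) (mul_ne_zero (mul_ne_zero four_ne_zero hc) hT))
  convert l using 4 with g
  push_cast
  field_simp

theorem gs_scale {k : ℤ} (hk : k ≠ 0) (c d : ℤ) (Z : MZ) (T : ℤ) :
    Gs c d (k • Z) (k * T) = Gs c d Z T := by
  have k0 : (k : ℂ) ≠ 0 := Int.cast_ne_zero.2 hk
  simp only [Gs, wg1_smul, Int.cast_mul k, mul_div_mul_left _ _ k0]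

theorem wg1_dvd (hc : c ≠ 0) (hT : T ≠ 0) (h : Gs c d Z T ≠ 0) (δ : MZ) (h0 : 5 ∣ c * δ 0 0)
    (h1 : 5 ∣ c * δ 1 0) : T ∣ pr δ Z := by
  by_contra e
  refine h (av_zero_of_shift (pp_gs hc hT d Z) (s := (4 * c) • δ) (fun g => ?_)
    (mt (q1_div_eq_one hT).1 e))
  have k : ∀ i j, ((4 * c) • δ) i j = 4 * (c * δ i j) := fun i j => mul_assoc _ _ _
  rw [wg1_four hc, w0_per g _ (by rw [k]; omega) (by rw [k]; omega) (by rw [k]; omega)
    (by rw [k]; omega), mul_left_comm]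

theorem wg1_all (h : ∀ δ, T ∣ pr δ Z) : ∃ Z' : MZ, Z = T • Z' := by
  refine d1_smul fun i j => ?_
  fin_cases i <;> fin_cases j
  · simpa [pr] using h !![0, 0; 0, 1]
  · simpa [pr] using h !![0, 0; 1, 0]
  · simpa [pr] using h !![0, 1; 0, 0]
  · simpa [pr] using h !![1, 0; 0, 0]

theorem gs_int (hc : c ≠ 0) (h5 : 5 ∣ c) (hT : T ≠ 0) (h : Gs c d Z T ≠ 0) :
    ∃ Z' : MZ, Z = T • Z' :=
  wg1_all fun δ => wg1_dvd hc hT h δ (h5.mul_right _) (h5.mul_right _)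

theorem gs_five (hc : c ≠ 0) (hT : T ≠ 0) (h : Gs c d Z T ≠ 0) :
    ∃ Z' : MZ, (5 : ℤ) • Z = T • Z' := by
  refine wg1_all fun δ => ?_
  have k := wg1_dvd hc hT h ((5 : ℤ) • δ) ⟨c * δ 0 0, by simp; ring⟩ ⟨c * δ 1 0, by simp; ring⟩
  convert k using 1
  simp only [pr, Matrix.smul_apply, smul_eq_mul]
  ring

theorem wg1_even (hc : c ≠ 0) (h2 : 2 ∣ c) (δ : MZ)
    (h : ∀ g : MZ, 2 ∣ g 1 0 → g 0 0 % 2 = 1 → g 1 1 % 2 = 1 → Odd (pr δ Z - 5 * (d * pr g δ))) :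
    Gs c d Z 5 = 0 := by
  have c0 : (c : ℂ) ≠ 0 := Int.cast_ne_zero.2 hc
  refine av_zero_of_shift (pp_gs hc (by norm_num) d Z) (s := (10 * c) • δ) (ζ := -1)
    (fun g => ?_) (by norm_num)
  have k : ∀ i j, 20 ∣ ((10 * c) • δ) i j := fun i j => by
    obtain ⟨a, rfl⟩ := h2
    exact ⟨a * δ i j, by simp; ring⟩
  rw [w0_per g _ (k 0 0) (by have := k 0 1; omega) (k 1 0) (by have := k 1 1; omega)]
  by_cases e : w0 g = 0
  · simp [e]
  obtain ⟨a1, a2, -⟩ := w0_ne e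
  obtain ⟨a3, a4⟩ := d1_odd (g := g) (by omega) a2
  obtain ⟨m, hm⟩ := h g (by omega) a3 a4
  have q : q1 (1 / 2) = -1 := by
    rw [q1, ← exp_pi_mul_I]
    congr 1
    ring
  rw [mul_left_comm, ← q, ← q1_add, wg1_det, wg1_pr, eq_add_of_sub_eq hm]
  refine congrArg _ (q1_congr (m - 25 * (d * c * δ.det)) ?_)
  push_cast
  field_simp
  ring

theorem gs_even (hc : c ≠ 0) (h2 : 2 ∣ c) (hd : Odd d) (hZ : 2 ∣ Z.det) : Gs c d Z 5 = 0 := by
  obtain ⟨m, rfl⟩ := hd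
  rw [Matrix.det_fin_two] at hZ
  have k : ∀ a : ℤ, (2 * m + 1) * a = 2 * (m * a) + a := fun a => by ring
  by_cases h0 : 2 ∣ Z 0 0
  · refine wg1_even hc h2 !![0, 0; 0, 1] fun g a b e => ?_
    simp [pr, Int.odd_iff, k]
    omega
  by_cases h1 : 2 ∣ Z 1 1
  · refine wg1_even hc h2 !![1, 0; 0, 0] fun g a b e => ?_
    simp [pr, Int.odd_iff, k]
    omega
  have h3 : ¬ 2 ∣ Z 1 0 := fun e => (Int.prime_two.dvd_or_dvd
    ((dvd_sub_left (e.mul_left (Z 0 1))).1 hZ)).elim h0 h1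
  refine wg1_even hc h2 !![0, 1; 0, 0] fun g a b e => ?_
  simp [pr, Int.odd_iff, k]
  omega

theorem wg1_ep : ∀ a b : ZMod 5, b ≠ 0 → ∑ k ∈ range 5, ep (a + 4 * b * k) = 0 := by decide

theorem gs_not5 (h5 : ¬ 5 ∣ c) (hZ : 5 ∣ Z 0 0 → 5 ∣ Z 1 1) : Gs c d Z 5 = 0 := by
  have hc : c ≠ 0 := fun e => h5 (e ▸ dvd_zero _)
  by_cases h0 : 5 ∣ Z 0 0
  swap
  · by_contra e
    exact h0 (by simpa [pr] using wg1_dvd hc (by norm_num) e !![0, 0; 0, 1] (by simp) (by simp))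
  have l := av_shifts (pp_gs hc (T := 5) (by norm_num) d Z) (range 5)
    fun k : ℕ => (4 * c) • (!![k, 0; 0, 0] : MZ)
  refine (mul_eq_zero.1 (l.symm.trans ((congrArg Av (funext fun g => ?_)).trans
    (av_const 0)))).resolve_left (by simp)
  have e : ∀ k : ℕ, q1 ((pr !![k, 0; 0, 0] Z : ℤ) / (5 : ℤ)) = 1 := fun k =>
    (q1_div_eq_one (by norm_num)).2 (by simpa [pr] using (hZ h0).mul_left k)
  have w : ∀ k : ℕ, w0 (g + (4 * c) • (!![k, 0; 0, 0] : MZ)) =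
      (if 5 ∣ g 1 0 then ep ((g 0 0 : ℤ) + 4 * c * k) else 0) *
        w2 (g 0 0 : ℤ) (g 0 1 : ℤ) (g 1 0 : ℤ) (g 1 1 : ℤ) := fun k => by
    simp [w0_eq, show (4 : ZMod 4) = 0 from rfl]
  simp only [wg1_four hc, e, one_mul, w]
  rw [← sum_mul, ← map_sum GaussianInt.toComplex, ← sum_mul]
  split_ifs
  · rw [wg1_ep _ _ (mt (ZMod.intCast_zmod_eq_zero_iff_dvd c 5).1 h5), zero_mul, map_zero,
      zero_mul]
  · simp

end Pool.Agent.Lib.MP_696deb_nt.Y2.W
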