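import Pool.Agent.Lib.MP_696deb_nt.Y2.Wg1

/-! The value of the Gauss sum on the matrices. -/

set_option autoImplicit false

open Complex Finset
open scoped Real ComplexConjugate Classical

namespace Pool.Agent.Lib.MP_696deb_nt.Y2.W

open QF (G ii ip Per FT mem_reps)

theorem wg2_fin {Γ Q : Type} [AddCommGroup Γ] [AddCommGroup Q] [Fintype Q] (ρ : Γ →+ Q)
    (hρ : Function.Surjective ρ) (f : Q → ℂ) :
    Av (fun x => f (ρ x)) = (∑ q, f q) / Fintype.card Q := by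
  have e := Function.surjInv_eq hρ
  have i := Function.injective_surjInv hρ
  rw [av_rep ρ.ker (fun s hs x => by rw [map_add, hs, add_zero])
    (R := univ.image (Function.surjInv hρ)) fun x => ⟨_, ⟨mem_image_of_mem _ (mem_univ (ρ x)), by
      rw [AddMonoidHom.mem_ker, map_sub, e, sub_self]⟩, ?_⟩, sum_image i.injOn,
    card_image_of_injective _ i, card_univ]
  · simp only [e]
  · rintro _ ⟨hr, h⟩
    obtain ⟨q, -, rfl⟩ := mem_image.1 hr
    rw [AddMonoidHom.mem_ker, map_sub, e, sub_eq_zero] at h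
    rw [h]

theorem wg2_pp {Γ Γ' : Type} [AddCommGroup Γ] [AddCommGroup Γ'] {f : Γ → ℂ} {g : Γ' → ℂ}
    (hf : PP f) (hg : PP g) : PP fun p : Γ × Γ' => f p.1 * g p.2 :=
  (hf.comp (AddMonoidHom.fst Γ Γ')).mul (hg.comp (AddMonoidHom.snd Γ Γ'))

theorem wg2_prod {Γ Γ' : Type} [AddCommGroup Γ] [AddCommGroup Γ'] [Module.Finite ℤ Γ]
    [Module.Finite ℤ Γ'] {f : Γ → ℂ} {g : Γ' → ℂ} (hf : PP f) (hg : PP g) :
    Av (fun p : Γ × Γ' => f p.1 * g p.2) = Av f * Av g := by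
  rw [av_prod (wg2_pp hf hg)]
  simp only [av_mul_left hg]
  simp only [mul_comm (f _), av_mul_left hf, mul_comm (Av f)]

theorem wg2_dvd {a b : ℤ} (h : IsCoprime a b) (x : ℤ) : a ∣ b * x ↔ a ∣ x :=
  ⟨h.dvd_of_dvd_mul_left, fun k => k.mul_left _⟩

theorem wg2_ent (i j : Fin 2) : Cg fun g : MZ => g i j := cg_hom (Matrix.entryAddMonoidHom ℤ i j)

theorem wg2_det : Cg fun g : MZ => g.det := by
  simpa only [Matrix.det_fin_two] using
    ((wg2_ent 0 0).mul (wg2_ent 1 1)).sub ((wg2_ent 0 1).mul (wg2_ent 1 0))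

theorem wg2_pr (Z : MZ) : Cg fun g : MZ => pr g Z :=
  ((((wg2_ent 0 0).mul (cg_const _)).sub ((wg2_ent 0 1).mul (cg_const _))).sub
    ((wg2_ent 1 0).mul (cg_const _))).add ((wg2_ent 1 1).mul (cg_const _))

theorem wg2_ind {c : ℕ} (hc : 0 < c) : (PP fun a : ℤ => if (c : ℤ) ∣ a then (1 : ℂ) else 0) ∧
    Av (fun a : ℤ => if (c : ℤ) ∣ a then (1 : ℂ) else 0) = 1 / c := by
  have p : Pe c fun a : ℤ => if (c : ℤ) ∣ a then (1 : ℂ) else 0 := fun x y =>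
    if_congr (dvd_add_left (dvd_mul_right _ _)) rfl rfl
  refine ⟨p.pp hc, ?_⟩
  rw [av_int hc p, sum_eq_single_of_mem 0 (mem_range.2 hc) fun b hb b0 => if_neg fun e =>
    b0 (Nat.eq_zero_of_dvd_of_lt (Int.natCast_dvd_natCast.1 e) (mem_range.1 hb))]
  simp

theorem wg2_c {c : ℕ} (hc : 0 < c) {m : ℤ} (hm : IsCoprime (c : ℤ) m) {w : ℤ × ℤ → ℂ}
    (hw : Pe c w) :
    Av (fun g : MZ => w (g 0 0, g 1 0) * q1 ((m * g.det : ℤ) / (c : ℤ))) = w 0 / c ^ 2 := by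
  have c0 : (c : ℤ) ≠ 0 := Nat.cast_ne_zero.2 hc.ne'
  let φ : (ℤ × ℤ) × (ℤ × ℤ) →+ MZ := AddMonoidHom.mk' (fun p => !![p.1.1, p.2.1; p.1.2, p.2.2])
    fun _ _ => by simp
  have p : Pe c fun g : MZ => w (g 0 0, g 1 0) * q1 ((m * g.det : ℤ) / (c : ℤ)) :=
    Pe.mul (fun x y => hw (x 0 0, x 1 0) (y 0 0, y 1 0))
      (((cg_const m).mul wg2_det).pe (F := fun a => q1 (a / (c : ℤ))) fun _ _ => q1_div_congr)
  have q : ∀ t : ℤ, PP fun y : ℤ => q1 (y * t / (c : ℤ)) := fun t => by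
    simpa only [AddMonoidHom.id_apply, Int.cast_mul] using
      ((cg_hom (AddMonoidHom.id ℤ)).mul (cg_const t)).pp_q1 c0
  rw [← av_comp hc p φ fun g => ⟨((g 0 0, g 1 0), (g 0 1, g 1 1)), 0, by
    rw [smul_zero, add_zero]; exact Matrix.eta_fin_two g⟩, av_prod ((p.pp hc).comp φ),
    show (fun x : ℤ × ℤ => _) = fun x : ℤ × ℤ => w 0 * ((if (c : ℤ) ∣ x.1 then 1 else 0) *
      if (c : ℤ) ∣ x.2 then 1 else 0) from funext fun x => ?_,
    av_mul_left (wg2_pp (wg2_ind hc).1 (wg2_ind hc).1), wg2_prod (wg2_ind hc).1 (wg2_ind hc).1,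
    (wg2_ind hc).2]
  · ring
  rw [show (fun y : ℤ × ℤ => _) = fun y : ℤ × ℤ => w x * (q1 (y.1 * (-(m * x.2) : ℤ) / (c : ℤ)) *
      q1 (y.2 * (m * x.1 : ℤ) / (c : ℤ))) from funext fun y => by
        rw [← q1_add]
        simp only [φ, AddMonoidHom.mk'_apply, Matrix.det_fin_two_of]
        congr 2
        push_cast
        ring,
    av_mul_left (wg2_pp (q _) (q _)), wg2_prod (q _) (q _), av_char c0, av_char c0]
  simp only [dvd_neg, wg2_dvd hm]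
  split_ifs with h1 h2 h2
  · obtain ⟨a, h1⟩ := h1
    obtain ⟨b, h2⟩ := h2
    rw [← hw 0 (b, a), zero_add]
    congr 2
    exact Prod.ext h2 h1
  all_goals simp

theorem wg2_neg (s : ZMod 4) (hs : s * s = 1) (a b c d : ZMod 4) :
    wh2 (s * a) (s * b) (s * c) (s * d) = (ZMod.χ₄ s : ℤ) * wh2 a b c d := by
  have n : ∀ f : ZMod 4 → G, ∑ x, f x = ∑ x, f (-x) := fun f => (Equiv.sum_comp (Equiv.neg _) f).symm
  have k : ∀ p q r u : ZMod 4, w2 (-p) (-q) (-r) (-u) = -w2 p q r u := by decide +kernel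
  rcases (by decide : ∀ s : ZMod 4, s * s = 1 → s = 1 ∨ s = -1) s hs with rfl | rfl
  · simp
  rw [show ZMod.χ₄ (-1) = -1 from rfl, wh2, wh2, n, mul_sum]
  refine sum_congr rfl fun p _ => ?_
  rw [n, mul_sum]
  refine sum_congr rfl fun q _ => ?_
  rw [n, mul_sum]
  refine sum_congr rfl fun r _ => ?_
  rw [n, mul_sum]
  refine sum_congr rfl fun u _ => ?_
  simp [k]

theorem wg2_two {s : ℤ} (hs : (s : ZMod 4) * s = 1) (d : ℤ) (Z : MZ) :
    Av (fun g : MZ => ((w2 (g 0 0 : ℤ) (g 0 1 : ℤ) (g 1 0 : ℤ) (g 1 1 : ℤ) *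
      ip (s * (-(d * g.det) + pr g Z) : ℤ) : G) : ℂ)) = et s * (ip (-((s * d : ℤ) : ZMod 4)) : G) *
        (wh2 (Z 0 0 : ℤ) (Z 0 1 : ℤ) (Z 1 0 : ℤ) (Z 1 1 : ℤ) : G) / 256 := by
  let ρ : MZ →+ ZMod 4 × ZMod 4 × ZMod 4 × ZMod 4 :=
    AddMonoidHom.mk' (fun g => (g 0 0, g 0 1, g 1 0, g 1 1)) fun _ _ => by simp
  have := wg2_fin ρ (fun ⟨a, b, c, d⟩ => ⟨!![a.cast, b.cast; c.cast, d.cast], by simp [ρ]⟩)
    fun x => ((ip (-((s * d : ℤ) : ZMod 4)) * (w2 x.1 x.2.1 x.2.2.1 x.2.2.2 *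
      ip (x.1 * (s * (Z 1 1 : ℤ)) - x.2.1 * (s * (Z 1 0 : ℤ)) - x.2.2.1 * (s * (Z 0 1 : ℤ)) +
        x.2.2.2 * (s * (Z 0 0 : ℤ)))) : G) : ℂ)
  rw [← map_sum, ← mul_sum] at this
  simp only [Fintype.sum_prod_type] at this
  rw [← wh2, wg2_neg _ hs] at this
  convert this using 2
  · funext g
    simp only [ρ, AddMonoidHom.mk'_apply, w2]
    split_ifs with h
    · rw [← QF.ip_add, ← QF.ip_add, ← QF.ip_add, Matrix.det_fin_two, pr]
      congr 2
      push_cast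
      linear_combination -(s * d) * h.2
    · simp
  · simp only [map_mul, map_intCast, et]
    ring
  · simp

theorem gs_val {c : ℕ} (hc : Odd c) (h5 : 5 ∣ c) {d e : ℤ} (he : (c : ℤ) ∣ 4 * d * e - 1) (Z : MZ) :
    Gs c d Z 1 = et c * (ip (-((c * d : ℤ) : ZMod 4)) : G) * conj (ep d : G) *
      q1 ((e * Z.det : ℤ) / c) * (wh Z : G) / (256 * c ^ 2) := by
  have c0 : (c : ℂ) ≠ 0 := Nat.cast_ne_zero.2 hc.pos.ne'
  obtain ⟨t, ht⟩ : ∃ t : ℤ, (c : ℤ) * c + 4 * t = 1 := by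
    obtain ⟨k, rfl⟩ := hc
    exact ⟨-(k * k + k), by push_cast; ring⟩
  have h5' : (5 : ℤ) ∣ c := by exact_mod_cast h5
  have cg := ((cg_const d).mul wg2_det).neg.add (wg2_pr Z)
  let w : ℤ × ℤ → ℂ := fun x => ((if 5 ∣ x.2 then ep (x.1 : ℤ) else 0 : G) : ℂ)
  have hw : Pe c w := fun x y => by
    obtain ⟨k, rfl⟩ := h5
    have e5 : (5 : ZMod 5) = 0 := rfl
    simp [w, mul_assoc, e5, dvd_add_left]
  have pB : Pe c fun g : MZ => w (g 0 0, g 1 0) * q1 ((t * (-(d * g.det) + pr g Z) : ℤ) / (c : ℤ)) :=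
    Pe.mul (fun x y => hw (x 0 0, x 1 0) (y 0 0, y 1 0))
      (((cg_const t).mul cg).pe (F := fun a => q1 (a / (c : ℤ))) fun _ _ => q1_div_congr)
  have pA : Pe 4 fun g : MZ => ((w2 (g 0 0 : ℤ) (g 0 1 : ℤ) (g 1 0 : ℤ) (g 1 1 : ℤ) *
      ip (c * (-(d * g.det) + pr g Z) : ℤ) : G) : ℂ) := fun x y => by
    have e4 : (4 : ZMod 4) = 0 := rfl
    simp only [(ZMod.intCast_eq_intCast_iff_dvd_sub _ _ 4).2
      (dvd_sub_comm.1 (((cg_const c).mul cg) 4 x y)), Matrix.add_apply, Matrix.smul_apply]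
    simp [e4]
  rw [Gs, show (fun g : MZ => _) = _ from funext fun g => ?_,
    av_indep four_pos hc.pos ((Nat.coprime_two_left.2 hc).pow_left 2) pA pB,
    wg2_two (by
      have := congrArg (Int.cast : ℤ → ZMod 4) ht
      push_cast at this ⊢
      rwa [show (4 : ZMod 4) = 0 from rfl, zero_mul, add_zero] at this),
    ← av_shift (pB.pp hc.pos) ((4 * e) • Z),
    show (fun g : MZ => _) = fun g : MZ => w ((g 0 0, g 1 0) + (4 * e * Z 0 0, 4 * e * Z 1 0)) *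
      q1 ((e * Z.det : ℤ) / c) * q1 ((-(t * d) * g.det : ℤ) / (c : ℤ)) from funext fun g => ?_,
    wg2_c (w := fun x => w (x + (4 * e * Z 0 0, 4 * e * Z 1 0)) * q1 ((e * Z.det : ℤ) / c))
      hc.pos ?_ fun x y => by simp only [add_right_comm x (c • y), hw _ y], zero_add]
  · obtain ⟨k, hk⟩ := h5'.trans he
    have e1 : ((d : ZMod 5) * (4 * e : ℤ)) = 1 := by
      have := congrArg (Int.cast : ℤ → ZMod 5) hk
      push_cast at this ⊢
      rw [show (5 : ZMod 5) = 0 from rfl, zero_mul, sub_eq_zero] at this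
      linear_combination this
    have e2 : IsCoprime (5 : ℤ) (4 * e) := ⟨-k, d, by linear_combination hk⟩
    simp only [w, wh, wg2_dvd e2]
    rw [Int.cast_mul (4 * e), ep_mul,
      (by decide : ∀ a b : ZMod 5, a * b = 1 → ep b = star (ep a)) _ _ e1, starRingEnd_apply]
    split_ifs
    · simp only [map_mul]
      field_simp
    · simp
  · obtain ⟨k, hk⟩ := he
    exact ⟨c - 4 * t * k, -16 * e, by linear_combination ht + 4 * t * hk⟩
  · obtain ⟨k, hk⟩ := he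
    rw [mul_assoc, ← q1_add]
    refine congrArg _ (q1_congr (-(t * k * (pr g Z + 4 * e * Z.det)) - c * e * Z.det) ?_)
    have h1 : (4 * d * e - 1 : ℂ) = c * k := by exact_mod_cast hk
    have h2 : (c * c + 4 * t : ℂ) = 1 := by exact_mod_cast ht
    simp only [Matrix.det_fin_two, pr, Matrix.add_apply, Matrix.smul_apply, smul_eq_mul]
    push_cast
    field_simp
    linear_combination (e * (Z 0 0 * Z 1 1 - Z 0 1 * Z 1 0)) * h2 -
      (t * (g 0 0 * Z 1 1 - g 0 1 * Z 1 0 - g 1 0 * Z 0 1 + g 1 1 * Z 0 0 +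
        4 * e * (Z 0 0 * Z 1 1 - Z 0 1 * Z 1 0))) * h1
  · have h2 : (c * c + 4 * t : ℂ) = 1 := by exact_mod_cast ht
    rw [w0_eq, map_mul, map_mul, ← q1_quarter, mul_mul_mul_comm, ← q1_add, mul_comm _ (w _)]
    generalize g.det = n
    congr 2
    push_cast
    field_simp
    linear_combination (d * n - pr g Z) * h2

end Pool.Agent.Lib.MP_696deb_nt.Y2.W
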