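import Pool.Agent.Lib.MP_696deb_nt.Y2.Wb
import Pool.Agent.Lib.MP_696deb_nt.Y2.D1
import Pool.Agent.Lib.MP_696deb_nt.Y2.WT0

/-! The section of an eigenfunction. -/

set_option autoImplicit false

open Complex Finset
open scoped Real ComplexConjugate Classical

namespace Pool.Agent.Lib.MP_696deb_nt.Y2.W

open QF (G ii ip Per FT mem_reps)

variable {M N : ℕ} {a ψ : G → ℂ} {κ : G → G}

theorem et_mul (a b : ℤ) : et (a * b) = et a * et b := by rw [et, et, et, Int.cast_mul, map_mul]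

theorem ph_per_d (hM : 0 < M) (a : G → ℂ) (c : ℤ) (A : G) {d d' : ℤ}
    (h : 2 * (M : ℤ) ^ 2 ∣ d - d') : ph M a c d A = ph M a c d' A := ph_congr hM (by simp) h A

theorem ph_per_A (hM : 0 < M) (a : G → ℂ) (c d : ℤ) {A A' : G} (h : (M : G) ^ 2 ∣ A - A') :
    ph M a c d A = ph M a c d A' := by
  obtain ⟨γ, e⟩ := h
  obtain rfl : A = A' + M ^ 2 * γ := by linear_combination e
  have M0 : (M : ℂ) ≠ 0 := by exact_mod_cast hM.ne'
  refine sm_congr fun x => congrArg _ ?_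
  rw [cf, cf, show A' + M ^ 2 * γ - c * x - (1 : ℤ) * Y2.hM M =
    A' - c * x - (1 : ℤ) * Y2.hM M + M * (M * γ) by ring]
  refine if_congr (dvd_add_left (dvd_mul_right _ _)) (q1_congr (d * bil γ x) ?_) rfl
  simp only [sq, bil, Zsqrtd.re_add, Zsqrtd.im_add, Zsqrtd.re_mul, Zsqrtd.im_mul,
    Zsqrtd.re_natCast, Zsqrtd.im_natCast]
  push_cast
  field_simp
  ring

theorem pe_Wt_ph (hM : 0 < M) (h5 : 5 ∣ M) (a : G → ℂ) (c : ℤ) (A : G) :
    Pe (2 * M ^ 2) fun d : ℤ => Wt c d * ph M a c d A := fun x y => by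
  obtain ⟨N, hN⟩ := h5
  simp only [nsmul_eq_mul]
  rw [Wt_congr (c := c) (d := x) (by simp) ⟨10 * N ^ 2 * y, by rw [hN]; push_cast; ring⟩,
    ph_per_d hM a c A (d' := x) (by simp)]

theorem lamA_av (hM : 0 < M) (h5 : 5 ∣ M) (a : G → ℂ) (c l : ℤ) (A : G) : lamA M a c l A =
    Av fun d : ℤ => Wt c d * ph M a c d A * q1 (d * l / (2 * M ^ 2)) := by
  have M0 : (M : ℂ) ≠ 0 := by exact_mod_cast hM.ne'
  rw [av_int (P := 2 * M ^ 2) (by positivity) ((pe_Wt_ph hM h5 a c A).mul fun x y =>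
    q1_congr (y * l) (by
      simp only [nsmul_eq_mul]
      push_cast
      field_simp)), lamA]
  push_cast
  rfl

theorem lamA_congr (hM : 0 < M) (a : G → ℂ) (c : ℤ) {l l' : ℤ} {A A' : G}
    (hl : 2 * (M : ℤ) ^ 2 ∣ l - l') (hA : (M : G) ^ 2 ∣ A - A') :
    lamA M a c l A = lamA M a c l' A' := by
  have M0 : (M : ℂ) ≠ 0 := by exact_mod_cast hM.ne'
  obtain ⟨s, hs⟩ := hl
  obtain rfl : l = l' + 2 * M ^ 2 * s := by omega
  refine congrArg (· / _) (sum_congr rfl fun d _ => ?_)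
  rw [ph_per_A hM a c d hA, q1_congr (y := d * l' / (2 * M ^ 2)) (d * s) (by push_cast; field_simp)]

theorem iFT_av (hM : 0 < M) (h : Per M ψ) (x : G) :
    iFT M ψ x = Av fun y => ψ y * q1 (-(bil x y : ℤ) / M) := by
  have e : ∀ y : G, q1 (-(bil x y : ℤ) / M) = q1 ((bil y (-x) : ℤ) / M) := fun y => by
    rw [← Int.cast_neg, show -bil x y = bil y (-x) by simp [bil]; ring]
  simp only [e]
  rw [av_G hM fun y γ => congrArg₂ (· * ·) (h y γ) (q1_bil_per hM _ y γ), iFT, FT_eq]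

theorem wh_et_neg {u : ℤ} (h : u % 4 = 3) : et u = -1 := ZMod.χ₄_int_three_mod_four h

theorem wh_cop {k : ℤ} (h : IsCoprime k (M : ℤ)) : IsCoprime (k : G) (M : G) := by
  simpa using h.map (Int.castRingHom G)

theorem wh_cop_star {t : G} (h : IsCoprime t (M : G)) : IsCoprime (star t) (M : G) := by
  have e := h.map (starRingEnd G)
  rwa [map_natCast] at e

theorem wh_cop_norm {t : G} (h : IsCoprime t (M : G)) : IsCoprime t.norm (M : ℤ) := by
  obtain ⟨u, v, e⟩ := h.mul_left (wh_cop_star h)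
  rw [← Zsqrtd.norm_eq_mul_conj] at e
  exact ⟨u.re, v.re, by simpa using congrArg Zsqrtd.re e⟩

theorem wh_inv {k : ℤ} (h : IsCoprime k (M : ℤ)) (h2 : 2 ∣ M) :
    ∃ k' : ℤ, 2 * (M : ℤ) ^ 2 ∣ k' * k - 1 := by
  obtain ⟨u, v, e⟩ := (h.of_isCoprime_of_dvd_right
    (Int.natCast_dvd_natCast.2 h2)).mul_right (h.pow_right (n := 2))
  exact ⟨u, -v, by push_cast at e; linear_combination e⟩

theorem wh_conj_mul {z : G} (h : z ^ 4 = 1) : conj (z : ℂ) * z = 1 := by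
  have h1 : z.norm ^ 4 = 1 :=
    (map_pow Zsqrtd.normMonoidHom z 4).symm.trans (by rw [h, map_one])
  have h2 : z.norm = 1 := (pow_eq_one_iff_of_nonneg (GaussianInt.norm_nonneg z) (by norm_num)).1 h1
  rw [← GaussianInt.toComplex_star, ← map_mul, mul_comm, ← Zsqrtd.norm_eq_mul_conj, h2]
  simp

theorem Hom.wh_pos (h : Hom N ψ κ) : 0 < 8 * N := by have := h.pos; omega

theorem Hom.adm (h : Hom N ψ κ) : Adm (8 * N) (iFT (8 * N) ψ) := by
  refine adm_iFT (k := 3) (M' := N) (by norm_num) (Nat.odd_iff.1 h.odd)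
    (by have := h.five; omega) h.per fun u hu hN hc y => ?_
  rw [h.eq u (wh_cop hc), h.int u hc, wh_et_neg hu,
    wt_ep (t := 1) ((Int.natCast_dvd_natCast.2 h.five).trans hN),
    show ep ((1 : ℤ) : ZMod 5) = 1 by decide]
  simp

theorem Hom.iFT_mul (h : Hom N ψ κ) {t : G} (ht : IsCoprime t ((8 * N : ℕ) : G)) (x : G) :
    iFT (8 * N) ψ (t * x) = conj (κ (star t) : ℂ) * iFT (8 * N) ψ x := by
  have hs := wh_cop_star ht
  have p : ∀ z : G, Per (8 * N) fun y => ψ y * q1 (-(bil z y : ℤ) / (8 * N : ℕ)) := fun z y γ => by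
    have e : ∀ y : G, q1 (-(bil z y : ℤ) / (8 * N : ℕ)) = q1 ((bil y (-z) : ℤ) / (8 * N : ℕ)) :=
      fun y => by rw [← Int.cast_neg, show -bil z y = bil y (-z) by simp [bil]; ring]
    simp only [e]
    exact congrArg₂ (· * ·) (h.per y γ) (q1_bil_per h.wh_pos _ y γ)
  rw [iFT_av h.wh_pos h.per, iFT_av h.wh_pos h.per, ← av_unit h.wh_pos (p x) hs]
  refine Eq.trans (congrArg Av (funext fun y => ?_)) (av_mul_left
    (((pe_iff_per.2 (p x)).pp h.wh_pos).comp (AddMonoidHom.mulLeft (star t))) _)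
  rw [AddMonoidHom.coe_mulLeft, h.eq _ hs, ← mul_assoc, ← mul_assoc, wh_conj_mul (h.four _ hs),
    one_mul, show bil x (star t * y) = bil (t * x) y by simp [bil]; ring]

theorem Hom.hom (h : Hom N ψ κ) {k : ℤ} (hk : IsCoprime k ((8 * N : ℕ) : ℤ)) (c l : ℤ) (A : G) :
    lamA (8 * N) (iFT (8 * N) ψ) (k * c) l A =
      et k * lamA (8 * N) (iFT (8 * N) ψ) c (k * l) A := by
  obtain ⟨k', hk'⟩ := wh_inv hk h.adm.two
  have h1 : ((8 * N : ℕ) : ℤ) ∣ k' * k - 1 := ((dvd_pow_self _ two_ne_zero).mul_left 2).trans hk'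
  have h2 : IsCoprime k' ((8 * N : ℕ) : ℤ) := by
    obtain ⟨s, hs⟩ := h1
    exact ⟨k, -s, by linear_combination hs⟩
  have h3 : star (ep k) * star (ep k') = 1 :=
    (by decide : ∀ a b : ZMod 5, a * b = 1 → star (ep b) * star (ep a) = 1) _ _
      (by exact_mod_cast ((ZMod.intCast_eq_intCast_iff_dvd_sub 1 _ 5).2
        ((Int.natCast_dvd_natCast.2 (h.five.mul_left 8)).trans h1)).symm)
  have h4 : et k' = et k :=
    (by decide : ∀ a b : ZMod 4, a * b = 1 → ZMod.χ₄ a = ZMod.χ₄ b) _ _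
      (by exact_mod_cast ((ZMod.intCast_eq_intCast_iff_dvd_sub 1 _ 4).2
        ((Int.natCast_dvd_natCast.2 (show 4 ∣ 8 * N by omega)).trans h1)).symm)
  rw [h.adm.lamA_mul hk' (h.iFT_mul (wh_cop h2)), star_intCast, h.int k' h2, h4,
    ← GaussianInt.toComplex_star, ← GaussianInt.toComplex_star, ← map_mul, star_mul, star_intCast,
    ← mul_assoc, h3, one_mul, map_intCast]

theorem Hom.lam_mul (h : Hom N ψ κ) {t : G} (ht : IsCoprime t ((8 * N : ℕ) : G)) (c l : ℤ) (A : G) :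
    lamA (8 * N) (iFT (8 * N) ψ) c (t.norm * l) (t * A) =
      κ t * lamA (8 * N) (iFT (8 * N) ψ) c l A := by
  obtain ⟨k, hk⟩ := wh_inv (wh_cop_norm ht) h.adm.two
  rw [h.adm.lamA_hom hk (h.iFT_mul ht), ← GaussianInt.toComplex_star, ← map_mul, h.nrm t ht]

theorem Hom.int_iFT (h : Hom N ψ κ) (x : G) :
    IsIntegral ℤ (((8 * N : ℕ) : ℂ) ^ 2 * iFT (8 * N) ψ x) := by
  rw [iFT, mul_div_cancel₀ _ (pow_ne_zero 2 (Nat.cast_ne_zero.2 h.wh_pos.ne')), FT_eq]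
  refine wt_int_sm fun y => IsIntegral.mul ?_ (wt_int_q1 h.wh_pos _)
  obtain ⟨g, hg⟩ := h.alg y
  rw [hg]
  exact wt_int_G g

end Pool.Agent.Lib.MP_696deb_nt.Y2.W
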