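import Pool.Agent.Lib.MP_696deb_nt.Y2.Wh

/-! The section lives on primitive rows. -/

set_option autoImplicit false

open Complex Finset
open scoped Real ComplexConjugate Classical

namespace Pool.Agent.Lib.MP_696deb_nt.Y2.W

open QF (G ii ip Per FT mem_reps)

theorem wh1_cf {p M : ℕ} (h0 : 0 < p * M) (h2 : 2 ∣ p * M) (c d : ℤ) (A x g : G) :
    cf (p * M) 1 0 (p * c) (p * d) (x + 2 * M * g) A = cf (p * M) 1 0 (p * c) (p * d) x A := by
  obtain ⟨H, hH, hh⟩ := two_hM h2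
  have p0 : (p : ℂ) ≠ 0 := by exact_mod_cast (Nat.pos_of_mul_pos_right h0).ne'
  have M0 : (M : ℂ) ≠ 0 := by exact_mod_cast (Nat.pos_of_mul_pos_left h0).ne'
  have e : A - (p * c : ℤ) * (x + 2 * M * g) - (1 : ℤ) * hM (p * M) =
      A - (p * c : ℤ) * x - (1 : ℤ) * hM (p * M) - (p * M : ℕ) * (2 * c * g) := by
    push_cast
    ring
  simp only [cf]
  rw [e]
  refine if_ctx_congr (dvd_sub_left (dvd_mul_right _ _)) (fun ⟨β, hβ⟩ => ?_) fun _ => rfl
  obtain rfl : A = (p * c : ℤ) * x + ⟨H, H⟩ + (p * M : ℕ) * β := by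
    rw [hh] at hβ
    linear_combination hβ
  refine q1_congr (d * (2 * bil β g + g.re + g.im - 2 * c * bil g g)) ?_
  have hH' : (H : ℂ) = p * M / 2 := by
    rw [eq_div_iff two_ne_zero, mul_comm]
    exact_mod_cast hH.symm
  simp only [norm_eq_bil, bil, Zsqrtd.re_add, Zsqrtd.im_add, Zsqrtd.re_mul, Zsqrtd.re_ofNat,
    Zsqrtd.im_ofNat, Zsqrtd.im_mul, Zsqrtd.re_intCast, Zsqrtd.im_intCast, Zsqrtd.re_natCast,
    Zsqrtd.im_natCast]
  push_cast
  rw [hH']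
  field_simp
  ring

theorem wh1_sum {p M : ℕ} (h0 : 0 < p * M) (ho : Odd p) {ψ : G → ℂ}
    (hz : ∀ y : G, (p : G) ∣ y → ψ y = 0) (x : G) :
    sm p (fun g => iFT (p * M) ψ (x + 2 * M * g)) = 0 := by
  have p0 : (p : ℂ) ≠ 0 := by exact_mod_cast ho.pos.ne'
  have M0 : (M : ℂ) ≠ 0 := by exact_mod_cast (Nat.pos_of_mul_pos_left h0).ne'
  have e : ∀ g, iFT (p * M) ψ (x + 2 * M * g) = (((p * M : ℕ) : ℂ) ^ 2)⁻¹ * sm (p * M) fun y =>
      ψ y * q1 ((bil y (-x) : ℤ) / (p * M : ℕ)) * q1 ((bil g (-(2 * y)) : ℤ) / p) := fun g => by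
    rw [iFT, FT_eq, div_eq_inv_mul]
    refine congrArg _ (sm_congr fun y => ?_)
    rw [mul_assoc (ψ y), ← q1_add]
    congr 2
    simp only [bil, Zsqrtd.re_add, Zsqrtd.im_add, Zsqrtd.re_mul, Zsqrtd.re_ofNat, Zsqrtd.re_neg,
      Zsqrtd.im_neg, Zsqrtd.im_ofNat, Zsqrtd.im_mul, Zsqrtd.re_natCast, Zsqrtd.im_natCast]
    push_cast
    field_simp
    ring
  rw [sm_congr e, sm_mul_left, sm_comm, sm_congr (g := fun _ => 0) fun y => ?_]
  · simp [sm]
  · rw [sm_mul_left, sm_char ho.pos]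
    split_ifs with h
    · obtain ⟨k, rfl⟩ := ho
      rw [hz y, zero_mul, zero_mul]
      rw [show y = (2 * k + 1 : ℕ) * y + k * -(2 * y) by push_cast; ring]
      exact dvd_add (dvd_mul_right _ _) (h.mul_left _)
    · exact mul_zero _

theorem Hom.prim {N : ℕ} {ψ : G → ℂ} {κ : G → G} (h : Hom N ψ κ) {p : ℕ} {c d : ℤ} (A : G)
    (hp : p.Prime) (hM : p ∣ 8 * N) (hc : (p : ℤ) ∣ c) (hd : (p : ℤ) ∣ d) :
    Wt c d * ph (8 * N) (iFT (8 * N) ψ) c d A = 0 := by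
  by_cases hw : c % 2 = 1 ∧ 5 ∣ c
  swap
  · rw [Wt, if_neg hw, zero_mul]
  have ho : Odd p := hp.eq_two_or_odd'.resolve_left fun e => by subst e; omega
  rcases eq_or_ne p 5 with rfl | h5
  · rw [Wt, if_pos hw, (ZMod.intCast_zmod_eq_zero_iff_dvd d 5).2 hd, show ep 0 = 0 by decide]
    simp
  have hz := h.zero p hp ((Nat.Coprime.pow_right 3 ho.coprime_two_right).dvd_of_dvd_mul_left hM) h5
  have hper := h.adm.per
  have h0 : 0 < 8 * N := h.adm.pos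
  have h2 : 2 ∣ 8 * N := by omega
  obtain ⟨M, hM⟩ := hM
  obtain ⟨c, rfl⟩ := hc
  obtain ⟨d, rfl⟩ := hd
  rw [hM] at hper h0 h2 ⊢
  have p0 : (p : ℂ) ≠ 0 := by exact_mod_cast hp.ne_zero
  have e : ∀ g : G, ph (p * M) (iFT (p * M) ψ) (p * c) (p * d) A = sm (p * M) fun x =>
      cf (p * M) 1 0 (p * c) (p * d) x A * iFT (p * M) ψ (x + 2 * M * g) := fun g => by
    rw [ph, ← sm_add h0 (fun x γ => by
      simp only [hper x γ, cf_per h0 h2 hw.1 (p * d) A x γ]) (2 * M * g)]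
    exact sm_congr fun x => by rw [wh1_cf h0 h2, mul_comm]
  have k := sm_congr (M := p) e
  rw [sm_comm, sm_congr (M := p * M) (g := fun _ => 0) fun x => by
    rw [sm_mul_left, wh1_sum h0 ho hz, mul_zero]] at k
  simp only [sm, sum_const, card_range, nsmul_eq_mul, mul_zero, mul_eq_zero, p0, false_or] at k
  rw [k, mul_zero]

end Pool.Agent.Lib.MP_696deb_nt.Y2.W
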