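import Pool.Agent.Lib.MP_696deb_nt.Y2.W0
import Pool.Agent.Lib.MP_696deb_nt.Y2.D1

/-! The lattice of the integer matrices. -/

set_option autoImplicit false

open Complex Finset
open scoped Real ComplexConjugate Classical

namespace Pool.Agent.Lib.MP_696deb_nt.Y2.W

open QF (G ii ip Per FT mem_reps)

variable {X Y : MZ} {k : ℕ}

theorem wi_uniq (hX : X.det ≠ 0) {α β γ δ : G} (h : X * mb α β = X * mb γ δ) :
    (α, β) = (γ, δ) := by
  have := mb_inj ((Matrix.isRegular_of_isLeftRegular_det (IsRegular.of_ne_zero hX).left).left h)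
  rw [this.1, this.2]

/-- The index of the image of an endomorphism of a lattice. -/
theorem wi_idx {M : Type} [AddCommGroup M] [Module.Free ℤ M] [Module.Finite ℤ M] (f : M →+ M)
    (h : LinearMap.det f.toIntLinearMap ≠ 0) :
    f.range.index = (LinearMap.det f.toIntLinearMap).natAbs :=
  (Submodule.natAbs_det_equiv (LinearMap.range f.toIntLinearMap)
    (LinearEquiv.ofInjective f.toIntLinearMap (LinearMap.ker_eq_bot.1
      (by_contra fun e => h (LinearMap.det_eq_zero_iff_ker_ne_bot.2 e))))).symm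

/-- Coordinates of pairs of Gaussian integers. -/
def wiD : G × G ≃+ (Fin 4 → ℤ) where
  toFun p := ![p.1.re, p.1.im, p.2.re, p.2.im]
  invFun v := (⟨v 0, v 1⟩, ⟨v 2, v 3⟩)
  left_inv _ := rfl
  right_inv v := by
    funext i
    fin_cases i <;> rfl
  map_add' p q := by
    funext i
    fin_cases i <;> rfl

/-- Coordinates of matrices. -/
def wiC : (Fin 4 → ℤ) →+ MZ :=
  AddMonoidHom.mk' (fun v => !![v 0, v 1; v 2, v 3]) fun p q => by
    ext i j
    fin_cases i <;> fin_cases j <;> rfl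

theorem index_pair (hX : X.det ≠ 0) (hY : Y.det = 2 * X.det) (ι : MZ →+ G × G)
    (h : ∀ g, (k : ℤ) • (g * Y) = X * mb (ι g).1 (ι g).2) : ι.range.index = k ^ 4 := by
  rcases k.eq_zero_or_pos with rfl | hk
  · have : ι.range = ⊥ := AddMonoidHom.range_eq_bot_iff.2 (AddMonoidHom.ext fun g =>
      wi_uniq hX (α := (ι g).1) (β := (ι g).2) (γ := 0) (δ := 0) (by
        rw [← h, show mb 0 0 = 0 by simpa using mb_smul 0 0 0]
        simp))
    have i : Infinite G := Infinite.of_injective (Int.cast : ℤ → G) Int.cast_injective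
    rw [this, AddSubgroup.index_bot, Nat.card_eq_zero_of_infinite]
    rfl
  set J := ((wiD : G × G →+ (Fin 4 → ℤ)).comp ι).comp wiC with hJ
  have e1 : J.range.index = ι.range.index := by
    rw [hJ, AddMonoidHom.range_comp, AddMonoidHom.range_eq_top.2 fun g =>
      ⟨![g 0 0, g 0 1, g 1 0, g 1 1], (Matrix.eta_fin_two g).symm⟩, ← AddMonoidHom.range_eq_map,
      AddMonoidHom.range_comp, AddSubgroup.index_map_equiv]
  have e2 : Matrix.toLin' !![X 0 0, X 0 1, -X 0 0, X 0 1; X 0 1, -X 0 0, X 0 1, X 0 0;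
      X 1 0, X 1 1, -X 1 0, X 1 1; X 1 1, -X 1 0, X 1 1, X 1 0] ∘ₗ J.toIntLinearMap =
      Matrix.toLin' !![k * Y 0 0, k * Y 1 0, 0, 0; k * Y 0 1, k * Y 1 1, 0, 0;
        0, 0, k * Y 0 0, k * Y 1 0; 0, 0, k * Y 0 1, k * Y 1 1] := LinearMap.ext fun v => by
    have a := fun i j => congrFun (congrFun (h (wiC v)) i) j
    have a0 := a 0 0
    have a1 := a 0 1
    have a2 := a 1 0
    have a3 := a 1 1
    change Matrix.mulVec _ (wiD (ι (wiC v))) = Matrix.mulVec _ v
    generalize ι (wiC v) = p at a0 a1 a2 a3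
    simp [wiC, mb, Matrix.mul_apply, Fin.sum_univ_two, Matrix.vecMul, dotProduct] at a0 a1 a2 a3
    funext i
    fin_cases i <;> simp [wiD, Matrix.mulVec, dotProduct, Fin.sum_univ_four] <;> linarith
  have e3 := congrArg LinearMap.det e2
  rw [LinearMap.det_comp, LinearMap.det_toLin', LinearMap.det_toLin'] at e3
  have e4 : 4 * X.det ^ 2 * LinearMap.det J.toIntLinearMap = 4 * X.det ^ 2 * k ^ 4 := by
    rw [show 4 * X.det ^ 2 * (k : ℤ) ^ 4 = k ^ 4 * Y.det ^ 2 by rw [hY]; ring, Matrix.det_fin_two,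
      Matrix.det_fin_two]
    simp [Matrix.det_succ_row_zero, Fin.sum_univ_succ, Fin.succAbove] at e3
    linear_combination e3
  have e5 := mul_left_cancel₀ (by positivity) e4
  rw [← e1, wi_idx J (by rw [e5]; positivity), e5, Int.natAbs_pow, Int.natAbs_natCast]

theorem rel_det (hX : X.det ≠ 0) (hY : Y.det = 2 * X.det) {g : MZ} {α β : G}
    (h : (k : ℤ) • (g * Y) = X * mb α β) : α.norm - β.norm = 2 * k ^ 2 * g.det := by
  have e := congrArg Matrix.det h
  rw [Matrix.det_smul, Matrix.det_mul, Matrix.det_mul, mb_det, hY, Fintype.card_fin] at e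
  exact mul_left_cancel₀ hX (by linear_combination -e)

theorem wi_left (A B C : MZ) : pr (A * B) (A * C) = A.det * pr B C := by
  simp only [pr, Matrix.mul_apply, Fin.sum_univ_two, Matrix.det_fin_two]
  ring

theorem wi_right (A B C : MZ) (r s : ℤ) :
    pr (r • (B * A)) (s • (C * A)) = r * s * A.det * pr B C := by
  simp only [pr, Matrix.smul_apply, smul_eq_mul, Matrix.mul_apply, Fin.sum_univ_two,
    Matrix.det_fin_two]
  ring

theorem wi_mb (α β y : G) (s : ℤ) : pr (mb α β) (s • mb y 0) = s * (2 * bil α y) := by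
  simp [pr, mb, bil]
  ring

theorem rel_pr (hX : X.det ≠ 0) (hY : Y.det = 2 * X.det) {g : MZ} {α β : G}
    (h : (k : ℤ) • (g * Y) = X * mb α β) (y : G) :
    k * pr g (X * mb y 0 * Y.adjugate) = 2 * X.det * bil α y := by
  have e := wi_right Y g (X * mb y 0 * Y.adjugate) k 1
  rw [h, one_smul, mul_assoc _ _ Y, Matrix.adjugate_mul, Matrix.mul_smul, mul_one,
    ← Matrix.mul_smul, wi_left, wi_mb] at e
  exact mul_left_cancel₀ (hY ▸ mul_ne_zero two_ne_zero hX : Y.det ≠ 0) (by linear_combination -e)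

theorem rel_adj (hX : X.det ≠ 0) (hY : Y.det = 2 * X.det) (Z : MZ) (y : G) (r : ℤ) :
    X * mb y 0 * Y.adjugate = (r * X.det) • Z ↔ r • (Z * Y) = (2 : ℤ) • (X * mb y 0) := by
  refine ⟨fun h => smul_right_injective MZ hX ?_,
    fun h => smul_right_injective MZ (two_ne_zero (α := ℤ)) ?_⟩
  · have e := congrArg (· * Y) h
    simp only [mul_assoc _ _ Y, Matrix.adjugate_mul, Matrix.mul_smul, mul_one, hY,
      Matrix.smul_mul] at e
    simp only [smul_smul, mul_comm X.det, e]
  · have e := congrArg (· * Y.adjugate) h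
    simp only [Matrix.smul_mul, mul_assoc Z, Matrix.mul_adjugate, Matrix.mul_smul, mul_one,
      hY] at e
    simp only [smul_smul, ← e, mul_left_comm r]

theorem rel_det2 (hX : X.det ≠ 0) (hY : Y.det = 2 * X.det) {Z : MZ} {y : G}
    (h : Z * Y = (2 : ℤ) • (X * mb y 0)) : Z.det = 2 * y.norm := by
  have e := congrArg Matrix.det h
  rw [Matrix.det_smul, Matrix.det_mul, Matrix.det_mul, mb_det, hY, Fintype.card_fin,
    Zsqrtd.norm_zero] at e
  exact mul_left_cancel₀ (mul_ne_zero two_ne_zero hX) (by linear_combination e)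

theorem Pair.hom {N : ℕ} {Φ : G → G → G} {Ψ : G → G} (h : Pair N X Y Φ Ψ) :
    ∃ ι : MZ →+ G × G, (∀ g, (4 * N : ℤ) • (g * Y) = X * mb (ι g).1 (ι g).2) ∧
      ∀ (g : MZ) (α β : G), (4 * N : ℤ) • (g * Y) = X * mb α β → (α, β) = ι g := by
  choose a b e using h.ex
  refine ⟨AddMonoidHom.mk' (fun g => (a g, b g)) fun g g' =>
    wi_uniq h.det (γ := a g + a g') (δ := b g + b g') ?_, e,
    fun g α β e' => wi_uniq h.det (e'.symm.trans (e g))⟩
  rw [← e, mb_add, mul_add, ← e, ← e, add_mul, smul_add]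

end Pool.Agent.Lib.MP_696deb_nt.Y2.W
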