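import Pool.Agent.Lib.MP_696deb_nt.Y2.Wg

/-! The Fourier transform of the side of the section. -/

set_option autoImplicit false

open Complex Finset
open scoped Real ComplexConjugate Classical

namespace Pool.Agent.Lib.MP_696deb_nt.Y2.W

open QF (G ii ip Per FT mem_reps)

variable {M c : ℕ} {ψ : G → ℂ} {d e : ℤ}

/-- The kernel of the convolution. -/
noncomputable def wjK (M c : ℕ) (d : ℤ) (z : G) : ℂ :=
  if (M : G) ∣ z - hM M then q1 (-(d * z.norm) / (c * (2 * M ^ 2))) else 0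

theorem wj_eq (hM : 0 < M) (hc : Odd c) (a : G → ℂ) (d : ℤ) (α : G) :
    q1 (-(d * α.norm) / (c * (2 * M ^ 2))) * ph M a c d α =
      sm M fun x => a x * wjK M c d (α - c * x) := by
  have M0 : (M : ℂ) ≠ 0 := by exact_mod_cast hM.ne'
  have c0 : (c : ℂ) ≠ 0 := by exact_mod_cast hc.pos.ne'
  rw [ph, ← sm_mul_left]
  refine sm_congr fun x => ?_
  rw [mul_left_comm, cf, wjK, Int.cast_natCast, Int.cast_one, one_mul, mul_ite, mul_zero, ← q1_add]
  refine congrArg (a x * ·) (if_congr Iff.rfl (congrArg q1 ?_) rfl)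
  simp only [norm_eq_bil, bil, Zsqrtd.re_sub, Zsqrtd.im_sub, Zsqrtd.re_mul, Zsqrtd.im_mul,
    Zsqrtd.re_natCast, Zsqrtd.im_natCast]
  push_cast
  field_simp
  ring

theorem wj_per (hM : 0 < M) (h2 : 2 ∣ M) (hc : Odd c) (d : ℤ) : Per (c * M) (wjK M c d) :=
  fun x γ => by
  have c0 : (c : ℂ) ≠ 0 := by exact_mod_cast hc.pos.ne'
  obtain ⟨H, rfl, hH⟩ := two_hM h2
  have H0 : (H : ℂ) ≠ 0 := by exact_mod_cast (show H ≠ 0 by omega)
  have e : x + (c * (2 * H) : ℕ) * γ - Y2.hM (2 * H) =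
      x - Y2.hM (2 * H) + (2 * H : ℕ) * (c * γ) := by push_cast; ring
  simp only [wjK]
  rw [e]
  refine if_ctx_congr (dvd_add_left (dvd_mul_right _ _)) (fun ⟨β, hβ⟩ => ?_) fun _ => rfl
  obtain ⟨s, hs⟩ := Int.even_mul_pred_self γ.re
  obtain ⟨t, ht⟩ := Int.even_mul_pred_self γ.im
  obtain ⟨k, rfl⟩ := hc
  obtain rfl : x = ⟨H, H⟩ + (2 * H : ℕ) * β := by
    rw [hH] at hβ
    linear_combination hβ
  refine q1_congr (-d * (bil β γ + s + t + γ.re + γ.im + k * bil γ γ)) ?_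
  have hs' : (γ.re : ℂ) * (γ.re - 1) = s + s := by exact_mod_cast hs
  have ht' : (γ.im : ℂ) * (γ.im - 1) = t + t := by exact_mod_cast ht
  simp only [norm_eq_bil, bil, Zsqrtd.re_add, Zsqrtd.im_add, Zsqrtd.re_mul,
    Zsqrtd.im_mul, Zsqrtd.re_natCast, Zsqrtd.im_natCast]
  push_cast at c0 ⊢
  field_simp
  linear_combination (-4 * d * H ^ 2 * (2 * k + 1)) * (hs' + ht')

theorem wj_av_sm {F : G → G → ℂ} (h : ∀ x, PP (F x)) :
    Av (fun α => sm M fun x => F x α) = sm M fun x => Av (F x) :=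
  (av_sum fun _ _ => PP.sum fun _ _ => h _).trans (sum_congr rfl fun _ _ => av_sum fun _ _ => h _)

theorem wj_phase {H k : ℕ} (hH : 0 < H) {j : ℤ} (he : 2 * d * e - 1 = (2 * k + 1 : ℕ) * j)
    (y β : G) {z : G} (hz : z = (2 * H : ℕ) * (2 * β + (2 * e * y + ⟨k, k⟩)) + ⟨H, H⟩) :
    q1 (-(d * z.norm) / ((2 * k + 1 : ℕ) * (2 * (2 * H : ℕ) ^ 2))) *
      q1 ((bil z y : ℤ) / ((2 * k + 1) * (2 * H) : ℕ)) =
      (-1) ^ y.norm.natAbs * (ip (-(((2 * k + 1 : ℕ) * d : ℤ) : ZMod 4)) : G) *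
        q1 ((e * y.norm : ℤ) / (2 * k + 1 : ℕ)) * q1 ((-2 * d * β.norm : ℤ) / (2 * k + 1 : ℕ)) := by
  have H0 : (H : ℂ) ≠ 0 := by exact_mod_cast hH.ne'
  have c0 : (2 * k + 1 : ℂ) ≠ 0 := by exact_mod_cast k.mul_comm 2 ▸ (2 * k).succ_ne_zero
  have hn : ((y.norm.natAbs : ℕ) : ℂ) = (y.norm : ℤ) := by
    exact_mod_cast GaussianInt.natCast_natAbs_norm y
  obtain ⟨s, hs⟩ := Int.even_mul_pred_self y.re
  obtain ⟨t, ht⟩ := Int.even_mul_pred_self y.im
  have hs' : (y.re : ℂ) * (y.re - 1) = s + s := by exact_mod_cast hs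
  have ht' : (y.im : ℂ) * (y.im - 1) = t + t := by exact_mod_cast ht
  have he' : (2 * d * e - 1 : ℂ) = (2 * k + 1) * j := by exact_mod_cast he
  rw [← Int.cast_neg, ← q1_quarter, ← Klein.q1_half, ← q1_nat_mul, hn, ← q1_add, ← q1_add,
    ← q1_add, ← q1_add, hz]
  refine q1_congr (s + t + y.re + y.im - d * (β.re + β.im + e * (y.re + y.im)) -
    j * (2 * bil β y + e * bil y y)) ?_
  have two : (2 : G) = ⟨2, 0⟩ := rfl
  simp only [two, norm_eq_bil, bil, Zsqrtd.re_add, Zsqrtd.im_add, Zsqrtd.re_mul,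
    Zsqrtd.im_mul, Zsqrtd.re_natCast, Zsqrtd.im_natCast, Zsqrtd.re_intCast, Zsqrtd.im_intCast]
  push_cast
  field_simp
  linear_combination (16 * H ^ 2 * (2 * k + 1)) * (hs' + ht') -
    32 * H ^ 2 * (2 * (β.re * y.re + β.im * y.im) + e * (y.re * y.re + y.im * y.im)) * he'

theorem wj_av (hM : 0 < M) (h2 : 2 ∣ M) (hc : Odd c) (he : (c : ℤ) ∣ 2 * d * e - 1) (y : G) :
    Av (fun z : G => wjK M c d z * q1 ((bil z y : ℤ) / (c * M : ℕ))) = (-1) ^ y.norm.natAbs *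
      (ip (-((c * d : ℤ) : ZMod 4)) : G) * et c * q1 ((e * y.norm : ℤ) / c) / (M ^ 2 * c) := by
  have M0 : (M : ℂ) ≠ 0 := by exact_mod_cast hM.ne'
  have c0 : (c : ℂ) ≠ 0 := by exact_mod_cast hc.pos.ne'
  have hP := mul_pos hc.pos hM
  set T : G → ℂ := fun z => wjK M c d z * q1 ((bil z y : ℤ) / (c * M : ℕ)) with hT
  have pT : Per (c * M) T := fun x γ => congrArg₂ (· * ·) (wj_per hM h2 hc d x γ)
    (q1_bil_per hP y x γ)
  have ppT : PP T := (pe_iff_per.2 pT).pp hP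
  have e1 := av_dvd (ppT.shift (Y2.hM M)) (z := M) (by exact_mod_cast hM.ne')
  have e2 : (fun x : G => if (M : G) ∣ x then T (x + Y2.hM M) else 0) =
      fun x => T (x + Y2.hM M) := funext fun x => by
    split_ifs with h
    · rfl
    · simp [hT, wjK, h]
  rw [e2, av_shift ppT, Zsqrtd.norm_natCast] at e1
  have pg : Per c fun b => T (M * b + Y2.hM M) := fun x γ =>
    (congrArg T (by push_cast; ring)).trans (pT (M * x + Y2.hM M) γ)
  obtain ⟨j, hj⟩ := he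
  have hr : IsCoprime (-2 * d) (c : ℤ) := ⟨-e, -j, by linear_combination hj⟩
  have e4 := gauss_O hc hr
  have pq : PP fun β : G => q1 ((-2 * d * β.norm : ℤ) / c) := by
    simpa using ((cg_const (-2 * d)).mul (cg_norm (AddMonoidHom.id G))).pp_q1 (n := c)
      (by exact_mod_cast hc.pos.ne')
  obtain ⟨k, rfl⟩ := hc
  obtain ⟨H, rfl, hH⟩ := two_hM h2
  have e3 := av_unit (f := fun b => T ((2 * H : ℕ) * (b + (2 * e * y + ⟨k, k⟩)) + Y2.hM (2 * H)))
    (2 * k).succ_pos (fun x γ => by beta_reduce; rw [add_right_comm x]; exact pg _ γ) (t := 2)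
    ⟨-k, 1, by push_cast; ring⟩
  rw [av_shift ((pe_iff_per.2 pg).pp (2 * k).succ_pos), e1] at e3
  have e5 : ∀ β : G, T ((2 * H : ℕ) * (2 * β + (2 * e * y + ⟨k, k⟩)) + Y2.hM (2 * H)) = _ :=
    fun β => (congrArg (· * _) (if_pos (by
      rw [add_sub_cancel_right]; exact dvd_mul_right _ _))).trans
        (wj_phase (by omega) hj y β (by rw [hH]))
  rw [funext e5, av_mul_left pq, e4] at e3
  rw [eq_div_iff (mul_ne_zero (pow_ne_zero 2 M0) c0)]
  rw [mul_div_assoc', div_eq_iff c0] at e3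
  push_cast at e3 ⊢
  linear_combination -e3

theorem hs_per (hM : 0 < M) (h2 : 2 ∣ M) (hc : Odd c) (a : G → ℂ) (d : ℤ) :
    Per (c * M) fun α => q1 (-(d * α.norm) / (c * (2 * M ^ 2))) * ph M a c d α := fun α γ => by
  simp only [wj_eq hM hc]
  exact sm_congr fun x => by rw [add_sub_right_comm, wj_per hM h2 hc]

theorem hs_val (hM : 0 < M) (h2 : 2 ∣ M) (hc : Odd c) (hψ : Per M ψ)
    (he : (c : ℤ) ∣ 2 * d * e - 1) (y : G) :
    Av (fun α : G => q1 (-(d * α.norm) / (c * (2 * M ^ 2))) * ph M (iFT M ψ) c d α *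
      q1 ((bil α y : ℤ) / (c * M : ℕ))) = ψ y * (-1) ^ y.norm.natAbs *
        (ip (-((c * d : ℤ) : ZMod 4)) : G) * et c * q1 ((e * y.norm : ℤ) / c) / (M ^ 2 * c) := by
  have M0 : (M : ℂ) ≠ 0 := by exact_mod_cast hM.ne'
  have c0 : (c : ℂ) ≠ 0 := by exact_mod_cast hc.pos.ne'
  have hP := mul_pos hc.pos hM
  have e1 := wj_av hM h2 hc he y
  set T : G → ℂ := fun z => wjK M c d z * q1 ((bil z y : ℤ) / (c * M : ℕ)) with hT
  have ppT : PP T := (pe_iff_per.2 fun x γ => congrArg₂ (· * ·) (wj_per hM h2 hc d x γ)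
    (q1_bil_per hP y x γ)).pp hP
  have e2 : ∀ α : G, q1 (-(d * α.norm) / (c * (2 * M ^ 2))) * ph M (iFT M ψ) c d α *
      q1 ((bil α y : ℤ) / (c * M : ℕ)) =
      sm M fun x => iFT M ψ x * q1 ((bil x y : ℤ) / M) * T (α + -(c * x)) := fun α => by
    rw [wj_eq hM hc, mul_comm, ← sm_mul_left]
    refine sm_congr fun x => ?_
    have : q1 ((bil α y : ℤ) / (c * M : ℕ)) =
        q1 ((bil x y : ℤ) / M) * q1 ((bil (α - c * x) y : ℤ) / (c * M : ℕ)) := by
      rw [← q1_add]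
      congr 1
      simp only [bil, Zsqrtd.re_sub, Zsqrtd.im_sub, Zsqrtd.re_mul, Zsqrtd.im_mul,
        Zsqrtd.re_natCast, Zsqrtd.im_natCast]
      push_cast
      field_simp
      ring
    rw [this, hT, ← sub_eq_add_neg]
    ring
  rw [funext e2, wj_av_sm fun x => (ppT.shift _).const_mul _,
    sm_congr fun x => by rw [av_mul_left (ppT.shift _), av_shift ppT, mul_comm], sm_mul_left,
    ← FT_eq, FT_iFT hM hψ, e1]
  ring

end Pool.Agent.Lib.MP_696deb_nt.Y2.W
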