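import Pool.Agent.Lib.MP_696deb_nt.Y2.Wg1
import Pool.Agent.Lib.MP_696deb_nt.Y2.Wi

/-! The Fourier transform of the geometric side. -/

set_option autoImplicit false

open Complex Finset
open scoped Real ComplexConjugate Classical

namespace Pool.Agent.Lib.MP_696deb_nt.Y2.W

open QF (G ii ip Per FT mem_reps)

variable {N : ℕ} {X Y : MZ} {Φ : G → G → G} {Ψ : G → G}

theorem Pair.wk_pp (h : Pair N X Y Φ Ψ) {c : ℕ} (hc : 0 < c) (d : ℤ) : PP fun v : G × G =>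
    (Φ v.1 v.2 : ℂ) * q1 (d * v.2.norm / (c * (2 * (8 * N : ℕ) ^ 2))) := by
  have := h.pos
  have h1 : PP fun v : G × G => (Φ v.1 v.2 : ℂ) := ⟨64 * N ^ 2, by positivity, fun x y => by
    have e := h.Phi_per x.1 x.2 y.1 y.2
    rw [← nsmul_eq_mul, ← nsmul_eq_mul] at e
    exact congrArg GaussianInt.toComplex e⟩
  have h2 := ((cg_const d).mul (cg_norm (AddMonoidHom.snd G G))).pp_q1
    (n := c * (2 * (8 * N : ℕ) ^ 2)) (by positivity)
  simp only [Int.cast_mul, Int.cast_pow, Int.cast_natCast, Int.cast_ofNat,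
    AddMonoidHom.coe_snd] at h2
  exact h1.mul h2

theorem Pair.pp (h : Pair N X Y Φ Ψ) {c : ℕ} (hc : 0 < c) (d : ℤ) : PP fun v : G × G =>
    q1 (-(d * v.1.norm) / (c * (2 * (8 * N : ℕ) ^ 2))) *
      ((Φ v.1 v.2 : ℂ) * q1 (d * v.2.norm / (c * (2 * (8 * N : ℕ) ^ 2)))) := by
  have := h.pos
  have h2 := ((cg_const d).mul (cg_norm (AddMonoidHom.fst G G))).neg.pp_q1
    (n := c * (2 * (8 * N : ℕ) ^ 2)) (by positivity)
  simp only [Int.cast_mul, Int.cast_pow, Int.cast_natCast, Int.cast_ofNat, Int.cast_neg,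
    AddMonoidHom.coe_fst] at h2
  exact h2.mul (h.wk_pp hc d)

theorem Pair.ft (h : Pair N X Y Φ Ψ) {c R : ℕ} (hc : 0 < c) (hR : 0 < R) (d : ℤ) (y : G) :
    Av (fun α : G => q1 (-(d * α.norm) / (c * (2 * (8 * N : ℕ) ^ 2))) *
      Av (fun β : G => (Φ α β : ℂ) * q1 (d * β.norm / (c * (2 * (8 * N : ℕ) ^ 2)))) *
        q1 ((bil α y : ℤ) / (c * (8 * N) * R : ℕ))) =
      Gs c d (X * mb y 0 * Y.adjugate) (R * X.det) / (4 * N) ^ 4 := by
  have N0 := h.pos
  have h2 := (cg_bil_left (AddMonoidHom.fst G G) y).pp_q1 (n := (c * (8 * N) * R : ℕ))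
    (by positivity)
  simp only [Int.cast_natCast, AddMonoidHom.coe_fst] at h2
  have hF := (h.pp hc d).mul h2
  obtain ⟨ι, i1, i2⟩ := h.hom
  have i3 : ∀ g, ((4 * N : ℕ) : ℤ) • (g * Y) = X * mb (ι g).1 (ι g).2 := fun g => by
    rw [Nat.cast_mul, Nat.cast_ofNat, i1]
  have hi := index_pair h.det h.det2 ι i3
  have e := av_sub hF ι (by rw [hi]; positivity) fun v hv => by
    obtain ⟨g, hg⟩ := h.Phi_ne v.1 v.2 fun k => hv (by simp [k])
    exact ⟨g, i2 g _ _ hg⟩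
  have n1 : (N : ℂ) ≠ 0 := Nat.cast_ne_zero.2 N0.ne'
  have n2 : (c : ℂ) ≠ 0 := Nat.cast_ne_zero.2 hc.ne'
  have n3 : (R : ℂ) ≠ 0 := Nat.cast_ne_zero.2 hR.ne'
  have n4 : (X.det : ℂ) ≠ 0 := Int.cast_ne_zero.2 h.det
  rw [av_prod hF, hi] at e
  rw [eq_div_iff (pow_ne_zero _ (mul_ne_zero (by norm_num) n1)), mul_comm]
  refine Eq.trans ?_ (e.symm.trans (congrArg Av (funext fun g => ?_)))
  · refine congrArg₂ (· * ·) (by push_cast; rfl) (congrArg Av (funext fun α => ?_))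
    have p : PP fun β : G => (Φ α β : ℂ) * q1 (d * β.norm / (c * (2 * (8 * N : ℕ) ^ 2))) := by
      simpa using ((h.wk_pp hc d).shift (α, 0)).comp (AddMonoidHom.inr G G)
    rw [mul_right_comm, ← av_mul_left p]
    exact congrArg Av (funext fun β => by ring)
  · have a1 := congrArg (Int.cast : ℤ → ℂ) (rel_det h.det h.det2 (i3 g))
    have a2 := congrArg (Int.cast : ℤ → ℂ) (rel_pr h.det h.det2 (i3 g) y)
    rw [h.Phi_eq g _ _ (i1 g), mul_left_comm, mul_assoc, ← q1_add, ← q1_add]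
    congr 2
    generalize pr g (X * mb y 0 * Y.adjugate) = t at a2 ⊢
    generalize X.det = D at a2 n4 ⊢
    generalize g.det = E at a1 ⊢
    push_cast at a1 a2 ⊢
    field_simp
    linear_combination (-4 * d * R * D) * a1 - 32 * N * a2

end Pool.Agent.Lib.MP_696deb_nt.Y2.W
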