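import Pool.Agent.Lib.MP_696deb_nt.Y2.Wg2
import Pool.Agent.Lib.MP_696deb_nt.Y2.Wk
import Pool.Agent.Lib.MP_696deb_nt.Y2.Wj

/-! The section matches the geometric side. -/

set_option autoImplicit false

open Complex Finset
open scoped Real ComplexConjugate Classical

namespace Pool.Agent.Lib.MP_696deb_nt.Y2.W

open QF (G ii ip Per FT mem_reps)

variable {N : ℕ} {X Y : MZ} {Φ : G → G → G} {Ψ : G → G}

theorem wm_mb (k : ℤ) (y : G) : mb (k * y) 0 = k • mb y 0 := by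
  ext i j
  fin_cases i <;> fin_cases j <;> simp [mb]

theorem wm_cancel {r : ℤ} (hr : r ≠ 0) {Z : MZ} {y : G}
    (h : r • (Z * Y) = (2 : ℤ) • (X * mb (r * y) 0)) : Z * Y = (2 : ℤ) • (X * mb y 0) := by
  rw [wm_mb, Matrix.mul_smul, smul_comm] at h
  exact smul_right_injective _ hr h

theorem wm_per (h : Pair N X Y Φ Ψ) :
    Per (8 * N) fun y : G => (-1 : ℂ) ^ y.norm.natAbs * (Ψ y : ℂ) := fun α γ => by
  simp only [h.Psi_per α γ]
  congr 1
  refine (neg_one_pow_congr ?_)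
  rw [Int.natAbs_even, Int.natAbs_even, ← Int.even_sub]
  refine ⟨(4 * N) * (2 * bil α γ + 8 * N * γ.norm), ?_⟩
  simp [Zsqrtd.norm_def, bil]
  ring

/-- The case of a vanishing weight. -/
theorem wm_zero (h : Pair N X Y Φ Ψ) {c R : ℕ} {d : ℤ} (hc : 0 < c) (hR : 0 < R)
    (hd : IsCoprime (c : ℤ) d) (k : ¬ ((c : ℤ) % 2 = 1 ∧ (5 : ℤ) ∣ c)) (y : G) :
    Gs c d (X * mb y 0 * Y.adjugate) (R * X.det) = 0 := by
  by_contra e
  have c0 : (c : ℤ) ≠ 0 := by omega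
  have R0 : (R : ℤ) ≠ 0 := by omega
  have T0 := mul_ne_zero R0 h.det
  obtain ⟨Z, hZ⟩ := gs_five c0 T0 e
  have h1 := hZ
  rw [← Matrix.smul_mul, ← Matrix.mul_smul, ← wm_mb, rel_adj h.det h.det2] at h1
  obtain ⟨z, hz⟩ := h.int _ _ _ h1
  rw [hz] at h1
  replace h1 := wm_cancel R0 h1
  rw [← gs_scale (k := 5) (by norm_num), hZ, mul_comm 5, gs_scale T0] at e
  refine e ?_
  by_cases h5 : (5 : ℤ) ∣ c
  · have h2 : (2 : ℤ) ∣ c := by omega
    exact gs_even c0 h2 (Int.isCoprime_two_left.1 (hd.of_isCoprime_of_dvd_left h2))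
      ⟨_, rel_det2 h.det h.det2 h1⟩
  · exact gs_not5 h5 (h.five _ _ h1)

theorem wm_main (h : Pair N X Y Φ Ψ) {c R : ℕ} {d : ℤ} (hc : 0 < c) (hR : 0 < R)
    (hd : IsCoprime (c : ℤ) d) (ho : Odd c) (h5 : 5 ∣ c) (y : G) :
    16 * (8 * N) ^ 2 * c * (Gs c d (X * mb y 0 * Y.adjugate) (R * X.det) / (4 * N) ^ 4) =
      conj (ep d : G) * Av fun α : G => q1 (-(d * α.norm) / (c * (2 * (8 * N : ℕ) ^ 2))) *
        ph (8 * N) (iFT (8 * N) fun y => (-1) ^ y.norm.natAbs * Ψ y) c d α *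
          q1 ((bil α y : ℤ) / (c * (8 * N) * R : ℕ)) := by
  have c0 : (c : ℤ) ≠ 0 := by omega
  have R0 : (R : ℤ) ≠ 0 := by omega
  have T0 := mul_ne_zero R0 h.det
  have M0 : 0 < 8 * N := by have := h.pos; omega
  have h5' : (5 : ℤ) ∣ c := by exact_mod_cast h5
  have c1 : (c : ℂ) ≠ 0 := by exact_mod_cast c0
  have R1 : (R : ℂ) ≠ 0 := by exact_mod_cast R0
  have N1 : (N : ℂ) ≠ 0 := Nat.cast_ne_zero.2 h.pos.ne'
  by_cases hy : ((R : ℤ) : G) ∣ y
  · obtain ⟨y, rfl⟩ := hy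
    obtain ⟨u, e, he⟩ : IsCoprime (c : ℤ) (2 ^ 2 * d) :=
      (Int.isCoprime_two_right.2 (by exact_mod_cast ho)).pow_right.mul_right hd
    have e1 : ∀ α : G, ((bil α ((R : ℤ) * y) : ℤ) : ℂ) / (c * (8 * N) * R : ℕ) =
        (bil α y : ℤ) / (c * (8 * N) : ℕ) := fun α => by
      rw [show bil α ((R : ℤ) * y) = bil α y * R by simp [bil]; ring, Nat.cast_mul _ R,
        Int.cast_mul, Int.cast_natCast, mul_div_mul_right _ _ R1]
    simp only [e1]
    rw [hs_val (e := 2 * e) M0 ⟨4 * N, by ring⟩ ho (wm_per h) ⟨-u, by linear_combination he⟩]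
    by_cases k : ∃ Z : MZ, Z * Y = (2 : ℤ) • (X * mb y 0)
    · obtain ⟨Z, hZ⟩ := k
      have := gs_scale T0 c d Z 1
      rw [mul_one] at this
      rw [(rel_adj h.det h.det2 Z _ R).2 (by rw [hZ, wm_mb, Matrix.mul_smul, smul_comm]), this,
        gs_val (e := e) ho h5 ⟨-u, by linear_combination he⟩, rel_det2 h.det h.det2 hZ,
        h.Psi_eq _ _ hZ, show e * (2 * y.norm) = 2 * e * y.norm by ring,
        mul_right_comm ((-1 : ℂ) ^ _), ← mul_pow]
      push_cast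
      field_simp
      ring
    · have : Gs c d (X * mb ((R : ℤ) * y) 0 * Y.adjugate) (R * X.det) = 0 := by_contra fun e =>
        (gs_int c0 h5' T0 e).elim fun Z hZ => k ⟨Z, wm_cancel R0 ((rel_adj h.det h.det2 _ _ _).1 hZ)⟩
      rw [this, not_not.1 (mt (h.Psi_ne y) k)]
      simp
  · have : Gs c d (X * mb y 0 * Y.adjugate) (R * X.det) = 0 := by_contra fun e =>
      (gs_int c0 h5' T0 e).elim fun Z hZ => hy (h.int _ _ _ ((rel_adj h.det h.det2 _ _ _).1 hZ))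
    obtain ⟨γ, hγ⟩ : ∃ γ : G, ¬ (R : ℤ) ∣ bil γ y := by
      rw [Zsqrtd.intCast_dvd, not_and_or] at hy
      exact hy.elim (fun k => ⟨1, by simpa [bil] using k⟩) fun k => ⟨⟨0, 1⟩, by simpa [bil] using k⟩
    have p := hs_per M0 ⟨4 * N, by ring⟩ ho
      (iFT (8 * N) fun y => (-1) ^ y.norm.natAbs * Ψ y) d
    have P0 : ((c * (8 * N) * R : ℕ) : ℤ) ≠ 0 := by positivity
    rw [this, av_zero_of_shift (s := (c * (8 * N) : ℕ) * γ) (ζ := q1 ((bil γ y : ℤ) / (R : ℤ)))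
      (((pe_iff_per.2 p).pp (by positivity)).mul
        (by simpa using (cg_bil_left (AddMonoidHom.id G) y).pp_q1 P0))
      (fun x => ?_) (mt (q1_div_eq_one R0).1 hγ)]
    · simp
    · have := p x γ
      simp only at this
      rw [this, mul_left_comm (q1 _) (_ * _), ← q1_add]
      congr 2
      rw [show bil (x + (c * (8 * N) : ℕ) * γ) y = bil x y + c * (8 * N) * bil γ y by
        simp [bil]; ring]
      push_cast
      field_simp
      ring

theorem Pair.mat (h : Pair N X Y Φ Ψ) {c : ℕ} {d : ℤ} (hc : 0 < c) (hd : IsCoprime (c : ℤ) d)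
    (A : G) : Wt c d * ph (8 * N) (iFT (8 * N) fun y => (-1) ^ y.norm.natAbs * Ψ y) c d A =
      16 * (8 * N) ^ 2 * c *
        Av fun β : G => (Φ A β : ℂ) * q1 (d * β.norm / (c * (2 * (8 * N : ℕ) ^ 2))) := by
  have M0 : 0 < 8 * N := by have := h.pos; omega
  have F := h.pp hc d
  have q0 : ∀ z, q1 z ≠ 0 := fun z => Complex.exp_ne_zero _
  have pf : PP fun α : G => q1 (-(d * α.norm) / (c * (2 * (8 * N : ℕ) ^ 2))) *
      Av fun β : G => (Φ α β : ℂ) * q1 (d * β.norm / (c * (2 * (8 * N : ℕ) ^ 2))) := by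
    convert pp_av F using 2 with α
    refine (av_mul_left ?_ _).symm
    convert ((F.shift (α, 0)).comp (AddMonoidHom.inr G G)).const_mul
      (q1 (-(d * α.norm) / (c * (2 * (8 * N : ℕ) ^ 2))))⁻¹ using 2 with β
    rw [eq_inv_mul_iff_mul_eq₀ (q0 _)]
    simp
  obtain ⟨R, hR, hf⟩ := pf
  have P0 : 0 < c * (8 * N) * R := by positivity
  have pg : Pe (c * (8 * N) * R) fun α : G => Wt c d *
      (q1 (-(d * α.norm) / (c * (2 * (8 * N : ℕ) ^ 2))) *
        ph (8 * N) (iFT (8 * N) fun y => (-1) ^ y.norm.natAbs * Ψ y) c d α) := fun x y => by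
    by_cases k : (c : ℤ) % 2 = 1 ∧ (5 : ℤ) ∣ c
    · exact congrArg _ ((pe_iff_per.2 (hs_per M0 ⟨4 * N, by ring⟩
        (Nat.odd_iff.2 (by omega)) _ d)).mono (dvd_mul_right _ R) x y)
    · simp only [Wt, if_neg k, zero_mul]
  have hf' := hf.mono (dvd_mul_left R (c * (8 * N)))
  have hs : ∀ {P : ℕ} {f g : G → ℂ} (k : ℂ), Pe P f → Pe P g → Pe P fun x => f x - k * g x :=
    fun k a b x y => by simp only [a x y, b x y]
  have key := fourier_zero P0 (pe_iff_per.1 (hs (16 * (8 * N) ^ 2 * c) pg hf')) (fun y => ?_) A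
  · refine mul_left_cancel₀ (q0 (-(d * A.norm) / (c * (2 * (8 * N : ℕ) ^ 2)))) ?_
    linear_combination key
  have pq : PP fun x : G => q1 ((bil x y : ℤ) / (c * (8 * N) * R : ℕ)) := by
    simpa using (cg_bil_left (AddMonoidHom.id G) y).pp_q1 (Int.natCast_ne_zero.2 P0.ne')
  simp only [sub_mul, mul_assoc (16 * _ * _ : ℂ)]
  rw [av_minus ((pg.pp P0).mul pq) (((hf'.pp P0).mul pq).const_mul _),
    av_mul_left ((hf'.pp P0).mul pq), h.ft hc hR, sub_eq_zero]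
  by_cases k : (c : ℤ) % 2 = 1 ∧ (5 : ℤ) ∣ c
  · have ho : Odd c := Nat.odd_iff.2 (by omega)
    rw [wm_main h hc hR hd ho (by omega), ← av_mul_left (((pe_iff_per.2
      (hs_per M0 ⟨4 * N, by ring⟩ ho _ d)).pp (by positivity)).mul pq)]
    simp only [Wt, if_pos k, mul_assoc, starRingEnd_apply, GaussianInt.toComplex_star]
  · rw [wm_zero h hc hR hd k]
    simp [Wt, if_neg k, av_const]

end Pool.Agent.Lib.MP_696deb_nt.Y2.W
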